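import Mathlib

/-!
# Nieuwland numbers of the regular icosahedron and dodecahedron (MP_5fb7d4_co, S09083)

Project NW (helper315): definitions and statements of the pieces.
-/

set_option autoImplicit false

namespace Pool.Agent.H315.NW

open Matrix

/-- the golden ratio -/
noncomputable abbrev g : ℝ := Real.goldenRatio

/-- the vertices of the icosahedron -/
def VI : Set (Fin 3 → ℝ) :=
  {v | ∃ s t : ℝ, (s = 1 ∨ s = -1) ∧ (t = 1 ∨ t = -1) ∧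
          (v = ![0, s, t * Real.goldenRatio] ∨ v = ![s, t * Real.goldenRatio, 0] ∨
           v = ![t * Real.goldenRatio, 0, s])}

/-- the vertices of the dodecahedron -/
def VD : Set (Fin 3 → ℝ) :=
  {v | ∃ r s t : ℝ, (r = 1 ∨ r = -1) ∧ (s = 1 ∨ s = -1) ∧ (t = 1 ∨ t = -1) ∧
          (v = ![r, s, t] ∨ v = ![0, s / Real.goldenRatio, t * Real.goldenRatio] ∨
           v = ![s / Real.goldenRatio, t * Real.goldenRatio, 0] ∨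
           v = ![t * Real.goldenRatio, 0, s / Real.goldenRatio])}

/-- the scale factors of the frozen statement -/
def SC (V : Set (Fin 3 → ℝ)) : Set ℝ :=
  {c : ℝ | 0 < c ∧
        ∃ A ∈ Matrix.specialOrthogonalGroup (Fin 3) ℝ,
        ∃ B ∈ Matrix.specialOrthogonalGroup (Fin 3) ℝ,
        ∃ w : Fin 2 → ℝ,
          (fun x : Fin 3 → ℝ => c • ![(A.mulVec x) 0, (A.mulVec x) 1] + w) '' convexHull ℝ V ⊆
            interior ((fun x : Fin 3 → ℝ => ![(B.mulVec x) 0, (B.mulVec x) 1]) '' convexHull ℝ V)}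

/-- weak passage: for every direction `y` orthogonal to `n` the width of `c V` in the direction `y`
is at most the width of `V` in the direction `Q y` -/
def WP (V : Set (Fin 3 → ℝ)) (c : ℝ) (Q : Matrix (Fin 3) (Fin 3) ℝ) (n : Fin 3 → ℝ) : Prop :=
  ∀ y : Fin 3 → ℝ, y ⬝ᵥ n = 0 → ∀ v ∈ V, ∃ z ∈ V, c * (y ⬝ᵥ v) ≤ (Q *ᵥ y) ⬝ᵥ z

/-- the rotation matrix of a quaternion, multiplied by the square of its norm -/
def Rm (p : Fin 4 → ℝ) : Matrix (Fin 3) (Fin 3) ℝ :=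
  !![p 0 ^ 2 + p 1 ^ 2 - p 2 ^ 2 - p 3 ^ 2, 2 * (p 1 * p 2 - p 0 * p 3),
      2 * (p 1 * p 3 + p 0 * p 2);
    2 * (p 1 * p 2 + p 0 * p 3), p 0 ^ 2 - p 1 ^ 2 + p 2 ^ 2 - p 3 ^ 2,
      2 * (p 2 * p 3 - p 0 * p 1);
    2 * (p 1 * p 3 - p 0 * p 2), 2 * (p 2 * p 3 + p 0 * p 1),
      p 0 ^ 2 - p 1 ^ 2 - p 2 ^ 2 + p 3 ^ 2]

/-- the square of the norm of a quaternion -/
def nq (p : Fin 4 → ℝ) : ℝ := p 0 ^ 2 + p 1 ^ 2 + p 2 ^ 2 + p 3 ^ 2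

/-- weak passage in terms of quaternions -/
def WQ (V : Set (Fin 3 → ℝ)) (c : ℝ) (p : Fin 4 → ℝ) (n : Fin 3 → ℝ) : Prop :=
  ∀ y : Fin 3 → ℝ, y ⬝ᵥ n = 0 → ∀ v ∈ V, ∃ z ∈ V, c * nq p * (y ⬝ᵥ v) ≤ (Rm p *ᵥ y) ⬝ᵥ z

/-- the number `√(1 + 16 φ)` -/
noncomputable def w : ℝ := Real.sqrt (1 + 16 * g)

/-- the number `ν₀` -/
noncomputable def nu : ℝ := Real.sqrt ((89 + 88 * g - (1 + 16 * g) * w) / 90)

/-- `tan a` -/
noncomputable def T : ℝ := (3 + 7 * g - g ^ 2 * w) / 2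

/-- `cot b` (the number `t = tan b` is `(3 + 4 φ + w) / 4`) -/
noncomputable def U : ℝ := 4 / (3 + 4 * g + w)

/-- `cos a` and `sin a` -/
noncomputable def Ca : ℝ := 1 / Real.sqrt (1 + T ^ 2)
noncomputable def Sa : ℝ := T / Real.sqrt (1 + T ^ 2)

/-- `cos β` and `sin β` with `tan β = U` -/
noncomputable def Cb : ℝ := 1 / Real.sqrt (1 + U ^ 2)
noncomputable def Sb : ℝ := U / Real.sqrt (1 + U ^ 2)

/-- the rotation about the first axis -/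
def RX (c s : ℝ) : Matrix (Fin 3) (Fin 3) ℝ := !![1, 0, 0; 0, c, -s; 0, s, c]

/-- the rotation about the second axis -/
def RY (c s : ℝ) : Matrix (Fin 3) (Fin 3) ℝ := !![c, 0, s; 0, 1, 0; -s, 0, c]

/-! ### Statements of the pieces -/

/-- NW-LINK.  Proof.  Let `c ∈ SC V` with `A, B, w`.  Put `Q = Bᵀ * A` and `n = Aᵀ e₃ = A 2` (the
third row of `A`), `n ≠ 0`.  Let `y ⬝ᵥ n = 0`, that is `(A y) 2 = 0`, and `u = ((A y) 0, (A y) 1)`.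
For `v ∈ V` the point `c π(A v) + w` is in `π(B conv V)` (`interior_subset`), so it is `π(B x)` with
`x ∈ convexHull ℝ V`, and `c (y ⬝ᵥ v) + u ⬝ᵥ w = (A y) ⬝ᵥ (B x) = (Q y) ⬝ᵥ x ≤ max_{z ∈ V} (Q y) ⬝ᵥ z`
(a linear function on a convex hull of a finite set).  The same with `-y, -v` gives
`c (y ⬝ᵥ v) - u ⬝ᵥ w ≤ max_{z ∈ V} (- Q y) ⬝ᵥ z = max_{z ∈ V} (Q y) ⬝ᵥ z` because `V = -V`.  Add. -/
def S_LINK : Prop := ∀ V : Set (Fin 3 → ℝ), V.Finite → V.Nonempty → (∀ v ∈ V, -v ∈ V) →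
  ∀ c ∈ SC V, ∃ Q ∈ Matrix.specialOrthogonalGroup (Fin 3) ℝ, ∃ n : Fin 3 → ℝ, n ≠ 0 ∧ WP V c Q n

/-- NW-NU.  `g ^ 2 = g + 1`, `w ^ 2 = 1 + 16 g`, `nu ^ 2 = (89 + 88 g - (1 + 16 g) w) / 90` (the
radicand is positive); rational bounds for `g`, `w` to 12 digits. -/
def S_NU : Prop :=
  2025 * nu ^ 8 - 11970 * nu ^ 6 + 17009 * nu ^ 4 - 9000 * nu ^ 2 + 2000 = 0 ∧
    1.01082306 < nu ∧ nu < 1.01082307

/-- NW-ALG: the exact relations between the numbers.  All of them have been checked to 55 digits.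
`T` is a root of `T ^ 2 - (3 + 7 g) T + 2 g ^ 2 = 0` and `t = 1 / U = (3 + 4 g + w) / 4` is a root of
`2 t ^ 2 - (3 + 4 g) t + 3 g ^ 2 = 0`; `Sa = T Ca`, `Sb = U Cb`, `Ca ^ 2 = 1 / (1 + T ^ 2)`,
`Cb ^ 2 = 1 / (1 + U ^ 2)`.  The numbers `Ca Cb`, `nu Ca`, `nu Cb` ... lie in quadratic extensions of
`ℚ(g, w)`; to prove e.g. `(Sb + Cb / g) * (g * Ca - Sa) = Ca Cb (U + 1 / g) (g - T) = 1` square both
sides (both sides are positive), which is an identity in `ℚ(g, w)`; the others follow in the same way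
or from the ones before. -/
def S_ALG : Prop :=
  Ca ^ 2 + Sa ^ 2 = 1 ∧ Cb ^ 2 + Sb ^ 2 = 1 ∧
  -- the optimum of the icosahedron
  (Sb + Cb / g) * (g * Ca - Sa) = 1 ∧
  nu * (1 + (Sb + Cb / g) * Ca) = Sb + g * Cb ∧
  (g * Sb - Cb) * (g * Sa + Ca) = nu * (Sb / g - Cb) ∧
  -- the optimum of the dodecahedron
  (g * Sa + Ca / g) * (Cb / g - Sb) = 1 / g ^ 2 ∧
  nu * (1 / g + (g * Sa + Ca / g) * g * Cb) = g * (Ca + g * Sa) ∧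
  (g * Ca - Sa) * (Sb / g + Cb) = nu * (g * Ca - Sa / g) ∧
  -- numerical values
  |T - 0.37532069708| < 1 / 10 ^ 10 ∧ |U - 0.27289685808| < 1 / 10 ^ 10 ∧
  |Ca - 0.93623042943| < 1 / 10 ^ 10 ∧ |Sa - 0.35138665740| < 1 / 10 ^ 10 ∧
  |Cb - 0.96472227929| < 1 / 10 ^ 10 ∧ |Sb - 0.26326967893| < 1 / 10 ^ 10

/-- NW-LOWI.  Take `A = RX Ca Sa`, `B = (RY Cb Sb)ᵀ`, `w = 0`.  The inner points are
`π (A v) = (v 0, v 1 Ca - v 2 Sa)`: all of them are in the rectangle-like hull, namely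
`(0, ± Ca ± g Sa)`, `(± 1, ± g Ca)`, `(± g, ± Sa)`.  The outer points are
`π (B v) = (v 0 Cb - v 2 Sb, v 1)`; they contain `(± X, 0)` and `(± Cb, ± g)` with `X = g Cb + Sb`.
Put `Y = Sb + Cb / g = X - Cb`.  Every `(x, y)` with `|y| ≤ g`, `g |x| + Y |y| ≤ g X` is in the outer
hull: for `0 ≤ y` put `τ = y / g`, `σ = x / ((1 - τ) X + τ Cb)`; the point is
`(1+σ)/2 ((1-τ)(X,0) + τ(Cb,g)) + (1-σ)/2 ((1-τ)(-X,0) + τ(-Cb,g))`; symmetric for `y < 0`.  So the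
open set `O = {|y| < g, g |x| + Y |y| < g X}` (open, convex) is in the interior.  For `c < nu` every
`c π (A v)` is in `O`: for `(1, g Ca)` this is `nu (1 + Y Ca) = X`, for `(g, Sa)` it is
`g ^ 2 + Y Sa = g (1 + Y Ca)` (from `Y (g Ca - Sa) = 1`), for `(0, Ca + g Sa)` use
`Ca + g Sa < g Ca` numerically; `nu Ca < 1` numerically.  A linear image of `convexHull` is the
`convexHull` of the image (`LinearMap.image_convexHull` or so), `convexHull_min`. -/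
def S_LOWI : Prop := S_NU → S_ALG → ∀ c : ℝ, 0 < c → c < nu → c ∈ SC VI

/-- NW-LOWD.  Take `A = RX Cb Sb`, `B = (RY Ca Sa)ᵀ`, `w = 0`.  Inner points
`π (A v) = (v 0, v 1 Cb - v 2 Sb)`: `(± 1, ± Cb ± Sb)`, `(0, ± Cb / g ± g Sb)`, `(± 1 / g, ± g Cb)`,
`(± g, ± Sb / g)`.  Outer points `π (B v) = (v 0 Ca - v 2 Sa, v 1)`; they contain `(± X1, 0)`,
`(± X2, ± 1)`, `(± X3, ± g)` with `X1 = g Ca + Sa / g`, `X2 = Ca + Sa`, `X3 = Ca / g`.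
Put `Z = g Sa + Ca / g`, `K = g (Ca + g Sa)`.  Every `(x, y)` with `|y| ≤ g`,
`|x| + (X1 - X2) |y| ≤ X1`, `|x| + Z |y| ≤ K` is in the outer hull (slices: for `0 ≤ y ≤ 1` between
`(X1, 0)` and `(X2, 1)`, for `1 ≤ y ≤ g` between `(X2, 1)` and `(X3, g)`; note
`X2 + Z = K`, `X3 + Z g = K`).  Open set `O` with strict inequalities.  For `c < nu` every
`c π (A v)` is in `O`: the only tight conditions are `nu (1 / g + Z g Cb) = K` and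
`1 + Z (Cb + Sb) = 1 / g + Z g Cb` (from `Z (Cb / g - Sb) = 1 / g ^ 2`); all others numerically. -/
def S_LOWD : Prop := S_NU → S_ALG → ∀ c : ℝ, 0 < c → c < nu → c ∈ SC VD

/-- NW-REDG: the general symmetry reduction.  `u` are three mirror vectors, `P` the quaternions
(of norm `2`) of the twelve rotations by `± 72` degrees.  Proof.
(0) `WP V c Q n` implies `WP V c (k * Q) n` for `k` orthogonal with `k V ⊆ V`, `WP V c (-Q) n`, and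
`WP V c (Q * hᵀ) (h *ᵥ n)` for `h` orthogonal with `hᵀ V ⊆ V`.
(1) `H = {h | hᵀ h = 1, h V ⊆ V, hᵀ V ⊆ V}` is compact (closed because `V` is finite, entries
bounded by 1) and contains 1 and is closed under multiplication by the three reflections, so
`⟨h n, ρ⟩` has a maximum at some `h ∈ H`; with the reflection `s = 1 - 2 u uᵀ`,
`⟨h n, ρ⟩ ≥ ⟨s h n, ρ⟩ = ⟨h n, ρ⟩ - 2 ⟨h n, u⟩ ⟨u, ρ⟩`, so `⟨h n, u⟩ ≥ 0`.  Put `n' = h n`.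
(2) Now `Q' = Q hᵀ` is orthogonal with determinant `± 1`; replace it by `- Q'` if necessary.
(3) `K = {k ∈ SO(3) | k V ⊆ V}` is compact and closed under multiplication with the rotations
`(1/4) Rm (P j)`, take `k ∈ K` with `tr (k Q')` maximal, `Q'' = k Q'`.  Then
`tr ((1/4) Rm (P j) Q'') ≤ tr Q''` for all `j`; summing over `j`, `4 g tr Q'' ≤ 12 tr Q''`, so
`tr Q'' ≥ 0`.
(4) `p = (1 + tr Q, Q 2 1 - Q 1 2, Q 0 2 - Q 2 0, Q 1 0 - Q 0 1)` with `Q = Q''`.  For `Q ∈ SO(3)`: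
`Rm p = 4 (1 + tr Q) Q` and `nq p = 4 (1 + tr Q)` (e.g. `(1 + tr Q) (1 + Q 0 0 - Q 1 1 - Q 2 2) =
(Q 2 1 - Q 1 2) ^ 2` by `Q 0 0 = Q 1 1 Q 2 2 - Q 1 2 Q 2 1` (adjugate = transpose) and the norms of
rows and columns).  So `WQ V c p n'`.
(5) `tr (Rm (P j) * Rm p) = 4 r ^ 2 - 4 nq p` with `r = P j 0 * p 0 - P j 1 * p 1 - P j 2 * p 2 -
P j 3 * p 3` (by `ring` and `nq (P j) = 4`), so `tr ((1/4) Rm (P j) Q) ≤ tr Q` gives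
`r ^ 2 ≤ (2 p 0) ^ 2`, so `r ≤ 2 p 0`. -/
def S_REDG : Prop := ∀ V : Set (Fin 3 → ℝ), V.Finite → V.Nonempty → (∀ v ∈ V, -v ∈ V) →
  ∀ (u : Fin 3 → Fin 3 → ℝ) (ρ : Fin 3 → ℝ) (P : Fin 12 → Fin 4 → ℝ),
  (∀ i, u i ⬝ᵥ u i = 1) → (∀ i, 0 < ρ ⬝ᵥ u i) →
  (∀ i, ∀ v ∈ V, v - (2 * (v ⬝ᵥ u i)) • u i ∈ V) →
  (∀ j, nq (P j) = 4) → (∀ j, ∀ v ∈ V, ((1 / 4 : ℝ) • Rm (P j)) *ᵥ v ∈ V) →
  (∑ j, Rm (P j) = (16 * g) • (1 : Matrix (Fin 3) (Fin 3) ℝ)) →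
  ∀ c : ℝ, ∀ Q ∈ Matrix.specialOrthogonalGroup (Fin 3) ℝ, ∀ n : Fin 3 → ℝ, n ≠ 0 → WP V c Q n →
  ∃ (p : Fin 4 → ℝ) (n' : Fin 3 → ℝ), 0 < p 0 ∧ n' ≠ 0 ∧ (∀ i, 0 ≤ n' ⬝ᵥ u i) ∧
    (∀ j, P j 0 * p 0 - P j 1 * p 1 - P j 2 * p 2 - P j 3 * p 3 ≤ 2 * p 0) ∧ WQ V c p n'

/-- NW-REDI.  Apply `S_REDG` with `u 0 = (1, 0, 0)`, `u 1 = (0, 1, 0)`,
`u 2 = (-g, -1, 1 / g) / 2`, `ρ = (1, 1, 10)`, and the `P j` are the twelve quaternions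
`(g, 0, s (g - 1), t)`, `(g, s (g - 1), t, 0)`, `(g, t, 0, s (g - 1))` with `s, t = ± 1`. -/
def S_REDI : Prop := S_REDG → ∀ c : ℝ, ∀ Q ∈ Matrix.specialOrthogonalGroup (Fin 3) ℝ,
  ∀ n : Fin 3 → ℝ, n ≠ 0 → WP VI c Q n →
  ∃ (p : Fin 4 → ℝ) (n' : Fin 3 → ℝ), 0 < p 0 ∧
    (∀ s t : ℝ, (s = 1 ∨ s = -1) → (t = 1 ∨ t = -1) →
      s * (g - 1) * p 2 + t * p 3 ≤ (2 - g) * p 0 ∧ s * (g - 1) * p 1 + t * p 2 ≤ (2 - g) * p 0 ∧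
      s * (g - 1) * p 3 + t * p 1 ≤ (2 - g) * p 0) ∧
    0 ≤ n' 0 ∧ 0 ≤ n' 1 ∧ 0 < n' 2 ∧ g ^ 2 * n' 0 + g * n' 1 ≤ n' 2 ∧ WQ VI c p n'

/-- NW-REDD.  Apply `S_REDG` with `u 0 = (1, 0, 0)`, `u 1 = (0, 1, 0)`,
`u 2 = (-1, -g, 1 / g) / 2`, `ρ = (1, 1, 10)`, and the `P j` are the twelve quaternions
`(g, 0, t, s (g - 1))`, `(g, t, s (g - 1), 0)`, `(g, s (g - 1), 0, t)` with `s, t = ± 1`. -/
def S_REDD : Prop := S_REDG → ∀ c : ℝ, ∀ Q ∈ Matrix.specialOrthogonalGroup (Fin 3) ℝ,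
  ∀ n : Fin 3 → ℝ, n ≠ 0 → WP VD c Q n →
  ∃ (p : Fin 4 → ℝ) (n' : Fin 3 → ℝ), 0 < p 0 ∧
    (∀ s t : ℝ, (s = 1 ∨ s = -1) → (t = 1 ∨ t = -1) →
      s * (g - 1) * p 3 + t * p 2 ≤ (2 - g) * p 0 ∧ s * (g - 1) * p 2 + t * p 1 ≤ (2 - g) * p 0 ∧
      s * (g - 1) * p 1 + t * p 3 ≤ (2 - g) * p 0) ∧
    0 ≤ n' 0 ∧ 0 ≤ n' 1 ∧ 0 < n' 2 ∧ g * n' 0 + g ^ 2 * n' 1 ≤ n' 2 ∧ WQ VD c p n'

end Pool.Agent.H315.NW
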