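import Mathlib
import Pool.Agent.H315.NW.Defs

/-!
# Project NW: exact relations between the numbers
-/

set_option autoImplicit false

namespace Pool.Agent.H315.NW

open Matrix

namespace Alg

theorem hg : g ^ 2 = g + 1 := Real.goldenRatio_sq

theorem g_pos : 0 < g := Real.goldenRatio_pos

theorem hw : w ^ 2 = 1 + 16 * g := by
  unfold w
  rw [Real.sq_sqrt]
  have := g_pos
  linarith

theorem ginv : g⁻¹ = g - 1 := by
  rw [inv_eq_iff_eq_inv, eq_comm, inv_eq_iff_eq_inv, eq_comm, inv_eq_of_mul_eq_one_left]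
  linear_combination hg

theorem g_bd : 1.6180339887498948 < g ∧ g < 1.6180339887498949 := by
  have h5 : (2.2360679774997896 : ℝ) < Real.sqrt 5 := by
    rw [Real.lt_sqrt (by norm_num)]
    norm_num
  have h5' : Real.sqrt 5 < 2.2360679774997898 := by
    rw [Real.sqrt_lt' (by norm_num)]
    norm_num
  have e : g = (1 + Real.sqrt 5) / 2 := rfl
  rw [e]
  constructor
  · norm_num at h5 ⊢
    linarith
  · norm_num at h5' ⊢
    linarith

theorem w_bd : 5.185416455791985 < w ∧ w < 5.185416455791986 := by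
  obtain ⟨h1, h2⟩ := g_bd
  unfold w
  constructor
  · rw [Real.lt_sqrt (by norm_num)]
    norm_num at h1 ⊢
    linarith
  · rw [Real.sqrt_lt' (by norm_num)]
    norm_num at h2 ⊢
    linarith

theorem gw_bd : 8.3901800712944 < g * w ∧ g * w < 8.3901800712945 := by
  obtain ⟨h1, h2⟩ := g_bd
  obtain ⟨h3, h4⟩ := w_bd
  constructor
  · have : (1.6180339887498948 : ℝ) * 5.185416455791985 < g * w :=
      mul_lt_mul'' h1 h3 (by norm_num) (by norm_num)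
    norm_num at this ⊢
    linarith
  · have : g * w < (1.6180339887498949 : ℝ) * 5.185416455791986 :=
      mul_lt_mul'' h2 h4 g_pos.le (by linarith [show (0:ℝ) < 5.185416455791985 by norm_num])
    norm_num at this ⊢
    linarith

theorem hT : T = 3 / 2 + 7 / 2 * g - 1 / 2 * w - 1 / 2 * (g * w) := by
  unfold T
  rw [hg]
  ring

theorem hU : U = 1 / 3 + 1 / 6 * g - 1 / 3 * w + 1 / 6 * (g * w) := by
  have h1 := g_pos
  have h2 : 0 ≤ w := Real.sqrt_nonneg _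
  have h3 : 3 + 4 * g + w ≠ 0 := by positivity
  unfold U
  rw [div_eq_iff h3]
  linear_combination ((-10/3) + (-2/3)*w) * hg + ((1/3) + (-1/6)*g) * hw

/-- `nu ^ 2` -/
noncomputable def N : ℝ := 89 / 90 + 44 / 45 * g - 1 / 90 * w - 8 / 45 * (g * w)

theorem hN : nu = Real.sqrt N := by
  unfold nu N
  congr 1
  ring

theorem N_bd : 1.01082306 ^ 2 < N ∧ N < 1.01082307 ^ 2 := by
  obtain ⟨h1, h2⟩ := g_bd
  obtain ⟨h3, h4⟩ := w_bd
  obtain ⟨h5, h6⟩ := gw_bd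
  unfold N
  norm_num at h1 h2 h3 h4 h5 h6 ⊢
  constructor <;> linarith

theorem N_pos : 0 < N := lt_trans (by norm_num) N_bd.1

theorem nu_sq : nu ^ 2 = N := by
  rw [hN, Real.sq_sqrt N_pos.le]

theorem nu_pos : 0 < nu := by
  rw [hN]
  exact Real.sqrt_pos.2 N_pos

/-- `Ca / Cb` -/
noncomputable def q : ℝ := 1 / 6 + 1 / 6 * g - 1 / 6 * w + 1 / 6 * (g * w)

/-- `nu / Cb` -/
noncomputable def ka : ℝ := 5 / 6 + 2 / 3 * g - 1 / 6 * w

theorem q_pos : 0 < q := by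
  obtain ⟨h1, h2⟩ := g_bd
  obtain ⟨h3, h4⟩ := w_bd
  obtain ⟨h5, h6⟩ := gw_bd
  unfold q
  norm_num at h1 h2 h3 h4 h5 h6 ⊢
  linarith

theorem ka_pos : 0 < ka := by
  obtain ⟨h1, h2⟩ := g_bd
  obtain ⟨h3, h4⟩ := w_bd
  unfold ka
  norm_num at h1 h2 h3 h4
  linarith

theorem E1 : q * (U + (g - 1)) * (g - T) = 1 + U ^ 2 := by
  have hg := hg
  have hw := hw
  rw [hT, hU]
  unfold q
  linear_combination ((10/9) + (-1/9)*w + (14/9)*g + (-2/3)*g*w + (2/3)*g^2 + (2/9)*g^2*w) * hg + ((-1/6) + (1/36)*w + (-1/24)*g + (-1/72)*g*w + (1/12)*g^2 + (-1/36)*g^2*w + (1/24)*g^3 + (1/72)*g^3*w) * hw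

theorem E2 : ka * (1 + U ^ 2 + q * (U + (g - 1))) = (U + g) * (1 + U ^ 2) := by
  have hg := hg
  have hw := hw
  rw [hU]
  unfold q ka
  linear_combination ((-14/27) + (-4/27)*w + (5/27)*g + (1/3)*g*w + (-2/27)*g^2 + (-2/27)*g^2*w) * hg + ((1/18) + (1/108)*w + (-11/216)*g + (-5/216)*g*w + (1/108)*g^2 + (1/54)*g^2*w + (-1/216)*g^3 + (-1/216)*g^3*w) * hw

theorem E3 : q * (g * U - 1) * (g * T + 1) = ka * (U * (g - 1) - 1) := by
  have hg := hg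
  have hw := hw
  rw [hT, hU]
  unfold q ka
  linear_combination ((-1) + (1/3)*w + (-1/6)*g + (-11/18)*g*w + (16/9)*g^2 + (4/9)*g^2*w + (-19/6)*g^3 + (7/18)*g^3*w + (10/9)*g^4 + (-2/9)*g^4*w) * hg + ((1/18) + (-1/9)*g + (1/12)*g^2 + (-1/36)*g^2*w + (17/72)*g^3 + (1/72)*g^3*w + (-5/18)*g^4 + (1/36)*g^4*w + (5/72)*g^5 + (-1/72)*g^5*w) * hw

theorem E4 : q * (g * T + (g - 1)) * ((g - 1) - U) = (1 + U ^ 2) * (g - 1) ^ 2 := by
  have hg := hg
  have hw := hw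
  rw [hT, hU]
  unfold q
  linear_combination ((17/18) + (1/18)*w + (-5/3)*g + (-7/9)*g*w + (97/18)*g^2 + (1/18)*g^2*w + (-26/9)*g^3 + (2/9)*g^3*w) * hg + ((-1/18) + (-1/36)*g + (1/36)*g*w + (-7/24)*g^2 + (-1/72)*g^2*w + (1/2)*g^3 + (-1/36)*g^3*w + (-13/72)*g^4 + (1/72)*g^4*w) * hw

theorem E5 : ka * ((g - 1) * (1 + U ^ 2) + q * (g * T + (g - 1)) * g) =
    g * q * (1 + g * T) * (1 + U ^ 2) := by
  have hg := hg
  have hw := hw
  rw [hT, hU]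
  unfold q ka
  linear_combination ((19/18) + (-7/18)*w + (32/27)*g + (-2/27)*g*w + (-85/54)*g^2 + (19/54)*g^2*w + (55/27)*g^3 + (-7/9)*g^3*w + (1/54)*g^4 + (49/54)*g^4*w + (-64/27)*g^5 + (-4/27)*g^5*w + (16/27)*g^6) * hg + ((-7/54) + (1/54)*w + (7/108)*g + (-1/54)*g*w + (1/18)*g^2 + (1/36)*g^2*w + (-1/108)*g^2*w^2 + (-29/108)*g^3 + (1/27)*g^3*w + (1/108)*g^3*w^2 + (107/432)*g^4 + (-25/216)*g^4*w + (1/144)*g^4*w^2 + (1/8)*g^5 + (5/72)*g^5*w + (-1/108)*g^5*w^2 + (-3/16)*g^6 + (-1/108)*g^6*w + (1/432)*g^6*w^2 + (1/27)*g^7) * hw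

theorem E6 : (g - T) * (U * (g - 1) + 1) = ka * (g - T * (g - 1)) := by
  have hg := hg
  have hw := hw
  rw [hT, hU]
  unfold ka
  linear_combination ((13/6) + (-1/2)*w + (2)*g + (-2/3)*g*w + (4/3)*g^2) * hg + ((1/12) + (-1/12)*g + (-1/12)*g^2 + (1/12)*g^3) * hw

theorem E7 : q ^ 2 * (1 + T ^ 2) = 1 + U ^ 2 := by
  have hg := hg
  have hw := hw
  rw [hT, hU]
  unfold q
  linear_combination ((17/18) + (1/18)*w + (-19/6)*g + (31/18)*g*w + (-127/18)*g^2 + (1/2)*g^2*w + (40/9)*g^3 + (-4/3)*g^3*w + (16/9)*g^4) * hg + ((11/144) + (-1/18)*w + (1/144)*w^2 + (23/36)*g + (-1/12)*g*w + (-1/24)*g^2 + (5/36)*g^2*w + (-1/72)*g^2*w^2 + (-31/36)*g^3 + (1/12)*g^3*w + (23/144)*g^4 + (-1/12)*g^4*w + (1/144)*g^4*w^2 + (1/9)*g^5) * hw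

theorem E8 : ka ^ 2 = N * (1 + U ^ 2) := by
  have hg := hg
  have hw := hw
  rw [hU]
  unfold N ka
  linear_combination ((22/45) + (2/45)*w + (80/81)*g + (-112/405)*g*w + (-112/405)*g^2 + (32/405)*g^2*w) * hg + ((-137/1620) + (1/810)*w + (-31/810)*g + (1/54)*g*w + (53/648)*g^2 + (-7/360)*g^2*w + (-7/405)*g^3 + (2/405)*g^3*w) * hw

theorem E9 : 2025 * N ^ 4 - 11970 * N ^ 3 + 17009 * N ^ 2 - 9000 * N + 2000 = 0 := by
  have hg := hg
  have hw := hw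
  unfold N
  linear_combination ((-189088/2025) + (-59488/2025)*w + (67968/25)*g + (-1184128/2025)*g*w + (2843392/675)*g^2 + (-3807232/2025)*g^2*w + (13336576/2025)*g^3 + (-1441792/2025)*g^3*w + (1048576/2025)*g^4) * hg + ((-8827/10800) + (11/2025)*w + (1/32400)*w^2 + (-2069/75)*g + (506/2025)*g*w + (4/2025)*g*w^2 + (-57064/225)*g^2 + (2464/675)*g^2*w + (32/675)*g^2*w^2 + (-647936/2025)*g^3 + (5632/405)*g^3*w + (1024/2025)*g^3*w^2 + (763904/2025)*g^4 + (-90112/2025)*g^4*w + (4096/2025)*g^4*w^2 + (65536/2025)*g^5) * hw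

theorem Ca_pos : 0 < Ca := by unfold Ca; positivity

theorem Cb_pos : 0 < Cb := by unfold Cb; positivity

theorem Sa_eq : Sa = T * Ca := by unfold Sa Ca; ring

theorem Sb_eq : Sb = U * Cb := by unfold Sb Cb; ring

theorem Ca_sq : Ca ^ 2 * (1 + T ^ 2) = 1 := by
  unfold Ca
  rw [div_pow, one_pow, Real.sq_sqrt (by positivity)]
  have : (1 + T ^ 2) ≠ 0 := by positivity
  field_simp

theorem Cb_sq : Cb ^ 2 * (1 + U ^ 2) = 1 := by
  unfold Cb
  rw [div_pow, one_pow, Real.sq_sqrt (by positivity)]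
  have : (1 + U ^ 2) ≠ 0 := by positivity
  field_simp

theorem Ca_eq : Ca = q * Cb := by
  have h1 : Ca ^ 2 = (q * Cb) ^ 2 := by
    have h2 : (1 + T ^ 2) ≠ 0 := by positivity
    apply mul_right_cancel₀ h2
    rw [Ca_sq, mul_pow]
    linear_combination -(Cb_sq) - Cb ^ 2 * E7
  exact (pow_left_inj₀ Ca_pos.le (mul_pos q_pos Cb_pos).le two_ne_zero).1 h1

theorem nu_eq : nu = ka * Cb := by
  have h1 : nu ^ 2 = (ka * Cb) ^ 2 := by
    rw [nu_sq, mul_pow]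
    linear_combination - Cb ^ 2 * E8 - N * Cb_sq
  exact (pow_left_inj₀ nu_pos.le (mul_pos ka_pos Cb_pos).le two_ne_zero).1 h1

theorem bnd {c t tl tu cl cu : ℝ} (h0 : 0 < tl) (h1 : tl < t) (h2 : t < tu) (hc : 0 < c)
    (h : c ^ 2 * (1 + t ^ 2) = 1) (h3 : 0 < cl) (h4 : cl ^ 2 * (1 + tu ^ 2) < 1) (h5 : 0 < cu)
    (h6 : 1 < cu ^ 2 * (1 + tl ^ 2)) : cl < c ∧ c < cu := by
  have ht : 0 < t := h0.trans h1
  constructor
  · by_contra hcon
    push Not at hcon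
    have k1 : c ^ 2 ≤ cl ^ 2 := pow_le_pow_left₀ hc.le hcon 2
    have k2 : t ^ 2 ≤ tu ^ 2 := pow_le_pow_left₀ ht.le h2.le 2
    have k3 : c ^ 2 * (1 + t ^ 2) ≤ cl ^ 2 * (1 + tu ^ 2) :=
      mul_le_mul k1 (by linarith) (by positivity) (by positivity)
    linarith
  · by_contra hcon
    push Not at hcon
    have k1 : cu ^ 2 ≤ c ^ 2 := pow_le_pow_left₀ h5.le hcon 2
    have k2 : tl ^ 2 ≤ t ^ 2 := pow_le_pow_left₀ h0.le h1.le 2
    have k3 : cu ^ 2 * (1 + tl ^ 2) ≤ c ^ 2 * (1 + t ^ 2) :=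
      mul_le_mul k1 (by linarith) (by positivity) (by positivity)
    linarith

theorem T_bd : 0.375320697081 < T ∧ T < 0.375320697082 := by
  obtain ⟨h1, h2⟩ := g_bd
  obtain ⟨h3, h4⟩ := w_bd
  obtain ⟨h5, h6⟩ := gw_bd
  rw [hT]
  norm_num at h1 h2 h3 h4 h5 h6 ⊢
  constructor <;> linarith

theorem U_bd : 0.272896858076 < U ∧ U < 0.272896858077 := by
  obtain ⟨h1, h2⟩ := g_bd
  obtain ⟨h3, h4⟩ := w_bd
  obtain ⟨h5, h6⟩ := gw_bd
  rw [hU]
  norm_num at h1 h2 h3 h4 h5 h6 ⊢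
  constructor <;> linarith

theorem Ca_bd : 0.936230429433 < Ca ∧ Ca < 0.936230429435 :=
  bnd (by norm_num) T_bd.1 T_bd.2 Ca_pos Ca_sq (by norm_num) (by norm_num) (by norm_num)
    (by norm_num)

theorem Cb_bd : 0.964722279286 < Cb ∧ Cb < 0.964722279289 :=
  bnd (by norm_num) U_bd.1 U_bd.2 Cb_pos Cb_sq (by norm_num) (by norm_num) (by norm_num)
    (by norm_num)

theorem Sa_bd : 0.35138665740 - 1 / 10 ^ 11 < Sa ∧ Sa < 0.35138665740 + 1 / 10 ^ 11 := by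
  obtain ⟨h1, h2⟩ := T_bd
  obtain ⟨h3, h4⟩ := Ca_bd
  rw [Sa_eq]
  have k1 : (0.375320697081 : ℝ) * 0.936230429433 < T * Ca :=
    mul_lt_mul'' h1 h3 (by norm_num) (by norm_num)
  have k2 : T * Ca < (0.375320697082 : ℝ) * 0.936230429435 :=
    mul_lt_mul'' h2 h4 (lt_trans (by norm_num) h1).le Ca_pos.le
  norm_num at k1 k2 ⊢
  constructor <;> linarith

theorem Sb_bd : 0.26326967893 - 1 / 10 ^ 11 < Sb ∧ Sb < 0.26326967893 + 1 / 10 ^ 11 := by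
  obtain ⟨h1, h2⟩ := U_bd
  obtain ⟨h3, h4⟩ := Cb_bd
  rw [Sb_eq]
  have k1 : (0.272896858076 : ℝ) * 0.964722279286 < U * Cb :=
    mul_lt_mul'' h1 h3 (by norm_num) (by norm_num)
  have k2 : U * Cb < (0.272896858077 : ℝ) * 0.964722279289 :=
    mul_lt_mul'' h2 h4 (lt_trans (by norm_num) h1).le Cb_pos.le
  norm_num at k1 k2 ⊢
  constructor <;> linarith

end Alg

open Alg in
theorem nu_ok : S_NU := by
  refine ⟨?_, ?_, ?_⟩
  · have h1 : nu ^ 8 = N ^ 4 := by rw [← nu_sq]; ring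
    have h2 : nu ^ 6 = N ^ 3 := by rw [← nu_sq]; ring
    have h3 : nu ^ 4 = N ^ 2 := by rw [← nu_sq]; ring
    rw [h1, h2, h3, nu_sq]
    exact E9
  · rw [hN, Real.lt_sqrt (by norm_num)]
    exact N_bd.1
  · rw [hN, Real.sqrt_lt' (by norm_num)]
    exact N_bd.2

open Alg in
theorem alg_ok : S_ALG := by
  have i1 : Sb = U * Cb := Sb_eq
  have i2 : Sa = T * (q * Cb) := by rw [Sa_eq, Ca_eq]
  have i3 := Ca_eq
  have i4 := nu_eq
  have gi := ginv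
  have hc := Cb_sq
  have hg := hg
  refine ⟨?_, ?_, ?_, ?_, ?_, ?_, ?_, ?_, ?_, ?_, ?_, ?_, ?_, ?_⟩
  · rw [Sa_eq]
    linear_combination Ca_sq
  · rw [Sb_eq]
    linear_combination Cb_sq
  · rw [i1, i2, i3, div_eq_mul_inv, gi]
    linear_combination Cb ^ 2 * E1 + hc
  · rw [i1, i3, i4, div_eq_mul_inv, gi]
    linear_combination Cb ^ 3 * E2 - (ka * Cb - Cb * (U + g)) * hc
  · rw [i1, i2, i3, i4, div_eq_mul_inv, gi]
    linear_combination Cb ^ 2 * E3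
  · rw [i1, i2, i3, div_eq_mul_inv, div_eq_mul_inv, div_eq_mul_inv, ← inv_pow, gi]
    linear_combination Cb ^ 2 * E4 + (g - 1) ^ 2 * hc
  · rw [i2, i3, i4, div_eq_mul_inv, div_eq_mul_inv, gi]
    linear_combination Cb ^ 3 * E5 - (ka * Cb * (g - 1) - g * q * Cb * (1 + g * T)) * hc
  · rw [i1, i2, i3, i4, div_eq_mul_inv, div_eq_mul_inv, gi]
    linear_combination Cb ^ 2 * q * E6
  · obtain ⟨h1, h2⟩ := T_bd
    rw [abs_lt]
    norm_num at h1 h2 ⊢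
    constructor <;> linarith
  · obtain ⟨h1, h2⟩ := U_bd
    rw [abs_lt]
    norm_num at h1 h2 ⊢
    constructor <;> linarith
  · obtain ⟨h1, h2⟩ := Ca_bd
    rw [abs_lt]
    norm_num at h1 h2 ⊢
    constructor <;> linarith
  · obtain ⟨h1, h2⟩ := Sa_bd
    rw [abs_lt]
    norm_num at h1 h2 ⊢
    constructor <;> linarith
  · obtain ⟨h1, h2⟩ := Cb_bd
    rw [abs_lt]
    norm_num at h1 h2 ⊢
    constructor <;> linarith
  · obtain ⟨h1, h2⟩ := Sb_bd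
    rw [abs_lt]
    norm_num at h1 h2 ⊢
    constructor <;> linarith

end Pool.Agent.H315.NW
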