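import Pool.Agent.H315.NW.Data

/-!
# Project NW (helper315): certificates (generated)
-/

set_option autoImplicit false
set_option maxRecDepth 100000

namespace Pool.Agent.H315.NW

open Tr

/-- a part of the certificate -/
def tD0 : Tr :=
  (M 11 (P 2 (A03 (A02 (P 8 (M 5 (A01 (M 9 (P 0 (A03 (A02 (B12 (A01 (A03 (out 9) (S 1 (L 7 9) (L 0
  9))) (S 1 (L 7 9) (L 0 9))) (A01 (B02 (S 1 (L 7 9) (L 0 9)) (A03 (out 9) (A13 (out 9) (M 10 (L 44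
  18))))) (B02 (S 1 (L 7 9) (L 0 9)) (S 1 (L 7 9) (L 11 9))))) (B12 (A12 (S 1 (L 7 9) (L 0 9)) (A23
  (A02 (B01 (B02 (S 1 (L 7 9) (L 0 9)) (A01 (M 10 (L 44 18)) (P 3 (L 18 12)))) (B12 (P 4 (L 24 13))
  (A01 (M 10 (L 44 18)) (P 3 (L 18 12))))) (P 3 (L 18 12))) (A13 (B01 (B02 (S 1 (L 7 9) (L 0 9))
  (A01 (M 10 (L 44 18)) (P 3 (L 18 12)))) (B12 (P 4 (L 24 13)) (A01 (M 10 (L 44 18)) (P 3 (L 18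
  12))))) (B01 (B02 (S 1 (L 7 9) (L 0 9)) (M 10 (L 44 18))) (M 10 (L 44 18)))))) (S 1 (L 7 9) (L 11
  9)))) (A13 (B12 (A12 (S 1 (L 7 9) (L 0 9)) (A02 (A01 (B01 (B02 (P 4 (L 24 13)) (A03 (M 10 (L 44
  18)) (P 3 (L 18 12)))) (B12 (S 1 (L 7 9) (L 11 9)) (A03 (M 10 (L 44 18)) (P 3 (L 18 12))))) (B01
  (P 3 (L 18 12)) (B12 (P 4 (L 24 13)) (P 3 (L 18 12))))) (P 3 (L 18 12)))) (S 1 (L 7 9) (L 11 9)))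
  (B12 (A23 (A02 (A03 (B01 (B02 (P 4 (L 24 13)) (A01 (M 10 (L 44 18)) (P 3 (L 18 12)))) (B12 (S 1
  (L 7 9) (L 11 9)) (A01 (M 10 (L 44 18)) (P 3 (L 18 12))))) (B01 (P 3 (L 18 12)) (B12 (A13 (P 4 (L
  24 13)) (M 10 (L 44 6))) (P 3 (L 18 12))))) (P 3 (L 18 12))) (A03 (A02 (B01 (B02 (S 1 (L 7 9) (L
  11 9)) (A01 (M 10 (L 44 6)) (P 3 (L 18 12)))) (B12 (S 1 (L 7 1) (L 0 1)) (A01 (M 10 (L 44 6)) (P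
  3 (L 18 12))))) (B01 (P 3 (L 18 12)) (B12 (A12 (S 1 (L 7 1) (L 11 9)) (M 10 (L 44 6))) (P 3 (L 18
  12))))) (A13 (B01 (P 3 (L 18 12)) (B12 (A12 (S 1 (L 7 1) (L 0 1)) (A02 (P 4 (L 24 19)) (P 3 (L 18
  12)))) (P 3 (L 18 12)))) (B01 (P 3 (L 18 12)) (B12 (A23 (A02 (A03 (P 4 (L 24 19)) (P 3 (L 18
  12))) (P 3 (L 18 12))) (A03 (A02 (P 4 (L 24 19)) (P 3 (L 18 12))) (P 3 (L 18 12)))) (P 3 (L 18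
  12))))))) (S 4 (L 24 13) (L 43 13))))))) (M 6 (P 3 (A13 (A12 (P 10 (B12 (M 9 (A01 (K
  [(54,18,7),(18,12,1)] []) (S 4 (K [(18,12,2),(21,13,1),(54,18,15),(21,19,6)] []) (L 43 13))))
  (A01 (B02 (M 9 (K [(18,12,2),(54,18,5),(53,18,1)] [])) (L 54 18)) (S 0 (L 3 15) (L 40 15)))))
  (B12 (M 9 (A02 (A03 (out 9) (A23 (S 1 (L 7 9) (L 11 9)) (P 10 (K [(54,18,4),(18,12,2),(53,18,2)]
  [])))) (A23 (S 1 (L 7 9) (L 11 9)) (A03 (S 1 (L 7 9) (L 11 9)) (B01 (B02 (P 10 (K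
  [(54,18,4),(18,12,4)] [])) (S 1 (L 7 9) (L 11 9))) (S 1 (L 7 9) (L 11 9))))))) (A02 (B02 (M 9
  (A03 (out 9) (A23 (S 1 (L 7 9) (L 11 9)) (L 18 12)))) (A03 (out 9) (A23 (B12 (M 9 (L 18 12)) (P
  10 (L 54 18))) (P 10 (L 54 18))))) (B02 (M 9 (A23 (S 1 (L 7 9) (L 11 9)) (A03 (S 1 (L 7 9) (L 11
  9)) (L 18 12)))) (A23 (A12 (B12 (M 9 (L 18 12)) (A01 (M 9 (L 18 12)) (B02 (M 9 (L 18 12)) (M 4 (L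
  43 13))))) (M 9 (L 18 12))) (A03 (B12 (M 9 (L 18 12)) (A01 (M 9 (L 18 12)) (B02 (M 9 (L 18 12))
  (M 4 (L 43 13))))) (B12 (M 9 (L 18 12)) (M 4 (L 43 13))))))))) (M 9 (L 18 12)))))))) (M 6 (P 3
  (A12 (P 8 (M 5 (A13 (A01 (B12 (A02 (A03 (S 1 (L 7 9) (L 11 9)) (A23 (S 1 (L 7 9) (L 11 9)) (B01
  (S 4 (L 21 19) (L 43 13)) (S 1 (L 7 9) (L 11 9))))) (A23 (out 5) (M 9 (A03 (out 5) (P 10 (K
  [(18,12,3),(54,18,3),(54,6,1),(53,18,1)] [])))))) (A02 (B02 (M 9 (L 18 12)) (M 4 (L 43 13))) (S 0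
  (L 3 15) (L 10 15)))) (P 10 (B12 (A12 (A13 (out 5) (A23 (out 5) (M 9 (K
  [(18,12,3),(54,18,3),(54,6,2)] [])))) (A23 (out 5) (A13 (out 5) (M 9 (K
  [(18,12,3),(54,18,4),(54,6,1)] []))))) (S 0 (L 3 15) (L 10 15))))) (A23 (B12 (A02 (S 4 (L 24 13)
  (L 43 13)) (A12 (S 4 (L 24 13) (L 43 13)) (A23 (out 5) (S 1 (L 7 9) (L 11 9))))) (A02 (B02 (M 9
  (L 18 12)) (M 4 (L 43 13))) (B02 (A12 (A01 (B01 (P 10 (L 54 18)) (M 4 (L 43 13))) (B01 (S 0 (L 3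
  15) (L 40 15)) (A13 (P 10 (L 54 18)) (M 4 (L 43 13))))) (A23 (out 5) (B01 (P 10 (L 54 18)) (M 4
  (L 43 13))))) (M 4 (L 43 13))))) (B12 (M 9 (L 18 12)) (A03 (B02 (M 9 (L 18 12)) (M 4 (L 43 13)))
  (B02 (M 9 (L 18 12)) (M 4 (L 43 13))))))))) (A23 (A02 (P 8 (B12 (A01 (M 9 (A03 (A02 (S 4 (L 24
  13) (L 43 13)) (M 4 (K [(43,13,5),(18,12,2),(18,2,1)] []))) (M 4 (K [(18,12,3),(43,13,5)] []))))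
  (S 1 (L 8 9) (L 11 9))) (A01 (B02 (A03 (A02 (M 9 (L 18 12)) (S 0 (L 3 15) (L 10 15))) (S 0 (L 3
  15) (L 10 15))) (M 4 (L 43 13))) (S 1 (L 8 9) (L 11 9))))) (B12 (S 1 (L 8 9) (L 11 9)) (A12 (S 1
  (L 8 9) (L 11 9)) (B02 (S 0 (L 3 15) (L 10 15)) (A23 (out 5) (A13 (out 5) (M 10 (L 19 18))))))))
  (P 8 (M 5 (A13 (B12 (A01 (S 4 (L 24 13) (L 43 13)) (M 4 (L 43 13))) (A01 (B02 (A02 (M 9 (L 18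
  12)) (M 4 (L 43 13))) (M 4 (L 43 13))) (M 4 (L 43 13)))) (B12 (M 9 (A03 (L 18 12) (S 1 (L 7 1) (L
  11 9)))) (A03 (B02 (A02 (M 9 (L 18 12)) (A23 (M 4 (L 43 13)) (M 9 (L 18 12)))) (M 4 (L 43 13)))
  (B02 (A23 (A02 (M 9 (L 18 12)) (M 4 (L 43 13))) (M 9 (L 18 12))) (M 4 (L 43 13))))))))))))) (M 6
  (P 3 (A13 (A12 (P 8 (M 5 (A01 (A02 (B12 (A03 (M 9 (P 0 (A01 (A02 (B01 (B02 (A03 (A01 (A02 (B01 (L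
  18 12) (S 1 (L 7 1) (L 11 1))) (B01 (L 18 12) (S 1 (L 7 1) (L 11 1)))) (A13 (L 18 12) (B01 (L 18
  12) (B12 (A23 (L 18 12) (A03 (L 18 12) (A13 (L 18 12) (B01 (L 18 12) (S 1 (L 7 1) (L 11 1))))))
  (L 18 12))))) (A13 (A01 (B01 (L 18 12) (B12 (A02 (A03 (A01 (B01 (L 18 12) (S 1 (L 7 1) (L 11 1)))
  (L 18 12)) (L 18 12)) (L 18 12)) (L 18 12))) (L 18 12)) (A23 (B01 (L 18 12) (B12 (A02 (A01 (A03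
  (B01 (L 18 12) (S 1 (L 7 1) (L 11 1))) (L 18 12)) (L 18 12)) (L 18 12)) (L 18 12))) (B01 (L 18
  12) (B12 (A03 (A01 (A02 (B01 (L 18 12) (S 1 (L 7 1) (L 11 1))) (B01 (L 18 12) (S 1 (L 7 1) (L 11
  1)))) (P 10 (K [(54,6,3),(18,12,5)] []))) (P 10 (K [(18,12,5),(54,6,3)] []))) (L 18 12)))))) (S 1
  (L 7 1) (L 11 1))) (S 1 (L 7 1) (L 11 1))) (B01 (L 18 12) (S 1 (L 7 1) (L 11 1)))) (A13 (L 18 12)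
  (B01 (L 18 12) (B12 (A23 (S 1 (L 7 1) (L 0 9)) (A03 (S 1 (L 7 1) (L 0 9)) (A13 (S 1 (L 7 1) (L 0
  9)) (B01 (B02 (P 10 (K [(54,6,3),(18,12,5)] [])) (S 1 (L 7 1) (L 11 1))) (S 1 (L 7 1) (L 11
  1)))))) (A23 (L 18 12) (B02 (A03 (L 18 12) (A13 (L 18 12) (B01 (A23 (L 18 12) (B02 (P 10 (K
  [(54,6,1),(18,12,7)] [])) (S 1 (L 7 1) (L 11 1)))) (S 1 (L 7 1) (L 11 1))))) (S 1 (L 7 1) (L 11
  1)))))))))) (A13 (M 9 (P 0 (A01 (B01 (L 18 12) (B12 (A02 (A03 (A01 (B01 (B02 (P 10 (K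
  [(54,6,3),(18,12,5)] [])) (S 1 (L 7 1) (L 11 1))) (S 1 (L 7 1) (L 11 1))) (S 1 (L 7 1) (L 0 9)))
  (S 1 (L 7 1) (L 0 9))) (S 1 (L 7 1) (L 0 9))) (A02 (B02 (A03 (A01 (S 1 (L 7 1) (K
  [(11,1,1),(18,12,7)] [])) (L 18 12)) (L 18 12)) (S 1 (L 7 1) (L 11 1))) (L 18 12)))) (L 18 12))))
  (A23 (B01 (S 0 (L 3 15) (L 10 15)) (M 9 (P 0 (B12 (A02 (A01 (A03 (B01 (S 1 (L 7 1) (K
  [(11,1,3),(18,12,5)] [])) (S 1 (L 7 1) (L 11 1))) (B01 (L 18 12) (S 1 (L 7 1) (L 11 1)))) (S 1 (L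
  7 1) (L 0 9))) (S 1 (L 7 1) (L 0 9))) (S 1 (L 7 1) (K [(11,1,1),(18,12,7)] [])))))) (B01 (S 0 (L
  3 15) (L 10 15)) (M 9 (B12 (A03 (A01 (A02 (B01 (S 1 (L 7 1) (K [(11,1,4),(18,12,4)] [])) (S 1 (L
  7 1) (L 11 1))) (B01 (L 18 12) (S 1 (L 7 1) (L 11 1)))) (P 10 (K [(54,6,4),(18,12,4)] []))) (P 10
  (K [(18,12,4),(54,6,4)] []))) (P 7 (K [(18,12,2),(39,12,6)] [])))))))) (A03 (B02 (M 9 (A01 (A02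
  (B01 (A03 (L 18 12) (L 18 12)) (S 1 (L 7 1) (L 11 1))) (L 18 12)) (L 18 12))) (S 1 (L 8 1) (L 11
  1))) (B02 (A13 (A01 (B01 (A02 (B02 (S 0 (L 3 15) (L 10 15)) (S 0 (L 3 15) (L 10 15))) (B02 (S 0
  (L 3 15) (L 10 15)) (M 4 (L 43 13)))) (S 0 (L 3 15) (L 10 15))) (B01 (S 0 (L 3 15) (L 10 15))
  (A12 (S 0 (L 3 15) (L 10 15)) (M 4 (L 43 13))))) (S 0 (L 3 15) (L 10 15))) (S 0 (L 3 15) (L 10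
  15))))) (B12 (A23 (A12 (A13 (M 9 (L 18 12)) (B01 (B02 (P 10 (L 54 18)) (A03 (M 9 (L 18 12)) (P 10
  (L 54 18)))) (B12 (M 9 (L 18 12)) (A03 (M 9 (L 18 12)) (P 10 (L 54 18)))))) (A02 (B01 (B02 (P 10
  (L 54 18)) (A03 (M 9 (L 18 12)) (P 10 (L 54 18)))) (B12 (M 9 (L 18 12)) (A03 (M 9 (L 18 12)) (P
  10 (L 54 18))))) (out 5))) (A13 (A12 (M 9 (L 18 12)) (B01 (B02 (S 0 (L 3 15) (L 40 15)) (A02 (M 9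
  (L 18 12)) (S 0 (L 3 15) (L 10 15)))) (B12 (M 9 (L 18 12)) (A02 (M 9 (L 18 12)) (S 0 (L 3 15) (L
  10 15)))))) (A03 (B01 (S 0 (L 3 15) (L 10 15)) (B12 (M 9 (L 18 12)) (S 0 (L 3 15) (L 10 15))))
  (B01 (S 0 (L 3 15) (L 10 15)) (B12 (M 9 (L 18 12)) (S 0 (L 3 15) (L 10 15))))))) (A23 (B02 (A12
  (A13 (B01 (S 0 (L 3 15) (L 40 15)) (A01 (M 4 (L 43 13)) (P 10 (L 54 18)))) (B01 (P 10 (L 54 18))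
  (M 4 (L 43 13)))) (A02 (B01 (P 10 (L 54 18)) (M 4 (L 43 13))) (out 5))) (S 0 (L 3 15) (L 10 15)))
  (B02 (A13 (A12 (B01 (S 0 (L 3 15) (L 40 15)) (A01 (M 4 (L 43 13)) (S 0 (L 3 15) (L 10 15)))) (M 4
  (L 43 13))) (S 0 (L 3 15) (L 10 15))) (S 0 (L 3 15) (L 10 15)))))) (A13 (P 10 (B12 (A12 (A01 (A02
  (B01 (S 0 (L 3 15) (L 40 15)) (B12 (M 9 (K [(18,12,3),(54,6,4),(54,18,2)] [])) (S 0 (L 3 15) (L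
  40 15)))) (out 5)) (out 5)) (S 0 (L 3 15) (L 40 15))) (S 0 (L 3 15) (L 10 15)))) (B12 (S 0 (L 3
  15) (L 40 15)) (A23 (S 0 (L 3 15) (L 10 15)) (B02 (S 0 (L 3 15) (L 40 15)) (S 0 (L 3 15) (L 10
  15))))))))) (A02 (P 8 (M 5 (A01 (B12 (A03 (M 9 (A02 (A01 (B01 (B02 (A03 (A02 (A01 (B01 (L 18 12)
  (S 1 (L 7 1) (L 11 1))) (B01 (L 18 12) (S 1 (L 7 1) (L 11 1)))) (P 7 (M 4 (K
  [(18,12,4),(43,19,1),(39,12,3)] [])))) (P 7 (M 4 (K [(18,12,11),(43,19,3),(39,12,10)] [])))) (S 1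
  (L 7 1) (L 11 1))) (S 1 (L 7 1) (L 11 1))) (B01 (L 18 12) (S 1 (L 7 1) (L 11 1)))) (S 1 (L 8 1)
  (K [(11,1,3),(18,12,5)] [])))) (P 7 (A23 (A02 (B01 (S 0 (L 3 15) (L 10 15)) (S 1 (L 8 1) (L 11
  1))) (S 1 (L 8 1) (L 11 9))) (A13 (B01 (S 0 (L 3 15) (L 10 15)) (S 1 (L 7 1) (L 11 1))) (B01 (S 0
  (L 3 15) (L 10 15)) (M 9 (S 1 (L 7 1) (K [(11,1,1),(18,12,1),(11,16,1),(35,16,4)] [])))))))) (A03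
  (B02 (A02 (M 9 (A01 (B01 (A03 (L 18 12) (L 18 12)) (S 1 (L 8 1) (L 11 1))) (L 18 12))) (S 0 (L 3
  15) (L 10 15))) (S 1 (L 8 1) (L 11 1))) (S 0 (L 3 15) (L 10 15)))) (S 0 (L 3 15) (L 10 15))))) (M
  4 (A23 (B12 (S 0 (L 3 15) (L 10 15)) (A12 (B02 (S 0 (L 3 15) (L 10 15)) (A01 (A02 (B12 (P 8 (L 43
  13)) (P 9 (L 49 12))) (out 5)) (out 5))) (B02 (S 0 (L 2 15) (L 10 15)) (A02 (A01 (B12 (P 8 (L 43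
  13)) (P 9 (L 49 12))) (out 1)) (out 1))))) (B12 (S 0 (L 3 15) (L 10 15)) (A13 (B02 (S 0 (L 3 15)
  (L 10 15)) (A01 (A03 (B12 (P 8 (L 43 13)) (P 9 (L 49 12))) (B12 (P 8 (L 43 13)) (P 9 (L 49 12))))
  (out 5))) (B02 (S 0 (L 3 15) (L 10 15)) (A03 (A01 (B12 (P 8 (L 43 13)) (P 9 (L 49 12))) (B12 (P 8
  (L 43 13)) (P 9 (L 49 12)))) (A23 (B12 (S 0 (L 3 15) (L 10 15)) (P 9 (L 49 12))) (S 0 (L 3 15) (L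
  10 15))))))))))) (A23 (A02 (A03 (M 5 (B12 (A01 (M 9 (A02 (A03 (B01 (B02 (A01 (A02 (A03 (B01 (L 18
  12) (B12 (A01 (A02 (A03 (S 1 (L 8 1) (L 11 1)) (B01 (K [(18,12,4),(18,18,4)] []) (M 10 (L 19
  6)))) (A12 (B01 (K [(18,12,4),(18,18,4)] []) (M 10 (L 19 6))) (M 10 (L 19 18)))) (A12 (A13 (S 1
  (L 7 1) (L 11 1)) (B01 (K [(18,12,13),(18,18,11)] []) (M 10 (L 19 6)))) (A02 (B01 (K
  [(18,12,13),(18,18,11)] []) (M 10 (L 19 6))) (M 10 (L 19 18))))) (A01 (K [(18,12,13),(18,18,11)]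
  []) (P 7 (K [(18,12,4),(39,12,4)] []))))) (P 7 (S 1 (K [(8,1,11),(8,9,7),(39,12,6)] []) (K
  [(11,1,2),(18,12,6)] [])))) (P 7 (S 1 (K [(8,9,7),(8,1,11),(39,12,6)] []) (K [(11,1,2),(18,12,6)]
  [])))) (P 7 (S 1 (K [(8,1,1),(8,9,4),(39,12,3)] []) (K [(11,16,3),(18,12,5)] [])))) (S 1 (L 8 1)
  (L 11 1))) (S 1 (L 8 1) (L 11 1))) (P 7 (B01 (S 1 (K [(39,12,24),(8,1,11),(8,9,29)] []) (K
  [(11,1,1),(18,12,7)] [])) (B12 (A13 (S 1 (L 8 1) (L 11 1)) (M 10 (A23 (L 19 6) (K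
  [(19,6,5),(39,12,2)] [])))) (S 1 (K [(8,1,148),(39,12,33),(18,12,4),(8,9,15)] []) (L 11 1))))))
  (P 7 (A12 (B01 (L 18 12) (B12 (A13 (S 1 (L 8 1) (L 11 1)) (M 10 (A03 (L 19 6) (K
  [(19,6,6),(39,12,2)] [])))) (S 1 (K [(8,1,4),(18,12,3),(39,12,1)] []) (L 11 1)))) (B01 (L 18 12)
  (M 10 (B12 (A23 (L 19 18) (A03 (L 19 6) (K [(19,6,6),(39,12,2)] []))) (K
  [(18,12,3),(19,6,4),(39,12,1)] [])))))))) (P 7 (A12 (A13 (B01 (S 0 (L 3 15) (L 10 15)) (M 9 (S 1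
  (L 8 1) (K [(11,16,5),(18,12,3)] [])))) (B01 (S 0 (L 3 15) (L 10 15)) (M 9 (S 1 (K
  [(8,1,2),(7,16,4),(39,12,2)] []) (L 11 1))))) (A02 (B01 (S 0 (L 3 15) (L 10 15)) (M 9 (S 1 (K
  [(8,1,5),(39,12,3)] []) (L 11 1)))) (B01 (S 0 (L 3 15) (L 10 15)) (M 9 (P 0 (S 1 (K
  [(3,15,32),(8,1,148),(39,12,20)] []) (L 11 1))))))))) (A01 (B02 (A02 (M 9 (A03 (B01 (A01 (K
  [(18,12,13),(18,18,11)] []) (L 18 12)) (S 1 (L 8 1) (L 11 1))) (P 7 (K [(18,12,3),(39,12,5)]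
  [])))) (S 0 (L 3 15) (L 10 15))) (M 10 (L 19 6))) (S 0 (L 3 15) (L 10 15))))) (P 7 (M 4 (B12 (A13
  (M 5 (A12 (A01 (B01 (S 0 (L 3 15) (L 10 15)) (B12 (M 9 (S 1 (K [(8,1,2),(39,12,2),(7,16,4)] [])
  (L 11 1))) (S 0 (L 2 15) (L 10 15)))) (B01 (S 0 (L 3 15) (L 10 15)) (B12 (M 9 (S 1 (L 8 1) (K
  [(11,16,3),(18,12,5)] []))) (S 0 (L 3 15) (L 10 15))))) (A23 (B01 (S 0 (L 3 15) (L 10 15)) (M 9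
  (S 1 (K [(18,12,32),(8,1,148),(39,12,20)] []) (L 11 1)))) (B01 (S 0 (L 3 15) (L 10 15)) (B12 (M 9
  (S 1 (K [(8,1,2),(39,12,3),(7,16,3)] []) (L 11 1))) (S 0 (L 2 15) (L 10 15))))))) (A23 (P 8 (A12
  (B01 (S 0 (L 3 15) (L 10 15)) (M 10 (S 0 (K [(2,15,3),(19,6,3),(44,13,3)] []) (L 10 15)))) (B01
  (S 0 (L 3 15) (L 10 15)) (M 10 (M 9 (K [(18,12,32),(39,12,20),(19,6,148)] [])))))) (A03 (P 8 (B01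
  (S 0 (L 3 15) (L 10 15)) (M 10 (S 0 (K [(2,15,3),(19,6,3),(44,13,3)] []) (L 10 15))))) (out 1))))
  (A13 (B02 (S 0 (L 3 15) (L 10 15)) (A12 (A01 (M 10 (L 19 6)) (B12 (S 0 (L 3 15) (L 10 15)) (A13
  (S 0 (L 3 15) (L 10 15)) (M 10 (L 19 6))))) (M 10 (L 19 6)))) (B02 (A23 (S 0 (L 3 15) (L 10 15))
  (A03 (S 0 (L 3 15) (L 10 15)) (out 1))) (M 10 (L 19 6)))))))) (A12 (B12 (A13 (S 0 (L 3 15) (L 10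
  15)) (A03 (S 0 (L 3 15) (L 10 15)) (out 1))) (A13 (B02 (S 0 (L 3 15) (L 10 15)) (A01 (M 10 (L 19
  6)) (A12 (B12 (S 0 (L 3 15) (L 10 15)) (P 9 (L 49 12))) (B12 (S 0 (L 3 15) (L 10 15)) (P 9 (L 49
  12)))))) (B02 (A03 (S 0 (L 3 15) (L 10 15)) (out 1)) (M 10 (L 19 6))))) (B12 (A23 (A02 (A03 (S 0
  (L 3 15) (L 10 15)) (out 1)) (out 1)) (A03 (A02 (S 0 (L 3 15) (L 10 15)) (out 1)) (out 1))) (A23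
  (B02 (A02 (A03 (S 0 (L 3 15) (L 10 15)) (out 1)) (out 1)) (A02 (M 10 (L 19 6)) (out 1))) (B02
  (A03 (A02 (S 0 (L 3 15) (L 10 15)) (out 1)) (out 1)) (M 10 (L 19 6))))))) (A03 (A02 (P 8 (M 5
  (B12 (A01 (M 9 (A03 (A02 (B01 (B02 (A01 (A03 (A02 (B01 (L 18 18) (S 1 (L 7 16) (L 11 1))) (P 7 (M
  4 (K [(39,12,7),(43,19,1)] [])))) (P 7 (M 4 (K [(39,12,22),(39,2,1),(43,5,2)] [])))) (P 7 (M 4 (K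
  [(39,12,7),(43,19,1)] [])))) (S 1 (L 7 16) (L 11 1))) (S 1 (L 7 16) (L 11 1))) (P 7 (K
  [(39,12,6),(39,2,2)] []))) (P 7 (S 1 (K [(7,16,6),(39,12,2)] []) (L 35 16))))) (P 7 (A13 (A12 (S
  1 (L 7 16) (L 35 16)) (B01 (S 0 (L 3 9) (L 10 15)) (S 1 (L 7 16) (L 11 16)))) (M 9 (S 1 (K
  [(7,16,6),(39,12,2)] []) (L 35 16)))))) (A01 (P 0 (S 4 (L 21 13) (L 2 15))) (S 0 (L 3 9) (L 10
  15)))))) (P 7 (M 4 (B12 (A12 (M 5 (A13 (A01 (B01 (S 0 (L 3 9) (L 10 15)) (S 1 (L 7 16) (L 11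
  16))) (S 1 (L 7 16) (L 35 16))) (A23 (B01 (S 0 (L 3 9) (L 10 15)) (S 1 (L 7 16) (L 11 16))) (M 9
  (P 0 (K [(2,15,176),(39,2,24)] [])))))) (A23 (A02 (P 8 (B01 (S 0 (L 2 15) (L 10 15)) (M 10 (L 44
  13)))) (out 1)) (P 8 (A13 (B01 (S 0 (L 2 15) (L 10 15)) (M 10 (L 44 13))) (M 10 (P 0 (K
  [(2,15,2),(44,13,6)] []))))))) (A12 (B02 (S 0 (L 3 9) (L 10 15)) (A13 (A01 (M 10 (L 19 6)) (B12
  (S 0 (L 3 9) (L 10 9)) (A12 (S 0 (L 2 9) (L 10 9)) (M 10 (L 19 6))))) (S 0 (L 2 15) (L 10 9))))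
  (B02 (A23 (A02 (S 0 (L 2 15) (L 10 15)) (out 1)) (S 0 (L 2 15) (L 10 15))) (S 0 (L 2 15) (L 10
  15)))))))) (P 7 (M 4 (A13 (B12 (A12 (S 0 (L 3 9) (L 10 9)) (A02 (S 0 (L 3 9) (L 10 9)) (out 1)))
  (A12 (B02 (S 0 (L 3 9) (L 10 9)) (A01 (S 0 (L 3 9) (L 10 9)) (A13 (B12 (S 0 (L 3 9) (L 10 9))
  (A12 (P 8 (L 43 4)) (M 10 (L 19 6)))) (S 0 (L 3 9) (L 10 9))))) (B02 (A02 (S 0 (L 3 9) (L 10 9))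
  (out 1)) (P 1 (S 0 (L 3 9) (L 5 9)))))) (M 10 (P 1 (B12 (A23 (S 0 (L 3 9) (L 10 9)) (A03 (A02 (S
  0 (K [(3,9,5),(8,16,2),(3,1,1)] []) (L 10 9)) (out 1)) (out 1))) (A23 (B02 (A02 (S 0 (L 3 9) (L
  10 9)) (out 1)) (S 0 (L 3 9) (L 5 9))) (B02 (A03 (A02 (P 8 (S 0 (K [(3,9,5),(43,15,3)] []) (L 10
  9))) (out 1)) (out 1)) (A03 (A02 (B12 (P 8 (K [(43,4,1),(19,13,12),(44,13,11)] [])) (S 5 (L 29 3)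
  (L 38 3))) (out 1)) (out 1))))))))))))))))))

/-- its cell -/
def cD0 : Cell :=
  ⟨0, 0, 0, 1114112, 0, 0, 1114112, 1114112, 0, 1114112, 1114112, 1114112, 0, 0, 0, 3129344, 5070848, 0⟩

theorem okD0 : check datD tD0 cD0 0 0 = true := by
  decide +kernel

end Pool.Agent.H315.NW
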