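import Pool.Agent.H315.NW.Data

/-!
# Project NW (helper315): certificates (generated)
-/

set_option autoImplicit false
set_option maxRecDepth 100000

namespace Pool.Agent.H315.NW

open Tr

/-- a part of the certificate -/
def tD1 : Tr :=
  (M 11 (P 2 (A03 (P 8 (M 5 (A02 (A01 (M 9 (P 0 (A03 (A02 (B12 (A01 (A03 (out 9) (S 1 (L 7 9) (L 0
  9))) (S 1 (L 7 9) (L 0 9))) (A01 (B02 (S 1 (L 7 9) (L 0 9)) (A03 (out 9) (A13 (out 9) (B12 (P 4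
  (L 24 13)) (P 3 (L 18 12)))))) (B02 (S 1 (L 7 9) (L 0 9)) (S 1 (L 7 9) (L 11 9))))) (B12 (S 3 (L
  18 12) (L 42 12)) (A12 (B02 (S 1 (L 7 9) (L 0 9)) (P 3 (L 18 12))) (B02 (S 3 (L 18 12) (L 42 12))
  (P 3 (L 18 12)))))) (A13 (B12 (S 3 (L 18 12) (L 42 12)) (P 3 (L 18 12))) (B12 (A23 (S 3 (L 18 12)
  (L 42 12)) (A03 (S 3 (L 18 12) (L 42 12)) (A13 (B01 (P 3 (L 18 12)) (B12 (S 1 (L 7 1) (L 0 1)) (P
  3 (L 18 12)))) (B01 (P 3 (L 18 12)) (B12 (S 1 (L 7 1) (L 0 1)) (P 3 (L 18 12))))))) (P 3 (L 18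
  12))))))) (A13 (P 10 (M 1 (A12 (M 6 (P 3 (B12 (M 9 (P 0 (A01 (A03 (out 9) (A13 (out 9) (K
  [(3,15,3),(53,18,3),(11,9,1),(18,2,1)] []))) (A13 (out 7) (A03 (out 9) (K
  [(18,12,4),(54,18,1),(54,6,3)] [])))))) (A01 (M 9 (K [(18,12,4),(54,18,4)] [])) (S 0 (L 3 15) (L
  40 15)))))) (M 9 (S 3 (L 18 12) (L 42 12)))))) (M 9 (P 0 (A03 (B12 (A02 (A01 (S 1 (L 7 9) (L 0
  9)) (P 3 (L 18 12))) (P 3 (L 18 12))) (P 3 (L 18 12))) (P 3 (L 18 12))))))) (M 6 (P 3 (A12 (A13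
  (P 10 (A01 (B12 (A02 (M 9 (K [(18,12,14),(53,18,7),(53,6,3)] [])) (A23 (out 7) (M 9 (L 53 18))))
  (A02 (M 9 (S 4 (K [(18,12,2),(24,13,6)] []) (L 43 4))) (S 0 (L 3 15) (L 40 9)))) (B12 (A12 (A13
  (out 7) (A23 (out 7) (M 9 (K [(18,12,13),(54,6,11)] [])))) (A23 (out 7) (A13 (out 7) (M 9 (L 18
  12))))) (S 0 (L 3 15) (L 40 15))))) (A23 (P 10 (M 1 (B12 (A02 (M 9 (P 0 (A01 (S 4 (K
  [(53,18,536),(18,12,151),(21,15,25),(53,6,288)] []) (L 43 13)) (A12 (B01 (L 18 12) (K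
  [(18,12,1),(0,9,5),(53,6,2)] [])) (K [(0,9,16),(53,6,6),(54,6,1)] []))))) (A12 (M 9 (P 0 (A01 (K
  [(0,9,48),(54,6,3),(53,6,13)] []) (B01 (L 18 12) (B12 (A13 (L 18 12) (K
  [(53,18,18),(54,6,1),(53,6,5)] [])) (K [(18,12,4),(0,9,2),(53,6,2)] [])))))) (A23 (out 7) (B01 (S
  0 (L 3 15) (L 40 9)) (M 9 (K [(53,18,48),(53,6,13),(54,6,3)] [])))))) (A02 (M 9 (B02 (K
  [(53,18,90),(18,12,65),(53,6,45)] []) (K [(54,6,5),(18,12,18),(53,18,23),(53,6,9),(54,13,8)]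
  []))) (S 0 (L 3 15) (L 40 9)))))) (M 9 (P 0 (B12 (A03 (A01 (A02 (P 4 (K [(18,12,5),(21,15,3)]
  [])) (B01 (B02 (P 10 (L 53 18)) (A23 (P 10 (K [(18,12,3),(53,18,3),(53,6,2)] [])) (L 18 12)))
  (B12 (P 10 (K [(53,6,8),(53,18,16)] [])) (A23 (P 10 (K [(18,12,1),(53,6,3),(53,18,5)] [])) (L 18
  12))))) (A13 (P 10 (M 1 (B01 (L 18 12) (K [(18,12,1),(0,9,5),(53,6,2)] [])))) (B01 (B02 (P 10 (L
  53 18)) (A23 (P 10 (K [(18,12,3),(53,18,3),(53,6,2)] [])) (L 18 12))) (B12 (P 10 (K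
  [(53,6,8),(53,18,16)] [])) (A23 (P 10 (K [(3,15,1),(53,6,3),(53,18,5)] [])) (L 18 12)))))) (A13
  (A01 (B01 (B02 (P 10 (L 53 18)) (A02 (L 18 12) (B12 (P 10 (K [(18,12,2),(53,18,5),(53,6,2)] []))
  (L 18 12)))) (B12 (S 1 (L 7 1) (K [(0,1,8),(0,9,16)] [])) (A02 (L 18 12) (B02 (S 1 (L 7 1) (K
  [(0,1,3),(0,9,5)] [])) (A23 (P 10 (K [(53,6,3),(53,18,4)] [])) (L 18 12)))))) (B01 (L 18 12) (B12
  (S 1 (L 7 1) (K [(0,9,5),(18,12,1),(0,1,2)] [])) (A12 (L 18 12) (B02 (S 1 (L 7 1) (K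
  [(18,12,1),(0,9,4),(0,1,3)] [])) (A23 (P 10 (K [(53,6,3),(53,18,4)] [])) (L 18 12))))))) (A23
  (B01 (B02 (P 10 (K [(53,18,7),(53,6,1),(54,13,1)] [])) (A02 (B12 (P 10 (K [(53,6,2),(53,18,6)]
  [])) (A01 (A03 (L 18 12) (B02 (A23 (L 18 12) (S 1 (L 7 1) (L 11 1))) (S 1 (L 7 1) (L 11 1))))
  (A12 (S 1 (L 7 1) (L 11 1)) (B02 (A23 (L 18 12) (S 1 (L 7 1) (L 11 1))) (S 1 (L 7 1) (L 11
  1)))))) (B12 (P 10 (M 1 (K [(3,15,1),(0,9,5),(53,6,2)] []))) (A12 (A01 (B02 (A03 (L 18 12) (S 1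
  (L 7 1) (L 11 1))) (S 1 (L 7 1) (L 11 1))) (S 1 (L 7 1) (L 11 1))) (A23 (L 18 12) (B02 (A03 (L 18
  12) (A13 (L 18 12) (A23 (L 18 12) (S 1 (L 7 1) (L 11 1))))) (S 1 (L 7 1) (L 11 1)))))))) (B12 (S
  1 (L 7 1) (K [(0,1,8),(0,9,16)] [])) (A02 (B02 (S 1 (L 7 1) (K [(0,1,2),(0,9,6)] [])) (S 1 (L 7
  1) (L 11 1))) (B02 (S 1 (L 7 1) (K [(0,1,3),(0,9,5)] [])) (A12 (S 1 (L 7 1) (L 11 1)) (A23 (P 10
  (K [(53,6,3),(53,18,4)] [])) (S 1 (L 7 1) (L 11 1)))))))) (B01 (B02 (A03 (A01 (A02 (L 18 12) (B01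
  (L 18 12) (B12 (P 10 (L 53 18)) (L 18 12)))) (A13 (P 10 (M 1 (K [(3,15,1),(0,9,6),(53,6,2)] [])))
  (B01 (L 18 12) (B12 (P 10 (L 53 18)) (L 18 12))))) (A13 (A01 (B01 (L 18 12) (B12 (S 1 (L 7 1) (L
  0 9)) (L 18 12))) (B01 (L 18 12) (B12 (S 1 (L 7 1) (L 0 9)) (L 18 12)))) (A23 (B01 (L 18 12) (B12
  (P 4 (K [(18,12,7),(24,19,1)] [])) (L 18 12))) (L 18 12)))) (S 1 (L 7 1) (L 0 1))) (S 1 (L 7 1)
  (L 0 1)))))) (A03 (B02 (A01 (A02 (M 7 (P 4 (K [(18,12,5),(13,16,1),(21,15,1),(18,18,1)] [])))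
  (B01 (P 10 (K [(53,18,6),(54,13,2)] [])) (A23 (L 18 12) (L 18 12)))) (A13 (L 18 12) (B01 (P 10 (K
  [(53,18,6),(54,13,2)] [])) (A23 (L 18 12) (L 18 12))))) (A01 (A02 (K [(18,12,6),(18,18,2)] []) (S
  4 (L 24 13) (L 43 4))) (S 1 (L 7 1) (L 11 1)))) (B02 (A13 (A01 (B01 (P 10 (K
  [(53,18,19),(54,13,5)] [])) (A02 (L 18 12) (L 18 12))) (L 18 12)) (A23 (B01 (P 10 (K
  [(53,18,19),(54,13,5)] [])) (A02 (L 18 12) (L 18 12))) (B01 (L 18 12) (S 1 (L 7 1) (L 11 1)))))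
  (S 1 (L 7 1) (L 11 1))))))))) (A23 (A02 (B12 (P 10 (A01 (A03 (P 4 (K [(21,15,1),(54,13,7)] []))
  (A13 (P 4 (K [(21,15,1),(54,13,6)] [])) (S 4 (L 21 15) (L 43 15)))) (A13 (out 7) (A03 (P 4 (K
  [(21,15,5),(54,13,18),(24,19,1)] [])) (B01 (S 0 (L 3 9) (L 40 9)) (L 54 13)))))) (A01 (B02 (P 10
  (A03 (P 4 (K [(21,15,1),(54,13,7)] [])) (S 0 (L 3 9) (L 40 9)))) (S 1 (L 8 16) (L 11 16))) (B02
  (S 0 (L 3 9) (L 40 9)) (A13 (out 7) (M 9 (L 18 18)))))) (B12 (S 0 (L 3 9) (L 40 9)) (A12 (B02 (S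
  0 (L 3 9) (L 40 9)) (A13 (out 7) (A23 (out 7) (M 9 (L 18 18))))) (B02 (S 0 (L 3 9) (L 40 9)) (A23
  (out 3) (A13 (out 3) (M 9 (L 18 18)))))))) (A13 (B12 (P 10 (M 1 (A01 (M 9 (P 0 (A02 (A03 (P 4 (K
  [(21,15,9),(53,18,6),(54,13,5),(53,6,3)] [])) (B01 (S 4 (K [(0,9,9),(18,18,2),(21,15,9),(53,6,4)]
  []) (L 43 15)) (B12 (P 4 (A13 (A12 (K [(53,18,4),(21,15,1),(53,6,3)] []) (A23 (L 21 15) (K
  [(53,18,10),(21,15,5),(53,6,8),(21,5,1)] []))) (A23 (A12 (B01 (K [(53,18,3),(21,15,2),(53,6,2)]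
  []) (K [(53,6,70),(21,15,42),(53,18,71),(21,5,17)] [])) (K [(21,15,19),(53,6,5)] [])) (A03 (B01
  (K [(53,18,3),(21,15,2),(53,6,2)] []) (K [(0,1,70),(53,18,72),(21,15,41),(21,5,17)] [])) (B01 (K
  [(53,18,29),(21,15,13),(53,6,22)] []) (B12 (A13 (A12 (K [(53,6,4),(53,18,4)] []) (A23 (K
  [(53,6,26),(53,18,23),(21,15,15)] []) (K [(53,6,4),(53,18,4)] []))) (A23 (A12 (K
  [(53,6,4),(53,18,4)] []) (K [(53,6,3),(21,5,1),(53,18,3),(21,15,2)] [])) (K [(53,6,4),(53,18,4)]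
  []))) (K [(53,6,386),(53,18,430),(21,15,184)] []))))))) (A13 (P 4 (K
  [(21,15,56),(54,13,27),(53,18,70),(53,6,46)] [])) (B02 (P 4 (A23 (K
  [(21,15,56),(54,13,27),(53,18,70),(53,6,46)] []) (K [(53,18,3),(21,15,2),(53,6,2)] []))) (K
  [(54,13,4),(0,1,1),(53,18,3)] [])))))) (A12 (B01 (L 18 18) (B12 (M 7 (P 4 (A13 (A01 (A03 (L 21
  15) (K [(53,18,78),(54,13,48),(53,6,54),(21,5,21)] [])) (K [(53,18,3),(54,13,2),(53,6,2)] []))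
  (A03 (A01 (K [(21,15,6),(53,6,2)] []) (B01 (K [(16,12,7),(53,18,10),(54,13,1),(53,6,6)] []) (B12
  (A12 (K [(0,1,66),(21,5,21),(53,18,70),(21,15,42)] []) (K [(53,6,2),(16,12,3),(21,5,2),(53,18,1)]
  [])) (A12 (K [(53,6,8),(21,15,6),(53,18,9)] []) (L 21 15))))) (A23 (B01 (K
  [(53,18,10),(21,15,7),(54,13,1),(53,6,6)] []) (B12 (A12 (K
  [(53,6,66),(21,5,23),(53,18,69),(21,15,41)] []) (K [(53,6,1),(21,15,3),(21,5,2),(53,18,1)] []))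
  (A12 (K [(53,6,8),(21,15,6),(53,18,9)] []) (L 21 15)))) (B01 (K [(53,18,29),(21,15,13),(53,6,22)]
  []) (B12 (A13 (A01 (A03 (K [(0,1,2),(21,5,1),(21,15,2),(53,18,2)] []) (K [(53,6,4),(53,18,4)]
  [])) (K [(53,6,4),(53,18,4)] [])) (A03 (A01 (K [(0,1,59),(21,5,29),(21,15,47),(53,18,64)] []) (K
  [(53,6,4),(53,18,4)] [])) (K [(53,6,4),(53,18,4)] []))) (K [(53,6,386),(53,18,430),(21,15,184)]
  [])))))))) (A13 (P 4 (K [(21,15,1),(11,16,11),(53,18,9),(53,6,3)] [])) (B02 (P 4 (A03 (K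
  [(21,15,1),(54,13,3),(53,18,3),(53,6,1)] []) (K [(21,15,8),(53,18,10),(53,6,6)] []))) (K
  [(54,13,4),(53,6,1),(53,18,3)] []))))) (B01 (L 18 18) (B12 (P 4 (A23 (L 21 15) (A03 (K
  [(21,15,6),(53,6,2)] []) (A13 (K [(21,15,4),(21,5,3)] []) (B01 (B02 (K
  [(53,18,12),(21,15,8),(21,5,3)] []) (A23 (L 21 15) (K [(21,15,210),(53,6,338),(53,18,452)] [])))
  (B12 (A23 (K [(53,6,1),(21,5,3),(21,15,4),(53,18,1)] []) (A03 (K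
  [(0,1,7),(21,5,5),(21,15,6),(53,18,7)] []) (K [(53,6,3),(21,5,2),(53,18,3)] []))) (A23 (L 21 15)
  (B02 (A03 (K [(53,6,3),(21,15,2),(21,5,1),(53,18,3)] []) (K [(53,6,4),(21,5,1),(53,18,3)] [])) (L
  53 6))))))))) (A23 (S 4 (L 21 15) (L 43 15)) (B02 (P 4 (A03 (L 21 15) (K
  [(21,15,78),(53,6,43),(53,18,79)] []))) (K [(11,16,5),(53,18,3)] []))))))))) (A12 (A13 (out 7)
  (B01 (S 0 (L 3 9) (L 40 9)) (M 9 (B12 (A03 (L 53 18) (A23 (K [(53,18,4),(53,6,4),(54,13,1)] [])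
  (K [(53,18,4),(53,6,3)] []))) (S 4 (K [(53,18,30),(21,15,10),(11,16,6),(53,6,18)] []) (L 43
  15)))))) (A02 (B01 (S 0 (L 3 9) (L 40 9)) (M 9 (B12 (A03 (K [(53,18,3),(54,13,2),(53,6,2)] [])
  (A13 (K [(53,18,3),(54,13,2),(53,6,2)] []) (A23 (K [(53,18,3),(54,13,1),(53,6,3)] []) (K
  [(53,18,4),(53,6,4)] [])))) (S 4 (K [(21,15,6),(53,18,11),(53,6,7)] []) (L 43 15))))) (B01 (S 0
  (L 3 9) (L 40 9)) (M 9 (P 0 (B12 (M 7 (P 4 (A23 (K [(21,15,2),(54,13,6),(21,5,1)] []) (A13 (K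
  [(3,9,1),(54,13,2),(53,18,1),(21,5,2),(53,6,1)] []) (A03 (K
  [(21,15,7),(53,6,6),(21,5,6),(53,18,5)] []) (B01 (B02 (K [(53,18,5),(21,15,2),(21,5,1)] []) (A23
  (K [(21,15,5),(21,5,1),(53,18,2)] []) (K [(16,12,1),(53,18,3),(53,6,3),(21,5,1)] []))) (K
  [(53,6,11),(21,5,8),(21,15,1),(53,18,5)] []))))))) (A23 (L 18 18) (S 4 (K
  [(21,15,23),(53,6,15),(53,18,26)] []) (L 43 15)))))))))))) (A01 (M 9 (B02 (P 10 (S 4 (K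
  [(18,18,10),(21,15,30),(53,18,77),(54,13,50),(53,6,33)] []) (L 43 4))) (A02 (P 10 (K
  [(54,13,3),(53,6,2),(53,18,3)] [])) (L 18 18)))) (B02 (S 0 (L 3 9) (L 40 9)) (A12 (S 0 (L 3 9) (L
  40 9)) (M 9 (L 18 18)))))) (M 9 (P 0 (B12 (A03 (A02 (A01 (P 4 (L 21 15)) (B01 (B02 (P 10 (P 4 (K
  [(53,18,4),(21,15,4)] []))) (A13 (P 10 (S 4 (K [(21,15,4),(53,18,3),(53,6,1)] []) (L 43 15))) (P
  4 (L 21 15)))) (B12 (P 10 (M 7 (P 4 (A13 (A12 (A01 (B01 (K [(53,18,25),(21,15,28),(53,6,11)] [])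
  (K [(53,6,363),(16,12,315),(53,18,322)] [])) (B01 (B02 (A13 (K [(53,18,6),(21,15,2)] []) (A23 (K
  [(53,18,4),(21,15,2),(53,6,1)] []) (K [(53,18,4),(21,15,2),(53,6,2)] []))) (A13 (K
  [(53,6,22),(53,18,29),(21,15,13)] []) (B12 (A23 (K [(53,6,2),(21,15,2),(53,18,3)] []) (K
  [(53,6,3),(53,18,3),(21,15,2)] [])) (K [(53,6,3),(21,15,2),(53,18,3)] [])))) (B12 (A13 (A12 (K
  [(53,6,4),(53,18,4)] []) (K [(53,6,21),(21,5,7),(53,18,22),(21,15,13)] [])) (A23 (K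
  [(53,6,9),(21,5,1),(21,15,6),(53,18,8)] []) (K [(53,6,3),(53,18,3),(21,15,2)] []))) (A13 (K
  [(53,6,386),(53,18,430),(21,15,184)] []) (B02 (A23 (K [(53,6,3),(21,15,2),(53,18,3)] []) (K
  [(53,6,3),(53,18,3),(21,15,2)] [])) (L 53 6)))))) (K [(21,15,19),(53,6,3),(53,18,2)] [])) (K
  [(53,6,1),(21,15,5),(53,18,2)] []))))) (A13 (P 10 (B02 (P 4 (A12 (K
  [(53,6,15),(21,15,22),(53,18,27)] []) (L 21 15))) (K [(53,6,2),(54,13,4),(53,18,3)] []))) (P 4 (L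
  21 15)))))) (A23 (P 10 (M 1 (B01 (L 18 18) (B12 (P 4 (A12 (A01 (K [(21,15,6),(53,6,2)] []) (A13
  (B01 (B02 (A12 (A01 (K [(21,15,10),(53,18,8),(21,5,5)] []) (A13 (K [(53,18,6),(21,15,2)] []) (K
  [(53,18,9),(21,15,10),(21,5,6)] []))) (L 21 15)) (A12 (B12 (A01 (A02 (B01 (K
  [(21,15,3),(53,6,2),(53,18,3)] []) (A03 (K [(21,15,9),(53,6,5),(53,18,10)] []) (B12 (A13 (K
  [(21,15,9),(53,6,5),(53,18,9),(21,5,2)] []) (L 21 15)) (K [(21,15,3),(53,6,3),(53,18,3)] []))))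
  (B01 (K [(21,15,3),(53,6,2),(53,18,3)] []) (A23 (K [(21,15,6),(53,6,6),(21,5,4),(53,18,8)] [])
  (B12 (A13 (K [(21,15,6),(53,6,6),(21,5,4),(53,18,8)] []) (L 21 15)) (K
  [(21,15,3),(53,6,3),(53,18,3)] []))))) (A13 (K [(53,18,3),(53,6,3),(21,15,1),(21,5,1)] []) (B01
  (K [(21,15,3),(53,6,2),(53,18,3)] []) (A23 (K [(21,15,6),(53,6,7),(21,5,4),(53,18,8)] []) (B12
  (A03 (K [(21,15,6),(53,6,6),(53,18,8),(21,5,4)] []) (K [(21,15,2),(53,6,2),(21,5,2),(53,18,2)]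
  [])) (K [(53,6,9),(21,15,7),(53,18,8)] [])))))) (K [(53,6,3),(21,15,2),(53,18,3)] [])) (L 21
  15))) (B12 (A12 (A01 (A02 (B01 (B02 (A03 (K [(53,6,15),(21,5,16),(21,15,17),(53,18,17)] []) (K
  [(53,6,2),(21,5,19),(21,15,3)] [])) (L 53 6)) (L 53 6)) (K [(53,6,1),(21,5,6)] [])) (K
  [(53,6,1),(21,5,6)] [])) (K [(21,5,3),(21,15,4)] [])) (A12 (B02 (A01 (A02 (B01 (A03 (K
  [(53,6,251),(21,15,275),(21,5,185),(53,18,290)] []) (B02 (A13 (K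
  [(53,6,248),(21,15,272),(21,5,194),(53,18,285)] []) (L 21 15)) (L 53 6))) (L 53 6)) (K
  [(53,6,80),(21,15,1),(21,5,98),(53,18,21)] [])) (K [(53,6,26),(21,5,32),(53,18,6)] [])) (L 53 6))
  (L 21 15)))) (K [(21,15,6),(53,6,2)] []))) (L 21 15))) (A12 (B02 (P 4 (A01 (L 21 15) (A13 (K
  [(21,15,269),(54,13,170),(53,6,115),(53,18,446)] []) (L 21 15)))) (K [(11,16,5),(53,18,3)] []))
  (L 54 13)))))) (B01 (B02 (P 10 (P 4 (K [(21,15,11),(53,18,12),(54,13,1)] []))) (A13 (P 10 (S 4 (K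
  [(21,15,12),(54,13,1),(18,18,1),(53,6,1),(53,18,9)] []) (L 43 15))) (P 4 (L 21 15)))) (B12 (P 10
  (M 7 (P 4 (M 1 (A13 (A01 (K [(21,15,19),(53,6,3),(53,18,2)] []) (A12 (B01 (B02 (A13 (A01 (A03 (K
  [(21,15,4),(53,18,3),(21,5,1)] []) (B01 (K [(53,18,4),(21,15,3),(53,6,1)] []) (B12 (A23 (A12 (K
  [(53,18,24),(21,15,16),(21,5,10),(53,6,14)] []) (A02 (K
  [(53,18,68),(21,15,58),(21,5,33),(53,6,42)] []) (B01 (K [(21,15,5),(0,9,3)] []) (B12 (A23 (L 21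
  15) (A13 (K [(16,12,5),(21,5,3)] []) (A03 (K [(21,15,5),(21,5,3)] []) (B01 (K
  [(21,15,3),(53,18,3),(53,6,1)] []) (K [(21,15,56),(21,5,41),(53,6,43),(53,18,61)] []))))) (K
  [(21,15,3),(53,6,2),(53,18,3)] []))))) (K [(53,18,5),(53,6,3)] [])) (K
  [(53,18,10),(21,15,9),(53,6,5)] [])))) (A12 (L 53 18) (B01 (K [(53,18,4),(21,15,3),(53,6,1)] [])
  (B12 (A23 (A02 (K [(53,18,23),(21,15,16),(21,5,10),(53,6,15)] []) (A12 (K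
  [(53,18,69),(21,15,51),(21,5,34),(53,6,46)] []) (B01 (K [(21,15,5),(0,9,3)] []) (B12 (A23 (L 21
  15) (A03 (K [(21,15,5),(21,5,3)] []) (A13 (K [(21,15,5),(21,5,3)] []) (B01 (K
  [(21,15,3),(53,18,3),(53,6,1)] []) (K [(21,15,274),(21,5,207),(53,6,218),(53,18,302)] []))))) (K
  [(21,15,3),(53,6,2),(53,18,3)] []))))) (K [(53,18,5),(53,6,3)] [])) (K
  [(53,18,10),(21,15,9),(53,6,5)] []))))) (A03 (A01 (K [(21,15,5),(53,18,3)] []) (B01 (K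
  [(53,18,4),(21,15,3),(53,6,1)] []) (B12 (A12 (K [(53,18,5),(53,6,3)] []) (A23 (A02 (B01 (K
  [(21,15,5),(53,18,3)] []) (B12 (A01 (K [(21,15,27),(53,18,28),(53,6,9)] []) (A13 (K
  [(21,15,59),(53,18,64),(53,6,42),(21,5,35)] []) (K [(21,15,3),(53,18,3),(53,6,2),(21,5,1)] [])))
  (K [(21,15,3),(53,18,3),(53,6,2)] []))) (B01 (K [(21,15,5),(0,9,3)] []) (B12 (A12 (A13 (A01 (L 21
  15) (B01 (K [(21,15,3),(53,18,3),(53,6,1)] []) (B12 (A12 (K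
  [(21,15,19),(21,5,12),(53,6,13),(53,18,20)] []) (K [(21,15,5),(21,5,3)] [])) (K
  [(21,15,63),(53,6,42),(21,5,30),(53,18,65)] [])))) (L 21 15)) (L 21 15)) (K
  [(21,15,3),(53,6,2),(53,18,3)] [])))) (A13 (B01 (K [(53,18,3),(21,15,5)] []) (B12 (A01 (K
  [(53,18,9),(21,15,8),(53,6,8)] []) (A12 (K [(53,18,64),(21,15,59),(53,6,42),(21,5,34)] []) (K
  [(21,15,21),(53,18,22),(53,6,21)] []))) (K [(21,15,3),(53,18,3),(53,6,2)] []))) (K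
  [(21,15,4),(53,18,3),(53,6,1)] [])))) (K [(21,15,9),(53,18,10),(53,6,5)] [])))) (A23 (B01 (K
  [(53,18,4),(21,15,3),(53,6,1)] []) (B12 (A12 (K [(53,18,12),(21,15,4),(53,6,8)] []) (A02 (A01 (L
  21 15) (B01 (K [(21,15,5),(0,9,3)] []) (B12 (A13 (A12 (K
  [(21,15,296),(53,18,326),(53,6,213),(21,5,166)] []) (K [(21,15,4),(53,6,2),(53,18,2)] [])) (K
  [(21,15,3),(53,6,2),(53,18,3)] [])) (K [(21,15,3),(53,6,2),(53,18,3)] [])))) (A23 (B01 (K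
  [(21,15,5),(53,18,3)] []) (B12 (A12 (A01 (L 21 15) (A13 (B01 (K [(21,15,3),(53,18,3),(53,6,1)]
  []) (B12 (A12 (A01 (K [(21,15,8),(0,1,5),(21,5,5),(53,18,7)] []) (A13 (K
  [(21,5,12),(53,6,13),(53,18,20),(21,15,19)] []) (K [(21,15,8),(53,6,5),(21,5,5),(53,18,7)] [])))
  (K [(21,15,5),(21,5,3)] [])) (A12 (K [(21,15,20),(53,6,14),(53,18,22),(21,5,7)] []) (L 21 15))))
  (L 21 15))) (L 21 15)) (K [(21,15,3),(53,6,2),(53,18,3)] []))) (B01 (K [(21,15,5),(53,18,3)] [])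
  (B12 (A13 (A01 (K [(21,15,4),(53,6,2),(53,18,2)] []) (A12 (B01 (K [(21,15,3),(53,18,3),(53,6,1)]
  []) (B12 (A13 (A01 (K [(21,15,62),(0,1,39),(21,5,38),(53,18,61)] []) (A12 (K
  [(53,6,14),(53,18,20),(21,5,11),(21,15,18)] []) (K [(53,6,39),(21,15,62),(21,5,38),(53,18,61)]
  []))) (K [(53,6,39),(21,15,62),(21,5,38),(53,18,61)] [])) (K [(53,6,16),(21,15,22),(53,18,26)]
  []))) (K [(21,15,4),(53,6,2),(53,18,2)] []))) (K [(21,15,3),(53,6,2),(53,18,2)] [])) (K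
  [(21,15,3),(53,6,2),(53,18,3)] [])))))) (K [(21,15,9),(53,6,5),(53,18,10)] []))) (K
  [(53,18,3),(21,15,2),(53,6,2)] [])))) (A13 (B12 (A01 (A03 (B01 (K [(21,15,3),(53,6,2),(53,18,3)]
  []) (A02 (K [(21,15,9),(53,6,5),(53,18,10)] []) (B12 (A12 (K
  [(21,15,9),(53,6,5),(53,18,9),(21,5,2)] []) (K [(21,15,4),(53,6,1),(53,18,3)] [])) (K
  [(53,6,3),(21,15,3),(53,18,3)] [])))) (B01 (K [(53,6,3),(21,15,2),(53,18,3)] []) (A23 (B12 (A12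
  (K [(53,6,16),(53,18,22),(21,15,15),(21,5,10)] []) (A02 (K
  [(53,6,46),(21,15,56),(53,18,64),(21,5,33)] []) (K [(16,12,7),(53,6,9),(21,5,8)] []))) (K
  [(53,6,3),(21,15,3),(53,18,3)] [])) (K [(53,6,4),(53,18,3)] [])))) (A12 (K [(53,18,4),(53,6,3)]
  []) (B01 (K [(53,6,3),(21,15,2),(53,18,3)] []) (A23 (B12 (A02 (K
  [(53,6,6),(53,18,8),(21,15,6),(21,5,4)] []) (K [(53,6,18),(21,15,16),(21,5,14),(53,18,15)] []))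
  (K [(53,6,9),(21,15,7),(53,18,8)] [])) (K [(53,6,4),(53,18,3),(21,5,1)] []))))) (K
  [(53,6,3),(21,15,2),(53,18,3)] [])) (B12 (A03 (A01 (K [(21,15,4),(53,6,1),(53,18,3)] []) (B01 (L
  53 6) (A12 (K [(53,6,5),(53,18,3)] []) (B12 (A23 (A02 (K [(53,6,2),(21,15,2),(53,18,2),(21,5,1)]
  []) (K [(16,12,2),(53,6,4),(21,5,2)] [])) (K [(53,6,11),(21,15,6),(53,18,7)] [])) (L 53 6))))) (K
  [(53,6,6),(16,12,1),(21,5,2)] [])) (L 53 6)))) (B12 (A13 (A01 (A03 (B01 (B02 (A02 (A01 (K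
  [(0,1,8),(21,15,7),(21,5,2),(53,18,7)] []) (A12 (K [(53,6,6),(21,5,4),(53,18,8),(21,15,6)] []) (K
  [(53,6,2),(16,2,1),(21,15,2),(53,18,2)] []))) (A12 (A01 (K [(0,1,6),(21,5,5),(21,15,7),(53,18,7)]
  []) (K [(53,6,2),(21,5,2),(21,15,1),(53,18,2)] [])) (K
  [(0,1,223),(21,5,237),(21,15,277),(53,18,263)] []))) (L 53 6)) (L 53 6)) (B01 (B02 (A23 (K
  [(53,6,43),(21,5,57),(21,15,49),(53,18,51)] []) (K [(53,6,3),(21,5,2),(53,18,4)] [])) (L 53 6))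
  (L 53 6))) (K [(53,6,4),(21,5,18),(53,18,2)] [])) (A03 (A01 (K
  [(53,6,292),(21,5,134),(21,15,311),(53,18,264)] []) (B01 (B02 (A12 (K [(53,6,5),(53,18,3)] [])
  (A23 (A02 (K [(53,6,2),(21,5,1),(21,15,2),(53,18,2)] []) (K [(53,6,2),(21,5,4),(21,15,2)] [])) (K
  [(53,6,11),(21,15,6),(53,18,7)] []))) (L 53 6)) (L 53 6))) (K [(53,6,6),(21,5,2),(21,15,1)] [])))
  (A13 (B02 (A01 (A03 (B01 (A02 (B02 (A01 (K [(21,15,9),(53,6,7),(53,18,8)] []) (A12 (K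
  [(53,6,6),(21,15,6),(53,18,8),(21,5,4)] []) (K [(53,6,7),(21,15,9),(53,18,8)] []))) (L 53 6))
  (B02 (A12 (A01 (K [(53,6,14),(21,15,22),(21,5,10),(53,18,18)] []) (K
  [(53,6,6),(21,15,6),(21,5,5),(53,18,7)] [])) (K [(53,6,14),(21,15,21),(21,5,11),(53,18,18)] []))
  (L 53 6))) (L 53 6)) (B01 (A23 (B02 (A12 (K [(53,6,7),(21,5,5),(21,15,5),(53,18,7)] []) (K
  [(53,6,49),(21,15,53),(21,5,47),(53,18,51)] [])) (L 53 6)) (K [(53,6,3),(53,18,3),(21,5,1)] []))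
  (L 53 6))) (K [(53,6,26),(21,5,32),(53,18,6)] [])) (L 53 6)) (B02 (A03 (A01 (K
  [(53,6,6),(21,15,11),(53,18,8)] []) (B01 (A12 (K [(53,6,5),(53,18,3)] []) (B02 (A23 (A02 (K
  [(53,6,2),(21,15,2),(21,5,1),(53,18,2)] []) (K [(53,6,2),(21,15,2),(21,5,4)] [])) (K
  [(53,6,11),(21,15,6),(53,18,7)] [])) (L 53 6))) (L 53 6))) (K [(53,6,6),(21,15,1),(21,5,2)] []))
  (L 53 6))))) (B01 (K [(21,15,7),(53,6,1),(53,18,1)] []) (K [(53,6,3),(21,15,5)] [])))) (K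
  [(21,15,6),(53,6,1),(53,18,1)] [])))))) (A13 (P 10 (M 1 (B02 (P 4 (A01 (L 21 15) (A12 (K
  [(21,15,383),(53,6,210),(53,18,407)] []) (L 21 15)))) (K [(11,16,5),(53,18,3)] [])))) (P 4 (L 21
  15))))))) (A23 (A02 (B01 (B02 (P 10 (S 4 (K [(21,15,16),(53,18,8)] []) (L 43 15))) (A01 (S 4 (L
  21 15) (L 43 15)) (B12 (P 10 (M 1 (S 4 (K [(21,15,11),(11,16,3),(53,18,10)] []) (L 43 15)))) (A13
  (P 10 (K [(54,13,4),(18,18,1),(53,18,3),(18,12,1)] [])) (S 4 (L 21 15) (L 43 15)))))) (B12 (P 10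
  (M 7 (P 4 (M 1 (A01 (K [(53,6,4),(21,15,54),(18,12,6)] []) (A13 (A12 (B01 (B02 (A01 (A03 (A02 (K
  [(53,18,85),(21,15,56),(53,6,59)] []) (B01 (K [(21,15,10),(53,18,11),(53,6,4)] []) (B12 (A12 (A13
  (K [(53,18,12),(53,6,8),(21,15,4)] []) (A23 (K [(53,18,88),(21,15,47),(53,6,65)] []) (K
  [(53,6,20),(21,15,21),(53,18,24)] []))) (A23 (A02 (B01 (K [(21,15,5),(53,18,3)] []) (B12 (A01 (K
  [(21,15,4),(53,6,2),(53,18,2)] []) (A13 (A12 (B01 (K [(21,15,11),(53,18,10),(53,6,3)] []) (B12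
  (A01 (A03 (K [(53,6,195),(21,15,311),(21,5,189),(53,18,305)] []) (A13 (K
  [(53,6,195),(21,15,311),(21,5,189),(53,18,305)] []) (K [(21,15,5),(21,5,3)] []))) (A13 (A12 (K
  [(53,6,13),(21,5,12),(53,18,20),(21,15,18)] []) (K [(53,6,39),(21,5,38),(21,15,62),(53,18,61)]
  [])) (A03 (K [(53,6,39),(21,15,62),(21,5,38),(53,18,61)] []) (K [(21,15,4),(21,5,4)] [])))) (A01
  (K [(53,6,2),(21,15,4),(53,18,3)] []) (B02 (A13 (K [(53,6,42),(21,15,63),(53,18,66),(21,5,28)]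
  []) (K [(21,15,21),(53,6,13),(21,5,10),(53,18,20)] [])) (L 53 6))))) (K
  [(21,15,4),(53,6,2),(53,18,1)] [])) (K [(21,15,4),(53,6,2),(53,18,1)] []))) (K
  [(21,15,3),(53,6,2),(53,18,3)] []))) (B01 (K [(21,15,5),(53,18,3)] []) (B12 (A12 (A13 (A01 (L 21
  15) (B01 (K [(21,15,11),(53,18,10),(53,6,3)] []) (B12 (A12 (A13 (A01 (K [(21,5,3),(21,15,5)] [])
  (K [(21,5,12),(53,6,13),(53,18,20),(21,15,19)] [])) (K [(21,15,2),(21,5,5)] [])) (K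
  [(21,15,5),(21,5,3)] [])) (A12 (B02 (A13 (K [(21,15,63),(53,6,42),(21,5,28),(53,18,66)] []) (L 21
  15)) (K [(53,6,3),(16,12,3),(53,18,3)] [])) (L 21 15))))) (L 21 15)) (L 21 15)) (K
  [(21,15,3),(53,6,2),(53,18,3)] [])))) (A13 (B01 (K [(21,15,6),(53,18,2)] []) (B12 (A01 (K
  [(21,15,6),(53,6,2)] []) (A12 (A13 (B01 (K [(21,15,424),(53,18,425),(53,6,152)] []) (B12 (A01
  (A02 (K [(53,6,40),(21,15,61),(21,5,36),(53,18,63)] []) (A12 (K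
  [(53,6,199),(21,5,186),(21,15,304),(53,18,312)] []) (B01 (B02 (A23 (L 21 15) (A03 (K
  [(21,15,5),(21,5,3)] []) (K [(53,6,197),(21,5,192),(21,15,301),(53,18,310)] []))) (L 53 6)) (L 53
  6)))) (A12 (K [(53,6,6),(21,5,10),(53,18,8)] []) (A02 (K
  [(53,6,13),(21,5,12),(21,15,19),(53,18,20)] []) (K [(53,6,39),(21,5,44),(21,15,58),(53,18,59)]
  [])))) (A01 (B02 (A02 (K [(53,6,6),(21,15,8),(53,18,10)] []) (A12 (K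
  [(53,6,6),(21,15,8),(53,18,10)] []) (B01 (A23 (L 21 15) (B02 (A03 (L 21 15) (K
  [(53,6,40),(21,15,60),(21,5,38),(53,18,62)] [])) (L 53 6))) (L 53 6)))) (L 53 6)) (B02 (A12 (K
  [(53,6,14),(53,18,21),(21,15,18),(21,5,12)] []) (A02 (K
  [(53,6,42),(21,15,60),(53,18,65),(21,5,33)] []) (B01 (A23 (L 21 15) (K
  [(53,6,40),(21,15,60),(21,5,38),(53,18,62)] [])) (L 53 6)))) (L 53 6))))) (B01 (B02 (A03 (K
  [(21,15,4),(53,18,4)] []) (A23 (K [(21,15,31),(53,18,25),(21,5,8)] []) (A13 (B01 (K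
  [(21,15,5),(0,9,3)] []) (B12 (A01 (A02 (K [(21,15,19),(53,18,25),(53,6,20)] []) (A12 (K
  [(21,15,8),(53,18,8),(53,6,7)] []) (B01 (K [(21,15,3),(53,18,3),(53,6,1)] []) (B12 (A23 (L 21 15)
  (A03 (L 21 15) (A13 (K [(21,15,6),(53,6,2)] []) (B01 (K [(21,15,3),(53,18,3),(53,6,1)] []) (B12
  (A23 (K [(53,6,2),(21,15,6)] []) (A03 (K [(53,6,7),(21,15,12),(53,18,5)] []) (A13 (B01 (K
  [(53,6,190),(21,15,311),(53,18,311),(21,5,189)] []) (L 53 6)) (B01 (B02 (A23 (A02 (K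
  [(53,6,8),(53,18,9),(21,15,7)] []) (K [(53,6,190),(53,18,311),(21,5,189),(21,15,310)] [])) (K
  [(53,6,3),(53,18,5)] [])) (L 53 6)) (L 53 6))))) (K [(53,6,14),(21,15,26),(53,18,24)] [])))))) (K
  [(21,15,3),(53,6,2),(53,18,3)] []))))) (A12 (A13 (K [(53,18,11),(21,15,10),(21,5,3)] []) (B01 (K
  [(53,18,4),(21,15,3),(53,6,1)] []) (B12 (A03 (A02 (L 53 18) (A23 (K
  [(53,18,63),(21,15,62),(21,5,37),(53,6,38)] []) (K [(53,18,5),(53,6,3)] []))) (A23 (K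
  [(53,18,313),(21,15,308),(21,5,186),(53,6,192)] []) (K [(53,18,5),(53,6,3)] []))) (K
  [(53,18,3),(21,15,3),(53,6,2)] [])))) (A02 (B01 (K [(53,18,4),(21,15,3),(53,6,1)] []) (B12 (A03
  (A01 (K [(53,18,3),(21,15,3),(53,6,2)] []) (A13 (K [(21,15,20),(53,18,20),(21,5,12),(53,6,12)]
  []) (K [(53,18,311),(21,15,313),(53,6,190),(21,5,186)] []))) (A13 (A01 (B01 (K
  [(53,18,3),(21,15,5)] []) (K [(21,15,310),(53,6,191),(53,18,311),(21,5,187)] [])) (K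
  [(21,15,311),(53,18,310),(21,5,189),(53,6,191)] [])) (A23 (B01 (K [(21,15,5),(53,18,3)] []) (K
  [(21,15,310),(53,6,191),(53,18,311),(21,5,187)] [])) (K
  [(53,18,314),(53,6,192),(16,12,308),(21,5,186)] [])))) (K [(21,15,3),(53,18,3),(53,6,2)] [])))
  (B01 (K [(21,15,3),(53,18,3),(53,6,1)] []) (B12 (A23 (L 21 15) (A13 (K
  [(21,15,312),(21,5,190),(53,18,308),(53,6,190)] []) (A03 (B01 (K [(21,15,6),(53,18,2)] []) (K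
  [(21,15,313),(53,6,189),(21,5,191),(53,18,307)] [])) (B01 (K [(21,15,3),(53,18,3),(53,6,1)] [])
  (B12 (A23 (K [(53,6,189),(21,15,313),(21,5,191),(53,18,308)] []) (A13 (A12 (K
  [(53,6,191),(21,5,188),(53,18,312),(21,15,309)] []) (B01 (B02 (K
  [(53,18,311),(21,15,310),(21,5,189),(53,6,190)] []) (L 53 6)) (L 53 6))) (A03 (B01 (B02 (K
  [(53,18,311),(53,6,190),(21,15,310),(21,5,189)] []) (L 53 6)) (L 53 6)) (B01 (B02 (A23 (K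
  [(53,6,190),(53,18,311),(21,5,189),(21,15,310)] []) (K [(53,18,5),(53,6,3)] [])) (L 53 6)) (L 53
  6))))) (K [(53,6,14),(21,15,26),(53,18,24)] [])))))) (K [(21,15,3),(53,6,2),(53,18,3)] []))))))
  (K [(21,15,3),(0,9,3),(53,6,2)] []))) (B01 (L 21 15) (B12 (A03 (A02 (K
  [(21,15,19),(53,6,20),(53,18,25)] []) (A23 (B01 (K [(21,15,3),(53,18,3),(53,6,1)] []) (B12 (A12
  (A01 (L 21 15) (A13 (B01 (K [(21,15,3),(53,6,1),(53,18,3)] []) (B12 (A12 (A01 (K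
  [(53,6,7),(21,15,12),(53,18,5)] []) (A13 (B01 (B02 (A12 (K [(53,6,3),(53,18,5)] []) (A02 (K
  [(53,6,8),(53,18,9),(21,15,7)] []) (A23 (B01 (B02 (A12 (K
  [(53,18,311),(53,6,190),(21,15,310),(21,5,188)] []) (K
  [(21,15,311),(53,6,190),(21,5,189),(53,18,311)] [])) (L 53 6)) (L 53 6)) (K
  [(53,6,20),(21,15,21),(53,18,24)] [])))) (L 53 6)) (L 53 6)) (K [(53,6,7),(21,15,12),(53,18,6)]
  []))) (K [(21,15,5),(21,5,3)] [])) (K [(53,6,14),(21,15,26),(53,18,24)] []))) (L 21 15))) (L 21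
  15)) (K [(21,15,3),(53,6,2),(53,18,3)] []))) (K [(16,12,8),(53,6,7),(53,18,9)] []))) (A23 (A02 (K
  [(16,12,8),(53,6,7),(53,18,8)] []) (B01 (K [(21,15,4),(53,6,1),(53,18,3)] []) (B12 (A12 (A13 (A01
  (L 21 15) (B01 (K [(21,15,26),(53,6,14),(53,18,24)] []) (B12 (A12 (A13 (A01 (K
  [(53,6,7),(21,15,11),(53,18,6)] []) (B01 (B02 (A12 (K [(53,6,4),(53,18,4)] []) (A23 (A02 (B01
  (B02 (A01 (K [(53,6,7),(53,18,7),(21,15,9)] []) (A13 (K [(53,18,9),(53,6,8),(21,15,7)] []) (A03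
  (K [(53,6,8),(53,18,9),(21,15,7)] []) (B01 (B02 (K
  [(53,18,311),(21,15,311),(53,6,189),(21,5,189)] []) (K [(53,6,10),(21,15,6),(53,18,8)] [])) (K
  [(53,6,10),(21,15,6),(53,18,8)] []))))) (L 53 6)) (L 53 6)) (B01 (B02 (A12 (A13 (K
  [(53,18,312),(53,6,190),(21,5,188),(21,15,310)] []) (A23 (K
  [(53,6,190),(16,12,311),(53,18,311),(21,5,189)] []) (B01 (B02 (K
  [(21,15,311),(53,18,311),(53,6,189),(21,5,189)] []) (K [(0,1,39),(16,12,62),(21,5,38),(53,18,62)]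
  [])) (K [(53,6,38),(21,5,38),(21,15,62),(53,18,62)] [])))) (K
  [(21,15,312),(0,1,189),(21,5,189),(53,18,310)] [])) (L 53 6)) (L 53 6))) (A13 (B01 (B02 (A01 (K
  [(53,6,60),(53,18,66),(21,15,74)] []) (A12 (K [(53,18,5),(53,6,3)] []) (K
  [(53,6,190),(53,18,311),(21,5,188),(21,15,311)] []))) (L 53 6)) (L 53 6)) (K
  [(53,6,60),(21,15,74),(53,18,66)] [])))) (L 53 6)) (L 53 6))) (K [(53,6,7),(21,15,11),(53,18,6)]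
  [])) (K [(21,15,5),(21,5,3)] [])) (K [(53,6,14),(21,15,26),(53,18,24)] [])))) (L 21 15)) (L 21
  15)) (K [(21,15,3),(53,6,2),(53,18,3)] [])))) (K [(16,12,8),(53,6,7),(53,18,8)] []))) (L 21
  15)))))) (A03 (K [(53,6,152),(21,15,424),(53,18,425)] []) (B12 (A23 (A02 (B01 (K
  [(0,1,2),(16,12,3),(53,18,3)] []) (A01 (K [(53,6,1),(21,15,4),(53,18,3)] []) (B12 (A13 (A12 (K
  [(0,1,39),(21,15,61),(53,18,63),(21,5,37)] []) (K [(21,15,63),(0,1,38),(53,18,62),(21,5,37)] []))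
  (A03 (K [(21,15,63),(53,6,38),(53,18,62),(21,5,36)] []) (L 21 15))) (K
  [(53,6,3),(21,15,3),(53,18,3)] [])))) (B01 (K [(21,15,3),(53,6,2),(53,18,3)] []) (A12 (B12 (A13
  (A01 (L 21 15) (K [(21,15,61),(53,6,39),(53,18,63),(21,5,37)] [])) (L 21 15)) (K
  [(53,6,3),(21,15,3),(53,18,3)] [])) (L 21 15)))) (A13 (B01 (K [(0,1,2),(16,12,3),(53,18,3)] [])
  (A01 (L 53 6) (B12 (A12 (A13 (K [(0,1,39),(53,18,63),(21,15,61),(21,5,37)] []) (K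
  [(53,6,40),(21,15,61),(53,18,62),(21,5,37)] [])) (A02 (K
  [(53,6,199),(21,15,307),(53,18,308),(21,5,187)] []) (K [(53,6,3),(21,15,3),(21,5,3)] []))) (K
  [(53,6,3),(21,15,3),(53,18,3)] [])))) (L 53 6))) (K [(53,6,2),(21,15,3),(53,18,3)] [])))) (B12
  (A03 (A02 (K [(53,6,40),(21,15,61),(21,5,36),(53,18,63)] []) (A23 (B01 (B02 (A12 (A01 (K
  [(21,15,5),(21,5,3)] []) (A13 (K [(53,6,39),(21,5,39),(21,15,60),(53,18,61)] []) (K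
  [(21,15,5),(21,5,3)] []))) (L 21 15)) (L 53 6)) (L 53 6)) (B01 (B02 (A13 (A01 (K
  [(53,6,13),(21,15,21),(21,5,11),(53,18,20)] []) (A12 (K
  [(53,6,39),(21,5,38),(53,18,62),(21,15,61)] []) (K [(53,6,40),(21,15,63),(21,5,36),(53,18,61)]
  []))) (K [(53,6,7),(21,15,9),(53,18,8)] [])) (L 53 6)) (L 53 6)))) (A23 (A02 (B01 (B02 (A01 (K
  [(53,6,2),(21,15,3),(53,18,2)] []) (A13 (A12 (K [(53,6,39),(21,5,39),(21,15,60),(53,18,62)] [])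
  (B01 (B02 (A02 (K [(53,6,39),(21,5,38),(21,15,61),(53,18,62)] []) (K [(21,15,5),(21,5,3)] [])) (L
  53 6)) (L 53 6))) (A03 (B01 (B02 (A02 (K [(53,6,191),(21,15,310),(21,5,190),(53,18,309)] []) (K
  [(21,15,5),(21,5,3)] [])) (L 53 6)) (L 53 6)) (K [(21,15,4),(21,5,4)] [])))) (L 53 6)) (L 53 6))
  (K [(0,1,64),(21,5,806),(21,15,130)] [])) (A13 (B01 (B02 (A01 (L 53 6) (A12 (K
  [(53,6,6),(21,5,10),(53,18,8)] []) (A02 (K [(53,6,191),(21,5,193),(21,15,308),(53,18,308)] []) (K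
  [(53,6,2),(21,5,4),(21,15,2)] [])))) (L 53 6)) (L 53 6)) (L 53 6)))) (A03 (B02 (A02 (K
  [(53,6,6),(21,15,8),(53,18,10)] []) (A23 (B01 (A12 (B02 (A01 (L 21 15) (A13 (K
  [(53,6,197),(21,15,303),(21,5,189),(53,18,311)] []) (L 21 15))) (L 53 6)) (L 21 15)) (L 53 6))
  (B01 (A13 (B02 (A01 (K [(53,6,2),(21,15,3),(53,18,3)] []) (A12 (K
  [(53,6,196),(21,15,305),(53,18,313),(21,5,186)] []) (K [(53,6,12),(21,15,31),(53,18,21)] []))) (L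
  53 6)) (K [(53,6,2),(21,15,3),(53,18,3)] [])) (L 53 6)))) (L 53 6)) (B02 (A23 (A02 (B01 (A01 (K
  [(53,6,2),(21,15,4),(53,18,3)] []) (B02 (A13 (A12 (K
  [(53,6,197),(21,15,302),(21,5,192),(53,18,309)] []) (K
  [(53,6,195),(21,15,312),(21,5,183),(53,18,310)] [])) (A03 (K
  [(53,6,195),(21,15,312),(21,5,183),(53,18,310)] []) (L 21 15))) (L 53 6))) (L 53 6)) (B01 (A12
  (B02 (A13 (A01 (L 21 15) (K [(53,6,197),(21,15,302),(21,5,192),(53,18,309)] [])) (L 21 15)) (L 53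
  6)) (L 21 15)) (L 53 6))) (A13 (B01 (A01 (L 53 6) (B02 (A12 (K [(53,6,3),(21,5,3),(53,18,2)] [])
  (A02 (K [(53,6,193),(21,15,308),(21,5,191),(53,18,308)] []) (K [(53,6,2),(21,15,2),(21,5,4)]
  []))) (L 53 6))) (L 53 6)) (L 53 6))) (L 53 6)))))) (K [(21,15,6),(53,6,2)] []))) (K
  [(21,15,3),(53,6,2),(53,18,3)] []))) (K [(21,15,19),(53,6,5)] [])))) (K
  [(21,15,9),(53,6,5),(53,18,10)] [])))) (A13 (B01 (K [(53,18,11),(21,15,10),(53,6,4)] []) (B12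
  (A12 (A01 (A02 (B01 (B02 (K [(53,18,4),(21,15,4)] []) (A03 (K [(53,6,7),(16,12,32),(53,18,26)]
  []) (K [(53,6,36),(21,15,64),(53,18,72),(21,5,28)] []))) (B12 (A03 (A01 (K
  [(53,6,17),(21,15,32),(53,18,15)] []) (A13 (K [(53,6,19),(53,18,23),(21,15,22)] []) (B01 (B02
  (A23 (K [(53,6,42),(53,18,65),(21,15,63),(21,5,30)] []) (K
  [(53,6,38),(21,5,36),(53,18,64),(21,15,61)] [])) (L 53 6)) (L 53 6)))) (A13 (A01 (B01 (B02 (A02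
  (K [(53,6,37),(21,5,38),(53,18,64),(21,15,60)] []) (A23 (K
  [(53,6,41),(53,18,65),(21,5,31),(21,15,62)] []) (K [(53,6,37),(53,18,64),(21,5,38),(21,15,60)]
  []))) (L 53 6)) (L 53 6)) (K [(53,6,20),(53,18,25),(21,15,19)] [])) (A23 (B01 (B02 (A02 (K
  [(53,6,37),(21,5,38),(53,18,64),(21,15,60)] []) (A12 (K
  [(53,6,37),(53,18,64),(21,5,38),(21,15,60)] []) (A23 (B01 (K
  [(21,15,20),(53,18,21),(53,6,12),(21,5,11)] []) (K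
  [(53,6,193),(21,15,310),(21,5,181),(53,18,317)] [])) (K
  [(53,6,37),(21,5,38),(21,15,60),(53,18,64)] [])))) (L 53 6)) (L 53 6)) (K
  [(53,6,1),(21,5,6),(53,18,1)] [])))) (A03 (K [(53,6,38),(21,15,65),(53,18,68),(21,5,29)] []) (B02
  (A13 (K [(53,6,39),(53,18,68),(21,15,62),(21,5,31)] []) (K
  [(53,6,13),(21,15,20),(21,5,10),(53,18,22)] [])) (L 53 6))))) (B01 (K
  [(53,18,9),(21,15,7),(53,6,5),(21,5,3)] []) (B12 (A23 (A12 (A13 (K [(53,6,7),(53,18,9),(21,15,7)]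
  []) (B01 (B02 (A03 (A02 (A01 (B01 (K [(53,18,4),(21,15,2),(53,6,2)] []) (B12 (A03 (A02 (A01 (B01
  (K [(53,6,38),(53,18,63),(21,15,62),(21,5,36)] []) (K [(53,6,4),(21,5,3),(53,18,1)] [])) (K
  [(53,6,3),(53,18,5)] [])) (K [(53,18,5),(53,6,3)] [])) (K [(53,18,5),(53,6,3)] [])) (K
  [(53,6,2),(53,18,4),(21,15,2)] []))) (K [(53,18,5),(53,6,3)] [])) (K [(53,18,5),(53,6,3)] [])) (K
  [(53,18,5),(53,6,3)] [])) (K [(53,6,4),(53,18,3),(21,5,1)] [])) (K [(53,6,4),(21,5,2),(53,18,1)]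
  []))) (A02 (B01 (B02 (A03 (A01 (A02 (B01 (K [(53,18,4),(21,15,2),(53,6,2)] []) (B12 (A03 (A01
  (A02 (B01 (K [(53,6,38),(21,15,62),(53,18,64),(21,5,36)] []) (K [(53,6,12),(21,15,1),(53,18,11)]
  [])) (K [(53,6,3),(53,18,5)] [])) (K [(53,18,5),(53,6,3)] [])) (K [(53,18,5),(53,6,3)] [])) (K
  [(53,6,2),(53,18,4),(21,15,2)] []))) (K [(53,18,5),(53,6,3)] [])) (K [(53,18,5),(53,6,3)] [])) (K
  [(53,18,5),(53,6,3)] [])) (K [(53,6,4),(53,18,4)] [])) (K [(53,6,4),(53,18,4)] [])) (K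
  [(53,18,5),(53,6,3)] []))) (A13 (A12 (K [(53,6,20),(53,18,25),(21,15,19)] []) (B01 (B02 (A02 (A03
  (A01 (B01 (K [(53,18,4),(21,15,2),(53,6,2)] []) (B12 (A02 (A03 (A01 (B01 (K
  [(53,6,38),(53,18,63),(21,15,62),(21,5,37)] []) (K [(53,6,4),(21,5,4)] [])) (K
  [(53,6,3),(53,18,5)] [])) (K [(53,6,3),(53,18,5)] [])) (K [(53,18,5),(53,6,3)] [])) (K
  [(53,6,2),(53,18,4),(21,15,2)] []))) (K [(53,18,5),(53,6,3)] [])) (K [(53,18,5),(53,6,3)] [])) (K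
  [(53,18,5),(53,6,3)] [])) (K [(53,6,4),(53,18,3),(21,5,1)] [])) (K [(53,6,4),(21,5,4)] []))) (A03
  (B01 (B02 (A02 (A01 (A03 (B01 (K [(53,18,21),(21,15,20),(53,6,12),(21,5,10)] []) (B12 (A02 (A01
  (A03 (B01 (K [(53,6,12),(21,15,20),(53,18,20),(21,5,12)] []) (K [(53,6,4),(21,5,4)] [])) (K
  [(53,6,38),(21,5,38),(21,15,61),(53,18,63)] [])) (K [(53,6,5),(21,5,4),(53,18,8),(21,15,7)] []))
  (K [(53,6,5),(21,5,4),(53,18,8),(21,15,7)] [])) (K [(53,6,39),(21,15,62),(53,18,65),(21,5,34)]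
  []))) (K [(53,18,21),(21,5,12),(53,6,12),(21,15,19)] [])) (K
  [(0,9,25),(21,5,10),(53,6,15),(21,15,14)] [])) (K [(0,9,25),(21,5,10),(53,6,15),(21,15,14)] []))
  (K [(53,6,4),(21,5,1),(53,18,3)] [])) (K [(53,6,4),(21,5,4)] [])) (K
  [(53,6,1),(21,5,6),(53,18,1)] [])))) (K [(53,6,42),(53,18,70),(21,15,59),(21,5,29)] [])))) (K
  [(53,18,11),(53,6,7),(21,5,3),(21,15,4)] [])) (A02 (A01 (B01 (K [(21,15,5),(53,18,1),(21,5,2)]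
  []) (K [(0,1,1),(21,15,39),(21,5,25)] [])) (B01 (K [(21,15,9),(53,18,8),(53,6,4),(21,5,4)] [])
  (B12 (A13 (A12 (A01 (B01 (B02 (A03 (A02 (A01 (B01 (K [(21,15,3),(53,18,4),(53,6,1)] []) (B12 (A03
  (A02 (A01 (B01 (K [(21,15,64),(53,6,37),(53,18,63),(21,5,37)] []) (B12 (A03 (K
  [(53,6,2),(21,15,6)] []) (A23 (K [(53,6,2),(21,15,6)] []) (A13 (K
  [(53,6,38),(21,5,38),(21,15,63),(53,18,62)] []) (K [(53,6,38),(21,5,38),(21,15,62),(53,18,62)]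
  [])))) (A03 (L 21 15) (B02 (A23 (L 21 15) (K [(53,6,189),(21,15,314),(21,5,182),(53,18,314)] []))
  (L 53 6))))) (B01 (K [(21,15,317),(0,9,315),(53,6,186),(21,5,183)] []) (B12 (A13 (A12 (A01 (B01
  (B02 (A03 (K [(53,6,7),(21,15,8),(53,18,8)] []) (A23 (A02 (B01 (K [(53,18,11),(21,15,9),(53,6,4)]
  []) (K [(53,6,190),(21,15,311),(53,18,312),(21,5,187)] [])) (B01 (K [(21,15,5),(53,18,3)] [])
  (B12 (A12 (K [(53,6,190),(21,15,311),(53,18,312),(21,5,187)] []) (K [(21,15,5),(21,5,3)] [])) (K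
  [(53,6,1),(21,15,4),(53,18,2)] [])))) (A13 (B01 (K [(53,18,11),(53,6,4),(21,15,9)] []) (B12 (A01
  (K [(53,6,189),(53,18,312),(21,5,189),(21,15,310)] []) (A12 (K [(53,6,3),(53,18,5)] []) (K
  [(53,6,189),(53,18,312),(21,5,189),(21,15,310)] []))) (K [(53,6,14),(53,18,25),(21,15,26)] [])))
  (B01 (K [(53,18,4),(53,6,2),(21,15,3)] []) (K [(53,6,189),(53,18,312),(21,5,189),(21,15,310)]
  []))))) (L 53 6)) (L 53 6)) (B01 (B02 (A13 (K [(53,18,24),(21,15,21),(53,6,20)] []) (A23 (A12 (K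
  [(53,18,315),(53,6,191),(21,15,308),(21,5,187)] []) (B01 (K [(21,15,5),(53,18,3)] []) (B12 (A02
  (A03 (loc 1) (A23 (loc 1) (B01 (K [(53,6,189),(21,15,311),(53,18,312),(21,5,188)] []) (K
  [(53,6,4),(53,18,4)] [])))) (A23 (loc 1) (A03 (loc 1) (B01 (B02 (K
  [(16,12,312),(53,6,188),(53,18,311),(21,5,189)] []) (A13 (loc 1) (L 53 6))) (B12 (A13 (loc 1) (L
  53 6)) (A13 (loc 1) (L 53 6))))))) (K [(53,6,1),(21,15,4),(53,18,2)] [])))) (A03 (B01 (K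
  [(53,18,3),(53,6,1),(21,15,3)] []) (B12 (A01 (A02 (K [(53,6,3),(53,18,5)] []) (K
  [(53,6,189),(53,18,312),(21,5,189),(21,15,310)] [])) (A12 (L 53 18) (K
  [(53,6,189),(53,18,312),(21,5,189),(21,15,310)] []))) (K [(53,6,14),(53,18,25),(21,15,26)] [])))
  (B01 (K [(53,18,4),(53,6,2),(21,15,3)] []) (B12 (A13 (A12 (L 53 18) (K
  [(53,6,189),(53,18,312),(21,5,189),(21,15,310)] [])) (K
  [(53,6,189),(53,18,312),(21,5,189),(21,15,310)] [])) (K [(53,6,16),(53,18,28),(21,15,21)]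
  [])))))) (K [(53,6,6),(53,18,2)] [])) (K [(53,6,6),(53,18,2)] []))) (A23 (K [(53,6,2),(21,15,6)]
  []) (B01 (B02 (A03 (K [(53,6,7),(21,15,9),(53,18,8)] []) (A13 (A01 (B01 (K
  [(21,15,10),(53,6,5),(53,18,9)] []) (B12 (A02 (K [(53,6,189),(21,15,311),(21,5,188),(53,18,311)]
  []) (K [(21,15,5),(21,5,3)] [])) (K [(53,6,5),(21,15,10),(53,18,9)] []))) (K [(21,15,5),(21,5,3)]
  [])) (A23 (B01 (K [(21,15,314),(53,6,189),(53,18,312),(21,5,185)] []) (B12 (A02 (K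
  [(53,6,189),(21,5,190),(21,15,311),(53,18,311)] []) (K [(21,15,5),(21,5,3)] [])) (K
  [(53,6,189),(21,15,314),(21,5,185),(53,18,312)] []))) (B01 (K
  [(53,18,63),(53,6,38),(21,15,62),(21,5,37)] []) (K
  [(53,6,189),(21,5,190),(53,18,311),(21,15,311)] []))))) (L 53 6)) (L 53 6)))) (A23 (A12 (B01 (B02
  (A01 (K [(53,6,19),(21,15,25),(53,18,20)] []) (A13 (A12 (K
  [(53,6,38),(21,5,38),(53,18,63),(21,15,62)] []) (B01 (K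
  [(21,15,313),(53,6,188),(21,5,188),(53,18,311)] []) (K [(53,6,4),(21,5,4)] []))) (A03 (B01 (K
  [(21,15,313),(53,6,189),(21,5,187),(53,18,311)] []) (K [(53,6,6),(21,15,1),(21,5,1)] [])) (K
  [(21,15,5),(21,5,3)] [])))) (L 53 6)) (L 53 6)) (K [(53,6,2),(21,15,6)] [])) (A03 (B01 (B02 (A01
  (K [(53,6,193),(21,15,317),(21,5,179),(53,18,311)] []) (A12 (K
  [(53,6,38),(21,5,38),(53,18,63),(21,15,61)] []) (A02 (K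
  [(53,6,190),(21,5,188),(21,15,310),(53,18,312)] []) (K
  [(53,6,187),(21,15,312),(21,5,191),(53,18,310)] [])))) (L 53 6)) (L 53 6)) (K
  [(53,6,188),(21,5,192),(21,15,309),(53,18,311)] [])))) (A13 (K [(53,6,14),(21,15,24),(53,18,26)]
  []) (B02 (A23 (K [(53,6,211),(21,15,407),(53,18,383)] []) (K
  [(53,6,38),(21,15,63),(21,5,37),(53,18,63)] [])) (L 53 6)))))) (A23 (B01 (K
  [(21,15,4),(53,6,1),(53,18,3)] []) (B12 (A12 (A01 (L 21 15) (A13 (B01 (B02 (A12 (A01 (K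
  [(21,15,32),(53,18,14),(53,6,17)] []) (A13 (K [(53,18,17),(21,15,7),(53,6,1)] []) (B01 (K
  [(21,15,4),(0,9,3),(53,6,1)] []) (B12 (A23 (A02 (loc 1) (K [(21,15,10),(53,18,11),(21,5,3)] []))
  (loc 1)) (K [(21,15,4),(53,18,3),(53,6,2)] []))))) (L 21 15)) (A12 (B12 (A01 (K
  [(21,15,12),(53,6,8),(53,18,5)] []) (A13 (K [(53,6,12),(53,18,29),(21,15,23)] []) (B01 (K
  [(53,6,3),(21,15,3),(53,18,2)] []) (A23 (B12 (A02 (loc 1) (A12 (loc 1) (K [(21,15,6),(53,18,2)]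
  []))) (K [(53,6,3),(21,15,3),(53,18,2)] [])) (B12 (loc 1) (K [(53,6,7),(21,15,1)] [])))))) (K
  [(53,6,3),(21,15,3),(53,18,2)] [])) (L 21 15))) (B12 (A12 (A01 (K [(53,6,8),(21,15,12),(53,18,5)]
  []) (A13 (B01 (B02 (A12 (K [(53,6,4),(53,18,4)] []) (A02 (A01 (loc 1) (B01 (B02 (A13 (A12 (K
  [(53,18,5),(53,6,3)] []) (loc 1)) (loc 1)) (L 53 6)) (L 53 6))) (A23 (B01 (B02 (A12 (A01 (A02
  (loc 1) (K [(53,6,190),(21,5,189),(53,18,311),(21,15,310)] [])) (K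
  [(53,18,31),(53,6,20),(21,5,12)] [])) (K [(21,15,312),(53,6,189),(21,5,190),(53,18,310)] [])) (L
  53 6)) (L 53 6)) (B01 (B02 (A13 (A01 (loc 1) (K [(53,18,3),(53,6,2),(21,5,3)] [])) (loc 1)) (L 53
  6)) (L 53 6))))) (L 53 6)) (L 53 6)) (B01 (B02 (A23 (A02 (loc 1) (A12 (loc 1) (K
  [(21,5,4),(21,15,4)] []))) (loc 1)) (L 53 6)) (L 53 6)))) (K [(21,15,5),(21,5,3)] [])) (A12 (B02
  (A01 (K [(53,6,8),(21,15,12),(53,18,5)] []) (A13 (B01 (A12 (K [(53,6,4),(53,18,4)] []) (B02 (A02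
  (K [(0,1,16),(21,15,21),(53,18,28)] []) (A23 (B01 (A12 (B02 (A01 (K
  [(53,6,190),(21,15,311),(53,18,311),(21,5,188)] []) (K
  [(53,18,311),(53,6,190),(21,15,310),(21,5,189)] [])) (K [(53,6,3),(21,15,3),(53,18,2)] [])) (K
  [(21,15,312),(53,6,189),(21,5,189),(53,18,310)] [])) (L 53 6)) (B01 (K
  [(53,6,190),(53,18,312),(21,5,187),(21,15,310)] []) (L 53 6)))) (L 53 6))) (L 53 6)) (B01 (A23
  (B02 (A02 (loc 1) (A12 (loc 1) (K [(21,15,5),(21,5,3)] []))) (L 53 6)) (K [(0,1,4),(21,5,4)] []))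
  (L 53 6)))) (L 53 6)) (L 21 15)))) (K [(21,15,5),(21,5,3)] []))) (L 21 15)) (K
  [(21,15,4),(53,6,2),(53,18,3)] []))) (B01 (K [(21,15,317),(53,18,315),(53,6,186),(21,5,183)] [])
  (B12 (A13 (A01 (A03 (L 21 15) (B01 (B02 (A23 (L 21 15) (A13 (K [(21,15,5),(21,5,3)] []) (A03 (K
  [(21,15,5),(21,5,3)] []) (B01 (K [(21,15,311),(53,18,313),(21,5,187),(53,6,188)] []) (B12 (K
  [(0,1,188),(21,5,190),(21,15,311),(53,18,311)] []) (K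
  [(0,1,189),(21,5,187),(21,15,311),(53,18,312)] [])))))) (L 53 6)) (L 53 6))) (A12 (B01 (B02 (A13
  (A01 (A03 (B01 (L 21 15) (B12 (loc 1) (L 21 15))) (B01 (K [(53,18,3),(21,15,3),(53,6,1)] []) (B12
  (loc 1) (K [(53,6,14),(21,15,26),(53,18,25)] [])))) (A12 (K [(53,18,5),(53,6,3)] []) (B01 (K
  [(53,18,3),(21,15,3),(53,6,1)] []) (B12 (loc 1) (K [(53,18,25),(21,15,26),(53,6,14)] []))))) (A03
  (A01 (B01 (L 21 15) (B12 (A02 (A03 (loc 1) (A23 (loc 1) (B01 (B02 (K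
  [(21,15,312),(53,6,188),(21,5,189),(53,18,311)] []) (A13 (loc 1) (K [(53,6,5),(21,15,1),(21,5,2)]
  []))) (B12 (A13 (loc 1) (K [(21,5,6),(21,15,1)] [])) (A13 (loc 1) (K
  [(53,6,2),(21,15,1),(21,5,5)] [])))))) (A23 (loc 1) (A03 (loc 1) (B01 (B02 (K
  [(21,15,312),(21,5,189),(53,18,312),(53,6,188)] []) (A13 (loc 1) (K [(53,6,4),(21,15,2),(21,5,3)]
  []))) (B12 (A13 (loc 1) (L 21 5)) (A13 (loc 1) (K [(53,6,7),(21,5,17)] []))))))) (L 21 15))) (B01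
  (K [(53,18,10),(21,15,11),(53,6,3)] []) (B12 (A12 (A13 (loc 1) (A23 (loc 1) (B01 (B02 (K
  [(0,9,314),(21,5,188),(21,15,308),(53,6,190)] []) (K [(53,6,4),(53,18,4),(21,5,1)] [])) (K
  [(53,6,3),(21,5,1),(53,18,4)] [])))) (A23 (loc 1) (A13 (loc 1) (B01 (B02 (A03 (loc 1) (K
  [(21,15,310),(53,18,312),(21,5,189),(53,6,189)] [])) (A03 (loc 1) (K
  [(0,1,38),(21,15,62),(21,5,38),(53,18,62)] []))) (B12 (A03 (loc 1) (L 21 5)) (A03 (loc 1) (K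
  [(53,6,7),(21,5,17)] []))))))) (K [(53,6,14),(21,15,26),(53,18,25)] [])))) (A23 (B01 (K
  [(53,18,11),(21,15,9),(53,6,4)] []) (B12 (A12 (A01 (K
  [(53,6,189),(21,5,189),(53,18,312),(21,15,310)] []) (K [(53,18,4),(16,2,2),(53,6,3)] [])) (K
  [(21,5,190),(53,6,189),(21,15,310),(53,18,311)] [])) (A12 (K
  [(53,6,38),(53,18,63),(21,15,62),(21,5,37)] []) (B02 (A02 (K
  [(21,15,312),(53,6,189),(53,18,313),(21,5,186)] []) (K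
  [(21,15,312),(21,5,187),(53,18,312),(53,6,190)] [])) (K [(0,1,3),(21,15,3),(53,18,2)] [])))))
  (B01 (K [(53,18,4),(53,6,2),(21,15,2)] []) (B12 (A13 (A01 (K
  [(53,6,189),(53,18,312),(21,5,189),(21,15,310)] []) (K [(53,18,3),(21,5,3),(53,6,2)] [])) (K
  [(53,6,189),(21,5,189),(53,18,312),(21,15,310)] [])) (K
  [(53,6,38),(53,18,63),(21,5,37),(21,15,62)] [])))))) (K [(53,6,5),(21,5,2),(53,18,1)] [])) (K
  [(53,6,4),(21,5,3),(53,18,1)] [])) (B01 (B02 (A23 (L 21 15) (A03 (K [(21,15,5),(21,5,3)] []) (A13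
  (K [(21,15,312),(21,5,190),(53,6,188),(53,18,310)] []) (B01 (K
  [(53,18,314),(21,15,311),(21,5,186),(53,6,188)] []) (B12 (K
  [(21,5,190),(53,6,188),(53,18,311),(21,15,311)] []) (K
  [(53,6,189),(21,5,187),(21,15,311),(53,18,312)] [])))))) (K [(53,6,3),(16,12,2),(21,5,3)] [])) (K
  [(53,6,2),(21,5,4),(21,15,2)] [])))) (A03 (A01 (L 21 15) (B01 (B02 (A12 (A13 (A01 (K
  [(21,15,5),(21,5,3)] []) (K [(53,6,189),(21,5,190),(21,15,310),(53,18,312)] [])) (K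
  [(21,15,5),(21,5,3)] [])) (L 21 15)) (L 53 6)) (L 53 6))) (A23 (B01 (B02 (K
  [(21,15,309),(21,5,193),(53,6,188),(53,18,310)] []) (L 53 6)) (L 53 6)) (K
  [(53,6,188),(21,5,192),(21,15,309),(53,18,311)] [])))) (A13 (K [(53,6,42),(21,15,82),(53,18,76)]
  []) (B02 (A03 (K [(21,15,82),(53,6,42),(53,18,76)] []) (A23 (B01 (K
  [(21,15,317),(53,6,190),(21,5,177),(53,18,316)] []) (L 53 6)) (K
  [(53,6,38),(21,15,63),(21,5,37),(53,18,63)] []))) (L 53 6))))))) (A23 (A02 (B01 (K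
  [(21,15,313),(53,18,316),(21,5,183),(53,6,188)] []) (B12 (A01 (A03 (A02 (K
  [(53,6,2),(21,5,5),(53,18,2)] []) (B01 (B02 (K [(21,5,193),(21,15,308),(53,6,188),(53,18,310)]
  []) (L 53 6)) (L 53 6))) (A13 (B01 (B02 (K [(21,5,193),(21,15,308),(53,6,188),(53,18,310)] []) (K
  [(53,6,4),(21,5,4)] [])) (K [(53,6,2),(21,5,6)] [])) (K [(21,5,6),(21,15,1)] []))) (A13 (A12 (B01
  (B02 (A01 (A03 (A02 (K [(53,18,5),(53,6,3)] []) (B01 (K [(53,18,30),(21,15,22),(53,6,12)] [])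
  (B12 (A12 (K [(0,9,4),(21,5,2),(53,6,3)] []) (K [(21,5,190),(0,9,311),(53,6,189),(21,15,310)]
  [])) (A12 (K [(53,18,5),(53,6,3)] []) (K [(53,6,190),(21,15,311),(53,18,313),(21,5,187)] [])))))
  (A13 (B01 (K [(53,18,30),(21,15,22),(53,6,12)] []) (B12 (A12 (K [(53,18,5),(53,6,3)] []) (K
  [(21,5,190),(0,9,311),(53,6,189),(21,15,310)] [])) (A12 (K [(53,18,5),(53,6,3)] []) (K
  [(53,18,313),(21,5,186),(21,15,312),(53,6,190)] [])))) (K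
  [(53,18,310),(21,5,190),(21,15,310),(53,6,189)] []))) (A13 (A12 (L 53 18) (B01 (K
  [(53,18,3),(21,15,3),(53,6,1)] []) (B12 (A02 (K [(53,18,5),(53,6,3)] []) (A23 (loc 1) (K
  [(53,18,63),(21,5,38),(21,15,62),(53,6,38)] []))) (K [(53,18,25),(21,15,26),(53,6,14)] []))))
  (A03 (B01 (K [(53,18,11),(21,15,10),(53,6,4)] []) (B12 (A02 (K [(53,18,5),(53,6,3)] []) (K
  [(53,18,311),(21,5,190),(21,15,310),(53,6,189)] [])) (K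
  [(53,18,315),(53,6,190),(21,5,182),(21,15,313)] []))) (B01 (K [(53,18,10),(21,15,11),(53,6,3)]
  []) (K [(53,18,311),(21,5,189),(21,15,310),(53,6,190)] []))))) (A01 (K
  [(53,6,4),(21,5,3),(21,15,1)] []) (B12 (A13 (K [(53,6,123),(53,18,35),(21,5,43)] []) (K
  [(53,6,207),(21,5,190),(0,9,305),(21,15,297)] [])) (K [(53,6,3),(21,15,4),(53,18,2)] [])))) (K
  [(53,6,3),(21,5,4),(53,18,2)] [])) (B01 (B02 (A02 (K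
  [(21,5,190),(21,15,311),(53,18,311),(53,6,188)] []) (K [(21,15,5),(21,5,3)] [])) (K
  [(53,6,3),(21,15,3),(21,5,3)] [])) (K [(53,6,2),(21,5,5),(21,15,2)] []))) (A03 (B01 (B02 (K
  [(21,5,193),(21,15,308),(53,18,310),(53,6,188)] []) (K [(53,6,3),(21,5,3),(21,15,3)] [])) (K
  [(53,6,2),(21,5,6)] [])) (K [(21,5,3),(21,15,5)] [])))) (A01 (K
  [(53,6,189),(21,15,314),(21,5,184),(53,18,313)] []) (B02 (A13 (K
  [(53,6,42),(21,15,82),(53,18,76)] []) (A03 (K [(21,15,318),(53,6,191),(21,5,174),(53,18,317)] [])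
  (L 21 15))) (L 53 6))))) (B01 (K [(21,15,5),(53,18,3)] []) (B12 (A12 (A13 (A01 (K
  [(21,15,5),(21,5,3)] []) (B01 (B02 (A12 (A13 (A01 (B01 (K [(53,18,3),(21,15,4),(53,6,1)] []) (B12
  (A02 (A03 (loc 1) (K [(53,18,320),(21,5,186),(21,15,315),(53,6,179)] [])) (K
  [(53,18,11),(21,15,10),(21,5,3)] [])) (K [(21,15,10),(53,18,9),(53,6,5)] []))) (K
  [(53,18,5),(21,15,3)] [])) (A23 (B01 (K [(53,18,3),(21,15,4),(53,6,1)] []) (B12 (K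
  [(21,15,62),(53,18,62),(21,5,38),(53,6,37)] []) (K [(21,15,10),(53,18,9),(53,6,5)] []))) (B01 (K
  [(53,18,3),(21,15,5)] []) (K [(53,18,311),(21,5,189),(21,15,310),(53,6,190)] [])))) (K
  [(16,12,5),(21,5,3)] [])) (A12 (B12 (A13 (A01 (B01 (K [(53,6,10),(16,12,6),(53,18,8)] []) (A02
  (B12 (A03 (loc 1) (A23 (loc 1) (K [(53,18,313),(53,6,191),(21,5,188),(21,15,308)] []))) (K
  [(53,6,10),(16,12,6),(53,18,8)] [])) (B12 (A23 (A12 (loc 1) (K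
  [(21,15,313),(53,6,189),(21,5,187),(53,18,312)] [])) (A03 (loc 1) (K
  [(53,18,314),(53,6,192),(21,5,187),(21,15,307)] []))) (K [(53,6,7),(21,15,8),(53,18,9)] []))))
  (B01 (K [(53,6,2),(53,18,3),(21,15,3)] []) (A12 (K [(53,18,5),(53,6,3)] []) (B12 (A23 (K
  [(53,18,320),(21,15,313),(53,6,189),(21,5,178)] []) (K [(53,18,5),(53,6,3)] [])) (K
  [(53,6,3),(21,15,2),(53,18,3)] []))))) (A23 (B01 (K [(16,12,3),(53,6,2),(53,18,3)] []) (A02 (K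
  [(53,6,190),(21,15,310),(21,5,189),(53,18,311)] []) (B12 (A12 (K
  [(21,5,189),(21,15,310),(0,9,311),(53,6,190)] []) (K
  [(21,15,311),(21,5,190),(53,6,189),(53,18,310)] [])) (K
  [(53,6,194),(21,15,310),(21,5,183),(53,18,312)] [])))) (K
  [(53,6,193),(21,15,307),(21,5,190),(53,18,310)] []))) (K [(0,1,2),(16,12,4),(53,18,2)] [])) (K
  [(21,15,5),(21,5,3)] []))) (B12 (A12 (A13 (A01 (K [(53,6,1),(21,5,18),(21,15,4)] []) (B01 (B02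
  (A12 (K [(53,6,3),(53,18,5)] []) (A23 (K [(53,6,190),(21,5,189),(0,9,311),(21,15,310)] []) (K
  [(53,6,2),(21,5,3),(53,18,3)] []))) (L 53 6)) (L 53 6))) (K [(53,6,1),(21,5,16),(21,15,7)] []))
  (K [(21,5,3),(21,15,5)] [])) (A12 (B02 (A13 (A01 (B01 (A02 (K [(53,6,2),(21,5,5)] []) (B02 (A23
  (A12 (loc 1) (K [(53,6,188),(21,15,313),(21,5,191),(53,18,308)] [])) (K
  [(53,6,8),(21,5,13),(53,18,3)] [])) (L 53 6))) (L 53 6)) (B01 (A12 (K [(53,6,3),(53,18,5)] [])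
  (B02 (A23 (A02 (K [(53,6,190),(53,18,311),(16,2,189),(21,15,310)] []) (K
  [(53,6,190),(21,15,310),(21,5,188),(53,18,311)] [])) (K [(53,6,3),(53,18,5)] [])) (L 53 6))) (L
  53 6))) (K [(53,6,38),(21,5,114),(21,15,49)] [])) (L 53 6)) (K [(21,15,5),(21,5,3)] []))))) (K
  [(21,15,5),(21,5,3)] [])) (K [(21,15,5),(21,5,3)] [])) (K [(21,15,4),(53,6,1),(53,18,2)] []))))
  (A13 (B01 (K [(53,18,64),(21,15,62),(21,5,36),(53,6,38)] []) (B12 (A01 (K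
  [(21,5,4),(53,6,2),(53,18,2)] []) (A12 (K [(53,6,194),(21,5,187),(53,18,317),(21,15,302)] []) (K
  [(21,5,189),(53,6,192),(53,18,314),(21,15,305)] []))) (A01 (K
  [(53,6,193),(21,15,302),(21,5,189),(53,18,315)] []) (K
  [(53,6,192),(21,15,310),(53,18,315),(21,5,182)] [])))) (K
  [(21,5,38),(53,18,63),(53,6,38),(21,15,61)] [])))) (K [(21,15,64),(53,6,39),(53,18,65),(21,5,33)]
  []))) (B01 (K [(0,9,4),(21,15,3),(53,6,1)] []) (B12 (A13 (A12 (A01 (B01 (K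
  [(53,18,4),(21,15,3),(53,6,2)] []) (B12 (A03 (A02 (K [(53,18,5),(53,6,3)] []) (K
  [(53,18,314),(21,5,187),(21,15,307),(53,6,193)] [])) (K
  [(53,18,63),(21,5,37),(53,6,38),(21,15,61)] [])) (K [(53,18,10),(53,6,6),(21,15,8)] []))) (K
  [(53,18,66),(21,15,63),(21,5,36),(53,6,34)] [])) (A23 (B01 (K [(21,15,4),(53,18,3),(53,6,1)] [])
  (B12 (A02 (A01 (A03 (B01 (K [(21,15,322),(53,18,323),(53,6,185),(21,5,169)] []) (B12 (A02 (A01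
  (A03 (B01 (B02 (A02 (K [(53,18,5),(53,6,3)] []) (A12 (K [(53,18,5),(53,6,3)] []) (A23 (K
  [(53,6,190),(21,5,189),(53,18,311),(21,15,310)] []) (K [(53,6,3),(53,18,5)] [])))) (L 53 6)) (L
  53 6)) (B01 (B02 (K [(21,5,189),(53,18,311),(53,6,190),(21,15,310)] []) (L 53 6)) (L 53 6))) (A12
  (K [(53,6,191),(21,5,188),(53,18,312),(21,15,309)] []) (B01 (B02 (K
  [(21,5,189),(53,18,311),(53,6,190),(21,15,310)] []) (L 53 6)) (L 53 6)))) (K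
  [(53,6,189),(21,5,191),(21,15,313),(53,18,307)] [])) (A02 (B02 (A01 (A03 (B01 (A02 (K
  [(53,18,5),(53,6,3)] []) (B02 (A12 (K [(53,18,5),(53,6,3)] []) (A23 (K
  [(53,6,190),(21,15,312),(53,18,312),(21,5,186)] []) (K [(53,18,5),(53,6,3)] []))) (K
  [(53,6,6),(53,18,2)] []))) (L 53 6)) (B01 (A23 (B02 (A12 (K
  [(53,18,312),(53,6,191),(21,5,188),(21,15,309)] []) (K
  [(53,6,190),(53,18,311),(21,15,310),(21,5,189)] [])) (K [(53,6,9),(21,15,8),(53,18,7)] [])) (K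
  [(53,18,312),(53,6,191),(21,5,188),(21,15,309)] [])) (L 53 6))) (A12 (K
  [(53,6,192),(53,18,313),(21,15,310),(21,5,186)] []) (B01 (K
  [(53,6,190),(21,15,311),(53,18,312),(21,5,186)] []) (L 53 6)))) (L 53 6)) (K
  [(53,6,38),(21,15,63),(21,5,38),(53,18,62)] [])))) (K
  [(21,15,312),(21,5,190),(53,6,190),(53,18,308)] [])) (K
  [(21,15,312),(21,5,190),(53,18,308),(53,6,190)] [])) (L 21 15)) (K [(21,15,4),(53,6,1),(53,18,3)]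
  []))) (B01 (K [(53,18,4),(21,15,3),(53,6,1)] []) (B12 (A03 (A01 (A02 (K
  [(53,18,316),(53,6,194),(21,5,186),(21,15,303)] []) (K
  [(53,18,313),(21,5,188),(21,15,306),(53,6,192)] [])) (K
  [(53,18,313),(21,5,188),(21,15,307),(53,6,192)] [])) (K
  [(53,18,63),(21,5,38),(21,15,61),(53,6,38)] [])) (K [(53,18,64),(21,15,62),(53,6,39),(21,5,36)]
  []))))) (A23 (A12 (B01 (K [(53,18,10),(21,15,11),(53,6,3)] []) (B12 (A01 (A03 (A02 (K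
  [(53,18,317),(53,6,194),(21,5,187),(21,15,302)] []) (K
  [(21,5,189),(53,18,313),(53,6,192),(21,15,307)] [])) (K
  [(21,5,190),(16,12,306),(53,6,192),(53,18,313)] [])) (K
  [(21,5,38),(53,18,63),(53,6,38),(21,15,61)] [])) (K
  [(53,6,193),(21,15,312),(53,18,317),(21,5,179)] []))) (B01 (K [(21,15,5),(53,18,3)] []) (B12 (A02
  (A03 (A01 (B01 (B02 (K [(21,15,3),(53,18,3),(21,5,1)] []) (A02 (B12 (A03 (A01 (B01 (K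
  [(53,6,2),(53,18,3),(21,15,3)] []) (A02 (K [(53,18,5),(53,6,3)] []) (B12 (A23 (K
  [(53,18,313),(21,15,311),(53,6,189),(21,5,187)] []) (K [(53,18,5),(53,6,3)] [])) (K
  [(53,6,3),(53,18,3),(21,15,2)] [])))) (B01 (K [(21,15,10),(53,6,5),(53,18,9)] []) (A12 (K
  [(53,18,312),(21,5,188),(53,6,191),(21,15,309)] []) (B12 (A23 (K
  [(53,18,313),(21,15,311),(21,5,187),(53,6,189)] []) (K
  [(53,18,63),(21,5,38),(53,6,38),(21,15,62)] [])) (K [(53,6,7),(21,15,8),(53,18,8)] []))))) (K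
  [(21,15,310),(53,6,190),(21,5,189),(53,18,311)] [])) (K [(53,6,2),(21,15,4),(53,18,2)] [])) (K
  [(21,15,5),(21,5,3)] []))) (B12 (A02 (A03 (A01 (B01 (B02 (A02 (K [(53,18,5),(53,6,3)] []) (A23
  (A12 (K [(53,6,3),(21,5,2),(53,18,4)] []) (K [(53,6,190),(21,5,189),(53,18,311),(21,15,310)] []))
  (K [(53,6,2),(21,5,3),(53,18,3)] []))) (L 53 6)) (L 53 6)) (K [(0,1,4),(21,5,52),(21,15,8)] []))
  (K [(53,6,1),(21,5,16),(21,15,7)] [])) (K [(21,5,4),(21,15,4)] [])) (A02 (B02 (A03 (A01 (B01 (A02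
  (K [(53,6,3),(53,18,5)] []) (B02 (A23 (A12 (K [(53,6,3),(53,18,5)] []) (K
  [(53,6,190),(21,15,310),(53,18,311),(21,5,188)] [])) (K [(53,18,5),(53,6,3)] [])) (L 53 6))) (L
  53 6)) (B01 (K [(53,6,190),(21,5,189),(53,18,311),(21,15,310)] []) (L 53 6))) (K
  [(53,6,38),(21,5,114),(21,15,49)] [])) (L 53 6)) (K [(53,6,1),(21,15,3),(21,5,4)] [])))) (K
  [(21,15,5),(21,5,3)] [])) (K [(21,15,5),(21,5,3)] [])) (K [(21,15,5),(21,5,3)] [])) (K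
  [(21,15,4),(53,6,1),(53,18,2)] [])))) (A03 (B01 (K [(53,18,21),(21,15,20),(21,5,11),(53,6,12)]
  []) (B12 (A01 (A02 (K [(53,18,317),(21,5,187),(53,6,194),(21,15,302)] []) (K
  [(21,5,190),(53,6,192),(53,18,313),(21,15,306)] [])) (K [(21,5,5),(53,18,2),(53,6,2)] [])) (K
  [(53,6,193),(53,18,317),(21,5,179),(21,15,311)] []))) (K
  [(53,18,20),(21,5,12),(53,6,12),(21,15,19)] [])))) (K [(21,15,20),(53,18,20),(53,6,12),(21,5,11)]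
  [])))) (A23 (K [(21,15,11),(53,18,9),(21,5,4)] []) (B01 (K [(21,15,3),(53,18,4),(53,6,1)] [])
  (B12 (A13 (A01 (A03 (L 21 15) (K [(21,15,307),(53,18,311),(21,5,190),(53,6,193)] [])) (K
  [(53,18,317),(21,15,309),(21,5,187),(53,6,187)] [])) (A03 (A01 (K [(21,15,5),(21,5,3)] []) (K
  [(21,15,61),(21,5,38),(53,18,62),(53,6,38)] [])) (K
  [(21,5,193),(53,18,312),(21,15,301),(53,6,193)] []))) (K
  [(21,15,20),(53,18,20),(53,6,12),(21,5,11)] []))))) (K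
  [(53,18,321),(21,15,308),(21,5,186),(53,6,185)] [])) (A03 (B12 (A02 (A01 (L 53 6) (B01 (K
  [(53,6,3),(21,15,2),(53,18,3)] []) (A13 (B12 (A12 (K
  [(53,6,197),(53,18,313),(21,15,304),(21,5,187)] []) (K [(53,6,33),(21,15,11),(21,5,20)] [])) (K
  [(53,6,3),(21,15,2),(53,18,3)] [])) (K [(53,6,6),(21,5,2)] [])))) (A23 (B01 (K
  [(21,15,4),(53,6,2),(53,18,3)] []) (A12 (B12 (A01 (L 21 15) (K
  [(21,15,306),(53,6,194),(21,5,187),(53,18,314)] [])) (K [(53,6,7),(21,15,9),(53,18,8)] [])) (L 21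
  15))) (B01 (K [(53,6,3),(21,15,3),(53,18,2)] []) (A13 (B12 (A01 (K
  [(16,12,11),(53,6,33),(21,5,20)] []) (K [(53,6,194),(21,15,306),(21,5,187),(53,18,314)] [])) (K
  [(53,6,3),(21,15,3),(53,18,2)] [])) (K [(53,6,5),(16,12,1),(21,5,2)] []))))) (K
  [(53,6,3),(21,15,3),(53,18,2)] [])) (B12 (A23 (A02 (K
  [(53,6,195),(21,15,304),(21,5,185),(53,18,316)] []) (K
  [(21,15,309),(53,6,195),(21,5,181),(53,18,315)] [])) (K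
  [(53,6,13),(16,2,11),(53,18,21),(21,15,18)] [])) (K [(53,6,8),(21,15,7),(53,18,9)] [])))) (B12 (K
  [(53,6,3),(21,5,19),(53,18,2)] []) (A03 (B02 (A02 (K [(53,6,3),(21,5,4),(53,18,1)] []) (A23 (B01
  (A12 (K [(53,6,42),(16,12,54),(21,5,47),(53,18,57)] []) (L 21 15)) (L 53 6)) (K
  [(53,6,3),(21,5,4),(53,18,1)] []))) (L 53 6)) (B02 (A23 (A02 (K [(53,6,3),(21,5,4),(53,18,2)] [])
  (B01 (A12 (K [(53,6,40),(16,12,60),(21,5,38),(53,18,62)] []) (K [(21,15,5),(21,5,3)] [])) (L 53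
  6))) (K [(53,6,3),(21,5,3),(53,18,2)] [])) (L 53 6))))) (B01 (B02 (K
  [(53,18,11),(21,15,9),(21,5,4)] []) (A13 (B12 (A12 (K [(53,18,11),(53,6,5),(21,15,8)] []) (A23
  (B01 (K [(21,15,4),(53,6,2),(53,18,3)] []) (A02 (K [(21,15,65),(53,6,38),(53,18,67),(21,5,31)]
  []) (K [(21,15,5),(21,5,2),(53,18,1)] []))) (K [(53,18,8),(53,6,5),(21,15,7),(21,5,4)] []))) (K
  [(53,6,3),(21,15,3),(53,18,3)] [])) (B12 (A23 (A12 (K [(0,1,13),(53,18,21),(21,15,19),(21,5,11)]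
  []) (K [(21,15,311),(0,1,194),(21,5,178),(53,18,317)] [])) (K
  [(0,9,21),(53,6,13),(21,5,11),(21,15,19)] [])) (K [(53,6,8),(21,15,7),(53,18,9)] [])))) (B12 (K
  [(53,6,3),(21,5,19),(53,18,2)] []) (A13 (B02 (A12 (K [(53,6,14),(53,18,21),(21,5,12),(21,15,18)]
  []) (A23 (B01 (A02 (K [(53,6,40),(21,15,60),(21,5,38),(53,18,62)] []) (K [(21,15,5),(21,5,3)]
  [])) (L 53 6)) (K [(53,6,13),(21,5,12),(53,18,20),(21,15,18)] []))) (L 53 6)) (B02 (A23 (A12 (K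
  [(53,6,3),(21,5,4),(53,18,1)] []) (B01 (A02 (K [(53,6,40),(21,5,38),(21,15,60),(53,18,62)] []) (K
  [(21,15,5),(21,5,3)] [])) (L 53 6))) (K [(53,6,3),(21,5,3),(53,18,2)] [])) (L 53 6)))))) (A23 (K
  [(21,15,6),(53,6,2)] []) (B01 (B02 (A03 (A01 (A02 (B01 (K [(21,15,10),(0,9,11),(53,6,4)] []) (B12
  (A03 (K [(21,15,321),(0,1,180),(21,5,198),(53,18,301)] []) (K
  [(21,15,63),(21,5,39),(53,6,37),(53,18,61)] [])) (K [(21,15,20),(53,6,12),(21,5,11),(53,18,20)]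
  []))) (K [(21,15,63),(21,5,41),(53,6,36),(53,18,59)] [])) (K
  [(16,12,63),(21,5,41),(0,9,59),(53,6,36)] [])) (K [(21,15,20),(21,5,13),(53,18,20),(53,6,12)]
  [])) (K [(0,1,15),(21,15,19),(21,5,15),(53,18,16)] [])) (K [(53,6,2),(21,5,4),(21,15,2)] []))))
  (A23 (A12 (B01 (B02 (A01 (A03 (A02 (B01 (K [(21,15,4),(0,9,3),(53,6,1)] []) (B12 (A01 (A03 (A02
  (B01 (K [(21,15,63),(53,6,37),(21,5,38),(53,18,62)] []) (K [(53,6,4),(21,5,4)] [])) (K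
  [(21,15,63),(53,6,37),(21,5,39),(53,18,61)] [])) (K [(21,15,63),(53,6,37),(21,5,39),(53,18,61)]
  [])) (K [(21,15,63),(21,5,39),(53,6,37),(53,18,61)] [])) (K
  [(21,15,20),(53,6,12),(21,5,11),(53,18,20)] []))) (K [(21,15,62),(21,5,40),(53,6,37),(53,18,60)]
  [])) (K [(21,15,20),(21,5,13),(53,6,12),(53,18,20)] [])) (K
  [(21,15,19),(21,5,13),(53,18,20),(53,6,12)] [])) (K [(53,6,5),(21,5,2)] [])) (K
  [(53,6,4),(21,5,4)] [])) (K [(21,15,6),(53,6,2)] [])) (A03 (B01 (B02 (A01 (A02 (A03 (B01 (K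
  [(21,15,43),(53,18,20)] []) (B12 (A01 (A02 (A03 (B01 (K
  [(21,15,63),(53,6,37),(21,5,38),(53,18,62)] []) (K [(53,6,4),(21,5,4)] [])) (K
  [(53,6,37),(21,5,39),(21,15,63),(53,18,62)] [])) (K [(53,6,37),(21,15,63),(21,5,39),(53,18,62)]
  [])) (K [(21,5,39),(53,6,37),(21,15,62),(53,18,62)] [])) (K
  [(53,6,12),(21,15,20),(21,5,11),(53,18,20)] []))) (K [(21,5,13),(21,15,20),(53,6,12),(53,18,20)]
  [])) (K [(21,15,20),(21,5,13),(53,6,12),(53,18,20)] [])) (K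
  [(21,5,39),(21,15,60),(53,18,63),(53,6,38)] [])) (K [(53,6,5),(21,5,2),(53,18,1)] [])) (K
  [(53,6,4),(21,5,4)] [])) (K [(53,6,1),(21,5,6),(53,18,1)] [])))) (A13 (K
  [(21,15,22),(53,6,12),(53,18,20),(21,5,9)] []) (K [(53,6,37),(21,15,68),(21,5,35),(53,18,61)]
  []))))) (A23 (B01 (K [(21,15,5),(53,18,3)] []) (B12 (A12 (A01 (L 21 15) (A13 (B01 (K
  [(21,15,12),(53,18,10),(53,6,3)] []) (B12 (K [(21,5,19),(53,6,3),(53,18,2)] []) (A12 (B02 (A01 (L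
  21 15) (K [(21,15,19),(53,6,13),(21,5,12),(53,18,20)] [])) (K [(53,6,3),(21,15,2),(53,18,2)] []))
  (L 21 15)))) (K [(21,15,5),(21,5,3)] []))) (L 21 15)) (K [(21,15,10),(53,6,5),(53,18,9)] [])))
  (B01 (K [(21,15,9),(53,18,8),(21,5,3),(53,6,3)] []) (B12 (A13 (A01 (K
  [(21,15,20),(53,6,11),(21,5,15),(53,18,17)] []) (A12 (B01 (B02 (K [(53,18,11),(21,15,9),(21,5,4)]
  []) (A13 (B12 (K [(21,15,62),(53,18,63),(21,5,36),(53,6,39)] []) (K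
  [(53,6,3),(21,15,3),(53,18,3)] [])) (K [(53,6,197),(21,15,302),(21,5,198),(53,18,303)] []))) (B12
  (K [(21,5,19),(53,6,3),(53,18,2)] []) (A13 (B02 (A01 (K [(53,6,5),(21,15,7),(21,5,5),(53,18,7)]
  []) (K [(53,6,13),(21,5,12),(53,18,20),(21,15,19)] [])) (L 53 6)) (K
  [(53,6,2),(21,5,5),(21,15,1)] [])))) (K [(21,15,20),(21,5,14),(53,6,11),(53,18,18)] []))) (K
  [(21,5,50),(21,15,10),(53,6,4)] [])) (A13 (K [(21,15,22),(53,6,12),(21,5,9),(53,18,20)] []) (K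
  [(21,15,21),(53,6,11),(21,5,14),(53,18,18)] []))))))) (K [(21,15,9),(53,6,5),(53,18,10)] []))) (K
  [(21,15,5),(21,5,3)] []))) (A13 (A12 (K [(53,18,12),(21,5,2),(21,15,2),(53,6,9)] []) (B01 (K
  [(53,18,4),(21,15,3),(53,6,1)] []) (B12 (A02 (K [(53,18,5),(53,6,3)] []) (A23 (A12 (K
  [(53,18,71),(21,15,48),(21,5,35),(53,6,47)] []) (B01 (K [(21,15,5),(53,18,3)] []) (B12 (A02 (A03
  (A01 (B01 (K [(21,15,8),(53,18,9),(21,5,3),(53,6,5)] []) (K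
  [(21,5,207),(21,15,274),(53,6,218),(53,18,302)] [])) (K [(21,15,5),(21,5,3)] [])) (K
  [(21,15,4),(21,5,3)] [])) (L 21 15)) (K [(21,15,3),(53,6,2),(53,18,3)] [])))) (K
  [(53,18,73),(21,5,34),(21,15,45),(53,6,48)] []))) (K [(53,18,10),(21,15,9),(53,6,5)] [])))) (A03
  (B01 (K [(53,18,4),(21,15,3),(53,6,1)] []) (B12 (A02 (K [(53,18,11),(21,5,3),(53,6,7),(21,15,4)]
  []) (A12 (K [(21,5,177),(53,18,340),(21,15,259),(53,6,224)] []) (A23 (B01 (K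
  [(21,15,5),(53,18,3)] []) (B12 (A02 (A01 (A03 (B01 (K [(21,15,10),(53,18,9),(21,5,1),(53,6,3)]
  []) (K [(21,5,207),(21,15,274),(53,6,218),(53,18,302)] [])) (K [(21,15,4),(21,5,3)] [])) (K
  [(21,15,4),(21,5,3)] [])) (L 21 15)) (K [(21,15,3),(53,6,2),(53,18,3)] []))) (B01 (K
  [(21,15,8),(53,18,9),(21,5,3),(53,6,4)] []) (B12 (A03 (A01 (A02 (K
  [(21,5,12),(53,18,21),(53,6,14),(21,15,17)] []) (K [(21,5,14),(21,15,19),(53,6,12),(53,18,19)]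
  [])) (K [(21,5,6),(53,6,1),(53,18,1)] [])) (K [(21,5,6),(53,6,1),(53,18,1)] [])) (K
  [(21,15,20),(53,6,13),(21,5,10),(53,18,21)] [])))))) (K [(21,15,9),(53,18,10),(53,6,5)] []))) (K
  [(21,15,13),(21,5,11)] [])))) (A01 (K [(53,6,6),(21,15,1),(21,5,2)] []) (B12 (A13 (A12 (K
  [(0,1,4),(53,18,4)] []) (B01 (L 53 6) (A02 (K [(53,6,4),(0,9,3),(21,5,1)] []) (K
  [(53,6,23),(21,15,14),(21,5,15),(53,18,13)] [])))) (K [(53,6,6),(21,15,1),(21,5,2)] [])) (K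
  [(53,6,3),(21,15,2),(53,18,3)] [])))) (K [(53,6,11),(21,5,12),(53,18,1)] [])) (B01 (B02 (A02 (A03
  (K [(21,15,6),(53,6,1),(53,18,1)] []) (L 21 15)) (L 21 15)) (K [(53,6,3),(21,15,5)] [])) (K
  [(53,6,3),(21,15,5)] []))) (A03 (B01 (B02 (A02 (A01 (K [(21,15,6),(53,6,1),(53,18,1)] []) (L 21
  15)) (L 21 15)) (K [(53,6,4),(21,15,3),(21,5,1)] [])) (K [(53,6,4),(21,15,3),(21,5,1)] [])) (K
  [(54,13,2),(21,15,4),(21,5,2)] [])))))))) (A01 (S 4 (L 21 15) (L 43 15)) (B02 (P 10 (P 4 (A13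
  (A12 (B01 (K [(21,15,8),(54,13,1),(53,18,11),(53,6,4)] []) (K [(53,6,3),(21,15,2),(53,18,3)] []))
  (L 21 15)) (L 21 15)))) (A13 (P 10 (K [(54,13,4),(53,18,3)] [])) (S 1 (L 7 1) (L 11 16)))))))
  (B01 (L 18 18) (B12 (P 10 (M 7 (P 4 (M 1 (A12 (A13 (A01 (K [(21,15,4),(21,5,4)] []) (B01 (B02
  (A12 (A13 (A01 (K [(21,15,10),(0,9,8),(21,5,6)] []) (K [(53,18,4),(21,5,1),(21,15,1),(53,6,2)]
  [])) (K [(21,15,4),(21,5,4)] [])) (L 21 15)) (A12 (B12 (A13 (A01 (K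
  [(16,12,7),(53,6,5),(21,5,6),(53,18,6)] []) (K [(53,6,3),(53,18,3),(21,5,1),(21,15,1)] [])) (K
  [(16,12,2),(53,6,3),(21,5,3)] [])) (K [(53,6,3),(21,15,2),(53,18,3)] [])) (L 21 15))) (K
  [(53,6,10),(21,5,14),(53,18,1)] []))) (K [(54,13,1),(21,15,4),(21,5,3)] [])) (L 54 13)))))) (A12
  (B02 (P 10 (P 4 (A13 (A01 (L 21 15) (K [(21,15,7),(54,13,24),(53,18,33)] [])) (L 21 15)))) (A13
  (P 10 (M 1 (K [(11,16,4),(53,18,3)] []))) (S 1 (L 7 16) (L 11 16)))) (L 18 18))))) (A13 (B01 (B02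
  (P 10 (S 4 (K [(21,15,127),(53,18,73)] []) (L 43 15))) (A01 (B12 (P 10 (M 1 (S 4 (K
  [(0,1,3),(21,15,14),(53,18,7)] []) (L 43 15)))) (A02 (A03 (P 4 (L 21 15)) (S 4 (L 21 15) (L 43
  4))) (S 4 (L 21 15) (L 43 4)))) (B12 (P 10 (S 4 (K [(21,15,36),(53,6,2),(53,18,26)] []) (L 43
  15))) (A12 (A13 (P 10 (K [(54,13,3),(18,12,1),(53,18,3)] [])) (S 4 (L 21 15) (L 43 4))) (S 4 (L
  21 15) (L 43 4)))))) (B12 (M 7 (P 4 (A01 (A02 (S 1 (L 7 1) (K [(0,1,6),(21,15,10),(0,9,8)] []))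
  (A12 (B01 (S 1 (L 7 1) (K [(0,1,9),(21,15,36),(0,9,19)] [])) (S 1 (L 7 1) (L 0 1))) (S 1 (L 7 16)
  (K [(0,1,36),(21,15,28)] [])))) (A12 (A13 (P 10 (M 1 (B01 (B02 (A01 (A02 (A03 (K
  [(53,18,86),(53,6,59),(21,15,55)] []) (B01 (K [(53,18,4),(21,15,3),(53,6,2)] []) (K
  [(53,6,59),(53,18,85),(21,15,56)] []))) (A12 (B01 (K [(53,18,4),(21,15,3),(53,6,2)] []) (B12 (A13
  (A01 (A03 (B01 (B02 (A02 (K [(53,18,69),(21,15,66),(0,1,37),(21,5,28)] []) (K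
  [(53,18,4),(21,15,3),(21,5,1)] [])) (A02 (K [(0,1,12),(16,12,21),(53,18,22),(21,5,9)] []) (K
  [(0,1,38),(53,18,69),(21,15,60),(21,5,33)] []))) (B12 (A02 (K
  [(53,6,43),(21,5,30),(53,18,66),(21,15,61)] []) (K [(53,6,2),(21,5,4),(53,18,2)] [])) (A02 (K
  [(53,6,12),(16,12,21),(53,18,22),(21,5,9)] []) (K [(53,6,39),(53,18,67),(21,15,56),(21,5,37)]
  [])))) (K [(53,18,25),(53,6,15),(21,5,10),(21,15,13)] [])) (K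
  [(53,18,25),(53,6,15),(21,5,10),(21,15,13)] [])) (A03 (A01 (B01 (B02 (A02 (K
  [(53,18,22),(21,15,21),(53,6,12),(21,5,9)] []) (K [(53,18,9),(21,5,4),(21,15,8),(53,6,3)] []))
  (A02 (K [(53,6,15),(21,15,18),(53,18,19),(21,5,12)] []) (K
  [(53,6,12),(53,18,22),(21,15,20),(21,5,11)] []))) (K [(53,6,32),(21,5,31),(21,15,1)] [])) (K
  [(53,6,15),(53,18,25),(21,5,11),(21,15,14)] [])) (K [(53,6,6),(53,18,9),(21,5,4),(21,15,5)] [])))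
  (K [(53,6,2),(53,18,4),(21,15,2)] []))) (B01 (K [(21,15,74),(53,18,91),(21,5,3),(53,6,33)] [])
  (B12 (A23 (K [(21,15,5),(21,5,3)] []) (A03 (A02 (B01 (K
  [(53,6,173),(21,15,321),(21,5,185),(53,18,322)] []) (K [(53,6,2),(21,5,4),(21,15,2)] [])) (K
  [(53,6,5),(21,5,5),(21,15,6),(53,18,8)] [])) (K [(53,6,2),(21,5,1),(53,18,3),(21,15,2)] [])))
  (A23 (L 21 15) (K [(53,6,14),(21,15,20),(53,18,27),(21,5,3)] [])))))) (A12 (K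
  [(53,18,12),(21,5,2),(53,6,8),(21,15,2)] []) (A02 (K [(53,18,10),(53,6,6),(21,5,3),(21,15,4)] [])
  (B01 (K [(21,15,7),(53,18,9),(21,5,4),(53,6,4)] []) (K
  [(21,5,15),(53,6,13),(21,15,16),(53,18,20)] []))))) (A01 (L 53 6) (B12 (A12 (K
  [(53,6,4),(53,18,3),(21,5,1)] []) (L 53 6)) (K [(53,6,6),(53,18,2)] [])))) (K
  [(53,6,3),(21,5,3),(53,18,2)] [])))) (B01 (B02 (P 10 (A03 (A02 (A01 (K
  [(53,6,7),(53,18,10),(21,15,8)] []) (B01 (K [(53,18,4),(53,6,2),(21,15,3)] []) (K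
  [(53,6,7),(53,18,10),(21,15,7)] []))) (A23 (B01 (B02 (K [(21,15,3),(53,18,4),(21,5,1)] []) (A12
  (K [(53,6,3),(21,15,9),(53,18,11)] []) (L 21 15))) (B12 (A12 (A01 (A02 (B01 (K
  [(53,6,11),(21,15,21),(21,5,11),(53,18,21)] []) (L 53 6)) (K
  [(53,6,4),(21,5,5),(21,15,7),(53,18,8)] [])) (K [(53,6,4),(21,5,6),(53,18,8),(21,15,7)] [])) (K
  [(21,15,5),(21,5,3)] [])) (A12 (K [(53,6,39),(21,15,61),(21,5,23),(53,18,77)] []) (L 21 15))))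
  (B01 (K [(53,18,11),(53,6,3),(21,15,9)] []) (B12 (A13 (A01 (K
  [(53,6,6),(21,5,2),(21,15,8),(53,18,9)] []) (K [(53,6,4),(21,5,6),(53,18,8),(21,15,7)] [])) (K
  [(53,6,7),(21,15,9),(53,18,8)] [])) (K [(53,6,12),(21,15,20),(53,18,25),(21,5,6)] []))))) (A23
  (A02 (B01 (K [(53,6,4),(53,18,10),(21,15,8),(21,5,3)] []) (K
  [(53,6,4),(21,5,5),(16,12,7),(53,18,8)] [])) (B01 (K [(21,15,60),(21,5,34),(53,6,33),(53,18,73)]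
  []) (K [(53,6,4),(21,5,6),(21,15,6),(53,18,7)] []))) (K
  [(53,6,31),(53,18,76),(21,5,43),(21,15,51)] [])))) (S 1 (L 7 1) (L 0 1))) (S 1 (L 7 1) (L 0 1))))
  (A02 (B01 (B02 (P 10 (A03 (A01 (K [(53,6,5),(21,15,12),(53,18,7)] []) (A13 (L 21 15) (K
  [(53,6,15),(21,15,30),(53,18,19)] []))) (A13 (A01 (K [(53,6,6),(21,15,11),(53,18,7)] []) (L 21
  15)) (K [(53,6,6),(21,15,11),(53,18,7)] [])))) (S 1 (L 7 1) (L 0 1))) (S 1 (L 7 1) (L 0 1))) (B01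
  (S 1 (L 8 16) (K [(0,1,14),(21,15,24),(21,5,16),(0,9,10)] [])) (S 1 (L 7 1) (L 11 16)))))))) (A01
  (B02 (P 4 (S 1 (L 7 1) (K [(0,1,3),(21,15,14),(0,9,7)] []))) (S 1 (L 7 1) (L 11 1))) (B02 (P 4
  (A12 (A13 (P 10 (B01 (K [(53,18,11),(21,15,9),(53,6,4)] []) (K [(53,6,6),(53,18,2)] []))) (B01 (P
  10 (K [(53,6,4),(21,15,10),(53,18,10)] [])) (S 1 (L 7 1) (L 0 1)))) (S 1 (L 7 1) (K
  [(0,1,3),(21,15,14),(0,9,7)] [])))) (A12 (A13 (P 10 (K [(54,13,2),(53,6,2),(53,18,4)] [])) (S 1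
  (L 7 1) (L 11 1))) (S 1 (L 7 1) (L 11 16))))))) (B01 (B02 (A03 (A02 (A01 (P 4 (L 21 15)) (B01 (S
  4 (L 21 15) (L 43 15)) (B12 (P 10 (P 4 (K [(21,15,4),(53,18,4)] []))) (S 4 (L 21 15) (L 43
  15))))) (A23 (P 10 (S 4 (K [(21,15,13),(53,6,3),(53,18,8)] []) (L 43 15))) (B01 (S 4 (L 21 15) (L
  43 15)) (B12 (P 10 (P 4 (K [(21,15,4),(53,6,1),(53,18,3)] []))) (S 4 (L 21 15) (L 43 15))))))
  (A23 (A02 (B01 (S 4 (L 21 15) (L 43 15)) (B12 (P 4 (S 1 (L 8 16) (K [(21,15,4),(0,1,1),(0,9,3)]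
  []))) (S 4 (L 21 15) (L 43 15)))) (B01 (L 18 18) (B12 (P 4 (S 1 (L 8 16) (K
  [(21,15,33),(21,5,3),(0,1,8),(0,9,20)] []))) (S 4 (L 21 15) (L 43 15))))) (A13 (B01 (S 4 (L 21
  15) (L 43 4)) (B12 (P 4 (S 1 (L 7 1) (K [(0,1,1),(21,15,4),(0,9,3)] []))) (S 4 (L 21 15) (L 43
  4)))) (S 4 (L 21 15) (L 43 4))))) (A03 (B12 (A02 (A01 (P 4 (L 21 15)) (B01 (S 1 (L 7 1) (L 0 1))
  (P 4 (S 1 (L 7 1) (K [(0,1,1),(21,15,4),(0,9,3)] []))))) (A23 (B01 (S 1 (L 7 16) (L 11 16)) (P 4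
  (S 1 (L 8 16) (K [(21,15,4),(0,1,2),(0,9,2)] [])))) (B01 (S 1 (L 7 1) (L 11 16)) (M 7 (S 1 (L 7
  1) (K [(0,1,2),(16,12,3),(0,9,2)] [])))))) (S 1 (L 7 1) (L 11 1))) (B12 (A23 (A02 (S 1 (L 7 1) (L
  0 1)) (B01 (S 1 (L 7 16) (L 11 16)) (P 4 (S 1 (L 7 16) (K [(21,15,2),(0,1,4),(21,5,1)] []))))) (S
  1 (L 7 1) (L 0 1))) (S 1 (L 7 1) (L 11 1))))) (B12 (M 7 (S 1 (L 7 1) (K [(0,1,14),(16,12,10)]
  []))) (A03 (B02 (P 4 (S 1 (L 7 1) (K [(0,1,14),(21,15,10)] []))) (S 1 (L 7 1) (L 11 1))) (B02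
  (A23 (P 4 (S 1 (L 7 16) (K [(0,1,14),(21,15,7),(21,5,4)] []))) (S 1 (L 7 1) (L 0 1))) (S 1 (L 7
  1) (L 11 1))))))))) (A03 (B02 (A02 (A01 (P 4 (K [(21,15,4),(18,18,1),(18,12,1),(24,13,1)] []))
  (B01 (P 10 (S 4 (K [(21,15,3),(53,18,4),(54,13,1)] []) (L 43 4))) (A13 (P 10 (K
  [(3,9,1),(54,13,3),(53,18,1),(18,12,2)] [])) (A23 (S 4 (L 21 15) (L 43 4)) (A03 (P 10 (K
  [(54,13,2),(18,18,2),(18,12,4)] [])) (B12 (P 4 (L 21 15)) (P 10 (K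
  [(54,13,1),(18,18,3),(18,12,4)] [])))))))) (A23 (L 18 18) (B01 (P 10 (K
  [(18,18,48),(54,13,53),(53,18,99)] [])) (A13 (S 4 (L 21 15) (L 43 4)) (A03 (S 4 (L 21 15) (L 43
  4)) (A23 (S 4 (L 21 15) (L 43 4)) (B12 (P 4 (L 21 15)) (P 10 (K [(54,13,2),(18,18,3),(18,12,3)]
  []))))))))) (A02 (A01 (B12 (A03 (P 10 (L 54 13)) (S 1 (L 7 1) (L 11 16))) (K
  [(18,18,5),(18,12,3)] [])) (S 1 (L 7 1) (L 11 16))) (S 1 (L 7 16) (L 11 16)))) (B02 (A23 (A02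
  (B01 (A01 (K [(18,18,5),(18,12,3)] []) (L 18 18)) (A01 (A03 (A02 (B12 (S 4 (L 21 15) (L 43 4)) (K
  [(18,18,4),(18,12,4)] [])) (S 4 (L 21 15) (L 43 4))) (S 4 (L 21 15) (L 43 4))) (S 4 (L 21 15) (L
  43 4)))) (L 18 18)) (A13 (B01 (A01 (K [(18,18,5),(18,12,3)] []) (L 18 18)) (A01 (A02 (A03 (B12 (S
  4 (L 21 15) (L 43 4)) (K [(18,18,4),(18,12,4)] [])) (S 4 (L 21 15) (L 43 4))) (S 4 (L 21 15) (L
  43 4))) (S 4 (L 21 15) (L 43 4)))) (B01 (K [(18,18,5),(18,12,3)] []) (S 1 (L 7 1) (L 11 1))))) (S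
  1 (L 8 1) (L 11 16))))))))))))))) (M 6 (P 3 (A13 (P 8 (M 5 (A12 (A01 (A02 (B12 (A03 (M 9 (P 0
  (A01 (A02 (B01 (B02 (A03 (A01 (A02 (B01 (L 18 12) (S 1 (L 7 1) (L 0 1))) (B01 (L 18 12) (B12 (A23
  (A12 (A13 (L 18 12) (B01 (L 18 12) (S 1 (L 7 1) (L 0 1)))) (A02 (B01 (L 18 12) (S 1 (L 7 1) (L 0
  1))) (P 10 (M 1 (K [(0,9,6),(53,6,1),(18,12,1)] []))))) (A13 (A12 (L 18 12) (B01 (L 18 12) (S 1
  (L 7 1) (L 0 1)))) (A03 (B01 (L 18 12) (S 1 (L 7 1) (L 0 1))) (B01 (L 18 12) (S 1 (L 7 1) (L 0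
  1)))))) (L 18 12)))) (A13 (B01 (L 18 12) (B12 (S 1 (L 7 1) (L 0 9)) (L 18 12))) (B01 (L 18 12)
  (B12 (A23 (A02 (S 4 (L 24 19) (L 43 19)) (P 10 (K [(3,15,1),(53,18,6),(53,6,1)] []))) (A03 (S 4
  (L 24 19) (L 43 19)) (A13 (S 4 (L 24 19) (L 43 19)) (B01 (L 18 12) (S 1 (L 7 1) (L 0 1)))))) (L
  18 12))))) (A13 (A01 (B01 (L 18 12) (B12 (A02 (A03 (A01 (B01 (L 18 12) (S 1 (L 7 1) (L 0 1))) (S
  4 (L 24 19) (L 43 19))) (S 4 (L 24 19) (L 43 19))) (P 10 (K [(18,12,1),(53,18,6),(53,6,1)] [])))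
  (L 18 12))) (P 10 (K [(18,12,1),(53,18,6),(53,6,2)] []))) (A23 (B01 (L 18 12) (B12 (A02 (A01 (A03
  (B01 (L 18 12) (S 1 (L 7 1) (L 0 1))) (P 10 (M 1 (K [(0,1,1),(53,18,7),(54,13,1)] [])))) (P 10 (K
  [(53,18,7),(53,6,1),(54,13,1)] []))) (P 10 (K [(53,18,7),(53,6,1),(54,13,1)] []))) (L 18 12)))
  (B01 (L 18 12) (B12 (A03 (A01 (A02 (B01 (L 18 12) (S 1 (L 7 1) (L 11 1))) (P 10 (K
  [(53,6,1),(54,13,1),(53,18,6)] []))) (P 10 (K [(53,18,6),(53,6,1),(54,13,1)] []))) (P 10 (K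
  [(53,18,6),(53,6,1),(54,13,1)] []))) (L 18 12)))))) (S 1 (L 7 1) (L 0 1))) (S 1 (L 7 1) (L 0 1)))
  (B01 (B02 (P 10 (K [(3,15,1),(53,18,5),(53,6,1)] [])) (A23 (B12 (P 10 (K
  [(3,15,1),(53,18,5),(53,6,2)] [])) (A12 (S 1 (L 7 1) (L 11 1)) (A02 (B02 (A03 (S 4 (L 24 13) (L
  43 4)) (L 18 12)) (S 1 (L 7 1) (L 11 1))) (L 18 12)))) (B12 (A13 (P 10 (K [(53,6,3),(53,18,5)]
  [])) (A03 (P 10 (K [(53,6,2),(53,18,5)] [])) (B01 (P 7 (S 1 (L 7 1) (L 35 16))) (A23 (P 10 (K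
  [(53,6,3),(53,18,5)] [])) (B12 (P 10 (M 1 (K [(53,6,1),(11,16,1),(53,18,6)] []))) (S 1 (L 7 1) (L
  11 1))))))) (S 1 (L 7 1) (L 11 1))))) (B12 (A23 (A12 (A13 (S 1 (L 7 1) (K [(0,1,2),(0,9,6)] []))
  (B01 (B02 (P 10 (P 4 (K [(24,19,1),(53,18,6),(53,6,2)] []))) (S 1 (L 7 1) (L 0 1))) (S 1 (L 7 1)
  (L 0 1)))) (A02 (B01 (B02 (P 10 (K [(53,18,5),(53,6,2)] [])) (S 1 (L 7 1) (L 0 1))) (S 1 (L 7 1)
  (L 0 1))) (P 10 (K [(53,6,3),(53,18,5)] [])))) (A13 (A12 (B01 (B02 (P 10 (K [(53,6,2),(53,18,6)]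
  [])) (S 1 (L 7 1) (L 11 1))) (S 1 (L 7 1) (L 11 1))) (B01 (B02 (P 10 (K [(53,6,3),(53,18,5)] []))
  (S 1 (L 7 1) (L 0 1))) (S 1 (L 7 1) (L 0 1)))) (A03 (B01 (B02 (P 10 (K [(53,6,3),(53,18,5)] []))
  (S 1 (L 7 1) (L 0 1))) (S 1 (L 7 1) (L 0 1))) (B01 (B02 (P 10 (K [(53,6,3),(53,18,5),(18,12,1)]
  [])) (S 1 (L 7 1) (L 0 1))) (S 1 (L 7 1) (L 0 1)))))) (A23 (B02 (A12 (A13 (B01 (P 10 (K
  [(53,6,2),(53,18,6)] [])) (S 1 (L 7 1) (L 11 1))) (B01 (P 10 (K [(53,6,3),(53,18,5)] [])) (S 1 (L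
  7 1) (L 11 1)))) (A02 (B01 (P 10 (K [(53,6,2),(53,18,5)] [])) (S 1 (L 7 1) (L 0 1))) (P 10 (K
  [(53,6,3),(53,18,5)] [])))) (A12 (S 1 (L 7 1) (L 11 1)) (A02 (S 1 (L 7 1) (L 11 1)) (P 10 (K
  [(53,6,3),(53,18,4)] []))))) (B02 (A13 (A12 (B01 (P 10 (K [(53,6,2),(53,18,6)] [])) (S 1 (L 7 1)
  (L 11 1))) (B01 (P 10 (K [(53,6,3),(53,18,5)] [])) (S 1 (L 7 1) (L 11 1)))) (A03 (B01 (P 10 (K
  [(53,6,3),(53,18,5)] [])) (S 1 (L 7 1) (L 11 1))) (B01 (A23 (P 10 (K [(53,6,3),(53,18,5)] []))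
  (B02 (P 10 (K [(53,6,1),(54,13,1),(53,18,6)] [])) (S 1 (L 7 1) (L 11 1)))) (S 1 (L 7 1) (L 11
  1))))) (S 1 (L 7 1) (L 11 1))))))) (A13 (B01 (L 18 12) (B12 (A12 (L 18 12) (A02 (S 1 (L 7 1) (L 0
  9)) (P 10 (M 1 (K [(0,9,4),(18,12,1),(53,6,3)] []))))) (A12 (L 18 12) (B02 (A02 (L 18 12) (P 10
  (K [(18,12,1),(53,18,4),(53,6,3)] []))) (A02 (L 18 12) (P 10 (K [(53,6,3),(53,18,4)] [])))))))
  (B01 (L 18 12) (B12 (A23 (A02 (S 4 (L 24 19) (L 43 19)) (P 10 (K [(53,6,3),(53,18,5)] []))) (A03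
  (S 4 (L 24 19) (L 43 19)) (A13 (S 4 (L 24 19) (L 43 19)) (B01 (B02 (P 10 (K
  [(53,6,3),(53,18,5),(18,12,1)] [])) (S 1 (L 7 1) (L 0 1))) (S 1 (L 7 1) (L 0 1)))))) (A23 (B02
  (A02 (A03 (L 18 12) (P 10 (K [(53,6,3),(53,18,5)] []))) (P 10 (K [(53,18,5),(53,6,3)] []))) (A02
  (S 1 (L 7 1) (L 11 1)) (P 10 (K [(53,6,3),(53,18,4)] [])))) (B02 (A03 (A02 (L 18 12) (B01 (P 10
  (K [(53,18,5),(53,6,3)] [])) (S 1 (L 7 1) (L 11 1)))) (A13 (B01 (P 10 (K [(53,18,5),(53,6,3)]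
  [])) (S 1 (L 7 1) (L 11 1))) (B01 (A23 (P 10 (K [(53,6,3),(53,18,5)] [])) (B02 (P 10 (K
  [(53,6,1),(53,18,6),(54,13,1)] [])) (S 1 (L 7 1) (L 11 1)))) (S 1 (L 7 1) (L 11 1))))) (S 1 (L 7
  1) (L 11 1)))))))))) (A13 (M 9 (P 0 (A01 (B01 (L 18 12) (B12 (A02 (A03 (A01 (B01 (B02 (P 10 (K
  [(3,15,1),(53,18,5),(53,6,3)] [])) (S 1 (L 7 1) (L 0 1))) (S 1 (L 7 1) (L 0 1))) (P 10 (K
  [(53,6,3),(53,18,5)] []))) (P 10 (K [(18,12,1),(53,18,15),(53,6,8)] []))) (P 10 (K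
  [(18,12,1),(53,18,5),(53,6,3)] []))) (A02 (B02 (A03 (A01 (B01 (A02 (P 7 (M 4 (K
  [(18,12,3),(43,19,1),(39,12,5)] []))) (P 10 (K [(53,6,3),(53,18,5)] []))) (S 1 (L 7 1) (L 11 1)))
  (P 10 (K [(53,6,3),(53,18,5)] []))) (P 10 (K [(18,12,1),(53,18,4),(53,6,3)] []))) (S 1 (L 7 1) (L
  11 1))) (P 10 (K [(18,12,1),(53,18,4),(53,6,3)] []))))) (P 10 (B01 (L 18 12) (K
  [(18,12,1),(53,18,5),(53,6,2)] [])))))) (A23 (B01 (B02 (S 0 (L 3 15) (L 40 9)) (M 9 (L 18 12)))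
  (M 9 (P 0 (B12 (A02 (A01 (A03 (B01 (B02 (P 10 (M 1 (K [(53,18,5),(0,1,2),(54,13,1)] []))) (S 1 (L
  7 1) (L 0 1))) (S 1 (L 7 1) (L 0 1))) (P 10 (K [(53,6,3),(53,18,5)] []))) (P 10 (K
  [(54,6,3),(53,18,44),(53,6,16)] []))) (P 10 (K [(53,18,16),(53,6,6),(54,6,1)] []))) (A02 (B02
  (A01 (A03 (B01 (A02 (P 7 (M 4 (K [(3,15,1),(39,12,5),(43,19,1)] []))) (P 10 (K
  [(18,12,1),(53,18,5),(53,6,3)] []))) (S 1 (L 7 1) (L 11 1))) (P 10 (K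
  [(54,13,1),(53,6,2),(53,18,5)] []))) (P 10 (K [(54,6,1),(53,18,6),(53,6,2)] []))) (S 1 (L 7 1) (L
  11 1))) (P 10 (K [(3,15,1),(53,18,5),(53,6,3)] []))))))) (B01 (S 0 (L 3 15) (L 10 15)) (M 9 (P 0
  (B12 (A03 (A01 (A02 (B01 (M 4 (S 1 (L 7 1) (K [(11,1,2),(18,12,4),(43,19,2)] []))) (S 1 (L 7 1)
  (L 0 1))) (P 10 (K [(53,6,3),(53,18,5)] []))) (P 10 (K [(54,6,1),(53,18,17),(53,6,6)] []))) (P 10
  (K [(54,6,3),(53,18,44),(53,6,16)] []))) (P 7 (K [(18,12,2),(39,12,6)] []))))))))) (A03 (M 9 (B02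
  (A01 (A02 (B01 (A03 (L 18 12) (L 18 12)) (S 1 (L 7 1) (L 11 1))) (B01 (L 18 12) (A23 (S 4 (L 24
  4) (L 43 4)) (S 1 (L 7 1) (L 11 1))))) (L 18 12)) (S 1 (L 8 1) (L 11 1)))) (B02 (A13 (A01 (B01
  (A02 (B02 (S 0 (L 3 15) (L 10 15)) (S 0 (L 3 15) (L 10 15))) (S 0 (L 3 15) (L 10 15))) (A02 (S 0
  (L 3 15) (L 10 15)) (S 0 (L 3 15) (L 10 15)))) (S 0 (L 3 15) (L 10 15))) (A23 (B01 (A02 (S 0 (L 3
  15) (L 10 15)) (S 0 (L 3 9) (L 40 9))) (A02 (S 0 (L 3 15) (L 10 15)) (S 0 (L 3 15) (L 10 15))))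
  (S 0 (L 3 15) (L 10 15)))) (S 0 (L 3 15) (L 10 15))))) (B12 (P 10 (A23 (A12 (A13 (M 9 (B01 (L 18
  12) (B12 (A01 (K [(53,18,18),(54,6,1),(53,6,5)] []) (L 18 12)) (K [(18,12,4),(53,18,2),(53,6,2)]
  [])))) (B01 (S 0 (L 3 15) (L 40 9)) (M 9 (K [(53,18,48),(54,6,3),(53,6,13)] [])))) (A02 (B01 (S 0
  (L 3 15) (L 40 9)) (M 9 (K [(53,18,48),(53,6,13),(54,6,3)] []))) (out 7))) (A13 (A12 (M 9 (B01 (L
  18 12) (K [(18,12,1),(53,18,5),(53,6,2)] []))) (B01 (S 0 (L 3 15) (L 40 9)) (M 9 (P 0 (S 4 (K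
  [(24,19,6),(53,18,36),(54,6,6),(53,6,16)] []) (K [(43,13,3),(3,15,5)] [])))))) (A03 (B01 (S 0 (L
  3 15) (L 40 9)) (M 9 (P 0 (B12 (A02 (K [(53,18,5),(53,6,2)] []) (S 4 (L 24 19) (K
  [(18,12,14),(2,5,10)] []))) (K [(18,12,1),(53,18,5),(53,6,3)] []))))) (B01 (S 0 (L 3 15) (L 40
  9)) (M 9 (S 4 (L 21 19) (K [(18,18,3),(54,6,3),(43,19,2)] [])))))))) (A23 (S 0 (L 3 15) (L 40 9))
  (B02 (S 0 (L 3 15) (L 40 15)) (S 0 (L 3 15) (L 10 9)))))) (A13 (P 10 (B12 (A12 (A01 (A02 (B01 (S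
  0 (L 3 15) (L 40 15)) (B12 (M 9 (K [(18,12,4),(54,6,4),(18,2,1)] [])) (S 0 (L 3 15) (L 40 15))))
  (out 7)) (out 5)) (S 0 (L 3 15) (L 40 15))) (S 0 (L 3 15) (L 40 15)))) (B12 (S 0 (L 3 15) (L 40
  15)) (A23 (S 0 (L 3 15) (L 40 15)) (B02 (S 0 (L 3 15) (L 40 15)) (S 0 (L 3 15) (L 40 15)))))))
  (A02 (A01 (B12 (A03 (M 9 (P 0 (A02 (A01 (B01 (B02 (A03 (A02 (A01 (B01 (L 18 18) (B12 (A03 (A02 (S
  1 (L 7 1) (L 0 1)) (A23 (P 4 (L 21 15)) (S 1 (L 7 1) (L 0 1)))) (A23 (A02 (B01 (K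
  [(18,18,13),(18,12,11)] []) (S 1 (L 7 1) (L 11 1))) (S 4 (L 21 15) (L 43 5))) (A13 (B01 (K
  [(18,18,13),(18,12,11)] []) (S 1 (L 7 1) (L 11 1))) (S 1 (L 7 1) (L 11 16))))) (S 4 (L 21 15) (L
  2 15)))) (B01 (L 18 18) (B12 (A13 (A12 (A01 (B01 (B02 (P 10 (P 4 (K [(21,15,4),(53,18,4)] [])))
  (A03 (P 4 (L 21 15)) (P 10 (K [(54,13,1),(18,18,3),(53,18,4)] [])))) (B12 (P 10 (P 4 (K
  [(53,6,2),(21,15,3),(53,18,3)] []))) (A03 (P 4 (L 21 15)) (P 10 (K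
  [(54,13,4),(18,18,7),(53,18,13)] []))))) (P 10 (S 4 (K [(53,6,1),(21,15,4),(53,18,3)] []) (L 43
  5)))) (A23 (P 4 (L 21 15)) (B01 (B02 (P 10 (P 4 (K [(21,15,4),(21,5,1),(53,18,3)] []))) (A03 (P 4
  (L 21 15)) (P 10 (K [(54,13,1),(18,18,3),(53,18,4)] [])))) (B12 (P 4 (L 21 5)) (A03 (P 4 (L 21
  15)) (P 10 (K [(54,13,1),(18,18,3),(53,18,4)] []))))))) (A23 (A12 (B01 (B02 (P 10 (K
  [(54,13,2),(18,18,2),(53,18,4)] [])) (S 1 (L 7 1) (L 0 1))) (S 1 (L 7 1) (L 0 1))) (S 4 (L 21 15)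
  (L 43 5))) (A03 (B01 (B02 (P 10 (K [(54,13,2),(18,18,1),(53,18,5)] [])) (S 1 (L 7 1) (L 0 1))) (S
  1 (L 7 1) (L 0 1))) (B01 (K [(18,18,13),(18,12,11)] []) (S 1 (L 7 1) (L 0 1)))))) (A13 (B02 (A12
  (A01 (B01 (L 18 18) (S 1 (L 7 1) (L 11 16))) (P 10 (K [(54,13,4),(18,18,7),(18,12,2),(53,18,11)]
  []))) (A23 (S 4 (L 21 15) (L 43 15)) (B01 (L 18 18) (S 1 (L 7 1) (L 11 16))))) (S 1 (L 7 1) (L 11
  16))) (S 4 (L 21 15) (L 2 15)))))) (A23 (B01 (L 18 18) (B12 (A12 (A01 (L 18 18) (P 10 (S 4 (K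
  [(21,15,4),(53,6,1),(53,18,3)] []) (L 43 5)))) (L 18 18)) (S 4 (L 21 15) (L 43 15)))) (B01 (L 18
  18) (B12 (A13 (A01 (A03 (L 18 18) (P 10 (K [(54,13,2),(18,18,2),(53,18,4)] []))) (P 10 (S 4 (K
  [(21,15,3),(21,5,1),(53,6,1),(53,18,3)] []) (L 43 5)))) (A03 (S 4 (L 24 5) (L 43 5)) (A23 (S 4 (L
  24 5) (L 43 5)) (B01 (L 18 18) (S 1 (L 7 1) (L 0 1)))))) (K [(18,18,5),(18,12,3)] []))))) (A23
  (A02 (B01 (L 18 18) (B12 (A01 (A03 (A02 (B01 (L 18 18) (B12 (S 4 (L 24 5) (L 43 5)) (A01 (S 1 (L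
  7 1) (L 11 16)) (P 10 (K [(54,13,2),(18,18,1),(53,18,5)] []))))) (P 10 (K
  [(54,13,2),(18,18,2),(53,18,4)] []))) (P 10 (K [(54,13,2),(18,18,2),(53,18,4)] []))) (P 10 (S 4
  (K [(21,5,1),(21,15,3),(53,6,1),(53,18,3)] []) (L 43 5)))) (K [(18,18,5),(18,12,3)] []))) (B01 (L
  18 18) (B12 (P 10 (S 4 (K [(21,15,13),(53,18,11)] []) (L 43 15))) (K [(18,18,5),(18,12,3)] []))))
  (A13 (B01 (L 18 18) (B12 (A01 (A02 (A03 (B01 (L 18 18) (B12 (S 4 (L 24 5) (L 43 5)) (A01 (S 1 (L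
  7 1) (L 11 16)) (P 10 (K [(54,13,2),(18,18,2),(53,18,5)] []))))) (P 10 (K
  [(54,13,2),(3,9,1),(53,18,5)] []))) (P 10 (K [(54,13,2),(18,18,1),(53,18,4)] []))) (P 10 (S 4 (K
  [(21,5,1),(21,15,2),(53,18,4),(53,6,1)] []) (K [(43,5,1),(18,18,5),(54,13,2)] [])))) (K
  [(18,18,4),(18,12,4)] []))) (B01 (L 18 18) (B12 (A03 (A02 (A01 (B01 (L 18 18) (S 1 (L 7 1) (L 11
  16))) (P 10 (K [(54,13,2),(3,9,1),(53,18,5)] []))) (P 10 (K [(54,13,8),(18,18,3),(53,18,13)]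
  []))) (P 10 (K [(3,9,3),(54,13,8),(53,18,13)] []))) (L 18 18)))))) (A03 (B12 (A02 (S 1 (L 7 1) (L
  0 1)) (A23 (B01 (S 1 (L 7 16) (L 11 16)) (A12 (B12 (A01 (L 18 18) (P 10 (S 4 (K
  [(21,15,4),(53,6,1),(53,18,3)] []) (L 43 5)))) (S 1 (L 7 16) (L 11 16))) (L 18 18))) (S 1 (L 7
  16) (L 0 1)))) (S 1 (L 7 16) (L 11 1))) (B12 (A23 (A02 (B01 (S 1 (L 7 1) (L 11 16)) (A01 (S 1 (L
  7 16) (L 11 16)) (B12 (P 10 (K [(54,13,4),(53,6,20)] [])) (S 1 (L 7 1) (L 11 16))))) (B01 (S 1 (L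
  7 16) (L 11 16)) (A12 (B12 (P 10 (S 4 (K [(21,15,4),(53,6,1),(53,18,3)] []) (L 43 5))) (S 1 (L 7
  16) (L 11 16))) (L 18 18)))) (A13 (B01 (S 1 (L 7 1) (L 11 1)) (A01 (B12 (A02 (S 1 (L 7 1) (L 0
  1)) (P 10 (M 1 (K [(11,16,2),(53,6,6)] [])))) (S 1 (L 7 1) (L 11 1))) (B12 (P 10 (K
  [(54,13,4),(53,6,20)] [])) (S 1 (L 7 1) (L 11 1))))) (B01 (P 7 (L 39 12)) (A03 (B12 (A02 (S 1 (L
  7 1) (L 0 1)) (A23 (P 10 (M 1 (K [(11,16,2),(53,6,6)] []))) (S 1 (L 7 1) (L 0 1)))) (P 7 (L 39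
  12))) (B12 (A23 (A02 (S 1 (L 7 1) (L 0 1)) (P 10 (M 1 (K [(11,16,2),(53,6,6)] [])))) (S 1 (L 7 1)
  (L 0 1))) (P 7 (L 39 12))))))) (S 1 (L 7 16) (L 11 1))))) (B12 (A03 (A02 (S 1 (L 7 1) (L 0 1))
  (A23 (P 4 (S 1 (L 7 16) (K [(0,1,5),(21,5,19)] []))) (S 1 (L 7 16) (L 0 1)))) (A23 (A02 (B01 (B02
  (A01 (S 1 (L 7 1) (L 11 16)) (A13 (P 4 (S 1 (L 7 1) (K [(0,1,5),(21,5,2),(0,9,1)] []))) (S 1 (L 7
  1) (L 11 16)))) (S 1 (L 7 1) (L 11 16))) (S 1 (L 7 1) (L 11 16))) (B01 (B02 (P 10 (S 4 (K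
  [(21,5,19),(53,6,5)] []) (L 43 5))) (S 1 (L 7 16) (L 11 16))) (S 1 (L 7 16) (L 11 16)))) (A13
  (B01 (B02 (A01 (S 4 (L 24 5) (L 43 5)) (A12 (A13 (P 4 (S 1 (L 7 1) (K [(0,1,2),(21,5,3),(0,9,4)]
  []))) (S 4 (L 21 5) (L 43 5))) (S 4 (L 24 5) (L 43 5)))) (S 1 (L 7 1) (L 11 16))) (S 1 (L 7 1) (L
  11 16))) (B01 (B02 (A03 (S 4 (L 24 5) (L 2 5)) (A23 (S 4 (L 24 5) (L 2 5)) (S 1 (L 7 1) (L 0
  1)))) (S 1 (L 7 1) (L 11 16))) (S 1 (L 7 1) (L 11 16)))))) (A03 (B02 (A02 (S 1 (L 7 1) (L 0 1))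
  (A23 (B01 (A12 (B02 (P 4 (S 1 (L 7 16) (K [(0,1,3),(21,5,5)] []))) (S 1 (L 7 16) (L 11 16))) (L
  18 18)) (S 1 (L 7 16) (L 11 16))) (S 1 (L 7 16) (L 0 1)))) (S 1 (L 7 16) (L 11 1))) (B02 (A23
  (A02 (B01 (A01 (S 1 (L 7 16) (L 11 16)) (B02 (A13 (P 4 (S 1 (L 7 1) (K [(0,1,7),(21,5,1)] [])))
  (S 1 (L 7 1) (L 11 16))) (S 1 (L 7 1) (L 11 16)))) (S 1 (L 7 16) (L 11 1))) (B01 (A12 (B02 (P 10
  (S 4 (K [(53,6,3),(21,5,5)] []) (L 43 5))) (S 1 (L 7 16) (L 11 16))) (L 18 18)) (S 1 (L 7 16) (L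
  11 16)))) (A13 (B01 (A01 (B02 (S 4 (L 24 5) (L 2 5)) (S 1 (L 7 1) (L 11 1))) (B02 (A12 (A13 (P 4
  (S 1 (L 7 1) (K [(0,1,2),(21,5,3),(0,9,3)] []))) (S 4 (L 21 5) (L 43 5))) (S 4 (L 24 5) (L 43
  5))) (S 1 (L 7 1) (L 11 1)))) (S 1 (L 7 1) (L 11 1))) (B01 (A03 (B02 (A02 (S 1 (L 7 1) (L 0 1))
  (A23 (S 4 (L 24 5) (L 43 5)) (S 1 (L 7 1) (L 0 1)))) (P 7 (L 39 12))) (B02 (A23 (A02 (S 1 (L 7 1)
  (L 0 1)) (P 10 (M 1 (K [(11,16,2),(53,6,6)] [])))) (S 1 (L 7 1) (L 0 1))) (P 7 (L 39 12)))) (P 7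
  (L 39 12))))) (S 1 (L 7 16) (L 11 1)))))) (B01 (B02 (P 10 (S 4 (K [(21,15,4),(21,5,1),(53,18,3)]
  []) (K [(18,18,7),(43,5,1)] []))) (A13 (B12 (P 10 (M 1 (A12 (S 4 (K [(21,15,3),(53,18,4),(0,1,1)]
  []) (K [(43,4,2),(43,13,2),(18,18,4)] [])) (S 4 (K [(21,15,7),(53,6,6),(21,5,11)] []) (K
  [(43,5,1),(54,13,2),(18,18,5)] []))))) (A12 (A01 (S 1 (L 7 1) (L 11 16)) (P 10 (M 1 (K
  [(11,16,3),(53,18,5)] [])))) (S 1 (L 7 1) (L 11 16)))) (B12 (A23 (P 10 (S 4 (K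
  [(21,15,1),(53,6,3),(21,5,4)] []) (K [(43,5,4),(18,18,15),(54,6,5)] []))) (A03 (P 10 (S 4 (K
  [(53,6,4),(21,5,4)] []) (K [(53,6,2),(18,18,3),(2,5,2),(18,12,2)] []))) (B01 (P 7 (L 39 12)) (A13
  (P 10 (M 1 (K [(11,16,2),(18,18,2),(53,18,4)] []))) (B12 (P 10 (K [(54,13,3),(18,18,1),(53,18,4)]
  [])) (P 7 (L 39 12))))))) (S 1 (L 7 1) (L 11 1))))) (B12 (A13 (A12 (A01 (B01 (B02 (P 10 (P 4 (A03
  (A02 (K [(53,6,4),(21,5,6),(53,18,9),(21,15,5)] []) (K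
  [(53,6,33),(21,5,59),(21,15,42),(53,18,66)] [])) (K [(21,5,60),(53,6,33),(53,18,66),(21,15,41)]
  [])))) (S 1 (L 7 1) (L 0 1))) (S 1 (L 7 1) (L 0 1))) (P 10 (B01 (B02 (P 4 (A13 (A12 (K
  [(53,18,4),(21,5,1),(53,6,2),(21,15,1)] []) (A23 (B01 (K [(21,15,7),(53,18,9),(21,5,4),(53,6,4)]
  []) (K [(21,5,3),(53,6,2),(21,15,1),(53,18,2)] [])) (K [(53,18,4),(21,5,1),(53,6,2),(21,15,1)]
  []))) (K [(21,5,60),(53,18,66),(53,6,33),(21,15,41)] []))) (A13 (P 4 (B12 (A12 (K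
  [(53,6,4),(53,18,3),(21,5,1)] []) (L 53 6)) (K [(53,6,6),(53,18,2)] []))) (L 53 6))) (S 4 (K
  [(53,6,3),(21,5,3),(53,18,2)] []) (L 43 5))))) (A23 (P 4 (S 1 (L 7 1) (K [(0,1,1),(21,5,7)] [])))
  (B01 (B02 (P 10 (M 7 (P 4 (K [(16,2,3),(53,6,1),(21,15,2),(53,18,2)] [])))) (S 1 (L 7 1) (L 0
  1))) (S 1 (L 7 1) (L 0 1))))) (A23 (A12 (B01 (B02 (P 10 (S 4 (K [(21,5,4),(53,6,2),(53,18,3)] [])
  (L 43 5))) (S 1 (L 7 1) (L 0 1))) (S 1 (L 7 1) (L 0 1))) (B01 (B02 (P 10 (S 4 (K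
  [(21,5,7),(53,6,1)] []) (L 43 5))) (S 1 (L 7 16) (L 11 16))) (S 1 (L 7 16) (L 11 16)))) (A03 (B01
  (B02 (P 10 (S 4 (K [(21,5,2),(53,6,3),(53,18,3)] []) (L 43 5))) (S 1 (L 7 1) (L 0 1))) (S 1 (L 7
  1) (L 0 1))) (B01 (B02 (P 10 (S 4 (L 24 5) (K [(43,19,5),(54,13,3)] []))) (S 1 (L 7 1) (L 0 1)))
  (S 1 (L 7 1) (L 0 1)))))) (A13 (B02 (A12 (A01 (B01 (P 10 (S 4 (K
  [(53,6,33),(21,15,73),(21,5,16),(53,18,78)] []) (K [(43,5,3),(54,13,5)] []))) (S 1 (L 7 1) (L 11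
  16))) (P 10 (B01 (A13 (P 4 (K [(53,18,11),(21,15,9),(53,6,4)] [])) (B02 (S 4 (K
  [(53,18,10),(21,5,1),(21,15,9),(53,6,4)] []) (L 2 19)) (K [(54,13,3),(53,18,4)] []))) (K
  [(53,6,6),(53,18,2)] [])))) (A23 (B01 (P 10 (S 4 (K [(21,15,3),(53,6,1),(21,5,2),(53,18,2)] [])
  (L 43 15))) (S 1 (L 7 16) (L 11 16))) (B01 (P 10 (S 4 (K [(21,15,9),(53,6,3),(21,5,4),(53,18,8)]
  []) (K [(43,5,3),(54,13,5)] []))) (S 1 (L 7 1) (L 11 16))))) (A12 (A01 (S 1 (L 7 1) (L 11 1)) (P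
  10 (M 1 (K [(54,13,2),(0,1,2),(53,18,4)] [])))) (S 1 (L 7 1) (L 11 16)))) (B02 (A23 (A12 (B01 (P
  10 (S 4 (K [(53,6,2),(21,5,4),(53,18,3)] []) (K [(43,5,3),(54,13,5)] []))) (S 1 (L 7 1) (L 11
  16))) (B01 (P 10 (S 4 (K [(53,6,5),(21,5,19)] []) (L 43 15))) (S 1 (L 7 16) (L 11 16)))) (A03
  (B01 (P 10 (S 4 (K [(53,6,4),(21,5,1),(24,19,3)] []) (K [(43,5,3),(54,13,5)] []))) (S 1 (L 7 1)
  (L 11 1))) (B01 (A13 (P 10 (K [(54,13,6),(18,18,4),(53,18,14)] [])) (B02 (P 10 (K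
  [(54,13,3),(18,18,1),(53,18,4)] [])) (P 7 (L 39 12)))) (S 1 (L 7 1) (L 11 1))))) (S 1 (L 7 1) (L
  11 1))))))) (A23 (B01 (L 18 18) (B12 (P 10 (M 7 (P 4 (A12 (A01 (L 21 5) (A13 (B01 (B02 (A12 (A01
  (K [(21,15,4),(21,5,4)] []) (K [(53,18,3),(21,5,1),(21,15,1),(53,6,2)] [])) (L 21 15)) (A12 (B12
  (A01 (K [(21,15,1),(21,5,3),(53,6,4)] []) (K [(21,5,1),(53,6,3),(16,12,1),(53,18,3)] [])) (K
  [(53,6,12),(21,15,4),(53,18,9)] [])) (L 21 15))) (K [(53,6,3),(21,5,4),(53,18,1)] [])) (L 21 5)))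
  (L 54 13))))) (A12 (B02 (P 10 (A01 (S 4 (L 21 15) (L 43 15)) (S 4 (K
  [(21,15,8),(54,13,21),(53,6,2),(53,18,32)] []) (L 43 15)))) (A01 (S 1 (L 7 16) (L 11 16)) (A13 (P
  10 (M 1 (K [(11,16,3),(53,6,1),(53,18,4)] []))) (S 1 (L 8 16) (L 11 16))))) (L 18 18)))) (B01 (L
  18 18) (B12 (A13 (P 10 (M 1 (A01 (S 4 (L 21 5) (L 43 5)) (A12 (B01 (B02 (M 7 (P 4 (A13 (A01 (K
  [(21,5,2),(16,12,2),(0,9,2),(53,6,1)] []) (K [(53,18,3),(21,5,1),(21,15,1),(53,6,2)] [])) (L 21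
  5)))) (A13 (P 4 (B12 (A01 (K [(21,5,2),(53,6,6)] []) (K [(21,5,1),(53,6,3),(53,18,3),(21,15,1)]
  [])) (K [(54,13,1),(53,6,4),(53,18,3)] []))) (S 4 (K [(53,6,4),(21,5,3),(53,18,1)] []) (L 43
  5)))) (S 4 (K [(53,6,3),(21,5,3),(53,18,2)] []) (L 43 5))) (S 4 (L 21 5) (L 43 5)))))) (A03 (S 4
  (L 21 5) (L 43 5)) (A23 (S 4 (L 21 5) (L 43 5)) (B01 (B02 (P 10 (S 4 (L 24 5) (K
  [(43,5,2),(54,13,2),(18,18,4)] []))) (S 1 (L 7 1) (L 0 1))) (S 1 (L 7 1) (L 0 1)))))) (A13 (B02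
  (P 10 (M 1 (A01 (K [(11,16,3),(18,18,10),(53,6,5),(53,18,6)] []) (A12 (B01 (S 4 (K
  [(21,15,23),(21,5,2),(0,9,27),(53,6,12)] []) (K [(43,19,5),(18,18,19)] [])) (K
  [(11,16,1),(53,6,4),(53,18,3)] [])) (K [(18,18,10),(53,6,8),(53,18,5)] []))))) (A01 (S 1 (L 7 16)
  (L 11 16)) (A12 (P 10 (M 1 (K [(11,16,2),(53,6,2),(53,18,4)] []))) (S 1 (L 7 1) (L 11 16)))))
  (B02 (A03 (A01 (S 1 (L 7 16) (L 11 16)) (B01 (P 10 (K [(54,13,2),(18,18,2),(53,18,4)] [])) (S 1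
  (L 8 16) (L 11 16)))) (A23 (B01 (P 10 (M 1 (K [(11,16,7),(18,18,4),(53,18,13)] []))) (S 1 (L 8
  16) (L 11 16))) (B01 (A13 (P 10 (K [(54,13,2),(18,18,1),(53,18,4)] [])) (B02 (P 10 (M 1 (K
  [(11,16,2),(18,18,2),(53,18,4)] []))) (P 7 (L 39 12)))) (S 1 (L 7 1) (L 11 16))))) (S 1 (L 7 16)
  (L 11 16)))))))))) (A23 (A02 (B01 (B02 (S 0 (L 3 9) (L 40 9)) (M 9 (L 18 18))) (M 9 (P 0 (B12
  (A01 (A03 (A02 (B01 (B02 (P 10 (S 4 (L 24 5) (K [(43,5,2),(54,13,2),(18,18,4)] []))) (S 1 (L 7 1)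
  (L 0 1))) (S 1 (L 7 1) (L 0 1))) (P 10 (S 4 (L 21 5) (K [(43,5,5),(54,13,3)] [])))) (P 10 (S 4 (L
  21 5) (K [(43,5,5),(54,13,3)] [])))) (P 10 (A13 (A12 (S 4 (K
  [(21,5,2),(53,6,2),(54,13,1),(53,18,4)] []) (L 43 5)) (S 4 (L 21 5) (L 43 5))) (S 4 (L 21 5) (L
  43 5))))) (A01 (B02 (A03 (A02 (B01 (A01 (P 7 (M 4 (K [(39,12,6),(39,2,1),(43,19,1)] []))) (P 10
  (K [(54,13,2),(18,18,1),(53,18,5)] []))) (S 1 (L 7 1) (L 11 16))) (P 10 (K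
  [(54,13,7),(18,18,6),(53,18,11)] []))) (P 10 (M 1 (K [(11,16,7),(18,18,6),(53,18,11)] [])))) (S 1
  (L 7 16) (L 11 16))) (B02 (P 10 (M 1 (S 4 (K
  [(21,15,176),(11,16,39),(21,5,149),(53,6,239),(53,18,397)] []) (K [(43,5,2),(54,13,3),(18,18,3)]
  [])))) (A13 (A12 (P 10 (K [(54,13,2),(53,6,2),(53,18,4)] [])) (S 1 (L 8 16) (L 11 16))) (S 1 (L 8
  16) (L 11 16))))))))) (B01 (B02 (S 0 (L 3 9) (L 40 9)) (M 9 (L 18 18))) (M 9 (B12 (P 10 (A12 (A13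
  (M 7 (P 4 (A01 (L 21 5) (B01 (B02 (K [(21,5,1),(21,15,2),(53,18,4)] []) (A12 (K
  [(21,5,1),(16,12,1),(53,6,3),(53,18,3)] []) (L 21 15))) (K [(21,5,3),(53,6,3),(53,18,1)] [])))))
  (S 4 (L 21 5) (L 43 5))) (S 4 (L 21 15) (L 43 5)))) (A12 (B02 (P 10 (K
  [(18,18,2),(54,13,28),(53,18,34)] [])) (A13 (A01 (S 1 (L 8 16) (L 11 16)) (P 10 (M 1 (K
  [(11,16,3),(53,6,1),(53,18,4)] [])))) (L 18 18))) (L 18 18)))))) (A13 (B01 (B02 (S 0 (L 3 9) (L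
  40 9)) (M 9 (L 18 18))) (M 9 (P 0 (B12 (A01 (A02 (A03 (B01 (B02 (P 10 (M 1 (K
  [(11,16,17),(53,6,8),(53,18,39)] []))) (S 1 (L 7 1) (L 0 1))) (S 1 (L 7 1) (L 0 1))) (P 10 (S 4
  (L 21 5) (K [(43,5,2),(54,13,3),(18,18,3)] [])))) (P 10 (S 4 (L 21 5) (K
  [(43,5,2),(54,13,3),(18,18,3)] [])))) (P 10 (A12 (A13 (S 4 (K
  [(21,5,1),(53,6,2),(53,18,4),(54,13,1)] []) (L 43 5)) (S 4 (L 21 5) (K
  [(43,5,4),(53,6,31),(53,18,29)] []))) (S 4 (L 21 5) (K [(43,5,2),(54,13,3),(18,18,3)] [])))))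
  (A01 (B02 (A02 (A03 (B01 (A01 (P 7 (M 4 (K [(39,12,6),(39,2,1),(43,19,1)] []))) (P 10 (K
  [(54,13,2),(53,18,6)] []))) (S 1 (L 7 1) (L 11 16))) (P 10 (K [(54,13,7),(53,18,17)] []))) (P 10
  (K [(18,18,2),(54,13,7),(53,18,15)] []))) (P 7 (L 39 12))) (P 10 (K
  [(54,13,7),(53,6,2),(53,18,15)] []))))))) (B01 (S 0 (L 3 9) (L 40 9)) (M 9 (P 0 (B12 (A03 (A02
  (A01 (B01 (P 7 (K [(39,12,6),(39,2,2)] [])) (S 1 (L 7 1) (L 0 1))) (M 1 (S 4 (L 24 5) (K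
  [(11,16,3),(43,5,2),(18,18,3)] [])))) (P 10 (S 4 (L 24 5) (K [(54,13,3),(18,18,3),(43,19,2)]
  [])))) (P 10 (K [(3,9,28),(54,13,11),(53,18,62),(53,6,100)] []))) (P 7 (L 39 12))))))))) (A03 (M
  9 (P 0 (B02 (A02 (A01 (B01 (A03 (K [(18,18,5),(18,12,3)] []) (L 18 18)) (P 7 (L 39 12))) (B01 (L
  18 18) (S 4 (L 24 4) (L 2 15)))) (L 18 18)) (P 7 (L 39 12))))) (B02 (A23 (A02 (B01 (A01 (S 0 (L 3
  9) (L 40 9)) (S 0 (L 3 9) (L 40 9))) (M 9 (L 18 18))) (B01 (S 0 (L 3 9) (L 40 9)) (M 9 (L 18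
  18)))) (A13 (B01 (A01 (S 0 (L 3 9) (L 40 9)) (S 0 (L 3 9) (L 40 9))) (M 9 (L 18 18))) (S 0 (L 3
  9) (L 10 9)))) (S 0 (L 3 9) (L 10 9))))) (B12 (P 10 (M 1 (A13 (A12 (A01 (B01 (S 0 (L 3 9) (L 40
  9)) (M 9 (B12 (A03 (A02 (K [(53,18,4),(53,6,3)] []) (out 7)) (out 7)) (K
  [(53,18,13),(54,13,7),(53,6,4)] [])))) (out 7)) (A23 (B01 (S 0 (L 3 9) (L 40 9)) (M 9 (P 0 (B12
  (M 7 (P 4 (A02 (A01 (A03 (B01 (B02 (K [(53,18,5),(21,15,2),(21,5,1)] []) (A02 (K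
  [(16,12,1),(53,18,3),(21,5,1),(53,6,3)] []) (K [(21,15,3),(18,18,1),(21,5,4)] []))) (K
  [(21,5,9),(53,6,11),(53,18,4)] [])) (K [(21,5,3),(54,13,3),(53,18,2)] [])) (K
  [(21,5,3),(53,18,2),(54,13,3)] [])) (L 21 5)))) (A02 (K [(3,9,2),(54,13,28),(53,18,34)] []) (L 18
  18)))))) (B01 (S 0 (L 3 9) (L 40 9)) (M 9 (B12 (A03 (P 4 (A01 (K
  [(53,18,29),(21,5,8),(53,6,19),(54,13,7)] []) (out 7))) (out 7)) (K
  [(53,18,5),(54,13,3),(53,6,1)] [])))))) (A23 (A12 (B01 (S 0 (L 3 9) (L 40 9)) (M 9 (P 0 (S 4 (K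
  [(21,5,9),(53,18,29),(54,13,10),(53,6,15)] []) (K [(18,18,4),(54,13,3),(2,13,2)] []))))) (B01 (S
  0 (L 3 9) (L 40 9)) (M 9 (P 0 (B12 (A02 (A03 (M 7 (P 4 (A01 (B01 (B02 (K
  [(21,5,1),(53,18,5),(21,15,2)] []) (A02 (K [(21,5,1),(16,12,1),(53,6,3),(53,18,3)] []) (K
  [(21,15,3),(21,5,5)] []))) (K [(21,5,3),(53,6,3),(53,18,1)] [])) (L 21 5)))) (S 4 (L 21 5) (L 43
  5))) (S 4 (L 21 15) (L 43 5))) (A02 (K [(3,9,2),(54,13,28),(53,18,34)] []) (L 18 18))))))) (A03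
  (B01 (S 0 (L 3 9) (L 40 9)) (M 9 (P 0 (B12 (A01 (A02 (A03 (P 4 (K
  [(21,5,1),(53,18,4),(53,6,2),(54,13,1)] [])) (B01 (K [(0,9,4),(53,6,2),(54,13,1)] []) (K
  [(53,6,14),(53,18,9),(18,18,1)] []))) (S 4 (L 21 5) (K [(43,19,4),(2,15,20)] []))) (S 4 (L 21 5)
  (K [(18,18,3),(2,5,4),(18,12,1)] []))) (K [(54,13,2),(53,18,5),(53,6,2)] []))))) (B01 (S 0 (L 3
  9) (L 40 9)) (M 9 (P 0 (S 4 (L 21 5) (K [(18,18,6),(54,13,5),(51,19,6),(53,6,3),(2,5,4)]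
  [])))))))))) (A13 (B02 (S 0 (L 3 9) (L 40 9)) (A12 (S 0 (L 3 9) (L 40 9)) (A23 (M 9 (L 18 18)) (S
  0 (L 3 9) (L 40 9))))) (B02 (S 0 (L 3 9) (L 10 9)) (S 0 (L 3 9) (L 10 9)))))) (A23 (B12 (S 0 (L 3
  9) (L 40 9)) (A12 (B02 (S 0 (L 3 9) (L 40 9)) (A01 (A02 (B12 (P 10 (L 54 13)) (M 4 (L 43 15)))
  (out 7)) (out 7))) (B02 (S 0 (L 3 9) (L 40 9)) (A02 (A01 (B12 (P 10 (L 54 13)) (M 4 (L 43 15)))
  (out 7)) (out 2))))) (B12 (S 0 (L 3 9) (L 40 9)) (A13 (B02 (S 0 (L 3 9) (L 40 9)) (A01 (A03 (B12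
  (P 10 (L 54 13)) (S 0 (L 3 9) (L 10 9))) (out 7)) (out 7))) (B02 (S 0 (L 3 9) (L 10 9)) (S 0 (L 3
  9) (L 10 9)))))))))) (A23 (P 8 (M 5 (A02 (A03 (B12 (A01 (M 9 (P 0 (A02 (A03 (B01 (B02 (A01 (A02
  (A03 (B01 (L 18 18) (S 1 (L 7 16) (L 11 16))) (B01 (L 18 18) (S 1 (L 7 16) (L 11 16)))) (A12 (B01
  (L 18 18) (S 1 (L 7 16) (L 11 16))) (L 18 18))) (A12 (A13 (B01 (L 18 18) (B12 (A01 (A02 (A03 (B01
  (L 18 18) (S 1 (L 7 1) (L 11 16))) (S 4 (L 24 5) (L 2 15))) (S 4 (L 24 5) (L 2 15))) (S 4 (L 24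
  5) (L 2 15))) (L 18 18))) (B01 (L 18 18) (S 1 (L 7 16) (L 11 16)))) (A02 (B01 (L 18 18) (S 1 (L 7
  16) (L 11 16))) (L 18 18)))) (S 1 (L 7 16) (L 11 16))) (S 1 (L 7 16) (L 11 16))) (B01 (L 18 18)
  (S 1 (L 7 16) (L 11 16)))) (A12 (B01 (L 18 18) (S 1 (L 7 16) (L 11 16))) (S 4 (L 21 15) (L 43
  15)))))) (A12 (A13 (B01 (S 0 (L 3 9) (L 40 9)) (M 9 (B12 (A01 (A02 (A03 (B01 (P 7 (K
  [(39,12,6),(39,2,2)] [])) (S 1 (L 7 1) (L 11 16))) (B01 (L 18 18) (S 1 (L 8 16) (L 11 16)))) (P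
  10 (K [(54,13,4),(18,18,3),(54,6,1)] []))) (P 10 (K [(54,13,4),(18,18,3),(54,6,1)] []))) (P 7 (L
  39 12))))) (B01 (S 0 (L 3 9) (L 40 9)) (S 1 (L 7 16) (L 11 16)))) (A02 (B01 (B02 (A03 (A01 (M 9
  (L 18 18)) (A13 (S 0 (L 3 9) (L 40 9)) (M 9 (L 18 18)))) (A13 (A01 (M 9 (L 18 18)) (S 0 (L 3 9)
  (L 40 9))) (M 9 (L 18 18)))) (M 9 (L 18 18))) (S 1 (L 7 16) (L 11 16))) (B01 (B02 (A23 (S 0 (L 3
  9) (L 40 9)) (A13 (S 0 (L 3 9) (L 40 9)) (M 9 (L 18 18)))) (M 9 (L 18 18))) (S 1 (L 7 16) (L 11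
  16)))))) (A01 (P 0 (S 4 (L 24 15) (L 2 15))) (B02 (A12 (S 0 (L 3 9) (L 10 9)) (A02 (S 0 (L 3 9)
  (L 40 9)) (B01 (A23 (S 0 (L 3 9) (L 40 9)) (S 0 (L 3 9) (L 10 9))) (M 9 (L 18 18))))) (S 0 (L 3
  9) (L 10 9))))) (B12 (A13 (A12 (A01 (B01 (S 0 (L 3 9) (L 10 9)) (M 9 (L 18 18))) (B01 (S 0 (L 3
  9) (L 10 9)) (M 9 (L 18 18)))) (A23 (B01 (B02 (A02 (A01 (A03 (M 9 (L 18 18)) (P 10 (L 54 13))) (S
  0 (L 3 9) (L 40 9))) (S 0 (L 3 9) (L 40 9))) (M 9 (L 18 18))) (M 9 (L 18 18))) (B01 (M 4 (L 43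
  15)) (M 9 (L 18 18))))) (A23 (A12 (B01 (M 4 (L 43 15)) (M 9 (L 18 18))) (B01 (B02 (A02 (A03 (A01
  (M 9 (L 18 18)) (P 10 (L 54 13))) (P 10 (L 54 13))) (P 10 (L 54 13))) (M 9 (L 18 18))) (M 9 (L 18
  18)))) (A03 (B01 (M 4 (L 43 15)) (M 9 (L 18 18))) (out 2)))) (A13 (B02 (A12 (S 0 (L 3 9) (L 10
  9)) (A23 (B01 (A02 (S 0 (L 3 9) (L 10 9)) (S 0 (L 3 9) (L 40 9))) (M 9 (L 18 18))) (S 0 (L 3 9)
  (L 10 9)))) (S 0 (L 3 9) (L 10 9))) (B02 (A23 (A12 (M 4 (L 43 15)) (B01 (A02 (M 4 (L 43 15)) (P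
  10 (L 54 13))) (M 9 (L 18 18)))) (M 4 (L 43 15))) (A23 (S 0 (L 3 9) (L 10 9)) (A03 (S 0 (L 3 9)
  (L 10 9)) (out 2))))))) (A12 (B12 (A13 (A01 (A03 (S 0 (L 3 9) (L 40 9)) (B01 (M 4 (L 43 15)) (B12
  (P 10 (L 54 13)) (M 4 (L 43 15))))) (A12 (B01 (S 0 (L 3 9) (L 10 9)) (B12 (S 0 (L 3 9) (L 40 9))
  (S 0 (L 3 9) (L 40 9)))) (B01 (S 0 (L 3 9) (L 40 9)) (B12 (S 0 (L 3 9) (L 40 9)) (S 0 (L 3 9) (L
  40 9)))))) (A03 (A01 (S 0 (L 3 9) (L 40 9)) (B01 (M 4 (L 43 15)) (B12 (P 10 (L 54 13)) (M 4 (L 43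
  15))))) (out 2))) (A13 (B02 (A01 (A03 (S 0 (L 3 9) (L 10 9)) (S 0 (L 3 9) (L 10 9))) (S 0 (L 3 9)
  (L 10 9))) (S 0 (L 3 9) (L 10 9))) (B02 (A03 (A01 (S 0 (L 3 9) (L 10 9)) (M 4 (L 43 15))) (out
  2)) (S 1 (L 8 16) (L 11 16))))) (B12 (A23 (S 0 (L 3 9) (L 40 9)) (A03 (S 0 (L 3 9) (L 40 9)) (out
  2))) (A23 (B02 (S 0 (L 3 9) (L 40 9)) (A02 (A03 (B12 (P 10 (L 54 13)) (M 4 (L 43 15))) (out 2))
  (out 2))) (B02 (A03 (S 0 (L 3 9) (L 40 9)) (out 2)) (M 4 (L 43 15))))))))) (A03 (P 8 (M 5 (A02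
  (B12 (A01 (M 9 (A03 (A02 (B01 (B02 (A01 (A03 (A02 (B01 (L 18 18) (S 1 (L 7 16) (L 11 1))) (B01 (L
  18 18) (S 1 (L 7 16) (L 11 16)))) (A13 (B01 (L 18 18) (S 1 (L 7 16) (L 11 16))) (L 18 18))) (A13
  (A12 (P 7 (M 4 (K [(39,12,22),(39,2,1),(43,5,2)] []))) (B01 (L 18 18) (S 1 (L 7 16) (L 11 16))))
  (A03 (B01 (L 18 18) (S 1 (L 7 16) (L 11 16))) (L 18 18)))) (S 1 (L 7 16) (L 11 16))) (S 1 (L 7
  16) (L 11 16))) (B01 (L 18 18) (S 1 (L 7 16) (L 11 16)))) (A13 (B01 (L 18 18) (S 1 (L 7 16) (L 11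
  16))) (L 18 18)))) (A13 (A12 (B01 (S 0 (L 3 9) (L 40 9)) (M 9 (S 1 (L 7 16) (K
  [(11,16,5),(18,18,3)] [])))) (B01 (S 0 (L 3 9) (L 40 9)) (S 1 (L 7 16) (L 11 16)))) (M 9 (A03
  (B01 (L 18 18) (S 1 (L 7 16) (L 11 16))) (L 18 18))))) (A01 (P 0 (S 4 (L 21 13) (L 2 15))) (S 0
  (L 3 9) (L 10 9)))) (B12 (A12 (A13 (A01 (B01 (S 0 (L 3 9) (L 10 9)) (M 9 (L 18 18))) (S 0 (L 3 9)
  (L 10 9))) (A23 (B01 (S 0 (L 3 9) (L 10 9)) (M 9 (L 18 18))) (M 9 (L 18 18)))) (A23 (A02 (B01 (M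
  4 (L 43 15)) (M 9 (L 18 18))) (out 2)) (A13 (B01 (M 4 (L 43 15)) (M 9 (L 18 18))) (M 9 (L 18
  18))))) (M 4 (A12 (S 0 (L 3 9) (L 10 9)) (B02 (A23 (L 43 15) (S 0 (L 3 9) (L 10 9))) (S 0 (K
  [(3,9,5),(3,1,3)] []) (L 10 9))))))))) (P 7 (M 4 (A13 (B12 (A12 (S 0 (L 3 9) (L 10 9)) (A02 (S 0
  (L 3 9) (L 10 9)) (out 2))) (A12 (B02 (S 0 (L 3 9) (L 10 9)) (A01 (S 0 (L 3 9) (L 10 9)) (A13 (S
  0 (L 3 9) (L 10 9)) (S 0 (L 3 9) (L 10 9))))) (B02 (A02 (S 0 (L 3 9) (L 10 9)) (out 2)) (A02 (S 0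
  (L 3 9) (L 10 9)) (out 2))))) (B12 (P 8 (A23 (A02 (M 10 (K [(43,15,5),(44,13,3)] [])) (out 2)) (M
  10 (A03 (S 0 (K [(3,9,4),(19,13,1),(43,15,1),(3,1,2)] []) (L 10 9)) (out 1))))) (A23 (B02 (P 8
  (A02 (M 10 (K [(19,13,103),(43,15,18),(44,13,80)] [])) (out 2))) (M 10 (A02 (A03 (B12 (P 8 (K
  [(19,13,2),(43,15,2),(44,13,4),(43,4,1)] [])) (A01 (M 9 (P 8 (K [(39,18,2),(18,18,5),(44,4,1)]
  []))) (S 0 (L 2 9) (L 10 9)))) (out 2)) (out 2)))) (M 10 (B02 (A03 (P 8 (S 0 (K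
  [(3,9,5),(43,15,3)] []) (L 10 9))) (out 1)) (A03 (A02 (B12 (P 8 (M 5 (K
  [(19,13,12),(38,3,1),(44,13,11)] []))) (S 5 (L 29 3) (L 38 3))) (out 1)) (out 1)))))))))))))))))

/-- its cell -/
def cD1 : Cell :=
  ⟨0, 0, 0, 1114112, 0, 0, 1114112, 0, 1114112, 1114112, 1114112, 1114112, 0, 0, 0, 3129344, 5070848, 0⟩

theorem okD1 : check datD tD1 cD1 0 0 = true := by
  decide +kernel

end Pool.Agent.H315.NW
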