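import Pool.Agent.H315.NW.Data

/-!
# Project NW (helper315): certificates (generated)
-/

set_option autoImplicit false
set_option maxRecDepth 100000

namespace Pool.Agent.H315.NW

open Tr

/-- a part of the certificate -/
def tD2 : Tr :=
  (M 11 (P 2 (A03 (A02 (M 9 (P 0 (A01 (P 8 (M 5 (A03 (A02 (B12 (A01 (A03 (out 9) (S 3 (L 18 12) (L
  42 12))) (A13 (out 11) (A03 (out 11) (B01 (B02 (S 1 (L 7 9) (L 0 9)) (M 10 (L 44 18))) (M 10 (L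
  44 18)))))) (A01 (B02 (S 1 (L 7 9) (L 0 9)) (M 10 (L 44 18))) (B02 (A13 (out 11) (A03 (out 11)
  (B01 (S 1 (L 7 9) (L 11 9)) (M 10 (L 44 18))))) (M 10 (L 44 18))))) (B12 (A12 (A13 (out 11) (A23
  (out 11) (B01 (B02 (S 1 (L 7 9) (L 0 9)) (M 10 (L 44 18))) (M 10 (L 44 18))))) (A23 (A02 (M 10 (L
  44 18)) (B01 (S 1 (L 7 9) (L 11 9)) (M 10 (L 44 18)))) (A13 (M 10 (L 44 18)) (B01 (B02 (S 1 (L 7
  9) (L 0 9)) (M 10 (L 44 18))) (M 10 (L 44 18)))))) (A12 (B02 (A13 (out 11) (A23 (out 11) (B01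
  (A03 (out 11) (B02 (P 4 (L 24 13)) (M 10 (L 44 18)))) (M 10 (L 44 18))))) (M 10 (L 44 18))) (S 1
  (L 7 9) (L 11 9))))) (A13 (B12 (A12 (A01 (A02 (B01 (B02 (A03 (P 4 (L 24 13)) (M 10 (L 44 18))) (S
  3 (L 18 12) (L 12 12))) (S 3 (L 18 12) (L 42 12))) (S 3 (L 18 12) (L 42 12))) (S 4 (L 24 13) (L 2
  13))) (A02 (A01 (B01 (B02 (A03 (P 4 (L 24 13)) (M 10 (L 44 18))) (S 3 (L 18 12) (L 12 12))) (S 3
  (L 18 12) (L 12 12))) (S 3 (L 18 12) (L 12 12))) (A23 (B01 (S 1 (L 7 9) (L 11 9)) (M 10 (L 44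
  18))) (S 3 (L 18 12) (L 12 12))))) (A12 (B02 (A01 (A02 (B01 (A03 (B02 (P 4 (L 24 13)) (M 10 (L 44
  18))) (M 10 (L 44 18))) (S 3 (L 18 12) (L 12 12))) (S 4 (L 24 13) (L 2 13))) (S 4 (L 24 13) (L 2
  13))) (M 10 (A01 (A02 (S 3 (L 18 12) (L 12 12)) (B12 (S 4 (L 24 13) (L 2 13)) (P 3 (K
  [(18,12,2),(19,12,5)] [])))) (A13 (out 11) (B12 (S 4 (L 24 13) (L 2 13)) (P 3 (K
  [(18,12,2),(19,12,6)] []))))))) (P 3 (B02 (S 4 (L 24 13) (L 43 13)) (M 10 (K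
  [(18,12,14),(44,18,28),(19,12,6),(19,18,16)] [])))))) (B12 (A23 (A02 (A03 (B01 (B02 (A01 (P 4 (L
  24 13)) (A12 (A13 (M 10 (L 44 18)) (P 4 (L 24 13))) (P 4 (L 24 13)))) (S 3 (L 18 12) (L 12 12)))
  (S 3 (L 18 12) (L 12 12))) (B01 (P 3 (L 18 12)) (S 3 (L 18 12) (L 12 12)))) (A12 (B01 (P 3 (L 18
  12)) (S 3 (L 18 12) (L 12 12))) (P 3 (L 18 12)))) (A03 (A02 (B01 (B02 (A01 (S 1 (L 7 9) (L 11 9))
  (A13 (A12 (M 10 (L 44 18)) (P 4 (L 24 13))) (S 1 (L 7 9) (L 11 9)))) (S 3 (L 18 12) (L 12 12)))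
  (S 3 (L 18 12) (L 12 12))) (B01 (P 3 (L 18 12)) (S 3 (L 18 12) (L 12 12)))) (A13 (B01 (P 3 (L 18
  12)) (S 3 (L 18 12) (L 12 12))) (B01 (P 3 (L 18 12)) (S 3 (L 18 12) (L 42 12)))))) (S 4 (L 24 13)
  (L 43 13))))))) (A13 (A12 (M 10 (B12 (A01 (A03 (out 11) (S 3 (L 18 12) (L 12 12))) (S 3 (L 19 12)
  (L 12 12))) (A01 (S 3 (L 19 12) (L 12 12)) (S 3 (L 19 12) (L 12 12))))) (P 8 (M 5 (B12 (A02 (A03
  (out 11) (S 3 (L 18 12) (L 12 12))) (A23 (A12 (S 3 (L 18 12) (L 12 12)) (B01 (S 4 (L 24 13) (L 2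
  13)) (S 4 (L 24 13) (L 2 13)))) (S 3 (L 18 12) (L 12 12)))) (A02 (M 10 (S 3 (L 19 12) (L 12 12)))
  (M 6 (P 3 (B02 (A23 (S 4 (L 24 13) (L 2 13)) (M 10 (K [(18,12,3),(19,12,2),(44,18,3)] []))) (M 10
  (M 4 (P 1 (A23 (K [(2,13,73),(19,12,4),(43,6,16),(18,3,38),(43,13,8),(18,12,61)] []) (A03 (K
  [(19,12,2),(7,9,2),(18,12,2),(44,6,1),(18,3,1)] []) (K
  [(8,15,1),(44,6,1),(3,15,3),(43,6,1),(44,18,2)] [])))))))))))))) (P 8 (M 5 (A03 (B12 (A02 (A01 (S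
  4 (L 24 13) (L 2 13)) (S 3 (L 18 12) (L 12 12))) (A12 (S 3 (L 18 12) (L 12 12)) (A23 (B01 (S 4 (L
  24 13) (L 2 13)) (S 4 (L 24 13) (L 2 13))) (S 3 (L 18 12) (L 12 12))))) (A02 (M 10 (B02 (A01 (S 4
  (L 24 13) (L 2 13)) (P 3 (K [(18,12,3),(19,12,4),(44,18,1)] []))) (S 3 (K [(19,12,6),(18,12,2)]
  []) (L 12 12)))) (P 3 (B02 (S 4 (L 24 13) (L 43 13)) (M 10 (M 4 (P 1 (A12 (K
  [(19,12,13),(43,13,4),(44,6,1),(19,18,7)] []) (K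
  [(43,13,2),(7,9,27),(19,12,9),(19,18,5),(44,6,22)] []))))))))) (B12 (A23 (A12 (A13 (S 3 (L 18 12)
  (L 12 12)) (B01 (P 3 (L 18 12)) (S 3 (L 18 12) (L 12 12)))) (A02 (B01 (P 3 (L 18 12)) (S 3 (L 18
  12) (L 12 12))) (P 3 (L 18 12)))) (A13 (A12 (S 3 (L 18 12) (L 12 12)) (B01 (P 3 (L 18 12)) (S 3
  (L 18 12) (L 12 12)))) (A03 (B01 (P 3 (L 18 12)) (S 3 (L 18 12) (L 12 12))) (P 3 (L 18 12))))) (S
  4 (L 24 13) (L 43 13)))))))))) (A12 (A13 (A01 (B12 (M 9 (P 8 (M 5 (P 0 (A02 (A03 (A01 (M 6 (P 3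
  (B01 (B02 (L 18 12) (M 10 (K [(3,15,3),(19,12,5)] []))) (M 10 (K
  [(3,15,1),(44,18,2),(19,12,5),(44,6,1)] []))))) (M 10 (M 4 (P 1 (K [(7,9,5),(43,13,2),(44,6,2)]
  []))))) (M 10 (P 1 (S 3 (K [(18,12,3),(19,12,4),(7,9,1)] []) (L 12 12))))) (M 10 (S 3 (K
  [(19,12,3),(18,12,4)] []) (L 12 12)))))))) (M 6 (P 3 (A02 (P 8 (M 5 (B02 (M 9 (P 0 (A03 (A01 (B01
  (S 1 (L 7 9) (L 11 9)) (M 10 (M 4 (P 1 (K [(7,9,1),(43,13,5),(18,12,8),(19,12,10)] []))))) (M 10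
  (M 4 (K [(44,18,1),(19,12,4),(3,15,1),(43,13,3)] [])))) (M 10 (P 7 (M 4 (K
  [(3,15,3),(44,18,5),(19,12,1),(39,16,7),(43,13,6),(44,6,2)] []))))))) (M 10 (M 4 (A03 (K
  [(44,18,5),(19,12,7),(43,6,4),(43,13,8)] []) (K
  [(44,6,8),(43,6,3),(19,12,12),(43,13,22),(44,18,20)] []))))))) (M 10 (P 7 (M 4 (P 1 (B02 (P 8 (M
  5 (S 0 (K [(19,12,2),(3,15,5),(7,9,11),(43,13,1),(19,18,1),(44,6,4)] []) (L 10 4)))) (A23 (out 6)
  (A03 (B12 (M 9 (P 8 (K [(19,12,2),(39,16,2),(18,12,1),(43,13,2),(44,18,1)] []))) (A01 (B02 (M 9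
  (P 8 (K [(43,6,1),(43,13,2),(19,18,3),(39,16,3)] []))) (S 0 (L 2 4) (L 10 4))) (M 9 (P 0 (K
  [(2,4,1),(2,13,4),(18,12,3)] []))))) (M 9 (P 0 (K [(19,12,10),(3,15,2),(39,16,4),(19,18,8)]
  [])))))))))))))) (M 10 (P 1 (B12 (M 9 (A12 (S 3 (L 19 12) (L 12 12)) (A23 (out 6) (A13 (out 6) (S
  3 (L 18 12) (L 12 12)))))) (M 6 (P 3 (A12 (L 19 12) (B02 (A23 (out 6) (M 9 (K
  [(8,15,4),(18,12,4)] []))) (A23 (out 6) (K [(19,12,5),(19,18,3)] [])))))))))) (A23 (B12 (M 9 (A02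
  (A01 (P 3 (L 18 12)) (S 3 (L 18 12) (L 12 12))) (S 3 (L 18 12) (L 12 12)))) (M 6 (P 3 (A02 (P 8
  (B02 (M 9 (L 18 12)) (M 10 (M 4 (K [(43,13,7),(19,18,1)] []))))) (P 7 (B02 (S 0 (L 3 15) (L 10
  4)) (A12 (S 5 (L 29 1) (L 38 16)) (A23 (out 6) (S 5 (L 29 1) (L 38 16)))))))))) (M 9 (P 8 (B12
  (A03 (A01 (P 3 (L 18 12)) (A13 (M 4 (L 43 13)) (P 3 (L 18 12)))) (A13 (A01 (P 3 (L 18 12)) (S 3
  (L 18 12) (L 12 12))) (P 3 (L 18 12)))) (S 4 (L 24 13) (L 43 13))))))) (M 6 (P 3 (A23 (A02 (B12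
  (M 9 (P 8 (M 5 (P 0 (A01 (A03 (A02 (B01 (B02 (S 1 (L 7 9) (L 11 9)) (M 10 (K
  [(44,18,1),(18,12,4),(44,6,1),(19,12,2)] []))) (M 10 (P 7 (K
  [(44,18,4),(38,16,1),(3,15,1),(44,6,3)] [])))) (P 7 (S 1 (K [(7,9,3),(38,16,2),(7,1,2)] []) (L 11
  9)))) (M 4 (A13 (S 1 (K [(7,9,2),(43,13,3),(7,1,1)] []) (L 11 9)) (K [(3,15,3),(43,13,5)] []))))
  (P 7 (M 4 (A13 (out 6) (A03 (S 1 (K [(18,12,3),(43,13,15),(7,9,4),(7,1,1),(39,10,1)] []) (L 11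
  9)) (K [(18,12,3),(43,13,5)] [])))))))))) (A01 (B02 (A03 (A02 (M 9 (L 18 12)) (S 0 (L 3 15) (L 10
  15))) (S 0 (L 3 15) (L 10 15))) (S 0 (L 3 15) (L 10 4))) (B02 (S 0 (L 3 15) (L 10 4)) (S 0 (L 3
  15) (L 10 4))))) (M 4 (B12 (P 8 (A12 (A13 (out 6) (A23 (out 6) (B01 (S 0 (L 3 15) (L 10 15)) (L
  43 13)))) (A23 (out 5) (A13 (out 5) (S 1 (L 8 9) (L 11 9)))))) (A12 (B02 (S 0 (L 3 15) (L 10 4))
  (S 0 (L 3 15) (L 10 4))) (B02 (S 1 (L 8 9) (L 11 9)) (A23 (out 5) (M 10 (L 19 18)))))))) (A13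
  (B12 (M 9 (L 18 12)) (A01 (B02 (A02 (M 9 (L 18 12)) (S 0 (L 3 15) (L 10 15))) (S 0 (L 3 15) (L 10
  4))) (S 0 (L 3 15) (L 10 4)))) (P 8 (B12 (M 9 (P 0 (A03 (L 18 12) (A23 (L 18 12) (A13 (L 18 12)
  (B01 (L 18 12) (M 10 (K [(3,15,2),(19,18,2),(44,6,4)] [])))))))) (A03 (B02 (A02 (M 9 (L 18 12))
  (A23 (M 4 (L 43 13)) (M 9 (L 18 12)))) (M 10 (L 19 18))) (B02 (A23 (A02 (M 9 (L 18 12)) (M 10 (L
  19 18))) (M 9 (L 18 12))) (M 4 (L 43 13)))))))))))) (A13 (A12 (A01 (A02 (P 0 (B12 (A03 (A01 (M 6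
  (S 1 (L 8 9) (L 0 16))) (M 10 (S 3 (L 19 18) (L 12 12)))) (M 10 (A13 (S 3 (L 19 18) (L 12 12)) (S
  3 (L 19 18) (L 12 18))))) (M 6 (P 3 (A03 (S 1 (L 8 9) (L 0 16)) (M 10 (L 19 18))))))) (M 10 (P 7
  (B12 (M 9 (A23 (S 3 (L 18 12) (L 12 12)) (A13 (S 3 (L 18 12) (L 12 12)) (S 3 (L 19 18) (L 12
  18))))) (M 6 (P 3 (A23 (B02 (S 0 (L 3 15) (L 10 4)) (S 5 (L 29 1) (L 38 16))) (L 19 18)))))))) (M
  10 (P 7 (P 1 (A13 (B12 (M 9 (A12 (S 3 (L 19 12) (L 12 12)) (A02 (A01 (S 3 (L 18 12) (L 12 12))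
  (out 6)) (out 6)))) (P 3 (A12 (L 19 12) (B02 (A02 (M 9 (K [(19,12,4),(18,12,4),(39,3,1)] []))
  (out 6)) (S 5 (L 29 1) (L 7 1)))))) (B12 (M 9 (A23 (S 3 (L 18 12) (L 12 12)) (A03 (S 3 (L 18 12)
  (L 12 12)) (S 3 (L 19 18) (L 12 18))))) (M 6 (P 3 (A23 (B02 (S 0 (L 3 15) (L 10 4)) (S 5 (L 29 1)
  (L 7 1))) (L 19 18)))))))))) (M 6 (P 3 (A02 (A01 (B12 (P 0 (A03 (A02 (S 1 (L 8 9) (L 0 16)) (M 10
  (A23 (L 19 18) (L 19 18)))) (M 10 (A23 (A02 (L 19 18) (L 19 18)) (L 19 18))))) (A03 (P 8 (B02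
  (A02 (P 0 (S 1 (L 8 9) (L 0 16))) (M 10 (M 4 (K [(19,18,7),(43,13,1)] [])))) (M 10 (M 4 (K
  [(43,13,3),(19,18,2),(44,13,3)] []))))) (M 10 (P 7 (M 4 (B02 (A23 (P 8 (K [(43,13,1),(19,18,7)]
  [])) (L 19 18)) (S 5 (L 29 16) (L 38 16)))))))) (M 10 (P 7 (B12 (M 9 (A13 (L 18 12) (A23 (A12 (L
  19 18) (L 19 18)) (L 19 18)))) (A13 (S 0 (L 3 15) (L 10 4)) (B02 (A23 (L 19 18) (L 19 18)) (S 5
  (L 29 16) (L 38 16)))))))) (M 4 (A23 (B12 (A12 (A01 (S 0 (L 3 15) (L 10 15)) (out 6)) (A02 (A01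
  (B01 (B02 (S 0 (L 3 15) (L 10 15)) (M 10 (L 19 18))) (M 10 (L 19 18))) (out 6)) (out 1))) (A12 (S
  0 (L 3 15) (L 10 4)) (B02 (A02 (A01 (B01 (P 8 (L 43 13)) (M 10 (L 19 18))) (out 6)) (out 1)) (A02
  (M 10 (L 19 18)) (out 1))))) (M 10 (B12 (A13 (A01 (A03 (S 0 (L 3 15) (L 10 15)) (out 6)) (out 6))
  (A03 (A01 (L 19 18) (L 19 18)) (L 19 18))) (A13 (S 0 (L 3 15) (L 10 4)) (B02 (A03 (L 19 18) (L 19
  18)) (S 0 (L 2 15) (L 10 15)))))))))))) (M 6 (P 3 (A23 (A02 (A03 (B12 (M 9 (P 0 (A01 (P 8 (A02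
  (A03 (B01 (B02 (A01 (A02 (A03 (S 1 (L 8 9) (L 0 16)) (M 10 (P 7 (K
  [(19,18,36),(39,12,23),(19,6,5)] [])))) (M 10 (P 7 (K [(19,18,16),(39,12,8)] [])))) (M 10 (P 7 (K
  [(19,18,16),(39,12,8)] [])))) (M 10 (S 4 (L 24 5) (K [(19,18,129),(2,15,60),(19,6,11)] [])))) (M
  10 (P 1 (B12 (A01 (A02 (A03 (K [(19,18,6),(19,6,1),(44,13,1)] []) (B01 (B02 (S 4 (L 24 5) (K
  [(2,5,4),(19,18,29),(19,6,17),(2,15,14)] [])) (S 4 (L 24 5) (K [(2,5,1),(19,6,13),(19,18,10)]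
  []))) (S 4 (L 24 5) (K [(2,5,1),(19,6,4),(19,18,3)] [])))) (A12 (B01 (P 7 (B02 (A13 (L 19 18) (K
  [(39,2,5),(19,18,29),(19,6,18),(39,12,12)] [])) (K [(19,18,10),(39,2,1),(19,6,13)] []))) (S 4 (L
  24 5) (K [(2,5,1),(19,18,10),(19,6,13)] []))) (B01 (P 7 (B02 (A23 (L 19 18) (A03 (L 19 18) (K
  [(19,18,29),(39,2,5),(19,6,18),(39,12,12)] []))) (K [(8,9,3),(19,6,5)] []))) (K
  [(19,18,3),(19,6,5)] [])))) (A12 (A13 (L 19 18) (B01 (P 7 (B02 (A03 (L 19 18) (A23 (L 19 18) (K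
  [(39,2,3),(19,18,10),(39,12,7),(19,6,4)] []))) (K [(19,18,11),(39,2,1),(19,6,8),(39,12,4)] [])))
  (S 4 (L 24 5) (K [(2,5,1),(19,18,3),(19,6,4)] [])))) (A02 (B01 (P 7 (B02 (K
  [(19,18,29),(39,2,5),(19,6,18),(39,12,12)] []) (K [(19,18,10),(39,2,1),(19,6,13)] []))) (S 4 (L
  24 5) (K [(2,5,1),(19,18,9),(19,6,13)] []))) (P 7 (B01 (B02 (A23 (L 19 18) (K
  [(19,18,29),(39,2,5),(19,6,19),(39,12,12)] [])) (K [(19,18,3),(19,6,5)] [])) (K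
  [(19,18,3),(19,6,5)] [])))))) (A01 (B02 (A02 (A03 (K [(19,18,6),(44,13,2)] []) (P 7 (M 4 (B01 (K
  [(19,18,30),(19,6,16),(2,15,15),(39,2,3)] []) (K [(19,6,4),(19,18,4)] []))))) (P 7 (A12 (B01 (K
  [(19,18,106),(19,6,42),(39,12,51)] []) (K [(19,18,4),(19,6,4)] [])) (K
  [(19,18,379),(19,6,483),(39,12,138)] [])))) (K [(19,6,4),(19,18,4)] [])) (P 7 (B02 (A12 (K
  [(19,18,4),(39,12,3),(19,6,1)] []) (A02 (K [(19,18,13),(19,6,5),(39,12,7)] []) (B01 (K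
  [(19,18,34),(19,6,14),(39,12,16)] []) (K [(19,18,3),(19,6,5)] [])))) (K
  [(19,18,38),(44,13,15),(19,6,11)] [])))))))) (M 10 (P 7 (M 4 (P 1 (B01 (B02 (K
  [(39,12,73),(19,18,127)] []) (A13 (K [(39,12,23),(19,18,41)] []) (K [(39,12,11),(19,18,13)] [])))
  (B12 (A13 (A12 (A01 (B01 (B02 (A03 (A02 (K [(39,2,3),(39,12,8),(19,18,10),(19,6,4)] []) (K
  [(19,18,35),(39,2,6),(39,12,23)] [])) (K [(19,18,35),(39,12,23),(39,2,6)] [])) (A03 (B12 (A02 (K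
  [(39,2,2),(8,1,6),(39,12,7),(19,18,9)] []) (K [(19,18,12),(39,2,2),(19,6,3),(39,12,7)] [])) (K
  [(19,6,3),(39,12,2),(19,18,4)] [])) (K [(19,18,12),(39,12,7),(19,6,3),(39,2,2)] []))) (K
  [(39,2,3),(19,6,10),(19,18,9),(39,12,2)] [])) (K [(19,18,5),(39,2,1),(39,12,2)] [])) (A23 (B01
  (B02 (A02 (K [(19,18,29),(19,6,19),(39,2,5),(39,12,12)] []) (L 19 18)) (K [(19,18,3),(19,6,5)]
  [])) (K [(19,18,3),(19,6,5)] [])) (B01 (B02 (A03 (A01 (A02 (K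
  [(39,2,3),(19,18,10),(19,6,4),(39,12,8)] []) (K [(19,18,517),(19,6,128),(39,2,84),(39,12,272)]
  [])) (K [(19,18,517),(39,2,84),(19,6,128),(39,12,271)] [])) (K
  [(19,18,517),(39,12,271),(39,2,84),(19,6,128)] [])) (A03 (B12 (A01 (K
  [(19,6,15),(39,2,2),(19,18,5),(39,12,2)] []) (K [(19,18,85),(19,6,64),(39,2,14),(39,12,37)] []))
  (K [(19,6,3),(19,18,4),(39,12,2)] [])) (K [(19,18,453),(19,6,262),(2,15,211),(39,2,75)] []))) (K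
  [(39,2,3),(19,6,10),(19,18,9),(39,12,2)] [])))) (A23 (A12 (B01 (B02 (A01 (A03 (A02 (B01 (K
  [(39,12,22),(19,6,11),(19,18,23),(39,2,7)] []) (K [(39,2,1),(19,6,2),(2,15,2),(19,18,2)] []))
  (B01 (K [(19,18,30),(19,6,5),(39,12,24),(39,2,5)] []) (B12 (K
  [(39,2,8),(19,18,8),(19,6,7),(39,12,2)] []) (A12 (K [(19,6,14),(19,18,24),(39,12,19),(39,2,7)]
  []) (K [(19,18,5),(19,6,3)] []))))) (A13 (B01 (K [(19,18,30),(39,12,24),(8,1,5),(39,2,5)] [])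
  (B12 (A12 (K [(39,2,4),(19,6,5),(19,18,8),(39,12,7)] []) (K [(19,18,5),(19,6,3)] [])) (A12 (K
  [(19,6,42),(39,12,63),(19,18,69),(39,2,27)] []) (K [(19,18,5),(19,6,3)] [])))) (K
  [(19,18,4),(19,6,3)] []))) (A13 (A12 (B01 (K [(39,12,4),(19,18,4)] []) (B12 (K
  [(39,2,32),(39,12,62),(8,9,73),(19,6,33)] []) (K [(39,12,5),(19,18,3)] []))) (B01 (K
  [(19,18,4),(39,12,3),(39,2,1)] []) (B12 (A02 (K [(39,2,32),(19,18,73),(19,6,34),(39,12,61)] [])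
  (L 19 18)) (K [(19,18,13),(39,12,9),(19,6,1)] [])))) (A03 (B01 (K [(19,18,13),(39,12,9),(39,2,2)]
  []) (B12 (A02 (A01 (K [(39,2,4),(19,6,5),(19,18,8),(39,12,7)] []) (K
  [(39,2,9),(19,18,24),(19,6,13),(39,12,18)] [])) (K [(19,18,5),(19,6,3)] [])) (K
  [(19,18,495),(19,6,141),(39,12,364)] []))) (K [(19,18,5),(19,6,3)] [])))) (A01 (K
  [(19,6,20),(19,18,3),(39,2,1)] []) (B12 (A13 (A12 (K [(2,15,6),(19,6,8),(19,18,7),(39,2,3)] [])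
  (K [(19,6,10),(19,18,8),(39,12,4),(39,2,2)] [])) (K [(19,6,20),(19,18,3),(39,2,1)] [])) (K
  [(19,6,4),(39,12,1),(19,18,2)] [])))) (K [(19,6,13),(39,2,4),(19,18,6),(39,12,1)] [])) (K
  [(19,6,12),(19,18,8),(39,2,2),(39,12,2)] [])) (A03 (B01 (B02 (A01 (A02 (K
  [(39,12,377),(19,6,222),(39,2,148),(19,18,253)] []) (A12 (B01 (K
  [(39,12,10),(19,6,4),(19,18,8),(39,2,2)] []) (K [(19,6,46),(39,12,67),(39,2,33),(19,18,55)] []))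
  (K [(19,6,4),(39,12,2),(19,18,2)] []))) (A12 (A13 (B01 (L 39 12) (B12 (A01 (A02 (K
  [(39,12,6),(39,2,2)] []) (A12 (K [(39,12,6),(39,2,2)] []) (B01 (K
  [(39,12,10),(39,2,3),(19,18,11)] []) (K [(39,2,33),(39,12,63),(19,6,38),(19,18,66)] [])))) (A12
  (K [(39,12,6),(39,2,2)] []) (A02 (K [(39,12,6),(39,2,2)] []) (B01 (K
  [(39,12,10),(19,18,11),(39,2,3)] []) (K [(39,12,63),(39,2,33),(19,6,38),(19,18,66)] []))))) (L 39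
  12))) (B01 (L 39 12) (B12 (A03 (A02 (K [(39,12,6),(39,2,2)] []) (A23 (B01 (K
  [(39,12,11),(39,2,3),(19,18,10)] []) (K [(39,2,33),(39,12,63),(19,6,38),(19,18,66)] [])) (K
  [(39,12,6),(39,2,2)] []))) (A23 (A02 (K [(39,12,6),(39,2,2)] []) (B01 (B02 (K
  [(39,12,4),(39,2,2),(19,18,3)] []) (A12 (L 39 12) (K
  [(39,12,330),(19,6,184),(19,18,335),(39,2,152)] []))) (B12 (K [(39,2,4),(19,6,3),(19,18,1)] [])
  (A12 (L 39 12) (K [(39,12,321),(19,6,194),(39,2,155),(19,18,330)] []))))) (K [(39,12,5),(39,2,3)]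
  []))) (L 39 12)))) (A02 (B01 (K [(39,12,4),(19,6,1),(19,18,3)] []) (B12 (A03 (A01 (K
  [(39,2,4),(39,12,8),(19,6,5),(19,18,7)] []) (A13 (B01 (K
  [(39,12,20),(19,6,12),(19,18,23),(39,2,9)] []) (K [(39,2,9),(19,6,14),(19,18,22),(39,12,18)] []))
  (K [(39,2,4),(39,12,8),(19,6,5),(19,18,7)] []))) (A13 (A01 (K
  [(39,12,8),(19,6,5),(39,2,4),(19,18,7)] []) (B01 (K [(39,12,63),(19,6,40),(19,18,66),(39,2,30)]
  []) (K [(19,6,28),(39,2,10),(2,15,8),(19,18,18)] []))) (K [(39,12,8),(19,6,7),(39,2,3),(19,18,6)]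
  []))) (K [(39,12,4),(19,6,1),(19,18,3)] []))) (B01 (K [(39,12,3),(19,6,2),(19,18,3)] []) (B12
  (A23 (K [(19,6,3),(19,18,5)] []) (A13 (A12 (B01 (K
  [(19,6,203),(39,12,314),(19,18,331),(39,2,152)] []) (K [(19,6,14),(39,2,4),(19,18,6)] [])) (K
  [(19,6,4),(39,12,2),(19,18,2)] [])) (K [(19,6,4),(39,12,2),(19,18,2)] []))) (K
  [(19,6,2),(39,12,3),(19,18,3)] [])))))) (A01 (L 19 6) (B12 (A12 (K [(2,15,7),(19,6,14),(39,2,4)]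
  []) (L 19 6)) (K [(39,12,3),(19,6,5)] [])))) (K [(19,6,5),(39,2,2),(39,12,1)] [])) (B01 (B02 (A13
  (A12 (A01 (B01 (L 39 12) (B12 (A03 (A02 (K [(39,12,5),(39,2,3)] []) (A23 (B01 (B02 (K
  [(39,12,4),(39,2,2),(19,18,3)] []) (A12 (L 39 12) (B12 (K
  [(39,12,356),(19,6,145),(39,2,172),(19,18,327)] []) (L 39 12)))) (B12 (K [(39,2,5),(19,6,3)] [])
  (A12 (L 39 12) (B02 (A02 (L 39 12) (A23 (K [(39,12,20),(19,6,12),(39,2,11),(19,18,21)] []) (L 39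
  12))) (L 19 6))))) (K [(39,12,5),(39,2,3)] []))) (A23 (A02 (L 39 12) (B01 (K
  [(39,12,11),(19,18,10),(39,2,3)] []) (B12 (A12 (K [(39,12,5),(39,2,3)] []) (A23 (K
  [(39,2,14),(19,6,13),(39,12,19),(19,18,18)] []) (K [(39,12,5),(39,2,3)] []))) (A12 (L 39 12) (B02
  (A23 (A02 (L 39 12) (K [(39,12,21),(19,6,12),(2,5,10),(19,18,22)] [])) (L 39 12)) (L 19 6))))))
  (L 39 12))) (L 39 12))) (B01 (L 39 12) (B12 (A13 (A12 (K [(39,12,6),(39,2,2)] []) (A23 (B01 (K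
  [(39,12,10),(19,18,11),(39,2,3)] []) (K [(39,12,63),(39,2,33),(19,6,38),(19,18,66)] [])) (K
  [(39,12,6),(39,2,2)] []))) (A23 (A12 (L 39 12) (B01 (K [(39,12,27),(19,18,29),(39,2,7)] []) (B12
  (A02 (K [(39,12,5),(39,2,3)] []) (A23 (K [(39,2,11),(39,12,20),(19,6,12),(19,18,21)] []) (K
  [(39,12,5),(39,2,3)] []))) (A02 (L 39 12) (B02 (A23 (K [(39,12,21),(19,6,12),(2,5,9),(19,18,22)]
  []) (L 39 12)) (K [(39,12,2),(19,6,4),(19,18,2)] [])))))) (L 39 12))) (L 39 12)))) (A23 (B01 (K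
  [(39,12,4),(19,6,1),(19,18,3)] []) (B12 (A02 (A01 (K [(19,6,5),(39,12,3)] []) (A12 (B01 (K
  [(39,12,314),(19,6,203),(19,18,331),(39,2,152)] []) (K [(19,6,14),(39,2,4),(19,18,6)] [])) (K
  [(19,6,5),(39,12,2),(19,18,1)] []))) (K [(19,6,10),(19,18,14)] [])) (K
  [(39,12,4),(19,6,1),(19,18,3)] []))) (B01 (L 39 12) (B12 (A03 (A01 (K [(39,12,3),(19,6,5)] [])
  (A13 (B01 (B02 (A12 (K [(39,12,366),(19,6,121),(19,18,343),(39,2,170)] []) (K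
  [(39,12,7),(19,6,12),(19,18,5)] [])) (A12 (B12 (A01 (K [(2,15,1),(19,6,6),(39,2,1)] []) (K
  [(39,12,23),(19,6,8),(19,18,22),(39,2,10)] [])) (L 39 12)) (K [(2,15,1),(19,6,7)] []))) (B12 (K
  [(19,6,31),(39,2,32),(19,18,1)] []) (A12 (B02 (A01 (K [(2,15,1),(19,6,6),(39,2,1)] []) (A13 (K
  [(19,6,13),(2,15,20),(19,18,21),(39,2,11)] []) (K [(39,12,1),(19,6,4),(39,2,2)] []))) (L 19 6))
  (K [(2,15,1),(19,6,7)] [])))) (K [(39,12,4),(19,6,4)] []))) (A13 (A01 (K [(39,12,4),(19,6,4)] [])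
  (B01 (B02 (A12 (K [(39,12,23),(19,18,22),(19,6,8),(39,2,11)] []) (K
  [(39,12,3),(19,6,4),(19,18,1)] [])) (A12 (K [(39,12,382),(19,6,102),(19,18,361),(39,2,154)] [])
  (K [(39,12,7),(19,6,17)] []))) (B12 (A12 (A13 (A01 (K [(39,2,5),(19,6,5),(39,12,8),(19,18,7)] [])
  (K [(39,2,35),(19,6,40),(19,18,63),(39,12,62)] [])) (K
  [(39,12,21),(39,2,12),(19,6,13),(19,18,18)] [])) (K [(19,6,17),(39,12,7)] [])) (A12 (B02 (A13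
  (A01 (K [(39,12,22),(19,6,12),(39,2,9),(19,18,20)] []) (K
  [(39,12,64),(19,6,38),(19,18,68),(39,2,29)] [])) (K [(39,12,10),(19,6,5),(19,18,8)] [])) (L 19
  6)) (K [(39,12,7),(19,6,17)] []))))) (K [(39,12,4),(19,6,4)] []))) (L 39 12))))) (K
  [(39,12,3),(19,6,4),(19,18,1)] [])) (A13 (B12 (A12 (K [(2,15,7),(19,6,14),(39,2,4)] []) (K
  [(19,6,6),(39,12,1),(39,2,1)] [])) (K [(39,12,3),(19,6,5)] [])) (K [(39,12,2),(19,6,4),(39,2,2)]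
  []))) (K [(8,1,5),(39,12,1),(39,2,2)] []))))) (A13 (B02 (A12 (K [(39,12,3),(19,18,4),(19,6,1)]
  []) (A23 (B01 (K [(19,18,34),(19,6,14),(39,12,16)] []) (K [(19,18,3),(19,6,5)] [])) (K
  [(39,12,3),(19,18,4),(19,6,1)] []))) (K [(39,12,1),(44,13,14),(19,18,37),(19,6,11)] [])) (B02
  (A23 (A12 (K [(39,12,4),(19,6,1),(19,18,3)] []) (K [(19,18,8),(19,6,12),(39,12,4)] [])) (K
  [(39,12,5),(19,6,1),(19,18,3)] [])) (K [(2,15,1),(19,6,5),(19,18,2)] [])))))))))) (M 10 (P 7 (M 4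
  (P 1 (A12 (B01 (K [(3,15,5),(19,18,36),(39,12,23)] []) (B12 (A13 (K
  [(19,18,53),(39,2,3),(44,13,6),(39,12,3)] []) (A03 (A01 (K [(8,9,4),(19,6,4)] []) (B01 (B02 (A12
  (A13 (K [(19,18,34),(39,12,15),(19,6,8),(39,2,6)] []) (K [(19,18,5),(19,6,3)] [])) (L 19 18))
  (A12 (B12 (A13 (K [(19,18,93),(8,1,41),(39,12,45),(39,2,21)] []) (K [(19,18,3),(19,6,5)] [])) (K
  [(19,6,4),(39,12,1),(19,18,3)] [])) (K [(19,18,4),(19,6,4)] []))) (B12 (K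
  [(39,2,5),(19,6,9),(19,18,10)] []) (A12 (K [(19,6,110),(8,9,51),(39,12,6),(39,2,33)] []) (K
  [(19,18,4),(19,6,4)] []))))) (A23 (B01 (B02 (A12 (A01 (K [(19,18,5),(19,6,3)] []) (K
  [(19,18,705),(39,12,214),(39,2,81)] [])) (L 19 18)) (A12 (B12 (A01 (K [(19,18,3),(19,6,5)] [])
  (A13 (K [(39,12,6),(19,18,10),(19,6,6),(39,2,3)] []) (K [(19,18,5),(19,6,3)] []))) (K
  [(39,12,2),(19,6,3),(19,18,3)] [])) (K [(19,18,4),(19,6,4)] []))) (B12 (K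
  [(39,2,6),(19,6,8),(19,18,10)] []) (A12 (B02 (A01 (K [(19,6,4),(19,18,3),(39,2,1)] []) (A13 (K
  [(19,6,9),(19,18,9),(39,12,2),(39,2,4)] []) (K [(19,6,10),(19,18,12),(39,2,2)] []))) (L 19 6)) (K
  [(19,6,4),(19,18,4)] [])))) (B01 (B02 (A13 (A01 (A03 (K [(19,18,4),(39,12,1),(8,1,3)] []) (B01 (K
  [(39,12,4),(19,18,4)] []) (B12 (A23 (A12 (A13 (K [(19,18,34),(19,6,26),(39,12,4)] []) (B01 (K
  [(39,12,3),(19,18,3),(19,6,1)] []) (B12 (A03 (A02 (A01 (L 19 6) (B01 (B02 (A13 (K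
  [(19,6,425),(39,12,109),(19,18,466)] []) (K [(19,6,5),(39,12,3),(19,18,1)] [])) (L 19 6)) (L 19
  6))) (A23 (K [(19,6,3),(19,18,5)] []) (B01 (B02 (A13 (K [(19,6,425),(19,18,466),(39,12,109)] [])
  (K [(19,6,4),(39,12,2),(19,18,2)] [])) (L 19 6)) (L 19 6)))) (A23 (A02 (B01 (B02 (A01 (K
  [(39,12,2),(19,6,4),(19,18,2)] []) (K [(19,18,466),(39,12,109),(19,6,425)] [])) (L 19 6)) (L 19
  6)) (K [(19,18,5),(19,6,3)] [])) (A13 (B01 (B02 (A01 (K [(39,12,2),(19,6,4),(19,18,2)] []) (A12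
  (A13 (B01 (K [(39,12,4),(19,18,4)] []) (B12 (A01 (K [(39,12,18),(19,6,32),(19,18,14)] []) (A12
  (A13 (B01 (K [(39,12,314),(19,18,318),(19,6,185),(39,2,183)] []) (B12 (A01 (A02 (A03 (K
  [(19,6,13),(39,2,12),(19,18,20),(39,12,20)] []) (B01 (B02 (K
  [(39,2,187),(19,6,190),(19,18,313),(39,12,310)] []) (K [(19,6,10),(39,2,6),(39,12,8)] [])) (K
  [(39,2,2),(19,6,6)] []))) (K [(19,6,191),(39,2,185),(19,18,318),(39,12,307)] [])) (K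
  [(39,2,184),(19,18,318),(19,6,191),(39,12,307)] [])) (A01 (K
  [(19,6,191),(39,12,313),(19,18,316),(39,2,180)] []) (K
  [(19,6,192),(19,18,319),(39,12,311),(39,2,179)] [])))) (B01 (K [(39,12,3),(19,18,3),(19,6,2)] [])
  (B12 (A03 (A02 (A01 (K [(19,6,4),(39,12,2),(19,18,2)] []) (B01 (B02 (A13 (A12 (K
  [(39,2,187),(19,6,189),(39,12,311),(19,18,312)] []) (A23 (K
  [(19,6,191),(19,18,313),(39,2,186),(39,12,310)] []) (K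
  [(19,6,189),(39,2,188),(39,12,312),(19,18,311)] []))) (A23 (A12 (K
  [(19,6,190),(39,12,312),(39,2,188),(19,18,310)] []) (K [(19,6,4),(19,18,2),(39,12,2)] [])) (K
  [(19,6,4),(39,12,4)] []))) (K [(19,6,10),(39,12,8),(39,2,6)] [])) (K [(19,6,6),(39,2,2)] [])))
  (A23 (K [(19,18,318),(19,6,191),(39,2,184),(39,12,306)] []) (B01 (B02 (A13 (A01 (A03 (K
  [(19,18,5),(19,6,3)] []) (B01 (K [(19,18,312),(19,6,189),(39,12,311),(39,2,187)] []) (K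
  [(19,6,16),(39,2,7)] []))) (A12 (B01 (K [(19,18,312),(39,12,312),(19,6,189),(39,2,187)] []) (K
  [(2,5,187),(19,6,189),(19,18,312),(39,12,311)] [])) (B01 (K
  [(19,18,313),(19,6,189),(39,12,311),(39,2,187)] []) (B12 (K [(39,2,5),(19,18,1),(19,6,2)] [])
  (A23 (K [(19,18,5),(19,6,3)] []) (K [(19,6,190),(8,9,312),(39,12,311),(39,2,188)] [])))))) (A03
  (A01 (K [(19,6,3),(19,18,5)] []) (B01 (K [(19,6,189),(19,18,313),(39,12,311),(39,2,187)] []) (K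
  [(19,6,16),(39,2,7)] []))) (A23 (B01 (K [(19,6,189),(39,12,311),(19,18,313),(39,2,187)] []) (K
  [(19,6,16),(39,2,7)] [])) (K [(39,12,4),(19,6,4)] [])))) (K [(19,6,13),(39,12,6),(39,2,5)] []))
  (K [(19,6,6),(39,2,2)] [])))) (A23 (A02 (B01 (B02 (A01 (A03 (A02 (K [(39,12,3),(19,6,5)] []) (B01
  (B02 (K [(39,12,312),(19,18,313),(19,6,186),(39,2,188)] []) (A12 (K
  [(2,15,20),(19,6,12),(19,18,20),(39,2,12)] []) (K [(8,1,2),(19,18,4),(39,12,2)] []))) (B12 (A12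
  (K [(19,6,190),(39,2,188),(39,12,311),(19,18,311)] []) (K [(19,6,4),(19,18,3),(39,12,1)] [])) (K
  [(19,6,190),(39,12,311),(19,18,312),(39,2,186)] [])))) (A13 (B01 (B02 (K
  [(19,18,10),(39,12,9),(39,2,5)] []) (A12 (K [(39,12,20),(19,6,12),(19,18,20),(39,2,12)] []) (K
  [(19,18,5),(39,12,3)] []))) (B12 (A12 (K [(39,2,188),(19,6,189),(19,18,311),(39,12,311)] []) (K
  [(19,18,11),(19,6,10),(39,12,2)] [])) (K [(19,6,190),(39,12,311),(19,18,312),(39,2,186)] []))) (K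
  [(19,18,11),(19,6,10),(2,15,2)] []))) (A13 (A12 (K
  [(19,18,312),(39,12,312),(39,2,188),(19,6,189)] []) (B01 (K
  [(19,18,313),(39,12,312),(19,6,188),(39,2,187)] []) (B12 (K [(39,2,12),(19,18,4),(19,6,8)] [])
  (A02 (K [(19,6,189),(39,12,311),(19,18,312),(39,2,187)] []) (K [(19,18,5),(19,6,3)] []))))) (A03
  (B01 (K [(19,18,313),(39,12,312),(19,6,188),(39,2,187)] []) (B12 (K
  [(39,2,188),(19,18,312),(19,6,190),(39,12,310)] []) (A02 (K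
  [(39,12,311),(19,6,189),(19,18,312),(39,2,187)] []) (K [(19,18,5),(19,6,3)] [])))) (K
  [(19,18,5),(19,6,3)] [])))) (K [(19,6,40),(2,15,61),(19,18,62),(39,2,37)] [])) (K
  [(19,6,5),(39,2,2),(19,18,1)] [])) (K [(19,18,318),(19,6,191),(39,2,185),(39,12,307)] [])) (A13
  (B01 (B02 (A01 (A02 (K [(39,12,11),(19,6,12),(39,2,1)] []) (A12 (B01 (K
  [(39,12,4),(19,18,3),(39,2,1)] []) (B12 (A13 (A01 (A03 (K
  [(19,6,189),(39,2,188),(39,12,311),(19,18,311)] []) (K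
  [(39,2,188),(39,12,311),(19,6,189),(19,18,311)] [])) (K
  [(39,2,188),(39,12,311),(19,6,189),(19,18,312)] [])) (A03 (A01 (B01 (B02 (A02 (A03 (K
  [(2,15,311),(19,6,189),(19,18,311),(39,2,188)] []) (A23 (K
  [(39,12,311),(19,6,189),(19,18,311),(39,2,188)] []) (K [(39,12,5),(39,2,3)] []))) (A23 (K
  [(39,12,311),(19,18,311),(39,2,188),(19,6,189)] []) (A03 (K
  [(39,12,311),(19,18,311),(39,2,188),(19,6,189)] []) (K [(39,12,5),(39,2,3)] [])))) (K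
  [(2,15,311),(19,6,189),(39,2,188),(19,18,311)] [])) (K [(39,2,3),(19,6,4),(39,12,1)] [])) (B01 (K
  [(39,12,312),(39,2,188),(19,6,189),(19,18,312)] []) (K [(39,2,3),(19,6,4),(39,12,1)] []))) (A23
  (B01 (K [(39,12,312),(2,5,188),(19,6,189),(19,18,312)] []) (K [(2,5,3),(39,12,2),(19,6,4)] []))
  (K [(39,12,5),(39,2,3)] [])))) (K [(39,12,5),(19,6,1),(19,18,3)] []))) (B01 (K
  [(39,12,4),(19,18,4)] []) (B12 (A23 (K [(19,18,5),(19,6,3)] []) (A03 (A02 (B01 (B02 (A01 (A03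
  (A02 (B01 (K [(39,12,3),(19,18,4),(19,6,1)] []) (K
  [(19,6,189),(39,12,311),(19,18,311),(39,2,188)] [])) (B01 (K [(39,12,4),(19,18,4)] []) (B12 (A12
  (K [(39,2,188),(19,18,311),(19,6,189),(39,12,311)] []) (loc 0)) (K
  [(39,12,9),(19,6,4),(19,18,11)] [])))) (K [(39,12,312),(19,18,312),(19,6,188),(39,2,189)] []))
  (A13 (K [(19,18,4),(39,12,2),(39,2,1)] []) (A03 (K
  [(39,12,311),(19,18,312),(19,6,188),(39,2,188)] []) (loc 0)))) (K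
  [(2,15,311),(19,6,189),(19,18,311),(39,2,188)] [])) (K
  [(19,6,190),(39,2,188),(39,12,311),(19,18,311)] [])) (B01 (K
  [(39,12,312),(8,9,312),(19,6,188),(39,2,188)] []) (B12 (L 39 2) (A12 (B02 (A13 (K
  [(39,2,188),(19,18,311),(19,6,194),(39,12,307)] []) (loc 0)) (K [(19,6,12),(39,12,5),(19,18,7)]
  [])) (loc 0))))) (A13 (B01 (K [(39,12,312),(19,18,312),(39,2,188),(19,6,189)] []) (K
  [(39,2,188),(8,1,189),(39,12,311),(19,18,311)] [])) (loc 0)))) (K [(39,12,3),(19,18,4),(19,6,1)]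
  []))))) (A12 (K [(39,12,312),(19,18,312),(39,2,188),(19,6,188)] []) (A02 (B01 (K
  [(39,12,4),(19,18,3),(39,2,1)] []) (K [(39,12,311),(19,6,189),(39,2,188),(19,18,311)] [])) (B01
  (K [(19,18,5),(39,12,3)] []) (B12 (A23 (L 19 18) (A13 (K
  [(19,18,314),(39,2,187),(19,6,189),(39,12,310)] []) (A03 (K
  [(39,2,188),(19,18,313),(39,12,311),(19,6,189)] []) (K [(39,12,26),(39,2,15),(19,18,23)] []))))
  (K [(39,12,3),(19,18,4),(19,6,1)] [])))))) (A01 (B12 (A02 (K [(2,15,3),(19,6,3),(39,2,2)] [])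
  (A12 (K [(2,15,2),(19,6,5),(39,2,1)] []) (B01 (K [(39,12,3),(19,6,3),(19,18,2)] []) (A23 (K
  [(19,6,3),(19,18,5)] []) (B12 (A03 (A02 (L 19 6) (K
  [(19,6,190),(39,2,188),(39,12,311),(19,18,311)] [])) (K
  [(39,2,188),(39,12,311),(19,6,190),(19,18,311)] [])) (K [(8,1,5),(39,12,3)] [])))))) (K
  [(39,12,2),(19,6,4),(19,18,2)] [])) (B12 (A12 (K [(2,15,311),(19,6,190),(39,2,188),(19,18,311)]
  []) (A02 (K [(2,15,310),(19,6,192),(39,2,187),(19,18,310)] []) (B01 (K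
  [(39,12,9),(19,6,4),(19,18,11)] []) (A23 (K [(19,18,5),(19,6,3)] []) (K
  [(19,6,190),(39,12,311),(39,2,188),(19,18,311)] []))))) (K [(39,12,3),(19,6,5)] [])))) (K
  [(19,6,5),(39,2,2)] [])) (B01 (B02 (A03 (A02 (K [(39,12,11),(19,6,12),(39,2,1)] []) (A23 (B01 (K
  [(39,12,5),(19,18,3)] []) (B12 (A12 (A01 (A02 (B01 (B02 (A03 (A01 (K
  [(39,12,311),(19,6,189),(19,18,311),(39,2,188)] []) (loc 0)) (loc 0)) (A03 (K
  [(2,15,311),(8,1,189),(19,18,311),(39,2,188)] []) (loc 0))) (K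
  [(19,6,189),(39,12,312),(39,2,189),(19,18,311)] [])) (loc 0)) (loc 0)) (A02 (A01 (B01 (B02 (A03
  (K [(19,18,471),(39,12,103),(19,6,426)] []) (loc 0)) (A03 (K [(19,6,4),(19,18,4)] []) (loc 0)))
  (B12 (A03 (K [(39,2,4),(19,6,4)] []) (loc 0)) (A03 (K [(19,6,4),(19,18,3),(39,2,1)] []) (loc
  0)))) (loc 0)) (loc 0))) (K [(39,12,4),(19,6,1),(19,18,3)] []))) (K [(39,12,4),(19,6,3),(39,2,1)]
  []))) (A23 (A02 (K [(39,12,5),(39,2,3)] []) (B01 (K [(39,12,4),(19,18,4)] []) (B12 (loc 0) (K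
  [(39,12,4),(19,18,4)] [])))) (L 39 12))) (A03 (B12 (A02 (K [(2,15,3),(19,6,3),(39,2,2)] []) (A23
  (B01 (K [(2,15,3),(19,6,2),(19,18,3)] []) (A12 (K [(39,12,310),(19,6,191),(39,2,188),(19,18,310)]
  []) (K [(19,6,34),(19,18,28),(39,2,1)] []))) (K [(2,15,6),(19,6,13),(39,2,5)] []))) (K
  [(39,12,2),(19,6,4),(19,18,2)] [])) (B12 (A23 (A02 (K [(2,15,12),(19,6,5),(39,2,8)] []) (B01 (K
  [(39,12,4),(19,6,1),(19,18,3)] []) (A12 (K [(2,15,312),(19,6,190),(19,18,310),(39,2,189)] [])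
  (B12 (loc 0) (K [(8,1,4),(2,15,2),(19,18,2)] []))))) (L 39 12)) (K [(39,12,2),(19,6,4),(19,18,2)]
  [])))) (K [(8,1,112),(39,12,24),(39,2,64)] []))))) (K [(39,12,3),(19,6,2),(19,18,3)] [])))) (A02
  (B01 (K [(39,12,2),(19,18,3),(19,6,3)] []) (B12 (A03 (K [(19,6,12),(19,18,7),(39,12,5)] []) (A13
  (K [(19,6,30),(19,18,21),(39,12,13)] []) (A23 (K [(19,6,30),(19,18,21),(39,12,13)] []) (B01 (B02
  (A03 (A01 (K [(39,12,3),(19,6,5)] []) (A13 (B01 (K [(39,12,5),(19,18,3)] []) (B12 (A12 (A01 (A02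
  (B01 (K [(19,18,8),(19,6,8),(39,12,7)] []) (B12 (A03 (K [(8,1,7),(19,18,1)] []) (loc 0)) (K
  [(19,6,8),(19,18,8),(39,12,7)] []))) (loc 0)) (loc 0)) (A02 (A01 (B01 (K
  [(19,6,9),(39,12,8),(19,18,7)] []) (B12 (A03 (L 19 6) (loc 0)) (K [(19,6,9),(39,12,8),(19,18,7)]
  []))) (loc 0)) (loc 0))) (K [(39,12,4),(19,18,3),(19,6,1)] []))) (K
  [(39,12,11),(19,6,13),(39,2,1)] []))) (A13 (A01 (B01 (L 39 12) (B12 (loc 0) (L 39 12))) (B01 (K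
  [(39,12,4),(19,18,4)] []) (B12 (loc 0) (K [(39,12,3),(19,18,3),(19,6,1)] [])))) (A23 (B01 (L 39
  12) (B12 (loc 0) (L 39 12))) (L 39 12)))) (A03 (K [(19,6,6),(19,18,1)] []) (B12 (A13 (A01 (K
  [(39,12,21),(19,6,27),(39,2,15)] []) (B01 (K [(39,12,2),(19,6,3),(19,18,3)] []) (A12 (B12 (loc 0)
  (K [(19,6,4),(2,15,2),(19,18,2)] [])) (B12 (loc 0) (K [(19,6,4),(39,12,2),(19,18,1)] []))))) (K
  [(39,12,21),(19,6,27),(39,2,15)] [])) (L 19 6)))) (K [(19,6,112),(39,12,24),(39,2,64)] []))))) (K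
  [(8,1,3),(39,12,2),(19,18,3)] []))) (B01 (K [(19,18,5),(39,12,3)] []) (B12 (A23 (L 19 18) (A13 (L
  19 18) (A03 (K [(19,18,5),(19,6,3)] []) (B01 (B02 (A23 (L 19 18) (A13 (A12 (B01 (K
  [(19,18,5),(39,12,3)] []) (B12 (loc 0) (K [(19,18,4),(39,12,3),(19,6,1)] []))) (B01 (K
  [(39,12,3),(19,18,5)] []) (B12 (A02 (loc 0) (K [(19,18,483),(39,12,337),(39,2,180)] [])) (K
  [(39,12,3),(19,18,3),(19,6,1)] [])))) (A03 (B01 (L 39 12) (B12 (A02 (loc 0) (A12 (loc 0) (K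
  [(39,12,3),(19,18,3),(19,6,2)] []))) (L 39 12))) (K [(39,12,6),(19,18,2)] [])))) (A23 (K
  [(19,6,3),(19,18,5)] []) (B12 (A13 (A12 (B01 (K [(2,15,3),(19,6,1),(19,18,4)] []) (A01 (B12 (loc
  0) (K [(19,6,4),(39,12,2),(19,18,2)] [])) (B12 (loc 0) (K [(19,6,4),(19,18,2),(39,12,2)] []))))
  (B01 (L 39 12) (A02 (B12 (loc 0) (K [(19,6,4),(39,12,2),(19,18,2)] [])) (B12 (A23 (K
  [(19,18,6),(39,12,2)] []) (loc 0)) (K [(39,12,2),(19,6,4),(19,18,2)] []))))) (A03 (B01 (L 39 12)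
  (A02 (B12 (loc 0) (K [(39,12,4),(19,6,4)] [])) (B12 (A12 (loc 0) (K [(2,15,3),(19,6,2),(19,18,3)]
  [])) (L 39 12)))) (K [(39,12,6),(19,18,2)] []))) (L 19 6)))) (B12 (A23 (K [(19,6,3),(19,18,5)]
  []) (A13 (A12 (K [(19,6,7),(39,2,14),(19,18,2)] []) (B01 (B02 (A02 (loc 0) (A23 (K
  [(19,6,3),(19,18,5)] []) (loc 0))) (L 19 6)) (L 19 6))) (A03 (B01 (B02 (A02 (loc 0) (A12 (loc 0)
  (K [(19,6,30),(19,18,21),(39,12,13)] []))) (L 19 6)) (L 19 6)) (B01 (B02 (A23 (A12 (K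
  [(8,1,189),(39,2,189),(39,12,311),(19,18,310)] []) (K [(19,6,4),(39,12,2),(19,18,2)] [])) (K
  [(39,12,5),(39,2,3)] [])) (L 19 6)) (L 19 6))))) (A23 (K [(19,6,3),(19,18,5)] []) (B02 (A13 (A12
  (B01 (A01 (B02 (loc 0) (L 19 6)) (B02 (loc 0) (L 19 6))) (L 19 6)) (B01 (A02 (B02 (loc 0) (L 19
  6)) (B02 (A23 (K [(19,6,3),(19,18,5)] []) (loc 0)) (L 19 6))) (L 19 6))) (A03 (B01 (A02 (K
  [(19,6,34),(39,12,9),(39,2,21)] []) (B02 (A12 (loc 0) (K [(19,6,2),(39,12,3),(8,9,3)] [])) (L 19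
  6))) (L 19 6)) (K [(39,12,6),(19,18,2)] []))) (L 19 6)))))))) (K [(19,18,4),(19,6,1),(39,12,3)]
  [])))))) (K [(39,12,6),(19,18,2)] []))) (K [(39,12,18),(19,6,32),(19,18,14)] [])) (K
  [(39,12,2),(19,18,2),(19,6,4)] []))) (L 19 6)) (L 19 6)) (K [(39,12,2),(19,6,4),(19,18,2)] []))))
  (K [(39,12,3),(19,6,1),(19,18,3)] [])))) (K [(19,18,7),(39,12,5),(19,6,12)] [])) (A13 (A12 (B01
  (K [(39,12,4),(19,18,4)] []) (B12 (A01 (A03 (A02 (L 19 6) (B01 (B02 (A12 (K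
  [(19,6,4),(39,12,2),(19,18,2)] []) (A23 (A02 (K [(19,6,4),(39,12,2),(19,18,2)] []) (B01 (K
  [(39,12,20),(19,6,21),(19,18,22)] []) (B12 (A12 (K [(19,6,38),(39,2,37),(39,12,63),(19,18,62)]
  []) (A23 (A02 (K [(19,6,38),(39,2,37),(39,12,63),(19,18,62)] []) (K
  [(19,6,189),(39,2,185),(39,12,312),(19,18,313)] [])) (K
  [(19,6,38),(39,12,63),(39,2,37),(19,18,62)] []))) (K [(39,12,20),(19,6,21),(19,18,22)] [])))) (K
  [(39,12,2),(19,6,4),(19,18,2)] []))) (L 19 6)) (L 19 6))) (A13 (B01 (B02 (A12 (K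
  [(39,12,19),(19,6,33),(19,18,12)] []) (A02 (K [(39,12,19),(19,6,33),(19,18,12)] []) (A23 (B01 (K
  [(39,12,65),(19,6,38),(19,18,64),(39,2,33)] []) (B12 (A12 (K
  [(19,6,38),(39,2,37),(39,12,63),(19,18,62)] []) (K
  [(19,6,188),(39,2,186),(39,12,316),(19,18,310)] [])) (K
  [(39,12,65),(19,6,39),(19,18,64),(39,2,33)] []))) (K
  [(39,12,322),(19,6,191),(2,5,188),(19,18,298)] [])))) (L 19 6)) (L 19 6)) (B01 (B02 (A23 (A02 (L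
  39 12) (A12 (K [(39,12,5),(39,2,3)] []) (B01 (L 39 12) (B12 (K
  [(39,12,319),(39,2,189),(8,1,184),(19,18,308)] []) (L 39 12))))) (L 39 12)) (K
  [(2,15,1),(19,6,6),(39,2,1)] [])) (K [(19,6,5),(39,2,2)] [])))) (A13 (A12 (K
  [(39,2,35),(19,6,40),(19,18,64),(39,12,62)] []) (B01 (B02 (A02 (A03 (K
  [(19,6,5),(39,2,4),(19,18,8),(39,12,7)] []) (A23 (K [(39,2,36),(19,6,38),(19,18,64),(39,12,62)]
  []) (K [(39,2,11),(39,12,20),(19,6,12),(19,18,21)] []))) (A23 (A12 (K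
  [(19,18,321),(19,6,189),(39,2,179),(39,12,311)] []) (B01 (K
  [(39,12,20),(19,18,21),(19,6,12),(39,2,11)] []) (K
  [(19,6,192),(19,18,316),(39,2,182),(39,12,310)] []))) (A03 (K
  [(19,18,321),(39,2,179),(39,12,311),(19,6,189)] []) (K
  [(39,2,11),(39,12,20),(19,18,21),(19,6,12)] [])))) (K [(19,6,7),(39,2,1)] [])) (K
  [(39,2,2),(19,6,6)] []))) (A03 (B01 (B02 (A02 (K [(39,12,65),(19,6,38),(39,2,38),(19,18,59)] [])
  (A12 (K [(39,12,64),(39,2,37),(19,6,38),(19,18,61)] []) (A23 (B01 (K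
  [(39,12,64),(19,18,64),(19,6,37),(39,2,36)] []) (K
  [(39,12,312),(19,6,191),(39,2,183),(19,18,314)] [])) (K
  [(39,12,64),(19,6,38),(39,2,37),(19,18,61)] [])))) (K [(19,6,7),(39,2,1)] [])) (K
  [(39,2,2),(19,6,6)] [])) (B01 (B02 (A23 (A12 (K [(39,12,5),(39,2,3)] []) (A02 (K
  [(39,12,5),(39,2,3)] []) (B01 (L 39 12) (B12 (K [(39,12,317),(39,2,187),(19,6,185),(19,18,311)]
  []) (L 39 12))))) (K [(39,12,5),(39,2,3)] [])) (K [(2,15,1),(19,6,6),(39,2,1)] [])) (K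
  [(39,2,2),(19,6,5)] []))))) (A01 (K [(39,12,3),(8,1,3),(19,18,2)] []) (B02 (A13 (K
  [(39,12,9),(19,6,4),(19,18,11)] []) (K [(39,12,3),(19,6,1),(19,18,3)] [])) (L 19 6))))) (B01 (L
  39 12) (B12 (A02 (A03 (A01 (L 19 6) (B01 (B02 (A12 (A13 (A01 (K [(39,12,3),(19,6,5)] []) (B01 (L
  39 12) (B12 (A12 (A13 (A01 (K [(19,6,33),(39,12,18),(19,18,13)] []) (B01 (B02 (K
  [(39,12,314),(19,6,187),(19,18,312),(39,2,187)] []) (K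
  [(39,12,310),(19,6,194),(19,18,312),(39,2,184)] [])) (K [(19,6,114),(39,2,37),(19,18,49)] [])))
  (K [(19,6,5),(39,12,3)] [])) (K [(19,6,5),(39,12,3)] [])) (L 39 12)))) (K [(39,12,3),(19,6,5)]
  [])) (K [(39,12,3),(19,6,5)] [])) (L 19 6)) (L 19 6))) (A23 (B01 (B02 (A12 (A01 (L 39 12) (A13
  (B01 (L 39 12) (B12 (A12 (A01 (K [(39,12,3),(19,6,5)] []) (A13 (B01 (B02 (K
  [(39,12,315),(19,6,187),(19,18,311),(39,2,188)] []) (A12 (K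
  [(39,12,314),(19,6,188),(19,18,312),(39,2,187)] []) (K [(2,15,63),(19,6,38),(19,18,62),(39,2,37)]
  []))) (K [(19,6,39),(2,15,62),(39,2,37),(19,18,62)] [])) (K [(39,12,4),(19,6,4)] []))) (K
  [(39,12,3),(19,6,5)] [])) (L 39 12))) (L 39 12))) (L 39 12)) (L 19 6)) (L 19 6)) (B01 (B02 (A13
  (A01 (L 39 12) (A12 (B01 (L 39 12) (B12 (A13 (A01 (K [(39,12,5),(39,2,3)] []) (A12 (K
  [(39,12,63),(39,2,37),(19,6,37),(19,18,62)] []) (K [(39,12,5),(39,2,3)] []))) (L 39 12)) (L 39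
  12))) (L 39 12))) (L 39 12)) (K [(39,12,1),(19,6,6),(39,2,1)] [])) (K [(19,6,5),(39,2,2)] []))))
  (A23 (A12 (B01 (B02 (A01 (L 39 12) (A13 (A12 (B01 (L 39 12) (B12 (A01 (K
  [(39,12,4),(19,6,3),(39,2,1)] []) (A13 (A12 (B01 (B02 (K
  [(39,12,317),(19,18,314),(19,6,181),(39,2,188)] []) (K
  [(39,12,315),(19,6,188),(19,18,310),(39,2,187)] [])) (B12 (K
  [(39,2,190),(19,6,187),(39,12,316),(19,18,306)] []) (A01 (K
  [(39,12,64),(19,6,37),(19,18,61),(39,2,38)] []) (K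
  [(39,12,315),(19,6,189),(19,18,312),(39,2,185)] [])))) (K [(39,12,5),(39,2,3)] [])) (K
  [(39,12,4),(19,6,3),(39,2,1)] []))) (L 39 12))) (L 39 12)) (L 39 12))) (K
  [(39,12,1),(19,6,6),(39,2,1)] [])) (K [(19,6,9),(39,12,7),(39,2,8)] [])) (K [(39,12,3),(19,6,5)]
  [])) (A03 (B01 (B02 (A01 (L 39 12) (A12 (A13 (B01 (L 39 12) (B12 (A01 (K [(39,12,3),(19,6,5)] [])
  (A12 (A13 (B01 (B02 (K [(39,12,316),(19,6,185),(19,18,312),(39,2,188)] []) (K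
  [(39,12,315),(19,6,188),(19,18,310),(39,2,187)] [])) (K
  [(39,12,63),(19,6,38),(39,2,38),(19,18,61)] [])) (K [(39,12,4),(19,6,4)] [])) (K
  [(39,12,4),(19,6,4)] []))) (L 39 12))) (L 39 12)) (L 39 12))) (K [(39,12,1),(19,6,6),(39,2,1)]
  [])) (K [(19,6,13),(39,12,3),(39,2,8)] [])) (B01 (B02 (A13 (A12 (A01 (L 39 12) (B01 (L 39 12)
  (B12 (A13 (K [(39,12,320),(19,6,183),(39,2,189),(19,18,307)] []) (L 39 12)) (L 39 12)))) (L 39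
  12)) (L 39 12)) (K [(2,15,1),(19,6,6),(39,2,1)] [])) (K [(39,12,3),(19,6,13),(39,2,8)] []))))) (L
  39 12)))) (K [(39,12,4),(19,6,4)] []))) (K [(39,12,5),(19,18,3)] [])))) (A12 (B01 (L 39 12) (B12
  (A13 (A01 (A03 (K [(39,12,60),(19,18,78),(19,6,30),(39,2,31)] []) (K
  [(39,12,10),(19,18,8),(39,2,6)] [])) (K [(39,12,3),(19,18,3),(39,2,2)] [])) (A03 (A01 (B01 (K
  [(39,12,10),(19,18,11),(39,2,3)] []) (B12 (A02 (A03 (K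
  [(39,2,11),(39,12,20),(19,6,12),(19,18,21)] []) (K [(39,12,22),(39,2,12),(19,6,9),(19,18,20)]
  [])) (K [(39,12,22),(39,2,12),(19,18,20),(19,6,9)] [])) (A02 (B02 (A03 (K
  [(39,12,9),(19,18,11),(19,6,4)] []) (K [(39,12,4),(19,18,3)] [])) (K
  [(39,12,2),(19,6,3),(19,18,2)] [])) (K [(39,12,4),(19,18,4)] [])))) (K
  [(39,12,4),(19,18,2),(39,2,2)] [])) (K [(39,12,4),(39,2,2),(19,18,2)] []))) (L 39 12))) (B01 (K
  [(39,12,4),(19,18,4)] []) (B12 (A23 (A02 (A03 (K [(19,18,40),(19,6,23)] []) (B01 (K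
  [(39,12,4),(19,18,4)] []) (B12 (A13 (A12 (A01 (B01 (K [(19,18,21),(2,15,19),(19,6,12),(39,2,11)]
  []) (K [(19,18,66),(2,5,35),(19,6,39),(39,12,59)] [])) (K
  [(19,18,22),(39,12,19),(39,2,12),(19,6,11)] [])) (A23 (K [(19,18,5),(19,6,3)] []) (B01 (K
  [(19,18,21),(2,15,19),(19,6,12),(39,2,11)] []) (B12 (K [(39,2,5),(19,18,8),(19,6,5),(39,12,7)]
  []) (K [(19,18,66),(19,6,39),(39,12,60),(39,2,35)] []))))) (A23 (A12 (B01 (K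
  [(19,18,21),(2,15,19),(19,6,12),(39,2,11)] []) (B12 (K
  [(39,2,12),(19,6,13),(19,18,22),(39,12,17)] []) (A01 (K
  [(19,6,40),(19,18,66),(39,12,58),(39,2,35)] []) (K [(19,6,5),(19,18,8),(39,12,7),(39,2,4)] []))))
  (K [(19,18,5),(19,6,3)] [])) (A03 (B01 (B02 (A01 (A02 (A03 (B01 (K [(39,12,3),(19,18,5)] []) (B12
  (A01 (A02 (A03 (K [(19,18,319),(39,12,307),(19,6,190),(39,2,184)] []) (B01 (K
  [(39,12,3),(19,18,5)] []) (B12 (A13 (K [(19,18,319),(39,2,184),(19,6,190),(39,12,307)] []) (A23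
  (K [(19,18,318),(39,2,185),(19,6,190),(39,12,307)] []) (A03 (B01 (B02 (K
  [(39,12,9),(19,18,10),(39,2,5)] []) (A01 (B12 (A02 (K
  [(39,12,311),(39,2,188),(19,6,188),(19,18,312)] []) (A12 (K
  [(39,12,311),(19,6,188),(19,18,312),(39,2,188)] []) (B01 (K [(39,12,9),(19,6,4),(19,18,11)] [])
  (A23 (K [(19,18,5),(19,6,3)] []) (K [(19,6,189),(39,12,311),(39,2,188),(19,18,312)] []))))) (K
  [(39,12,4),(19,6,4)] [])) (B12 (A12 (K [(39,12,4),(19,18,3),(39,2,2)] []) (A02 (K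
  [(39,12,20),(19,18,20),(19,6,12),(39,2,12)] []) (B01 (K [(39,12,3),(19,18,3),(19,6,1)] []) (A23
  (K [(19,18,5),(19,6,3)] []) (K [(39,12,311),(19,18,312),(19,6,189),(39,2,188)] []))))) (K
  [(39,12,4),(19,6,4),(19,18,1)] [])))) (B12 (L 39 2) (A01 (K
  [(19,6,207),(39,12,299),(39,2,192),(19,18,302)] []) (B02 (K
  [(39,2,189),(39,12,309),(19,6,192),(19,18,311)] []) (K [(39,12,4),(19,6,4)] []))))) (B01 (B02 (K
  [(39,12,76),(19,18,81),(39,2,42)] []) (A13 (B12 (A12 (K [(39,12,4),(19,18,3),(39,2,2)] []) (A23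
  (B01 (K [(39,12,4),(19,18,3),(19,6,1)] []) (A02 (K
  [(39,12,311),(19,6,189),(19,18,312),(39,2,188)] []) (K [(19,18,16),(19,6,6),(2,15,3)] []))) (K
  [(39,12,11),(19,18,9),(39,2,4)] []))) (K [(39,12,3),(19,6,2),(19,18,3)] [])) (B12 (A23 (A12 (K
  [(39,12,4),(19,18,2),(39,2,2)] []) (B01 (K [(39,12,4),(19,6,1),(19,18,3)] []) (A02 (K
  [(39,12,312),(19,6,188),(19,18,311),(39,2,189)] []) (B12 (loc 0) (K
  [(39,12,3),(19,6,3),(19,18,2)] []))))) (L 39 12)) (K [(39,12,2),(19,6,4),(19,18,1)] [])))) (B12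
  (K [(39,2,5),(19,6,2),(39,12,1)] []) (A13 (B02 (A12 (K
  [(39,12,20),(39,2,12),(19,6,12),(19,18,20)] []) (A23 (K
  [(19,6,191),(39,2,188),(2,15,309),(19,18,311)] []) (K [(39,12,20),(19,6,12),(39,2,12),(19,18,20)]
  []))) (K [(39,12,4),(19,6,4)] [])) (B02 (A23 (A12 (K [(39,12,5),(39,2,3)] []) (B01 (A02 (K
  [(39,12,312),(19,6,189),(39,2,190),(19,18,308)] []) (B02 (loc 0) (K
  [(19,6,4),(39,12,2),(19,18,1)] []))) (L 19 6))) (L 39 12)) (K [(39,12,2),(19,6,6)] [])))))))) (K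
  [(39,12,11),(19,18,10),(19,6,3)] [])))) (A12 (B01 (K [(19,18,4),(39,12,4)] []) (B12 (A13 (K
  [(19,18,21),(39,2,12),(19,6,12),(39,12,20)] []) (A03 (K
  [(19,18,64),(19,6,38),(39,2,37),(39,12,61)] []) (A23 (K
  [(19,18,64),(19,6,38),(39,2,37),(39,12,61)] []) (B01 (B02 (K [(39,12,76),(19,18,81),(39,2,42)]
  []) (A13 (K [(39,12,9),(19,18,12),(39,2,2)] []) (B12 (A03 (A01 (B01 (K
  [(39,12,3),(19,18,4),(19,6,1)] []) (A02 (B12 (loc 0) (K [(19,18,4),(19,6,1),(39,12,3)] [])) (K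
  [(19,18,10),(39,12,11),(39,2,4)] []))) (K [(39,12,30),(19,18,22),(39,2,12)] [])) (K
  [(39,12,30),(19,18,22),(39,2,12)] [])) (K [(39,12,3),(19,6,3),(19,18,2)] [])))) (B12 (A13 (K
  [(39,2,192),(19,6,190),(19,18,311),(39,12,308)] []) (A03 (K
  [(39,2,198),(19,6,191),(19,18,308),(39,12,303)] []) (A23 (K
  [(39,2,190),(19,6,189),(2,15,310),(19,18,311)] []) (K [(39,2,3),(39,12,5)] [])))) (A13 (B02 (A01
  (A03 (K [(19,18,63),(19,6,38),(2,5,37),(39,12,62)] []) (K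
  [(39,12,20),(19,6,12),(19,18,20),(39,2,12)] [])) (K [(39,12,20),(19,18,20),(39,2,12),(19,6,12)]
  [])) (K [(39,12,4),(19,6,4)] [])) (B02 (A03 (A01 (B01 (A02 (B02 (loc 0) (K
  [(19,6,4),(19,18,2),(39,12,2)] [])) (B02 (A23 (K [(19,18,63),(39,2,38),(19,6,38),(39,12,62)] [])
  (loc 0)) (K [(19,18,2),(19,6,4),(39,12,2)] []))) (K [(8,1,7),(8,9,1)] [])) (B01 (A12 (K
  [(39,12,5),(39,2,3)] []) (B02 (K [(19,18,311),(39,12,311),(39,2,189),(19,6,188)] []) (K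
  [(39,12,62),(19,6,40),(19,18,62),(39,2,36)] []))) (K [(39,12,62),(19,6,39),(19,18,62),(39,2,37)]
  []))) (A23 (B01 (A12 (L 39 12) (B02 (K [(39,12,311),(19,18,311),(19,6,188),(39,2,189)] []) (K
  [(2,15,3),(19,6,2),(19,18,3)] []))) (K [(39,12,10),(19,6,5),(19,18,9)] [])) (L 39 12))) (K
  [(39,12,2),(19,6,4),(19,18,2)] [])))))))) (K [(19,18,4),(39,12,3),(19,6,1)] []))) (B01 (K
  [(19,18,4),(39,12,4)] []) (B12 (A23 (L 19 18) (A03 (L 19 18) (A13 (L 19 18) (B01 (B02 (K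
  [(19,18,81),(39,12,76),(39,2,42)] []) (A23 (K [(19,18,5),(19,6,3)] []) (B12 (A03 (A02 (B01 (K
  [(19,18,4),(39,12,3),(19,6,1)] []) (A01 (B12 (loc 0) (K [(19,18,2),(19,6,4),(39,12,2)] [])) (K
  [(19,18,3),(39,12,3),(39,2,1)] []))) (K [(39,12,3),(19,18,3),(39,2,1)] [])) (K
  [(39,12,4),(19,18,3),(39,2,1)] [])) (K [(39,12,2),(19,6,3),(19,18,3)] [])))) (B12 (A23 (K
  [(19,18,5),(19,6,3)] []) (A03 (A02 (K [(39,2,12),(19,6,8),(19,18,4)] []) (B01 (B02 (A12 (K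
  [(19,18,17),(39,2,26),(19,6,21)] []) (A23 (K [(19,18,5),(19,6,3)] []) (A13 (K
  [(19,18,5),(19,6,3)] []) (loc 0)))) (K [(19,6,5),(19,18,2)] [])) (K [(39,2,2),(19,6,5),(19,18,2)]
  []))) (A13 (B01 (B02 (A12 (K [(39,2,190),(19,18,311),(19,6,189),(39,12,310)] []) (A02 (A01 (K
  [(39,2,190),(19,6,189),(39,12,311),(19,18,311)] []) (K
  [(39,2,189),(19,6,189),(19,18,312),(39,12,310)] [])) (K
  [(19,6,189),(19,18,312),(39,2,189),(39,12,310)] []))) (K [(19,6,6),(19,18,1)] [])) (K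
  [(39,2,2),(19,6,5),(19,18,1)] [])) (B01 (B02 (A23 (A02 (A03 (B01 (B02 (A01 (loc 0) (K
  [(39,12,311),(39,2,189),(19,6,189),(19,18,311)] [])) (K [(8,1,3),(39,12,3),(39,2,2)] [])) (K
  [(39,2,3),(19,6,3),(39,12,2)] [])) (B01 (K [(39,12,311),(19,6,189),(39,2,189),(19,18,311)] []) (K
  [(39,2,3),(19,6,3),(39,12,2)] []))) (A12 (B01 (B02 (A13 (K
  [(39,12,311),(39,2,189),(19,6,189),(19,18,311)] []) (K
  [(39,12,311),(19,6,190),(39,2,189),(19,18,310)] [])) (K [(39,12,6),(19,6,13),(39,2,5)] [])) (K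
  [(39,2,3),(19,6,4),(39,12,1)] [])) (K [(19,6,192),(2,15,310),(39,2,187),(19,18,310)] []))) (K
  [(39,12,5),(39,2,3)] [])) (L 19 6)) (L 19 6))))) (A23 (K [(19,6,3),(19,18,5)] []) (B02 (A03 (A02
  (B01 (A01 (B02 (loc 0) (L 19 6)) (B02 (A13 (L 19 18) (loc 0)) (K [(19,18,3),(19,6,4),(39,12,2)]
  []))) (K [(19,6,6),(19,18,2)] [])) (B01 (A12 (B02 (A13 (L 19 18) (A23 (K [(19,18,5),(19,6,3)] [])
  (loc 0))) (K [(19,6,4),(19,18,3),(39,12,2)] [])) (B02 (A23 (K [(19,18,5),(19,6,3)] []) (A13 (K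
  [(19,18,5),(19,6,3)] []) (loc 0))) (L 19 6))) (K [(19,6,6),(19,18,2)] []))) (A13 (B01 (A12 (B02
  (K [(19,18,311),(39,12,311),(19,6,188),(39,2,189)] []) (K [(39,12,2),(19,6,4),(19,18,2)] [])) (K
  [(39,12,314),(19,6,187),(19,18,312),(39,2,187)] [])) (K [(19,6,7),(19,18,1)] [])) (K
  [(39,12,6),(19,18,2)] []))) (L 19 6)))))))) (K [(19,18,4),(19,6,1),(39,12,3)] []))))) (A12 (A13
  (K [(39,12,9),(19,18,10),(39,2,5)] []) (B01 (K [(39,12,4),(19,18,4)] []) (B12 (A03 (K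
  [(19,18,9),(39,12,10),(39,2,6)] []) (A23 (K [(19,18,10),(39,12,9),(39,2,5)] []) (K
  [(2,15,63),(19,18,62),(19,6,37),(39,2,38)] []))) (K [(39,12,6),(19,18,2)] [])))) (A02 (B01 (K
  [(39,12,4),(19,18,4)] []) (B12 (A03 (K [(19,18,10),(39,2,5),(39,12,9)] []) (A13 (K
  [(8,9,10),(2,15,9),(39,2,5)] []) (A23 (K [(8,9,64),(39,12,61),(19,6,38),(39,2,37)] []) (B01 (K
  [(39,12,4),(19,18,4)] []) (B12 (A03 (K [(39,2,189),(19,18,312),(19,6,189),(39,12,310)] []) (A13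
  (K [(39,2,189),(19,18,313),(19,6,188),(39,12,310)] []) (A23 (K
  [(39,2,189),(19,6,188),(39,12,311),(19,18,312)] []) (K [(39,2,3),(39,12,5)] [])))) (K
  [(39,12,21),(19,6,12),(19,18,21),(39,2,11)] [])))))) (K [(39,12,4),(19,18,4)] []))) (B01 (K
  [(19,18,4),(39,12,4)] []) (B12 (A23 (L 19 18) (A13 (L 19 18) (A03 (L 19 18) (B01 (K
  [(39,12,4),(19,18,4)] []) (B12 (A23 (K [(19,18,5),(19,6,3)] []) (A13 (K
  [(39,2,189),(19,18,312),(19,6,189),(39,12,309)] []) (A03 (B01 (K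
  [(19,6,189),(19,18,312),(39,2,189),(39,12,310)] []) (K [(39,2,3),(19,6,5),(39,12,1)] [])) (B01
  (B02 (A23 (A12 (K [(39,12,5),(39,2,3)] []) (A02 (K
  [(39,12,312),(19,6,188),(39,2,190),(19,18,310)] []) (B01 (K
  [(39,12,311),(19,6,190),(19,18,310),(39,2,189)] []) (K
  [(19,6,38),(39,2,38),(39,12,62),(19,18,62)] [])))) (K [(39,12,5),(39,2,3)] [])) (K
  [(39,12,3),(19,6,3),(39,2,2)] [])) (K [(39,2,3),(19,6,3),(39,12,2)] []))))) (K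
  [(39,12,3),(19,6,1),(19,18,3)] [])))))) (K [(19,18,3),(39,12,3),(19,6,1)] [])))))) (K
  [(39,12,6),(19,18,2)] []))) (B01 (K [(39,12,4),(19,18,4)] []) (B12 (A13 (A12 (A01 (B01 (K
  [(39,12,5),(19,18,3)] []) (B12 (A03 (A02 (K [(39,12,63),(19,18,62),(19,6,37),(39,2,38)] []) (K
  [(39,12,76),(8,9,81),(39,2,43)] [])) (K [(39,12,10),(19,18,9),(39,2,5)] [])) (K
  [(39,12,5),(19,18,3)] []))) (K [(39,12,9),(19,18,10),(39,2,5)] [])) (A23 (B01 (K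
  [(19,18,4),(39,12,4)] []) (B12 (A02 (A01 (A03 (B01 (K [(39,12,4),(19,18,4)] []) (B12 (A02 (A01
  (A03 (B01 (B02 (A02 (K [(39,12,5),(39,2,3)] []) (A12 (K [(39,12,5),(39,2,3)] []) (A23 (B01 (K
  [(39,12,311),(19,6,191),(19,18,310),(39,2,188)] []) (K [(19,6,38),(2,15,62),(39,2,38),(19,18,62)]
  [])) (K [(39,12,5),(39,2,3)] [])))) (K [(39,12,3),(19,6,3),(39,2,2)] [])) (K
  [(19,6,3),(39,2,3),(39,12,2)] [])) (B01 (B02 (A23 (A12 (K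
  [(39,12,311),(19,6,188),(19,18,311),(39,2,190)] []) (K
  [(39,12,310),(19,6,192),(19,18,310),(39,2,187)] [])) (K
  [(39,12,311),(19,18,310),(19,6,188),(39,2,190)] [])) (K
  [(39,12,62),(19,6,38),(19,18,62),(39,2,38)] [])) (K [(19,6,121),(39,2,45),(19,18,34)] []))) (K
  [(19,6,189),(19,18,312),(39,2,189),(39,12,309)] [])) (K [(19,18,5),(19,6,3)] [])) (K
  [(39,12,11),(19,6,3),(19,18,10)] []))) (K [(19,18,5),(19,6,3)] [])) (L 19 18)) (L 19 18)) (K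
  [(19,18,3),(39,12,4),(19,6,1)] []))) (B01 (K [(39,12,5),(19,18,3)] []) (B12 (A03 (A01 (A02 (K
  [(39,12,314),(19,6,186),(19,18,309),(39,2,191)] []) (K
  [(39,12,62),(19,18,62),(19,6,37),(39,2,38)] [])) (K [(19,18,81),(39,12,76),(39,2,42)] [])) (K
  [(39,12,76),(19,18,81),(39,2,42)] [])) (K [(39,12,5),(19,18,3)] []))))) (A23 (A12 (B01 (L 39 12)
  (B12 (A01 (A03 (A02 (K [(39,12,314),(19,6,186),(19,18,308),(39,2,192)] []) (B01 (K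
  [(39,12,4),(19,18,4)] []) (K [(39,12,311),(19,6,190),(19,18,311),(39,2,189)] []))) (A13 (B01 (K
  [(39,12,5),(19,18,3)] []) (K [(39,12,311),(19,6,190),(19,18,311),(39,2,189)] [])) (K
  [(39,12,5),(19,18,7),(19,6,12)] []))) (K [(39,12,311),(19,18,311),(19,6,193),(39,2,185)] [])) (L
  39 12))) (B01 (K [(39,12,4),(19,18,4)] []) (B12 (A02 (A03 (A01 (B01 (K [(39,12,4),(19,18,4)] [])
  (B12 (A02 (A03 (A01 (K [(39,12,2),(19,6,4),(19,18,1)] []) (K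
  [(19,6,195),(39,12,311),(39,2,187),(19,18,308)] [])) (K
  [(19,6,196),(39,12,309),(19,18,310),(39,2,185)] [])) (K [(19,6,10),(19,18,11),(39,12,3)] [])) (K
  [(39,12,11),(19,6,3),(19,18,10)] []))) (K [(19,18,11),(39,12,3),(19,6,10)] [])) (K
  [(19,18,3),(39,12,2),(19,6,4)] [])) (L 19 18)) (K [(39,12,4),(19,18,3),(19,6,1)] [])))) (K
  [(39,12,4),(19,6,4)] []))) (K [(39,12,4),(19,18,4)] [])))) (K [(39,12,25),(19,18,31),(19,6,8)]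
  [])) (K [(39,12,4),(19,18,4)] [])) (A01 (B12 (A02 (A03 (B01 (L 39 12) (A01 (B12 (A02 (K
  [(19,6,41),(2,15,61),(19,18,62),(39,2,37)] []) (A12 (B01 (K [(39,12,3),(19,6,1),(19,18,4)] []) (K
  [(19,6,207),(19,18,309),(39,12,301),(39,2,184)] [])) (K [(19,6,6),(8,9,1)] []))) (K
  [(19,6,4),(39,12,4)] [])) (B12 (A12 (A13 (K [(39,12,65),(19,18,67),(19,6,33),(39,2,36)] []) (B01
  (K [(39,12,6),(19,18,2)] []) (K [(2,15,306),(19,6,197),(19,18,311),(39,2,186)] []))) (A02 (B01 (K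
  [(39,12,4),(19,6,1),(19,18,3)] []) (K [(19,18,310),(19,6,203),(2,15,302),(39,2,185)] [])) (K
  [(19,6,5),(19,18,2)] []))) (K [(39,12,4),(19,6,4)] [])))) (B01 (L 39 12) (A13 (B12 (A12 (A01 (B01
  (K [(39,12,4),(19,6,1),(19,18,3)] []) (A03 (B12 (A02 (A01 (B01 (L 39 12) (K
  [(39,12,62),(19,6,39),(39,2,38),(19,18,62)] [])) (K [(39,12,20),(19,6,12),(19,18,20),(39,2,12)]
  [])) (K [(39,12,311),(19,18,313),(19,6,187),(39,2,190)] [])) (K [(2,15,3),(19,6,2),(19,18,3)]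
  [])) (K [(39,12,28),(19,18,26),(39,2,10)] []))) (K [(39,12,10),(19,18,11),(39,2,3)] [])) (A23 (K
  [(19,6,5),(19,18,2)] []) (B01 (K [(39,12,4),(19,6,1),(19,18,3)] []) (A03 (B12 (A01 (K
  [(2,15,307),(19,6,197),(19,18,308),(39,2,188)] []) (K
  [(19,18,314),(39,12,311),(19,6,186),(39,2,190)] [])) (K [(2,15,2),(19,6,4),(19,18,2)] [])) (K
  [(39,12,311),(19,6,185),(19,18,314),(39,2,190)] []))))) (K [(39,12,4),(19,6,4)] [])) (B12 (A23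
  (A12 (K [(2,15,308),(19,6,195),(19,18,309),(39,2,188)] []) (L 19 6)) (K [(39,12,4),(19,6,4)] []))
  (K [(39,12,2),(19,6,4),(19,18,1)] []))))) (K [(39,12,25),(19,6,8),(19,18,31)] [])) (L 39 12)) (K
  [(39,12,4),(19,18,4)] []))) (B12 (A01 (A02 (A03 (K [(39,2,6),(19,6,2)] []) (B01 (B02 (A13 (A12 (K
  [(39,2,15),(19,6,5),(39,12,4)] []) (A23 (K [(39,2,3),(19,6,3),(19,18,2)] []) (K
  [(39,2,39),(19,6,38),(19,18,62),(39,12,61)] []))) (A23 (A12 (K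
  [(19,6,39),(39,2,38),(39,12,62),(19,18,62)] []) (L 19 6)) (K [(19,6,12),(39,2,1),(39,12,11)]
  []))) (L 19 6)) (L 19 6))) (A12 (B01 (B02 (A13 (A01 (A03 (K [(19,6,3),(19,18,5)] []) (K
  [(39,2,193),(19,6,190),(19,18,311),(39,12,306)] [])) (K
  [(39,2,193),(19,6,190),(8,9,311),(39,12,306)] [])) (A03 (A01 (K [(19,6,4),(19,18,4)] []) (B01 (K
  [(19,6,198),(39,2,188),(19,18,308),(39,12,305)] []) (L 19 6))) (A23 (B01 (K
  [(19,6,198),(39,2,188),(19,18,308),(39,12,305)] []) (L 19 6)) (K [(19,6,4),(39,12,3)] [])))) (L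
  19 6)) (L 19 6)) (K [(19,6,12),(8,9,7),(39,12,5)] []))) (A12 (K
  [(39,2,197),(19,6,185),(39,12,313),(19,18,304)] []) (A02 (B01 (B02 (A03 (K
  [(39,2,193),(19,18,311),(19,6,191),(39,12,306)] []) (A13 (K
  [(19,6,191),(19,18,310),(39,2,193),(39,12,306)] []) (A23 (K
  [(19,6,38),(39,2,38),(19,18,63),(39,12,61)] []) (K [(19,6,14),(39,12,10)] [])))) (L 19 6)) (L 19
  6)) (K [(19,6,95),(19,18,64),(39,12,41)] [])))) (A01 (B02 (A02 (A03 (B01 (A01 (K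
  [(19,6,17),(39,2,7)] []) (B02 (A12 (K [(19,6,204),(39,12,298),(39,2,192),(19,18,306)] []) (K
  [(19,6,5),(19,18,1),(39,2,2)] [])) (K [(19,6,5),(39,12,3)] []))) (L 19 6)) (B01 (A13 (B02 (A12 (K
  [(39,12,305),(8,1,195),(19,18,308),(39,2,192)] []) (A23 (K [(19,6,5),(19,18,2),(39,2,2)] []) (K
  [(8,1,195),(39,12,305),(19,18,308),(39,2,192)] []))) (K [(19,6,5),(39,12,3)] [])) (B02 (A23 (A12
  (K [(19,6,39),(39,12,62),(19,18,62),(39,2,38)] []) (L 19 6)) (K [(39,12,4),(19,6,4)] [])) (L 19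
  6))) (L 19 6))) (A12 (B01 (A13 (B02 (A01 (A03 (K [(19,6,3),(19,18,5)] []) (K
  [(19,6,38),(19,18,63),(39,12,62),(39,2,37)] [])) (K [(19,6,37),(8,9,64),(39,12,62),(39,2,37)]
  [])) (K [(19,6,5),(39,12,3)] [])) (K [(19,6,11),(39,12,24),(19,18,28)] [])) (L 19 6)) (K
  [(19,6,3),(8,9,3),(39,12,2)] []))) (L 19 6)) (K [(39,12,9),(19,6,4),(19,18,9),(39,2,2)] []))))
  (B01 (K [(39,12,3),(19,6,2),(19,18,3)] []) (B12 (A13 (A12 (K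
  [(19,6,39),(39,12,62),(39,2,38),(19,18,61)] []) (A23 (K [(19,6,95),(19,18,64),(39,12,41)] []) (K
  [(19,6,202),(39,12,307),(39,2,186),(19,18,305)] []))) (K [(19,6,4),(39,12,2),(19,18,1)] [])) (K
  [(39,12,3),(19,6,2),(19,18,3)] [])))))) (K [(39,12,3),(19,18,3),(19,6,1)] [])))) (A12 (B01 (K
  [(19,18,5),(39,12,3)] []) (B12 (A13 (K [(19,18,23),(19,6,12),(39,12,18),(39,2,11)] []) (A03 (K
  [(19,18,24),(19,6,13),(2,15,17),(39,2,10)] []) (A23 (K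
  [(19,18,24),(19,6,13),(39,12,17),(39,2,10)] []) (B01 (K [(39,12,3),(19,18,4),(19,6,1)] []) (B12
  (A13 (A01 (A03 (K [(19,6,3),(19,18,5)] []) (B01 (K [(19,6,38),(19,18,62),(39,12,61),(39,2,38)]
  []) (L 19 6))) (K [(19,6,194),(19,18,308),(39,2,193),(39,12,305)] [])) (K
  [(19,6,33),(39,12,18),(19,18,13)] [])) (K [(39,12,3),(19,6,1),(19,18,4)] [])))))) (K
  [(39,12,3),(19,18,4),(19,6,1)] []))) (K [(19,18,7),(39,12,5),(19,6,12)] []))) (A03 (A02 (B01 (K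
  [(39,12,10),(19,18,11),(39,2,3)] []) (B12 (A01 (A03 (A02 (K
  [(39,2,35),(19,18,65),(19,6,38),(39,12,62)] []) (B01 (B02 (A12 (K
  [(19,18,8),(39,2,4),(39,12,7),(19,6,4)] []) (A23 (A02 (K
  [(19,18,65),(39,2,36),(39,12,62),(19,6,37)] []) (K
  [(19,18,318),(39,12,313),(19,6,185),(39,2,183)] [])) (K
  [(39,2,11),(19,18,21),(39,12,20),(19,6,12)] []))) (K
  [(19,6,213),(39,12,301),(8,9,311),(39,2,175)] [])) (K [(39,2,4),(19,6,14),(19,18,6)] []))) (A13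
  (B01 (B02 (A12 (K [(39,12,3),(19,18,3),(39,2,2)] []) (A02 (K [(39,12,10),(39,2,5),(19,18,8)] [])
  (A23 (B01 (K [(39,12,4),(19,18,3),(39,2,1)] []) (K
  [(39,12,311),(19,18,316),(39,2,183),(19,6,190)] [])) (K [(39,12,10),(19,18,8),(39,2,5)] [])))) (K
  [(39,12,304),(19,6,207),(39,2,177),(19,18,312)] [])) (K [(39,2,5),(19,6,7),(2,15,6),(19,18,7)]
  [])) (B01 (B02 (A23 (A02 (K [(39,12,5),(39,2,3)] []) (A12 (K [(39,12,5),(39,2,3)] []) (B01 (L 39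
  12) (B12 (K [(2,15,317),(39,2,187),(19,6,185),(19,18,311)] []) (L 39 12))))) (K
  [(39,12,5),(39,2,3)] [])) (K [(39,12,6),(19,6,13),(39,2,5)] [])) (K [(39,2,3),(39,12,1),(19,6,5)]
  [])))) (A13 (A12 (K [(19,18,8),(39,2,4),(39,12,7),(19,6,4)] []) (B01 (B02 (K
  [(19,18,338),(39,12,306),(39,2,179),(19,6,177)] []) (K
  [(39,12,62),(19,18,63),(19,6,39),(39,2,36)] [])) (K [(2,5,12),(19,18,20),(19,6,14),(39,12,19)]
  []))) (A03 (B01 (B02 (A02 (K [(39,12,3),(19,18,3),(39,2,2)] []) (A12 (K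
  [(39,12,3),(19,18,3),(39,2,2)] []) (A23 (K [(39,12,312),(19,18,321),(39,2,184),(19,6,183)] []) (K
  [(39,12,10),(19,18,9),(39,2,5)] [])))) (K [(39,12,311),(19,6,191),(19,18,315),(39,2,184)] [])) (K
  [(2,5,5),(19,6,6),(39,12,7),(19,18,7)] [])) (B01 (B02 (A23 (A12 (L 39 12) (A02 (K
  [(39,12,5),(39,2,3)] []) (B01 (L 39 12) (B12 (K [(39,12,317),(39,2,187),(8,1,185),(19,18,311)]
  []) (L 39 12))))) (L 39 12)) (K [(39,12,3),(19,6,4),(39,2,2)] [])) (K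
  [(39,12,6),(39,2,8),(19,6,10)] []))))) (A01 (B02 (A03 (K [(39,12,9),(19,18,11),(19,6,4)] []) (K
  [(39,12,4),(19,18,3)] [])) (K [(39,12,7),(19,6,10),(19,18,8)] [])) (K [(39,12,4),(19,18,4)]
  [])))) (B01 (L 39 12) (B12 (A12 (A13 (A01 (B01 (B02 (K
  [(39,12,306),(19,18,338),(39,2,179),(19,6,177)] []) (K
  [(39,12,62),(19,18,64),(19,6,38),(39,2,36)] [])) (K
  [(39,2,197),(39,12,323),(19,6,188),(19,18,291)] [])) (K [(39,12,8),(19,18,8),(39,2,5),(19,6,4)]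
  [])) (A23 (B01 (B02 (A02 (A01 (A03 (K [(2,15,314),(19,18,325),(19,6,177),(39,2,184)] []) (K
  [(39,12,10),(19,18,8),(39,2,6)] [])) (K [(39,12,3),(19,18,3),(39,2,2)] [])) (K
  [(2,15,3),(19,18,3),(39,2,2)] [])) (K [(2,15,63),(19,6,38),(19,18,62),(39,2,37)] [])) (K
  [(39,12,12),(39,2,9),(19,6,4)] [])) (B01 (B02 (A03 (A01 (A02 (B01 (L 39 12) (B12 (K
  [(39,12,317),(39,2,187),(19,6,185),(19,18,311)] []) (L 39 12))) (L 39 12)) (L 39 12)) (L 39 12))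
  (K [(2,15,3),(19,6,4),(39,2,2)] [])) (K [(39,12,6),(39,2,8),(19,6,10)] [])))) (A23 (A02 (B01 (B02
  (A01 (A03 (A02 (B01 (L 39 12) (B12 (A01 (A03 (A02 (K
  [(39,12,316),(19,18,311),(19,6,186),(39,2,188)] []) (K [(2,15,5),(39,2,3)] [])) (K
  [(39,12,4),(19,18,2),(39,2,2)] [])) (K [(39,12,4),(19,18,2),(39,2,2)] [])) (L 39 12))) (K
  [(2,15,5),(39,2,3)] [])) (K [(39,12,4),(19,18,2),(39,2,2)] [])) (K [(2,15,4),(19,18,2),(39,2,2)]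
  [])) (A01 (K [(39,12,64),(19,6,38),(19,18,59),(39,2,38)] []) (K [(39,12,4),(19,18,2),(39,2,2)]
  []))) (K [(39,12,12),(19,6,4),(39,2,9)] [])) (K [(39,12,5),(39,2,3)] [])) (A13 (B01 (B02 (A01
  (A02 (A03 (B01 (L 39 12) (K [(39,12,320),(19,6,184),(19,18,307),(39,2,189)] [])) (K
  [(39,12,4),(19,18,2),(39,2,2)] [])) (K [(39,12,4),(19,18,2),(39,2,2)] [])) (K
  [(2,15,10),(19,18,8),(39,2,6)] [])) (A01 (K [(39,12,64),(19,6,38),(19,18,59),(39,2,38)] []) (K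
  [(39,12,4),(19,18,3),(39,2,1)] []))) (K [(39,12,12),(19,6,4),(39,2,9)] [])) (B01 (B02 (A03 (A02
  (A01 (B01 (L 39 12) (B12 (A03 (K [(39,12,320),(39,2,189),(19,6,184),(19,18,307)] []) (L 39 12))
  (L 39 12))) (L 39 12)) (L 39 12)) (L 39 12)) (K [(2,15,2),(19,6,5),(39,2,1)] [])) (K
  [(39,12,2),(19,6,4),(39,2,3)] []))))) (L 39 12)))) (K [(39,12,12),(19,18,5),(39,2,7)] []))) (K
  [(39,12,5),(19,18,3)] []))))) (A03 (A01 (K [(39,12,2),(19,6,4),(19,18,2)] []) (B01 (L 39 12) (B12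
  (A12 (K [(39,12,3),(19,6,5)] []) (K [(39,12,2),(19,6,4),(19,18,2)] [])) (L 39 12)))) (A23 (B01 (L
  39 12) (B12 (A12 (L 39 12) (K [(39,12,2),(19,6,4),(19,18,2)] [])) (L 39 12))) (L 39 12)))) (A13
  (B12 (A01 (K [(19,6,7),(39,12,1),(39,2,1)] []) (A12 (B01 (L 39 12) (K
  [(2,15,19),(19,6,18),(19,18,15),(39,2,11)] [])) (B01 (L 39 12) (A23 (K
  [(19,6,21),(2,15,14),(19,18,20),(39,2,9)] []) (K [(2,15,19),(19,6,18),(19,18,15),(39,2,11)]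
  []))))) (K [(39,12,3),(19,6,5)] [])) (K [(39,12,1),(19,6,7)] []))) (B12 (K
  [(8,1,12),(39,2,11),(39,12,1)] []) (A13 (B02 (A01 (K [(19,6,7),(39,12,1),(39,2,1)] []) (A12 (K
  [(19,6,5),(39,2,2)] []) (K [(19,6,5),(39,2,2)] []))) (L 19 6)) (K [(19,6,7),(39,12,1)] [])))))))
  (A13 (K [(19,18,6),(39,12,1)] []) (B02 (A03 (K [(19,18,5),(19,6,2),(39,12,2)] []) (K
  [(39,12,22),(8,1,13),(18,12,3),(19,18,25),(44,13,1)] [])) (K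
  [(39,12,1),(44,13,1),(19,6,13),(18,12,2),(19,18,7)] []))))) (B01 (L 18 12) (B12 (A23 (L 19 18)
  (A03 (K [(8,9,4),(19,6,4)] []) (A13 (K [(19,18,4),(19,6,4)] []) (K [(19,6,5),(39,12,2),(19,18,2)]
  [])))) (K [(18,12,4),(39,12,2),(19,6,2)] [])))))))))) (M 10 (P 7 (M 4 (P 1 (A12 (A13 (L 19 18) (P
  8 (B01 (K [(39,12,4),(19,18,4)] []) (B12 (A03 (K [(19,18,5),(2,15,2),(39,2,1)] []) (A23 (A02 (B01
  (K [(39,12,7),(19,18,14),(39,2,2)] []) (K [(19,6,2),(19,18,4),(39,12,1),(39,2,1)] [])) (K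
  [(19,18,6),(19,6,2)] [])) (A13 (B01 (K [(39,12,4),(19,18,4)] []) (B12 (A01 (A02 (K
  [(39,2,2),(19,6,1),(39,12,3),(19,18,2)] []) (K [(19,6,8),(39,2,18),(39,12,20),(19,18,17)] [])) (K
  [(19,6,9),(39,2,19),(39,12,21),(19,18,16)] [])) (K [(39,12,10),(19,6,2),(19,18,12)] []))) (B01
  (B02 (A03 (A02 (K [(39,12,4),(19,18,2),(39,2,2)] []) (K [(39,12,4),(19,18,2),(39,2,1)] [])) (K
  [(39,12,6),(19,18,2)] [])) (A03 (B12 (A02 (K [(39,12,4),(19,18,2),(39,2,2)] []) (K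
  [(39,12,4),(19,18,2),(39,2,1)] [])) (L 39 12)) (K [(39,12,6),(19,18,2)] []))) (B12 (A03 (A02 (K
  [(39,2,2),(19,6,1),(39,12,3),(19,18,2)] []) (K [(19,6,126),(39,2,288),(39,12,327),(19,18,260)]
  [])) (A23 (K [(19,6,18),(39,2,12),(39,12,20),(19,18,14)] []) (K [(19,6,4),(39,12,4),(39,2,1)]
  []))) (A03 (B02 (A02 (K [(39,12,5),(39,2,1),(19,18,2)] []) (K [(39,12,5),(19,18,3)] [])) (L 44
  13)) (K [(39,12,6),(19,18,2)] []))))))) (K [(39,12,5),(19,18,3)] []))))) (A02 (B01 (K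
  [(39,12,4),(19,18,4)] []) (B12 (A03 (K [(19,18,18),(19,6,2),(39,2,1),(39,12,3)] []) (A13 (A01
  (B01 (K [(19,18,15),(39,12,7),(39,2,2)] []) (K [(19,18,34),(19,6,16),(39,2,7),(39,12,6)] [])) (K
  [(19,18,5),(19,6,3)] [])) (A23 (B01 (B02 (K [(19,18,7),(39,12,1)] []) (A02 (B12 (A01 (A03 (K
  [(39,12,2),(19,18,6)] []) (K [(19,18,6),(19,6,2)] [])) (K [(19,18,6),(39,12,1),(19,6,1)] [])) (K
  [(39,12,2),(19,6,2),(19,18,4)] [])) (K [(19,18,5),(19,6,2),(39,12,1)] []))) (B12 (K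
  [(19,6,7),(39,2,5),(19,18,12)] []) (A02 (B02 (A01 (A03 (K [(19,6,2),(19,18,4),(39,12,1),(39,2,1)]
  []) (K [(19,6,7),(19,18,17)] [])) (K [(19,6,2),(19,18,6)] [])) (L 19 6)) (K [(19,18,5),(19,6,3)]
  [])))) (B01 (B02 (A03 (A01 (A02 (K [(39,12,4),(19,18,2),(39,2,2)] []) (B01 (L 39 12) (B12 (A23
  (A12 (A13 (K [(39,12,9),(19,18,10),(39,2,5)] []) (B01 (K [(39,12,4),(19,18,4)] []) (B12 (A03 (K
  [(19,18,21),(39,12,20),(19,6,11),(39,2,12)] []) (A23 (K [(19,18,8),(39,12,7),(19,6,4),(39,2,4)]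
  []) (K [(39,12,65),(19,18,59),(19,6,34),(39,2,42)] []))) (K [(39,12,4),(19,18,4)] [])))) (A02
  (B01 (K [(39,12,4),(19,18,4)] []) (B12 (A03 (K [(19,18,23),(39,12,19),(19,6,12),(39,2,11)] [])
  (A13 (K [(19,18,23),(2,15,19),(19,6,12),(39,2,11)] []) (A23 (K
  [(19,18,23),(2,15,18),(19,6,12),(39,2,11)] []) (B01 (K [(39,12,4),(19,18,4)] []) (B12 (A03 (K
  [(19,18,310),(19,6,210),(39,12,302),(39,2,178)] []) (K
  [(19,6,316),(39,12,293),(19,18,281),(39,2,110)] [])) (K [(39,12,4),(19,6,1),(19,18,3)] []))))))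
  (K [(39,12,4),(19,18,4)] []))) (K [(19,18,3),(39,12,2),(19,6,4)] []))) (K
  [(39,12,12),(19,18,5),(39,2,7)] [])) (L 39 12)))) (A13 (K [(39,12,3),(19,18,5)] []) (B01 (L 39
  12) (B12 (A23 (A02 (A03 (K [(39,12,3),(19,18,4),(39,2,1)] []) (B01 (K [(39,12,5),(19,18,3)] [])
  (B12 (A13 (K [(39,12,25),(19,18,23),(39,2,16)] []) (A23 (K
  [(39,12,20),(19,18,20),(19,6,10),(39,2,13)] []) (K [(39,12,20),(19,18,19),(19,6,14),(39,2,11)]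
  []))) (K [(39,12,5),(19,18,3)] [])))) (A12 (K [(39,12,294),(8,9,310),(19,6,231),(39,2,165)] [])
  (K [(19,18,3),(39,12,2),(19,6,4)] []))) (K [(39,12,5),(39,2,3)] [])) (L 39 12))))) (A13 (A01 (B01
  (L 39 12) (B12 (A02 (L 39 12) (K [(39,12,7),(19,18,6),(19,6,11)] [])) (L 39 12))) (K
  [(39,12,3),(19,18,4),(19,6,2)] [])) (A23 (B01 (L 39 12) (B12 (A02 (L 39 12) (K
  [(39,12,2),(19,6,4),(19,18,2)] [])) (L 39 12))) (L 39 12)))) (A03 (B12 (A01 (A02 (K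
  [(39,12,10),(19,6,2),(19,18,7),(39,2,5)] []) (B01 (L 39 12) (A23 (B12 (A12 (K
  [(39,12,285),(19,18,304),(19,6,228),(39,2,183)] []) (K [(19,6,21),(19,18,20),(39,12,14),(39,2,9)]
  [])) (K [(39,12,4),(19,6,4)] [])) (K [(39,12,11),(19,6,2),(19,18,5),(39,2,6)] [])))) (A13 (K
  [(39,12,3),(19,18,5)] []) (B01 (L 39 12) (A23 (B12 (A02 (K
  [(39,12,59),(19,6,42),(19,18,61),(39,2,39)] []) (A12 (K
  [(39,12,59),(19,6,42),(19,18,61),(39,2,39)] []) (K [(19,6,6),(19,18,2)] []))) (K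
  [(39,12,2),(19,6,3),(19,18,2)] [])) (K [(39,12,5),(39,2,3)] []))))) (L 39 12)) (B12 (A13 (A01 (K
  [(2,15,2),(19,6,5),(19,18,1)] []) (K [(39,12,3),(19,6,2),(19,18,4)] [])) (K [(2,15,1),(19,6,7)]
  [])) (L 39 12)))) (B12 (A03 (A01 (K [(39,2,39),(19,6,20),(19,18,5)] []) (A13 (B01 (B02 (A12 (K
  [(19,6,37),(19,18,61),(39,2,47),(39,12,55)] []) (A02 (K
  [(19,6,12),(39,2,14),(19,18,20),(39,12,17)] []) (K [(19,6,56),(39,2,35),(19,18,58),(39,12,51)]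
  []))) (L 19 6)) (L 19 6)) (B01 (B02 (A23 (A02 (K [(39,2,58),(19,6,38),(19,18,52),(39,12,52)] [])
  (A12 (K [(19,6,13),(39,2,18),(8,9,17),(39,12,17)] []) (K [(19,6,4),(39,2,2),(19,18,2)] []))) (K
  [(39,2,4),(19,6,1),(39,12,3)] [])) (L 19 6)) (L 19 6)))) (A13 (A01 (K
  [(19,6,5),(39,12,2),(19,18,1)] []) (K [(19,6,303),(39,2,172),(39,12,254),(19,18,271)] [])) (K
  [(19,6,7),(39,12,1)] []))) (A03 (B02 (A01 (A02 (K [(2,15,7),(19,6,6),(39,2,6),(19,18,5)] []) (B01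
  (A23 (B02 (A12 (K [(19,6,6),(39,12,6),(19,18,7),(39,2,5)] []) (K [(19,6,13),(19,18,6),(39,2,5)]
  [])) (L 19 6)) (K [(39,12,3),(19,6,2),(39,2,2),(19,18,2)] [])) (L 19 6))) (A13 (K
  [(19,6,6),(39,12,7),(19,18,11)] []) (B01 (A23 (B02 (A02 (K
  [(19,6,41),(39,12,59),(19,18,61),(39,2,40)] []) (A12 (K
  [(19,6,41),(39,12,59),(19,18,61),(39,2,40)] []) (K [(19,6,13),(19,18,6),(39,2,5)] []))) (L 19 6))
  (K [(39,12,5),(39,2,3)] [])) (L 19 6)))) (L 19 6)) (B02 (A13 (A01 (K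
  [(19,6,5),(39,12,2),(19,18,1)] []) (K [(19,6,6),(39,12,8),(19,18,10)] [])) (K
  [(39,12,1),(19,6,7)] [])) (L 19 6)))))))) (K [(39,12,12),(19,18,11)] []))) (B01 (L 18 12) (B12
  (A23 (L 19 18) (A13 (K [(19,18,5),(19,6,3)] []) (A03 (K [(19,18,5),(19,6,3)] []) (B01 (K
  [(39,12,50),(19,6,99),(19,18,51)] []) (K [(19,6,113),(39,12,40),(19,18,48)] []))))) (K
  [(18,12,4),(39,12,2),(19,6,2)] [])))))))))))) (A01 (P 8 (B02 (A02 (M 9 (A03 (B01 (K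
  [(18,12,33),(18,18,31)] []) (M 10 (P 7 (K [(39,12,3),(18,12,3),(19,18,2),(19,6,1)] [])))) (M 10
  (P 7 (K [(39,12,5),(18,12,2),(19,18,2)] []))))) (M 10 (M 4 (S 0 (K [(3,15,1),(2,15,4),(19,18,3)]
  []) (L 10 15))))) (M 10 (M 4 (K [(43,13,4),(44,13,7),(19,18,9),(19,6,4)] []))))) (M 10 (P 7 (M 4
  (B02 (A12 (M 9 (L 39 12)) (S 0 (K [(2,15,6),(19,18,2)] []) (L 10 15))) (S 0 (L 2 15) (L 10
  15)))))))) (M 10 (P 7 (M 4 (B12 (A13 (M 9 (P 0 (A12 (A01 (B01 (K [(39,12,4),(18,12,1),(19,18,2)]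
  []) (B12 (P 8 (A03 (A02 (A01 (B01 (K [(39,12,5),(19,18,3)] []) (B12 (A03 (A02 (K
  [(19,6,4),(39,12,4),(39,2,1)] []) (A23 (K [(19,6,9),(39,12,22),(39,2,19),(19,18,14)] []) (K
  [(19,6,4),(39,12,4),(39,2,1)] []))) (A23 (A02 (K [(39,12,4),(19,6,3),(39,2,1)] []) (K
  [(19,6,8),(39,12,21),(39,2,19),(19,18,15)] [])) (K [(39,12,4),(19,6,1),(39,2,3)] []))) (K
  [(39,12,6),(19,18,2)] []))) (B01 (K [(39,12,4),(19,18,4)] []) (K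
  [(39,12,307),(19,6,351),(19,18,218),(39,2,124)] []))) (A23 (K [(19,18,6),(19,6,2)] []) (B01 (K
  [(39,12,4),(19,18,4)] []) (K [(39,12,7),(19,6,8),(19,18,5),(39,2,3)] [])))) (A23 (A02 (K
  [(39,12,2),(44,13,2),(19,6,2),(19,18,2)] []) (L 19 18)) (K [(39,12,3),(44,13,5)] [])))) (K
  [(39,12,5),(19,18,3)] []))) (K [(39,12,2),(19,18,4),(19,6,2)] [])) (A23 (B01 (L 18 12) (B12 (A02
  (A01 (A03 (B01 (K [(39,12,3),(19,6,2),(19,18,2)] []) (K [(19,6,113),(39,12,40),(19,18,48)] []))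
  (K [(2,15,3),(19,6,11),(19,18,10)] [])) (K [(19,18,5),(19,6,3)] [])) (K [(19,18,6),(19,6,1)] []))
  (K [(39,12,5),(19,18,2)] []))) (B01 (L 18 12) (B12 (P 8 (A03 (A01 (A02 (B01 (K
  [(39,12,5),(19,18,3)] []) (B12 (A03 (K [(19,6,415),(39,12,300),(39,2,73),(19,18,213)] []) (K
  [(19,6,100),(39,12,57),(19,18,44)] [])) (K [(39,12,6),(19,18,2)] []))) (B01 (K
  [(39,12,4),(19,18,4)] []) (K [(39,12,54),(19,6,100),(19,18,46)] []))) (A13 (K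
  [(19,18,5),(19,6,3)] []) (B01 (K [(39,12,4),(19,18,4)] []) (K [(39,12,54),(19,6,100),(19,18,46)]
  [])))) (A13 (A01 (K [(39,12,20),(19,6,31),(19,18,14)] []) (L 19 18)) (K
  [(39,12,3),(19,6,4),(43,19,2)] [])))) (K [(39,12,5),(19,18,3)] []))))))) (A23 (A12 (B01 (S 0 (L 2
  15) (L 10 15)) (M 9 (K [(39,12,3),(19,6,5)] []))) (B01 (S 0 (L 3 15) (L 10 15)) (M 9 (K
  [(18,12,156),(39,12,102),(19,6,736),(19,18,6)] [])))) (A03 (B01 (S 0 (L 2 15) (L 10 15)) (M 9 (K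
  [(39,12,4),(19,6,4),(39,2,1)] []))) (out 1)))) (S 0 (L 2 15) (L 10 15))))))) (P 7 (M 4 (A12 (M 10
  (P 1 (B12 (A13 (A01 (A03 (L 19 18) (B01 (S 0 (L 3 15) (L 10 15)) (B12 (M 9 (P 8 (K
  [(39,12,1),(8,9,3),(43,19,3),(19,6,1)] []))) (A23 (L 19 18) (M 9 (K [(39,12,3),(19,18,5)]
  [])))))) (A12 (M 9 (K [(39,12,2),(19,18,4),(19,6,2)] [])) (B01 (S 0 (L 3 15) (L 10 15)) (B12 (M 9
  (P 8 (M 5 (K [(7,16,2),(19,18,2),(39,12,1),(43,19,4)] [])))) (A23 (L 19 18) (M 9 (K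
  [(39,12,3),(19,18,5)] []))))))) (A03 (A01 (K [(19,18,13),(19,6,11)] []) (B01 (S 0 (L 2 15) (L 10
  15)) (B12 (M 9 (P 8 (K [(39,12,2),(43,19,3),(19,6,3)] []))) (S 0 (L 2 15) (L 10 15))))) (out 1)))
  (S 0 (L 2 15) (L 10 15))))) (B12 (A23 (A02 (A03 (B01 (B02 (S 0 (L 3 15) (L 10 15)) (M 10 (L 19
  18))) (M 10 (L 19 18))) (out 1)) (out 1)) (S 0 (L 3 15) (L 10 15))) (A23 (B02 (A02 (A03 (B01 (P 8
  (L 43 13)) (M 10 (L 19 18))) (out 1)) (out 1)) (A02 (S 0 (L 2 15) (L 10 15)) (out 1))) (S 0 (L 2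
  15) (L 10 15)))))))) (A03 (A02 (M 9 (P 0 (B12 (A01 (P 8 (A03 (A02 (B01 (B02 (A01 (A03 (A02 (L 18
  18) (P 7 (L 39 12))) (P 7 (L 39 12))) (P 7 (L 39 12))) (M 10 (K [(44,13,13),(18,18,51)] []))) (M
  10 (S 4 (L 24 5) (K [(2,15,124),(3,9,17),(19,6,45),(2,5,14)] [])))) (M 10 (P 7 (B01 (L 39 12) (K
  [(39,12,15),(44,13,3),(19,18,1),(39,2,5)] []))))) (M 10 (P 7 (A13 (K
  [(39,12,712),(44,13,7),(19,18,83),(39,2,199)] []) (K [(39,12,2),(44,13,6)] [])))))) (M 10 (P 7 (M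
  4 (A13 (K [(2,15,712),(19,18,84),(19,6,7),(39,2,197)] []) (P 8 (A03 (K
  [(2,15,712),(44,13,7),(19,18,83),(39,2,199)] []) (K [(39,12,2),(44,13,6)] [])))))))) (A01 (S 4 (L
  21 13) (L 2 15)) (P 7 (L 39 12)))))) (M 10 (P 7 (M 4 (B12 (A12 (M 9 (K
  [(39,12,174),(19,6,5),(39,2,21)] [])) (A23 (A02 (B01 (S 0 (L 2 15) (L 10 15)) (M 9 (K
  [(39,12,6),(19,6,2)] []))) (out 1)) (M 9 (P 0 (K [(2,15,57),(39,2,7)] []))))) (S 0 (L 2 15) (L 10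
  15))))))) (M 10 (P 7 (M 4 (A13 (B12 (A12 (M 9 (P 0 (K [(39,12,5),(3,9,3)] []))) (A02 (M 9 (L 39
  12)) (out 1))) (S 0 (L 2 15) (L 10 15))) (B12 (A23 (A02 (A03 (M 9 (L 18 18)) (out 1)) (out 1))
  (A03 (A02 (M 9 (P 8 (M 5 (B01 (K [(18,18,3),(39,12,2),(43,15,3)] []) (K
  [(18,18,13),(38,12,2),(18,6,9)] []))))) (out 0)) (out 0))) (A23 (S 0 (L 2 15) (L 10 15)) (B02
  (A03 (A02 (M 9 (K [(18,18,13),(39,18,2),(39,12,1),(19,13,3),(18,6,6)] [])) (out 0)) (out 0)) (A03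
  (A02 (M 9 (K [(39,18,3),(39,12,6),(18,18,28),(19,13,10),(18,6,17)] [])) (out 0)) (out
  0)))))))))))))))))

/-- its cell -/
def cD2 : Cell :=
  ⟨0, 0, 0, 0, 1114112, 0, 1114112, 1114112, 0, 1114112, 1114112, 1114112, 0, 0, 0, 3129344, 5070848, 0⟩

theorem okD2 : check datD tD2 cD2 0 0 = true := by
  decide +kernel

end Pool.Agent.H315.NW
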