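import Pool.Agent.H315.NW.Data

/-!
# Project NW (helper315): certificates (generated)
-/

set_option autoImplicit false
set_option maxRecDepth 100000

namespace Pool.Agent.H315.NW

open Tr

/-- a part of the certificate -/
def tD3 : Tr :=
  (M 11 (M 9 (P 2 (P 0 (A03 (A02 (A01 (P 8 (M 5 (A03 (A02 (B12 (A01 (A03 (out 10) (A13 (out 10) (S
  1 (L 7 9) (L 0 9)))) (A13 (out 11) (A03 (out 11) (B01 (B02 (S 1 (L 7 9) (L 0 9)) (M 10 (L 44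
  18))) (M 10 (L 44 18)))))) (A01 (B02 (S 1 (L 7 9) (L 0 9)) (M 10 (L 44 18))) (B02 (A13 (out 11)
  (A03 (out 11) (B01 (S 1 (L 7 9) (L 11 9)) (M 10 (L 44 18))))) (M 10 (L 44 18))))) (B12 (A12 (A13
  (out 11) (A23 (M 10 (L 44 18)) (B01 (B02 (S 1 (L 7 9) (L 11 9)) (M 10 (L 44 18))) (M 10 (L 44
  18))))) (A23 (M 10 (P 6 (M 3 (A02 (B01 (K [(34,15,4),(42,12,4)] []) (B12 (P 4 (A01 (A03 (out 10)
  (A13 (out 10) (K [(34,15,382),(44,6,618)] []))) (K [(34,15,2),(23,13,3),(44,18,1),(34,5,1)] [])))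
  (K [(34,15,5),(42,12,3)] []))) (K [(34,15,5),(44,6,3)] []))))) (A13 (M 10 (P 6 (M 3 (B01 (L 42
  12) (B12 (P 4 (A01 (A02 (K [(44,18,5),(44,6,3)] []) (K [(34,15,2),(44,18,1),(44,6,2),(24,19,3)]
  [])) (K [(34,15,2),(24,19,4),(44,6,2)] []))) (K [(34,15,3),(42,12,3),(44,18,2)] [])))))) (P 4
  (B01 (S 3 (L 18 12) (L 42 12)) (M 10 (B12 (P 6 (M 3 (A03 (A02 (K [(44,18,4),(44,6,4)] []) (K
  [(34,15,1),(44,18,2),(44,6,5)] [])) (K [(42,12,1),(34,15,1),(44,6,5),(24,19,1)] [])))) (S 3 (L 18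
  12) (L 42 12))))))))) (A12 (B02 (A13 (out 11) (A23 (M 10 (L 44 18)) (B01 (S 1 (L 7 9) (L 11 9))
  (M 10 (L 44 18))))) (S 4 (L 24 13) (L 2 13))) (B02 (A23 (S 3 (L 18 12) (L 12 12)) (A13 (S 3 (L 18
  12) (L 12 12)) (S 3 (L 18 12) (L 12 12)))) (S 3 (L 18 12) (L 12 12)))))) (A13 (B12 (A12 (A01 (A02
  (B01 (B02 (A03 (P 4 (L 24 13)) (M 10 (L 44 18))) (S 3 (L 18 12) (L 12 12))) (M 10 (K
  [(44,18,4),(44,6,4)] []))) (B01 (S 3 (L 18 12) (L 12 12)) (B12 (P 4 (K [(24,13,2),(24,19,6)] []))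
  (S 3 (L 18 12) (L 12 12))))) (A13 (out 11) (B01 (S 3 (L 18 12) (L 12 12)) (B12 (S 4 (L 24 19) (L
  2 13)) (S 3 (L 18 12) (L 12 12)))))) (A02 (A01 (B01 (B02 (A03 (S 3 (L 18 12) (L 42 12)) (S 3 (L
  18 12) (L 12 12))) (S 3 (L 18 12) (L 12 12))) (M 10 (B12 (S 3 (L 18 12) (K
  [(12,12,3),(12,2,3),(44,6,2)] [])) (S 3 (L 18 12) (L 12 12))))) (M 10 (B01 (S 3 (L 18 12) (L 12
  12)) (B12 (S 3 (L 18 12) (K [(12,12,4),(44,6,1),(12,2,4)] [])) (S 3 (L 18 12) (L 12 12)))))) (S 3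
  (L 18 12) (L 12 12)))) (A12 (B02 (A01 (A02 (B01 (A03 (P 4 (L 24 13)) (M 10 (L 44 18))) (S 3 (L 18
  12) (L 12 12))) (S 3 (L 18 12) (L 12 12))) (S 3 (L 18 12) (L 12 12))) (A01 (S 3 (L 18 12) (L 12
  12)) (A13 (out 11) (S 3 (L 18 12) (L 12 12))))) (B02 (A02 (A01 (B01 (A03 (S 3 (L 18 12) (L 12
  12)) (S 3 (L 18 12) (L 12 12))) (S 3 (L 18 12) (L 12 12))) (S 3 (L 18 12) (L 12 12))) (S 3 (L 18
  12) (L 12 12))) (S 3 (L 18 12) (L 12 12))))) (B12 (A23 (A02 (A03 (B01 (B02 (A01 (S 3 (L 18 12) (L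
  42 12)) (S 3 (L 18 12) (L 42 12))) (S 3 (L 18 12) (L 12 12))) (S 3 (L 18 12) (L 12 12))) (S 3 (L
  18 12) (L 12 12))) (S 3 (L 18 12) (L 12 12))) (A03 (A02 (B01 (B02 (A01 (S 1 (L 7 9) (L 11 9))
  (A13 (M 10 (L 44 18)) (S 1 (L 7 9) (L 11 9)))) (S 3 (L 18 12) (L 12 12))) (S 3 (L 18 12) (L 12
  12))) (B01 (B02 (A12 (A13 (S 3 (L 18 12) (L 42 12)) (S 3 (L 18 12) (L 42 12))) (S 3 (L 18 12) (L
  42 12))) (S 3 (L 18 12) (L 12 12))) (S 3 (L 18 12) (L 12 12)))) (A13 (B01 (B02 (A12 (A01 (A02 (P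
  3 (L 18 12)) (S 3 (L 18 12) (L 42 12))) (S 3 (L 18 12) (L 42 12))) (A02 (A01 (P 3 (L 18 12)) (S 3
  (L 18 12) (L 42 12))) (S 3 (L 18 12) (L 42 12)))) (S 3 (L 18 12) (L 12 12))) (S 3 (L 18 12) (L 12
  12))) (B01 (B02 (A23 (A02 (P 3 (L 18 12)) (S 3 (L 18 12) (L 42 12))) (P 3 (L 18 12))) (S 3 (L 18
  12) (L 42 12))) (S 3 (L 18 12) (L 12 12)))))) (A23 (B02 (A02 (A03 (B01 (A01 (S 3 (L 18 12) (L 42
  12)) (S 3 (L 18 12) (L 12 12))) (S 3 (L 18 12) (L 12 12))) (S 3 (L 18 12) (L 12 12))) (S 3 (L 18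
  12) (L 12 12))) (S 3 (L 18 12) (L 12 12))) (B02 (A03 (A02 (P 3 (L 18 12)) (B01 (P 3 (L 18 12)) (S
  3 (L 18 12) (L 12 12)))) (A13 (B01 (P 3 (L 18 12)) (S 3 (L 18 12) (L 12 12))) (B01 (P 3 (L 18
  12)) (S 3 (L 18 12) (L 42 12))))) (S 3 (L 18 12) (L 12 12))))))))) (A13 (M 10 (A12 (B12 (A01 (A03
  (out 11) (S 3 (L 18 12) (L 12 12))) (A13 (out 4) (A03 (out 4) (B01 (S 3 (L 19 12) (L 12 12)) (B12
  (S 3 (L 19 12) (L 12 12)) (S 3 (L 19 12) (L 12 12))))))) (A01 (B02 (S 3 (L 18 12) (L 12 12)) (S 3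
  (L 19 12) (L 12 12))) (S 3 (L 19 12) (L 12 12)))) (B12 (A02 (A03 (out 11) (S 3 (L 18 12) (L 12
  12))) (A23 (S 3 (L 18 12) (L 12 12)) (S 3 (L 18 12) (L 12 12)))) (A02 (B02 (S 3 (L 18 12) (L 12
  12)) (S 3 (L 19 12) (L 12 12))) (B02 (S 3 (L 18 12) (L 12 12)) (A23 (A12 (S 3 (L 19 12) (L 12
  12)) (S 3 (L 18 12) (L 12 12))) (S 3 (L 19 12) (L 12 12)))))))) (P 8 (A03 (M 10 (B12 (A02 (A01 (S
  4 (L 23 13) (L 2 13)) (S 3 (L 18 12) (L 12 12))) (A12 (S 3 (L 18 12) (L 12 12)) (S 3 (L 18 12) (L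
  12 12)))) (A02 (B02 (S 3 (L 18 12) (L 12 12)) (S 3 (K [(18,12,4),(19,12,4)] []) (L 12 12))) (S 3
  (L 18 12) (L 12 12))))) (B12 (A23 (A12 (S 3 (L 18 12) (L 12 12)) (S 3 (L 18 12) (L 12 12))) (A13
  (S 3 (L 18 12) (L 12 12)) (A03 (S 3 (L 18 12) (L 12 12)) (B01 (B02 (A23 (S 3 (L 18 12) (L 42 12))
  (P 3 (L 18 12))) (S 3 (L 18 12) (L 42 12))) (S 3 (L 18 12) (L 12 12)))))) (A23 (S 3 (L 18 12) (L
  12 12)) (B02 (A13 (S 3 (L 18 12) (L 12 12)) (A03 (S 3 (L 18 12) (L 12 12)) (B01 (P 3 (L 18 12))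
  (S 3 (L 18 12) (L 12 18))))) (S 3 (L 18 12) (L 12 12))))))))) (A12 (A13 (M 10 (P 1 (A01 (B12 (A02
  (P 8 (M 5 (A03 (A01 (B01 (S 3 (L 19 12) (L 12 12)) (M 3 (K [(42,18,6),(44,6,2),(42,6,1)] [])))
  (B01 (S 3 (L 19 12) (L 12 12)) (M 3 (K [(44,6,3),(42,18,19),(42,6,2)] [])))) (A23 (B01 (S 3 (L 19
  12) (L 12 12)) (M 3 (K [(7,1,3),(42,18,19),(42,6,2)] []))) (S 3 (L 19 12) (L 12 12)))))) (A23
  (out 4) (A03 (out 4) (B01 (S 3 (L 19 12) (L 12 12)) (B12 (A13 (out 4) (A23 (out 4) (S 3 (L 19 12)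
  (L 12 12)))) (S 3 (L 19 12) (L 12 12))))))) (A02 (B02 (S 3 (L 19 12) (L 12 12)) (A03 (A01 (B12 (P
  8 (L 44 6)) (A02 (P 8 (L 44 6)) (P 7 (L 39 3)))) (S 3 (L 19 12) (L 12 12))) (S 3 (L 19 12) (L 12
  12)))) (B02 (A23 (out 4) (A03 (out 4) (S 3 (L 19 12) (L 12 12)))) (S 5 (L 29 1) (L 7 1))))) (B12
  (A12 (A13 (out 4) (A23 (out 4) (B01 (S 3 (L 19 12) (L 12 12)) (B12 (S 3 (L 19 12) (L 12 12)) (S 3
  (L 19 12) (L 12 12)))))) (A23 (out 4) (A13 (out 4) (B01 (S 3 (L 19 12) (L 12 12)) (B12 (P 8 (A03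
  (out 4) (P 7 (M 4 (K [(39,10,2),(43,13,22)] []))))) (S 3 (L 19 12) (L 12 12))))))) (P 7 (A12 (S 3
  (L 19 12) (L 12 12)) (B02 (A23 (out 4) (S 3 (L 19 12) (L 12 12))) (S 3 (L 19 12) (L 37
  12))))))))) (A23 (M 10 (P 1 (B12 (A02 (P 8 (M 5 (A01 (A03 (B01 (S 3 (L 18 18) (L 12 12)) (M 3 (K
  [(42,18,6),(44,6,1),(42,6,1)] []))) (B01 (S 3 (L 18 18) (L 12 12)) (P 6 (M 3 (B12 (S 4 (K
  [(23,19,5),(34,15,2)] []) (K [(2,5,4),(34,15,4)] [])) (S 4 (K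
  [(12,12,4),(23,13,4),(23,19,14),(12,18,1),(44,6,1)] []) (K [(2,19,2),(43,13,16),(2,4,2),(34,9,4)]
  []))))))) (A12 (S 3 (L 18 12) (L 42 18)) (B01 (S 3 (L 18 18) (L 12 12)) (P 6 (M 3 (B12 (S 4 (L 23
  19) (K [(2,19,2),(2,5,8),(34,15,13),(32,5,1)] [])) (S 4 (K [(12,12,2),(23,19,5),(44,6,1)] []) (K
  [(12,12,2),(43,13,1),(7,1,5),(34,9,7),(2,19,5),(32,15,4)] [])))))))))) (A12 (A01 (B01 (B02 (S 3
  (L 18 18) (L 12 12)) (A03 (out 4) (B12 (S 3 (L 18 18) (L 12 18)) (S 3 (L 19 12) (L 12 18))))) (P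
  6 (M 3 (B12 (P 8 (S 4 (L 23 19) (K [(2,5,5),(34,15,7),(43,13,6),(42,6,7)] []))) (A03 (out 4) (K
  [(34,15,3),(34,9,5)] [])))))) (B01 (S 3 (L 18 12) (L 12 12)) (B12 (P 8 (A13 (A12 (S 3 (L 19 12)
  (L 12 12)) (P 6 (M 3 (K [(34,15,1),(42,18,4),(44,6,2)] [])))) (P 6 (M 3 (S 4 (L 23 19) (K
  [(34,15,2),(42,18,1),(34,9,1),(2,5,2),(44,6,2)] [])))))) (S 3 (L 19 12) (L 12 12))))) (A23 (out
  4) (B01 (B02 (P 8 (S 3 (L 18 18) (L 42 18))) (A03 (out 4) (B12 (S 3 (L 18 18) (L 12 18)) (S 3 (L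
  18 18) (L 12 18))))) (P 6 (M 3 (B12 (P 8 (S 4 (L 23 19) (K
  [(2,19,4),(34,9,8),(42,18,2),(42,6,7),(44,13,3)] []))) (A03 (out 4) (K [(34,9,7),(34,15,1)]
  []))))))))) (A02 (B02 (S 3 (L 18 12) (L 12 12)) (A01 (A03 (B12 (S 3 (L 19 12) (L 12 12)) (A02 (S
  3 (L 19 12) (L 12 12)) (P 7 (L 39 3)))) (S 3 (L 18 18) (L 12 12))) (S 3 (L 18 12) (L 12 12))))
  (B02 (A12 (A01 (B01 (S 3 (L 18 18) (L 12 18)) (S 3 (L 18 18) (L 12 12))) (S 3 (L 18 12) (L 12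
  12))) (A23 (out 4) (B01 (S 3 (L 18 18) (L 12 18)) (P 7 (S 5 (L 29 16) (L 38 16)))))) (P 7 (S 3 (L
  19 18) (L 37 12)))))))) (P 8 (B12 (A03 (S 3 (L 18 12) (L 42 18)) (A13 (S 3 (L 18 12) (L 42 18))
  (A23 (S 3 (L 18 12) (L 42 18)) (B01 (B02 (A03 (S 3 (L 18 12) (L 12 18)) (P 3 (L 18 12))) (S 3 (L
  18 12) (L 12 18))) (S 3 (L 18 12) (L 12 12)))))) (A03 (S 3 (L 18 12) (L 12 12)) (B02 (A13 (S 3 (L
  18 12) (L 12 18)) (A23 (M 10 (S 3 (L 19 18) (L 12 18))) (B01 (P 3 (L 18 12)) (S 3 (L 18 12) (L 12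
  18))))) (M 10 (S 3 (L 19 18) (L 12 18))))))))) (A23 (M 10 (P 1 (A02 (B12 (A01 (P 8 (M 5 (A03 (P 6
  (M 3 (A02 (B01 (K [(33,9,2),(34,15,3),(44,13,1),(42,6,1)] []) (B12 (A01 (K [(42,18,44),(42,6,20)]
  []) (A13 (out 4) (K [(42,18,5),(42,6,3)] []))) (A01 (B02 (K [(42,18,44),(42,6,20)] []) (K
  [(12,12,1),(42,18,15),(42,6,6),(44,13,2)] [])) (B02 (A13 (out 4) (K [(42,18,5),(42,6,3)] []))
  (A13 (out 4) (K [(12,12,1),(42,18,4),(42,6,4)] [])))))) (B01 (B02 (K [(34,9,3),(42,18,5)] [])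
  (A12 (K [(34,9,30),(42,18,23),(42,6,11)] []) (P 4 (K [(24,15,6),(42,18,2)] [])))) (B12 (M 7 (P 4
  (A12 (A13 (out 4) (A23 (out 4) (K [(42,18,4),(42,6,4)] []))) (A23 (out 4) (A13 (out 4) (B01 (K
  [(42,18,3),(13,12,3),(42,6,2)] []) (K [(42,6,13),(42,18,8),(13,12,1),(24,5,1)] []))))))) (A12
  (B02 (M 7 (A13 (out 4) (K [(42,18,11),(13,12,4),(44,13,5),(42,6,4)] []))) (A13 (out 4) (K
  [(44,13,2),(42,6,2),(42,18,4)] []))) (P 4 (K [(24,15,12),(42,6,5),(42,18,7)] [])))))))) (A13 (P 6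
  (M 3 (B01 (B02 (K [(34,9,3),(42,18,5)] []) (A12 (K [(34,9,9),(44,13,4),(42,18,11)] []) (L 34 9)))
  (B12 (P 4 (A12 (A01 (A02 (K [(42,18,11),(24,5,2),(42,6,7),(44,13,4)] []) (out 4)) (out 4)) (A02
  (K [(24,15,7),(42,6,5),(24,5,6),(42,18,5)] []) (out 4)))) (A12 (B02 (P 4 (A01 (K
  [(24,15,4),(33,9,11),(44,13,5),(42,6,4)] []) (out 4))) (A01 (K [(7,16,7),(42,6,6),(42,18,11)] [])
  (out 4))) (K [(44,13,4),(34,9,4)] [])))))) (B01 (S 3 (L 18 18) (L 12 18)) (M 3 (S 4 (K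
  [(24,15,1),(44,13,16),(24,5,4),(42,18,4)] []) (L 2 15)))))))) (A13 (out 4) (P 8 (A03 (out 4) (B01
  (S 3 (L 18 18) (L 12 18)) (P 6 (M 3 (K [(34,9,2),(44,13,4),(42,6,2)] [])))))))) (A01 (B02 (P 8
  (A03 (P 6 (M 3 (A02 (K [(34,9,1),(34,15,5),(44,13,2)] []) (K [(34,9,4),(34,15,1),(42,6,3)] []))))
  (A13 (P 6 (K [(34,9,6),(44,6,2)] [])) (S 3 (L 18 18) (L 12 18))))) (A03 (A02 (S 4 (L 24 4) (L 2
  4)) (S 4 (L 23 4) (L 2 4))) (S 4 (L 23 15) (L 2 4)))) (B02 (A13 (out 4) (A03 (out 4) (S 3 (L 18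
  18) (L 12 18)))) (S 5 (L 28 16) (L 7 16))))) (B12 (A12 (A13 (out 4) (A23 (out 4) (S 4 (L 24 15)
  (L 2 15)))) (A23 (out 4) (A13 (out 4) (S 4 (L 24 15) (L 2 15))))) (A12 (B02 (A13 (out 4) (A23
  (out 4) (S 3 (L 18 18) (L 12 18)))) (P 6 (L 34 9))) (B02 (A23 (out 4) (A13 (out 4) (S 3 (L 18 18)
  (L 12 18)))) (P 6 (L 34 9)))))))) (A13 (M 10 (P 1 (B12 (A01 (P 8 (M 5 (A02 (A03 (P 6 (M 3 (B01 (K
  [(33,9,3),(34,15,3),(34,9,1),(44,13,1)] []) (B12 (A01 (L 42 18) (A12 (K [(33,9,5),(42,6,3)] [])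
  (K [(42,18,5),(42,6,3)] []))) (A01 (L 42 18) (B02 (A12 (K [(33,9,5),(42,6,3)] []) (K
  [(42,18,5),(42,6,3)] [])) (A12 (K [(12,12,1),(42,18,4),(42,6,3)] []) (K
  [(12,12,1),(42,18,4),(42,6,3)] [])))))))) (B01 (B02 (S 3 (L 18 18) (L 42 18)) (A13 (P 6 (M 3 (K
  [(34,9,3),(34,15,5),(42,18,1)] []))) (S 3 (L 18 18) (L 12 18)))) (P 6 (M 3 (B12 (A13 (A12 (K
  [(33,9,4),(42,6,3)] []) (K [(42,18,4),(42,6,3)] [])) (K [(42,18,5),(42,6,3)] [])) (A13 (B02 (A12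
  (K [(33,9,5),(42,6,3)] []) (K [(42,18,4),(34,15,1),(42,6,3)] [])) (A12 (K
  [(12,12,1),(42,18,3),(42,6,3)] []) (K [(12,12,1),(42,18,4),(42,6,4)] []))) (K
  [(33,9,3),(34,15,1),(42,6,3)] []))))))) (A12 (B01 (B02 (S 3 (L 18 18) (L 42 18)) (A13 (P 6 (M 3
  (K [(34,9,4),(42,18,1),(34,15,3)] []))) (S 3 (L 18 18) (L 12 18)))) (P 6 (M 3 (B12 (A13 (P 4 (A01
  (K [(42,18,11),(24,5,3),(42,6,7),(44,13,3)] []) (out 4))) (K [(12,18,3),(33,9,8),(42,6,13)] []))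
  (A13 (B02 (A01 (K [(33,9,4),(44,13,2),(42,6,2)] []) (out 4)) (A01 (K
  [(7,16,2),(42,6,2),(42,18,4)] []) (out 4))) (L 34 9)))))) (B01 (S 3 (L 18 18) (L 12 18)) (M 3 (K
  [(12,18,1),(42,18,2),(42,6,5)] []))))))) (A12 (A13 (out 4) (P 8 (B01 (B02 (A03 (out 4) (S 3 (L 18
  18) (L 12 18))) (A03 (out 4) (S 3 (L 18 18) (L 12 18)))) (P 6 (M 3 (B12 (S 4 (K
  [(24,5,10),(42,6,5),(23,19,1),(42,18,8)] []) (L 2 15)) (A03 (out 4) (L 34 9)))))))) (P 8 (A02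
  (B01 (B02 (A03 (out 4) (S 3 (L 18 18) (L 12 18))) (A03 (out 4) (S 3 (L 18 18) (L 12 18)))) (P 6
  (M 3 (B12 (S 4 (K [(24,5,13),(42,6,5),(42,18,6)] []) (L 2 5)) (A03 (out 4) (L 34 9)))))) (B01 (S
  3 (L 18 18) (L 12 18)) (P 6 (M 3 (K [(34,9,2),(44,13,1),(42,6,5)] [])))))))) (A01 (B02 (A02 (A03
  (P 6 (K [(34,9,3),(34,15,5)] [])) (B01 (S 3 (L 18 18) (L 12 18)) (A13 (S 4 (L 24 4) (L 2 4)) (S 3
  (L 18 18) (L 12 18))))) (A12 (B01 (S 3 (L 18 18) (L 12 18)) (A13 (S 4 (L 24 4) (L 2 4)) (S 3 (L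
  18 18) (L 12 18)))) (S 3 (L 18 18) (L 12 18)))) (A02 (A03 (S 4 (L 24 4) (L 2 4)) (B12 (A13 (S 4
  (L 23 4) (L 2 4)) (S 3 (L 18 18) (L 12 18))) (P 7 (L 39 3)))) (A12 (B12 (P 8 (L 44 13)) (P 7 (L
  39 3))) (P 8 (L 44 13))))) (B02 (A12 (A13 (out 4) (P 8 (B01 (S 3 (L 18 18) (L 12 18)) (M 4 (K
  [(44,13,2),(43,13,6)] []))))) (P 8 (A02 (B01 (S 3 (L 18 18) (L 12 18)) (P 7 (M 4 (K
  [(44,13,4),(43,13,16),(39,12,4)] [])))) (S 3 (L 18 18) (L 12 18))))) (S 5 (L 28 16) (L 7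
  16))))))) (P 8 (B12 (A03 (M 10 (A02 (S 3 (L 18 18) (L 42 18)) (A23 (B01 (S 3 (L 18 18) (L 12 18))
  (M 3 (K [(42,18,3),(44,13,1),(42,6,4)] []))) (S 3 (L 18 18) (L 42 18))))) (A23 (A02 (S 3 (L 18
  18) (L 42 18)) (S 3 (L 18 18) (L 12 18))) (A13 (S 3 (L 18 18) (L 42 18)) (B01 (B02 (A03 (S 3 (L
  18 18) (L 12 18)) (P 3 (L 18 18))) (S 3 (L 18 18) (L 12 18))) (S 3 (L 18 18) (L 42 18)))))) (A03
  (B02 (A02 (S 3 (L 18 18) (L 42 18)) (S 3 (L 18 18) (L 12 18))) (A02 (S 3 (L 18 18) (L 42 18)) (S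
  3 (L 18 18) (L 12 18)))) (B02 (A23 (S 3 (L 18 18) (L 12 18)) (A13 (S 3 (L 18 18) (L 12 18)) (B01
  (P 3 (L 18 18)) (S 3 (L 18 18) (L 12 18))))) (S 3 (L 18 18) (L 12 18)))))))))) (A13 (A12 (A01
  (A02 (B12 (A03 (P 8 (A01 (A02 (B01 (M 6 (S 1 (L 8 9) (L 0 16))) (M 10 (S 3 (L 19 18) (L 12 18))))
  (M 10 (S 3 (L 19 18) (L 12 18)))) (M 10 (S 3 (L 19 18) (L 42 18))))) (M 10 (A13 (P 8 (S 3 (L 19
  18) (L 42 18))) (A23 (S 3 (L 19 18) (L 12 18)) (S 3 (L 19 18) (L 12 18)))))) (A03 (B02 (A01 (A02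
  (M 6 (S 1 (L 8 9) (L 0 16))) (M 10 (S 3 (L 19 18) (L 12 18)))) (M 10 (S 3 (L 19 18) (L 12 18))))
  (M 10 (S 3 (L 19 18) (L 12 18)))) (M 10 (S 3 (L 19 18) (L 12 18))))) (M 10 (P 1 (B12 (A23 (A12
  (A13 (B01 (S 3 (L 18 12) (L 12 12)) (B12 (P 8 (A01 (P 6 (M 3 (S 4 (L 23 5) (K
  [(34,15,2),(12,18,1),(43,13,1),(2,5,1),(42,6,3)] [])))) (M 4 (K [(43,13,5),(43,19,2)] [])))) (S 3
  (L 19 12) (L 12 12)))) (B01 (S 3 (L 18 18) (L 12 18)) (P 6 (M 3 (B12 (P 8 (S 4 (L 23 5) (K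
  [(44,13,3),(2,5,2),(34,15,3)] []))) (P 7 (L 37 12))))))) (A02 (B01 (S 3 (L 18 18) (L 12 18)) (P 6
  (M 3 (B12 (P 8 (M 5 (S 4 (L 23 5) (K [(2,5,2),(7,16,5),(32,15,2),(42,18,13),(43,19,1),(43,13,1)]
  [])))) (P 7 (L 37 12)))))) (out 4))) (A13 (A12 (P 8 (S 3 (L 18 12) (L 42 18))) (B01 (S 3 (L 19
  18) (L 12 18)) (B12 (S 3 (L 18 18) (L 12 18)) (S 3 (L 18 18) (L 12 18))))) (A03 (B01 (S 3 (L 19
  18) (L 12 18)) (B12 (S 3 (L 18 18) (L 12 18)) (S 3 (L 19 18) (L 12 18)))) (S 3 (L 19 18) (L 12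
  18))))) (S 3 (L 19 18) (L 12 18)))))) (M 10 (P 1 (A13 (B12 (A12 (A01 (A02 (S 3 (L 19 12) (L 12
  12)) (out 4)) (out 4)) (A02 (P 7 (M 4 (A01 (B01 (S 3 (L 19 12) (L 12 12)) (B12 (A03 (P 8 (K
  [(39,10,1),(43,13,7)] [])) (A23 (P 8 (K [(43,13,7),(39,10,1)] [])) (out 6))) (S 3 (L 19 12) (L 12
  12)))) (out 4)))) (out 4))) (P 7 (S 3 (L 19 12) (L 37 12)))) (B12 (A23 (A02 (P 7 (M 4 (A03 (B01
  (S 3 (L 18 12) (L 12 12)) (B12 (A01 (P 8 (K [(43,13,48),(39,10,3),(43,19,12)] [])) (A12 (S 3 (L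
  19 12) (L 12 12)) (P 8 (K [(43,13,17),(43,19,6),(39,10,1)] [])))) (S 3 (L 19 12) (L 12 12))))
  (B01 (S 3 (L 19 18) (L 12 18)) (B12 (A13 (A12 (A01 (M 3 (K [(37,12,5),(37,2,3)] [])) (out 4)) (P
  6 (M 3 (S 5 (L 29 16) (K [(34,15,5),(7,16,4),(7,1,1),(38,10,10),(37,2,3)] []))))) (P 6 (M 3 (S 5
  (L 29 16) (K [(12,18,9),(34,15,2),(7,1,7),(39,2,7)] []))))) (S 3 (L 19 12) (L 37 12))))))) (out
  4)) (A03 (A02 (S 3 (L 18 12) (L 12 12)) (S 3 (L 19 18) (L 12 18))) (S 3 (L 19 18) (L 12 18)))) (S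
  3 (L 19 18) (L 12 18))))))) (A02 (A01 (B12 (A03 (A02 (A01 (B01 (P 3 (L 18 18)) (S 3 (L 18 18) (L
  12 18))) (S 3 (L 18 18) (L 12 18))) (S 3 (L 18 18) (L 12 18))) (M 10 (A23 (S 3 (L 18 18) (L 12
  18)) (A13 (S 3 (L 18 18) (L 12 18)) (S 3 (L 19 18) (L 12 18)))))) (A03 (B02 (A02 (A01 (P 3 (L 18
  18)) (S 3 (L 18 18) (L 12 18))) (S 3 (L 18 18) (L 12 18))) (S 3 (L 18 18) (L 12 18))) (S 3 (L 18
  18) (L 12 18)))) (M 10 (B12 (A13 (A12 (A01 (B01 (B02 (S 3 (L 18 18) (L 12 18)) (A03 (S 3 (L 18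
  18) (L 12 18)) (B12 (S 3 (L 18 18) (L 12 18)) (S 3 (L 18 18) (L 12 18))))) (P 6 (B12 (S 4 (L 23
  5) (L 2 15)) (L 34 9)))) (out 4)) (A23 (S 3 (L 18 18) (L 12 18)) (B01 (B02 (S 3 (L 18 18) (L 12
  18)) (A03 (S 3 (L 18 18) (L 12 18)) (B12 (S 3 (L 18 18) (L 12 18)) (S 3 (L 19 18) (L 12 18)))))
  (P 6 (L 34 9))))) (A23 (A12 (B01 (S 3 (L 18 18) (L 12 18)) (B12 (S 3 (L 18 18) (L 12 18)) (S 3 (L
  18 18) (L 12 18)))) (S 3 (L 18 18) (L 12 18))) (A03 (B01 (S 3 (L 19 18) (L 12 18)) (B12 (S 3 (L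
  18 18) (L 12 18)) (S 3 (L 18 18) (L 12 18)))) (S 3 (L 19 18) (L 12 18))))) (S 3 (L 19 18) (L 12
  18))))) (M 10 (P 1 (A23 (B12 (A12 (A01 (A02 (S 3 (L 18 18) (L 12 18)) (out 4)) (out 4)) (A02 (A01
  (S 3 (L 18 18) (L 12 18)) (out 0)) (out 0))) (A12 (S 3 (L 19 18) (L 12 18)) (B02 (A02 (A01 (P 8
  (L 44 13)) (out 0)) (out 0)) (S 5 (L 28 16) (L 7 16))))) (B12 (A13 (A01 (A03 (S 3 (L 18 18) (L 12
  18)) (B01 (B02 (S 3 (L 18 18) (L 12 18)) (P 6 (L 34 9))) (P 6 (L 34 9)))) (out 4)) (A03 (A01 (S 3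
  (L 18 18) (L 12 18)) (B01 (S 3 (L 19 18) (L 12 18)) (B12 (P 8 (L 44 13)) (S 3 (L 19 18) (L 12
  18))))) (A23 (B01 (S 3 (L 19 18) (L 12 18)) (B12 (P 8 (L 44 13)) (S 3 (L 19 18) (L 12 18)))) (S 3
  (L 19 18) (L 12 18))))) (S 3 (L 19 18) (L 12 18)))))))) (A23 (A02 (A03 (B12 (A01 (A02 (A03 (B01
  (P 3 (L 18 18)) (S 3 (L 18 18) (L 12 18))) (S 3 (L 18 18) (L 12 18))) (S 3 (L 18 18) (L 12 18)))
  (A12 (A13 (S 3 (L 18 18) (L 12 18)) (S 3 (L 18 18) (L 12 18))) (S 3 (L 18 18) (L 12 18)))) (A01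
  (B02 (A02 (P 3 (L 18 18)) (P 7 (L 39 12))) (P 7 (L 39 12))) (S 3 (L 18 18) (L 12 18)))) (B12 (A13
  (A12 (A01 (S 3 (L 18 18) (L 12 18)) (S 3 (L 18 18) (L 12 18))) (S 3 (L 18 18) (L 12 18))) (S 3 (L
  18 18) (L 12 6))) (S 3 (L 18 18) (L 12 6)))) (M 10 (A12 (B12 (A13 (A01 (S 3 (L 18 18) (L 12 18))
  (A12 (S 3 (L 18 18) (L 12 18)) (B01 (P 7 (L 39 12)) (B12 (P 8 (L 44 13)) (P 7 (L 39 12)))))) (S 3
  (L 18 18) (L 12 6))) (S 3 (L 18 18) (L 12 6))) (B12 (A23 (A02 (S 4 (L 24 15) (L 2 15)) (out 0))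
  (S 3 (L 18 18) (L 12 6))) (A23 (B02 (S 4 (L 23 15) (L 2 15)) (S 4 (L 23 15) (L 2 15))) (P 7 (L 39
  12))))))) (A03 (A02 (P 3 (L 18 18)) (B12 (A12 (A13 (A01 (S 3 (L 18 18) (L 12 18)) (S 3 (L 18 18)
  (L 12 18))) (S 3 (L 18 18) (L 12 18))) (S 4 (L 24 15) (L 2 15))) (P 7 (L 39 12)))) (M 10 (P 7 (M
  4 (A13 (B12 (A12 (S 3 (L 18 18) (L 12 18)) (L 39 12)) (L 39 12)) (B12 (P 8 (A23 (A02 (M 6 (P 3
  (A03 (K [(3,9,9),(39,12,6),(43,15,4),(18,6,5)] []) (out 0)))) (out 0)) (M 6 (P 3 (A03 (A02 (B01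
  (B02 (L 18 18) (A01 (K [(18,18,2),(39,12,2),(43,15,3),(18,6,1)] []) (out 0))) (B12 (A01 (K
  [(3,9,4),(43,15,2),(18,6,2)] []) (out 0)) (A01 (K [(18,18,3),(39,12,1),(43,15,2),(18,6,2)] [])
  (out 0)))) (out 0)) (out 0)))))) (A23 (B02 (A02 (P 3 (A03 (K [(18,18,2),(39,12,4),(19,13,2)] [])
  (out 0))) (out 0)) (A02 (A03 (P 3 (K [(39,12,5),(39,18,1),(19,13,2)] [])) (out 0)) (out 0))) (B02
  (M 6 (P 3 (A03 (A02 (K [(3,9,65),(39,12,55),(19,13,69),(18,6,12)] []) (out 0)) (out 0)))) (A03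
  (A02 (M 6 (P 3 (K [(2,9,1),(39,12,2),(3,9,2),(19,13,1),(18,6,2)] []))) (out 0)) (out
  0)))))))))))))))))

/-- its cell -/
def cD3 : Cell :=
  ⟨0, 0, 0, 0, 1114112, 0, 0, 1114112, 1114112, 1114112, 1114112, 1114112, 0, 0, 0, 3129344, 5070848, 0⟩

theorem okD3 : check datD tD3 cD3 0 0 = true := by
  decide +kernel

end Pool.Agent.H315.NW
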