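import Pool.Agent.H315.NW.Data

/-!
# Project NW (helper315): certificates (generated)
-/

set_option autoImplicit false
set_option maxRecDepth 100000

namespace Pool.Agent.H315.NW

open Tr

/-- a part of the certificate -/
def tD4 : Tr :=
  (A03 (P 8 (M 5 (A02 (M 9 (P 0 (A01 (M 11 (A03 (A02 (B12 (A01 (A03 (out 9) (S 1 (L 7 9) (L 0 9)))
  (A13 (out 10) (S 1 (L 7 9) (L 0 9)))) (A01 (B02 (S 1 (L 7 9) (L 0 9)) (A03 (out 9) (A13 (out 9)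
  (B12 (P 4 (L 24 13)) (P 3 (L 18 12)))))) (B02 (S 3 (L 18 12) (L 42 12)) (A13 (out 10) (A03 (out
  10) (B12 (P 4 (L 24 13)) (A23 (P 4 (L 24 13)) (M 10 (L 44 18))))))))) (B12 (A12 (A13 (out 10) (S
  1 (L 7 9) (L 0 9))) (S 3 (L 18 12) (L 42 12))) (A12 (B02 (S 3 (L 18 12) (L 42 12)) (A13 (out 10)
  (A23 (P 4 (L 24 13)) (B12 (P 4 (L 24 13)) (A03 (P 4 (L 24 13)) (M 10 (L 44 6))))))) (B02 (S 3 (L
  18 12) (L 42 12)) (A23 (P 4 (L 24 13)) (A13 (P 4 (L 24 13)) (P 3 (L 18 12)))))))) (A13 (B12 (A12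
  (A01 (S 3 (L 18 12) (L 42 12)) (A13 (out 10) (B01 (S 3 (L 18 12) (L 42 12)) (S 1 (L 7 1) (L 0
  9))))) (S 3 (L 18 12) (L 42 12))) (A12 (B02 (S 3 (L 18 12) (L 42 12)) (A01 (A02 (M 10 (L 44 6))
  (S 1 (L 7 1) (L 0 1))) (S 1 (L 7 1) (L 0 1)))) (B02 (S 3 (L 18 12) (L 42 12)) (A02 (A01 (P 3 (L
  18 12)) (S 1 (L 7 1) (L 0 1))) (S 3 (L 18 12) (L 42 12)))))) (B12 (A23 (S 3 (L 18 12) (L 42 12))
  (A03 (S 3 (L 18 12) (L 42 12)) (A13 (S 3 (L 18 12) (L 42 12)) (B01 (P 3 (L 18 12)) (B12 (S 1 (L 7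
  1) (L 0 1)) (P 3 (L 18 12))))))) (P 3 (L 18 12)))))) (A13 (M 7 (P 4 (A12 (B12 (A01 (A03 (out 10)
  (A13 (out 10) (B01 (S 3 (L 18 18) (L 42 18)) (B12 (A23 (A02 (A03 (out 10) (S 3 (L 16 18) (L 42
  18))) (out 3)) (A03 (A02 (out 10) (S 3 (L 16 18) (L 42 18))) (S 3 (L 16 18) (L 42 18)))) (S 3 (L
  16 18) (L 42 18)))))) (A13 (out 3) (A03 (out 3) (S 3 (L 18 18) (L 42 18))))) (P 2 (A01 (S 3 (L 18
  18) (L 12 12)) (S 3 (L 18 18) (L 42 18))))) (M 11 (P 2 (B12 (A02 (A03 (out 10) (A23 (B01 (S 3 (L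
  16 12) (L 42 12)) (B12 (A12 (A01 (P 6 (K [(34,15,45),(34,5,10),(24,19,9)] [])) (P 10 (M 1 (S 3 (L
  18 12) (K [(42,12,1),(42,18,1),(11,10,2),(53,6,1),(53,13,1),(12,2,2)] []))))) (M 3 (S 1 (L 9 1)
  (K [(42,12,2),(0,1,5),(42,18,2)] [])))) (S 3 (L 18 12) (L 12 12)))) (B01 (S 3 (L 18 18) (L 42
  18)) (B12 (A13 (A01 (A03 (P 6 (K [(34,15,5),(34,5,2)] [])) (S 3 (L 16 18) (L 42 18))) (S 3 (L 16
  18) (L 42 18))) (A03 (A01 (S 1 (L 7 16) (L 11 16)) (S 3 (L 16 18) (L 42 18))) (S 3 (L 16 18) (L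
  42 18)))) (S 3 (L 18 18) (L 42 18)))))) (A23 (S 3 (L 16 12) (L 42 12)) (A03 (S 3 (L 16 12) (L 42
  12)) (S 3 (L 18 18) (L 42 18))))) (A02 (S 3 (L 18 18) (L 42 12)) (B02 (S 3 (L 16 12) (L 42 12))
  (S 1 (L 7 1) (L 11 16)))))))))) (P 2 (A03 (M 7 (B12 (A02 (A01 (A03 (out 10) (B01 (S 3 (L 18 12)
  (L 42 12)) (B12 (M 3 (S 1 (L 7 1) (K [(0,1,2),(42,12,3),(0,16,2)] []))) (S 3 (L 18 12) (L 12
  12))))) (A12 (B01 (S 3 (L 18 18) (L 42 18)) (S 1 (L 9 16) (L 11 16))) (B01 (S 3 (L 18 12) (L 42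
  12)) (B12 (M 3 (S 1 (L 7 1) (K [(0,1,5),(42,12,1),(42,18,2)] []))) (S 3 (L 18 12) (L 12 12))))))
  (A12 (A01 (S 3 (L 16 12) (L 42 12)) (S 3 (L 18 18) (L 12 12))) (S 3 (L 16 12) (L 42 12)))) (A02
  (S 3 (L 18 18) (L 42 12)) (B02 (S 3 (L 16 12) (L 42 12)) (A12 (S 1 (L 7 1) (L 11 1)) (A23 (S 1 (L
  7 1) (L 11 16)) (S 1 (L 7 1) (L 0 1)))))))) (B12 (A23 (M 7 (S 3 (L 16 12) (L 12 12))) (A13 (M 7
  (S 3 (L 16 12) (L 12 12))) (A03 (M 7 (S 3 (L 16 12) (L 42 12))) (B01 (P 3 (K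
  [(18,18,4),(18,12,4)] [])) (B12 (M 7 (S 3 (L 16 12) (L 42 12))) (P 3 (K [(18,12,7),(18,18,1)]
  []))))))) (A23 (B02 (A12 (A13 (S 3 (L 18 18) (L 42 12)) (M 6 (P 3 (K [(3,9,4),(18,12,4)] []))))
  (P 3 (K [(18,12,4),(18,18,4)] []))) (A12 (A13 (B12 (S 1 (L 7 1) (L 0 16)) (P 3 (L 18 18))) (S 1
  (L 7 1) (L 11 1))) (P 3 (K [(18,12,5),(18,18,3)] [])))) (B02 (A13 (A12 (S 3 (L 18 18) (L 12 18))
  (P 3 (K [(18,18,4),(18,12,4)] []))) (P 3 (K [(18,18,4),(18,12,4)] []))) (A13 (A12 (M 10 (L 44 6))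
  (S 1 (L 7 1) (L 11 1))) (S 1 (L 7 1) (L 11 1)))))))))))) (A12 (M 9 (P 0 (A13 (M 7 (A01 (P 2 (B12
  (A02 (A03 (S 3 (L 16 12) (L 42 12)) (S 3 (L 18 18) (L 42 18))) (S 3 (L 18 18) (L 42 18))) (A02
  (B02 (S 3 (L 16 12) (L 42 12)) (S 1 (L 7 16) (L 11 16))) (S 3 (L 18 18) (L 42 18))))) (B12 (A12
  (A13 (out 3) (A23 (out 3) (S 3 (L 18 18) (L 42 18)))) (A23 (out 3) (A13 (out 3) (S 3 (L 18 18) (L
  42 18))))) (A12 (S 3 (L 18 18) (L 42 18)) (B02 (A23 (out 3) (S 3 (L 18 18) (L 42 18))) (S 1 (L 7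
  16) (L 0 16))))))) (P 2 (A23 (B12 (M 7 (A02 (A01 (S 3 (L 16 12) (L 42 12)) (S 3 (L 18 18) (L 42
  18))) (S 3 (L 18 18) (L 42 18)))) (A02 (B02 (M 7 (S 3 (L 16 12) (L 42 12))) (A01 (S 1 (L 7 16) (L
  11 16)) (A12 (B12 (S 1 (L 7 16) (L 0 16)) (P 3 (L 18 18))) (P 3 (L 18 18))))) (B02 (S 3 (L 18 18)
  (L 42 18)) (A12 (A01 (P 3 (L 18 18)) (B12 (S 1 (L 7 16) (L 0 16)) (P 3 (L 18 18)))) (P 3 (L 18
  18)))))) (B12 (A03 (M 7 (A01 (S 3 (L 16 12) (L 42 12)) (S 3 (L 16 12) (L 42 18)))) (A13 (M 7 (S 3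
  (L 16 12) (L 42 18))) (M 6 (P 3 (A23 (P 4 (L 21 15)) (K [(18,18,14),(18,12,10)] [])))))) (A03
  (B02 (M 7 (P 4 (A01 (M 6 (P 3 (K [(21,15,4),(18,18,2),(18,12,2)] []))) (A13 (S 1 (L 7 16) (L 11
  16)) (P 3 (K [(18,18,2),(16,12,4),(18,12,2)] [])))))) (A01 (P 3 (A02 (K [(18,18,14),(18,12,10)]
  []) (S 1 (L 7 16) (L 11 16)))) (A13 (B12 (S 1 (L 7 16) (L 0 16)) (P 3 (L 18 18))) (S 1 (L 7 16)
  (L 11 16))))) (B02 (A13 (P 4 (A01 (M 6 (P 3 (K [(18,18,2),(21,15,4),(18,12,2)] []))) (S 1 (L 7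
  16) (L 11 16)))) (P 3 (A23 (B01 (K [(18,18,6),(18,12,2)] []) (S 1 (L 7 16) (L 11 16))) (K
  [(18,18,5),(18,12,3)] [])))) (A13 (A01 (S 1 (L 7 16) (L 11 16)) (B12 (A12 (M 10 (L 44 13)) (P 3
  (L 18 18))) (P 3 (L 18 18)))) (M 6 (S 1 (L 8 1) (L 11 16)))))))))))) (M 11 (M 6 (P 3 (P 2 (A23
  (A02 (B12 (A01 (A03 (P 4 (L 21 15)) (A13 (P 4 (L 21 15)) (S 4 (L 21 15) (L 43 15)))) (A13 (out 3)
  (A03 (out 3) (S 0 (L 3 9) (L 40 9))))) (A01 (B02 (S 4 (L 21 15) (L 43 15)) (S 1 (L 7 16) (L 11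
  16))) (B02 (S 0 (L 3 9) (L 40 9)) (M 9 (L 18 18))))) (B12 (A12 (A13 (out 3) (A23 (out 3) (S 0 (L
  3 9) (L 40 9)))) (A23 (out 3) (A13 (out 3) (S 0 (L 3 9) (L 40 9))))) (A12 (B02 (A13 (out 3) (S 4
  (L 21 15) (L 43 15))) (S 1 (L 7 16) (L 11 16))) (B02 (S 4 (L 21 15) (L 43 15)) (A23 (out 3) (S 1
  (L 7 16) (L 11 16))))))) (M 9 (A13 (B12 (P 10 (A01 (S 4 (K [(21,15,3),(18,18,5),(54,13,16)] [])
  (L 43 15)) (L 18 18))) (A01 (B02 (S 4 (L 21 15) (L 43 15)) (S 1 (L 7 16) (L 11 16))) (L 18 18)))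
  (B12 (A03 (A02 (P 4 (L 21 15)) (A23 (S 4 (L 21 15) (L 43 15)) (P 4 (L 21 15)))) (A23 (A02 (S 4 (L
  21 15) (L 43 15)) (S 4 (L 21 15) (L 43 15))) (A13 (S 4 (L 21 15) (L 43 15)) (B01 (B02 (S 4 (L 21
  15) (L 43 4)) (A03 (S 4 (L 21 15) (L 43 15)) (S 1 (L 7 16) (L 11 16)))) (B12 (P 4 (L 21 15)) (A03
  (S 4 (L 21 15) (L 43 15)) (S 1 (L 7 16) (L 11 16)))))))) (A03 (B02 (A02 (P 4 (K
  [(21,15,4),(18,18,2),(18,12,2)] [])) (A23 (L 18 18) (B01 (K [(18,18,6),(18,12,2)] []) (S 1 (L 7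
  16) (L 11 16))))) (A02 (A01 (B12 (A03 (P 10 (L 54 13)) (S 1 (L 7 1) (L 11 16))) (K
  [(18,18,16),(18,12,8)] [])) (S 1 (L 7 16) (L 11 16))) (S 1 (L 7 16) (L 11 16)))) (B02 (A23 (A02
  (B01 (K [(18,18,6),(18,12,2)] []) (S 1 (L 7 16) (L 11 16))) (L 18 18)) (A13 (B01 (K
  [(18,18,6),(18,12,2)] []) (S 1 (L 7 16) (L 11 16))) (B01 (K [(18,18,5),(18,12,3)] []) (S 1 (L 7
  16) (L 11 1))))) (S 1 (L 8 1) (L 11 16)))))))))))))))) (A13 (P 8 (M 5 (A12 (M 9 (P 0 (A01 (P 2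
  (A02 (B12 (A03 (A01 (P 3 (L 18 18)) (A13 (S 1 (L 7 16) (L 11 16)) (P 3 (L 18 18)))) (A13 (A01 (P
  3 (L 18 18)) (S 1 (L 7 16) (L 11 16))) (P 3 (L 18 18)))) (A03 (B02 (A01 (P 3 (L 18 18)) (A13 (S 1
  (L 7 16) (L 11 16)) (P 3 (L 18 18)))) (A01 (P 3 (L 18 18)) (A13 (B12 (A12 (M 10 (L 44 13)) (P 3
  (L 18 18))) (P 3 (L 18 18))) (P 3 (L 18 18))))) (B02 (A13 (A01 (P 3 (L 18 18)) (S 1 (L 7 16) (L
  11 16))) (P 3 (L 18 18))) (A13 (A01 (P 3 (L 18 18)) (B12 (S 1 (L 7 16) (L 0 16)) (P 3 (L 18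
  18)))) (P 3 (L 18 18)))))) (B12 (A23 (S 3 (L 18 18) (L 42 18)) (A13 (S 3 (L 18 18) (L 42 18)) (P
  3 (L 18 18)))) (A23 (B02 (S 3 (L 18 18) (L 42 18)) (A12 (A13 (B12 (S 1 (L 7 16) (L 0 16)) (P 3 (L
  18 18))) (P 3 (L 18 18))) (P 3 (L 18 18)))) (B02 (A13 (S 3 (L 18 18) (L 42 18)) (P 3 (L 18 18)))
  (A13 (A12 (B12 (S 1 (L 7 16) (L 0 16)) (P 3 (L 18 18))) (P 3 (L 18 18))) (P 3 (L 18 18))))))))
  (A13 (B12 (A12 (A01 (A02 (S 3 (L 18 18) (L 42 18)) (out 3)) (out 3)) (A02 (A01 (S 3 (L 18 18) (L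
  42 18)) (out 3)) (out 3))) (A12 (S 3 (L 18 18) (L 42 18)) (B02 (A02 (S 3 (L 18 18) (L 42 18))
  (out 3)) (S 1 (L 7 16) (L 0 16))))) (M 11 (B12 (A23 (P 4 (A02 (A03 (S 3 (L 18 18) (L 42 18)) (B01
  (B02 (P 3 (K [(18,18,4),(24,15,4)] [])) (S 3 (L 18 18) (L 42 18))) (S 3 (L 18 18) (L 42 18))))
  (out 3))) (A03 (P 4 (A02 (S 3 (L 18 18) (L 42 18)) (B01 (L 24 15) (S 1 (L 7 16) (L 0 16))))) (A13
  (P 4 (K [(24,15,6),(24,5,2)] [])) (P 3 (L 18 18))))) (A23 (P 4 (B02 (A02 (A03 (S 3 (L 18 18) (L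
  42 18)) (L 24 15)) (out 3)) (S 1 (L 7 16) (L 0 16)))) (B02 (A03 (P 4 (A02 (S 3 (L 18 18) (L 42
  18)) (L 24 15))) (A13 (P 4 (L 24 15)) (P 3 (L 18 18)))) (A03 (A02 (M 10 (L 44 13)) (B12 (P 4 (L
  24 15)) (A12 (B02 (P 4 (L 24 15)) (M 10 (L 44 13))) (P 3 (L 18 18))))) (A13 (B12 (P 4 (L 24 15))
  (A12 (B02 (P 4 (L 24 15)) (M 10 (L 44 13))) (P 3 (L 18 18)))) (P 3 (L 18 18)))))))))))) (M 11 (M
  6 (P 3 (P 2 (A02 (M 9 (A01 (S 1 (L 7 16) (L 11 16)) (B12 (L 18 18) (S 4 (L 24 15) (L 43 15)))))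
  (A23 (B12 (P 10 (A12 (A01 (A02 (M 9 (K [(18,18,15),(54,13,1),(18,6,8)] [])) (out 3)) (out 3))
  (A02 (A01 (S 4 (L 21 15) (L 43 15)) (out 2)) (out 2)))) (A12 (B02 (S 4 (L 24 15) (L 43 15)) (S 1
  (L 7 16) (L 11 16))) (B02 (S 4 (L 21 15) (L 43 15)) (A02 (S 1 (L 7 16) (L 11 16)) (out 2))))) (M
  9 (P 0 (B12 (A13 (P 10 (A01 (A03 (K [(18,18,15),(54,13,1),(18,6,8)] []) (B01 (S 4 (K
  [(24,15,3),(18,18,5)] []) (L 43 15)) (P 4 (B12 (A23 (K [(24,15,2),(18,18,10),(18,6,9),(54,19,3)]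
  []) (A13 (K [(18,18,10),(24,15,2),(54,19,3),(18,6,9)] []) (K
  [(24,15,2),(18,18,2),(3,1,2),(54,19,2)] []))) (K [(24,15,3),(54,13,1),(21,15,1),(18,18,4)]
  []))))) (out 3))) (A03 (A01 (B01 (S 4 (L 24 15) (L 43 15)) (B12 (P 10 (M 7 (K
  [(16,12,3),(18,18,1),(54,19,4)] []))) (S 4 (L 24 15) (L 43 15)))) (B01 (S 4 (L 24 15) (L 43 15))
  (P 4 (S 1 (L 7 16) (K [(24,15,1),(0,16,2),(18,18,1),(11,10,4)] []))))) (A23 (B01 (S 4 (L 24 15)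
  (L 43 15)) (P 4 (K [(24,15,4),(18,6,1),(24,5,3)] []))) (B01 (S 4 (L 24 15) (L 43 15)) (S 1 (L 7
  16) (L 0 16)))))) (S 4 (L 24 15) (L 43 15)))))))))))))) (M 11 (M 6 (P 3 (P 2 (A23 (P 8 (M 5 (A02
  (A03 (S 1 (L 7 16) (L 11 16)) (B12 (A13 (S 1 (L 7 16) (L 11 16)) (A23 (A12 (B01 (B02 (A01 (A03 (M
  9 (L 18 18)) (out 2)) (out 2)) (S 1 (L 7 16) (L 11 16))) (S 1 (L 7 16) (L 11 16))) (B01 (B02 (A02
  (A03 (M 9 (L 18 18)) (P 10 (L 54 13))) (P 10 (L 54 13))) (M 9 (L 18 18))) (M 9 (L 18 18)))) (A03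
  (B01 (M 4 (L 43 15)) (S 1 (L 7 16) (L 11 16))) (out 2)))) (A13 (M 9 (B02 (S 1 (L 7 16) (L 11 16))
  (A12 (M 10 (K [(44,13,2),(19,13,2),(19,6,1),(44,4,2)] [])) (A23 (L 18 18) (M 10 (K
  [(19,13,6),(18,18,2)] [])))))) (B02 (A23 (A12 (M 4 (L 43 15)) (B01 (A02 (M 4 (L 43 15)) (B02 (P
  10 (L 54 13)) (M 9 (L 18 18)))) (M 9 (L 18 18)))) (M 4 (L 43 15))) (M 9 (P 7 (M 4 (K
  [(43,15,3),(18,18,3),(39,18,2)] [])))))))) (A12 (B12 (A13 (A01 (A03 (B01 (S 4 (L 24 15) (L 43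
  15)) (B12 (M 7 (P 4 (K [(16,12,4),(24,5,4)] []))) (S 4 (L 24 15) (L 43 15)))) (S 4 (L 24 15) (L
  43 15))) (S 4 (L 24 15) (L 43 15))) (A03 (A01 (B01 (B02 (S 0 (L 3 9) (L 10 9)) (S 4 (L 24 15) (L
  43 15))) (S 4 (L 21 15) (L 43 15))) (out 2)) (out 2))) (A13 (S 4 (L 24 15) (L 43 15)) (B02 (A03
  (A01 (B01 (A02 (B02 (P 10 (L 54 13)) (M 9 (L 18 18))) (out 2)) (S 1 (L 7 16) (L 11 16))) (out 2))
  (out 2)) (S 1 (L 8 16) (L 11 16))))) (B12 (A23 (S 4 (L 21 15) (L 43 15)) (A03 (S 4 (L 21 15) (L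
  43 15)) (out 2))) (A23 (B02 (S 4 (L 21 15) (L 43 15)) (A02 (S 1 (L 7 16) (L 11 16)) (out 2)))
  (B02 (A03 (S 4 (L 24 15) (L 43 15)) (out 2)) (S 1 (L 8 16) (L 11 16))))))))) (A03 (P 8 (M 5 (A02
  (S 1 (L 7 16) (L 11 16)) (B12 (A12 (S 1 (L 7 16) (L 11 16)) (A23 (A02 (S 1 (L 7 16) (L 11 16))
  (out 2)) (S 1 (L 7 16) (L 11 16)))) (A12 (M 9 (P 0 (B02 (S 1 (L 7 16) (L 11 16)) (M 10 (P 1 (A13
  (K [(44,13,461),(19,13,173),(18,6,149),(44,4,217)] []) (P 7 (K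
  [(7,16,1),(3,9,5),(39,12,28),(19,13,10),(18,6,6),(39,18,15)] [])))))))) (P 7 (M 4 (B02 (A23 (L 43
  15) (S 1 (L 7 16) (L 11 16))) (M 10 (M 9 (P 1 (P 0 (A23 (K [(19,13,4),(39,18,2),(18,18,2)] [])
  (A13 (K [(8,16,4),(18,18,2),(39,18,2)] []) (K [(3,9,2),(19,13,1),(2,9,2),(39,12,3)]
  []))))))))))))))) (A13 (P 8 (M 5 (B12 (A12 (M 9 (A01 (A02 (M 10 (K
  [(44,13,11),(19,13,12),(18,6,1)] [])) (S 4 (L 24 15) (L 43 15))) (S 4 (L 24 15) (L 43 15)))) (A02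
  (M 9 (A01 (M 10 (P 7 (M 4 (K [(43,15,4),(44,13,2),(39,12,2)] [])))) (out 2))) (out 2))) (A12 (M 9
  (P 0 (B02 (A01 (P 7 (M 4 (K [(43,15,4),(18,18,2),(39,12,2)] []))) (S 4 (L 24 15) (L 43 15))) (M
  10 (P 1 (A01 (P 7 (M 4 (A02 (B12 (K [(19,13,26),(2,15,2),(44,13,26),(18,6,3),(39,18,6)] []) (A03
  (K [(8,1,1),(7,16,4),(39,12,10),(44,4,1),(39,18,8)] []) (B02 (K
  [(19,13,4),(38,12,4),(18,6,7),(18,18,9)] []) (K [(19,6,2),(43,15,4),(43,4,2)] [])))) (K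
  [(43,15,2),(18,6,2),(39,18,2),(39,12,2),(44,13,1)] [])))) (K
  [(18,6,19),(19,13,25),(44,13,13),(18,18,7)] []))))))) (P 7 (M 4 (B02 (A02 (M 9 (K
  [(43,15,4),(18,18,2),(39,12,2)] [])) (out 2)) (M 10 (M 9 (P 0 (A02 (A01 (B12 (K
  [(19,13,2),(43,15,2),(2,9,1),(44,13,2),(39,12,2)] []) (K [(39,18,7),(44,4,4),(18,6,6),(18,18,8)]
  [])) (out 2)) (out 2)))))))))))) (P 7 (M 4 (B12 (P 8 (A23 (A02 (M 10 (K [(43,15,5),(44,13,3)]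
  [])) (out 2)) (M 10 (A03 (A02 (M 9 (K [(43,15,4),(18,18,8),(19,13,3),(39,12,3),(18,6,6)] []))
  (out 2)) (out 0))))) (A23 (P 8 (M 5 (B02 (A02 (M 10 (K [(19,13,103),(43,15,18),(44,13,80)] []))
  (out 2)) (M 10 (M 9 (P 0 (A02 (A03 (B12 (K [(19,13,7),(38,12,2),(2,9,2),(18,6,2),(44,13,10)] [])
  (K [(39,18,4),(44,4,1),(43,4,3)] [])) (out 2)) (out 2)))))))) (M 10 (B02 (A03 (P 8 (S 0 (K
  [(43,15,14),(19,13,22),(3,9,5),(44,13,23)] []) (L 10 9))) (out 0)) (M 9 (P 0 (A03 (A02 (K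
  [(2,9,13),(19,13,92),(18,18,21),(19,6,6),(39,12,67)] []) (out 2)) (out 0)))))))))))))))))))

/-- its cell -/
def cD4 : Cell :=
  ⟨0, 0, 0, 0, 0, 1114112, 1114112, 0, 1114112, 1114112, 1114112, 1114112, 0, 0, 0, 3129344, 5070848, 0⟩

theorem okD4 : check datD tD4 cD4 0 0 = true := by
  decide +kernel

end Pool.Agent.H315.NW
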