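import Pool.Agent.H315.NW.Data

/-!
# Project NW (helper315): certificates (generated)
-/

set_option autoImplicit false
set_option maxRecDepth 100000

namespace Pool.Agent.H315.NW

open Tr

/-- a part of the certificate -/
def tD5 : Tr :=
  (M 9 (P 0 (A03 (A02 (P 8 (M 5 (A01 (M 11 (P 2 (A03 (A02 (B12 (A01 (A03 (out 10) (S 1 (L 7 9) (L 0
  9))) (A13 (out 10) (S 1 (L 7 9) (L 0 9)))) (A01 (B02 (S 1 (L 7 9) (L 0 9)) (M 10 (L 44 18))) (B02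
  (S 3 (L 18 12) (L 42 12)) (S 3 (L 18 12) (L 42 12))))) (B12 (P 4 (A12 (A13 (out 10) (A23 (out 10)
  (B01 (S 3 (L 18 12) (L 42 12)) (M 10 (K [(44,18,5),(44,6,3)] []))))) (A23 (M 10 (P 6 (M 3 (A02
  (B01 (K [(34,15,5),(42,12,3)] []) (B12 (A01 (A03 (out 10) (A13 (out 10) (K
  [(34,15,382),(44,6,618)] []))) (A13 (out 10) (A03 (out 10) (K [(34,15,4),(44,6,4)] [])))) (K
  [(34,15,5),(42,12,3)] []))) (K [(34,15,3),(23,13,3),(44,6,2)] []))))) (A13 (M 10 (P 6 (M 3 (B01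
  (K [(42,12,3),(34,15,5)] []) (B12 (A01 (A02 (out 10) (K [(34,15,1),(44,6,5),(44,18,2)] [])) (K
  [(34,15,2),(44,6,5),(44,18,1)] [])) (K [(34,15,5),(42,12,3)] [])))))) (B01 (S 3 (L 18 12) (L 42
  12)) (M 10 (B12 (P 6 (M 3 (A03 (A02 (out 10) (K [(34,15,1),(44,6,5),(44,18,2)] [])) (K
  [(42,12,1),(34,15,1),(44,6,6)] [])))) (S 3 (L 18 12) (L 42 12))))))))) (A12 (B02 (S 3 (L 18 12)
  (L 12 12)) (S 3 (L 18 12) (L 12 12))) (B02 (S 3 (L 18 12) (L 12 12)) (S 3 (L 18 12) (L 12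
  12)))))) (A13 (B12 (M 7 (P 4 (A12 (A01 (A02 (S 1 (L 7 1) (L 0 9)) (B01 (S 3 (L 18 12) (L 12 12))
  (B12 (P 6 (S 1 (K [(7,1,5),(34,15,3)] []) (L 0 1))) (S 3 (L 18 12) (L 12 12))))) (A13 (out 10)
  (B01 (S 3 (L 18 12) (L 12 12)) (B12 (P 6 (S 1 (K [(7,1,5),(34,15,3)] []) (L 0 1))) (S 3 (L 18 12)
  (L 12 12)))))) (A02 (A01 (B01 (S 3 (L 18 12) (L 42 12)) (B12 (P 6 (K
  [(33,15,1),(34,15,2),(34,5,5)] [])) (S 3 (L 18 12) (L 42 12)))) (B01 (S 3 (L 18 12) (L 12 12))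
  (B12 (P 6 (S 1 (K [(34,15,3),(7,1,5)] []) (L 11 9))) (S 3 (L 18 12) (L 12 12))))) (A23 (M 10 (P 6
  (K [(34,15,2),(23,13,5),(44,6,1)] []))) (B01 (S 3 (L 18 12) (L 12 12)) (B12 (P 6 (S 1 (K
  [(34,15,2),(9,16,2),(7,1,3)] []) (L 11 9))) (S 3 (L 18 12) (L 12 12))))))))) (A12 (B02 (S 3 (L 18
  12) (L 12 12)) (M 10 (L 44 6))) (B02 (S 3 (L 18 12) (L 12 12)) (S 3 (L 18 12) (L 12 12))))) (B12
  (A23 (S 3 (L 18 12) (L 12 12)) (A03 (S 3 (L 18 12) (L 12 12)) (A13 (S 3 (L 18 12) (L 12 12)) (B01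
  (B02 (A23 (S 3 (L 18 12) (L 42 12)) (P 3 (L 18 12))) (S 3 (L 18 12) (L 42 12))) (S 3 (L 18 12) (L
  12 12)))))) (A23 (B02 (A02 (A03 (S 3 (L 18 12) (L 42 12)) (B01 (A13 (S 3 (L 18 12) (L 42 12)) (S
  3 (L 18 12) (L 42 12))) (S 3 (L 18 12) (L 12 12)))) (A12 (B01 (A13 (S 3 (L 18 12) (L 42 12)) (S 3
  (L 18 12) (L 42 12))) (S 3 (L 18 12) (L 12 12))) (S 3 (L 18 12) (L 12 12)))) (S 3 (L 18 12) (L 12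
  12))) (B02 (A03 (A02 (P 3 (L 18 12)) (B01 (P 3 (L 18 12)) (S 3 (L 18 12) (L 42 12)))) (A13 (B01
  (P 3 (L 18 12)) (S 3 (L 18 12) (L 42 12))) (B01 (P 3 (L 18 12)) (S 3 (L 18 12) (L 42 12))))) (S 3
  (L 18 12) (L 42 12))))))))) (A13 (A12 (B12 (A01 (A03 (out 10) (A13 (out 10) (B01 (S 3 (L 18 18)
  (L 42 18)) (S 1 (L 7 16) (L 0 16))))) (A13 (out 8) (A03 (out 10) (S 3 (L 18 18) (L 42 18))))) (P
  2 (A01 (S 3 (L 18 18) (L 12 12)) (S 3 (L 18 18) (L 42 18))))) (P 2 (B12 (M 7 (A02 (A03 (out 10)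
  (S 1 (L 9 16) (L 11 16))) (S 1 (L 9 16) (L 0 16)))) (A02 (S 3 (L 18 18) (L 12 12)) (B02 (S 3 (L
  18 18) (L 42 18)) (S 3 (L 18 18) (L 42 18))))))) (P 2 (A03 (B12 (M 7 (P 4 (A02 (A01 (A03 (out 10)
  (B01 (S 3 (L 18 12) (L 12 12)) (S 1 (L 9 16) (L 11 16)))) (A12 (B01 (S 3 (L 18 18) (L 42 18)) (S
  1 (L 9 16) (L 0 16))) (B01 (S 3 (L 18 12) (L 42 18)) (S 1 (L 9 16) (L 0 16))))) (A12 (A01 (B01 (S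
  3 (L 18 12) (L 42 18)) (S 1 (L 9 16) (L 0 16))) (S 3 (L 18 18) (L 12 12))) (A23 (M 10 (L 23 13))
  (B01 (S 3 (L 18 12) (L 12 12)) (S 1 (L 9 16) (L 0 16)))))))) (A02 (S 3 (L 18 18) (L 12 12)) (B02
  (S 3 (L 18 18) (L 42 18)) (S 3 (L 18 18) (L 12 12))))) (B12 (A23 (S 3 (L 18 18) (L 12 12)) (A13
  (S 3 (L 18 18) (L 12 12)) (A03 (S 3 (L 18 18) (L 12 12)) (B01 (B02 (A23 (S 3 (L 18 18) (L 12 18))
  (P 3 (L 18 18))) (A23 (B12 (M 7 (S 1 (L 9 16) (L 0 16))) (S 3 (L 18 18) (L 12 18))) (P 3 (L 18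
  18)))) (B12 (M 7 (S 1 (L 9 16) (L 0 16))) (A23 (B02 (M 7 (S 1 (L 9 16) (L 0 16))) (S 3 (L 18 18)
  (L 12 18))) (P 3 (L 18 18)))))))) (A23 (B02 (A12 (A13 (S 3 (L 18 18) (L 42 18)) (B01 (A03 (S 3 (L
  18 18) (L 42 12)) (B02 (M 7 (S 1 (L 9 16) (L 0 16))) (S 3 (L 18 18) (L 12 18)))) (S 3 (L 18 18)
  (L 12 18)))) (A02 (B01 (A03 (S 3 (L 18 12) (L 42 12)) (S 3 (L 18 18) (L 12 18))) (S 3 (L 18 12)
  (L 12 12))) (S 3 (L 18 18) (L 12 12)))) (S 3 (L 18 18) (L 12 12))) (B02 (A13 (A12 (S 3 (L 18 18)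
  (L 12 18)) (B01 (P 3 (L 18 18)) (S 3 (L 18 18) (L 12 18)))) (A03 (B01 (P 3 (L 18 18)) (S 3 (L 18
  18) (L 12 18))) (B01 (P 3 (L 18 18)) (S 3 (L 18 18) (L 12 18))))) (S 3 (L 18 18) (L 12
  18))))))))))) (A12 (P 8 (M 5 (A13 (A01 (M 11 (P 2 (B12 (M 7 (P 4 (A02 (A03 (A01 (M 10 (S 3 (L 18
  18) (K [(42,18,55),(44,13,9)] []))) (B01 (B02 (S 3 (L 18 18) (L 42 18)) (M 3 (K
  [(42,18,5),(24,15,3)] []))) (M 3 (K [(42,18,6),(24,15,2)] [])))) (A23 (B01 (B02 (S 1 (L 7 16) (L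
  0 16)) (M 3 (K [(42,18,4),(24,15,4)] []))) (M 3 (K [(42,18,6),(24,15,2)] []))) (S 1 (L 9 16) (L 0
  16)))) (S 1 (L 7 16) (L 0 16))))) (A02 (B02 (M 7 (P 4 (A03 (A01 (M 10 (S 3 (L 18 18) (K
  [(42,18,1),(12,12,4),(44,13,3)] []))) (B01 (S 3 (L 18 18) (L 42 18)) (M 10 (K
  [(23,13,4),(44,13,4)] [])))) (A23 (B01 (S 1 (L 7 16) (L 0 16)) (M 10 (M 3 (K
  [(42,18,3),(44,13,5)] [])))) (S 1 (L 9 16) (L 0 16)))))) (M 10 (A03 (P 6 (K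
  [(34,15,14),(34,9,2),(44,13,8)] [])) (M 7 (P 4 (K [(13,3,9),(44,13,35),(23,13,20)] [])))))) (P 4
  (B02 (S 1 (L 7 16) (L 0 16)) (M 10 (P 1 (K [(7,16,17),(23,13,3),(24,4,4)] []))))))))) (P 4 (B12
  (A12 (A13 (out 8) (S 1 (L 7 16) (L 0 16))) (S 1 (L 7 16) (L 0 16))) (M 11 (A12 (S 3 (L 18 18) (L
  42 18)) (B02 (S 1 (L 7 16) (L 0 16)) (M 10 (K [(44,13,19),(24,4,5)] [])))))))) (M 11 (P 2 (A23
  (B12 (P 4 (A02 (A01 (M 10 (S 3 (L 18 18) (K [(42,18,55),(44,13,9)] []))) (A12 (S 3 (L 18 18) (L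
  42 18)) (M 10 (K [(44,13,4),(23,13,4)] [])))) (S 1 (L 7 16) (L 0 16)))) (A02 (B02 (P 4 (A01 (M 10
  (S 3 (L 18 18) (K [(42,18,5),(12,12,7),(23,13,3),(44,13,8)] []))) (A12 (S 3 (L 18 18) (L 42 18))
  (M 10 (K [(44,13,4),(23,13,4)] []))))) (M 10 (A01 (A03 (P 6 (M 3 (K
  [(34,9,2),(34,15,14),(44,13,8),(42,6,1)] []))) (B12 (M 7 (P 4 (K
  [(24,4,1),(13,12,2),(44,13,9),(23,13,11)] []))) (S 3 (L 18 18) (L 12 18)))) (A12 (S 3 (L 18 18)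
  (L 12 18)) (B12 (P 4 (K [(44,13,4),(24,4,1),(23,13,3)] [])) (S 3 (L 18 18) (L 12 18))))))) (B02
  (S 1 (L 7 16) (L 0 16)) (S 3 (L 18 18) (L 12 18))))) (B12 (A03 (A01 (S 3 (L 18 18) (L 42 18)) (S
  3 (L 18 18) (L 42 18))) (A13 (S 3 (L 18 18) (L 42 18)) (A23 (S 3 (L 18 18) (L 42 18)) (B01 (B02
  (A03 (S 3 (L 18 18) (L 12 18)) (P 3 (L 18 18))) (A03 (B12 (S 3 (L 18 18) (L 12 18)) (S 3 (L 18
  18) (L 12 18))) (P 3 (L 18 18)))) (B12 (S 3 (L 18 18) (L 42 18)) (A03 (B02 (S 3 (L 18 18) (L 12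
  18)) (S 3 (L 18 18) (L 12 18))) (P 3 (L 18 18)))))))) (A03 (B02 (A01 (S 3 (L 18 18) (L 42 18))
  (A13 (S 3 (L 18 18) (L 42 18)) (B01 (A23 (B02 (S 1 (L 7 16) (L 0 16)) (M 10 (L 44 13))) (B02 (S 3
  (L 18 18) (L 12 18)) (S 3 (L 18 18) (L 12 18)))) (S 3 (L 18 18) (L 12 18))))) (S 3 (L 18 18) (L
  42 18))) (B02 (A13 (A01 (B01 (P 3 (L 18 18)) (S 3 (L 18 18) (L 12 18))) (S 1 (L 7 16) (L 0 16)))
  (A23 (B01 (P 3 (L 18 18)) (S 3 (L 18 18) (L 12 18))) (B01 (P 3 (L 18 18)) (S 3 (L 18 18) (L 12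
  18))))) (S 3 (L 18 18) (L 12 18))))))))))) (M 11 (P 2 (A23 (M 10 (A02 (B12 (P 8 (M 5 (A01 (A03 (M
  7 (P 6 (P 4 (M 3 (A02 (B01 (K [(33,9,21),(34,15,22),(44,13,21)] []) (K
  [(33,9,40),(34,15,3),(42,6,16),(44,13,4)] [])) (B01 (K [(33,9,2),(24,15,6)] []) (B12 (A12 (A13 (K
  [(24,15,7),(42,18,8),(42,6,7),(23,19,1)] []) (A23 (K [(24,15,7),(42,18,9),(42,6,7),(24,5,1)] [])
  (K [(42,18,4),(44,13,1),(42,6,3)] []))) (A23 (out 4) (A13 (out 4) (B01 (K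
  [(42,18,3),(24,15,3),(42,6,2)] []) (K [(42,6,13),(42,18,8),(13,12,1),(24,5,1)] []))))) (K
  [(24,15,12),(42,6,5),(42,18,7)] [])))))))) (A13 (P 4 (M 3 (K
  [(12,18,1),(42,18,11),(44,13,46),(24,5,7)] []))) (B01 (S 3 (L 18 18) (L 12 18)) (M 3 (K
  [(44,13,47),(42,6,6),(42,18,12)] []))))) (A13 (out 8) (A03 (P 4 (L 24 15)) (S 4 (L 24 15) (L 2
  15))))))) (A01 (B02 (P 8 (M 5 (A03 (P 6 (M 3 (A02 (K [(33,9,25),(34,15,17),(44,13,13),(42,6,9)]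
  []) (S 4 (L 24 15) (L 2 4))))) (S 3 (L 18 18) (L 12 18))))) (P 6 (M 3 (A03 (A02 (P 8 (K
  [(12,18,4),(12,12,15),(42,18,23),(44,13,4),(42,6,19)] [])) (S 4 (L 24 15) (L 2 4))) (L 34 9)))))
  (B02 (S 3 (L 18 18) (L 12 18)) (P 6 (L 34 9))))) (B12 (A12 (A13 (out 8) (A23 (out 8) (S 4 (L 24
  15) (L 2 15)))) (A23 (out 4) (A13 (out 4) (S 4 (L 24 15) (L 2 15))))) (A12 (B02 (S 3 (L 18 18) (L
  12 18)) (P 6 (L 34 9))) (B02 (S 3 (L 19 18) (L 12 18)) (P 6 (L 34 9))))))) (P 8 (M 5 (A13 (M 10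
  (P 1 (B12 (A01 (A02 (S 3 (L 18 18) (K [(42,18,19),(44,13,3),(42,6,2)] [])) (A12 (S 3 (L 18 18) (K
  [(42,18,3),(44,13,1),(42,6,4)] [])) (B01 (S 3 (L 18 18) (L 12 18)) (B12 (S 3 (L 18 18) (K
  [(42,18,4),(7,16,1),(42,6,4)] [])) (S 3 (L 18 18) (L 12 18)))))) (L 44 13)) (A01 (B02 (A02 (A03
  (P 6 (M 3 (K [(42,18,11),(34,15,5),(44,13,4),(42,6,4)] []))) (S 3 (L 18 18) (L 12 18))) (S 3 (L
  18 18) (L 12 18))) (A02 (A03 (P 6 (M 3 (K [(34,9,4),(42,18,23),(12,12,15),(44,13,4),(42,6,19)]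
  []))) (L 44 13)) (L 44 13))) (L 44 13))))) (B12 (A03 (M 10 (A02 (S 3 (L 18 18) (L 42 18)) (A23
  (B01 (S 3 (L 18 18) (L 12 18)) (B12 (S 3 (L 18 18) (K [(42,18,4),(44,13,1),(42,6,3)] [])) (S 3 (L
  18 18) (L 12 18)))) (S 3 (L 18 18) (L 42 18))))) (A23 (A02 (S 3 (L 18 18) (L 42 18)) (S 3 (L 18
  18) (L 12 18))) (A13 (S 3 (L 18 18) (L 42 18)) (B01 (B02 (A03 (S 3 (L 18 18) (L 12 18)) (P 3 (L
  18 18))) (S 3 (L 18 18) (L 12 18))) (S 3 (L 18 18) (L 42 18)))))) (A03 (B02 (A02 (S 3 (L 18 18)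
  (L 42 18)) (S 3 (L 18 18) (L 12 18))) (A02 (S 3 (L 18 18) (L 42 18)) (S 3 (L 18 18) (L 12 18))))
  (B02 (A23 (S 3 (L 18 18) (L 12 18)) (A13 (S 3 (L 18 18) (L 12 18)) (B01 (P 3 (L 18 18)) (S 3 (L
  18 18) (L 12 18))))) (S 3 (L 18 18) (L 12 18))))))))))))) (A13 (A12 (P 8 (M 5 (A01 (M 11 (A02
  (B12 (A03 (A01 (A02 (P 3 (L 18 18)) (B01 (B02 (P 3 (L 18 18)) (A23 (S 1 (L 7 16) (L 0 16)) (P 3
  (L 18 18)))) (B12 (S 1 (L 7 16) (L 0 16)) (A23 (S 1 (L 7 16) (L 0 16)) (P 3 (L 18 18)))))) (A13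
  (S 1 (L 7 16) (L 0 16)) (B01 (B02 (P 3 (L 18 18)) (A23 (S 1 (L 7 16) (L 0 16)) (P 3 (L 18 18))))
  (B12 (S 1 (L 7 16) (L 0 16)) (A23 (S 1 (L 7 16) (L 0 16)) (P 3 (L 18 18))))))) (A13 (A01 (B01
  (B02 (P 3 (L 18 18)) (A02 (P 3 (L 18 18)) (S 1 (L 7 16) (L 0 16)))) (B12 (S 1 (L 7 16) (L 0 16))
  (A02 (P 3 (L 18 18)) (S 1 (L 7 16) (L 0 16))))) (S 1 (L 7 16) (L 0 16))) (A23 (B01 (B02 (P 3 (L
  18 18)) (A02 (P 3 (L 18 18)) (P 4 (L 24 15)))) (B12 (S 1 (L 7 16) (L 0 16)) (A02 (P 3 (L 18 18))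
  (P 4 (L 24 15))))) (P 3 (L 18 18))))) (A03 (B02 (A01 (A02 (P 3 (L 18 18)) (B01 (P 3 (L 18 18)) (M
  10 (L 44 13)))) (A13 (S 1 (L 7 16) (L 0 16)) (B01 (P 3 (L 18 18)) (M 10 (L 44 13))))) (M 10 (L 44
  13))) (B02 (A13 (A01 (B01 (P 3 (L 18 18)) (M 10 (L 44 13))) (S 1 (L 7 16) (L 0 16))) (A23 (B01 (P
  3 (L 18 18)) (M 10 (L 44 13))) (P 3 (L 18 18)))) (M 10 (L 44 13))))) (B12 (A23 (S 1 (L 7 16) (L 0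
  16)) (A13 (S 1 (L 7 16) (L 0 16)) (A03 (S 1 (L 7 16) (L 0 16)) (B01 (B02 (P 3 (L 18 18)) (P 4 (L
  24 15))) (S 1 (L 7 16) (L 0 16)))))) (A23 (B02 (S 1 (L 7 16) (L 0 16)) (M 10 (L 44 13))) (B02
  (A13 (S 1 (L 7 16) (L 0 16)) (A03 (B01 (P 3 (L 18 18)) (M 10 (L 44 13))) (B01 (P 3 (L 18 18)) (M
  10 (L 44 13))))) (M 10 (L 44 13))))))) (A13 (B12 (A12 (A01 (S 1 (L 7 16) (L 0 16)) (out 3)) (S 1
  (L 7 16) (L 0 16))) (S 1 (L 7 16) (L 0 16))) (M 11 (B12 (A23 (S 1 (L 7 16) (L 0 16)) (A03 (S 1 (L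
  7 16) (L 0 16)) (A13 (S 1 (L 7 16) (L 0 16)) (B01 (B02 (P 3 (L 18 18)) (P 4 (L 24 15))) (S 1 (L 7
  16) (L 0 16)))))) (A23 (S 1 (L 7 16) (L 0 16)) (B02 (A03 (S 1 (L 7 16) (L 0 16)) (A13 (P 4 (L 24
  15)) (B01 (P 3 (L 18 18)) (A23 (P 4 (L 24 15)) (P 3 (L 18 18)))))) (M 10 (L 44 13)))))))))) (M 11
  (P 2 (A02 (P 8 (M 5 (A01 (B12 (A03 (A02 (A01 (B01 (P 3 (L 18 18)) (M 10 (L 44 13))) (B01 (B02 (P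
  3 (L 18 18)) (M 10 (L 44 13))) (M 10 (L 44 13)))) (A23 (M 10 (L 44 13)) (B01 (B02 (P 3 (L 18 18))
  (M 10 (L 44 13))) (M 10 (L 44 13))))) (A23 (A02 (B01 (B02 (P 3 (L 18 18)) (M 10 (L 44 13))) (M 10
  (L 44 13))) (M 10 (L 44 13))) (A13 (B01 (B02 (P 3 (L 18 18)) (M 10 (L 44 13))) (M 10 (L 44 13)))
  (P 3 (L 18 18))))) (A03 (B02 (A02 (A01 (P 3 (L 18 18)) (B01 (P 3 (L 18 18)) (M 10 (L 44 13))))
  (A23 (M 10 (L 44 13)) (B01 (P 3 (L 18 18)) (M 10 (L 44 13))))) (M 10 (L 44 13))) (B02 (A23 (A02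
  (B01 (P 3 (L 18 18)) (M 10 (L 44 13))) (M 10 (L 44 13))) (A13 (B01 (P 3 (L 18 18)) (M 10 (L 44
  13))) (P 3 (L 18 18)))) (M 10 (L 44 13))))) (B12 (A13 (A12 (S 1 (L 7 16) (L 0 16)) (A23 (M 10 (L
  44 13)) (S 1 (L 7 16) (L 0 16)))) (A23 (A12 (S 1 (L 7 16) (L 0 16)) (M 10 (L 44 13))) (A03 (S 1
  (L 7 16) (L 0 16)) (B01 (B02 (P 3 (L 18 18)) (P 4 (L 24 15))) (P 4 (L 24 15)))))) (A13 (M 10 (L
  44 13)) (B02 (A23 (M 10 (L 44 13)) (A03 (M 10 (L 44 13)) (B01 (P 3 (L 18 18)) (M 10 (L 44 13)))))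
  (M 10 (L 44 13)))))))) (A23 (M 10 (B12 (A12 (A01 (S 3 (L 18 18) (L 12 18)) (out 8)) (A02 (S 3 (L
  18 18) (L 12 18)) (out 0))) (A12 (S 4 (L 24 15) (L 2 15)) (B02 (S 4 (L 24 15) (L 2 15)) (S 4 (L
  23 15) (L 2 15)))))) (P 8 (B12 (A13 (A01 (A03 (S 3 (L 18 18) (L 12 18)) (out 8)) (out 8)) (A03
  (A01 (S 3 (L 18 18) (L 12 18)) (P 4 (L 24 15))) (A23 (P 4 (L 24 15)) (B01 (B02 (P 3 (L 18 18)) (P
  4 (L 24 15))) (P 4 (L 24 15)))))) (A13 (S 4 (L 24 15) (L 2 15)) (B02 (A03 (S 3 (L 18 18) (L 12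
  18)) (A23 (S 3 (L 18 18) (L 12 18)) (B01 (P 3 (L 18 18)) (M 10 (L 44 13))))) (M 10 (L 44
  13))))))))))) (M 11 (P 2 (A23 (A02 (A03 (P 8 (B12 (A01 (A02 (A03 (B01 (P 3 (L 18 18)) (M 10 (L 44
  13))) (B01 (P 3 (L 18 18)) (M 10 (L 44 13)))) (A12 (B01 (P 3 (L 18 18)) (M 10 (L 44 13))) (M 10
  (L 44 13)))) (A12 (P 3 (L 18 18)) (A02 (B01 (P 3 (L 18 18)) (M 10 (L 44 13))) (M 10 (L 44 13)))))
  (A01 (B02 (A02 (P 3 (L 18 18)) (A12 (P 3 (L 18 18)) (P 7 (L 39 12)))) (P 7 (L 39 12))) (B02 (A12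
  (P 3 (L 18 18)) (A02 (P 3 (L 18 18)) (M 10 (L 44 13)))) (M 10 (L 44 13)))))) (B12 (A13 (A12 (P 3
  (L 18 18)) (S 3 (L 18 18) (L 12 18))) (S 3 (L 18 18) (L 12 6))) (A13 (B02 (A12 (P 3 (L 18 18)) (S
  3 (L 18 18) (L 12 18))) (S 3 (L 18 18) (L 12 6))) (P 7 (L 39 12))))) (A12 (B12 (P 8 (A13 (A01 (S
  3 (L 18 18) (L 12 18)) (A12 (B01 (B02 (P 3 (L 18 18)) (A13 (B12 (P 3 (L 18 18)) (M 10 (L 44 13)))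
  (S 3 (L 18 18) (L 12 6)))) (B12 (P 3 (L 18 18)) (A13 (B02 (P 4 (L 24 15)) (M 10 (L 44 13))) (S 3
  (L 18 18) (L 12 6))))) (S 3 (L 18 18) (L 12 6)))) (S 3 (L 18 18) (L 12 6)))) (A13 (B02 (A01 (S 3
  (L 18 18) (L 12 18)) (A12 (B01 (P 3 (L 18 18)) (S 3 (L 18 18) (L 12 6))) (S 3 (L 18 18) (L 12
  6)))) (S 3 (L 18 6) (L 12 6))) (M 10 (B02 (S 3 (L 18 18) (L 12 6)) (A03 (A01 (B12 (P 8 (L 44 13))
  (A02 (P 7 (L 39 12)) (B02 (P 8 (L 44 13)) (P 6 (L 34 1))))) (B12 (S 3 (L 18 6) (L 12 6)) (A12 (P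
  7 (L 39 12)) (B02 (P 8 (L 44 13)) (P 6 (L 34 1)))))) (out 0)))))) (M 10 (B12 (A23 (A02 (S 4 (L 24
  15) (L 2 15)) (out 0)) (S 3 (L 18 18) (L 12 6))) (A23 (B02 (S 4 (L 24 15) (L 2 15)) (S 4 (L 23
  15) (L 2 15))) (B02 (S 3 (L 18 18) (L 12 6)) (A03 (P 6 (L 34 1)) (out 0)))))))) (A03 (A02 (M 5 (S
  1 (L 7 16) (L 11 16))) (B12 (A12 (P 3 (L 18 18)) (S 4 (L 24 15) (L 2 15))) (A12 (B02 (P 3 (L 18
  18)) (A13 (S 4 (L 24 15) (L 2 15)) (P 7 (L 39 12)))) (P 7 (L 39 12))))) (A13 (B12 (P 8 (A12 (A01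
  (M 10 (S 4 (L 24 15) (K [(43,15,4),(2,15,2),(44,13,2)] []))) (S 4 (L 24 15) (L 43 15))) (M 10
  (A02 (S 4 (L 24 15) (K [(43,15,4),(2,15,2),(44,13,2)] [])) (out 0))))) (A12 (P 8 (M 5 (B02 (P 3
  (A01 (M 10 (M 4 (K [(43,15,4),(2,15,1),(18,18,2),(44,13,1)] []))) (S 4 (L 24 15) (L 43 15)))) (M
  10 (A01 (P 7 (M 4 (A02 (M 6 (P 3 (B12 (K [(2,15,182),(44,13,207),(19,13,502),(3,9,109)] []) (A03
  (K [(44,13,2),(44,4,1),(18,18,3),(18,6,2)] []) (B02 (K [(38,12,1),(39,18,4),(39,12,3)] []) (L 18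
  6)))))) (K [(2,15,3),(43,15,3),(44,4,1),(39,18,2)] [])))) (A13 (S 4 (L 24 15) (L 2 15)) (P 7 (M 4
  (K [(43,15,4),(39,12,2),(44,4,2)] []))))))))) (M 10 (P 7 (M 4 (P 1 (B02 (P 8 (K
  [(43,15,29),(39,12,9),(39,18,7),(44,13,19)] [])) (A02 (A01 (P 3 (B12 (P 8 (A03 (K
  [(2,15,3),(18,18,1),(43,15,3),(43,4,1)] []) (K
  [(43,15,1),(19,13,2),(39,12,2),(39,18,2),(44,13,2)] []))) (S 5 (L 29 3) (K
  [(7,3,5),(7,16,20),(39,12,7),(39,18,12),(19,13,20)] [])))) (B12 (P 8 (K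
  [(2,15,5),(43,15,9),(44,13,5),(39,18,4),(44,4,2)] [])) (K [(39,12,10),(39,18,14)] []))) (out
  0))))))))) (M 10 (P 7 (M 4 (P 1 (B12 (P 8 (A23 (K [(43,15,132),(39,12,68)] []) (P 3 (A03 (A02 (K
  [(43,15,2),(18,18,3),(19,13,1),(39,12,1),(18,6,2)] []) (out 0)) (out 0))))) (A23 (B02 (P 8 (A02
  (M 6 (P 3 (K [(43,15,77),(39,18,17),(8,16,18),(18,18,20),(39,12,68)] []))) (out 0))) (A02 (A03 (M
  6 (P 3 (B12 (A01 (K [(2,15,4),(18,6,7),(18,18,12)] []) (K [(8,16,3),(39,18,2),(39,12,3)] [])) (K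
  [(18,6,1),(39,18,4),(39,12,3)] [])))) (out 0)) (out 0))) (B02 (M 6 (P 3 (A03 (P 8 (K
  [(43,15,3),(8,16,1),(18,18,1),(39,12,2)] [])) (out 0)))) (A03 (A02 (P 3 (K
  [(2,9,17),(19,13,91),(18,18,13),(39,12,80)] [])) (out 0)) (out 0))))))))))))))))))

/-- its cell -/
def cD5 : Cell :=
  ⟨0, 0, 0, 0, 0, 1114112, 0, 1114112, 1114112, 1114112, 1114112, 1114112, 0, 0, 0, 3129344, 5070848, 0⟩

theorem okD5 : check datD tD5 cD5 0 0 = true := by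
  decide +kernel

end Pool.Agent.H315.NW
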