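import Pool.Agent.H315.NW.Data

/-!
# Project NW (helper315): certificates (generated)
-/

set_option autoImplicit false
set_option maxRecDepth 100000

namespace Pool.Agent.H315.NW

open Tr

/-- a part of the certificate -/
def tI0 : Tr :=
  (M 11 (A02 (P 4 (M 3 (A01 (M 18 (M 7 (P 0 (A03 (A02 (M 16 (P 13 (B12 (A01 (P 15 (M 12 (B01 (A03
  (out 9) (A13 (out 9) (B02 (A23 (out 9) (B01 (M 1 (L 45 7)) (A03 (out 9) (M 1 (L 45 7))))) (A23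
  (out 9) (A03 (out 9) (M 1 (L 45 7))))))) (M 19 (A03 (out 9) (A13 (out 9) (B12 (A23 (out 9) (S 2
  (L 7 2) (L 25 2))) (A23 (out 9) (A03 (out 9) (A13 (out 9) (K [(41,10,33),(41,5,31)] [])))))))))))
  (B01 (M 1 (A13 (out 9) (A03 (out 9) (B02 (A23 (out 9) (B01 (A13 (out 9) (P 15 (L 45 7))) (P 15 (L
  45 7)))) (P 15 (L 45 7)))))) (A13 (out 9) (M 12 (A03 (out 9) (B12 (A23 (out 9) (B01 (A13 (out 9)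
  (S 2 (L 7 2) (L 25 2))) (S 2 (L 7 2) (L 25 2)))) (A23 (out 9) (A13 (out 9) (M 19 (A03 (out 9) (K
  [(41,10,33),(41,5,31)] []))))))))))) (A01 (A03 (out 9) (A13 (out 9) (B02 (B01 (M 1 (A23 (out 9)
  (A03 (out 9) (A13 (out 9) (B02 (P 15 (L 45 7)) (M 5 (L 40 5))))))) (A23 (out 9) (B12 (P 15 (A03
  (out 9) (M 1 (L 45 7)))) (A03 (out 9) (M 5 (L 40 5)))))) (B12 (A23 (out 9) (B01 (M 5 (L 40 5)) (S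
  2 (L 8 8) (L 25 8)))) (M 5 (L 40 5)))))) (M 1 (A13 (out 9) (A03 (out 9) (B02 (B01 (A23 (out 9)
  (A13 (out 9) (A03 (out 9) (S 10 (L 31 1) (L 2 1))))) (M 5 (L 40 5))) (M 5 (L 40 5)))))))))) (B12
  (A12 (M 16 (P 13 (B01 (M 1 (A13 (out 9) (A23 (out 9) (B02 (A03 (out 9) (B01 (S 10 (L 32 1) (L 2
  1)) (A13 (out 9) (A23 (B12 (P 15 (L 45 7)) (S 10 (L 31 1) (L 2 1))) (P 15 (L 45 7)))))) (A03 (out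
  9) (A13 (out 9) (A23 (B12 (B01 (M 5 (L 40 5)) (P 15 (L 45 7))) (M 5 (L 40 5))) (P 15 (L 45
  7))))))))) (A13 (out 9) (A23 (out 9) (B12 (A03 (out 9) (B01 (A13 (out 9) (M 19 (K
  [(41,10,13),(41,5,11)] []))) (M 19 (K [(41,10,35),(41,5,29)] [])))) (A03 (out 9) (A13 (out 9) (M
  19 (K [(41,10,33),(41,5,31)] [])))))))))) (B01 (P 6 (M 1 (A23 (A02 (B02 (S 12 (L 38 4) (L 18 4))
  (A01 (S 12 (L 38 4) (L 18 4)) (A13 (out 9) (P 10 (L 31 1))))) (B02 (A12 (S 10 (L 31 1) (L 2 1))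
  (B01 (P 12 (L 38 4)) (P 10 (L 31 1)))) (A12 (A13 (out 9) (P 10 (L 31 1))) (P 10 (L 31 1))))) (A13
  (B02 (S 12 (L 38 4) (L 18 4)) (A01 (S 12 (L 38 4) (L 18 4)) (A12 (out 9) (P 10 (L 31 1))))) (B02
  (A03 (S 12 (L 38 4) (L 18 4)) (B01 (S 10 (L 31 1) (L 2 1)) (A23 (S 10 (L 31 1) (L 2 1)) (A13 (S
  10 (L 31 1) (L 2 1)) (P 15 (L 45 7)))))) (P 10 (A03 (S 12 (L 38 4) (L 18 4)) (L 31 1)))))))) (M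
  19 (P 10 (A23 (M 5 (P 2 (A02 (B12 (A01 (S 13 (L 40 5) (L 13 5)) (B01 (S 13 (L 40 5) (L 13 5)) (S
  13 (L 40 5) (L 13 5)))) (A01 (A03 (out 9) (S 12 (L 38 4) (L 7 4))) (S 12 (L 38 4) (L 7 4)))) (B12
  (A12 (B01 (S 12 (L 38 4) (L 7 4)) (A13 (out 9) (A23 (out 9) (S 13 (L 40 5) (L 13 5))))) (B01 (S
  12 (L 38 4) (L 7 4)) (A23 (A02 (B12 (S 13 (L 41 5) (L 13 5)) (S 12 (L 38 4) (L 7 4))) (S 12 (L 38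
  4) (L 7 4))) (A13 (B12 (S 13 (L 41 5) (L 13 5)) (S 12 (L 38 4) (L 7 4))) (S 13 (L 41 5) (L 13
  5)))))) (S 12 (L 38 4) (L 7 4)))))) (A13 (M 5 (B12 (P 13 (K
  [(40,5,9),(41,10,8),(41,5,5),(40,11,2)] [])) (A01 (P 15 (A02 (out 9) (L 46 7))) (P 6 (S 12 (L 38
  4) (L 18 4)))))) (P 15 (M 12 (B12 (M 16 (P 13 (A03 (B01 (A02 (out 9) (A23 (M 5 (P 2 (K
  [(7,4,4),(41,10,9),(41,5,8),(40,11,3)] []))) (K [(41,10,5),(41,5,3)] []))) (K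
  [(41,5,4),(41,10,4)] [])) (B01 (A23 (A02 (K [(41,10,102),(41,5,98)] []) (M 5 (P 2 (K
  [(7,4,2),(41,10,3),(41,5,2),(40,11,1)] [])))) (A13 (K [(41,10,102),(41,5,98)] []) (B02 (S 2 (L 8
  2) (L 25 2)) (K [(41,10,4),(41,5,4)] [])))) (A23 (K [(41,5,13),(41,10,11)] []) (K
  [(41,5,4),(41,10,4)] [])))))) (A03 (M 5 (A02 (out 9) (A23 (L 46 7) (P 13 (K [(40,5,6),(41,10,2)]
  []))))) (A23 (M 5 (P 2 (A02 (P 13 (K [(7,4,2),(40,5,3),(41,5,1),(41,10,2)] [])) (L 46 7)))) (P 13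
  (A13 (M 5 (K [(46,7,2),(40,5,2),(41,10,3),(41,5,1)] [])) (B02 (B01 (M 1 (L 31 1)) (K
  [(41,5,4),(41,10,4)] [])) (K [(41,5,13),(41,10,11)] []))))))))))))))) (P 6 (M 1 (A12 (A13 (out 9)
  (S 12 (L 38 4) (L 18 4))) (M 5 (P 2 (A23 (A02 (B02 (B01 (S 10 (L 31 1) (L 2 1)) (A01 (B12 (S 12
  (L 38 4) (L 7 4)) (A03 (out 9) (A13 (out 9) (P 10 (L 31 1))))) (B12 (A13 (out 9) (P 10 (L 31 1)))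
  (P 12 (L 38 4))))) (B12 (A01 (B01 (A03 (out 9) (P 12 (L 38 4))) (S 12 (L 38 4) (L 7 4))) (B01 (P
  12 (L 38 4)) (A13 (out 9) (P 10 (L 31 1))))) (A01 (A03 (out 9) (P 12 (L 38 4))) (P 12 (L 38
  4))))) (B02 (B01 (P 12 (L 38 4)) (A12 (B12 (A13 (out 9) (P 10 (L 31 1))) (P 12 (L 38 4))) (B12 (P
  10 (L 31 1)) (P 12 (L 38 4))))) (B12 (A12 (B01 (P 12 (L 38 4)) (A13 (out 9) (P 10 (L 31 1))))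
  (B01 (P 12 (L 38 4)) (P 16 (L 49 8)))) (P 12 (L 38 4))))) (A13 (B02 (B01 (S 10 (L 31 1) (L 2 1))
  (A01 (B12 (S 12 (L 38 4) (L 7 4)) (A02 (out 9) (A12 (out 9) (B02 (A23 (P 10 (L 31 1)) (P 13 (L 40
  5))) (P 12 (L 38 4)))))) (B12 (A12 (out 9) (P 10 (L 31 1))) (P 12 (L 38 4))))) (B12 (A01 (B01
  (A02 (out 9) (P 12 (L 38 4))) (S 12 (L 38 4) (L 7 4))) (B01 (P 12 (L 38 4)) (A12 (out 9) (P 10 (L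
  31 1))))) (A01 (A02 (out 9) (P 12 (L 38 4))) (P 12 (L 38 4))))) (B02 (B01 (S 10 (L 31 1) (L 2 1))
  (A03 (B12 (S 12 (L 38 4) (L 7 4)) (A02 (out 9) (A23 (B02 (A12 (P 13 (L 40 5)) (P 10 (L 31 1))) (P
  12 (L 38 4))) (P 13 (L 40 5))))) (B12 (P 10 (L 31 1)) (A23 (A02 (P 13 (L 40 5)) (B02 (A12 (P 13
  (L 40 5)) (P 10 (L 31 1))) (A12 (P 13 (L 40 5)) (P 10 (L 31 1))))) (P 13 (L 40 5)))))) (B12 (A03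
  (B01 (A02 (out 9) (A23 (P 12 (L 38 4)) (B02 (P 13 (L 40 5)) (P 10 (L 31 1))))) (S 12 (L 38 4) (L
  7 4))) (B01 (A23 (A02 (B02 (P 13 (L 40 5)) (P 10 (L 31 1))) (B02 (A12 (P 13 (L 40 5)) (P 10 (L 31
  1))) (P 10 (L 31 1)))) (P 13 (L 40 5))) (P 10 (L 31 1)))) (A03 (A02 (out 9) (A23 (P 12 (L 38 4))
  (B02 (B01 (P 13 (L 40 5)) (A13 (P 12 (L 38 4)) (P 10 (L 31 1)))) (B12 (A13 (P 12 (L 38 4)) (P 10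
  (L 31 1))) (P 12 (L 38 4)))))) (A23 (A02 (B02 (B01 (P 13 (L 40 5)) (A01 (P 10 (L 31 1)) (P 12 (L
  38 4)))) (B12 (A01 (P 10 (L 31 1)) (P 12 (L 38 4))) (P 12 (L 38 4)))) (P 12 (L 38 4))) (A13 (B02
  (P 13 (L 40 5)) (B12 (A01 (P 10 (L 31 1)) (P 12 (L 38 4))) (P 12 (L 38 4)))) (B02 (P 13 (L 40 5))
  (P 10 (L 31 1))))))))))))))))) (A13 (B12 (A12 (M 16 (P 13 (B01 (M 1 (A01 (A02 (B02 (A03 (B01 (S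
  10 (L 32 1) (L 2 1)) (A01 (A02 (B12 (P 15 (L 45 7)) (S 10 (L 32 1) (L 2 1))) (B12 (P 15 (L 45 7))
  (S 10 (L 31 1) (L 2 1)))) (A13 (out 9) (B12 (P 15 (L 45 7)) (S 10 (L 31 1) (L 2 1)))))) (B01 (S
  10 (L 31 1) (L 2 1)) (A13 (A01 (S 10 (L 31 1) (L 2 1)) (out 9)) (S 10 (L 31 1) (L 2 1))))) (A03
  (A01 (A02 (B12 (B01 (S 10 (L 31 1) (L 2 1)) (P 15 (L 45 7))) (S 10 (L 31 1) (L 2 1))) (B12 (B01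
  (S 10 (L 31 1) (L 2 1)) (P 15 (L 45 7))) (M 5 (L 40 5)))) (A13 (out 9) (B12 (B01 (S 10 (L 31 1)
  (L 2 1)) (P 15 (L 45 7))) (M 5 (L 40 5))))) (A13 (A01 (S 10 (L 31 1) (L 2 1)) (out 9)) (S 10 (L
  31 1) (L 2 1))))) (B02 (A23 (out 9) (B01 (S 10 (L 31 1) (L 2 1)) (A13 (out 9) (S 10 (L 31 1) (L 2
  1))))) (A23 (out 9) (A13 (out 9) (S 10 (L 31 1) (L 2 1)))))) (A13 (out 9) (B02 (A23 (out 9) (P 19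
  (L 58 10))) (A23 (out 9) (A03 (out 9) (S 10 (L 31 1) (L 2 1)))))))) (A01 (A02 (B12 (A03 (B01 (A01
  (P 10 (S 1 (L 4 1) (L 31 1))) (M 1 (S 10 (L 31 1) (L 2 1)))) (M 19 (K [(41,10,35),(41,5,29)]
  []))) (M 1 (B01 (A13 (S 10 (L 31 1) (L 2 1)) (S 10 (L 31 1) (L 2 1))) (M 19 (K
  [(41,10,5),(41,5,3)] []))))) (A03 (A01 (P 10 (S 1 (L 4 1) (L 31 1))) (M 1 (S 10 (L 31 1) (L 2
  1)))) (M 1 (A13 (S 10 (L 31 1) (L 2 1)) (S 10 (L 31 1) (L 2 1)))))) (M 1 (B12 (A23 (out 9) (B01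
  (A13 (out 9) (S 10 (L 31 1) (L 2 1))) (M 19 (L 41 10)))) (A23 (out 9) (A13 (out 9) (S 10 (L 31 1)
  (L 2 1))))))) (M 1 (A13 (out 9) (B12 (A23 (out 9) (B01 (A03 (out 9) (S 10 (L 31 1) (L 2 1))) (S
  10 (L 32 1) (L 2 1)))) (A23 (out 9) (A03 (out 9) (S 10 (L 31 1) (L 2 1))))))))))) (B01 (M 1 (A02
  (A01 (B02 (A03 (B01 (S 10 (L 31 1) (L 2 1)) (A02 (A01 (B12 (P 15 (L 45 7)) (S 10 (L 31 1) (L 2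
  1))) (S 10 (L 31 1) (L 2 1))) (S 10 (L 31 1) (L 2 1)))) (S 10 (L 31 1) (L 2 1))) (A03 (A02 (A01
  (B12 (B01 (S 10 (L 31 1) (L 2 1)) (P 15 (L 45 7))) (S 10 (L 31 1) (L 2 1))) (S 10 (L 31 1) (L 2
  1))) (A23 (P 10 (L 31 1)) (S 10 (L 31 1) (L 2 1)))) (M 5 (A23 (A02 (S 10 (L 31 1) (L 2 1)) (B12
  (S 10 (L 31 1) (L 2 1)) (B02 (P 13 (L 40 5)) (P 10 (L 31 1))))) (S 10 (L 31 1) (L 2 1)))))) (M 5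
  (B02 (S 10 (L 31 1) (L 2 1)) (A13 (A12 (out 9) (A23 (P 10 (L 31 1)) (S 10 (L 31 1) (L 2 1))))
  (A23 (A12 (S 10 (L 31 1) (L 2 1)) (B12 (S 10 (L 31 1) (L 2 1)) (B02 (P 13 (L 40 5)) (P 10 (L 31
  1))))) (S 10 (L 31 1) (L 2 1))))))) (M 5 (A23 (B02 (A12 (S 10 (L 31 1) (L 2 1)) (B01 (P 12 (L 38
  4)) (A02 (A01 (B12 (A03 (P 10 (L 31 1)) (B01 (P 12 (L 38 4)) (P 10 (L 31 1)))) (A03 (P 10 (L 31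
  1)) (P 12 (L 38 4)))) (B12 (A13 (B01 (P 12 (L 38 4)) (P 10 (L 31 1))) (B01 (P 12 (L 38 4)) (P 10
  (L 31 1)))) (P 12 (L 38 4)))) (P 12 (L 38 4))))) (A12 (A01 (P 10 (L 31 1)) (A13 (out 9) (B12 (B01
  (P 12 (L 38 4)) (P 10 (L 31 1))) (P 12 (L 38 4))))) (P 10 (L 31 1)))) (B02 (S 10 (L 31 1) (L 2
  1)) (A13 (A01 (A03 (P 10 (L 31 1)) (B12 (P 13 (L 40 5)) (P 12 (L 38 4)))) (A12 (out 9) (B12 (P 13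
  (L 40 5)) (P 12 (L 38 4))))) (A03 (A01 (P 10 (L 31 1)) (B12 (S 10 (L 31 1) (L 2 1)) (B02 (A12 (P
  13 (L 40 5)) (B01 (P 12 (L 38 4)) (P 10 (L 31 1)))) (A12 (P 13 (L 40 5)) (P 10 (L 31 1)))))) (A23
  (B12 (S 10 (L 31 1) (L 2 1)) (B02 (A12 (P 13 (L 40 5)) (B01 (P 12 (L 38 4)) (P 10 (L 31 1))))
  (A12 (P 13 (L 40 5)) (P 10 (L 31 1))))) (S 10 (L 31 1) (L 2 1)))))))))) (A02 (A01 (B12 (M 16 (P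
  13 (A03 (M 19 (P 15 (P 10 (B01 (S 1 (L 4 1) (L 31 1)) (A02 (K [(41,5,13),(41,10,11)] []) (A23 (M
  5 (K [(32,8,1),(46,7,1),(40,11,1),(40,5,1),(46,11,1),(41,10,1)] [])) (K [(41,5,13),(41,10,11)]
  []))))))) (B01 (M 1 (S 10 (L 31 1) (L 2 1))) (M 19 (P 15 (A23 (A02 (P 6 (M 1 (K
  [(20,10,2),(41,5,2),(45,3,1),(41,10,2)] []))) (M 5 (K
  [(41,5,2),(46,7,1),(40,5,1),(40,11,1),(41,10,2)] []))) (P 6 (M 1 (K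
  [(20,10,1),(41,10,3),(41,5,3),(45,3,1)] [])))))))))) (A03 (P 15 (P 10 (A02 (S 1 (L 4 1) (L 31 1))
  (M 5 (L 46 7))))) (M 1 (A23 (P 10 (L 31 1)) (S 10 (L 31 1) (L 2 1)))))) (M 5 (P 2 (B12 (M 16 (P
  13 (A13 (B01 (M 1 (S 10 (L 31 1) (L 2 1))) (P 15 (K [(40,5,3),(46,7,1),(46,11,2),(40,11,2)] [])))
  (B01 (M 1 (S 10 (L 31 1) (L 2 1))) (M 19 (P 15 (M 12 (P 10 (K
  [(7,4,1),(8,8,2),(32,1,1),(41,5,1),(40,11,2),(46,11,1)] []))))))))) (M 1 (A13 (A12 (out 9) (A23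
  (P 10 (L 31 1)) (S 10 (L 31 1) (L 2 1)))) (A23 (A12 (S 10 (L 31 1) (L 2 1)) (P 10 (L 31 1))) (S
  10 (L 31 1) (L 2 1))))))))) (M 5 (P 2 (A23 (P 10 (B12 (A12 (B01 (M 1 (L 31 1)) (A01 (A02 (S 13 (L
  40 5) (L 13 5)) (S 13 (L 40 5) (L 13 5))) (S 13 (L 40 5) (L 13 5)))) (B01 (M 1 (L 31 1)) (A02
  (A01 (P 15 (L 46 7)) (S 12 (L 38 4) (L 7 4))) (S 12 (L 38 4) (L 7 4))))) (S 12 (L 38 4) (L 7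
  4)))) (B12 (P 13 (A13 (L 40 5) (B01 (M 1 (S 10 (L 31 1) (L 2 1))) (M 19 (M 12 (K
  [(7,4,1),(40,5,2),(41,5,1),(40,11,3),(41,10,1)] [])))))) (M 1 (A13 (A01 (A03 (P 10 (L 31 1)) (B02
  (P 13 (L 40 5)) (P 10 (L 31 1)))) (A12 (out 9) (B02 (P 13 (L 40 5)) (P 10 (L 31 1))))) (A03 (A01
  (P 10 (L 31 1)) (B02 (S 10 (L 31 1) (L 2 1)) (P 10 (L 31 1)))) (A23 (B02 (S 10 (L 31 1) (L 2 1))
  (P 10 (L 31 1))) (S 10 (L 31 1) (L 2 1))))))))))))) (M 1 (A12 (A01 (S 10 (L 31 1) (L 2 1)) (A13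
  (out 9) (S 10 (L 31 1) (L 2 1)))) (M 5 (A02 (A01 (B02 (B01 (S 10 (L 31 1) (L 2 1)) (A03 (B12 (A02
  (P 13 (L 40 5)) (A23 (P 10 (L 31 1)) (P 13 (L 40 5)))) (A02 (P 13 (L 40 5)) (A23 (B02 (A12 (P 13
  (L 40 5)) (P 10 (L 31 1))) (A12 (P 13 (L 40 5)) (P 10 (L 31 1)))) (P 13 (L 40 5))))) (B12 (A23
  (A02 (P 13 (L 40 5)) (B01 (A12 (P 13 (L 40 5)) (P 10 (L 31 1))) (P 10 (L 31 1)))) (P 13 (L 40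
  5))) (P 12 (L 38 4))))) (B12 (A03 (B01 (A02 (P 13 (L 40 5)) (A23 (B02 (A12 (P 13 (L 40 5)) (P 10
  (L 31 1))) (P 10 (L 31 1))) (P 13 (L 40 5)))) (P 10 (L 31 1))) (B01 (P 12 (L 38 4)) (A23 (P 10 (L
  31 1)) (A13 (B12 (P 13 (L 40 5)) (A01 (A02 (P 13 (L 40 5)) (P 12 (L 38 4))) (P 12 (L 38 4))))
  (B12 (P 13 (L 40 5)) (A03 (A02 (P 13 (L 40 5)) (P 12 (L 38 4))) (P 12 (L 38 4)))))))) (A03 (A02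
  (A01 (B02 (P 13 (L 40 5)) (B12 (A03 (P 10 (L 31 1)) (B01 (P 12 (L 38 4)) (P 10 (L 31 1)))) (A03
  (P 10 (L 31 1)) (P 12 (L 38 4))))) (P 12 (L 38 4))) (P 12 (L 38 4))) (P 12 (L 38 4))))) (B02 (B01
  (P 12 (L 38 4)) (A13 (B12 (A12 (out 9) (A23 (P 10 (L 31 1)) (P 13 (L 40 5)))) (P 12 (L 38 4)))
  (B12 (A23 (A12 (P 13 (L 40 5)) (B01 (A02 (P 13 (L 40 5)) (P 12 (L 38 4))) (P 10 (L 31 1)))) (P 13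
  (L 40 5))) (P 12 (L 38 4))))) (B12 (A13 (B01 (P 12 (L 38 4)) (A12 (out 9) (A23 (P 10 (L 31 1))
  (B12 (A03 (B01 (P 12 (L 38 4)) (P 10 (L 31 1))) (P 12 (L 38 4))) (P 12 (L 38 4)))))) (B01 (P 12
  (L 38 4)) (A23 (A12 (B12 (P 13 (L 40 5)) (P 12 (L 38 4))) (P 10 (L 31 1))) (A03 (B12 (P 13 (L 40
  5)) (P 12 (L 38 4))) (P 12 (L 38 4)))))) (P 12 (L 38 4))))) (A23 (B02 (B01 (P 12 (L 38 4)) (A12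
  (B12 (A01 (P 10 (L 31 1)) (P 12 (L 38 4))) (P 12 (L 38 4))) (B12 (P 10 (L 31 1)) (P 12 (L 38
  4))))) (B12 (A12 (B01 (P 12 (L 38 4)) (A01 (P 10 (L 31 1)) (P 12 (L 38 4)))) (B01 (P 12 (L 38 4))
  (P 16 (L 49 8)))) (P 12 (L 38 4)))) (B02 (B01 (P 12 (L 38 4)) (A13 (B12 (A01 (A03 (P 10 (L 31 1))
  (P 12 (L 38 4))) (P 12 (L 38 4))) (P 12 (L 38 4))) (B12 (A03 (A01 (P 10 (L 31 1)) (P 12 (L 38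
  4))) (P 12 (L 38 4))) (P 12 (L 38 4))))) (B12 (A13 (B01 (P 12 (L 38 4)) (A01 (A03 (P 10 (L 31 1))
  (P 12 (L 38 4))) (P 12 (L 38 4)))) (B01 (P 12 (L 38 4)) (A03 (A01 (P 10 (L 31 1)) (P 12 (L 38
  4))) (P 12 (L 38 4))))) (P 12 (L 38 4)))))))))) (B12 (A23 (B01 (M 1 (A02 (A03 (B02 (A01 (B01 (S
  10 (L 31 1) (L 2 1)) (A02 (A03 (B12 (P 15 (L 45 7)) (S 10 (L 31 1) (L 2 1))) (S 10 (L 31 1) (L 2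
  1))) (S 10 (L 31 1) (L 2 1)))) (S 10 (L 31 1) (L 2 1))) (A01 (A02 (A03 (B12 (B01 (S 10 (L 31 1)
  (L 2 1)) (P 15 (L 45 7))) (S 10 (L 31 1) (L 2 1))) (S 10 (L 31 1) (L 2 1))) (A12 (S 10 (L 31 1)
  (L 2 1)) (P 10 (L 31 1)))) (A12 (S 10 (L 31 1) (L 2 1)) (A02 (S 10 (L 31 1) (L 2 1)) (P 10 (L 31
  1)))))) (M 5 (B02 (A13 (S 10 (L 31 1) (L 2 1)) (B01 (P 12 (L 38 4)) (A23 (A12 (B12 (S 10 (L 31 1)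
  (L 2 1)) (A01 (A03 (S 10 (L 31 1) (L 2 1)) (P 12 (L 38 4))) (P 12 (L 38 4)))) (P 10 (L 31 1)))
  (A03 (B12 (S 10 (L 31 1) (L 2 1)) (A01 (A02 (S 10 (L 31 1) (L 2 1)) (P 12 (L 38 4))) (P 12 (L 38
  4)))) (B12 (A13 (P 13 (L 40 11)) (P 10 (L 31 1))) (P 12 (L 38 4))))))) (A13 (A12 (A01 (B12 (S 10
  (L 31 1) (L 2 1)) (B02 (P 13 (L 40 5)) (P 10 (L 31 1)))) (B12 (S 10 (L 31 1) (L 2 1)) (B02 (P 13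
  (L 40 5)) (A13 (P 13 (L 40 5)) (P 10 (L 31 1)))))) (P 10 (L 31 1))) (P 10 (L 31 1)))))) (M 5 (A12
  (B02 (A13 (S 10 (L 31 1) (L 2 1)) (B01 (P 12 (L 38 4)) (A03 (A01 (B12 (P 13 (L 40 5)) (A02 (P 10
  (L 31 1)) (P 12 (L 38 4)))) (B12 (S 10 (L 31 1) (L 2 1)) (P 12 (L 38 4)))) (A23 (B12 (S 10 (L 31
  1) (L 2 1)) (P 12 (L 38 4))) (B12 (A13 (P 13 (L 40 11)) (P 10 (L 31 1))) (P 12 (L 38 4)))))))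
  (A13 (A01 (P 10 (L 31 1)) (A12 (B12 (S 10 (L 31 1) (L 2 1)) (B02 (P 13 (L 40 5)) (A13 (P 13 (L 40
  5)) (P 10 (L 31 1))))) (B12 (S 10 (L 31 1) (L 2 1)) (B02 (A23 (B01 (P 12 (L 38 4)) (P 10 (L 31
  1))) (P 13 (L 40 5))) (P 10 (L 31 1)))))) (P 10 (L 31 1)))) (B02 (A23 (B01 (P 12 (L 38 4)) (A02
  (A03 (B12 (A01 (P 10 (L 31 1)) (B01 (P 12 (L 38 4)) (P 10 (L 31 1)))) (A01 (P 10 (L 31 1)) (P 12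
  (L 38 4)))) (B12 (A13 (B01 (P 12 (L 38 4)) (P 10 (L 31 1))) (P 10 (L 31 1))) (P 12 (L 38 4)))) (P
  12 (L 38 4)))) (B01 (P 12 (L 38 4)) (A03 (A02 (B12 (P 13 (L 40 5)) (A01 (P 10 (L 31 1)) (P 12 (L
  38 4)))) (B12 (A12 (P 13 (L 40 5)) (P 10 (L 31 1))) (P 12 (L 38 4)))) (A13 (B12 (A12 (P 13 (L 40
  5)) (P 10 (L 31 1))) (P 12 (L 38 4))) (P 10 (L 31 1)))))) (P 10 (L 31 1))))))) (A02 (A03 (B12 (M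
  16 (P 13 (A01 (M 19 (P 15 (P 10 (B01 (S 1 (L 4 1) (L 31 1)) (A02 (A03 (K [(41,5,5),(41,10,3)] [])
  (B12 (S 2 (L 8 2) (L 25 2)) (M 5 (L 46 7)))) (A12 (B12 (S 2 (L 8 2) (L 25 2)) (M 5 (L 46 7))) (M
  5 (K [(41,5,2),(46,7,3),(40,11,3)] [])))))))) (B01 (M 1 (S 10 (L 31 1) (L 2 1))) (M 19 (P 15 (P
  10 (A12 (M 1 (L 31 1)) (A02 (M 1 (K [(31,1,4),(41,5,1),(45,3,2)] [])) (M 5 (K
  [(46,7,3),(41,5,2),(40,11,3)] []))))))))))) (A01 (P 15 (P 10 (A02 (S 1 (L 4 1) (L 31 1)) (M 5 (L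
  46 7))))) (M 1 (A12 (S 10 (L 31 1) (L 2 1)) (P 10 (L 31 1)))))) (M 5 (B12 (A13 (B01 (M 1 (S 10 (L
  31 1) (L 2 1))) (P 15 (L 46 7))) (P 10 (B01 (M 1 (L 31 1)) (P 15 (L 46 7))))) (M 1 (A13 (A12 (A01
  (P 10 (L 31 1)) (B02 (S 10 (L 31 1) (L 2 1)) (B12 (P 13 (L 40 5)) (A13 (P 13 (L 40 5)) (P 10 (L
  31 1)))))) (P 10 (L 31 1))) (P 10 (L 31 1))))))) (M 5 (P 2 (A12 (B12 (A13 (B01 (M 1 (S 10 (L 31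
  1) (L 2 1))) (P 15 (L 46 7))) (P 10 (B01 (M 1 (L 31 1)) (P 15 (L 46 7))))) (M 1 (A13 (A01 (P 10
  (L 31 1)) (A12 (B02 (S 10 (L 31 1) (L 2 1)) (B12 (P 13 (L 40 5)) (A13 (P 13 (L 40 5)) (P 10 (L 31
  1))))) (P 10 (L 31 1)))) (P 10 (L 31 1))))) (P 10 (B12 (A23 (B01 (M 1 (L 31 1)) (A02 (A03 (P 15
  (L 46 7)) (S 12 (L 38 4) (L 7 4))) (S 12 (L 38 4) (L 7 4)))) (B01 (M 1 (L 31 1)) (A03 (A02 (P 15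
  (L 46 7)) (S 12 (L 38 4) (L 7 4))) (M 1 (L 31 1))))) (M 1 (L 31 1))))))))) (B01 (M 1 (A03 (A02
  (B02 (A01 (B01 (S 10 (L 31 1) (L 2 1)) (A03 (A02 (B12 (M 12 (S 2 (L 7 4) (L 25 4))) (S 10 (L 31
  1) (L 2 1))) (S 10 (L 31 1) (L 2 1))) (S 10 (L 31 1) (L 2 1)))) (S 10 (L 31 1) (L 2 1))) (A01
  (A03 (A02 (B12 (B01 (S 10 (L 31 1) (L 2 1)) (M 12 (S 2 (L 7 4) (L 25 4)))) (S 10 (L 31 1) (L 2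
  1))) (S 10 (L 31 1) (L 2 1))) (S 10 (L 31 1) (L 2 1))) (S 10 (L 31 1) (L 2 1)))) (M 5 (B02 (A12
  (S 10 (L 31 1) (L 2 1)) (B01 (P 12 (L 38 4)) (A23 (A02 (S 10 (L 31 1) (L 2 1)) (B12 (A12 (P 13 (L
  40 11)) (P 10 (L 31 1))) (P 12 (L 38 4)))) (S 10 (L 31 1) (L 2 1))))) (A12 (A13 (A01 (B12 (S 10
  (L 31 1) (L 2 1)) (B02 (S 10 (L 31 1) (L 2 1)) (P 10 (L 31 1)))) (B12 (S 10 (L 31 1) (L 2 1))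
  (B02 (S 10 (L 31 1) (L 2 1)) (A12 (S 10 (L 31 1) (L 2 1)) (P 10 (L 31 1)))))) (A23 (B12 (S 10 (L
  31 1) (L 2 1)) (B02 (S 10 (L 31 1) (L 2 1)) (P 10 (L 31 1)))) (S 10 (L 31 1) (L 2 1)))) (P 10 (L
  31 1)))))) (M 5 (A13 (B02 (A12 (S 10 (L 31 1) (L 2 1)) (B01 (P 12 (L 38 4)) (A02 (S 10 (L 31 1)
  (L 2 1)) (A23 (B12 (A12 (P 13 (L 40 11)) (P 10 (L 31 1))) (P 12 (L 38 4))) (S 10 (L 31 1) (L 2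
  1)))))) (A12 (A01 (A02 (S 10 (L 31 1) (L 2 1)) (B12 (S 10 (L 31 1) (L 2 1)) (B02 (S 10 (L 31 1)
  (L 2 1)) (P 10 (L 31 1))))) (A13 (B12 (S 10 (L 31 1) (L 2 1)) (B02 (S 10 (L 31 1) (L 2 1)) (A12
  (S 10 (L 31 1) (L 2 1)) (P 10 (L 31 1))))) (B12 (S 10 (L 31 1) (L 2 1)) (B02 (S 10 (L 31 1) (L 2
  1)) (P 10 (L 31 1)))))) (A02 (A01 (B12 (S 10 (L 31 1) (L 2 1)) (B02 (A03 (P 10 (L 31 1)) (B01 (P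
  12 (L 38 4)) (P 10 (L 31 1)))) (P 10 (L 31 1)))) (B12 (S 10 (L 31 1) (L 2 1)) (B02 (A13 (P 10 (L
  31 1)) (B01 (P 12 (L 38 4)) (P 10 (L 31 1)))) (P 10 (L 31 1))))) (A23 (P 10 (L 31 1)) (B12 (S 10
  (L 31 1) (L 2 1)) (B02 (A13 (P 10 (L 31 1)) (B01 (P 12 (L 38 4)) (P 10 (L 31 1)))) (P 10 (L 31
  1)))))))) (B02 (A23 (B01 (P 12 (L 38 4)) (A02 (A03 (S 10 (L 31 1) (L 2 1)) (B12 (A13 (S 10 (L 31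
  1) (L 2 1)) (B01 (P 12 (L 38 4)) (P 10 (L 31 1)))) (P 12 (L 38 4)))) (A12 (B12 (A13 (S 10 (L 31
  1) (L 2 1)) (B01 (P 12 (L 38 4)) (P 10 (L 31 1)))) (P 12 (L 38 4))) (P 10 (L 31 1))))) (B01 (P 12
  (L 38 4)) (A03 (A02 (S 10 (L 31 1) (L 2 1)) (B12 (A12 (S 10 (L 31 1) (L 2 1)) (B01 (P 12 (L 38
  4)) (P 10 (L 31 1)))) (P 12 (L 38 4)))) (A13 (B12 (A12 (S 10 (L 31 1) (L 2 1)) (B01 (P 12 (L 38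
  4)) (P 10 (L 31 1)))) (P 12 (L 38 4))) (B12 (A23 (B01 (P 12 (L 38 4)) (P 10 (L 31 1))) (S 10 (L
  31 1) (L 2 8))) (P 12 (L 38 4))))))) (A23 (A02 (A03 (B12 (S 10 (L 31 1) (L 2 1)) (B02 (A01 (P 10
  (L 31 1)) (B01 (P 12 (L 38 4)) (P 10 (L 31 1)))) (P 10 (L 31 1)))) (B12 (B01 (A13 (S 10 (L 31 1)
  (L 2 1)) (P 10 (L 31 1))) (A13 (S 10 (L 31 1) (L 2 1)) (P 10 (L 31 1)))) (B02 (A13 (B01 (P 12 (L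
  38 4)) (P 10 (L 31 1))) (P 10 (L 31 1))) (P 10 (L 31 1))))) (A12 (B12 (B01 (A13 (S 10 (L 31 1) (L
  2 1)) (P 10 (L 31 1))) (A13 (S 10 (L 31 1) (L 2 1)) (P 10 (L 31 1)))) (B02 (A13 (B01 (P 12 (L 38
  4)) (P 10 (L 31 1))) (P 10 (L 31 1))) (P 10 (L 31 1)))) (P 10 (L 31 1)))) (A03 (A02 (B12 (S 10 (L
  31 1) (L 2 1)) (B02 (S 10 (L 31 1) (L 2 1)) (P 10 (L 31 1)))) (B12 (B01 (A12 (S 10 (L 31 1) (L 2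
  1)) (P 10 (L 31 1))) (A12 (S 10 (L 31 1) (L 2 1)) (P 10 (L 31 1)))) (B02 (A12 (B01 (P 12 (L 38
  4)) (P 10 (L 31 1))) (P 10 (L 31 1))) (P 10 (L 31 1))))) (A13 (B12 (B01 (A12 (S 10 (L 31 1) (L 2
  1)) (P 10 (L 31 1))) (A12 (S 10 (L 31 1) (L 2 1)) (P 10 (L 31 1)))) (B02 (A12 (B01 (P 12 (L 38
  4)) (P 10 (L 31 1))) (P 10 (L 31 1))) (P 10 (L 31 1)))) (P 10 (L 31 1)))))))))) (A03 (A02 (P 13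
  (B12 (A01 (M 19 (P 10 (B01 (S 1 (L 4 1) (L 31 1)) (K [(41,5,6),(41,10,2)] [])))) (M 1 (B01 (S 10
  (L 31 1) (L 2 1)) (P 10 (L 31 1))))) (A01 (P 10 (S 1 (L 4 1) (L 31 1))) (M 1 (S 10 (L 31 1) (L 2
  1)))))) (M 1 (B12 (A12 (S 10 (L 31 1) (L 2 1)) (P 10 (L 31 1))) (A12 (A13 (A01 (B02 (S 10 (L 31
  1) (L 2 1)) (P 10 (L 31 1))) (B02 (S 10 (L 31 1) (L 2 1)) (B12 (S 10 (L 31 1) (L 2 1)) (A12 (S 10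
  (L 31 1) (L 2 1)) (P 10 (L 31 1)))))) (A23 (B02 (S 10 (L 31 1) (L 2 1)) (P 10 (L 31 1))) (S 10 (L
  31 1) (L 2 1)))) (P 10 (L 31 1)))))) (M 5 (M 1 (A13 (B12 (A12 (S 10 (L 31 1) (L 2 1)) (B01 (A02
  (S 10 (L 31 1) (L 2 1)) (A23 (P 10 (L 31 1)) (S 10 (L 31 1) (L 2 1)))) (P 15 (L 46 7)))) (A12
  (A01 (A02 (S 10 (L 31 1) (L 2 1)) (B02 (S 10 (L 31 1) (L 2 1)) (P 10 (L 31 1)))) (A13 (B02 (S 10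
  (L 31 1) (L 2 1)) (B12 (S 10 (L 31 1) (L 2 1)) (A12 (S 10 (L 31 1) (L 2 1)) (P 10 (L 31 1)))))
  (B02 (S 10 (L 31 1) (L 2 1)) (P 10 (L 31 1))))) (A02 (A01 (B02 (S 10 (L 31 1) (L 2 1)) (P 10 (L
  31 1))) (B02 (S 10 (L 31 1) (L 2 1)) (P 10 (L 31 1)))) (A23 (P 10 (L 31 1)) (B02 (S 10 (L 31 1)
  (L 2 1)) (P 10 (L 31 1))))))) (B12 (A23 (B01 (A02 (A03 (S 10 (L 31 1) (L 2 1)) (B02 (P 13 (L 40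
  11)) (P 10 (L 31 1)))) (A12 (B02 (P 13 (L 40 11)) (P 10 (L 31 1))) (P 10 (L 31 1)))) (P 15 (L 46
  7))) (B01 (A03 (A02 (S 10 (L 31 1) (L 2 8)) (B02 (S 10 (L 31 1) (L 2 8)) (P 10 (L 31 1)))) (A13
  (B02 (S 10 (L 31 1) (L 2 8)) (P 10 (L 31 1))) (P 10 (L 31 1)))) (P 15 (L 46 7)))) (A23 (A02 (A03
  (B02 (S 10 (L 31 1) (L 2 1)) (P 10 (L 31 1))) (B02 (B01 (A13 (S 10 (L 31 1) (L 2 1)) (P 10 (L 31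
  1))) (P 10 (L 31 1))) (P 10 (L 31 1)))) (A12 (B02 (B01 (A13 (S 10 (L 31 1) (L 2 1)) (P 10 (L 31
  1))) (P 10 (L 31 1))) (P 10 (L 31 1))) (P 10 (L 31 1)))) (A03 (A02 (B02 (S 10 (L 31 1) (L 2 8))
  (P 10 (L 31 1))) (B02 (B01 (A12 (S 10 (L 31 1) (L 2 1)) (P 10 (L 31 1))) (P 10 (L 31 1))) (P 10
  (L 31 1)))) (A13 (B02 (B01 (A12 (S 10 (L 31 1) (L 2 8)) (P 10 (L 31 1))) (P 10 (L 31 1))) (P 10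
  (L 31 1))) (P 10 (L 31 1)))))))))))) (M 5 (M 1 (A23 (A02 (A03 (B02 (B01 (S 10 (L 31 1) (L 2 1))
  (A01 (B12 (A02 (P 13 (L 40 5)) (A12 (P 13 (L 40 5)) (P 10 (L 31 1)))) (A02 (P 13 (L 40 5)) (A12
  (P 13 (L 40 5)) (P 10 (L 31 1))))) (B12 (A12 (P 13 (L 40 5)) (A02 (P 13 (L 40 5)) (P 10 (L 31
  1)))) (P 12 (L 38 4))))) (B12 (A01 (B01 (A02 (A03 (P 13 (L 40 5)) (B02 (A13 (P 13 (L 40 5)) (B01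
  (P 12 (L 38 4)) (P 10 (L 31 1)))) (P 10 (L 31 1)))) (A12 (B02 (A13 (P 13 (L 40 5)) (B01 (P 12 (L
  38 4)) (P 10 (L 31 1)))) (P 10 (L 31 1))) (P 10 (L 31 1)))) (P 10 (L 31 1))) (B01 (P 12 (L 38 4))
  (A12 (A13 (B12 (P 13 (L 40 5)) (A01 (A02 (P 13 (L 40 5)) (P 12 (L 38 4))) (P 12 (L 38 4)))) (P 10
  (L 31 1))) (P 10 (L 31 1))))) (A01 (A02 (A03 (B02 (P 13 (L 40 5)) (B12 (A01 (P 10 (L 31 1)) (B01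
  (P 12 (L 38 4)) (P 10 (L 31 1)))) (A01 (P 10 (L 31 1)) (P 12 (L 38 4))))) (P 12 (L 38 4))) (P 12
  (L 38 4))) (P 12 (L 38 4))))) (B02 (B01 (P 12 (L 38 4)) (A13 (B12 (A12 (A01 (B01 (A03 (P 13 (L 40
  5)) (P 12 (L 38 4))) (P 10 (L 31 1))) (P 12 (L 38 4))) (P 10 (L 31 1))) (P 12 (L 38 4))) (B12 (P
  10 (L 31 1)) (P 12 (L 38 4))))) (B12 (A13 (B01 (P 12 (L 38 4)) (A12 (A01 (P 10 (L 31 1)) (P 12 (L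
  38 4))) (P 10 (L 31 1)))) (B01 (P 12 (L 38 4)) (P 10 (L 31 1)))) (P 12 (L 38 4))))) (A12 (B02
  (B01 (P 12 (L 38 4)) (A13 (B12 (A01 (P 10 (L 31 1)) (P 12 (L 38 4))) (P 12 (L 38 4))) (B12 (P 10
  (L 31 1)) (P 12 (L 38 4))))) (B12 (A13 (B01 (P 12 (L 38 4)) (A01 (P 10 (L 31 1)) (P 12 (L 38
  4)))) (B01 (P 12 (L 38 4)) (P 16 (L 49 8)))) (P 12 (L 38 4)))) (B02 (B01 (P 12 (L 38 4)) (A23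
  (B12 (P 10 (L 31 1)) (P 12 (L 38 4))) (B12 (P 10 (L 31 1)) (P 12 (L 38 4))))) (B12 (A23 (B01 (P
  12 (L 38 4)) (P 16 (L 49 8))) (B01 (P 12 (L 38 4)) (P 16 (L 49 8)))) (P 12 (L 38 4)))))) (A03
  (A02 (B02 (S 10 (L 31 1) (L 2 1)) (B12 (A01 (B01 (A03 (A02 (P 13 (L 40 5)) (B02 (A12 (P 13 (L 40
  5)) (B01 (P 12 (L 38 4)) (P 10 (L 31 1)))) (P 10 (L 31 1)))) (A13 (B02 (A12 (P 13 (L 40 5)) (B01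
  (P 12 (L 38 4)) (P 10 (L 31 1)))) (P 10 (L 31 1))) (B02 (A23 (B01 (P 12 (L 38 4)) (P 10 (L 31
  1))) (B01 (P 12 (L 38 4)) (P 10 (L 31 1)))) (P 10 (L 31 1))))) (P 10 (L 31 1))) (B01 (P 12 (L 38
  4)) (A13 (A12 (P 13 (L 40 5)) (P 10 (L 31 1))) (P 10 (L 31 1))))) (A01 (A03 (A02 (B02 (P 13 (L 40
  5)) (B12 (A01 (P 10 (L 31 1)) (B01 (P 12 (L 38 4)) (P 10 (L 31 1)))) (A01 (P 10 (L 31 1)) (P 12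
  (L 38 4))))) (B02 (B01 (P 12 (L 38 4)) (A12 (P 13 (L 40 5)) (P 10 (L 31 1)))) (B12 (A12 (B01 (P
  12 (L 38 4)) (P 10 (L 31 1))) (P 10 (L 31 1))) (P 12 (L 38 4))))) (A13 (B02 (B01 (P 12 (L 38 4))
  (A12 (P 13 (L 40 5)) (P 10 (L 31 1)))) (B12 (A12 (B01 (P 12 (L 38 4)) (P 10 (L 31 1))) (P 10 (L
  31 1))) (P 12 (L 38 4)))) (B02 (B01 (P 12 (L 38 4)) (P 10 (L 31 1))) (P 10 (L 31 1))))) (P 12 (L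
  38 4))))) (B02 (B01 (P 12 (L 38 4)) (A12 (B12 (A13 (A01 (B01 (A02 (P 13 (L 40 5)) (P 12 (L 38
  4))) (P 10 (L 31 1))) (P 12 (L 38 4))) (A23 (B01 (A02 (P 13 (L 40 5)) (P 12 (L 38 4))) (P 10 (L
  31 1))) (P 13 (L 40 5)))) (P 12 (L 38 4))) (B12 (P 10 (L 31 1)) (P 12 (L 38 4))))) (B12 (A12 (B01
  (P 12 (L 38 4)) (A13 (A01 (P 10 (L 31 1)) (P 12 (L 38 4))) (P 10 (L 31 1)))) (B01 (P 12 (L 38 4))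
  (P 10 (L 31 1)))) (P 12 (L 38 4))))) (A13 (B02 (B01 (P 12 (L 38 4)) (A12 (B12 (A01 (A02 (P 13 (L
  40 5)) (P 12 (L 38 4))) (P 12 (L 38 4))) (P 12 (L 38 4))) (B12 (A02 (A01 (B01 (A03 (P 10 (L 31
  1)) (P 12 (L 38 4))) (P 10 (L 31 1))) (P 12 (L 38 4))) (P 12 (L 38 4))) (P 12 (L 38 4))))) (B12
  (A12 (B01 (P 12 (L 38 4)) (A01 (P 10 (L 31 1)) (P 12 (L 38 4)))) (B01 (P 12 (L 38 4)) (P 10 (L 31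
  1)))) (P 12 (L 38 4)))) (B02 (B01 (P 12 (L 38 4)) (A23 (B12 (A02 (A03 (B01 (A01 (P 10 (L 31 1))
  (P 12 (L 38 4))) (P 10 (L 31 1))) (P 12 (L 38 4))) (P 12 (L 38 4))) (P 12 (L 38 4))) (B12 (A03
  (A02 (B01 (A01 (P 10 (L 31 1)) (P 12 (L 38 4))) (P 10 (L 31 1))) (B01 (P 12 (L 38 4)) (P 10 (L 31
  1)))) (A13 (B01 (P 12 (L 38 4)) (P 10 (L 31 1))) (P 10 (L 31 1)))) (P 12 (L 38 4))))) (B12 (A23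
  (B01 (P 12 (L 38 4)) (P 10 (L 31 1))) (B01 (P 12 (L 38 4)) (P 10 (L 31 1)))) (P 12 (L 38
  4))))))))))))))) (P 6 (M 1 (A13 (A12 (B12 (A01 (M 18 (B01 (A03 (out 9) (P 12 (L 38 4))) (P 0 (A03
  (out 9) (S 10 (L 31 1) (L 2 1)))))) (P 12 (B01 (M 10 (S 0 (L 2 1) (L 24 1))) (M 18 (L 38 4)))))
  (P 19 (M 10 (A01 (A03 (out 9) (A13 (out 9) (M 7 (L 58 10)))) (M 5 (A13 (out 8) (A03 (out 9) (B02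
  (S 0 (L 2 1) (L 24 1)) (B12 (P 13 (L 40 5)) (A23 (out 9) (A13 (out 9) (M 7 (L 58 10)))))))))))))
  (M 7 (P 0 (B12 (M 18 (A02 (M 16 (B01 (A03 (out 9) (P 12 (L 38 4))) (A03 (out 9) (S 10 (L 32 1) (L
  2 1))))) (M 5 (P 2 (B01 (P 12 (L 38 4)) (A23 (A12 (B12 (A01 (B01 (A03 (out 9) (P 12 (L 38 4))) (S
  12 (L 38 4) (L 18 4))) (B01 (P 12 (L 38 4)) (A13 (out 9) (A03 (out 9) (P 12 (L 38 4)))))) (A01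
  (A03 (out 9) (P 12 (L 38 4))) (P 12 (L 38 4)))) (B12 (A02 (B01 (A03 (out 9) (A23 (out 9) (P 12 (L
  38 4)))) (S 12 (L 38 4) (L 18 4))) (B01 (A23 (P 10 (L 31 1)) (A03 (P 10 (L 31 1)) (P 12 (L 38
  4)))) (S 12 (L 38 4) (L 7 4)))) (A02 (A03 (out 9) (P 12 (L 38 4))) (P 12 (L 38 4))))) (A03 (B12
  (A01 (B01 (A02 (out 9) (P 12 (L 38 4))) (A02 (out 9) (A12 (out 9) (B12 (P 13 (L 40 5)) (P 12 (L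
  38 4)))))) (B01 (P 12 (L 38 4)) (A12 (out 9) (A02 (out 9) (B12 (P 13 (L 40 5)) (P 12 (L 38
  4))))))) (A01 (A02 (out 9) (P 12 (L 38 4))) (P 12 (L 38 4)))) (B12 (A13 (B01 (P 12 (L 38 4)) (A12
  (out 9) (A23 (B12 (P 13 (L 40 5)) (P 12 (L 38 4))) (P 13 (L 40 5))))) (B01 (P 12 (L 38 4)) (A23
  (A12 (P 13 (L 40 5)) (B12 (P 13 (L 40 5)) (P 12 (L 38 4)))) (S 10 (L 31 1) (L 2 1))))) (P 12 (L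
  38 4)))))))))) (P 12 (A02 (A03 (out 9) (A23 (out 9) (P 19 (L 58 10)))) (A23 (A12 (B02 (M 18 (L 38
  4)) (B12 (M 18 (L 38 4)) (A01 (M 18 (L 38 4)) (A13 (out 9) (A03 (out 9) (B02 (M 18 (L 38 4)) (P
  16 (L 49 8)))))))) (M 18 (L 38 4))) (A03 (B02 (M 18 (L 38 4)) (B12 (M 18 (L 38 4)) (A01 (M 18 (L
  38 4)) (A12 (out 9) (A02 (out 9) (B02 (M 18 (L 38 4)) (B12 (M 18 (L 38 4)) (A23 (P 16 (L 49 8))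
  (P 19 (L 58 10)))))))))) (B02 (B01 (P 19 (L 58 10)) (A13 (M 18 (L 38 4)) (B12 (M 18 (L 38 4)) (P
  19 (L 58 10))))) (B12 (A13 (M 18 (L 38 4)) (B01 (A23 (M 18 (L 38 4)) (P 19 (L 58 10))) (M 18 (L
  38 4)))) (A13 (A12 (out 9) (A23 (B02 (M 18 (L 38 4)) (B12 (M 18 (L 38 4)) (A02 (P 19 (L 58 10))
  (P 16 (L 49 8))))) (P 19 (L 58 10)))) (A23 (A12 (P 19 (L 58 10)) (B02 (M 18 (L 38 4)) (B12 (M 18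
  (L 38 4)) (A02 (P 19 (L 58 10)) (P 16 (L 49 8)))))) (P 19 (L 58 10)))))))))))))) (M 7 (P 0 (A03
  (B12 (M 18 (A02 (M 16 (B01 (A01 (A03 (out 9) (S 10 (L 31 1) (L 2 1))) (P 12 (L 38 4))) (A01 (A03
  (out 9) (S 10 (L 32 1) (L 2 1))) (S 10 (L 32 1) (L 2 1))))) (M 5 (P 2 (B01 (P 12 (L 38 4)) (A12
  (A01 (B12 (A03 (B01 (A02 (out 9) (A23 (P 12 (L 38 4)) (P 13 (L 40 5)))) (A02 (out 9) (A23 (B12 (P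
  13 (L 40 5)) (A12 (P 13 (L 40 5)) (P 10 (L 31 1)))) (P 13 (L 40 5))))) (B01 (A23 (A02 (P 13 (L 40
  5)) (P 12 (L 38 4))) (S 10 (L 31 1) (L 2 1))) (A23 (A02 (P 13 (L 40 5)) (B12 (P 13 (L 40 5)) (A12
  (P 13 (L 40 5)) (P 10 (L 31 1))))) (S 10 (L 31 1) (L 2 1))))) (A03 (A02 (out 9) (A23 (P 12 (L 38
  4)) (P 13 (L 40 5)))) (A23 (A02 (P 13 (L 40 5)) (P 12 (L 38 4))) (S 10 (L 31 1) (L 2 1))))) (B12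
  (A13 (B01 (P 12 (L 38 4)) (A12 (S 10 (L 31 1) (L 2 1)) (A23 (B12 (P 13 (L 40 5)) (P 12 (L 38 4)))
  (S 10 (L 31 1) (L 2 1))))) (B01 (A23 (P 12 (L 38 4)) (S 10 (L 31 1) (L 2 1))) (A23 (A12 (S 10 (L
  31 1) (L 2 1)) (B12 (P 13 (L 40 5)) (A02 (P 13 (L 40 5)) (A23 (P 12 (L 38 4)) (P 13 (L 40 5))))))
  (S 10 (L 31 1) (L 2 1))))) (A13 (P 12 (L 38 4)) (A23 (P 12 (L 38 4)) (S 10 (L 31 1) (L 2 1))))))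
  (A23 (B12 (A02 (B01 (A01 (A03 (out 9) (B02 (A23 (out 9) (P 13 (L 40 5))) (P 10 (L 31 1)))) (A12
  (B02 (P 13 (L 40 5)) (P 10 (L 31 1))) (B02 (A23 (out 9) (P 13 (L 40 5))) (P 10 (L 31 1))))) (S 13
  (L 40 5) (L 13 5))) (B01 (A12 (A01 (P 10 (L 31 1)) (B02 (A13 (P 12 (L 38 4)) (P 10 (L 31 1))) (P
  10 (L 31 1)))) (P 10 (L 31 1))) (S 12 (L 38 4) (L 7 4)))) (A02 (A01 (A03 (out 9) (B02 (B01 (P 12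
  (L 38 4)) (P 10 (L 31 1))) (P 10 (L 31 1)))) (A12 (B02 (B01 (P 12 (L 38 4)) (P 10 (L 31 1))) (P
  10 (L 31 1))) (B02 (B01 (P 12 (L 38 4)) (P 10 (L 31 1))) (P 10 (L 31 1))))) (A12 (A01 (P 10 (L 31
  1)) (B02 (B01 (P 12 (L 38 4)) (P 10 (L 31 1))) (P 10 (L 31 1)))) (P 10 (L 31 1))))) (B12 (A03
  (B01 (A01 (P 13 (L 40 5)) (A13 (B02 (P 13 (L 40 5)) (P 10 (L 31 1))) (P 13 (L 40 5)))) (S 13 (L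
  40 5) (L 13 5))) (B01 (A13 (A01 (P 13 (L 40 5)) (B02 (P 13 (L 40 5)) (P 10 (L 31 1)))) (S 10 (L
  31 1) (L 2 1))) (P 10 (K [(31,1,5),(31,3,3)] [])))) (A03 (A01 (A02 (out 9) (B02 (P 13 (L 40 5))
  (P 10 (L 31 1)))) (A13 (B02 (B01 (P 12 (L 38 4)) (P 10 (L 31 1))) (P 10 (L 31 1))) (B02 (P 13 (L
  40 5)) (P 10 (L 31 1))))) (A13 (A01 (B02 (P 13 (L 40 5)) (P 10 (L 31 1))) (B02 (B01 (P 12 (L 38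
  4)) (P 10 (L 31 1))) (P 10 (L 31 1)))) (A23 (B02 (P 13 (L 40 5)) (P 10 (L 31 1))) (S 10 (L 31 1)
  (L 2 1))))))))))))) (M 15 (P 12 (A02 (A01 (M 18 (L 38 4)) (M 5 (A12 (B02 (S 9 (L 29 7) (L 12 7))
  (B12 (P 13 (L 40 5)) (P 19 (L 58 10)))) (M 18 (L 38 4))))) (A12 (A01 (M 18 (L 38 4)) (B02 (B01 (P
  19 (L 58 10)) (A13 (B12 (M 18 (L 38 4)) (P 19 (L 58 10))) (M 18 (L 38 4)))) (B12 (A13 (B01 (A12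
  (P 19 (L 58 10)) (M 18 (L 38 4))) (M 18 (L 38 4))) (M 18 (L 38 4))) (A13 (A12 (P 19 (L 58 10)) (M
  18 (L 38 4))) (M 18 (L 38 4)))))) (M 18 (L 38 4))))))) (M 5 (P 2 (B12 (M 18 (A23 (B01 (P 12 (L 38
  4)) (A12 (A13 (B12 (A01 (B01 (A02 (S 10 (L 31 1) (L 2 1)) (P 12 (L 38 4))) (A02 (S 10 (L 31 1) (L
  2 1)) (A12 (S 10 (L 31 1) (L 2 1)) (B12 (S 10 (L 31 1) (L 2 1)) (A23 (A02 (P 13 (L 40 5)) (P 12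
  (L 38 4))) (P 13 (L 40 5))))))) (B01 (P 12 (L 38 4)) (A12 (S 10 (L 31 1) (L 2 1)) (A02 (S 10 (L
  31 1) (L 2 1)) (B12 (S 10 (L 31 1) (L 2 1)) (P 12 (L 38 4))))))) (A01 (A02 (A03 (S 10 (L 31 1) (L
  2 1)) (P 12 (L 38 4))) (P 12 (L 38 4))) (P 12 (L 38 4)))) (B12 (A03 (B01 (A02 (S 10 (L 31 1) (L 2
  1)) (A23 (P 12 (L 38 4)) (S 10 (L 31 1) (L 2 1)))) (P 10 (L 31 1))) (B01 (A23 (A02 (B02 (A01 (B01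
  (A03 (S 10 (L 31 1) (L 2 1)) (P 12 (L 38 4))) (P 10 (L 31 1))) (P 12 (L 38 4))) (P 10 (L 31 1)))
  (P 12 (L 38 4))) (A13 (B02 (A01 (B01 (A02 (P 13 (L 40 11)) (P 12 (L 38 4))) (P 10 (L 31 1))) (P
  12 (L 38 4))) (P 10 (L 31 1))) (P 10 (L 31 1)))) (P 10 (L 31 1)))) (A03 (A02 (A01 (B02 (S 10 (L
  31 1) (L 2 1)) (B12 (P 13 (L 40 5)) (P 12 (L 38 4)))) (B02 (S 10 (L 31 1) (L 2 1)) (B12 (P 13 (L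
  40 5)) (P 12 (L 38 4))))) (A23 (P 12 (L 38 4)) (B02 (S 10 (L 31 1) (L 2 1)) (P 10 (L 31 1)))))
  (A23 (A02 (B02 (B01 (P 12 (L 38 4)) (P 10 (L 31 1))) (P 10 (L 31 1))) (P 12 (L 38 4))) (A13 (B02
  (B01 (P 12 (L 38 4)) (P 10 (L 31 1))) (P 10 (L 31 1))) (P 10 (L 31 1))))))) (A02 (B12 (A03 (B01
  (A01 (S 10 (L 31 1) (L 2 1)) (A13 (B02 (P 13 (L 40 5)) (P 10 (L 31 1))) (S 10 (L 31 1) (L 2 1))))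
  (P 10 (L 31 1))) (B01 (A13 (A01 (P 10 (L 31 1)) (B02 (A12 (P 12 (L 38 4)) (P 10 (L 31 1))) (P 10
  (L 31 1)))) (P 10 (L 31 1))) (P 10 (L 31 1)))) (A03 (A01 (A02 (B02 (S 10 (L 31 1) (L 2 1)) (B12
  (P 13 (L 40 5)) (P 12 (L 38 4)))) (B02 (S 10 (L 31 1) (L 2 1)) (P 10 (L 31 1)))) (A13 (B02 (B01
  (P 12 (L 38 4)) (P 10 (L 31 1))) (P 10 (L 31 1))) (B02 (S 10 (L 31 1) (L 2 1)) (P 10 (L 31 1)))))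
  (A13 (A01 (P 10 (L 31 1)) (B02 (B01 (P 12 (L 38 4)) (P 10 (L 31 1))) (P 10 (L 31 1)))) (P 10 (L
  31 1))))) (B12 (A23 (B01 (A12 (A13 (B02 (A01 (P 10 (L 31 1)) (P 12 (L 38 4))) (P 10 (L 31 1))) (P
  10 (L 31 1))) (P 10 (L 31 1))) (S 12 (L 38 4) (L 7 4))) (B01 (A13 (A12 (B02 (A01 (P 10 (L 31 1))
  (P 12 (L 38 4))) (P 10 (L 31 1))) (P 10 (L 31 1))) (P 10 (L 31 1))) (P 10 (L 31 1)))) (A23 (A12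
  (A13 (B02 (B01 (P 12 (L 38 4)) (P 10 (L 31 1))) (P 10 (L 31 1))) (P 10 (L 31 1))) (P 10 (L 31
  1))) (A13 (A12 (B02 (B01 (P 12 (L 38 4)) (P 10 (L 31 1))) (P 10 (L 31 1))) (P 10 (L 31 1))) (P 10
  (L 31 1)))))))) (B01 (P 12 (L 38 4)) (A13 (A12 (B12 (S 10 (L 31 1) (L 2 1)) (A01 (A03 (A02 (S 10
  (L 31 1) (L 2 1)) (P 12 (L 38 4))) (P 12 (L 38 4))) (P 12 (L 38 4)))) (B12 (A02 (S 10 (L 31 1) (L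
  2 1)) (B01 (A23 (A12 (B02 (P 13 (L 40 11)) (P 10 (L 31 1))) (P 10 (L 31 1))) (S 10 (L 31 1) (L 2
  1))) (A23 (P 10 (L 31 1)) (S 10 (L 31 1) (L 2 1))))) (A02 (A03 (A01 (B02 (S 10 (L 31 1) (L 2 1))
  (B12 (S 10 (L 31 1) (L 2 1)) (P 12 (L 38 4)))) (B02 (S 10 (L 31 1) (L 2 1)) (B12 (S 10 (L 31 1)
  (L 2 1)) (P 12 (L 38 4))))) (A23 (B02 (S 10 (L 31 1) (L 2 1)) (B12 (S 10 (L 31 1) (L 2 1)) (P 12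
  (L 38 4)))) (P 12 (L 38 4)))) (A23 (A12 (B02 (B01 (P 12 (L 38 4)) (P 10 (L 31 1))) (P 10 (L 31
  1))) (P 10 (L 31 1))) (A03 (B02 (S 10 (L 31 1) (L 2 1)) (P 10 (L 31 1))) (P 12 (L 38 4)))))))
  (A03 (B12 (A02 (S 10 (L 31 1) (L 2 1)) (B01 (A12 (S 10 (L 31 1) (L 2 1)) (A23 (P 10 (L 31 1)) (S
  10 (L 31 1) (L 2 1)))) (A12 (S 10 (L 31 1) (L 2 1)) (P 10 (L 31 1))))) (A02 (A01 (A03 (B02 (S 10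
  (L 31 1) (L 2 1)) (B12 (S 10 (L 31 1) (L 2 1)) (P 12 (L 38 4)))) (B02 (S 10 (L 31 1) (L 2 1))
  (B12 (S 10 (L 31 1) (L 2 1)) (P 12 (L 38 4))))) (A12 (S 10 (L 31 1) (L 2 1)) (B02 (S 10 (L 31 1)
  (L 2 1)) (B12 (S 10 (L 31 1) (L 2 1)) (P 12 (L 38 4)))))) (A12 (A01 (B02 (S 10 (L 31 1) (L 2 1))
  (P 10 (L 31 1))) (B02 (S 10 (L 31 1) (L 2 1)) (B12 (A13 (P 12 (L 38 4)) (P 10 (L 31 1))) (P 12 (L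
  38 4))))) (A23 (P 10 (L 31 1)) (B02 (S 10 (L 31 1) (L 2 1)) (P 10 (L 31 1))))))) (B12 (A23 (B01
  (A12 (A13 (S 10 (L 31 1) (L 2 1)) (B02 (P 13 (L 40 11)) (P 10 (L 31 1)))) (A02 (B02 (P 13 (L 40
  11)) (P 10 (L 31 1))) (P 10 (L 31 1)))) (A12 (A13 (S 10 (L 31 1) (L 2 8)) (P 10 (L 31 1))) (P 10
  (L 31 1)))) (B01 (A13 (A12 (S 10 (L 31 1) (L 2 1)) (B02 (P 13 (L 40 11)) (P 10 (L 31 1)))) (A03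
  (B02 (P 13 (L 40 11)) (P 10 (L 31 1))) (P 10 (L 31 1)))) (A13 (A12 (S 10 (L 31 1) (L 2 8)) (P 10
  (L 31 1))) (P 10 (L 31 1))))) (A23 (A12 (A13 (B02 (S 10 (L 31 1) (L 2 1)) (B12 (A01 (P 10 (L 31
  1)) (P 12 (L 38 4))) (P 12 (L 38 4)))) (B02 (B01 (A03 (S 10 (L 31 1) (L 2 1)) (P 12 (L 38 4))) (P
  10 (L 31 1))) (P 10 (L 31 1)))) (A02 (B02 (B01 (A03 (S 10 (L 31 1) (L 2 1)) (P 12 (L 38 4))) (P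
  10 (L 31 1))) (P 10 (L 31 1))) (P 10 (L 31 1)))) (A13 (A12 (B02 (S 10 (L 31 1) (L 2 1)) (B12 (A01
  (P 10 (L 31 1)) (P 12 (L 38 4))) (P 12 (L 38 4)))) (B02 (B01 (A02 (S 10 (L 31 1) (L 2 1)) (P 12
  (L 38 4))) (P 10 (L 31 1))) (P 10 (L 31 1)))) (A03 (B02 (B01 (A02 (S 10 (L 31 1) (L 2 8)) (P 10
  (L 31 1))) (P 10 (L 31 1))) (P 10 (L 31 1))) (P 10 (L 31 1))))))))))) (P 12 (A23 (A12 (A13 (B02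
  (B01 (P 19 (L 58 10)) (A01 (M 18 (L 38 4)) (B12 (M 18 (L 38 4)) (P 19 (L 58 10))))) (B12 (A01 (M
  18 (L 38 4)) (B01 (A12 (A13 (P 19 (L 58 10)) (M 18 (L 38 4))) (M 18 (L 38 4))) (M 18 (L 38 4))))
  (A01 (M 18 (L 38 4)) (A12 (A13 (P 19 (L 58 10)) (M 18 (L 38 4))) (M 18 (L 38 4)))))) (M 18 (L 38
  4))) (M 18 (L 38 4))) (A13 (A12 (B02 (B01 (P 19 (L 58 10)) (A01 (M 18 (L 38 4)) (B12 (M 18 (L 38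
  4)) (P 19 (L 58 10))))) (B12 (A01 (M 18 (L 38 4)) (B01 (A13 (A12 (P 19 (L 58 10)) (M 18 (L 38
  4))) (M 18 (L 38 4))) (M 18 (L 38 4)))) (A01 (M 18 (L 38 4)) (A13 (A12 (P 19 (L 58 10)) (M 18 (L
  38 4))) (M 18 (L 38 4)))))) (M 18 (L 38 4))) (M 18 (L 38 4))))))))))))))))) (M 5 (P 2 (M 1 (A12
  (A13 (A01 (B12 (A02 (M 18 (B01 (P 12 (L 38 4)) (A03 (A01 (B12 (A02 (B01 (P 12 (L 38 4)) (S 12 (L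
  38 4) (L 7 4))) (P 12 (L 38 4))) (P 12 (L 38 4))) (P 12 (L 38 4))) (P 12 (L 38 4))))) (P 12 (B01
  (A23 (out 8) (M 7 (A03 (B02 (A01 (B01 (P 19 (L 58 10)) (A02 (M 18 (L 38 4)) (P 19 (L 58 10)))) (P
  19 (L 58 10))) (A01 (A02 (M 18 (L 38 4)) (A12 (M 18 (L 38 4)) (B12 (P 19 (L 58 10)) (B02 (P 19 (L
  58 10)) (M 18 (L 38 4)))))) (P 19 (L 58 10)))) (P 19 (L 58 10))))) (A23 (out 8) (M 18 (L 38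
  4)))))) (P 12 (A02 (M 7 (M 3 (A03 (A01 (B02 (B01 (A02 (M 18 (L 38 4)) (A23 (A12 (M 18 (L 38 4))
  (B02 (B01 (P 19 (L 58 10)) (A02 (M 18 (L 38 4)) (B12 (M 18 (L 38 4)) (P 19 (L 58 10))))) (P 16 (L
  49 8)))) (M 18 (L 38 4)))) (A02 (M 18 (L 38 4)) (B12 (M 18 (L 38 4)) (A23 (A12 (M 18 (L 38 4)) (P
  16 (L 49 8))) (M 18 (L 38 4)))))) (P 16 (L 49 8))) (B02 (B01 (P 19 (L 58 10)) (A12 (B12 (M 18 (L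
  38 4)) (P 19 (L 58 10))) (B12 (M 18 (L 38 4)) (P 19 (L 58 10))))) (B12 (A12 (B01 (A13 (out 9)
  (A23 (out 9) (M 18 (L 38 4)))) (M 18 (L 38 4))) (P 16 (L 49 8))) (A12 (A13 (out 9) (A23 (out 9)
  (B02 (M 18 (L 38 4)) (P 16 (L 49 8))))) (P 16 (L 49 8)))))) (A23 (B02 (B01 (P 19 (L 58 10)) (A12
  (B12 (M 18 (L 38 4)) (P 19 (L 58 10))) (B12 (M 18 (L 38 4)) (P 19 (L 58 10))))) (B12 (A12 (B01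
  (A01 (A02 (B02 (P 19 (L 58 10)) (M 18 (L 38 4))) (P 19 (L 58 10))) (P 19 (L 58 10))) (M 18 (L 38
  4))) (P 16 (L 49 8))) (A12 (A01 (A02 (B02 (B01 (P 19 (L 58 10)) (A03 (M 18 (L 38 4)) (P 19 (L 58
  10)))) (P 16 (L 49 8))) (P 19 (L 58 10))) (P 19 (L 58 10))) (P 16 (L 49 8))))) (B02 (B01 (P 19 (L
  58 10)) (A13 (B12 (M 18 (L 38 4)) (P 19 (L 58 10))) (B12 (M 18 (L 38 4)) (P 19 (L 58 10))))) (B12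
  (A13 (B01 (A01 (A03 (B02 (P 19 (L 58 10)) (M 18 (L 38 4))) (P 19 (L 58 10))) (P 19 (L 58 10))) (M
  18 (L 38 4))) (B01 (A03 (A01 (B02 (P 19 (L 58 10)) (M 18 (L 38 4))) (P 19 (L 58 10))) (P 19 (L 58
  10))) (M 18 (L 38 4)))) (A13 (A01 (A03 (B02 (B01 (P 19 (L 58 10)) (A02 (M 18 (L 38 4)) (P 19 (L
  58 10)))) (P 16 (L 49 8))) (P 19 (L 58 10))) (P 19 (L 58 10))) (A03 (A01 (B02 (B01 (P 19 (L 58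
  10)) (A02 (M 18 (L 38 4)) (P 19 (L 58 10)))) (P 16 (L 49 8))) (P 19 (L 58 10))) (P 19 (L 58
  10)))))))))) (A23 (out 8) (M 7 (M 3 (A03 (B02 (B01 (P 19 (L 58 10)) (A01 (B12 (A02 (A03 (out 8)
  (B01 (P 19 (L 58 10)) (P 16 (L 49 8)))) (A12 (B01 (P 19 (L 58 10)) (P 16 (L 49 8))) (B01 (P 19 (L
  58 10)) (P 16 (L 49 8))))) (P 19 (L 58 10))) (P 19 (L 58 10)))) (B12 (A01 (P 16 (L 49 8)) (P 19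
  (L 58 10))) (A01 (P 16 (L 49 8)) (P 19 (L 58 10))))) (P 19 (L 58 10))))))))) (M 15 (P 12 (B12 (P
  4 (A12 (B01 (M 10 (S 0 (L 2 1) (L 24 1))) (S 9 (L 29 7) (L 12 7))) (B01 (P 19 (M 10 (A23 (out 8)
  (A13 (out 8) (B02 (S 0 (L 2 1) (L 24 1)) (M 7 (L 58 10))))))) (A23 (out 8) (A13 (out 8) (M 18 (L
  38 4))))))) (P 19 (M 10 (A12 (A13 (out 8) (A23 (out 8) (B02 (S 0 (L 2 1) (L 24 1)) (B12 (A03 (out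
  9) (B01 (A13 (out 9) (M 7 (L 58 10))) (M 7 (L 58 10)))) (A03 (out 9) (A13 (out 9) (M 7 (L 58
  10)))))))) (A23 (out 8) (A13 (out 8) (B02 (B01 (A03 (A02 (out 9) (A23 (out 8) (S 0 (L 2 1) (L 24
  1)))) (A23 (A02 (P 13 (L 40 5)) (out 8)) (P 13 (L 40 5)))) (M 7 (L 58 10))) (M 7 (L 58
  10)))))))))))) (A23 (B12 (M 3 (A02 (M 7 (B01 (P 12 (A01 (A03 (M 18 (L 38 4)) (B02 (A23 (M 18 (L
  38 4)) (B01 (A13 (M 18 (L 38 4)) (A03 (M 18 (L 38 4)) (B02 (P 19 (L 58 10)) (M 18 (L 38 4))))) (M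
  18 (L 38 4)))) (M 18 (L 38 4)))) (A12 (B02 (A13 (M 18 (L 38 4)) (B01 (P 19 (L 58 10)) (M 18 (L 38
  4)))) (M 18 (L 38 4))) (B02 (A23 (M 18 (L 38 4)) (B01 (P 19 (L 58 10)) (M 18 (L 38 4)))) (M 18 (L
  38 4)))))) (M 18 (A01 (A03 (B12 (A02 (B01 (P 12 (L 38 4)) (S 12 (L 38 4) (L 7 4))) (P 12 (L 38
  4))) (P 12 (L 38 4))) (P 12 (L 38 4))) (P 12 (L 38 4)))))) (P 12 (B01 (A12 (M 7 (A01 (B02 (A03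
  (B01 (P 19 (L 58 10)) (A02 (M 18 (L 38 4)) (A23 (P 19 (L 58 10)) (M 18 (L 38 4))))) (B01 (P 19 (L
  58 10)) (A23 (A02 (M 18 (L 38 4)) (P 19 (L 58 10))) (M 18 (L 38 4))))) (A03 (A02 (M 18 (L 38 4))
  (A23 (B12 (P 19 (L 58 10)) (B02 (P 19 (L 58 10)) (M 18 (L 38 4)))) (M 18 (L 38 4)))) (A23 (A02 (M
  18 (L 38 4)) (B12 (P 19 (L 58 10)) (B02 (P 19 (L 58 10)) (M 18 (L 38 4))))) (M 18 (L 38 4)))))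
  (B02 (A13 (P 19 (L 58 10)) (B01 (P 19 (L 58 10)) (A23 (P 19 (L 58 10)) (M 18 (L 38 4))))) (A13 (P
  19 (L 58 10)) (A23 (A12 (M 18 (L 38 4)) (B12 (P 19 (L 58 10)) (B02 (P 19 (L 58 10)) (M 18 (L 38
  4))))) (M 18 (L 38 4))))))) (A23 (out 8) (M 7 (B02 (A03 (B01 (P 19 (L 58 10)) (A01 (A02 (M 18 (L
  38 4)) (B12 (A23 (out 8) (M 18 (L 38 4))) (P 19 (L 58 10)))) (A13 (out 8) (B12 (A23 (out 8) (M 18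
  (L 38 4))) (P 19 (L 58 10)))))) (B01 (P 19 (L 58 10)) (A13 (A01 (B12 (A02 (M 18 (L 38 4)) (out
  8)) (P 19 (L 58 10))) (out 8)) (A23 (B12 (A02 (M 18 (L 38 4)) (out 8)) (P 19 (L 58 10))) (M 18 (L
  38 4)))))) (A03 (A01 (P 16 (L 49 8)) (A13 (out 8) (P 16 (L 49 8)))) (A13 (A01 (B12 (B01 (P 16 (L
  49 8)) (M 18 (L 38 4))) (P 16 (L 49 8))) (out 8)) (A23 (B12 (B01 (P 16 (L 49 8)) (M 18 (L 38 4)))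
  (P 16 (L 49 8))) (M 18 (L 38 4))))))))) (A12 (M 18 (L 38 4)) (A23 (out 8) (M 18 (L 38 4))))))))
  (P 12 (A02 (M 7 (M 3 (A01 (A03 (B02 (B01 (A02 (M 18 (L 38 4)) (A12 (M 18 (L 38 4)) (A23 (B02 (B01
  (P 19 (L 58 10)) (A02 (M 18 (L 38 4)) (B12 (M 18 (L 38 4)) (P 19 (L 58 10))))) (P 16 (L 49 8)))
  (B02 (M 18 (L 38 4)) (P 16 (L 49 8)))))) (A02 (M 18 (L 38 4)) (B12 (M 18 (L 38 4)) (A12 (M 18 (L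
  38 4)) (P 16 (L 49 8)))))) (P 16 (L 49 8))) (B02 (B01 (A23 (A12 (A13 (M 18 (L 38 4)) (B02 (B01 (P
  19 (L 58 10)) (A03 (M 18 (L 38 4)) (B12 (M 18 (L 38 4)) (P 19 (L 58 10))))) (P 16 (L 49 8))))
  (A02 (B02 (B01 (P 19 (L 58 10)) (A03 (M 18 (L 38 4)) (B12 (M 18 (L 38 4)) (P 19 (L 58 10))))) (P
  16 (L 49 8))) (B02 (B01 (P 19 (L 58 10)) (A23 (B12 (M 18 (L 38 4)) (P 19 (L 58 10))) (B12 (M 18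
  (L 38 4)) (P 19 (L 58 10))))) (P 16 (L 49 8))))) (A13 (A12 (M 18 (L 38 4)) (B02 (B01 (P 19 (L 58
  10)) (A02 (M 18 (L 38 4)) (B12 (M 18 (L 38 4)) (P 19 (L 58 10))))) (P 16 (L 49 8)))) (A03 (B02
  (B01 (P 19 (L 58 10)) (P 16 (L 49 8))) (P 16 (L 49 8))) (B02 (B01 (P 19 (L 58 10)) (P 16 (L 49
  8))) (P 16 (L 49 8)))))) (A23 (B12 (M 18 (L 38 4)) (A12 (A13 (M 18 (L 38 4)) (P 16 (L 49 8))) (P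
  16 (L 49 8)))) (B12 (M 18 (L 38 4)) (A13 (A12 (M 18 (L 38 4)) (P 16 (L 49 8))) (P 16 (L 49
  8)))))) (P 16 (L 49 8)))) (A12 (B02 (B01 (P 19 (L 58 10)) (A13 (B12 (M 18 (L 38 4)) (P 19 (L 58
  10))) (B12 (M 18 (L 38 4)) (A03 (A01 (B02 (M 18 (L 38 4)) (A02 (M 18 (L 38 4)) (B12 (M 18 (L 38
  4)) (P 19 (L 58 10))))) (B02 (M 18 (L 38 4)) (P 16 (L 49 8)))) (A23 (B02 (M 18 (L 38 4)) (P 16 (L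
  49 8))) (B02 (M 18 (L 38 4)) (P 16 (L 49 8)))))))) (B12 (A13 (B01 (A01 (A03 (B02 (P 19 (L 58 10))
  (M 18 (L 38 4))) (P 19 (L 58 10))) (P 19 (L 58 10))) (M 18 (L 38 4))) (P 16 (L 49 8))) (A13 (A01
  (A03 (B02 (B01 (P 19 (L 58 10)) (P 16 (L 49 8))) (P 16 (L 49 8))) (P 19 (L 58 10))) (P 19 (L 58
  10))) (P 16 (L 49 8))))) (B02 (B01 (P 19 (L 58 10)) (A23 (B12 (M 18 (L 38 4)) (A02 (A03 (P 19 (L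
  58 10)) (B02 (M 18 (L 38 4)) (P 16 (L 49 8)))) (A12 (B02 (M 18 (L 38 4)) (P 16 (L 49 8))) (P 16
  (L 49 8))))) (B12 (M 18 (L 38 4)) (A03 (A02 (B02 (M 18 (L 38 4)) (A01 (M 18 (L 38 4)) (B12 (M 18
  (L 38 4)) (P 19 (L 58 10))))) (B02 (M 18 (L 38 4)) (P 16 (L 49 8)))) (A13 (B02 (M 18 (L 38 4)) (P
  16 (L 49 8))) (P 16 (L 49 8))))))) (P 16 (L 49 8))))))) (A12 (M 7 (M 3 (A01 (B02 (B01 (P 19 (L 58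
  10)) (A03 (B12 (A02 (A01 (P 16 (L 49 8)) (B01 (A13 (P 19 (L 58 10)) (P 16 (L 49 8))) (P 16 (L 49
  8)))) (A23 (B01 (P 19 (L 58 10)) (P 16 (L 49 8))) (B01 (A13 (P 19 (L 58 10)) (P 16 (L 49 8))) (P
  16 (L 49 8))))) (A02 (A01 (P 16 (L 49 8)) (B02 (A13 (P 19 (L 58 10)) (P 16 (L 49 8))) (P 16 (L 49
  8)))) (A23 (P 19 (L 58 10)) (B02 (A13 (P 19 (L 58 10)) (P 16 (L 49 8))) (P 16 (L 49 8)))))) (B12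
  (A23 (A02 (B01 (A01 (P 16 (L 49 8)) (P 19 (L 58 10))) (P 16 (L 49 8))) (B01 (P 19 (L 58 10)) (P
  16 (L 49 8)))) (A13 (B01 (A01 (P 16 (L 49 8)) (P 19 (L 58 10))) (P 16 (L 49 8))) (P 16 (L 49
  8)))) (A23 (A02 (B02 (A01 (P 16 (L 49 8)) (P 19 (L 58 10))) (P 16 (L 49 8))) (P 19 (L 58 10)))
  (A13 (B02 (A01 (P 16 (L 49 8)) (P 19 (L 58 10))) (P 16 (L 49 8))) (P 16 (L 49 8))))))) (P 16 (L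
  49 8))) (B02 (B01 (P 19 (L 58 10)) (A13 (P 19 (L 58 10)) (B12 (A23 (A12 (B01 (P 19 (L 58 10)) (P
  16 (L 49 8))) (B01 (P 19 (L 58 10)) (P 16 (L 49 8)))) (A03 (B01 (P 19 (L 58 10)) (P 16 (L 49 8)))
  (B01 (A13 (P 19 (L 58 10)) (P 16 (L 49 8))) (P 16 (L 49 8))))) (A23 (P 19 (L 58 10)) (A03 (P 19
  (L 58 10)) (B02 (A13 (P 19 (L 58 10)) (P 16 (L 49 8))) (P 16 (L 49 8)))))))) (B12 (A13 (P 19 (L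
  58 10)) (P 16 (L 49 8))) (A13 (P 19 (L 58 10)) (P 16 (L 49 8)))))))) (A23 (out 8) (M 7 (B02 (M 3
  (B01 (P 19 (L 58 10)) (A03 (B12 (A01 (P 16 (L 49 8)) (A13 (out 8) (P 16 (L 49 8)))) (A01 (P 16 (L
  49 8)) (A13 (out 8) (P 16 (L 49 8))))) (B12 (A13 (A01 (P 16 (L 49 8)) (out 8)) (P 16 (L 49 8)))
  (A13 (A01 (P 16 (L 49 8)) (out 8)) (P 16 (L 49 8))))))) (P 16 (B12 (M 3 (L 49 8)) (A03 (A01 (A02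
  (M 3 (L 49 8)) (B02 (M 3 (L 49 8)) (B12 (M 3 (L 49 8)) (P 18 (L 55 4))))) (A13 (out 8) (B02 (M 3
  (L 49 8)) (B12 (M 3 (L 49 8)) (P 18 (L 55 4)))))) (A13 (A01 (B02 (M 3 (L 49 8)) (B12 (M 3 (L 49
  8)) (P 18 (L 55 4)))) (out 8)) (A23 (B02 (M 3 (L 49 8)) (B12 (M 3 (L 49 8)) (P 18 (L 55 4)))) (M
  3 (L 49 8)))))))))))))) (M 7 (M 3 (P 0 (B12 (A03 (B01 (P 12 (A01 (A02 (M 18 (L 38 4)) (B02 (A23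
  (B01 (A12 (M 18 (L 38 4)) (A02 (M 18 (L 38 4)) (B02 (A23 (P 19 (L 58 10)) (M 18 (L 38 4))) (M 18
  (L 38 4))))) (M 18 (L 38 4))) (M 18 (L 38 4))) (M 18 (L 38 4)))) (A13 (B02 (A12 (M 18 (L 38 4))
  (B01 (P 19 (L 58 10)) (M 18 (L 38 4)))) (M 18 (L 38 4))) (B02 (A23 (B01 (A02 (M 18 (L 38 4)) (A12
  (M 18 (L 38 4)) (B02 (A23 (P 19 (L 58 10)) (M 18 (L 38 4))) (M 18 (L 38 4))))) (M 18 (L 38 4)))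
  (M 18 (L 38 4))) (M 18 (L 38 4)))))) (M 18 (A01 (A02 (B12 (A03 (B01 (A01 (P 10 (L 31 1)) (A13 (P
  12 (L 38 4)) (P 10 (L 31 1)))) (S 12 (L 38 4) (L 7 4))) (B01 (A13 (A01 (P 10 (L 31 1)) (P 12 (L
  38 4))) (P 10 (L 31 1))) (P 10 (L 31 1)))) (A03 (P 12 (L 38 4)) (A13 (P 12 (L 38 4)) (P 10 (L 31
  1))))) (B12 (A23 (P 12 (L 38 4)) (B01 (A13 (P 12 (L 38 4)) (P 10 (L 31 1))) (P 10 (L 31 1))))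
  (A23 (P 12 (L 38 4)) (A13 (P 12 (L 38 4)) (P 10 (L 31 1)))))) (A13 (P 12 (L 38 4)) (B12 (A23 (P
  12 (L 38 4)) (B01 (A03 (P 12 (L 38 4)) (A13 (P 12 (L 38 4)) (P 10 (L 31 1)))) (P 10 (L 31 1))))
  (A23 (P 12 (L 38 4)) (A03 (P 12 (L 38 4)) (A13 (P 12 (L 38 4)) (P 10 (L 31 1)))))))))) (B01 (P 12
  (A13 (A01 (B02 (A02 (M 18 (L 38 4)) (B01 (A23 (A12 (M 18 (L 38 4)) (B02 (A02 (M 18 (L 38 4)) (P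
  19 (L 58 10))) (M 18 (L 38 4)))) (M 18 (L 38 4))) (M 18 (L 38 4)))) (M 18 (L 38 4))) (B02 (A12 (M
  18 (L 38 4)) (B01 (P 19 (L 58 10)) (M 18 (L 38 4)))) (M 18 (L 38 4)))) (A23 (B02 (A02 (M 18 (L 38
  4)) (B01 (A12 (M 18 (L 38 4)) (A23 (B02 (A02 (M 18 (L 38 4)) (P 19 (L 58 10))) (M 18 (L 38 4)))
  (M 18 (L 38 4)))) (M 18 (L 38 4)))) (M 18 (L 38 4))) (M 18 (L 38 4))))) (M 18 (A13 (A01 (B12 (A02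
  (B01 (A03 (A01 (P 10 (L 31 1)) (P 12 (L 38 4))) (P 12 (L 38 4))) (A03 (P 10 (L 31 1)) (A23 (P 10
  (L 31 1)) (B12 (P 13 (L 40 11)) (A13 (P 10 (L 31 1)) (A03 (P 10 (L 31 1)) (P 12 (L 38 4))))))))
  (B01 (P 12 (L 38 4)) (A23 (P 12 (L 38 4)) (A03 (P 12 (L 38 4)) (B12 (P 13 (L 40 11)) (P 12 (L 38
  4))))))) (A02 (A03 (A01 (P 10 (L 31 1)) (P 12 (L 38 4))) (P 12 (L 38 4))) (P 12 (L 38 4)))) (B12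
  (A12 (S 10 (L 31 1) (L 2 1)) (B01 (P 12 (L 38 4)) (A23 (P 12 (L 38 4)) (A13 (P 12 (L 38 4)) (B12
  (P 13 (L 40 11)) (P 12 (L 38 4))))))) (P 12 (L 38 4)))) (A23 (B12 (A02 (B01 (A01 (P 10 (L 31 1))
  (P 12 (L 38 4))) (A01 (P 10 (L 31 1)) (A12 (B12 (A13 (P 13 (L 40 11)) (P 10 (L 31 1))) (A13 (A01
  (P 10 (L 31 1)) (P 12 (L 38 4))) (P 10 (L 31 1)))) (P 10 (L 31 1))))) (B01 (P 12 (L 38 4)) (A12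
  (A01 (P 12 (L 38 4)) (B12 (A13 (P 13 (L 40 11)) (P 12 (L 38 4))) (P 12 (L 38 4)))) (P 12 (L 38
  4))))) (A02 (A01 (P 10 (L 31 1)) (P 12 (L 38 4))) (P 12 (L 38 4)))) (B12 (A03 (B01 (A01 (P 10 (L
  31 1)) (A13 (P 12 (L 38 4)) (P 10 (L 31 1)))) (A01 (P 10 (L 31 1)) (A13 (B12 (A12 (P 13 (L 40
  11)) (P 10 (L 31 1))) (A12 (P 13 (L 40 11)) (P 10 (L 31 1)))) (P 10 (L 31 1))))) (B01 (A13 (A01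
  (P 10 (L 31 1)) (P 12 (L 38 4))) (P 10 (L 31 1))) (A13 (A01 (P 10 (L 31 1)) (B12 (A12 (P 13 (L 40
  11)) (P 10 (L 31 1))) (A12 (P 13 (L 40 11)) (P 10 (L 31 1))))) (P 10 (L 31 1))))) (A03 (A01 (P 10
  (L 31 1)) (A13 (P 12 (L 38 4)) (P 10 (L 31 1)))) (A13 (A01 (P 10 (L 31 1)) (P 12 (L 38 4))) (P 10
  (L 31 1)))))))))) (P 12 (A03 (A01 (A02 (B02 (M 18 (L 38 4)) (P 16 (L 49 8))) (B02 (B01 (A23 (A12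
  (M 18 (L 38 4)) (A02 (M 18 (L 38 4)) (B02 (B01 (P 19 (L 58 10)) (P 16 (L 49 8))) (P 16 (L 49
  8))))) (M 18 (L 38 4))) (A23 (B12 (M 18 (L 38 4)) (A12 (M 18 (L 38 4)) (P 16 (L 49 8)))) (M 18 (L
  38 4)))) (P 16 (L 49 8)))) (A13 (B02 (B01 (P 19 (L 58 10)) (A12 (B12 (M 18 (L 38 4)) (P 19 (L 58
  10))) (B12 (M 18 (L 38 4)) (A02 (A01 (M 18 (L 38 4)) (B02 (M 18 (L 38 4)) (A13 (P 16 (L 49 8)) (M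
  18 (L 38 4))))) (A23 (B02 (M 18 (L 38 4)) (P 16 (L 49 8))) (B02 (M 18 (L 38 4)) (A13 (P 16 (L 49
  8)) (M 18 (L 38 4))))))))) (B12 (A12 (B01 (A01 (A02 (M 18 (L 38 4)) (B02 (P 19 (L 58 10)) (M 18
  (L 38 4)))) (A13 (P 19 (L 58 10)) (B02 (P 19 (L 58 10)) (M 18 (L 38 4))))) (M 18 (L 38 4))) (P 16
  (L 49 8))) (A12 (A01 (A02 (B02 (M 18 (L 38 4)) (P 16 (L 49 8))) (B02 (B01 (P 19 (L 58 10)) (P 16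
  (L 49 8))) (P 16 (L 49 8)))) (A13 (P 19 (L 58 10)) (B02 (B01 (P 19 (L 58 10)) (P 16 (L 49 8))) (P
  16 (L 49 8))))) (P 16 (L 49 8))))) (B02 (B01 (A23 (A02 (M 18 (L 38 4)) (A12 (M 18 (L 38 4)) (B02
  (B01 (P 19 (L 58 10)) (P 16 (L 49 8))) (P 16 (L 49 8))))) (M 18 (L 38 4))) (A23 (B12 (M 18 (L 38
  4)) (A02 (M 18 (L 38 4)) (A12 (M 18 (L 38 4)) (P 16 (L 49 8))))) (M 18 (L 38 4)))) (P 16 (L 49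
  8))))) (A13 (A01 (B02 (B01 (A02 (M 18 (L 38 4)) (A23 (A12 (M 18 (L 38 4)) (B02 (B01 (P 19 (L 58
  10)) (P 16 (L 49 8))) (P 16 (L 49 8)))) (M 18 (L 38 4)))) (A02 (M 18 (L 38 4)) (B12 (M 18 (L 38
  4)) (A23 (A12 (M 18 (L 38 4)) (P 16 (L 49 8))) (M 18 (L 38 4)))))) (B12 (A02 (M 18 (L 38 4)) (B01
  (P 16 (L 49 8)) (M 18 (L 38 4)))) (P 16 (L 49 8)))) (B02 (B01 (P 19 (L 58 10)) (A12 (B12 (M 18 (L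
  38 4)) (P 19 (L 58 10))) (B12 (M 18 (L 38 4)) (A23 (A02 (B02 (M 18 (L 38 4)) (A01 (M 18 (L 38 4))
  (P 16 (L 49 8)))) (B02 (M 18 (L 38 4)) (P 16 (L 49 8)))) (A13 (B02 (M 18 (L 38 4)) (A01 (M 18 (L
  38 4)) (P 16 (L 49 8)))) (M 18 (L 38 4))))))) (B12 (A12 (B01 (A13 (A01 (B02 (P 19 (L 58 10)) (M
  18 (L 38 4))) (P 19 (L 58 10))) (A23 (B02 (P 19 (L 58 10)) (M 18 (L 38 4))) (M 18 (L 38 4)))) (M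
  18 (L 38 4))) (B01 (P 16 (L 49 8)) (M 18 (L 38 4)))) (A12 (A13 (A01 (B02 (B01 (P 19 (L 58 10)) (P
  16 (L 49 8))) (P 16 (L 49 8))) (P 19 (L 58 10))) (A23 (B02 (B01 (P 19 (L 58 10)) (P 16 (L 49 8)))
  (P 16 (L 49 8))) (M 18 (L 38 4)))) (P 16 (L 49 8)))))) (A23 (B02 (B01 (A02 (M 18 (L 38 4)) (A12
  (M 18 (L 38 4)) (A23 (B02 (B01 (P 19 (L 58 10)) (P 16 (L 49 8))) (P 16 (L 49 8))) (M 18 (L 38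
  4))))) (A02 (M 18 (L 38 4)) (B12 (M 18 (L 38 4)) (A12 (M 18 (L 38 4)) (P 16 (L 49 8)))))) (B12
  (A02 (M 18 (L 38 4)) (B01 (P 16 (L 49 8)) (M 18 (L 38 4)))) (P 16 (L 49 8)))) (M 18 (L 38
  4)))))))))))) (A23 (A02 (B12 (A01 (M 7 (P 0 (B01 (M 15 (P 12 (A03 (A02 (M 18 (L 38 4)) (B02 (P 4
  (M 3 (A12 (B01 (A13 (A01 (S 9 (L 29 7) (L 1 7)) (B02 (A12 (M 18 (L 38 4)) (S 9 (L 29 7) (L 12
  7))) (P 16 (L 49 8)))) (S 9 (L 29 7) (L 1 7))) (M 18 (L 38 4))) (S 9 (L 29 7) (L 1 7))))) (A12 (M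
  18 (L 38 4)) (P 10 (L 31 1))))) (A13 (B02 (M 3 (A12 (B01 (A01 (S 9 (L 29 7) (L 1 7)) (A13 (B02
  (A12 (B01 (P 19 (L 58 10)) (M 18 (L 38 4))) (S 9 (L 29 7) (L 1 7))) (P 16 (L 49 8))) (S 9 (L 29
  7) (L 1 7)))) (M 18 (L 38 4))) (S 9 (L 29 7) (L 1 7)))) (A12 (M 18 (L 38 4)) (P 10 (L 31 1))))
  (B02 (S 9 (L 29 7) (L 1 7)) (P 10 (L 31 1))))))) (P 16 (P 10 (A03 (S 3 (L 9 8) (L 49 8)) (L 31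
  1))))))) (M 15 (B01 (A13 (out 8) (P 0 (A03 (B02 (A02 (B01 (A01 (A03 (out 8) (S 9 (L 29 7) (L 1
  7))) (S 9 (L 29 7) (L 1 7))) (S 9 (L 29 7) (L 1 7))) (S 9 (L 29 7) (L 1 7))) (A02 (S 9 (L 29 7)
  (L 1 7)) (P 10 (L 31 1)))) (B02 (S 9 (L 29 7) (L 1 7)) (P 10 (L 31 1)))))) (A13 (out 8) (P 10 (L
  31 1)))))) (M 15 (P 12 (A01 (M 7 (P 0 (A03 (A02 (M 3 (B02 (B01 (A01 (M 18 (L 38 4)) (A13 (A12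
  (B02 (B01 (P 19 (L 58 10)) (P 16 (L 49 8))) (P 16 (L 49 8))) (B02 (M 18 (L 38 4)) (P 16 (L 49
  8)))) (A03 (B02 (M 18 (L 38 4)) (P 16 (L 49 8))) (S 9 (L 29 7) (L 1 7))))) (P 16 (L 49 8))) (P 16
  (L 49 8)))) (B02 (B01 (A12 (M 3 (A13 (A01 (S 9 (L 29 7) (L 1 7)) (B02 (B01 (P 19 (L 58 10)) (P 16
  (L 49 8))) (P 16 (L 49 8)))) (S 9 (L 29 7) (L 1 7)))) (A23 (out 3) (S 9 (L 29 7) (L 1 7)))) (P 16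
  (A12 (M 3 (L 49 8)) (B12 (P 10 (L 31 1)) (A23 (out 3) (M 3 (L 49 8))))))) (P 16 (B12 (A12 (M 3 (L
  49 8)) (B01 (A23 (out 3) (M 3 (L 49 8))) (P 10 (L 31 1)))) (A12 (A13 (A01 (B02 (M 3 (L 49 8)) (P
  10 (L 31 1))) (B02 (M 3 (L 49 8)) (B12 (A12 (M 3 (L 49 8)) (B01 (P 18 (L 55 4)) (P 10 (L 31 1))))
  (P 18 (L 55 4))))) (A23 (B02 (M 3 (L 49 8)) (P 10 (L 31 1))) (P 10 (L 31 1)))) (A23 (out 3) (A13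
  (out 3) (P 10 (L 31 1))))))))) (A13 (B02 (B01 (A12 (M 3 (A01 (S 9 (L 29 7) (L 1 7)) (A13 (B02
  (B01 (P 19 (L 58 10)) (P 16 (L 49 8))) (P 16 (L 49 8))) (S 9 (L 29 7) (L 1 7))))) (A02 (S 9 (L 29
  7) (L 1 7)) (A23 (out 3) (S 9 (L 29 7) (L 1 7))))) (P 16 (A12 (M 3 (L 49 8)) (B12 (P 10 (L 31 1))
  (A02 (M 3 (L 49 8)) (A23 (out 3) (M 3 (L 49 8)))))))) (P 16 (B12 (A12 (M 3 (L 49 8)) (B01 (A02 (M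
  3 (L 49 8)) (A23 (out 3) (B02 (A13 (out 3) (P 10 (L 31 1))) (P 10 (L 31 1))))) (P 10 (L 31 1))))
  (A12 (A01 (A02 (P 10 (L 31 1)) (B02 (M 3 (L 49 8)) (P 10 (L 31 1)))) (A13 (B02 (M 3 (L 49 8))
  (B12 (A12 (M 3 (L 49 8)) (B01 (P 18 (L 55 4)) (P 10 (L 31 1)))) (P 18 (L 55 4)))) (B02 (M 3 (L 49
  8)) (P 10 (L 31 1))))) (A02 (A01 (P 10 (L 31 1)) (P 18 (L 55 4))) (P 18 (L 55 4))))))) (P 16 (B02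
  (B01 (A23 (A02 (A03 (M 3 (L 49 8)) (B02 (M 3 (L 49 8)) (B12 (M 3 (L 49 8)) (A13 (M 3 (L 49 8)) (P
  10 (L 31 1)))))) (A12 (B02 (M 3 (L 49 8)) (B12 (M 3 (L 49 8)) (P 18 (L 55 4)))) (out 3))) (A03
  (A02 (M 3 (L 49 8)) (B02 (M 3 (L 49 8)) (B12 (M 3 (L 49 8)) (A12 (M 3 (L 49 8)) (P 10 (L 31
  1)))))) (A13 (B02 (S 9 (L 29 7) (L 1 7)) (B12 (M 3 (L 49 8)) (A12 (M 3 (L 49 8)) (P 10 (L 31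
  1))))) (P 10 (L 31 1))))) (P 10 (L 31 1))) (P 10 (L 31 1)))))))) (A13 (out 8) (M 7 (P 0 (A03 (B02
  (B01 (A02 (A01 (A03 (out 8) (S 9 (L 29 7) (L 1 7))) (P 16 (A12 (B02 (M 3 (L 49 8)) (B12 (M 3 (L
  49 8)) (P 18 (L 55 4)))) (S 9 (L 29 7) (L 1 7))))) (P 16 (A12 (A01 (B02 (S 9 (L 29 7) (L 1 7))
  (B12 (M 3 (L 49 8)) (P 18 (L 55 4)))) (B02 (M 3 (L 49 8)) (B12 (M 3 (L 49 8)) (P 18 (L 55 4)))))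
  (A23 (out 3) (B02 (S 9 (L 29 7) (L 1 7)) (B12 (M 3 (L 49 8)) (P 18 (L 55 4)))))))) (P 16 (A02
  (B12 (M 3 (L 49 8)) (A01 (M 3 (L 49 8)) (A12 (B02 (M 3 (L 49 8)) (P 18 (L 55 4))) (M 3 (L 49
  8))))) (B12 (P 10 (L 31 1)) (A12 (A01 (B02 (P 10 (L 31 1)) (P 18 (L 55 4))) (B02 (M 3 (L 49 8))
  (P 18 (L 55 4)))) (A23 (out 3) (B02 (P 10 (L 31 1)) (P 18 (L 55 4))))))))) (P 16 (B12 (A02 (B01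
  (A01 (M 3 (L 49 8)) (P 18 (L 55 4))) (A01 (M 3 (L 49 8)) (P 10 (L 31 1)))) (B01 (P 18 (L 55 4))
  (P 10 (L 31 1)))) (P 18 (L 55 4))))) (P 16 (B02 (B01 (A23 (A12 (A13 (B02 (M 3 (L 49 8)) (B12 (M 3
  (L 49 8)) (P 18 (L 55 4)))) (B02 (M 3 (L 49 8)) (B12 (M 3 (L 49 8)) (P 18 (L 55 4))))) (A02 (B02
  (M 3 (L 49 8)) (B12 (M 3 (L 49 8)) (P 18 (L 55 4)))) (out 3))) (A13 (A12 (B02 (S 9 (L 29 7) (L 1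
  7)) (B12 (M 3 (L 49 8)) (P 18 (L 55 4)))) (B02 (S 9 (L 29 7) (L 1 7)) (B12 (M 3 (L 49 8)) (P 18
  (L 55 4))))) (A03 (B02 (S 9 (L 29 7) (L 1 7)) (B12 (M 3 (L 49 8)) (P 18 (L 55 4)))) (B02 (S 9 (L
  29 7) (L 1 7)) (P 10 (L 31 1)))))) (A23 (B12 (P 10 (L 31 1)) (A12 (A13 (B02 (M 3 (L 49 8)) (P 18
  (L 55 4))) (P 10 (L 31 1))) (P 10 (L 31 1)))) (B12 (P 10 (L 31 1)) (A13 (A12 (B02 (M 3 (L 49 8))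
  (P 18 (L 55 4))) (P 10 (L 31 1))) (P 10 (L 31 1)))))) (B12 (A23 (B01 (P 18 (L 55 4)) (P 10 (L 31
  1))) (B01 (P 18 (L 55 4)) (P 10 (L 31 1)))) (P 18 (L 55 4))))))))))))) (M 15 (B12 (A12 (B01 (A13
  (out 8) (P 0 (A23 (out 8) (B02 (A03 (B01 (A01 (out 3) (A13 (out 8) (B02 (S 9 (L 29 7) (L 1 7)) (P
  10 (L 31 1))))) (A01 (out 3) (A13 (out 8) (P 10 (L 31 1))))) (B01 (A13 (A01 (B02 (S 9 (L 29 7) (L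
  1 7)) (P 10 (L 31 1))) (out 8)) (A23 (B02 (S 9 (L 29 7) (L 1 7)) (P 10 (L 31 1))) (S 9 (L 29 7)
  (L 1 7)))) (A13 (A01 (P 10 (L 31 1)) (out 8)) (P 10 (L 31 1))))) (P 10 (L 31 1)))))) (A13 (out 8)
  (P 10 (L 31 1)))) (B01 (A23 (out 3) (A13 (out 3) (B02 (A03 (out 3) (B01 (A23 (out 3) (A13 (B02
  (A01 (P 10 (L 31 1)) (out 8)) (P 10 (L 31 1))) (P 10 (L 31 1)))) (P 10 (L 31 1)))) (P 10 (L 31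
  1))))) (P 10 (L 31 1)))) (A12 (A13 (out 8) (M 7 (A23 (out 8) (B02 (B01 (A03 (P 18 (L 55 4)) (A13
  (P 18 (L 55 4)) (A23 (P 18 (L 55 4)) (B02 (B01 (P 18 (L 55 4)) (P 10 (L 31 1))) (P 10 (L 31
  1)))))) (A03 (B12 (P 10 (L 31 1)) (P 18 (L 55 4))) (B12 (P 10 (L 31 1)) (A13 (P 18 (L 55 4)) (P
  10 (L 31 1)))))) (B12 (A03 (B01 (P 18 (L 55 4)) (P 10 (L 31 1))) (B01 (P 18 (L 55 4)) (P 10 (L 31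
  1)))) (P 18 (L 55 4))))))) (M 7 (A23 (out 3) (A13 (out 3) (B02 (B01 (A03 (out 3) (A23 (out 3)
  (A13 (P 18 (L 55 4)) (P 10 (L 31 1))))) (P 10 (L 31 1))) (P 10 (L 31 1)))))))))) (A13 (B12 (M 3
  (A01 (M 7 (P 0 (B01 (M 15 (P 12 (A02 (A03 (M 18 (L 38 4)) (B02 (A13 (M 18 (L 38 4)) (P 16 (L 49
  8))) (M 18 (L 38 4)))) (A12 (B02 (A13 (B01 (A01 (P 16 (L 49 8)) (A12 (B02 (A13 (B01 (P 19 (L 58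
  10)) (M 18 (L 38 4))) (P 16 (L 49 8))) (M 18 (L 38 4))) (P 16 (L 49 8)))) (M 18 (L 38 4))) (P 16
  (L 49 8))) (M 18 (L 38 4))) (S 9 (L 29 7) (L 1 7)))))) (P 16 (P 10 (K [(31,1,5),(49,8,3)]
  [])))))) (M 15 (B01 (A12 (A13 (out 8) (M 7 (P 0 (B02 (A03 (B01 (A02 (P 19 (L 58 10)) (S 9 (L 29
  7) (L 1 7))) (S 9 (L 29 7) (L 1 7))) (S 9 (L 29 7) (L 1 7))) (S 9 (L 29 7) (L 1 7)))))) (M 7 (P 0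
  (A02 (B02 (A03 (B01 (A01 (A02 (B02 (P 19 (L 58 10)) (P 16 (L 49 8))) (P 16 (L 49 8))) (S 9 (L 29
  7) (L 1 7))) (S 9 (L 29 7) (L 1 7))) (S 9 (L 29 7) (L 1 7))) (S 9 (L 29 7) (L 1 7))) (S 9 (L 29
  7) (L 1 7)))))) (P 0 (S 10 (L 31 1) (L 2 1))))))) (M 15 (P 12 (A01 (M 7 (P 0 (A02 (M 3 (A03 (B02
  (B01 (A01 (M 18 (L 38 4)) (A12 (A13 (B02 (B01 (P 19 (L 58 10)) (P 16 (L 49 8))) (P 16 (L 49 8)))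
  (B02 (M 18 (L 38 4)) (P 16 (L 49 8)))) (A02 (B02 (M 18 (L 38 4)) (P 16 (L 49 8))) (P 16 (L 49
  8))))) (P 16 (L 49 8))) (P 16 (L 49 8))) (B02 (B01 (A13 (A12 (A01 (P 16 (L 49 8)) (B02 (B01 (P 19
  (L 58 10)) (P 16 (L 49 8))) (P 16 (L 49 8)))) (P 16 (L 49 8))) (P 16 (L 49 8))) (P 16 (L 49 8)))
  (P 16 (L 49 8))))) (A12 (B02 (M 3 (B01 (A13 (A01 (P 16 (L 49 8)) (A12 (B02 (B01 (P 19 (L 58 10))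
  (P 16 (L 49 8))) (P 16 (L 49 8))) (P 16 (L 49 8)))) (P 16 (L 49 8))) (P 16 (L 49 8)))) (P 16 (B12
  (M 3 (L 49 8)) (A13 (A01 (A03 (P 10 (L 31 1)) (B02 (M 3 (L 49 8)) (B12 (A23 (P 10 (L 31 1)) (M 3
  (L 49 8))) (P 18 (L 55 4))))) (A12 (M 3 (L 49 8)) (B02 (M 3 (L 49 8)) (B12 (A23 (P 10 (L 31 1))
  (M 3 (L 49 8))) (P 18 (L 55 4)))))) (A03 (A01 (P 10 (L 31 1)) (B02 (M 3 (L 49 8)) (B12 (A12 (M 3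
  (L 49 8)) (P 10 (L 31 1))) (P 18 (L 55 4))))) (A23 (B02 (M 3 (L 49 8)) (B12 (A12 (M 3 (L 49 8))
  (P 10 (L 31 1))) (P 18 (L 55 4)))) (B02 (M 3 (L 49 8)) (B12 (M 3 (L 49 8)) (P 18 (L 55
  4)))))))))) (P 16 (B02 (B01 (A23 (A02 (S 9 (L 29 7) (L 1 7)) (A12 (S 9 (L 29 7) (L 1 7)) (B02 (S
  9 (L 29 7) (L 1 7)) (P 10 (L 31 1))))) (S 9 (L 29 7) (L 1 7))) (A23 (P 10 (L 31 1)) (M 3 (L 49
  8)))) (B12 (A23 (P 10 (L 31 1)) (M 3 (L 49 8))) (A23 (P 10 (L 31 1)) (A03 (P 10 (L 31 1)) (A13 (P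
  10 (L 31 1)) (B02 (B01 (A23 (P 10 (L 31 1)) (M 3 (L 49 8))) (P 10 (L 31 1))) (P 10 (L 31
  1))))))))))))) (A12 (A13 (out 8) (M 7 (B02 (B01 (A03 (A02 (P 19 (L 58 10)) (A23 (out 8) (P 19 (L
  58 10)))) (A23 (A02 (P 19 (L 58 10)) (out 8)) (P 19 (L 58 10)))) (P 16 (A03 (B12 (M 3 (L 49 8))
  (A02 (M 3 (L 49 8)) (A23 (out 8) (M 3 (L 49 8))))) (B12 (M 3 (L 49 8)) (A23 (A02 (M 3 (L 49 8))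
  (out 8)) (M 3 (L 49 8))))))) (P 16 (B12 (A03 (B01 (A02 (M 3 (L 49 8)) (A23 (out 8) (M 3 (L 49
  8)))) (A02 (M 3 (L 49 8)) (A23 (out 8) (M 3 (L 49 8))))) (B01 (A23 (A02 (M 3 (L 49 8)) (out 8))
  (M 3 (L 49 8))) (A23 (A02 (M 3 (L 49 8)) (out 8)) (M 3 (L 49 8))))) (A03 (A02 (A01 (B02 (M 3 (L
  49 8)) (B12 (M 3 (L 49 8)) (P 18 (L 55 4)))) (B02 (M 3 (L 49 8)) (B12 (M 3 (L 49 8)) (P 18 (L 55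
  4))))) (A23 (out 8) (B02 (M 3 (L 49 8)) (B12 (M 3 (L 49 8)) (P 18 (L 55 4)))))) (A23 (A02 (B02 (M
  3 (L 49 8)) (B12 (M 3 (L 49 8)) (P 18 (L 55 4)))) (out 8)) (A13 (B02 (M 3 (L 49 8)) (B12 (M 3 (L
  49 8)) (P 18 (L 55 4)))) (B02 (M 3 (L 49 8)) (B12 (M 3 (L 49 8)) (P 18 (L 55 4)))))))))))) (M 7
  (P 0 (A02 (B02 (B01 (A03 (A01 (M 3 (A02 (B02 (B01 (P 19 (L 58 10)) (P 16 (L 49 8))) (P 16 (L 49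
  8))) (P 16 (L 49 8)))) (P 16 (A13 (B02 (M 3 (L 49 8)) (B12 (M 3 (L 49 8)) (P 18 (L 55 4)))) (M 3
  (L 49 8))))) (P 16 (A13 (A01 (M 3 (L 49 8)) (B02 (M 3 (L 49 8)) (B12 (M 3 (L 49 8)) (P 18 (L 55
  4))))) (M 3 (L 49 8))))) (P 16 (A03 (B12 (M 3 (L 49 8)) (A01 (M 3 (L 49 8)) (A13 (B02 (M 3 (L 49
  8)) (P 18 (L 55 4))) (M 3 (L 49 8))))) (B12 (M 3 (L 49 8)) (A13 (A01 (M 3 (L 49 8)) (B02 (M 3 (L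
  49 8)) (P 18 (L 55 4)))) (M 3 (L 49 8))))))) (P 16 (B12 (A03 (B01 (A01 (M 3 (L 49 8)) (A13 (P 18
  (L 55 4)) (M 3 (L 49 8)))) (A01 (M 3 (L 49 8)) (P 10 (L 31 1)))) (B01 (A13 (A01 (M 3 (L 49 8)) (P
  18 (L 55 4))) (M 3 (L 49 8))) (P 10 (L 31 1)))) (A03 (A01 (A02 (B02 (M 3 (L 49 8)) (B12 (M 3 (L
  49 8)) (P 18 (L 55 4)))) (B02 (M 3 (L 49 8)) (B12 (A23 (P 18 (L 55 4)) (M 3 (L 49 8))) (P 18 (L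
  55 4))))) (A13 (P 18 (L 55 4)) (B02 (M 3 (L 49 8)) (B12 (A23 (P 18 (L 55 4)) (M 3 (L 49 8))) (P
  18 (L 55 4)))))) (A13 (A01 (B02 (M 3 (L 49 8)) (B12 (A02 (M 3 (L 49 8)) (P 18 (L 55 4))) (P 18 (L
  55 4)))) (P 18 (L 55 4))) (A23 (B02 (M 3 (L 49 8)) (B12 (A02 (M 3 (L 49 8)) (P 10 (L 31 1))) (P
  18 (L 55 4)))) (B02 (M 3 (L 49 8)) (B12 (M 3 (L 49 8)) (P 18 (L 55 4)))))))))) (P 16 (B02 (B01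
  (A23 (A12 (A13 (B02 (S 9 (L 29 7) (L 1 7)) (B12 (M 3 (L 49 8)) (P 18 (L 55 4)))) (B02 (S 9 (L 29
  7) (L 1 7)) (B12 (M 3 (L 49 8)) (P 18 (L 55 4))))) (A02 (B02 (S 9 (L 29 7) (L 1 7)) (B12 (M 3 (L
  49 8)) (P 18 (L 55 4)))) (B02 (S 9 (L 29 7) (L 1 7)) (P 10 (L 31 1))))) (A13 (A12 (B02 (S 9 (L 29
  7) (L 1 7)) (B12 (M 3 (L 49 8)) (P 18 (L 55 4)))) (S 9 (L 29 7) (L 1 7))) (S 9 (L 29 7) (L 1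
  7)))) (A23 (B12 (P 10 (L 31 1)) (A12 (A13 (B02 (M 3 (L 49 8)) (P 18 (L 55 4))) (P 10 (L 31 1)))
  (P 10 (L 31 1)))) (B12 (M 3 (L 49 8)) (A13 (A12 (B02 (M 3 (L 49 8)) (P 18 (L 55 4))) (M 3 (L 49
  8))) (M 3 (L 49 8)))))) (B12 (A23 (B01 (A12 (A13 (P 18 (L 55 4)) (P 10 (L 31 1))) (P 10 (L 31
  1))) (P 10 (L 31 1))) (B01 (A13 (A12 (P 18 (L 55 4)) (M 3 (L 49 8))) (M 3 (L 49 8))) (P 10 (L 31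
  1)))) (A23 (P 18 (L 55 4)) (A13 (P 18 (L 55 4)) (A03 (P 18 (L 55 4)) (B02 (B01 (P 18 (L 55 4)) (P
  10 (L 31 1))) (P 10 (L 31 1))))))))))))))))) (P 0 (B12 (M 3 (A03 (B01 (M 15 (P 12 (A02 (A01 (M 18
  (L 38 4)) (B02 (A13 (P 16 (L 49 8)) (M 18 (L 38 4))) (M 18 (L 38 4)))) (A23 (S 9 (L 29 7) (L 1
  7)) (B02 (A13 (S 9 (L 29 7) (L 1 7)) (M 18 (L 38 4))) (M 18 (L 38 4))))))) (P 16 (P 10 (K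
  [(31,1,5),(49,8,3)] [])))) (B01 (M 15 (P 12 (A23 (A02 (B02 (A01 (M 18 (L 38 4)) (S 9 (L 29 7) (L
  1 7))) (M 18 (L 38 4))) (S 9 (L 29 7) (L 1 7))) (A13 (B02 (A01 (M 18 (L 38 4)) (B01 (S 9 (L 29 7)
  (L 1 7)) (M 18 (L 38 4)))) (M 18 (L 38 4))) (M 18 (L 38 4)))))) (P 10 (L 31 1))))) (M 15 (P 12
  (A03 (A02 (M 3 (A01 (B02 (M 18 (L 38 4)) (P 10 (L 31 1))) (B02 (B01 (A13 (P 16 (L 49 8)) (M 18 (L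
  38 4))) (P 16 (L 49 8))) (P 16 (L 49 8))))) (A23 (P 16 (B02 (B01 (A12 (S 9 (L 29 7) (L 1 7)) (A02
  (S 9 (L 29 7) (L 1 7)) (A23 (B02 (S 9 (L 29 7) (L 1 7)) (P 10 (L 31 1))) (S 9 (L 29 7) (L 1
  7))))) (A12 (M 3 (L 49 8)) (P 10 (L 31 1)))) (B12 (A12 (M 3 (L 49 8)) (P 10 (L 31 1))) (A12 (A01
  (P 10 (L 31 1)) (A13 (B02 (B01 (A12 (M 3 (L 49 8)) (P 10 (L 31 1))) (P 10 (L 31 1))) (P 10 (L 31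
  1))) (P 10 (L 31 1)))) (P 10 (L 31 1)))))) (M 3 (B02 (B01 (A13 (P 16 (L 49 8)) (M 18 (L 38 4)))
  (P 16 (L 49 8))) (P 16 (L 49 8)))))) (A23 (A02 (B02 (B01 (A01 (M 18 (L 38 4)) (S 9 (L 29 7) (L 1
  7))) (S 9 (L 29 7) (L 1 7))) (S 9 (L 29 7) (L 1 7))) (P 16 (B02 (B01 (A12 (S 9 (L 29 7) (L 1 7))
  (A23 (A02 (S 9 (L 29 7) (L 1 7)) (B02 (S 9 (L 29 7) (L 1 7)) (P 10 (L 31 1)))) (S 9 (L 29 7) (L 1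
  7)))) (A12 (S 9 (L 29 7) (L 1 7)) (P 10 (L 31 1)))) (B12 (A12 (S 9 (L 29 7) (L 1 7)) (P 10 (L 31
  1))) (A12 (A13 (A01 (P 10 (L 31 1)) (B02 (B01 (A12 (M 3 (L 49 8)) (P 10 (L 31 1))) (P 10 (L 31
  1))) (P 10 (L 31 1)))) (P 10 (L 31 1))) (P 10 (L 31 1))))))) (A13 (B02 (B01 (A01 (M 18 (L 38 4))
  (S 9 (L 29 7) (L 1 7))) (S 9 (L 29 7) (L 1 7))) (S 9 (L 29 7) (L 1 7))) (M 18 (L 38
  4)))))))))))))))))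

/-- its cell -/
def cI0 : Cell :=
  ⟨0, 0, 0, 1114112, 0, 0, 1114112, 1114112, 0, 557056, 557056, 557056, 0, 0, 0, 5070848, 3129344, 0⟩

theorem okI0 : check datI tI0 cI0 256 0 = true := by
  decide +kernel

end Pool.Agent.H315.NW
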