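import Pool.Agent.H315.NW.Data

/-!
# Project NW (helper315): certificates (generated)
-/

set_option autoImplicit false
set_option maxRecDepth 100000

namespace Pool.Agent.H315.NW

open Tr

/-- a part of the certificate -/
def tI1 : Tr :=
  (M 5 (P 2 (A13 (P 14 (M 11 (P 6 (M 1 (A12 (A01 (A02 (M 7 (P 0 (B12 (P 4 (M 3 (A03 (B01 (P 12 (A01
  (A02 (B02 (A03 (M 18 (B01 (A01 (A02 (B02 (S 10 (L 31 1) (L 2 1)) (A03 (L 38 4) (A13 (L 38 4) (A23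
  (L 38 4) (S 10 (L 31 8) (L 2 8)))))) (B02 (S 10 (L 31 1) (L 2 1)) (A23 (L 38 4) (A13 (L 38 4)
  (A03 (L 38 4) (S 10 (L 31 8) (L 2 8))))))) (A13 (L 38 4) (B02 (S 10 (L 31 1) (L 2 1)) (A23 (L 38
  4) (A03 (L 38 4) (A13 (L 38 4) (B12 (B01 (S 10 (L 31 8) (L 2 8)) (A23 (L 38 4) (A03 (L 38 4) (A13
  (L 38 4) (S 10 (L 31 8) (L 2 8)))))) (S 10 (L 31 8) (L 2 8))))))))) (A01 (A02 (B12 (S 13 (L 40
  11) (L 13 11)) (A03 (A01 (A02 (S 10 (L 31 8) (L 2 8)) (B02 (S 13 (L 40 11) (L 13 11)) (P 10 (K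
  [(31,1,4),(31,8,4)] [])))) (A13 (L 38 4) (B02 (S 13 (L 40 11) (L 13 11)) (P 10 (K
  [(31,1,3),(31,8,5)] []))))) (A13 (A01 (B02 (S 13 (L 40 11) (L 13 11)) (P 10 (K
  [(31,1,3),(31,8,5)] []))) (L 38 4)) (A23 (B02 (S 13 (L 40 11) (L 13 11)) (P 10 (K
  [(31,1,3),(31,8,5)] []))) (S 10 (L 31 8) (L 2 8)))))) (B12 (S 13 (L 40 11) (L 13 11)) (A23 (L 38
  4) (A13 (L 38 4) (A03 (L 38 4) (S 10 (L 31 8) (L 2 8))))))) (A13 (L 38 4) (B12 (S 13 (L 40 11) (L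
  13 11)) (A23 (L 38 4) (A03 (L 38 4) (A13 (L 38 4) (B02 (B01 (A23 (L 38 4) (A03 (L 38 4) (A13 (L
  38 4) (S 10 (L 31 8) (L 2 8))))) (S 10 (L 31 8) (L 2 8))) (S 10 (L 31 8) (L 2 8))))))))))) (B01
  (A13 (M 18 (A01 (B02 (S 10 (L 31 1) (L 2 1)) (A02 (A03 (A01 (B12 (B01 (P 16 (S 10 (L 31 8) (L 50
  8))) (A02 (A03 (A01 (S 10 (L 31 8) (L 2 8)) (L 38 4)) (L 38 4)) (L 38 4))) (P 16 (S 10 (L 31 8)
  (L 50 8)))) (L 38 4)) (L 38 4)) (L 38 4))) (L 38 4))) (A23 (M 18 (B02 (S 10 (L 31 1) (L 2 1))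
  (A02 (A01 (A03 (B12 (B01 (P 16 (S 10 (L 31 8) (L 50 8))) (A02 (A01 (S 10 (L 31 8) (L 2 8)) (L 38
  4)) (L 38 4))) (P 16 (S 10 (L 31 8) (L 50 8)))) (L 38 4)) (L 38 4)) (L 38 4)))) (B02 (A03 (S 10
  (L 31 8) (L 2 1)) (P 19 (L 58 10))) (M 18 (A03 (A01 (A02 (B12 (B01 (P 16 (S 10 (L 31 8) (L 50
  8))) (A03 (A01 (S 10 (L 31 8) (L 2 8)) (L 38 4)) (L 38 4))) (P 16 (S 10 (L 31 8) (L 50 8)))) (L
  38 4)) (L 38 4)) (L 38 4)))))) (M 18 (A13 (A01 (B12 (S 13 (L 40 11) (L 13 11)) (A02 (A03 (A01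
  (B02 (B01 (A02 (A03 (A01 (S 10 (L 31 8) (L 2 8)) (L 38 4)) (L 38 4)) (L 38 4)) (S 10 (L 31 8) (L
  2 8))) (S 10 (L 31 8) (L 2 8))) (L 38 4)) (L 38 4)) (L 38 4))) (L 38 4)) (A23 (B12 (S 13 (L 40
  11) (L 13 11)) (A02 (A01 (A03 (B02 (B01 (A02 (A01 (S 10 (L 31 8) (L 2 8)) (L 38 4)) (L 38 4)) (S
  10 (L 31 8) (L 2 8))) (S 10 (L 31 8) (L 2 8))) (L 38 4)) (L 38 4)) (L 38 4))) (B12 (A03 (B01 (A01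
  (A02 (B02 (S 13 (L 40 11) (L 13 11)) (S 10 (L 31 8) (L 2 8))) (B02 (S 13 (L 40 11) (L 13 11)) (S
  10 (L 31 8) (L 2 8)))) (A13 (L 38 4) (B02 (S 13 (L 40 11) (L 13 11)) (S 10 (L 31 8) (L 2 8)))))
  (A01 (S 10 (L 31 8) (L 2 8)) (A13 (S 10 (L 31 8) (L 2 1)) (S 10 (L 31 8) (L 2 8))))) (B01 (A13
  (A01 (B02 (S 13 (L 40 11) (L 13 11)) (S 10 (L 31 8) (L 2 8))) (L 38 4)) (A23 (B02 (S 13 (L 40 11)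
  (L 13 11)) (S 10 (L 31 8) (L 2 8))) (B02 (P 19 (K [(58,10,1),(38,4,3),(58,5,4)] [])) (S 10 (L 31
  8) (L 2 8))))) (A13 (A01 (S 10 (L 31 8) (L 2 8)) (S 10 (L 31 8) (L 2 1))) (S 10 (L 31 8) (L 2
  8))))) (A03 (A01 (A02 (B02 (B01 (A03 (A01 (S 10 (L 31 8) (L 2 8)) (A13 (L 38 4) (S 10 (L 31 8) (L
  2 8)))) (A13 (A01 (S 10 (L 31 8) (L 2 8)) (L 38 4)) (S 10 (L 31 8) (L 2 8)))) (S 10 (L 31 8) (L 2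
  8))) (S 10 (L 31 8) (L 2 8))) (B02 (B01 (A23 (L 38 4) (A13 (L 38 4) (S 10 (L 31 8) (L 2 8)))) (S
  10 (L 31 8) (L 2 8))) (S 10 (L 31 8) (L 2 8)))) (A13 (L 38 4) (B02 (B01 (P 19 (K
  [(38,4,4),(58,5,4)] [])) (S 10 (L 31 8) (L 2 8))) (S 10 (L 31 8) (L 2 8))))) (A13 (A01 (P 16 (S
  10 (L 31 8) (K [(2,8,3),(38,4,2),(49,2,3)] []))) (L 38 4)) (S 10 (L 31 8) (K [(2,8,4),(38,4,4)]
  [])))))))))) (M 18 (A03 (A01 (P 10 (K [(38,4,4),(31,8,4)] [])) (A13 (L 38 4) (B12 (B01 (A23 (L 38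
  4) (S 10 (L 31 8) (L 2 8))) (S 13 (L 40 11) (L 13 11))) (B02 (A23 (L 38 4) (S 10 (L 31 8) (L 2
  8))) (P 10 (K [(38,4,3),(31,8,5)] [])))))) (A13 (A01 (B12 (B01 (A02 (S 10 (L 31 8) (L 2 8)) (L 38
  4)) (S 13 (L 40 11) (L 13 11))) (B02 (A02 (S 10 (L 31 8) (L 2 8)) (L 38 4)) (P 10 (K
  [(31,8,5),(38,4,3)] [])))) (L 38 4)) (A23 (B12 (B01 (A02 (S 10 (L 31 8) (L 2 8)) (L 38 4)) (A02
  (S 10 (L 31 8) (L 2 8)) (L 38 4))) (S 10 (K [(31,8,5),(38,4,3)] []) (L 2 8))) (S 10 (L 31 8) (L 2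
  8))))))) (B02 (A23 (B01 (A12 (A13 (M 18 (L 38 4)) (B02 (P 19 (L 58 10)) (M 18 (L 38 4)))) (A02
  (B02 (P 19 (L 58 10)) (M 18 (L 38 4))) (B02 (P 19 (L 58 10)) (M 18 (L 38 4))))) (M 18 (L 38 4)))
  (B01 (A13 (A12 (M 18 (L 38 4)) (B02 (P 19 (L 58 10)) (M 18 (L 38 4)))) (A03 (B02 (P 19 (L 58 10))
  (M 18 (L 38 4))) (B02 (P 19 (L 58 10)) (M 18 (L 38 4))))) (M 18 (A13 (L 38 4) (A03 (L 38 4) (B12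
  (A23 (L 38 4) (B01 (A13 (L 38 4) (A03 (L 38 4) (B02 (P 19 (L 58 10)) (S 10 (L 31 8) (L 2 8)))))
  (A13 (S 10 (L 31 8) (L 2 1)) (S 10 (L 31 8) (L 2 8))))) (A23 (L 38 4) (A13 (L 38 4) (P 16 (S 10
  (L 31 8) (L 50 8))))))))))) (M 18 (A23 (L 38 4) (A13 (L 38 4) (A03 (L 38 4) (S 10 (L 31 8) (L 2
  8)))))))) (A13 (B02 (A12 (M 18 (L 38 4)) (B01 (P 19 (L 58 10)) (M 18 (L 38 4)))) (M 18 (L 38 4)))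
  (B02 (A23 (B01 (P 19 (L 58 10)) (M 18 (L 38 4))) (B01 (A03 (P 19 (L 58 10)) (A13 (P 19 (L 58 10))
  (B02 (P 19 (L 58 10)) (M 18 (L 38 4))))) (M 18 (A03 (L 38 4) (A13 (L 38 4) (B12 (P 19 (M 10 (K
  [(2,1,1),(38,4,3),(58,5,3)] []))) (A23 (L 38 4) (A03 (L 38 4) (A13 (L 38 4) (P 16 (S 10 (L 31 8)
  (L 50 8)))))))))))) (M 18 (A23 (L 38 4) (A03 (L 38 4) (A13 (L 38 4) (B12 (B01 (A23 (L 38 4) (B02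
  (A03 (L 38 4) (P 16 (S 10 (L 31 8) (L 50 8)))) (A03 (S 10 (L 31 8) (L 2 1)) (P 16 (S 10 (L 31 8)
  (L 50 8)))))) (A23 (L 38 4) (A03 (S 10 (L 31 8) (L 2 1)) (A13 (B12 (S 10 (L 31 8) (L 2 1)) (B02
  (S 10 (L 31 8) (L 2 1)) (S 10 (L 31 8) (L 2 8)))) (S 10 (L 31 8) (L 2 8)))))) (S 10 (L 31 8) (L 2
  8))))))))))) (M 18 (A01 (A02 (B12 (A03 (B01 (A01 (S 13 (L 40 11) (L 13 11)) (S 13 (L 40 11) (L 13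
  11))) (A01 (S 13 (L 40 11) (L 13 11)) (A13 (B12 (A12 (P 13 (L 40 11)) (P 10 (L 31 1))) (A12 (P 13
  (L 40 11)) (P 10 (L 31 1)))) (S 13 (L 40 11) (L 13 11))))) (B01 (S 13 (L 40 11) (L 13 11)) (A13
  (A01 (B12 (A02 (P 13 (L 40 11)) (B01 (S 10 (L 31 1) (L 2 8)) (P 10 (L 31 1)))) (S 13 (L 40 11) (L
  13 11))) (B12 (A12 (P 13 (L 40 11)) (B01 (S 10 (L 31 1) (L 2 8)) (P 10 (L 31 1)))) (S 10 (L 31 1)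
  (L 2 8)))) (S 13 (L 40 11) (L 13 11))))) (A03 (A01 (P 10 (K [(31,1,4),(31,8,4)] [])) (P 12 (A13
  (L 38 4) (B02 (S 13 (L 40 11) (L 13 11)) (P 10 (K [(31,8,4),(31,1,4)] [])))))) (P 12 (A13 (A01
  (B02 (S 13 (L 40 11) (L 13 11)) (P 10 (K [(31,8,4),(31,1,4)] []))) (S 10 (L 31 1) (L 2 1))) (A23
  (B02 (B01 (A02 (S 10 (L 31 8) (L 2 8)) (L 38 4)) (P 10 (K [(31,8,4),(31,1,4)] []))) (P 10 (K
  [(31,8,4),(31,1,4)] []))) (S 10 (L 31 8) (L 2 8))))))) (B12 (A23 (B01 (P 12 (L 38 4)) (A12 (A13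
  (B12 (A01 (P 10 (L 31 1)) (P 13 (L 40 11))) (P 12 (L 38 4))) (P 10 (L 31 1))) (P 10 (L 31 1))))
  (B01 (S 13 (L 40 11) (L 13 11)) (A13 (A12 (B12 (A01 (S 10 (L 31 1) (L 2 8)) (P 13 (L 40 11))) (S
  10 (L 31 1) (L 2 8))) (S 10 (L 31 1) (L 2 8))) (S 13 (L 40 11) (L 13 11))))) (P 12 (A23 (L 38 4)
  (A13 (S 10 (L 31 1) (L 2 1)) (A03 (B02 (S 10 (L 31 1) (L 2 8)) (P 10 (K [(31,8,3),(31,1,5)] [])))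
  (S 10 (L 31 8) (L 2 8)))))))) (A13 (B12 (A12 (S 10 (L 31 1) (L 2 1)) (B01 (P 12 (L 38 4)) (A02
  (A01 (B12 (P 13 (L 40 11)) (P 12 (L 38 4))) (P 12 (L 38 4))) (P 12 (L 38 4))))) (P 12 (L 38 4)))
  (B12 (A23 (B01 (P 12 (L 38 4)) (A02 (A03 (B12 (P 13 (L 40 11)) (P 12 (L 38 4))) (S 10 (L 31 1) (L
  2 8))) (S 10 (L 31 1) (L 2 1)))) (B01 (S 13 (L 40 11) (L 13 11)) (A03 (A02 (P 13 (L 40 11)) (S 10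
  (L 31 8) (L 2 8))) (S 10 (L 31 8) (L 2 8))))) (P 12 (A23 (L 38 4) (A03 (S 10 (L 31 8) (L 2 1))
  (A13 (S 10 (L 31 8) (L 2 1)) (B02 (B01 (A23 (S 10 (L 31 8) (L 2 1)) (A03 (S 10 (L 31 8) (L 2 1))
  (A13 (B02 (S 10 (L 31 8) (L 2 1)) (S 10 (L 31 8) (L 2 8))) (S 10 (L 31 8) (L 2 8))))) (S 10 (L 31
  8) (L 2 8))) (S 10 (L 31 8) (L 2 8)))))))))))) (M 15 (P 12 (B01 (A13 (A01 (B02 (A02 (B01 (A03
  (A01 (B02 (P 19 (L 58 10)) (A02 (A03 (M 18 (L 38 4)) (A23 (M 18 (L 38 4)) (P 19 (L 58 10)))) (A23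
  (M 18 (L 38 4)) (A03 (M 18 (L 38 4)) (P 19 (L 58 10)))))) (P 19 (L 58 10))) (P 19 (L 58 10)))
  (A03 (M 18 (A01 (B12 (P 19 (K [(38,4,3),(58,10,1),(58,5,3)] [])) (A02 (A03 (A01 (P 16 (S 10 (L 31
  8) (L 50 8))) (L 38 4)) (L 38 4)) (L 38 4))) (L 38 4))) (P 19 (L 58 10)))) (B01 (P 19 (L 58 10))
  (A23 (M 18 (L 38 4)) (P 19 (L 58 10))))) (A02 (A03 (M 18 (A01 (B12 (B01 (P 16 (S 10 (L 31 8) (L
  50 8))) (A02 (A03 (A01 (S 10 (L 31 8) (L 2 8)) (B12 (S 10 (L 31 8) (L 2 1)) (L 38 4))) (L 38 4))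
  (L 38 4))) (P 16 (S 10 (L 31 8) (L 50 8)))) (L 38 4))) (A23 (M 18 (L 38 4)) (B12 (P 19 (L 58 10))
  (B02 (P 19 (L 58 10)) (M 18 (L 38 4)))))) (A23 (M 18 (L 38 4)) (A03 (M 18 (L 38 4)) (B12 (P 19 (L
  58 10)) (B02 (P 19 (L 58 10)) (M 18 (L 38 4)))))))) (B02 (A12 (P 19 (L 58 10)) (B01 (P 19 (L 58
  10)) (A23 (M 18 (L 38 4)) (P 19 (L 58 10))))) (A12 (P 19 (L 58 10)) (A23 (M 18 (L 38 4)) (A13 (M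
  18 (L 38 4)) (B12 (P 19 (L 58 10)) (B02 (P 19 (L 58 10)) (M 18 (L 38 4))))))))) (A23 (B02 (A02
  (B01 (A01 (S 9 (L 29 7) (L 12 7)) (P 19 (L 58 10))) (A01 (A03 (M 18 (B12 (P 19 (K
  [(38,4,10),(58,10,3),(58,5,11)] [])) (P 16 (K [(38,4,4),(49,4,4)] [])))) (P 19 (L 58 10))) (P 19
  (L 58 10)))) (B01 (P 19 (L 58 10)) (A12 (P 19 (L 58 10)) (A23 (M 18 (L 38 4)) (P 19 (L 58
  10)))))) (A02 (A01 (A03 (M 18 (B12 (B01 (P 16 (S 10 (L 31 8) (L 50 8))) (A02 (A01 (S 10 (L 31 8)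
  (L 2 8)) (L 38 4)) (L 38 4))) (P 16 (S 10 (L 31 8) (L 50 8))))) (B12 (B01 (S 9 (L 29 7) (L 1 7))
  (M 18 (L 38 4))) (S 9 (L 29 7) (L 1 7)))) (A12 (B12 (P 19 (L 58 10)) (S 9 (L 29 7) (L 1 7))) (B12
  (B01 (S 9 (L 29 7) (L 1 7)) (M 18 (L 38 4))) (S 9 (L 29 7) (L 1 7))))) (A12 (A01 (B12 (B01 (S 9
  (L 29 7) (L 1 7)) (M 18 (L 38 4))) (S 9 (L 29 7) (L 1 7))) (B12 (P 19 (L 58 10)) (S 9 (L 29 7) (L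
  1 7)))) (A23 (M 18 (L 38 4)) (B12 (B01 (S 9 (L 29 7) (L 1 7)) (M 18 (L 38 4))) (S 9 (L 29 7) (L 1
  7))))))) (B02 (A03 (B01 (A01 (S 9 (L 29 7) (L 12 7)) (S 9 (L 29 7) (L 12 7))) (A01 (A02 (B12 (P
  19 (K [(58,10,6),(58,5,2)] [])) (P 16 (M 13 (A03 (M 18 (K [(38,4,3),(49,4,5)] [])) (P 19 (L 59
  5)))))) (P 19 (K [(58,10,5),(58,5,3)] []))) (P 19 (K [(58,10,5),(58,5,3)] [])))) (P 19 (K
  [(58,10,16),(58,5,8)] []))) (A03 (A01 (A02 (B12 (B01 (P 16 (S 10 (L 31 8) (L 50 8))) (M 18 (A03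
  (A01 (S 10 (L 31 8) (L 2 8)) (A13 (L 38 4) (S 10 (L 31 8) (L 2 8)))) (A13 (A01 (P 16 (S 10 (L 31
  8) (K [(2,8,4),(38,4,3),(49,2,2)] []))) (L 38 4)) (P 16 (S 10 (L 31 8) (K
  [(2,8,5),(38,4,2),(49,2,2)] []))))))) (P 16 (S 10 (L 31 8) (L 50 8)))) (B12 (B01 (P 16 (S 10 (L
  31 8) (L 50 8))) (M 18 (A23 (L 38 4) (A13 (L 38 4) (P 16 (K [(38,4,4),(49,4,3),(49,2,1)] []))))))
  (P 16 (S 10 (L 31 8) (L 50 8))))) (A13 (B12 (P 19 (L 58 10)) (S 9 (L 29 7) (L 1 7))) (B12 (P 19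
  (K [(58,10,4),(58,5,4)] [])) (P 16 (S 10 (L 31 8) (L 50 8)))))) (A13 (A01 (P 16 (B12 (P 19 (K
  [(58,10,5),(58,5,3)] [])) (S 10 (L 31 8) (L 50 8)))) (B12 (P 19 (L 58 10)) (S 9 (L 29 7) (L 12
  7)))) (P 16 (A23 (B12 (P 19 (K [(58,10,5),(58,5,3)] [])) (S 10 (L 31 8) (L 50 8))) (B12 (P 19 (K
  [(58,10,5),(58,5,3)] [])) (S 10 (L 31 8) (L 50 8)))))))))) (A13 (M 18 (A01 (B12 (A02 (S 13 (L 40
  11) (L 13 11)) (S 10 (L 31 1) (L 2 1))) (A02 (A03 (A01 (B02 (B01 (A02 (A03 (A01 (S 10 (L 31 8) (L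
  2 8)) (B02 (S 10 (L 31 8) (L 2 1)) (S 10 (L 31 8) (L 2 8)))) (A23 (B02 (S 10 (L 31 8) (L 2 1)) (S
  10 (L 31 8) (L 2 8))) (B02 (P 19 (L 58 10)) (S 10 (L 31 8) (L 2 8))))) (S 10 (L 31 8) (L 2 1)))
  (S 10 (L 31 8) (L 2 8))) (S 10 (L 31 8) (L 2 8))) (B02 (S 10 (L 31 8) (L 2 1)) (B12 (S 10 (L 31
  8) (L 2 1)) (L 38 4)))) (A23 (B02 (S 10 (L 31 8) (L 2 1)) (B12 (S 10 (L 31 8) (L 2 1)) (L 38 4)))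
  (B02 (S 10 (L 31 8) (L 2 1)) (B12 (S 10 (L 31 8) (L 2 1)) (L 38 4))))) (L 38 4))) (S 10 (L 31 1)
  (L 2 1)))) (A23 (M 18 (B12 (A02 (S 13 (L 40 11) (L 13 11)) (S 10 (L 31 1) (L 2 1))) (A02 (A01
  (A03 (B02 (B01 (A02 (A01 (S 10 (L 31 8) (L 2 8)) (A12 (B02 (S 10 (L 31 8) (L 2 1)) (S 10 (L 31 8)
  (L 2 8))) (S 10 (L 31 8) (L 2 8)))) (S 10 (L 31 8) (L 2 1))) (S 10 (L 31 8) (L 2 8))) (S 10 (L 31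
  8) (L 2 8))) (B02 (S 10 (L 31 8) (L 2 1)) (S 10 (L 31 8) (L 2 8)))) (A12 (B02 (S 10 (L 31 8) (L 2
  1)) (B12 (S 10 (L 31 8) (L 2 1)) (L 38 4))) (B02 (S 10 (L 31 8) (L 2 1)) (S 10 (L 31 8) (L 2
  8))))) (L 38 4)))) (B12 (A03 (B01 (A01 (A02 (B02 (S 13 (L 40 11) (L 13 11)) (S 10 (L 31 8) (L 2
  8))) (B02 (S 13 (L 40 11) (L 13 11)) (S 10 (L 31 8) (L 2 8)))) (A13 (S 10 (L 31 8) (L 2 1)) (B02
  (S 13 (L 40 11) (L 13 11)) (S 10 (L 31 8) (L 2 8))))) (A01 (S 10 (L 31 8) (L 2 8)) (A13 (S 10 (L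
  31 8) (L 2 1)) (S 10 (L 31 8) (L 2 8))))) (B01 (A13 (A01 (B02 (S 13 (L 40 11) (L 13 11)) (S 10 (L
  31 8) (L 2 8))) (S 13 (L 40 11) (L 13 11))) (A23 (B02 (S 13 (L 40 11) (L 13 11)) (S 10 (L 31 8)
  (L 2 8))) (B02 (P 19 (K [(58,5,3),(58,10,5)] [])) (S 10 (L 31 8) (L 2 8))))) (A13 (A01 (S 10 (L
  31 8) (L 2 8)) (S 13 (L 40 11) (L 13 11))) (S 10 (L 31 8) (L 2 8))))) (A03 (M 18 (A01 (A02 (B02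
  (B01 (A03 (A01 (S 10 (L 31 8) (L 2 8)) (A13 (B02 (S 10 (L 31 8) (L 2 1)) (S 10 (L 31 8) (L 2 8)))
  (S 10 (L 31 8) (L 2 8)))) (A13 (A01 (P 16 (S 10 (L 31 8) (K [(2,8,4),(49,2,4)] []))) (B02 (S 10
  (L 31 8) (L 2 1)) (S 10 (L 31 8) (L 2 8)))) (P 16 (S 10 (L 31 8) (K [(2,8,5),(49,2,3)] []))))) (S
  10 (L 31 8) (L 2 8))) (S 10 (L 31 8) (L 2 8))) (B02 (B01 (A23 (L 38 4) (A13 (A12 (B02 (S 10 (L 31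
  8) (L 2 1)) (S 10 (L 31 8) (L 2 8))) (P 16 (K [(38,4,5),(49,2,3)] []))) (P 16 (S 10 (L 31 8) (K
  [(2,8,4),(49,2,4)] []))))) (S 10 (L 31 8) (L 2 8))) (S 10 (L 31 8) (L 2 8)))) (A13 (B02 (S 10 (L
  31 8) (L 2 1)) (B12 (A12 (B01 (L 38 4) (A01 (S 10 (L 31 8) (L 2 8)) (P 19 (K [(58,5,4),(38,4,4)]
  [])))) (P 16 (S 10 (L 31 8) (L 50 8)))) (L 38 4))) (B02 (B01 (P 19 (M 10 (K [(2,1,4),(58,5,4)]
  []))) (S 10 (L 31 8) (L 2 8))) (S 10 (L 31 8) (L 2 8)))))) (A13 (M 18 (A01 (P 16 (S 10 (L 31 8)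
  (K [(2,8,3),(38,4,2),(49,2,3)] []))) (B02 (B01 (L 38 4) (A12 (P 19 (K
  [(38,4,2),(58,10,3),(58,5,3)] [])) (P 16 (S 10 (L 31 8) (L 50 8))))) (B12 (A12 (P 19 (K
  [(38,4,4),(58,5,4)] [])) (P 16 (S 10 (L 31 8) (L 50 8)))) (L 38 4))))) (P 16 (A23 (M 18 (S 10 (L
  31 8) (K [(2,8,3),(38,4,2),(49,2,3)] []))) (B02 (B01 (P 19 (K
  [(58,5,2),(58,10,4),(49,4,1),(49,2,1)] [])) (S 10 (L 31 8) (L 2 8))) (S 10 (L 31 8) (L 2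
  8)))))))))))))))) (M 15 (P 12 (A03 (M 3 (A01 (A02 (B02 (B01 (A03 (M 18 (A01 (A02 (B02 (B01 (L 38
  4) (A03 (L 38 4) (B12 (A13 (L 38 4) (P 16 (K [(38,4,4),(49,4,4)] []))) (L 38 4)))) (B12 (A03 (L
  38 4) (B01 (L 38 4) (A13 (L 38 4) (P 10 (K [(31,8,5),(38,4,3)] []))))) (L 38 4))) (B02 (B01 (L 38
  4) (A23 (L 38 4) (B12 (A13 (L 38 4) (P 16 (K [(38,4,4),(49,4,4)] []))) (L 38 4)))) (B12 (A23 (L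
  38 4) (B01 (L 38 4) (A13 (L 38 4) (P 10 (K [(38,4,4),(31,8,4)] []))))) (L 38 4)))) (A13 (L 38 4)
  (B02 (B01 (L 38 4) (A23 (L 38 4) (B12 (A03 (L 38 4) (A13 (L 38 4) (S 10 (L 31 8) (L 2 8)))) (L 38
  4)))) (B12 (A23 (L 38 4) (B01 (L 38 4) (S 10 (L 31 8) (L 2 8)))) (L 38 4)))))) (A13 (M 18 (A01
  (B02 (B01 (L 38 4) (A02 (B12 (A03 (A01 (P 16 (S 10 (L 31 8) (L 50 8))) (L 38 4)) (L 38 4)) (L 38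
  4)) (L 38 4))) (P 16 (K [(38,4,4),(49,4,4)] []))) (L 38 4))) (A23 (M 18 (B02 (B01 (L 38 4) (P 16
  (K [(38,4,4),(49,4,4)] []))) (P 16 (K [(38,4,4),(49,4,4)] [])))) (B02 (B01 (A03 (M 18 (L 38 4))
  (S 9 (L 29 7) (L 1 7))) (P 16 (S 10 (L 31 8) (L 50 8)))) (P 16 (S 10 (L 31 8) (L 50 8))))))) (A03
  (M 18 (B12 (A01 (P 10 (K [(38,4,4),(31,8,4)] [])) (A13 (L 38 4) (B01 (A23 (L 38 4) (S 10 (L 31 8)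
  (L 2 8))) (P 10 (K [(38,4,3),(31,8,5)] []))))) (A01 (P 10 (K [(38,4,6),(31,8,2)] [])) (A13 (L 38
  4) (B02 (A23 (L 38 4) (S 10 (L 31 8) (L 2 8))) (P 16 (K [(38,4,5),(49,4,3)] []))))))) (B12 (M 18
  (A13 (A01 (S 10 (K [(38,4,3),(31,8,5)] []) (L 2 8)) (L 38 4)) (S 10 (K [(31,8,5),(38,4,3)] []) (L
  2 8)))) (A13 (M 18 (A01 (P 16 (K [(38,4,4),(49,4,4)] [])) (L 38 4))) (P 16 (A23 (M 18 (K
  [(38,4,4),(49,4,4)] [])) (S 10 (L 31 8) (L 2 8)))))))) (B12 (A03 (M 18 (B01 (P 16 (K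
  [(38,4,5),(49,4,3)] [])) (A01 (P 16 (P 10 (K [(38,4,4),(31,8,3),(49,4,2)] []))) (A13 (L 38 4) (P
  10 (K [(38,4,3),(31,8,5)] [])))))) (B01 (P 16 (A13 (M 18 (K [(38,4,5),(49,4,3)] [])) (A23 (M 18
  (K [(38,4,4),(49,4,4)] [])) (S 10 (L 31 8) (L 2 8))))) (M 18 (A13 (A01 (P 10 (K
  [(38,4,3),(31,8,5)] [])) (L 38 4)) (P 10 (K [(31,8,5),(38,4,3)] [])))))) (P 16 (A03 (M 18 (K
  [(38,4,6),(49,4,2)] [])) (A13 (M 18 (K [(38,4,5),(49,4,3)] [])) (A23 (M 18 (K [(38,4,4),(49,4,4)]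
  [])) (S 10 (L 31 8) (L 2 8)))))))) (B02 (B01 (A23 (A12 (A13 (M 18 (L 38 4)) (B02 (B01 (P 19 (L 58
  10)) (S 9 (L 29 7) (L 1 7))) (S 9 (L 29 7) (L 1 7)))) (A02 (B02 (B01 (P 19 (L 58 10)) (S 9 (L 29
  7) (L 1 7))) (S 9 (L 29 7) (L 1 7))) (B02 (B01 (P 19 (L 58 10)) (S 9 (L 29 7) (L 1 7))) (S 9 (L
  29 7) (L 1 7))))) (A13 (A12 (M 18 (L 38 4)) (B02 (B01 (P 19 (L 58 10)) (S 9 (L 29 7) (L 1 7))) (S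
  9 (L 29 7) (L 1 7)))) (A03 (B02 (B01 (P 19 (L 58 10)) (S 9 (L 29 7) (L 1 7))) (S 9 (L 29 7) (L 1
  7))) (B02 (B01 (P 19 (L 58 10)) (S 9 (L 29 7) (L 1 7))) (S 9 (L 29 7) (L 1 7)))))) (A23 (B12 (M
  18 (L 38 4)) (A12 (A13 (M 18 (L 38 4)) (S 9 (L 29 7) (L 1 7))) (S 9 (L 29 7) (L 1 7)))) (B12 (M
  18 (A13 (L 38 4) (P 16 (K [(38,4,36),(49,4,28)] [])))) (A13 (A12 (M 18 (L 38 4)) (S 9 (L 29 7) (L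
  1 7))) (S 9 (L 29 7) (L 1 7)))))) (B12 (A23 (B01 (S 9 (L 29 7) (L 1 7)) (M 18 (L 38 4))) (B01 (S
  9 (L 29 7) (L 1 7)) (M 18 (A13 (L 38 4) (P 10 (K [(38,4,4),(31,8,4)] [])))))) (S 9 (L 29 7) (L 1
  7))))) (A13 (B02 (B01 (P 19 (L 58 10)) (A12 (B12 (M 18 (L 38 4)) (P 19 (L 58 10))) (B12 (M 18 (L
  38 4)) (A02 (A01 (B02 (M 18 (L 38 4)) (A03 (M 18 (L 38 4)) (P 16 (L 49 8)))) (B02 (M 18 (L 38 4))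
  (P 16 (L 49 8)))) (A23 (B02 (M 18 (L 38 4)) (P 16 (L 49 8))) (B02 (M 18 (L 38 4)) (P 16 (L 49
  8)))))))) (B12 (A12 (B01 (A01 (A02 (B02 (P 19 (L 58 10)) (M 18 (L 38 4))) (B02 (P 19 (L 58 10))
  (M 18 (L 38 4)))) (P 19 (L 58 10))) (M 18 (L 38 4))) (B01 (P 16 (L 49 8)) (M 18 (L 38 4)))) (A12
  (A01 (A02 (B02 (B01 (P 19 (L 58 10)) (P 16 (L 49 8))) (P 16 (L 49 8))) (B02 (B01 (P 19 (L 58 10))
  (P 16 (L 49 8))) (P 16 (L 49 8)))) (P 19 (L 58 10))) (P 16 (L 49 8))))) (B02 (B01 (A23 (P 19 (L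
  58 10)) (A03 (P 19 (L 58 10)) (A13 (P 19 (L 58 10)) (B02 (B01 (P 19 (L 58 10)) (S 9 (L 29 7) (L 1
  7))) (S 9 (L 29 7) (L 1 7)))))) (A23 (B12 (M 18 (L 38 4)) (A02 (A03 (B02 (M 18 (L 38 4)) (A01 (M
  18 (L 38 4)) (P 16 (L 49 8)))) (B02 (M 18 (L 38 4)) (S 9 (L 29 7) (L 1 7)))) (A12 (B02 (M 18 (L
  38 4)) (S 9 (L 29 7) (L 1 7))) (S 9 (L 29 7) (L 1 7))))) (B12 (M 18 (A03 (L 38 4) (A13 (L 38 4)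
  (S 10 (L 31 8) (L 2 8))))) (A03 (A02 (B02 (M 18 (L 38 4)) (A01 (M 18 (L 38 4)) (P 16 (L 49 8))))
  (B02 (M 18 (L 38 4)) (S 9 (L 29 7) (L 1 7)))) (A13 (B02 (M 18 (L 38 4)) (S 9 (L 29 7) (L 1 7)))
  (S 9 (L 29 7) (L 1 7))))))) (B12 (A23 (B01 (S 9 (L 29 7) (L 1 7)) (M 18 (L 38 4))) (B01 (S 9 (L
  29 7) (L 1 7)) (M 18 (A03 (L 38 4) (P 16 (S 10 (L 31 8) (L 50 8))))))) (S 9 (L 29 7) (L 1
  7))))))) (A13 (P 4 (M 3 (A01 (B02 (B01 (A02 (A03 (A01 (S 9 (L 29 7) (L 12 7)) (P 19 (L 58 10)))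
  (P 19 (L 58 10))) (P 19 (L 58 10))) (A02 (B12 (A03 (M 18 (A01 (P 16 (S 10 (L 31 8) (L 50 8))) (L
  38 4))) (A23 (M 18 (L 38 4)) (B01 (P 19 (L 58 10)) (S 9 (L 29 7) (L 1 7))))) (A03 (A01 (P 16 (S
  10 (L 31 8) (L 50 8))) (B02 (A12 (P 19 (L 58 10)) (S 9 (L 29 7) (L 1 7))) (S 9 (L 29 7) (L 12
  7)))) (A23 (B02 (A12 (P 19 (L 58 10)) (S 9 (L 29 7) (L 1 7))) (S 9 (L 29 7) (L 12 7))) (P 19 (L
  58 10))))) (B12 (A23 (M 18 (L 38 4)) (A03 (M 18 (L 38 4)) (B01 (P 19 (L 58 10)) (P 16 (L 49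
  8))))) (A23 (A12 (B02 (A01 (S 9 (L 29 7) (L 1 7)) (P 19 (L 58 10))) (S 9 (L 29 7) (L 1 7))) (S 9
  (L 29 7) (L 1 7))) (A03 (B02 (A01 (S 9 (L 29 7) (L 1 7)) (P 19 (L 58 10))) (S 9 (L 29 7) (L 12
  7))) (P 19 (L 58 10))))))) (P 16 (B12 (A02 (S 10 (L 31 8) (L 50 8)) (S 9 (L 29 7) (L 12 7))) (A02
  (S 10 (L 31 8) (L 50 8)) (S 9 (L 29 7) (L 12 7)))))) (B02 (B01 (P 19 (L 58 10)) (A12 (P 19 (L 58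
  10)) (B12 (A23 (M 18 (L 38 4)) (A13 (M 18 (L 38 4)) (B01 (P 19 (L 58 10)) (P 16 (L 49 8))))) (A23
  (A02 (P 19 (L 58 10)) (B02 (A12 (P 19 (L 58 10)) (P 16 (L 49 8))) (P 16 (L 49 8)))) (P 19 (L 58
  10)))))) (B12 (A12 (P 19 (L 58 10)) (S 9 (L 29 7) (L 12 7))) (A12 (P 19 (L 58 10)) (S 9 (L 29 7)
  (L 12 7)))))))) (A23 (B02 (P 4 (B01 (A02 (A01 (S 9 (L 29 7) (L 12 7)) (P 19 (L 58 10))) (P 19 (L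
  58 10))) (P 16 (A02 (S 10 (L 31 8) (L 50 8)) (S 9 (L 29 7) (L 12 7)))))) (P 16 (B12 (P 4 (A02 (S
  10 (L 31 8) (L 50 8)) (S 9 (L 29 7) (L 12 7)))) (A02 (A01 (A03 (M 3 (L 49 4)) (B02 (M 3 (L 49 4))
  (B12 (M 3 (L 49 4)) (A23 (M 3 (L 49 4)) (S 3 (L 9 4) (L 49 4)))))) (A12 (B02 (M 3 (L 49 4)) (B12
  (M 3 (L 49 4)) (S 3 (L 9 4) (L 49 4)))) (B02 (M 3 (L 49 4)) (B12 (M 3 (L 49 4)) (A23 (M 3 (L 49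
  4)) (S 3 (L 9 4) (L 49 4))))))) (A12 (A01 (B02 (P 4 (S 9 (L 29 7) (L 12 7))) (B12 (P 4 (S 9 (L 29
  7) (L 12 7))) (A03 (M 3 (L 49 4)) (S 3 (L 9 4) (L 49 4))))) (B02 (P 4 (S 9 (L 29 7) (L 12 7)))
  (B12 (P 4 (S 9 (L 29 7) (L 12 7))) (P 18 (S 3 (L 9 4) (L 54 4)))))) (A23 (S 9 (L 29 7) (L 1 7))
  (B02 (P 4 (S 9 (L 29 7) (L 12 7))) (B12 (P 4 (S 9 (L 29 7) (L 12 7))) (A03 (M 3 (L 49 4)) (S 3 (L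
  9 4) (L 49 4))))))))))) (B02 (B01 (A03 (P 4 (A01 (S 9 (L 29 7) (L 12 7)) (S 9 (L 29 7) (L 12
  7)))) (P 18 (S 3 (L 9 4) (L 54 4)))) (P 16 (A03 (S 10 (L 31 8) (L 50 8)) (B12 (S 10 (L 31 8) (L
  50 8)) (P 18 (S 3 (L 9 4) (L 54 4))))))) (P 16 (B12 (A03 (S 10 (L 31 8) (L 50 8)) (B01 (P 18 (S 3
  (L 9 4) (L 54 4))) (S 10 (L 31 8) (L 50 8)))) (A03 (A01 (A02 (B02 (M 3 (L 49 4)) (B12 (M 3 (L 49
  4)) (A03 (M 3 (L 49 4)) (P 18 (L 55 10))))) (B02 (M 3 (L 49 4)) (B12 (M 3 (L 49 4)) (P 18 (L 55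
  10))))) (A13 (B02 (M 3 (L 49 4)) (B12 (M 3 (L 49 4)) (P 18 (L 55 10)))) (B02 (M 3 (L 49 4)) (B12
  (M 3 (L 49 4)) (P 18 (L 55 10)))))) (S 3 (L 9 4) (L 49 4)))))))))))))) (M 15 (P 12 (B12 (P 4 (M 3
  (A23 (B01 (A12 (A13 (M 7 (B02 (A01 (B01 (P 19 (L 58 10)) (A02 (A03 (M 18 (L 38 4)) (P 19 (L 58
  10))) (P 19 (L 58 10)))) (P 19 (L 58 10))) (A01 (A02 (A03 (M 18 (L 38 4)) (B12 (P 19 (L 58 10))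
  (B02 (P 19 (L 58 10)) (M 18 (L 38 4))))) (A12 (B12 (P 19 (L 58 10)) (B02 (P 19 (L 58 10)) (M 18
  (L 38 4)))) (out 8))) (P 19 (L 58 10))))) (B02 (A03 (M 7 (B01 (P 19 (L 58 10)) (A02 (A01 (B12
  (A03 (M 18 (L 38 4)) (P 19 (L 58 10))) (P 19 (L 58 10))) (P 19 (L 58 10))) (out 8)))) (out 8)) (M
  7 (A03 (A02 (A01 (B12 (B01 (P 16 (L 49 8)) (M 18 (L 38 4))) (P 16 (L 49 8))) (B12 (P 19 (L 58
  10)) (P 16 (L 49 8)))) (out 8)) (out 8))))) (A02 (B02 (A03 (M 7 (B01 (P 19 (L 58 10)) (A01 (A02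
  (B12 (A03 (M 18 (L 38 4)) (P 19 (L 58 10))) (P 19 (L 58 10))) (out 8)) (out 8)))) (out 8)) (A03
  (A01 (A02 (B12 (B01 (P 16 (L 49 8)) (M 18 (L 38 4))) (P 16 (L 49 8))) (out 8)) (out 8)) (out 8)))
  (out 8))) (A12 (A13 (M 18 (L 38 4)) (B12 (A03 (M 18 (L 38 4)) (out 8)) (A03 (M 18 (L 38 4)) (out
  8)))) (A02 (B12 (A03 (M 18 (L 38 4)) (out 8)) (A03 (M 18 (L 38 4)) (out 8))) (out 8)))) (B01 (A13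
  (A12 (M 7 (B02 (A01 (B01 (P 19 (L 58 10)) (A03 (A02 (M 18 (L 38 4)) (P 19 (L 58 10))) (P 19 (L 58
  10)))) (P 19 (L 58 10))) (A01 (A03 (A02 (M 18 (L 38 4)) (B12 (P 19 (L 58 10)) (B02 (P 19 (L 58
  10)) (M 18 (L 38 4))))) (A13 (B12 (P 19 (L 58 10)) (B02 (P 19 (L 58 10)) (M 18 (L 38 4)))) (B12
  (P 19 (L 58 10)) (B02 (P 19 (L 58 10)) (M 18 (L 38 4)))))) (P 19 (L 58 10))))) (B02 (A02 (M 7
  (B01 (P 19 (L 58 10)) (A03 (A01 (B12 (A02 (M 18 (L 38 4)) (P 19 (L 58 10))) (P 19 (L 58 10))) (P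
  19 (L 58 10))) (P 19 (L 58 10))))) (P 19 (B01 (P 18 (L 54 4)) (M 7 (L 58 10))))) (M 7 (P 0 (A02
  (A03 (A01 (B12 (B01 (P 16 (L 49 8)) (M 18 (L 38 4))) (P 16 (L 49 8))) (B12 (P 19 (L 58 10)) (P 16
  (L 49 8)))) (A23 (B12 (P 19 (L 58 10)) (P 16 (L 49 8))) (B12 (P 19 (L 58 10)) (P 16 (L 49 8)))))
  (A23 (out 8) (A03 (B12 (P 19 (L 58 10)) (S 9 (L 29 7) (L 1 7))) (P 19 (L 58 10))))))))) (A03 (B02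
  (A02 (M 7 (B01 (P 19 (L 58 10)) (A01 (A03 (B12 (A02 (M 18 (L 38 4)) (P 19 (L 58 10))) (P 19 (L 58
  10))) (P 19 (L 58 10))) (P 19 (L 58 10))))) (P 19 (B01 (P 18 (L 54 4)) (M 7 (L 58 10))))) (M 7 (P
  0 (A02 (A01 (A03 (B12 (B01 (P 16 (L 49 8)) (M 18 (L 38 4))) (P 16 (L 49 8))) (B12 (B01 (S 9 (L 29
  7) (L 1 7)) (M 18 (L 38 4))) (S 9 (L 29 7) (L 1 7)))) (A12 (B12 (P 19 (L 58 10)) (S 9 (L 29 7) (L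
  1 7))) (B12 (P 19 (L 58 10)) (S 9 (L 29 7) (L 1 7))))) (A12 (A01 (S 9 (L 29 7) (L 1 7)) (B12 (P
  19 (L 58 10)) (S 9 (L 29 7) (L 1 7)))) (S 9 (L 29 7) (L 12 7))))))) (B02 (P 19 (A23 (B01 (P 18 (L
  54 4)) (M 7 (L 58 10))) (M 7 (L 58 10)))) (M 7 (A23 (A12 (A13 (B12 (P 19 (L 58 10)) (S 9 (L 29 7)
  (L 12 7))) (S 9 (L 29 7) (L 12 7))) (S 9 (L 29 7) (L 12 7))) (A13 (A12 (B12 (P 19 (L 58 10)) (S 9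
  (L 29 7) (L 12 7))) (S 9 (L 29 7) (L 12 7))) (S 9 (L 29 7) (L 12 7)))))))) (M 7 (P 0 (A13 (A12 (S
  10 (L 31 1) (L 2 1)) (B12 (A02 (S 10 (L 31 1) (L 2 1)) (B01 (A23 (out 8) (M 18 (L 38 4))) (S 10
  (L 31 1) (L 2 1)))) (A02 (M 18 (L 38 4)) (A23 (out 8) (A03 (B02 (M 18 (L 38 4)) (S 9 (L 29 7) (L
  1 7))) (P 19 (L 58 10))))))) (A03 (B12 (A02 (S 10 (L 31 1) (L 2 1)) (B01 (A12 (M 18 (L 38 4)) (S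
  9 (L 29 7) (L 1 7))) (S 10 (L 31 1) (L 2 1)))) (A02 (M 18 (L 38 4)) (A12 (A01 (S 9 (L 29 7) (L 1
  7)) (B02 (M 18 (L 38 4)) (B12 (M 18 (L 38 4)) (S 9 (L 29 7) (L 1 7))))) (S 9 (L 29 7) (L 1 7)))))
  (B12 (A23 (B01 (A12 (A13 (M 18 (L 38 4)) (S 9 (L 29 7) (L 1 7))) (S 9 (L 29 7) (L 1 7))) (S 10 (L
  31 8) (L 2 1))) (B01 (A13 (A12 (S 13 (L 40 11) (L 13 11)) (B02 (P 19 (L 58 10)) (A02 (S 13 (L 40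
  11) (L 13 11)) (A23 (out 8) (S 13 (L 40 11) (L 13 11)))))) (A03 (B02 (P 19 (L 58 10)) (A02 (S 10
  (L 31 8) (L 2 8)) (A12 (S 10 (L 31 8) (L 2 8)) (P 16 (S 10 (L 31 8) (L 50 8)))))) (B02 (P 19 (K
  [(58,10,5),(58,5,3)] [])) (A23 (A12 (S 10 (L 31 8) (L 2 8)) (P 16 (S 10 (L 31 8) (L 50 8)))) (S
  10 (L 31 8) (L 2 8)))))) (M 18 (A13 (K [(38,6,110),(38,4,90)] []) (S 10 (L 31 8) (L 2 8))))))
  (A23 (A12 (A13 (B02 (M 18 (L 38 4)) (B12 (M 18 (L 38 4)) (S 9 (L 29 7) (L 1 7)))) (S 9 (L 29 7)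
  (L 1 7))) (S 9 (L 29 7) (L 1 7))) (A13 (A12 (B02 (M 18 (L 38 4)) (B12 (M 18 (L 38 4)) (S 9 (L 29
  7) (L 1 7)))) (S 9 (L 29 7) (L 1 7))) (P 16 (A03 (S 10 (L 31 8) (L 50 8)) (B02 (B01 (S 9 (L 29 7)
  (L 12 7)) (S 10 (L 31 8) (L 50 8))) (S 10 (L 31 8) (L 50 8)))))))))))))))) (A23 (A12 (A13 (M 7 (M
  3 (B02 (B01 (P 19 (L 58 10)) (A01 (B12 (A02 (A03 (B01 (A01 (P 16 (L 49 8)) (P 19 (L 58 10))) (P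
  16 (L 49 8))) (B01 (P 19 (L 58 10)) (P 16 (L 49 8)))) (A12 (B01 (P 19 (L 58 10)) (P 16 (L 49 8)))
  (out 8))) (A02 (A03 (B02 (A01 (P 16 (L 49 8)) (P 19 (L 58 10))) (P 16 (L 49 8))) (P 19 (L 58
  10))) (P 19 (L 58 10)))) (P 19 (L 58 10)))) (B12 (A01 (P 16 (L 49 8)) (P 19 (L 58 10))) (A01 (P
  16 (L 49 8)) (P 19 (L 58 10))))))) (B02 (B01 (P 19 (A03 (M 7 (L 58 10)) (out 8))) (A03 (M 3 (B12
  (A02 (P 16 (L 49 8)) (out 8)) (A02 (P 16 (L 49 8)) (out 8)))) (out 8))) (P 16 (M 7 (B12 (A03 (M 3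
  (L 49 8)) (out 8)) (A03 (A02 (A01 (B02 (M 3 (L 49 8)) (B12 (M 3 (L 49 8)) (P 18 (L 55 4)))) (P 18
  (S 3 (L 9 4) (L 54 4)))) (out 8)) (out 8))))))) (A02 (B02 (B01 (P 19 (A03 (M 7 (L 58 10)) (out
  8))) (A03 (M 3 (B12 (A01 (P 16 (L 49 8)) (out 8)) (A01 (P 16 (L 49 8)) (out 8)))) (out 8))) (P 16
  (M 7 (B12 (A03 (M 3 (L 49 8)) (out 8)) (A03 (A01 (A02 (B02 (M 3 (L 49 8)) (B12 (M 3 (L 49 8)) (P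
  18 (L 55 4)))) (out 8)) (out 8)) (out 8)))))) (out 8))) (A13 (A12 (M 7 (P 4 (M 3 (B02 (B01 (P 19
  (L 58 10)) (A01 (B12 (A03 (A02 (M 18 (L 38 4)) (B01 (P 19 (L 58 10)) (P 16 (L 49 8)))) (A13 (B01
  (P 19 (L 58 10)) (P 16 (L 49 8))) (P 16 (L 49 8)))) (A03 (A02 (B02 (A01 (P 16 (L 49 8)) (P 19 (L
  58 10))) (P 16 (L 49 8))) (P 19 (L 58 10))) (P 19 (L 58 10)))) (P 19 (L 58 10)))) (B12 (A01 (S 9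
  (L 29 7) (L 12 7)) (P 19 (L 58 10))) (A01 (S 9 (L 29 7) (L 12 7)) (P 19 (L 58 10)))))))) (B02
  (B01 (P 19 (A02 (M 7 (L 58 10)) (P 18 (A23 (out 8) (M 3 (L 54 4)))))) (M 7 (A02 (P 4 (S 9 (L 29
  7) (L 12 7))) (B12 (P 4 (S 9 (L 29 7) (L 12 7))) (P 19 (L 58 10)))))) (P 16 (M 7 (B12 (A02 (P 4
  (S 9 (L 29 7) (L 12 7))) (B01 (P 18 (S 3 (L 9 4) (L 54 4))) (A23 (out 8) (P 4 (S 9 (L 29 7) (L 12
  7)))))) (A02 (A03 (A01 (B02 (M 3 (L 49 8)) (B12 (M 3 (L 49 8)) (P 18 (L 55 4)))) (P 18 (S 3 (L 9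
  4) (L 54 4)))) (P 18 (S 3 (L 9 4) (L 54 4)))) (P 18 (S 3 (L 9 4) (L 54 4))))))))) (A03 (B02 (B01
  (P 19 (A02 (M 7 (L 58 10)) (P 18 (A12 (M 3 (L 54 4)) (M 13 (L 59 5)))))) (A02 (P 4 (S 9 (L 29 7)
  (L 12 7))) (B12 (P 4 (S 9 (L 29 7) (L 12 7))) (P 18 (S 3 (L 9 4) (L 54 4)))))) (P 16 (M 7 (P 0
  (B12 (A02 (P 4 (S 9 (L 29 7) (L 12 7))) (B01 (P 18 (S 3 (L 9 4) (L 54 4))) (A12 (S 9 (L 29 7) (L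
  1 7)) (A23 (out 8) (P 4 (S 9 (L 29 7) (L 12 7))))))) (A02 (A01 (A03 (B02 (M 3 (L 49 8)) (B12 (M 3
  (L 49 8)) (P 18 (L 55 4)))) (P 18 (S 3 (L 9 4) (L 54 4)))) (P 18 (S 3 (L 9 4) (L 54 4)))) (P 18
  (S 3 (L 9 4) (L 54 4))))))))) (B02 (B01 (P 19 (A23 (A12 (M 7 (L 58 10)) (M 13 (L 59 5))) (M 7 (L
  58 10)))) (A23 (B12 (P 4 (S 9 (L 29 7) (L 12 7))) (P 18 (S 3 (L 9 4) (L 54 4)))) (B12 (P 4 (S 9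
  (L 29 7) (L 12 7))) (P 18 (S 3 (L 9 4) (L 54 4)))))) (P 16 (M 7 (B12 (A23 (B01 (P 18 (S 3 (L 9 4)
  (L 54 4))) (A12 (A13 (P 4 (S 9 (L 29 7) (L 12 7))) (B12 (P 4 (S 9 (L 29 7) (L 12 7))) (P 18 (S 3
  (L 9 4) (L 54 4))))) (A02 (B12 (P 4 (S 9 (L 29 7) (L 12 7))) (P 18 (S 3 (L 9 4) (L 54 4)))) (out
  8)))) (B01 (P 18 (S 3 (L 9 4) (L 54 4))) (A13 (A12 (P 4 (S 9 (L 29 7) (L 12 7))) (B12 (P 4 (S 9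
  (L 29 7) (L 12 7))) (S 3 (L 9 4) (L 49 4)))) (A03 (B12 (M 3 (L 49 4)) (S 3 (L 9 4) (L 49 4)))
  (B12 (M 3 (L 49 4)) (P 18 (L 55 10))))))) (S 3 (L 9 4) (L 49 4))))))))))))) (M 15 (A13 (B12 (P 4
  (A12 (S 9 (L 29 7) (L 12 7)) (B01 (P 19 (M 10 (A02 (A01 (B02 (S 0 (L 2 1) (L 24 1)) (M 7 (L 58
  10))) (out 8)) (out 8)))) (M 7 (A02 (P 19 (L 58 10)) (out 8)))))) (P 19 (A12 (A01 (A02 (B02 (P 13
  (L 40 5)) (B12 (A03 (B01 (A01 (M 7 (L 58 10)) (out 8)) (M 7 (L 58 10))) (out 8)) (A03 (A01 (M 7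
  (L 58 10)) (out 8)) (out 8)))) (out 8)) (out 4)) (A02 (A01 (B02 (B01 (A03 (A02 (P 13 (L 40 5))
  (out 8)) (out 8)) (A03 (M 7 (L 58 10)) (out 8))) (B12 (A03 (M 7 (L 58 10)) (out 8)) (A03 (M 7 (L
  58 10)) (out 8)))) (out 8)) (out 8))))) (B12 (P 4 (M 3 (A23 (B01 (P 19 (A02 (A03 (B02 (A01 (B01
  (A02 (A03 (P 13 (L 40 5)) (B02 (P 13 (L 40 5)) (M 7 (L 58 10)))) (out 8)) (M 7 (L 58 10))) (out
  8)) (M 7 (L 58 10))) (out 8)) (out 8))) (M 7 (A02 (P 19 (L 58 10)) (out 8)))) (B01 (A03 (P 19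
  (A02 (B02 (A01 (B01 (A03 (A02 (P 13 (L 40 5)) (B02 (P 13 (L 40 5)) (M 7 (L 58 10)))) (A13 (B02 (P
  13 (L 40 5)) (M 7 (L 58 10))) (M 7 (L 58 10)))) (M 7 (L 58 10))) (B01 (A13 (out 8) (A03 (B02 (P
  13 (L 40 5)) (M 7 (L 58 10))) (B02 (A23 (P 13 (L 40 5)) (P 18 (L 54 4))) (M 7 (L 58 10))))) (A13
  (out 8) (M 7 (L 58 10))))) (M 7 (L 58 10))) (B02 (A12 (B01 (P 18 (L 54 4)) (A13 (out 8) (M 7 (L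
  58 10)))) (B01 (P 18 (L 54 4)) (M 7 (L 58 10)))) (M 7 (L 58 10))))) (A13 (P 19 (B02 (A12 (B01 (P
  18 (L 54 4)) (A01 (M 7 (L 58 10)) (out 8))) (B01 (P 18 (L 54 4)) (M 7 (L 58 10)))) (M 7 (L 58
  10)))) (B02 (P 19 (A23 (B01 (P 18 (L 54 4)) (M 7 (L 58 10))) (B01 (P 18 (L 54 4)) (M 7 (L 58
  10))))) (M 7 (A23 (P 19 (L 58 10)) (A03 (S 9 (L 29 7) (L 12 7)) (A13 (S 9 (L 29 7) (L 12 7)) (S 9
  (L 29 7) (L 12 7))))))))) (M 7 (P 0 (A03 (P 19 (L 58 10)) (A13 (P 19 (L 58 10)) (B12 (P 19 (K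
  [(58,10,5),(58,5,3)] [])) (A23 (P 19 (L 58 10)) (A03 (S 9 (L 29 7) (L 1 7)) (A13 (S 9 (L 29 7) (L
  12 7)) (P 16 (M 13 (B02 (P 19 (K [(58,10,3),(59,5,5)] [])) (S 10 (L 31 8) (L 50
  8))))))))))))))))) (A23 (P 19 (A02 (A03 (B02 (B01 (A01 (A02 (A03 (B02 (P 13 (L 40 5)) (M 7 (L 58
  10))) (B02 (B01 (A13 (P 13 (L 40 5)) (M 7 (L 58 10))) (M 7 (L 58 10))) (M 7 (L 58 10)))) (out 8))
  (out 8)) (A01 (M 7 (L 58 10)) (out 8))) (B12 (A01 (M 7 (L 58 10)) (out 8)) (A01 (M 7 (L 58 10))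
  (out 8)))) (out 8)) (out 8))) (A03 (P 19 (A02 (M 3 (B02 (B01 (A01 (A03 (A02 (B02 (P 13 (L 40 5))
  (M 7 (L 58 10))) (B02 (B01 (A12 (P 13 (L 40 5)) (M 7 (L 58 10))) (M 7 (L 58 10))) (M 7 (L 58
  10)))) (A13 (B02 (B01 (P 18 (L 54 4)) (M 7 (L 58 10))) (M 7 (L 58 10))) (M 7 (L 58 10)))) (P 18
  (L 54 4))) (A01 (M 7 (L 58 10)) (B12 (M 7 (L 58 10)) (P 18 (L 54 4))))) (B12 (A01 (M 7 (L 58 10))
  (B01 (P 18 (L 54 4)) (M 7 (L 58 10)))) (A01 (M 7 (L 58 10)) (P 18 (L 54 4)))))) (B02 (B01 (P 18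
  (A12 (M 3 (L 54 4)) (A23 (out 8) (M 3 (L 54 4))))) (A12 (M 3 (B12 (M 7 (L 58 10)) (P 18 (L 54
  4)))) (M 13 (L 59 5)))) (B12 (A12 (M 3 (B01 (P 18 (L 54 4)) (M 7 (L 58 10)))) (M 13 (L 59 5)))
  (A12 (A13 (out 8) (M 13 (L 59 5))) (M 13 (L 59 5))))))) (A13 (P 19 (B02 (B01 (P 18 (A12 (M 3 (L
  54 4)) (A02 (M 3 (L 54 4)) (out 8)))) (A12 (M 3 (B12 (M 7 (L 58 10)) (P 18 (L 54 4)))) (M 13 (L
  59 5)))) (B12 (A12 (M 3 (B01 (P 18 (L 54 4)) (M 7 (L 58 10)))) (M 13 (L 59 5))) (A12 (A01 (M 13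
  (L 59 5)) (out 8)) (M 13 (L 59 5)))))) (B02 (B01 (P 19 (P 18 (A23 (A02 (A03 (M 3 (L 54 4)) (out
  8)) (out 8)) (A03 (A02 (M 3 (L 54 4)) (M 13 (L 59 5))) (M 13 (L 59 5)))))) (M 13 (M 7 (A23 (P 19
  (L 58 10)) (B12 (P 4 (S 9 (L 29 7) (L 12 7))) (P 19 (L 59 5))))))) (P 16 (M 13 (M 7 (B12 (A23
  (B01 (P 18 (S 3 (L 9 4) (L 54 4))) (A02 (A03 (P 19 (L 59 5)) (out 8)) (out 8))) (B01 (P 18 (S 3
  (L 9 4) (L 54 4))) (A03 (A02 (P 19 (L 59 5)) (B12 (P 4 (S 9 (L 29 7) (L 12 7))) (P 18 (S 3 (L 9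
  4) (L 54 4))))) (A13 (B12 (P 4 (S 9 (L 29 7) (L 12 7))) (P 18 (L 55 10))) (B12 (M 3 (L 49 4)) (P
  18 (L 55 10))))))) (S 3 (L 9 4) (L 49 4)))))))))))))) (A02 (A01 (M 7 (P 0 (B12 (P 4 (M 3 (A03
  (B01 (M 15 (P 12 (A02 (A01 (B02 (A03 (M 18 (B01 (A02 (A01 (B02 (S 10 (L 31 1) (L 2 1)) (A03 (L 38
  4) (A23 (L 38 4) (A13 (L 38 4) (S 10 (L 31 8) (L 2 8)))))) (B02 (S 10 (L 31 1) (L 2 1)) (A13 (L
  38 4) (A23 (L 38 4) (A03 (L 38 4) (S 10 (L 31 8) (L 2 8))))))) (P 16 (K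
  [(38,4,12),(49,2,2),(49,4,10)] []))) (A02 (A01 (B12 (S 13 (L 40 11) (L 13 11)) (A03 (P 10 (K
  [(31,1,1),(38,4,3),(31,8,3)] [])) (A23 (P 10 (K [(31,1,4),(31,8,4)] [])) (A13 (P 10 (K
  [(31,1,4),(31,8,4)] [])) (S 10 (L 31 8) (L 2 8)))))) (B12 (S 13 (L 40 11) (L 13 11)) (A13 (L 38
  4) (A23 (L 38 4) (A03 (L 38 4) (S 10 (L 31 8) (L 2 8))))))) (A23 (L 38 4) (B12 (A13 (L 38 4) (B01
  (A03 (L 38 4) (A23 (L 38 4) (S 10 (L 31 8) (L 2 8)))) (P 10 (K [(31,1,5),(31,8,3)] [])))) (P 16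
  (S 10 (K [(31,1,4),(31,8,3)] []) (K [(2,8,4),(2,1,1),(49,2,3)] [])))))))) (B01 (P 16 (A23 (M 18
  (K [(38,4,12),(49,2,2),(49,4,10)] [])) (A13 (M 18 (K [(38,4,12),(49,2,2),(49,4,10)] [])) (B02 (S
  10 (L 31 1) (L 2 1)) (M 18 (K [(38,4,3),(49,4,4),(49,2,1)] [])))))) (M 18 (A23 (A02 (B12 (A01
  (B01 (A03 (A02 (S 10 (L 31 8) (L 2 8)) (L 38 4)) (L 38 4)) (P 10 (K [(31,1,5),(31,8,3)] []))) (L
  38 4)) (P 16 (S 10 (K [(31,1,4),(31,8,4)] []) (K [(2,8,4),(2,1,1),(49,2,3)] [])))) (L 38 4)) (A13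
  (B12 (A01 (B01 (A02 (A03 (S 10 (L 31 8) (L 2 8)) (L 38 4)) (L 38 4)) (S 10 (L 31 8) (L 2 8))) (L
  38 4)) (P 16 (S 10 (K [(31,1,4),(31,8,4)] []) (K [(2,8,3),(38,4,2),(49,2,3)] [])))) (B12 (A03
  (B01 (A02 (A01 (S 10 (L 31 8) (L 2 8)) (P 16 (S 10 (L 31 8) (L 50 8)))) (P 16 (S 10 (K
  [(31,1,4),(31,8,4)] []) (L 50 8)))) (S 10 (L 31 8) (L 2 8))) (B01 (P 16 (S 10 (K
  [(31,8,3),(31,1,5)] []) (L 50 8))) (S 10 (L 31 8) (L 2 8)))) (P 16 (S 10 (K [(31,8,4),(31,1,4)]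
  []) (L 50 8))))))))) (M 18 (A03 (P 10 (K [(31,1,4),(31,8,4)] [])) (A23 (P 10 (K
  [(31,1,4),(31,8,4)] [])) (A13 (P 10 (K [(38,4,2),(31,1,2),(31,8,4)] [])) (S 10 (L 31 8) (L 2
  8))))))) (B02 (A13 (B01 (S 9 (L 29 7) (L 1 7)) (M 18 (L 38 4))) (B01 (S 9 (L 29 7) (L 1 7)) (M 18
  (P 9 (A23 (L 38 4) (A03 (L 38 4) (P 16 (S 10 (K [(31,1,5),(31,8,3)] []) (K
  [(29,7,4),(2,8,2),(49,2,2)] []))))))))) (M 18 (A13 (L 38 4) (A23 (L 38 4) (A03 (L 38 4) (S 10 (L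
  31 8) (L 2 8)))))))) (A23 (S 9 (L 29 7) (L 1 7)) (B02 (A13 (S 9 (L 29 7) (L 1 7)) (B01 (S 9 (L 29
  7) (L 1 7)) (M 18 (S 10 (K [(38,4,1),(31,1,4),(31,8,3)] []) (K [(38,4,4),(2,8,4)] []))))) (P 9 (S
  10 (K [(29,7,5),(31,1,1),(31,8,3)] []) (K [(2,8,4),(2,1,4)] [])))))))) (M 18 (A02 (A01 (B12 (A03
  (S 13 (L 40 11) (L 13 11)) (S 13 (L 40 11) (L 13 11))) (A03 (P 10 (K [(31,1,13),(31,8,11)] []))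
  (A23 (P 10 (K [(31,1,13),(31,8,11)] [])) (A13 (P 10 (K [(31,8,4),(31,1,4)] [])) (S 10 (L 31 8) (L
  2 8)))))) (P 12 (B12 (A13 (S 10 (L 31 1) (L 2 1)) (S 13 (L 40 11) (L 13 11))) (A13 (L 38 4) (A23
  (A12 (B02 (S 10 (L 31 1) (L 2 8)) (P 10 (K [(31,1,4),(31,8,4)] []))) (M 19 (P 10 (K
  [(20,10,5),(31,8,3)] [])))) (A03 (B02 (B01 (S 10 (L 31 1) (L 2 8)) (M 13 (P 10 (K
  [(31,1,4),(13,11,1),(31,8,4)] [])))) (P 10 (K [(31,1,4),(31,8,4)] []))) (S 10 (L 31 8) (L 2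
  8)))))))) (P 12 (A23 (P 10 (L 31 1)) (B12 (A13 (P 16 (S 10 (L 31 1) (L 50 1))) (B01 (A03 (S 10 (L
  31 1) (L 2 8)) (A23 (S 10 (K [(31,1,4),(31,8,4)] []) (L 2 8)) (S 10 (L 31 8) (L 2 8)))) (P 10 (K
  [(31,1,5),(31,8,3)] [])))) (P 16 (S 10 (K [(38,4,2),(31,1,12),(31,8,10)] []) (K
  [(2,8,3),(2,1,2),(49,2,3)] []))))))))) (M 15 (P 12 (B01 (P 16 (M 13 (A23 (A02 (B02 (A01 (B01 (S 9
  (L 29 7) (L 12 7)) (A03 (M 18 (P 9 (S 10 (K [(29,7,1),(31,1,4),(31,8,3)] []) (K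
  [(38,4,4),(2,8,4)] [])))) (S 9 (L 29 7) (L 1 7)))) (S 9 (L 29 7) (L 12 7))) (A01 (A03 (M 18 (S 10
  (K [(38,4,4),(31,8,3),(31,1,1)] []) (L 2 8))) (S 9 (L 29 7) (L 1 7))) (S 9 (L 29 7) (L 1 7)))) (S
  9 (L 29 7) (L 12 7))) (A13 (B02 (A01 (B01 (S 9 (L 29 7) (L 12 7)) (A02 (S 10 (L 31 8) (L 50 8))
  (S 9 (L 29 7) (L 1 7)))) (S 9 (L 29 7) (L 12 7))) (A01 (A02 (S 10 (L 31 8) (L 50 8)) (S 9 (L 29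
  7) (L 1 7))) (S 9 (L 29 7) (L 1 7)))) (B02 (A03 (B01 (S 9 (L 29 7) (L 12 7)) (A02 (S 10 (L 31 8)
  (L 50 8)) (A23 (S 9 (L 29 7) (L 1 7)) (S 10 (L 31 8) (L 50 8))))) (B01 (P 18 (L 54 4)) (A23 (A02
  (S 10 (L 31 8) (L 50 8)) (S 9 (L 29 7) (L 12 7))) (P 19 (L 59 5))))) (A03 (A02 (S 10 (L 31 8) (L
  50 8)) (A23 (S 9 (L 29 7) (L 1 7)) (S 10 (L 31 8) (L 50 8)))) (A23 (A02 (S 10 (L 31 8) (L 50 8))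
  (S 9 (L 29 7) (L 12 7))) (S 10 (L 31 8) (L 50 8))))))))) (A23 (A02 (B12 (A01 (B01 (A03 (A02 (S 10
  (L 31 8) (L 2 8)) (S 10 (K [(31,1,5),(31,8,3)] []) (L 2 8))) (S 10 (K [(31,1,5),(31,8,3)] []) (L
  2 8))) (P 10 (K [(31,8,4),(31,1,4)] []))) (P 16 (S 10 (L 31 1) (L 50 1)))) (P 16 (S 10 (K
  [(31,1,4),(31,8,4)] []) (K [(2,8,3),(2,1,2),(49,2,3)] [])))) (P 10 (L 31 1))) (A13 (M 18 (P 9
  (B12 (A01 (B01 (A02 (A03 (S 10 (L 31 8) (L 2 8)) (S 10 (L 31 8) (L 2 1))) (S 10 (K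
  [(31,1,3),(31,8,5)] []) (L 2 1))) (S 10 (L 31 8) (L 2 8))) (S 10 (L 31 1) (L 2 1))) (P 16 (S 10
  (K [(29,7,1),(31,1,4),(31,8,4)] []) (K [(2,8,3),(38,4,2),(49,2,3)] [])))))) (B12 (A03 (B01 (A02
  (A01 (S 10 (L 31 8) (L 2 8)) (P 16 (S 10 (L 31 8) (L 50 8)))) (P 16 (S 10 (K [(31,8,5),(31,1,3)]
  []) (L 50 8)))) (S 10 (L 31 8) (L 2 8))) (P 16 (B01 (A23 (S 10 (K [(31,8,5),(31,1,3)] []) (L 50
  8)) (S 10 (L 31 8) (L 50 8))) (S 10 (L 31 8) (L 2 8))))) (P 16 (A03 (M 18 (S 10 (K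
  [(31,8,6),(38,4,2)] []) (L 50 8))) (A23 (A02 (S 10 (L 31 8) (L 50 8)) (B02 (M 18 (S 10 (K
  [(31,8,6),(38,4,2)] []) (L 50 8))) (S 10 (L 31 8) (L 2 8)))) (S 10 (L 31 8) (L 50 8))))))))))))))
  (M 15 (P 12 (A03 (A02 (M 3 (A01 (B02 (B01 (A03 (M 18 (A02 (A01 (B02 (B01 (L 38 4) (P 10 (K
  [(38,4,6),(31,8,2)] []))) (P 10 (K [(38,4,6),(31,8,2)] []))) (P 16 (K [(38,4,4),(49,4,4)] [])))
  (P 16 (K [(38,4,4),(49,4,4)] [])))) (P 16 (A23 (M 18 (K [(38,4,4),(49,4,4)] [])) (A13 (M 18 (K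
  [(38,4,4),(49,4,4)] [])) (B02 (B01 (S 9 (L 29 7) (L 1 7)) (A03 (M 18 (K [(38,4,3),(49,4,5)] []))
  (S 9 (L 29 7) (L 1 7)))) (B12 (A03 (M 18 (K [(38,4,3),(49,4,5)] [])) (S 9 (L 29 7) (L 1 7))) (S 9
  (L 29 7) (L 1 7)))))))) (P 10 (K [(31,1,4),(31,8,3)] []))) (P 10 (K [(31,1,4),(31,8,4)] []))) (P
  16 (B02 (B01 (S 9 (L 29 7) (L 1 7)) (A13 (S 9 (L 29 7) (L 1 7)) (B12 (M 18 (K
  [(38,4,36),(49,4,28)] [])) (S 9 (L 29 7) (L 1 7))))) (B12 (A13 (S 9 (L 29 7) (L 1 7)) (B01 (S 9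
  (L 29 7) (L 1 7)) (M 18 (P 10 (K [(38,4,5),(31,8,3)] []))))) (S 9 (L 29 7) (L 1 7))))))) (P 16
  (A23 (B02 (B01 (A12 (S 9 (L 29 7) (L 1 7)) (A02 (S 9 (L 29 7) (L 1 7)) (A23 (B02 (S 9 (L 29 7) (L
  1 7)) (P 10 (L 31 1))) (S 9 (L 29 7) (L 1 7))))) (A12 (S 9 (L 29 7) (L 1 7)) (P 10 (L 31 1))))
  (B12 (A12 (S 9 (L 29 7) (L 1 7)) (P 10 (L 31 1))) (A12 (A01 (P 10 (L 31 1)) (A13 (B02 (B01 (A12
  (M 3 (L 49 8)) (P 10 (L 31 1))) (P 10 (L 31 1))) (P 10 (L 31 1))) (P 10 (L 31 1)))) (P 10 (L 31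
  1))))) (B02 (M 3 (B01 (S 9 (L 29 7) (L 1 7)) (A13 (S 9 (L 29 7) (L 1 7)) (B12 (M 18 (K
  [(38,4,4),(49,4,4)] [])) (S 9 (L 29 7) (L 1 7)))))) (B12 (A13 (S 9 (L 29 7) (L 1 7)) (B01 (S 9 (L
  29 7) (L 1 7)) (M 18 (P 10 (K [(38,4,5),(31,8,3)] []))))) (A13 (A01 (A03 (P 10 (L 31 1)) (B02 (S
  9 (L 29 7) (L 1 7)) (P 10 (L 31 1)))) (A12 (B02 (S 9 (L 29 7) (L 1 7)) (P 10 (L 31 1))) (B02 (S 9
  (L 29 7) (L 1 7)) (P 10 (L 31 1))))) (A03 (A01 (S 3 (L 9 4) (L 49 4)) (B02 (M 3 (L 49 4)) (S 3 (L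
  9 4) (L 49 4)))) (A23 (B02 (M 3 (L 49 4)) (S 3 (L 9 4) (L 49 4))) (M 3 (L 49 4)))))))))) (P 16
  (A23 (A02 (B02 (B01 (A01 (A03 (P 4 (S 9 (L 29 7) (L 12 7))) (A13 (P 4 (S 9 (L 29 7) (L 12 7)))
  (B02 (P 4 (S 9 (L 29 7) (L 12 7))) (B12 (P 4 (S 9 (L 29 7) (L 12 7))) (A23 (M 3 (L 49 4)) (S 3 (L
  9 4) (L 49 4))))))) (A13 (S 9 (L 29 7) (L 1 7)) (A03 (S 9 (L 29 7) (L 1 7)) (B02 (P 4 (S 9 (L 29
  7) (L 12 7))) (B12 (P 4 (S 9 (L 29 7) (L 12 7))) (A23 (S 9 (L 29 7) (L 1 7)) (P 18 (S 3 (L 9 4)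
  (L 54 4))))))))) (A01 (B12 (M 3 (A03 (M 18 (K [(38,4,4),(49,4,4)] [])) (S 9 (L 29 7) (L 1 7))))
  (A03 (S 9 (L 29 7) (L 1 7)) (A13 (S 9 (L 29 7) (L 1 7)) (P 10 (K [(31,1,5),(31,8,3)] []))))) (B12
  (S 9 (L 29 7) (L 1 7)) (A13 (S 9 (L 29 7) (L 1 7)) (A03 (S 9 (L 29 7) (L 1 7)) (P 10 (L 31
  1))))))) (B12 (A01 (B01 (A03 (S 9 (L 29 7) (L 1 7)) (A13 (S 9 (L 29 7) (L 1 7)) (S 3 (L 9 4) (L
  49 4)))) (P 10 (K [(31,8,4),(31,1,4)] []))) (B01 (A13 (S 9 (L 29 7) (L 1 7)) (A03 (S 9 (L 29 7)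
  (L 1 7)) (P 10 (L 31 1)))) (P 10 (L 31 1)))) (A01 (A03 (A02 (B02 (M 3 (L 49 4)) (P 10 (L 31 8)))
  (B02 (M 3 (L 49 4)) (S 3 (L 9 4) (L 49 4)))) (A13 (B02 (M 3 (L 49 4)) (S 3 (L 9 4) (L 49 4))) (S
  3 (L 9 4) (L 49 4)))) (A13 (A12 (B02 (S 9 (L 29 7) (L 1 7)) (P 10 (L 31 1))) (B02 (S 9 (L 29 7)
  (L 1 7)) (P 10 (L 31 1)))) (A03 (B02 (M 3 (L 49 4)) (P 10 (L 31 1))) (S 3 (L 9 4) (L 49 4)))))))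
  (B02 (B01 (A12 (A13 (S 9 (L 29 7) (L 1 7)) (A23 (S 9 (L 29 7) (L 1 7)) (B02 (P 4 (S 9 (L 29 7) (L
  12 7))) (B12 (P 4 (S 9 (L 29 7) (L 12 7))) (A03 (S 9 (L 29 7) (L 1 7)) (P 18 (S 3 (L 9 4) (L 54
  4)))))))) (A23 (A02 (B02 (S 9 (L 29 7) (L 1 7)) (P 10 (L 31 1))) (B02 (S 9 (L 29 7) (L 1 7)) (P
  10 (L 31 1)))) (A13 (B02 (S 9 (L 29 7) (L 1 7)) (P 10 (L 31 1))) (B02 (P 4 (S 9 (L 29 7) (L 12
  7))) (P 10 (L 31 1)))))) (A12 (B12 (S 9 (L 29 7) (L 1 7)) (A13 (S 9 (L 29 7) (L 1 7)) (P 10 (L 31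
  1)))) (P 10 (L 31 1)))) (B12 (A12 (B01 (A13 (S 9 (L 29 7) (L 1 7)) (P 10 (L 31 1))) (P 10 (L 31
  1))) (P 10 (L 31 1))) (A12 (A13 (A01 (P 10 (L 31 1)) (B02 (B01 (P 18 (L 55 4)) (P 10 (L 31 1)))
  (P 10 (L 31 1)))) (P 10 (K [(31,1,5),(31,8,3)] []))) (P 10 (K [(31,1,5),(31,8,3)] [])))))) (A13
  (B02 (B01 (A01 (A02 (P 4 (S 9 (L 29 7) (L 12 7))) (A12 (P 4 (S 9 (L 29 7) (L 12 7))) (B02 (P 4 (S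
  9 (L 29 7) (L 12 7))) (B12 (P 4 (S 9 (L 29 7) (L 12 7))) (S 3 (L 9 4) (L 49 4)))))) (A12 (P 4 (S
  9 (L 29 7) (L 12 7))) (A02 (P 4 (S 9 (L 29 7) (L 12 7))) (B02 (P 4 (S 9 (L 29 7) (L 12 7))) (B12
  (P 4 (S 9 (L 29 7) (L 12 7))) (P 18 (S 3 (L 9 4) (L 54 4)))))))) (A01 (B12 (S 10 (L 31 8) (L 50
  8)) (A02 (S 10 (L 31 8) (L 50 8)) (A12 (P 4 (S 9 (L 29 7) (L 12 7))) (B02 (S 9 (L 29 7) (L 1 7))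
  (A23 (P 10 (L 31 8)) (M 3 (L 49 4))))))) (B12 (S 9 (L 29 7) (L 1 7)) (A12 (P 4 (S 9 (L 29 7) (L
  12 7))) (A02 (P 4 (S 9 (L 29 7) (L 12 7))) (B02 (S 9 (L 29 7) (L 1 7)) (A23 (P 10 (L 31 1)) (P 4
  (S 9 (L 29 7) (L 12 7)))))))))) (B12 (A01 (B01 (A02 (S 10 (L 31 8) (L 50 8)) (A12 (P 4 (S 9 (L 29
  7) (L 12 7))) (B02 (A23 (P 10 (L 31 8)) (M 3 (L 49 4))) (P 10 (L 31 8))))) (P 10 (L 31 8))) (B01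
  (A12 (P 4 (S 9 (L 29 7) (L 12 7))) (A02 (P 4 (S 9 (L 29 7) (L 12 7))) (B02 (A23 (P 10 (L 31 1))
  (M 3 (L 49 4))) (P 10 (L 31 1))))) (P 10 (L 31 1)))) (A01 (A02 (A03 (B02 (M 3 (L 49 4)) (P 10 (L
  31 8))) (B02 (M 3 (L 49 4)) (P 10 (L 31 8)))) (A12 (B02 (M 3 (L 49 4)) (P 10 (L 31 8))) (B02 (B01
  (S 3 (L 9 4) (L 49 4)) (P 10 (L 31 8))) (P 10 (L 31 8))))) (A12 (A13 (B02 (S 9 (L 29 7) (L 1 7))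
  (P 10 (L 31 1))) (B02 (P 4 (S 9 (L 29 7) (L 12 7))) (P 10 (L 31 1)))) (A02 (B02 (M 3 (L 49 4)) (P
  10 (L 31 1))) (S 3 (L 9 4) (L 49 4))))))) (B02 (B01 (A03 (A02 (P 4 (S 9 (L 29 7) (L 12 7))) (A23
  (B02 (P 4 (S 9 (L 29 7) (L 12 7))) (B12 (P 4 (S 9 (L 29 7) (L 12 7))) (P 18 (L 55 10)))) (P 4 (S
  9 (L 29 7) (L 12 7))))) (P 18 (S 3 (L 9 4) (L 54 4)))) (A03 (B12 (S 10 (L 31 8) (L 50 8)) (A02 (S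
  10 (L 31 8) (L 50 8)) (A23 (B02 (P 4 (S 9 (L 29 7) (L 12 7))) (A12 (M 3 (L 49 4)) (P 10 (L 31
  8)))) (P 4 (S 9 (L 29 7) (L 12 7)))))) (B12 (S 10 (L 31 8) (L 50 8)) (P 18 (S 3 (L 9 4) (L 54
  4)))))) (B12 (A03 (B01 (A02 (M 3 (L 49 4)) (A23 (B02 (A12 (M 3 (L 49 4)) (P 10 (L 31 8))) (P 10
  (L 31 8))) (M 3 (L 49 4)))) (P 10 (L 31 8))) (B01 (S 3 (L 9 4) (L 49 4)) (A23 (P 10 (L 31 8)) (M
  3 (L 49 4))))) (A03 (A02 (A01 (B02 (M 3 (L 49 4)) (P 10 (L 31 8))) (B02 (M 3 (L 49 4)) (P 10 (L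
  31 8)))) (A23 (B02 (B01 (P 18 (L 55 10)) (P 10 (L 31 8))) (P 10 (L 31 8))) (B02 (B01 (P 18 (L 55
  10)) (P 10 (L 31 8))) (P 10 (L 31 8))))) (S 3 (L 9 4) (L 49 4)))))))))))))) (M 15 (P 12 (B12 (P 4
  (M 3 (A13 (B01 (A12 (A01 (B02 (A03 (P 0 (S 9 (L 29 7) (L 1 7))) (out 8)) (S 9 (L 29 7) (L 12 7)))
  (out 8)) (A23 (P 0 (S 9 (L 29 7) (L 1 7))) (B02 (A03 (P 0 (S 9 (L 29 7) (L 1 7))) (out 8)) (S 9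
  (L 29 7) (L 12 7))))) (P 0 (S 10 (L 31 1) (L 2 1)))) (P 16 (B01 (A23 (A12 (B02 (A01 (S 9 (L 29 7)
  (L 12 7)) (B01 (P 18 (L 54 4)) (S 9 (L 29 7) (L 12 7)))) (S 9 (L 29 7) (L 12 7))) (S 9 (L 29 7)
  (L 12 7))) (A03 (B02 (A01 (S 9 (L 29 7) (L 12 7)) (B01 (P 18 (L 54 4)) (S 9 (L 29 7) (L 12 7))))
  (S 9 (L 29 7) (L 12 7))) (B02 (A13 (B01 (P 18 (L 54 4)) (S 9 (L 29 7) (L 12 7))) (S 9 (L 29 7) (L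
  12 7))) (S 9 (L 29 7) (L 12 7))))) (P 0 (A23 (S 10 (L 31 1) (L 2 1)) (A03 (S 10 (L 31 1) (L 2 1))
  (B12 (A13 (S 10 (L 31 1) (L 2 1)) (B01 (A23 (A12 (S 10 (L 31 8) (L 50 8)) (M 18 (K
  [(38,4,30),(49,2,1),(38,6,33)] []))) (S 10 (L 31 8) (L 50 8))) (S 10 (L 31 8) (L 2 8)))) (A13 (S
  9 (L 29 7) (L 1 7)) (A23 (A12 (S 10 (L 31 8) (L 50 8)) (B02 (B01 (S 9 (L 29 7) (L 1 7)) (S 10 (L
  31 8) (L 2 8))) (S 10 (L 31 8) (L 2 8)))) (S 10 (L 31 8) (L 50 8))))))))))))) (A13 (A12 (A01 (P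
  16 (B02 (B01 (A03 (M 7 (A02 (P 19 (L 58 10)) (out 8))) (out 8)) (A03 (B12 (M 3 (L 49 8)) (A02 (M
  3 (L 49 8)) (out 8))) (out 8))) (M 7 (B12 (A03 (B01 (A02 (M 3 (L 49 8)) (out 8)) (A02 (M 3 (L 49
  8)) (out 8))) (out 8)) (A03 (A02 (A01 (B02 (M 3 (L 49 8)) (B12 (M 3 (L 49 8)) (P 18 (L 55 4))))
  (out 8)) (out 8)) (out 8)))))) (out 8)) (P 16 (A23 (M 7 (P 0 (B02 (B01 (A02 (A01 (A03 (S 9 (L 29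
  7) (L 1 7)) (B02 (S 9 (L 29 7) (L 1 7)) (B12 (S 9 (L 29 7) (L 1 7)) (P 18 (L 55 4))))) (A12 (out
  8) (B02 (S 9 (L 29 7) (L 1 7)) (B12 (S 9 (L 29 7) (L 1 7)) (P 18 (L 55 4)))))) (A12 (A01 (B02 (S
  9 (L 29 7) (L 1 7)) (B12 (S 9 (L 29 7) (L 1 7)) (P 18 (L 55 4)))) (out 8)) (A23 (B02 (S 9 (L 29
  7) (L 1 7)) (P 10 (L 31 1))) (B02 (S 9 (L 29 7) (L 1 7)) (B12 (S 9 (L 29 7) (L 1 7)) (P 18 (L 55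
  4))))))) (A02 (B12 (S 9 (L 29 7) (L 1 7)) (A01 (A03 (M 3 (L 49 8)) (B02 (S 9 (L 29 7) (L 1 7))
  (A23 (M 3 (L 49 8)) (P 18 (L 55 4))))) (A12 (out 8) (B02 (S 9 (L 29 7) (L 1 7)) (A23 (M 3 (L 49
  8)) (P 18 (L 55 4))))))) (B12 (P 10 (L 31 1)) (A12 (A01 (P 10 (L 31 1)) (out 8)) (P 10 (L 31
  1)))))) (B12 (A02 (B01 (A01 (A03 (M 3 (L 49 8)) (B02 (A23 (M 3 (L 49 8)) (P 18 (L 55 4))) (P 10
  (L 31 1)))) (A12 (out 8) (B02 (A23 (M 3 (L 49 8)) (P 18 (L 55 4))) (P 10 (L 31 1))))) (P 10 (L 31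
  1))) (B01 (A12 (A01 (P 10 (L 31 1)) (out 8)) (P 10 (L 31 1))) (P 10 (L 31 1)))) (A02 (A01 (A03
  (B02 (B01 (P 18 (L 55 4)) (P 10 (L 31 1))) (P 10 (L 31 1))) (P 18 (L 55 4))) (P 18 (L 55 4))) (P
  18 (L 55 4))))))) (B02 (B01 (A03 (M 7 (P 0 (A01 (A02 (P 4 (S 9 (L 29 7) (L 12 7))) (B02 (P 4 (S 9
  (L 29 7) (L 12 7))) (B12 (S 9 (L 29 7) (L 1 7)) (P 18 (L 55 4))))) (out 8)))) (out 8)) (M 7 (P 0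
  (A03 (B12 (S 9 (L 29 7) (L 1 7)) (A01 (A02 (M 3 (L 49 8)) (B02 (S 9 (L 29 7) (L 1 7)) (P 18 (L 55
  4)))) (out 8))) (out 8))))) (M 7 (P 0 (B12 (A03 (B01 (A01 (A02 (M 3 (L 49 8)) (P 18 (L 55 4)))
  (out 8)) (A01 (A02 (M 3 (L 49 8)) (B12 (S 9 (L 29 7) (L 1 7)) (A23 (P 10 (L 31 1)) (M 3 (L 49
  8))))) (out 8))) (out 8)) (A03 (A01 (A02 (B02 (M 3 (L 49 8)) (B12 (M 3 (L 49 8)) (P 18 (L 55
  4)))) (P 18 (L 55 4))) (out 8)) (out 8))))))))) (P 16 (A23 (A12 (B02 (B01 (A01 (M 7 (P 0 (A03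
  (A02 (P 4 (S 9 (L 29 7) (L 12 7))) (B02 (P 4 (S 9 (L 29 7) (L 12 7))) (B12 (S 9 (L 29 7) (L 1 7))
  (P 18 (L 55 4))))) (A13 (B02 (P 4 (S 9 (L 29 7) (L 12 7))) (B12 (P 4 (S 9 (L 29 7) (L 12 7))) (P
  18 (S 3 (L 9 4) (L 54 4))))) (B02 (P 4 (S 9 (L 29 7) (L 12 7))) (B12 (P 4 (S 9 (L 29 7) (L 12
  7))) (P 18 (S 3 (L 9 4) (L 54 4))))))))) (P 18 (A13 (out 8) (S 3 (L 9 4) (L 54 4))))) (M 7 (P 0
  (A01 (B12 (S 9 (L 29 7) (L 1 7)) (A03 (A02 (S 9 (L 29 7) (L 1 7)) (B02 (S 9 (L 29 7) (L 1 7)) (P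
  18 (L 55 4)))) (A13 (B02 (S 9 (L 29 7) (L 1 7)) (P 18 (S 3 (L 9 4) (L 54 4)))) (B02 (S 9 (L 29 7)
  (L 1 7)) (P 18 (S 3 (L 9 4) (L 54 4))))))) (B12 (P 4 (S 9 (L 29 7) (L 12 7))) (P 18 (S 3 (L 9 4)
  (L 54 4)))))))) (M 7 (P 0 (B12 (A01 (B01 (A03 (A02 (S 9 (L 29 7) (L 1 7)) (P 18 (L 55 4))) (P 18
  (S 3 (L 9 4) (L 54 4)))) (A03 (A02 (S 9 (L 29 7) (L 1 7)) (B12 (S 9 (L 29 7) (L 1 7)) (A12 (S 9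
  (L 29 7) (L 1 7)) (P 10 (L 31 1))))) (A13 (B12 (S 9 (L 29 7) (L 1 7)) (A12 (S 9 (L 29 7) (L 1 7))
  (P 10 (L 31 1)))) (P 10 (L 31 1))))) (B01 (P 18 (S 3 (L 9 4) (L 54 4))) (A13 (out 8) (A03 (B12 (S
  9 (L 29 7) (L 1 7)) (P 18 (L 55 4))) (P 10 (L 31 1)))))) (A01 (A03 (A02 (B02 (S 9 (L 29 7) (L 1
  7)) (B12 (S 9 (L 29 7) (L 1 7)) (P 18 (L 55 4)))) (P 18 (L 55 4))) (P 18 (K
  [(55,4,13),(55,10,11)] []))) (P 18 (A13 (out 8) (K [(55,4,13),(55,10,11)] [])))))))) (M 7 (P 0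
  (B02 (B01 (A02 (A03 (A01 (S 9 (L 29 7) (L 1 7)) (B02 (S 9 (L 29 7) (L 1 7)) (B12 (S 9 (L 29 7) (L
  1 7)) (P 18 (L 55 4))))) (A23 (B02 (S 9 (L 29 7) (L 1 7)) (B12 (S 9 (L 29 7) (L 1 7)) (P 18 (L 55
  4)))) (B02 (P 4 (S 9 (L 29 7) (L 12 7))) (B12 (P 4 (S 9 (L 29 7) (L 12 7))) (P 18 (S 3 (L 9 4) (L
  54 4))))))) (A23 (A12 (B02 (S 9 (L 29 7) (L 1 7)) (B12 (S 9 (L 29 7) (L 1 7)) (P 18 (L 55 4))))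
  (B02 (S 9 (L 29 7) (L 1 7)) (P 10 (L 31 1)))) (A03 (B02 (S 9 (L 29 7) (L 1 7)) (B12 (S 9 (L 29 7)
  (L 1 7)) (P 18 (L 55 4)))) (P 18 (S 3 (L 9 4) (L 54 4)))))) (A02 (B12 (S 9 (L 29 7) (L 1 7)) (A03
  (A01 (S 9 (L 29 7) (L 1 7)) (B02 (S 9 (L 29 7) (L 1 7)) (A12 (P 18 (L 55 4)) (S 9 (L 29 7) (L 1
  7))))) (P 10 (L 31 1)))) (P 10 (L 31 1)))) (B12 (A02 (B01 (A03 (A01 (S 9 (L 29 7) (L 1 7)) (B02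
  (A12 (P 18 (L 55 4)) (S 9 (L 29 7) (L 1 7))) (P 10 (L 31 1)))) (P 10 (L 31 1))) (P 10 (L 31 1)))
  (P 10 (L 31 1))) (A02 (A03 (A01 (B02 (B01 (P 18 (L 55 4)) (P 10 (L 31 1))) (P 10 (L 31 1))) (P 18
  (L 55 4))) (P 10 (K [(31,1,4),(31,8,3)] []))) (P 10 (K [(31,1,5),(31,8,3)] [])))))))) (A03 (B02
  (B01 (A01 (A02 (P 4 (S 9 (L 29 7) (L 12 7))) (A12 (P 4 (S 9 (L 29 7) (L 12 7))) (B02 (P 4 (S 9 (L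
  29 7) (L 12 7))) (B12 (P 4 (S 9 (L 29 7) (L 12 7))) (P 18 (S 3 (L 9 4) (L 54 4))))))) (P 18 (A12
  (M 10 (S 0 (L 2 1) (L 24 1))) (S 3 (L 9 4) (L 54 4))))) (P 0 (A01 (B12 (S 9 (L 29 7) (L 1 7))
  (A02 (P 4 (S 9 (L 29 7) (L 12 7))) (A12 (P 4 (S 9 (L 29 7) (L 12 7))) (B02 (S 9 (L 29 7) (L 1 7))
  (P 18 (S 3 (L 9 4) (L 54 4))))))) (B12 (P 4 (S 9 (L 29 7) (L 12 7))) (P 18 (S 3 (L 9 4) (L 54
  4))))))) (M 7 (P 0 (B12 (A01 (B01 (A02 (P 4 (S 9 (L 29 7) (L 12 7))) (P 18 (S 3 (L 9 4) (L 54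
  4)))) (A02 (S 9 (L 29 7) (L 1 7)) (A12 (S 9 (L 29 7) (L 1 7)) (P 10 (L 31 1))))) (B01 (P 18 (S 3
  (L 9 4) (L 54 4))) (A12 (A13 (out 8) (B12 (S 9 (L 29 7) (L 1 7)) (P 18 (L 55 4)))) (A02 (B12 (S 9
  (L 29 7) (L 1 7)) (P 18 (L 55 4))) (P 10 (L 31 1)))))) (A01 (A02 (A03 (B02 (S 9 (L 29 7) (L 1 7))
  (B12 (S 9 (L 29 7) (L 1 7)) (P 18 (L 55 4)))) (P 18 (S 3 (L 9 4) (L 54 4)))) (P 18 (S 3 (L 9 4)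
  (L 54 4)))) (P 18 (S 3 (L 9 4) (L 54 4)))))))) (B02 (B01 (P 18 (A13 (A12 (M 10 (S 0 (L 2 1) (L 24
  1))) (S 3 (L 9 4) (L 54 4))) (S 3 (L 9 4) (L 54 4)))) (A13 (B12 (P 4 (S 9 (L 29 7) (L 12 7))) (P
  18 (S 3 (L 9 4) (L 54 4)))) (B12 (P 4 (S 9 (L 29 7) (L 12 7))) (P 18 (S 3 (L 9 4) (L 54 4))))))
  (M 7 (B12 (A13 (B01 (S 3 (L 9 4) (L 49 4)) (A12 (A01 (B12 (P 4 (S 9 (L 29 7) (L 12 7))) (S 3 (L 9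
  4) (L 49 4))) (out 8)) (A23 (P 10 (L 31 8)) (B12 (M 3 (L 49 4)) (S 3 (L 9 4) (L 49 4)))))) (B01
  (S 3 (L 9 4) (L 49 4)) (A23 (A12 (B12 (M 3 (L 49 4)) (S 3 (L 9 4) (L 49 4))) (P 10 (L 31 8)))
  (A03 (B12 (M 3 (L 49 4)) (S 3 (L 9 4) (L 49 4))) (B12 (M 3 (L 49 4)) (P 18 (L 55 10))))))) (S 3
  (L 9 4) (L 49 4))))))))))))) (M 15 (P 12 (A23 (B12 (A12 (B01 (A01 (M 7 (P 0 (A02 (B02 (A03 (B01
  (A01 (A02 (B02 (A03 (S 9 (L 29 7) (L 1 7)) (P 18 (L 55 4))) (P 10 (L 31 1))) (out 8)) (out 8))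
  (A01 (P 10 (L 31 1)) (out 8))) (out 8)) (P 10 (L 31 1))) (out 8)))) (out 8)) (A01 (P 10 (L 31 1))
  (out 8))) (B01 (A02 (A01 (B02 (A03 (B01 (A02 (A01 (P 10 (L 31 1)) (out 8)) (out 8)) (P 10 (L 31
  1))) (out 8)) (P 10 (L 31 1))) (out 8)) (out 1)) (P 10 (L 31 1)))) (A12 (A01 (M 7 (A02 (B02 (B01
  (A03 (A01 (A02 (B02 (B01 (P 18 (L 55 4)) (P 10 (L 31 1))) (P 10 (L 31 1))) (out 8)) (out 8)) (out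
  8)) (A03 (B12 (P 10 (L 31 1)) (A01 (P 10 (L 31 1)) (out 8))) (out 8))) (B12 (A03 (B01 (P 18 (L 55
  4)) (P 10 (L 31 1))) (out 8)) (P 18 (L 55 4)))) (out 8))) (out 8)) (A02 (A01 (B02 (B01 (A03 (A02
  (A01 (P 10 (L 31 1)) (out 8)) (out 8)) (out 8)) (P 10 (L 31 1))) (P 10 (L 31 1))) (out 8)) (out
  1)))) (B12 (A13 (B01 (A01 (A03 (M 7 (P 0 (B02 (A02 (B01 (A01 (A03 (B02 (A02 (S 9 (L 29 7) (L 1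
  7)) (B01 (P 18 (L 55 4)) (P 10 (L 31 1)))) (P 10 (L 31 1))) (B02 (A23 (B01 (P 18 (L 55 4)) (A12
  (S 9 (L 29 7) (L 1 7)) (A02 (S 9 (L 29 7) (L 1 7)) (P 18 (L 55 4))))) (S 9 (L 29 7) (L 1 7)))
  (A23 (P 10 (L 31 1)) (S 9 (L 29 7) (L 1 7))))) (out 8)) (A01 (A03 (P 10 (L 31 1)) (B12 (S 9 (L 29
  7) (L 1 7)) (A23 (P 10 (L 31 1)) (S 9 (L 29 7) (L 1 7))))) (out 8))) (out 8)) (P 10 (L 31 1)))))
  (out 8)) (out 8)) (A01 (A03 (P 10 (L 31 1)) (out 8)) (out 8))) (P 16 (B01 (A03 (A01 (M 7 (P 0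
  (B02 (A02 (B01 (A03 (A01 (B02 (A02 (S 9 (L 29 7) (L 1 7)) (B01 (P 18 (L 55 4)) (P 10 (L 31 1))))
  (P 10 (L 31 1))) (B02 (A12 (S 9 (L 29 7) (L 1 7)) (B01 (P 18 (L 55 4)) (A23 (A02 (S 9 (L 29 7) (L
  1 7)) (P 18 (L 55 4))) (S 9 (L 29 7) (L 1 7))))) (A12 (S 9 (L 29 7) (L 1 7)) (P 10 (L 31 1)))))
  (A23 (B02 (A12 (S 9 (L 29 7) (L 1 7)) (B01 (P 18 (L 55 4)) (A02 (S 9 (L 29 7) (L 1 7)) (P 18 (L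
  55 4))))) (A12 (S 9 (L 29 7) (L 1 7)) (P 10 (L 31 1)))) (P 4 (S 9 (L 29 7) (L 12 7))))) (A03 (A01
  (P 10 (L 31 1)) (B12 (S 9 (L 29 7) (L 1 7)) (A12 (S 9 (L 29 7) (L 1 7)) (P 10 (L 31 1))))) (A23
  (B12 (S 9 (L 29 7) (L 1 7)) (A12 (S 9 (L 29 7) (L 1 7)) (P 10 (L 31 1)))) (S 9 (L 29 7) (L 1
  7))))) (B01 (P 18 (S 3 (L 9 4) (L 54 4))) (A23 (out 8) (A03 (B12 (S 9 (L 29 7) (L 1 7)) (P 18 (L
  55 4))) (S 9 (L 29 7) (L 1 7)))))) (P 10 (L 31 1))))) (B02 (A12 (P 4 (M 3 (B01 (P 18 (L 54 4)) (S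
  9 (L 29 7) (L 12 7))))) (P 0 (B01 (P 18 (S 3 (L 9 4) (L 54 4))) (A23 (out 8) (S 9 (L 29 7) (L 1
  7)))))) (P 0 (A12 (P 4 (S 9 (L 29 7) (L 12 7))) (A23 (out 8) (S 9 (L 29 7) (L 1 7))))))) (A23
  (B02 (A12 (B01 (P 18 (A01 (S 3 (L 9 4) (L 54 4)) (out 8))) (P 4 (S 9 (L 29 7) (L 12 7)))) (B01 (P
  18 (S 3 (L 9 4) (L 54 4))) (A02 (P 4 (S 9 (L 29 7) (L 12 7))) (out 8)))) (A12 (P 4 (S 9 (L 29 7)
  (L 12 7))) (A02 (P 4 (S 9 (L 29 7) (L 12 7))) (out 8)))) (B02 (A13 (B01 (P 18 (A01 (S 3 (L 9 4)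
  (L 54 4)) (out 8))) (P 4 (S 9 (L 29 7) (L 12 7)))) (B01 (P 18 (S 3 (L 9 4) (L 54 4))) (P 4 (S 9
  (L 29 7) (L 12 7))))) (P 4 (S 9 (L 29 7) (L 12 7)))))) (P 0 (A03 (A01 (P 10 (L 31 1)) (B12 (S 10
  (L 31 1) (L 2 1)) (A12 (S 9 (L 29 7) (L 1 7)) (A23 (out 8) (S 9 (L 29 7) (L 1 7)))))) (A23 (B12
  (M 3 (A12 (B01 (S 9 (L 29 7) (L 1 7)) (M 18 (K [(38,4,11),(49,2,13)] []))) (B01 (S 9 (L 29 7) (L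
  1 7)) (P 10 (K [(31,1,5),(31,8,3)] []))))) (A12 (S 9 (L 29 7) (L 1 7)) (A02 (S 9 (L 29 7) (L 1
  7)) (out 8)))) (B12 (A13 (B01 (S 9 (L 29 7) (L 1 7)) (S 10 (L 31 8) (L 2 1))) (B01 (A03 (A01 (B02
  (S 10 (L 31 1) (L 2 1)) (P 10 (L 31 8))) (S 10 (L 31 8) (L 50 8))) (S 10 (L 31 8) (L 50 8))) (S
  10 (L 31 8) (L 2 8)))) (A13 (S 9 (L 29 7) (L 1 7)) (A03 (A01 (B02 (B01 (S 9 (L 29 7) (L 1 7)) (P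
  10 (L 31 8))) (P 10 (L 31 8))) (S 10 (L 31 8) (L 50 8))) (S 10 (L 31 8) (L 50 8))))))))))) (A13
  (A01 (A03 (M 7 (B02 (B01 (A02 (A01 (A03 (B02 (B01 (P 18 (L 55 4)) (P 10 (L 31 1))) (P 10 (L 31
  1))) (P 18 (L 55 4))) (out 8)) (out 8)) (A02 (B12 (P 10 (L 31 1)) (A01 (P 10 (L 31 1)) (out 8)))
  (out 8))) (B12 (A02 (B01 (P 18 (L 55 4)) (P 10 (L 31 1))) (out 8)) (P 18 (L 55 4))))) (out 8))
  (out 8)) (P 16 (A03 (A01 (M 7 (B02 (B01 (A02 (A03 (A01 (B02 (B01 (P 18 (L 55 4)) (P 10 (L 31 1)))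
  (P 10 (L 31 1))) (P 18 (L 55 4))) (S 10 (L 31 1) (L 50 1))) (S 10 (L 31 1) (L 50 1))) (P 10 (L 31
  1))) (P 10 (K [(31,1,5),(31,8,3)] [])))) (B02 (B01 (P 18 (A12 (A13 (out 8) (S 3 (L 9 4) (L 54
  4))) (S 3 (L 9 4) (L 54 4)))) (M 7 (A12 (B12 (A13 (out 8) (A23 (out 8) (B01 (P 18 (L 55 4)) (P 10
  (L 31 1))))) (P 18 (S 3 (L 9 4) (L 54 4)))) (B12 (A23 (out 8) (A13 (out 8) (P 10 (L 31 1)))) (P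
  18 (S 3 (L 9 4) (L 54 4))))))) (M 7 (B12 (A12 (B01 (S 3 (L 9 4) (L 49 4)) (A13 (out 8) (P 10 (L
  31 1)))) (B01 (S 3 (L 9 4) (L 49 4)) (P 10 (L 31 1)))) (P 18 (M 4 (K
  [(42,7,2),(55,10,2),(55,4,4)] []))))))) (A23 (B02 (B01 (A12 (A01 (S 3 (L 9 4) (L 49 4)) (out 8))
  (S 3 (L 9 4) (L 49 4))) (A12 (B12 (A01 (A02 (B01 (S 3 (L 9 4) (L 49 4)) (S 3 (L 9 4) (L 49 4)))
  (out 8)) (out 8)) (P 18 (S 3 (L 9 4) (L 54 4)))) (B12 (A02 (A01 (S 3 (L 9 4) (L 49 4)) (out 8))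
  (out 8)) (S 3 (L 9 4) (L 49 4))))) (M 7 (B12 (A12 (B01 (S 3 (L 9 4) (L 49 4)) (A01 (S 3 (L 9 4)
  (L 49 4)) (out 8))) (B01 (S 3 (L 9 4) (L 49 4)) (S 3 (L 9 4) (L 49 4)))) (P 18 (M 4 (K
  [(42,7,2),(55,10,2),(55,4,3)] [])))))) (B02 (B01 (A13 (A01 (S 3 (L 9 4) (L 49 4)) (out 8)) (S 3
  (L 9 4) (L 49 4))) (A13 (B12 (A01 (A03 (B01 (S 3 (L 9 4) (L 49 4)) (P 10 (L 31 8))) (out 8)) (out
  8)) (P 18 (S 3 (L 9 4) (L 54 4)))) (B12 (A03 (A01 (B01 (S 3 (L 9 4) (L 49 4)) (P 10 (L 31 8))) (S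
  3 (L 9 4) (L 49 4))) (S 3 (L 9 4) (L 49 4))) (S 3 (L 9 4) (L 49 4))))) (B12 (A13 (B01 (S 3 (L 9
  4) (L 49 4)) (A01 (A03 (P 10 (L 31 8)) (out 8)) (out 8))) (B01 (S 3 (L 9 4) (L 49 4)) (A03 (A01
  (P 10 (L 31 8)) (S 3 (L 9 4) (L 49 4))) (S 3 (L 9 4) (L 49 4))))) (S 3 (L 9 4) (L 49
  4)))))))))))))))))) (M 7 (P 0 (A23 (A02 (A03 (M 11 (P 6 (M 1 (B12 (P 4 (M 3 (A01 (B01 (M 15 (P 12
  (A02 (A03 (B02 (A01 (M 18 (B01 (A02 (A03 (B02 (A01 (S 10 (L 31 1) (L 2 1)) (B01 (L 38 4) (S 10 (L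
  31 1) (L 2 8)))) (A01 (P 10 (K [(31,1,4),(31,8,1),(38,10,3)] [])) (A12 (A13 (S 10 (L 31 8) (L 2
  8)) (P 10 (K [(31,8,2),(31,1,4),(38,10,2)] []))) (P 10 (K [(31,1,4),(31,8,1),(38,10,2)] [])))))
  (P 16 (K [(38,4,12),(49,4,11)] []))) (P 16 (K [(38,4,12),(49,4,10),(49,2,2)] []))) (A02 (A03 (B12
  (A01 (P 10 (K [(31,1,7),(31,8,1)] [])) (B01 (A12 (A13 (S 10 (L 31 8) (L 2 8)) (P 10 (K
  [(31,8,2),(31,1,6)] []))) (P 10 (K [(31,1,7),(31,8,1)] []))) (P 10 (K [(31,1,6),(31,8,2)] []))))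
  (A01 (P 10 (K [(31,1,6),(31,8,1),(38,10,1)] [])) (A12 (A13 (S 10 (L 31 8) (L 2 8)) (P 10 (K
  [(31,8,2),(31,1,6)] []))) (P 10 (K [(31,1,6),(31,8,1),(38,10,1)] []))))) (B12 (A13 (B01 (A12 (A01
  (P 16 (P 10 (K [(31,8,1),(31,1,3),(49,4,3)] []))) (S 10 (L 31 8) (L 2 8))) (P 16 (P 10 (K
  [(31,1,4),(31,8,2),(49,4,2)] [])))) (P 10 (K [(31,1,5),(31,8,3)] []))) (P 16 (P 10 (K
  [(31,1,4),(49,2,1),(49,4,3),(31,8,1)] [])))) (P 16 (S 10 (K [(31,1,4),(49,4,2),(31,8,2)] []) (L 2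
  8))))) (A12 (B12 (A13 (B01 (A01 (P 16 (P 10 (K [(31,1,4),(31,8,3),(49,4,1)] []))) (A12 (S 10 (L
  31 8) (L 2 8)) (P 16 (P 10 (K [(31,1,3),(31,8,4),(49,4,1)] []))))) (P 10 (K [(31,1,4),(31,8,4)]
  []))) (P 16 (P 10 (K [(31,1,4),(49,2,1),(31,8,1),(49,4,3)] [])))) (P 16 (S 10 (K
  [(31,1,4),(31,8,2),(49,4,2)] []) (L 2 8)))) (P 16 (P 10 (K [(31,1,4),(49,2,1),(49,4,3)] [])))))))
  (B01 (P 16 (A12 (A13 (B02 (A01 (P 9 (K [(29,7,3),(49,4,4),(49,2,1)] [])) (S 9 (L 29 7) (L 1 7)))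
  (M 18 (K [(38,4,3),(49,4,4),(49,2,1)] []))) (P 9 (K [(29,7,3),(49,4,4),(49,2,1)] []))) (P 9 (K
  [(29,7,4),(49,4,4),(49,2,1)] [])))) (P 9 (A12 (A13 (B12 (A01 (B01 (A02 (S 10 (L 31 8) (L 2 8)) (S
  10 (K [(31,8,5),(31,1,2)] []) (L 2 8))) (S 10 (L 31 8) (L 2 8))) (B01 (P 16 (S 10 (K
  [(31,8,5),(31,1,2)] []) (L 50 8))) (S 10 (L 31 8) (L 2 8)))) (P 16 (S 10 (K
  [(31,8,5),(29,7,2),(31,1,1)] []) (L 50 8)))) (B12 (A03 (B01 (A02 (S 10 (L 31 8) (L 2 8)) (M 19 (P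
  16 (K [(20,5,4),(20,10,2),(49,4,1)] [])))) (P 10 (L 31 8))) (P 16 (P 10 (K
  [(31,8,1),(31,1,3),(49,4,3),(49,2,1)] [])))) (P 16 (S 10 (K [(31,8,1),(49,4,3),(31,1,4)] []) (L 2
  8))))) (A02 (B12 (A03 (B01 (A01 (A02 (S 10 (L 31 8) (L 2 8)) (P 16 (P 10 (K
  [(31,1,3),(31,8,4),(49,4,1)] [])))) (P 16 (P 10 (K [(31,1,3),(31,8,4),(49,4,1)] [])))) (P 10 (K
  [(31,1,3),(31,8,5)] []))) (P 16 (P 10 (K [(31,1,4),(49,2,1),(31,8,1),(49,4,3)] [])))) (P 16 (S 10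
  (K [(31,1,4),(31,8,2),(49,4,3)] []) (L 2 8)))) (P 16 (P 10 (K [(31,1,4),(49,2,1),(49,4,3)]
  [])))))))) (A01 (M 19 (P 10 (A02 (S 13 (L 40 11) (K [(20,5,15),(31,1,30),(13,7,16),(13,11,2)]
  [])) (A12 (S 13 (L 40 11) (K [(31,1,30),(31,8,15),(13,7,16),(13,11,2)] [])) (P 16 (K
  [(31,1,5),(49,4,3)] [])))))) (A12 (A13 (S 10 (L 31 8) (L 2 8)) (P 10 (S 13 (L 40 11) (K
  [(31,8,18),(13,7,18),(31,1,25),(13,11,4)] [])))) (P 10 (A02 (S 13 (L 40 11) (K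
  [(31,8,15),(31,1,29),(13,7,18),(13,11,2)] [])) (P 16 (K [(31,1,5),(49,4,3)] []))))))) (P 16 (B02
  (A13 (B01 (A12 (A01 (B02 (A03 (M 18 (K [(38,4,4),(49,4,4)] [])) (S 9 (L 29 7) (L 1 7))) (M 18 (P
  10 (K [(49,4,4),(38,4,2),(31,1,2)] [])))) (S 9 (L 29 7) (L 1 7))) (A23 (M 18 (K
  [(38,4,4),(49,4,4)] [])) (B02 (A03 (M 18 (K [(38,4,4),(49,4,4)] [])) (S 9 (L 29 7) (L 1 7))) (P
  10 (K [(49,4,4),(31,1,4)] []))))) (A12 (S 10 (K [(31,8,38),(49,4,69),(31,1,73),(49,2,21)] []) (L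
  50 8)) (P 10 (A23 (K [(31,1,4),(49,4,3),(49,2,1)] []) (B12 (A03 (K
  [(31,1,9),(49,4,8),(31,8,3),(49,2,3)] []) (K [(31,1,25),(49,4,18),(31,8,15),(49,2,6)] [])) (K
  [(49,4,3),(31,1,4),(31,8,1)] [])))))) (P 10 (B01 (K [(49,4,4),(31,1,4)] []) (A23 (A12 (B12 (A01
  (K [(31,1,10),(49,4,11),(49,2,4)] []) (K [(49,4,7),(31,1,10),(31,8,5),(49,2,1)] [])) (K
  [(49,4,4),(31,1,4)] [])) (K [(31,1,4),(49,4,3),(49,2,1)] [])) (K [(49,4,5),(31,1,3)] []))))) (A13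
  (A12 (S 10 (K [(31,8,20),(49,4,17),(31,1,22),(49,2,5)] []) (L 2 8)) (P 10 (A23 (K
  [(31,1,5),(49,4,3)] []) (B12 (B01 (K [(49,4,2),(31,8,2),(31,1,4)] []) (A03 (K
  [(31,1,9),(31,8,6),(49,4,6),(49,2,2)] []) (K [(31,8,6),(49,4,6),(31,1,9),(49,2,2)] []))) (K
  [(49,4,2),(31,8,3),(31,1,4)] []))))) (P 10 (A23 (A12 (B12 (B01 (K [(49,4,4),(31,1,4)] []) (A01 (K
  [(31,1,11),(49,4,11),(49,2,2)] []) (K [(49,4,7),(31,1,10),(31,8,5),(49,2,1)] []))) (K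
  [(49,4,4),(31,1,4)] [])) (K [(31,1,13),(49,4,9),(49,2,2)] [])) (K [(49,4,5),(31,1,3)] [])))))))
  (P 16 (M 13 (A12 (B02 (A13 (B01 (S 9 (L 29 7) (L 1 7)) (M 18 (S 10 (K
  [(31,1,99),(31,8,93),(49,4,8)] []) (K [(2,8,4),(38,4,4)] [])))) (P 10 (B01 (S 9 (L 29 7) (L 1 7))
  (A03 (A01 (L 31 1) (K [(31,1,11),(49,4,6),(31,8,7)] [])) (K [(49,4,8),(31,1,11),(31,8,5)] [])))))
  (A13 (S 10 (K [(31,1,31),(31,8,32)] []) (L 2 8)) (P 10 (A03 (K [(31,1,99),(49,4,6),(31,8,95)] [])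
  (K [(13,7,8),(31,1,11),(31,8,5)] []))))) (P 10 (K [(31,1,5),(49,4,3)] [])))))))) (M 18 (A02 (A03
  (B12 (A01 (P 10 (B01 (A02 (A03 (S 13 (L 40 11) (L 13 11)) (S 13 (L 40 11) (K
  [(13,11,5),(31,8,2),(13,7,1)] []))) (S 13 (L 40 11) (K [(13,11,4),(31,1,2),(31,8,2)] []))) (S 12
  (L 38 6) (L 7 6)))) (B01 (A12 (A13 (S 10 (L 31 8) (L 2 8)) (P 10 (S 13 (L 40 11) (K
  [(13,11,5),(31,8,2),(13,7,1)] [])))) (P 10 (S 13 (L 40 11) (K [(13,11,4),(31,1,2),(31,8,2)]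
  [])))) (P 10 (A12 (L 31 8) (K [(31,8,4),(31,1,4)] []))))) (A01 (P 10 (A02 (A03 (K
  [(31,8,10),(31,1,14)] []) (B02 (S 13 (L 40 11) (K [(13,11,5),(31,8,20),(31,1,28),(13,7,12)] []))
  (K [(31,8,4),(31,1,4)] []))) (A12 (B02 (B01 (S 13 (L 40 11) (K
  [(13,11,12),(31,1,90),(31,8,54),(13,7,44)] [])) (K [(31,8,4),(31,1,4)] [])) (K
  [(31,8,4),(31,1,4)] [])) (P 16 (K [(31,1,120),(31,8,30),(49,2,11),(49,4,39)] []))))) (A12 (A13 (S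
  10 (L 31 8) (L 2 8)) (M 19 (P 10 (S 13 (L 40 11) (K [(20,5,26),(13,7,15),(31,1,17),(13,11,6)]
  []))))) (M 19 (P 10 (A02 (B02 (S 13 (L 40 11) (K [(20,5,66),(13,11,21),(31,1,78),(13,7,35)] []))
  (K [(31,8,5),(31,1,3)] [])) (P 16 (M 13 (B02 (B01 (K [(31,1,33),(13,11,5),(31,8,13),(49,4,14)]
  []) (K [(31,1,4),(31,8,4)] [])) (K [(31,1,13),(31,8,9),(49,4,2)] [])))))))))) (B12 (A13 (B01 (A12
  (A01 (P 16 (P 10 (K [(49,2,3),(31,8,3),(49,4,2)] []))) (S 10 (L 31 8) (L 2 8))) (P 16 (P 10 (A23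
  (K [(49,2,3),(31,1,2),(31,8,2)] []) (K [(49,2,3),(31,8,4),(31,1,1)] []))))) (P 10 (A12 (L 31 8)
  (P 16 (K [(49,2,1),(31,8,12),(31,1,11)] []))))) (M 19 (P 16 (M 13 (P 10 (B01 (A23 (A12 (B02 (A01
  (B01 (A03 (K [(49,2,12),(31,1,22),(31,8,15),(49,4,14)] []) (A13 (B02 (K
  [(49,2,28),(31,1,75),(31,8,45),(49,4,52)] []) (K [(49,2,1),(31,1,3),(31,8,3),(49,4,1)] [])) (L 31
  1))) (K [(49,2,1),(31,1,3),(31,8,4)] [])) (B01 (A13 (A12 (K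
  [(20,5,16),(49,4,17),(49,2,9),(31,1,22)] []) (B02 (K
  [(49,2,116),(31,1,390),(31,8,240),(49,4,254)] []) (K [(31,8,5),(31,1,3)] []))) (A03 (B02 (K
  [(31,1,390),(49,2,116),(31,8,240),(49,4,254)] []) (K [(31,8,4),(31,1,3)] [])) (K
  [(31,1,5),(31,8,3)] []))) (K [(49,2,1),(31,8,4),(31,1,3)] []))) (K [(31,8,5),(31,1,3)] [])) (K
  [(31,1,3),(49,2,3),(31,8,2)] [])) (A03 (B02 (A01 (B01 (A02 (K
  [(49,4,9),(31,8,3),(49,2,4),(31,1,8)] []) (A12 (K [(49,4,355),(31,8,143),(49,2,163),(31,1,339)]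
  []) (K [(31,1,10),(49,4,8),(49,2,3),(31,8,3)] []))) (A02 (K [(49,2,4),(31,8,5),(13,7,7),(31,1,8)]
  []) (A12 (K [(49,2,4),(31,8,8),(49,4,5),(31,1,7)] []) (K [(13,11,4),(31,1,9),(31,8,5),(49,4,7)]
  [])))) (B01 (A12 (A13 (B02 (A01 (B01 (K [(49,4,24),(31,8,9),(49,2,9),(31,1,22)] []) (K
  [(20,5,42),(49,4,62),(49,2,33),(31,1,63)] [])) (B01 (K [(49,4,21),(31,8,12),(49,2,9),(31,1,21)]
  []) (K [(31,8,14),(49,4,20),(49,2,11),(31,1,20)] []))) (L 31 8)) (B02 (A03 (B01 (K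
  [(49,4,24),(31,8,8),(49,2,9),(31,1,22)] []) (K [(49,4,62),(20,5,42),(49,2,33),(31,1,63)] []))
  (B01 (K [(49,4,13),(31,1,11)] []) (K [(49,4,322),(31,8,198),(49,2,174),(31,1,306)] []))) (L 31
  8))) (A02 (B02 (A03 (B01 (K [(49,4,66),(31,8,36),(31,1,71),(49,2,27)] []) (K
  [(20,5,14),(49,2,10),(49,4,19),(31,1,22)] [])) (B01 (K [(49,4,4),(31,1,3),(49,2,1)] []) (K
  [(49,4,314),(31,8,183),(49,2,168),(31,1,335)] []))) (K [(49,4,17),(20,5,18),(49,2,9),(31,1,21)]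
  [])) (B02 (A23 (L 31 1) (B01 (K [(49,4,3),(31,1,5)] []) (K
  [(49,4,315),(31,1,338),(49,2,169),(31,8,178)] []))) (A23 (K [(31,1,5),(31,8,3)] []) (K
  [(49,4,290),(31,8,205),(31,1,356),(49,2,149)] []))))) (A12 (L 31 8) (A02 (K [(49,2,2),(31,8,6)]
  []) (K [(49,2,32),(31,1,70),(31,8,49),(49,4,49)] []))))) (K [(31,8,5),(31,1,3)] [])) (B02 (A13
  (B01 (A12 (A01 (B02 (A03 (B01 (K [(49,4,13),(31,1,11)] []) (A02 (L 49 4) (A23 (K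
  [(49,4,63),(31,8,40),(49,2,34),(31,1,62)] []) (L 49 4)))) (B01 (K [(49,4,13),(31,1,11)] []) (A23
  (A02 (L 49 4) (K [(49,4,64),(31,8,40),(49,2,35),(31,1,61)] [])) (L 49 4)))) (L 31 8)) (B02 (A13
  (B01 (K [(49,4,22),(31,8,12),(49,2,8),(31,1,22)] []) (A12 (L 31 8) (A23 (K
  [(20,5,42),(49,4,62),(49,2,33),(31,1,63)] []) (L 31 8)))) (B01 (K [(49,4,13),(31,1,11)] []) (A23
  (A12 (L 49 4) (K [(13,7,64),(31,8,40),(49,2,35),(31,1,61)] [])) (L 49 4)))) (L 31 8))) (A23 (B02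
  (A02 (B01 (K [(49,4,3),(31,1,5)] []) (A01 (K [(49,4,4),(31,1,3),(49,2,2)] []) (A12 (B12 (K
  [(31,1,350),(49,4,304),(49,2,172),(31,8,173)] []) (K [(49,4,7),(31,1,11),(31,8,6)] [])) (K
  [(31,1,8),(49,4,10),(49,2,5)] [])))) (L 31 1)) (A02 (A01 (K [(49,4,12),(31,1,8),(49,2,5)] [])
  (A12 (B12 (B01 (K [(49,4,2),(31,8,3),(31,1,3)] []) (K [(31,8,41),(49,4,56),(31,1,71),(49,2,32)]
  [])) (K [(49,4,1),(31,8,3),(31,1,3)] [])) (K [(49,4,8),(31,1,8),(31,8,4),(49,2,4)] []))) (K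
  [(31,1,5),(31,8,3)] []))) (B02 (A03 (B01 (K [(49,4,10),(31,1,14)] []) (A01 (K
  [(49,4,4),(31,1,2),(49,2,2)] []) (A13 (B12 (A12 (B01 (A01 (K [(49,4,4),(31,1,3),(49,2,2)] [])
  (A13 (K [(31,1,21),(49,4,20),(49,2,11),(31,8,12)] []) (K [(49,4,4),(31,1,2),(49,2,2)] []))) (A01
  (K [(49,4,21),(31,8,11),(49,2,12),(31,1,20)] []) (A13 (K [(49,2,4),(31,8,5),(31,1,8),(49,4,7)]
  []) (K [(49,4,21),(31,8,11),(49,2,12),(31,1,20)] [])))) (K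
  [(49,4,67),(31,8,31),(31,1,63),(49,2,38)] [])) (K [(49,4,7),(31,8,6),(31,1,11)] [])) (K
  [(49,4,4),(31,1,2),(49,2,2)] [])))) (B01 (K [(49,4,4),(31,1,4)] []) (A13 (A01 (K
  [(49,4,4),(31,1,2),(49,2,2)] []) (B12 (A12 (B01 (A13 (A01 (K [(49,4,4),(31,1,2),(49,2,2)] []) (K
  [(49,4,307),(31,8,196),(31,1,328),(49,2,170)] [])) (K [(49,4,4),(31,1,2),(49,2,2)] [])) (A13 (A01
  (K [(13,7,67),(31,8,34),(49,2,38),(31,1,61)] []) (K [(49,2,34),(31,8,40),(31,1,66),(49,4,61)]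
  [])) (K [(49,4,68),(31,8,33),(13,11,39),(31,1,60)] []))) (K
  [(49,4,68),(31,8,33),(31,1,60),(49,2,39)] [])) (K [(49,4,7),(31,8,6),(31,1,11)] []))) (K
  [(49,4,4),(31,1,2),(49,2,2)] [])))) (A03 (A01 (K [(49,4,12),(31,1,8),(49,2,5)] []) (A13 (B12 (B01
  (K [(49,4,2),(31,8,3),(31,1,3)] []) (A12 (K [(31,8,69),(13,7,41),(49,2,25),(31,1,65)] []) (K
  [(49,4,58),(31,8,45),(31,1,64),(49,2,33)] []))) (K [(49,4,3),(31,8,5)] [])) (K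
  [(49,4,4),(31,1,2),(49,2,2)] []))) (A13 (A01 (K [(49,4,12),(31,1,6),(49,2,5)] []) (B12 (B01 (K
  [(49,4,2),(31,8,3),(31,1,3)] []) (A12 (K [(31,8,129),(49,2,4),(31,1,67)] []) (K
  [(49,4,7),(31,8,5),(31,1,7),(49,2,4)] []))) (K [(49,4,3),(31,8,5)] []))) (K
  [(49,4,12),(31,1,6),(49,2,5)] [])))))) (A12 (L 31 8) (A23 (K
  [(49,2,32),(31,8,49),(31,1,70),(49,4,49)] []) (K [(31,8,15),(49,4,19),(49,2,13),(31,1,17)] []))))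
  (B01 (A23 (A12 (K [(49,4,4),(31,1,2),(49,2,2)] []) (K [(49,4,3),(31,1,3),(49,2,1)] [])) (L 49 4))
  (A23 (A12 (K [(49,4,25),(31,8,8),(49,2,15),(31,1,16)] []) (K
  [(31,1,9),(49,2,4),(31,8,4),(49,4,7)] [])) (K [(49,4,31),(20,5,3),(49,2,20),(31,1,10)] [])))) (K
  [(31,8,16),(31,1,8)] [])))) (A23 (K [(49,2,1),(31,8,12),(31,1,11)] []) (K
  [(49,2,2),(31,8,5),(31,1,1)] [])))))))) (P 16 (M 13 (A13 (A12 (S 10 (K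
  [(31,8,26),(49,4,15),(31,1,17),(49,2,6)] []) (L 2 8)) (P 10 (A23 (B02 (B01 (K
  [(31,1,33),(49,2,5),(31,8,13),(49,4,14)] []) (K [(31,1,4),(31,8,4)] [])) (K
  [(31,1,13),(31,8,9),(49,4,2)] [])) (B02 (B01 (A03 (K [(31,8,64),(31,1,73),(49,4,41),(49,2,21)]
  []) (K [(31,8,66),(31,1,73),(13,7,40),(49,2,21)] [])) (K [(31,8,5),(31,1,3)] [])) (K
  [(31,8,4),(49,4,1),(31,1,3)] []))))) (M 19 (P 10 (A23 (A12 (B02 (B01 (A01 (A03 (A02 (K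
  [(49,4,7),(31,8,5),(31,1,9),(49,2,2)] []) (B02 (B01 (K [(31,1,78),(49,2,21),(31,8,50),(49,4,51)]
  []) (K [(20,10,3),(31,8,3),(49,4,1)] [])) (K [(31,1,3),(49,4,1),(31,8,3)] []))) (A13 (B02 (B01 (K
  [(31,1,78),(49,4,51),(31,8,50),(49,2,21)] []) (K [(31,1,3),(31,8,3),(49,4,1)] [])) (K
  [(49,4,1),(31,8,3),(31,1,3)] [])) (L 31 1))) (A13 (K [(31,8,21),(49,4,14),(31,1,25),(49,2,4)] [])
  (A03 (K [(49,4,15),(31,8,20),(31,1,27),(49,2,1)] []) (K [(31,1,4),(49,4,2),(31,8,2)] [])))) (K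
  [(31,8,5),(31,1,3)] [])) (K [(49,4,1),(31,8,4),(31,1,3)] [])) (K
  [(31,1,104),(31,8,44),(49,4,36),(49,2,15)] [])) (A03 (B02 (B01 (K [(49,4,35),(31,8,4),(31,1,25)]
  []) (K [(13,7,2),(31,8,3),(31,1,3)] [])) (K [(49,4,2),(31,8,3),(31,1,3)] [])) (K
  [(49,4,14),(31,8,1),(31,1,8)] [])))))))))) (A12 (B12 (A13 (B01 (A01 (P 10 (K
  [(31,1,98),(31,8,102)] [])) (A12 (S 10 (L 31 8) (L 2 8)) (P 10 (K [(31,8,5),(31,1,3)] [])))) (P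
  10 (K [(31,8,4),(31,1,4)] []))) (M 19 (P 16 (M 13 (P 10 (B01 (A03 (A01 (L 31 1) (B02 (A12 (B01 (K
  [(31,1,466),(49,2,33),(31,8,428),(49,4,72)] []) (K [(31,1,4),(31,8,4)] [])) (L 31 1)) (K
  [(31,1,3),(31,8,4)] []))) (A23 (B02 (A12 (B01 (K [(31,1,466),(31,8,428),(49,2,33),(49,4,72)] [])
  (K [(31,8,4),(31,1,4)] [])) (L 31 1)) (K [(31,8,4),(31,1,3)] [])) (B02 (A13 (B01 (A01 (A03 (K
  [(31,1,16),(31,8,8)] []) (B02 (A23 (B01 (K [(31,1,6),(49,4,2)] []) (A12 (A13 (K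
  [(31,1,41),(31,8,23)] []) (B12 (A03 (B01 (K [(31,1,6),(49,4,2)] []) (A02 (A01 (K
  [(31,1,10),(49,4,9),(49,2,5)] []) (B12 (A13 (B01 (A12 (A01 (K [(31,1,6),(49,4,2)] []) (B02 (A13
  (B01 (K [(31,1,5),(49,4,1),(31,8,2)] []) (A12 (A01 (K [(31,1,10),(49,2,5),(49,4,9)] []) (B12 (K
  [(49,2,36),(31,1,65),(31,8,39),(49,4,60)] []) (K [(31,1,4),(49,4,1),(31,8,2)] []))) (K
  [(31,1,8),(49,2,6),(49,4,10)] []))) (K [(31,1,7),(49,4,11),(49,2,6)] [])) (A13 (A12 (K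
  [(31,1,317),(31,8,194),(13,7,306),(49,2,183)] []) (K [(31,1,64),(49,2,37),(49,4,62),(31,8,38)]
  [])) (K [(31,1,63),(13,7,62),(31,8,37),(49,2,37)] [])))) (K [(31,1,5),(49,4,3)] [])) (A12 (A01 (K
  [(31,1,21),(49,2,12),(31,8,12),(49,4,20)] []) (B12 (K [(49,2,14),(31,1,19),(31,8,11),(49,4,20)]
  []) (A13 (K [(13,11,37),(31,1,62),(31,8,49),(49,4,52)] []) (K
  [(31,1,315),(31,8,195),(49,2,186),(49,4,303)] [])))) (K [(31,1,21),(49,2,12),(31,8,12),(49,4,20)]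
  []))) (K [(31,1,63),(49,4,63),(49,2,38),(31,8,36)] [])) (K [(49,4,10),(20,10,10),(31,8,5)] [])))
  (A23 (K [(31,1,5),(31,8,3)] []) (B12 (A13 (B01 (A01 (K [(31,1,5),(49,4,3)] []) (A12 (B02 (A13
  (B01 (K [(31,1,5),(49,4,1),(31,8,2)] []) (A01 (K [(31,1,8),(49,2,6),(49,4,10)] []) (A12 (B12 (K
  [(31,1,65),(49,2,36),(31,8,39),(49,4,60)] []) (K [(31,1,4),(49,4,1),(31,8,2)] [])) (K
  [(31,1,9),(49,2,6),(49,4,10)] [])))) (K [(31,1,20),(49,4,28),(49,2,16)] [])) (A13 (K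
  [(31,1,319),(49,2,182),(31,8,194),(49,4,305)] []) (K
  [(31,1,317),(49,4,309),(31,8,187),(49,2,186)] []))) (K [(31,1,5),(49,4,3)] []))) (A01 (K
  [(31,1,21),(49,2,12),(31,8,12),(49,4,20)] []) (A12 (B12 (K [(49,2,5),(20,10,7),(31,8,4),(49,4,7)]
  []) (A13 (K [(31,1,7),(49,2,4),(31,8,13)] []) (K [(31,1,316),(49,2,186),(31,8,195),(49,4,303)]
  []))) (K [(31,1,21),(49,2,12),(31,8,12),(49,4,20)] [])))) (K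
  [(31,1,21),(49,2,12),(49,4,20),(31,8,12)] [])) (K [(31,1,10),(49,4,10),(31,8,5)] []))))) (B01 (K
  [(49,4,2),(31,1,6)] []) (A23 (A02 (B12 (A01 (K [(31,1,21),(49,4,20),(49,2,12),(31,8,12)] []) (B01
  (A13 (A12 (B02 (A01 (K [(20,10,8),(49,4,10),(49,2,6)] []) (B01 (K [(31,1,5),(13,7,1),(31,8,2)]
  []) (A13 (A12 (B12 (K [(31,1,65),(49,2,36),(31,8,39),(49,4,60)] []) (K
  [(31,1,4),(13,7,1),(31,8,2)] [])) (K [(31,1,10),(49,2,5),(49,4,9)] [])) (K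
  [(31,1,10),(49,2,5),(49,4,9)] [])))) (A01 (K [(31,1,317),(49,4,309),(31,8,187),(49,2,186)] []) (K
  [(31,1,319),(31,8,194),(49,4,304),(49,2,182)] []))) (K [(31,1,5),(49,4,3)] [])) (K
  [(31,1,5),(49,4,3)] [])) (A13 (A12 (B12 (K [(49,2,5),(31,1,7),(31,8,4),(49,4,7)] []) (A01 (K
  [(31,1,316),(31,8,195),(49,2,186),(49,4,303)] []) (K [(31,1,6),(31,8,14),(49,2,5)] []))) (K
  [(31,1,66),(49,2,37),(31,8,37),(49,4,60)] [])) (K [(31,1,66),(49,2,37),(31,8,37),(49,4,60)]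
  [])))) (K [(31,1,3),(49,4,4),(31,8,1)] [])) (K [(31,1,5),(31,8,3)] [])) (A13 (B12 (A01 (B01 (K
  [(49,4,4),(31,1,4)] []) (A02 (K [(49,4,8),(31,1,7),(31,8,4),(49,2,5)] []) (A12 (K
  [(49,4,314),(31,1,306),(31,8,184),(49,2,196)] []) (K
  [(31,1,322),(49,4,289),(31,8,221),(49,2,167)] [])))) (B01 (A12 (A13 (B02 (A01 (B01 (K
  [(49,4,4),(31,1,4)] []) (A02 (K [(49,4,31),(31,1,15),(49,2,18)] []) (A12 (B12 (A13 (K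
  [(31,1,314),(49,4,311),(49,2,188),(31,8,188)] []) (B01 (K [(31,1,4),(49,4,4)] []) (A03 (K
  [(31,1,314),(13,7,311),(49,2,188),(31,8,188)] []) (A23 (B12 (A12 (K
  [(31,1,312),(49,2,189),(49,4,311),(31,8,187)] []) (L 31 1)) (K [(31,1,4),(49,4,4)] [])) (B12 (A13
  (B01 (K [(49,4,312),(31,1,311),(31,8,187),(49,2,189)] []) (A01 (A03 (K
  [(31,1,313),(49,2,189),(49,4,310),(31,8,188)] []) (B12 (K [(49,2,5),(31,8,1),(49,4,3)] []) (A23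
  (K [(49,4,309),(31,8,190),(31,1,311),(49,2,189)] []) (L 49 4)))) (K
  [(49,4,308),(31,8,192),(49,2,189),(31,1,310)] []))) (B01 (A03 (K
  [(49,4,312),(31,1,311),(31,8,187),(49,2,189)] []) (A23 (B02 (A12 (L 49 4) (B01 (K
  [(49,4,4),(31,1,4)] []) (A02 (K [(49,4,4),(31,1,2),(49,2,2)] []) (loc 0)))) (A12 (L 49 4) (A02 (K
  [(49,4,4),(31,1,2),(49,2,2)] []) (loc 0)))) (L 49 4))) (A03 (A01 (K
  [(31,1,312),(49,4,311),(31,8,188),(49,2,189)] []) (B12 (K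
  [(31,8,38),(49,2,38),(49,4,62),(31,1,62)] []) (A12 (L 49 4) (A23 (K
  [(49,4,310),(31,8,190),(31,1,311),(49,2,189)] []) (K
  [(49,4,312),(31,8,187),(31,1,310),(49,2,190)] []))))) (A23 (B12 (K
  [(31,8,38),(13,11,38),(49,4,62),(31,1,62)] []) (A12 (L 49 4) (K
  [(49,4,310),(31,8,190),(31,1,311),(49,2,189)] []))) (L 31 8))))) (K [(49,4,4),(31,1,4)] []))))))
  (K [(49,4,4),(31,1,4)] [])) (B12 (A23 (L 31 1) (B01 (K [(31,1,4),(49,4,4)] []) (A03 (L 31 1) (A13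
  (L 31 1) (B12 (A23 (K [(20,10,5),(31,8,3)] []) (B01 (A03 (K [(31,1,5),(49,4,3)] []) (A13 (B02
  (A12 (B01 (K [(49,4,4),(31,1,4)] []) (A01 (A02 (K [(49,4,4),(31,1,2),(49,2,2)] []) (loc 0)) (loc
  0))) (B01 (K [(49,4,4),(31,1,4)] []) (A02 (A01 (L 49 4) (loc 0)) (A23 (K
  [(31,1,27),(49,4,13),(31,8,23)] []) (loc 0))))) (A12 (A01 (K
  [(49,4,310),(31,8,191),(31,1,311),(49,2,189)] []) (loc 0)) (K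
  [(49,4,310),(31,8,191),(31,1,311),(49,2,189)] []))) (K [(49,4,2),(31,8,3),(31,1,3)] []))) (A03 (K
  [(31,1,311),(49,2,189),(31,8,189),(49,4,310)] []) (A13 (K
  [(31,8,190),(49,2,189),(49,4,310),(31,1,311)] []) (K [(31,8,30),(49,4,13),(31,1,20)] []))))) (K
  [(49,4,3),(31,1,4),(31,8,2)] [])))))) (K [(31,1,4),(49,4,4)] []))))) (B01 (K
  [(31,1,5),(13,7,2),(31,8,1)] []) (A12 (A13 (B12 (A01 (B01 (A02 (A03 (K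
  [(31,1,63),(49,4,62),(49,2,37),(31,8,37)] []) (K [(31,1,314),(49,4,310),(49,2,186),(31,8,190)]
  [])) (K [(31,1,315),(49,2,185),(31,8,192),(49,4,308)] [])) (A02 (A03 (K
  [(49,2,187),(20,10,314),(31,8,190),(49,4,310)] []) (B12 (L 49 2) (A13 (K
  [(49,2,37),(31,1,63),(31,8,38),(49,4,62)] []) (A23 (K [(49,2,37),(31,1,63),(31,8,38),(49,4,62)]
  []) (K [(31,8,191),(49,2,187),(49,4,309),(31,1,313)] []))))) (K [(49,2,1),(31,1,3),(31,8,4)]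
  []))) (K [(49,2,185),(31,1,316),(31,8,192),(49,4,307)] [])) (K [(31,1,13),(49,4,4),(31,8,7)] []))
  (B12 (A03 (B01 (A02 (A01 (K [(49,4,30),(31,1,23),(49,2,12)] []) (B02 (K
  [(49,4,315),(31,1,312),(31,8,184),(49,2,189)] []) (A13 (A12 (K
  [(49,4,311),(31,8,189),(31,1,312),(49,2,187)] []) (K
  [(31,1,313),(49,4,311),(31,8,189),(49,2,187)] [])) (K [(49,4,30),(31,1,21),(49,2,12)] [])))) (A23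
  (K [(31,1,315),(49,2,185),(31,8,192),(49,4,308)] []) (B02 (A13 (B01 (K
  [(31,1,17),(49,4,32),(49,2,15)] []) (A01 (K [(31,1,21),(49,2,16),(49,4,27)] []) (A12 (K
  [(31,1,312),(49,4,312),(31,8,188),(49,2,188)] []) (K [(31,1,22),(49,4,26),(49,2,15)] [])))) (K
  [(31,1,19),(49,4,28),(49,2,16)] [])) (A13 (A01 (K [(31,1,313),(49,4,311),(20,5,188),(49,2,187)]
  []) (A12 (K [(31,8,190),(13,7,311),(31,1,312),(49,2,187)] []) (B12 (K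
  [(31,1,313),(31,8,188),(49,4,311),(49,2,187)] []) (K [(49,4,1),(31,8,4),(31,1,3)] [])))) (K
  [(49,4,30),(31,1,23),(49,2,12)] []))))) (A02 (A01 (K
  [(49,2,188),(31,1,313),(49,4,311),(31,8,188)] []) (B12 (A13 (K [(49,2,5),(31,8,1),(49,4,2)] [])
  (K [(49,2,193),(20,5,186),(31,1,309),(49,4,312)] [])) (A13 (A12 (K
  [(31,8,39),(49,4,62),(49,2,38),(31,1,62)] []) (K [(31,8,189),(31,1,313),(49,2,187),(49,4,311)]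
  [])) (A23 (K [(31,1,313),(31,8,189),(49,4,311),(49,2,187)] []) (K
  [(49,4,63),(31,8,37),(31,1,62),(49,2,38)] []))))) (A23 (K [(49,2,1),(31,1,3),(31,8,4)] []) (B12
  (A13 (K [(49,2,5),(31,8,1),(49,4,2)] []) (B01 (A03 (K [(49,2,7),(31,8,1)] []) (A23 (K
  [(49,2,13),(20,10,5),(31,8,6)] []) (K [(49,2,190),(49,4,311),(31,8,188),(31,1,311)] []))) (K
  [(49,2,7),(31,1,1),(31,8,16)] []))) (A13 (A01 (K [(31,1,313),(49,2,187),(31,8,190),(49,4,310)]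
  []) (A12 (K [(31,8,5),(49,2,2)] []) (K [(31,8,190),(31,1,313),(49,2,187),(49,4,310)] []))) (A03
  (K [(31,1,313),(31,8,190),(49,2,187),(49,4,310)] []) (A23 (K
  [(31,1,313),(13,7,310),(31,8,190),(49,2,187)] []) (K
  [(49,4,313),(31,8,188),(31,1,311),(49,2,188)] [])))))))) (B01 (A23 (A02 (B02 (A01 (K
  [(49,4,27),(31,1,21),(49,2,16)] []) (B01 (K [(31,1,17),(49,4,32),(49,2,14)] []) (A13 (K
  [(31,1,313),(49,4,312),(31,8,188),(49,2,188)] []) (K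
  [(31,1,313),(49,4,312),(31,8,187),(49,2,188)] [])))) (A01 (K
  [(49,4,312),(31,1,313),(31,8,187),(49,2,187)] []) (A13 (A12 (K
  [(31,8,190),(13,7,311),(31,1,312),(49,2,187)] []) (B12 (B01 (K [(31,1,4),(49,4,2),(31,8,2)] [])
  (A02 (K [(31,8,189),(31,1,312),(13,7,311),(49,2,187)] []) (K [(31,1,5),(31,8,3)] []))) (K
  [(49,4,2),(31,8,3),(31,1,3)] []))) (A03 (B12 (B01 (K [(49,4,2),(31,1,3),(31,8,2)] []) (A02 (K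
  [(49,4,311),(31,8,189),(31,1,313),(49,2,187)] []) (K [(31,1,5),(31,8,3)] []))) (K
  [(49,4,2),(31,8,2),(31,1,3)] [])) (K [(31,1,5),(31,8,3)] []))))) (K
  [(31,1,315),(49,2,185),(31,8,192),(49,4,308)] [])) (A13 (B02 (A01 (B01 (K [(49,4,4),(31,1,4)] [])
  (A02 (L 49 4) (A12 (B12 (A13 (K [(13,7,28),(31,1,19),(49,2,16)] []) (B01 (K [(49,4,4),(31,1,4)]
  []) (A03 (K [(49,4,28),(20,10,19),(49,2,16)] []) (K [(49,4,311),(31,8,189),(31,1,311),(49,2,188)]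
  [])))) (L 49 4)) (B12 (A23 (K [(31,1,5),(31,8,3)] []) (B01 (K [(49,4,4),(31,1,4)] []) (A03 (K
  [(13,7,20),(31,1,20),(31,8,12),(49,2,12)] []) (K [(49,4,311),(31,8,189),(31,1,311),(49,2,188)]
  [])))) (K [(49,4,4),(31,1,4)] []))))) (B01 (K [(49,4,47),(31,1,17)] []) (A12 (K
  [(49,4,312),(31,8,189),(31,1,311),(49,2,188)] []) (A02 (B12 (K
  [(49,4,311),(31,8,189),(31,1,311),(49,2,188)] []) (K [(49,4,2),(31,8,2),(31,1,4)] [])) (B12 (A23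
  (K [(31,1,5),(31,8,3)] []) (B01 (K [(49,4,5),(31,1,10),(31,8,9)] []) (K
  [(49,4,311),(31,8,189),(31,1,311),(49,2,188)] []))) (K [(49,4,2),(31,1,4),(31,8,2)] [])))))) (A01
  (A02 (L 49 4) (A12 (K [(49,4,312),(31,8,189),(31,1,312),(49,2,188)] []) (B12 (B01 (K
  [(49,4,3),(31,8,2),(31,1,3)] []) (A23 (K [(31,1,5),(31,8,3)] []) (A03 (K
  [(13,7,20),(31,8,12),(31,1,20),(49,2,12)] []) (K [(49,4,311),(31,8,189),(31,1,311),(49,2,188)]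
  [])))) (K [(49,4,2),(31,8,3),(31,1,3)] [])))) (A12 (L 31 8) (A02 (B12 (B01 (K
  [(13,7,2),(31,8,3),(31,1,3)] []) (K [(13,7,311),(31,8,190),(31,1,312),(49,2,188)] [])) (L 49 4))
  (K [(31,8,602),(31,1,380),(49,2,18)] []))))) (B02 (A03 (B01 (K [(49,4,4),(31,1,4)] []) (A02 (L 49
  4) (A23 (B12 (A12 (B01 (L 49 4) (A01 (K [(13,7,20),(31,1,20),(31,8,12),(49,2,12)] []) (K
  [(49,4,2),(31,8,3),(31,1,3)] []))) (K [(31,1,19),(13,7,1),(31,8,4)] [])) (K [(49,4,4),(31,1,4)]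
  [])) (L 49 4)))) (K [(49,4,14),(31,8,24),(31,1,26)] [])) (A03 (A02 (L 49 4) (A23 (B12 (B01 (K
  [(49,4,3),(31,8,2),(31,1,3)] []) (A12 (A01 (K [(13,7,20),(31,8,12),(31,1,20),(49,2,12)] []) (K
  [(13,7,2),(31,8,3),(31,1,3)] [])) (K [(49,4,1),(31,1,5),(31,8,2)] []))) (K
  [(49,4,2),(31,8,2),(31,1,3)] [])) (L 49 4))) (K [(49,4,14),(31,8,24),(31,1,26)] []))))) (A23 (A02
  (B12 (A01 (B01 (A03 (A02 (K [(49,4,311),(49,2,188),(31,8,189),(31,1,312)] []) (K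
  [(49,2,189),(20,10,312),(31,8,189),(49,4,310)] [])) (A13 (K
  [(49,2,189),(31,8,189),(31,1,312),(49,4,310)] []) (K [(31,1,5),(31,8,3)] []))) (K
  [(49,2,3),(31,8,5),(49,4,1)] [])) (K [(49,2,6),(31,8,1),(49,4,1)] [])) (A01 (A03 (A02 (K
  [(49,4,63),(31,8,37),(31,1,62),(49,2,37)] []) (B02 (B01 (A12 (K
  [(49,4,311),(31,1,312),(31,8,189),(49,2,188)] []) (K [(31,1,4),(31,8,2),(49,4,1)] [])) (K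
  [(31,8,195),(31,1,314),(49,4,306),(49,2,185)] [])) (K [(49,4,1),(31,8,4),(31,1,3)] []))) (A13
  (B02 (B01 (A12 (K [(31,8,189),(49,4,311),(31,1,312),(49,2,188)] []) (K
  [(31,1,4),(31,8,2),(49,4,1)] [])) (K [(31,8,17),(31,1,7)] [])) (K [(31,8,4),(49,4,1),(31,1,3)]
  [])) (K [(31,1,4),(31,8,2),(49,4,1)] []))) (A13 (A12 (K [(31,8,5),(49,4,1),(49,2,3)] []) (K
  [(31,8,190),(31,1,313),(49,2,187),(49,4,310)] [])) (K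
  [(31,8,190),(31,1,313),(49,4,310),(49,2,187)] [])))) (K [(49,2,1),(31,1,3),(31,8,4)] [])) (A13
  (B12 (A01 (B01 (A02 (A03 (K [(49,4,312),(20,5,188),(49,2,189),(31,1,311)] []) (B02 (A13 (K
  [(20,5,188),(49,4,312),(49,2,189),(31,1,311)] []) (B01 (A23 (K
  [(49,4,312),(31,8,188),(49,2,189),(31,1,311)] []) (L 49 4)) (K
  [(31,8,38),(49,4,62),(49,2,38),(31,1,62)] []))) (L 31 8))) (A12 (B02 (A13 (B01 (A01 (A03 (K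
  [(49,2,189),(31,8,189),(49,4,311),(31,1,312)] []) (K [(31,8,1),(49,2,5),(49,4,3)] [])) (K
  [(31,8,1),(49,2,5),(49,4,3)] [])) (K [(49,2,1),(31,8,4),(31,1,3)] [])) (B01 (A03 (A01 (B02 (A02
  (B01 (A03 (K [(49,4,312),(49,2,188),(31,1,312),(31,8,188)] []) (K
  [(49,4,311),(31,8,189),(49,2,189),(31,1,311)] [])) (K
  [(49,2,189),(31,8,189),(49,4,311),(31,1,311)] [])) (K [(49,2,39),(31,8,7),(49,4,18)] [])) (A02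
  (A03 (K [(31,8,189),(49,2,188),(49,4,311),(31,1,312)] []) (K [(31,8,44),(49,2,2),(31,1,18)] []))
  (K [(31,8,4),(49,2,4)] []))) (K [(31,8,1),(49,4,3),(49,2,4)] [])) (K [(31,8,1),(49,4,3),(49,2,4)]
  [])) (K [(31,8,4),(49,2,1),(31,1,3)] []))) (L 31 8)) (B02 (A23 (K [(31,1,5),(31,8,3)] []) (B01
  (A03 (A02 (B02 (A01 (B01 (A03 (K [(31,1,312),(49,2,188),(49,4,311),(31,8,189)] []) (A13 (K
  [(49,2,188),(31,1,312),(49,4,311),(31,8,189)] []) (loc 0))) (A03 (A02 (B12 (L 49 2) (K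
  [(49,2,189),(31,1,312),(49,4,312),(31,8,187)] [])) (B12 (L 49 2) (K
  [(49,2,188),(31,1,312),(31,8,189),(49,4,311)] []))) (K
  [(49,2,189),(31,8,190),(49,4,310),(31,1,311)] []))) (B01 (A13 (K [(13,11,9),(20,10,8),(31,8,7)]
  []) (A03 (K [(49,2,188),(20,10,312),(31,8,189),(49,4,311)] []) (loc 0))) (K
  [(49,2,3),(31,8,4),(31,1,1)] []))) (A01 (A03 (A02 (K
  [(49,2,188),(31,8,189),(31,1,312),(49,4,311)] []) (B12 (B01 (K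
  [(49,2,188),(31,8,189),(31,1,312),(49,4,311)] []) (L 49 2)) (K [(31,8,4),(49,4,1),(31,1,3)] [])))
  (K [(31,8,44),(49,2,2),(31,1,18)] [])) (K [(31,8,4),(49,2,3),(31,1,1)] []))) (B02 (A12 (B01 (K
  [(49,2,188),(31,8,189),(31,1,311),(49,4,311)] []) (K [(49,2,2),(31,8,6)] [])) (loc 0)) (L 31 8)))
  (K [(31,8,2),(49,2,4),(49,4,2)] [])) (K [(49,2,1),(31,8,4),(31,1,3)] []))) (L 31 8)))) (L 31 8))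
  (K [(49,2,5),(31,8,3)] [])) (A01 (A02 (L 49 4) (A12 (B02 (B01 (A13 (A01 (A03 (K
  [(49,4,311),(31,8,189),(31,1,312),(49,2,188)] []) (K
  [(49,4,311),(31,8,189),(49,2,188),(31,1,311)] [])) (K
  [(49,4,311),(31,8,190),(49,2,188),(31,1,312)] [])) (A03 (A01 (B02 (B01 (A02 (A03 (K
  [(49,4,20),(31,1,20),(31,8,12),(49,2,12)] []) (K [(49,4,311),(31,8,189),(31,1,311),(49,2,188)]
  [])) (K [(49,4,311),(31,8,189),(31,1,311),(49,2,188)] [])) (K [(49,4,14),(31,8,24),(31,1,26)]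
  [])) (K [(49,4,3),(31,8,4),(31,1,1)] [])) (K [(49,4,311),(31,8,189),(49,2,188),(31,1,311)] []))
  (K [(49,4,311),(31,8,189),(49,2,188),(31,1,311)] []))) (L 31 8)) (L 31 8)) (B02 (B01 (A23 (K
  [(31,1,5),(31,8,3),(49,4,1)] []) (A03 (A02 (B02 (B01 (A01 (K
  [(49,4,312),(31,1,313),(31,8,189),(49,2,187)] []) (A13 (K
  [(31,1,312),(31,8,190),(49,4,310),(49,2,188)] []) (K
  [(49,4,311),(31,8,189),(31,1,312),(49,2,187)] []))) (K [(31,8,9),(49,4,5),(31,1,10)] [])) (K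
  [(49,4,3),(31,8,4),(31,1,1)] [])) (B02 (B01 (A12 (A13 (K
  [(31,8,190),(31,1,312),(13,7,310),(49,2,188)] []) (loc 0)) (loc 0)) (L 31 8)) (L 31 8))) (K
  [(31,8,189),(49,4,311),(49,2,188),(31,1,311)] []))) (L 31 8)) (L 31 8)))) (K
  [(31,8,14),(49,2,5),(31,1,4)] []))) (B12 (A03 (B01 (A02 (A01 (K
  [(49,4,312),(31,8,188),(49,2,189),(31,1,311)] []) (B02 (A13 (B01 (A12 (L 49 4) (A23 (K
  [(49,4,312),(31,8,188),(49,2,189),(31,1,311)] []) (L 49 4))) (A12 (L 31 8) (A23 (K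
  [(31,8,38),(49,4,62),(49,2,38),(31,1,62)] []) (L 31 8)))) (B01 (K
  [(49,4,471),(49,2,196),(31,1,333)] []) (A23 (A12 (L 31 8) (K
  [(49,4,312),(31,8,188),(49,2,189),(31,1,311)] [])) (L 49 4)))) (L 31 8))) (A23 (B02 (A12 (B01
  (A01 (A02 (B02 (A03 (B01 (A01 (K [(31,1,312),(49,4,311),(13,11,188),(31,8,189)] []) (loc 0)) (A01
  (A02 (K [(49,2,17),(31,1,19),(49,4,28)] []) (loc 0)) (loc 0))) (loc 0)) (A03 (A01 (A02 (B12 (B01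
  (K [(49,4,312),(49,2,189),(31,1,311),(31,8,188)] []) (K [(49,2,4),(49,4,4)] [])) (K
  [(49,4,310),(31,8,191),(31,1,313),(49,2,187)] [])) (loc 0)) (loc 0)) (loc 0))) (loc 0)) (loc 0))
  (K [(31,8,4),(49,2,1),(31,1,3)] [])) (B01 (A02 (A01 (B02 (A03 (K [(31,1,6),(31,8,1)] []) (loc 0))
  (A03 (A02 (A01 (B12 (K [(13,11,189),(31,1,312),(31,8,189),(49,4,311)] []) (K
  [(31,1,102),(31,8,83),(13,7,15)] [])) (loc 0)) (loc 0)) (loc 0))) (loc 0)) (loc 0)) (K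
  [(49,2,1),(31,8,4),(31,1,3)] []))) (L 31 8)) (B02 (A13 (B01 (K
  [(49,4,314),(31,8,187),(49,2,190),(31,1,309)] []) (K
  [(31,8,191),(49,4,309),(49,2,189),(31,1,310)] [])) (B01 (K
  [(49,4,314),(31,8,187),(49,2,190),(31,1,309)] []) (K
  [(49,4,311),(31,8,190),(49,2,189),(31,1,310)] []))) (L 31 8)))) (L 31 8)) (B01 (A23 (loc 0) (L 31
  8)) (L 31 8))) (A03 (A02 (L 49 4) (A23 (B02 (B01 (A12 (A01 (A02 (K [(49,4,8),(31,8,5),(31,1,10)]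
  []) (loc 0)) (loc 0)) (K [(31,1,13),(31,8,7),(49,4,4)] [])) (L 31 8)) (L 31 8)) (L 49 4))) (K
  [(49,4,14),(31,8,24),(31,1,26)] []))))))) (K [(49,4,3),(31,1,4),(31,8,2)] []))) (A02 (B12 (A03
  (B01 (K [(31,1,5),(49,4,3)] []) (A01 (K [(31,1,314),(49,2,188),(49,4,311),(31,8,188)] []) (A13 (L
  31 1) (K [(31,1,314),(49,2,188),(31,8,188),(49,4,311)] [])))) (B01 (K [(31,1,14),(49,4,10)] [])
  (A13 (A01 (B12 (A02 (B01 (A03 (A01 (K [(31,1,312),(49,2,188),(49,4,311),(31,8,189)] []) (K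
  [(31,1,5),(31,8,3)] [])) (K [(31,1,5),(31,8,3)] [])) (K
  [(49,2,189),(31,1,311),(31,8,192),(49,4,308)] [])) (L 31 1)) (K [(31,1,30),(31,8,15),(49,4,19)]
  [])) (L 31 1)) (A23 (B12 (A02 (B01 (A01 (A03 (K [(31,1,312),(49,4,311),(49,2,188),(31,8,189)] [])
  (K [(20,10,315),(49,2,187),(13,7,308),(31,8,190)] [])) (K [(31,1,5),(31,8,3)] [])) (K
  [(49,2,189),(31,1,312),(31,8,190),(49,4,309)] [])) (L 31 1)) (K [(31,1,11),(49,4,7),(31,8,6)]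
  [])) (B12 (A03 (B01 (A01 (A02 (K [(49,4,312),(31,8,188),(49,2,189),(31,1,311)] []) (B02 (A23 (B01
  (K [(31,1,6),(13,7,2)] []) (K [(31,1,312),(49,2,189),(49,4,311),(31,8,189)] [])) (K
  [(13,7,312),(31,8,188),(31,1,311),(49,2,189)] [])) (A23 (K
  [(49,4,311),(31,1,312),(31,8,189),(49,2,189)] []) (A13 (A12 (K
  [(49,4,311),(31,8,191),(49,2,189),(31,1,309)] []) (K [(49,4,5),(49,2,3)] [])) (K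
  [(49,4,5),(49,2,3)] []))))) (A13 (B02 (A12 (B01 (A01 (A02 (B02 (A03 (L 31 1) (loc 0)) (A03 (A01
  (A02 (B12 (K [(20,10,312),(49,2,189),(31,8,189),(49,4,311)] []) (K
  [(31,1,102),(31,8,83),(13,7,15)] [])) (loc 0)) (loc 0)) (loc 0))) (loc 0)) (loc 0)) (K
  [(49,2,1),(31,1,3),(31,8,4)] [])) (B01 (A02 (A01 (B02 (A03 (L 31 1) (loc 0)) (A03 (A02 (A01 (B12
  (B01 (K [(20,10,20),(49,2,12),(49,4,20),(31,8,12)] []) (K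
  [(31,1,311),(49,2,190),(31,8,188),(49,4,311)] [])) (K [(31,1,102),(49,4,15),(31,8,83)] [])) (loc
  0)) (loc 0)) (loc 0))) (loc 0)) (loc 0)) (K [(31,1,10),(49,2,3),(31,8,12)] []))) (K
  [(31,1,10),(31,8,14)] [])) (B02 (A23 (B01 (A02 (A03 (B02 (K [(31,1,15),(49,4,31),(49,2,18)] [])
  (A01 (A02 (K [(31,1,311),(49,4,312),(31,8,188),(49,2,189)] []) (loc 0)) (loc 0))) (loc 0)) (loc
  0)) (A02 (A03 (B12 (L 49 2) (A01 (A02 (K [(49,2,189),(31,1,311),(31,8,189),(49,4,311)] []) (loc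
  0)) (loc 0))) (loc 0)) (loc 0))) (B01 (K [(49,4,314),(31,8,187),(31,1,309),(49,2,190)] []) (K
  [(49,4,312),(31,8,189),(49,2,190),(31,1,310)] []))) (A23 (A02 (A03 (K
  [(31,8,191),(49,4,309),(49,2,188),(31,1,312)] []) (loc 0)) (loc 0)) (L 31 8))))) (A01 (A02 (K
  [(31,8,1),(49,2,3),(13,7,4)] []) (B12 (K [(49,2,5),(31,8,1),(49,4,2)] []) (A23 (K
  [(31,8,197),(49,2,189),(31,1,310),(49,4,304)] []) (K [(31,8,1),(49,4,4),(49,2,3)] [])))) (K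
  [(49,2,12),(31,8,37),(31,1,15)] []))) (B01 (A13 (loc 0) (A23 (loc 0) (K [(49,4,3),(31,8,5)] [])))
  (K [(31,8,37),(49,2,12),(31,1,15)] []))) (K [(49,4,7),(31,8,6),(31,1,11)] [])))))) (K
  [(31,1,4),(49,4,3),(31,8,1)] [])) (B12 (A23 (L 31 1) (B01 (K [(31,1,14),(49,4,10)] []) (A13 (L 31
  1) (A03 (L 31 1) (B12 (A23 (K [(31,1,5),(31,8,3)] []) (B01 (A13 (K [(31,1,28),(31,8,28),(49,4,8)]
  []) (A03 (B02 (A02 (loc 0) (B01 (K [(49,4,5),(31,1,10),(31,8,9)] []) (A12 (loc 0) (A23 (K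
  [(31,1,10),(13,7,3),(31,8,11)] []) (loc 0))))) (A02 (loc 0) (K [(31,8,5),(31,1,3)] []))) (K
  [(49,4,2),(31,8,4),(31,1,3)] []))) (K [(31,8,4),(49,2,1),(31,1,2)] []))) (K
  [(31,1,11),(49,4,7),(31,8,6)] [])))))) (K [(31,1,4),(49,4,2),(31,8,2)] [])))))) (A01 (A02 (K
  [(13,7,315),(31,8,186),(31,1,308),(49,2,191)] []) (A12 (B12 (B01 (K [(49,4,3),(31,1,3),(31,8,2)]
  []) (A13 (A01 (A03 (K [(31,1,6),(49,4,2)] []) (K [(31,1,314),(49,4,303),(31,8,199),(49,2,184)]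
  [])) (A12 (K [(13,7,20),(31,8,12),(31,1,20),(49,2,12)] []) (B12 (B01 (K
  [(31,1,4),(49,4,3),(31,8,2)] []) (K [(31,1,313),(49,2,185),(31,8,199),(49,4,303)] [])) (K
  [(31,1,3),(49,4,2),(31,8,3)] [])))) (A03 (K [(31,1,314),(49,4,306),(31,8,194),(49,2,185)] [])
  (A23 (K [(49,4,306),(31,8,194),(31,1,314),(49,2,185)] []) (K
  [(49,4,61),(31,8,39),(31,1,62),(49,2,37)] []))))) (K [(49,4,2),(31,8,3),(31,1,3)] [])) (B12 (B01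
  (K [(31,1,4),(49,4,3),(31,8,2)] []) (A23 (L 31 1) (A03 (K [(31,1,6),(49,4,2)] []) (K
  [(31,8,200),(31,1,314),(49,4,302),(49,2,184)] [])))) (K [(49,4,2),(31,1,3),(31,8,3)] [])))) (A12
  (K [(31,8,201),(49,4,303),(31,1,312),(49,2,183)] []) (A02 (B12 (B01 (K
  [(49,4,2),(31,8,2),(31,1,4)] []) (A03 (A01 (A02 (K [(31,8,195),(49,4,307),(31,1,313),(49,2,186)]
  []) (K [(31,1,315),(31,8,207),(13,7,298),(49,2,181)] [])) (K [(31,1,22),(31,8,41),(49,2,1)] []))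
  (K [(31,8,41),(31,1,22),(49,2,1)] []))) (K [(49,4,2),(31,8,4),(31,1,3)] [])) (K
  [(31,1,3),(31,8,5)] []))))) (B02 (A03 (B01 (K [(49,4,4),(31,1,4)] []) (A02 (K
  [(49,4,31),(31,1,15),(49,2,18)] []) (A23 (B12 (A12 (B01 (K [(31,1,4),(49,4,4)] []) (A01 (L 31 1)
  (A13 (B12 (A12 (B01 (K [(49,4,7),(31,1,10),(31,8,7)] []) (A01 (K
  [(13,7,310),(31,1,311),(31,8,190),(49,2,189)] []) (K
  [(49,4,308),(20,5,196),(49,2,185),(31,1,311)] []))) (K [(20,10,6),(31,8,1)] [])) (K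
  [(49,4,8),(31,1,10),(31,8,5)] [])) (K [(31,1,23),(49,4,1)] [])))) (L 31 1)) (K
  [(31,1,4),(49,4,4)] [])) (K [(49,4,316),(31,1,308),(31,8,184),(49,2,192)] [])))) (B01 (K
  [(49,4,4),(31,1,4)] []) (A23 (A02 (B12 (A01 (K [(49,4,4),(31,1,4)] []) (K
  [(49,4,311),(31,1,310),(31,8,191),(49,2,188)] [])) (L 49 4)) (B12 (A12 (B01 (K
  [(31,1,4),(49,4,4)] []) (A13 (A01 (K [(31,1,12),(49,4,2),(31,8,10)] []) (B12 (A12 (K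
  [(13,7,306),(31,8,198),(31,1,313),(49,2,183)] []) (K [(31,1,12),(49,4,2),(31,8,10)] [])) (K
  [(49,4,8),(31,8,5),(31,1,10)] []))) (K [(31,1,3),(13,7,1),(31,8,3)] []))) (L 31 1)) (K
  [(31,1,4),(49,4,4)] []))) (K [(49,4,2),(31,8,3),(31,1,3)] [])))) (A03 (A02 (K
  [(49,4,314),(31,8,187),(31,1,309),(49,2,191)] []) (A23 (B12 (B01 (K [(31,1,4),(49,4,3),(31,8,2)]
  []) (A12 (A01 (K [(31,1,6),(49,4,2)] []) (A13 (K [(49,4,306),(31,8,195),(31,1,312),(49,2,186)]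
  []) (K [(31,1,5),(31,8,3)] []))) (L 31 1))) (K [(49,4,2),(31,8,3),(31,1,3)] [])) (K
  [(13,7,314),(31,8,187),(31,1,309),(49,2,191)] []))) (A23 (A02 (K
  [(49,4,310),(31,8,192),(31,1,310),(49,2,187)] []) (K [(31,1,86),(31,8,111),(49,2,3)] [])) (K
  [(49,4,2),(31,8,3),(31,1,3)] []))))) (K [(31,1,14),(49,4,10)] [])) (A12 (A13 (B12 (K
  [(49,2,46),(31,8,36),(31,1,57),(49,4,61)] []) (A01 (A02 (K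
  [(49,4,310),(31,8,191),(31,1,310),(49,2,190)] []) (K [(31,8,99),(31,1,77),(49,2,24)] [])) (K
  [(31,8,14),(49,2,5),(31,1,4)] []))) (B12 (A03 (B01 (A02 (K
  [(31,8,187),(49,4,312),(49,2,193),(31,1,308)] []) (A23 (K [(49,2,13),(31,1,5),(31,8,6)] []) (K
  [(31,8,187),(49,2,193),(49,4,312),(31,1,308)] []))) (K [(49,2,3),(31,8,4),(49,4,1)] [])) (B01
  (A23 (A02 (B02 (A01 (K [(31,8,187),(49,4,312),(49,2,193),(31,1,308)] []) (B01 (K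
  [(31,8,193),(49,2,187),(49,4,309),(31,1,310)] []) (K [(31,8,5),(49,2,2),(31,1,2)] []))) (L 31 8))
  (K [(49,2,1),(31,8,4),(31,1,3)] [])) (K [(31,8,30),(49,4,13),(31,1,21)] [])) (K
  [(31,8,6),(49,2,2)] []))) (A03 (A02 (K [(49,4,311),(31,8,189),(31,1,309),(49,2,190)] []) (A23 (K
  [(31,8,32),(31,1,25),(49,2,7)] []) (K [(49,4,311),(31,8,189),(31,1,309),(49,2,190)] []))) (A23
  (A02 (K [(49,4,310),(31,8,192),(31,1,310),(49,2,187)] []) (K [(31,8,4),(31,1,3),(49,2,1)] [])) (K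
  [(49,4,2),(31,8,3),(31,1,3)] []))))) (A02 (B12 (A03 (B01 (K
  [(31,1,317),(49,2,186),(31,8,190),(49,4,306)] []) (K [(49,2,14),(31,1,12),(31,8,38)] [])) (B01
  (A13 (K [(31,1,317),(49,2,187),(31,8,191),(49,4,306)] []) (K
  [(49,4,61),(31,8,39),(31,1,62),(49,2,37)] [])) (K [(49,2,2),(31,8,5),(31,1,2)] []))) (K
  [(49,4,7),(31,8,6),(31,1,11)] [])) (K [(31,1,331),(49,2,152),(31,8,241),(49,4,276)] []))))) (K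
  [(49,4,5),(31,1,2),(31,8,1)] [])) (B12 (A03 (B01 (K [(49,4,4),(31,1,4)] []) (A02 (K
  [(49,4,8),(31,8,4),(31,1,7),(49,2,5)] []) (K [(49,4,285),(31,1,326),(31,8,230),(49,2,160)] [])))
  (K [(49,4,285),(31,8,230),(31,1,326),(49,2,160)] [])) (K [(49,4,4),(31,1,4)] [])))))) (K
  [(49,4,4),(31,1,4)] []))) (A02 (B12 (A03 (K [(31,1,3),(49,4,3),(49,2,2)] []) (B01 (K
  [(31,1,5),(49,4,3)] []) (A13 (K [(31,1,3),(49,2,2),(49,4,3)] []) (K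
  [(31,1,68),(49,4,57),(31,8,45),(49,2,31)] [])))) (K [(31,1,5),(49,4,3)] [])) (K
  [(31,1,28),(49,4,12),(31,8,24)] [])))) (B01 (K [(49,4,4),(31,1,4)] []) (A13 (A12 (B12 (A01 (B01
  (K [(49,4,13),(31,1,11)] []) (A03 (A02 (K [(49,4,28),(31,1,21),(49,2,15)] []) (B12 (A12 (K
  [(49,2,12),(31,1,20),(49,4,20),(31,8,12)] []) (B01 (A23 (A02 (K
  [(49,4,63),(31,1,64),(49,2,37),(31,8,36)] []) (B02 (K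
  [(49,4,313),(31,1,314),(49,2,186),(31,8,187)] []) (K
  [(49,4,305),(31,8,197),(31,1,316),(49,2,182)] []))) (K [(49,4,63),(31,8,37),(31,1,64),(49,2,37)]
  [])) (K [(49,2,188),(31,8,198),(49,4,302),(31,1,313)] []))) (K [(49,4,7),(31,8,5),(31,1,12)]
  []))) (A13 (B12 (A12 (K [(49,2,37),(49,4,63),(31,8,37),(31,1,63)] []) (B01 (A02 (K
  [(49,4,63),(31,8,37),(49,2,37),(31,1,63)] []) (A23 (B02 (K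
  [(49,4,313),(31,8,188),(49,2,186),(31,1,313)] []) (K [(31,8,40),(49,4,61),(49,2,36),(31,1,63)]
  [])) (K [(49,4,63),(31,8,37),(49,2,37),(31,1,63)] []))) (K [(31,8,15),(49,2,7),(49,4,2)] []))) (K
  [(49,4,22),(31,8,12),(31,1,24),(49,2,7)] [])) (B12 (A23 (B01 (A02 (L 49 4) (K
  [(49,4,316),(31,8,189),(49,2,188),(31,1,308)] [])) (L 31 8)) (L 49 4)) (L 49 4))))) (B01 (A13
  (A12 (K [(31,1,330),(49,4,305),(31,8,197),(49,2,168)] []) (K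
  [(49,4,315),(31,1,321),(31,8,188),(49,2,176)] [])) (K [(49,4,12),(31,1,7),(49,2,5)] [])) (A13
  (A12 (K [(49,2,33),(31,8,41),(31,1,66),(49,4,59)] []) (B12 (A02 (K [(49,2,4),(31,8,2),(31,1,2)]
  []) (K [(49,2,181),(31,8,195),(31,1,319),(49,4,305)] [])) (A02 (K
  [(31,8,196),(49,4,306),(31,1,330),(49,2,168)] []) (K [(31,8,39),(49,4,62),(31,1,64),(49,2,35)]
  [])))) (A03 (B12 (A02 (K [(49,2,12),(31,8,12),(49,4,20),(31,1,20)] []) (B01 (K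
  [(31,8,191),(49,4,311),(49,2,184),(31,1,315)] []) (K [(49,2,2),(31,8,5),(31,1,2)] []))) (A02 (K
  [(49,4,64),(31,8,37),(31,1,65),(49,2,34)] []) (K [(49,4,312),(31,8,191),(31,1,319),(49,2,178)]
  []))) (B12 (A23 (K [(20,5,189),(49,4,316),(49,2,188),(31,1,308)] []) (L 31 8)) (L 49 4)))))) (K
  [(49,4,7),(31,8,6),(31,1,11)] [])) (B12 (A02 (B01 (L 49 4) (A03 (A01 (K
  [(49,4,4),(20,10,2),(49,2,2)] []) (B12 (A12 (B01 (A13 (A01 (K [(49,4,11),(20,10,8),(49,2,4)] [])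
  (B02 (A12 (B01 (K [(49,4,63),(31,1,64),(31,8,37),(49,2,36)] []) (A13 (A01 (K
  [(49,4,64),(31,1,63),(49,2,38),(31,8,36)] []) (B12 (A12 (K
  [(49,2,12),(31,8,12),(31,1,20),(49,4,20)] []) (K [(49,2,12),(49,4,20),(31,1,20),(31,8,12)] []))
  (K [(49,4,62),(31,8,38),(31,1,64),(49,2,36)] []))) (K [(49,4,12),(31,1,4),(49,2,7)] []))) (K
  [(49,4,12),(31,1,4),(49,2,7)] [])) (A12 (K [(49,4,307),(31,8,195),(31,1,315),(49,2,183)] []) (K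
  [(49,4,33),(31,1,15),(49,2,16)] [])))) (K [(49,4,4),(31,1,2),(49,2,2)] [])) (A13 (A01 (K
  [(49,2,12),(49,4,20),(31,8,12),(31,1,20)] []) (K [(31,8,12),(49,2,13),(49,4,21),(31,1,18)] []))
  (K [(49,4,13),(49,2,7),(31,1,4)] []))) (K [(49,4,13),(31,1,4),(49,2,7)] [])) (L 49 4))) (A23 (B12
  (A12 (B01 (A01 (L 49 4) (A13 (B02 (A12 (B01 (K [(49,4,316),(31,8,185),(31,1,314),(49,2,185)] [])
  (A01 (K [(49,4,5),(49,2,3)] []) (A13 (B12 (A12 (K [(49,2,12),(20,5,12),(49,4,20),(31,1,20)] [])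
  (K [(49,4,20),(31,8,12),(49,2,12),(31,1,20)] [])) (K
  [(49,4,312),(31,8,189),(31,1,316),(49,2,182)] [])) (K [(49,4,5),(49,2,3)] [])))) (K
  [(49,4,5),(49,2,3)] [])) (K [(13,7,31),(31,8,13),(49,2,19)] [])) (L 49 4))) (K
  [(49,4,4),(31,8,1),(49,2,3)] [])) (K [(49,4,5),(49,2,3)] [])) (L 49 4)) (B12 (A13 (K
  [(49,4,319),(31,8,187),(49,2,190),(31,1,304)] []) (L 49 4)) (L 49 4))))) (B01 (L 49 4) (A23 (A12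
  (B12 (A01 (K [(49,4,5),(49,2,3)] []) (B01 (A13 (A12 (B02 (A01 (K [(13,7,5),(49,2,3)] []) (B01 (K
  [(13,7,318),(31,8,184),(31,1,311),(49,2,186)] []) (A13 (A12 (B12 (A01 (K
  [(13,7,316),(31,8,186),(49,2,190),(31,1,308)] []) (K [(31,8,38),(49,2,38),(49,4,63),(31,1,62)]
  [])) (A01 (K [(49,4,3),(31,8,2),(31,1,4)] []) (K [(49,4,63),(31,8,38),(31,1,63),(49,2,37)] [])))
  (K [(13,7,5),(49,2,3)] [])) (K [(13,7,5),(49,2,3)] [])))) (K [(49,4,31),(31,8,13),(49,2,19)] []))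
  (L 49 4)) (L 49 4)) (K [(49,4,4),(31,8,1),(49,2,3)] []))) (L 49 4)) (L 49 4)) (A03 (B12 (A01 (K
  [(49,4,5),(49,2,3)] []) (B01 (A12 (A13 (B02 (A01 (K [(13,7,5),(49,2,3)] []) (B01 (K
  [(13,7,318),(31,8,184),(31,1,311),(49,2,186)] []) (A12 (A13 (B12 (A01 (K
  [(13,7,314),(31,8,187),(49,2,188),(31,1,311)] []) (K
  [(31,8,188),(49,4,314),(49,2,187),(31,1,311)] [])) (A01 (K [(49,4,3),(31,8,2),(31,1,4)] []) (K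
  [(49,4,63),(31,8,38),(31,1,63),(49,2,37)] []))) (K [(13,7,5),(49,2,3)] [])) (K
  [(13,7,5),(49,2,3)] [])))) (K [(49,4,31),(31,8,13),(49,2,19)] [])) (L 49 4)) (L 49 4)) (K
  [(49,4,4),(31,8,1),(49,2,3)] []))) (L 49 4)) (B12 (A13 (B01 (A12 (K
  [(49,4,319),(20,5,187),(49,2,190),(31,1,304)] []) (L 49 4)) (L 31 8)) (L 49 4)) (L 49 4)))))) (L
  49 4))) (K [(49,4,4),(31,1,1),(49,2,2)] [])))) (A23 (A12 (A13 (K [(31,8,3),(31,1,5)] []) (B12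
  (B01 (K [(49,4,3),(31,8,2),(31,1,4)] []) (A03 (A02 (A01 (K [(49,4,7),(31,1,8),(20,5,4),(49,2,4)]
  []) (B12 (B01 (K [(49,4,6),(31,1,10),(31,8,8)] []) (A13 (K
  [(31,1,21),(31,8,17),(49,2,10),(49,4,16)] []) (K [(31,1,21),(13,7,18),(31,8,15),(49,2,11)] [])))
  (K [(49,4,1),(31,8,3),(31,1,3)] []))) (A23 (K [(31,1,4),(31,8,4)] []) (B12 (B01 (K
  [(31,1,3),(49,4,1),(31,8,3)] []) (A13 (K [(31,1,25),(49,2,1),(31,8,38)] []) (K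
  [(31,1,21),(49,4,18),(31,8,15),(49,2,11)] []))) (K [(49,4,1),(31,8,3),(31,1,3)] [])))) (A23 (A02
  (B12 (B01 (K [(49,4,1),(31,1,3),(31,8,3)] []) (A01 (K [(31,1,21),(31,8,15),(49,4,18),(49,2,11)]
  []) (K [(31,1,3),(31,8,5)] []))) (K [(49,4,1),(31,8,3),(31,1,3)] [])) (K [(31,1,3),(31,8,4)] []))
  (K [(49,4,18),(31,8,15),(31,1,20),(49,2,11)] [])))) (K [(49,4,1),(31,8,3),(31,1,3)] []))) (A02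
  (B12 (B01 (K [(49,4,2),(31,1,4),(31,8,2)] []) (A03 (K [(31,1,4),(49,4,3),(49,2,1)] []) (A13 (K
  [(31,1,13),(49,4,9),(49,2,2)] []) (K [(49,4,57),(31,1,68),(31,8,45),(49,2,31)] [])))) (K
  [(49,4,1),(31,8,3),(31,1,3)] [])) (K [(31,1,28),(49,4,12),(31,8,24)] []))) (A13 (A12 (B12 (B01 (K
  [(49,4,1),(31,8,3),(31,1,3)] []) (A01 (A03 (K [(49,4,301),(31,8,202),(31,1,319),(49,2,178)] [])
  (K [(13,7,17),(31,8,17),(31,1,20),(49,2,10)] [])) (K [(31,8,5),(31,1,3)] []))) (K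
  [(49,4,3),(31,8,5)] [])) (K [(49,4,329),(31,8,185),(31,1,290),(49,2,196)] [])) (K
  [(49,4,33),(31,1,15),(49,2,16)] []))))) (A12 (B02 (A13 (K
  [(31,8,296),(49,4,255),(49,2,108),(31,1,341)] []) (B01 (K [(49,4,13),(31,1,11)] []) (A03 (K
  [(49,4,298),(31,8,234),(49,2,150),(31,1,318)] []) (L 31 8)))) (L 31 8)) (B02 (A23 (B01 (K
  [(20,10,5),(49,4,1),(31,8,2)] []) (A02 (A03 (K [(31,1,5),(31,8,3)] []) (B12 (A13 (K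
  [(31,1,12),(31,8,10),(49,4,2)] []) (B01 (K [(49,4,4),(31,1,4)] []) (A23 (K
  [(31,1,12),(31,8,10),(49,4,2)] []) (A03 (B12 (A01 (B01 (A02 (A03 (B02 (A01 (B01 (K
  [(31,1,12),(49,4,4),(31,8,8)] []) (A02 (A03 (B12 (K
  [(13,11,185),(31,8,192),(31,1,316),(49,4,307)] []) (K [(31,8,8),(49,4,4),(31,1,12)] [])) (B12
  (A13 (K [(31,8,198),(49,2,181),(31,1,317),(49,4,304)] []) (B01 (K
  [(31,8,243),(49,4,278),(31,1,330),(49,2,149)] []) (K [(31,8,31),(49,4,8),(31,1,25)] []))) (K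
  [(49,4,2),(31,8,2),(31,1,3)] []))) (K [(31,1,10),(31,8,11),(13,7,4)] []))) (K
  [(49,4,10),(31,8,29),(31,1,25)] [])) (K [(31,8,5),(31,1,3)] [])) (K
  [(49,4,10),(31,8,29),(31,1,25)] [])) (K [(31,1,10),(49,4,5),(31,8,9)] [])) (K
  [(31,8,31),(31,1,25),(49,4,8)] [])) (K [(31,8,29),(49,4,10),(31,1,25)] [])) (K
  [(49,4,5),(31,8,1),(31,1,2)] [])) (K [(49,4,10),(31,8,29),(31,1,25)] []))))) (K
  [(49,4,2),(31,1,3),(31,8,2)] []))) (K [(31,1,26),(49,4,9),(31,8,28)] []))) (B01 (K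
  [(49,4,4),(31,1,4)] []) (A03 (A02 (B12 (A01 (B01 (A03 (K
  [(31,8,200),(49,4,306),(31,1,321),(49,2,173)] []) (K [(49,4,50),(31,8,76),(31,1,74)] [])) (A03 (K
  [(31,8,41),(13,11,35),(31,1,64),(49,4,60)] []) (A13 (K [(20,5,41),(49,4,60),(49,2,35),(31,1,64)]
  []) (B12 (A23 (K [(20,5,189),(49,4,316),(49,2,188),(31,1,308)] []) (L 31 8)) (L 49 4))))) (B01 (K
  [(49,4,2),(31,8,3),(31,1,3)] []) (A13 (K [(31,8,11),(49,4,3),(31,1,11)] []) (A03 (K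
  [(31,8,14),(49,4,19),(49,2,11),(31,1,21)] []) (B12 (A23 (K
  [(20,5,189),(49,4,316),(49,2,188),(31,1,308)] []) (L 31 8)) (L 49 4)))))) (K
  [(49,4,7),(31,8,6),(31,1,11)] [])) (B12 (A12 (B01 (K [(49,4,3),(31,8,2),(31,1,3)] []) (A13 (K
  [(31,8,11),(49,4,3),(31,1,11)] []) (A23 (K [(31,8,208),(49,4,304),(49,2,174),(31,1,314)] []) (B12
  (A03 (B01 (A01 (A02 (K [(31,8,189),(49,4,316),(49,2,188),(31,1,308)] []) (L 49 4)) (L 31 8)) (L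
  31 8)) (L 31 8)) (L 49 4))))) (B01 (L 49 4) (A23 (A02 (B12 (A01 (B01 (A03 (A02 (B02 (A01 (B01 (K
  [(49,4,317),(31,8,186),(31,1,310),(49,2,187)] []) (K
  [(49,4,320),(31,8,187),(13,11,191),(31,1,302)] [])) (K [(49,4,3),(31,8,5)] [])) (L 31 8)) (K
  [(49,4,3),(31,8,5)] [])) (K [(49,4,3),(31,8,5)] [])) (L 31 8)) (K [(49,4,3),(31,8,5)] [])) (L 49
  4)) (K [(49,4,3),(31,8,5)] [])) (A13 (B12 (A01 (B01 (A02 (A03 (K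
  [(49,4,316),(31,8,189),(49,2,188),(31,1,308)] []) (L 31 8)) (L 31 8)) (L 31 8)) (L 31 8)) (L 49
  4)) (B12 (A03 (B01 (A02 (A01 (K [(49,4,317),(31,8,188),(49,2,188),(31,1,307)] []) (L 49 4)) (L 49
  4)) (L 31 8)) (L 49 4)) (L 49 4)))))) (L 49 4))) (K [(49,4,3),(31,8,5)] [])))) (A23 (K
  [(31,8,30),(13,7,8),(31,1,26)] []) (L 31 8))))) (A01 (A03 (K [(31,1,5),(31,8,3)] []) (B12 (A23
  (B01 (A12 (K [(49,2,101),(31,8,49),(49,4,50)] []) (A02 (B02 (A03 (K [(49,2,16),(31,8,3),(49,4,5)]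
  []) (B01 (A13 (K [(49,2,16),(31,8,3),(49,4,5)] []) (K
  [(49,2,168),(31,8,225),(31,1,326),(49,4,281)] [])) (K [(49,2,2),(31,8,4),(31,1,2)] []))) (K
  [(49,2,2),(31,8,4),(31,1,1)] [])) (B02 (A23 (L 31 1) (B01 (A13 (L 49 2) (A03 (K
  [(20,10,5),(31,8,3)] []) (K [(49,2,7),(31,8,20),(31,1,23),(49,4,15)] []))) (K
  [(49,2,2),(31,1,2),(31,8,4)] []))) (K [(31,1,3),(31,8,5)] [])))) (K [(49,2,2),(31,8,4),(31,1,2)]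
  [])) (K [(49,2,4),(49,4,4)] [])) (A23 (A12 (A13 (K [(31,8,10),(31,1,13),(49,2,1)] []) (B02 (B01
  (A03 (K [(31,8,45),(31,1,65),(49,2,36),(49,4,54)] []) (A23 (K
  [(31,8,45),(31,1,65),(49,2,36),(49,4,54)] []) (K [(31,8,15),(49,4,18),(31,1,18),(49,2,13)] [])))
  (L 31 8)) (L 31 8))) (A02 (B02 (B01 (A03 (K [(31,1,22),(31,8,12),(49,2,11),(49,4,18)] []) (A13 (K
  [(31,1,22),(31,8,13),(49,2,12),(49,4,18)] []) (K [(31,8,45),(49,4,57),(31,1,68),(49,2,31)] [])))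
  (K [(31,8,5),(31,1,3)] [])) (K [(31,8,4),(49,4,1),(31,1,3)] [])) (K
  [(31,1,28),(31,8,24),(49,4,12)] []))) (K [(31,8,15),(49,4,19),(49,2,13),(31,1,17)] [])))) (A12 (L
  31 8) (B12 (A23 (K [(31,8,30),(31,1,26),(49,4,8)] []) (L 31 8)) (A23 (K
  [(31,8,30),(49,4,8),(31,1,26)] []) (L 31 8)))))) (B01 (A03 (A01 (K [(31,1,6),(49,4,2)] []) (B02
  (A12 (K [(49,4,4),(31,1,1),(49,2,2)] []) (K [(49,4,4),(31,1,4)] [])) (A12 (K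
  [(49,4,4),(31,1,2),(49,2,2)] []) (K [(49,4,4),(31,1,4)] [])))) (A23 (B02 (A12 (L 49 4) (K
  [(49,4,4),(31,1,4)] [])) (A12 (L 49 4) (K [(49,4,4),(31,1,4)] []))) (L 49 4))) (A03 (A01 (K
  [(31,1,5),(31,8,3)] []) (B12 (A12 (K [(31,8,2),(49,4,10),(49,2,10),(31,1,2)] []) (B01 (A23 (A02
  (B02 (A01 (K [(49,2,7),(20,10,6),(31,8,4),(49,4,7)] []) (K
  [(49,2,168),(31,1,326),(31,8,225),(49,4,281)] [])) (K [(31,8,5),(31,1,3)] [])) (B02 (A12 (K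
  [(31,1,341),(49,2,142),(31,8,257),(49,4,260)] []) (L 31 1)) (K [(31,1,3),(31,8,5)] []))) (K
  [(31,8,10),(49,2,14),(31,1,17),(49,4,22)] [])) (K [(49,2,2),(31,8,3),(31,1,2),(49,4,1)] [])))
  (A12 (K [(49,4,4),(31,8,1),(31,1,2),(49,2,2)] []) (K [(49,4,21),(31,8,14),(31,1,29)] [])))) (A23
  (B12 (A12 (K [(31,8,1),(13,7,5),(49,2,3)] []) (B01 (A02 (K
  [(13,7,22),(31,8,10),(31,1,17),(49,2,14)] []) (A23 (K [(31,1,26),(49,2,2),(31,8,26),(49,4,11)]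
  []) (K [(31,8,10),(49,4,22),(31,1,17),(49,2,15)] []))) (K [(13,11,2),(31,8,4),(31,1,1),(49,4,1)]
  []))) (A12 (L 49 4) (K [(49,4,8),(31,8,6),(31,1,11)] []))) (K [(13,7,4),(31,1,1),(49,2,3)]
  []))))) (K [(31,8,16),(31,1,8)] [])))) (A03 (K [(31,1,4),(31,8,4)] []) (K
  [(49,2,1),(31,8,5),(31,1,2)] [])))))))) (P 16 (A13 (S 10 (K [(31,8,102),(31,1,98)] []) (L 2 8))
  (P 10 (A03 (K [(31,1,99),(31,8,95),(49,4,6)] []) (A23 (K [(49,4,10),(31,8,25),(31,1,30)] []) (K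
  [(49,4,14),(31,8,1),(31,1,8)] []))))))) (P 16 (M 13 (P 10 (B12 (A23 (L 31 1) (B01 (A03 (L 31 1)
  (A13 (K [(31,1,5),(31,8,3)] []) (B02 (A23 (L 31 1) (B01 (K [(31,1,5),(49,4,3)] []) (A03 (L 31 1)
  (A13 (K [(31,1,9),(13,7,7),(31,8,4),(49,2,5)] []) (K [(49,4,3),(31,8,1),(31,1,2),(49,2,2)]
  []))))) (K [(31,1,23),(31,8,27),(49,4,7),(49,2,7)] [])))) (A03 (L 31 1) (K
  [(13,11,3),(31,1,8),(31,8,13)] [])))) (K [(31,1,39),(49,4,14),(31,8,11)] []))))))))) (M 15 (P 12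
  (B01 (P 16 (A12 (A13 (B02 (A01 (B01 (S 9 (L 29 7) (L 12 7)) (A02 (S 10 (L 31 8) (L 50 8)) (A12 (S
  10 (L 31 8) (L 50 8)) (B12 (A23 (S 9 (L 29 7) (L 1 7)) (S 10 (L 31 8) (L 50 8))) (S 9 (L 29 7) (L
  1 7)))))) (B01 (L 49 4) (A12 (S 10 (L 31 8) (L 50 8)) (A02 (S 10 (L 31 8) (L 50 8)) (B12 (A23 (S
  9 (L 29 7) (L 12 7)) (S 10 (L 31 8) (L 50 8))) (L 49 4)))))) (A01 (A02 (S 10 (L 31 8) (L 2 8))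
  (A12 (S 10 (L 31 8) (L 2 8)) (B12 (B01 (P 10 (L 31 8)) (M 18 (K [(38,4,5),(49,4,3)] []))) (L 49
  4)))) (A12 (S 10 (L 31 8) (L 50 8)) (A02 (S 10 (L 31 8) (L 2 8)) (B12 (B01 (L 49 4) (A23 (S 9 (L
  29 7) (L 1 7)) (S 10 (L 31 8) (L 2 8)))) (L 49 4)))))) (B02 (A03 (B01 (A02 (A01 (B02 (S 9 (L 29
  7) (L 12 7)) (S 9 (L 29 7) (L 1 7))) (B02 (S 9 (L 29 7) (L 12 7)) (S 10 (L 31 8) (L 50 8)))) (A23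
  (S 9 (L 29 7) (L 12 7)) (B02 (S 9 (L 29 7) (L 12 7)) (A13 (S 9 (L 29 7) (L 12 7)) (S 9 (L 29 7)
  (L 1 7)))))) (A02 (S 10 (L 31 8) (L 50 8)) (A23 (B12 (A12 (B01 (S 9 (L 29 7) (L 1 7)) (S 10 (L 31
  8) (L 2 8))) (S 9 (L 29 7) (L 1 7))) (S 9 (L 29 7) (L 1 7))) (B12 (A13 (B01 (S 9 (L 29 7) (L 1
  7)) (S 10 (L 31 8) (L 2 8))) (M 18 (S 10 (K [(38,4,1),(49,4,1),(31,8,6)] []) (L 50 8)))) (A13 (S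
  9 (L 29 7) (L 1 7)) (M 18 (K [(38,4,3),(49,4,5)] []))))))) (B01 (L 49 4) (P 10 (K
  [(49,4,3),(31,8,3),(31,1,2)] [])))) (A03 (A02 (S 10 (L 31 8) (L 2 8)) (P 10 (K
  [(31,8,7),(31,1,1)] []))) (P 10 (K [(49,4,3),(31,8,3),(31,1,2)] []))))) (A02 (B02 (A03 (B01 (A01
  (A02 (B02 (S 9 (L 29 7) (L 12 7)) (S 9 (L 29 7) (L 1 7))) (B02 (S 9 (L 29 7) (L 12 7)) (S 9 (L 29
  7) (L 1 7)))) (A13 (S 9 (L 29 7) (L 12 7)) (B02 (S 9 (L 29 7) (L 12 7)) (S 9 (L 29 7) (L 1 7)))))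
  (A01 (M 18 (S 10 (K [(31,1,10),(31,8,12),(49,4,2)] []) (K [(2,8,4),(38,4,4)] []))) (A13 (S 9 (L
  29 7) (L 1 7)) (M 18 (S 10 (K [(31,1,10),(49,4,2),(31,8,12)] []) (K [(2,8,4),(38,4,4)] []))))))
  (B01 (A13 (A01 (S 9 (L 29 7) (L 1 7)) (S 9 (L 29 7) (L 12 7))) (S 9 (L 29 7) (L 1 7))) (P 10 (K
  [(49,4,8),(31,1,11),(31,8,5)] [])))) (A03 (A01 (S 10 (K [(31,8,5),(31,1,3)] []) (L 2 8)) (P 10 (K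
  [(31,1,3),(31,8,5)] []))) (P 10 (K [(49,4,8),(31,8,5),(31,1,11)] [])))) (B02 (A23 (S 9 (L 29 7)
  (L 12 7)) (B01 (A13 (S 9 (L 29 7) (L 12 7)) (S 9 (L 29 7) (L 1 7))) (P 10 (K [(31,1,5),(49,4,3)]
  [])))) (P 10 (K [(31,1,5),(49,4,3)] [])))))) (A12 (A13 (B12 (A01 (B01 (A02 (S 10 (L 31 8) (L 2
  8)) (S 10 (K [(31,8,5),(31,1,2)] []) (L 2 8))) (S 10 (L 31 8) (L 2 8))) (P 16 (B01 (A12 (S 10 (L
  31 8) (L 50 8)) (S 10 (K [(31,8,5),(31,1,2)] []) (L 2 8))) (S 10 (L 31 8) (L 2 8))))) (P 16 (A01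
  (M 18 (S 10 (K [(31,8,6),(38,4,2)] []) (L 2 8))) (A12 (S 10 (L 31 8) (L 50 8)) (A02 (S 10 (L 31
  8) (L 2 8)) (B02 (M 18 (S 10 (K [(31,8,6),(38,4,2)] []) (L 2 8))) (P 10 (L 31 8)))))))) (M 18
  (B12 (A03 (B01 (A02 (S 10 (L 31 8) (L 2 8)) (P 10 (K [(31,8,7),(31,1,1)] []))) (P 10 (L 31 8)))
  (P 16 (P 10 (B01 (A23 (K [(31,8,4),(49,4,1),(31,1,3)] []) (K [(31,8,4),(49,4,2),(31,1,2)] [])) (L
  31 8))))) (P 16 (S 10 (K [(31,8,4),(49,4,3),(38,4,1)] []) (L 2 8)))))) (A02 (B12 (A03 (B01 (A01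
  (A02 (S 10 (L 31 8) (L 2 8)) (P 10 (K [(31,8,5),(31,1,3)] []))) (P 10 (K [(31,8,5),(31,1,3)]
  []))) (P 10 (K [(31,8,5),(31,1,3)] []))) (M 19 (P 16 (M 13 (P 10 (B01 (A13 (K [(31,8,4),(31,1,3)]
  []) (A23 (K [(31,8,10),(31,1,10),(49,2,1),(49,4,3)] []) (B02 (A03 (B01 (A01 (A02 (K
  [(49,4,3),(31,8,5)] []) (B02 (A23 (K [(49,4,12),(31,1,27),(31,8,25)] []) (K [(49,4,3),(31,8,5)]
  [])) (A23 (K [(31,8,25),(13,7,12),(31,1,27)] []) (L 31 8)))) (A13 (K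
  [(49,4,3),(31,8,11),(31,1,10)] []) (B02 (A23 (K [(49,4,15),(31,1,27),(31,8,21)] []) (L 49 4))
  (A23 (K [(13,7,15),(31,8,21),(31,1,27)] []) (L 49 4))))) (A01 (A02 (L 31 8) (B12 (A23 (K
  [(31,8,29),(31,1,26),(49,4,9)] []) (L 31 8)) (A23 (K [(31,8,25),(49,4,12),(31,1,27)] []) (L 31
  8)))) (A13 (K [(31,8,5),(31,1,3)] []) (B12 (A23 (K [(20,5,29),(49,4,9),(31,1,26)] []) (L 31 8))
  (A23 (K [(20,5,21),(49,4,15),(31,1,27)] []) (L 31 8)))))) (B01 (A13 (A01 (B02 (A02 (L 49 4) (K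
  [(49,4,4),(31,1,4)] [])) (A02 (L 49 4) (K [(49,4,4),(31,1,4)] []))) (K
  [(49,4,1),(31,1,3),(31,8,3)] [])) (A23 (B02 (A02 (L 49 4) (K [(49,4,4),(31,1,4)] [])) (A02 (L 49
  4) (K [(49,4,4),(31,1,4)] []))) (L 49 4))) (A13 (A01 (B12 (A02 (L 31 8) (K
  [(31,8,29),(49,4,9),(31,1,26)] [])) (A02 (L 49 4) (K [(49,4,8),(31,8,6),(31,1,11)] []))) (K
  [(31,8,11),(13,7,3),(31,1,10)] [])) (A23 (B12 (A02 (K [(31,8,5),(49,4,3)] []) (B01 (A12 (K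
  [(49,4,4),(31,8,11),(31,1,8)] []) (A23 (K [(31,1,26),(31,8,29),(49,4,9)] []) (K
  [(31,8,21),(49,4,15),(31,1,22),(49,2,6)] []))) (K [(31,8,5),(49,2,2)] []))) (A02 (L 49 4) (K
  [(49,4,8),(31,8,6),(31,1,11)] []))) (K [(13,7,4),(31,8,4)] []))))) (L 31 8)))) (K
  [(13,11,1),(31,8,15),(31,1,7)] []))))))) (P 16 (M 13 (A03 (S 10 (K [(31,8,5),(31,1,3)] []) (L 2
  8)) (P 10 (A13 (K [(31,8,4),(31,1,3)] []) (A23 (K [(13,7,3),(31,8,10),(31,1,11)] []) (K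
  [(49,4,4),(31,8,1),(31,1,3)] [])))))))) (P 16 (M 13 (P 10 (B12 (A23 (L 31 1) (B01 (A13 (K
  [(31,1,4),(31,8,4)] []) (A03 (K [(31,1,4),(31,8,3)] []) (B02 (A23 (K [(31,1,5),(31,8,3)] []) (B01
  (K [(49,4,3),(31,1,5)] []) (A13 (K [(31,1,71),(49,4,43),(31,8,63),(49,2,23)] []) (A03 (K
  [(49,4,38),(31,1,78),(31,8,69),(49,2,15)] []) (K [(49,4,3),(31,8,1),(31,1,1),(49,2,2)] []))))) (K
  [(31,8,10),(49,4,3),(31,1,9),(49,2,2)] [])))) (K [(13,11,6),(31,1,23),(31,8,35)] []))) (A23 (L 31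
  1) (A13 (K [(31,1,4),(31,8,4)] []) (A03 (K [(31,1,4),(49,4,1),(31,8,3)] []) (K
  [(49,4,2),(31,8,2),(31,1,4)] [])))))))))))))))) (M 15 (P 12 (A01 (A02 (A03 (P 4 (M 3 (B02 (B01
  (A01 (M 18 (P 9 (A02 (A03 (B02 (B01 (L 38 4) (P 16 (P 10 (K [(29,7,1),(31,1,3),(49,4,3),(31,8,1)]
  [])))) (M 19 (P 16 (P 10 (K [(29,7,1),(31,1,3),(49,4,3),(20,5,1)] []))))) (P 16 (K
  [(38,4,4),(49,4,4)] []))) (P 16 (K [(38,4,4),(49,4,4)] []))))) (P 16 (A12 (A13 (B02 (B01 (S 9 (L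
  29 7) (L 1 7)) (A01 (M 18 (K [(38,4,2),(49,4,6)] [])) (S 9 (L 29 7) (L 1 7)))) (B12 (A01 (P 9 (K
  [(29,7,2),(49,4,6)] [])) (S 9 (L 29 7) (L 1 7))) (L 49 4))) (P 9 (K [(29,7,2),(49,4,6)] []))) (P
  9 (K [(29,7,3),(49,4,5)] []))))) (M 13 (P 10 (K [(13,7,6),(31,8,7),(31,1,11)] [])))) (M 13 (P 10
  (K [(13,7,6),(31,8,7),(31,1,11)] [])))))) (P 16 (B02 (B01 (A13 (M 3 (A12 (A01 (B02 (B01 (S 9 (L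
  29 7) (L 1 7)) (P 10 (K [(49,4,3),(31,8,1),(31,1,3)] []))) (P 10 (K [(49,4,3),(31,8,2),(31,1,3)]
  []))) (S 9 (L 29 7) (L 1 7))) (A23 (M 18 (K [(38,4,4),(49,4,4)] [])) (B02 (B01 (S 9 (L 29 7) (L 1
  7)) (P 10 (K [(49,4,4),(31,1,4)] []))) (P 10 (K [(49,4,4),(31,1,4)] [])))))) (P 10 (A23 (M 3 (K
  [(49,4,4),(31,1,4)] [])) (S 3 (L 9 4) (L 49 4))))) (P 10 (A13 (M 3 (K
  [(49,4,9),(31,8,4),(31,1,11)] [])) (B12 (M 18 (M 3 (K [(49,4,4),(38,4,2),(31,1,3)] []))) (A23 (M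
  3 (K [(49,4,4),(31,1,4)] [])) (S 3 (L 9 4) (L 49 4))))))) (P 10 (B12 (A13 (M 3 (K
  [(49,4,9),(31,8,4),(31,1,11)] [])) (B01 (A23 (M 3 (K [(49,4,4),(31,1,4)] [])) (S 3 (L 9 4) (L 49
  4))) (M 18 (K [(31,8,4),(38,4,1),(31,1,3)] [])))) (S 3 (L 9 4) (L 49 4))))))) (P 16 (A12 (B02
  (B01 (A13 (S 9 (L 29 7) (L 1 7)) (S 9 (L 29 7) (L 1 7))) (P 10 (A13 (M 3 (K
  [(49,4,1),(31,1,4),(31,8,3)] [])) (B12 (M 18 (M 3 (K [(49,4,3),(38,4,5)] []))) (S 9 (L 29 7) (L 1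
  7)))))) (P 10 (B12 (A13 (M 3 (K [(49,4,1),(31,8,3),(31,1,4)] [])) (B01 (S 9 (L 29 7) (L 1 7)) (M
  18 (K [(38,4,4),(31,8,4)] [])))) (S 3 (L 9 4) (L 49 4))))) (P 10 (B02 (B01 (S 9 (L 29 7) (L 1 7))
  (A23 (L 31 1) (B12 (M 3 (K [(49,4,3),(31,1,5)] [])) (S 9 (L 29 7) (L 1 7))))) (B12 (A23 (L 31 1)
  (B01 (S 9 (L 29 7) (L 1 7)) (M 18 (K [(38,4,1),(31,1,3),(31,8,4)] [])))) (S 9 (L 29 7) (L 1
  7)))))))) (P 16 (A12 (A13 (B02 (B01 (A01 (A02 (A03 (M 3 (L 49 4)) (B02 (M 3 (L 49 4)) (B12 (M 3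
  (L 49 4)) (P 18 (L 55 10))))) (A12 (B02 (M 3 (L 49 4)) (B12 (M 3 (L 49 4)) (P 18 (L 55 10))))
  (B02 (M 3 (L 49 4)) (B12 (M 3 (L 49 4)) (P 18 (L 55 10)))))) (S 3 (L 9 4) (L 49 4))) (A01 (B12 (M
  3 (L 49 4)) (A02 (A03 (M 3 (L 49 4)) (B02 (M 3 (L 49 4)) (A13 (M 3 (L 49 4)) (P 10 (L 31 8)))))
  (A12 (B02 (M 3 (L 49 4)) (A13 (M 3 (L 49 4)) (P 10 (L 31 8)))) (P 10 (L 31 8))))) (B12 (M 3 (L 49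
  4)) (S 3 (L 9 4) (L 49 4))))) (B12 (A01 (B01 (A02 (A03 (M 3 (L 49 4)) (B02 (A13 (M 3 (L 49 4)) (P
  10 (L 31 8))) (P 10 (L 31 8)))) (A12 (B02 (A13 (M 3 (L 49 4)) (P 10 (L 31 8))) (P 10 (L 31 8)))
  (P 10 (L 31 8)))) (P 10 (L 31 8))) (B01 (S 3 (L 9 4) (L 49 4)) (A12 (M 3 (L 49 4)) (P 10 (L 31
  8))))) (A01 (A02 (A03 (B02 (M 3 (L 49 4)) (P 10 (L 31 8))) (B02 (B01 (P 18 (L 55 10)) (P 10 (L 31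
  8))) (P 10 (L 31 8)))) (A12 (B02 (B01 (P 18 (L 55 10)) (P 10 (L 31 8))) (P 10 (L 31 8))) (P 10 (L
  31 8)))) (S 3 (L 9 4) (L 49 4))))) (B02 (B01 (A03 (A02 (A01 (M 3 (L 49 4)) (B02 (M 3 (L 49 4))
  (B12 (M 3 (L 49 4)) (A13 (P 18 (L 55 10)) (M 3 (L 49 4)))))) (A23 (B02 (M 3 (L 49 4)) (B12 (M 3
  (L 49 4)) (P 18 (L 55 10)))) (B02 (M 3 (L 49 4)) (B12 (M 3 (L 49 4)) (A13 (P 18 (L 55 10)) (M 3
  (L 49 4))))))) (A23 (A02 (B02 (M 3 (L 49 4)) (S 3 (L 9 4) (L 49 4))) (B02 (M 3 (L 49 4)) (S 3 (L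
  9 4) (L 49 4)))) (A13 (B02 (M 3 (L 49 4)) (S 3 (L 9 4) (L 49 4))) (S 3 (L 9 4) (L 49 4))))) (S 3
  (L 9 4) (L 49 4))) (S 3 (L 9 4) (L 49 4)))) (A02 (B02 (B01 (A03 (A01 (P 4 (M 3 (A02 (L 49 4) (B02
  (B01 (S 9 (L 29 7) (L 12 7)) (A23 (S 9 (L 29 7) (L 12 7)) (L 49 4))) (L 49 4))))) (A13 (B02 (P 4
  (S 9 (L 29 7) (L 12 7))) (B12 (M 3 (L 49 4)) (A12 (S 3 (L 9 4) (L 49 4)) (M 3 (L 49 4))))) (P 4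
  (M 3 (B02 (B01 (S 9 (L 29 7) (L 12 7)) (A23 (S 9 (L 29 7) (L 12 7)) (L 49 4))) (L 49 4)))))) (A13
  (A01 (B02 (S 9 (L 29 7) (L 1 7)) (S 3 (L 9 4) (L 49 4))) (B02 (P 4 (S 9 (L 29 7) (L 12 7))) (P 10
  (L 31 1)))) (S 9 (L 29 7) (L 1 7)))) (S 3 (L 9 4) (L 49 4))) (S 3 (L 9 4) (L 49 4))) (B02 (B01
  (A23 (A12 (A13 (B02 (P 4 (S 9 (L 29 7) (L 12 7))) (P 10 (L 31 1))) (P 10 (L 31 1))) (P 10 (L 31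
  1))) (A13 (A12 (B02 (P 4 (S 9 (L 29 7) (L 12 7))) (P 10 (L 31 1))) (P 10 (L 31 1))) (S 9 (L 29 7)
  (L 1 7)))) (P 10 (A23 (L 31 1) (S 3 (L 9 4) (L 49 4))))) (P 10 (B12 (A23 (L 31 1) (S 3 (L 9 4) (L
  49 4))) (A23 (K [(31,1,5),(31,8,3)] []) (S 3 (L 9 4) (L 49 4)))))))))))))))) (P 16 (M 15 (M 13 (P
  12 (B12 (M 11 (M 1 (A13 (B01 (A12 (A01 (B02 (A03 (B01 (A02 (A01 (S 3 (L 9 4) (L 49 4)) (B02 (A13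
  (M 3 (L 49 4)) (S 3 (L 9 4) (L 49 4))) (S 3 (L 9 4) (L 49 4)))) (A23 (M 3 (L 49 4)) (B02 (A13 (M
  3 (L 49 4)) (S 3 (L 9 4) (L 49 4))) (S 3 (L 9 4) (L 49 4))))) (P 10 (M 3 (K
  [(49,4,3),(31,8,1),(31,1,3)] [])))) (B01 (S 3 (L 9 4) (L 49 4)) (P 10 (A23 (M 3 (K
  [(49,4,3),(31,8,2),(31,1,3)] [])) (S 3 (L 9 4) (L 49 4)))))) (P 10 (A03 (M 3 (K
  [(49,4,3),(31,8,1),(31,1,3)] [])) (K [(31,8,7),(31,1,1)] [])))) (B02 (A13 (B01 (S 3 (L 9 4) (L 49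
  4)) (P 4 (M 3 (A12 (S 10 (L 31 8) (L 50 8)) (A23 (B12 (A02 (S 10 (L 31 8) (L 50 8)) (S 9 (L 29 7)
  (L 12 7))) (L 49 4)) (S 10 (L 31 8) (L 50 8))))))) (B01 (S 3 (L 9 4) (L 49 4)) (A23 (P 4 (M 3
  (A12 (L 49 4) (B12 (A02 (L 49 4) (S 9 (L 29 7) (L 12 7))) (L 49 4))))) (A03 (M 3 (L 49 4)) (B12
  (A13 (M 3 (L 49 4)) (S 3 (L 9 4) (L 49 4))) (S 3 (L 9 4) (L 49 4))))))) (A13 (M 3 (A12 (S 10 (L
  31 8) (L 50 8)) (A23 (B12 (B01 (L 49 4) (A02 (S 10 (L 31 8) (L 2 8)) (S 9 (L 29 7) (L 1 7)))) (L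
  49 4)) (S 10 (L 31 8) (L 2 8))))) (P 10 (K [(31,8,7),(31,1,1)] []))))) (A23 (B02 (A02 (B01 (A01
  (S 3 (L 9 4) (L 49 4)) (A12 (B02 (A13 (M 3 (L 49 4)) (P 10 (L 31 1))) (P 10 (L 31 1))) (P 10 (L
  31 1)))) (P 10 (A01 (A03 (P 9 (M 3 (K [(29,7,1),(49,4,4),(31,1,2)] []))) (L 31 1)) (L 31 1))))
  (B01 (A12 (A01 (P 10 (L 31 1)) (B02 (A13 (P 4 (S 9 (L 29 7) (L 12 7))) (P 10 (L 31 1))) (P 10 (L
  31 1)))) (P 10 (L 31 1))) (P 10 (L 31 1)))) (P 10 (A02 (A01 (A03 (M 18 (M 3 (K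
  [(49,4,4),(38,4,1),(31,1,2)] []))) (S 9 (L 29 7) (L 1 7))) (S 9 (L 29 7) (L 1 7))) (S 9 (L 29 7)
  (L 1 7))))) (B02 (A03 (B01 (A01 (S 3 (L 9 4) (L 49 4)) (A13 (B02 (A12 (M 3 (L 49 4)) (P 10 (L 31
  1))) (P 10 (L 31 1))) (S 3 (L 9 4) (L 49 4)))) (P 10 (A01 (S 3 (L 9 4) (L 49 4)) (A13 (L 31 1) (S
  3 (L 9 4) (L 49 4)))))) (B01 (S 3 (L 9 4) (L 49 4)) (P 10 (A13 (A01 (S 3 (L 9 4) (L 49 4)) (L 31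
  1)) (S 3 (L 9 4) (L 49 4)))))) (P 10 (A03 (A01 (S 3 (L 9 4) (L 49 4)) (A13 (S 9 (L 29 7) (L 1 7))
  (S 3 (L 9 4) (L 49 4)))) (A13 (A01 (S 3 (L 9 4) (L 49 4)) (K [(31,1,4),(31,8,4)] [])) (S 3 (L 9
  4) (L 49 4)))))))) (A12 (A01 (P 10 (B12 (M 3 (A03 (B01 (A02 (K [(49,4,2),(31,8,4),(31,1,2)] [])
  (K [(31,8,13),(49,4,3),(31,1,8)] [])) (L 31 8)) (K [(31,8,5),(49,4,1),(31,1,2)] []))) (A03 (M 18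
  (M 3 (K [(49,4,3),(31,8,3),(38,4,1),(31,1,1)] []))) (K [(31,8,7),(31,1,1)] [])))) (B12 (M 3 (A13
  (B01 (A12 (S 10 (L 31 8) (L 50 8)) (A23 (S 10 (K [(31,8,5),(31,1,2)] []) (L 2 8)) (S 10 (L 31 8)
  (L 2 8)))) (S 10 (L 31 8) (L 2 8))) (P 10 (K [(31,8,5),(49,4,1),(31,1,2)] [])))) (A13 (A12 (S 10
  (L 31 8) (L 50 8)) (A23 (B02 (M 18 (S 10 (K [(31,8,6),(38,4,2)] []) (L 2 8))) (P 10 (L 31 8))) (S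
  10 (L 31 8) (L 2 8)))) (P 10 (K [(31,8,7),(31,1,1)] []))))) (P 10 (A23 (P 4 (M 3 (B12 (A02 (B01
  (A01 (A03 (B02 (A02 (B01 (K [(49,4,3),(31,1,5)] []) (K [(49,4,66),(31,8,31),(31,1,47),(49,2,55)]
  [])) (K [(31,1,4),(49,4,1),(31,8,3)] [])) (K [(13,7,3),(31,8,10),(31,1,9),(49,2,2)] [])) (K
  [(31,1,4),(49,4,1),(31,8,3)] [])) (K [(31,1,4),(31,8,4)] [])) (K [(49,2,6),(31,8,35),(31,1,23)]
  [])) (K [(31,1,5),(31,8,2)] [])) (A02 (K [(49,4,5),(31,1,11),(31,8,8)] []) (K [(31,1,5),(31,8,3)]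
  []))))) (B12 (M 3 (A03 (B01 (A01 (K [(49,4,2),(31,8,4),(31,1,3)] []) (K
  [(49,4,4),(31,8,12),(31,1,8)] [])) (K [(31,8,3),(49,2,2),(49,4,1),(31,1,1)] [])) (K
  [(31,8,108),(49,4,23),(31,1,69)] []))) (A03 (M 18 (M 3 (K [(49,4,3),(31,8,3),(38,4,1),(31,1,1)]
  []))) (A13 (M 3 (K [(49,4,2),(31,8,3),(31,1,3)] [])) (S 3 (L 9 4) (L 49 4))))))))) (P 10 (B01
  (A23 (A12 (S 3 (L 9 4) (L 49 4)) (B02 (A02 (B01 (S 3 (L 9 4) (L 49 4)) (A03 (A01 (S 3 (L 9 4) (K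
  [(49,4,4),(31,1,4)] [])) (L 31 1)) (L 31 1))) (L 31 1)) (A02 (A03 (A01 (S 3 (L 9 4) (K
  [(49,4,4),(31,1,4)] [])) (S 9 (L 29 7) (L 1 7))) (S 9 (L 29 7) (L 1 7))) (S 9 (L 29 7) (L 1
  7))))) (S 3 (L 9 4) (L 49 4))) (A23 (A12 (B12 (M 3 (K [(49,4,42),(31,8,96),(49,2,10),(31,1,53)]
  [])) (S 3 (L 9 4) (L 49 4))) (B12 (M 3 (A02 (B01 (K [(49,4,24),(31,1,19),(31,8,5),(49,2,17)] [])
  (K [(31,8,4),(31,1,2),(49,2,2)] [])) (L 31 1))) (S 3 (L 9 4) (K [(49,4,11),(31,1,13)] [])))) (A03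
  (B12 (M 3 (K [(49,4,4),(31,8,4)] [])) (S 3 (L 9 4) (L 49 4))) (out 1)))))))) (A13 (P 14 (M 11 (M
  1 (A12 (A01 (B02 (B01 (A03 (A02 (A01 (S 3 (L 9 4) (L 49 4)) (B02 (B01 (S 3 (L 9 4) (L 49 4)) (S 3
  (L 9 4) (L 49 4))) (S 3 (L 9 4) (L 49 4)))) (A23 (B02 (B01 (S 3 (L 9 4) (L 49 4)) (S 3 (L 9 4) (L
  49 4))) (S 3 (L 9 4) (L 49 4))) (B02 (B01 (S 3 (L 9 4) (L 49 4)) (S 3 (L 9 4) (L 49 4))) (S 3 (L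
  9 4) (L 49 4))))) (S 3 (L 9 4) (L 49 4))) (S 3 (L 9 4) (L 49 4))) (S 3 (L 9 4) (L 49 4))) (B02
  (B01 (S 3 (L 9 4) (L 49 4)) (A13 (B12 (A12 (A01 (B01 (A03 (M 3 (L 49 4)) (P 18 (L 55 10))) (P 10
  (L 31 8))) (B01 (P 18 (L 55 10)) (A13 (M 3 (L 49 4)) (P 10 (L 31 8))))) (A23 (M 3 (L 49 4)) (B01
  (A03 (M 3 (L 49 4)) (P 18 (L 55 10))) (P 10 (L 31 8))))) (S 3 (L 9 4) (L 49 4))) (P 10 (L 31
  8)))) (B12 (A13 (B01 (S 3 (L 9 4) (L 49 4)) (A12 (A01 (P 10 (L 31 8)) (B12 (A13 (M 3 (L 49 4)) (P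
  10 (L 31 8))) (P 18 (L 55 10)))) (P 10 (L 31 8)))) (P 10 (L 31 8))) (S 3 (L 9 4) (L 49 4)))))
  (A23 (B02 (B01 (A02 (A01 (S 3 (L 9 4) (L 49 4)) (A12 (B02 (B01 (S 3 (L 9 4) (L 49 4)) (P 10 (L 31
  1))) (P 10 (L 31 1))) (P 10 (L 31 1)))) (A12 (A01 (P 10 (L 31 1)) (B02 (B01 (S 3 (L 9 4) (L 49
  4)) (P 10 (L 31 1))) (P 10 (L 31 1)))) (P 10 (L 31 1)))) (P 10 (A02 (S 3 (L 9 4) (L 49 4)) (K
  [(31,1,5),(31,8,3)] [])))) (P 10 (B12 (A02 (S 3 (L 9 4) (L 49 4)) (K [(31,1,5),(31,8,3)] [])) (M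
  4 (K [(42,7,4),(31,1,4)] []))))) (B02 (B01 (A03 (A01 (S 3 (L 9 4) (L 49 4)) (A13 (B02 (B01 (S 3
  (L 9 4) (L 49 4)) (P 10 (L 31 1))) (P 10 (L 31 1))) (S 3 (L 9 4) (L 49 4)))) (S 3 (L 9 4) (L 49
  4))) (S 3 (L 9 4) (L 49 4))) (S 3 (L 9 4) (L 49 4)))))))) (P 10 (A23 (P 14 (M 11 (M 1 (A12 (B02
  (S 3 (L 9 4) (L 49 4)) (B12 (S 3 (L 9 4) (L 49 4)) (M 4 (K [(42,7,2),(31,8,3),(31,1,3)] []))))
  (B02 (B01 (S 9 (L 29 7) (L 1 7)) (A02 (S 3 (L 9 4) (L 49 4)) (S 9 (L 29 7) (L 1 7)))) (B12 (A02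
  (S 3 (L 9 4) (L 49 4)) (S 9 (L 29 7) (L 1 7))) (S 9 (L 29 7) (L 1 7)))))))) (A03 (P 14 (M 11 (M 1
  (B02 (S 3 (L 9 4) (L 49 4)) (B12 (S 3 (L 9 4) (L 49 4)) (M 4 (K [(42,7,2),(31,8,3),(31,1,3)]
  []))))))) (out 1))))))))))) (P 16 (M 15 (P 12 (A12 (B12 (M 11 (M 1 (A13 (B01 (A01 (A03 (B02 (A02
  (B01 (A01 (P 10 (L 31 1)) (A12 (B02 (A13 (P 4 (S 9 (L 29 7) (L 12 7))) (B01 (P 18 (S 3 (L 9 4) (L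
  54 4))) (P 10 (L 31 1)))) (P 10 (L 31 1))) (B02 (A23 (B01 (P 18 (L 55 4)) (P 10 (L 31 1))) (B01
  (P 18 (L 55 4)) (P 10 (L 31 1)))) (P 10 (L 31 1))))) (P 10 (L 31 1))) (B01 (S 3 (L 9 4) (L 49 4))
  (P 10 (L 31 1)))) (S 9 (L 29 7) (L 1 7))) (B02 (A23 (B01 (S 3 (L 9 4) (L 49 4)) (P 10 (L 31 1)))
  (B01 (S 3 (L 9 4) (L 49 4)) (P 10 (A13 (L 31 1) (S 3 (L 9 4) (L 49 4)))))) (P 10 (A23 (K
  [(31,1,4),(31,8,4)] []) (A13 (K [(31,1,4),(31,8,4)] []) (S 3 (L 9 4) (L 49 4))))))) (A12 (B02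
  (A13 (B01 (S 3 (L 9 4) (L 49 4)) (P 4 (S 9 (L 29 7) (L 12 7)))) (B01 (S 3 (L 9 4) (L 49 4)) (A03
  (P 4 (S 9 (L 29 7) (L 12 7))) (A23 (B12 (M 3 (L 49 4)) (S 3 (L 9 4) (L 49 4))) (B12 (A13 (M 3 (L
  49 4)) (S 3 (L 9 4) (L 49 4))) (S 3 (L 9 4) (L 49 4))))))) (A13 (P 4 (S 9 (L 29 7) (L 12 7))) (P
  10 (K [(31,8,7),(31,1,1)] [])))) (B02 (A23 (B01 (S 3 (L 9 4) (L 49 4)) (A02 (A03 (P 4 (S 9 (L 29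
  7) (L 12 7))) (out 8)) (out 8))) (B01 (S 3 (L 9 4) (L 49 4)) (A03 (A02 (P 4 (S 9 (L 29 7) (L 12
  7))) (B12 (A12 (M 3 (L 49 4)) (P 10 (L 31 1))) (S 3 (L 9 4) (L 49 4)))) (A13 (B12 (A12 (M 3 (L 49
  4)) (P 10 (L 31 1))) (S 3 (L 9 4) (L 49 4))) (S 3 (L 9 4) (L 49 4)))))) (P 10 (A23 (K
  [(31,1,4),(31,8,4)] []) (K [(31,8,6),(31,1,2)] [])))))) (A01 (P 10 (A03 (K [(31,1,5),(31,8,3)]
  []) (B12 (M 3 (K [(31,8,28),(49,4,9),(31,1,19),(49,2,8)] [])) (A23 (S 9 (L 29 7) (L 1 7)) (A13 (K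
  [(31,8,4),(31,1,4)] []) (S 3 (L 9 4) (L 49 4))))))) (A12 (B12 (M 3 (A13 (B01 (A01 (A03 (B02 (A02
  (M 18 (K [(38,4,10),(49,2,4),(38,6,11)] [])) (S 10 (L 31 8) (L 2 8))) (P 10 (L 31 8))) (S 10 (L
  31 8) (L 2 8))) (S 10 (L 31 8) (L 50 8))) (S 10 (L 31 8) (L 2 8))) (P 10 (K
  [(31,8,5),(49,4,1),(31,1,2)] [])))) (A13 (A01 (A03 (B02 (B01 (S 9 (L 29 7) (L 1 7)) (P 10 (L 31
  8))) (P 10 (L 31 8))) (S 10 (L 31 8) (L 2 8))) (S 10 (L 31 8) (L 50 8))) (P 10 (K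
  [(31,8,7),(31,1,1)] [])))) (P 10 (B12 (M 3 (K [(31,8,29),(31,1,15),(49,4,9),(49,2,10)] [])) (A23
  (S 9 (L 29 7) (L 1 7)) (K [(31,8,6),(31,1,2)] []))))))) (B01 (A03 (A01 (B02 (A02 (P 10 (L 31 1))
  (B01 (S 3 (L 9 4) (L 49 4)) (P 10 (L 31 1)))) (S 9 (L 29 7) (L 1 7))) (B02 (A12 (S 3 (L 9 4) (L
  49 4)) (B01 (S 3 (L 9 4) (L 49 4)) (P 10 (L 31 1)))) (S 3 (L 9 4) (L 49 4)))) (out 1)) (P 10 (A03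
  (A01 (K [(31,1,5),(31,8,3)] []) (B12 (M 3 (K [(49,4,3),(49,2,4)] [])) (S 3 (L 9 4) (L 49 4))))
  (out 1))))))) (A13 (P 14 (M 11 (M 1 (A01 (A03 (B02 (B01 (A02 (A01 (P 10 (L 31 1)) (S 3 (L 9 4) (L
  49 4))) (S 3 (L 9 4) (L 49 4))) (P 10 (K [(31,1,5),(31,8,3)] []))) (P 10 (K [(31,1,5),(31,8,3)]
  []))) (B02 (B01 (S 3 (L 9 4) (L 49 4)) (S 3 (L 9 4) (L 49 4))) (P 10 (B12 (S 3 (L 9 4) (L 49 4))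
  (P 18 (M 4 (K [(42,7,7),(55,10,4),(31,8,4),(31,1,6),(55,4,3)] []))))))) (A12 (B02 (B01 (S 3 (L 9
  4) (L 49 4)) (A13 (B12 (A01 (A03 (B01 (S 3 (L 9 4) (L 49 4)) (P 10 (L 31 8))) (S 3 (L 9 4) (L 49
  4))) (S 3 (L 9 4) (L 49 4))) (S 3 (L 9 4) (L 49 4))) (P 10 (L 31 8)))) (B12 (A13 (B01 (S 3 (L 9
  4) (L 49 4)) (A01 (P 10 (L 31 8)) (S 3 (L 9 4) (L 49 4)))) (P 10 (L 31 8))) (S 3 (L 9 4) (L 49
  4)))) (B02 (B01 (S 3 (L 9 4) (L 49 4)) (S 3 (L 9 4) (L 49 4))) (P 10 (B12 (S 3 (L 9 4) (L 49 4))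
  (P 18 (M 4 (K [(42,7,4),(55,10,2),(31,1,3)] []))))))))))) (A03 (P 14 (M 11 (M 1 (A01 (B02 (B01
  (A02 (P 10 (L 31 1)) (M 4 (L 42 7))) (P 10 (K [(31,1,5),(31,8,3)] []))) (P 10 (K
  [(31,1,5),(31,8,3)] []))) (B02 (B01 (M 4 (L 42 7)) (S 3 (L 9 4) (L 49 4))) (P 10 (B12 (S 3 (L 9
  4) (L 49 4)) (P 18 (M 9 (M 4 (K [(42,7,10),(31,8,1),(1,1,3),(55,4,3),(31,1,1),(42,5,6)]
  []))))))))))) (out 1)))) (B12 (M 1 (A23 (B01 (A02 (A03 (B02 (A01 (P 10 (L 31 1)) (out 8)) (P 10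
  (L 31 1))) (out 1)) (out 1)) (P 10 (L 31 1))) (B01 (A03 (A02 (B02 (A01 (P 10 (L 31 1)) (B01 (P 18
  (L 55 4)) (P 10 (L 31 1)))) (P 10 (L 31 1))) (out 1)) (out 1)) (P 10 (A03 (L 31 1) (out 1))))))
  (A23 (M 1 (A02 (A03 (B02 (B01 (A01 (P 10 (L 31 1)) (out 8)) (P 10 (L 31 1))) (P 10 (L 31 1)))
  (out 1)) (out 1))) (A03 (M 1 (A02 (B02 (B01 (A01 (P 10 (L 31 1)) (P 18 (L 55 4))) (P 10 (L 31
  1))) (P 10 (L 31 1))) (out 1))) (out 1))))))))) (A03 (A02 (M 11 (M 1 (B12 (P 4 (M 3 (A01 (B01 (P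
  12 (A03 (A02 (B02 (A01 (M 18 (B01 (S 13 (L 40 11) (L 13 7)) (A03 (A02 (B12 (A01 (S 13 (L 40 11)
  (L 13 7)) (B01 (S 13 (L 40 11) (L 13 7)) (P 10 (K [(31,8,3),(38,10,2),(31,1,3)] [])))) (S 13 (L
  40 11) (L 13 7))) (B12 (A12 (B01 (S 13 (L 40 11) (L 13 7)) (P 10 (K
  [(31,8,10),(38,10,5),(31,1,9)] []))) (M 19 (S 13 (L 41 7) (L 13 7)))) (P 16 (L 49 4)))) (A13 (B12
  (A12 (S 10 (L 31 8) (L 2 8)) (M 19 (S 13 (L 41 7) (L 13 7)))) (P 16 (L 49 4))) (M 19 (S 13 (L 41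
  7) (L 13 7))))))) (B01 (P 16 (L 49 4)) (A13 (A12 (B12 (A01 (S 10 (L 31 8) (L 2 8)) (B01 (P 16 (L
  49 4)) (S 10 (L 31 8) (L 2 8)))) (P 16 (L 49 4))) (B12 (A02 (S 10 (L 31 8) (L 2 8)) (P 16 (L 49
  4))) (P 16 (L 49 4)))) (A03 (B12 (A02 (S 10 (L 31 8) (L 2 8)) (P 16 (L 49 4))) (P 16 (L 49 4)))
  (P 16 (L 49 4)))))) (A01 (P 10 (S 13 (L 40 11) (K [(13,7,14),(31,8,3),(31,1,6),(13,11,2)] [])))
  (A13 (A12 (S 10 (L 31 8) (L 2 8)) (S 13 (L 40 11) (K [(13,7,6),(13,11,1)] []))) (S 13 (L 40 11)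
  (K [(13,7,7),(13,11,1)] []))))) (P 16 (K [(49,4,6),(49,2,2)] []))) (P 16 (K [(49,4,6),(49,2,2)]
  [])))) (A03 (A02 (B12 (A01 (P 10 (B01 (A03 (A02 (S 13 (L 40 11) (L 13 11)) (S 13 (L 40 11) (K
  [(13,11,2),(13,7,6)] []))) (S 13 (L 40 11) (K [(13,11,2),(13,7,6)] []))) (L 31 8))) (B01 (A13
  (A12 (S 10 (L 31 8) (L 2 8)) (S 13 (L 40 11) (K [(13,11,2),(13,7,6)] []))) (S 13 (L 40 11) (K
  [(13,7,6),(13,11,2)] []))) (P 10 (L 31 8)))) (A01 (P 10 (A03 (A02 (K [(31,8,44),(31,1,20)] []) (S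
  13 (L 40 11) (K [(13,7,7),(13,11,1)] []))) (S 13 (L 40 11) (K [(13,7,7),(13,11,1)] [])))) (A13
  (A12 (S 10 (L 31 8) (L 2 8)) (S 13 (L 40 11) (K [(13,7,6),(13,11,1)] []))) (S 13 (L 40 11) (K
  [(13,7,7),(13,11,1)] []))))) (B12 (A12 (B01 (A13 (A01 (P 16 (K [(49,2,2),(49,4,6)] [])) (S 10 (L
  31 8) (L 2 8))) (P 16 (K [(49,4,6),(49,2,2)] []))) (P 10 (L 31 8))) (P 10 (B01 (P 16 (K
  [(49,4,6),(49,2,2)] [])) (L 31 8)))) (P 16 (K [(49,4,6),(49,2,2)] [])))) (A13 (B12 (A12 (B01 (S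
  10 (L 31 8) (L 2 8)) (P 10 (L 31 8))) (P 10 (B01 (P 16 (K [(49,4,3),(31,8,5)] [])) (L 31 8)))) (P
  16 (K [(49,4,6),(49,2,2)] []))) (P 10 (B12 (A23 (B01 (P 16 (L 49 4)) (L 31 8)) (L 31 8)) (P 16 (L
  49 4))))))) (B01 (P 16 (K [(49,4,6),(49,2,2)] [])) (A13 (A12 (B12 (A01 (S 10 (L 31 8) (L 2 8)) (P
  16 (S 10 (L 31 8) (L 50 8)))) (P 16 (S 10 (L 31 8) (L 50 8)))) (B12 (A02 (S 10 (L 31 8) (L 2 8))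
  (P 16 (P 10 (K [(31,8,5),(49,4,3)] [])))) (P 16 (K [(49,4,6),(49,2,2)] [])))) (A03 (B12 (A02 (S
  10 (L 31 8) (L 2 8)) (P 16 (P 10 (K [(31,8,5),(49,4,3)] [])))) (P 16 (K [(49,4,6),(49,2,2)] [])))
  (P 16 (P 10 (K [(49,4,4),(31,8,4)] []))))))))) (A01 (A03 (A02 (P 4 (M 3 (B02 (B01 (A01 (S 13 (L
  40 5) (L 13 7)) (P 16 (L 49 4))) (P 16 (L 49 4))) (P 16 (L 49 4))))) (P 16 (B02 (B01 (A12 (M 3 (L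
  49 4)) (S 3 (L 9 4) (L 49 4))) (S 3 (L 9 4) (L 49 4))) (P 10 (L 31 8))))) (P 16 (A13 (B02 (B01
  (A12 (M 3 (L 49 4)) (S 3 (L 9 4) (L 49 4))) (P 10 (L 31 8))) (P 10 (L 31 8))) (S 3 (L 9 4) (L 49
  4))))) (P 16 (A13 (A12 (B02 (B01 (A01 (A03 (A02 (M 3 (L 49 4)) (B02 (M 3 (L 49 4)) (B12 (M 3 (L
  49 4)) (P 18 (L 55 10))))) (A13 (B02 (M 3 (L 49 4)) (B12 (M 3 (L 49 4)) (P 18 (L 55 10)))) (B02
  (M 3 (L 49 4)) (P 10 (L 31 8))))) (P 18 (L 55 10))) (A01 (B12 (M 3 (L 49 4)) (A03 (A02 (M 3 (L 49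
  4)) (B02 (M 3 (L 49 4)) (A12 (M 3 (L 49 4)) (P 10 (L 31 8))))) (A13 (B02 (M 3 (L 49 4)) (A12 (M 3
  (L 49 4)) (P 10 (L 31 8)))) (P 10 (L 31 8))))) (B12 (M 3 (L 49 4)) (A13 (P 18 (L 55 10)) (A03 (P
  18 (L 55 10)) (P 10 (L 31 8))))))) (B12 (A01 (B01 (A03 (A02 (M 3 (L 49 4)) (B02 (A12 (M 3 (L 49
  4)) (P 10 (L 31 8))) (P 10 (L 31 8)))) (A13 (B02 (A12 (M 3 (L 49 4)) (P 10 (L 31 8))) (P 10 (L 31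
  8))) (P 10 (L 31 8)))) (M 3 (L 49 4))) (B01 (A13 (P 18 (L 55 10)) (A03 (P 18 (L 55 10)) (P 10 (L
  31 8)))) (M 3 (L 49 4)))) (A01 (A03 (A02 (B02 (M 3 (L 49 4)) (P 10 (L 31 8))) (B02 (B01 (P 18 (L
  55 10)) (P 10 (L 31 8))) (P 10 (L 31 8)))) (A13 (B02 (B01 (P 18 (L 55 10)) (P 10 (L 31 8))) (P 10
  (L 31 8))) (P 10 (L 31 8)))) (A13 (P 18 (L 55 10)) (A03 (P 18 (L 55 10)) (P 10 (L 31 8)))))))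
  (B02 (B01 (A02 (A03 (A01 (M 3 (L 49 4)) (B02 (M 3 (L 49 4)) (P 10 (L 31 8)))) (A23 (B02 (M 3 (L
  49 4)) (P 10 (L 31 8))) (B02 (M 3 (L 49 4)) (P 10 (L 31 8))))) (A23 (A12 (B02 (M 3 (L 49 4)) (P
  10 (L 31 8))) (S 3 (L 9 4) (L 49 4))) (A03 (B02 (M 3 (L 49 4)) (P 10 (L 31 8))) (B02 (M 3 (L 49
  4)) (P 10 (L 31 8)))))) (P 10 (L 31 8))) (P 10 (L 31 8)))) (A03 (B02 (B01 (A02 (A01 (M 3 (L 49
  4)) (A12 (B02 (M 3 (L 49 4)) (P 10 (L 31 8))) (M 3 (L 49 4)))) (S 3 (L 9 4) (L 49 4))) (P 10 (L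
  31 8))) (P 10 (L 31 8))) (S 3 (L 9 4) (L 49 4))))))))) (P 16 (B12 (M 11 (M 1 (A12 (B01 (A13 (A01
  (B02 (A02 (B01 (A03 (A01 (S 3 (L 9 4) (L 49 4)) (B02 (A12 (M 3 (L 49 4)) (S 3 (L 9 4) (L 49 4)))
  (S 3 (L 9 4) (L 49 4)))) (A23 (B02 (A12 (M 3 (L 49 4)) (S 3 (L 9 4) (L 49 4))) (S 3 (L 9 4) (L 49
  4))) (M 3 (L 49 4)))) (M 3 (L 49 4))) (B01 (P 18 (L 55 10)) (S 3 (L 9 4) (L 49 4)))) (S 3 (L 9 4)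
  (L 49 4))) (B02 (A12 (B01 (P 18 (L 55 10)) (M 3 (L 49 4))) (B01 (P 18 (L 55 10)) (A23 (A02 (M 3
  (L 49 4)) (B12 (A12 (M 3 (L 49 4)) (P 10 (L 31 8))) (P 18 (L 55 10)))) (M 3 (L 49 4))))) (A12 (M
  3 (L 49 4)) (P 10 (L 31 8))))) (S 3 (L 9 4) (L 49 4))) (A13 (A01 (P 10 (B12 (M 3 (K
  [(31,8,4),(49,4,4)] [])) (S 3 (L 9 4) (L 49 4)))) (B12 (S 10 (L 31 8) (L 50 8)) (A12 (M 3 (L 49
  4)) (P 10 (L 31 8))))) (P 10 (A23 (B12 (M 3 (K [(49,4,4),(31,8,4)] [])) (S 3 (L 9 4) (L 49 4)))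
  (M 3 (K [(49,4,4),(31,8,4)] [])))))) (P 10 (B01 (S 3 (L 9 4) (L 49 4)) (A23 (A02 (B12 (M 3 (K
  [(49,4,4),(31,8,4)] [])) (S 3 (L 9 4) (L 49 4))) (out 1)) (A13 (B12 (M 3 (K [(49,4,4),(31,8,4)]
  [])) (S 3 (L 9 4) (L 49 4))) (S 3 (L 9 4) (K [(49,4,4),(31,8,4)] []))))))))) (A12 (M 11 (M 1 (A13
  (A01 (B02 (B01 (A02 (A03 (A01 (S 3 (L 9 4) (L 49 4)) (B02 (B01 (P 18 (L 55 10)) (S 3 (L 9 4) (L
  49 4))) (S 3 (L 9 4) (L 49 4)))) (A23 (B02 (B01 (P 18 (L 55 10)) (S 3 (L 9 4) (L 49 4))) (S 3 (L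
  9 4) (L 49 4))) (B02 (B01 (P 18 (L 55 10)) (P 10 (L 31 8))) (P 10 (L 31 8))))) (P 18 (L 55 10)))
  (P 10 (L 31 8))) (P 10 (L 31 8))) (B02 (B01 (P 18 (L 55 10)) (A12 (B12 (A13 (A01 (P 10 (L 31 8))
  (B01 (P 18 (L 55 10)) (A12 (M 3 (L 49 4)) (P 10 (L 31 8))))) (P 10 (L 31 8))) (A13 (P 18 (L 55
  10)) (P 10 (L 31 8)))) (P 10 (L 31 8)))) (B12 (A12 (B01 (A13 (P 18 (L 55 10)) (P 10 (L 31 8)))
  (A13 (A01 (P 10 (L 31 8)) (B12 (A12 (M 3 (L 49 4)) (P 10 (L 31 8))) (P 18 (L 55 10)))) (P 10 (L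
  31 8)))) (P 10 (L 31 8))) (A12 (A13 (P 18 (L 55 10)) (P 10 (L 31 8))) (P 10 (L 31 8)))))) (S 3 (L
  9 4) (L 49 4))))) (A23 (A02 (M 11 (S 3 (L 9 4) (L 49 4))) (out 1)) (M 11 (S 3 (L 9 4) (L 49
  4)))))))) (P 16 (M 15 (P 12 (A13 (B12 (M 11 (M 1 (A12 (B01 (A01 (S 3 (L 9 4) (L 49 4)) (A13 (B02
  (A12 (B01 (P 18 (L 55 10)) (M 3 (L 49 4))) (B01 (P 18 (L 55 10)) (A02 (M 3 (L 49 4)) (A23 (B12
  (A12 (M 3 (L 49 4)) (P 10 (L 31 8))) (P 18 (L 55 10))) (B12 (M 3 (L 49 4)) (P 18 (L 55 10)))))))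
  (A12 (M 3 (L 49 4)) (P 10 (L 31 8)))) (B02 (A23 (B01 (P 18 (L 55 10)) (P 10 (L 31 8))) (B01 (P 18
  (L 55 10)) (P 10 (L 31 8)))) (P 10 (L 31 8))))) (A01 (P 10 (L 31 8)) (A13 (B12 (S 10 (L 31 8) (L
  50 8)) (A12 (M 3 (L 49 4)) (P 10 (L 31 8)))) (P 10 (L 31 8))))) (S 3 (L 9 4) (L 49 4))))) (A12 (M
  11 (M 1 (A01 (S 3 (L 9 4) (L 49 4)) (A13 (B02 (B01 (P 18 (L 55 10)) (A12 (B12 (A01 (P 10 (L 31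
  8)) (A13 (B01 (P 18 (L 55 10)) (A12 (M 3 (L 49 4)) (P 10 (L 31 8)))) (B01 (P 18 (L 55 10)) (P 10
  (L 31 8))))) (A01 (P 10 (L 31 8)) (P 18 (L 55 10)))) (P 10 (L 31 8)))) (B12 (A12 (B01 (A01 (P 10
  (L 31 8)) (P 18 (L 55 10))) (A01 (P 10 (L 31 8)) (A13 (B12 (A12 (M 3 (L 49 4)) (P 10 (L 31 8)))
  (P 18 (L 55 10))) (P 10 (L 31 8))))) (P 10 (L 31 8))) (A12 (A01 (P 10 (L 31 8)) (P 18 (L 55 10)))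
  (P 10 (L 31 8))))) (B02 (B01 (P 18 (L 55 10)) (P 10 (L 31 8))) (P 10 (L 31 8))))))) (A02 (M 11 (S
  3 (L 9 4) (L 49 4))) (out 1)))) (P 10 (B12 (M 11 (A23 (S 3 (L 9 4) (L 49 4)) (S 9 (L 29 1) (L 1
  1)))) (A23 (A02 (P 14 (M 11 (A03 (B02 (S 3 (L 9 4) (L 49 4)) (B12 (M 1 (L 31 8)) (A01 (A02 (A03
  (M 1 (L 31 8)) (B02 (M 1 (L 31 8)) (B12 (A13 (M 1 (L 31 8)) (out 1)) (M 4 (L 42 7))))) (M 4 (L 42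
  7))) (M 4 (L 42 7))))) (out 1)))) (out 1)) (P 14 (A03 (A02 (B02 (M 1 (L 31 8)) (B12 (M 1 (L 31
  8)) (A01 (A03 (A02 (B02 (M 1 (L 31 8)) (B12 (M 1 (L 31 8)) (A01 (M 18 (L 38 10)) (M 4 (L 42
  7))))) (B02 (M 1 (L 31 8)) (B12 (A12 (M 1 (L 31 8)) (out 1)) (M 4 (L 42 7))))) (out 2)) (out
  2)))) (out 1)) (out 1)))))))))))))))))

/-- its cell -/
def cI1 : Cell :=
  ⟨557056, 557056, 557056, 1114112, 0, 0, 1114112, 1114112, 0, 1114112, 1114112, 1114112, 0, 0, 0, 5070848, 3129344, 0⟩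

theorem okI1 : check datI tI1 cI1 256 0 = true := by
  decide +kernel

end Pool.Agent.H315.NW
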