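import Pool.Agent.H315.NW.Data

/-!
# Project NW (helper315): certificates (generated)
-/

set_option autoImplicit false
set_option maxRecDepth 100000

namespace Pool.Agent.H315.NW

open Tr

/-- a part of the certificate -/
def tI2 : Tr :=
  (P 4 (M 3 (A02 (A01 (M 18 (M 7 (P 0 (A03 (M 16 (P 13 (A02 (B12 (A01 (P 15 (B01 (A03 (out 9) (A13
  (out 9) (B02 (A23 (out 10) (B01 (M 1 (L 45 7)) (A03 (out 10) (M 1 (L 45 7))))) (A23 (out 10) (A03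
  (out 10) (M 1 (L 45 7))))))) (A03 (out 9) (A13 (out 9) (B12 (M 2 (L 25 2)) (A23 (out 10) (A03
  (out 10) (A13 (B02 (B01 (A12 (out 9) (A02 (M 19 (L 41 10)) (M 1 (L 45 7)))) (M 19 (L 41 10))) (M
  19 (L 41 10))) (B02 (B01 (A23 (A02 (M 19 (L 41 10)) (S 10 (L 32 1) (L 2 1))) (M 19 (L 41 10))) (M
  19 (K [(41,10,4),(41,5,4)] []))) (M 19 (K [(41,10,4),(41,5,4)] []))))))))))) (B01 (M 1 (A13 (out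
  9) (A03 (out 9) (B02 (A23 (B01 (P 19 (L 58 10)) (P 15 (L 45 7))) (B01 (A13 (P 19 (L 58 10)) (P 15
  (L 45 7))) (P 15 (L 45 7)))) (P 15 (L 45 7)))))) (A13 (out 9) (M 12 (A03 (out 9) (B12 (A23 (B01
  (S 2 (L 7 2) (L 25 2)) (A12 (M 19 (L 41 10)) (out 10))) (B01 (A13 (S 2 (L 7 2) (L 25 2)) (A03 (S
  2 (L 7 2) (L 25 2)) (B02 (S 2 (L 7 2) (L 25 2)) (S 2 (L 7 2) (L 25 2))))) (S 2 (L 7 2) (L 25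
  2)))) (A23 (S 10 (L 32 1) (L 2 1)) (A13 (S 10 (L 32 1) (L 2 1)) (A03 (S 10 (L 32 1) (L 2 1)) (B02
  (B01 (S 10 (L 32 1) (L 2 1)) (M 19 (K [(41,10,4),(41,5,4)] []))) (M 19 (K [(41,10,4),(41,5,4)]
  [])))))))))))) (A01 (A03 (out 9) (A13 (out 9) (B02 (B01 (M 1 (A23 (out 10) (A03 (out 10) (A13 (P
  15 (L 45 7)) (B02 (P 15 (L 45 7)) (B12 (P 15 (L 45 7)) (M 5 (L 40 5)))))))) (A23 (out 10) (B12 (P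
  15 (A03 (out 10) (M 1 (L 45 7)))) (M 1 (A03 (out 10) (A13 (P 15 (L 45 7)) (B02 (P 15 (L 45 7)) (M
  5 (L 40 5))))))))) (B12 (A23 (out 10) (B01 (M 5 (L 40 5)) (P 15 (A03 (out 10) (M 1 (L 45 7))))))
  (M 5 (L 40 5)))))) (M 1 (A13 (out 9) (A03 (out 9) (B02 (B01 (A23 (P 19 (L 58 10)) (A13 (P 19 (L
  58 10)) (A03 (B02 (B01 (P 19 (L 58 10)) (A02 (out 9) (B12 (P 15 (L 45 7)) (P 19 (L 58 10)))))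
  (B12 (A02 (out 9) (B01 (P 19 (L 58 10)) (P 15 (L 45 7)))) (P 19 (L 58 10)))) (B02 (B01 (P 19 (L
  58 10)) (A23 (B12 (P 15 (L 45 7)) (P 19 (L 58 10))) (S 10 (L 32 1) (L 2 1)))) (B12 (A23 (B01 (P
  19 (L 58 10)) (P 15 (L 45 7))) (M 5 (L 40 5))) (M 5 (L 40 5))))))) (A23 (B12 (A12 (A13 (out 9) (P
  15 (L 45 7))) (out 10)) (A12 (A13 (out 9) (B02 (P 15 (L 45 7)) (M 5 (L 40 5)))) (out 10))) (B12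
  (A13 (A12 (out 9) (P 15 (L 45 7))) (P 15 (L 45 7))) (A13 (A12 (out 9) (B02 (P 15 (L 45 7)) (M 5
  (L 40 5)))) (A03 (B02 (P 15 (L 45 7)) (M 5 (L 40 5))) (B02 (P 15 (L 45 7)) (M 5 (L 40 5))))))))
  (B12 (A23 (B01 (A12 (M 5 (L 40 5)) (out 10)) (A12 (M 5 (L 40 5)) (out 10))) (M 5 (L 40 5))) (M 5
  (L 40 5))))))))) (B12 (A12 (B01 (M 1 (A13 (out 9) (A23 (B02 (P 19 (L 58 10)) (A02 (P 15 (L 45 7))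
  (A12 (A01 (P 19 (L 58 10)) (B12 (P 19 (L 58 10)) (B02 (P 19 (L 58 10)) (P 15 (L 45 7))))) (P 19
  (L 58 10))))) (B02 (A03 (P 19 (L 58 10)) (B01 (A13 (P 19 (L 58 10)) (A23 (P 19 (L 58 10)) (P 15
  (L 45 7)))) (P 15 (L 45 7)))) (P 15 (L 45 7)))))) (A13 (out 9) (P 15 (M 12 (A23 (B12 (A02 (B01 (M
  1 (L 45 7)) (A01 (M 2 (L 25 2)) (S 2 (L 8 2) (L 25 2)))) (S 2 (L 8 2) (L 25 2))) (M 1 (L 45 7)))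
  (B12 (A03 (B01 (S 2 (L 8 2) (L 25 2)) (A01 (M 2 (L 25 2)) (A13 (B12 (A12 (out 9) (M 2 (L 25 2)))
  (S 2 (L 8 2) (L 25 2))) (M 2 (L 25 2))))) (B01 (A13 (S 2 (L 8 2) (L 25 2)) (A23 (S 2 (L 7 2) (L
  25 2)) (B02 (S 2 (L 7 2) (L 25 2)) (P 10 (S 1 (L 4 3) (L 31 1)))))) (A13 (A01 (B12 (M 2 (L 25 2))
  (A02 (M 19 (L 41 10)) (S 2 (L 7 2) (L 25 2)))) (B12 (A12 (out 9) (M 2 (L 25 2))) (S 2 (L 8 2) (L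
  25 2)))) (A23 (B12 (M 2 (L 25 2)) (A02 (M 19 (L 41 10)) (S 2 (L 7 2) (L 25 2)))) (S 2 (L 7 2) (L
  25 2)))))) (A03 (S 10 (L 32 1) (L 2 1)) (A13 (S 10 (L 32 1) (L 2 1)) (A23 (S 10 (L 32 1) (L 2 1))
  (B02 (B01 (S 10 (L 32 1) (L 2 1)) (P 10 (S 1 (L 4 1) (L 31 1)))) (P 10 (S 1 (L 4 1) (L 31
  1))))))))))))) (B01 (M 1 (A23 (P 19 (L 58 10)) (A13 (P 19 (L 58 10)) (B02 (A03 (P 19 (L 58 10))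
  (B01 (A23 (P 19 (L 58 10)) (A13 (P 19 (L 58 10)) (B02 (P 19 (L 58 10)) (P 15 (L 45 7))))) (P 15
  (L 45 7)))) (P 15 (L 45 7)))))) (A23 (A02 (B12 (S 10 (L 32 1) (L 2 1)) (S 10 (L 32 1) (L 2 1)))
  (P 19 (L 58 10))) (A13 (B12 (M 2 (L 25 2)) (S 10 (L 32 1) (L 2 1))) (B12 (M 2 (L 25 2)) (A03 (S
  10 (L 32 1) (L 2 1)) (A23 (S 10 (L 32 1) (L 2 1)) (A13 (S 10 (L 32 1) (L 2 1)) (B02 (B01 (S 10 (L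
  32 1) (L 2 1)) (P 10 (S 1 (L 4 1) (L 31 1)))) (P 10 (S 1 (L 4 1) (L 31 1)))))))))))) (M 1 (A12
  (A13 (out 9) (A23 (B02 (B01 (P 19 (L 58 10)) (A02 (B12 (A01 (A03 (out 9) (B01 (P 19 (L 58 10))
  (A23 (out 9) (B12 (P 15 (L 45 7)) (P 19 (L 58 10)))))) (A12 (B01 (P 19 (L 58 10)) (M 5 (L 40 5)))
  (B01 (P 19 (L 58 10)) (A23 (out 9) (M 5 (L 40 5)))))) (P 19 (L 58 10))) (B12 (A12 (A01 (P 19 (L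
  58 10)) (M 5 (L 40 5))) (P 19 (L 58 10))) (P 19 (L 58 10))))) (B12 (A02 (B01 (P 19 (L 58 10))
  (A01 (A03 (out 9) (B12 (A23 (out 9) (M 5 (L 40 5))) (P 19 (L 58 10)))) (A12 (M 5 (L 40 5)) (B12
  (A23 (out 9) (M 5 (L 40 5))) (P 19 (L 58 10)))))) (B01 (P 19 (L 58 10)) (A12 (A01 (P 19 (L 58
  10)) (M 5 (L 40 5))) (P 19 (L 58 10))))) (P 19 (L 58 10)))) (B02 (B01 (A03 (P 19 (L 58 10)) (A13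
  (P 19 (L 58 10)) (A23 (P 19 (L 58 10)) (B02 (B01 (P 19 (L 58 10)) (A03 (P 19 (L 58 10)) (S 10 (L
  32 1) (L 2 1)))) (B12 (A03 (P 19 (L 58 10)) (M 5 (L 40 5))) (M 5 (L 40 5))))))) (A03 (B12 (A01
  (A02 (out 10) (B01 (A23 (P 19 (L 58 10)) (P 15 (L 45 7))) (A23 (B12 (P 15 (L 45 7)) (P 19 (L 58
  10))) (P 15 (L 45 7))))) (A13 (B01 (P 19 (L 58 10)) (M 5 (L 40 5))) (B01 (A23 (P 19 (L 58 10)) (P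
  15 (L 45 7))) (M 5 (L 40 5))))) (P 19 (L 58 10))) (B12 (A13 (A01 (B01 (A02 (P 15 (L 45 7)) (M 5
  (L 40 5))) (M 5 (L 40 5))) (M 5 (L 40 5))) (A23 (B01 (A02 (P 15 (L 45 7)) (M 5 (L 40 5))) (M 5 (L
  40 5))) (P 15 (L 45 7)))) (A13 (A01 (B02 (A02 (P 15 (L 45 7)) (M 5 (L 40 5))) (M 5 (L 40 5))) (M
  5 (L 40 5))) (A23 (B02 (A02 (P 15 (L 45 7)) (M 5 (L 40 5))) (M 5 (L 40 5))) (B02 (P 15 (L 45 7))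
  (M 5 (L 40 5)))))))) (B12 (A03 (B01 (A01 (A02 (out 10) (M 5 (L 40 5))) (M 5 (L 40 5))) (A01 (A02
  (out 10) (M 5 (L 40 5))) (M 5 (L 40 5)))) (M 5 (L 40 5))) (M 5 (L 40 5)))))) (A23 (P 19 (L 58
  10)) (A13 (P 19 (L 58 10)) (B02 (B01 (A03 (P 19 (L 58 10)) (A23 (P 19 (L 58 10)) (A13 (P 19 (L 58
  10)) (B02 (B01 (P 19 (L 58 10)) (A03 (P 19 (L 58 10)) (S 10 (L 32 1) (L 2 1)))) (B12 (A03 (P 19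
  (L 58 10)) (S 10 (L 32 1) (L 2 1))) (M 5 (L 40 5))))))) (A03 (B12 (A02 (A01 (out 10) (B01 (A13 (P
  19 (L 58 10)) (P 15 (L 45 7))) (A13 (B12 (P 15 (L 45 7)) (P 19 (L 58 10))) (P 15 (L 45 7)))))
  (A23 (B01 (P 19 (L 58 10)) (A12 (B12 (P 15 (L 45 7)) (P 19 (L 58 10))) (B12 (P 15 (L 45 7)) (P 19
  (L 58 10))))) (B01 (A13 (P 19 (L 58 10)) (P 15 (L 45 7))) (A13 (B12 (P 15 (L 45 7)) (P 19 (L 58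
  10))) (P 15 (L 45 7)))))) (P 19 (L 58 10))) (B12 (A23 (A02 (B01 (A01 (P 15 (L 45 7)) (P 19 (L 58
  10))) (S 10 (L 32 1) (L 2 1))) (S 10 (L 32 1) (L 2 1))) (A13 (B01 (A01 (P 15 (L 45 7)) (S 10 (L
  32 1) (L 2 1))) (S 10 (L 32 1) (L 2 1))) (P 15 (L 45 7)))) (A23 (P 19 (L 58 10)) (A13 (B02 (A01
  (P 15 (L 45 7)) (S 10 (L 32 1) (L 2 1))) (M 5 (L 40 5))) (B02 (P 15 (L 45 7)) (M 5 (L 40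
  5)))))))) (B12 (A03 (B01 (A02 (A01 (out 10) (M 5 (L 40 5))) (S 10 (L 32 1) (L 2 1))) (A02 (A01
  (out 10) (B12 (A13 (B01 (M 5 (L 40 5)) (P 15 (L 45 7))) (P 15 (L 45 7))) (M 5 (L 40 5)))) (A23
  (B12 (A12 (B01 (P 19 (L 58 10)) (P 15 (L 45 7))) (B01 (P 19 (L 58 10)) (P 15 (L 45 7)))) (P 19 (L
  58 10))) (B12 (A13 (B01 (M 5 (L 40 5)) (P 15 (L 45 7))) (P 15 (L 45 7))) (M 5 (L 40 5)))))) (S 10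
  (L 31 1) (L 2 1))) (M 5 (L 40 5)))))))))))) (A13 (M 16 (P 13 (B12 (A12 (B01 (M 1 (A01 (A02 (B02
  (A03 (B01 (S 10 (L 32 1) (L 2 1)) (A01 (A02 (B12 (P 15 (L 45 7)) (S 10 (L 32 1) (L 2 1))) (B12 (P
  15 (L 45 7)) (P 19 (L 58 10)))) (A13 (P 15 (L 45 7)) (B12 (P 15 (L 45 7)) (P 19 (L 58 10))))))
  (B01 (P 19 (L 58 10)) (A13 (A01 (B12 (A02 (S 10 (L 32 1) (L 2 1)) (P 19 (L 58 10))) (P 19 (L 58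
  10))) (P 19 (L 58 10))) (A23 (B12 (A02 (S 10 (L 32 1) (L 2 1)) (P 19 (L 58 10))) (P 19 (L 58
  10))) (S 10 (L 32 1) (L 2 1)))))) (A03 (A01 (A02 (B12 (B01 (S 10 (L 32 1) (L 2 1)) (P 15 (L 45
  7))) (S 10 (L 31 1) (L 2 1))) (B12 (B01 (S 10 (L 32 1) (L 2 1)) (P 15 (L 45 7))) (S 10 (L 31 1)
  (L 2 1)))) (A13 (P 15 (L 45 7)) (B12 (B01 (S 10 (L 32 1) (L 2 1)) (P 15 (L 45 7))) (S 10 (L 31 1)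
  (L 2 1))))) (A13 (A01 (B12 (B01 (S 10 (L 32 1) (L 2 1)) (P 15 (L 45 7))) (S 10 (L 31 1) (L 2 1)))
  (B12 (B01 (S 10 (L 32 1) (L 2 1)) (P 15 (L 45 7))) (S 10 (L 31 1) (L 2 1)))) (A23 (B12 (B01 (S 10
  (L 32 1) (L 2 1)) (P 15 (L 45 7))) (S 10 (L 31 1) (L 2 1))) (S 10 (L 31 1) (L 2 1)))))) (B02 (P
  19 (L 58 10)) (A23 (A12 (A13 (B12 (P 19 (L 58 10)) (S 10 (L 32 1) (L 2 1))) (P 19 (L 58 10))) (P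
  19 (L 58 10))) (A13 (A12 (B12 (P 19 (L 58 10)) (S 10 (L 31 1) (L 2 1))) (B12 (P 19 (L 58 10)) (S
  10 (L 32 1) (L 2 1)))) (A03 (B12 (P 19 (L 58 10)) (S 10 (L 32 1) (L 2 1))) (S 10 (L 31 1) (L 2
  1))))))) (A13 (out 9) (B02 (P 19 (L 58 10)) (A23 (A02 (A03 (out 9) (P 19 (L 58 10))) (P 19 (L 58
  10))) (A03 (A02 (out 9) (S 10 (L 31 1) (L 2 1))) (S 10 (L 31 1) (L 2 1)))))))) (A01 (A02 (B12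
  (A03 (M 12 (B01 (A01 (A02 (B02 (S 2 (L 8 2) (L 25 2)) (P 10 (S 1 (L 4 3) (L 31 1)))) (S 2 (L 8 2)
  (L 25 2))) (S 2 (L 8 2) (L 25 2))) (A01 (A02 (S 2 (L 8 2) (L 25 2)) (B12 (A23 (M 2 (L 25 2)) (M
  19 (L 41 10))) (S 2 (L 8 2) (L 25 2)))) (A13 (B12 (A12 (out 9) (B01 (S 2 (L 8 2) (L 25 2)) (M 19
  (L 41 10)))) (S 2 (L 8 2) (L 25 2))) (B12 (A23 (B01 (S 2 (L 7 2) (L 25 2)) (M 19 (L 41 10))) (M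
  19 (L 41 10))) (S 2 (L 8 2) (L 25 2))))))) (M 1 (B01 (A13 (S 10 (L 31 1) (L 2 1)) (A23 (S 10 (L
  31 1) (L 2 1)) (S 10 (L 31 1) (L 2 1)))) (A13 (A01 (B12 (S 2 (L 8 2) (L 25 2)) (S 10 (L 31 1) (L
  2 1))) (S 10 (L 32 1) (L 2 1))) (S 10 (L 31 1) (L 2 1)))))) (A03 (A01 (A02 (B02 (B01 (S 10 (L 32
  1) (L 2 1)) (P 10 (S 1 (L 4 1) (L 31 1)))) (P 10 (S 1 (L 4 1) (L 31 1)))) (M 1 (S 10 (L 31 1) (L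
  2 1)))) (M 1 (S 10 (L 31 1) (L 2 1)))) (M 1 (A13 (S 10 (L 31 1) (L 2 1)) (A23 (S 10 (L 31 1) (L 2
  1)) (S 10 (L 31 1) (L 2 1))))))) (M 1 (B12 (A23 (S 2 (L 8 2) (L 25 2)) (B01 (A13 (P 15 (L 45 7))
  (A03 (P 15 (L 45 7)) (S 10 (L 32 1) (L 2 1)))) (S 10 (L 32 1) (L 2 1)))) (A23 (A12 (A13 (P 15 (L
  45 7)) (B02 (B01 (P 19 (L 58 10)) (A03 (P 15 (L 45 7)) (B12 (P 15 (L 45 7)) (P 19 (L 58 10)))))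
  (B12 (A03 (P 15 (L 45 7)) (S 10 (L 32 1) (L 2 1))) (S 10 (L 32 1) (L 2 1))))) (A02 (B02 (B01 (P
  19 (L 58 10)) (A03 (P 15 (L 45 7)) (P 19 (L 58 10)))) (B12 (A03 (P 15 (L 45 7)) (P 19 (L 58 10)))
  (S 10 (L 32 1) (L 2 1)))) (P 19 (L 58 10)))) (A13 (A12 (P 15 (L 45 7)) (B02 (B01 (A02 (P 15 (L 45
  7)) (S 10 (L 32 1) (L 2 1))) (A02 (P 15 (L 45 7)) (S 10 (L 32 1) (L 2 1)))) (B12 (A02 (P 15 (L 45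
  7)) (S 10 (L 32 1) (L 2 1))) (S 10 (L 31 1) (L 2 1))))) (A03 (B02 (B01 (A02 (P 15 (L 45 7)) (S 10
  (L 32 1) (L 2 1))) (A02 (P 15 (L 45 7)) (S 10 (L 32 1) (L 2 1)))) (B12 (A02 (P 15 (L 45 7)) (S 10
  (L 32 1) (L 2 1))) (S 10 (L 31 1) (L 2 1)))) (S 10 (L 31 1) (L 2 1)))))))) (M 1 (A13 (out 9) (B12
  (A23 (S 10 (L 32 1) (L 2 1)) (B01 (A03 (P 15 (L 45 7)) (S 10 (L 32 1) (L 2 1))) (S 10 (L 32 1) (L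
  2 1)))) (A23 (A02 (A03 (out 9) (B02 (B01 (P 19 (L 58 10)) (A13 (out 9) (B12 (P 15 (L 45 7)) (P 19
  (L 58 10))))) (S 10 (L 31 1) (L 2 1)))) (P 19 (L 58 10))) (A03 (A02 (out 9) (S 10 (L 31 1) (L 2
  1))) (S 10 (L 31 1) (L 2 1))))))))) (B01 (M 1 (A02 (A01 (B02 (A03 (B01 (A02 (S 10 (L 32 1) (L 2
  1)) (P 19 (L 58 10))) (A02 (A01 (B12 (P 15 (L 45 7)) (S 10 (L 32 1) (L 2 1))) (B12 (P 15 (L 45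
  7)) (P 19 (L 58 10)))) (A23 (P 19 (L 58 10)) (B12 (P 15 (L 45 7)) (P 19 (L 58 10)))))) (B01 (P 19
  (L 58 10)) (A23 (A02 (B12 (A01 (B01 (P 19 (L 58 10)) (P 15 (L 45 7))) (P 19 (L 58 10))) (P 19 (L
  58 10))) (P 19 (L 58 10))) (A13 (B12 (A01 (S 10 (L 32 1) (L 2 1)) (P 19 (L 58 10))) (P 19 (L 58
  10))) (S 10 (L 32 1) (L 2 1)))))) (A03 (A02 (A01 (B12 (B01 (S 10 (L 32 1) (L 2 1)) (P 15 (L 45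
  7))) (S 10 (L 31 1) (L 2 1))) (B12 (B01 (S 10 (L 32 1) (L 2 1)) (P 15 (L 45 7))) (S 10 (L 31 1)
  (L 2 1)))) (A23 (P 15 (L 45 7)) (B12 (B01 (S 10 (L 32 1) (L 2 1)) (P 15 (L 45 7))) (S 10 (L 31 1)
  (L 2 1))))) (A23 (A02 (B12 (B01 (S 10 (L 32 1) (L 2 1)) (P 15 (L 45 7))) (S 10 (L 31 1) (L 2 1)))
  (B12 (P 19 (L 58 10)) (B02 (P 19 (L 58 10)) (A12 (S 10 (L 32 1) (L 2 1)) (A23 (P 15 (L 45 7)) (S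
  10 (L 32 1) (L 2 1))))))) (A13 (B12 (B01 (S 10 (L 32 1) (L 2 1)) (P 15 (L 45 7))) (S 10 (L 31 1)
  (L 2 1))) (S 10 (L 31 1) (L 2 1)))))) (B02 (P 19 (L 58 10)) (A13 (P 19 (L 58 10)) (A23 (P 19 (L
  58 10)) (A03 (B12 (P 19 (L 58 10)) (S 10 (L 32 1) (L 2 1))) (S 10 (L 32 1) (L 2 1))))))) (A23 (P
  19 (L 58 10)) (B02 (P 19 (L 58 10)) (A13 (P 19 (L 58 10)) (A03 (P 19 (L 58 10)) (S 10 (L 32 1) (L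
  2 1)))))))) (A02 (A01 (B12 (A03 (B01 (A02 (A01 (B02 (S 2 (L 8 2) (L 25 2)) (P 10 (S 1 (L 4 1) (L
  31 1)))) (S 2 (L 8 2) (L 25 2))) (S 2 (L 8 2) (L 25 2))) (A02 (A01 (S 2 (L 8 2) (L 25 2)) (B12
  (A13 (M 2 (L 25 2)) (M 19 (L 41 10))) (S 2 (L 8 2) (L 25 2)))) (S 2 (L 8 2) (L 25 2)))) (M 1 (B01
  (A23 (S 2 (L 8 2) (L 25 2)) (A13 (S 2 (L 8 2) (L 25 2)) (B02 (A03 (S 2 (L 8 2) (L 25 2)) (B01 (M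
  5 (L 40 11)) (P 15 (L 45 7)))) (S 10 (L 31 1) (L 2 1))))) (S 10 (L 31 1) (L 2 1))))) (A03 (A02
  (A01 (B02 (B01 (S 10 (L 32 1) (L 2 1)) (P 10 (S 1 (L 4 1) (L 31 1)))) (P 10 (S 1 (L 4 1) (L 31
  1)))) (M 1 (S 10 (L 31 1) (L 2 1)))) (M 1 (S 10 (L 31 1) (L 2 1)))) (M 1 (A23 (S 10 (L 31 1) (L 2
  1)) (A13 (S 10 (L 31 1) (L 2 1)) (S 10 (L 31 1) (L 2 1))))))) (M 1 (B12 (A13 (S 2 (L 8 2) (L 25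
  2)) (B01 (A23 (S 2 (L 8 2) (L 25 2)) (A03 (P 15 (L 45 7)) (B02 (A13 (P 19 (L 58 10)) (B01 (P 19
  (L 58 10)) (P 15 (L 45 7)))) (P 15 (L 45 7))))) (S 10 (L 32 1) (L 2 1)))) (A13 (A12 (A01 (B02
  (B01 (P 19 (L 58 10)) (A03 (P 15 (L 45 7)) (P 19 (L 58 10)))) (B12 (A03 (P 15 (L 45 7)) (P 19 (L
  58 10))) (A03 (P 15 (L 45 7)) (P 19 (L 58 10))))) (P 19 (L 58 10))) (A23 (S 10 (L 32 1) (L 2 1))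
  (B02 (B01 (P 19 (L 58 10)) (A03 (P 15 (L 45 7)) (P 19 (L 58 10)))) (B12 (A03 (P 15 (L 45 7)) (P
  19 (L 58 10))) (A03 (P 15 (L 45 7)) (P 19 (L 58 10))))))) (A23 (A12 (B02 (B01 (P 19 (L 58 10))
  (A01 (P 15 (L 45 7)) (B12 (P 15 (L 45 7)) (P 19 (L 58 10))))) (B12 (A01 (P 15 (L 45 7)) (S 10 (L
  32 1) (L 2 1))) (S 10 (L 32 1) (L 2 1)))) (S 10 (L 32 1) (L 2 1))) (A03 (B02 (B01 (P 19 (L 58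
  10)) (A01 (P 15 (L 45 7)) (S 10 (L 32 1) (L 2 1)))) (B12 (A01 (P 15 (L 45 7)) (S 10 (L 32 1) (L 2
  1))) (S 10 (L 32 1) (L 2 1)))) (S 10 (L 32 1) (L 2 1)))))))) (M 1 (A23 (P 19 (L 58 10)) (B12 (A13
  (P 19 (L 58 10)) (B01 (A03 (S 2 (L 8 2) (L 25 2)) (A23 (P 15 (L 45 7)) (B02 (A13 (P 19 (L 58 10))
  (B01 (P 19 (L 58 10)) (P 15 (L 45 7)))) (P 15 (L 45 7))))) (S 10 (L 32 1) (L 2 1)))) (A13 (P 19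
  (L 58 10)) (A03 (A01 (B02 (B01 (P 19 (L 58 10)) (A02 (M 12 (S 2 (L 7 4) (L 25 4))) (B12 (P 15 (L
  45 7)) (P 19 (L 58 10))))) (B12 (A02 (M 12 (S 2 (L 7 4) (L 25 4))) (B01 (P 19 (L 58 10)) (P 15 (L
  45 7)))) (P 19 (L 58 10)))) (B02 (B01 (P 19 (L 58 10)) (A12 (B12 (P 15 (L 45 7)) (P 19 (L 58
  10))) (B12 (P 15 (L 45 7)) (P 19 (L 58 10))))) (S 10 (L 32 1) (L 2 1)))) (S 10 (L 32 1) (L 2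
  1)))))))))) (M 1 (A12 (A01 (A02 (S 10 (L 31 1) (L 2 1)) (B02 (B01 (P 19 (L 58 10)) (M 5 (L 40
  5))) (M 5 (L 40 5)))) (A13 (out 9) (B02 (B01 (P 19 (L 58 10)) (M 5 (L 40 5))) (M 5 (L 40 5)))))
  (A02 (A01 (S 10 (L 31 1) (L 2 1)) (B02 (B01 (P 19 (L 58 10)) (S 10 (L 32 1) (L 2 1))) (S 10 (L 32
  1) (L 2 1)))) (A23 (P 19 (L 58 10)) (B02 (B01 (P 19 (L 58 10)) (S 10 (L 32 1) (L 2 1))) (S 10 (L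
  32 1) (L 2 1)))))))))) (B12 (A23 (M 16 (P 13 (B01 (P 6 (M 1 (A02 (A03 (B02 (A01 (B01 (A02 (S 10
  (L 32 1) (L 2 1)) (P 19 (L 58 10))) (A02 (A03 (B12 (P 15 (L 45 7)) (S 10 (L 32 1) (L 2 1))) (B12
  (P 15 (L 45 7)) (P 19 (L 58 10)))) (A12 (B12 (P 15 (L 45 7)) (P 19 (L 58 10))) (P 19 (L 58
  10))))) (B01 (P 19 (L 58 10)) (A12 (S 10 (L 32 1) (L 2 1)) (A02 (B12 (A03 (B01 (P 19 (L 58 10))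
  (P 15 (L 45 7))) (P 19 (L 58 10))) (P 19 (L 58 10))) (P 19 (L 58 10)))))) (A01 (A02 (A03 (B12
  (B01 (S 10 (L 32 1) (L 2 1)) (P 15 (L 45 7))) (S 10 (L 31 1) (L 2 1))) (B12 (B01 (S 10 (L 32 1)
  (L 2 1)) (P 15 (L 45 7))) (S 10 (L 31 1) (L 2 1)))) (A12 (B12 (B01 (S 10 (L 32 1) (L 2 1)) (P 15
  (L 45 7))) (S 10 (L 31 1) (L 2 1))) (B12 (B01 (A23 (P 15 (L 45 7)) (S 10 (L 32 1) (L 2 1))) (P 15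
  (L 45 7))) (B02 (A23 (P 15 (L 45 7)) (S 10 (L 32 1) (L 2 1))) (P 15 (L 45 7)))))) (A12 (S 10 (L
  31 1) (L 2 1)) (A02 (B12 (B01 (S 10 (L 32 1) (L 2 1)) (P 15 (L 45 7))) (S 10 (L 31 1) (L 2 1)))
  (B12 (B01 (A23 (P 19 (L 58 10)) (S 10 (L 32 1) (L 2 1))) (P 15 (L 45 7))) (B02 (A23 (P 19 (L 58
  10)) (S 10 (L 32 1) (L 2 1))) (A23 (A12 (S 10 (L 32 1) (L 2 1)) (P 15 (L 45 7))) (S 10 (L 31 1)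
  (L 2 1))))))))) (B02 (P 19 (L 58 10)) (A13 (A12 (S 10 (L 31 1) (L 2 1)) (A23 (B12 (B01 (A02 (S 10
  (L 32 1) (L 2 1)) (P 19 (L 58 10))) (P 15 (L 45 7))) (B02 (A02 (S 10 (L 32 1) (L 2 1)) (P 19 (L
  58 10))) (A02 (S 10 (L 31 1) (L 2 1)) (P 19 (L 58 10))))) (S 10 (L 31 1) (L 2 1)))) (A23 (A12 (S
  10 (L 31 1) (L 2 1)) (B12 (B01 (A02 (S 10 (L 32 1) (L 2 1)) (P 19 (L 58 10))) (A02 (A03 (P 15 (L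
  45 7)) (P 19 (L 58 10))) (P 19 (L 58 10)))) (B02 (A02 (S 10 (L 32 1) (L 2 1)) (P 19 (L 58 10)))
  (A02 (S 10 (L 31 1) (L 2 1)) (P 19 (L 58 10)))))) (S 12 (L 38 4) (L 18 4)))))) (A12 (B02 (P 19 (L
  58 10)) (A13 (A01 (P 19 (L 58 10)) (S 10 (L 32 1) (L 2 1))) (S 12 (L 38 4) (L 18 4)))) (S 12 (L
  38 4) (L 18 4)))))) (A02 (A03 (B12 (A01 (M 12 (B01 (A02 (A03 (B02 (S 2 (L 8 2) (L 25 2)) (P 10 (S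
  1 (L 4 1) (L 31 1)))) (S 2 (L 7 4) (L 25 2))) (S 2 (L 8 2) (L 25 2))) (A02 (S 2 (L 8 2) (L 25 2))
  (S 2 (L 8 2) (L 25 2))))) (M 1 (B01 (A12 (A13 (B02 (A01 (M 12 (S 2 (L 7 4) (L 25 2))) (B01 (M 5
  (L 40 11)) (P 15 (L 45 7)))) (M 12 (S 2 (L 7 4) (L 25 2)))) (M 12 (S 2 (L 7 4) (L 25 4)))) (S 2
  (L 8 2) (L 25 2))) (S 10 (L 31 1) (L 2 1))))) (A01 (M 12 (A02 (A03 (B02 (B01 (S 2 (L 7 4) (L 25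
  4)) (P 10 (S 1 (L 4 1) (L 31 1)))) (P 10 (S 1 (L 4 1) (L 31 1)))) (S 2 (L 7 4) (L 25 4))) (S 2 (L
  7 4) (L 25 4)))) (M 1 (A12 (S 10 (L 31 1) (L 2 1)) (M 12 (S 2 (L 7 4) (L 25 4))))))) (M 1 (B12
  (A13 (B01 (A12 (A01 (B02 (A03 (M 12 (S 2 (L 7 4) (L 25 4))) (B01 (P 19 (L 58 10)) (M 12 (S 2 (L 7
  4) (L 25 4))))) (M 12 (S 2 (L 7 4) (L 25 4)))) (B02 (A13 (B01 (P 19 (L 58 10)) (P 15 (L 45 7)))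
  (B01 (P 19 (L 58 10)) (P 15 (L 45 7)))) (P 15 (L 45 7)))) (A23 (S 2 (L 8 2) (L 25 2)) (B02 (A03
  (M 12 (S 2 (L 7 4) (L 25 4))) (P 19 (L 58 10))) (M 12 (S 2 (L 7 4) (L 25 4)))))) (S 10 (L 32 1)
  (L 2 1))) (B01 (A23 (A12 (B02 (A01 (S 2 (L 8 4) (L 25 4)) (P 19 (L 58 10))) (M 12 (S 2 (L 7 4) (L
  25 4)))) (S 2 (L 8 4) (L 25 2))) (A03 (B02 (A01 (S 2 (L 8 4) (L 25 4)) (P 19 (L 58 10))) (M 12 (S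
  2 (L 7 4) (L 25 4)))) (P 19 (K [(58,10,6),(58,5,2)] [])))) (M 12 (A23 (S 2 (L 7 4) (L 25 2)) (S 2
  (L 7 4) (L 25 4)))))) (A13 (A12 (S 10 (L 31 1) (L 2 1)) (A23 (M 12 (S 2 (L 7 4) (L 25 4))) (S 10
  (L 31 1) (L 2 1)))) (A23 (A12 (S 10 (L 31 1) (L 2 1)) (M 12 (S 2 (L 7 4) (L 25 4)))) (P 2 (S 12
  (L 38 4) (L 7 4)))))))) (M 1 (A12 (B12 (A13 (B01 (A01 (A03 (S 2 (L 8 2) (L 25 2)) (B02 (P 19 (L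
  58 10)) (M 12 (S 2 (L 7 4) (L 25 4))))) (A12 (B02 (A13 (B01 (P 19 (L 58 10)) (P 15 (L 45 7))) (P
  19 (L 58 10))) (P 15 (L 45 7))) (B02 (P 19 (L 58 10)) (P 15 (L 45 7))))) (S 10 (L 32 1) (L 2 1)))
  (P 19 (K [(58,10,6),(58,5,2)] []))) (A13 (A01 (A03 (B02 (B01 (P 19 (L 58 10)) (A02 (M 12 (S 2 (L
  7 4) (L 25 4))) (B12 (P 15 (L 45 7)) (P 19 (L 58 10))))) (B12 (A02 (M 12 (S 2 (L 7 4) (L 25 4)))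
  (B01 (P 19 (L 58 10)) (P 15 (L 45 7)))) (P 19 (L 58 10)))) (S 10 (L 32 1) (L 2 1))) (S 10 (L 32
  1) (L 2 1))) (P 19 (K [(58,10,6),(58,5,2)] [])))) (P 19 (K [(58,10,5),(58,5,3)] [])))))))) (B01
  (P 6 (M 1 (A03 (M 16 (A02 (B02 (A01 (B01 (S 10 (L 31 1) (L 2 1)) (A03 (A02 (B12 (M 12 (S 2 (L 7
  4) (L 25 4))) (S 10 (L 31 1) (L 2 1))) (S 10 (L 32 1) (L 2 1))) (S 10 (L 31 1) (L 2 1)))) (S 10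
  (L 31 1) (L 2 1))) (A01 (A03 (A02 (B12 (B01 (S 10 (L 31 1) (L 2 1)) (M 12 (S 2 (L 7 4) (L 25
  4)))) (S 10 (L 31 1) (L 2 1))) (S 10 (L 31 1) (L 2 1))) (S 10 (L 31 1) (L 2 1))) (S 10 (L 31 1)
  (L 2 1)))) (S 12 (L 38 4) (L 18 4)))) (A13 (S 12 (L 38 4) (L 18 4)) (B02 (A23 (S 10 (L 31 1) (L 2
  1)) (B01 (P 12 (L 38 4)) (A03 (S 10 (L 31 1) (L 2 1)) (A13 (S 10 (L 31 1) (L 2 1)) (B12 (S 10 (L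
  31 1) (L 2 1)) (P 12 (L 38 4))))))) (A23 (S 12 (L 38 4) (L 18 4)) (A03 (M 16 (S 10 (L 32 8) (L 2
  8))) (A13 (B12 (M 16 (S 10 (L 32 8) (L 2 8))) (B02 (M 16 (S 10 (L 32 8) (L 2 8))) (S 12 (L 38 4)
  (L 18 4)))) (B12 (B01 (A23 (M 16 (S 10 (L 32 8) (L 2 8))) (P 10 (L 31 1))) (M 16 (S 10 (L 32 8)
  (L 2 8)))) (B02 (A23 (M 16 (S 10 (L 32 8) (L 2 8))) (S 12 (L 38 4) (L 18 4))) (S 12 (L 38 4) (L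
  18 4)))))))))))) (A03 (M 16 (P 13 (A02 (B12 (A01 (M 12 (B01 (A03 (A02 (P 10 (S 1 (L 4 1) (L 31
  1))) (S 2 (L 7 4) (L 25 4))) (S 2 (L 7 4) (L 25 4))) (M 19 (K [(41,5,6),(41,10,2)] [])))) (M 1
  (B01 (A13 (A12 (S 10 (L 31 1) (L 2 1)) (M 12 (S 2 (L 7 4) (L 25 4)))) (M 12 (S 2 (L 7 4) (L 25
  4)))) (P 10 (L 31 1))))) (A01 (P 15 (A03 (A02 (P 10 (S 1 (L 4 1) (L 31 1))) (M 5 (L 46 7))) (M 5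
  (L 46 7)))) (M 1 (S 10 (L 31 1) (L 2 1))))) (M 1 (B12 (A12 (B01 (A13 (A01 (B02 (A02 (M 12 (S 2 (L
  7 4) (L 25 4))) (M 5 (L 40 11))) (M 12 (S 2 (L 7 4) (L 25 4)))) (S 10 (L 31 1) (L 2 1))) (A23
  (B02 (A02 (M 12 (S 2 (L 7 4) (L 25 4))) (S 10 (L 32 1) (L 2 1))) (M 12 (S 2 (L 7 4) (L 25 4))))
  (M 12 (S 2 (L 7 4) (L 25 4))))) (M 12 (S 2 (L 7 4) (L 25 4)))) (B01 (A23 (A02 (B02 (A01 (S 2 (L 8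
  4) (L 25 4)) (P 19 (L 58 10))) (M 12 (S 2 (L 7 4) (L 25 4)))) (P 2 (S 12 (L 38 4) (L 7 4)))) (A13
  (B02 (A01 (M 12 (S 2 (L 7 4) (L 25 4))) (S 10 (L 32 1) (L 2 1))) (M 12 (S 2 (L 7 4) (L 25 4))))
  (M 12 (S 2 (L 7 4) (L 25 4))))) (M 12 (S 2 (L 7 4) (L 25 4))))) (P 2 (S 12 (L 38 4) (L 7
  4)))))))) (M 1 (A13 (B12 (A12 (S 10 (L 31 1) (L 2 1)) (B01 (P 2 (S 12 (L 38 4) (L 7 4))) (M 12 (S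
  2 (L 7 4) (L 25 4))))) (P 2 (S 12 (L 38 4) (L 7 4)))) (B12 (M 16 (A23 (B01 (P 2 (S 12 (L 38 4) (L
  7 4))) (M 12 (S 2 (L 7 4) (L 25 4)))) (S 10 (L 32 8) (L 2 8)))) (P 2 (A23 (S 12 (L 38 4) (L 7 4))
  (A03 (M 16 (S 10 (L 32 8) (L 2 8))) (A13 (B02 (M 16 (S 10 (L 32 8) (L 2 8))) (S 12 (L 38 4) (L 7
  4))) (B02 (M 16 (S 10 (L 32 8) (L 2 8))) (S 12 (L 38 4) (L 7 4))))))))))))) (P 6 (M 5 (M 1 (A23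
  (S 12 (L 38 4) (L 18 4)) (A03 (A02 (B02 (S 10 (L 31 1) (L 2 1)) (B12 (A01 (B01 (A03 (P 13 (L 40
  5)) (A13 (P 13 (L 40 5)) (B02 (P 13 (L 40 5)) (A23 (P 13 (L 40 5)) (P 10 (L 31 1)))))) (A03 (S 10
  (L 31 1) (L 2 1)) (A13 (S 10 (L 31 1) (L 2 1)) (B12 (S 10 (L 31 1) (L 2 1)) (A23 (P 13 (L 40 5))
  (P 10 (L 31 1))))))) (B01 (P 12 (L 38 4)) (A13 (S 10 (L 31 1) (L 2 1)) (A03 (S 10 (L 31 1) (L 2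
  1)) (B12 (S 10 (L 31 1) (L 2 1)) (A23 (P 13 (L 40 5)) (P 10 (L 31 1)))))))) (A01 (A03 (A02 (B02
  (P 13 (L 40 5)) (B12 (P 13 (L 40 5)) (A01 (P 10 (L 31 1)) (P 12 (L 38 4))))) (B02 (P 13 (L 40 5))
  (B12 (P 13 (L 40 5)) (P 12 (L 38 4))))) (A13 (B02 (P 13 (L 40 5)) (B12 (A12 (B01 (P 12 (L 38 4))
  (P 10 (L 31 1))) (B01 (P 12 (L 38 4)) (P 10 (L 31 1)))) (P 12 (L 38 4)))) (B02 (B01 (P 12 (L 38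
  4)) (A23 (P 13 (L 40 5)) (P 10 (L 31 1)))) (B12 (A23 (B01 (P 12 (L 38 4)) (P 10 (L 31 1))) (P 10
  (L 31 1))) (P 12 (L 38 4)))))) (P 12 (L 38 4))))) (B02 (S 12 (L 38 4) (L 18 4)) (B12 (A12 (B01 (P
  12 (L 38 4)) (A13 (S 10 (L 31 1) (L 2 1)) (A23 (S 10 (L 31 1) (L 2 1)) (B12 (S 10 (L 31 1) (L 2
  1)) (A03 (P 13 (L 40 5)) (P 10 (L 31 1))))))) (B01 (P 12 (L 38 4)) (A23 (S 12 (L 38 4) (L 18 4))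
  (A13 (S 10 (L 31 1) (L 2 1)) (B12 (S 10 (L 31 1) (L 2 8)) (A03 (P 13 (L 40 5)) (P 10 (L 31
  1)))))))) (P 12 (L 38 4))))) (A13 (B02 (B01 (P 12 (L 38 4)) (A12 (B12 (S 10 (L 31 1) (L 2 1)) (P
  12 (L 38 4))) (B12 (S 12 (L 38 4) (L 18 4)) (P 12 (L 38 4))))) (B12 (A12 (B01 (P 12 (L 38 4))
  (A01 (A02 (P 10 (L 31 1)) (B12 (A23 (P 13 (L 40 5)) (B01 (P 12 (L 38 4)) (P 10 (L 31 1)))) (P 12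
  (L 38 4)))) (P 12 (L 38 4)))) (B01 (P 12 (L 38 4)) (A02 (A01 (P 10 (L 31 1)) (B12 (A13 (S 10 (L
  31 1) (L 2 1)) (B01 (P 12 (L 38 4)) (P 10 (L 31 1)))) (P 12 (L 38 4)))) (A23 (S 12 (L 38 4) (L 18
  4)) (B12 (A13 (S 10 (L 31 1) (L 2 1)) (B01 (P 12 (L 38 4)) (P 10 (L 31 1)))) (P 12 (L 38 4)))))))
  (P 12 (L 38 4)))) (B02 (B01 (P 12 (L 38 4)) (A23 (B12 (S 12 (L 38 4) (L 18 4)) (P 12 (L 38 4)))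
  (B12 (A03 (A02 (B01 (A01 (P 10 (L 31 1)) (P 12 (L 38 4))) (P 10 (L 31 1))) (B01 (P 12 (L 38 4))
  (S 12 (L 38 4) (L 18 4)))) (A13 (B01 (P 12 (L 38 4)) (S 12 (L 38 4) (L 18 4))) (B01 (P 12 (L 38
  4)) (S 12 (L 38 4) (L 18 4))))) (P 12 (L 38 4))))) (B12 (A23 (B01 (P 12 (L 38 4)) (A02 (S 12 (L
  38 4) (L 18 4)) (A12 (B12 (A13 (B01 (P 12 (L 38 4)) (P 10 (L 31 1))) (S 10 (L 31 8) (L 2 8))) (P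
  12 (L 38 4))) (B12 (S 10 (L 31 8) (L 2 8)) (P 12 (L 38 4)))))) (B01 (P 12 (L 38 4)) (S 12 (L 38
  4) (L 18 4)))) (P 12 (L 38 4)))))))))))))))) (P 6 (M 1 (A13 (A12 (B12 (A01 (M 18 (B01 (A03 (out
  9) (P 12 (L 38 4))) (M 7 (A03 (out 9) (P 19 (L 58 10)))))) (M 15 (S 9 (L 29 7) (L 12 7)))) (P 19
  (M 10 (A01 (A03 (out 9) (M 5 (A13 (out 9) (B02 (S 0 (L 2 1) (L 24 1)) (B12 (P 13 (L 40 5)) (A23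
  (P 13 (L 40 5)) (M 7 (L 58 10)))))))) (M 5 (A13 (out 4) (A03 (out 4) (B02 (S 0 (L 2 1) (L 24 1))
  (B12 (P 13 (L 40 5)) (A23 (out 4) (A13 (out 4) (M 7 (L 58 10))))))))))))) (B12 (M 18 (A02 (B01 (P
  19 (A03 (out 9) (A23 (B02 (A12 (P 12 (L 38 4)) (M 7 (L 58 10))) (M 7 (L 58 10))) (P 12 (L 38
  4))))) (M 7 (A03 (out 9) (P 19 (L 58 10))))) (P 19 (B01 (A23 (A12 (B02 (A01 (B01 (P 12 (L 38 4))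
  (M 7 (L 58 10))) (P 12 (L 38 4))) (M 7 (L 58 10))) (B02 (A02 (B01 (P 12 (L 38 4)) (M 7 (L 58
  10))) (B01 (P 12 (L 38 4)) (M 7 (L 58 10)))) (M 7 (L 58 10)))) (A03 (B02 (A01 (M 7 (L 58 10)) (P
  12 (L 38 4))) (M 7 (L 58 10))) (P 12 (L 38 4)))) (M 7 (L 58 10)))))) (P 19 (M 10 (A02 (A03 (out
  9) (A23 (P 13 (B02 (M 18 (B01 (P 12 (L 38 4)) (M 5 (L 40 5)))) (M 5 (L 40 5)))) (M 5 (B02 (S 0 (L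
  2 1) (L 24 1)) (B12 (P 13 (L 40 5)) (A13 (P 13 (L 40 5)) (M 7 (L 58 10)))))))) (A23 (P 13 (A12
  (B02 (M 18 (B01 (P 12 (L 38 4)) (S 0 (L 2 1) (L 24 1)))) (M 5 (B12 (S 0 (L 2 1) (L 24 1)) (L 40
  5)))) (M 18 (B02 (B01 (P 12 (L 38 4)) (M 7 (L 58 10))) (M 7 (L 58 10)))))) (A03 (P 13 (B02 (M 18
  (B01 (P 12 (L 38 4)) (S 0 (L 2 1) (L 24 1)))) (M 5 (L 40 5)))) (M 5 (B02 (S 0 (L 2 1) (L 24 1))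
  (B12 (P 13 (L 40 5)) (A13 (P 13 (L 40 5)) (M 7 (L 58 10))))))))))))) (M 7 (P 0 (A03 (B12 (M 18 (M
  16 (P 13 (A02 (B01 (A01 (A03 (out 9) (B02 (P 19 (L 58 10)) (A23 (P 19 (L 58 10)) (S 10 (L 31 1)
  (L 2 1))))) (A12 (P 12 (L 38 4)) (B02 (P 19 (L 58 10)) (A23 (P 19 (L 58 10)) (S 10 (L 31 1) (L 2
  1)))))) (A01 (A03 (out 9) (B12 (A23 (B01 (P 19 (L 58 10)) (A12 (A13 (out 9) (P 15 (L 45 7))) (P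
  15 (L 45 7)))) (B01 (S 10 (L 31 1) (L 2 1)) (A13 (A12 (out 9) (B12 (P 15 (L 45 7)) (S 10 (L 32 1)
  (L 2 1)))) (A03 (B12 (P 15 (L 45 7)) (S 10 (L 32 1) (L 2 1))) (B12 (S 2 (L 8 2) (L 25 2)) (S 10
  (L 31 1) (L 2 1))))))) (A23 (P 19 (L 58 10)) (S 10 (L 31 1) (L 2 1))))) (A12 (S 10 (L 31 1) (L 2
  1)) (B12 (A23 (P 19 (L 58 10)) (B01 (S 10 (L 31 1) (L 2 1)) (A03 (A02 (S 10 (L 31 1) (L 2 1))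
  (B12 (A12 (M 5 (L 40 11)) (P 15 (L 45 7))) (P 19 (L 58 10)))) (A13 (B12 (A12 (M 5 (L 40 11)) (P
  15 (L 45 7))) (P 19 (L 58 10))) (B12 (S 2 (L 8 2) (L 25 2)) (S 10 (L 31 1) (L 2 1))))))) (A23 (P
  19 (L 58 10)) (S 10 (L 31 1) (L 2 1))))))) (B01 (A12 (A01 (B02 (P 19 (L 58 10)) (A03 (P 19 (L 58
  10)) (S 10 (L 32 1) (L 2 1)))) (P 12 (L 38 4))) (A23 (P 19 (L 58 10)) (B02 (P 19 (L 58 10)) (A03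
  (P 19 (L 58 10)) (S 10 (L 32 1) (L 2 1)))))) (A12 (A01 (B12 (A03 (P 19 (L 58 10)) (B01 (S 10 (L
  32 1) (L 2 1)) (A23 (P 19 (L 58 10)) (A13 (P 19 (L 58 10)) (S 10 (L 32 1) (L 2 1)))))) (A03 (P 19
  (L 58 10)) (S 10 (L 32 1) (L 2 1)))) (S 10 (L 32 1) (L 2 1))) (A23 (P 19 (L 58 10)) (B12 (A03 (P
  19 (L 58 10)) (B01 (A13 (P 19 (L 58 10)) (A23 (P 19 (L 58 10)) (S 10 (L 32 1) (L 2 1)))) (A13 (P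
  19 (L 58 10)) (S 10 (L 32 1) (L 2 1))))) (A03 (P 19 (L 58 10)) (S 10 (L 32 1) (L 2 1)))))))))))
  (A02 (A01 (P 13 (A03 (out 9) (B02 (B01 (P 19 (L 58 10)) (M 5 (L 40 5))) (M 5 (L 40 5))))) (A12 (M
  15 (M 5 (B02 (S 9 (L 29 7) (L 12 7)) (B12 (P 13 (L 40 5)) (P 19 (L 58 10)))))) (P 13 (B02 (B01 (P
  19 (L 58 10)) (M 5 (L 40 5))) (M 5 (L 40 5)))))) (A12 (A01 (M 16 (P 13 (B02 (B01 (P 19 (L 58 10))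
  (S 10 (L 32 1) (L 2 1))) (M 5 (L 40 5))))) (M 15 (M 5 (B02 (S 9 (L 29 7) (L 1 7)) (B12 (P 13 (L
  40 5)) (P 19 (L 58 10))))))) (M 16 (A23 (P 19 (L 58 10)) (B02 (B01 (P 19 (L 58 10)) (S 10 (L 32
  1) (L 2 1))) (S 10 (L 32 1) (L 2 1)))))))) (B12 (M 18 (A23 (M 16 (B01 (A12 (P 12 (L 38 4)) (A02
  (S 12 (L 38 4) (L 18 4)) (S 12 (L 38 4) (L 18 4)))) (A12 (A13 (S 10 (L 32 1) (L 2 1)) (B12 (A03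
  (S 10 (L 32 1) (L 2 1)) (P 19 (K [(58,10,6),(58,5,2)] []))) (P 2 (S 12 (L 38 4) (L 7 4))))) (A02
  (B12 (A03 (B01 (A01 (A02 (S 10 (L 32 1) (L 2 1)) (P 19 (L 58 10))) (P 19 (L 58 10))) (A01 (S 10
  (L 32 1) (L 2 1)) (P 19 (L 58 10)))) (P 19 (K [(58,10,6),(58,5,2)] []))) (P 2 (S 12 (L 38 4) (L 7
  4)))) (P 19 (K [(58,10,5),(58,5,3)] [])))))) (B01 (P 12 (L 38 4)) (A13 (A12 (S 10 (L 31 1) (L 2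
  1)) (B12 (A02 (S 10 (L 31 1) (L 2 1)) (B01 (P 2 (S 12 (L 38 4) (L 7 4))) (A23 (P 19 (K
  [(58,10,4),(58,5,4)] [])) (S 10 (L 31 8) (L 2 1))))) (P 2 (S 12 (L 38 4) (L 7 4))))) (A03 (M 16
  (P 13 (B12 (A02 (S 10 (L 31 1) (L 2 1)) (B01 (P 2 (S 12 (L 38 4) (L 7 4))) (A12 (S 10 (L 31 1) (L
  2 8)) (A23 (B12 (A02 (B01 (M 5 (L 40 11)) (P 15 (L 45 3))) (B01 (S 10 (L 31 8) (L 2 8)) (P 15 (L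
  45 3)))) (S 10 (L 31 8) (L 2 8))) (S 10 (L 32 8) (L 2 8)))))) (P 2 (S 12 (L 38 4) (L 7 4))))))
  (B12 (M 16 (A23 (B01 (P 2 (S 12 (L 38 4) (L 7 4))) (A12 (S 10 (L 32 8) (L 2 8)) (A02 (S 10 (L 32
  8) (L 2 8)) (B12 (A23 (B01 (S 10 (L 31 8) (L 2 8)) (P 15 (L 45 3))) (S 10 (L 31 8) (L 2 8))) (S
  10 (L 31 8) (L 2 8)))))) (P 2 (S 12 (L 38 4) (L 7 4))))) (P 2 (A23 (S 12 (L 38 4) (L 7 4)) (A13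
  (A12 (B02 (S 10 (L 31 1) (L 2 1)) (B12 (S 10 (L 31 1) (L 2 8)) (P 12 (L 38 4)))) (B02 (M 16 (S 10
  (L 32 8) (L 2 8))) (S 12 (L 38 4) (L 7 4)))) (A03 (B02 (M 16 (S 10 (L 32 8) (L 2 8))) (S 12 (L 38
  4) (L 7 4))) (B02 (M 16 (S 10 (L 32 8) (L 2 8))) (S 12 (L 38 4) (L 7 4))))))))))))) (M 15 (P 12
  (M 5 (A23 (A12 (A13 (B02 (S 9 (L 29 7) (L 1 7)) (B12 (P 13 (L 40 5)) (P 19 (L 58 10)))) (M 18 (L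
  38 4))) (M 18 (L 38 4))) (A13 (A12 (B02 (B01 (P 19 (L 58 10)) (A01 (M 18 (L 38 4)) (B12 (M 18 (L
  38 4)) (P 19 (L 58 10))))) (B12 (A01 (M 18 (L 38 4)) (B01 (A13 (P 19 (L 58 10)) (M 18 (L 38 4)))
  (M 18 (L 38 4)))) (A01 (M 18 (L 38 4)) (A13 (P 19 (L 58 10)) (M 18 (L 38 4)))))) (M 18 (L 38 4)))
  (M 18 (L 38 4))))))))))))))) (P 6 (M 1 (A12 (A13 (P 19 (M 10 (A01 (B12 (A02 (B01 (A03 (A01 (B02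
  (A02 (B01 (S 0 (L 2 1) (L 24 1)) (M 7 (L 58 10))) (P 12 (B01 (S 0 (L 2 1) (L 24 1)) (M 18 (L 38
  4))))) (M 7 (L 58 10))) (P 12 (B02 (A12 (M 18 (L 38 4)) (B01 (S 0 (L 2 1) (L 24 1)) (M 18 (L 38
  4)))) (M 7 (L 58 10))))) (S 0 (L 2 1) (L 24 1))) (M 7 (L 58 10))) (B01 (S 0 (L 2 1) (L 24 1))
  (A23 (out 4) (M 7 (L 58 10))))) (M 5 (A02 (A03 (S 0 (L 2 1) (L 24 1)) (A23 (S 0 (L 2 1) (L 24 1))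
  (B02 (S 0 (L 2 1) (L 24 1)) (B12 (P 13 (L 40 5)) (A13 (P 13 (L 40 5)) (M 7 (L 58 10))))))) (A23
  (out 4) (A03 (out 4) (B02 (S 0 (L 2 1) (L 24 1)) (B12 (P 13 (L 40 5)) (A13 (out 4) (A23 (out 4)
  (M 7 (L 58 10))))))))))) (M 15 (M 5 (B12 (A12 (S 9 (L 29 7) (L 12 7)) (S 0 (L 2 1) (L 24 1)))
  (A12 (A13 (out 4) (A23 (out 4) (B02 (S 0 (L 2 1) (L 24 1)) (B12 (P 13 (L 40 5)) (A03 (out 4) (A13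
  (out 4) (A23 (out 4) (M 7 (L 58 10))))))))) (A23 (out 4) (A13 (out 4) (B02 (S 0 (L 2 1) (L 24 1))
  (B12 (P 13 (L 40 5)) (A03 (out 4) (A23 (out 4) (A13 (out 4) (M 7 (L 58 10)))))))))))))))) (A23 (P
  19 (M 10 (B12 (A02 (B01 (A01 (A03 (B02 (A02 (B01 (S 0 (L 2 1) (L 24 1)) (M 7 (L 58 10))) (P 12
  (B01 (S 0 (L 2 1) (L 24 1)) (M 18 (L 38 4))))) (M 18 (S 12 (L 38 4) (L 18 4)))) (B02 (S 0 (L 2 1)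
  (L 24 1)) (M 7 (P 0 (K [(2,1,5),(58,5,3)] []))))) (P 12 (A12 (B02 (S 0 (L 2 1) (L 24 1)) (M 18 (M
  7 (P 0 (K [(2,1,11),(38,4,4),(58,5,8)] []))))) (B02 (S 0 (L 2 1) (L 24 1)) (M 7 (P 0 (K
  [(2,1,5),(58,5,3)] []))))))) (M 7 (K [(58,10,17),(58,5,7)] []))) (P 12 (B01 (A12 (A01 (B02 (S 0
  (L 2 1) (L 24 1)) (M 7 (K [(58,10,5),(58,5,3)] []))) (B02 (S 0 (L 2 1) (L 24 1)) (M 7 (K
  [(58,10,16),(58,5,8)] [])))) (A23 (out 4) (B02 (S 0 (L 2 1) (L 24 1)) (M 7 (K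
  [(58,10,5),(58,5,3)] []))))) (A12 (M 18 (M 7 (K [(58,10,5),(38,4,1),(58,5,3)] []))) (A23 (out 4)
  (M 7 (K [(58,10,5),(58,5,3)] []))))))) (M 15 (P 12 (M 5 (A02 (A01 (A03 (P 13 (B02 (B01 (S 0 (L 2
  1) (L 24 1)) (A02 (M 18 (M 7 (K [(58,10,3),(38,4,2),(40,7,3)] []))) (B12 (M 18 (L 38 4)) (S 0 (L
  2 1) (L 24 1))))) (B12 (A02 (M 18 (P 0 (K [(38,4,4),(2,1,1),(40,7,3)] []))) (B01 (A12 (M 18 (M 7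
  (K [(58,10,1),(38,4,4),(40,7,3)] []))) (A23 (out 4) (M 18 (P 0 (K [(2,1,1),(38,4,3),(40,7,4)]
  []))))) (M 18 (L 38 4)))) (A02 (P 9 (M 7 (P 0 (K [(2,1,2),(29,7,3),(29,1,1),(58,5,2)] [])))) (A12
  (M 18 (P 9 (M 7 (P 0 (K [(2,1,1),(38,4,3),(29,1,1),(40,7,1),(58,5,1)] []))))) (A23 (out 4) (M 18
  (P 9 (M 7 (P 0 (K [(2,1,1),(29,1,1),(38,4,3),(40,7,1),(58,5,1)] []))))))))))) (B02 (B01 (S 0 (L 2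
  1) (L 24 1)) (A23 (B12 (M 18 (L 38 4)) (S 0 (L 2 1) (L 24 1))) (M 7 (P 0 (K [(2,1,5),(58,5,3)]
  []))))) (B12 (A23 (B01 (A12 (M 7 (K [(58,10,5),(58,5,3)] [])) (A02 (M 7 (K [(58,10,4),(58,5,3)]
  [])) (out 4))) (M 18 (L 38 4))) (M 7 (K [(58,10,5),(58,5,3)] []))) (A23 (A12 (M 7 (K
  [(58,10,5),(58,5,3)] [])) (A02 (M 7 (K [(58,10,4),(58,5,3)] [])) (out 4))) (M 7 (K
  [(58,10,5),(58,5,3)] [])))))) (A12 (B02 (B01 (S 0 (L 2 1) (L 24 1)) (M 7 (K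
  [(58,10,43),(58,5,21)] []))) (M 7 (K [(58,10,134),(58,5,66)] []))) (B02 (B01 (S 0 (L 2 1) (L 24
  1)) (A23 (S 0 (L 2 1) (L 24 1)) (M 7 (K [(58,10,5),(58,5,3)] [])))) (B12 (A23 (S 0 (L 2 1) (L 24
  1)) (M 7 (K [(58,10,5),(58,5,3)] []))) (A23 (S 0 (L 2 1) (L 24 1)) (S 9 (L 29 7) (L 12 1)))))))
  (A12 (A01 (B02 (B01 (S 0 (L 2 1) (L 24 1)) (A03 (out 4) (B12 (M 7 (K [(58,10,5),(58,5,3)] [])) (S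
  0 (L 2 1) (L 24 1))))) (B12 (A03 (out 4) (B01 (S 9 (L 29 7) (L 12 7)) (M 7 (K
  [(58,10,5),(58,5,3)] [])))) (A03 (out 4) (A23 (out 4) (S 9 (L 29 7) (L 12 7)))))) (B02 (B01 (S 0
  (L 2 1) (L 24 1)) (A13 (S 0 (L 2 1) (L 24 1)) (B12 (M 7 (K [(58,10,5),(58,5,3)] [])) (S 0 (L 2 1)
  (L 24 1))))) (B12 (P 13 (A13 (L 40 5) (B01 (L 40 5) (M 7 (K [(58,10,5),(58,5,3)] []))))) (A13
  (A12 (M 7 (L 58 10)) (A23 (out 4) (M 7 (L 58 10)))) (A23 (A12 (M 7 (L 58 10)) (out 4)) (S 9 (L 29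
  7) (L 12 7))))))) (A23 (out 4) (B02 (B01 (S 0 (L 2 1) (L 24 1)) (A03 (out 4) (B12 (M 7 (K
  [(58,10,5),(58,5,3)] [])) (S 0 (L 2 1) (L 24 1))))) (B12 (A03 (out 4) (B01 (S 9 (L 29 1) (L 12
  7)) (M 7 (K [(58,10,5),(58,5,3)] [])))) (A03 (out 4) (A13 (out 4) (A23 (out 4) (P 0 (S 9 (L 29 1)
  (L 1 1))))))))))))))))) (M 7 (P 0 (B12 (A03 (P 19 (P 13 (B01 (A01 (A02 (M 18 (B02 (L 58 10) (S 12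
  (L 38 4) (L 18 4)))) (M 5 (K [(58,10,4),(40,7,2),(58,5,2)] []))) (M 5 (K
  [(58,10,136),(40,7,9),(58,5,54)] []))) (K [(58,10,5),(58,5,3)] [])))) (B01 (M 15 (P 12 (M 5 (A13
  (P 13 (A01 (B02 (P 19 (L 58 10)) (S 10 (L 31 8) (K [(2,1,5),(2,8,3),(40,7,1)] []))) (B02 (P 19 (L
  58 10)) (M 18 (S 10 (L 31 8) (K [(38,4,4),(2,1,11),(2,8,8)] [])))))) (A23 (P 13 (B02 (P 19 (L 58
  10)) (S 10 (L 31 8) (K [(2,1,14),(2,8,7),(40,7,3)] [])))) (M 18 (P 9 (B02 (A03 (P 19 (P 13 (M 10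
  (K [(2,1,5),(40,7,2),(58,5,1)] [])))) (B01 (L 38 4) (A13 (P 13 (S 10 (L 31 8) (K
  [(2,1,6),(2,8,2),(40,7,1)] []))) (A23 (S 10 (L 31 8) (K [(2,8,2),(29,7,1),(2,1,6)] [])) (L 38
  4))))) (A03 (S 10 (L 31 8) (K [(2,8,2),(2,1,6)] [])) (A13 (A01 (S 10 (L 31 8) (L 2 8)) (B12 (S 10
  (L 31 8) (K [(2,1,3),(2,8,5)] [])) (B02 (A12 (L 38 4) (B01 (L 38 4) (S 10 (L 31 8) (L 2 8)))) (S
  10 (L 31 8) (L 2 8))))) (S 10 (L 31 8) (L 2 8)))))))))))) (M 18 (P 9 (A13 (P 13 (A01 (B12 (A02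
  (B01 (P 2 (S 12 (L 38 4) (L 7 4))) (A03 (S 12 (L 38 4) (L 18 6)) (S 12 (L 38 4) (L 18 6)))) (B01
  (S 10 (L 31 8) (K [(2,1,5),(2,8,3)] [])) (A23 (P 19 (M 10 (K [(2,8,3),(58,10,5)] []))) (S 12 (L
  38 4) (L 18 6))))) (M 5 (P 2 (A02 (S 12 (L 38 4) (L 7 4)) (S 10 (L 31 8) (K
  [(2,1,5),(2,8,3),(40,7,1)] [])))))) (B12 (A12 (S 10 (L 31 8) (L 2 1)) (B01 (S 10 (L 31 8) (K
  [(2,1,5),(2,8,3)] [])) (A23 (P 19 (K [(58,10,5),(58,5,3)] [])) (S 10 (L 31 8) (L 2 1))))) (M 15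
  (S 10 (L 31 8) (K [(29,7,1),(2,1,5),(2,8,3)] [])))))) (A23 (B12 (A02 (B01 (A01 (P 19 (K
  [(58,5,2),(58,10,5)] [])) (S 10 (L 31 8) (K [(2,8,3),(2,1,5)] []))) (A01 (P 19 (L 58 5)) (S 10 (L
  31 8) (L 2 8)))) (B01 (S 10 (L 31 8) (K [(2,8,3),(2,1,5)] [])) (A12 (S 10 (L 31 8) (L 2 8)) (P 19
  (M 10 (K [(2,8,3),(58,10,5)] [])))))) (P 2 (A02 (A01 (A03 (S 12 (L 38 4) (L 7 4)) (S 10 (L 31 8)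
  (K [(2,8,2),(2,1,5)] []))) (S 10 (L 31 8) (K [(2,8,3),(2,1,5)] []))) (S 10 (L 31 8) (K
  [(2,8,3),(2,1,5)] []))))) (B12 (A03 (B01 (P 2 (A01 (A02 (S 12 (L 38 4) (L 7 4)) (B02 (A23 (P 19
  (K [(58,5,2),(58,10,6)] [])) (S 12 (L 38 4) (L 7 4))) (S 10 (L 31 8) (L 2 8)))) (A13 (S 10 (L 31
  8) (K [(2,8,5),(2,1,3)] [])) (B02 (A23 (P 19 (K [(58,5,5),(58,10,3)] [])) (S 12 (L 38 4) (L 7
  4))) (S 10 (L 31 8) (L 2 8)))))) (A01 (A02 (B12 (A03 (P 19 (L 58 5)) (S 10 (L 31 8) (L 2 8))) (S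
  10 (L 31 8) (L 2 8))) (S 10 (L 31 8) (L 2 8))) (S 10 (L 31 8) (L 2 8)))) (B01 (A13 (A01 (S 10 (L
  31 8) (L 2 8)) (S 10 (L 31 8) (K [(2,8,5),(2,1,3)] []))) (S 10 (L 31 8) (L 2 8))) (S 10 (L 31 8)
  (L 2 8)))) (P 2 (A03 (A01 (A02 (S 12 (L 38 4) (L 7 4)) (B02 (B01 (A23 (P 19 (K
  [(58,5,2),(58,10,6)] [])) (S 12 (L 38 4) (L 18 4))) (S 10 (L 31 8) (L 2 8))) (S 10 (L 31 8) (L 2
  8)))) (A13 (S 10 (L 31 8) (K [(2,8,5),(2,1,3)] [])) (B02 (B01 (A23 (S 10 (L 31 8) (K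
  [(2,8,5),(2,1,3)] [])) (S 12 (L 38 4) (L 18 4))) (S 10 (L 31 8) (L 2 8))) (S 10 (L 31 8) (L 2
  8))))) (A13 (A01 (B02 (S 10 (L 31 8) (L 2 8)) (B12 (S 10 (L 31 8) (L 2 8)) (A02 (A03 (S 10 (L 31
  8) (L 2 8)) (P 12 (L 38 4))) (S 10 (L 31 8) (L 2 8))))) (B02 (S 10 (L 31 8) (K [(2,8,5),(2,1,3)]
  [])) (S 10 (L 31 8) (L 2 8)))) (A23 (B02 (S 10 (L 31 8) (L 2 8)) (B12 (S 10 (L 31 8) (L 2 8))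
  (A02 (A01 (A03 (S 10 (L 31 8) (L 2 8)) (S 10 (L 31 8) (L 2 8))) (S 10 (L 31 8) (L 2 8))) (S 10 (L
  31 8) (L 2 8))))) (B02 (S 10 (L 31 8) (L 2 8)) (P 10 (L 31 8)))))))))))))) (M 15 (P 12 (M 5 (A03
  (P 19 (A01 (A02 (M 18 (K [(58,10,2),(38,4,4),(38,10,1),(58,5,1)] [])) (B02 (P 13 (K
  [(58,10,13),(40,7,5),(58,5,6)] [])) (K [(58,10,5),(58,5,3)] []))) (A13 (B02 (K
  [(58,10,17),(58,5,7)] []) (K [(58,10,134),(58,5,66)] [])) (B02 (P 13 (K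
  [(58,10,5),(40,7,1),(58,5,2)] [])) (K [(58,10,5),(58,5,3)] []))))) (A13 (A01 (B02 (B01 (P 19 (L
  58 10)) (A02 (M 18 (K [(38,4,7),(38,10,1)] [])) (B12 (M 18 (A23 (P 19 (P 13 (M 10 (K
  [(2,1,13),(58,5,8),(40,7,2)] [])))) (L 38 4))) (S 9 (L 29 7) (L 12 1))))) (B12 (A02 (M 18 (K
  [(38,4,7),(38,10,1)] [])) (B01 (A23 (S 9 (L 29 7) (L 12 1)) (M 18 (L 38 4))) (M 18 (A23 (P 19 (K
  [(38,4,6),(58,5,2)] [])) (L 38 4))))) (A02 (S 13 (L 40 5) (L 13 5)) (A23 (S 9 (L 29 7) (L 12 1))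
  (M 18 (L 38 4)))))) (B02 (B01 (P 19 (L 58 10)) (A12 (B12 (M 18 (L 38 4)) (P 19 (L 58 10))) (B12
  (M 18 (A23 (P 19 (K [(58,10,4),(58,5,3)] [])) (L 38 4))) (P 19 (L 58 10))))) (B12 (A12 (B01 (A13
  (P 19 (L 58 10)) (A23 (P 19 (L 58 10)) (M 18 (L 38 4)))) (M 18 (L 38 4))) (B01 (A23 (S 9 (L 29 7)
  (L 12 7)) (A13 (P 19 (L 58 10)) (M 18 (L 38 4)))) (M 18 (A23 (P 19 (K [(38,4,6),(58,5,2)] [])) (L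
  38 4))))) (A12 (A13 (P 19 (L 58 10)) (A23 (P 19 (L 58 10)) (M 18 (L 38 4)))) (A23 (S 9 (L 29 7)
  (L 12 7)) (A13 (P 19 (L 58 10)) (M 18 (L 38 4)))))))) (A23 (B02 (B01 (P 19 (K
  [(58,10,6),(58,5,2)] [])) (A02 (M 18 (B12 (A01 (A03 (L 38 4) (B01 (L 38 4) (S 10 (L 31 8) (L 2
  8)))) (A12 (B01 (L 38 4) (S 10 (L 31 8) (L 2 8))) (B01 (L 38 4) (S 10 (L 31 8) (L 2 8))))) (P 19
  (M 10 (K [(38,4,2),(2,1,4),(58,5,2)] []))))) (B12 (M 18 (A12 (A01 (B01 (L 38 4) (S 10 (L 31 8) (L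
  2 8))) (B01 (L 38 4) (S 10 (L 31 8) (L 2 8)))) (A23 (P 19 (K [(58,5,3),(58,10,5)] [])) (B01 (L 38
  4) (S 10 (L 31 8) (L 2 8)))))) (S 9 (L 29 7) (L 12 1))))) (B12 (A02 (M 18 (B01 (K
  [(38,4,7),(38,10,1)] []) (S 10 (L 31 8) (L 2 8)))) (B01 (A12 (M 18 (L 38 4)) (A23 (S 9 (L 29 7)
  (L 12 1)) (M 18 (L 38 4)))) (M 18 (A12 (S 10 (L 31 8) (L 2 8)) (A23 (P 19 (K [(58,5,2),(38,4,6)]
  [])) (S 10 (L 31 8) (L 2 8))))))) (A02 (M 18 (K [(38,4,7),(38,10,1)] [])) (A12 (M 18 (L 38 4))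
  (A23 (S 9 (L 29 7) (L 12 1)) (M 18 (L 38 4))))))) (M 18 (B02 (B01 (K [(38,4,7),(38,10,1)] [])
  (A03 (B12 (A01 (A02 (L 38 4) (B01 (L 38 4) (S 10 (L 31 8) (L 2 8)))) (A13 (B01 (L 38 4) (S 10 (L
  31 8) (L 2 8))) (B01 (L 38 4) (S 10 (L 31 8) (L 2 8))))) (K [(38,4,7),(38,10,1)] [])) (B12 (A13
  (A01 (S 10 (L 31 8) (L 2 8)) (B01 (L 38 4) (S 10 (L 31 8) (L 2 8)))) (S 10 (L 31 8) (L 2 8))) (L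
  38 4)))) (B12 (A03 (B01 (K [(38,4,7),(38,10,1)] []) (S 10 (L 31 8) (L 2 8))) (B01 (L 38 4) (S 10
  (L 31 8) (L 2 8)))) (K [(38,4,7),(38,10,1)] []))))))))))))))) (A23 (P 19 (M 10 (A02 (B12 (M 16 (P
  13 (A01 (B01 (A03 (A02 (B02 (A01 (B01 (S 2 (L 8 4) (L 25 4)) (A03 (A02 (M 7 (L 58 10)) (S 0 (L 2
  1) (L 24 1))) (S 2 (L 8 4) (L 25 4)))) (B01 (M 5 (L 40 7)) (S 2 (L 8 4) (L 25 4)))) (S 2 (L 8 4)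
  (L 25 4))) (B02 (A12 (B01 (M 5 (L 40 7)) (S 2 (L 8 4) (L 25 4))) (B01 (M 5 (L 40 7)) (A23 (out 4)
  (S 2 (L 8 4) (L 25 4))))) (S 2 (L 8 4) (L 25 4)))) (M 5 (L 40 7))) (A03 (A02 (M 7 (B12 (A01 (B01
  (A03 (M 2 (K [(25,4,3),(58,10,5)] [])) (S 2 (L 8 4) (L 25 4))) (K [(58,5,5),(58,10,3)] [])) (B01
  (S 2 (L 8 4) (L 25 4)) (K [(58,5,5),(58,10,3)] []))) (S 2 (L 8 4) (L 25 4)))) (B12 (A12 (B01 (S 2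
  (L 8 4) (L 25 4)) (M 7 (K [(58,5,5),(58,10,3)] []))) (B01 (S 0 (L 2 8) (L 24 8)) (A23 (out 4) (M
  7 (L 58 5))))) (S 2 (L 8 4) (L 25 4)))) (A13 (B12 (A12 (B01 (M 5 (L 40 7)) (M 7 (K
  [(58,5,5),(58,10,3)] []))) (B01 (M 5 (L 40 7)) (A02 (M 7 (L 58 5)) (out 4)))) (M 5 (L 40 7)))
  (B12 (A23 (B01 (M 5 (L 40 7)) (A02 (M 7 (L 58 5)) (out 4))) (S 2 (L 8 4) (L 25 4))) (M 5 (L 40
  7)))))) (P 12 (B01 (M 5 (A13 (out 4) (L 40 7))) (A13 (out 4) (S 2 (L 8 4) (L 36 4)))))))) (M 15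
  (M 5 (A01 (A03 (P 13 (K [(40,7,49),(40,5,15)] [])) (A13 (P 13 (L 40 7)) (B02 (B01 (A23 (P 13 (L
  40 7)) (A03 (P 13 (L 40 7)) (A13 (P 13 (L 40 7)) (B02 (P 13 (L 40 7)) (S 9 (L 29 1) (L 12 1))))))
  (A23 (P 13 (L 40 7)) (M 7 (L 58 5)))) (M 7 (L 58 5))))) (A13 (out 4) (A03 (out 4) (B02 (B01 (A23
  (out 4) (A13 (out 4) (A03 (P 13 (L 40 7)) (B02 (P 13 (L 40 7)) (S 9 (L 29 1) (L 12 1)))))) (A23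
  (out 4) (S 9 (L 29 1) (L 12 1)))) (S 9 (L 29 1) (L 12 1))))))))) (M 15 (B12 (M 16 (P 13 (A12 (B01
  (M 5 (A13 (out 4) (L 40 7))) (A13 (out 4) (A23 (out 4) (S 2 (L 8 4) (L 25 4))))) (B01 (M 5 (L 40
  7)) (A23 (out 4) (A13 (out 4) (B12 (A03 (out 4) (M 5 (L 40 7))) (M 5 (L 40 7))))))))) (M 5 (A12
  (A13 (out 4) (A23 (out 4) (B02 (B01 (A03 (out 4) (A13 (out 4) (A23 (out 4) (B02 (P 13 (L 40 7))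
  (S 9 (L 29 1) (L 12 1)))))) (A03 (out 4) (S 9 (L 29 1) (L 12 1)))) (S 9 (L 29 1) (L 12 1)))))
  (A23 (out 4) (A13 (out 4) (B02 (B01 (A03 (out 4) (A23 (out 4) (A13 (out 4) (B02 (P 13 (L 40 7))
  (M 7 (L 58 5)))))) (A03 (out 4) (M 7 (L 58 5)))) (M 7 (L 58 5)))))))))))) (A13 (P 19 (M 10 (B12
  (M 16 (P 13 (A01 (B01 (A02 (A03 (B02 (A01 (B01 (S 2 (L 8 4) (L 25 4)) (S 2 (L 8 4) (L 25 4)))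
  (B01 (M 5 (L 40 7)) (S 2 (L 8 4) (L 25 4)))) (S 2 (L 8 4) (L 25 4))) (M 5 (P 2 (B02 (A13 (L 40 7)
  (B01 (A23 (L 40 7) (S 0 (L 2 1) (L 24 1))) (M 7 (K [(58,10,5),(40,7,3)] [])))) (M 7 (P 0 (K
  [(8,4,2),(2,1,4),(58,5,2)] []))))))) (M 15 (M 5 (A12 (B02 (A13 (L 40 7) (B01 (S 9 (L 29 1) (L 12
  1)) (M 7 (K [(58,10,5),(40,7,3)] [])))) (M 7 (K [(40,7,2),(58,10,4),(58,5,2)] []))) (B02 (A23 (L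
  40 7) (B01 (S 9 (L 29 1) (L 12 1)) (M 7 (K [(40,7,4),(58,10,4)] [])))) (M 7 (K
  [(40,7,4),(58,5,1),(58,10,3)] []))))))) (M 18 (M 7 (A02 (A03 (B12 (A01 (B01 (A02 (S 12 (L 38 4)
  (L 18 4)) (S 2 (L 8 4) (L 25 4))) (K [(58,5,5),(58,10,3)] [])) (B01 (S 2 (L 8 4) (L 25 4)) (K
  [(58,10,10),(58,5,14)] []))) (S 2 (L 8 4) (L 25 4))) (B12 (A13 (B01 (M 5 (L 40 7)) (K
  [(58,10,10),(58,5,14)] [])) (B01 (M 5 (K [(40,7,4),(58,10,12),(58,5,9)] [])) (K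
  [(58,5,14),(58,10,10)] []))) (M 5 (K [(40,7,2),(58,10,4),(58,5,3)] [])))) (A12 (B12 (A13 (B01 (M
  5 (L 40 7)) (K [(58,5,5),(58,10,3)] [])) (B01 (M 5 (K [(40,7,4),(58,10,12),(58,5,9)] [])) (K
  [(58,5,14),(58,10,10)] []))) (M 5 (K [(40,7,2),(58,5,3),(58,10,4)] []))) (B12 (A23 (S 2 (L 8 4)
  (L 25 4)) (B01 (M 5 (K [(40,7,53),(58,5,65),(58,10,82)] [])) (K [(58,5,16),(58,10,8)] []))) (M 5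
  (A23 (L 40 7) (K [(40,7,3),(58,5,2),(58,10,3)] []))))))))) (M 15 (B01 (M 5 (A12 (A13 (out 4) (B02
  (S 0 (L 2 1) (L 24 1)) (M 7 (K [(58,10,4),(40,7,2),(58,5,2)] [])))) (A02 (B02 (S 0 (L 2 1) (L 24
  1)) (M 7 (K [(58,10,4),(40,7,2),(58,5,2)] []))) (B02 (A23 (L 40 7) (B01 (S 9 (L 29 1) (L 12 1))
  (A13 (L 40 7) (M 7 (K [(40,7,4),(58,10,4)] []))))) (M 7 (K [(40,7,4),(58,5,1),(58,10,3)] []))))))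
  (A12 (A13 (out 4) (M 7 (B12 (A03 (out 4) (M 5 (B01 (K [(58,10,28),(40,7,12),(58,5,24)] []) (K
  [(58,10,10),(58,5,12),(40,7,1)] [])))) (M 5 (K [(58,10,28),(40,7,12),(58,5,24)] []))))) (M 7 (P 0
  (A02 (B12 (A03 (out 4) (M 5 (P 2 (B01 (K [(58,10,10),(40,7,6),(58,5,8)] []) (K
  [(8,4,3),(58,5,11),(40,11,1),(58,10,9)] []))))) (M 5 (K [(40,7,2),(58,10,3),(58,5,2)] []))) (M 5
  (B12 (A23 (L 40 7) (B01 (K [(40,7,53),(58,5,65),(58,10,82)] []) (K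
  [(2,8,3),(40,7,1),(40,11,2),(58,10,1)] []))) (A23 (L 40 7) (K [(40,7,3),(58,5,2),(58,10,3)]
  []))))))))))))) (M 15 (P 12 (M 5 (P 2 (A01 (A02 (A03 (P 13 (B02 (L 40 7) (B12 (L 40 7) (K
  [(40,7,5),(40,5,3)] [])))) (B02 (M 16 (P 13 (B01 (A13 (L 40 7) (A23 (L 40 7) (S 0 (L 2 1) (L 24
  1)))) (A13 (L 40 7) (M 7 (P 0 (K [(8,4,2),(2,1,4),(58,5,3)] []))))))) (B12 (P 13 (A13 (L 40 7) (L
  40 7))) (A13 (P 13 (K [(40,7,6),(40,5,2)] [])) (M 7 (A23 (A12 (K [(58,5,4),(58,10,4)] []) (M 18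
  (K [(38,10,1),(58,5,4),(58,10,3)] []))) (K [(58,10,33),(58,5,31)] []))))))) (A12 (B02 (P 13 (B01
  (S 9 (L 29 1) (L 12 1)) (A13 (L 40 7) (M 7 (K [(40,7,2),(58,10,4),(58,5,3)] []))))) (B12 (P 13
  (A13 (L 40 7) (L 40 7))) (A13 (P 13 (L 40 7)) (S 9 (L 29 1) (L 12 1))))) (B02 (B01 (A23 (A02 (P
  13 (L 40 7)) (A12 (P 13 (L 40 7)) (S 9 (L 29 1) (L 12 1)))) (S 9 (L 29 1) (L 12 1))) (S 13 (L 40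
  7) (L 59 7))) (S 13 (L 40 7) (L 13 7))))) (A12 (A13 (out 4) (B02 (P 13 (B01 (S 0 (L 2 1) (L 24
  1)) (A03 (out 4) (B12 (M 7 (K [(58,10,11),(40,7,4),(58,5,8)] [])) (S 0 (L 2 1) (L 24 1)))))) (B12
  (P 13 (A03 (out 4) (B01 (L 40 7) (M 7 (K [(40,7,1),(58,10,4),(58,5,4)] []))))) (A03 (out 4) (A23
  (out 4) (A13 (out 4) (S 9 (L 29 1) (L 12 1)))))))) (A02 (B02 (P 13 (B01 (S 0 (L 2 1) (L 24 1))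
  (A03 (out 4) (M 7 (K [(40,7,2),(58,10,4),(58,5,3)] []))))) (B12 (P 13 (A03 (out 4) (L 40 7)))
  (A03 (out 4) (S 9 (L 29 1) (L 12 1))))) (B02 (B01 (A23 (A12 (P 13 (L 40 7)) (A02 (P 13 (L 40 7))
  (B02 (P 13 (L 40 7)) (S 9 (L 29 1) (L 12 1))))) (S 9 (L 29 1) (L 12 1))) (S 13 (L 40 7) (L 59
  7))) (S 13 (L 40 7) (L 13 7))))))))))))) (M 7 (P 0 (B12 (A03 (P 19 (M 16 (P 13 (B01 (A02 (A01 (S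
  2 (L 8 4) (L 25 4)) (M 5 (K [(40,7,8),(58,10,10),(58,5,6)] []))) (M 5 (K
  [(40,7,4),(58,5,1),(58,10,3)] []))) (M 18 (A02 (A01 (B12 (A03 (B01 (A02 (S 12 (L 38 4) (L 18 4))
  (S 2 (L 8 4) (L 25 4))) (K [(58,5,5),(58,10,3)] [])) (S 2 (L 8 4) (L 25 4))) (S 2 (L 8 4) (L 25
  4))) (B12 (A13 (B01 (M 5 (K [(40,7,4),(58,10,12),(58,5,9)] [])) (A12 (K [(58,5,5),(58,10,3)] [])
  (S 2 (L 8 4) (L 25 4)))) (S 2 (L 8 4) (L 25 4))) (M 5 (K [(40,7,2),(58,5,3),(58,10,4)] []))))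
  (A23 (B12 (A12 (B01 (M 5 (A01 (L 40 7) (A13 (K [(40,7,53),(58,5,65),(58,10,82)] []) (L 40 7))))
  (K [(58,5,17),(58,10,7)] [])) (S 2 (L 8 4) (L 25 4))) (M 5 (A12 (K [(40,7,3),(58,5,2),(58,10,3)]
  []) (L 40 7)))) (B12 (A13 (B01 (M 5 (K [(40,7,57),(58,5,58),(58,10,77),(40,11,8)] [])) (K
  [(58,5,17),(58,10,7)] [])) (S 2 (L 8 4) (L 25 4))) (M 5 (K [(40,7,7),(58,5,7),(58,10,10)]
  [])))))))))) (B01 (M 5 (P 2 (A23 (P 13 (A02 (B02 (P 19 (K [(40,7,5),(58,10,3)] [])) (S 10 (L 31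
  8) (K [(40,7,4),(2,8,1),(2,1,3)] []))) (B02 (P 19 (K [(40,7,5),(58,10,3)] [])) (S 10 (L 31 8) (K
  [(40,7,31),(2,8,10),(2,1,23)] []))))) (A13 (P 13 (B02 (P 19 (K [(40,7,4),(58,10,3),(58,5,1)] []))
  (S 10 (L 31 8) (K [(2,8,1),(40,7,4),(2,1,3)] [])))) (B02 (A03 (P 19 (M 16 (K
  [(8,4,4),(58,5,1),(58,10,3)] []))) (B01 (S 13 (L 40 7) (L 13 5)) (A23 (P 13 (S 10 (L 31 8) (K
  [(40,7,4),(2,8,1),(2,1,3)] []))) (A13 (P 13 (S 10 (L 31 8) (K [(2,8,1),(40,7,4),(2,1,3)] []))) (S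
  13 (L 40 7) (L 13 5)))))) (A03 (P 13 (S 10 (L 31 8) (K [(2,8,5),(40,7,1),(2,1,2)] []))) (S 10 (L
  31 8) (L 2 8)))))))) (A23 (M 16 (P 13 (A02 (B12 (P 19 (M 10 (A01 (S 2 (L 8 4) (L 25 4)) (M 5 (B01
  (A13 (K [(40,7,57),(58,5,58),(58,10,77),(40,11,8)] []) (L 40 7)) (K [(2,8,5),(40,11,3)] []))))))
  (M 5 (A01 (L 40 7) (S 10 (L 31 8) (K [(2,8,249),(40,7,384),(2,1,367)] []))))) (M 5 (B12 (P 19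
  (A12 (B01 (A13 (A01 (L 40 7) (B02 (A12 (K [(40,7,6),(58,5,8),(58,10,10)] []) (L 40 7)) (K
  [(58,5,16),(58,10,8)] []))) (L 40 7)) (K [(58,5,5),(40,11,3)] [])) (L 40 7))) (A12 (A13 (P 19 (K
  [(40,7,3),(58,5,2),(58,10,3)] [])) (L 40 7)) (L 40 7))))))) (A13 (P 13 (B12 (P 19 (M 10 (A01 (B01
  (M 5 (K [(58,5,2),(40,7,3),(58,10,2)] [])) (L 58 5)) (M 5 (B01 (A12 (A13 (K
  [(58,5,58),(40,7,59),(58,10,84)] []) (K [(58,5,2),(40,7,3),(58,10,3)] [])) (K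
  [(58,5,2),(40,7,3),(2,1,2)] [])) (K [(58,5,4),(40,11,4)] [])))))) (M 5 (A01 (A02 (A03 (L 40 7) (S
  10 (L 31 8) (K [(2,8,2),(40,7,2),(2,1,3)] []))) (S 10 (L 31 8) (K [(2,8,7),(40,7,10),(2,1,8)]
  []))) (A12 (A13 (P 19 (K [(58,5,2),(40,7,2),(58,10,3)] [])) (S 10 (L 31 8) (K
  [(2,8,2),(40,7,2),(2,1,3)] []))) (S 10 (L 31 8) (K [(2,8,7),(40,7,10),(2,1,8)] []))))))) (B12 (P
  13 (A03 (B01 (M 5 (A02 (A01 (L 40 7) (B02 (A13 (P 19 (K [(58,5,4),(40,7,2),(58,10,2)] [])) (L 40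
  7)) (S 10 (L 31 8) (L 2 8)))) (S 10 (L 31 8) (L 2 8)))) (A02 (A01 (B12 (A03 (P 19 (L 58 5)) (M 5
  (L 40 7))) (M 5 (L 40 7))) (S 10 (L 31 8) (L 2 8))) (S 10 (L 31 8) (L 2 8)))) (S 10 (L 31 8) (L 2
  8)))) (M 5 (A03 (P 13 (A02 (A01 (L 40 7) (B02 (B01 (A13 (P 19 (K [(58,5,4),(40,7,2),(58,10,2)]
  [])) (L 40 7)) (S 10 (L 31 8) (L 2 8))) (S 10 (L 31 8) (L 2 8)))) (S 10 (L 31 8) (L 2 8)))) (A23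
  (S 10 (L 31 8) (L 2 8)) (A13 (B02 (S 10 (L 31 8) (L 2 8)) (B12 (S 10 (L 31 8) (L 2 8)) (A01 (A02
  (A03 (P 13 (L 40 7)) (S 10 (L 31 8) (L 2 8))) (S 10 (L 31 8) (L 2 8))) (S 10 (L 31 8) (L 2 8)))))
  (B02 (P 13 (L 40 7)) (P 10 (L 31 8)))))))))))) (M 15 (P 12 (M 5 (A03 (P 19 (A02 (A01 (M 18 (P 13
  (K [(40,7,6),(38,10,5),(58,10,3),(58,5,3),(38,4,7)] []))) (B02 (P 13 (K
  [(40,7,8),(58,10,10),(58,5,6)] [])) (B12 (P 13 (K [(40,7,3),(58,5,2),(58,10,3)] [])) (A13 (A12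
  (A01 (M 18 (K [(38,10,1),(58,5,3),(58,10,3),(38,4,1)] [])) (S 13 (L 40 7) (L 13 5))) (M 18 (K
  [(38,10,5),(58,5,10),(58,10,8),(38,4,2)] []))) (M 18 (K [(58,5,4),(38,10,10),(38,4,10)] []))))))
  (A23 (B02 (B01 (S 9 (L 29 1) (L 12 1)) (S 13 (L 40 7) (L 59 7))) (S 13 (L 40 7) (L 13 7))) (B02
  (P 13 (K [(40,7,9),(58,5,6),(58,10,10)] [])) (B12 (P 13 (K [(58,5,3),(40,7,3),(40,5,2)] [])) (A13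
  (S 13 (L 40 7) (L 13 7)) (M 18 (K [(58,5,1),(38,10,4),(38,4,3)] [])))))))) (A23 (A02 (B02 (B01 (P
  19 (A01 (S 13 (L 40 7) (L 13 7)) (A13 (A12 (B02 (P 13 (K [(58,10,4),(40,7,4)] [])) (S 13 (L 40 7)
  (L 13 5))) (S 13 (L 40 7) (L 13 5))) (S 13 (L 40 7) (L 13 7))))) (A01 (S 13 (L 40 7) (L 13 7))
  (B12 (P 13 (L 40 7)) (A13 (S 13 (L 40 7) (L 13 5)) (S 13 (L 40 7) (L 13 7)))))) (B12 (A01 (B01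
  (A03 (P 13 (L 40 7)) (S 13 (L 40 7) (L 13 7))) (S 10 (L 31 8) (L 2 8))) (B01 (A13 (S 13 (L 40 7)
  (L 13 5)) (S 13 (L 40 7) (L 13 7))) (S 13 (L 40 7) (L 13 7)))) (A01 (M 18 (A03 (A02 (B02 (B01 (K
  [(38,10,4),(38,4,4)] []) (S 10 (L 31 8) (L 2 8))) (S 10 (L 31 8) (L 2 8))) (S 13 (L 40 7) (L 13
  7))) (S 13 (L 40 7) (L 13 7)))) (A13 (A12 (B02 (S 13 (L 40 5) (L 13 7)) (B12 (P 19 (L 58 5)) (A01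
  (M 18 (L 38 10)) (P 16 (L 49 4))))) (S 13 (L 40 7) (L 13 7))) (S 13 (L 40 7) (L 13 7)))))) (B02
  (B01 (S 9 (L 29 1) (L 12 1)) (A12 (B12 (P 13 (L 40 7)) (S 9 (L 29 1) (L 12 1))) (B12 (P 13 (L 40
  7)) (P 19 (L 58 5))))) (B12 (A12 (B01 (A13 (S 9 (L 29 1) (L 12 1)) (A23 (P 19 (L 58 5)) (M 18 (L
  38 10)))) (S 13 (L 40 7) (L 13 7))) (B01 (A23 (P 19 (L 58 5)) (A13 (P 19 (L 58 5)) (M 18 (L 38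
  10)))) (M 18 (L 38 10)))) (A12 (A13 (A01 (B02 (P 19 (L 58 5)) (M 18 (L 38 10))) (B02 (S 9 (L 29
  1) (L 12 1)) (B12 (P 19 (L 58 5)) (P 16 (L 49 4))))) (A23 (B02 (P 19 (L 58 5)) (M 18 (L 38 10)))
  (M 18 (L 38 10)))) (A23 (A02 (B02 (P 19 (L 58 5)) (M 18 (L 38 10))) (B02 (P 19 (L 58 5)) (M 18 (L
  38 10)))) (A13 (B02 (P 19 (L 58 5)) (M 18 (L 38 10))) (M 18 (L 38 10)))))))) (A13 (B02 (B01 (P 19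
  (A01 (M 18 (S 13 (K [(40,7,3),(58,10,3),(58,5,1)] []) (K [(13,5,4),(38,10,3),(58,5,1)] []))) (A12
  (A13 (B02 (P 13 (K [(58,10,4),(40,7,4)] [])) (S 13 (L 40 7) (L 13 5))) (S 13 (L 40 7) (L 13 5)))
  (S 13 (L 40 7) (L 13 7))))) (A01 (B12 (S 13 (L 40 7) (L 13 7)) (P 19 (S 13 (K
  [(58,5,2),(40,7,3),(58,10,3)] []) (K [(13,5,3),(58,5,5)] [])))) (B12 (A12 (S 13 (L 40 7) (L 13
  5)) (S 13 (L 40 7) (L 13 7))) (P 19 (A12 (S 13 (L 40 7) (L 13 5)) (M 18 (K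
  [(38,10,21),(58,5,16),(58,10,26)] []))))))) (B12 (A01 (M 18 (B01 (A02 (A03 (P 13 (K
  [(40,7,4),(40,5,1),(38,4,3)] [])) (S 13 (L 40 7) (L 13 5))) (S 13 (L 40 7) (L 13 7))) (S 10 (L 31
  8) (L 2 8)))) (B01 (A12 (A13 (S 13 (L 40 7) (L 13 5)) (S 13 (L 40 7) (L 13 5))) (S 13 (L 40 7) (L
  13 7))) (S 13 (L 40 7) (L 13 7)))) (A01 (A02 (A03 (S 13 (L 40 5) (L 13 5)) (B02 (S 13 (L 40 5) (L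
  13 5)) (S 10 (L 31 8) (L 2 8)))) (S 13 (L 40 5) (L 13 7))) (A12 (A13 (B02 (S 13 (L 40 5) (L 13
  7)) (B12 (P 19 (L 58 5)) (A01 (M 18 (L 38 10)) (P 16 (L 49 4))))) (S 13 (L 40 5) (L 13 7))) (S 13
  (L 40 5) (L 13 7)))))) (M 18 (B02 (B01 (A03 (P 19 (S 13 (K [(40,7,3),(58,5,1),(58,10,3)] []) (K
  [(13,5,4),(38,10,3),(58,5,1)] []))) (A23 (A02 (B02 (S 13 (L 40 7) (L 13 7)) (B12 (S 13 (L 40 7)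
  (L 13 7)) (L 38 10))) (S 13 (L 40 7) (L 13 7))) (A13 (B02 (S 13 (L 40 7) (L 13 7)) (B12 (S 13 (L
  40 7) (L 13 7)) (L 38 10))) (K [(38,10,13),(38,4,11)] [])))) (A03 (B12 (S 13 (L 40 7) (L 13 7))
  (A02 (A01 (P 13 (K [(40,7,4),(38,4,3),(40,5,1)] [])) (S 10 (L 31 8) (L 2 8))) (S 10 (L 31 8) (L 2
  8)))) (S 10 (L 31 8) (L 2 8)))) (S 10 (L 31 8) (L 2 8)))))))))))))))))))))

/-- its cell -/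
def cI2 : Cell :=
  ⟨0, 0, 0, 1114112, 0, 0, 1114112, 0, 1114112, 557056, 557056, 557056, 0, 0, 0, 5070848, 3129344, 0⟩

theorem okI2 : check datI tI2 cI2 256 2048 = true := by
  decide +kernel

end Pool.Agent.H315.NW
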