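import Pool.Agent.H315.NW.Data

/-!
# Project NW (helper315): certificates (generated)
-/

set_option autoImplicit false
set_option maxRecDepth 100000

namespace Pool.Agent.H315.NW

open Tr

/-- a part of the certificate -/
def tI3 : Tr :=
  (M 1 (A12 (A01 (A02 (M 7 (P 0 (B12 (P 4 (M 3 (A03 (B01 (M 15 (P 12 (A01 (A02 (B02 (A03 (M 18 (B01
  (A01 (A02 (B02 (S 10 (L 31 8) (L 2 1)) (A03 (L 38 4) (A13 (L 38 4) (S 10 (L 31 8) (L 2 8)))))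
  (B02 (S 10 (L 31 8) (L 2 1)) (A23 (L 38 4) (A13 (L 38 4) (A03 (L 38 4) (B12 (B01 (A23 (L 38 4) (S
  10 (L 31 8) (L 2 8))) (A23 (L 38 4) (S 10 (L 31 8) (L 2 8)))) (S 10 (L 31 8) (L 2 8)))))))) (A13
  (L 38 4) (B02 (S 10 (L 31 8) (L 2 1)) (A23 (L 38 4) (A03 (L 38 4) (A13 (L 38 4) (B12 (B01 (A23 (L
  38 4) (S 10 (L 31 8) (L 2 8))) (A23 (L 38 4) (A03 (L 38 4) (A13 (L 38 4) (S 10 (L 31 8) (L 2
  8)))))) (S 10 (L 31 8) (L 2 8))))))))) (A01 (A02 (B12 (A03 (P 13 (K [(38,4,3),(40,11,2),(40,7,3)]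
  [])) (B01 (A13 (P 13 (K [(38,4,3),(40,11,1),(40,7,3)] [])) (S 10 (L 31 8) (L 2 8))) (S 10 (L 31
  8) (L 2 8)))) (A03 (A01 (S 10 (L 31 8) (L 2 8)) (A13 (L 38 4) (S 10 (L 31 8) (L 2 8)))) (A13 (A01
  (S 10 (L 31 8) (L 2 8)) (L 38 4)) (S 10 (L 31 8) (L 2 8))))) (B12 (A23 (S 10 (L 31 8) (K
  [(2,8,1),(2,1,7)] [])) (B01 (A13 (S 10 (L 31 8) (K [(2,8,1),(2,1,7)] [])) (A03 (P 13 (K
  [(40,11,20),(38,4,13),(40,7,31)] [])) (S 13 (L 40 11) (L 13 11)))) (S 10 (L 31 8) (L 2 8)))) (A23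
  (A12 (A13 (L 38 4) (B02 (S 10 (L 31 8) (K [(2,8,1),(2,1,7)] [])) (S 10 (L 31 8) (L 2 8)))) (A02
  (B02 (S 10 (L 31 8) (K [(2,8,1),(2,1,7)] [])) (S 10 (L 31 8) (L 2 8))) (P 19 (K
  [(58,5,2),(58,10,6)] [])))) (A13 (A12 (L 38 4) (B02 (B01 (S 10 (L 31 8) (L 2 1)) (S 10 (L 31 8)
  (L 2 8))) (S 10 (L 31 8) (L 2 8)))) (A03 (B02 (B01 (S 10 (L 31 8) (L 2 1)) (S 10 (L 31 8) (L 2
  8))) (S 10 (L 31 8) (L 2 8))) (B02 (B01 (A23 (S 10 (L 31 8) (L 2 1)) (S 10 (L 31 8) (L 2 8))) (S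
  10 (L 31 8) (L 2 8))) (S 10 (L 31 8) (L 2 8)))))))) (A13 (S 10 (L 31 8) (L 2 1)) (B12 (A23 (S 10
  (L 31 8) (K [(2,1,7),(2,8,1)] [])) (S 13 (L 40 11) (L 13 11))) (A23 (A02 (A03 (L 38 4) (B02 (P 19
  (K [(58,10,7),(58,5,1)] [])) (S 10 (L 31 8) (L 2 8)))) (P 19 (M 10 (K [(2,1,6),(58,5,2)] []))))
  (A03 (A02 (L 38 4) (B02 (S 13 (L 40 11) (L 13 11)) (S 10 (L 31 8) (L 2 8)))) (A13 (B02 (S 13 (L
  40 11) (L 13 11)) (S 10 (L 31 8) (L 2 8))) (B02 (B01 (A23 (S 10 (L 31 8) (L 2 1)) (A03 (S 10 (L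
  31 8) (L 2 1)) (A13 (S 10 (L 31 8) (L 2 1)) (S 10 (L 31 8) (L 2 8))))) (S 10 (L 31 8) (L 2 8)))
  (S 10 (L 31 8) (L 2 8))))))))))) (B01 (A13 (M 18 (A01 (B02 (S 10 (L 31 8) (L 2 1)) (A02 (A03 (A01
  (B12 (B01 (A02 (P 16 (S 10 (L 31 8) (L 50 8))) (L 38 4)) (A02 (A03 (A01 (S 10 (L 31 8) (L 2 8))
  (L 38 4)) (L 38 4)) (P 19 (L 58 10)))) (B02 (A02 (P 16 (S 10 (L 31 8) (L 50 8))) (L 38 4)) (S 10
  (L 31 8) (L 2 8)))) (L 38 4)) (L 38 4)) (L 38 4))) (L 38 4))) (A23 (M 18 (B02 (S 10 (L 31 8) (L 2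
  1)) (A02 (A01 (A03 (B12 (B01 (A02 (P 16 (K [(38,4,3),(49,4,4)] [])) (L 38 4)) (A02 (A01 (S 10 (L
  31 8) (L 2 8)) (L 38 4)) (P 19 (L 58 10)))) (B02 (A02 (P 16 (K [(38,4,3),(49,4,4)] [])) (L 38 4))
  (S 10 (L 31 8) (L 2 8)))) (L 38 4)) (L 38 4)) (L 38 4)))) (B02 (A03 (S 10 (L 31 8) (L 2 1)) (P 19
  (L 58 10))) (M 18 (A03 (A01 (A02 (B12 (B01 (P 16 (K [(38,4,4),(49,4,4)] [])) (A03 (A01 (S 10 (L
  31 8) (L 2 8)) (L 38 4)) (L 38 4))) (P 16 (S 10 (L 31 8) (L 50 8)))) (L 38 4)) (L 38 4)) (L 38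
  4)))))) (M 18 (A13 (A01 (B12 (A02 (S 13 (L 40 11) (L 13 11)) (P 19 (K [(58,10,7),(58,5,1)] [])))
  (A02 (A03 (A01 (B02 (B01 (A02 (A03 (A01 (S 10 (L 31 8) (L 2 8)) (S 10 (L 31 8) (L 2 1))) (S 10 (L
  31 8) (L 2 1))) (P 19 (L 58 10))) (S 10 (L 31 8) (L 2 8))) (S 10 (L 31 8) (L 2 8))) (B02 (S 13 (L
  40 11) (L 13 11)) (S 10 (L 31 8) (L 2 8)))) (A23 (B02 (S 13 (L 40 11) (L 13 11)) (S 10 (L 31 8)
  (L 2 8))) (L 38 4))) (P 19 (K [(58,10,6),(58,5,2)] [])))) (P 19 (L 58 10))) (A23 (B12 (A02 (S 13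
  (L 40 11) (L 13 11)) (P 19 (K [(58,10,6),(58,5,2)] []))) (A02 (A01 (A03 (B02 (B01 (A02 (A01 (S 10
  (L 31 8) (L 2 8)) (S 10 (L 31 8) (L 2 1))) (P 19 (L 58 10))) (S 10 (L 31 8) (L 2 8))) (S 10 (L 31
  8) (L 2 8))) (B02 (B01 (P 19 (L 58 10)) (S 10 (L 31 8) (L 2 8))) (S 10 (L 31 8) (L 2 8)))) (A12
  (B02 (S 13 (L 40 11) (L 13 11)) (B12 (S 13 (L 40 11) (L 13 5)) (A13 (L 38 4) (A03 (L 38 4) (P 19
  (K [(58,5,5),(38,4,3)] [])))))) (B02 (S 13 (L 40 11) (L 13 11)) (S 10 (L 31 8) (L 2 8))))) (P 19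
  (K [(58,10,6),(58,5,2)] [])))) (B12 (A03 (B01 (A01 (A02 (B02 (S 13 (L 40 11) (L 13 11)) (S 10 (L
  31 8) (L 2 8))) (B02 (S 13 (L 40 11) (L 13 11)) (S 10 (L 31 8) (L 2 8)))) (A13 (S 13 (L 40 11) (L
  13 11)) (B02 (S 13 (L 40 11) (L 13 11)) (S 10 (L 31 8) (L 2 8))))) (A01 (S 10 (L 31 8) (L 2 8))
  (A13 (S 13 (L 40 11) (L 13 11)) (S 10 (L 31 8) (L 2 8))))) (B01 (A13 (A01 (B02 (S 13 (L 40 11) (L
  13 11)) (S 10 (L 31 8) (L 2 8))) (S 13 (L 40 11) (L 13 11))) (A23 (B02 (S 13 (L 40 11) (L 13 11))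
  (S 10 (L 31 8) (L 2 8))) (B02 (P 19 (K [(58,10,6),(58,5,2)] [])) (S 10 (L 31 8) (L 2 8))))) (A13
  (A01 (S 10 (L 31 8) (L 2 8)) (S 13 (L 40 11) (L 13 11))) (S 10 (L 31 8) (L 2 8))))) (A03 (A01
  (A02 (B02 (B01 (A03 (A01 (S 10 (L 31 8) (L 2 8)) (A13 (S 10 (L 31 8) (L 2 1)) (S 10 (L 31 8) (L 2
  8)))) (A13 (A01 (S 10 (L 31 8) (L 2 8)) (P 19 (L 58 10))) (S 10 (L 31 8) (L 2 8)))) (S 10 (L 31
  8) (L 2 8))) (S 10 (L 31 8) (L 2 8))) (B02 (B01 (P 19 (K [(58,5,2),(58,10,6)] [])) (S 10 (L 31 8)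
  (L 2 8))) (S 10 (L 31 8) (L 2 8)))) (A13 (B02 (S 13 (L 40 11) (L 13 11)) (B12 (A12 (L 38 4) (B01
  (A02 (L 38 4) (P 19 (K [(58,5,5),(38,4,3)] []))) (S 10 (L 31 8) (L 2 8)))) (P 16 (S 10 (L 31 8)
  (L 50 8))))) (B02 (B01 (P 19 (M 10 (K [(2,1,6),(58,5,2)] []))) (S 10 (L 31 8) (L 2 8))) (S 10 (L
  31 8) (L 2 8))))) (A13 (A01 (B02 (B01 (P 19 (K [(58,10,6),(58,5,2)] [])) (S 10 (L 31 8) (L 2 8)))
  (S 10 (L 31 8) (L 2 8))) (P 19 (M 10 (K [(2,1,6),(58,5,2)] [])))) (A23 (B02 (B01 (P 19 (K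
  [(58,10,6),(58,5,2)] [])) (S 10 (L 31 8) (L 2 8))) (S 10 (L 31 8) (L 2 8))) (P 16 (K
  [(38,4,7),(49,4,12),(49,2,5)] []))))))))))) (M 18 (A03 (A01 (S 10 (L 31 8) (L 2 8)) (A13 (B12
  (B01 (A12 (L 38 4) (B02 (L 38 4) (S 10 (L 31 8) (K [(2,8,5),(2,1,3)] [])))) (S 10 (L 31 8) (K
  [(2,1,3),(2,8,5)] []))) (B02 (A12 (L 38 4) (B01 (L 38 4) (S 10 (L 31 8) (L 2 8)))) (S 10 (L 31 8)
  (L 2 8)))) (S 10 (L 31 8) (L 2 8)))) (A13 (A01 (S 10 (L 31 8) (L 2 8)) (B12 (B01 (A12 (L 38 4)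
  (B02 (L 38 4) (A23 (S 10 (L 31 8) (K [(2,8,5),(2,1,3)] [])) (L 38 4)))) (A12 (L 38 4) (A23 (S 10
  (L 31 8) (K [(2,8,6),(2,1,2)] [])) (L 38 4)))) (B02 (A12 (L 38 4) (B01 (L 38 4) (S 10 (L 31 8) (L
  2 8)))) (S 10 (L 31 8) (L 2 8))))) (S 10 (L 31 8) (L 2 8)))))) (B02 (A23 (P 19 (L 58 10)) (B01
  (A13 (P 19 (L 58 10)) (A03 (S 9 (L 29 7) (L 12 1)) (B02 (P 19 (L 58 10)) (M 18 (L 38 4))))) (M 18
  (A13 (P 19 (L 58 10)) (A03 (P 19 (K [(58,10,6),(58,5,2)] [])) (B12 (P 19 (K [(58,10,6),(58,5,2)]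
  [])) (A23 (P 19 (K [(58,10,6),(58,5,2)] [])) (A13 (P 19 (K [(58,10,6),(58,5,2)] [])) (A03 (P 19
  (K [(58,5,2),(58,10,6)] [])) (B02 (P 19 (K [(58,5,2),(58,10,6)] [])) (P 16 (K
  [(38,4,3),(49,4,4),(49,2,2)] [])))))))))))) (M 18 (A23 (A12 (A13 (B12 (P 19 (K
  [(58,10,4),(58,5,4)] [])) (B02 (P 19 (K [(38,4,5),(58,5,3)] [])) (S 10 (L 31 8) (L 2 8)))) (B12
  (P 19 (K [(58,10,5),(58,5,3)] [])) (B02 (P 19 (K [(58,5,3),(38,4,5)] [])) (S 10 (L 31 8) (L 2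
  8))))) (A02 (B12 (P 19 (K [(58,10,5),(58,5,3)] [])) (B02 (P 19 (K [(58,5,3),(58,10,5)] [])) (S 10
  (L 31 8) (L 2 8)))) (P 19 (K [(58,10,5),(58,5,3)] [])))) (A13 (A12 (B12 (B01 (A01 (B02 (L 38 4)
  (A03 (P 19 (K [(58,5,4),(58,10,4)] [])) (L 38 4))) (L 38 4)) (A01 (A03 (P 19 (K
  [(58,10,4),(58,5,4)] [])) (L 38 4)) (L 38 4))) (B02 (A01 (B01 (L 38 4) (S 10 (L 31 8) (L 2 8)))
  (L 38 4)) (S 10 (L 31 8) (L 2 8)))) (B12 (B01 (A02 (B02 (P 19 (K [(58,10,5),(58,5,3)] [])) (A03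
  (P 19 (K [(58,5,2),(58,10,6)] [])) (A23 (P 19 (K [(58,5,2),(58,10,6)] [])) (L 38 4)))) (B02 (P 19
  (K [(58,10,5),(58,5,3)] [])) (A23 (P 19 (K [(58,5,3),(58,10,5)] [])) (A03 (P 19 (K
  [(58,5,2),(58,10,6)] [])) (L 38 4))))) (A02 (A03 (P 19 (K [(58,5,2),(58,10,6)] [])) (A23 (P 19 (K
  [(58,10,6),(58,5,2)] [])) (L 38 4))) (A23 (P 19 (K [(58,10,5),(58,5,3)] [])) (A03 (P 19 (K
  [(58,10,6),(58,5,2)] [])) (L 38 4))))) (B02 (A02 (B01 (A03 (P 19 (K [(58,5,5),(38,4,3)] [])) (A23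
  (P 19 (K [(58,5,5),(38,4,3)] [])) (L 38 4))) (S 10 (L 31 8) (L 2 8))) (B01 (A23 (P 19 (K
  [(58,5,3),(38,4,5)] [])) (A03 (P 19 (K [(58,5,5),(38,4,3)] [])) (L 38 4))) (S 10 (L 31 8) (L 2
  8)))) (S 10 (L 31 8) (L 2 8))))) (A03 (B12 (B01 (A02 (S 10 (L 31 8) (L 2 8)) (B02 (P 19 (K
  [(58,5,3),(58,10,5)] [])) (A12 (S 10 (L 31 8) (L 2 8)) (A23 (P 19 (K [(58,5,3),(58,10,5)] [])) (S
  10 (L 31 8) (L 2 8)))))) (A02 (A01 (S 10 (L 31 8) (K [(2,8,2),(2,1,6)] [])) (A12 (S 10 (L 31 8)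
  (L 2 8)) (S 10 (L 31 8) (K [(2,8,2),(2,1,6)] [])))) (A12 (A01 (S 10 (L 31 8) (K [(2,8,2),(2,1,6)]
  [])) (S 13 (L 40 11) (L 13 11))) (S 10 (L 31 8) (K [(2,8,3),(2,1,5)] []))))) (B02 (A02 (S 10 (L
  31 8) (L 2 8)) (B01 (A12 (S 10 (L 31 8) (L 2 8)) (A23 (P 19 (K [(58,5,3),(38,4,5)] [])) (S 10 (L
  31 8) (L 2 8)))) (S 10 (L 31 8) (L 2 8)))) (S 10 (L 31 8) (L 2 8)))) (B12 (B01 (A23 (B02 (P 19 (K
  [(58,5,3),(58,10,5)] [])) (A12 (S 10 (L 31 8) (L 2 8)) (A02 (S 10 (L 31 8) (L 2 8)) (P 19 (K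
  [(58,5,3),(58,10,5)] []))))) (S 10 (L 31 8) (L 2 8))) (A23 (A12 (S 13 (L 40 11) (L 13 11)) (A02
  (S 13 (L 40 11) (L 13 11)) (P 19 (K [(58,5,3),(58,10,5)] [])))) (S 10 (L 31 8) (L 2 8)))) (B02
  (A23 (B01 (A12 (S 10 (L 31 8) (L 2 8)) (A02 (S 10 (L 31 8) (L 2 8)) (P 19 (K [(58,5,3),(38,4,5)]
  [])))) (S 10 (L 31 8) (L 2 8))) (S 10 (L 31 8) (L 2 8))) (S 10 (L 31 8) (L 2 8)))))))))) (A13
  (B02 (P 19 (L 58 10)) (M 18 (A12 (L 38 4) (A02 (L 38 4) (P 19 (M 10 (K [(2,1,4),(58,5,3)]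
  []))))))) (B02 (A23 (P 19 (L 58 10)) (B01 (A03 (P 19 (L 58 10)) (A13 (P 19 (L 58 10)) (B02 (P 19
  (L 58 10)) (M 18 (L 38 4))))) (M 18 (A03 (P 19 (L 58 10)) (A13 (P 19 (L 58 10)) (B12 (P 19 (M 10
  (K [(2,1,5),(38,4,1),(58,5,2)] []))) (A23 (P 19 (M 10 (K [(2,1,6),(58,5,2)] []))) (A03 (P 19 (M
  10 (K [(2,1,6),(58,5,2)] []))) (A13 (P 19 (K [(58,10,6),(58,5,2)] [])) (B02 (P 19 (K
  [(38,4,1),(58,10,5),(58,5,2)] [])) (P 16 (K [(38,4,4),(49,4,3),(49,2,1)] [])))))))))))) (M 18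
  (A23 (A02 (A03 (L 38 4) (B12 (P 19 (M 10 (K [(2,1,5),(58,5,3)] []))) (B02 (P 19 (K
  [(38,4,5),(58,5,3)] [])) (A13 (L 38 4) (S 10 (L 31 8) (L 2 8)))))) (P 19 (M 10 (K
  [(2,1,5),(58,5,3)] [])))) (A03 (A02 (L 38 4) (B12 (B01 (A12 (L 38 4) (B02 (L 38 4) (A23 (P 19 (K
  [(58,10,5),(58,5,3)] [])) (L 38 4)))) (A12 (L 38 4) (A23 (P 19 (K [(58,10,5),(58,5,3)] [])) (L 38
  4)))) (B02 (A12 (L 38 4) (B01 (L 38 4) (A23 (P 19 (K [(58,5,5),(38,4,3)] [])) (L 38 4)))) (A12 (L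
  38 4) (S 10 (L 31 8) (L 2 8)))))) (A13 (B12 (B01 (A12 (L 38 4) (B02 (L 38 4) (A02 (L 38 4) (P 19
  (K [(58,10,5),(58,5,3)] []))))) (A12 (L 38 4) (A02 (L 38 4) (P 19 (K [(58,10,5),(58,5,3)] [])))))
  (B02 (A12 (L 38 4) (B01 (L 38 4) (A02 (L 38 4) (P 19 (K [(58,5,5),(38,4,3)] []))))) (A12 (L 38 4)
  (S 10 (L 31 8) (L 2 8))))) (B12 (B01 (A23 (B02 (P 19 (K [(58,10,5),(58,5,3)] [])) (A02 (A03 (L 38
  4) (P 19 (K [(58,5,4),(58,10,4)] []))) (P 19 (K [(58,5,3),(58,10,5)] [])))) (B02 (A03 (A02 (L 38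
  4) (B01 (P 16 (S 10 (L 31 8) (L 50 8))) (A12 (L 38 4) (S 10 (L 31 8) (L 2 8))))) (P 16 (K
  [(38,4,4),(49,4,3),(49,2,1)] []))) (A03 (A02 (S 10 (L 31 8) (L 2 1)) (B12 (A12 (L 38 4) (S 10 (L
  31 8) (L 2 8))) (S 10 (L 31 8) (L 2 8)))) (P 16 (S 10 (L 31 8) (K [(2,8,4),(38,4,1),(49,2,3)]
  [])))))) (A23 (A02 (S 13 (L 40 11) (L 13 11)) (P 19 (K [(58,5,3),(58,10,5)] []))) (A03 (S 13 (L
  40 11) (L 13 11)) (A13 (B12 (S 13 (L 40 11) (L 13 11)) (B02 (S 13 (L 40 11) (L 13 11)) (S 10 (L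
  31 8) (L 2 8)))) (S 10 (L 31 8) (L 2 8)))))) (B02 (A23 (B01 (A02 (S 10 (L 31 8) (L 2 8)) (P 19 (K
  [(58,5,3),(38,4,5)] []))) (S 10 (L 31 8) (L 2 8))) (S 10 (L 31 8) (L 2 8))) (S 10 (L 31 8) (L 2
  8))))))))))))) (M 18 (A01 (A02 (B12 (A03 (B01 (A01 (S 10 (L 31 8) (L 2 8)) (S 10 (L 31 8) (K
  [(2,8,5),(2,1,3)] []))) (S 10 (L 31 8) (L 2 8))) (B01 (A13 (S 10 (L 31 8) (K [(2,8,5),(2,1,3)]
  [])) (S 10 (L 31 8) (L 2 8))) (A13 (S 10 (L 31 8) (L 2 8)) (A23 (S 10 (L 31 8) (L 2 8)) (S 10 (L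
  31 8) (L 2 8)))))) (A03 (A01 (A02 (B02 (B01 (A03 (A01 (A02 (P 10 (L 31 8)) (S 10 (L 31 8) (L 2
  8))) (S 10 (L 31 8) (L 2 8))) (S 10 (L 31 8) (L 2 8))) (P 10 (L 31 8))) (P 10 (L 31 8))) (S 10 (L
  31 8) (L 2 8))) (A13 (B02 (S 10 (L 31 8) (K [(2,8,5),(2,1,3)] [])) (S 10 (L 31 8) (L 2 8))) (S 10
  (L 31 8) (L 2 8)))) (P 12 (A13 (A01 (S 10 (L 31 8) (L 2 8)) (B02 (B01 (A12 (L 38 4) (A23 (S 10 (L
  31 8) (K [(2,8,6),(2,1,2)] [])) (L 38 4))) (S 10 (L 31 8) (L 2 8))) (S 10 (L 31 8) (L 2 8)))) (S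
  10 (L 31 8) (L 2 8)))))) (B12 (A23 (B01 (S 10 (L 31 8) (K [(2,8,3),(2,1,5)] [])) (A12 (S 10 (L 31
  8) (L 2 8)) (P 19 (K [(58,5,3),(58,10,5)] [])))) (B01 (A13 (S 10 (L 31 8) (K [(2,8,3),(2,1,5)]
  [])) (A03 (S 10 (L 31 8) (K [(2,8,3),(2,1,5)] [])) (S 13 (L 40 11) (L 13 11)))) (A13 (S 10 (L 31
  8) (L 2 8)) (A03 (S 10 (L 31 8) (L 2 8)) (S 10 (L 31 8) (L 2 8)))))) (P 12 (A23 (A12 (A13 (B02 (S
  10 (L 31 8) (K [(2,8,4),(2,1,4)] [])) (S 10 (L 31 8) (L 2 8))) (B02 (P 19 (K [(58,5,3),(58,10,5)]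
  [])) (S 10 (L 31 8) (L 2 8)))) (A02 (B02 (P 19 (K [(58,5,3),(58,10,5)] [])) (S 10 (L 31 8) (L 2
  8))) (P 19 (K [(58,5,3),(58,10,5)] [])))) (A13 (A12 (B02 (B01 (A01 (A03 (P 19 (K
  [(58,5,5),(58,10,3)] [])) (L 38 4)) (L 38 4)) (S 10 (L 31 8) (L 2 8))) (S 10 (L 31 8) (L 2 8)))
  (B02 (B01 (A02 (A03 (P 19 (K [(58,5,2),(58,10,6)] [])) (A23 (P 19 (K [(58,5,2),(58,10,6)] [])) (S
  10 (L 31 8) (L 2 1)))) (A23 (P 19 (K [(58,5,3),(58,10,5)] [])) (A03 (P 19 (K [(58,5,2),(58,10,6)]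
  [])) (S 10 (L 31 8) (L 2 1))))) (S 10 (L 31 8) (L 2 8))) (S 10 (L 31 8) (L 2 8)))) (A03 (B02 (B01
  (A02 (A01 (S 10 (L 31 8) (K [(2,8,2),(2,1,6)] [])) (A12 (S 10 (L 31 8) (L 2 8)) (S 10 (L 31 8) (K
  [(2,8,2),(2,1,6)] [])))) (A12 (A01 (S 10 (L 31 8) (K [(2,8,2),(2,1,6)] [])) (S 13 (L 40 11) (L 13
  11))) (S 10 (L 31 8) (K [(2,8,3),(2,1,5)] [])))) (S 10 (L 31 8) (L 2 8))) (S 10 (L 31 8) (L 2
  8))) (B02 (B01 (A23 (A12 (S 13 (L 40 11) (L 13 11)) (A02 (S 13 (L 40 11) (L 13 11)) (P 19 (K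
  [(58,5,3),(58,10,5)] [])))) (S 10 (L 31 8) (L 2 8))) (S 10 (L 31 8) (L 2 8))) (S 10 (L 31 8) (L 2
  8))))))))) (A13 (B12 (A12 (S 10 (L 31 8) (L 2 1)) (B01 (S 10 (L 31 8) (K [(2,1,5),(2,8,3)] []))
  (A02 (S 10 (L 31 8) (L 2 1)) (P 19 (K [(58,10,5),(58,5,3)] []))))) (P 12 (A12 (L 38 4) (A02 (L 38
  4) (P 19 (K [(58,10,5),(58,5,3)] [])))))) (B12 (A23 (B01 (S 10 (L 31 8) (K [(2,1,5),(2,8,3)] []))
  (A02 (S 10 (L 31 8) (L 2 8)) (P 19 (K [(58,5,3),(58,10,5)] [])))) (B01 (S 13 (L 40 11) (L 13 11))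
  (A03 (P 13 (L 40 11)) (S 10 (L 31 8) (L 2 8))))) (P 12 (A23 (A02 (A03 (L 38 4) (B02 (P 19 (P 13
  (K [(58,10,3),(58,5,2),(40,11,3)] []))) (B12 (P 19 (K [(58,5,4),(58,10,4)] [])) (A13 (L 38 4) (S
  10 (L 31 8) (L 2 8)))))) (P 19 (K [(58,5,3),(58,10,5)] []))) (A03 (A02 (S 10 (L 31 8) (L 2 1))
  (B02 (B01 (A12 (L 38 4) (A23 (P 19 (P 13 (K [(58,5,2),(40,11,6)] []))) (S 10 (L 31 8) (L 2 1))))
  (A12 (S 10 (L 31 8) (L 2 1)) (S 10 (L 31 8) (L 2 8)))) (B12 (A12 (S 10 (L 31 8) (L 2 1)) (S 10 (L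
  31 8) (L 2 8))) (A12 (L 38 4) (S 10 (L 31 8) (L 2 8)))))) (A13 (B02 (B01 (A12 (L 38 4) (A02 (S 10
  (L 31 8) (L 2 1)) (P 19 (K [(58,5,3),(58,10,5)] [])))) (A12 (S 10 (L 31 8) (L 2 1)) (S 10 (L 31
  8) (L 2 8)))) (B12 (A12 (S 10 (L 31 8) (L 2 1)) (S 10 (L 31 8) (L 2 8))) (A12 (L 38 4) (S 10 (L
  31 8) (L 2 8))))) (B02 (B01 (A23 (A02 (S 13 (L 40 11) (L 13 11)) (P 19 (K [(58,5,3),(58,10,5)]
  []))) (A03 (S 13 (L 40 11) (L 13 11)) (A13 (B02 (S 13 (L 40 11) (L 13 11)) (S 10 (L 31 8) (L 2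
  8))) (S 10 (L 31 8) (L 2 8))))) (S 10 (L 31 8) (L 2 8))) (S 10 (L 31 8) (L 2 8)))))))))))) (M 15
  (P 12 (B01 (A13 (A01 (B02 (A02 (B01 (A03 (A01 (B02 (P 19 (L 58 10)) (A02 (A03 (M 18 (L 38 4)) (S
  9 (L 29 7) (L 1 7))) (S 9 (L 29 7) (L 1 7)))) (P 19 (L 58 10))) (P 19 (L 58 10))) (A03 (M 18 (A01
  (B12 (P 19 (K [(58,10,5),(38,4,1),(58,5,2)] [])) (A02 (A03 (A01 (B02 (P 19 (K
  [(38,4,1),(58,10,5),(58,5,2)] [])) (P 16 (K [(38,4,3),(49,4,4),(49,2,1)] []))) (P 19 (K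
  [(58,10,6),(58,5,2)] []))) (P 19 (K [(58,10,6),(58,5,2)] []))) (P 19 (K [(58,10,6),(58,5,2)]
  [])))) (P 19 (L 58 10)))) (P 19 (L 58 10)))) (P 19 (L 58 10))) (A02 (A03 (M 18 (A01 (B12 (B01
  (A02 (P 16 (S 10 (L 31 8) (K [(2,8,4),(38,4,3),(49,2,1)] []))) (P 19 (M 10 (K [(2,8,3),(58,10,5)]
  [])))) (A02 (A03 (A01 (S 10 (L 31 8) (L 2 8)) (B12 (S 13 (L 40 11) (L 13 11)) (B02 (P 19 (K
  [(58,5,5),(58,10,3)] [])) (S 10 (L 31 8) (L 2 8))))) (A23 (B12 (S 13 (L 40 11) (L 13 11)) (B02 (P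
  19 (K [(58,5,5),(38,4,3)] [])) (S 10 (L 31 8) (L 2 8)))) (L 38 4))) (P 19 (K [(58,10,5),(58,5,3)]
  [])))) (B02 (A02 (P 16 (S 10 (L 31 8) (L 50 8))) (P 19 (K [(58,5,3),(38,4,5)] []))) (S 10 (L 31
  8) (L 2 8)))) (B12 (P 19 (K [(58,10,5),(58,5,3)] [])) (B02 (P 19 (K [(38,4,5),(58,5,3)] [])) (A12
  (L 38 4) (S 10 (L 31 8) (L 2 8))))))) (A23 (M 18 (B12 (P 19 (K [(58,10,5),(58,5,3)] [])) (B02 (P
  19 (K [(38,4,5),(58,5,3)] [])) (A12 (L 38 4) (S 10 (L 31 8) (L 2 8)))))) (B12 (P 19 (L 58 10))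
  (B02 (P 19 (L 58 10)) (M 18 (L 38 4)))))) (P 19 (K [(58,10,5),(58,5,3)] [])))) (P 19 (K
  [(58,10,17),(58,5,7)] []))) (A23 (B02 (A02 (B01 (A01 (A03 (B02 (P 19 (L 58 10)) (A02 (A01 (A03 (M
  18 (L 38 4)) (S 9 (L 29 7) (L 1 7))) (S 9 (L 29 7) (L 1 7))) (S 9 (L 29 7) (L 1 7)))) (P 19 (L 58
  10))) (P 19 (L 58 10))) (A01 (A03 (M 18 (B12 (P 19 (K [(58,10,5),(58,5,2)] [])) (A02 (A01 (A03
  (B02 (P 19 (K [(38,4,1),(58,10,5),(58,5,2)] [])) (P 16 (K [(38,4,3),(49,4,4),(49,2,1)] []))) (P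
  19 (K [(58,10,5),(58,5,2)] []))) (P 19 (K [(58,10,6),(58,5,2)] []))) (P 19 (K
  [(58,10,6),(58,5,2)] []))))) (P 19 (L 58 10))) (P 19 (L 58 10)))) (P 19 (L 58 10))) (A02 (A01
  (A03 (M 18 (B12 (B01 (A02 (S 10 (L 31 8) (K [(2,8,4),(38,4,4)] [])) (P 19 (M 10 (K
  [(2,8,3),(58,10,5)] [])))) (A02 (A01 (A03 (S 10 (L 31 8) (L 2 8)) (B12 (P 19 (K
  [(58,5,3),(58,10,5)] [])) (S 10 (L 31 8) (L 2 8)))) (A12 (B12 (S 13 (L 40 11) (L 13 11)) (S 10 (L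
  31 8) (K [(2,8,4),(38,4,4)] []))) (B12 (S 13 (L 40 11) (L 13 11)) (S 10 (L 31 8) (L 2 8))))) (P
  19 (K [(58,5,3),(58,10,5)] [])))) (B02 (A02 (P 16 (S 10 (L 31 8) (L 50 8))) (P 19 (K
  [(58,5,3),(38,4,5)] []))) (S 10 (L 31 8) (L 2 8))))) (B12 (P 19 (K [(58,10,5),(58,5,3)] [])) (B02
  (P 19 (K [(58,5,3),(58,10,5)] [])) (S 10 (L 31 8) (L 2 8))))) (A12 (B12 (P 19 (L 58 10)) (B02 (S
  9 (L 29 7) (L 12 7)) (M 18 (L 38 4)))) (B12 (P 19 (K [(58,10,5),(58,5,3)] [])) (B02 (P 19 (K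
  [(58,10,5),(58,5,3)] [])) (S 10 (L 31 8) (L 2 8)))))) (P 19 (K [(58,10,5),(58,5,3)] [])))) (B02
  (A03 (B01 (A01 (A02 (S 9 (L 29 7) (L 12 7)) (S 9 (L 29 7) (L 12 7))) (S 9 (L 29 7) (L 12 7)))
  (A01 (A02 (B12 (P 19 (K [(58,10,6),(58,5,2)] [])) (P 16 (A03 (M 18 (K [(38,4,3),(49,4,5)] [])) (S
  9 (L 29 7) (L 12 7))))) (P 19 (K [(58,10,5),(58,5,3)] []))) (P 19 (K [(58,10,5),(58,5,3)] []))))
  (P 19 (K [(58,10,16),(58,5,8)] []))) (A03 (A01 (A02 (B12 (B01 (P 16 (S 10 (L 31 8) (L 50 8))) (M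
  18 (A03 (A01 (A02 (S 10 (L 31 8) (L 2 8)) (B12 (P 19 (K [(58,5,3),(58,10,5)] [])) (S 10 (L 31 8)
  (L 2 8)))) (A13 (B12 (P 19 (K [(58,10,5),(58,5,3)] [])) (S 10 (L 31 8) (K [(2,8,4),(38,4,4)]
  []))) (B12 (P 19 (K [(58,5,3),(58,10,5)] [])) (S 10 (L 31 8) (L 2 8))))) (A13 (A01 (B12 (P 19 (K
  [(58,5,3),(58,10,5)] [])) (S 10 (L 31 8) (L 2 8))) (P 19 (K [(58,5,3),(58,10,5)] []))) (A23 (B12
  (P 19 (K [(58,5,3),(58,10,5)] [])) (S 10 (L 31 8) (L 2 8))) (P 16 (K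
  [(49,4,106),(38,4,47),(49,2,48)] []))))))) (P 16 (S 10 (L 31 8) (L 50 8)))) (B12 (P 19 (K
  [(58,10,5),(58,5,3)] [])) (P 16 (S 10 (L 31 8) (L 50 8))))) (A13 (B12 (P 19 (L 58 10)) (P 16 (S
  10 (L 31 8) (L 50 8)))) (B12 (P 19 (K [(58,10,5),(58,5,3)] [])) (P 16 (S 10 (L 31 8) (L 50
  8)))))) (A13 (A01 (B12 (P 19 (K [(58,10,5),(58,5,3)] [])) (P 16 (S 10 (L 31 8) (L 50 8)))) (P 19
  (K [(58,10,5),(58,5,3)] []))) (A23 (B12 (P 19 (K [(58,10,5),(58,5,3)] [])) (P 16 (S 10 (L 31 8)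
  (L 50 8)))) (P 16 (B12 (P 19 (K [(58,10,5),(58,5,3)] [])) (S 10 (L 31 8) (L 50 8)))))))))) (A13
  (M 18 (A01 (B12 (A02 (S 13 (L 40 11) (L 13 11)) (P 19 (M 10 (K [(2,1,5),(58,5,3)] [])))) (A02
  (A03 (A01 (B02 (B01 (A02 (A03 (A01 (S 10 (L 31 8) (L 2 8)) (B02 (S 13 (L 40 11) (L 13 11)) (S 10
  (L 31 8) (L 2 8)))) (A23 (B02 (S 13 (L 40 11) (L 13 11)) (S 10 (L 31 8) (L 2 8))) (B02 (P 19 (L
  58 10)) (S 10 (L 31 8) (L 2 8))))) (P 19 (K [(58,5,3),(58,10,5)] []))) (S 10 (L 31 8) (L 2 8)))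
  (S 10 (L 31 8) (L 2 8))) (B02 (B01 (P 19 (K [(58,10,5),(58,5,3)] [])) (A12 (S 10 (L 31 8) (L 2
  1)) (S 10 (L 31 8) (L 2 8)))) (B12 (A12 (S 10 (L 31 8) (L 2 1)) (S 10 (L 31 8) (L 2 8))) (A12 (L
  38 4) (S 10 (L 31 8) (L 2 8)))))) (A23 (B02 (P 19 (K [(58,10,5),(58,5,3)] [])) (B12 (A12 (S 10 (L
  31 8) (L 2 1)) (S 10 (L 31 8) (L 2 8))) (A12 (L 38 4) (S 10 (L 31 8) (L 2 8))))) (B02 (P 19 (L 58
  10)) (B12 (S 10 (L 31 8) (L 2 1)) (L 38 4))))) (P 19 (K [(58,10,5),(58,5,3)] [])))) (P 19 (M 10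
  (K [(2,1,5),(38,4,1),(58,5,3)] []))))) (A23 (M 18 (B12 (A02 (S 13 (L 40 11) (L 13 11)) (P 19 (K
  [(58,5,3),(58,10,5)] []))) (A02 (A01 (A03 (B02 (B01 (A02 (A01 (A03 (S 10 (L 31 8) (L 2 8)) (B02
  (S 13 (L 40 11) (L 13 11)) (S 10 (L 31 8) (L 2 8)))) (A12 (B02 (S 13 (L 40 11) (L 13 11)) (S 10
  (L 31 8) (L 2 8))) (B02 (S 13 (L 40 11) (L 13 11)) (S 10 (L 31 8) (L 2 8))))) (P 19 (K
  [(58,5,3),(58,10,5)] []))) (S 10 (L 31 8) (L 2 8))) (S 10 (L 31 8) (L 2 8))) (B02 (P 19 (K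
  [(58,5,3),(58,10,5)] [])) (S 10 (L 31 8) (L 2 8)))) (A12 (B02 (S 13 (L 40 11) (L 13 11)) (B12
  (A13 (B01 (L 38 4) (A01 (S 10 (L 31 8) (L 2 8)) (P 19 (L 58 10)))) (B01 (A03 (A01 (S 10 (L 31 8)
  (L 2 8)) (P 19 (K [(58,5,4),(38,4,4)] []))) (P 19 (K [(58,5,5),(38,4,3)] []))) (S 10 (L 31 8) (L
  2 8)))) (A13 (L 38 4) (A03 (A01 (S 10 (L 31 8) (L 2 8)) (P 19 (S 13 (L 40 5) (L 59 5)))) (P 19 (S
  13 (L 40 5) (L 59 5))))))) (B02 (P 19 (K [(58,5,3),(58,10,5)] [])) (S 10 (L 31 8) (L 2 8))))) (P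
  19 (K [(58,5,3),(58,10,5)] []))))) (B12 (A03 (B01 (A01 (A02 (B02 (S 13 (L 40 11) (L 13 11)) (S 10
  (L 31 8) (L 2 8))) (B02 (S 13 (L 40 11) (L 13 11)) (S 10 (L 31 8) (L 2 8)))) (A13 (S 13 (L 40 11)
  (L 13 11)) (B02 (S 13 (L 40 11) (L 13 11)) (S 10 (L 31 8) (L 2 8))))) (A01 (S 10 (L 31 8) (L 2
  8)) (A13 (S 13 (L 40 11) (L 13 11)) (S 10 (L 31 8) (L 2 8))))) (B01 (A13 (A01 (B02 (S 13 (L 40
  11) (L 13 11)) (S 10 (L 31 8) (L 2 8))) (S 13 (L 40 11) (L 13 11))) (A23 (B02 (S 13 (L 40 11) (L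
  13 11)) (S 10 (L 31 8) (L 2 8))) (B02 (P 19 (K [(58,5,3),(58,10,5)] [])) (S 10 (L 31 8) (L 2
  8))))) (A13 (A01 (S 10 (L 31 8) (L 2 8)) (S 13 (L 40 11) (L 13 11))) (S 10 (L 31 8) (L 2 8)))))
  (A03 (M 18 (A01 (A02 (B02 (B01 (A03 (A01 (A02 (S 10 (L 31 8) (L 2 8)) (B02 (B01 (P 19 (K
  [(58,5,3),(58,10,5)] [])) (S 10 (L 31 8) (L 2 8))) (S 10 (L 31 8) (L 2 8)))) (A13 (B02 (S 13 (L
  40 11) (L 13 11)) (S 10 (L 31 8) (L 2 8))) (B02 (B01 (P 19 (K [(58,5,3),(58,10,5)] [])) (S 10 (L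
  31 8) (L 2 8))) (S 10 (L 31 8) (L 2 8))))) (A13 (A01 (B02 (B01 (P 19 (K [(58,5,3),(58,10,5)] []))
  (S 10 (L 31 8) (L 2 8))) (S 10 (L 31 8) (L 2 8))) (P 19 (K [(58,5,3),(58,10,5)] []))) (A23 (B02
  (B01 (P 19 (K [(58,5,3),(58,10,5)] [])) (S 10 (L 31 8) (L 2 8))) (S 10 (L 31 8) (L 2 8))) (P 16
  (S 10 (L 31 8) (K [(2,8,5),(49,2,3)] [])))))) (S 10 (L 31 8) (L 2 8))) (S 10 (L 31 8) (L 2 8)))
  (B02 (B01 (P 19 (K [(58,5,3),(58,10,5)] [])) (S 10 (L 31 8) (L 2 8))) (S 10 (L 31 8) (L 2 8))))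
  (A13 (B02 (P 19 (K [(58,10,5),(58,5,3)] [])) (B12 (A12 (B01 (L 38 4) (A01 (S 10 (L 31 8) (L 2 8))
  (P 19 (K [(58,5,4),(38,4,4)] [])))) (B01 (A02 (A01 (S 10 (L 31 8) (L 2 8)) (P 19 (S 13 (L 40 5)
  (L 59 5)))) (P 19 (K [(58,5,5),(38,4,3)] []))) (S 10 (L 31 8) (L 2 8)))) (P 16 (S 10 (L 31 8) (L
  50 8))))) (B02 (B01 (P 19 (K [(58,5,3),(58,10,5)] [])) (S 10 (L 31 8) (L 2 8))) (S 10 (L 31 8) (L
  2 8)))))) (A13 (A01 (B02 (B01 (P 19 (K [(58,10,5),(58,5,3)] [])) (S 10 (L 31 8) (L 2 8))) (S 10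
  (L 31 8) (L 2 8))) (P 19 (K [(58,10,5),(58,5,3)] []))) (A23 (B02 (B01 (P 19 (K
  [(58,10,5),(58,5,3)] [])) (S 10 (L 31 8) (L 2 8))) (S 10 (L 31 8) (L 2 8))) (P 16 (B02 (B01 (P 19
  (K [(58,5,3),(58,10,4),(49,4,1)] [])) (S 10 (L 31 8) (L 2 8))) (S 10 (L 31 8) (L 2
  8)))))))))))))))) (M 15 (P 12 (A03 (P 4 (M 3 (A01 (A02 (B02 (B01 (A03 (M 18 (A01 (A02 (B02 (B01
  (L 38 4) (A03 (L 38 4) (B12 (A13 (L 38 4) (S 10 (L 31 8) (L 2 8))) (L 38 4)))) (B12 (A03 (L 38 4)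
  (B01 (L 38 4) (S 10 (L 31 8) (L 2 8)))) (L 38 4))) (B02 (B01 (L 38 4) (A23 (L 38 4) (B12 (A13 (L
  38 4) (S 10 (L 31 8) (L 2 8))) (L 38 4)))) (B12 (A23 (L 38 4) (B01 (L 38 4) (S 10 (L 31 8) (L 2
  8)))) (L 38 4)))) (A13 (L 38 4) (B02 (B01 (L 38 4) (A23 (L 38 4) (B12 (A03 (L 38 4) (A13 (L 38 4)
  (S 10 (L 31 8) (L 2 8)))) (L 38 4)))) (B12 (A23 (L 38 4) (B01 (L 38 4) (S 10 (L 31 8) (L 2 8))))
  (L 38 4)))))) (A13 (M 18 (A01 (B02 (B01 (L 38 4) (A02 (B12 (A03 (A01 (B01 (L 38 4) (S 10 (L 31 8)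
  (L 2 8))) (L 38 4)) (L 38 4)) (L 38 4)) (L 38 4))) (B12 (A02 (P 16 (S 10 (L 31 8) (L 50 8))) (L
  38 4)) (L 38 4))) (L 38 4))) (A23 (M 18 (B02 (B01 (L 38 4) (A02 (B12 (A01 (A03 (B01 (L 38 4) (S
  10 (L 31 8) (L 2 8))) (L 38 4)) (L 38 4)) (L 38 4)) (L 38 4))) (B12 (A02 (P 16 (S 10 (L 31 8) (L
  50 8))) (L 38 4)) (L 38 4)))) (B02 (B01 (A03 (M 18 (L 38 4)) (S 9 (L 29 7) (L 1 7))) (P 16 (S 10
  (L 31 8) (L 50 8)))) (P 16 (S 10 (L 31 8) (L 50 8))))))) (A03 (M 18 (B12 (A01 (S 10 (L 31 8) (L 2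
  8)) (A13 (B01 (L 38 4) (S 10 (L 31 8) (L 2 8))) (S 10 (L 31 8) (L 2 8)))) (A01 (S 10 (L 31 8) (L
  2 8)) (A13 (L 38 4) (S 10 (L 31 8) (L 2 8)))))) (B12 (M 18 (A13 (A01 (S 10 (L 31 8) (L 2 8)) (B01
  (L 38 4) (S 10 (L 31 8) (L 2 8)))) (S 10 (L 31 8) (L 2 8)))) (A13 (M 18 (A01 (S 10 (L 31 8) (L 2
  8)) (L 38 4))) (A23 (S 10 (L 31 8) (L 2 8)) (S 10 (L 31 8) (L 2 8))))))) (B12 (A03 (M 18 (B01 (P
  16 (K [(38,4,5),(49,4,3)] [])) (S 10 (L 31 8) (L 2 8)))) (B01 (P 16 (A13 (M 18 (K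
  [(38,4,12),(49,8,1),(49,4,11)] [])) (S 10 (L 31 8) (L 2 8)))) (S 10 (L 31 8) (L 2 8)))) (P 16
  (A03 (M 18 (K [(38,4,6),(49,4,2)] [])) (A13 (M 18 (K [(38,4,3),(49,8,1),(49,4,4)] [])) (S 10 (L
  31 8) (L 2 8))))))) (B02 (B01 (A23 (S 9 (L 29 7) (L 12 1)) (A13 (S 9 (L 29 7) (L 1 7)) (A03 (S 9
  (L 29 7) (L 12 1)) (B02 (B01 (P 19 (L 58 10)) (A23 (S 9 (L 29 7) (L 1 7)) (S 9 (L 29 7) (L 1
  7)))) (B12 (A23 (S 9 (L 29 7) (L 1 7)) (S 9 (L 29 7) (L 1 7))) (S 9 (L 29 7) (L 1 7))))))) (A23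
  (B12 (M 18 (A12 (A13 (B01 (L 38 4) (S 10 (L 31 8) (L 2 8))) (B01 (P 19 (K [(38,4,6),(58,5,2)]
  [])) (S 10 (L 31 8) (L 2 8)))) (A02 (B01 (P 19 (K [(58,5,3),(38,4,1),(58,10,5)] [])) (S 10 (L 31
  8) (L 2 8))) (P 19 (K [(58,5,3),(58,10,5)] []))))) (S 9 (L 29 7) (L 12 1))) (B12 (M 18 (A13 (A12
  (B01 (L 38 4) (S 10 (L 31 8) (L 2 8))) (B01 (A02 (A03 (A01 (S 10 (L 31 8) (L 2 8)) (S 13 (L 40 5)
  (L 13 5))) (S 13 (L 40 5) (L 13 5))) (A23 (P 19 (K [(58,5,3),(38,4,5)] [])) (S 13 (L 40 5) (L 13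
  5)))) (S 10 (L 31 8) (L 2 8)))) (A03 (B01 (A02 (S 10 (L 31 8) (L 2 8)) (A12 (S 10 (L 31 8) (L 2
  8)) (A23 (P 19 (K [(58,5,3),(38,4,5)] [])) (S 10 (L 31 8) (L 2 8))))) (S 10 (L 31 8) (L 2 8)))
  (B01 (A23 (A12 (S 10 (L 31 8) (L 2 8)) (A02 (S 10 (L 31 8) (L 2 8)) (B02 (P 19 (S 13 (L 40 5) (L
  59 5))) (S 10 (L 31 8) (L 2 8))))) (S 10 (L 31 8) (L 2 8))) (S 10 (L 31 8) (L 2 8)))))) (A13 (A12
  (M 18 (L 38 4)) (B02 (M 18 (L 38 4)) (A02 (M 18 (L 38 4)) (S 9 (L 29 7) (L 1 7))))) (A03 (B02 (M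
  18 (L 38 4)) (A02 (M 18 (L 38 4)) (S 9 (L 29 7) (L 1 7)))) (B02 (M 18 (L 38 4)) (S 9 (L 29 7) (L
  1 7)))))))) (B12 (A23 (B01 (A12 (A13 (M 18 (L 38 4)) (B02 (A03 (M 18 (L 38 4)) (S 9 (L 29 7) (L 1
  7))) (M 18 (L 38 4)))) (A02 (B02 (A03 (M 18 (L 38 4)) (S 9 (L 29 7) (L 1 7))) (M 18 (L 38 4)))
  (B02 (S 9 (L 29 7) (L 12 1)) (M 18 (L 38 4))))) (M 18 (A12 (S 10 (L 31 8) (L 2 8)) (A02 (S 10 (L
  31 8) (L 2 8)) (B12 (P 19 (K [(58,5,2),(38,4,6)] [])) (A23 (L 38 4) (S 10 (L 31 8) (L 2 8))))))))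
  (B01 (S 9 (L 29 7) (L 1 7)) (S 10 (L 31 8) (L 2 8)))) (A23 (A12 (S 9 (L 29 7) (L 1 7)) (A02 (S 9
  (L 29 7) (L 1 7)) (B02 (B01 (S 9 (L 29 7) (L 12 1)) (A23 (S 9 (L 29 7) (L 12 1)) (S 9 (L 29 7) (L
  1 7)))) (B12 (A23 (P 19 (L 58 5)) (S 9 (L 29 7) (L 1 7))) (S 9 (L 29 7) (L 12 1)))))) (S 9 (L 29
  7) (L 1 7)))))) (A13 (B02 (B01 (P 19 (L 58 10)) (A12 (B12 (M 18 (L 38 4)) (P 19 (L 58 10))) (B12
  (M 18 (A02 (L 38 4) (P 19 (K [(58,10,4),(58,5,3)] [])))) (P 19 (L 58 10))))) (B12 (A12 (B01 (A01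
  (A02 (B02 (P 19 (L 58 10)) (M 18 (L 38 4))) (P 19 (L 58 10))) (P 19 (L 58 10))) (M 18 (L 38 4)))
  (B01 (A02 (A01 (B02 (P 19 (L 58 10)) (M 18 (L 38 4))) (P 19 (L 58 10))) (S 9 (L 29 7) (L 12 7)))
  (M 18 (A02 (L 38 4) (P 19 (K [(38,4,6),(58,5,2)] [])))))) (A12 (A01 (A02 (B02 (B01 (P 19 (L 58
  10)) (P 16 (L 49 8))) (P 16 (L 49 8))) (P 19 (L 58 10))) (P 19 (L 58 10))) (A02 (A01 (B02 (B01 (P
  19 (L 58 10)) (P 16 (L 49 8))) (P 16 (L 49 8))) (P 19 (L 58 10))) (S 9 (L 29 7) (L 12 7))))))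
  (B02 (B01 (A23 (P 19 (L 58 10)) (A03 (P 19 (L 58 10)) (A13 (P 19 (L 58 10)) (B02 (B01 (P 19 (L 58
  10)) (A23 (S 9 (L 29 7) (L 1 7)) (S 9 (L 29 7) (L 1 7)))) (B12 (A23 (S 9 (L 29 7) (L 1 7)) (S 9
  (L 29 7) (L 1 7))) (S 9 (L 29 7) (L 1 7))))))) (A23 (B12 (M 18 (P 9 (A02 (A03 (L 38 4) (B01 (L 38
  4) (A13 (L 38 4) (S 10 (L 31 8) (L 2 8))))) (P 19 (M 10 (K [(29,7,1),(2,1,4),(58,5,3)] []))))))
  (S 9 (L 29 7) (L 12 7))) (B12 (M 18 (A03 (A02 (L 38 4) (B01 (L 38 4) (A12 (L 38 4) (S 10 (L 31 8)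
  (L 2 8))))) (A13 (B01 (L 38 4) (P 16 (K [(38,4,2),(49,8,5),(49,4,1)] []))) (B01 (A23 (A02 (S 10
  (L 31 8) (L 2 8)) (A12 (P 16 (S 10 (L 31 8) (L 50 8))) (B02 (P 19 (S 13 (L 40 5) (L 59 5))) (S 10
  (L 31 8) (L 2 8))))) (S 10 (L 31 8) (L 2 8))) (S 10 (L 31 8) (L 2 8)))))) (A03 (A02 (B02 (M 18 (L
  38 4)) (A01 (M 18 (L 38 4)) (P 16 (L 49 8)))) (B02 (M 18 (L 38 4)) (S 9 (L 29 7) (L 1 7)))) (A13
  (B02 (M 18 (L 38 4)) (S 9 (L 29 7) (L 1 7))) (B02 (M 18 (L 38 4)) (S 9 (L 29 7) (L 1 7))))))))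
  (B12 (A23 (B01 (A02 (A03 (B02 (P 19 (L 58 10)) (M 18 (L 38 4))) (B02 (S 9 (L 29 7) (L 1 7)) (M 18
  (L 38 4)))) (A12 (B02 (S 9 (L 29 7) (L 1 7)) (M 18 (L 38 4))) (B02 (S 9 (L 29 7) (L 12 1)) (M 18
  (L 38 4))))) (M 18 (A02 (A03 (L 38 4) (B12 (A13 (L 38 4) (S 10 (L 31 8) (L 2 8))) (L 38 4))) (A12
  (B12 (P 19 (K [(38,4,5),(58,5,3)] [])) (L 38 4)) (B12 (P 19 (K [(58,5,2),(38,4,6)] [])) (L 38
  4)))))) (B01 (S 9 (L 29 7) (L 1 7)) (M 18 (A03 (A02 (L 38 4) (P 16 (K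
  [(38,4,2),(49,8,3),(49,4,3)] []))) (P 16 (S 10 (L 31 8) (L 50 8))))))) (A23 (A02 (S 9 (L 29 7) (L
  1 7)) (A12 (S 9 (L 29 7) (L 1 7)) (B02 (B01 (S 9 (L 29 7) (L 12 1)) (A23 (S 9 (L 29 7) (L 1 7))
  (S 9 (L 29 7) (L 1 7)))) (B12 (A23 (S 9 (L 29 7) (L 1 7)) (S 9 (L 29 7) (L 1 7))) (S 9 (L 29 7)
  (L 1 7)))))) (S 9 (L 29 7) (L 1 7))))))))) (A13 (P 4 (A01 (B02 (B01 (A02 (A03 (A01 (B02 (B01 (P
  19 (L 58 10)) (A02 (S 9 (L 29 7) (L 12 7)) (S 9 (L 29 7) (L 12 7)))) (B12 (A02 (S 9 (L 29 7) (L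
  12 7)) (S 9 (L 29 7) (L 12 7))) (S 9 (L 29 7) (L 12 7)))) (P 19 (L 58 10))) (P 19 (L 58 10))) (P
  19 (L 58 10))) (A02 (B12 (A03 (M 18 (A01 (B01 (A02 (P 16 (S 10 (L 31 8) (L 50 8))) (A23 (A12 (P
  16 (S 10 (L 31 8) (L 50 8))) (B02 (P 19 (S 13 (L 40 5) (L 59 5))) (S 10 (L 31 8) (L 2 8)))) (P 16
  (S 10 (L 31 8) (L 50 8))))) (S 10 (L 31 8) (L 2 8))) (B01 (L 38 4) (P 16 (S 10 (L 31 8) (L 50
  8)))))) (A23 (M 18 (B01 (L 38 4) (P 16 (S 10 (L 31 8) (L 50 8))))) (B01 (P 19 (L 58 10)) (S 9 (L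
  29 7) (L 1 7))))) (A03 (A01 (B02 (A02 (S 9 (L 29 7) (L 1 7)) (A23 (M 18 (L 38 4)) (S 9 (L 29 7)
  (L 1 7)))) (P 16 (S 10 (L 31 8) (L 50 8)))) (S 9 (L 29 7) (L 12 7))) (S 9 (L 29 7) (L 12 7)))) (P
  19 (K [(58,10,5),(58,5,3)] [])))) (B12 (A02 (P 16 (S 10 (L 31 8) (L 50 8))) (B01 (A23 (A12 (B02
  (S 9 (L 29 7) (L 12 7)) (A01 (A03 (M 18 (L 38 4)) (S 9 (L 29 7) (L 1 7))) (S 9 (L 29 7) (L 1
  7)))) (B02 (S 9 (L 29 7) (L 12 7)) (A02 (A03 (M 18 (L 38 4)) (S 9 (L 29 7) (L 1 7))) (S 9 (L 29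
  7) (L 1 7))))) (S 9 (L 29 7) (L 12 7))) (A23 (M 18 (A12 (B12 (P 19 (S 13 (L 40 5) (L 59 5))) (L
  38 4)) (B12 (P 19 (K [(58,5,2),(38,4,6)] [])) (L 38 4)))) (A03 (M 18 (B12 (P 19 (S 13 (L 40 5) (L
  59 5))) (L 38 4))) (S 9 (L 29 7) (L 1 7)))))) (A02 (P 16 (S 10 (L 31 8) (L 50 8))) (A23 (A12 (S 9
  (L 29 7) (L 12 7)) (B02 (B01 (S 9 (L 29 1) (L 12 7)) (A02 (S 9 (L 29 7) (L 12 7)) (S 9 (L 29 7)
  (L 12 7)))) (B12 (A02 (S 9 (L 29 7) (L 12 7)) (S 9 (L 29 7) (L 12 7))) (S 9 (L 29 1) (L 1 1)))))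
  (S 9 (L 29 7) (L 12 7)))))) (P 19 (B02 (K [(58,10,17),(58,5,7)] []) (K [(58,10,134),(58,5,66)]
  []))))) (A23 (P 4 (M 3 (B02 (B01 (A02 (A01 (A03 (B02 (B01 (P 19 (L 58 10)) (A02 (S 9 (L 29 7) (L
  12 7)) (S 9 (L 29 7) (L 12 7)))) (B12 (A02 (S 9 (L 29 7) (L 12 7)) (S 9 (L 29 7) (L 12 7))) (P 16
  (L 49 4)))) (S 9 (L 29 7) (L 12 7))) (P 19 (L 58 10))) (P 19 (L 58 10))) (A02 (B12 (A01 (A03 (B01
  (A02 (P 16 (S 10 (L 31 8) (L 50 8))) (A12 (P 16 (S 10 (L 31 8) (L 50 8))) (A23 (B02 (P 19 (S 13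
  (L 40 5) (L 59 5))) (S 10 (L 31 8) (L 2 8))) (P 16 (S 10 (L 31 8) (L 50 8)))))) (S 10 (L 31 8) (L
  2 8))) (B01 (S 9 (L 29 7) (L 12 1)) (S 10 (L 31 8) (L 2 8)))) (A12 (P 16 (S 10 (L 31 8) (L 50
  8))) (B01 (S 9 (L 29 7) (L 12 1)) (S 10 (L 31 8) (L 2 8))))) (A01 (A03 (B02 (A02 (S 9 (L 29 7) (L
  1 7)) (A12 (S 9 (L 29 7) (L 1 7)) (A23 (M 18 (L 38 4)) (S 9 (L 29 7) (L 1 7))))) (P 16 (L 49 4)))
  (S 9 (L 29 7) (L 12 7))) (S 9 (L 29 7) (L 12 7)))) (P 19 (K [(58,10,5),(58,5,3)] [])))) (B12 (A02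
  (P 16 (S 10 (L 31 8) (L 50 8))) (B01 (A12 (S 9 (L 29 7) (L 12 7)) (A23 (B02 (S 9 (L 29 1) (L 12
  7)) (A02 (A01 (A03 (M 18 (L 38 10)) (P 19 (L 58 5))) (S 9 (L 29 7) (L 1 7))) (S 9 (L 29 1) (L 1
  7)))) (S 9 (L 29 1) (L 12 7)))) (A12 (A01 (B12 (P 19 (S 13 (L 40 5) (L 59 5))) (S 9 (L 29 7) (L
  12 1))) (P 19 (S 13 (L 40 5) (L 59 5)))) (A23 (M 18 (B12 (P 19 (K [(58,5,2),(38,4,6)] [])) (L 38
  4))) (B12 (P 19 (S 13 (L 40 5) (L 59 5))) (S 9 (L 29 7) (L 12 1))))))) (A02 (P 16 (L 49 4)) (A12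
  (S 9 (L 29 7) (L 12 7)) (A23 (B02 (B01 (S 9 (L 29 1) (L 1 1)) (A02 (S 9 (L 29 1) (L 1 1)) (S 9 (L
  29 1) (L 1 1)))) (B12 (A02 (S 9 (L 29 1) (L 1 1)) (S 9 (L 29 1) (L 1 1))) (P 16 (L 49 4)))) (S 9
  (L 29 1) (L 1 1))))))))) (B02 (B01 (A03 (P 4 (A01 (S 9 (L 29 7) (L 12 7)) (S 9 (L 29 7) (L 12
  7)))) (P 18 (S 3 (L 9 4) (L 54 4)))) (P 16 (A03 (S 10 (L 31 8) (L 50 8)) (B12 (S 10 (L 31 8) (L
  50 8)) (P 18 (S 3 (L 9 4) (L 54 4))))))) (P 16 (B12 (A03 (S 10 (L 31 8) (L 50 8)) (B01 (P 18 (S 3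
  (L 9 4) (L 54 4))) (S 10 (L 31 8) (L 50 8)))) (A03 (A01 (A02 (B02 (M 3 (L 49 4)) (B12 (M 3 (L 49
  4)) (A03 (M 3 (L 49 4)) (P 18 (L 55 10))))) (B02 (M 3 (L 49 4)) (B12 (M 3 (L 49 4)) (P 18 (L 55
  10))))) (A13 (M 3 (L 49 4)) (B02 (M 3 (L 49 4)) (B12 (M 3 (L 49 4)) (P 18 (L 55 10)))))) (S 3 (L
  9 4) (L 49 4)))))))))))))) (M 15 (B12 (P 4 (M 3 (A23 (P 19 (M 10 (B01 (A12 (A13 (B02 (S 0 (L 2 1)
  (L 24 1)) (M 7 (K [(58,10,16),(58,5,8)] []))) (B02 (S 0 (L 2 1) (L 24 1)) (M 7 (K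
  [(58,10,5),(58,5,3)] [])))) (A02 (B02 (S 0 (L 2 1) (L 24 1)) (M 7 (K [(58,10,5),(58,5,3)] [])))
  (out 4))) (A12 (M 7 (K [(58,10,16),(58,5,8)] [])) (A02 (M 7 (K [(58,10,5),(58,5,3)] [])) (out
  4)))))) (B01 (A13 (P 19 (M 10 (A12 (B02 (A01 (B01 (A03 (S 0 (L 2 1) (L 24 1)) (A13 (S 0 (L 2 1)
  (L 24 1)) (B02 (A23 (S 0 (L 2 1) (L 24 1)) (M 7 (L 58 10))) (M 7 (L 58 10))))) (M 7 (L 58 10)))
  (B01 (A13 (S 0 (L 2 1) (L 24 1)) (A03 (S 0 (L 2 1) (L 24 1)) (B02 (A23 (S 0 (L 2 1) (L 24 1)) (M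
  7 (L 58 10))) (M 7 (L 58 10))))) (M 7 (L 58 10)))) (M 7 (K [(58,10,16),(58,5,8)] []))) (B02 (A02
  (B01 (A03 (S 0 (L 2 1) (L 24 1)) (A23 (S 0 (L 2 1) (L 24 1)) (B02 (A13 (S 0 (L 2 1) (L 24 1)) (M
  7 (L 58 10))) (M 7 (L 58 10))))) (M 7 (L 58 10))) (B01 (P 18 (L 54 4)) (A23 (S 0 (L 2 1) (L 24
  1)) (M 7 (L 58 10))))) (M 7 (K [(58,10,5),(58,5,3)] [])))))) (A03 (P 19 (M 10 (B02 (A02 (B01 (A01
  (A03 (S 0 (L 2 1) (L 24 1)) (B02 (A23 (S 0 (L 2 1) (L 24 1)) (M 7 (L 58 10))) (M 7 (L 58 10))))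
  (A12 (M 7 (L 58 10)) (B02 (A23 (S 0 (L 2 1) (L 24 1)) (M 7 (L 58 10))) (M 7 (L 58 10))))) (M 7 (L
  58 10))) (B01 (P 18 (L 54 4)) (A12 (M 7 (L 58 10)) (A23 (B12 (S 0 (L 2 1) (L 24 1)) (A02 (M 7 (L
  58 10)) (P 18 (L 54 4)))) (M 7 (L 58 10)))))) (M 7 (K [(58,10,14),(58,5,10)] []))))) (B02 (P 19
  (M 10 (A23 (B01 (P 18 (L 54 4)) (A12 (M 7 (L 58 10)) (A02 (M 7 (L 58 10)) (B12 (A23 (S 0 (L 2 1)
  (L 24 1)) (M 7 (L 58 10))) (P 18 (L 54 4)))))) (B01 (P 18 (L 54 4)) (M 7 (L 58 10)))))) (M 7 (A23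
  (P 19 (K [(58,10,14),(58,5,10)] [])) (A13 (P 19 (K [(58,10,5),(58,5,3)] [])) (A03 (P 19 (K
  [(58,10,5),(58,5,3)] [])) (B12 (S 9 (L 29 7) (L 12 7)) (S 9 (L 29 7) (L 12 7)))))))))) (M 7 (A13
  (P 19 (K [(58,10,5),(58,5,3)] [])) (A03 (P 19 (K [(58,10,14),(58,5,10)] [])) (B12 (P 19 (K
  [(58,10,572),(58,5,428)] [])) (A23 (P 19 (K [(58,10,14),(58,5,10)] [])) (A13 (P 19 (K
  [(58,10,5),(58,5,3)] [])) (A03 (P 19 (K [(58,5,3),(58,10,5)] [])) (B02 (P 19 (K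
  [(58,5,3),(58,10,5)] [])) (P 16 (B12 (P 19 (K [(58,5,3),(58,10,4)] [])) (S 10 (L 31 8) (L 50
  8)))))))))))))))) (A23 (P 19 (M 10 (P 4 (M 3 (A12 (A13 (B02 (P 13 (B01 (S 0 (L 2 1) (L 24 1))
  (A01 (B12 (M 7 (K [(58,10,5),(58,5,3)] [])) (S 0 (L 2 1) (L 24 1))) (L 40 5)))) (B12 (A01 (B01
  (A02 (S 9 (L 29 7) (L 12 7)) (A12 (M 7 (L 58 10)) (B02 (A23 (out 4) (M 7 (L 58 10))) (M 7 (L 58
  10))))) (M 7 (K [(58,10,5),(58,5,3)] []))) (B01 (A12 (M 7 (L 58 10)) (A02 (M 7 (L 58 10)) (B02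
  (A23 (out 4) (M 7 (L 58 10))) (M 7 (L 58 10))))) (M 7 (L 58 10)))) (A01 (A02 (S 9 (L 29 7) (L 12
  7)) (A12 (M 7 (L 58 10)) (B02 (B01 (P 18 (L 54 4)) (M 7 (L 58 10))) (M 7 (L 58 10))))) (A12 (M 7
  (L 58 10)) (A02 (M 7 (L 58 10)) (B02 (B01 (P 18 (L 54 4)) (M 7 (L 58 10))) (M 7 (L 58 10))))))))
  (B02 (B01 (A03 (A02 (A01 (B02 (S 0 (L 2 1) (L 24 1)) (M 7 (L 58 10))) (B02 (S 0 (L 2 1) (L 24 1))
  (M 7 (L 58 10)))) (A23 (S 0 (L 2 1) (L 24 1)) (B02 (S 0 (L 2 1) (L 24 1)) (B12 (S 0 (L 2 1) (L 24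
  1)) (P 18 (L 54 4)))))) (P 18 (L 54 4))) (A03 (B12 (M 7 (K [(58,10,5),(58,5,3)] [])) (A02 (M 7 (L
  58 10)) (A23 (S 0 (L 2 1) (L 24 1)) (M 7 (L 58 10))))) (B12 (M 7 (L 58 10)) (P 18 (L 54 4)))))
  (B12 (A03 (B01 (A02 (S 9 (L 29 7) (L 12 7)) (A23 (B02 (A12 (M 7 (L 58 10)) (out 4)) (M 7 (L 58
  10))) (M 7 (L 58 10)))) (M 7 (K [(58,10,5),(58,5,3)] []))) (B01 (P 18 (L 54 4)) (M 7 (L 58 10))))
  (A03 (A02 (S 9 (L 29 1) (L 12 7)) (A23 (B02 (B01 (P 18 (L 54 4)) (M 7 (L 58 10))) (M 7 (L 58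
  10))) (S 9 (L 29 7) (L 12 7)))) (P 18 (L 54 4)))))) (A02 (B02 (B01 (A03 (A01 (A02 (B02 (S 0 (L 2
  1) (L 24 1)) (M 7 (L 58 10))) (B02 (S 0 (L 2 1) (L 24 1)) (B12 (S 0 (L 2 1) (L 24 1)) (P 18 (L 54
  4))))) (A13 (out 4) (B02 (S 0 (L 2 1) (L 24 1)) (B12 (S 0 (L 2 1) (L 24 1)) (P 18 (L 54 4))))))
  (P 18 (L 54 4))) (A03 (B12 (M 7 (K [(58,10,5),(58,5,3)] [])) (A01 (A02 (M 7 (L 58 10)) (B02 (M 7
  (L 58 10)) (A23 (out 4) (M 7 (L 58 10))))) (A13 (out 4) (B02 (M 7 (L 58 10)) (A23 (out 4) (M 7 (L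
  58 10))))))) (B12 (M 7 (L 58 10)) (P 18 (L 54 4))))) (B12 (A03 (B01 (A01 (A02 (S 9 (L 29 1) (L 12
  7)) (B02 (A23 (out 4) (M 7 (L 58 10))) (M 7 (L 58 10)))) (A13 (out 4) (B02 (A23 (out 4) (M 7 (L
  58 10))) (M 7 (L 58 10))))) (M 7 (K [(58,10,5),(58,5,3)] []))) (B01 (P 18 (L 54 4)) (M 7 (L 58
  10)))) (A03 (A01 (A02 (P 0 (S 9 (L 29 1) (L 1 1))) (B02 (B01 (P 18 (L 54 4)) (M 7 (L 58 10))) (P
  0 (S 9 (L 29 1) (L 1 1))))) (A13 (out 4) (B02 (B01 (P 18 (L 54 4)) (M 7 (L 58 10))) (P 0 (S 9 (L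
  29 1) (L 1 1)))))) (P 18 (L 54 4))))) (out 4))))))) (A13 (P 19 (M 10 (P 4 (M 3 (A12 (B02 (B01
  (A01 (A03 (A02 (M 7 (L 58 10)) (B02 (S 0 (L 2 1) (L 24 1)) (M 7 (L 58 10)))) (A13 (B02 (S 0 (L 2
  1) (L 24 1)) (M 7 (L 58 10))) (B02 (B01 (P 18 (L 54 4)) (M 7 (L 58 10))) (M 7 (L 58 10))))) (A13
  (A12 (M 7 (L 58 10)) (B02 (S 0 (L 2 1) (L 24 1)) (M 7 (L 58 10)))) (A03 (B02 (S 0 (L 2 1) (L 24
  1)) (M 7 (L 58 10))) (B02 (B01 (P 18 (L 54 4)) (M 7 (L 58 10))) (M 7 (L 58 10)))))) (M 7 (K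
  [(58,10,43),(58,5,21)] []))) (M 7 (K [(58,10,134),(58,5,66)] []))) (B02 (B01 (A02 (A03 (A01 (B02
  (S 0 (L 2 1) (L 24 1)) (M 7 (L 58 10))) (B02 (S 0 (L 2 1) (L 24 1)) (M 7 (L 58 10)))) (A23 (B02
  (B01 (P 18 (L 54 4)) (M 7 (L 58 10))) (M 7 (L 58 10))) (B02 (B01 (P 18 (L 54 4)) (M 7 (L 58 10)))
  (M 7 (L 58 10))))) (P 18 (L 54 4))) (A02 (M 7 (K [(58,10,5),(58,5,3)] [])) (B12 (M 7 (L 58 10))
  (P 18 (L 54 4))))) (B12 (A02 (M 7 (K [(58,10,5),(58,5,3)] [])) (B01 (P 18 (L 54 4)) (M 7 (L 58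
  10)))) (A02 (S 9 (L 29 7) (L 12 7)) (P 18 (L 54 4)))))))))) (A03 (P 19 (M 10 (P 4 (M 3 (B02 (B01
  (A02 (A01 (A03 (B02 (S 0 (L 2 1) (L 24 1)) (M 7 (L 58 10))) (B02 (B01 (P 18 (L 54 4)) (M 7 (L 58
  10))) (M 7 (L 58 10)))) (A12 (M 7 (L 58 10)) (B02 (B01 (P 18 (L 54 4)) (M 7 (L 58 10))) (M 7 (L
  58 10))))) (P 18 (L 54 4))) (A02 (M 7 (K [(58,10,5),(58,5,3)] [])) (B12 (M 7 (K
  [(58,10,14),(58,5,10)] [])) (P 18 (L 54 4))))) (B12 (A02 (M 7 (K [(58,10,5),(58,5,3)] [])) (B01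
  (P 18 (L 54 4)) (M 7 (A12 (K [(58,10,13),(58,5,11)] []) (K [(58,10,105),(58,5,95)] []))))) (A02
  (S 9 (L 29 7) (L 12 7)) (M 13 (L 59 5))))))))) (B02 (B01 (P 19 (P 18 (A23 (M 3 (L 54 4)) (A13 (M
  3 (L 54 4)) (M 13 (L 59 5)))))) (A23 (P 19 (M 3 (B12 (S 13 (L 40 5) (L 59 5)) (P 18 (L 54 4)))))
  (P 16 (M 13 (B12 (S 10 (L 31 8) (L 50 8)) (P 19 (L 59 5))))))) (B12 (A23 (P 19 (M 3 (B01 (P 18 (L
  54 4)) (S 13 (L 40 5) (L 59 5))))) (P 16 (B01 (P 18 (S 3 (L 9 4) (L 54 4))) (S 10 (L 31 8) (L 50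
  8))))) (P 16 (M 13 (A23 (P 19 (L 59 5)) (S 3 (L 9 4) (L 49 4))))))))))))) (M 15 (A13 (P 19 (M 10
  (P 4 (M 3 (B12 (A12 (S 9 (L 29 7) (L 12 7)) (S 0 (L 2 1) (L 24 1))) (A12 (A01 (A02 (B02 (P 13 (L
  40 5)) (B12 (A03 (B01 (A01 (A02 (M 7 (L 58 10)) (B02 (P 13 (L 40 5)) (M 7 (L 58 10)))) (out 8))
  (M 7 (L 58 10))) (out 8)) (A03 (A01 (A02 (M 7 (L 58 10)) (B02 (B01 (P 18 (L 54 4)) (A23 (out 4)
  (M 7 (L 58 10)))) (B12 (A23 (out 4) (M 7 (L 58 10))) (P 18 (L 54 4))))) (out 8)) (out 8)))) (out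
  4)) (out 4)) (A02 (A01 (B02 (S 0 (L 2 1) (L 24 1)) (B12 (A03 (B01 (A02 (A01 (M 7 (L 58 10)) (B02
  (P 13 (L 40 5)) (M 7 (L 58 10)))) (A23 (out 4) (B02 (P 13 (L 40 5)) (M 7 (L 58 10))))) (M 7 (L 58
  10))) (B01 (P 18 (L 54 4)) (M 7 (L 58 10)))) (A03 (A02 (A01 (M 7 (L 58 10)) (B02 (B01 (P 18 (L 54
  4)) (A13 (out 4) (M 7 (L 58 10)))) (B12 (A13 (out 4) (M 7 (L 58 10))) (P 18 (L 54 4))))) (A23
  (out 4) (B02 (B01 (P 18 (L 54 4)) (A13 (out 4) (M 7 (L 58 10)))) (B12 (A13 (out 4) (M 7 (L 58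
  10))) (P 18 (L 54 4)))))) (P 18 (L 54 4))))) (out 4)) (out 4)))))))) (B12 (P 4 (M 3 (A23 (M 10 (S
  0 (L 2 1) (L 24 1))) (B01 (A03 (P 19 (M 10 (A02 (B02 (A01 (B01 (A03 (S 0 (L 2 1) (L 24 1)) (A13
  (S 0 (L 2 1) (L 24 1)) (B02 (A23 (S 0 (L 2 1) (L 24 1)) (M 7 (L 58 10))) (M 7 (L 58 10))))) (M 7
  (L 58 10))) (B01 (A13 (S 0 (L 2 1) (L 24 1)) (A03 (S 0 (L 2 1) (L 24 1)) (P 18 (L 54 4)))) (A13
  (S 0 (L 2 1) (L 24 1)) (M 7 (L 58 10))))) (M 7 (L 58 10))) (B02 (A12 (B01 (P 18 (L 54 4)) (A13 (S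
  0 (L 2 1) (L 24 1)) (A23 (S 0 (L 2 1) (L 24 1)) (M 7 (L 58 10))))) (B01 (P 18 (L 54 4)) (A23 (S 0
  (L 2 1) (L 24 1)) (A13 (S 0 (L 2 1) (L 24 1)) (M 7 (L 58 10)))))) (M 7 (L 58 10)))))) (A13 (P 19
  (M 10 (B02 (A12 (B01 (P 18 (L 54 4)) (A01 (A02 (M 7 (L 58 10)) (out 8)) (out 8))) (B01 (P 18 (L
  54 4)) (A02 (A01 (M 7 (L 58 10)) (B12 (A13 (P 13 (L 40 11)) (M 7 (L 58 10))) (P 18 (L 54 4))))
  (A23 (B12 (S 0 (L 2 1) (L 24 1)) (P 18 (L 54 4))) (B12 (A13 (P 13 (L 40 11)) (M 7 (L 58 10))) (P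
  18 (L 54 4))))))) (M 7 (L 58 10))))) (B02 (P 19 (M 10 (A23 (B01 (P 18 (L 54 4)) (A02 (M 7 (L 58
  10)) (A12 (M 7 (L 58 10)) (B12 (A23 (S 0 (L 2 1) (L 24 1)) (M 7 (L 58 10))) (P 18 (L 54 4))))))
  (B01 (P 18 (L 54 4)) (M 7 (L 58 10)))))) (A23 (S 9 (L 29 7) (L 12 7)) (A03 (S 9 (L 29 7) (L 12
  7)) (A13 (S 9 (L 29 7) (L 12 7)) (B12 (S 9 (L 29 7) (L 12 7)) (S 9 (L 29 7) (L 12 7))))))))) (M 7
  (A03 (P 19 (L 58 10)) (A13 (P 19 (L 58 10)) (B12 (P 19 (A23 (S 13 (L 40 11) (L 13 11)) (K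
  [(58,10,5),(58,5,3)] []))) (A23 (P 19 (K [(58,10,5),(58,5,3)] [])) (A03 (P 19 (K
  [(58,10,5),(58,5,3)] [])) (A13 (P 19 (K [(58,10,5),(58,5,3)] [])) (B02 (P 19 (K
  [(58,10,5),(58,5,3)] [])) (B12 (P 19 (K [(58,5,3),(58,10,4)] [])) (S 9 (L 29 7) (L 12
  7))))))))))))))) (A23 (P 19 (M 10 (M 3 (A02 (A03 (B02 (S 0 (L 2 1) (L 24 1)) (B12 (A01 (B01 (A02
  (M 7 (L 58 10)) (A12 (M 7 (L 58 10)) (B02 (A23 (out 4) (M 7 (L 58 10))) (M 7 (L 58 10))))) (M 7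
  (L 58 10))) (B01 (P 18 (L 54 4)) (M 7 (L 58 10)))) (A01 (A02 (M 7 (L 58 10)) (A12 (M 7 (L 58 10))
  (B02 (B01 (P 18 (L 54 4)) (M 7 (L 58 10))) (M 7 (L 58 10))))) (P 18 (L 54 4))))) (B02 (B01 (P 18
  (L 54 4)) (A13 (B12 (M 7 (L 58 10)) (P 18 (L 54 4))) (B12 (M 7 (L 58 10)) (P 18 (L 54 4))))) (B12
  (A13 (B01 (P 18 (L 54 4)) (M 7 (L 58 10))) (B01 (P 18 (L 54 4)) (M 7 (L 58 10)))) (P 18 (L 54
  4))))) (out 4))))) (A03 (P 19 (M 3 (A02 (B02 (B01 (A01 (A03 (A02 (B02 (P 13 (L 40 5)) (M 7 (L 58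
  10))) (B02 (P 13 (L 40 5)) (M 7 (L 58 10)))) (A13 (B02 (P 13 (L 40 5)) (M 7 (L 58 10))) (B02 (B01
  (P 18 (L 54 4)) (M 7 (L 58 10))) (M 7 (L 58 10))))) (P 18 (L 54 4))) (A01 (M 7 (L 58 10)) (B12 (M
  7 (L 58 10)) (P 18 (L 54 4))))) (B12 (A01 (M 7 (L 58 10)) (B01 (P 18 (L 54 4)) (M 7 (L 58 10))))
  (A01 (M 7 (L 58 10)) (P 18 (L 54 4))))) (B02 (B01 (P 18 (L 54 4)) (A12 (B12 (M 7 (L 58 10)) (P 18
  (L 54 4))) (B12 (M 7 (L 58 10)) (P 18 (L 54 4))))) (B12 (A12 (B01 (P 18 (L 54 4)) (M 7 (L 58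
  10))) (B01 (P 18 (L 54 4)) (M 7 (L 58 10)))) (P 18 (L 54 4))))))) (A13 (P 19 (B02 (M 3 (B01 (P 18
  (L 54 4)) (A12 (B12 (M 7 (L 58 10)) (P 18 (L 54 4))) (B12 (M 7 (L 58 10)) (P 18 (L 54 4))))))
  (B12 (M 3 (A12 (B01 (P 18 (L 54 4)) (M 7 (L 58 10))) (B01 (P 18 (L 54 4)) (M 7 (L 58 10))))) (A12
  (A01 (M 13 (L 59 5)) (out 8)) (M 13 (L 59 5)))))) (B02 (B01 (P 19 (P 18 (A23 (M 3 (L 54 4)) (A03
  (M 3 (L 54 4)) (M 13 (L 59 5)))))) (A23 (P 4 (M 3 (B12 (S 9 (L 29 7) (L 12 7)) (P 18 (L 54 4)))))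
  (M 13 (B12 (P 4 (S 9 (L 29 7) (L 12 7))) (P 19 (L 59 5)))))) (B12 (A23 (P 4 (M 3 (B01 (P 18 (L 54
  4)) (S 9 (L 29 7) (L 12 7))))) (B01 (P 18 (S 3 (L 9 4) (L 54 4))) (P 4 (S 9 (L 29 7) (L 12 7)))))
  (P 16 (M 13 (A23 (P 19 (L 59 5)) (S 3 (L 9 4) (L 49 4)))))))))))))) (A02 (A01 (M 7 (P 0 (B12 (P 4
  (M 3 (A03 (B01 (M 15 (P 12 (A02 (A01 (B02 (A03 (B01 (A02 (A01 (S 13 (L 40 7) (L 13 7)) (B02 (A13
  (P 13 (L 40 7)) (S 13 (L 40 7) (L 13 7))) (A13 (S 13 (L 40 7) (L 13 5)) (S 13 (L 40 7) (L 13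
  7))))) (A23 (S 13 (L 40 7) (L 13 7)) (B02 (A13 (P 13 (L 40 7)) (S 13 (L 40 7) (L 13 7))) (A13 (S
  13 (L 40 7) (L 13 7)) (S 13 (L 40 7) (L 13 7)))))) (A02 (A01 (S 10 (L 31 8) (L 2 8)) (B12 (A13 (P
  13 (S 10 (L 31 8) (K [(2,8,1),(40,7,4),(2,1,3)] []))) (B01 (A23 (P 13 (K [(40,7,6),(40,11,2)]
  [])) (A03 (P 13 (K [(40,7,6),(40,11,2)] [])) (S 13 (L 40 11) (L 13 11)))) (S 10 (L 31 8) (L 2
  8)))) (A13 (S 13 (L 40 7) (L 13 5)) (S 13 (L 40 7) (L 13 7))))) (A23 (B12 (P 19 (P 13 (K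
  [(40,7,4),(58,5,1),(58,10,3)] []))) (S 13 (L 40 7) (L 13 7))) (B12 (A13 (P 19 (P 13 (K
  [(58,5,1),(40,7,4),(58,10,3)] []))) (B01 (A03 (P 13 (K [(40,7,4),(40,11,4)] [])) (A23 (P 13 (K
  [(40,7,3),(40,11,5)] [])) (S 13 (L 40 11) (L 13 11)))) (S 10 (L 31 8) (L 2 8)))) (A13 (S 13 (L 40
  7) (L 13 7)) (S 13 (L 40 7) (L 13 7))))))) (B01 (A23 (A02 (B02 (A01 (S 13 (L 40 7) (L 13 7)) (S
  13 (L 40 7) (L 13 7))) (A01 (S 13 (L 40 7) (L 13 7)) (S 13 (L 40 7) (L 13 7)))) (S 13 (L 40 7) (L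
  13 7))) (A13 (M 18 (P 9 (B02 (A01 (B01 (L 38 10) (A02 (A03 (S 13 (L 40 7) (L 13 7)) (P 19 (K
  [(38,10,4),(58,10,4)] []))) (P 19 (K [(38,10,4),(58,10,4)] [])))) (P 19 (K [(38,10,3),(58,10,5)]
  []))) (A01 (A02 (A03 (S 13 (L 40 7) (L 13 7)) (B12 (P 19 (K [(29,1,3),(58,5,1),(58,10,4)] [])) (S
  13 (L 40 7) (L 13 7)))) (A12 (B12 (P 19 (K [(38,10,3),(58,5,1),(58,10,4)] [])) (S 13 (L 40 7) (L
  13 7))) (L 38 10))) (P 19 (K [(29,1,3),(58,5,1),(58,10,4)] [])))))) (B02 (A03 (M 18 (B01 (L 38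
  10) (A02 (A01 (S 13 (L 40 11) (L 13 7)) (L 38 10)) (L 38 10)))) (S 9 (L 29 1) (L 12 1))) (M 18
  (A03 (A02 (A01 (S 10 (L 31 8) (L 2 8)) (L 38 10)) (L 38 10)) (L 38 10)))))) (M 18 (P 9 (A23 (A02
  (B12 (A01 (B01 (A03 (A02 (S 13 (L 40 11) (L 13 11)) (P 13 (K [(40,7,3),(40,11,5)] []))) (P 19 (M
  16 (P 13 (M 10 (K [(8,4,10),(2,8,1),(40,11,8),(58,10,5)] [])))))) (S 10 (L 31 8) (L 2 8))) (P 19
  (P 13 (K [(58,5,1),(40,7,4),(58,10,3)] [])))) (A01 (S 13 (L 40 7) (L 13 7)) (S 13 (L 40 7) (L 13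
  7)))) (P 19 (S 13 (K [(40,7,4),(58,5,1),(58,10,3)] []) (K [(59,7,2),(13,7,3),(58,5,2)] []))))
  (A13 (B12 (A01 (B01 (A02 (S 13 (L 40 11) (L 13 11)) (M 16 (P 13 (K [(8,4,2),(40,11,6)] [])))) (S
  10 (L 31 8) (L 2 8))) (P 19 (M 16 (P 13 (K [(58,5,1),(40,7,3),(8,2,1),(58,10,3)] []))))) (A01
  (A02 (A03 (S 13 (L 40 7) (L 13 7)) (B02 (P 19 (K [(58,5,2),(38,10,2),(58,10,4)] [])) (S 10 (L 31
  8) (L 2 8)))) (A12 (B02 (P 19 (K [(58,5,2),(38,10,2),(58,10,4)] [])) (S 10 (L 31 8) (L 2 8)))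
  (B02 (P 19 (K [(58,5,2),(38,10,3),(58,10,3)] [])) (S 10 (L 31 8) (L 2 8))))) (P 19 (S 13 (K
  [(58,5,1),(40,7,3),(58,10,4)] []) (K [(13,11,4),(58,5,4)] []))))) (B12 (A03 (B01 (A02 (A01 (S 10
  (L 31 8) (L 2 8)) (B02 (S 13 (L 40 11) (L 13 11)) (S 10 (L 31 8) (L 2 8)))) (A23 (P 19 (K
  [(58,5,8),(29,1,6),(58,10,9)] [])) (B02 (S 13 (L 40 11) (L 13 11)) (S 10 (L 31 8) (L 2 8))))) (S
  10 (L 31 8) (L 2 8))) (B01 (A23 (A02 (B02 (S 13 (L 40 11) (L 13 11)) (S 10 (L 31 8) (L 2 8))) (P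
  19 (K [(58,5,8),(38,10,6),(58,10,9)] []))) (A13 (B02 (S 13 (L 40 11) (L 13 11)) (S 10 (L 31 8) (L
  2 8))) (B02 (P 19 (K [(58,5,3),(29,1,2),(58,10,3)] [])) (S 10 (L 31 8) (L 2 8))))) (S 10 (L 31 8)
  (L 2 8)))) (A03 (A02 (A01 (S 10 (L 31 8) (L 2 8)) (B02 (B01 (P 19 (K
  [(58,5,2),(38,10,2),(58,10,4)] [])) (S 10 (L 31 8) (L 2 8))) (S 10 (L 31 8) (L 2 8)))) (A23 (B02
  (P 19 (K [(58,5,2),(38,10,3),(58,10,3)] [])) (S 10 (L 31 8) (L 2 8))) (B02 (B01 (P 19 (K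
  [(58,5,2),(38,10,2),(58,10,4)] [])) (S 10 (L 31 8) (L 2 8))) (S 10 (L 31 8) (L 2 8))))) (A23 (A02
  (B02 (B01 (P 19 (K [(58,5,2),(38,10,2),(58,10,4)] [])) (S 10 (L 31 8) (L 2 8))) (S 10 (L 31 8) (L
  2 8))) (P 19 (K [(58,5,2),(38,10,3),(58,10,3)] []))) (A13 (B02 (B01 (P 19 (K
  [(58,5,2),(38,10,2),(58,10,4)] [])) (S 10 (L 31 8) (L 2 8))) (S 10 (L 31 8) (L 2 8))) (P 16 (L 49
  4)))))))))))) (S 10 (L 31 8) (L 2 8))) (B02 (A13 (P 19 (P 13 (B01 (K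
  [(40,7,4),(58,10,3),(58,5,1)] []) (A12 (K [(58,10,5),(40,7,3)] []) (A23 (K
  [(40,7,4),(58,5,1),(58,10,3)] []) (B12 (A03 (K [(40,7,9),(58,10,10),(58,5,5)] []) (K
  [(40,7,10),(58,10,7),(58,5,1),(40,11,5)] [])) (K [(40,7,4),(58,10,4),(58,5,1)] []))))))) (B01
  (A23 (P 19 (A12 (B02 (A01 (M 18 (K [(38,10,4),(58,10,4)] [])) (S 9 (L 29 1) (L 12 1))) (M 18 (K
  [(38,10,3),(58,10,4),(58,5,1)] []))) (S 13 (L 40 7) (L 13 7)))) (A03 (P 19 (B02 (A01 (M 18 (K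
  [(38,10,4),(58,10,4)] [])) (S 9 (L 29 1) (L 12 1))) (M 18 (K [(38,10,3),(58,10,4),(58,5,1)]
  [])))) (B02 (S 9 (L 29 1) (L 12 1)) (M 18 (L 38 10))))) (M 18 (A23 (P 19 (A12 (B12 (P 13 (A01 (K
  [(40,7,9),(58,5,4),(58,10,9),(40,11,2)] []) (K [(40,7,77),(58,5,21),(58,10,57),(40,11,45)] [])))
  (S 13 (K [(40,7,4),(58,5,1),(58,10,4)] []) (K [(59,7,2),(13,5,1),(38,10,5)] []))) (S 13 (K
  [(40,7,4),(58,5,1),(58,10,3)] []) (K [(59,7,2),(13,7,3),(58,5,2)] [])))) (A03 (P 19 (M 10 (S 13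
  (K [(40,7,3),(58,5,1),(58,10,3),(40,11,1)] []) (K [(13,11,2),(2,8,2),(38,10,4)] [])))) (B12 (P 19
  (S 13 (K [(40,11,3),(40,7,3),(58,10,2)] []) (K [(13,11,2),(58,5,2),(38,10,2),(38,4,2)] []))) (A13
  (P 19 (K [(38,10,2),(58,5,2),(58,10,3)] [])) (A23 (P 19 (K [(58,5,2),(38,10,3),(58,10,3)] []))
  (A03 (P 19 (K [(58,5,2),(38,10,2),(58,10,4)] [])) (B02 (P 19 (K [(58,5,2),(38,10,2),(58,10,4)]
  [])) (P 16 (L 49 4)))))))))))) (M 18 (A13 (A12 (A01 (B12 (P 19 (P 13 (K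
  [(58,5,14),(40,7,19),(58,10,31)] []))) (B02 (P 19 (K [(58,5,10),(38,10,5),(58,10,9)] [])) (S 10
  (L 31 8) (L 2 8)))) (P 19 (S 13 (K [(58,5,6),(40,7,7),(58,10,12)] []) (L 13 5)))) (A23 (P 13 (S
  10 (L 31 8) (K [(2,8,5),(40,7,3)] []))) (B12 (P 19 (P 13 (M 10 (B01 (K
  [(58,5,2),(40,7,3),(58,10,4)] []) (A03 (K [(58,5,8),(40,7,7),(58,10,9)] []) (A13 (K
  [(40,7,23),(58,5,15),(58,10,27)] []) (K [(2,8,28),(40,7,73),(58,10,57),(40,11,42)] []))))))) (B02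
  (P 19 (K [(58,5,4),(38,10,2),(38,4,2)] [])) (S 10 (L 31 8) (L 2 8)))))) (A23 (A12 (B12 (P 19 (S
  13 (K [(58,5,13),(40,7,20),(40,11,13),(58,10,17)] []) (K [(59,7,1),(58,5,2),(13,5,3),(38,10,3)]
  []))) (B02 (A01 (S 10 (L 31 8) (L 2 8)) (B01 (S 13 (L 40 7) (L 13 7)) (S 10 (L 31 8) (L 2 8))))
  (S 10 (L 31 8) (L 2 8)))) (S 10 (L 31 8) (L 2 8))) (A03 (B12 (B01 (A01 (S 10 (L 31 8) (L 2 8))
  (B02 (P 19 (K [(58,5,4),(58,10,4)] [])) (A12 (A13 (P 19 (P 13 (K [(58,5,2),(40,7,2),(58,10,4)]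
  []))) (S 10 (L 31 8) (L 2 8))) (S 10 (L 31 8) (L 2 8))))) (P 13 (S 10 (L 31 8) (K
  [(2,8,2),(40,7,2),(40,11,2),(2,1,3)] [])))) (B02 (A01 (S 10 (L 31 8) (L 2 8)) (B01 (S 13 (L 40 7)
  (L 13 7)) (S 10 (L 31 8) (L 2 8)))) (S 10 (L 31 8) (L 2 8)))) (B12 (B01 (A13 (B02 (P 19 (K
  [(58,5,4),(58,10,4)] [])) (A12 (A01 (S 10 (L 31 8) (L 2 8)) (P 19 (K [(58,5,4),(58,10,4)] [])))
  (S 10 (L 31 8) (L 2 8)))) (S 10 (L 31 8) (L 2 8))) (A13 (A12 (A01 (S 10 (L 31 8) (L 2 8)) (P 19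
  (K [(58,5,4),(58,10,4)] []))) (S 10 (L 31 8) (L 2 8))) (S 10 (L 31 8) (L 2 8)))) (B02 (A13 (B01
  (S 13 (L 40 7) (L 13 7)) (S 10 (L 31 8) (L 2 8))) (S 10 (L 31 8) (L 2 8))) (S 10 (L 31 8) (L 2
  8)))))))))) (A23 (P 13 (B02 (P 19 (K [(40,7,5),(58,10,3)] [])) (S 10 (L 31 8) (K
  [(40,7,31),(2,8,10),(2,1,23)] [])))) (B02 (A13 (P 19 (P 13 (B01 (S 9 (L 29 1) (L 12 1)) (A01 (A03
  (L 40 7) (K [(40,7,11),(58,10,7),(40,11,5)] [])) (K [(40,7,11),(58,10,8),(40,11,5)] []))))) (B01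
  (A03 (S 9 (L 29 1) (L 12 1)) (A23 (S 9 (L 29 1) (L 12 1)) (B02 (S 9 (L 29 1) (L 12 1)) (M 18 (L
  38 10))))) (M 18 (P 9 (A03 (P 19 (A01 (L 38 10) (S 13 (K [(40,7,4),(40,11,3),(58,10,2)] []) (K
  [(59,7,2),(29,1,5),(13,5,1)] [])))) (A23 (P 19 (S 13 (K [(40,7,10),(40,11,9),(58,10,5)] []) (K
  [(59,7,2),(38,10,5),(13,5,1)] []))) (B12 (P 19 (S 13 (K [(40,11,3),(40,7,3),(58,10,2)] []) (K
  [(13,11,2),(29,1,2),(58,5,2),(38,4,2)] []))) (A13 (P 19 (K [(38,10,2),(58,5,2),(58,10,3)] []))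
  (A03 (P 19 (K [(38,10,2),(58,5,2),(58,10,3)] [])) (A23 (P 19 (K [(38,10,2),(58,5,2),(58,10,3)]
  [])) (B02 (P 19 (K [(38,10,2),(58,5,2),(58,10,4)] [])) (P 16 (L 49 4))))))))))))) (M 18 (A13 (A01
  (A03 (P 13 (L 40 7)) (P 19 (B12 (P 13 (B01 (K [(40,7,3),(58,5,1),(58,10,3)] []) (A23 (L 40 7)
  (A13 (L 40 7) (K [(40,7,23),(58,5,9),(40,11,14),(58,10,18)] []))))) (K
  [(58,5,4),(38,10,2),(38,4,2)] [])))) (P 19 (A12 (S 13 (K [(40,7,17),(58,5,16),(58,10,31)] []) (L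
  13 5)) (B12 (P 13 (B01 (K [(40,7,3),(58,5,1),(58,10,3)] []) (A23 (L 40 7) (K
  [(40,7,346),(58,5,174),(58,10,397),(40,11,82)] [])))) (K [(58,5,4),(38,10,2),(38,4,1)] [])))))
  (A03 (A01 (S 10 (L 31 8) (L 2 8)) (B12 (P 19 (S 13 (K [(40,7,3),(58,5,1),(40,11,3),(58,10,1)] [])
  (K [(59,7,1),(58,5,2),(38,10,3),(13,5,3)] []))) (B02 (A12 (B01 (S 13 (L 40 7) (L 13 7)) (S 10 (L
  31 8) (L 2 8))) (L 38 10)) (S 10 (L 31 8) (L 2 8))))) (A23 (B12 (P 19 (M 10 (S 13 (K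
  [(40,7,9),(58,5,2),(40,11,8),(58,10,5)] []) (K [(59,7,1),(2,8,2),(38,10,3),(13,5,2)] [])))) (B02
  (A12 (B01 (S 13 (L 40 7) (L 13 7)) (S 10 (L 31 8) (L 2 8))) (L 38 10)) (S 10 (L 31 8) (L 2 8))))
  (B12 (B01 (A13 (P 19 (K [(58,5,9),(38,10,4),(58,10,11)] [])) (S 10 (L 31 8) (L 2 8))) (A13 (P 19
  (M 10 (S 13 (K [(2,8,1),(40,7,2),(40,11,2),(58,10,2)] []) (K [(13,11,3),(58,5,5)] [])))) (S 10 (L
  31 8) (L 2 8)))) (B02 (A13 (B01 (S 13 (L 40 7) (L 13 7)) (S 10 (L 31 8) (L 2 8))) (S 10 (L 31 8)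
  (L 2 8))) (S 10 (L 31 8) (L 2 8))))))))))))) (A02 (A01 (B12 (A03 (S 10 (L 31 8) (L 2 8)) (B01 (S
  10 (L 31 8) (L 2 8)) (A23 (S 10 (L 31 8) (L 2 8)) (A13 (S 10 (L 31 8) (L 2 8)) (S 10 (L 31 8) (L
  2 8)))))) (A03 (A02 (A01 (B02 (B01 (A03 (A02 (A01 (P 10 (L 31 8)) (S 10 (L 31 8) (L 2 8))) (S 10
  (L 31 8) (L 2 8))) (S 10 (L 31 8) (L 2 8))) (P 10 (L 31 8))) (P 10 (L 31 8))) (S 10 (L 31 8) (L 2
  8))) (S 10 (L 31 8) (L 2 8))) (S 10 (L 31 8) (L 2 8)))) (B12 (A13 (P 19 (P 13 (B01 (A12 (A01 (B02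
  (A03 (K [(58,5,8),(40,7,6),(58,10,10)] []) (B01 (A23 (K [(58,5,2),(40,7,2),(58,10,3)] []) (A13 (K
  [(58,5,20),(58,10,29),(40,7,16)] []) (K [(58,5,235),(40,11,108),(58,10,382),(40,7,275)] []))) (K
  [(58,5,6),(58,10,2)] []))) (L 58 5)) (B02 (A13 (B01 (A12 (K [(58,10,4),(40,7,1),(58,5,2)] [])
  (A23 (K [(40,7,3),(58,5,2),(58,10,3)] []) (K [(58,10,4),(58,5,2),(40,7,2)] []))) (A12 (K
  [(58,10,4),(58,5,3),(40,7,1)] []) (A23 (K [(58,5,3),(40,7,2),(58,10,3)] []) (K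
  [(58,5,11),(58,10,10),(40,7,3)] [])))) (B01 (A23 (A12 (K [(58,10,455),(58,5,308),(40,7,237)] [])
  (K [(58,5,2),(40,7,2),(58,10,3)] [])) (A03 (B02 (A01 (K [(58,10,90),(58,5,61),(40,7,49)] []) (B01
  (K [(58,10,30),(40,7,23),(58,5,11)] []) (K [(58,10,454),(58,5,308),(40,7,238)] []))) (K
  [(58,5,4),(58,10,3)] [])) (B02 (A13 (B01 (K [(58,10,98),(58,5,37),(40,7,65)] []) (A12 (L 58 10)
  (A23 (K [(58,10,26),(40,11,4),(58,5,17),(40,7,17)] []) (L 58 10)))) (B01 (K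
  [(58,10,397),(40,11,110),(58,5,180),(40,7,313)] []) (A23 (A12 (L 40 11) (K
  [(58,5,42),(40,11,28),(58,10,70),(40,7,60)] [])) (L 40 11)))) (K [(58,5,4),(58,10,3)] [])))) (A23
  (A12 (K [(58,5,5),(58,10,3)] []) (K [(58,5,7),(58,10,1)] [])) (K [(58,5,3),(40,11,3),(58,10,2)]
  [])))) (K [(58,5,5),(58,10,3)] []))) (A23 (K [(58,5,5),(40,7,3)] []) (B02 (A03 (K
  [(58,5,8),(40,7,7),(58,10,9)] []) (B01 (A13 (K [(58,5,17),(40,7,22),(58,10,25)] []) (A23 (K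
  [(58,5,41),(40,7,72),(40,11,19),(58,10,68)] []) (K [(58,5,5),(40,11,4),(58,10,8),(40,7,8)] [])))
  (L 58 5))) (L 58 5)))) (K [(58,5,4),(40,11,4)] [])))) (B01 (A23 (P 13 (A12 (S 10 (L 31 8) (K
  [(2,8,3),(40,7,1),(40,11,4)] [])) (S 10 (L 31 8) (L 2 8)))) (A03 (P 13 (S 10 (L 31 8) (K
  [(2,8,3),(40,11,3),(2,1,2)] []))) (S 13 (L 40 11) (L 13 11)))) (A23 (S 10 (L 31 8) (L 2 8)) (A03
  (S 10 (L 31 8) (L 2 8)) (S 10 (L 31 8) (L 2 8)))))) (A13 (A12 (A01 (B02 (P 19 (P 13 (B01 (A03 (K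
  [(58,5,6),(40,7,7),(58,10,11)] []) (K [(58,5,287),(40,7,249),(58,10,464)] [])) (L 58 5)))) (S 10
  (L 31 8) (L 2 8))) (P 19 (B02 (P 13 (B01 (A13 (K [(58,10,11),(58,5,6),(40,7,7)] []) (A23 (K
  [(58,5,6),(40,7,7),(58,10,11)] []) (K [(58,5,2),(58,10,4),(40,7,2)] []))) (K [(58,5,5),(58,10,3)]
  []))) (K [(58,5,4),(58,10,4)] [])))) (A23 (P 13 (S 10 (L 31 8) (K [(2,8,5),(40,7,3)] []))) (B02
  (P 19 (P 13 (B01 (A03 (K [(58,5,8),(40,7,7),(58,10,9)] []) (A13 (K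
  [(58,5,15),(40,7,23),(58,10,27)] []) (K [(58,5,10),(40,7,23),(40,11,13),(58,10,19)] []))) (L 58
  5)))) (S 10 (L 31 8) (L 2 8))))) (A23 (A12 (B02 (P 13 (S 10 (L 31 8) (K
  [(2,8,3),(40,7,1),(40,11,4)] []))) (S 10 (L 31 8) (L 2 8))) (S 10 (L 31 8) (L 2 8))) (A03 (B02 (P
  13 (S 10 (L 31 8) (K [(2,8,3),(40,11,3),(2,1,2)] []))) (S 10 (L 31 8) (L 2 8))) (B02 (B01 (A13
  (A12 (A01 (S 10 (L 31 8) (L 2 8)) (P 19 (K [(58,5,4),(58,10,4)] []))) (S 10 (L 31 8) (L 2 8))) (S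
  10 (L 31 8) (L 2 8))) (S 10 (L 31 8) (L 2 8))) (S 10 (L 31 8) (L 2 8)))))))) (A23 (P 13 (B12 (P
  19 (M 10 (A12 (B01 (A01 (L 40 7) (A13 (B02 (A12 (B01 (K [(40,7,3),(58,10,3),(58,5,1)] []) (A01 (L
  40 7) (A13 (K [(2,1,4),(40,7,1),(58,5,3)] []) (K [(40,7,2),(58,5,3),(58,10,3)] [])))) (L 40 7))
  (K [(58,5,16),(58,10,8)] [])) (L 40 7))) (K [(58,5,5),(40,11,3)] [])) (L 40 7)))) (A12 (A01 (L 40
  7) (P 19 (A13 (K [(58,5,2),(40,7,3),(58,10,3)] []) (L 40 7)))) (L 40 7)))) (B12 (A13 (P 19 (M 16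
  (P 13 (M 10 (B01 (A01 (A03 (L 40 7) (B02 (A23 (L 40 7) (B01 (A13 (L 40 7) (K
  [(2,8,9),(40,7,24),(40,11,16),(58,10,16)] [])) (L 58 5))) (L 58 5))) (A12 (B02 (A13 (B01 (A01
  (A03 (L 40 7) (B02 (A23 (K [(40,7,4),(58,10,4)] []) (K [(58,10,12),(40,7,4),(58,5,8)] [])) (A23
  (K [(40,7,3),(58,5,2),(58,10,4)] []) (K [(58,5,4),(58,10,4)] [])))) (A12 (K
  [(58,10,4),(40,7,1),(58,5,2)] []) (B02 (A23 (K [(40,7,4),(58,10,4)] []) (L 58 10)) (A23 (K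
  [(40,7,3),(58,5,2),(58,10,4)] []) (K [(58,10,5),(58,5,3)] []))))) (A01 (A03 (K
  [(58,5,1),(40,7,7)] []) (B12 (A23 (B01 (A12 (K [(58,5,23),(8,4,12),(58,10,29)] []) (A02 (B02 (K
  [(58,5,207),(8,4,304),(40,11,176),(58,10,313)] []) (L 58 5)) (B02 (A23 (L 58 5) (B01 (A13 (L 40
  7) (A03 (L 40 7) (K [(58,5,14),(40,7,19),(40,11,12),(58,10,20)] []))) (L 58 5))) (L 58 5)))) (L
  58 5)) (K [(58,5,4),(58,10,4)] [])) (A23 (A12 (K [(58,5,3),(8,4,2),(58,10,4)] []) (A02 (K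
  [(58,5,58),(8,4,54),(58,10,89)] []) (B02 (B01 (A23 (L 40 7) (K [(58,5,59),(40,7,54),(58,10,87)]
  [])) (L 58 5)) (L 58 5)))) (K [(58,5,4),(58,10,4)] [])))) (A12 (K [(58,10,4),(58,5,3),(40,7,1)]
  []) (B12 (A23 (B01 (A02 (K [(58,5,23),(40,7,12),(58,10,29)] []) (A12 (K
  [(58,5,8),(40,7,5),(40,11,1),(58,10,10)] []) (B02 (A23 (L 40 7) (K
  [(58,5,14),(40,7,19),(40,11,12),(58,10,20)] [])) (L 58 5)))) (K [(58,5,4),(40,11,2),(58,10,2)]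
  [])) (K [(58,5,3),(58,10,5)] [])) (A23 (A02 (K [(58,5,3),(40,7,2),(58,10,4)] []) (A12 (K
  [(58,5,3),(40,7,2),(58,10,4)] []) (B02 (B01 (A23 (L 40 7) (K [(58,5,59),(40,7,54),(58,10,87)]
  [])) (L 58 5)) (L 58 5)))) (K [(58,5,3),(58,10,5)] [])))))) (B01 (A03 (A01 (L 40 7) (B02 (A12
  (B01 (K [(58,10,11),(40,7,9),(58,5,4)] []) (A13 (K [(58,10,4),(58,5,3),(40,7,1)] []) (A23 (B12
  (A02 (K [(58,10,88),(40,7,48),(58,5,65)] []) (B01 (K [(58,10,11),(40,7,8),(58,5,5)] []) (A12 (A01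
  (K [(58,10,87),(58,5,65),(40,7,49)] []) (B12 (A13 (L 58 10) (K [(58,10,87),(58,5,65),(40,7,49)]
  [])) (K [(58,10,11),(58,5,6),(40,7,7)] []))) (A23 (K [(58,10,5),(58,5,3)] []) (B12 (A03 (K
  [(58,10,5),(58,5,3)] []) (B01 (K [(58,10,450),(58,5,327),(40,7,223)] []) (K [(58,5,4),(58,10,4)]
  []))) (K [(58,10,10),(58,5,6),(40,7,7)] [])))))) (K [(58,10,4),(8,4,2),(58,5,2)] [])) (B12 (A03
  (K [(58,10,88),(58,5,65),(40,7,48)] []) (B01 (K [(58,5,20),(58,10,28),(40,7,16)] []) (K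
  [(58,5,21),(40,7,16),(58,10,28)] []))) (K [(58,5,2),(40,7,3),(58,10,4)] []))))) (B01 (K
  [(40,7,6),(58,10,2)] []) (A23 (A02 (B12 (A01 (K [(40,7,7),(58,5,8),(58,10,9)] []) (B01 (K
  [(40,7,5),(58,10,3)] []) (A13 (K [(40,7,308),(58,5,202),(58,10,312),(40,11,178)] []) (K
  [(40,7,3),(58,5,2),(58,10,3)] [])))) (K [(40,7,5),(58,10,3)] [])) (B12 (A12 (B01 (K
  [(40,7,5),(58,10,3)] []) (A13 (K [(40,7,62),(58,5,39),(58,10,62),(40,11,36)] []) (L 40 7))) (L 40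
  7)) (K [(40,7,5),(58,10,3)] []))) (A13 (B12 (A01 (K [(40,7,4),(58,5,2),(58,10,2)] []) (B01 (K
  [(40,7,6),(58,10,2)] []) (A12 (A13 (B12 (A01 (B01 (K [(58,10,4),(40,7,3),(58,5,2)] []) (A02 (K
  [(58,10,4),(40,7,2),(58,5,3)] []) (A12 (K [(40,7,2),(58,10,4),(58,5,3)] []) (B12 (A23 (L 40 7) (K
  [(40,7,61),(58,5,40),(58,10,63),(40,11,37)] [])) (K [(40,7,19),(58,5,17),(58,10,28)] []))))) (B01
  (K [(58,10,4),(40,7,3),(58,5,2)] []) (A12 (K [(58,10,8),(40,11,4),(40,7,7),(58,5,5)] []) (A02 (K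
  [(58,10,8),(40,7,7),(58,5,5),(40,11,4)] []) (B12 (A23 (L 40 7) (K
  [(8,4,61),(58,5,40),(58,10,63),(40,11,37)] [])) (K [(40,7,19),(58,5,17),(58,10,28)] [])))))) (K
  [(40,7,7),(58,10,11),(58,5,6)] [])) (B12 (A03 (B01 (K [(40,7,3),(58,10,4),(58,5,2)] []) (A02 (K
  [(58,5,3),(40,7,2),(58,10,4)] []) (A23 (B12 (A12 (K
  [(58,5,196),(40,7,306),(40,11,186),(58,10,313)] []) (L 40 7)) (K [(40,7,19),(58,5,17),(58,10,28)]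
  [])) (K [(58,5,67),(40,7,45),(58,10,87)] [])))) (B01 (A23 (K [(40,7,3),(58,5,1),(58,10,3)] [])
  (A13 (B02 (A01 (B01 (K [(40,7,3),(58,10,4),(58,5,1)] []) (A02 (K [(58,10,4),(40,7,2),(58,5,3)]
  []) (A12 (K [(40,7,15),(58,10,28),(58,5,21)] []) (B12 (A23 (L 40 7) (B01 (K
  [(40,7,8),(58,10,11),(58,5,4)] []) (A03 (L 40 7) (A13 (L 40 7) (B12 (A23 (L 40 7) (B01 (A03 (K
  [(40,7,12),(58,10,9),(58,5,2)] []) (A13 (B02 (K [(58,10,3),(40,7,4),(40,11,1)] []) (A12 (K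
  [(58,10,4),(40,7,3),(58,5,2)] []) (A02 (K [(58,10,4),(58,5,2),(40,7,2)] []) (A23 (K
  [(40,7,311),(58,5,190),(58,10,311),(40,11,189)] []) (K [(58,5,2),(40,7,2),(58,10,4)] []))))) (B02
  (A23 (B01 (K [(58,10,4),(40,7,4)] []) (A02 (L 58 10) (A12 (L 58 10) (B12 (A23 (K
  [(58,10,311),(40,7,310),(40,11,189),(58,5,190)] []) (L 58 10)) (K
  [(58,10,442),(40,7,298),(58,5,260)] []))))) (L 58 10)) (A23 (A02 (K [(58,10,5),(58,5,3)] []) (A12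
  (K [(58,10,5),(58,5,3)] []) (B12 (B01 (K [(58,5,24),(40,7,14),(58,10,26)] []) (K
  [(58,5,190),(40,11,189),(58,10,311),(40,7,310)] [])) (K [(58,5,3),(40,7,2),(58,10,3)] [])))) (K
  [(58,10,5),(58,5,3)] []))))) (A03 (K [(58,5,190),(40,7,311),(58,10,311),(40,11,189)] []) (A13
  (B12 (K [(58,5,38),(40,11,38),(58,10,62),(40,7,62)] []) (A12 (K [(58,5,6),(40,7,7),(58,10,11)]
  []) (K [(58,5,190),(40,7,310),(58,10,311),(40,11,189)] []))) (K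
  [(58,5,191),(40,11,191),(58,10,310),(40,7,309)] []))))) (K [(40,7,19),(58,5,17),(58,10,28)]
  [])))))) (K [(40,7,7),(58,5,6),(58,10,11)] []))))) (B01 (K [(58,10,4),(40,7,3),(58,5,1)] []) (A12
  (K [(58,10,15),(40,7,7),(40,11,2)] []) (A02 (B12 (K
  [(58,10,317),(40,7,309),(40,11,185),(58,5,188)] []) (K [(40,7,2),(58,10,4),(58,5,2)] [])) (B12
  (A23 (L 40 7) (B01 (K [(40,7,8),(58,10,11),(58,5,4)] []) (A13 (K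
  [(40,7,311),(58,5,190),(58,10,310),(40,11,189)] []) (A03 (K
  [(40,7,311),(58,5,190),(58,10,310),(40,11,189)] []) (B12 (A23 (K
  [(40,7,63),(58,5,38),(40,11,38),(58,10,62)] []) (B01 (A13 (A12 (K [(58,10,4),(40,7,3),(58,5,2)]
  []) (B02 (K [(58,10,7),(40,7,11),(40,11,6)] []) (A02 (K [(40,7,3),(58,10,4),(58,5,2)] []) (K
  [(40,7,310),(58,5,190),(58,10,311),(40,11,189)] [])))) (A03 (B02 (K
  [(58,10,7),(40,7,11),(40,11,6)] []) (K [(58,10,311),(40,7,310),(58,5,190),(40,11,188)] [])) (B02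
  (A23 (B01 (K [(58,10,4),(40,7,4)] []) (A12 (L 58 10) (A02 (L 58 10) (B12 (A23 (K
  [(58,10,311),(40,7,310),(40,11,189),(58,5,190)] []) (L 58 10)) (K
  [(58,10,442),(40,7,298),(58,5,260)] []))))) (L 58 10)) (A23 (A12 (K [(58,10,5),(58,5,3)] []) (A02
  (K [(58,10,5),(58,5,3)] []) (K [(58,5,191),(40,7,309),(58,10,311),(40,11,188)] []))) (K
  [(58,10,5),(58,5,3)] []))))) (A13 (A12 (K [(58,10,312),(40,11,188),(58,5,191),(40,7,309)] [])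
  (B12 (A02 (K [(58,5,191),(40,11,188),(58,10,312),(40,7,310)] []) (B01 (A23 (K
  [(58,5,1),(40,7,29),(40,11,35)] []) (K [(40,11,189),(2,1,311),(58,5,190),(40,7,310)] [])) (K
  [(58,5,4),(40,11,4)] []))) (A02 (K [(58,5,192),(40,7,309),(58,10,314),(40,11,185)] []) (K
  [(58,5,190),(40,7,310),(40,11,189),(58,10,311)] [])))) (A03 (B12 (A02 (K
  [(58,10,312),(40,11,188),(58,5,191),(40,7,310)] []) (K
  [(58,5,190),(40,11,191),(58,10,310),(40,7,310)] [])) (A02 (K [(58,5,6),(58,10,11),(40,7,7)] [])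
  (K [(58,5,190),(40,11,189),(58,10,311),(40,7,310)] []))) (K [(40,11,5),(58,10,1),(58,5,3)]
  []))))) (K [(40,7,19),(58,5,17),(58,10,28)] [])))))) (K [(40,7,7),(58,5,6),(58,10,11)] []))))))
  (A01 (K [(58,5,24),(40,7,14),(58,10,26)] []) (A12 (A13 (K [(58,10,4),(58,5,2),(40,7,3)] []) (B12
  (B01 (K [(58,5,3),(58,10,3),(40,7,2)] []) (A03 (K [(58,10,4),(58,5,2),(40,7,3)] []) (A23 (K
  [(58,5,39),(58,10,63),(40,7,61),(40,11,37)] []) (K [(58,5,3),(58,10,5)] [])))) (K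
  [(58,5,3),(40,7,2),(58,10,3)] []))) (A02 (B12 (B01 (K [(40,7,2),(58,5,3),(58,10,3)] []) (A03 (K
  [(40,7,9),(58,5,4),(58,10,11)] []) (A13 (K [(58,5,39),(40,7,62),(58,10,63),(40,11,37)] []) (K
  [(58,5,193),(40,7,308),(58,10,313),(40,11,186)] [])))) (K [(58,5,3),(40,7,2),(58,10,3)] [])) (B12
  (B01 (K [(40,7,2),(58,5,6)] []) (A23 (L 40 7) (A13 (K [(58,5,39),(40,7,62),(40,11,38),(58,10,62)]
  []) (K [(58,5,194),(8,4,308),(40,11,188),(58,10,310)] [])))) (L 58 5)))))) (B02 (A03 (B01 (K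
  [(40,7,3),(58,10,4),(58,5,1)] []) (A02 (K [(40,7,2),(58,10,4),(58,5,3)] []) (A23 (B12 (A12 (B01
  (K [(40,7,8),(58,5,4),(58,10,11)] []) (A01 (L 40 7) (A13 (B12 (A12 (B01 (A01 (K
  [(40,7,12),(58,5,2),(58,10,9)] []) (A13 (B02 (A12 (L 58 10) (B01 (K [(58,10,4),(40,7,4)] []) (A02
  (L 58 10) (A23 (B12 (A12 (K [(2,1,312),(40,11,188),(40,7,310),(58,5,190)] []) (K
  [(40,7,312),(58,10,310),(40,11,190),(58,5,189)] [])) (K [(58,10,442),(40,7,298),(58,5,260)] []))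
  (K [(58,10,312),(40,11,188),(40,7,310),(58,5,190)] []))))) (A12 (K [(58,10,5),(58,5,3)] []) (A02
  (K [(58,5,3),(58,10,5)] []) (A23 (B12 (B01 (K [(58,5,4),(40,7,1),(58,10,3)] []) (K
  [(58,5,190),(40,11,189),(40,7,310),(58,10,311)] [])) (K [(58,5,3),(40,7,2),(58,10,3)] [])) (K
  [(58,5,29),(58,10,34),(40,11,2)] []))))) (B02 (A23 (K
  [(40,7,311),(58,10,312),(58,5,190),(40,11,188)] []) (K [(40,7,51),(58,10,84),(58,5,65)] [])) (A23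
  (A02 (K [(58,5,191),(40,7,310),(58,10,311),(40,11,188)] []) (K
  [(58,5,191),(40,7,310),(40,11,188),(58,10,311)] [])) (K [(58,5,9),(40,7,5),(58,10,10)] [])))))
  (A01 (K [(58,5,190),(40,7,311),(40,11,189),(58,10,311)] []) (A13 (B12 (K
  [(2,8,189),(40,11,191),(58,10,310),(40,7,310)] []) (A12 (K [(58,5,3),(40,11,1),(58,10,4)] []) (K
  [(58,5,38),(40,11,38),(40,7,62),(58,10,62)] []))) (K [(58,5,38),(40,7,62),(40,11,38),(58,10,62)]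
  [])))) (L 40 7)) (K [(40,7,19),(58,5,17),(58,10,28)] [])) (L 40 7)))) (L 40 7)) (K
  [(40,7,7),(58,5,6),(58,10,11)] [])) (K [(40,7,15),(58,5,21),(58,10,28)] [])))) (B01 (K
  [(40,7,6),(58,10,2)] []) (A23 (A02 (B12 (A01 (K [(40,7,7),(58,5,8),(58,10,10)] []) (B01 (K
  [(40,7,3),(58,5,1),(58,10,3)] []) (A13 (A12 (B12 (A01 (K [(58,5,21),(40,7,17),(58,10,26)] [])
  (B01 (A13 (A12 (K [(58,10,5),(58,5,3)] []) (loc 1)) (loc 1)) (K [(58,5,4),(40,11,4)] []))) (K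
  [(58,5,16),(40,7,20),(58,10,27)] [])) (K [(58,5,3),(40,7,2),(58,10,3)] [])) (K
  [(58,5,3),(40,7,2),(58,10,3)] [])))) (K [(40,7,8),(58,5,6),(58,10,10)] [])) (B12 (A12 (B01 (K
  [(40,7,3),(58,5,1),(58,10,3)] []) (A13 (A01 (L 40 7) (B12 (A12 (B01 (A13 (A01 (B02 (A02 (loc 1)
  (B01 (A23 (K [(40,7,4),(58,10,3),(58,5,1)] []) (loc 1)) (A23 (A12 (loc 1) (K [(40,7,5),(40,11,3)]
  [])) (loc 1)))) (K [(58,5,6),(40,11,1),(58,10,1)] [])) (B02 (A12 (K [(58,10,5),(58,5,3)] []) (B01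
  (A23 (K [(58,10,3),(40,7,3),(58,5,1)] []) (A13 (K [(58,10,93),(40,7,70),(58,5,37)] []) (loc 1)))
  (A23 (A02 (B12 (A01 (loc 1) (B01 (A13 (K [(58,10,4),(58,5,2),(40,7,2)] []) (loc 1)) (K
  [(40,11,189),(2,1,311),(58,5,190),(40,7,310)] []))) (A01 (loc 1) (A13 (K
  [(58,10,4),(58,5,2),(40,7,2)] []) (loc 1)))) (B12 (A12 (B01 (A13 (K
  [(58,10,33),(40,7,16),(58,5,15)] []) (K [(58,10,311),(40,11,189),(40,7,311),(58,5,189)] [])) (K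
  [(40,11,189),(58,10,311),(58,5,190),(40,7,310)] [])) (K
  [(40,7,312),(40,11,190),(58,5,189),(58,10,310)] [])) (A12 (A13 (K [(58,10,4),(40,7,2),(58,5,2)]
  []) (K [(58,10,311),(40,7,311),(58,5,189),(40,11,189)] [])) (K
  [(40,7,312),(58,5,189),(58,10,310),(40,11,189)] [])))) (A13 (B12 (L 40 11) (A01 (loc 1) (A12 (L
  58 10) (loc 1)))) (loc 1))))) (K [(58,5,42),(40,11,8),(58,10,14)] []))) (A23 (B02 (A02 (loc 1)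
  (B01 (A12 (loc 1) (L 40 7)) (K [(40,7,3),(58,5,1),(40,11,4)] []))) (L 58 5)) (loc 1))) (K
  [(58,5,3),(40,11,4),(40,7,1)] [])) (L 40 7)) (K [(58,5,16),(40,7,20),(58,10,27)] []))) (L 40 7)))
  (L 40 7)) (K [(40,7,8),(58,5,6),(58,10,10)] []))) (A13 (B12 (A01 (K
  [(58,5,21),(40,7,17),(58,10,27)] []) (B01 (A12 (A13 (B02 (A01 (B01 (K
  [(58,10,4),(40,7,3),(58,5,1)] []) (A02 (K [(58,10,5),(40,7,3)] []) (A12 (K [(58,10,5),(40,7,3)]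
  []) (B12 (A23 (L 40 7) (B01 (K [(58,10,4),(40,7,3),(58,5,1)] []) (A03 (K
  [(58,10,20),(40,7,20),(58,5,12),(40,11,12)] []) (K
  [(58,10,312),(40,11,189),(40,7,312),(58,5,188)] [])))) (K [(40,7,7),(58,10,11),(58,5,6)] [])))))
  (B01 (K [(58,10,4),(40,7,3),(58,5,1)] []) (A12 (L 58 10) (A02 (L 58 10) (B12 (A23 (K
  [(40,7,34),(2,1,11),(40,11,19)] []) (K [(58,10,312),(40,7,312),(40,11,189),(58,5,188)] [])) (K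
  [(40,7,7),(58,10,11),(58,5,6)] [])))))) (A01 (A02 (K [(58,5,2),(58,10,4),(40,7,2)] []) (A12 (K
  [(58,5,2),(58,10,4),(40,7,2)] []) (B12 (B01 (K [(40,7,2),(58,5,3),(58,10,3)] []) (A23 (L 40 7)
  (A03 (K [(58,5,189),(40,7,311),(58,10,312),(40,11,188)] []) (K
  [(58,5,189),(58,10,312),(40,7,311),(40,11,188)] [])))) (K [(58,5,3),(40,7,2),(58,10,3)] []))))
  (A12 (K [(58,10,5),(58,5,3)] []) (A02 (K [(2,8,2),(58,10,4),(40,7,2)] []) (B12 (B01 (K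
  [(40,7,2),(58,5,2),(58,10,3)] []) (A23 (A12 (K [(40,7,312),(58,5,189),(58,10,312),(40,11,188)]
  []) (L 40 7)) (A13 (K [(58,5,189),(58,10,312),(40,7,311),(40,11,188)] []) (K
  [(58,5,189),(58,10,312),(40,11,188),(40,7,311)] [])))) (K [(58,5,3),(40,7,2),(58,10,3)] []))))))
  (B02 (A03 (B01 (K [(58,10,4),(40,7,3),(58,5,1)] []) (A02 (K [(58,10,6),(40,7,2)] []) (A23 (B12
  (A12 (B01 (K [(58,10,4),(40,7,3),(58,5,1)] []) (A01 (K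
  [(40,7,20),(58,10,20),(58,5,12),(40,11,12)] []) (K
  [(58,10,312),(40,11,188),(40,7,311),(58,5,189)] []))) (L 40 7)) (K [(40,7,7),(58,10,11),(58,5,6)]
  [])) (K [(58,10,4),(40,7,2),(58,5,3)] [])))) (B01 (K [(58,10,32),(40,7,17),(58,5,15)] []) (A23
  (A02 (K [(58,10,315),(40,7,309),(58,5,192),(40,11,184)] []) (B12 (A12 (K
  [(58,10,312),(40,7,311),(58,5,189),(40,11,188)] []) (L 40 7)) (K [(40,7,8),(58,5,6),(58,10,10)]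
  []))) (K [(58,5,189),(58,10,312),(40,11,188),(40,7,310)] [])))) (K
  [(58,5,31),(40,7,9),(58,10,24)] []))) (K [(40,7,62),(58,5,39),(40,11,35),(58,10,63)] [])) (A12
  (A13 (B12 (A01 (B01 (A02 (K [(58,5,3),(58,10,4),(40,7,2)] []) (A12 (K
  [(58,5,3),(58,10,4),(40,7,1)] []) (B02 (A23 (B01 (A02 (A03 (K [(58,5,8),(40,7,6),(58,10,10)] [])
  (loc 1)) (loc 1)) (L 58 5)) (B01 (A03 (A02 (K [(58,5,3),(40,7,2),(58,10,4)] []) (loc 1)) (loc 1))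
  (L 58 5))) (L 58 5)))) (K [(58,5,4),(40,11,2),(58,10,2)] [])) (B01 (A12 (K [(58,10,5),(58,5,3)]
  []) (loc 1)) (K [(58,5,3),(40,11,5),(58,10,1)] []))) (A01 (A02 (K [(58,5,7),(58,10,11),(40,7,6)]
  []) (A12 (K [(58,5,7),(40,7,6),(58,10,11)] []) (B02 (B01 (A23 (L 40 7) (A03 (K
  [(58,5,189),(40,7,311),(40,11,187),(58,10,312)] []) (loc 1))) (L 58 5)) (L 58 5)))) (A12 (K
  [(58,5,3),(58,10,5)] []) (A02 (K [(58,5,7),(58,10,12),(40,7,4)] []) (B02 (loc 1) (L 58 5)))))) (K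
  [(58,5,31),(40,7,9),(58,10,24)] [])) (K [(58,5,3),(40,7,2),(58,10,3)] [])))) (K
  [(58,5,16),(40,7,19),(58,10,28)] [])) (K [(58,5,21),(8,4,17),(58,10,27)] []))))) (K
  [(58,5,4),(40,7,1),(58,10,3)] [])))) (A23 (A02 (B12 (A01 (K [(58,5,21),(40,7,17),(58,10,26)] [])
  (B01 (A13 (K [(58,5,195),(40,7,307),(40,11,185),(58,10,313)] []) (K
  [(58,5,39),(40,7,62),(40,11,36),(58,10,62)] [])) (K [(58,5,4),(40,11,4)] []))) (K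
  [(58,5,51),(40,7,64),(58,10,85)] [])) (B12 (A12 (B01 (A13 (K
  [(58,5,195),(40,7,307),(40,11,185),(58,10,313)] []) (L 40 7)) (K [(58,5,5),(40,11,3)] [])) (L 40
  7)) (K [(58,5,51),(40,7,64),(58,10,85)] []))) (A13 (B12 (A01 (K [(58,5,24),(40,7,14),(58,10,26)]
  []) (B01 (A12 (K [(58,5,192),(40,11,192),(58,10,310),(40,7,306)] []) (A02 (B02 (K
  [(58,5,192),(40,11,190),(40,7,308),(58,10,311)] []) (L 58 5)) (K [(58,5,1),(40,7,3),(40,11,4)]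
  []))) (K [(58,5,3),(40,11,5),(58,10,1)] []))) (A01 (K [(58,5,24),(40,7,14),(58,10,26)] []) (A12
  (A13 (K [(58,5,53),(40,7,59),(58,10,88)] []) (K [(58,5,195),(40,7,305),(40,11,189),(58,10,312)]
  [])) (A02 (B02 (B01 (A03 (K [(58,5,6),(40,7,8),(58,10,10)] []) (A13 (K
  [(58,5,193),(40,7,308),(40,11,190),(58,10,310)] []) (K
  [(58,5,193),(40,7,308),(40,11,189),(58,10,310)] []))) (L 58 5)) (L 58 5)) (K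
  [(58,5,1),(40,7,3),(40,11,4)] []))))) (K [(58,5,4),(40,7,1),(58,10,3)] []))))) (K
  [(8,4,3),(58,5,2),(58,10,3)] []))) (K [(40,7,4),(58,5,2),(58,10,2)] [])))) (K
  [(40,7,6),(58,10,2)] [])) (K [(40,7,6),(58,5,2)] []))))) (A12 (K [(58,5,4),(58,10,4)] []) (A23
  (A02 (B12 (B01 (L 40 7) (A01 (L 58 5) (A13 (K [(58,5,207),(40,7,304),(58,10,314),(40,11,174)] [])
  (L 58 5)))) (L 40 7)) (B12 (B01 (L 40 7) (A12 (A13 (K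
  [(40,7,304),(58,5,207),(40,11,174),(58,10,314)] []) (L 40 7)) (L 40 7))) (L 40 7))) (A13 (B12
  (B01 (L 40 7) (A01 (L 58 5) (A12 (K [(58,5,114),(40,11,13),(58,10,74)] []) (L 58 5)))) (L 40 7))
  (L 58 5)))))) (A23 (B02 (A12 (B01 (K [(58,10,10),(40,11,1),(40,7,8),(58,5,4)] []) (A01 (A02 (B12
  (A03 (B01 (A01 (K [(58,5,37),(40,7,63),(40,11,35),(58,10,64)] []) (A13 (K
  [(58,10,4),(58,5,2),(40,7,2)] []) (K [(58,5,37),(40,11,36),(58,10,64),(40,7,63)] []))) (A01 (K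
  [(58,5,216),(40,11,145),(40,7,308),(58,10,331)] []) (A13 (K [(58,5,21),(58,10,28),(40,7,15)] [])
  (K [(58,5,41),(8,2,32),(40,7,61),(58,10,65)] [])))) (B01 (A13 (A01 (K
  [(40,11,36),(58,10,64),(58,5,37),(40,7,63)] []) (K [(58,10,4),(58,5,2),(40,7,2)] [])) (K
  [(40,11,12),(58,5,12),(58,10,20),(40,7,20)] [])) (A13 (A01 (K
  [(58,5,180),(8,2,196),(58,10,304),(40,7,320)] []) (K [(8,2,8),(58,10,23),(58,5,15),(40,7,18)]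
  [])) (K [(58,5,180),(8,2,197),(40,7,320),(58,10,303)] [])))) (K
  [(58,5,5),(40,7,7),(58,10,9),(40,11,3)] [])) (B12 (A23 (B01 (K [(58,10,4),(40,7,2),(58,5,2)] [])
  (A12 (A13 (K [(58,10,89),(58,5,65),(40,7,46)] []) (B12 (A03 (B01 (A02 (A01 (B02 (K
  [(58,10,317),(40,11,187),(58,5,189),(40,7,307)] []) (K [(58,5,4),(40,11,2),(58,10,2)] [])) (L 40
  11)) (L 40 11)) (K [(40,11,5),(58,5,3)] [])) (L 40 11)) (K [(58,10,32),(58,5,19),(40,7,12)] [])))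
  (A02 (B12 (A03 (B01 (A01 (A02 (B02 (A03 (B01 (K [(58,10,323),(40,11,177),(40,7,308),(58,5,193)]
  []) (K [(58,10,333),(8,2,169),(58,5,205),(40,7,293)] [])) (K [(58,10,5),(58,5,3)] [])) (K
  [(58,5,4),(58,10,4)] [])) (K [(58,10,5),(58,5,3)] [])) (K [(58,10,4),(40,11,2),(58,5,2)] [])) (K
  [(40,11,2),(58,5,3),(58,10,3)] [])) (K [(40,11,2),(58,10,4),(58,5,2)] [])) (K
  [(58,10,32),(58,5,19),(40,7,12)] [])) (K [(58,10,5),(58,5,3)] [])))) (B01 (K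
  [(58,10,335),(40,11,172),(58,5,194),(40,7,299)] []) (A13 (A12 (K
  [(40,11,129),(58,10,358),(58,5,232),(40,7,282)] []) (B12 (A02 (B01 (A03 (A01 (K
  [(58,5,186),(40,11,191),(58,10,312),(40,7,311)] []) (L 40 11)) (L 40 11)) (K [(40,11,4),(58,5,4)]
  [])) (L 40 11)) (K [(58,5,19),(58,10,32),(40,7,12)] []))) (A03 (B12 (A02 (K
  [(58,5,176),(40,11,205),(58,10,295),(40,7,323)] []) (L 40 11)) (K
  [(58,5,39),(40,11,34),(58,10,65),(40,7,61)] [])) (K [(40,11,6),(58,5,2)] []))))) (K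
  [(58,10,24),(58,5,14),(40,7,19),(40,11,7)] []))) (K [(58,10,10),(40,11,3),(58,5,6),(40,7,5)]
  []))) (B01 (K [(40,7,5),(58,10,2),(40,11,1)] []) (A02 (A01 (K [(40,7,5),(40,11,3)] []) (B12 (A13
  (B01 (K [(40,7,22),(58,10,21),(58,5,11),(40,11,10)] []) (A12 (A01 (B12 (A03 (B01 (A02 (A01 (B02
  (A03 (B01 (K [(40,7,63),(58,5,37),(58,10,63),(40,11,36)] []) (A02 (A01 (K
  [(58,5,188),(40,7,314),(40,11,188),(58,10,310)] []) (B12 (A13 (B01 (A12 (A01 (B02 (A03 (B01 (K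
  [(58,10,32),(40,7,17),(58,5,15)] []) (A02 (K [(58,5,189),(40,11,189),(58,10,312),(40,7,311)] [])
  (A23 (B12 (A12 (B01 (K [(58,10,20),(40,7,20),(40,11,12),(58,5,12)] []) (K
  [(2,8,188),(40,11,190),(40,7,311),(58,10,311)] [])) (K [(40,7,5),(40,11,3)] [])) (K
  [(40,7,8),(58,5,6),(58,10,10)] [])) (K [(58,5,189),(40,11,189),(58,10,312),(40,7,311)] []))))
  (B01 (K [(58,10,69),(8,2,31),(40,7,61),(58,5,39)] []) (A23 (A02 (K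
  [(40,11,189),(58,10,312),(58,5,189),(40,7,309)] []) (B12 (A12 (B01 (K
  [(58,10,20),(40,11,12),(40,7,20),(58,5,12)] []) (K
  [(40,11,190),(58,10,311),(58,5,188),(40,7,311)] [])) (K [(40,7,5),(40,11,3)] [])) (K
  [(40,7,20),(58,5,12),(58,10,20),(40,11,12)] []))) (K [(40,11,38),(58,10,63),(58,5,38),(40,7,62)]
  [])))) (K [(58,5,16),(40,11,3),(58,10,5)] [])) (B02 (A13 (B01 (K [(58,10,4),(40,7,4)] []) (A12 (L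
  58 10) (A23 (B12 (A02 (K [(58,10,311),(40,11,189),(40,7,311),(58,5,188)] []) (K
  [(40,7,333),(58,10,297),(40,11,201),(58,5,169)] [])) (K [(40,7,4),(58,10,4)] [])) (K
  [(58,10,6),(40,7,2)] [])))) (B01 (K [(58,10,20),(40,11,12),(40,7,20),(58,5,12)] []) (A23 (A12 (K
  [(58,10,64),(40,11,37),(40,7,61),(58,5,39)] []) (B12 (A02 (B01 (K
  [(58,10,20),(40,11,12),(40,7,20),(58,5,12)] []) (K
  [(58,10,311),(40,11,190),(58,5,188),(40,7,311)] [])) (K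
  [(40,7,317),(58,5,185),(58,10,305),(40,11,193)] [])) (K
  [(40,7,20),(58,10,20),(58,5,12),(40,11,12)] []))) (K [(58,10,63),(40,11,38),(58,5,38),(40,7,62)]
  [])))) (A13 (A12 (K [(58,10,5),(58,5,3)] []) (A23 (B12 (B01 (K [(58,5,6),(40,7,8),(58,10,10)] [])
  (A02 (K [(58,5,190),(58,10,312),(40,11,189),(40,7,310)] []) (A12 (K
  [(58,5,189),(40,7,312),(58,10,312),(40,11,188)] []) (K
  [(58,5,38),(40,7,62),(40,11,38),(58,10,61)] [])))) (K [(58,5,3),(40,7,2),(58,10,3)] [])) (K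
  [(58,5,3),(58,10,5)] []))) (A23 (A12 (K [(58,5,11),(40,11,1),(58,10,13)] []) (K
  [(58,5,198),(40,7,304),(40,11,189),(58,10,308)] [])) (K [(58,5,4),(40,11,1),(58,10,3)] []))))) (K
  [(58,5,187),(40,7,314),(40,11,191),(58,10,309)] [])) (A12 (A01 (K [(58,5,5),(40,11,3)] []) (B12
  (A13 (B01 (A12 (K [(58,10,5),(58,5,3)] []) (A23 (loc 1) (K [(40,11,5),(58,5,7),(58,10,12)] [])))
  (K [(58,5,3),(40,11,5)] [])) (K [(58,5,3),(40,11,4),(40,7,1)] [])) (A13 (A12 (K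
  [(58,5,3),(58,10,5)] []) (A23 (B02 (loc 1) (L 58 5)) (K [(58,5,3),(40,11,1),(58,10,4)] []))) (K
  [(58,5,3),(40,11,4),(40,7,1)] [])))) (L 58 5))) (B01 (K
  [(58,5,185),(40,7,315),(40,11,192),(58,10,308)] []) (L 58 5))) (A13 (K
  [(58,5,191),(40,7,312),(58,10,316),(40,11,182)] []) (K
  [(58,5,188),(40,7,313),(40,11,186),(58,10,312)] [])))) (A23 (B12 (A12 (B01 (A01 (L 40 7) (A13
  (B02 (K [(40,7,4),(58,10,3),(40,11,1)] []) (A12 (A01 (K [(40,7,4),(58,5,1),(58,10,3)] []) (A13 (K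
  [(58,10,4),(40,7,2),(58,5,2)] []) (K [(40,7,312),(58,5,188),(58,10,313),(40,11,186)] []))) (L 40
  7))) (L 40 7))) (A01 (L 40 7) (A13 (B12 (A12 (B01 (A01 (A02 (B02 (A03 (loc 1) (B01 (A13 (loc 1)
  (L 40 7)) (K [(58,5,5),(40,11,3)] []))) (L 58 5)) (B02 (A23 (B01 (A12 (A13 (loc 1) (L 40 7)) (L
  40 7)) (K [(2,8,1),(40,7,3),(40,11,4)] [])) (B01 (A13 (A12 (loc 1) (L 40 7)) (L 40 7)) (K
  [(58,5,3),(8,4,1),(40,11,4)] []))) (L 58 5))) (A13 (B02 (A12 (L 40 11) (B01 (A02 (A01 (B02 (L 58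
  10) (A03 (loc 1) (A23 (loc 1) (L 40 11)))) (B02 (L 58 10) (A13 (A12 (L 58 10) (A23 (loc 1) (K
  [(58,10,5),(58,5,3)] []))) (A23 (A12 (K [(58,10,5),(58,5,3)] []) (loc 1)) (L 40 11))))) (A23 (K
  [(58,10,313),(40,7,312),(40,11,186),(58,5,189)] []) (B02 (L 58 10) (A13 (K
  [(58,10,312),(40,11,188),(40,7,311),(58,5,189)] []) (A03 (A01 (K
  [(58,10,311),(40,11,189),(40,7,311),(58,5,189)] []) (K
  [(58,10,312),(40,11,189),(58,5,190),(40,7,310)] [])) (K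
  [(58,10,311),(40,11,189),(58,5,190),(40,7,310)] [])))))) (A02 (A01 (B12 (L 40 11) (A03 (loc 1)
  (A23 (loc 1) (L 40 11)))) (B12 (L 40 11) (A13 (A12 (L 58 10) (A23 (loc 1) (K [(58,10,5),(58,5,3)]
  []))) (A23 (A12 (K [(40,11,1),(2,1,4),(58,5,3)] []) (loc 1)) (L 40 11))))) (A23 (B12 (A12 (L 40
  11) (B01 (A02 (K [(8,2,138),(8,4,57),(58,5,5)] []) (K
  [(40,7,311),(40,11,191),(2,1,310),(58,5,189)] [])) (K [(40,11,37),(58,5,12),(8,4,15)] []))) (A12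
  (A01 (K [(2,1,311),(40,11,189),(58,5,189),(40,7,311)] []) (K
  [(58,10,312),(40,11,189),(58,5,190),(40,7,310)] [])) (K
  [(40,7,311),(58,5,189),(40,11,189),(58,10,310)] []))) (B12 (L 40 11) (A13 (A01 (A03 (K
  [(40,11,189),(58,5,189),(58,10,311),(40,7,311)] []) (K [(40,11,12),(58,10,4),(58,5,8)] [])) (K
  [(58,10,4),(40,11,12),(58,5,8)] [])) (K [(40,11,111),(58,5,35),(40,7,53)] []))))))) (K
  [(58,5,42),(40,11,8),(58,10,14)] [])) (B02 (A23 (B01 (A02 (A03 (B02 (A01 (loc 1) (K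
  [(58,10,5),(40,11,9),(40,7,10)] [])) (A01 (loc 1) (K
  [(8,2,189),(58,5,189),(58,10,311),(40,7,311)] []))) (K
  [(40,7,311),(40,11,189),(2,1,311),(58,5,189)] [])) (K
  [(40,7,311),(58,10,311),(40,11,189),(58,5,189)] [])) (K [(58,5,1),(40,11,4),(40,7,3)] [])) (B01
  (A03 (A02 (K [(40,11,189),(2,1,311),(58,5,189),(40,7,310)] []) (K [(40,11,5),(40,7,3)] [])) (K
  [(40,7,3),(40,11,5)] [])) (K [(58,5,2),(40,11,5),(40,7,1)] []))) (L 58 5)))) (K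
  [(58,5,2),(40,11,5),(40,7,2)] [])) (K [(58,5,2),(40,7,6)] [])) (A12 (A01 (A02 (B02 (B01 (A03 (loc
  1) (A13 (loc 1) (L 40 7))) (L 58 5)) (L 58 5)) (B02 (B01 (A23 (K
  [(40,7,329),(58,5,247),(58,10,423)] []) (A13 (K [(40,7,311),(58,5,190),(40,11,186),(58,10,313)]
  []) (L 40 7))) (L 58 5)) (L 58 5))) (A13 (K [(58,5,18),(58,10,30),(40,7,16)] []) (B02 (B01 (A23
  (A02 (A03 (B02 (B01 (K [(58,10,313),(40,7,311),(40,11,187),(58,5,190)] []) (K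
  [(58,5,190),(40,7,310),(58,10,312),(40,11,187)] [])) (K [(58,5,3),(40,7,2),(58,10,4)] [])) (B02
  (B01 (K [(40,7,4),(58,10,3),(40,11,2)] []) (K [(40,7,310),(58,5,190),(40,11,188),(58,10,312)]
  [])) (K [(58,5,8),(40,7,6),(58,10,10)] []))) (A12 (B02 (B01 (K [(40,7,10),(58,10,8),(40,11,5)]
  []) (K [(40,7,310),(58,5,190),(58,10,312),(40,11,187)] [])) (K [(58,5,8),(40,7,6),(58,10,10)]
  [])) (L 40 7))) (A03 (A02 (B02 (B01 (A01 (loc 1) (K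
  [(58,10,311),(40,11,190),(40,7,312),(58,5,187)] [])) (K
  [(58,5,192),(40,11,189),(40,7,309),(58,10,311)] [])) (K [(58,5,3),(40,7,1),(58,10,3)] [])) (K
  [(58,5,189),(40,7,311),(40,11,190),(58,10,310)] [])) (K
  [(58,5,189),(40,7,310),(40,11,190),(58,10,310)] []))) (L 58 5)) (L 58 5)))) (L 40 7))) (K
  [(58,5,2),(40,7,6)] [])))) (L 40 7)) (K [(40,7,8),(58,5,6),(58,10,10)] [])) (B12 (A13 (B01 (A01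
  (K [(40,7,314),(58,5,187),(40,11,192),(58,10,308)] []) (A12 (B02 (A13 (K
  [(58,10,65),(40,7,90),(40,11,45)] []) (B01 (K [(58,10,20),(40,7,20),(40,11,12),(58,5,12)] [])
  (A03 (A01 (K [(40,7,63),(2,8,37),(58,10,62),(40,11,38)] []) (K
  [(58,10,62),(40,11,38),(40,7,62),(58,5,37)] [])) (K [(40,11,38),(58,10,62),(58,5,37),(40,7,62)]
  [])))) (A13 (A01 (A03 (B12 (B01 (L 40 7) (A02 (A01 (K
  [(40,7,313),(58,5,187),(40,11,192),(58,10,308)] []) (K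
  [(40,7,312),(58,5,189),(40,11,188),(58,10,312)] [])) (K
  [(40,7,312),(58,5,189),(40,11,188),(58,10,312)] []))) (L 40 7)) (B12 (K
  [(58,5,189),(58,10,313),(40,7,311),(40,11,188)] []) (K [(58,5,8),(40,7,6),(58,10,10)] []))) (A12
  (K [(58,10,5),(58,5,3)] []) (B12 (K [(58,10,313),(58,5,189),(40,7,311),(40,11,188)] []) (K
  [(58,5,8),(40,7,6),(58,10,10)] [])))) (A03 (A01 (K [(58,5,188),(8,4,312),(40,11,191),(58,10,309)]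
  []) (K [(58,5,38),(8,4,62),(40,11,38),(58,10,62)] [])) (K
  [(58,5,38),(40,11,38),(40,7,62),(58,10,62)] [])))) (K
  [(40,7,314),(58,5,187),(40,11,192),(58,10,308)] []))) (A01 (L 58 5) (A12 (B12 (A13 (B01 (A01 (A03
  (B02 (A02 (loc 1) (K [(58,5,1),(40,11,19),(40,7,5)] [])) (L 58 5)) (K
  [(58,5,4),(40,11,58),(58,10,2)] [])) (K [(40,11,58),(58,5,4),(58,10,2)] [])) (K
  [(58,5,3),(40,11,5)] [])) (K [(40,11,5),(40,7,3)] [])) (A13 (A01 (A03 (B02 (B01 (A02 (loc 1) (A12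
  (loc 1) (K [(58,5,1),(40,7,3),(40,11,4)] []))) (L 58 5)) (L 58 5)) (K
  [(58,5,190),(40,11,189),(40,7,309),(58,10,312)] [])) (A12 (K [(58,5,3),(58,10,5)] []) (K
  [(58,5,190),(40,11,189),(40,7,309),(58,10,312)] []))) (K [(58,5,1),(40,11,4),(40,7,2)] []))) (L
  58 5)))) (K [(58,5,1),(40,7,24),(40,11,38)] [])) (A13 (K
  [(58,5,191),(40,7,312),(40,11,182),(58,10,316)] []) (K
  [(58,5,37),(40,7,63),(40,11,39),(58,10,61)] [])))))) (B01 (K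
  [(40,7,63),(58,10,63),(40,11,36),(58,5,37)] []) (A23 (A02 (B12 (A01 (K [(40,11,5),(40,7,3)] [])
  (B01 (A13 (A12 (B02 (K [(58,10,312),(40,11,192),(40,7,315),(58,5,182)] []) (A01 (K
  [(58,5,38),(40,11,38),(40,7,62),(58,10,62)] []) (A13 (A12 (K [(58,10,5),(58,5,3)] []) (K
  [(58,5,189),(58,10,311),(40,7,310),(40,11,189)] [])) (K
  [(58,5,38),(40,7,62),(40,11,38),(58,10,62)] [])))) (K
  [(40,7,312),(58,5,187),(40,11,192),(58,10,308)] [])) (K [(40,7,26),(58,5,1),(40,11,37)] [])) (K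
  [(58,5,20),(40,11,38),(58,10,5)] []))) (A01 (K [(58,5,37),(40,7,62),(40,11,39),(58,10,61)] []) (K
  [(58,5,191),(40,7,311),(40,11,183),(58,10,315)] []))) (B12 (A12 (B01 (A13 (A01 (L 40 7) (B02 (K
  [(40,7,11),(58,10,7),(40,11,6)] []) (A12 (A13 (A01 (K
  [(40,7,311),(58,5,189),(58,10,313),(40,11,187)] []) (K [(58,10,4),(40,7,2),(58,5,2)] [])) (K
  [(40,7,312),(58,5,189),(58,10,312),(40,11,187)] [])) (L 40 7)))) (L 40 7)) (A13 (A01 (K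
  [(58,5,1),(40,7,3),(40,11,4)] []) (B12 (A12 (B01 (A13 (A01 (B02 (K
  [(8,2,190),(58,5,189),(58,10,310),(40,7,311)] []) (K [(58,5,6),(40,11,2)] [])) (B02 (A12 (L 58
  10) (B01 (A23 (A02 (K [(58,10,312),(40,11,189),(40,7,310),(58,5,190)] []) (B02 (K
  [(58,10,5),(40,7,3)] []) (A12 (K [(2,1,312),(40,11,188),(40,7,310),(58,5,190)] []) (K
  [(40,7,314),(2,1,310),(40,11,189),(58,5,188)] [])))) (L 40 11)) (A23 (A02 (K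
  [(40,11,5),(58,10,1),(58,5,3)] []) (B12 (A12 (L 40 11) (K
  [(40,11,189),(40,7,310),(58,10,311),(58,5,190)] [])) (K
  [(58,10,312),(8,2,188),(40,7,310),(58,5,190)] []))) (L 40 11)))) (K [(8,2,8),(2,8,42),(58,10,14)]
  []))) (K [(2,8,3),(40,11,108),(40,7,90)] [])) (K [(58,5,2),(40,11,5),(40,7,2)] [])) (K
  [(40,7,5),(40,11,3)] [])) (A12 (A13 (A01 (B02 (B01 (K
  [(58,5,189),(40,7,311),(40,11,189),(58,10,311)] []) (L 58 5)) (L 58 5)) (B02 (B01 (K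
  [(58,10,318),(40,11,181),(58,5,193),(40,7,308)] []) (K [(58,5,4),(58,10,3),(40,7,1)] [])) (K
  [(58,5,4),(40,7,1),(58,10,3)] []))) (K [(58,5,189),(40,7,311),(40,11,189),(58,10,310)] [])) (L 40
  7)))) (K [(58,5,1),(40,7,3),(40,11,4)] []))) (L 40 7)) (K [(40,7,9),(58,5,5),(58,10,9)] [])))
  (A13 (B12 (A01 (K [(40,11,6),(40,7,2)] []) (B01 (K [(40,11,188),(2,1,314),(58,5,191),(40,7,307)]
  []) (K [(40,11,12),(58,5,8),(58,10,4)] []))) (K [(58,5,191),(40,7,307),(40,11,186),(58,10,315)]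
  [])) (K [(40,11,37),(58,5,12),(40,7,15)] []))))) (L 58 5)) (B02 (A13 (B01 (K [(58,10,4),(40,7,4)]
  []) (A12 (K [(58,10,15),(40,11,2),(40,7,7)] []) (A23 (B12 (A02 (B01 (K
  [(40,7,9),(58,10,11),(58,5,4)] []) (A01 (A03 (B12 (A02 (B01 (A01 (A03 (B02 (A02 (L 58 10) (B01 (K
  [(58,10,4),(40,7,4)] []) (A12 (L 58 10) (A23 (B12 (A02 (L 58 10) (K
  [(58,10,311),(40,11,189),(40,7,310),(58,5,190)] [])) (K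
  [(58,10,314),(40,11,185),(40,7,310),(58,5,191)] [])) (L 58 10))))) (A02 (K [(58,10,5),(58,5,3)]
  []) (A12 (K [(58,10,5),(58,5,3)] []) (A23 (K [(58,5,191),(40,7,309),(40,11,188),(58,10,311)] [])
  (K [(58,10,5),(58,5,3)] []))))) (B02 (K [(58,10,3),(40,11,2),(40,7,4)] []) (K
  [(58,10,311),(40,11,189),(58,5,190),(40,7,310)] []))) (A12 (K
  [(58,10,312),(40,7,309),(40,11,188),(58,5,191)] []) (B02 (K [(58,10,7),(40,7,11),(40,11,6)] [])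
  (K [(58,5,190),(40,7,310),(58,10,311),(40,11,189)] [])))) (A01 (K [(40,11,5),(58,5,2)] []) (A12
  (K [(40,11,188),(58,10,312),(58,5,191),(40,7,309)] []) (K
  [(58,5,191),(40,11,191),(40,7,309),(58,10,310)] [])))) (K
  [(40,7,313),(58,5,189),(40,11,190),(58,10,308)] [])) (A02 (K
  [(58,10,317),(40,7,308),(58,5,194),(40,11,180)] []) (L 40 7))) (K
  [(40,7,313),(58,5,189),(40,11,190),(58,10,308)] [])) (K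
  [(40,7,311),(58,5,190),(58,10,310),(40,11,189)] []))) (L 40 7)) (K [(40,7,8),(58,5,6),(58,10,10)]
  [])) (B12 (A03 (B01 (K [(58,10,11),(40,7,8),(58,5,5)] []) (A01 (A02 (K
  [(58,10,313),(40,11,188),(58,5,192),(40,7,308)] []) (K
  [(58,10,312),(40,11,189),(40,7,309),(58,5,191)] [])) (K
  [(40,7,309),(58,10,312),(40,11,189),(58,5,191)] []))) (K
  [(58,10,311),(40,11,190),(40,7,309),(58,5,190)] [])) (K [(58,10,11),(40,7,7),(58,5,6)] [])))))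
  (B01 (K [(58,10,64),(40,7,63),(40,11,35),(58,5,37)] []) (A23 (A12 (B12 (A01 (B01 (K
  [(58,10,63),(40,7,62),(40,11,37),(58,5,38)] []) (K
  [(40,11,190),(58,5,191),(40,7,307),(58,10,311)] [])) (B01 (K
  [(58,10,63),(40,11,37),(40,7,62),(58,5,38)] []) (K [(40,11,191),(2,1,310),(58,5,190),(40,7,308)]
  []))) (K [(40,7,309),(58,10,317),(58,5,193),(40,11,181)] [])) (B12 (A02 (B01 (K
  [(40,7,313),(58,5,189),(58,10,315),(40,11,184)] []) (A03 (A01 (B12 (A02 (B01 (A03 (A01 (B02 (A02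
  (L 58 10) (B01 (K [(58,10,312),(40,11,188),(40,7,311),(58,5,189)] []) (A23 (A12 (K
  [(2,1,4),(40,11,1),(58,5,3)] []) (B12 (A02 (L 40 11) (K
  [(8,2,189),(58,10,311),(40,7,310),(58,5,190)] [])) (K
  [(58,10,312),(40,11,187),(40,7,310),(58,5,190)] []))) (L 40 11)))) (A02 (K [(58,10,5),(58,5,3)]
  []) (K [(58,5,192),(40,11,189),(58,10,311),(40,7,309)] []))) (B02 (A12 (K
  [(58,10,14),(40,11,24),(40,7,26)] []) (B01 (K [(58,10,312),(40,11,188),(40,7,311),(58,5,189)] [])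
  (A23 (K [(40,11,189),(58,10,311),(40,7,311),(58,5,188)] []) (K
  [(40,11,190),(2,1,311),(58,5,190),(40,7,310)] [])))) (K
  [(58,5,38),(40,11,38),(58,10,62),(40,7,62)] []))) (K [(40,11,108),(58,5,3),(40,7,90)] [])) (K
  [(58,5,2),(40,11,5),(40,7,2)] [])) (K [(40,7,5),(40,11,3)] [])) (A02 (A03 (A01 (B02 (B01 (K
  [(58,10,63),(40,11,37),(40,7,62),(58,5,38)] []) (K [(58,5,3),(58,10,3),(40,7,1)] [])) (K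
  [(58,5,3),(58,10,3),(40,7,1)] [])) (B02 (B01 (K [(58,10,63),(40,7,62),(40,11,37),(58,5,38)] [])
  (K [(58,5,39),(40,7,62),(40,11,37),(58,10,63)] [])) (K [(58,5,3),(40,7,2),(58,10,3)] []))) (K
  [(58,5,189),(40,7,311),(40,11,189),(58,10,310)] [])) (L 40 7))) (K [(40,7,5),(40,11,3)] [])) (K
  [(40,7,3),(58,5,1),(40,11,4)] []))) (L 40 7)) (K [(40,7,9),(58,5,5),(58,10,9)] []))) (A03 (B12
  (A01 (B01 (K [(58,10,314),(8,2,188),(40,7,307),(58,5,191)] []) (K [(40,11,12),(58,5,8),(58,10,4)]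
  [])) (K [(40,11,19),(58,5,1),(40,7,4)] [])) (K [(58,10,317),(40,11,182),(58,5,192),(40,7,309)]
  [])) (K [(40,11,39),(2,1,62),(58,5,38),(40,7,61)] []))))) (A13 (A12 (A01 (B12 (B01 (K
  [(58,5,2),(58,10,4),(40,7,2)] []) (A03 (A02 (K [(2,8,3),(58,10,5)] []) (K
  [(58,5,39),(58,10,63),(40,7,61),(40,11,37)] [])) (K [(58,10,63),(58,5,39),(40,11,37),(40,7,61)]
  []))) (K [(58,5,3),(40,7,2),(58,10,4)] [])) (K [(58,5,39),(58,10,63),(40,7,61),(40,11,37)] []))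
  (A23 (B12 (B01 (K [(40,7,2),(58,5,6)] []) (A02 (A01 (K [(2,8,116),(40,11,18),(58,10,66)] []) (K
  [(58,5,39),(8,4,62),(40,11,38),(58,10,62)] [])) (L 40 7))) (L 58 5)) (B12 (B01 (K
  [(58,5,10),(40,7,4),(58,10,10)] []) (A03 (A01 (K [(58,5,116),(40,11,18),(58,10,66)] []) (K
  [(58,5,193),(40,7,307),(40,11,188),(58,10,311)] [])) (K
  [(58,5,193),(40,11,189),(40,7,308),(58,10,311)] []))) (K [(58,5,3),(40,7,2),(58,10,4)] [])))) (K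
  [(58,5,5),(40,11,1),(58,10,2)] [])))) (A23 (K [(40,7,11),(58,5,3),(58,10,10)] []) (B02 (A13 (B01
  (K [(40,7,4),(58,10,4)] []) (A01 (A03 (L 40 7) (K [(40,7,314),(58,10,310),(58,5,184),(40,11,193)]
  [])) (K [(58,10,8),(40,7,10),(40,11,5)] []))) (B01 (K [(40,7,64),(58,10,64),(40,11,36),(58,5,37)]
  []) (A03 (A01 (L 40 7) (K [(40,7,62),(58,5,38),(40,11,38),(58,10,62)] [])) (K
  [(40,11,38),(40,7,62),(58,5,38),(58,10,62)] [])))) (A13 (A01 (A03 (L 40 7) (K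
  [(58,5,193),(40,7,308),(40,11,189),(58,10,311)] [])) (A12 (K
  [(58,5,39),(40,7,61),(58,10,63),(40,11,37)] []) (B12 (K
  [(40,7,308),(58,5,192),(40,11,188),(58,10,311)] []) (K [(58,5,3),(40,7,2),(58,10,3)] [])))) (K
  [(58,5,222),(8,4,288),(40,11,187),(58,10,304)] []))))) (A02 (A01 (L 58 5) (B12 (A13 (B01 (A12 (K
  [(58,5,192),(40,11,192),(58,10,310),(40,7,306)] []) (K [(58,5,1),(40,11,37),(40,7,26)] [])) (K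
  [(58,5,3),(40,11,5)] [])) (K [(58,5,4),(40,11,4)] [])) (A13 (A12 (A01 (K
  [(58,5,39),(40,11,38),(40,7,61),(58,10,62)] []) (K [(58,5,39),(40,11,37),(58,10,63),(40,7,61)]
  [])) (K [(58,5,1),(40,7,3),(40,11,4)] [])) (K [(58,5,4),(40,11,4)] [])))) (A23 (B12 (A12 (B01
  (A01 (L 40 7) (K [(58,5,194),(40,7,306),(40,11,191),(58,10,309)] [])) (K [(58,5,5),(40,11,3)]
  [])) (L 40 7)) (A12 (A01 (L 40 7) (A13 (K [(58,5,197),(40,7,308),(40,11,179),(58,10,317)] []) (L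
  40 7))) (L 40 7))) (B12 (A13 (B01 (A01 (K [(8,4,11),(40,11,13)] []) (K
  [(58,5,38),(40,11,39),(40,7,61),(58,10,61)] [])) (K [(58,5,3),(40,11,5)] [])) (K
  [(58,5,4),(40,11,4),(40,7,1)] [])) (A13 (A01 (K [(2,8,1),(8,4,3),(40,11,4)] []) (A12 (K
  [(58,5,39),(40,11,37),(40,7,61),(58,10,63)] []) (K [(58,5,1),(40,7,3),(40,11,4)] []))) (K
  [(58,5,4),(8,4,1),(40,11,4)] [])))))) (B01 (A23 (A02 (B02 (A01 (K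
  [(40,7,63),(58,10,62),(40,11,39),(58,5,36)] []) (K [(58,10,8),(40,7,10),(40,11,5)] [])) (A01 (K
  [(58,5,38),(40,7,62),(40,11,38),(58,10,62)] []) (A13 (A12 (K
  [(58,5,39),(58,10,63),(40,7,61),(40,11,37)] []) (K [(58,5,39),(40,7,61),(40,11,38),(58,10,62)]
  [])) (K [(58,5,38),(40,7,62),(40,11,38),(58,10,62)] [])))) (K
  [(40,7,21),(58,5,12),(58,10,21),(40,11,10)] [])) (K [(40,11,185),(2,1,319),(58,5,196),(40,7,300)]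
  [])) (A23 (A02 (B12 (K [(58,5,1),(40,11,19),(40,7,5)] []) (A01 (K [(2,8,2),(40,11,5),(40,7,2)]
  []) (A13 (A12 (K [(58,5,39),(40,11,37),(40,7,61),(58,10,63)] []) (K [(58,5,1),(40,7,3),(40,11,4)]
  [])) (K [(58,5,7),(40,7,1),(40,11,16)] [])))) (B12 (A12 (K
  [(2,8,194),(40,7,306),(40,11,191),(58,10,309)] []) (K [(40,7,5),(40,11,3)] [])) (A12 (A13 (A01 (K
  [(58,5,2),(40,7,10),(40,11,11)] []) (K [(58,5,195),(40,7,307),(40,11,183),(58,10,314)] [])) (K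
  [(58,5,3),(40,7,10),(40,11,12)] [])) (L 40 7)))) (K [(58,5,22),(40,11,30),(58,10,12)] [])))) (A03
  (K [(58,5,39),(40,7,62),(58,10,64),(40,11,34)] []) (K
  [(58,5,200),(40,7,306),(58,10,326),(40,11,168)] []))) (B12 (A13 (B01 (K
  [(58,10,11),(40,7,8),(58,5,5)] []) (A12 (K [(58,10,8),(40,11,4),(58,5,5),(40,7,7)] []) (A23 (B12
  (A02 (K [(58,5,40),(40,7,61),(40,11,37),(58,10,63)] []) (L 40 7)) (K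
  [(40,7,62),(58,5,53),(58,10,85)] [])) (K [(58,10,20),(40,11,12),(58,5,13),(40,7,19)] [])))) (B01
  (A23 (K [(40,7,62),(58,10,64),(40,11,35),(58,5,39)] []) (K
  [(58,10,63),(40,11,37),(40,7,60),(58,5,39)] [])) (A23 (A12 (K
  [(40,11,12),(58,5,13),(58,10,20),(40,7,19)] []) (B12 (A02 (K
  [(58,5,39),(40,11,38),(40,7,61),(58,10,62)] []) (K [(40,7,5),(40,11,3)] [])) (A02 (K
  [(58,5,197),(40,7,304),(40,11,186),(58,10,313)] []) (L 40 7)))) (K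
  [(40,11,30),(58,5,22),(58,10,12)] [])))) (K [(40,7,60),(58,10,68),(58,5,42),(40,11,30)] []))) (K
  [(40,7,341),(58,5,167),(40,11,220),(58,10,273)] []))) (B01 (K
  [(40,7,22),(58,5,11),(40,11,12),(58,10,19)] []) (K
  [(58,5,167),(40,7,341),(40,11,220),(58,10,273)] []))) (K
  [(40,7,20),(58,5,14),(58,10,23),(40,11,7)] []))) (A23 (B12 (A12 (B01 (K [(40,7,5),(58,10,3)] [])
  (A01 (L 40 7) (K [(40,7,399),(58,5,92),(58,10,294),(40,11,215)] []))) (L 40 7)) (K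
  [(40,7,5),(58,10,3)] [])) (B12 (A13 (B01 (K [(40,7,68),(58,5,34),(58,10,64),(40,11,34)] []) (A01
  (K [(8,4,22),(2,8,10),(40,11,15),(58,10,17)] []) (A12 (B12 (A13 (B01 (K
  [(40,7,8),(58,10,11),(58,5,5)] []) (A01 (A03 (L 40 7) (K
  [(40,7,19),(58,5,13),(40,11,12),(58,10,20)] [])) (K [(58,10,20),(40,11,12),(40,7,19),(58,5,13)]
  []))) (B01 (A03 (K [(40,7,62),(58,5,39),(58,10,64),(40,11,35)] []) (K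
  [(58,10,62),(40,11,39),(40,7,60),(58,5,39)] [])) (A03 (A01 (K [(40,7,5),(40,11,3)] []) (K
  [(58,5,13),(40,7,19),(40,11,12),(58,10,20)] [])) (K [(40,11,39),(58,5,40),(8,4,60),(58,10,61)]
  [])))) (K [(40,7,60),(58,5,42),(58,10,68),(40,11,30)] [])) (K
  [(40,7,22),(2,8,10),(40,11,15),(58,10,17)] [])))) (K [(40,7,66),(2,8,34),(40,11,45),(58,10,55)]
  [])) (K [(40,7,20),(58,5,14),(58,10,23),(40,11,7)] [])))))) (A12 (K [(58,5,4),(58,10,4)] []) (A02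
  (A01 (L 58 5) (B12 (B01 (K [(2,8,3),(40,7,2),(58,10,3)] []) (A13 (A12 (K
  [(58,5,114),(40,11,13),(58,10,74)] []) (L 58 5)) (L 58 5))) (L 40 7))) (A23 (B12 (B01 (L 40 7)
  (A12 (A01 (L 58 5) (A13 (K [(58,5,208),(40,7,302),(40,11,178),(58,10,312)] []) (L 58 5))) (L 40
  7))) (L 40 7)) (B12 (B01 (K [(58,5,3),(40,7,2),(58,10,3)] []) (A13 (A01 (L 58 5) (A12 (K
  [(58,5,244),(8,4,272),(40,11,166),(58,10,318)] []) (L 58 5))) (L 58 5))) (L 40 7)))))) (B02 (A13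
  (B01 (K [(58,10,28),(40,11,4),(40,7,20),(58,5,12)] []) (A01 (A03 (K
  [(58,5,222),(40,11,144),(58,10,353),(40,7,281)] []) (K [(58,10,2),(40,11,3),(58,5,3)] [])) (K
  [(58,10,2),(40,11,3),(58,5,3)] []))) (B01 (K [(58,10,397),(40,11,110),(58,5,180),(40,7,313)] [])
  (A03 (A01 (K [(58,5,33),(40,11,42),(58,10,60),(40,7,65)] []) (K [(40,11,5),(58,5,2),(40,7,1)]
  [])) (K [(40,11,15),(58,5,5),(40,7,5)] [])))) (K [(58,5,4),(40,11,1),(58,10,3)] [])))) (A03 (A01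
  (L 58 5) (B12 (A12 (K [(58,5,4),(58,10,4)] []) (B01 (A23 (A02 (B02 (A01 (L 58 5) (B01 (A13 (K
  [(58,5,207),(40,7,304),(40,11,176),(58,10,313)] []) (L 58 5)) (L 58 5))) (L 58 5)) (B02 (A12 (B01
  (A13 (K [(58,5,207),(8,4,303),(40,11,182),(58,10,308)] []) (L 58 5)) (L 58 5)) (L 58 5)) (L 58
  5))) (K [(58,5,101),(40,11,49),(58,10,50)] [])) (L 58 5))) (A12 (K [(58,5,4),(58,10,4)] []) (A23
  (A02 (B02 (B01 (A01 (L 58 5) (A13 (K [(58,5,42),(40,7,61),(40,11,35),(58,10,63)] []) (L 58 5)))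
  (L 58 5)) (L 58 5)) (B02 (B01 (A12 (A13 (K [(58,5,213),(40,7,300),(40,11,170),(58,10,317)] []) (L
  58 5)) (L 58 5)) (L 58 5)) (L 58 5))) (K [(58,5,101),(40,11,49),(58,10,50)] []))))) (A23 (B12
  (A12 (L 40 11) (B01 (A02 (K [(58,5,3),(40,11,5)] []) (A23 (B02 (A12 (K
  [(2,8,150),(8,4,312),(40,11,328),(58,10,210)] []) (L 58 5)) (L 58 5)) (K [(58,5,3),(40,11,5)]
  []))) (L 58 5))) (A12 (K [(58,5,3),(40,11,1),(58,10,4)] []) (A02 (K [(58,5,3),(40,11,5)] []) (A23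
  (B02 (B01 (A12 (A01 (L 58 5) (A13 (K [(2,8,205),(40,7,301),(40,11,191),(58,10,303)] []) (L 58
  5))) (L 58 5)) (L 58 5)) (L 58 5)) (K [(58,5,3),(40,11,5)] []))))) (K
  [(58,5,3),(40,11,5),(58,10,1)] []))))) (K [(58,5,5),(58,10,3)] [])) (B02 (A23 (L 40 7) (B01 (A03
  (L 40 7) (K [(58,5,26),(40,7,76),(40,11,53),(58,10,45)] [])) (L 58 5))) (L 58 5)))) (K
  [(58,5,4),(40,11,4)] [])))))) (B01 (A03 (P 13 (S 10 (L 31 8) (K [(2,8,1),(40,7,97),(40,11,102)]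
  []))) (A23 (P 13 (K [(40,7,3),(40,11,5)] [])) (S 13 (L 40 11) (L 13 11)))) (S 10 (L 31 8) (L 2
  8)))) (A13 (A01 (A03 (P 13 (L 40 7)) (P 19 (B02 (P 13 (B01 (A23 (L 40 7) (A13 (L 40 7) (K
  [(58,5,10),(40,7,23),(40,11,14),(58,10,18)] []))) (L 58 5))) (L 58 5)))) (P 19 (A12 (B02 (P 13
  (B01 (A13 (K [(40,7,62),(58,5,49),(58,10,89)] []) (A03 (K [(58,5,49),(40,7,62),(58,10,89)] [])
  (A23 (K [(58,5,49),(40,7,62),(58,10,89)] []) (K [(58,5,17),(40,7,16),(58,10,31)] [])))) (K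
  [(58,5,5),(58,10,3)] []))) (K [(58,5,5),(58,10,3)] [])) (B02 (P 13 (B01 (A23 (L 40 7) (A03 (L 40
  7) (K [(58,5,10),(40,7,23),(40,11,15),(58,10,16)] []))) (L 58 5))) (L 58 5))))) (A03 (A01 (S 10
  (L 31 8) (L 2 8)) (B02 (P 13 (S 10 (L 31 8) (K [(2,8,1),(40,7,3),(40,11,4)] []))) (S 10 (L 31 8)
  (L 2 8)))) (A23 (B02 (B01 (P 19 (S 13 (K [(58,5,1),(40,7,3),(40,11,5)] []) (K
  [(59,7,1),(13,11,3),(58,5,4)] []))) (S 10 (L 31 8) (L 2 8))) (S 10 (L 31 8) (L 2 8))) (B02 (B01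
  (A13 (P 19 (S 13 (K [(58,5,2),(40,11,6)] []) (K [(13,11,4),(58,5,4)] []))) (S 10 (L 31 8) (L 2
  8))) (S 10 (L 31 8) (L 2 8))) (S 10 (L 31 8) (L 2 8)))))))))) (M 15 (P 12 (B01 (A23 (A02 (B02
  (A01 (B01 (A03 (A02 (B02 (S 9 (L 29 1) (L 1 1)) (A01 (A03 (M 18 (L 38 10)) (S 9 (L 29 1) (L 12
  1))) (S 9 (L 29 1) (L 12 1)))) (S 9 (L 29 1) (L 1 1))) (S 9 (L 29 1) (L 1 1))) (A03 (M 18 (P 9
  (A02 (B12 (P 19 (S 13 (L 40 11) (K [(13,11,2),(38,10,4),(58,5,2)] []))) (A01 (A03 (A02 (B02 (P 19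
  (K [(29,1,2),(58,5,2),(58,10,4)] [])) (P 16 (L 49 4))) (P 19 (K [(38,10,2),(58,5,2),(58,10,3)]
  []))) (P 19 (K [(38,10,2),(58,5,2),(58,10,3)] []))) (P 19 (K [(38,10,9),(58,5,4),(58,10,11)]
  [])))) (P 19 (S 13 (K [(40,7,10),(40,11,9),(58,10,5)] []) (K [(38,10,5),(59,7,2),(13,5,1)]
  [])))))) (P 19 (A13 (M 18 (S 13 (K [(40,7,10),(40,11,9),(58,10,5)] []) (K
  [(38,10,5),(59,7,2),(13,5,1)] []))) (S 9 (L 29 1) (L 12 1)))))) (P 19 (B01 (A13 (S 9 (L 29 1) (L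
  12 1)) (S 9 (L 29 1) (L 1 1))) (A13 (P 13 (K [(40,7,11),(58,10,8),(40,11,5)] [])) (A03 (M 18 (S
  13 (K [(40,7,10),(58,10,5),(40,11,9)] []) (K [(38,10,3),(13,5,4)] []))) (S 9 (L 29 1) (L 12
  1))))))) (A01 (A03 (M 18 (P 9 (A02 (B12 (B01 (A01 (P 16 (L 49 4)) (P 19 (M 10 (K
  [(2,8,3),(38,10,2),(58,10,4)] [])))) (A01 (S 10 (L 31 8) (L 2 8)) (P 19 (S 13 (K
  [(58,5,4),(40,7,3),(40,11,9),(58,10,8)] []) (K [(13,11,3),(58,5,3),(13,7,2)] []))))) (B02 (A01 (P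
  16 (L 49 4)) (P 19 (K [(58,5,4),(38,10,1),(38,4,3)] []))) (S 10 (L 31 8) (L 2 8)))) (B12 (P 19 (S
  13 (K [(40,7,9),(58,5,2),(40,11,8),(58,10,5)] []) (K [(58,5,2),(29,1,3),(59,7,1),(13,5,1)] [])))
  (B02 (P 19 (K [(58,5,4),(38,10,2),(38,4,2)] [])) (S 10 (L 31 8) (L 2 8))))))) (A13 (M 18 (P 9
  (B12 (P 19 (S 13 (K [(40,7,9),(58,5,2),(40,11,8),(58,10,5)] []) (K
  [(59,7,1),(29,1,3),(58,5,2),(13,5,1)] []))) (B02 (P 19 (K [(58,5,4),(38,10,2),(38,4,2)] [])) (S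
  10 (L 31 8) (L 2 8)))))) (B12 (S 9 (L 29 1) (L 12 1)) (B02 (P 19 (L 58 5)) (M 18 (L 38 10))))))
  (P 19 (A13 (M 18 (A12 (S 13 (K [(40,7,7),(58,5,6),(58,10,12)] []) (L 13 5)) (S 13 (K
  [(40,7,67),(58,5,37),(58,10,51),(40,11,46)] []) (K [(58,5,2),(38,10,3),(13,5,3)] [])))) (A03 (M
  18 (S 13 (K [(40,7,22),(58,5,10),(40,11,21),(58,10,12)] []) (K
  [(59,7,1),(38,10,3),(58,5,2),(13,5,2)] []))) (S 9 (L 29 1) (L 12 1))))))) (P 19 (B02 (A12 (B01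
  (A13 (S 9 (L 29 1) (L 12 1)) (S 9 (L 29 1) (L 1 1))) (A13 (P 13 (K [(40,7,5),(58,10,3)] [])) (S 9
  (L 29 1) (L 12 1)))) (S 9 (L 29 1) (L 1 1))) (A12 (A13 (P 13 (K [(40,7,3),(58,5,2),(58,10,3)]
  [])) (S 9 (L 29 1) (L 12 1))) (S 9 (L 29 1) (L 12 1)))))) (A13 (B02 (A01 (B01 (A02 (A03 (B02 (S 9
  (L 29 1) (L 1 1)) (A01 (A02 (A03 (M 18 (L 38 10)) (S 9 (L 29 1) (L 12 1))) (S 9 (L 29 1) (L 12
  1))) (S 9 (L 29 1) (L 12 1)))) (S 9 (L 29 1) (L 1 1))) (S 9 (L 29 1) (L 1 1))) (A02 (A03 (M 18 (P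
  9 (B12 (P 19 (S 13 (L 40 11) (K [(13,11,2),(38,10,2),(58,5,2),(38,4,2)] []))) (A01 (A02 (A03 (B02
  (P 19 (K [(29,1,2),(58,5,2),(58,10,4)] [])) (P 16 (L 49 4))) (P 19 (K
  [(29,1,2),(58,5,2),(58,10,4)] []))) (P 19 (K [(38,10,2),(58,5,2),(58,10,4)] []))) (P 19 (K
  [(38,10,2),(58,10,4),(58,5,2)] [])))))) (P 19 (B12 (S 13 (L 40 11) (L 59 11)) (A13 (M 18 (K
  [(38,10,3),(58,10,5)] [])) (S 9 (L 29 1) (L 12 1)))))) (P 19 (A12 (B12 (A13 (S 13 (K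
  [(40,7,3),(40,11,2),(58,10,4)] []) (L 59 11)) (B01 (S 9 (L 29 1) (L 12 1)) (M 18 (K
  [(38,10,4),(58,10,4)] [])))) (A13 (M 18 (K [(38,10,3),(58,10,5)] [])) (S 9 (L 29 1) (L 12 1))))
  (B12 (A23 (S 9 (L 29 1) (L 12 1)) (B01 (S 9 (L 29 1) (L 12 1)) (M 18 (K [(38,10,5),(58,10,3)]
  [])))) (S 9 (L 29 1) (L 12 1))))))) (P 19 (B01 (A12 (L 58 10) (S 9 (L 29 1) (L 1 1))) (A12 (L 58
  10) (A02 (B12 (P 13 (K [(58,10,4),(40,7,3),(40,11,2)] [])) (A03 (M 18 (K [(38,10,2),(58,10,6)]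
  [])) (S 9 (L 29 1) (L 12 1)))) (B12 (P 13 (K [(40,7,4),(58,10,3),(40,11,2)] [])) (S 9 (L 29 1) (L
  12 1)))))))) (A01 (A02 (A03 (M 18 (B12 (B01 (A01 (P 16 (L 49 4)) (P 19 (M 10 (K
  [(2,8,9),(38,10,3),(58,10,11)] [])))) (A01 (A02 (A03 (S 10 (L 31 8) (L 2 8)) (P 19 (K
  [(58,5,4),(58,10,4)] []))) (P 19 (K [(58,5,6),(58,10,2)] []))) (P 19 (S 13 (K
  [(40,11,4),(58,5,2),(58,10,3)] []) (K [(13,11,2),(58,5,2),(38,10,2),(38,4,2)] []))))) (B02 (A01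
  (P 16 (L 49 4)) (P 19 (K [(58,5,4),(38,10,1),(38,4,3)] []))) (S 10 (L 31 8) (L 2 8))))) (B12 (P
  19 (B01 (A13 (P 9 (K [(58,5,9),(29,1,3),(58,10,11)] [])) (B02 (S 9 (L 29 1) (L 12 1)) (P 9 (K
  [(58,5,9),(29,1,4),(58,10,11)] [])))) (M 18 (S 13 (K [(40,11,4),(58,5,2),(58,10,3)] []) (K
  [(13,11,2),(58,5,3),(38,10,2),(38,4,2)] []))))) (B02 (P 19 (A13 (M 18 (K
  [(58,5,4),(38,10,1),(38,4,3)] [])) (S 13 (L 40 7) (L 13 7)))) (S 10 (L 31 8) (L 2 8))))) (A12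
  (B12 (P 19 (B01 (A13 (M 18 (K [(38,10,3),(58,5,10),(58,10,11)] [])) (B02 (S 9 (L 29 1) (L 12 1))
  (M 18 (K [(38,10,2),(58,5,3),(58,10,3)] [])))) (P 9 (S 13 (K
  [(40,7,6),(40,11,5),(58,5,4),(58,10,8)] []) (K [(13,11,4),(29,1,1),(58,5,2)] []))))) (B02 (P 19
  (A13 (M 18 (K [(58,5,4),(38,10,1),(38,4,2)] [])) (S 13 (L 40 7) (L 13 7)))) (S 10 (L 31 8) (L 2
  8)))) (B12 (P 19 (B01 (A23 (S 9 (L 29 1) (L 12 1)) (B02 (S 9 (L 29 1) (L 12 1)) (M 18 (K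
  [(38,10,2),(58,5,3),(58,10,3)] [])))) (M 18 (K [(38,10,3),(58,5,2),(58,10,3)] [])))) (B02 (S 13
  (L 40 7) (L 13 7)) (S 10 (L 31 8) (L 2 8)))))) (P 19 (A12 (A13 (S 13 (K
  [(40,7,2),(58,10,4),(58,5,2)] []) (L 13 5)) (B12 (B01 (A03 (P 9 (K
  [(29,1,9),(58,10,29),(58,5,26)] [])) (B02 (S 9 (L 29 1) (L 12 1)) (P 9 (K
  [(29,1,3),(58,10,11),(58,5,10)] [])))) (S 13 (K [(58,10,10),(40,11,2),(40,7,7),(58,5,5)] []) (L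
  13 11))) (B02 (A03 (P 9 (K [(29,1,1),(58,5,4),(58,10,3)] [])) (B01 (S 9 (L 29 1) (L 12 1)) (P 9
  (K [(29,1,1),(58,5,4),(58,10,3)] [])))) (L 58 5)))) (A02 (B12 (B01 (A03 (P 9 (K
  [(29,1,4),(58,5,10),(58,10,10)] [])) (B02 (S 9 (L 29 1) (L 12 1)) (P 9 (K
  [(29,1,2),(58,5,3),(58,10,3)] [])))) (S 13 (K [(40,7,7),(40,11,3),(58,10,9),(58,5,5)] []) (L 13
  11))) (B02 (A03 (M 18 (P 9 (K [(29,1,2),(58,5,4),(38,4,2)] []))) (S 13 (L 40 7) (L 13 7))) (L 58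
  5))) (B12 (B01 (A23 (S 9 (L 29 1) (L 12 1)) (B02 (S 9 (L 29 1) (L 12 1)) (M 18 (K
  [(38,10,2),(58,5,3),(58,10,3)] [])))) (M 18 (K [(38,10,3),(58,5,2),(58,10,3)] []))) (S 13 (L 40
  7) (L 13 7)))))))) (B02 (A03 (B01 (A02 (A01 (P 16 (L 49 4)) (S 9 (L 29 1) (L 1 1))) (S 9 (L 29 1)
  (L 1 1))) (A02 (A01 (B12 (P 19 (A03 (P 9 (K [(29,1,12),(58,5,27),(58,10,25)] [])) (B01 (S 9 (L 29
  1) (L 1 1)) (P 9 (K [(29,1,12),(58,5,27),(58,10,25)] []))))) (P 16 (L 49 4))) (P 19 (B12 (A13 (S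
  13 (L 40 11) (L 59 11)) (B01 (S 9 (L 29 1) (L 1 1)) (M 18 (K [(38,10,38),(58,10,79),(58,5,83)]
  [])))) (S 9 (L 29 1) (L 1 1))))) (P 19 (A23 (B12 (A12 (B01 (S 9 (L 29 1) (L 12 1)) (M 18 (K
  [(38,10,5),(58,10,3)] []))) (S 9 (L 29 1) (L 12 1))) (S 9 (L 29 1) (L 12 1))) (B12 (A13 (B01 (S 9
  (L 29 1) (L 12 1)) (M 18 (K [(38,10,5),(58,10,3)] []))) (B01 (S 9 (L 29 1) (L 1 1)) (M 18 (K
  [(38,10,3),(58,5,2),(58,10,3)] [])))) (S 9 (L 29 1) (L 1 1))))))) (P 19 (M 10 (B01 (P 18 (L 55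
  10)) (A23 (A02 (B12 (A01 (P 16 (K [(49,4,3),(2,1,3),(49,2,1),(58,5,1)] [])) (B01 (S 9 (L 29 1) (L
  1 1)) (A13 (A12 (L 58 10) (B12 (S 13 (L 40 11) (L 13 11)) (S 9 (L 29 1) (L 12 1)))) (A03 (B12 (S
  13 (L 40 11) (L 13 11)) (S 9 (L 29 1) (L 12 1))) (S 9 (L 29 1) (L 12 1)))))) (S 9 (L 29 1) (L 1
  1))) (B12 (A12 (B01 (S 9 (L 29 1) (L 1 1)) (A13 (A01 (S 9 (L 29 1) (L 12 1)) (L 58 10)) (S 9 (L
  29 1) (L 12 1)))) (S 9 (L 29 1) (L 1 1))) (S 9 (L 29 1) (L 1 1)))) (A13 (B12 (A01 (P 16 (K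
  [(58,10,3),(49,4,3),(49,2,1),(58,5,1)] [])) (B01 (S 9 (L 29 1) (L 1 1)) (A12 (L 58 10) (A02 (L 58
  10) (S 9 (L 29 1) (L 1 1)))))) (S 9 (L 29 1) (L 1 1))) (P 16 (K [(49,4,5),(49,2,2)] []))))))))
  (A03 (A02 (A01 (B12 (B01 (P 16 (L 49 4)) (A03 (A02 (A01 (S 10 (L 31 8) (L 2 8)) (B12 (P 19 (K
  [(58,5,4),(58,10,4)] [])) (P 16 (L 49 4)))) (A23 (P 19 (K [(58,5,6),(58,10,2)] [])) (B12 (P 19 (K
  [(58,5,4),(58,10,4)] [])) (P 16 (L 49 4))))) (A23 (A02 (B12 (P 19 (K [(58,5,5),(58,10,3)] [])) (P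
  16 (L 49 4))) (P 19 (K [(58,5,6),(58,10,2)] []))) (A13 (B12 (P 19 (K [(58,5,5),(58,10,3)] [])) (P
  16 (L 49 4))) (S 10 (L 31 8) (L 2 8)))))) (P 16 (L 49 4))) (B12 (P 19 (B01 (A13 (B02 (S 9 (L 29
  1) (L 12 1)) (P 9 (K [(29,1,1),(58,5,3),(58,10,3)] []))) (P 16 (L 49 4))) (M 18 (P 9 (S 13 (L 40
  11) (K [(58,5,3),(29,1,2),(13,11,2),(38,4,2)] [])))))) (P 16 (L 49 4)))) (A23 (B12 (P 19 (B01
  (A12 (B02 (S 9 (L 29 1) (L 12 1)) (M 18 (K [(38,10,1),(58,5,3),(58,10,3)] []))) (S 9 (L 29 1) (L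
  12 1))) (M 18 (K [(38,10,3),(58,5,2),(58,10,3)] [])))) (P 16 (L 49 4))) (B12 (P 19 (B01 (A13 (B02
  (S 9 (L 29 1) (L 12 1)) (P 9 (K [(29,1,1),(58,5,3),(58,10,3)] []))) (P 16 (L 49 4))) (M 18 (K
  [(38,10,3),(58,5,2),(58,10,3)] [])))) (P 16 (L 49 4))))) (A23 (A02 (B12 (P 19 (B01 (A01 (P 16 (L
  49 4)) (B02 (S 9 (L 29 1) (L 1 1)) (A13 (A12 (K [(58,5,10),(58,10,14)] []) (P 16 (L 49 4))) (P 16
  (L 49 4))))) (A01 (P 16 (K [(49,4,3),(58,5,1),(58,10,3),(49,2,1)] [])) (A13 (A12 (K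
  [(58,10,14),(58,5,10)] []) (B12 (B01 (S 13 (L 40 11) (L 13 7)) (S 13 (L 40 11) (L 59 11))) (P 16
  (L 49 4)))) (A03 (B12 (B01 (P 16 (L 49 4)) (S 13 (L 40 11) (L 59 11))) (P 16 (L 49 4))) (S 9 (L
  29 1) (L 12 1))))))) (P 16 (L 49 4))) (P 19 (B12 (B01 (A12 (B02 (S 9 (L 29 1) (L 1 1)) (A13 (A01
  (S 9 (L 29 1) (L 12 1)) (B12 (S 9 (L 29 1) (L 12 1)) (S 13 (L 40 7) (L 13 7)))) (S 9 (L 29 1) (L
  12 1)))) (S 9 (L 29 1) (L 1 1))) (A12 (A13 (A01 (S 9 (L 29 1) (L 12 1)) (B12 (S 13 (L 40 11) (L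
  59 11)) (B02 (A12 (K [(58,10,5),(58,5,3)] []) (S 9 (L 29 1) (L 12 1))) (M 18 (K
  [(38,10,2),(58,5,2),(58,10,4)] []))))) (S 9 (L 29 1) (L 12 1))) (S 9 (L 29 1) (L 12 1)))) (P 16
  (L 49 4))))) (A13 (B12 (P 19 (B01 (A01 (P 16 (L 49 4)) (B02 (S 9 (L 29 1) (L 1 1)) (A12 (K
  [(58,10,14),(58,5,10)] []) (P 16 (L 49 4))))) (A01 (P 16 (K
  [(49,4,3),(58,5,1),(58,10,3),(49,2,1)] [])) (A12 (K [(58,10,14),(58,5,10)] []) (A02 (K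
  [(58,10,14),(58,5,10)] []) (S 9 (L 29 1) (L 1 1))))))) (P 16 (L 49 4))) (P 16 (K
  [(49,4,6),(49,2,2)] [])))))))) (A23 (A02 (B12 (A01 (B01 (A03 (A02 (S 13 (L 40 11) (L 13 11)) (P
  13 (K [(40,7,3),(40,11,5)] []))) (P 13 (K [(40,7,3),(40,11,5)] []))) (S 10 (L 31 8) (L 2 8))) (P
  19 (M 16 (P 13 (M 10 (B01 (A13 (A12 (B02 (A01 (B01 (A03 (A02 (K
  [(8,2,12),(2,1,23),(58,5,13),(40,7,16)] []) (B02 (A12 (K [(58,10,10),(40,11,3),(40,7,5),(58,5,6)]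
  []) (B01 (K [(40,7,5),(58,10,2),(40,11,1)] []) (A23 (A02 (B12 (A01 (K
  [(40,7,20),(58,5,11),(40,11,14),(58,10,18)] []) (B01 (K [(40,7,8),(58,10,8),(58,5,4),(40,11,4)]
  []) (A13 (A12 (B12 (A01 (K [(8,2,39),(40,7,60),(58,10,62),(58,5,39)] []) (K
  [(58,10,313),(40,7,301),(40,11,185),(58,5,201)] [])) (K
  [(40,7,60),(58,10,68),(58,5,42),(40,11,30)] [])) (K [(40,7,21),(58,5,11),(40,11,14),(58,10,18)]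
  [])) (K [(40,7,20),(58,5,12),(40,11,15),(58,10,18)] [])))) (K
  [(40,7,19),(58,5,14),(58,10,23),(40,11,7)] [])) (K [(40,7,30),(58,10,18),(40,11,15)] [])) (A13
  (B12 (A01 (K [(40,11,13),(40,7,19),(58,5,12),(58,10,20)] []) (K
  [(58,10,21),(40,11,12),(40,7,19),(58,5,13)] [])) (K [(40,7,58),(2,1,74),(58,5,45),(40,11,24)]
  [])) (K [(40,11,5),(40,7,7),(58,5,4),(58,10,7)] []))))) (A12 (K [(58,5,4),(58,10,4)] []) (A23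
  (A02 (B12 (B01 (K [(58,5,3),(40,7,2),(58,10,3)] []) (A01 (L 58 5) (A13 (A12 (K
  [(58,5,49),(40,7,54),(40,11,33),(58,10,64)] []) (L 58 5)) (L 58 5)))) (L 40 7)) (B12 (B01 (L 40
  7) (A12 (A13 (A01 (L 58 5) (K [(58,5,204),(40,7,304),(40,11,178),(58,10,313)] [])) (L 58 5)) (L
  40 7))) (L 40 7))) (A13 (B12 (B01 (K [(2,8,4),(40,7,1),(58,10,3)] []) (K
  [(58,5,47),(40,11,34),(40,7,54),(58,10,64)] [])) (K [(58,5,2),(40,7,6)] [])) (K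
  [(58,5,5),(40,11,1),(58,10,2)] [])))))) (A13 (B02 (A12 (K [(58,10,13),(8,2,1),(40,7,1),(58,5,9)]
  []) (B01 (K [(58,10,3),(40,7,3),(40,11,1),(58,5,1)] []) (A02 (A01 (K
  [(58,10,7),(8,2,5),(40,7,8),(58,5,4)] []) (B12 (K [(58,10,64),(40,11,41),(40,7,67),(58,5,28)] [])
  (K [(58,10,8),(40,7,7),(40,11,3),(58,5,5)] []))) (K [(40,7,29),(58,10,20),(40,11,15)] [])))) (A12
  (K [(58,5,3),(58,10,5)] []) (A02 (A01 (K [(2,8,5),(40,7,7),(40,11,5),(58,10,7)] []) (K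
  [(58,5,220),(8,4,282),(40,11,173),(58,10,325)] [])) (A23 (B12 (B01 (L 40 7) (A12 (K
  [(40,7,306),(58,5,203),(40,11,179),(58,10,312)] []) (L 40 7))) (L 40 7)) (K
  [(58,5,42),(40,7,59),(40,11,35),(58,10,64)] []))))) (B02 (K [(40,7,11),(58,10,6),(40,11,7)] [])
  (A23 (A02 (K [(2,8,5),(40,7,7),(40,11,5),(58,10,7)] []) (A12 (K
  [(40,7,7),(58,5,5),(40,11,5),(58,10,7)] []) (L 40 7))) (K [(40,7,7),(2,8,5),(40,11,5),(58,10,7)]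
  []))))) (A03 (A02 (K [(58,5,3),(40,11,4),(58,10,1)] []) (B12 (A12 (L 40 11) (B01 (A23 (A02 (K
  [(58,5,2),(40,11,6)] []) (B02 (A12 (K [(2,8,191),(8,4,300),(40,11,234),(58,10,274)] []) (L 58 5))
  (L 58 5))) (L 40 11)) (L 58 5))) (A12 (K [(58,5,3),(40,11,1),(58,10,4)] []) (A23 (A02 (K
  [(58,5,3),(40,11,5),(58,10,1)] []) (B02 (B01 (A12 (A13 (A01 (L 58 5) (K
  [(58,5,14),(8,4,19),(40,11,12),(58,10,20)] [])) (L 58 5)) (L 58 5)) (L 58 5)) (L 58 5))) (K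
  [(58,5,8),(40,11,11),(58,10,5)] []))))) (A13 (B12 (A12 (L 40 11) (B01 (A02 (L 40 11) (A23 (B02
  (A12 (K [(2,8,41),(40,7,59),(40,11,41),(58,10,59)] []) (L 40 7)) (L 58 5)) (K
  [(58,5,1),(40,11,17),(40,7,6)] []))) (L 58 5))) (A12 (K [(58,5,3),(58,10,5)] []) (A02 (K
  [(58,5,8),(40,11,11),(58,10,5)] []) (A23 (B02 (B01 (A12 (K
  [(58,5,211),(40,7,294),(40,11,192),(58,10,303)] []) (L 40 7)) (L 58 5)) (L 58 5)) (K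
  [(58,5,45),(8,4,54),(40,11,39),(58,10,61)] []))))) (K [(58,5,4),(40,7,7),(40,11,13)] [])))) (B01
  (A13 (A12 (K [(58,10,5),(58,5,3)] []) (B02 (A02 (L 58 10) (K [(58,10,4),(40,7,4)] [])) (A02 (K
  [(58,10,5),(58,5,3)] []) (K [(40,7,3),(58,5,2),(58,10,4)] [])))) (A03 (B02 (A02 (L 58 10) (K
  [(58,10,4),(40,7,4)] [])) (A02 (K [(58,10,5),(58,5,3)] []) (A12 (K [(58,10,12),(40,7,4),(58,5,8)]
  []) (A23 (K [(40,7,3),(58,5,2),(58,10,4)] []) (K [(58,5,45),(40,7,57),(58,10,71),(40,11,28)]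
  []))))) (B02 (K [(40,7,11),(58,10,7),(40,11,6)] []) (A23 (A12 (K
  [(40,7,18),(58,5,15),(58,10,22),(40,11,10)] []) (A02 (K
  [(40,7,19),(58,5,14),(58,10,22),(40,11,9)] []) (L 40 7))) (K
  [(8,4,18),(58,5,15),(58,10,21),(40,11,10)] []))))) (A13 (A12 (K [(58,10,5),(58,5,3)] []) (B12
  (A02 (K [(40,11,2),(58,5,3),(58,10,4)] []) (B01 (A23 (A12 (K
  [(58,5,17),(40,7,16),(40,11,9),(58,10,23)] []) (B02 (A02 (K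
  [(58,5,14),(40,7,19),(40,11,12),(58,10,20)] []) (L 40 7)) (L 58 5))) (K
  [(58,5,17),(58,10,23),(8,2,8),(40,7,16)] [])) (K [(58,5,3),(40,11,5)] []))) (A02 (K
  [(58,5,3),(58,10,5)] []) (A23 (A12 (K [(58,5,3),(40,7,2),(58,10,4)] []) (B02 (B01 (A02 (K
  [(58,5,59),(40,7,54),(58,10,87)] []) (L 40 7)) (L 58 5)) (L 58 5))) (K
  [(58,5,3),(40,7,2),(58,10,4)] []))))) (A03 (B12 (A02 (L 40 11) (B01 (A12 (K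
  [(58,5,17),(8,2,8),(58,10,23),(40,7,16)] []) (A23 (B02 (A02 (K
  [(58,5,14),(40,7,19),(40,11,12),(58,10,20)] []) (L 40 7)) (L 58 5)) (K
  [(58,5,5),(8,2,5),(40,7,7),(58,10,7)] []))) (K [(58,5,3),(40,11,5)] []))) (A02 (K
  [(58,5,3),(58,10,5)] []) (A12 (K [(58,5,8),(40,7,4),(58,10,11)] []) (A23 (B02 (B01 (A02 (K
  [(58,5,47),(40,7,58),(40,11,28),(58,10,68)] []) (L 40 7)) (L 58 5)) (L 58 5)) (K
  [(58,5,46),(40,7,55),(40,11,34),(58,10,65)] []))))) (B12 (A23 (B01 (A12 (K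
  [(58,5,13),(40,11,16),(40,7,18),(58,10,17)] []) (K [(58,5,4),(40,7,8),(40,11,8),(58,10,5)] []))
  (K [(58,5,3),(40,11,5)] [])) (K [(58,5,41),(40,11,54),(40,7,53),(58,10,52)] [])) (A23 (A12 (K
  [(58,5,248),(40,7,260),(40,11,175),(58,10,317)] []) (A02 (K
  [(58,5,15),(40,7,18),(40,11,12),(58,10,20)] []) (L 40 7))) (K
  [(58,5,248),(40,7,260),(40,11,175),(58,10,317)] []))))))) (K [(58,5,5),(58,10,3)] [])) (K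
  [(40,7,11),(40,11,12)] [])) (K [(40,7,3),(40,11,4)] [])) (K [(2,8,3),(40,11,4)] []))))))) (A01
  (A03 (A02 (B02 (B01 (A01 (S 10 (L 31 8) (L 2 8)) (P 19 (S 13 (K [(58,5,2),(40,11,6)] []) (K
  [(13,11,3),(58,5,3),(13,7,2)] [])))) (S 10 (L 31 8) (L 2 8))) (S 10 (L 31 8) (L 2 8))) (B02 (P 19
  (M 10 (S 13 (K [(58,5,1),(40,7,3),(40,11,5)] []) (K [(2,8,3),(13,11,3),(13,7,2)] [])))) (S 10 (L
  31 8) (L 2 8)))) (A13 (B02 (P 19 (S 13 (K [(58,5,1),(40,7,3),(40,11,5)] []) (K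
  [(13,11,3),(58,5,3),(13,7,2)] []))) (S 10 (L 31 8) (L 2 8))) (S 13 (L 40 7) (L 13 7)))) (P 19 (M
  10 (A13 (A12 (B02 (M 16 (P 13 (B01 (A01 (A03 (A02 (K [(58,5,16),(58,10,27),(8,2,5),(40,7,16)] [])
  (K [(58,5,16),(40,7,19),(58,10,29)] [])) (K [(40,7,19),(58,5,17),(58,10,29)] [])) (K
  [(40,7,62),(58,10,89),(58,5,49)] [])) (K [(58,5,5),(58,10,3)] [])))) (K [(58,5,5),(58,10,3)] []))
  (S 13 (K [(58,5,176),(40,7,341),(40,11,249),(58,10,234)] []) (K [(59,7,3),(58,5,5)] []))) (S 13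
  (K [(2,8,1),(40,7,3),(40,11,3),(58,10,1)] []) (K [(59,7,3),(58,5,4),(13,7,1)] []))))))) (P 19 (M
  10 (B12 (P 13 (A12 (B01 (A13 (A01 (K [(40,7,5),(58,5,1),(40,11,3)] []) (B02 (A12 (B01 (K
  [(40,7,3),(58,10,3),(58,5,1)] []) (A13 (A01 (K [(2,8,15),(40,7,19),(58,10,19),(40,11,11)] []) (K
  [(58,10,4),(58,5,3),(40,7,1)] [])) (K [(2,8,239),(40,7,289),(40,11,176),(58,10,295)] []))) (K
  [(40,7,5),(58,5,2),(40,11,1)] [])) (K [(58,5,16),(58,10,8)] []))) (K [(40,7,4),(40,11,4)] [])) (K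
  [(58,5,5),(40,11,3)] [])) (L 40 7))) (A12 (A13 (P 13 (A01 (L 40 7) (K
  [(58,5,2),(40,7,3),(58,10,3)] []))) (S 13 (L 40 7) (L 13 7))) (S 13 (L 40 7) (L 13 7))))))) (A13
  (B12 (A01 (B01 (A02 (S 13 (L 40 11) (L 13 11)) (P 13 (K [(40,11,6),(40,7,1)] []))) (S 10 (L 31 8)
  (L 2 8))) (P 19 (P 13 (M 10 (B01 (A12 (A13 (B02 (A01 (B01 (A02 (K [(58,10,2),(40,11,5),(58,5,1)]
  []) (K [(2,1,76),(40,11,28),(58,5,49),(40,7,47)] [])) (K [(40,11,5),(58,5,2),(40,7,1)] [])) (B01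
  (K [(58,10,28),(40,11,4),(40,7,13),(58,5,19)] []) (K [(2,1,23),(40,11,11),(58,5,19),(40,7,11)]
  []))) (K [(58,5,5),(58,10,3)] [])) (B02 (K [(40,11,236),(2,1,307),(58,5,213),(40,7,244)] []) (K
  [(58,5,5),(40,11,1),(58,10,2)] []))) (K [(40,11,4),(40,7,3)] [])) (K
  [(2,8,3),(40,11,3),(58,10,1)] [])))))) (A01 (A02 (A03 (B02 (B01 (A01 (A02 (A03 (S 10 (L 31 8) (L
  2 8)) (P 19 (K [(58,5,4),(58,10,4)] []))) (P 19 (K [(58,5,6),(58,10,2)] []))) (P 19 (S 13 (K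
  [(58,5,2),(40,11,6)] []) (K [(13,11,4),(58,5,4)] [])))) (S 10 (L 31 8) (L 2 8))) (S 10 (L 31 8)
  (L 2 8))) (B02 (P 19 (S 13 (K [(58,5,2),(40,11,6)] []) (K [(13,11,3),(58,5,5)] []))) (S 10 (L 31
  8) (L 2 8)))) (A12 (B02 (P 19 (S 13 (K [(58,5,2),(40,11,6),(40,7,1)] []) (K [(13,11,3),(58,5,5)]
  []))) (S 10 (L 31 8) (L 2 8))) (B02 (P 19 (S 13 (K [(40,7,3),(40,11,5)] []) (K
  [(13,11,3),(58,5,5)] []))) (S 10 (L 31 8) (L 2 8))))) (P 19 (M 10 (A12 (A13 (B02 (M 16 (P 13 (B01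
  (A01 (A02 (K [(2,1,3),(58,5,2),(8,2,1),(40,7,1)] []) (K
  [(58,10,28),(58,5,19),(40,7,13),(40,11,3)] [])) (K [(58,10,30),(40,7,15),(58,5,19)] [])) (K
  [(58,5,5),(58,10,3)] [])))) (K [(58,5,5),(58,10,3)] [])) (B02 (B01 (S 13 (K
  [(40,11,36),(2,1,70),(58,5,44),(40,7,50)] []) (L 13 11)) (L 58 5)) (L 58 5))) (S 13 (K
  [(58,5,1),(40,7,3),(40,11,3),(58,10,1)] []) (K [(58,5,5),(13,11,3)] []))))))) (B12 (A03 (B01 (A02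
  (A01 (B02 (S 13 (L 40 11) (L 13 11)) (S 10 (L 31 8) (L 2 8))) (B02 (S 13 (L 40 11) (L 13 11)) (S
  10 (L 31 8) (L 2 8)))) (A23 (S 13 (K [(40,11,5),(40,7,2)] []) (L 13 11)) (B02 (S 13 (L 40 11) (L
  13 11)) (S 10 (L 31 8) (L 2 8))))) (S 10 (L 31 8) (L 2 8))) (B01 (A23 (A02 (B02 (S 13 (L 40 11)
  (L 13 11)) (S 10 (L 31 8) (L 2 8))) (S 13 (K [(40,11,5),(40,7,2)] []) (L 13 11))) (A13 (B02 (S 13
  (L 40 11) (L 13 11)) (S 10 (L 31 8) (L 2 8))) (B02 (P 19 (A03 (M 18 (K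
  [(58,5,31),(58,10,24),(38,10,9)] [])) (B01 (P 16 (K [(49,2,1),(58,5,2),(49,4,3),(58,10,3)] []))
  (K [(58,5,5),(58,10,3)] [])))) (S 10 (L 31 8) (L 2 8))))) (S 10 (L 31 8) (L 2 8)))) (A03 (A02
  (A01 (B02 (B01 (A03 (A02 (A01 (S 10 (L 31 8) (L 2 8)) (B02 (B01 (P 19 (K [(58,5,4),(58,10,4)]
  [])) (S 10 (L 31 8) (L 2 8))) (S 10 (L 31 8) (L 2 8)))) (A23 (P 19 (K [(58,5,6),(58,10,2)] []))
  (B02 (B01 (P 19 (K [(58,5,4),(58,10,4)] [])) (S 10 (L 31 8) (L 2 8))) (S 10 (L 31 8) (L 2 8)))))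
  (A23 (A02 (B02 (B01 (P 19 (K [(58,5,5),(58,10,3)] [])) (S 10 (L 31 8) (L 2 8))) (S 10 (L 31 8) (L
  2 8))) (P 19 (K [(58,5,6),(58,10,2)] []))) (A13 (B02 (B01 (P 19 (K [(58,5,5),(58,10,3)] [])) (S
  10 (L 31 8) (L 2 8))) (S 10 (L 31 8) (L 2 8))) (S 10 (L 31 8) (L 2 8))))) (S 10 (L 31 8) (L 2
  8))) (S 10 (L 31 8) (L 2 8))) (B02 (B01 (P 19 (S 13 (L 40 11) (K [(58,5,5),(13,11,3)] []))) (S 10
  (L 31 8) (L 2 8))) (S 10 (L 31 8) (L 2 8)))) (A23 (B02 (P 19 (S 13 (K [(40,7,2),(40,11,5)] []) (K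
  [(58,5,5),(13,11,3)] []))) (S 10 (L 31 8) (L 2 8))) (B02 (B01 (P 19 (S 13 (L 40 11) (K
  [(58,5,5),(13,11,3)] []))) (S 10 (L 31 8) (L 2 8))) (S 10 (L 31 8) (L 2 8))))) (A23 (M 18 (A02
  (B02 (B01 (P 19 (K [(58,5,26),(38,10,10),(58,10,28)] [])) (S 10 (L 31 8) (L 2 8))) (S 10 (L 31 8)
  (L 2 8))) (P 19 (S 13 (K [(40,7,2),(58,5,1),(40,11,5)] []) (K [(58,5,4),(38,10,1),(13,11,3)]
  []))))) (A13 (M 18 (B02 (B01 (P 19 (K [(58,5,10),(38,10,3),(58,10,11)] [])) (S 10 (L 31 8) (L 2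
  8))) (S 10 (L 31 8) (L 2 8)))) (P 16 (K [(49,4,16),(49,2,8)] [])))))))))))))) (M 15 (P 12 (A03 (P
  4 (M 3 (A02 (A01 (B02 (B01 (A03 (S 13 (L 40 7) (L 13 7)) (A23 (S 13 (L 40 7) (L 13 7)) (A13 (S 13
  (L 40 7) (L 13 7)) (P 16 (L 49 4))))) (A03 (S 10 (L 31 8) (L 2 8)) (B12 (S 10 (L 31 8) (L 2 8))
  (A23 (S 10 (L 31 8) (L 2 8)) (A13 (S 10 (L 31 8) (L 2 8)) (P 16 (L 49 4))))))) (B12 (A03 (S 10 (L
  31 8) (L 2 8)) (B01 (A23 (S 10 (L 31 8) (L 2 8)) (P 16 (L 49 4))) (S 10 (L 31 8) (L 2 8)))) (P 16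
  (L 49 4)))) (B02 (B01 (A13 (A12 (A01 (B02 (S 13 (L 40 7) (L 13 5)) (S 13 (L 40 7) (L 13 7))) (S 9
  (L 29 1) (L 12 1))) (A23 (S 13 (L 40 7) (L 13 7)) (B02 (B01 (S 9 (L 29 1) (L 12 1)) (S 13 (L 40
  7) (L 13 7))) (S 13 (L 40 7) (L 13 7))))) (A23 (A12 (B02 (B01 (S 9 (L 29 1) (L 12 1)) (S 13 (L 40
  7) (L 13 7))) (B12 (S 13 (L 40 7) (L 13 7)) (A01 (M 18 (L 38 10)) (P 16 (L 49 4))))) (S 13 (L 40
  7) (L 13 7))) (A03 (B02 (B01 (S 9 (L 29 1) (L 12 1)) (S 13 (L 40 7) (L 13 7))) (B12 (S 13 (L 40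
  7) (L 13 7)) (A01 (M 18 (L 38 10)) (P 16 (L 49 4))))) (B02 (B01 (S 9 (L 29 1) (L 12 1)) (A13 (S 9
  (L 29 1) (L 12 1)) (P 16 (L 49 4)))) (B12 (A13 (S 9 (L 29 1) (L 12 1)) (P 16 (L 49 4))) (P 16 (L
  49 4))))))) (A13 (B12 (M 18 (A12 (A01 (S 13 (L 40 7) (L 13 7)) (P 19 (K
  [(58,5,3),(38,10,1),(58,10,3)] []))) (S 13 (L 40 7) (L 13 7)))) (A12 (A01 (S 13 (L 40 7) (L 13
  7)) (S 9 (L 29 1) (L 12 1))) (S 13 (L 40 7) (L 13 7)))) (B12 (S 13 (L 40 7) (L 13 7)) (A23 (A12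
  (B02 (S 13 (L 40 7) (L 13 7)) (A01 (S 10 (L 31 8) (L 2 8)) (P 16 (L 49 4)))) (S 10 (L 31 8) (L 2
  8))) (A03 (B02 (S 13 (L 40 7) (L 13 7)) (A01 (S 10 (L 31 8) (L 2 8)) (P 16 (L 49 4)))) (B02 (M 18
  (L 38 10)) (P 16 (L 49 4)))))))) (B12 (A13 (B01 (A12 (A01 (B02 (A03 (S 13 (L 40 7) (L 13 5)) (S 9
  (L 29 1) (L 12 1))) (S 10 (L 31 8) (L 2 8))) (B02 (S 9 (L 29 1) (L 12 1)) (M 18 (L 38 10)))) (A23
  (S 10 (L 31 8) (L 2 8)) (B02 (A03 (S 10 (L 31 8) (L 2 8)) (P 19 (L 58 5))) (S 10 (L 31 8) (L 2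
  8))))) (S 13 (L 40 7) (L 13 7))) (B01 (A23 (A12 (P 16 (L 49 4)) (S 10 (L 31 8) (L 2 8))) (P 16 (L
  49 4))) (S 10 (L 31 8) (L 2 8)))) (A13 (A12 (A01 (P 16 (L 49 4)) (B02 (B01 (S 9 (L 29 1) (L 12
  1)) (A13 (S 9 (L 29 1) (L 12 1)) (P 16 (L 49 4)))) (B12 (A13 (P 19 (L 58 5)) (P 16 (L 49 4))) (P
  16 (L 49 4))))) (P 16 (L 49 4))) (P 16 (L 49 4)))))) (A23 (B02 (B01 (S 9 (L 29 1) (L 12 1)) (A12
  (B12 (M 18 (A01 (S 10 (L 31 8) (L 2 8)) (P 19 (K [(38,10,5),(58,5,10),(58,10,9)] [])))) (S 9 (L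
  29 1) (L 12 1))) (B12 (M 18 (L 38 10)) (P 19 (L 58 5))))) (B12 (A12 (B01 (A01 (A02 (M 18 (L 38
  10)) (B02 (P 19 (L 58 5)) (M 18 (L 38 10)))) (A13 (S 9 (L 29 1) (L 12 1)) (B02 (P 19 (L 58 5)) (M
  18 (L 38 10))))) (S 13 (L 40 7) (L 13 7))) (B01 (A02 (A01 (M 18 (L 38 10)) (B02 (P 19 (L 58 5))
  (M 18 (L 38 10)))) (A23 (P 19 (L 58 5)) (B02 (P 19 (L 58 5)) (M 18 (L 38 10))))) (M 18 (L 38
  10)))) (A12 (A01 (A02 (M 18 (L 38 10)) (B02 (B01 (A23 (P 19 (L 58 5)) (M 18 (L 38 10))) (M 18 (L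
  38 10))) (M 18 (L 38 10)))) (A13 (B02 (S 9 (L 29 1) (L 12 1)) (B12 (P 19 (L 58 5)) (P 16 (L 49
  4)))) (B02 (B01 (A23 (P 19 (L 58 5)) (P 16 (L 49 4))) (M 18 (L 38 10))) (M 18 (L 38 10))))) (A02
  (A01 (M 18 (L 38 10)) (B02 (B01 (A13 (P 19 (L 58 5)) (M 18 (L 38 10))) (M 18 (L 38 10))) (M 18 (L
  38 10)))) (A23 (B02 (P 19 (L 58 5)) (M 18 (L 38 10))) (B02 (B01 (A13 (P 19 (L 58 5)) (M 18 (L 38
  10))) (M 18 (L 38 10))) (M 18 (L 38 10)))))))) (B02 (B01 (A13 (S 9 (L 29 1) (L 12 1)) (A03 (A01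
  (B02 (S 9 (L 29 1) (L 12 1)) (B12 (S 9 (L 29 1) (L 12 1)) (A02 (M 18 (L 38 10)) (P 16 (L 49
  4))))) (B02 (S 9 (L 29 1) (L 12 1)) (B12 (S 9 (L 29 1) (L 12 1)) (P 16 (L 49 4))))) (A23 (B02 (S
  9 (L 29 1) (L 12 1)) (B12 (S 9 (L 29 1) (L 12 1)) (P 16 (L 49 4)))) (B02 (B01 (S 9 (L 29 1) (L 12
  1)) (A13 (S 9 (L 29 1) (L 12 1)) (P 16 (L 49 4)))) (B12 (A13 (S 9 (L 29 1) (L 12 1)) (P 16 (L 49
  4))) (P 16 (L 49 4))))))) (A13 (B12 (M 18 (A01 (S 13 (L 40 7) (L 13 7)) (P 19 (K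
  [(58,5,27),(38,10,11),(58,10,26)] [])))) (S 9 (L 29 1) (L 12 1))) (B12 (S 13 (L 40 7) (L 13 7))
  (A03 (A01 (M 18 (L 38 10)) (B02 (M 18 (L 38 10)) (P 16 (L 49 4)))) (A23 (B02 (M 18 (L 38 10)) (P
  16 (L 49 4))) (B02 (M 18 (L 38 10)) (P 16 (L 49 4)))))))) (B12 (A13 (B01 (A01 (A03 (M 18 (L 38
  10)) (B02 (P 19 (L 58 5)) (M 18 (L 38 10)))) (A12 (B02 (S 9 (L 29 1) (L 12 1)) (M 18 (L 38 10)))
  (B02 (P 19 (L 58 5)) (M 18 (L 38 10))))) (S 13 (L 40 7) (L 13 7))) (B01 (A03 (A01 (M 18 (L 38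
  10)) (P 16 (L 49 4))) (P 16 (L 49 4))) (S 10 (L 31 8) (L 2 8)))) (A13 (A01 (P 16 (L 49 4)) (A12
  (B02 (B01 (S 9 (L 29 1) (L 12 1)) (A13 (S 9 (L 29 1) (L 12 1)) (P 16 (L 49 4)))) (B12 (A13 (P 19
  (L 58 5)) (P 16 (L 49 4))) (P 16 (L 49 4)))) (P 16 (L 49 4)))) (P 16 (L 49 4))))))))) (A23 (P 4
  (M 3 (A02 (B02 (B01 (A01 (A03 (A02 (B02 (B01 (S 9 (L 29 1) (L 1 1)) (A01 (P 16 (L 49 4)) (S 9 (L
  29 1) (L 1 1)))) (B12 (A01 (P 16 (L 49 4)) (S 9 (L 29 1) (L 1 1))) (P 16 (L 49 4)))) (S 9 (L 29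
  1) (L 1 1))) (S 9 (L 29 1) (L 1 1))) (S 9 (L 29 1) (L 1 1))) (A01 (B12 (A03 (S 13 (L 40 7) (L 13
  7)) (A13 (S 13 (L 40 7) (L 13 7)) (B01 (P 19 (L 58 5)) (A23 (M 18 (L 38 10)) (P 16 (L 49 4))))))
  (A03 (A02 (B02 (A01 (P 16 (L 49 4)) (A13 (M 18 (L 38 10)) (P 16 (L 49 4)))) (P 16 (L 49 4))) (B02
  (A12 (A13 (M 18 (L 38 10)) (A23 (M 18 (L 38 10)) (P 16 (L 49 4)))) (A23 (M 18 (L 38 10)) (A13 (M
  18 (L 38 10)) (P 16 (L 49 4))))) (P 16 (L 49 4)))) (S 9 (L 29 1) (L 1 1)))) (P 19 (B12 (A13 (M 18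
  (K [(58,5,27),(38,10,11),(58,10,26)] [])) (S 13 (L 40 7) (L 13 7))) (S 9 (L 29 1) (L 1 1))))))
  (B12 (A01 (B01 (P 16 (L 49 4)) (A03 (S 10 (L 31 8) (L 2 8)) (A13 (S 10 (L 31 8) (L 2 8)) (B12
  (A23 (M 18 (L 38 10)) (P 16 (L 49 4))) (P 16 (L 49 4)))))) (B01 (A13 (A12 (B02 (S 9 (L 29 1) (L
  12 1)) (A01 (A03 (M 18 (L 38 10)) (P 19 (L 58 5))) (S 9 (L 29 1) (L 12 1)))) (B02 (S 9 (L 29 1)
  (L 12 1)) (A02 (A03 (M 18 (L 38 10)) (A23 (M 18 (L 38 10)) (P 19 (L 58 5)))) (A23 (M 18 (L 38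
  10)) (A03 (M 18 (L 38 10)) (P 19 (L 58 5))))))) (P 16 (L 49 4))) (A13 (S 13 (L 40 7) (L 13 7))
  (A03 (S 10 (L 31 8) (L 2 8)) (B12 (P 19 (L 58 5)) (P 16 (L 49 4))))))) (A01 (P 16 (L 49 4)) (A13
  (A12 (B02 (B01 (S 9 (L 29 1) (L 12 1)) (A01 (P 16 (L 49 4)) (S 9 (L 29 1) (L 12 1)))) (B12 (A01
  (P 16 (L 49 4)) (P 19 (L 58 5))) (P 16 (L 49 4)))) (P 16 (L 49 4))) (P 16 (L 49 4)))))) (B02 (P
  19 (B01 (S 9 (L 29 1) (L 1 1)) (A12 (B12 (A13 (M 18 (K [(38,10,5),(58,5,10),(58,10,9)] [])) (S 9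
  (L 29 1) (L 12 1))) (S 9 (L 29 1) (L 1 1))) (L 58 5)))) (B12 (A12 (B01 (A13 (A01 (B02 (S 9 (L 29
  1) (L 12 1)) (A02 (A03 (M 18 (L 38 10)) (P 19 (L 58 5))) (P 19 (L 58 5)))) (S 9 (L 29 1) (L 12
  1))) (A23 (B02 (S 9 (L 29 1) (L 12 1)) (A02 (A01 (A03 (M 18 (L 38 10)) (P 19 (L 58 5))) (P 19 (L
  58 5))) (P 19 (L 58 5)))) (P 16 (L 49 4)))) (A13 (S 13 (L 40 7) (L 13 7)) (A23 (M 18 (L 38 10))
  (B12 (P 19 (L 58 5)) (P 16 (L 49 4)))))) (B01 (A23 (A02 (B02 (P 19 (L 58 5)) (M 18 (L 38 10))) (P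
  19 (L 58 5))) (A13 (B02 (P 19 (L 58 5)) (A01 (A02 (A03 (M 18 (L 38 10)) (P 19 (L 58 5))) (P 19 (L
  58 5))) (P 19 (L 58 5)))) (P 16 (L 49 4)))) (A23 (M 18 (L 38 10)) (A13 (M 18 (L 38 10)) (B12 (P
  19 (L 58 5)) (P 16 (L 49 4))))))) (A12 (A13 (A01 (B02 (B01 (A02 (P 16 (L 49 4)) (S 9 (L 29 1) (L
  12 1))) (A02 (P 16 (L 49 4)) (P 19 (L 58 5)))) (B12 (A02 (P 16 (L 49 4)) (P 19 (L 58 5))) (P 16
  (L 49 4)))) (S 9 (L 29 1) (L 12 1))) (A23 (B02 (B01 (A02 (P 16 (L 49 4)) (S 9 (L 29 1) (L 12 1)))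
  (A02 (P 16 (L 49 4)) (P 19 (L 58 5)))) (B12 (A02 (P 16 (L 49 4)) (P 19 (L 58 5))) (P 16 (L 49
  4)))) (P 16 (L 49 4)))) (A23 (A02 (B02 (B01 (A01 (P 16 (L 49 4)) (P 19 (L 58 5))) (A01 (P 16 (L
  49 4)) (P 19 (L 58 5)))) (B12 (A01 (P 16 (L 49 4)) (P 19 (L 58 5))) (P 16 (L 49 4)))) (B02 (P 19
  (L 58 5)) (B12 (P 19 (L 58 5)) (P 16 (L 49 4))))) (A13 (B02 (B01 (A01 (P 16 (L 49 4)) (P 19 (L 58
  5))) (A01 (P 16 (L 49 4)) (P 19 (L 58 5)))) (B12 (A01 (P 16 (L 49 4)) (P 19 (L 58 5))) (P 16 (L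
  49 4)))) (P 16 (L 49 4)))))))))) (A13 (P 4 (M 3 (B02 (B01 (A01 (A02 (A03 (B02 (B01 (S 9 (L 29 1)
  (L 1 1)) (A01 (P 16 (L 49 4)) (S 9 (L 29 1) (L 1 1)))) (B12 (A01 (P 16 (L 49 4)) (S 9 (L 29 1) (L
  1 1))) (P 16 (L 49 4)))) (S 9 (L 29 1) (L 1 1))) (S 9 (L 29 1) (L 1 1))) (S 9 (L 29 1) (L 1 1)))
  (A01 (B12 (A02 (A03 (S 13 (L 40 5) (L 13 7)) (B01 (S 13 (L 40 5) (L 13 7)) (P 16 (L 49 4)))) (A12
  (B01 (S 13 (L 40 7) (L 13 7)) (P 16 (L 49 4))) (P 16 (L 49 4)))) (A02 (A03 (B02 (A01 (P 16 (L 49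
  4)) (A12 (A13 (M 18 (L 38 10)) (P 16 (L 49 4))) (P 16 (L 49 4)))) (P 16 (L 49 4))) (S 9 (L 29 1)
  (L 1 1))) (S 9 (L 29 1) (L 1 1)))) (P 19 (B12 (A12 (A13 (P 9 (K [(29,1,3),(58,5,10),(58,10,11)]
  [])) (S 13 (L 40 7) (L 13 7))) (S 13 (L 40 7) (L 13 7))) (S 9 (L 29 1) (L 1 1)))))) (B12 (A01 (P
  16 (L 49 4)) (B01 (A12 (A13 (B02 (S 9 (L 29 1) (L 1 1)) (A01 (A02 (A03 (M 18 (L 38 10)) (P 19 (L
  58 5))) (P 19 (L 58 5))) (S 9 (L 29 1) (L 12 1)))) (P 16 (L 49 4))) (P 16 (L 49 4))) (A12 (A13 (S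
  13 (L 40 7) (L 13 7)) (B12 (P 19 (L 58 5)) (P 16 (L 49 4)))) (A02 (B12 (P 19 (L 58 5)) (P 16 (L
  49 4))) (P 19 (L 58 5)))))) (A01 (P 16 (L 49 4)) (A12 (A13 (B02 (B01 (S 9 (L 29 1) (L 1 1)) (A01
  (P 16 (L 49 4)) (S 9 (L 29 1) (L 1 1)))) (B12 (A01 (P 16 (L 49 4)) (P 19 (L 58 5))) (P 16 (L 49
  4)))) (P 16 (L 49 4))) (P 16 (L 49 4)))))))) (P 16 (B02 (B01 (A03 (M 3 (L 49 4)) (P 18 (L 55
  10))) (A03 (M 3 (L 49 4)) (B12 (M 3 (L 49 4)) (P 18 (L 55 10))))) (B12 (A03 (M 3 (L 49 4)) (B01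
  (A23 (M 3 (L 49 4)) (P 18 (L 55 10))) (M 3 (L 49 4)))) (A03 (A02 (A01 (B02 (M 3 (L 49 4)) (P 10
  (L 31 8))) (B02 (M 3 (L 49 4)) (B12 (M 3 (L 49 4)) (A13 (M 3 (L 49 4)) (A23 (M 3 (L 49 4)) (P 18
  (L 55 10))))))) (A23 (M 3 (L 49 4)) (B02 (M 3 (L 49 4)) (B12 (M 3 (L 49 4)) (A13 (M 3 (L 49 4))
  (A03 (M 3 (L 49 4)) (P 18 (L 55 10)))))))) (A23 (A02 (P 18 (L 55 10)) (B02 (M 3 (L 49 4)) (B12 (M
  3 (L 49 4)) (P 18 (L 55 10))))) (P 18 (L 55 10))))))))))))))) (M 15 (P 12 (B12 (P 4 (M 3 (A13 (P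
  19 (P 13 (M 10 (B01 (A12 (A01 (B02 (S 0 (L 2 1) (L 24 1)) (M 7 (K [(58,10,4),(40,7,2),(58,5,2)]
  []))) (out 4)) (A23 (B02 (A02 (B01 (S 9 (L 29 1) (L 12 1)) (A01 (M 7 (K [(58,10,4),(40,7,4)] []))
  (L 40 7))) (L 40 7)) (M 7 (K [(40,7,4),(58,5,1),(58,10,3)] []))) (B02 (S 0 (L 2 1) (L 24 1)) (M 7
  (K [(58,10,4),(40,7,2),(58,5,2)] []))))) (A12 (A01 (M 7 (B12 (A03 (B01 (K
  [(58,10,90),(40,7,30),(58,5,81)] []) (K [(58,10,10),(58,5,12),(40,7,1)] [])) (K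
  [(58,10,4),(58,5,4)] [])) (K [(58,10,90),(40,7,28),(58,5,82)] []))) (out 4)) (M 7 (A23 (B12 (A02
  (B01 (K [(40,7,53),(58,5,65),(58,10,82)] []) (K [(58,5,3),(40,7,1),(40,11,2),(58,10,1)] [])) (L
  40 7)) (A02 (K [(40,7,3),(58,5,2),(58,10,3)] []) (L 40 7))) (B12 (A03 (B01 (K
  [(58,10,90),(40,7,30),(58,5,81)] []) (K [(58,5,32),(40,11,1),(40,7,4),(58,10,27)] [])) (K
  [(58,10,11),(58,5,12),(40,7,1)] [])) (K [(40,7,28),(58,10,90),(58,5,82)] []))))))))) (B01 (A23 (P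
  19 (M 10 (A12 (B02 (A01 (B01 (A03 (S 0 (L 2 1) (L 24 1)) (A13 (S 0 (L 2 1) (L 24 1)) (B02 (A23 (P
  13 (L 40 7)) (M 7 (L 58 10))) (S 9 (L 29 1) (L 12 1))))) (M 7 (A03 (L 58 10) (A13 (L 58 10) (S 9
  (L 29 1) (L 12 1)))))) (B01 (M 9 (S 0 (L 1 1) (L 24 1))) (A13 (A12 (B12 (S 0 (L 2 1) (L 24 1))
  (A01 (M 7 (L 58 10)) (S 0 (L 2 1) (L 24 1)))) (M 7 (L 58 10))) (M 7 (P 0 (A03 (L 58 10) (S 9 (L
  29 1) (L 1 1)))))))) (M 7 (P 0 (A01 (A03 (P 13 (K [(40,7,6),(58,10,11),(58,5,7)] [])) (A13 (B12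
  (P 13 (K [(40,7,4),(58,10,4)] [])) (B02 (P 13 (K [(40,7,4),(58,10,4)] [])) (M 18 (K
  [(38,10,2),(58,5,3),(58,10,3)] [])))) (S 9 (L 29 1) (L 12 1)))) (A13 (A12 (K [(58,10,4),(58,5,4)]
  []) (B12 (K [(58,10,4),(58,5,4)] []) (B02 (K [(58,10,4),(58,5,4)] []) (K [(58,5,36),(58,10,28)]
  [])))) (A03 (B12 (K [(58,10,99),(58,5,101)] []) (B02 (K [(58,10,98),(58,5,102)] []) (K
  [(58,5,36),(58,10,28)] []))) (S 9 (L 29 1) (L 1 1)))))))) (B02 (A02 (B01 (A03 (S 9 (L 29 1) (L 12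
  1)) (A23 (P 13 (L 40 7)) (B02 (A13 (P 13 (L 40 7)) (M 7 (L 58 10))) (S 9 (L 29 1) (L 12 1))))) (M
  7 (A03 (P 13 (K [(40,7,4),(58,10,4)] [])) (S 9 (L 29 1) (L 12 1))))) (B01 (A23 (P 13 (L 40 7))
  (A03 (P 13 (L 40 7)) (B02 (A13 (P 13 (L 40 7)) (P 0 (S 9 (L 29 1) (L 1 1)))) (S 9 (L 29 1) (L 12
  1))))) (S 9 (L 29 1) (L 12 1)))) (M 7 (A02 (A03 (P 13 (K [(40,7,3),(58,5,2),(58,10,3)] [])) (S 9
  (L 29 1) (L 12 1))) (S 9 (L 29 1) (L 12 1)))))))) (A03 (P 19 (M 10 (B02 (A01 (B01 (A02 (A03 (S 0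
  (L 2 1) (L 24 1)) (B02 (A13 (S 0 (L 2 1) (L 24 1)) (M 7 (L 58 10))) (M 7 (L 58 10)))) (A12 (B02
  (A13 (S 0 (L 2 1) (L 24 1)) (M 7 (L 58 10))) (M 7 (L 58 10))) (P 0 (S 9 (L 29 1) (L 1 1))))) (M 7
  (A02 (L 58 10) (A12 (L 58 10) (B12 (P 13 (K [(40,7,3),(58,10,4),(40,11,1)] [])) (S 9 (L 29 1) (L
  12 1))))))) (B01 (M 9 (S 0 (L 1 1) (L 24 1))) (A12 (A13 (B12 (S 0 (L 2 1) (L 24 1)) (A01 (M 7 (L
  58 10)) (S 0 (L 2 1) (L 24 1)))) (M 7 (L 58 10))) (M 7 (P 0 (A02 (L 58 10) (B12 (P 13 (K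
  [(40,7,3),(58,10,2),(40,11,3)] [])) (S 9 (L 29 1) (L 1 1))))))))) (M 7 (P 0 (A01 (A02 (A03 (P 13
  (K [(58,10,4),(40,7,2),(58,5,2)] [])) (B12 (B01 (A13 (P 13 (K [(58,10,4),(40,7,2),(58,5,2)] []))
  (B02 (S 9 (L 29 1) (L 12 1)) (M 18 (K [(38,10,3),(58,10,11),(58,5,10)] [])))) (M 18 (K
  [(58,10,30),(38,10,13),(58,5,21)] []))) (B02 (A13 (P 13 (K [(58,10,4),(40,7,1),(58,5,3)] []))
  (B01 (S 9 (L 29 1) (L 12 1)) (M 18 (K [(38,10,1),(58,10,3),(58,5,4)] [])))) (M 18 (K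
  [(58,5,12),(38,10,2),(58,10,10)] []))))) (A12 (B12 (B01 (A13 (P 13 (K [(58,10,4),(40,7,4)] []))
  (B02 (S 9 (L 29 1) (L 12 1)) (M 18 (K [(38,10,3),(58,10,3),(58,5,2)] [])))) (M 18 (K
  [(38,10,3),(58,10,3),(58,5,2)] []))) (B02 (A13 (P 13 (K [(40,7,4),(58,10,4)] [])) (B01 (S 9 (L 29
  1) (L 12 1)) (M 18 (K [(38,10,3),(58,5,2),(58,10,3)] [])))) (M 18 (K
  [(38,10,2),(58,5,3),(58,10,3)] [])))) (B12 (B01 (A23 (S 9 (L 29 1) (L 12 1)) (B02 (S 9 (L 29 1)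
  (L 12 1)) (M 18 (K [(38,10,2),(58,10,3),(58,5,3)] [])))) (M 18 (K [(38,10,3),(58,10,3),(58,5,2)]
  []))) (S 13 (L 40 7) (L 13 7))))) (A12 (K [(58,10,105),(58,5,95)] []) (A02 (B12 (K
  [(58,10,13),(58,5,11)] []) (B02 (K [(58,10,13),(58,5,11)] []) (K [(58,5,4),(58,10,4)] []))) (B12
  (B01 (A23 (S 9 (L 29 1) (L 1 1)) (B02 (S 9 (L 29 1) (L 1 1)) (A13 (S 9 (L 29 1) (L 12 1)) (A03 (S
  9 (L 29 1) (L 12 1)) (B12 (S 9 (L 29 1) (L 12 1)) (S 13 (L 40 7) (L 13 7))))))) (A23 (S 9 (L 29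
  1) (L 12 1)) (A13 (S 9 (L 29 1) (L 12 1)) (A03 (S 9 (L 29 1) (L 12 1)) (S 13 (L 40 11) (L 13
  11)))))) (S 13 (L 40 7) (L 13 7))))))))))) (B02 (P 19 (M 10 (A13 (B01 (M 9 (S 0 (L 1 1) (L 24
  1))) (A12 (A01 (M 7 (L 58 10)) (B12 (A13 (S 0 (L 2 1) (L 24 1)) (M 7 (L 58 10))) (S 0 (L 2 1) (L
  24 1)))) (M 7 (P 0 (A23 (B12 (A02 (L 58 10) (S 9 (L 29 1) (L 1 1))) (S 9 (L 29 1) (L 1 1))) (L 58
  10)))))) (B01 (M 9 (S 0 (L 1 1) (L 24 1))) (M 7 (P 0 (A23 (A12 (B12 (A01 (B01 (S 9 (L 29 1) (L 1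
  1)) (A03 (L 58 10) (S 9 (L 29 1) (L 1 1)))) (S 9 (L 29 1) (L 1 1))) (S 9 (L 29 1) (L 1 1))) (B12
  (A02 (B01 (S 9 (L 29 1) (L 1 1)) (A03 (L 58 10) (S 9 (L 29 1) (L 12 1)))) (S 9 (L 29 1) (L 1 1)))
  (S 9 (L 29 1) (L 1 1)))) (A03 (B12 (A01 (B01 (S 9 (L 29 1) (L 1 1)) (A02 (L 58 10) (S 9 (L 29 1)
  (L 1 1)))) (S 9 (L 29 1) (L 1 1))) (S 9 (L 29 1) (L 1 1))) (S 9 (L 29 1) (L 1 1)))))))))) (M 7 (P
  0 (A13 (P 19 (A12 (K [(58,10,105),(58,5,95)] []) (A23 (B12 (B01 (A02 (B02 (S 9 (L 29 1) (L 1 1))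
  (A01 (A03 (B12 (S 9 (L 29 1) (L 12 1)) (S 13 (L 40 7) (L 13 7))) (S 9 (L 29 1) (L 12 1))) (S 9 (L
  29 1) (L 12 1)))) (S 9 (L 29 1) (L 1 1))) (A02 (A01 (A03 (S 13 (L 40 11) (L 13 11)) (S 9 (L 29 1)
  (L 12 1))) (S 9 (L 29 1) (L 12 1))) (S 9 (L 29 1) (L 12 1)))) (S 13 (L 40 7) (L 13 7))) (B12 (B01
  (A03 (B02 (S 9 (L 29 1) (L 1 1)) (A01 (A02 (K [(58,10,5),(58,5,3)] []) (S 9 (L 29 1) (L 1 1))) (S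
  9 (L 29 1) (L 1 1)))) (S 9 (L 29 1) (L 1 1))) (A03 (A01 (A02 (S 13 (L 40 11) (L 59 11)) (S 9 (L
  29 1) (L 1 1))) (S 9 (L 29 1) (L 1 1))) (S 9 (L 29 1) (L 1 1)))) (S 13 (L 40 7) (L 13 7))))))
  (A23 (P 19 (A12 (B12 (B01 (A01 (B02 (S 9 (L 29 1) (L 1 1)) (A03 (A02 (K [(58,10,14),(58,5,10)]
  []) (P 16 (L 49 4))) (P 16 (L 49 4)))) (P 16 (L 49 4))) (A01 (A03 (A02 (K [(58,10,14),(58,5,10)]
  []) (S 9 (L 29 1) (L 1 1))) (S 9 (L 29 1) (L 1 1))) (S 9 (L 29 1) (L 1 1)))) (P 16 (L 49 4)))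
  (B12 (B01 (A02 (B02 (S 9 (L 29 1) (L 1 1)) (A03 (A01 (B12 (S 9 (L 29 1) (L 12 1)) (S 13 (L 40 7)
  (L 13 7))) (S 9 (L 29 1) (L 12 1))) (S 9 (L 29 1) (L 12 1)))) (S 9 (L 29 1) (L 1 1))) (A02 (A03
  (A01 (B12 (S 13 (L 40 11) (L 59 11)) (B02 (A02 (K [(58,10,5),(58,5,3)] []) (S 9 (L 29 1) (L 12
  1))) (M 18 (K [(38,10,2),(58,5,2),(58,10,4)] [])))) (S 9 (L 29 1) (L 12 1))) (S 9 (L 29 1) (L 12
  1))) (S 9 (L 29 1) (L 12 1)))) (P 16 (L 49 4))))) (A03 (P 19 (B12 (B01 (A01 (B02 (S 9 (L 29 1) (L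
  1 1)) (A02 (K [(58,10,14),(58,5,10)] []) (P 16 (L 49 4)))) (P 16 (L 49 4))) (A01 (A02 (K
  [(58,10,14),(58,5,10)] []) (S 9 (L 29 1) (L 1 1))) (S 9 (L 29 1) (L 1 1)))) (P 16 (L 49 4))))
  (B12 (S 9 (L 29 1) (L 1 1)) (P 16 (L 49 4))))))))))) (M 7 (P 0 (A23 (P 19 (A12 (B12 (M 16 (P 13
  (A01 (B01 (A03 (A02 (B02 (A01 (B01 (K [(58,10,4),(40,7,3),(58,5,2)] []) (K
  [(58,10,72),(40,11,30),(58,5,62),(40,7,35)] [])) (K [(58,10,73),(40,11,30),(40,7,34),(58,5,63)]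
  [])) (K [(58,5,4),(58,10,3)] [])) (B02 (A12 (K [(58,10,23),(40,11,10),(40,7,12),(58,5,20)] []) (K
  [(40,7,3),(58,10,2),(58,5,2),(40,11,2)] [])) (A12 (K [(58,5,4),(58,10,3)] []) (K
  [(58,5,6),(58,10,2)] [])))) (A13 (B02 (A12 (K [(58,10,22),(40,11,11),(40,7,12),(58,5,19)] []) (K
  [(8,4,3),(58,10,1),(58,5,1),(40,11,2)] [])) (A12 (K [(58,5,4),(58,10,3)] []) (K
  [(58,5,5),(58,10,3)] []))) (K [(40,7,4),(40,11,4)] []))) (K [(58,5,4),(40,11,3),(58,10,1)] []))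
  (B01 (A13 (K [(58,10,4),(58,5,4),(40,7,1)] []) (A03 (K [(58,10,4),(40,7,1),(58,5,4)] []) (K
  [(40,7,4),(40,11,4)] []))) (K [(58,5,4),(40,11,3),(58,10,1)] []))))) (A01 (A03 (P 13 (A02 (K
  [(58,5,9),(40,7,4),(58,10,11)] []) (K [(40,7,13),(58,5,24),(58,10,27)] []))) (A13 (S 13 (K
  [(40,7,13),(58,5,24),(58,10,27)] []) (L 59 7)) (S 13 (L 40 7) (L 13 7)))) (A13 (A12 (K
  [(58,10,4),(58,5,4)] []) (M 18 (K [(38,10,4),(58,5,105),(58,10,91)] []))) (M 18 (A03 (K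
  [(38,10,7),(58,5,103),(58,10,89)] []) (S 13 (L 40 7) (L 13 7))))))) (B12 (M 16 (P 13 (A02 (B01
  (A03 (A01 (B02 (A02 (B01 (K [(58,10,10),(40,7,9),(58,5,5)] []) (K
  [(8,4,5),(58,10,8),(58,5,7),(40,11,3)] [])) (K [(40,7,4),(58,5,1),(58,10,1),(40,11,2)] [])) (K
  [(58,5,16),(58,10,8)] [])) (K [(40,7,4),(58,5,1),(58,10,1),(40,11,2)] [])) (K
  [(40,7,4),(40,11,4)] [])) (K [(58,5,5),(40,11,3)] [])) (K [(40,7,5),(58,5,3)] [])))) (A02 (A03 (P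
  13 (K [(40,7,3),(58,5,2),(58,10,3)] [])) (S 13 (L 40 7) (L 13 7))) (S 13 (L 40 7) (L 13 7))))))
  (A03 (P 19 (M 10 (B12 (P 13 (A01 (B01 (A02 (A03 (B02 (A01 (B01 (K
  [(58,10,10),(40,11,2),(40,7,5),(58,5,7)] []) (K [(58,10,23),(40,11,10),(58,5,19),(40,7,11)] []))
  (B01 (K [(58,10,10),(40,11,2),(40,7,5),(58,5,7)] []) (K
  [(58,10,23),(40,11,10),(58,5,19),(40,7,11)] []))) (K [(58,5,4),(58,10,3)] [])) (B02 (K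
  [(58,10,358),(40,11,171),(58,5,281),(40,7,190)] []) (K [(58,5,4),(58,10,3)] []))) (A12 (B02 (K
  [(58,10,67),(40,11,40),(58,5,51),(40,7,42)] []) (K [(58,5,4),(58,10,3)] [])) (K
  [(40,11,4),(40,7,4)] []))) (K [(58,5,4),(40,11,3),(58,10,2)] [])) (K
  [(40,11,20),(58,5,19),(2,1,18),(40,7,8)] []))) (A01 (A02 (A03 (P 13 (K
  [(58,5,26),(58,10,31),(40,7,7)] [])) (S 13 (K [(58,5,391),(40,7,114),(58,10,468),(40,11,28)] [])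
  (K [(13,11,3),(58,5,5)] []))) (A12 (S 13 (K [(58,5,383),(40,7,118),(40,11,41),(58,10,458)] []) (K
  [(13,11,3),(58,5,5)] [])) (S 13 (K [(40,7,4),(40,11,4)] []) (K [(13,11,3),(58,5,5)] [])))) (A12
  (K [(58,10,104),(58,5,96)] []) (M 18 (A02 (K [(58,5,95),(58,10,104),(38,10,1)] []) (S 13 (K
  [(40,7,4),(40,11,4)] []) (K [(13,11,3),(58,5,4),(38,10,1)] []))))))))) (B12 (P 19 (M 10 (A13 (B01
  (A12 (S 13 (L 40 11) (L 13 11)) (A23 (P 13 (K [(40,11,5),(40,7,3)] [])) (S 13 (L 40 11) (L 13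
  11)))) (M 18 (K [(38,6,49),(58,5,15)] []))) (B01 (A23 (A12 (S 13 (L 40 11) (L 13 11)) (S 13 (K
  [(40,11,5),(40,7,2)] []) (L 13 11))) (A03 (S 13 (L 40 11) (L 13 11)) (B02 (A13 (S 13 (L 40 11) (L
  13 11)) (B01 (M 13 (K [(13,11,1),(13,7,2),(2,1,3),(58,5,2)] [])) (M 18 (K
  [(58,5,4),(58,10,3),(38,10,1)] [])))) (M 18 (K [(58,5,3),(38,6,2),(58,10,2),(38,10,1)] []))))) (M
  18 (K [(58,5,4),(38,6,2),(58,10,1)] [])))))) (A13 (P 19 (A12 (K [(58,10,104),(58,5,96)] []) (A23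
  (M 18 (S 13 (K [(40,7,3),(40,11,5)] []) (K [(58,5,4),(38,10,1),(13,11,3)] []))) (B02 (B01 (A03 (M
  18 (K [(38,10,1),(58,10,4),(58,5,3)] [])) (A13 (A01 (B02 (P 13 (L 40 11)) (B12 (S 13 (L 40 11) (L
  13 11)) (S 9 (L 29 1) (L 12 1)))) (S 9 (L 29 1) (L 12 1))) (A23 (B02 (S 13 (L 40 11) (L 13 11))
  (B12 (S 13 (L 40 11) (L 13 11)) (S 9 (L 29 1) (L 12 1)))) (L 58 10)))) (K [(58,5,5),(58,10,3)]
  [])) (K [(58,5,4),(58,10,4)] []))))) (A23 (P 19 (A12 (B02 (B01 (A01 (M 18 (K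
  [(38,10,3),(58,10,11),(58,5,10)] [])) (A13 (A12 (K [(58,10,13),(58,5,11)] []) (B02 (S 13 (L 40
  11) (L 13 11)) (B12 (S 13 (L 40 11) (L 59 11)) (S 9 (L 29 1) (L 12 1))))) (A03 (B02 (S 13 (L 40
  11) (L 13 11)) (B12 (S 13 (L 40 11) (L 59 11)) (S 9 (L 29 1) (L 12 1)))) (S 9 (L 29 1) (L 12
  1))))) (K [(58,5,5),(58,10,3)] [])) (K [(58,5,13),(58,10,11)] [])) (M 18 (S 13 (K
  [(40,7,2),(58,5,1),(40,11,5)] []) (K [(58,5,4),(38,10,1),(13,11,3)] []))))) (A03 (P 19 (B02 (B01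
  (A01 (M 18 (K [(38,10,3),(58,10,11),(58,5,10)] [])) (A12 (K [(58,10,13),(58,5,11)] []) (A02 (K
  [(58,10,14),(58,5,10)] []) (B02 (S 13 (L 40 11) (L 59 11)) (P 16 (K [(49,4,3),(58,5,3),(58,10,3)]
  [])))))) (K [(58,5,13),(58,10,11)] [])) (K [(58,5,4),(58,10,4)] []))) (B02 (P 19 (B01 (A13 (A12
  (K [(58,10,13),(58,5,11)] []) (P 16 (K [(49,4,3),(58,5,1),(58,10,2),(49,2,1)] []))) (P 16 (K
  [(49,4,3),(58,5,1),(58,10,2),(49,2,1)] []))) (P 16 (K [(58,5,2),(49,4,2),(49,2,1),(58,10,3)]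
  [])))) (P 16 (K [(49,4,6),(49,2,2)] []))))))))))))))) (A13 (P 19 (M 10 (P 4 (M 3 (A12 (A01 (B02
  (B01 (A03 (A02 (A01 (B02 (S 0 (L 2 1) (L 24 1)) (M 7 (L 58 10))) (B02 (S 0 (L 2 1) (L 24 1)) (B12
  (S 0 (L 2 1) (L 24 1)) (S 0 (L 2 1) (L 24 1))))) (A23 (out 4) (B02 (S 0 (L 2 1) (L 24 1)) (B12 (S
  0 (L 2 1) (L 24 1)) (S 0 (L 2 1) (L 24 1)))))) (S 0 (L 2 1) (L 24 1))) (A03 (B12 (P 13 (M 7 (K
  [(58,10,11),(40,7,4),(58,5,8)] []))) (A02 (A01 (M 7 (L 58 10)) (B02 (M 7 (L 58 10)) (A13 (out 4)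
  (M 7 (L 58 10))))) (A23 (out 4) (B02 (M 7 (L 58 10)) (A13 (out 4) (M 7 (L 58 10))))))) (B12 (M 7
  (K [(58,10,4),(58,5,4)] [])) (S 0 (L 2 1) (L 24 1))))) (B12 (A03 (B01 (A02 (A01 (P 0 (S 9 (L 29
  1) (L 1 1))) (B02 (A13 (out 4) (M 7 (L 58 10))) (P 0 (S 9 (L 29 1) (L 1 1))))) (A23 (out 4) (B02
  (A13 (out 4) (M 7 (L 58 10))) (P 0 (S 9 (L 29 1) (L 1 1)))))) (M 7 (A02 (K [(58,10,4),(58,5,4)]
  []) (K [(58,10,4),(58,5,4)] [])))) (B01 (M 9 (S 0 (L 1 1) (L 24 1))) (M 7 (K [(58,10,4),(58,5,4)]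
  [])))) (A03 (A02 (A01 (P 0 (S 9 (L 29 1) (L 1 1))) (B02 (B01 (S 0 (L 2 1) (L 24 1)) (P 0 (S 9 (L
  29 1) (L 1 1)))) (P 0 (S 9 (L 29 1) (L 1 1))))) (A23 (out 4) (B02 (B01 (S 0 (L 2 1) (L 24 1)) (P
  0 (S 9 (L 29 1) (L 1 1)))) (P 0 (S 9 (L 29 1) (L 1 1)))))) (M 9 (S 0 (L 1 1) (L 24 1)))))) (out
  4)) (A23 (B02 (B01 (A02 (A01 (A03 (B02 (S 9 (L 29 1) (L 12 1)) (S 9 (L 29 1) (L 12 1))) (B02 (B01
  (A23 (P 13 (L 40 7)) (P 18 (L 54 10))) (S 9 (L 29 1) (L 12 1))) (S 9 (L 29 1) (L 12 1)))) (A12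
  (B02 (B01 (P 18 (L 54 10)) (A13 (out 4) (B12 (P 13 (L 40 7)) (P 18 (L 54 10))))) (B12 (A13 (out
  4) (B01 (P 18 (L 54 10)) (P 13 (L 40 7)))) (P 18 (L 54 10)))) (B02 (B01 (A23 (P 13 (L 40 7)) (P
  18 (L 54 10))) (S 9 (L 29 1) (L 12 1))) (S 9 (L 29 1) (L 12 1))))) (A12 (A01 (B02 (B01 (A03 (P 13
  (L 40 7)) (P 18 (L 54 10))) (S 9 (L 29 1) (L 12 1))) (S 9 (L 29 1) (L 12 1))) (B02 (B01 (P 18 (L
  54 10)) (A13 (out 4) (B12 (P 13 (L 40 7)) (P 18 (L 54 10))))) (B12 (A13 (out 4) (B01 (P 18 (L 54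
  10)) (P 13 (L 40 7)))) (P 18 (L 54 10))))) (A23 (B02 (P 13 (L 40 7)) (S 9 (L 29 1) (L 12 1)))
  (B02 (B01 (A03 (P 13 (L 40 7)) (P 18 (L 54 10))) (S 9 (L 29 1) (L 12 1))) (S 9 (L 29 1) (L 12
  1)))))) (S 13 (L 40 7) (L 59 7))) (S 13 (L 40 7) (L 13 7))) (B02 (B01 (A03 (A01 (A02 (B02 (S 0 (L
  2 1) (L 24 1)) (M 7 (L 58 10))) (B02 (B01 (S 0 (L 2 1) (L 24 1)) (M 7 (L 58 10))) (M 7 (L 58
  10)))) (A13 (B02 (B01 (S 0 (L 2 1) (L 24 1)) (A12 (out 4) (B12 (P 13 (L 40 7)) (S 0 (L 2 1) (L 24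
  1))))) (B12 (A12 (out 4) (B01 (S 0 (L 2 1) (L 24 1)) (P 13 (L 40 7)))) (S 0 (L 2 1) (L 24 1))))
  (B02 (B01 (S 0 (L 2 1) (L 24 1)) (A23 (B12 (P 13 (L 40 7)) (S 0 (L 2 1) (L 24 1))) (S 0 (L 2 1)
  (L 24 1)))) (B12 (A23 (B01 (S 0 (L 2 1) (L 24 1)) (P 13 (L 40 7))) (S 0 (L 2 1) (L 24 1))) (S 0
  (L 2 1) (L 24 1)))))) (S 0 (L 2 1) (L 24 1))) (A03 (M 7 (P 0 (B12 (P 13 (K
  [(40,7,2),(58,10,4),(58,5,3)] [])) (S 9 (L 29 1) (L 1 1))))) (B12 (M 7 (P 0 (A13 (P 13 (K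
  [(40,7,4),(58,10,11),(58,5,10)] [])) (A23 (B01 (S 9 (L 29 1) (L 1 1)) (S 13 (L 40 7) (L 59 7)))
  (K [(58,10,4),(58,5,4)] []))))) (M 9 (S 0 (L 1 1) (L 24 1)))))) (B12 (A03 (S 13 (L 40 7) (L 13
  7)) (B01 (M 9 (S 0 (L 1 1) (L 24 1))) (S 13 (L 40 7) (L 13 7)))) (A03 (P 0 (S 9 (L 29 1) (L 1
  1))) (M 9 (S 0 (L 1 1) (L 24 1)))))))))))) (A23 (P 4 (M 3 (A12 (B02 (P 19 (M 10 (B01 (A01 (A03
  (A02 (B02 (B01 (A01 (M 7 (L 58 10)) (S 0 (L 2 1) (L 24 1))) (M 7 (L 58 10))) (M 7 (L 58 10)))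
  (B02 (B01 (S 0 (L 2 1) (L 24 1)) (M 7 (L 58 10))) (M 7 (L 58 10)))) (A13 (B02 (B01 (S 0 (L 2 1)
  (L 24 1)) (M 7 (L 58 10))) (M 7 (L 58 10))) (B02 (B01 (M 9 (S 0 (L 1 1) (L 24 1))) (P 0 (S 9 (L
  29 1) (L 1 1)))) (P 0 (S 9 (L 29 1) (L 1 1)))))) (M 9 (S 0 (L 1 1) (L 24 1)))) (A01 (M 7 (P 0
  (B12 (A03 (A02 (B01 (A01 (M 18 (K [(38,10,3),(58,10,5)] [])) (S 9 (L 29 1) (L 12 1))) (K
  [(58,5,4),(58,10,4)] [])) (B01 (S 9 (L 29 1) (L 12 1)) (K [(58,5,14),(58,10,10)] []))) (A13 (B01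
  (S 9 (L 29 1) (L 12 1)) (K [(58,5,14),(58,10,10)] [])) (S 9 (L 29 1) (L 12 1)))) (S 9 (L 29 1) (L
  1 1))))) (B12 (M 7 (P 0 (A13 (A12 (K [(58,10,4),(58,5,4)] []) (B01 (S 9 (L 29 1) (L 1 1)) (K
  [(58,5,36),(58,10,28)] []))) (A03 (B01 (S 9 (L 29 1) (L 1 1)) (K [(58,5,36),(58,10,28)] [])) (S 9
  (L 29 1) (L 1 1)))))) (M 9 (S 0 (L 1 1) (L 24 1)))))))) (B12 (A01 (S 13 (L 40 7) (L 13 7)) (B01
  (A13 (M 9 (S 0 (L 1 1) (L 24 1))) (P 0 (S 9 (L 29 1) (L 1 1)))) (S 13 (L 40 7) (L 13 7)))) (A01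
  (P 0 (A03 (S 9 (L 29 1) (L 1 1)) (P 16 (L 49 4)))) (P 16 (L 49 4))))) (B02 (P 19 (B01 (A02 (A03
  (A01 (S 9 (L 29 1) (L 12 1)) (B02 (B01 (A12 (P 18 (L 54 10)) (M 7 (L 58 10))) (S 9 (L 29 1) (L 12
  1))) (S 9 (L 29 1) (L 12 1)))) (A23 (B02 (B01 (A12 (P 18 (L 54 10)) (M 7 (L 58 10))) (S 9 (L 29
  1) (L 12 1))) (S 9 (L 29 1) (L 12 1))) (B02 (B01 (M 9 (S 0 (L 1 1) (L 24 1))) (P 0 (S 9 (L 29 1)
  (L 1 1)))) (P 0 (S 9 (L 29 1) (L 1 1)))))) (A23 (A12 (B02 (B01 (A01 (S 9 (L 29 1) (L 12 1)) (P 18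
  (L 54 10))) (S 9 (L 29 1) (L 12 1))) (S 9 (L 29 1) (L 12 1))) (S 9 (L 29 1) (L 12 1))) (A03 (B02
  (B01 (A01 (S 9 (L 29 1) (L 12 1)) (P 18 (L 54 10))) (S 9 (L 29 1) (L 12 1))) (S 9 (L 29 1) (L 12
  1))) (B02 (B01 (M 9 (S 0 (L 1 1) (L 24 1))) (P 0 (S 9 (L 29 1) (L 1 1)))) (P 0 (S 9 (L 29 1) (L 1
  1))))))) (M 7 (P 0 (A02 (B12 (A03 (A01 (M 18 (K [(38,10,5),(58,5,10),(58,10,9)] [])) (S 9 (L 29
  1) (L 12 1))) (S 9 (L 29 1) (L 12 1))) (S 9 (L 29 1) (L 1 1))) (S 9 (L 29 1) (L 1 1))))))) (M 7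
  (P 0 (B12 (S 13 (L 40 7) (L 13 7)) (A02 (A03 (S 9 (L 29 1) (L 12 1)) (A23 (S 9 (L 29 1) (L 1 1))
  (P 16 (L 49 4)))) (A23 (A12 (B02 (S 9 (L 29 1) (L 12 1)) (B12 (P 19 (L 58 5)) (P 16 (L 49 4))))
  (B02 (P 19 (L 58 5)) (B12 (P 19 (L 58 5)) (P 16 (L 49 4))))) (A03 (B02 (S 9 (L 29 1) (L 1 1))
  (B12 (P 19 (L 58 5)) (P 16 (L 49 4)))) (P 16 (L 49 4)))))))))))) (A03 (P 4 (M 3 (B02 (P 19 (M 10
  (B01 (A01 (A02 (A03 (B02 (B01 (A01 (M 7 (L 58 10)) (S 0 (L 2 1) (L 24 1))) (M 7 (L 58 10))) (M 7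
  (L 58 10))) (B02 (B01 (S 0 (L 2 1) (L 24 1)) (M 7 (L 58 10))) (M 7 (L 58 10)))) (A12 (B02 (B01 (S
  0 (L 2 1) (L 24 1)) (M 7 (L 58 10))) (M 7 (L 58 10))) (P 0 (S 9 (L 29 1) (L 1 1))))) (M 9 (S 0 (L
  1 1) (L 24 1)))) (A01 (M 7 (P 0 (B12 (A02 (A03 (B01 (A01 (M 18 (K [(38,10,3),(58,10,5)] [])) (S 9
  (L 29 1) (L 12 1))) (K [(58,5,4),(58,10,4)] [])) (B01 (S 9 (L 29 1) (L 12 1)) (K
  [(58,5,4),(58,10,4)] []))) (A12 (B01 (S 9 (L 29 1) (L 12 1)) (K [(58,5,4),(58,10,4)] [])) (S 13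
  (L 40 7) (L 13 7)))) (S 9 (L 29 1) (L 1 1))))) (B12 (M 7 (P 0 (A12 (K [(58,10,105),(58,5,95)] [])
  (A02 (B01 (S 9 (L 29 1) (L 1 1)) (K [(58,5,4),(58,10,4)] [])) (S 13 (L 40 7) (L 13 7)))))) (M 9
  (S 0 (L 1 1) (L 24 1)))))))) (B12 (A01 (S 13 (L 40 7) (L 13 7)) (B01 (A12 (P 18 (L 54 4)) (P 0 (S
  9 (L 29 1) (L 1 1)))) (S 13 (L 40 7) (L 13 7)))) (A01 (P 0 (A02 (S 9 (L 29 1) (L 1 1)) (P 16 (L
  49 4)))) (P 16 (L 49 4))))))) (B02 (B01 (M 9 (A13 (S 0 (L 1 1) (L 24 1)) (S 0 (L 1 1) (L 24 1))))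
  (A13 (P 19 (M 3 (B12 (M 7 (A12 (K [(58,10,105),(58,5,95)] []) (P 16 (L 49 4)))) (M 9 (S 0 (L 1 1)
  (L 24 1)))))) (P 16 (M 7 (B12 (M 3 (L 49 4)) (P 18 (L 55 10))))))) (B12 (A13 (P 4 (M 3 (B01 (P 16
  (L 49 4)) (S 13 (L 40 7) (L 13 7))))) (P 16 (M 7 (B01 (A23 (M 3 (L 49 4)) (P 18 (L 55 10))) (M 3
  (L 49 4)))))) (P 16 (M 13 (A13 (A12 (P 19 (L 59 5)) (M 7 (A23 (M 3 (L 49 4)) (P 18 (L 55 10)))))
  (M 7 (A23 (A12 (P 18 (L 55 10)) (B02 (M 3 (L 49 4)) (B12 (M 3 (L 49 4)) (P 18 (L 55 10))))) (P 18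
  (L 55 10)))))))))))))))) (M 15 (P 12 (A23 (P 19 (P 4 (M 3 (B12 (A12 (B01 (A01 (A02 (B02 (A03 (P
  13 (L 40 7)) (B01 (P 18 (L 54 10)) (A13 (P 13 (L 40 7)) (out 2)))) (A03 (P 13 (L 40 7)) (A13 (P
  13 (L 40 7)) (out 2)))) (out 4)) (out 4)) (A01 (A02 (B12 (P 13 (L 40 7)) (A03 (P 13 (L 40 7))
  (A13 (P 13 (L 40 7)) (out 2)))) (out 4)) (out 4))) (B01 (A02 (A01 (B02 (A03 (P 13 (L 40 7)) (out
  2)) (A03 (P 13 (L 40 7)) (out 2))) (out 2)) (out 2)) (A02 (A01 (B12 (P 13 (L 40 7)) (A03 (P 13 (L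
  40 7)) (out 2))) (out 2)) (out 2)))) (A12 (A01 (A02 (B02 (B01 (A03 (A01 (A02 (B02 (B01 (A03 (A01
  (A02 (S 9 (L 29 1) (L 12 1)) (P 18 (L 54 10))) (P 18 (L 54 10))) (P 18 (L 54 10))) (S 9 (L 29 1)
  (L 12 1))) (S 9 (L 29 1) (L 12 1))) (B02 (B01 (P 18 (L 54 10)) (A23 (out 4) (S 9 (L 29 1) (L 12
  1)))) (B12 (A23 (out 4) (S 9 (L 29 1) (L 12 1))) (P 18 (L 54 10))))) (A13 (out 4) (B02 (B01 (P 18
  (L 54 10)) (A23 (out 4) (S 9 (L 29 1) (L 12 1)))) (B12 (A23 (out 4) (S 9 (L 29 1) (L 12 1))) (P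
  18 (L 54 10)))))) (P 18 (L 54 10))) (S 9 (L 29 1) (L 12 1))) (S 9 (L 29 1) (L 12 1))) (out 4))
  (out 4)) (A02 (A01 (B02 (B01 (A03 (A02 (A01 (B02 (B01 (A03 (A02 (A01 (S 9 (L 29 1) (L 12 1)) (P
  18 (L 54 10))) (P 18 (L 54 10))) (P 18 (L 54 10))) (M 7 (L 58 5))) (M 7 (L 58 5))) (B02 (B01 (P
  18 (L 54 10)) (A13 (out 4) (M 7 (L 58 5)))) (B12 (A13 (out 4) (M 7 (L 58 5))) (P 18 (L 54 10)))))
  (out 2)) (out 2)) (M 7 (L 58 5))) (M 7 (L 58 5))) (out 2)) (out 2))))))) (B12 (P 4 (M 3 (A13 (P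
  19 (M 10 (B01 (A01 (A03 (B02 (A02 (P 13 (L 40 7)) (B01 (M 9 (S 0 (L 1 1) (L 24 1))) (A12 (P 13 (L
  40 7)) (A23 (out 2) (P 13 (L 40 7)))))) (S 9 (L 29 1) (L 12 1))) (B02 (A23 (B01 (S 0 (L 2 1) (L
  24 1)) (A12 (P 13 (L 40 7)) (A02 (P 13 (L 40 7)) (out 2)))) (S 0 (L 2 1) (L 24 1))) (M 7 (A23 (S
  13 (L 40 7) (L 59 7)) (P 13 (K [(40,7,4),(58,10,4)] [])))))) (out 4)) (A01 (M 7 (A03 (S 13 (L 40
  7) (L 59 7)) (B12 (P 13 (K [(40,7,2),(58,5,12),(58,10,10),(40,11,1)] [])) (A23 (S 13 (L 40 7) (L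
  59 7)) (P 13 (K [(40,7,2),(58,10,10),(58,5,11)] [])))))) (out 4))))) (B01 (A03 (P 19 (M 10 (A01
  (B02 (A02 (B01 (A03 (P 13 (L 40 7)) (A23 (B02 (A12 (B01 (P 18 (L 54 10)) (S 9 (L 29 1) (L 12 1)))
  (B01 (P 18 (L 54 10)) (S 9 (L 29 1) (L 12 1)))) (S 9 (L 29 1) (L 12 1))) (B02 (A13 (B01 (M 9 (S 0
  (L 1 1) (L 24 1))) (S 9 (L 29 1) (L 12 1))) (P 0 (S 9 (L 29 1) (L 1 1)))) (S 9 (L 29 1) (L 12
  1))))) (S 9 (L 29 1) (L 12 1))) (B01 (M 9 (S 0 (L 1 1) (L 24 1))) (A23 (A12 (S 9 (L 29 1) (L 12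
  1)) (out 2)) (S 9 (L 29 1) (L 12 1))))) (S 9 (L 29 1) (L 12 1))) (B02 (A12 (B01 (M 9 (S 0 (L 1 1)
  (L 24 1))) (A13 (A01 (B12 (P 13 (L 40 7)) (A02 (M 7 (L 58 10)) (S 0 (L 2 1) (L 24 1)))) (B12 (S 0
  (L 2 1) (L 24 1)) (S 0 (L 2 1) (L 24 1)))) (A23 (B12 (P 13 (L 40 7)) (A02 (M 7 (L 58 10)) (S 0 (L
  2 1) (L 24 1)))) (P 0 (S 9 (L 29 1) (L 1 1)))))) (B01 (M 9 (S 0 (L 1 1) (L 24 1))) (A23 (A02 (B12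
  (P 13 (L 40 7)) (A01 (S 9 (L 29 1) (L 12 1)) (out 2))) (out 2)) (A13 (B12 (P 13 (L 40 7)) (A01 (S
  9 (L 29 1) (L 12 1)) (out 2))) (S 9 (L 29 1) (L 12 1)))))) (P 0 (S 9 (L 29 1) (L 1 1))))))) (A23
  (P 19 (M 10 (B02 (A12 (B01 (M 9 (S 0 (L 1 1) (L 24 1))) (A01 (A02 (P 0 (S 9 (L 29 1) (L 1 1)))
  (B12 (A23 (P 13 (L 40 7)) (M 7 (L 58 10))) (M 9 (S 0 (L 1 1) (L 24 1))))) (A13 (B12 (S 0 (L 2 1)
  (L 24 1)) (S 0 (L 2 1) (L 24 1))) (B12 (A23 (P 13 (L 40 7)) (M 7 (L 58 10))) (S 0 (L 2 1) (L 24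
  1)))))) (B01 (M 9 (S 0 (L 1 1) (L 24 1))) (A02 (A01 (P 0 (S 9 (L 29 1) (L 1 1))) (out 2)) (out
  2)))) (P 0 (S 9 (L 29 1) (L 1 1)))))) (B02 (P 19 (M 10 (A13 (B01 (M 9 (S 0 (L 1 1) (L 24 1)))
  (A01 (P 0 (S 9 (L 29 1) (L 1 1))) (A12 (B12 (A13 (S 0 (L 2 1) (L 24 1)) (M 7 (L 58 10))) (S 0 (L
  2 1) (L 24 1))) (M 7 (L 58 10))))) (B01 (M 9 (S 0 (L 1 1) (L 24 1))) (P 0 (S 9 (L 29 1) (L 1
  1))))))) (P 0 (A13 (S 9 (L 29 1) (L 1 1)) (A03 (S 9 (L 29 1) (L 1 1)) (A23 (S 9 (L 29 1) (L 1 1))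
  (B12 (S 9 (L 29 1) (L 1 1)) (P 16 (L 49 4)))))))))) (M 7 (P 0 (A03 (P 19 (A01 (B12 (P 13 (K
  [(40,7,5),(58,5,3)] [])) (S 13 (L 40 7) (L 13 7))) (B12 (P 13 (A12 (K
  [(58,5,60),(40,7,38),(40,11,50),(58,10,51)] []) (K [(40,7,3),(58,5,4),(58,10,1)] []))) (A12 (A13
  (K [(58,5,35),(58,10,29)] []) (S 13 (L 40 7) (L 13 7))) (S 13 (L 40 7) (L 13 7)))))) (A23 (P 19
  (M 10 (B12 (A12 (B01 (A01 (A02 (B02 (A03 (P 13 (K [(40,7,3),(40,11,5)] [])) (B01 (S 9 (L 29 1) (L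
  12 1)) (A13 (M 18 (P 13 (K [(38,10,2),(40,7,1),(40,11,5)] []))) (out 2)))) (K
  [(58,5,6),(58,10,2)] [])) (B02 (A23 (P 13 (K [(40,7,3),(58,10,1),(40,11,4)] [])) (B01 (S 9 (L 29
  1) (L 12 1)) (A13 (P 13 (K [(40,7,3),(40,11,5)] [])) (out 2)))) (K [(58,5,5),(58,10,3)] [])))
  (A13 (P 13 (K [(2,1,3),(40,11,2),(58,5,3)] [])) (B02 (A23 (P 13 (K [(58,10,1),(40,7,3),(40,11,4)]
  [])) (S 13 (L 40 11) (L 59 7))) (K [(58,5,5),(58,10,3)] [])))) (M 18 (K [(38,6,5),(58,5,3)] [])))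
  (B01 (S 9 (L 29 1) (L 12 1)) (L 58 5))) (A12 (A01 (S 13 (L 40 7) (L 13 7)) (A13 (K
  [(58,10,11),(58,5,13)] []) (S 13 (L 40 7) (L 13 7)))) (S 9 (L 29 1) (L 12 1)))))) (B12 (P 19 (A13
  (B01 (A01 (A03 (B02 (A02 (M 18 (P 13 (K [(38,10,2),(40,7,1),(40,11,5)] []))) (S 13 (L 40 11) (L
  59 7))) (K [(58,5,6),(58,10,2)] [])) (S 13 (L 40 11) (L 13 11))) (S 13 (L 40 11) (L 13 11))) (M
  18 (K [(38,6,5),(58,5,3)] []))) (B01 (A03 (A01 (B02 (A02 (M 18 (K [(38,10,7),(58,5,17)] [])) (S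
  13 (L 40 11) (L 13 11))) (L 58 5)) (S 13 (L 40 11) (L 13 11))) (A23 (B02 (S 13 (L 40 11) (L 59
  11)) (A12 (M 18 (K [(58,5,1),(38,6,5),(38,10,2)] [])) (L 58 5))) (B02 (A13 (S 13 (L 40 11) (L 59
  11)) (B01 (S 9 (L 29 1) (L 1 1)) (M 18 (K [(58,5,2),(38,6,4),(38,10,3)] [])))) (M 18 (K
  [(58,5,1),(38,6,5),(38,10,2)] []))))) (M 18 (K [(58,5,4),(38,6,4)] []))))) (A13 (P 19 (A01 (A03
  (S 13 (L 40 7) (L 13 7)) (B02 (B01 (S 9 (L 29 1) (L 1 1)) (K [(58,5,5),(58,10,3)] [])) (K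
  [(58,5,5),(58,10,3)] []))) (A12 (K [(58,10,4),(58,5,4)] []) (B02 (B01 (S 9 (L 29 1) (L 1 1)) (K
  [(58,5,5),(58,10,3)] [])) (K [(58,5,5),(58,10,3)] []))))) (A03 (P 19 (A01 (S 13 (L 40 7) (L 13
  7)) (B02 (B01 (S 9 (L 29 1) (L 1 1)) (K [(58,5,5),(58,10,3)] [])) (K [(58,5,5),(58,10,3)] []))))
  (A23 (P 19 (B02 (B01 (S 9 (L 29 1) (L 1 1)) (P 16 (K [(49,4,7),(58,5,6),(49,2,3),(58,10,8)] [])))
  (P 16 (K [(49,4,2),(58,5,3),(58,10,3)] [])))) (B02 (P 19 (M 10 (B01 (S 9 (L 29 1) (L 1 1)) (P 16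
  (K [(2,8,2),(49,4,2),(49,2,1),(58,10,3)] []))))) (P 16 (K [(49,4,6),(49,2,2)] [])))))))))))))))
  (A13 (P 4 (M 3 (A01 (A03 (B02 (B01 (A02 (A01 (A03 (B02 (B01 (A02 (A01 (S 9 (L 29 1) (L 12 1)) (P
  18 (L 54 10))) (P 18 (L 54 10))) (S 9 (L 29 1) (L 12 1))) (S 9 (L 29 1) (L 12 1))) (B02 (B01 (P
  18 (L 54 10)) (S 9 (L 29 1) (L 12 1))) (S 9 (L 29 1) (L 12 1)))) (A12 (B02 (B01 (P 18 (L 54 10))
  (A13 (out 4) (B12 (P 13 (L 40 7)) (P 18 (L 54 10))))) (B12 (A13 (out 4) (B01 (P 18 (L 54 10)) (P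
  13 (L 40 7)))) (P 18 (L 54 10)))) (B02 (B01 (P 18 (L 54 10)) (S 9 (L 29 1) (L 12 1))) (S 9 (L 29
  1) (L 12 1))))) (M 9 (S 0 (L 1 1) (L 24 1)))) (P 0 (S 9 (L 29 1) (L 1 1)))) (P 0 (S 9 (L 29 1) (L
  1 1)))) (B02 (B01 (M 9 (S 0 (L 1 1) (L 24 1))) (A23 (P 0 (S 9 (L 29 1) (L 1 1))) (B12 (P 0 (S 9
  (L 29 1) (L 1 1))) (M 9 (S 0 (L 1 1) (L 24 1)))))) (B12 (A23 (P 0 (S 9 (L 29 1) (L 1 1))) (B01 (M
  9 (S 0 (L 1 1) (L 24 1))) (P 0 (S 9 (L 29 1) (L 1 1))))) (M 9 (S 0 (L 1 1) (L 24 1)))))) (out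
  4)))) (A03 (P 4 (M 3 (A01 (B02 (B01 (A02 (A03 (A01 (B02 (B01 (A02 (S 9 (L 29 1) (L 12 1)) (P 18
  (L 54 10))) (S 9 (L 29 1) (L 12 1))) (S 9 (L 29 1) (L 12 1))) (B02 (B01 (P 18 (L 54 10)) (S 9 (L
  29 1) (L 12 1))) (S 9 (L 29 1) (L 12 1)))) (A23 (B02 (B01 (P 18 (L 54 10)) (S 9 (L 29 1) (L 12
  1))) (P 0 (S 9 (L 29 1) (L 1 1)))) (B02 (B01 (M 9 (S 0 (L 1 1) (L 24 1))) (P 0 (S 9 (L 29 1) (L 1
  1)))) (P 0 (S 9 (L 29 1) (L 1 1)))))) (M 9 (S 0 (L 1 1) (L 24 1)))) (P 0 (S 9 (L 29 1) (L 1 1))))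
  (M 7 (P 0 (B12 (S 9 (L 29 1) (L 1 1)) (A02 (A03 (A01 (B02 (P 19 (L 58 5)) (B12 (P 19 (L 58 5)) (P
  16 (L 49 4)))) (P 16 (L 49 4))) (P 16 (L 49 4))) (P 16 (L 49 4))))))) (B02 (B01 (M 9 (S 0 (L 1 1)
  (L 24 1))) (A12 (B12 (P 0 (S 9 (L 29 1) (L 1 1))) (M 9 (S 0 (L 1 1) (L 24 1)))) (P 0 (S 9 (L 29
  1) (L 1 1))))) (B12 (A12 (B01 (A13 (M 9 (S 0 (L 1 1) (L 24 1))) (P 0 (S 9 (L 29 1) (L 1 1)))) (P
  0 (S 9 (L 29 1) (L 1 1)))) (P 0 (S 9 (L 29 1) (L 1 1)))) (P 16 (L 49 4))))))) (A23 (B02 (B01 (M 9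
  (S 0 (L 1 1) (L 24 1))) (A12 (B12 (P 0 (S 9 (L 29 1) (L 1 1))) (M 9 (S 0 (L 1 1) (L 24 1)))) (P 0
  (S 9 (L 29 1) (L 1 1))))) (B12 (M 3 (A12 (B01 (P 16 (L 49 4)) (P 0 (S 9 (L 29 1) (L 1 1)))) (P 0
  (S 9 (L 29 1) (L 1 1))))) (P 16 (M 13 (A12 (A01 (M 7 (A02 (B02 (P 19 (L 59 5)) (B12 (A03 (M 3 (L
  49 4)) (P 18 (L 55 10))) (P 18 (L 55 10)))) (P 18 (L 55 10)))) (P 18 (A13 (P 19 (L 59 5)) (M 7 (L
  55 10))))) (M 7 (A02 (A01 (B02 (P 19 (L 59 5)) (B12 (A03 (M 3 (L 49 4)) (out 2)) (P 18 (L 55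
  10)))) (out 2)) (out 2)))))))) (B02 (B01 (M 9 (A13 (S 0 (L 1 1) (L 24 1)) (S 0 (L 1 1) (L 24
  1)))) (A13 (B12 (P 0 (S 9 (L 29 1) (L 1 1))) (M 9 (S 0 (L 1 1) (L 24 1)))) (P 16 (M 7 (B12 (M 3
  (L 49 4)) (P 18 (L 55 10))))))) (B12 (A13 (M 3 (B01 (P 16 (L 49 4)) (P 0 (S 9 (L 29 1) (L 1
  1))))) (P 16 (M 7 (B01 (A03 (M 3 (L 49 4)) (P 18 (L 55 10))) (M 3 (L 49 4)))))) (P 16 (M 13 (A13
  (A01 (M 7 (A03 (B02 (P 19 (L 59 5)) (B12 (A02 (M 3 (L 49 4)) (P 18 (L 55 10))) (P 18 (L 55 10))))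
  (P 18 (L 55 10)))) (P 18 (A12 (P 19 (L 59 5)) (M 7 (L 55 10))))) (M 7 (A03 (A01 (B02 (B01 (P 18
  (L 55 10)) (A02 (M 3 (L 49 4)) (P 18 (L 55 10)))) (B12 (A02 (M 3 (L 49 4)) (P 18 (L 55 10))) (P
  18 (L 55 10)))) (P 18 (L 55 10))) (P 18 (L 55 10)))))))))))))))))))

/-- its cell -/
def cI3 : Cell :=
  ⟨557056, 557056, 557056, 1114112, 0, 0, 1114112, 0, 1114112, 1114112, 557056, 557056, 0, 0, 0, 5070848, 3129344, 0⟩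

theorem okI3 : check datI tI3 cI3 260 2080 = true := by
  decide +kernel

end Pool.Agent.H315.NW
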