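import Pool.Agent.H315.NW.Data

/-!
# Project NW (helper315): certificates (generated)
-/

set_option autoImplicit false
set_option maxRecDepth 100000

namespace Pool.Agent.H315.NW

open Tr

/-- a part of the certificate -/
def tI4 : Tr :=
  (A23 (M 1 (A02 (M 7 (P 0 (A03 (B12 (P 4 (M 3 (A01 (B01 (M 15 (P 12 (A02 (A03 (B02 (A01 (B01 (S 13
  (L 40 7) (L 13 7)) (S 10 (L 31 8) (L 2 8))) (B01 (A12 (A13 (B02 (A01 (S 13 (L 40 7) (L 13 7)) (S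
  9 (L 29 1) (L 12 1))) (S 13 (L 40 7) (L 13 7))) (S 13 (L 40 7) (L 13 7))) (S 13 (L 40 7) (L 13
  7))) (M 18 (A12 (A13 (B12 (A01 (B01 (S 13 (L 40 7) (L 13 7)) (S 10 (L 31 8) (L 2 8))) (B01 (S 13
  (L 40 7) (L 13 7)) (S 10 (L 31 8) (L 2 8)))) (S 13 (L 40 7) (L 13 7))) (B12 (A03 (B01 (S 13 (L 40
  7) (L 13 7)) (S 10 (L 31 8) (L 2 8))) (L 38 10)) (S 13 (L 40 7) (L 13 7)))) (A02 (B12 (A03 (B01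
  (S 13 (L 40 7) (L 13 7)) (S 10 (L 31 8) (L 2 8))) (L 38 10)) (S 13 (L 40 7) (L 13 7))) (L 38
  10)))))) (S 10 (L 31 8) (L 2 8))) (B02 (A13 (B01 (A12 (A01 (B02 (A03 (M 18 (L 38 10)) (S 9 (L 29
  1) (L 12 1))) (M 18 (L 38 10))) (B02 (S 9 (L 29 1) (L 12 1)) (M 18 (L 38 10)))) (A23 (M 18 (L 38
  10)) (B02 (A03 (M 18 (L 38 10)) (S 9 (L 29 1) (L 12 1))) (M 18 (L 38 10))))) (M 18 (A12 (A01 (L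
  38 10) (B12 (A13 (B01 (S 13 (L 40 7) (L 13 7)) (S 10 (L 31 8) (L 2 8))) (L 38 10)) (S 13 (L 40 7)
  (L 13 7)))) (L 38 10)))) (B01 (A23 (A12 (B02 (A01 (M 18 (L 38 10)) (S 9 (L 29 1) (L 12 1))) (M 18
  (L 38 10))) (M 18 (L 38 10))) (A03 (B02 (A01 (M 18 (L 38 10)) (S 9 (L 29 1) (L 12 1))) (M 18 (L
  38 10))) (B02 (S 9 (L 29 1) (L 12 1)) (M 18 (L 38 10))))) (M 18 (L 38 10)))) (S 10 (L 31 8) (L 2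
  8)))) (A12 (B02 (A13 (B01 (A01 (A03 (S 9 (L 29 1) (L 12 1)) (B02 (S 9 (L 29 1) (L 12 1)) (M 18 (L
  38 10)))) (A12 (B02 (S 9 (L 29 1) (L 12 1)) (M 18 (L 38 10))) (B02 (S 9 (L 29 1) (L 12 1)) (M 18
  (L 38 10))))) (M 18 (A01 (L 38 10) (A12 (B12 (P 19 (K [(38,10,4),(58,5,4)] [])) (S 13 (L 40 7) (L
  13 7))) (L 38 10))))) (B01 (A03 (A01 (S 9 (L 29 1) (L 12 1)) (B02 (S 9 (L 29 1) (L 12 1)) (M 18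
  (L 38 10)))) (A23 (B02 (S 9 (L 29 1) (L 12 1)) (M 18 (L 38 10))) (B02 (S 9 (L 29 1) (L 12 1)) (M
  18 (L 38 10))))) (M 18 (L 38 10)))) (S 10 (L 31 8) (L 2 8))) (B02 (A23 (S 9 (L 29 1) (L 12 1))
  (B01 (A03 (S 9 (L 29 1) (L 12 1)) (A13 (S 9 (L 29 1) (L 12 1)) (B02 (S 9 (L 29 1) (L 12 1)) (M 18
  (L 38 10))))) (M 18 (L 38 10)))) (M 18 (L 38 10))))))) (A02 (A03 (B12 (A01 (S 10 (L 31 8) (L 2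
  8)) (S 10 (L 31 8) (L 2 8))) (A01 (A02 (A03 (B02 (B01 (A01 (A02 (P 10 (L 31 8)) (S 10 (L 31 8) (L
  2 8))) (S 10 (L 31 8) (L 2 8))) (P 10 (L 31 8))) (P 10 (L 31 8))) (S 10 (L 31 8) (L 2 8))) (S 10
  (L 31 8) (L 2 8))) (S 10 (L 31 8) (L 2 8)))) (S 10 (L 31 8) (L 2 8))) (A12 (S 10 (L 31 8) (L 2
  8)) (S 10 (L 31 8) (L 2 8))))) (M 15 (P 12 (B01 (A12 (A13 (B02 (A01 (B01 (A02 (P 16 (L 49 4)) (S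
  9 (L 29 1) (L 1 1))) (A02 (A03 (B12 (P 19 (A01 (M 18 (K [(38,10,4),(58,5,4)] [])) (B01 (P 16 (L
  49 4)) (M 18 (K [(38,10,3),(58,5,5)] []))))) (P 16 (L 49 4))) (S 13 (L 40 7) (L 13 7))) (S 13 (L
  40 7) (L 13 7)))) (S 13 (L 40 7) (L 13 7))) (A01 (A02 (A03 (B12 (B01 (P 16 (L 49 4)) (S 10 (L 31
  8) (L 2 8))) (P 16 (L 49 4))) (B12 (B01 (P 16 (L 49 4)) (S 10 (L 31 8) (L 2 8))) (P 16 (L 49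
  4)))) (A12 (B12 (P 19 (L 58 5)) (P 16 (L 49 4))) (B12 (S 9 (L 29 1) (L 12 1)) (P 16 (L 49 4)))))
  (A12 (P 16 (L 49 4)) (A02 (P 16 (L 49 4)) (B12 (S 9 (L 29 1) (L 1 1)) (P 16 (L 49 4))))))) (B02
  (A03 (B01 (A02 (P 16 (L 49 4)) (A23 (S 9 (L 29 1) (L 1 1)) (P 16 (L 49 4)))) (A02 (A01 (M 18 (B12
  (P 19 (K [(38,10,4),(58,5,4)] [])) (P 16 (L 49 4)))) (B12 (S 9 (L 29 1) (L 12 1)) (P 16 (L 49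
  4)))) (A23 (S 9 (L 29 1) (L 12 1)) (B12 (S 9 (L 29 1) (L 12 1)) (P 16 (L 49 4)))))) (B01 (A23
  (A02 (P 16 (L 49 4)) (S 9 (L 29 1) (L 1 1))) (P 16 (L 49 4))) (A23 (A02 (B12 (S 9 (L 29 1) (L 12
  1)) (P 16 (L 49 4))) (S 9 (L 29 1) (L 12 1))) (A13 (B12 (P 19 (L 58 5)) (P 16 (L 49 4))) (M 18 (L
  38 10)))))) (A03 (A02 (A01 (S 10 (L 31 8) (L 2 8)) (B12 (B01 (P 16 (L 49 4)) (M 18 (L 38 10))) (P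
  16 (L 49 4)))) (A23 (B12 (P 19 (L 58 5)) (P 16 (L 49 4))) (B12 (B01 (P 16 (L 49 4)) (M 18 (L 38
  10))) (P 16 (L 49 4))))) (A23 (A02 (B12 (B01 (P 16 (L 49 4)) (M 18 (L 38 10))) (P 16 (L 49 4)))
  (B12 (P 19 (L 58 5)) (P 16 (L 49 4)))) (A13 (B12 (B01 (P 16 (L 49 4)) (M 18 (L 38 10))) (P 16 (L
  49 4))) (M 18 (L 38 10))))))) (A02 (B02 (A03 (B01 (A01 (A02 (B02 (S 9 (L 29 1) (L 1 1)) (A03 (A01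
  (M 18 (L 38 10)) (A13 (S 9 (L 29 1) (L 12 1)) (M 18 (L 38 10)))) (A13 (A01 (M 18 (L 38 10)) (S 9
  (L 29 1) (L 12 1))) (M 18 (L 38 10))))) (B02 (S 9 (L 29 1) (L 1 1)) (A23 (S 9 (L 29 1) (L 12 1))
  (A13 (S 9 (L 29 1) (L 12 1)) (M 18 (L 38 10)))))) (A13 (S 9 (L 29 1) (L 1 1)) (B02 (S 9 (L 29 1)
  (L 1 1)) (A23 (S 9 (L 29 1) (L 12 1)) (P 16 (L 49 4)))))) (A01 (M 18 (A02 (B12 (P 19 (K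
  [(38,10,4),(58,5,4)] [])) (S 13 (L 40 7) (L 13 7))) (L 38 10))) (A13 (S 9 (L 29 1) (L 12 1)) (M
  18 (L 38 10))))) (B01 (A13 (A01 (B02 (S 9 (L 29 1) (L 12 1)) (A02 (P 16 (L 49 4)) (S 9 (L 29 1)
  (L 12 1)))) (S 9 (L 29 1) (L 1 1))) (A23 (B02 (S 9 (L 29 1) (L 12 1)) (A02 (P 16 (L 49 4)) (S 9
  (L 29 1) (L 12 1)))) (P 16 (L 49 4)))) (A13 (A01 (M 18 (L 38 10)) (S 9 (L 29 1) (L 12 1))) (M 18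
  (L 38 10))))) (A03 (A01 (S 10 (L 31 8) (L 2 8)) (A13 (B12 (P 19 (L 58 5)) (B02 (P 19 (L 58 5)) (M
  18 (L 38 10)))) (M 18 (L 38 10)))) (A13 (A01 (M 18 (L 38 10)) (B12 (P 19 (L 58 5)) (B02 (P 19 (L
  58 5)) (M 18 (L 38 10))))) (M 18 (L 38 10))))) (B02 (A23 (S 9 (L 29 1) (L 1 1)) (B01 (A13 (S 9 (L
  29 1) (L 1 1)) (A03 (S 9 (L 29 1) (L 12 1)) (B02 (S 9 (L 29 1) (L 12 1)) (A23 (P 19 (L 58 5)) (P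
  16 (L 49 4)))))) (A13 (S 9 (L 29 1) (L 12 1)) (M 18 (L 38 10))))) (A23 (P 19 (L 58 5)) (A13 (A12
  (B12 (P 19 (L 58 5)) (B02 (P 19 (L 58 5)) (M 18 (L 38 10)))) (M 18 (L 38 10))) (M 18 (L 38
  10))))))) (A12 (A13 (B12 (A01 (B01 (A02 (S 10 (L 31 8) (L 2 8)) (A12 (S 10 (L 31 8) (L 2 8)) (S
  13 (L 40 7) (L 13 7)))) (S 10 (L 31 8) (L 2 8))) (B01 (A12 (A13 (B02 (P 19 (A01 (M 18 (K
  [(58,5,5),(38,10,3)] [])) (B01 (P 16 (K [(49,4,5),(58,5,3)] [])) (L 58 5)))) (S 10 (L 31 8) (L 2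
  8))) (M 18 (B02 (P 19 (K [(58,5,6),(38,10,2)] [])) (S 10 (L 31 8) (L 2 8))))) (M 18 (A02 (B02 (P
  19 (K [(58,5,6),(38,10,2)] [])) (S 10 (L 31 8) (L 2 8))) (S 13 (L 40 7) (L 13 7))))) (S 10 (L 31
  8) (L 2 8)))) (A01 (A02 (S 10 (L 31 8) (L 2 8)) (S 13 (L 40 7) (L 13 7))) (A12 (P 16 (L 49 4)) (S
  13 (L 40 7) (L 13 7))))) (S 10 (L 31 8) (L 2 8))) (A02 (S 10 (L 31 8) (L 2 8)) (S 10 (L 31 8) (L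
  2 8)))))))))) (M 15 (P 12 (A01 (P 4 (M 3 (A02 (A03 (B02 (B01 (A01 (S 13 (L 40 7) (L 13 7)) (A12
  (P 16 (L 49 4)) (S 13 (L 40 7) (L 13 7)))) (A01 (S 10 (L 31 8) (L 2 8)) (B12 (S 10 (L 31 8) (L 2
  8)) (A12 (P 16 (L 49 4)) (S 10 (L 31 8) (L 2 8)))))) (B12 (A01 (S 10 (L 31 8) (L 2 8)) (B01 (A12
  (P 10 (L 31 8)) (S 10 (L 31 8) (L 2 8))) (S 10 (L 31 8) (L 2 8)))) (P 16 (L 49 4)))) (B02 (B01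
  (A13 (A12 (P 16 (L 49 4)) (A23 (M 18 (L 38 10)) (P 16 (L 49 4)))) (A23 (A12 (P 16 (L 49 4)) (M 18
  (L 38 10))) (P 16 (L 49 4)))) (A13 (B12 (S 10 (L 31 8) (L 2 8)) (A12 (P 16 (L 49 4)) (M 18 (L 38
  10)))) (M 18 (L 38 10)))) (B12 (A13 (B01 (A12 (P 10 (L 31 8)) (M 18 (L 38 10))) (S 10 (L 31 8) (L
  2 8))) (M 18 (L 38 10))) (P 16 (L 49 4))))) (A12 (B02 (B01 (A13 (A01 (A03 (B02 (S 9 (L 29 1) (L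
  12 1)) (B12 (P 19 (L 58 5)) (A02 (M 18 (L 38 10)) (P 16 (L 49 4))))) (B02 (B01 (S 9 (L 29 1) (L
  12 1)) (A23 (S 9 (L 29 1) (L 12 1)) (M 18 (L 38 10)))) (B12 (A23 (P 19 (L 58 5)) (M 18 (L 38
  10))) (P 16 (L 49 4))))) (A12 (P 16 (L 49 4)) (B02 (B01 (S 9 (L 29 1) (L 12 1)) (A23 (S 9 (L 29
  1) (L 12 1)) (P 16 (L 49 4)))) (B12 (A23 (P 19 (L 58 5)) (P 16 (L 49 4))) (P 16 (L 49 4))))))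
  (A03 (A01 (B02 (S 9 (L 29 1) (L 12 1)) (B12 (P 19 (L 58 5)) (A02 (M 18 (L 38 10)) (P 16 (L 49
  4))))) (B02 (B01 (S 9 (L 29 1) (L 12 1)) (A12 (M 18 (L 38 10)) (S 9 (L 29 1) (L 12 1)))) (B12
  (A12 (M 18 (L 38 10)) (P 19 (L 58 5))) (P 16 (L 49 4))))) (A23 (B02 (B01 (S 9 (L 29 1) (L 12 1))
  (A12 (M 18 (L 38 10)) (S 9 (L 29 1) (L 12 1)))) (B12 (A12 (M 18 (L 38 10)) (P 19 (L 58 5))) (P 16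
  (L 49 4)))) (P 16 (L 49 4))))) (A13 (B12 (S 10 (L 31 8) (L 2 8)) (A01 (M 18 (L 38 10)) (A12 (P 16
  (L 49 4)) (M 18 (L 38 10))))) (M 18 (L 38 10)))) (B12 (A13 (B01 (A01 (M 18 (L 38 10)) (P 16 (L 49
  4))) (S 10 (L 31 8) (L 2 8))) (M 18 (L 38 10))) (P 16 (L 49 4)))) (B02 (B01 (A23 (S 9 (L 29 1) (L
  12 1)) (A03 (A02 (B02 (S 9 (L 29 1) (L 12 1)) (B12 (P 19 (L 58 5)) (A01 (M 18 (L 38 10)) (P 16 (L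
  49 4))))) (B02 (S 9 (L 29 1) (L 12 1)) (B12 (P 19 (L 58 5)) (P 16 (L 49 4))))) (A13 (B02 (S 9 (L
  29 1) (L 12 1)) (B12 (P 19 (L 58 5)) (P 16 (L 49 4)))) (P 16 (L 49 4))))) (M 18 (L 38 10))) (M 18
  (L 38 10))))))) (A12 (P 16 (A13 (B02 (B01 (A01 (M 3 (L 49 4)) (P 18 (L 55 10))) (A01 (M 3 (L 49
  4)) (B12 (M 3 (L 49 4)) (P 18 (L 55 10))))) (B12 (A01 (M 3 (L 49 4)) (B01 (A12 (A13 (P 18 (L 55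
  10)) (M 3 (L 49 4))) (M 3 (L 49 4))) (M 3 (L 49 4)))) (A01 (A02 (A03 (B02 (M 3 (L 49 4)) (P 10 (L
  31 8))) (B02 (M 3 (L 49 4)) (P 10 (L 31 8)))) (A12 (B02 (M 3 (L 49 4)) (P 10 (L 31 8))) (B02 (M 3
  (L 49 4)) (B12 (M 3 (L 49 4)) (A23 (M 3 (L 49 4)) (P 10 (L 31 8))))))) (A12 (A13 (P 18 (L 55 10))
  (B02 (B01 (P 18 (L 55 10)) (A03 (P 18 (L 55 10)) (B12 (M 3 (L 49 4)) (P 18 (L 55 10))))) (P 10 (L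
  31 8)))) (A02 (B02 (M 3 (L 49 4)) (P 10 (L 31 8))) (B02 (M 3 (L 49 4)) (B12 (M 3 (L 49 4)) (P 18
  (L 55 10))))))))) (B02 (M 3 (L 49 4)) (B12 (M 3 (L 49 4)) (A03 (A02 (A01 (M 3 (L 49 4)) (B02 (M 3
  (L 49 4)) (P 10 (L 31 8)))) (A23 (B02 (M 3 (L 49 4)) (B12 (M 3 (L 49 4)) (A12 (P 10 (L 31 8)) (M
  3 (L 49 4))))) (B02 (M 3 (L 49 4)) (P 10 (L 31 8))))) (A23 (A02 (B02 (M 3 (L 49 4)) (P 10 (L 31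
  8))) (B02 (M 3 (L 49 4)) (B12 (M 3 (L 49 4)) (A12 (P 10 (L 31 8)) (M 3 (L 49 4)))))) (P 10 (L 31
  8)))))))) (P 4 (M 3 (A02 (B02 (B01 (A03 (A01 (A02 (P 16 (L 49 4)) (B02 (B01 (S 9 (L 29 1) (L 1
  1)) (A23 (S 9 (L 29 1) (L 1 1)) (P 16 (L 49 4)))) (B12 (A23 (S 9 (L 29 1) (L 1 1)) (P 16 (L 49
  4))) (P 16 (L 49 4))))) (A13 (S 9 (L 29 1) (L 1 1)) (B02 (B01 (S 9 (L 29 1) (L 1 1)) (A23 (S 9 (L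
  29 1) (L 1 1)) (P 16 (L 49 4)))) (B12 (A23 (S 9 (L 29 1) (L 1 1)) (P 16 (L 49 4))) (P 16 (L 49
  4)))))) (A13 (A01 (B02 (B01 (S 9 (L 29 1) (L 1 1)) (A02 (P 16 (L 49 4)) (S 9 (L 29 1) (L 12 1))))
  (B12 (A02 (P 16 (L 49 4)) (P 19 (L 58 5))) (P 16 (L 49 4)))) (B02 (S 9 (L 29 1) (L 1 1)) (B12 (S
  9 (L 29 1) (L 1 1)) (P 16 (L 49 4))))) (A23 (B02 (B01 (S 9 (L 29 1) (L 1 1)) (A02 (P 16 (L 49 4))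
  (S 9 (L 29 1) (L 12 1)))) (B12 (A02 (P 16 (L 49 4)) (P 19 (L 58 5))) (P 16 (L 49 4)))) (P 16 (L
  49 4))))) (A03 (B12 (A01 (S 10 (L 31 8) (L 2 8)) (A13 (B01 (P 19 (L 58 5)) (A12 (P 16 (L 49 4))
  (M 18 (L 38 10)))) (M 18 (L 38 10)))) (A01 (A02 (P 16 (L 49 4)) (B02 (A23 (A12 (P 16 (L 49 4)) (M
  18 (L 38 10))) (P 16 (L 49 4))) (P 16 (L 49 4)))) (A13 (P 19 (L 58 5)) (B02 (A23 (A02 (P 16 (L 49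
  4)) (A12 (P 16 (L 49 4)) (M 18 (L 38 10)))) (P 16 (L 49 4))) (P 16 (L 49 4)))))) (B12 (A13 (A01
  (M 18 (L 38 10)) (B01 (A12 (P 16 (L 49 4)) (M 18 (L 38 10))) (A12 (P 16 (L 49 4)) (M 18 (L 38
  10))))) (M 18 (L 38 10))) (A13 (A01 (B02 (A02 (P 16 (L 49 4)) (A23 (A12 (P 16 (L 49 4)) (M 18 (L
  38 10))) (P 16 (L 49 4)))) (P 16 (L 49 4))) (B02 (A12 (P 16 (L 49 4)) (A23 (P 19 (L 58 5)) (P 16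
  (L 49 4)))) (P 16 (L 49 4)))) (A23 (B02 (M 18 (L 38 10)) (P 16 (L 49 4))) (P 16 (L 49 4)))))))
  (B12 (A03 (B01 (P 16 (L 49 4)) (A01 (S 10 (L 31 8) (L 2 8)) (A13 (B12 (A12 (P 16 (L 49 4)) (M 18
  (L 38 10))) (P 16 (L 49 4))) (M 18 (L 38 10))))) (B01 (P 16 (L 49 4)) (A13 (A01 (M 18 (L 38 10))
  (B12 (A12 (P 16 (L 49 4)) (M 18 (L 38 10))) (P 16 (L 49 4)))) (M 18 (L 38 10))))) (P 16 (L 49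
  4)))) (B02 (B01 (A23 (S 9 (L 29 1) (L 1 1)) (A13 (A12 (B02 (S 9 (L 29 1) (L 1 1)) (B12 (S 9 (L 29
  1) (L 1 1)) (P 16 (L 49 4)))) (B02 (S 9 (L 29 1) (L 12 1)) (B12 (P 19 (L 58 5)) (P 16 (L 49
  4))))) (A03 (B02 (S 9 (L 29 1) (L 12 1)) (B12 (P 19 (L 58 5)) (P 16 (L 49 4)))) (P 16 (L 49
  4))))) (A23 (P 19 (L 58 5)) (B12 (A13 (A12 (B01 (A01 (M 18 (L 38 10)) (P 16 (L 49 4))) (A01 (M 18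
  (L 38 10)) (P 16 (L 49 4)))) (M 18 (L 38 10))) (M 18 (L 38 10))) (A13 (A12 (B02 (A01 (A03 (P 19
  (L 58 5)) (P 16 (L 49 4))) (P 16 (L 49 4))) (P 16 (L 49 4))) (B02 (A02 (A03 (P 19 (L 58 5)) (P 16
  (L 49 4))) (P 16 (L 49 4))) (P 16 (L 49 4)))) (A03 (B02 (M 18 (L 38 10)) (P 16 (L 49 4))) (P 16
  (L 49 4))))))) (B12 (A23 (B01 (A12 (P 16 (L 49 4)) (A02 (B02 (P 19 (L 58 5)) (M 18 (L 38 10)))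
  (B02 (P 19 (L 58 5)) (M 18 (L 38 10))))) (A12 (A13 (B12 (P 19 (L 58 5)) (P 16 (L 49 4))) (M 18 (L
  38 10))) (M 18 (L 38 10)))) (B01 (P 16 (L 49 4)) (A13 (A12 (B12 (A01 (M 18 (L 38 10)) (P 16 (L 49
  4))) (P 16 (L 49 4))) (M 18 (L 38 10))) (M 18 (L 38 10))))) (A23 (A12 (P 16 (L 49 4)) (A02 (P 16
  (L 49 4)) (B02 (B01 (P 16 (L 49 4)) (A23 (P 19 (L 58 5)) (P 16 (L 49 4)))) (B12 (A23 (P 19 (L 58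
  5)) (P 16 (L 49 4))) (P 16 (L 49 4)))))) (P 16 (L 49 4))))))))))))) (M 15 (P 12 (B12 (A13 (B01
  (A12 (A01 (B02 (A03 (P 4 (M 3 (B01 (A02 (P 16 (L 49 4)) (S 9 (L 29 1) (L 1 1))) (A02 (A01 (B12 (P
  19 (L 58 5)) (P 16 (L 49 4))) (B12 (P 19 (L 58 5)) (P 16 (L 49 4)))) (S 9 (L 29 1) (L 12 1))))))
  (B01 (A23 (S 9 (L 29 1) (L 1 1)) (P 16 (S 3 (L 9 4) (L 49 4)))) (S 9 (L 29 1) (L 1 1)))) (M 3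
  (A03 (A02 (A01 (M 18 (L 38 10)) (B12 (B01 (P 16 (L 49 4)) (M 18 (L 38 10))) (P 16 (L 49 4))))
  (A23 (B12 (P 19 (L 58 5)) (P 16 (L 49 4))) (B12 (P 19 (L 58 5)) (P 16 (L 49 4))))) (A23 (A02 (P
  16 (L 49 4)) (B12 (P 19 (L 58 5)) (P 16 (L 49 4)))) (P 16 (L 49 4)))))) (B02 (A13 (S 9 (L 29 1)
  (L 1 1)) (B01 (P 18 (L 55 10)) (S 9 (L 29 1) (L 1 1)))) (M 3 (A13 (A12 (P 16 (L 49 4)) (A23 (B12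
  (S 9 (L 29 1) (L 1 1)) (P 16 (L 49 4))) (P 16 (L 49 4)))) (A23 (A12 (P 16 (L 49 4)) (B12 (P 19 (L
  58 5)) (P 16 (L 49 4)))) (P 16 (L 49 4))))))) (A23 (P 4 (M 3 (B02 (A02 (B01 (A01 (A03 (B02 (S 9
  (L 29 1) (L 12 1)) (A02 (P 16 (L 49 4)) (P 19 (L 58 5)))) (S 9 (L 29 1) (L 12 1))) (S 9 (L 29 1)
  (L 1 1))) (A01 (A03 (M 18 (L 38 10)) (S 9 (L 29 1) (L 12 1))) (S 9 (L 29 1) (L 12 1)))) (S 9 (L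
  29 1) (L 1 1))) (A02 (A01 (A03 (M 18 (L 38 10)) (B12 (P 19 (L 58 5)) (B02 (P 19 (L 58 5)) (M 18
  (L 38 10))))) (A12 (B12 (P 19 (L 58 5)) (B02 (P 19 (L 58 5)) (M 18 (L 38 10)))) (B12 (P 19 (L 58
  5)) (B02 (P 19 (L 58 5)) (M 18 (L 38 10)))))) (P 19 (L 58 5)))))) (B02 (A03 (P 4 (M 3 (B01 (A01
  (P 16 (L 49 4)) (S 9 (L 29 1) (L 1 1))) (A01 (A02 (B12 (P 19 (L 58 5)) (P 16 (L 49 4))) (S 9 (L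
  29 1) (L 12 1))) (S 9 (L 29 1) (L 12 1)))))) (B01 (A13 (S 9 (L 29 1) (L 1 1)) (out 2)) (S 9 (L 29
  1) (L 1 1)))) (M 3 (A03 (A01 (A02 (M 18 (L 38 10)) (B12 (P 19 (L 58 5)) (B02 (A23 (P 19 (L 58 5))
  (P 16 (L 49 4))) (M 18 (L 38 10))))) (A13 (B12 (P 19 (L 58 5)) (B02 (P 19 (L 58 5)) (M 18 (L 38
  10)))) (B12 (P 19 (L 58 5)) (B02 (A23 (P 19 (L 58 5)) (P 16 (L 49 4))) (M 18 (L 38 10)))))) (A13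
  (A01 (B12 (P 19 (L 58 5)) (B02 (A02 (P 16 (L 49 4)) (P 19 (L 58 5))) (A02 (P 16 (L 49 4)) (P 19
  (L 58 5))))) (P 19 (L 58 5))) (out 2))))))) (P 4 (M 3 (A12 (A01 (B12 (A03 (S 10 (L 31 8) (L 2 8))
  (B01 (A23 (M 18 (L 38 10)) (A13 (M 18 (L 38 10)) (out 2))) (S 10 (L 31 8) (L 2 8)))) (A03 (M 18
  (L 38 10)) (A23 (M 18 (L 38 10)) (P 16 (L 49 4))))) (B12 (A13 (B01 (A12 (A01 (B02 (S 13 (L 40 11)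
  (L 13 7)) (S 10 (L 31 8) (L 2 8))) (P 19 (B02 (A13 (B01 (P 16 (L 49 4)) (L 58 5)) (S 13 (L 40 11)
  (L 13 7))) (L 58 5)))) (A23 (S 13 (L 40 7) (L 13 7)) (B02 (S 13 (L 40 7) (L 13 7)) (S 10 (L 31 8)
  (L 2 8))))) (S 10 (L 31 8) (L 2 8))) (B01 (A23 (A12 (B02 (P 19 (L 58 5)) (M 18 (L 38 10))) (M 18
  (L 38 10))) (A03 (B02 (P 19 (L 58 5)) (M 18 (L 38 10))) (out 2))) (S 10 (L 31 8) (L 2 8)))) (A13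
  (A12 (P 16 (L 49 4)) (A23 (S 13 (L 40 7) (L 13 7)) (P 16 (L 49 4)))) (A23 (A12 (P 16 (L 49 4)) (M
  18 (L 38 10))) (P 16 (L 49 4)))))) (A23 (S 10 (L 31 8) (L 2 8)) (B12 (A03 (S 10 (L 31 8) (L 2 8))
  (P 19 (L 58 5))) (A03 (M 18 (L 38 10)) (A13 (M 18 (L 38 10)) (out 2))))))))) (B01 (A23 (A12 (B02
  (A01 (P 4 (M 3 (B01 (P 16 (L 49 4)) (A03 (A02 (B12 (P 19 (L 58 5)) (P 16 (L 49 4))) (S 9 (L 29 1)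
  (L 12 1))) (out 2))))) (out 2)) (M 3 (A01 (A03 (A02 (M 18 (L 38 10)) (B12 (P 19 (L 58 5)) (B02
  (A12 (P 16 (L 49 4)) (P 19 (L 58 5))) (M 18 (L 38 10))))) (out 2)) (out 2)))) (P 4 (M 3 (B02 (A02
  (B01 (A03 (A01 (B02 (S 9 (L 29 1) (L 12 1)) (A02 (P 16 (L 49 4)) (P 19 (L 58 5)))) (S 9 (L 29 1)
  (L 12 1))) (S 9 (L 29 1) (L 12 1))) (A03 (A01 (M 18 (L 38 10)) (S 9 (L 29 1) (L 12 1))) (S 9 (L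
  29 1) (L 12 1)))) (S 9 (L 29 1) (L 12 1))) (A02 (A03 (A01 (M 18 (L 38 10)) (B12 (P 19 (L 58 5))
  (B02 (P 19 (L 58 5)) (M 18 (L 38 10))))) (A23 (B12 (P 19 (L 58 5)) (B02 (P 19 (L 58 5)) (M 18 (L
  38 10)))) (out 2))) (P 19 (L 58 5))))))) (A03 (B02 (A01 (M 3 (B01 (P 16 (L 49 4)) (A02 (A03 (B12
  (P 19 (L 58 5)) (P 16 (L 49 4))) (out 2)) (out 2)))) (out 2)) (A01 (A02 (M 18 (L 38 10)) (out 2))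
  (out 2))) (out 2))) (A23 (A12 (B12 (A01 (M 18 (L 38 10)) (out 2)) (A01 (M 18 (L 38 10)) (out 2)))
  (S 10 (L 31 8) (L 2 8))) (A03 (B12 (A01 (M 18 (L 38 10)) (out 2)) (A01 (M 18 (L 38 10)) (out 2)))
  (out 2))))) (A13 (A12 (P 16 (A01 (B02 (B01 (A03 (M 3 (L 49 4)) (A23 (M 3 (L 49 4)) (A13 (M 3 (L
  49 4)) (out 2)))) (A03 (M 3 (L 49 4)) (B12 (M 3 (L 49 4)) (A23 (M 3 (L 49 4)) (A13 (M 3 (L 49 4))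
  (out 2)))))) (B12 (A03 (M 3 (L 49 4)) (B01 (A23 (M 3 (L 49 4)) (A13 (M 3 (L 49 4)) (out 2))) (M 3
  (L 49 4)))) (A03 (A02 (P 10 (L 31 8)) (A23 (B02 (M 3 (L 49 4)) (B12 (M 3 (L 49 4)) (A12 (P 10 (L
  31 8)) (M 3 (L 49 4))))) (B02 (M 3 (L 49 4)) (P 10 (L 31 8))))) (A23 (A02 (B02 (M 3 (L 49 4)) (P
  10 (L 31 8))) (B02 (M 3 (L 49 4)) (B12 (M 3 (L 49 4)) (P 18 (L 55 10))))) (A13 (B02 (B01 (P 18 (L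
  55 10)) (P 10 (L 31 8))) (P 10 (L 31 8))) (out 2)))))) (B02 (B01 (P 18 (L 55 10)) (A13 (B12 (M 3
  (L 49 4)) (P 18 (L 55 10))) (B12 (M 3 (L 49 4)) (P 18 (L 55 10))))) (B12 (A13 (B01 (A12 (A01 (B02
  (P 18 (L 55 10)) (A03 (M 3 (L 49 4)) (P 18 (L 55 10)))) (P 18 (L 55 10))) (A23 (M 3 (L 49 4))
  (B02 (P 18 (L 55 10)) (A03 (M 3 (L 49 4)) (P 18 (L 55 10)))))) (M 3 (L 49 4))) (B01 (A23 (A12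
  (B02 (P 18 (L 55 10)) (A01 (M 3 (L 49 4)) (out 2))) (M 3 (L 49 4))) (A03 (B02 (P 18 (L 55 10))
  (A01 (M 3 (L 49 4)) (out 2))) (out 2))) (M 3 (L 49 4)))) (A13 (A12 (A01 (B02 (B01 (P 18 (L 55
  10)) (A03 (B12 (M 3 (L 49 4)) (P 18 (L 55 10))) (P 18 (L 55 10)))) (P 10 (L 31 8))) (P 18 (L 55
  10))) (A23 (B02 (M 3 (L 49 4)) (B12 (M 3 (L 49 4)) (P 18 (L 55 10)))) (B02 (B01 (P 18 (L 55 10))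
  (A03 (B12 (M 3 (L 49 4)) (P 18 (L 55 10))) (P 18 (L 55 10)))) (P 10 (L 31 8))))) (A23 (A12 (B02
  (B01 (P 18 (L 55 10)) (A01 (B12 (M 3 (L 49 4)) (P 18 (L 55 10))) (out 2))) (P 10 (L 31 8))) (B02
  (M 3 (L 49 4)) (B12 (M 3 (L 49 4)) (P 18 (L 55 10))))) (A03 (B02 (B01 (P 18 (L 55 10)) (P 10 (L
  31 8))) (P 10 (L 31 8))) (out 2)))))))) (A23 (M 3 (B02 (B01 (A02 (P 16 (L 49 4)) (S 9 (L 29 1) (L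
  1 1))) (A02 (B12 (A01 (A03 (M 18 (L 38 10)) (B01 (A23 (M 18 (L 38 10)) (P 16 (L 49 4))) (M 18 (L
  38 10)))) (A12 (P 16 (L 49 4)) (B01 (A23 (M 18 (L 38 10)) (P 16 (L 49 4))) (M 18 (L 38 10))))) (P
  16 (L 49 4))) (P 19 (L 58 5)))) (B12 (A02 (B01 (P 16 (L 49 4)) (A01 (M 18 (L 38 10)) (A12 (P 16
  (L 49 4)) (M 18 (L 38 10))))) (B01 (A12 (P 16 (L 49 4)) (A23 (B02 (P 19 (L 58 5)) (M 18 (L 38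
  10))) (P 16 (L 49 4)))) (A12 (A01 (M 18 (L 38 10)) (B12 (P 19 (L 58 5)) (P 16 (L 49 4)))) (M 18
  (L 38 10))))) (A02 (P 16 (L 49 4)) (A12 (P 16 (L 49 4)) (A23 (B02 (B01 (P 16 (L 49 4)) (A02 (P 16
  (L 49 4)) (P 19 (L 58 5)))) (B12 (A02 (P 16 (L 49 4)) (P 19 (L 58 5))) (P 16 (L 49 4)))) (P 16 (L
  49 4)))))))) (P 16 (B02 (B01 (A03 (M 3 (L 49 4)) (A13 (M 3 (L 49 4)) (out 2))) (A03 (M 3 (L 49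
  4)) (B12 (M 3 (L 49 4)) (A13 (M 3 (L 49 4)) (out 2))))) (B12 (A03 (M 3 (L 49 4)) (B01 (A13 (M 3
  (L 49 4)) (out 2)) (M 3 (L 49 4)))) (A03 (M 3 (L 49 4)) (A13 (A01 (B02 (M 3 (L 49 4)) (P 10 (L 31
  8))) (B02 (M 3 (L 49 4)) (B12 (M 3 (L 49 4)) (P 18 (L 55 10))))) (out 2)))))))) (A23 (A12 (P 16
  (B02 (B01 (A01 (M 3 (L 49 4)) (out 2)) (A01 (M 3 (L 49 4)) (out 2))) (B12 (A01 (M 3 (L 49 4))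
  (out 2)) (A01 (M 3 (L 49 4)) (out 2))))) (P 4 (M 3 (B02 (B01 (A02 (P 16 (L 49 4)) (S 9 (L 29 1)
  (L 12 1))) (A02 (B12 (A03 (A01 (M 18 (L 38 10)) (B01 (A12 (P 16 (L 49 4)) (M 18 (L 38 10))) (M 18
  (L 38 10)))) (A23 (B01 (A12 (P 16 (L 49 4)) (M 18 (L 38 10))) (M 18 (L 38 10))) (out 2))) (P 16
  (L 49 4))) (P 19 (L 58 5)))) (B12 (A02 (B01 (P 16 (L 49 4)) (M 18 (L 38 10))) (B01 (A23 (A12 (P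
  16 (L 49 4)) (B02 (P 19 (L 58 5)) (M 18 (L 38 10)))) (P 16 (L 49 4))) (M 18 (L 38 10)))) (A02 (P
  16 (L 49 4)) (A23 (A12 (P 16 (L 49 4)) (B02 (B01 (P 16 (L 49 4)) (A02 (P 16 (L 49 4)) (P 19 (L 58
  5)))) (B12 (A02 (P 16 (L 49 4)) (P 19 (L 58 5))) (P 16 (L 49 4))))) (P 16 (L 49 4))))))))) (P 16
  (A03 (B02 (B01 (A01 (M 3 (L 49 4)) (out 2)) (A01 (M 3 (L 49 4)) (out 2))) (B12 (A01 (M 3 (L 49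
  4)) (out 2)) (A01 (M 3 (L 49 4)) (out 2)))) (out 2))))))))))) (M 15 (A12 (B12 (A13 (B01 (A01 (A03
  (P 4 (M 3 (B02 (A02 (B01 (A01 (A03 (B02 (A02 (S 9 (L 29 1) (L 12 1)) (B01 (P 18 (L 54 10)) (P 13
  (L 40 7)))) (P 13 (L 40 7))) (B02 (A23 (B01 (P 18 (L 54 10)) (S 9 (L 29 1) (L 12 1))) (S 9 (L 29
  1) (L 12 1))) (S 9 (L 29 1) (L 12 1)))) (A12 (P 0 (S 9 (L 29 1) (L 1 1))) (B02 (A23 (B01 (P 18 (L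
  54 10)) (S 9 (L 29 1) (L 12 1))) (S 9 (L 29 1) (L 12 1))) (S 9 (L 29 1) (L 12 1))))) (S 9 (L 29
  1) (L 12 1))) (B01 (M 9 (S 0 (L 1 1) (L 24 1))) (A12 (S 9 (L 29 1) (L 12 1)) (out 2)))) (S 9 (L
  29 1) (L 12 1))))) (B02 (A23 (P 4 (B01 (M 9 (S 0 (L 1 1) (L 24 1))) (A12 (S 9 (L 29 1) (L 12 1))
  (out 2)))) (M 7 (P 0 (B01 (P 18 (L 55 10)) (S 9 (L 29 1) (L 1 1)))))) (M 7 (P 4 (A23 (S 9 (L 29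
  1) (L 12 1)) (A13 (P 19 (L 58 5)) (out 2))))))) (A12 (B02 (A13 (B01 (M 9 (S 0 (L 1 1) (L 24 1)))
  (P 0 (S 9 (L 29 1) (L 1 1)))) (B01 (M 9 (A03 (S 0 (L 1 1) (L 24 1)) (out 2))) (P 0 (S 9 (L 29 1)
  (L 1 1))))) (M 3 (P 0 (A13 (A01 (A03 (S 9 (L 29 1) (L 1 1)) (B12 (S 9 (L 29 1) (L 1 1)) (P 16 (L
  49 4)))) (A12 (P 16 (L 49 4)) (B12 (S 9 (L 29 1) (L 1 1)) (P 16 (L 49 4))))) (A03 (A01 (S 9 (L 29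
  1) (L 1 1)) (out 2)) (out 2)))))) (B02 (A23 (B01 (M 9 (S 0 (L 1 1) (L 24 1))) (A02 (P 0 (S 9 (L
  29 1) (L 1 1))) (out 2))) (B01 (M 9 (A03 (S 0 (L 1 1) (L 24 1)) (out 2))) (P 0 (S 9 (L 29 1) (L 1
  1))))) (P 0 (A23 (S 9 (L 29 1) (L 1 1)) (A03 (S 9 (L 29 1) (L 1 1)) (out 2))))))) (M 7 (P 4 (M 3
  (A01 (A03 (S 13 (L 40 7) (L 13 7)) (B12 (S 13 (L 40 7) (L 13 7)) (A23 (S 9 (L 29 1) (L 12 1))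
  (A13 (P 19 (L 58 5)) (out 2))))) (A12 (B12 (P 19 (A13 (B01 (A01 (S 13 (L 40 7) (L 13 7)) (A12
  (B02 (A13 (B01 (P 16 (L 49 4)) (L 58 5)) (S 13 (L 40 11) (L 13 7))) (L 58 5)) (S 13 (L 40 11) (L
  13 7)))) (L 58 5)) (S 13 (L 40 7) (L 13 7)))) (A13 (A01 (A03 (S 13 (L 40 7) (L 13 7)) (B02 (S 13
  (L 40 7) (L 13 7)) (P 16 (L 49 4)))) (A12 (P 16 (L 49 4)) (B02 (S 13 (L 40 7) (L 13 7)) (P 16 (L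
  49 4))))) (A03 (A01 (S 9 (L 29 1) (L 12 1)) (out 2)) (out 2)))) (B12 (S 13 (L 40 7) (L 13 7))
  (A23 (S 9 (L 29 1) (L 12 1)) (A03 (S 9 (L 29 1) (L 12 1)) (out 2)))))))))) (B01 (A03 (A01 (P 19
  (P 4 (M 3 (B02 (A02 (B01 (A03 (A01 (B02 (A02 (S 9 (L 29 1) (L 12 1)) (B01 (P 18 (L 54 10)) (S 9
  (L 29 1) (L 12 1)))) (S 9 (L 29 1) (L 12 1))) (B02 (A12 (S 9 (L 29 1) (L 12 1)) (B01 (P 18 (L 54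
  10)) (S 9 (L 29 1) (L 12 1)))) (S 9 (L 29 1) (L 12 1)))) (out 2)) (S 9 (L 29 1) (L 12 1))) (out
  2)) (M 7 (L 58 5)))))) (out 2)) (out 2)) (M 7 (A03 (A01 (P 19 (L 58 5)) (out 2)) (out 2))))) (A13
  (A01 (A03 (P 4 (M 3 (B02 (P 19 (B01 (A02 (A01 (A03 (B02 (B01 (A02 (S 9 (L 29 1) (L 12 1)) (P 18
  (L 54 10))) (S 9 (L 29 1) (L 12 1))) (M 7 (L 58 5))) (B02 (B01 (P 18 (L 54 10)) (S 9 (L 29 1) (L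
  12 1))) (M 7 (L 58 5)))) (A12 (P 0 (S 9 (L 29 1) (L 1 1))) (B02 (B01 (P 18 (L 54 10)) (S 9 (L 29
  1) (L 12 1))) (P 0 (S 9 (L 29 1) (L 1 1)))))) (M 9 (S 0 (L 1 1) (L 24 1)))) (M 7 (L 58 5)))) (M 7
  (B12 (A02 (B01 (A01 (A03 (P 19 (L 58 5)) (P 16 (L 49 4))) (P 16 (L 49 4))) (A01 (A03 (P 19 (L 58
  5)) (B12 (P 19 (L 58 5)) (A23 (P 19 (L 58 5)) (P 16 (L 49 4))))) (A12 (B12 (P 19 (L 58 5)) (P 16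
  (L 49 4))) (B12 (P 19 (L 58 5)) (A23 (P 19 (L 58 5)) (P 16 (L 49 4))))))) (B01 (P 16 (L 49 4))
  (A12 (A01 (B12 (P 19 (L 58 5)) (A03 (P 19 (L 58 5)) (P 16 (L 49 4)))) (B12 (P 19 (L 58 5)) (P 16
  (L 49 4)))) (out 2)))) (A02 (A01 (A03 (B02 (P 19 (L 58 5)) (B12 (P 19 (L 58 5)) (P 16 (L 49 4))))
  (P 16 (L 49 4))) (P 16 (L 49 4))) (P 16 (L 49 4)))))))) (P 16 (B02 (B01 (P 18 (A23 (M 3 (L 49 4))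
  (M 7 (L 55 10)))) (A23 (M 3 (L 49 4)) (B12 (M 3 (L 49 4)) (A13 (M 3 (L 49 4)) (out 2))))) (M 7
  (B12 (A23 (M 3 (L 49 4)) (B01 (A13 (M 3 (L 49 4)) (out 2)) (M 3 (L 49 4)))) (A23 (A12 (A13 (M 3
  (L 49 4)) (out 2)) (out 2)) (A13 (A12 (B02 (M 3 (L 49 4)) (B12 (M 3 (L 49 4)) (P 18 (L 55 10))))
  (out 2)) (out 2)))))))) (P 16 (M 13 (A12 (B02 (B01 (P 18 (M 9 (A13 (A01 (A03 (M 3 (L 49 4)) (B02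
  (S 0 (L 1 1) (L 24 1)) (M 7 (L 55 10)))) (A12 (M 7 (L 55 10)) (B02 (S 0 (L 1 1) (L 24 1)) (M 7 (L
  55 10))))) (A03 (A01 (M 3 (L 49 4)) (out 2)) (out 2))))) (M 7 (A13 (B12 (M 3 (L 49 4)) (P 18 (L
  55 10))) (B12 (M 3 (L 49 4)) (P 18 (L 55 10)))))) (M 7 (B12 (A13 (B01 (A01 (A03 (M 3 (L 49 4)) (P
  18 (L 55 10))) (P 18 (L 55 10))) (M 3 (L 49 4))) (B01 (A03 (A01 (M 3 (L 49 4)) (out 2)) (out 2))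
  (M 3 (L 49 4)))) (A13 (A01 (A03 (B02 (B01 (P 18 (L 55 10)) (A02 (M 3 (L 49 4)) (P 18 (L 55 10))))
  (B12 (A02 (M 3 (L 49 4)) (P 18 (L 55 10))) (P 18 (L 55 10)))) (P 18 (L 55 10))) (P 18 (L 55 10)))
  (A03 (A01 (B02 (B01 (P 18 (L 55 10)) (A02 (M 3 (L 49 4)) (out 2))) (B12 (A02 (M 3 (L 49 4)) (out
  2)) (P 18 (L 55 10)))) (out 2)) (out 2)))))) (B02 (B01 (A23 (M 3 (L 49 4)) (A03 (M 3 (L 49 4))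
  (out 2))) (M 7 (A23 (M 3 (L 49 4)) (B12 (M 3 (L 49 4)) (P 18 (L 55 10)))))) (M 7 (B12 (A23 (M 3
  (L 49 4)) (B01 (A03 (M 3 (L 49 4)) (out 2)) (M 3 (L 49 4)))) (A23 (A02 (A03 (B02 (P 19 (L 59 5))
  (B12 (A01 (M 3 (L 49 4)) (out 2)) (P 18 (L 55 10)))) (out 2)) (out 2)) (A03 (A02 (B02 (B01 (P 18
  (L 55 10)) (A01 (M 3 (L 49 4)) (out 2))) (B12 (A01 (M 3 (L 49 4)) (out 2)) (P 18 (L 55 10))))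
  (out 2)) (out 2)))))))))) (A03 (A01 (P 4 (M 3 (B02 (P 19 (B01 (A02 (A03 (A01 (B02 (B01 (A02 (S 9
  (L 29 1) (L 12 1)) (P 18 (L 54 10))) (M 7 (L 58 5))) (M 7 (L 58 5))) (B02 (B01 (P 18 (L 54 10))
  (M 7 (L 58 5))) (M 7 (L 58 5)))) (out 2)) (out 2)) (M 7 (L 58 5)))) (M 7 (B12 (A02 (B01 (A03 (A01
  (P 19 (L 58 5)) (P 16 (L 49 4))) (out 2)) (A03 (A01 (P 19 (L 58 5)) (B12 (P 19 (L 58 5)) (A12 (P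
  16 (L 49 4)) (P 19 (L 58 5))))) (out 2))) (out 2)) (A02 (A03 (A01 (B02 (P 19 (L 58 5)) (B12 (P 19
  (L 58 5)) (P 16 (L 49 4)))) (P 16 (L 49 4))) (out 2)) (out 2))))))) (out 2)) (out 2)))) (B12 (A23
  (B01 (A02 (A03 (B02 (A01 (B01 (A02 (A03 (P 13 (L 40 7)) (out 2)) (out 2)) (P 13 (L 40 7))) (out
  2)) (A01 (P 13 (L 40 7)) (out 2))) (out 2)) (out 2)) (A02 (A03 (B12 (P 13 (L 40 7)) (A01 (P 13 (L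
  40 7)) (out 2))) (out 2)) (out 2))) (B01 (A03 (P 19 (P 4 (M 3 (A02 (B02 (A01 (B01 (A03 (A02 (B02
  (A01 (S 9 (L 29 1) (L 12 1)) (P 18 (L 54 10))) (M 7 (L 58 5))) (out 2)) (out 2)) (M 7 (L 58 5)))
  (out 2)) (M 7 (L 58 5))) (out 2))))) (out 2)) (M 7 (A03 (P 19 (L 58 5)) (out 2))))) (A23 (P 4 (M
  3 (A02 (A03 (P 19 (B02 (B01 (A01 (A02 (A03 (B02 (B01 (A01 (A02 (S 9 (L 29 1) (L 12 1)) (P 18 (L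
  54 10))) (P 18 (L 54 10))) (M 7 (L 58 5))) (M 7 (L 58 5))) (out 2)) (out 2)) (out 2)) (M 7 (L 58
  5))) (M 7 (L 58 5)))) (out 2)) (out 2)))) (A03 (P 4 (M 3 (A02 (B02 (P 19 (B01 (A01 (A03 (A02 (B02
  (B01 (A01 (S 9 (L 29 1) (L 12 1)) (P 18 (L 54 10))) (M 7 (L 58 5))) (M 7 (L 58 5))) (out 2)) (out
  2)) (out 2)) (M 7 (L 58 5)))) (M 7 (B12 (A01 (B01 (A03 (P 19 (L 58 5)) (out 2)) (A03 (P 19 (L 58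
  5)) (out 2))) (out 2)) (A01 (A03 (A02 (B02 (P 19 (L 58 5)) (B12 (P 19 (L 58 5)) (P 16 (L 49 4))))
  (out 2)) (out 2)) (out 2))))) (out 2)))) (out 2)))))))) (M 7 (P 0 (A03 (M 1 (A02 (B12 (P 4 (M 3
  (A01 (B01 (P 12 (A03 (A02 (B02 (A01 (B01 (S 13 (L 40 7) (L 13 7)) (S 10 (L 31 8) (L 2 8))) (B01
  (P 16 (L 49 4)) (A13 (A12 (B12 (A01 (S 10 (L 31 8) (L 2 8)) (B01 (P 16 (L 49 4)) (S 10 (L 31 8)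
  (L 2 8)))) (P 16 (L 49 4))) (S 10 (L 31 8) (L 2 8))) (S 10 (L 31 8) (L 2 8))))) (S 10 (L 31 8) (L
  2 8))) (B02 (A12 (B01 (P 16 (L 49 4)) (M 18 (A13 (A01 (L 38 10) (B12 (A12 (B01 (P 16 (L 49 4)) (S
  10 (L 31 8) (L 2 8))) (L 38 10)) (P 16 (L 49 4)))) (L 38 10)))) (B01 (P 16 (L 49 4)) (M 18 (L 38
  10)))) (S 10 (L 31 8) (L 2 8)))) (A13 (B02 (A12 (P 16 (K [(49,4,6),(49,2,2)] [])) (B01 (P 16 (L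
  49 4)) (M 18 (L 38 10)))) (S 10 (L 31 8) (L 2 8))) (B02 (A23 (B01 (P 16 (L 49 4)) (M 18 (L 38
  10))) (P 16 (L 49 4))) (M 18 (L 38 10)))))) (M 18 (A03 (A02 (B12 (A01 (P 10 (L 31 8)) (B01 (S 10
  (L 31 8) (L 2 8)) (P 10 (L 31 8)))) (A01 (P 10 (L 31 8)) (S 10 (L 31 8) (L 2 8)))) (B12 (A12 (B01
  (S 10 (L 31 8) (L 2 8)) (A13 (S 10 (L 31 8) (L 2 8)) (A23 (S 10 (L 31 8) (L 2 8)) (P 10 (L 31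
  8))))) (B01 (P 12 (L 38 10)) (A23 (S 10 (L 31 8) (L 2 8)) (A13 (S 10 (L 31 8) (L 2 8)) (P 10 (L
  31 8)))))) (S 10 (L 31 8) (L 2 8)))) (A13 (B12 (A12 (B01 (S 10 (L 31 8) (L 2 8)) (A01 (A02 (P 10
  (L 31 8)) (S 10 (L 31 8) (L 2 8))) (S 10 (L 31 8) (L 2 8)))) (B01 (P 12 (L 38 10)) (A02 (A01 (P
  10 (L 31 8)) (S 10 (L 31 8) (L 2 8))) (S 10 (L 31 8) (L 2 8))))) (S 10 (L 31 8) (L 2 8))) (B12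
  (A23 (B01 (P 12 (L 38 10)) (A02 (P 10 (L 31 8)) (P 12 (L 38 10)))) (P 10 (L 31 8))) (P 12 (L 38
  10))))))) (P 12 (B01 (A13 (A12 (P 16 (K [(49,4,6),(49,2,2)] [])) (B02 (A02 (P 16 (K
  [(49,4,6),(49,2,2)] [])) (B01 (P 16 (L 49 4)) (A23 (A12 (P 16 (L 49 4)) (M 18 (L 38 10))) (P 16
  (L 49 4))))) (A02 (S 10 (L 31 8) (L 2 8)) (A23 (A12 (P 16 (L 49 4)) (M 18 (L 38 10))) (P 16 (L 49
  4)))))) (A03 (B02 (A02 (P 16 (K [(49,4,6),(49,2,2)] [])) (B01 (P 16 (L 49 4)) (A12 (P 16 (L 49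
  4)) (M 18 (L 38 10))))) (A02 (S 10 (L 31 8) (L 2 8)) (A12 (P 16 (L 49 4)) (M 18 (L 38 10)))))
  (B02 (A23 (B01 (P 16 (L 49 4)) (A12 (P 16 (L 49 4)) (M 18 (L 38 10)))) (P 16 (L 49 4))) (A23 (A12
  (P 16 (L 49 4)) (M 18 (L 38 10))) (P 16 (L 49 4)))))) (A13 (A12 (B12 (A01 (S 10 (L 31 8) (L 2 8))
  (B01 (P 16 (K [(49,4,5),(49,2,3)] [])) (S 10 (L 31 8) (L 2 8)))) (P 16 (K [(49,4,6),(49,2,2)]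
  []))) (S 10 (L 31 8) (L 2 8))) (S 10 (L 31 8) (L 2 8)))))))) (P 12 (A01 (A03 (P 4 (M 3 (A02 (B02
  (B01 (A01 (S 13 (L 40 7) (L 13 7)) (P 16 (L 49 4))) (P 16 (L 49 4))) (P 16 (L 49 4))) (P 16 (L 49
  4))))) (P 16 (A13 (M 3 (L 49 4)) (B02 (M 3 (L 49 4)) (M 18 (L 38 10)))))) (P 16 (A13 (A12 (B02
  (B01 (A01 (A03 (M 3 (L 49 4)) (A13 (M 3 (L 49 4)) (B02 (M 3 (L 49 4)) (B12 (M 3 (L 49 4)) (P 18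
  (L 55 10)))))) (P 18 (L 55 10))) (A01 (B12 (M 3 (L 49 4)) (A03 (M 3 (L 49 4)) (A13 (M 3 (L 49 4))
  (B02 (M 3 (L 49 4)) (P 10 (L 31 8)))))) (B12 (M 3 (L 49 4)) (A13 (P 18 (L 55 10)) (A03 (P 18 (L
  55 10)) (B02 (M 3 (L 49 4)) (P 10 (L 31 8)))))))) (B12 (A01 (B01 (A03 (M 3 (L 49 4)) (A13 (M 3 (L
  49 4)) (P 10 (L 31 8)))) (P 10 (L 31 8))) (B01 (A13 (A12 (P 18 (L 55 10)) (B02 (P 18 (L 55 10))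
  (P 10 (L 31 8)))) (A03 (B02 (P 18 (L 55 10)) (P 10 (L 31 8))) (P 10 (L 31 8)))) (M 3 (L 49 4))))
  (A01 (A03 (A02 (B02 (M 3 (L 49 4)) (P 10 (L 31 8))) (B02 (M 3 (L 49 4)) (P 10 (L 31 8)))) (A13
  (B02 (B01 (P 18 (L 55 10)) (P 10 (L 31 8))) (P 10 (L 31 8))) (P 10 (L 31 8)))) (A13 (A12 (P 18 (L
  55 10)) (B02 (B01 (P 18 (L 55 10)) (P 10 (L 31 8))) (P 10 (L 31 8)))) (A03 (B02 (B01 (P 18 (L 55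
  10)) (P 10 (L 31 8))) (P 10 (L 31 8))) (P 10 (L 31 8))))))) (B02 (B01 (A02 (A03 (M 3 (L 49 4))
  (A23 (M 3 (L 49 4)) (B02 (M 3 (L 49 4)) (B12 (M 3 (L 49 4)) (A13 (M 3 (L 49 4)) (P 10 (L 31
  8))))))) (A23 (M 3 (L 49 4)) (A03 (M 3 (L 49 4)) (B02 (M 3 (L 49 4)) (B12 (M 3 (L 49 4)) (A13 (M
  3 (L 49 4)) (P 10 (L 31 8)))))))) (A02 (B12 (M 3 (L 49 4)) (A03 (M 3 (L 49 4)) (A23 (M 3 (L 49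
  4)) (B02 (M 3 (L 49 4)) (P 10 (L 31 8)))))) (B12 (M 3 (L 49 4)) (A23 (M 3 (L 49 4)) (A03 (M 3 (L
  49 4)) (B02 (M 3 (L 49 4)) (P 10 (L 31 8)))))))) (P 10 (L 31 8)))) (A03 (B02 (B01 (A02 (A01 (M 3
  (L 49 4)) (A12 (B02 (M 3 (L 49 4)) (P 10 (L 31 8))) (M 3 (L 49 4)))) (A12 (A01 (M 3 (L 49 4))
  (B02 (M 3 (L 49 4)) (P 10 (L 31 8)))) (M 3 (L 49 4)))) (P 10 (L 31 8))) (P 10 (L 31 8))) (B02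
  (B01 (A23 (A12 (A13 (B02 (M 3 (L 49 4)) (P 10 (L 31 8))) (M 3 (L 49 4))) (M 3 (L 49 4))) (P 10 (L
  31 8))) (P 10 (L 31 8))) (P 10 (L 31 8))))))))) (P 12 (B12 (A12 (B01 (A13 (A01 (B02 (A02 (M 3
  (B01 (P 16 (L 49 4)) (A03 (A01 (B12 (A02 (M 18 (L 38 10)) (P 16 (L 49 4))) (P 16 (L 49 4))) (P 16
  (L 49 4))) (P 16 (L 49 4))))) (P 16 (B01 (A23 (A12 (M 3 (L 49 4)) (out 2)) (M 3 (L 49 4))) (M 3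
  (L 49 4))))) (M 3 (A02 (A03 (A01 (M 18 (L 38 10)) (P 16 (L 49 4))) (P 16 (L 49 4))) (P 16 (L 49
  4))))) (P 16 (B02 (A12 (M 3 (L 49 4)) (B01 (P 18 (L 55 10)) (M 3 (L 49 4)))) (M 3 (L 49 4)))))
  (A23 (B02 (A02 (M 3 (B01 (P 16 (L 49 4)) (A01 (A03 (B12 (A02 (M 18 (L 38 10)) (P 16 (L 49 4))) (P
  16 (L 49 4))) (P 16 (L 49 4))) (P 16 (L 49 4))))) (P 16 (B01 (A12 (M 3 (L 49 4)) (out 2)) (M 3 (L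
  49 4))))) (M 3 (A02 (A01 (M 18 (L 38 10)) (P 16 (L 49 4))) (P 16 (L 49 4))))) (M 3 (B02 (A03 (B01
  (P 16 (L 49 4)) (A01 (A02 (M 18 (L 38 10)) (P 16 (L 49 4))) (P 16 (L 49 4)))) (P 16 (L 49 4)))
  (A03 (A01 (M 18 (L 38 10)) (P 16 (L 49 4))) (P 16 (L 49 4))))))) (M 3 (A13 (A01 (B12 (A02 (S 10
  (L 31 8) (L 2 8)) (B01 (A23 (A12 (M 18 (L 38 10)) (out 2)) (M 18 (L 38 10))) (S 10 (L 31 8) (L 2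
  8)))) (A02 (M 18 (L 38 10)) (P 16 (L 49 4)))) (B12 (A12 (B01 (P 16 (K [(49,4,5),(49,2,3)] [])) (S
  10 (L 31 8) (L 2 8))) (B01 (P 16 (L 49 4)) (S 10 (L 31 8) (L 2 8)))) (P 16 (L 49 4)))) (A23 (B12
  (A02 (S 10 (L 31 8) (L 2 8)) (B01 (A12 (M 18 (L 38 10)) (out 2)) (S 10 (L 31 8) (L 2 8)))) (A02
  (M 18 (L 38 10)) (P 16 (L 49 4)))) (S 10 (L 31 8) (L 2 8)))))) (B01 (A23 (A02 (B02 (A01 (M 3 (B01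
  (P 16 (L 49 4)) (A03 (A02 (B12 (A01 (M 18 (L 38 10)) (P 16 (L 49 4))) (P 16 (L 49 4))) (out 2))
  (out 2)))) (out 2)) (A01 (M 18 (L 38 10)) (out 2))) (out 2)) (A13 (B02 (A01 (M 3 (B01 (P 16 (L 49
  4)) (A02 (A03 (B12 (A01 (M 18 (L 38 10)) (P 16 (L 49 4))) (P 16 (L 49 4))) (P 16 (L 49 4))) (out
  2)))) (out 2)) (A01 (M 18 (L 38 10)) (out 2))) (M 3 (B02 (A03 (B01 (P 16 (L 49 4)) (A02 (A01 (M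
  18 (L 38 10)) (P 16 (L 49 4))) (P 16 (L 49 4)))) (P 16 (L 49 4))) (M 18 (L 38 10)))))) (A23 (A02
  (B12 (A01 (M 18 (L 38 10)) (out 2)) (A01 (M 18 (L 38 10)) (out 2))) (out 2)) (A13 (B12 (A01 (M 18
  (L 38 10)) (out 2)) (A01 (M 18 (L 38 10)) (out 2))) (M 18 (L 38 10)))))) (P 16 (A12 (A13 (A01
  (B02 (B01 (A02 (A03 (M 3 (L 49 4)) (A23 (M 3 (L 49 4)) (B02 (M 3 (L 49 4)) (B12 (M 3 (L 49 4))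
  (A13 (M 3 (L 49 4)) (P 10 (L 31 8))))))) (A23 (A12 (B02 (B01 (P 18 (L 55 10)) (A01 (B12 (M 3 (L
  49 4)) (P 18 (L 55 10))) (P 18 (L 55 10)))) (B12 (A01 (B01 (P 18 (L 55 10)) (M 3 (L 49 4))) (P 18
  (L 55 10))) (P 18 (L 55 10)))) (out 2)) (A03 (B02 (B01 (P 18 (L 55 10)) (A01 (B12 (M 3 (L 49 4))
  (P 18 (L 55 10))) (B12 (M 3 (L 49 4)) (P 18 (L 55 10))))) (B12 (A01 (B01 (P 18 (L 55 10)) (M 3 (L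
  49 4))) (B01 (P 18 (L 55 10)) (M 3 (L 49 4)))) (P 18 (L 55 10)))) (B02 (B01 (P 18 (L 55 10)) (A13
  (B12 (M 3 (L 49 4)) (P 18 (L 55 10))) (P 10 (L 31 8)))) (B12 (A13 (B01 (P 18 (L 55 10)) (M 3 (L
  49 4))) (P 10 (L 31 8))) (P 18 (L 55 10))))))) (A02 (B12 (M 3 (L 49 4)) (A03 (M 3 (L 49 4)) (A23
  (M 3 (L 49 4)) (B02 (M 3 (L 49 4)) (P 10 (L 31 8)))))) (B12 (M 3 (L 49 4)) (A23 (A12 (B02 (M 3 (L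
  49 4)) (P 10 (L 31 8))) (out 2)) (A03 (B02 (M 3 (L 49 4)) (P 10 (L 31 8))) (B02 (M 3 (L 49 4)) (P
  10 (L 31 8)))))))) (P 10 (L 31 8))) (B02 (B01 (P 18 (L 55 10)) (A12 (B12 (M 3 (L 49 4)) (A13 (P
  18 (L 55 10)) (A23 (P 18 (L 55 10)) (B02 (M 3 (L 49 4)) (P 10 (L 31 8)))))) (B12 (M 3 (L 49 4))
  (A23 (P 18 (L 55 10)) (A13 (P 18 (L 55 10)) (B02 (M 3 (L 49 4)) (P 10 (L 31 8)))))))) (B12 (A12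
  (B01 (A13 (A01 (B02 (P 18 (L 55 10)) (P 10 (L 31 8))) (P 18 (L 55 10))) (P 10 (L 31 8))) (M 3 (L
  49 4))) (P 10 (L 31 8))) (A12 (A13 (A01 (B02 (B01 (P 18 (L 55 10)) (P 10 (L 31 8))) (P 10 (L 31
  8))) (P 18 (L 55 10))) (P 10 (L 31 8))) (P 10 (L 31 8)))))) (A23 (B02 (B01 (A02 (A01 (A03 (M 3 (L
  49 4)) (B02 (M 3 (L 49 4)) (B12 (M 3 (L 49 4)) (P 10 (L 31 8))))) (A12 (B02 (M 3 (L 49 4)) (P 10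
  (L 31 8))) (B02 (M 3 (L 49 4)) (B12 (M 3 (L 49 4)) (P 10 (L 31 8)))))) (A12 (A01 (B02 (B01 (P 18
  (L 55 10)) (A03 (B12 (M 3 (L 49 4)) (P 18 (L 55 10))) (P 10 (L 31 8)))) (B12 (A03 (B01 (P 18 (L
  55 10)) (M 3 (L 49 4))) (P 10 (L 31 8))) (P 18 (L 55 10)))) (B02 (B01 (P 18 (L 55 10)) (P 10 (L
  31 8))) (P 10 (L 31 8)))) (out 2))) (A02 (B12 (M 3 (L 49 4)) (A01 (A03 (M 3 (L 49 4)) (B02 (M 3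
  (L 49 4)) (P 10 (L 31 8)))) (A12 (P 10 (L 31 8)) (B02 (M 3 (L 49 4)) (P 10 (L 31 8)))))) (B12 (M
  3 (L 49 4)) (A12 (A01 (B02 (M 3 (L 49 4)) (P 10 (L 31 8))) (P 10 (L 31 8))) (out 2))))) (P 10 (L
  31 8))) (B02 (B01 (A03 (A01 (A02 (M 3 (L 49 4)) (B02 (M 3 (L 49 4)) (P 10 (L 31 8)))) (A13 (B02
  (M 3 (L 49 4)) (P 10 (L 31 8))) (B02 (M 3 (L 49 4)) (P 10 (L 31 8))))) (P 10 (L 31 8))) (P 10 (L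
  31 8))) (P 10 (L 31 8))))) (A23 (A02 (B02 (B01 (A01 (M 3 (L 49 4)) (out 2)) (A01 (M 3 (L 49 4))
  (out 2))) (P 10 (L 31 8))) (out 2)) (A13 (B02 (B01 (A01 (A02 (A03 (M 3 (L 49 4)) (B02 (M 3 (L 49
  4)) (B12 (M 3 (L 49 4)) (P 10 (L 31 8))))) (out 2)) (out 2)) (A01 (B12 (M 18 (L 38 10)) (A02 (A03
  (M 3 (L 49 4)) (B02 (M 3 (L 49 4)) (P 10 (L 31 8)))) (out 2))) (out 2))) (P 10 (L 31 8))) (B02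
  (B01 (A03 (A02 (A01 (M 3 (L 49 4)) (P 10 (L 31 8))) (P 10 (L 31 8))) (P 10 (L 31 8))) (P 10 (L 31
  8))) (P 10 (L 31 8))))))))))) (M 15 (P 12 (A13 (M 1 (B12 (A12 (P 16 (B01 (A01 (A02 (P 10 (L 31
  8)) (B02 (A23 (B01 (A12 (A13 (B02 (P 18 (L 55 10)) (M 3 (L 49 4))) (out 2)) (out 2)) (M 3 (L 49
  4))) (P 10 (L 31 8))) (A23 (M 3 (L 49 4)) (P 10 (L 31 8))))) (A13 (B02 (A12 (B01 (P 18 (L 55 10))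
  (M 3 (L 49 4))) (B01 (P 18 (L 55 10)) (M 3 (L 49 4)))) (M 3 (L 49 4))) (B02 (A23 (B01 (P 18 (L 55
  10)) (M 3 (L 49 4))) (B01 (P 18 (L 55 10)) (P 10 (L 31 8)))) (A23 (M 3 (L 49 4)) (P 10 (L 31
  8)))))) (M 3 (A01 (L 49 4) (A13 (K [(49,4,44),(49,2,20)] []) (L 49 4)))))) (B01 (A02 (A01 (P 10
  (L 31 8)) (out 2)) (out 2)) (M 3 (A02 (P 16 (L 49 4)) (out 2))))) (P 16 (A12 (A01 (A02 (P 10 (L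
  31 8)) (B02 (B01 (A23 (A12 (A13 (B02 (B01 (P 18 (L 55 10)) (P 10 (L 31 8))) (P 10 (L 31 8))) (out
  2)) (out 2)) (P 10 (L 31 8))) (A23 (B12 (A12 (P 10 (L 31 8)) (out 2)) (A12 (P 10 (L 31 8)) (out
  2))) (P 10 (L 31 8)))) (P 10 (L 31 8)))) (A13 (B02 (B01 (P 18 (L 55 10)) (A12 (B12 (A01 (A02 (P
  10 (L 31 8)) (B01 (P 18 (L 55 10)) (A23 (M 3 (L 49 4)) (P 10 (L 31 8))))) (A13 (M 3 (L 49 4))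
  (B01 (P 18 (L 55 10)) (A23 (M 3 (L 49 4)) (P 10 (L 31 8)))))) (A01 (A02 (P 10 (L 31 8)) (P 18 (L
  55 10))) (P 18 (L 55 10)))) (B12 (A02 (A01 (P 10 (L 31 8)) (out 2)) (out 2)) (A02 (A01 (P 10 (L
  31 8)) (out 2)) (out 2))))) (B12 (A12 (B01 (A01 (P 10 (L 31 8)) (P 18 (L 55 10))) (A01 (P 10 (L
  31 8)) (A13 (B12 (M 3 (L 49 4)) (P 18 (L 55 10))) (P 10 (L 31 8))))) (P 10 (L 31 8))) (A12 (A01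
  (P 10 (L 31 8)) (P 18 (L 55 10))) (P 10 (L 31 8))))) (B02 (B01 (P 18 (L 55 10)) (A23 (B12 (A02 (P
  10 (L 31 8)) (out 2)) (A02 (P 10 (L 31 8)) (out 2))) (P 10 (L 31 8)))) (P 10 (L 31 8))))) (A02
  (A01 (P 10 (L 31 8)) (out 2)) (out 2)))))) (B12 (A23 (B01 (P 16 (A02 (S 3 (L 9 4) (L 49 4)) (out
  2))) (M 3 (A02 (P 16 (L 49 4)) (out 2)))) (S 9 (L 29 1) (L 1 1))) (P 16 (P 10 (A23 (S 3 (L 9 4)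
  (L 49 4)) (A03 (A02 (B02 (M 1 (L 31 8)) (B12 (M 1 (L 31 8)) (A01 (A03 (A02 (B02 (M 1 (L 31 8))
  (B12 (M 1 (L 31 8)) (A01 (M 18 (L 38 10)) (A13 (M 1 (L 31 8)) (M 18 (L 38 10)))))) (out 2)) (out
  2)) (out 2)))) (out 2)) (out 1)))))))))))))

/-- its cell -/
def cI4 : Cell :=
  ⟨557056, 557056, 557056, 1114112, 557056, 557056, 1114112, 0, 1114112, 1114112, 1114112, 1114112, 0, 0, 0, 5070848, 3129344, 0⟩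

theorem okI4 : check datI tI4 cI4 260 2080 = true := by
  decide +kernel

end Pool.Agent.H315.NW
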