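import Pool.Agent.H315.NW.Data

/-!
# Project NW (helper315): certificates (generated)
-/

set_option autoImplicit false
set_option maxRecDepth 100000

namespace Pool.Agent.H315.NW

open Tr

/-- a part of the certificate -/
def tI5 : Tr :=
  (P 8 (M 7 (P 0 (A03 (A02 (M 18 (A01 (P 14 (M 11 (P 4 (M 3 (A03 (A02 (B12 (P 15 (M 12 (A01 (P 13
  (B01 (A03 (out 9) (A13 (out 9) (B02 (A23 (out 9) (B01 (M 1 (L 45 7)) (A03 (out 9) (A13 (M 19 (L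
  41 10)) (M 1 (L 45 7)))))) (P 10 (A23 (out 9) (A03 (out 9) (A13 (S 1 (L 4 7) (L 45 7)) (M 1 (L 31
  1))))))))) (M 19 (A03 (out 9) (A13 (out 9) (B12 (A23 (out 9) (S 2 (L 7 2) (L 25 2))) (A23 (out 9)
  (A03 (out 9) (K [(41,10,33),(41,5,31)] []))))))))) (B01 (A13 (out 11) (A03 (out 11) (B02 (M 16 (P
  13 (A23 (B01 (M 1 (L 45 7)) (M 19 (A12 (A13 (out 11) (L 41 10)) (out 9)))) (B01 (M 1 (L 45 7))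
  (A13 (M 19 (A12 (out 11) (L 41 10))) (A03 (M 19 (L 41 10)) (S 10 (L 32 1) (L 2 1)))))))) (M 19 (P
  10 (A23 (A12 (A13 (out 11) (B12 (S 1 (L 4 7) (L 45 7)) (S 1 (L 4 7) (L 45 7)))) (out 9)) (A13
  (A12 (out 11) (P 13 (B12 (B01 (M 5 (K [(41,10,4),(46,7,4)] [])) (A02 (out 11) (S 1 (L 4 1) (L 31
  1)))) (M 5 (L 40 5))))) (P 13 (A03 (B12 (B01 (M 5 (K [(41,10,4),(46,7,4)] [])) (A02 (out 11) (M 1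
  (L 31 1)))) (M 5 (P 2 (K [(7,4,3),(40,5,2),(41,10,3)] [])))) (S 1 (L 4 1) (L 31 1))))))))))) (M
  19 (P 10 (A13 (out 11) (A03 (out 11) (B12 (P 13 (A23 (B01 (A12 (S 2 (L 7 2) (L 25 2)) (out 9)) (M
  6 (K [(41,5,4),(43,6,1),(41,10,4)] []))) (S 2 (L 7 2) (L 25 2)))) (A23 (A12 (A13 (out 11) (B02 (P
  13 (K [(41,10,5),(41,5,3)] [])) (B12 (P 13 (K [(41,5,4),(41,10,4)] [])) (M 5 (S 13 (L 40 5) (L 13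
  5)))))) (out 9)) (A13 (A12 (out 11) (M 16 (P 13 (B02 (B01 (A02 (out 11) (A23 (K
  [(41,10,5),(41,5,3)] []) (A03 (K [(41,10,5),(41,5,3)] []) (B02 (S 2 (L 8 2) (L 25 2)) (M 5 (L 46
  7)))))) (K [(41,5,4),(41,10,4)] [])) (K [(41,5,4),(41,10,4)] []))))) (P 13 (A03 (B02 (B01 (A02
  (out 11) (A12 (A01 (L 41 10) (S 1 (L 4 1) (L 31 1))) (L 41 10))) (K [(41,5,4),(41,10,4)] [])) (K
  [(41,5,4),(41,10,4)] [])) (B02 (B01 (S 1 (L 4 1) (L 31 1)) (K [(41,5,14),(41,10,10)] [])) (K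
  [(41,5,14),(41,10,10)] []))))))))))))))) (A01 (A03 (out 9) (A13 (out 9) (M 16 (P 13 (B02 (B01 (M
  1 (A23 (out 9) (A03 (out 9) (A13 (B02 (P 15 (L 45 7)) (M 5 (L 40 5))) (B02 (P 15 (L 45 7)) (M 5
  (L 40 5))))))) (P 10 (A23 (out 9) (B12 (S 2 (L 8 8) (L 25 8)) (M 1 (L 31 1)))))) (P 10 (B12 (A23
  (out 9) (B01 (M 1 (L 31 1)) (S 2 (L 8 8) (L 25 8)))) (M 1 (L 31 1))))))))) (A13 (out 11) (A03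
  (out 11) (M 5 (B02 (B01 (M 1 (S 10 (L 31 1) (L 2 1))) (P 10 (A23 (B12 (P 15 (L 46 7)) (M 1 (L 31
  1))) (B12 (P 15 (L 46 7)) (M 1 (L 31 1)))))) (P 10 (B12 (A23 (B01 (M 1 (L 31 1)) (P 15 (L 46 7)))
  (B01 (M 1 (L 31 1)) (P 15 (L 46 7)))) (M 1 (L 31 1)))))))))) (B12 (A12 (B01 (A13 (out 11) (A23 (M
  5 (B02 (A02 (P 15 (P 13 (K [(46,7,11),(40,5,40),(40,11,7),(46,11,7)] []))) (P 10 (B01 (M 1 (L 31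
  1)) (P 15 (L 46 7))))) (M 19 (P 15 (A02 (A01 (S 1 (L 4 7) (L 45 7)) (A12 (B12 (P 13 (K
  [(46,7,4),(41,10,3)] [])) (L 46 7)) (S 1 (L 4 7) (L 45 7)))) (L 46 7)))))) (P 15 (B02 (P 13 (A03
  (M 5 (K [(46,7,3),(40,5,12),(40,11,8),(46,11,1)] [])) (B01 (M 1 (L 45 7)) (A13 (P 10 (S 1 (L 4 1)
  (L 31 1))) (M 1 (S 10 (L 31 1) (L 2 1))))))) (M 19 (P 10 (A03 (M 5 (A01 (S 1 (L 4 7) (L 45 7))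
  (A13 (B12 (P 13 (K [(46,7,4),(41,10,3)] [])) (L 46 7)) (S 1 (L 4 7) (L 45 7))))) (A13 (S 1 (L 4
  1) (L 31 1)) (A23 (S 1 (L 4 1) (L 31 1)) (S 1 (L 4 1) (L 31 1))))))))))) (M 19 (P 15 (M 12 (P 10
  (A13 (out 11) (A23 (B12 (A02 (B01 (A01 (M 5 (P 2 (A03 (out 9) (B02 (A23 (out 9) (M 16 (P 13 (K
  [(41,5,1),(8,8,1),(46,11,2),(41,10,2),(46,7,2)] [])))) (S 13 (L 41 5) (L 13 5)))))) (A12 (B02 (P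
  13 (A13 (out 11) (M 5 (K [(41,5,1),(46,11,2),(46,7,2),(40,5,1),(41,10,2)] [])))) (S 13 (L 41 5)
  (L 13 5))) (M 5 (B02 (A23 (out 9) (P 13 (K [(41,5,1),(40,5,1),(46,7,2),(46,11,2),(41,10,2)] [])))
  (S 13 (L 41 5) (L 13 5)))))) (M 6 (A01 (L 43 6) (S 13 (L 41 5) (L 13 5))))) (B01 (A12 (A01 (S 13
  (L 41 5) (L 13 5)) (B02 (A13 (out 11) (S 13 (L 41 5) (L 13 5))) (S 13 (L 41 5) (L 13 5)))) (S 13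
  (L 41 5) (L 13 5))) (S 13 (L 41 5) (L 13 5)))) (M 5 (A02 (A01 (S 13 (L 40 5) (L 13 5)) (A12 (B02
  (B01 (M 16 (P 13 (K [(32,8,4),(46,7,7),(40,5,3),(41,10,8),(46,11,3)] []))) (S 13 (L 41 5) (L 13
  5))) (S 13 (L 41 5) (L 13 5))) (S 13 (L 40 5) (L 13 5)))) (L 46 7)))) (B12 (M 16 (P 13 (A03 (B01
  (A01 (A02 (out 9) (B02 (A23 (M 5 (P 2 (K [(46,11,2),(41,5,1),(41,10,2),(8,8,1),(46,7,2)] []))) (K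
  [(41,10,5),(41,5,3)] [])) (K [(41,5,4),(41,10,4)] []))) (A13 (B02 (A12 (out 11) (M 5 (K
  [(41,5,1),(46,11,2),(46,7,2),(40,5,1),(41,10,2)] []))) (L 41 5)) (B02 (A23 (M 5 (K
  [(46,11,2),(32,8,1),(41,10,2),(46,7,2),(40,5,1)] [])) (K [(41,10,5),(41,5,3)] [])) (K
  [(41,5,4),(41,10,4)] [])))) (M 6 (K [(41,5,2),(43,6,6)] []))) (B01 (A13 (A01 (B02 (A02 (B01 (A03
  (M 5 (P 2 (K [(32,1,3),(7,2,1),(46,7,2),(41,5,2)] []))) (A23 (M 5 (K [(46,11,3),(46,7,5)] [])) (S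
  2 (L 7 2) (L 25 2)))) (A03 (K [(41,10,5),(41,5,3)] []) (A23 (K [(41,5,4),(41,10,4)] []) (S 2 (L 7
  2) (L 25 2))))) (B01 (A23 (M 5 (K [(46,7,5),(46,11,3)] [])) (A03 (M 5 (K [(46,11,3),(46,7,5)]
  [])) (S 2 (L 8 2) (L 25 2)))) (A23 (M 5 (K [(46,11,3),(46,7,5)] [])) (A03 (M 5 (K
  [(46,11,3),(46,7,5)] [])) (S 2 (L 8 2) (L 25 2)))))) (K [(41,5,4),(41,10,4)] [])) (B02 (A12 (out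
  11) (B01 (A23 (M 5 (K [(46,7,5),(46,11,3)] [])) (A13 (M 5 (K [(46,7,4),(46,11,4)] [])) (S 2 (L 8
  2) (L 25 2)))) (M 6 (K [(41,5,4),(43,10,1),(41,10,3)] [])))) (L 41 5))) (A23 (B02 (A02 (B01 (S 1
  (L 4 1) (L 31 1)) (A01 (K [(41,10,4),(41,5,4)] []) (A12 (S 2 (L 8 2) (L 25 2)) (K
  [(41,5,4),(41,10,4)] [])))) (B01 (S 1 (L 4 1) (L 31 1)) (A12 (A01 (M 5 (K [(46,11,3),(46,7,5)]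
  [])) (S 2 (L 8 2) (L 25 2))) (M 5 (K [(46,7,5),(46,11,3)] []))))) (K [(41,5,14),(41,10,10)] []))
  (B02 (S 2 (L 8 2) (L 25 2)) (K [(41,5,14),(41,10,10)] [])))) (A13 (M 6 (K [(41,5,3),(43,6,5)]
  [])) (S 1 (L 4 3) (L 45 3))))))) (A03 (M 5 (A01 (A02 (out 9) (B02 (P 13 (K
  [(40,5,5),(46,7,1),(41,10,2)] [])) (S 13 (L 40 5) (L 13 5)))) (A13 (B02 (P 13 (K
  [(41,5,4),(46,7,7),(40,5,3),(46,11,3),(41,10,8)] [])) (S 13 (L 41 5) (L 13 5))) (B02 (P 13 (K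
  [(41,5,2),(46,7,2),(41,10,4)] [])) (S 13 (L 40 5) (L 13 5)))))) (A13 (M 5 (A01 (B02 (P 13 (K
  [(46,7,2),(41,5,2),(41,10,3),(46,11,1)] [])) (B12 (A02 (P 13 (K [(41,5,2),(46,7,1),(40,5,5)] []))
  (L 46 7)) (L 46 7))) (L 46 7))) (A23 (M 5 (B02 (P 13 (K [(46,7,2),(41,5,2),(41,10,3),(46,11,1)]
  [])) (B12 (A02 (P 13 (K [(41,5,2),(46,7,1),(40,5,5)] [])) (L 46 7)) (L 46 7)))) (P 13 (B02 (B01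
  (S 1 (L 4 1) (L 31 1)) (K [(41,5,14),(41,10,10)] [])) (K [(41,5,14),(41,10,10)] []))))))))))))))
  (B01 (A23 (M 5 (P 2 (A02 (B02 (A01 (P 6 (S 12 (L 38 4) (L 18 4))) (B01 (M 1 (A13 (A12 (P 10 (L 31
  1)) (B02 (S 10 (L 31 1) (L 2 1)) (P 10 (L 31 1)))) (A03 (B02 (S 10 (L 31 1) (L 2 1)) (P 10 (L 31
  1))) (B02 (S 10 (L 31 1) (L 2 1)) (P 10 (L 31 1)))))) (P 10 (A13 (A12 (B12 (P 15 (L 46 7)) (M 1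
  (L 31 1))) (S 12 (L 38 4) (L 7 4))) (S 12 (L 38 4) (L 7 4)))))) (A01 (P 6 (S 12 (L 38 4) (L 18
  4))) (A13 (A12 (B12 (B01 (A01 (S 12 (L 38 4) (L 7 4)) (P 16 (L 49 8))) (P 15 (L 46 7))) (B02 (A01
  (S 12 (L 38 4) (L 7 4)) (P 16 (L 49 8))) (P 16 (L 49 8)))) (S 12 (L 38 4) (L 7 4))) (S 12 (L 38
  4) (L 7 4))))) (B02 (A12 (B01 (M 1 (A13 (A01 (B02 (A02 (S 10 (L 31 1) (L 2 1)) (P 10 (L 31 1)))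
  (P 10 (L 31 1))) (P 10 (L 31 1))) (A23 (B02 (A02 (S 10 (L 31 1) (L 2 1)) (P 10 (L 31 1))) (P 10
  (L 31 1))) (B02 (S 10 (L 31 1) (L 2 1)) (P 10 (L 31 1)))))) (P 10 (A13 (A01 (M 1 (L 31 1)) (B12
  (A12 (P 15 (L 46 7)) (M 1 (L 31 1))) (M 1 (L 31 1)))) (M 1 (L 31 1))))) (M 1 (B01 (P 12 (L 38 4))
  (P 10 (L 31 1))))) (P 10 (A12 (A13 (A01 (M 1 (L 31 1)) (B12 (B01 (P 16 (L 49 8)) (A12 (P 15 (L 46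
  7)) (M 1 (L 31 1)))) (P 16 (L 49 8)))) (M 1 (L 31 1))) (M 1 (L 31 1)))))))) (A13 (M 5 (P 2 (B02
  (A01 (P 6 (S 12 (L 38 4) (L 18 4))) (B01 (M 1 (A12 (P 10 (L 31 1)) (A02 (P 10 (L 31 1)) (B02 (P
  13 (L 40 5)) (P 10 (L 31 1)))))) (P 10 (A12 (A13 (B12 (P 15 (L 46 7)) (M 1 (L 31 1))) (S 12 (L 38
  4) (L 7 4))) (S 12 (L 38 4) (L 7 4)))))) (A01 (P 6 (S 12 (L 38 4) (L 18 4))) (A12 (A13 (B12 (B01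
  (A01 (S 12 (L 38 4) (L 7 4)) (P 16 (L 49 8))) (P 15 (L 46 7))) (B02 (A01 (S 12 (L 38 4) (L 7 4))
  (P 16 (L 49 8))) (P 15 (L 46 7)))) (S 12 (L 38 4) (L 7 4))) (S 12 (L 38 4) (L 7 4))))))) (P 6 (M
  1 (B02 (A03 (S 12 (L 38 4) (L 18 4)) (B01 (S 10 (L 31 1) (L 2 1)) (A23 (P 10 (L 31 1)) (P 15 (L
  45 7))))) (P 10 (A03 (S 12 (L 38 4) (L 18 4)) (L 31 1)))))))) (M 19 (P 10 (A23 (M 5 (P 2 (A02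
  (B12 (S 13 (L 40 5) (L 13 5)) (A01 (A03 (out 9) (A13 (out 9) (B02 (P 15 (L 46 7)) (B12 (P 15 (L
  46 7)) (S 12 (L 38 4) (L 7 4)))))) (A13 (A12 (P 15 (L 46 7)) (B02 (P 15 (L 46 7)) (P 16 (L 49
  8)))) (A03 (B02 (P 15 (L 46 7)) (B12 (P 15 (L 46 7)) (A02 (P 15 (L 46 7)) (S 12 (L 38 4) (L 7
  4))))) (B02 (P 15 (L 46 7)) (B12 (P 15 (L 46 7)) (S 12 (L 38 4) (L 7 4)))))))) (B12 (A12 (S 13 (L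
  40 5) (L 13 5)) (B01 (S 12 (L 38 4) (L 7 4)) (A23 (A02 (S 13 (L 41 5) (L 13 5)) (P 16 (L 49 8)))
  (S 13 (L 41 5) (L 13 5))))) (A12 (A13 (A01 (B02 (B01 (S 12 (L 38 4) (L 7 4)) (P 16 (L 49 8))) (P
  16 (L 49 8))) (B02 (B01 (A12 (P 15 (L 46 7)) (S 12 (L 38 4) (L 7 4))) (P 16 (L 49 8))) (P 16 (L
  49 8)))) (A23 (B02 (B01 (M 1 (L 31 1)) (P 16 (L 49 8))) (P 16 (L 49 8))) (B02 (P 15 (L 46 7))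
  (B12 (P 15 (L 46 7)) (S 12 (L 38 4) (L 7 4)))))) (S 12 (L 38 4) (L 7 4))))))) (P 15 (M 12 (A13 (M
  5 (B12 (A01 (B01 (S 13 (L 40 5) (L 13 5)) (A02 (S 1 (L 4 3) (L 45 3)) (S 13 (L 41 5) (L 13 5))))
  (B01 (S 13 (L 40 5) (L 13 5)) (S 13 (L 41 5) (L 13 5)))) (S 13 (L 40 5) (L 13 5)))) (B12 (M 16 (P
  13 (A03 (B01 (A02 (A01 (out 9) (B02 (A13 (M 5 (P 2 (K [(41,10,3),(7,4,2),(41,5,2),(46,11,1)]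
  []))) (K [(41,10,5),(41,5,3)] [])) (K [(41,5,4),(41,10,4)] []))) (A23 (M 5 (P 2 (K
  [(7,4,2),(32,8,2),(41,10,3),(46,11,1)] []))) (B02 (A13 (M 5 (P 2 (K
  [(7,4,2),(41,10,3),(41,5,2),(46,11,1)] []))) (K [(41,10,5),(41,5,3)] [])) (K [(41,5,4),(41,10,4)]
  [])))) (K [(41,5,4),(41,10,4)] [])) (B01 (A23 (A02 (B02 (A01 (K [(41,10,33),(41,5,31)] []) (M 5
  (K [(46,7,5),(46,11,3)] []))) (K [(41,5,14),(41,10,10)] [])) (M 5 (K [(46,7,5),(46,11,3)] [])))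
  (A13 (B02 (A01 (K [(41,10,33),(41,5,31)] []) (M 5 (K [(46,7,5),(46,11,3)] []))) (K
  [(41,5,14),(41,10,10)] [])) (B02 (S 2 (L 8 2) (L 25 2)) (K [(41,5,14),(41,10,10)] [])))) (A23 (K
  [(41,5,14),(41,10,10)] []) (S 1 (L 4 3) (L 45 3))))))) (A03 (M 5 (P 2 (A02 (A01 (out 9) (B02 (P
  13 (K [(7,4,1),(40,5,5),(41,10,2)] [])) (S 13 (L 40 5) (L 13 5)))) (A23 (L 46 7) (B02 (P 13 (K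
  [(46,7,1),(40,5,5),(41,10,2)] [])) (S 13 (L 40 5) (L 13 5))))))) (A23 (M 5 (P 2 (A02 (B02 (P 13
  (K [(7,4,2),(40,5,3),(41,5,1),(41,10,2)] [])) (S 13 (L 40 5) (L 13 5))) (L 46 7)))) (A13 (M 5 (P
  2 (B02 (M 16 (P 13 (K [(7,4,2),(41,5,1),(8,8,2),(41,10,2),(46,11,1)] []))) (S 13 (L 40 5) (L 13
  5))))) (P 13 (B02 (B01 (M 1 (L 31 1)) (K [(41,5,13),(41,10,11)] [])) (K [(41,5,13),(41,10,11)]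
  []))))))))))))))) (M 5 (P 2 (A12 (A13 (out 11) (A23 (B02 (B01 (M 1 (A02 (A01 (A03 (out 9) (P 10
  (L 31 1))) (P 10 (L 31 1))) (P 10 (L 31 1)))) (P 10 (A02 (B12 (P 15 (L 46 7)) (M 1 (L 31 1)))
  (B12 (A12 (P 15 (L 46 7)) (A23 (out 11) (P 15 (L 46 7)))) (M 1 (L 31 1)))))) (P 10 (B12 (A02 (B01
  (M 1 (L 31 1)) (A01 (S 12 (L 38 4) (L 7 4)) (A12 (P 15 (L 46 7)) (B12 (P 15 (L 46 7)) (M 1 (L 31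
  1)))))) (B01 (M 1 (L 31 1)) (P 16 (L 49 8)))) (M 1 (L 31 1))))) (B02 (B01 (M 1 (S 10 (L 31 1) (L
  2 1))) (P 10 (A03 (B12 (P 15 (L 46 7)) (M 1 (L 31 1))) (B12 (P 15 (L 46 7)) (M 1 (L 31 1)))))) (P
  10 (B12 (A03 (B01 (M 1 (L 31 1)) (P 15 (L 46 7))) (B01 (M 1 (L 31 1)) (P 15 (L 46 7)))) (M 1 (L
  31 1))))))) (A23 (A02 (B02 (B01 (M 1 (A01 (A03 (out 9) (A13 (out 9) (S 10 (L 31 1) (L 2 1))))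
  (A13 (A12 (P 10 (L 31 1)) (B02 (B01 (A02 (P 10 (L 31 1)) (P 12 (L 38 4))) (P 10 (L 31 1))) (P 10
  (L 31 1)))) (A03 (B02 (B01 (S 10 (L 31 1) (L 2 1)) (P 10 (L 31 1))) (P 10 (L 31 1))) (B02 (B01 (P
  12 (L 38 4)) (P 10 (L 31 1))) (P 10 (L 31 1))))))) (P 10 (A01 (S 12 (L 38 4) (L 7 4)) (B12 (A13
  (A12 (B01 (M 1 (L 31 1)) (P 16 (L 49 8))) (S 12 (L 38 4) (L 7 4))) (S 12 (L 38 4) (L 7 4))) (M 1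
  (L 31 1)))))) (P 10 (B12 (A01 (S 12 (L 38 4) (L 7 4)) (B01 (M 1 (L 31 1)) (P 16 (L 49 8)))) (M 1
  (L 31 1))))) (B02 (B01 (M 1 (A12 (A13 (A01 (P 12 (L 38 4)) (P 10 (L 31 1))) (P 12 (L 38 4))) (P
  12 (L 38 4)))) (P 10 (A12 (B12 (A13 (A01 (M 1 (L 31 1)) (P 16 (L 49 8))) (M 1 (L 31 1))) (M 1 (L
  31 1))) (M 1 (L 31 1))))) (P 10 (B12 (A12 (B01 (P 12 (L 38 4)) (P 16 (L 49 8))) (M 1 (L 31 1)))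
  (P 12 (L 38 4)))))) (A13 (B02 (B01 (M 1 (A01 (A02 (A03 (out 9) (B02 (S 10 (L 31 1) (L 2 1)) (P 10
  (L 31 1)))) (A12 (B02 (S 10 (L 31 1) (L 2 1)) (P 10 (L 31 1))) (P 13 (L 40 5)))) (A12 (P 10 (L 31
  1)) (A02 (P 10 (L 31 1)) (B02 (B01 (P 13 (L 40 5)) (P 10 (L 31 1))) (P 10 (L 31 1))))))) (P 10
  (A01 (S 12 (L 38 4) (L 7 4)) (B12 (A12 (A13 (B01 (M 1 (L 31 1)) (P 16 (L 49 8))) (S 12 (L 38 4)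
  (L 7 4))) (S 12 (L 38 4) (L 7 4))) (M 1 (L 31 1)))))) (P 10 (B12 (A01 (S 12 (L 38 4) (L 7 4))
  (B01 (M 1 (L 31 1)) (P 16 (L 49 8)))) (M 1 (L 31 1))))) (M 1 (B02 (B01 (S 10 (L 31 1) (L 2 1)) (S
  12 (L 38 4) (L 7 4))) (S 12 (L 38 4) (L 7 4))))))))))) (A13 (B12 (A12 (B01 (A01 (A02 (P 15 (M 12
  (B02 (A03 (B01 (M 1 (L 45 7)) (A01 (S 2 (L 7 4) (L 25 4)) (M 5 (L 46 7)))) (M 5 (L 46 7))) (P 10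
  (A03 (A01 (A02 (S 1 (L 4 1) (L 31 1)) (M 5 (L 46 7))) (M 5 (L 46 7))) (M 5 (L 46 7))))))) (P 10
  (M 5 (B02 (A23 (B01 (M 1 (L 31 1)) (P 15 (L 46 7))) (B01 (M 1 (L 31 1)) (P 15 (L 46 7)))) (P 15
  (L 46 7)))))) (P 10 (M 5 (A13 (out 11) (B02 (A23 (B01 (A02 (A03 (out 11) (B02 (A13 (out 11) (M 1
  (L 31 1))) (P 15 (L 46 7)))) (A12 (B02 (A13 (out 11) (M 1 (L 31 1))) (P 15 (L 46 7))) (M 1 (L 31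
  1)))) (P 15 (L 46 7))) (B01 (A03 (A02 (out 11) (B02 (A12 (out 11) (M 1 (L 31 1))) (P 15 (L 46
  7)))) (A13 (B02 (A12 (out 11) (M 1 (L 31 1))) (P 15 (L 46 7))) (M 1 (L 31 1)))) (P 15 (L 46 7))))
  (P 15 (L 46 7))))))) (M 19 (P 15 (M 12 (A01 (A02 (B12 (A03 (P 13 (B01 (S 2 (L 7 4) (L 25 2)) (K
  [(41,5,19),(41,10,5)] []))) (B01 (A13 (A01 (M 5 (L 46 7)) (B02 (P 13 (L 41 5)) (S 2 (L 7 4) (L 25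
  2)))) (M 5 (L 46 7))) (S 13 (L 41 5) (L 13 5)))) (A03 (A01 (A02 (S 2 (L 7 4) (L 25 4)) (M 5 (L 46
  7))) (M 5 (L 46 7))) (M 5 (L 46 7)))) (B12 (A23 (B01 (A12 (A13 (B02 (A01 (M 5 (L 46 7)) (out 11))
  (S 2 (L 7 4) (L 25 2))) (M 5 (L 46 7))) (M 5 (L 46 7))) (S 13 (L 41 5) (L 13 5))) (B01 (A13 (A12
  (B02 (A01 (M 5 (L 46 7)) (out 11)) (S 2 (L 7 4) (L 25 2))) (M 5 (L 46 7))) (M 5 (L 46 7))) (S 13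
  (L 41 5) (L 13 5)))) (M 5 (L 46 7)))) (A13 (out 11) (B12 (A23 (S 13 (L 41 5) (L 13 5)) (B01 (A03
  (S 2 (L 7 4) (L 25 2)) (M 5 (L 46 7))) (S 13 (L 41 5) (L 13 5)))) (M 5 (L 46 7))))))))) (B01 (A02
  (A01 (B02 (M 1 (A03 (B01 (S 10 (L 31 1) (L 2 1)) (A02 (M 12 (S 2 (L 7 4) (L 25 4))) (P 10 (L 31
  1)))) (B01 (A23 (S 10 (L 31 1) (L 2 1)) (P 10 (L 31 1))) (P 10 (L 31 1))))) (P 10 (A03 (M 1 (L 31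
  1)) (M 5 (A23 (M 1 (L 31 1)) (P 15 (L 46 7))))))) (M 5 (B02 (A13 (B01 (M 1 (A12 (P 10 (L 31 1))
  (A23 (B02 (P 13 (L 40 5)) (P 10 (L 31 1))) (P 10 (L 31 1))))) (P 10 (A12 (A01 (B12 (P 15 (L 46
  7)) (M 1 (L 31 1))) (B12 (P 15 (L 46 7)) (M 1 (L 31 1)))) (A23 (M 1 (L 31 1)) (B12 (P 15 (L 46
  7)) (M 1 (L 31 1))))))) (B01 (M 1 (A23 (A12 (P 10 (L 31 1)) (B02 (P 13 (L 40 5)) (P 10 (L 31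
  1)))) (P 10 (L 31 1)))) (P 10 (A23 (A12 (P 15 (L 46 7)) (M 1 (L 31 1))) (P 15 (L 46 7)))))) (P 10
  (A13 (A12 (A01 (B12 (B01 (A03 (M 1 (L 31 1)) (B02 (M 1 (L 31 1)) (P 15 (L 46 7)))) (P 15 (L 46
  7))) (B02 (A03 (M 1 (L 31 1)) (P 16 (L 49 8))) (P 15 (L 46 7)))) (B12 (B01 (P 16 (L 49 8)) (P 15
  (L 46 7))) (P 16 (L 49 8)))) (A23 (M 1 (L 31 1)) (B12 (B01 (A03 (M 1 (L 31 1)) (B02 (M 1 (L 31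
  1)) (P 15 (L 46 7)))) (P 15 (L 46 7))) (B02 (A03 (M 1 (L 31 1)) (P 16 (L 49 8))) (P 15 (L 46
  7)))))) (A23 (A12 (P 15 (L 46 7)) (M 1 (L 31 1))) (P 15 (L 46 7)))))))) (M 5 (A23 (B02 (A12 (B01
  (M 1 (A01 (A02 (B02 (A03 (P 13 (L 40 5)) (P 10 (L 31 1))) (P 10 (L 31 1))) (P 10 (L 31 1))) (P 10
  (L 31 1)))) (P 10 (A01 (M 1 (L 31 1)) (A13 (B12 (A12 (P 15 (L 46 7)) (M 1 (L 31 1))) (M 1 (L 31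
  1))) (M 1 (L 31 1)))))) (M 1 (B01 (P 12 (L 38 4)) (P 10 (L 31 1))))) (P 10 (A12 (A01 (M 1 (L 31
  1)) (A13 (B12 (B01 (P 16 (L 49 8)) (A12 (P 15 (L 46 7)) (M 1 (L 31 1)))) (P 16 (L 49 8))) (M 1 (L
  31 1)))) (M 1 (L 31 1))))) (B02 (A13 (B01 (M 1 (A01 (A03 (B02 (A02 (P 13 (L 40 5)) (P 10 (L 31
  1))) (P 10 (L 31 1))) (P 10 (L 31 1))) (P 10 (L 31 1)))) (P 10 (A01 (A03 (M 1 (L 31 1)) (B12 (A23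
  (M 1 (L 31 1)) (P 15 (L 46 7))) (M 1 (L 31 1)))) (A12 (B12 (P 15 (L 46 7)) (M 1 (L 31 1))) (B12
  (A23 (M 1 (L 31 1)) (P 15 (L 46 7))) (M 1 (L 31 1))))))) (B01 (M 1 (A03 (A01 (B02 (A02 (P 13 (L
  40 5)) (P 10 (L 31 1))) (P 10 (L 31 1))) (P 10 (L 31 1))) (P 10 (L 31 1)))) (P 10 (A03 (A01 (M 1
  (L 31 1)) (B12 (A12 (P 15 (L 46 7)) (M 1 (L 31 1))) (M 1 (L 31 1)))) (A23 (B12 (A12 (P 15 (L 46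
  7)) (M 1 (L 31 1))) (M 1 (L 31 1))) (P 15 (L 46 7))))))) (P 10 (A13 (A01 (A03 (M 1 (L 31 1)) (B12
  (B01 (A23 (M 1 (L 31 1)) (B02 (M 1 (L 31 1)) (P 15 (L 46 7)))) (A23 (M 1 (L 31 1)) (P 15 (L 46
  7)))) (P 16 (L 49 8)))) (A12 (B12 (B01 (P 16 (L 49 8)) (P 15 (L 46 7))) (P 16 (L 49 8))) (B12
  (B01 (P 16 (L 49 8)) (A23 (M 1 (L 31 1)) (P 15 (L 46 7)))) (P 16 (L 49 8))))) (A03 (A01 (M 1 (L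
  31 1)) (B12 (B01 (A12 (B02 (M 1 (L 31 1)) (P 15 (L 46 7))) (M 1 (L 31 1))) (A12 (P 15 (L 46 7))
  (M 1 (L 31 1)))) (B02 (A12 (B01 (M 1 (L 31 1)) (P 15 (L 46 7))) (M 1 (L 31 1))) (P 16 (L 49
  8))))) (A23 (B12 (B01 (A12 (B02 (M 1 (L 31 1)) (P 15 (L 46 7))) (M 1 (L 31 1))) (A12 (P 15 (L 46
  7)) (M 1 (L 31 1)))) (B02 (A12 (B01 (M 1 (L 31 1)) (P 15 (L 46 7))) (M 1 (L 31 1))) (P 16 (L 49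
  8)))) (P 15 (L 46 7)))))))))) (M 19 (P 10 (A02 (P 15 (M 12 (A01 (B12 (A03 (P 13 (B01 (S 2 (L 7 4)
  (L 25 2)) (A02 (S 1 (L 4 3) (L 45 3)) (L 41 5)))) (B01 (M 5 (L 46 7)) (A23 (A02 (B12 (P 13 (L 41
  5)) (M 5 (L 46 7))) (S 13 (L 41 5) (L 13 5))) (S 13 (L 41 5) (L 13 5))))) (A03 (A02 (A01 (S 1 (L
  4 1) (L 31 1)) (M 5 (L 46 7))) (M 5 (L 46 7))) (M 5 (L 46 7)))) (M 5 (K [(46,7,16),(46,11,8)]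
  []))))) (M 5 (P 2 (A23 (B12 (A12 (S 13 (L 40 5) (L 13 5)) (B01 (S 12 (L 38 4) (L 7 4)) (A02 (P 15
  (L 46 7)) (P 16 (L 49 8))))) (A12 (A01 (A02 (B02 (P 15 (L 46 7)) (B12 (P 15 (L 46 7)) (M 1 (L 31
  1)))) (B02 (B01 (M 1 (L 31 1)) (P 16 (L 49 8))) (P 16 (L 49 8)))) (A13 (B02 (B01 (A12 (P 15 (L 46
  7)) (A02 (P 15 (L 46 7)) (P 16 (L 49 8)))) (P 16 (L 49 8))) (P 16 (L 49 8))) (B02 (B01 (A23 (A02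
  (A03 (P 15 (L 46 7)) (P 16 (L 49 8))) (P 16 (L 49 8))) (A03 (A02 (P 15 (L 46 7)) (P 16 (L 49 8)))
  (P 16 (L 49 8)))) (P 16 (L 49 8))) (P 16 (L 49 8))))) (S 12 (L 38 4) (L 7 4)))) (B12 (P 15 (K
  [(46,7,16),(46,11,8)] [])) (A13 (A01 (A03 (B02 (P 15 (L 46 7)) (B12 (P 15 (L 46 7)) (M 1 (L 31
  1)))) (B02 (P 15 (L 46 7)) (P 16 (L 49 8)))) (A12 (P 15 (L 46 7)) (B02 (P 15 (L 46 7)) (P 16 (L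
  49 8))))) (A03 (A01 (B02 (P 15 (L 46 7)) (B12 (P 15 (L 46 7)) (M 1 (L 31 1)))) (B02 (P 15 (L 46
  7)) (P 16 (L 49 8)))) (A23 (B02 (P 15 (L 46 7)) (P 16 (L 49 8))) (P 15 (L 46 7)))))))))))))) (M 5
  (A12 (A01 (A02 (B02 (B01 (M 1 (A03 (S 10 (L 31 1) (L 2 1)) (P 10 (L 31 1)))) (P 10 (A03 (B12 (P
  15 (L 46 7)) (M 1 (L 31 1))) (B12 (P 15 (L 46 7)) (M 1 (L 31 1)))))) (P 10 (B12 (A03 (B01 (M 1 (L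
  31 1)) (P 15 (L 46 7))) (B01 (M 1 (L 31 1)) (P 15 (L 46 7)))) (M 1 (L 31 1))))) (P 10 (B02 (B01
  (M 1 (L 31 1)) (A23 (B12 (A12 (P 15 (L 46 7)) (A02 (P 15 (L 46 7)) (P 16 (L 49 8)))) (M 1 (L 31
  1))) (B12 (P 15 (L 46 7)) (M 1 (L 31 1))))) (B12 (A23 (B01 (M 1 (L 31 1)) (P 16 (L 49 8))) (B01
  (M 1 (L 31 1)) (P 16 (L 49 8)))) (M 1 (L 31 1)))))) (P 10 (A13 (out 11) (B02 (B01 (A23 (A02 (A03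
  (out 11) (B02 (B01 (M 1 (L 31 1)) (A13 (out 11) (M 1 (L 31 1)))) (B12 (A13 (out 11) (M 1 (L 31
  1))) (M 1 (L 31 1))))) (A12 (B02 (B01 (M 1 (L 31 1)) (A13 (out 11) (M 1 (L 31 1)))) (B12 (A13
  (out 11) (M 1 (L 31 1))) (M 1 (L 31 1)))) (M 1 (L 31 1)))) (A03 (A02 (out 11) (B02 (B01 (M 1 (L
  31 1)) (A12 (out 11) (M 1 (L 31 1)))) (B12 (A12 (out 11) (M 1 (L 31 1))) (M 1 (L 31 1))))) (A13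
  (B02 (B01 (M 1 (L 31 1)) (A12 (out 11) (M 1 (L 31 1)))) (B12 (A12 (out 11) (M 1 (L 31 1))) (M 1
  (L 31 1)))) (M 1 (L 31 1))))) (A23 (B12 (A02 (P 15 (L 46 7)) (P 16 (L 49 8))) (A02 (A03 (out 11)
  (P 16 (L 49 8))) (P 16 (L 49 8)))) (B12 (P 15 (L 46 7)) (A03 (A02 (out 11) (B02 (A12 (out 11) (M
  1 (L 31 1))) (P 16 (L 49 8)))) (A13 (B02 (A12 (out 11) (M 1 (L 31 1))) (P 16 (L 49 8))) (M 1 (L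
  31 1))))))) (B12 (A23 (B01 (A02 (A03 (out 11) (P 16 (L 49 8))) (P 16 (L 49 8))) (P 16 (L 49 8)))
  (B01 (A03 (A02 (out 11) (P 16 (L 49 8))) (P 16 (L 49 8))) (P 16 (L 49 8)))) (A23 (A02 (A03 (out
  11) (P 16 (L 49 8))) (P 16 (L 49 8))) (A03 (A02 (out 11) (P 16 (L 49 8))) (P 16 (L 49 8)))))))))
  (A02 (A01 (B02 (B01 (M 1 (A03 (S 10 (L 31 1) (L 2 1)) (A23 (A02 (P 10 (L 31 1)) (B02 (P 13 (L 40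
  5)) (P 10 (L 31 1)))) (P 10 (L 31 1))))) (P 10 (A03 (M 1 (L 31 1)) (B12 (A23 (M 1 (L 31 1)) (A13
  (M 1 (L 31 1)) (B01 (M 1 (L 31 1)) (A03 (M 1 (L 31 1)) (B12 (P 15 (L 46 7)) (M 1 (L 31 1)))))))
  (M 1 (L 31 1)))))) (P 10 (B12 (A03 (M 1 (L 31 1)) (B01 (M 1 (L 31 1)) (A23 (M 1 (L 31 1)) (A13 (M
  1 (L 31 1)) (B12 (A03 (M 1 (L 31 1)) (P 16 (L 49 8))) (M 1 (L 31 1))))))) (M 1 (L 31 1))))) (B02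
  (B01 (M 1 (A13 (A12 (P 10 (L 31 1)) (A23 (B02 (B01 (P 13 (L 40 5)) (P 10 (L 31 1))) (P 10 (L 31
  1))) (P 10 (L 31 1)))) (A23 (A12 (P 10 (L 31 1)) (B02 (B01 (P 13 (L 40 5)) (P 10 (L 31 1))) (P 10
  (L 31 1)))) (P 10 (L 31 1))))) (P 10 (A13 (B12 (A12 (A01 (B01 (M 1 (L 31 1)) (A03 (M 1 (L 31 1))
  (P 16 (L 49 8)))) (P 16 (L 49 8))) (A23 (M 1 (L 31 1)) (B01 (M 1 (L 31 1)) (A03 (M 1 (L 31 1)) (P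
  16 (L 49 8)))))) (M 1 (L 31 1))) (B12 (A23 (A12 (B01 (M 1 (L 31 1)) (A01 (M 1 (L 31 1)) (P 16 (L
  49 8)))) (M 1 (L 31 1))) (A03 (B01 (M 1 (L 31 1)) (A01 (M 1 (L 31 1)) (P 16 (L 49 8)))) (B01 (M 1
  (L 31 1)) (P 16 (L 49 8))))) (M 1 (L 31 1)))))) (P 10 (B12 (A13 (B01 (M 1 (L 31 1)) (P 16 (L 49
  8))) (B01 (M 1 (L 31 1)) (P 16 (L 49 8)))) (M 1 (L 31 1)))))) (A23 (B02 (B01 (M 1 (A12 (A01 (P 12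
  (L 38 4)) (P 10 (L 31 1))) (P 12 (L 38 4)))) (P 10 (A12 (B12 (A01 (M 1 (L 31 1)) (P 16 (L 49 8)))
  (M 1 (L 31 1))) (M 1 (L 31 1))))) (P 10 (B12 (A12 (B01 (P 12 (L 38 4)) (P 16 (L 49 8))) (M 1 (L
  31 1))) (P 12 (L 38 4))))) (B02 (B01 (M 1 (A13 (A01 (A03 (B02 (B01 (P 12 (L 38 4)) (P 10 (L 31
  1))) (P 10 (L 31 1))) (P 10 (L 31 1))) (P 10 (L 31 1))) (A03 (A01 (B02 (B01 (P 12 (L 38 4)) (P 10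
  (L 31 1))) (P 10 (L 31 1))) (P 10 (L 31 1))) (P 10 (L 31 1))))) (P 10 (A13 (B12 (A01 (A03 (M 1 (L
  31 1)) (P 16 (L 49 8))) (P 16 (L 49 8))) (M 1 (L 31 1))) (B12 (A03 (A01 (M 1 (L 31 1)) (B01 (M 1
  (L 31 1)) (P 16 (L 49 8)))) (A23 (B01 (M 1 (L 31 1)) (P 16 (L 49 8))) (B01 (M 1 (L 31 1)) (P 16
  (L 49 8))))) (M 1 (L 31 1)))))) (P 10 (B12 (A13 (B01 (M 1 (L 31 1)) (P 16 (L 49 8))) (B01 (M 1 (L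
  31 1)) (P 16 (L 49 8)))) (M 1 (L 31 1)))))))))) (B12 (A23 (B01 (A02 (A03 (B02 (M 1 (A01 (B01 (S
  10 (L 31 1) (L 2 1)) (A02 (A03 (M 12 (S 2 (L 7 4) (L 25 4))) (P 10 (L 31 1))) (P 10 (L 31 1))))
  (B01 (A12 (A13 (P 10 (L 31 1)) (S 10 (L 31 1) (L 2 1))) (S 10 (L 31 1) (L 2 1))) (P 10 (L 31
  1))))) (P 10 (A01 (M 1 (L 31 1)) (M 5 (A12 (A13 (P 15 (L 46 7)) (M 1 (L 31 1))) (M 1 (L 31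
  1))))))) (M 5 (B02 (M 1 (A13 (B01 (A12 (A01 (B02 (A03 (S 10 (L 31 1) (L 2 1)) (P 10 (L 31 1))) (P
  10 (L 31 1))) (P 10 (L 31 1))) (A23 (S 10 (L 31 1) (L 2 1)) (B02 (A03 (S 10 (L 31 1) (L 2 1)) (P
  10 (L 31 1))) (P 10 (L 31 1))))) (P 10 (L 31 1))) (B01 (P 12 (L 38 4)) (P 10 (L 31 1))))) (P 10
  (A13 (A12 (A01 (M 1 (L 31 1)) (B12 (B01 (A13 (P 15 (L 46 7)) (M 1 (L 31 1))) (P 15 (L 46 7)))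
  (B02 (A13 (P 15 (L 46 7)) (M 1 (L 31 1))) (A13 (P 15 (L 46 7)) (M 1 (L 31 1)))))) (M 1 (L 31 1)))
  (M 1 (L 31 1))))))) (M 5 (A12 (B02 (M 1 (A13 (B01 (A01 (A03 (B02 (A02 (P 13 (L 40 5)) (P 10 (L 31
  1))) (P 10 (L 31 1))) (P 10 (L 31 1))) (P 10 (L 31 1))) (P 10 (L 31 1))) (B01 (P 12 (L 38 4)) (P
  10 (L 31 1))))) (P 10 (A13 (A01 (M 1 (L 31 1)) (A12 (B12 (B01 (A13 (P 15 (L 46 7)) (M 1 (L 31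
  1))) (P 15 (L 46 7))) (B02 (A13 (P 15 (L 46 7)) (M 1 (L 31 1))) (P 16 (L 49 8)))) (M 1 (L 31
  1)))) (M 1 (L 31 1))))) (M 1 (B02 (A23 (B01 (P 12 (L 38 4)) (P 10 (L 31 1))) (B01 (P 12 (L 38 4))
  (P 10 (L 31 1)))) (P 10 (L 31 1))))))) (M 19 (P 10 (A02 (A03 (P 15 (B12 (A01 (P 13 (B01 (S 1 (L 4
  1) (L 31 1)) (A02 (S 1 (L 4 3) (L 45 3)) (L 41 5)))) (B01 (M 5 (L 46 7)) (A12 (A13 (B12 (P 13 (L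
  41 5)) (M 5 (L 46 7))) (B12 (P 13 (L 41 5)) (M 5 (L 46 7)))) (A02 (B12 (P 13 (L 41 5)) (M 5 (L 46
  7))) (M 5 (L 46 7)))))) (A01 (A02 (S 1 (L 4 1) (L 31 1)) (M 5 (L 46 7))) (M 5 (L 46 7))))) (M 5
  (B12 (A13 (P 15 (L 46 7)) (B01 (M 1 (L 31 1)) (P 15 (L 46 7)))) (A13 (P 15 (L 46 7)) (M 1 (L 31
  1)))))) (M 5 (P 2 (A12 (B12 (A13 (P 15 (L 46 7)) (B01 (M 1 (L 31 1)) (P 15 (L 46 7)))) (A13 (A01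
  (A03 (B02 (P 15 (L 46 7)) (B12 (P 15 (L 46 7)) (M 1 (L 31 1)))) (B02 (P 15 (L 46 7)) (P 16 (L 49
  8)))) (A12 (P 15 (L 46 7)) (B02 (P 15 (L 46 7)) (P 16 (L 49 8))))) (M 1 (L 31 1)))) (B12 (A23
  (B01 (M 1 (L 31 1)) (A02 (A03 (P 15 (L 46 7)) (B12 (P 15 (L 46 7)) (A13 (P 15 (L 46 7)) (S 12 (L
  38 4) (L 7 4))))) (P 16 (L 49 8)))) (B01 (M 1 (L 31 1)) (A03 (A02 (P 15 (L 46 7)) (B12 (P 15 (L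
  46 7)) (A12 (P 15 (L 46 7)) (M 1 (L 31 1))))) (A13 (B12 (P 15 (L 46 7)) (A12 (P 15 (L 46 7)) (M 1
  (L 31 1)))) (B12 (P 15 (L 46 7)) (M 1 (L 31 1))))))) (M 1 (L 31 1)))))))))) (B01 (A03 (A02 (B02
  (M 1 (A01 (B01 (S 10 (L 31 1) (L 2 1)) (A03 (A02 (M 12 (S 2 (L 7 4) (L 25 4))) (S 10 (L 31 1) (L
  2 1))) (S 10 (L 31 1) (L 2 1)))) (B01 (A13 (A12 (P 10 (L 31 1)) (S 10 (L 31 1) (L 2 1))) (S 10 (L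
  31 1) (L 2 1))) (A13 (P 10 (L 31 1)) (S 10 (L 31 1) (L 2 1)))))) (P 10 (A01 (M 1 (L 31 1)) (M 5
  (A13 (A12 (P 15 (L 46 7)) (M 1 (L 31 1))) (M 1 (L 31 1))))))) (M 5 (B02 (M 1 (A12 (B01 (A13 (A01
  (B02 (A02 (S 10 (L 31 1) (L 2 1)) (P 10 (L 31 1))) (P 10 (L 31 1))) (P 10 (L 31 1))) (A23 (B02
  (A02 (S 10 (L 31 1) (L 2 1)) (P 10 (L 31 1))) (P 10 (L 31 1))) (S 10 (L 31 1) (L 2 1)))) (A13 (P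
  10 (L 31 1)) (A23 (P 10 (L 31 1)) (S 10 (L 31 1) (L 2 1))))) (B01 (P 12 (L 38 4)) (A23 (P 10 (L
  31 1)) (A13 (P 10 (L 31 1)) (S 10 (L 31 1) (L 2 1))))))) (P 10 (A12 (A13 (A01 (M 1 (L 31 1)) (B12
  (B01 (A12 (P 15 (L 46 7)) (M 1 (L 31 1))) (P 15 (L 46 7))) (B02 (A12 (P 15 (L 46 7)) (M 1 (L 31
  1))) (A12 (P 15 (L 46 7)) (M 1 (L 31 1)))))) (M 1 (L 31 1))) (M 1 (L 31 1))))))) (M 5 (A13 (B02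
  (M 1 (A12 (B01 (A01 (A02 (B02 (S 10 (L 31 1) (L 2 1)) (A03 (S 10 (L 31 1) (L 2 1)) (P 10 (L 31
  1)))) (P 10 (L 31 1))) (P 10 (L 31 1))) (A01 (A02 (B12 (S 10 (L 31 1) (L 2 1)) (A03 (S 10 (L 31
  1) (L 2 1)) (P 10 (L 31 1)))) (P 10 (L 31 1))) (P 10 (L 31 1)))) (B01 (P 12 (L 38 4)) (A02 (A01
  (B12 (S 10 (L 31 1) (L 2 1)) (A03 (S 10 (L 31 1) (L 2 1)) (P 10 (L 31 1)))) (P 10 (L 31 1))) (P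
  10 (L 31 1)))))) (P 10 (A12 (A01 (M 1 (L 31 1)) (A13 (B12 (B01 (A12 (P 15 (L 46 7)) (M 1 (L 31
  1))) (P 15 (L 46 7))) (B02 (A12 (P 15 (L 46 7)) (M 1 (L 31 1))) (A12 (P 15 (L 46 7)) (M 1 (L 31
  1))))) (M 1 (L 31 1)))) (M 1 (L 31 1))))) (M 1 (B02 (A23 (B01 (P 12 (L 38 4)) (A02 (A03 (B12 (S
  10 (L 31 1) (L 2 1)) (A01 (S 10 (L 31 1) (L 2 1)) (P 10 (L 31 1)))) (P 10 (L 31 1))) (P 10 (L 31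
  1)))) (B01 (P 12 (L 38 4)) (A03 (A02 (B12 (S 10 (L 31 1) (L 2 1)) (A01 (S 10 (L 31 1) (L 2 1)) (P
  10 (L 31 1)))) (P 10 (L 31 1))) (P 10 (L 31 1))))) (P 10 (L 31 1))))))) (M 19 (P 10 (A03 (A02 (P
  15 (B12 (A01 (P 13 (B01 (S 1 (L 4 1) (L 31 1)) (K [(41,5,49),(41,10,15)] []))) (B01 (M 5 (L 46
  7)) (A13 (A12 (B12 (P 13 (L 41 5)) (M 5 (L 46 7))) (P 13 (L 41 5))) (P 13 (L 41 5))))) (A01 (S 1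
  (L 4 1) (L 31 1)) (M 5 (L 46 7))))) (M 5 (B12 (A12 (P 15 (L 46 7)) (B01 (M 1 (L 31 1)) (P 15 (L
  46 7)))) (A12 (P 15 (L 46 7)) (M 1 (L 31 1)))))) (M 5 (A13 (B12 (A12 (P 15 (L 46 7)) (B01 (M 1 (L
  31 1)) (P 15 (L 46 7)))) (A12 (P 15 (L 46 7)) (M 1 (L 31 1)))) (B12 (A23 (B01 (M 1 (L 31 1)) (P
  15 (L 46 7))) (B01 (M 1 (L 31 1)) (P 15 (L 46 7)))) (M 1 (L 31 1)))))))))) (M 5 (A23 (A02 (A03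
  (B02 (B01 (M 1 (A01 (S 10 (L 31 1) (L 2 1)) (A12 (A13 (P 10 (L 31 1)) (B02 (S 10 (L 31 1) (L 2
  1)) (P 10 (L 31 1)))) (A02 (B02 (S 10 (L 31 1) (L 2 1)) (P 10 (L 31 1))) (B02 (P 13 (L 40 5)) (P
  10 (L 31 1))))))) (P 10 (A01 (M 1 (L 31 1)) (B12 (A12 (A13 (B01 (M 1 (L 31 1)) (A01 (M 1 (L 31
  1)) (B12 (P 15 (L 46 7)) (M 1 (L 31 1))))) (M 1 (L 31 1))) (M 1 (L 31 1))) (M 1 (L 31 1)))))) (P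
  10 (B12 (A01 (M 1 (L 31 1)) (B01 (M 1 (L 31 1)) (A12 (A13 (B12 (A01 (M 1 (L 31 1)) (P 16 (L 49
  8))) (M 1 (L 31 1))) (M 1 (L 31 1))) (M 1 (L 31 1))))) (M 1 (L 31 1))))) (B02 (B01 (M 1 (A13 (A12
  (A01 (B02 (B01 (P 12 (L 38 4)) (P 10 (L 31 1))) (P 10 (L 31 1))) (P 10 (L 31 1))) (A23 (B02 (P 13
  (L 40 5)) (P 10 (L 31 1))) (B02 (B01 (P 12 (L 38 4)) (P 10 (L 31 1))) (P 10 (L 31 1))))) (P 12 (L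
  38 4)))) (P 10 (A13 (B12 (A12 (A01 (M 1 (L 31 1)) (B01 (M 1 (L 31 1)) (P 16 (L 49 8)))) (M 1 (L
  31 1))) (M 1 (L 31 1))) (M 1 (L 31 1))))) (P 10 (B12 (A13 (B01 (M 1 (L 31 1)) (A12 (A01 (M 1 (L
  31 1)) (P 16 (L 49 8))) (M 1 (L 31 1)))) (M 1 (L 31 1))) (M 1 (L 31 1)))))) (A12 (B02 (B01 (M 1
  (A13 (A01 (A03 (B02 (B01 (P 12 (L 38 4)) (P 10 (L 31 1))) (P 10 (L 31 1))) (P 10 (L 31 1))) (P 10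
  (L 31 1))) (P 12 (L 38 4)))) (P 10 (A13 (B12 (A01 (M 1 (L 31 1)) (A12 (B01 (M 1 (L 31 1)) (P 16
  (L 49 8))) (M 1 (L 31 1)))) (M 1 (L 31 1))) (M 1 (L 31 1))))) (P 10 (B12 (A13 (B01 (M 1 (L 31 1))
  (P 16 (L 49 8))) (M 1 (L 31 1))) (M 1 (L 31 1))))) (M 1 (B02 (B01 (P 12 (L 38 4)) (P 10 (L 31
  1))) (P 10 (L 31 1)))))) (A03 (A02 (B02 (B01 (M 1 (A01 (S 10 (L 31 1) (L 2 1)) (A13 (A12 (P 10 (L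
  31 1)) (B02 (S 10 (L 31 1) (L 2 1)) (P 10 (L 31 1)))) (A03 (B02 (S 10 (L 31 1) (L 2 1)) (P 10 (L
  31 1))) (B02 (S 10 (L 31 1) (L 2 1)) (B12 (P 13 (L 40 5)) (P 12 (L 38 4)))))))) (P 10 (A01 (M 1
  (L 31 1)) (B12 (A13 (A12 (B01 (M 1 (L 31 1)) (A01 (M 1 (L 31 1)) (B12 (P 15 (L 46 7)) (M 1 (L 31
  1))))) (M 1 (L 31 1))) (M 1 (L 31 1))) (M 1 (L 31 1)))))) (P 10 (B12 (A01 (M 1 (L 31 1)) (B01 (M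
  1 (L 31 1)) (A13 (A12 (B12 (A01 (M 1 (L 31 1)) (P 16 (L 49 8))) (M 1 (L 31 1))) (M 1 (L 31 1)))
  (M 1 (L 31 1))))) (M 1 (L 31 1))))) (B02 (B01 (M 1 (A12 (A13 (A01 (B02 (B01 (P 12 (L 38 4)) (P 10
  (L 31 1))) (P 10 (L 31 1))) (P 10 (L 31 1))) (A23 (B02 (B01 (P 12 (L 38 4)) (P 10 (L 31 1))) (P
  10 (L 31 1))) (B02 (S 10 (L 31 1) (L 2 1)) (B12 (A03 (P 10 (L 31 1)) (B01 (P 12 (L 38 4)) (P 10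
  (L 31 1)))) (P 12 (L 38 4)))))) (P 12 (L 38 4)))) (P 10 (A12 (B12 (A13 (A01 (M 1 (L 31 1)) (B01
  (M 1 (L 31 1)) (A12 (B12 (P 15 (L 46 7)) (M 1 (L 31 1))) (M 1 (L 31 1))))) (M 1 (L 31 1))) (M 1
  (L 31 1))) (M 1 (L 31 1))))) (P 10 (B12 (A12 (B01 (M 1 (L 31 1)) (A13 (A01 (M 1 (L 31 1)) (P 16
  (L 49 8))) (M 1 (L 31 1)))) (M 1 (L 31 1))) (M 1 (L 31 1)))))) (A13 (B02 (B01 (M 1 (A12 (A01 (A02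
  (B02 (B01 (P 12 (L 38 4)) (A03 (S 10 (L 31 1) (L 2 1)) (P 10 (L 31 1)))) (B12 (A03 (B01 (P 12 (L
  38 4)) (P 10 (L 31 1))) (P 10 (L 31 1))) (P 12 (L 38 4)))) (P 10 (L 31 1))) (P 10 (L 31 1))) (P
  12 (L 38 4)))) (P 10 (A12 (B12 (A01 (M 1 (L 31 1)) (A13 (B01 (M 1 (L 31 1)) (A12 (B12 (P 15 (L 46
  7)) (M 1 (L 31 1))) (M 1 (L 31 1)))) (M 1 (L 31 1)))) (M 1 (L 31 1))) (M 1 (L 31 1))))) (P 10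
  (B12 (A12 (B01 (M 1 (L 31 1)) (A01 (M 1 (L 31 1)) (P 16 (L 49 8)))) (M 1 (L 31 1))) (M 1 (L 31
  1))))) (M 1 (B02 (B01 (P 12 (L 38 4)) (P 10 (L 31 1))) (P 10 (L 31 1))))))))))))))) (A13 (M 5 (P
  2 (A12 (P 16 (P 10 (B12 (A01 (M 3 (B01 (S 12 (L 38 4) (L 7 4)) (P 15 (K [(46,7,3),(49,8,5)]
  [])))) (B01 (A13 (out 3) (M 11 (S 1 (L 4 1) (L 31 1)))) (P 15 (L 46 7)))) (A01 (S 12 (L 38 4) (L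
  7 4)) (A13 (out 3) (P 14 (M 11 (A03 (out 3) (B02 (S 1 (L 4 1) (L 31 1)) (B12 (A23 (out 3) (B01
  (A13 (out 3) (M 3 (L 49 8))) (M 6 (L 43 10)))) (A23 (out 3) (A13 (out 3) (A03 (B02 (M 3 (L 49 8))
  (B12 (M 3 (L 49 8)) (P 12 (L 38 4)))) (B02 (M 3 (L 49 8)) (B12 (M 3 (L 49 8)) (P 12 (L 38
  4))))))))))))))))) (M 11 (M 3 (B12 (A02 (P 16 (B01 (S 12 (L 38 4) (L 7 4)) (P 15 (K
  [(46,7,3),(49,8,5)] [])))) (B01 (A23 (A12 (P 10 (S 1 (L 4 1) (L 31 1))) (B02 (A02 (P 10 (S 1 (L 4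
  1) (L 31 1))) (M 1 (B01 (P 12 (L 38 4)) (P 10 (L 31 1))))) (P 16 (L 49 8)))) (P 10 (S 1 (L 4 1)
  (L 31 1)))) (P 16 (P 10 (A23 (L 49 8) (A03 (L 49 8) (S 1 (L 4 1) (L 31 1)))))))) (A02 (S 12 (L 38
  4) (L 7 4)) (A23 (A12 (P 10 (S 1 (L 4 1) (L 31 1))) (B02 (B01 (M 1 (A02 (P 10 (L 31 1)) (P 12 (L
  38 4)))) (P 16 (L 49 8))) (P 16 (L 49 8)))) (P 10 (S 1 (L 4 1) (L 31 1))))))))))) (M 11 (P 4 (M 3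
  (A03 (M 5 (B12 (A02 (M 19 (P 10 (B01 (A01 (A03 (out 11) (B02 (A23 (B01 (A12 (A13 (out 11) (B02
  (A03 (out 11) (M 1 (L 31 1))) (P 15 (L 46 7)))) (A02 (B02 (A03 (out 11) (M 1 (L 31 1))) (P 15 (L
  46 7))) (M 1 (L 31 1)))) (P 15 (L 46 7))) (B01 (A13 (A12 (out 11) (B02 (A02 (out 11) (M 1 (L 31
  1))) (P 15 (L 46 7)))) (A03 (B02 (A02 (out 11) (M 1 (L 31 1))) (P 15 (L 46 7))) (M 1 (L 31 1))))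
  (P 15 (L 46 7)))) (P 15 (L 46 7)))) (A12 (B02 (A13 (S 1 (L 4 1) (L 31 1)) (B01 (A03 (P 16 (L 49
  8)) (M 1 (L 31 1))) (P 15 (L 46 7)))) (P 15 (L 46 7))) (B02 (A23 (B01 (A02 (A03 (P 16 (L 49 8))
  (M 1 (L 31 1))) (M 1 (L 31 1))) (P 15 (L 46 7))) (B01 (A03 (A02 (P 16 (L 49 8)) (M 1 (L 31 1)))
  (M 1 (L 31 1))) (P 15 (L 46 7)))) (P 15 (L 46 7))))) (P 15 (A01 (S 13 (L 41 5) (L 13 5)) (K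
  [(46,7,6),(46,11,2)] [])))))) (B01 (A12 (P 10 (A01 (B02 (A03 (B01 (M 1 (L 31 1)) (P 16 (L 49 8)))
  (B01 (M 1 (L 31 1)) (A23 (P 16 (L 49 8)) (A13 (P 16 (L 49 8)) (B12 (P 15 (L 46 7)) (M 1 (L 31
  1))))))) (A03 (P 16 (L 49 8)) (A23 (P 16 (L 49 8)) (A13 (P 16 (L 49 8)) (B12 (B01 (A03 (P 16 (L
  49 8)) (B02 (M 1 (L 31 1)) (P 15 (L 46 7)))) (P 15 (L 46 7))) (P 16 (L 49 8))))))) (B02 (A13 (S 1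
  (L 4 1) (L 31 1)) (B01 (M 1 (L 31 1)) (A23 (P 16 (L 49 8)) (A03 (P 16 (L 49 8)) (B12 (P 15 (L 46
  7)) (A13 (P 16 (L 49 8)) (M 1 (L 31 1)))))))) (A13 (S 1 (L 4 1) (L 31 1)) (A23 (P 16 (L 49 8))
  (A03 (P 16 (L 49 8)) (B12 (B01 (A13 (P 16 (L 49 8)) (B02 (M 1 (L 31 1)) (P 15 (L 46 7)))) (P 15
  (L 46 7))) (P 16 (L 49 8))))))))) (A23 (B02 (A02 (P 10 (B01 (M 1 (L 31 1)) (P 16 (L 49 8)))) (M 1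
  (B01 (P 12 (L 38 4)) (P 10 (L 31 1))))) (P 16 (L 49 8))) (P 10 (B02 (A03 (B01 (M 1 (L 31 1)) (P
  16 (L 49 8))) (B01 (M 1 (L 31 1)) (A13 (P 16 (L 49 8)) (A23 (B12 (A02 (P 15 (L 46 7)) (M 1 (L 31
  1))) (M 1 (L 31 1))) (B12 (P 15 (L 46 7)) (M 1 (L 31 1))))))) (A03 (P 16 (L 49 8)) (A13 (P 16 (L
  49 8)) (A23 (B12 (B01 (P 16 (L 49 8)) (A02 (P 15 (L 46 7)) (M 1 (L 31 1)))) (P 16 (L 49 8))) (B12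
  (B01 (A03 (P 16 (L 49 8)) (B02 (M 1 (L 31 1)) (P 15 (L 46 7)))) (P 15 (L 46 7))) (P 16 (L 49
  8)))))))))) (M 19 (P 10 (A12 (A01 (B12 (S 13 (L 41 5) (L 13 5)) (A03 (P 16 (L 49 8)) (A23 (P 16
  (L 49 8)) (P 15 (L 46 7))))) (B12 (P 15 (L 46 7)) (A13 (S 1 (L 4 1) (L 31 1)) (A23 (P 16 (L 49
  8)) (P 15 (L 46 7)))))) (A23 (P 16 (L 49 8)) (B12 (S 13 (L 41 5) (L 13 5)) (A03 (P 16 (L 49 8))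
  (A13 (P 16 (L 49 8)) (A23 (B02 (P 15 (L 46 7)) (P 16 (L 49 8))) (P 15 (L 46 7)))))))))))) (A02 (P
  10 (A01 (A03 (out 11) (B02 (B01 (A23 (A12 (A13 (out 11) (B02 (B01 (M 1 (L 31 1)) (P 16 (L 49 8)))
  (P 16 (L 49 8)))) (A02 (B02 (B01 (M 1 (L 31 1)) (P 16 (L 49 8))) (P 16 (L 49 8))) (M 1 (L 31
  1)))) (A13 (A12 (out 11) (B02 (B01 (M 1 (L 31 1)) (P 16 (L 49 8))) (P 16 (L 49 8)))) (A03 (B02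
  (B01 (M 1 (L 31 1)) (A02 (out 11) (M 1 (L 31 1)))) (P 16 (L 49 8))) (M 1 (L 31 1))))) (P 16 (L 49
  8))) (P 16 (L 49 8)))) (A12 (B02 (B01 (A13 (P 16 (L 49 8)) (A03 (P 16 (L 49 8)) (M 1 (L 31 1))))
  (P 16 (L 49 8))) (P 16 (L 49 8))) (B02 (B01 (A23 (A02 (A03 (P 16 (L 49 8)) (M 1 (L 31 1))) (M 1
  (L 31 1))) (A03 (A02 (P 16 (L 49 8)) (M 1 (L 31 1))) (M 1 (L 31 1)))) (P 16 (L 49 8))) (P 16 (L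
  49 8)))))) (A12 (P 10 (A01 (B02 (B01 (M 1 (L 31 1)) (P 16 (L 49 8))) (P 16 (L 49 8))) (B02 (B01
  (A13 (P 16 (L 49 8)) (M 1 (L 31 1))) (P 16 (L 49 8))) (P 16 (L 49 8))))) (A23 (B02 (B01 (M 1 (A02
  (P 10 (L 31 1)) (P 12 (L 38 4)))) (P 16 (L 49 8))) (P 16 (L 49 8))) (P 10 (B02 (B01 (M 1 (L 31
  1)) (P 16 (L 49 8))) (P 16 (L 49 8))))))))) (M 5 (B12 (A23 (B01 (A12 (A13 (P 10 (B02 (A01 (B01 (M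
  1 (L 31 1)) (A02 (A03 (B12 (P 15 (L 46 7)) (A01 (M 1 (L 31 1)) (P 16 (L 49 8)))) (P 16 (L 49 8)))
  (P 16 (L 49 8)))) (S 1 (L 4 1) (L 31 1))) (A01 (A02 (A03 (B12 (B01 (A01 (B02 (M 1 (L 31 1)) (P 15
  (L 46 7))) (P 16 (L 49 8))) (P 15 (L 46 7))) (P 16 (L 49 8))) (P 16 (L 49 8))) (P 16 (L 49 8)))
  (S 1 (L 4 1) (L 31 1))))) (B02 (M 1 (A03 (P 10 (L 31 1)) (B01 (P 12 (L 38 4)) (P 10 (L 31 1)))))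
  (P 10 (A03 (A02 (A01 (B12 (B01 (A03 (B02 (M 1 (L 31 1)) (P 15 (L 46 7))) (M 1 (L 31 1))) (P 15 (L
  46 7))) (P 16 (L 49 8))) (B12 (M 1 (L 31 1)) (P 16 (L 49 8)))) (A23 (P 16 (L 49 8)) (B12 (M 1 (L
  31 1)) (P 16 (L 49 8))))) (M 1 (L 31 1)))))) (A02 (B02 (M 1 (A03 (P 10 (L 31 1)) (B01 (P 12 (L 38
  4)) (P 10 (L 31 1))))) (P 10 (A03 (A01 (A02 (B12 (B01 (A03 (B02 (M 1 (L 31 1)) (P 15 (L 46 7)))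
  (M 1 (L 31 1))) (P 15 (L 46 7))) (P 16 (L 49 8))) (B12 (M 1 (L 31 1)) (P 16 (L 49 8)))) (A13 (P
  16 (L 49 8)) (B12 (M 1 (L 31 1)) (P 16 (L 49 8))))) (M 1 (L 31 1))))) (M 1 (B02 (A23 (B01 (P 12
  (L 38 4)) (P 10 (L 31 1))) (B01 (P 12 (L 38 4)) (P 10 (L 31 1)))) (P 10 (L 31 1)))))) (P 10 (A12
  (A13 (B12 (P 15 (L 46 7)) (A01 (A02 (P 15 (L 46 7)) (P 16 (L 49 8))) (S 1 (L 4 1) (L 31 1))))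
  (B12 (A03 (P 15 (L 46 7)) (B01 (A23 (A02 (B02 (A01 (B01 (M 1 (L 31 1)) (P 15 (L 46 7))) (P 16 (L
  49 8))) (P 15 (L 46 7))) (P 16 (L 49 8))) (A13 (B02 (A01 (M 1 (L 31 1)) (P 16 (L 49 8))) (P 15 (L
  46 7))) (M 1 (L 31 1)))) (P 15 (L 46 7)))) (A03 (A02 (P 15 (L 46 7)) (A23 (P 16 (L 49 8)) (B02 (P
  15 (L 46 7)) (P 16 (L 49 8))))) (A23 (A02 (B02 (B01 (M 1 (L 31 1)) (P 16 (L 49 8))) (P 16 (L 49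
  8))) (P 16 (L 49 8))) (A13 (B02 (B01 (M 1 (L 31 1)) (P 16 (L 49 8))) (P 16 (L 49 8))) (M 1 (L 31
  1))))))) (A02 (B12 (A03 (P 15 (L 46 7)) (B01 (A13 (A01 (B02 (A02 (B01 (M 1 (L 31 1)) (P 15 (L 46
  7))) (P 16 (L 49 8))) (P 15 (L 46 7))) (P 16 (L 49 8))) (M 1 (L 31 1))) (P 15 (L 46 7)))) (A03
  (A01 (A02 (P 15 (L 46 7)) (B02 (P 15 (L 46 7)) (P 16 (L 49 8)))) (A13 (P 16 (L 49 8)) (B02 (P 15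
  (L 46 7)) (P 16 (L 49 8))))) (A13 (A01 (B02 (B01 (M 1 (L 31 1)) (P 16 (L 49 8))) (P 16 (L 49 8)))
  (P 16 (L 49 8))) (M 1 (L 31 1))))) (P 16 (L 49 8)))))) (B01 (A13 (A12 (P 10 (B02 (A01 (B01 (M 1
  (L 31 1)) (A03 (A02 (P 15 (L 46 7)) (P 16 (L 49 8))) (S 1 (L 4 1) (L 31 1)))) (S 1 (L 4 1) (L 31
  1))) (A01 (A03 (A02 (P 15 (L 46 7)) (P 16 (L 49 8))) (S 1 (L 4 1) (L 31 1))) (S 1 (L 4 1) (L 31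
  1))))) (B02 (M 1 (A02 (P 10 (L 31 1)) (B01 (P 12 (L 38 4)) (P 10 (L 31 1))))) (P 10 (A02 (A03
  (A01 (B12 (B01 (A02 (P 15 (L 46 7)) (M 1 (L 31 1))) (P 15 (L 46 7))) (P 16 (L 49 8))) (B12 (M 1
  (L 31 1)) (P 16 (L 49 8)))) (A23 (B12 (M 1 (L 31 1)) (P 16 (L 49 8))) (S 1 (L 4 1) (L 31 1)))) (M
  1 (L 31 1)))))) (A03 (B02 (M 1 (A02 (P 10 (L 31 1)) (B01 (P 12 (L 38 4)) (P 10 (L 31 1))))) (P 10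
  (A02 (A01 (A03 (B12 (B01 (A02 (P 15 (L 46 7)) (M 1 (L 31 1))) (P 15 (L 46 7))) (P 16 (L 49 8)))
  (B12 (M 1 (L 31 1)) (B02 (M 1 (L 31 1)) (A23 (P 16 (L 49 8)) (P 15 (L 46 7)))))) (A12 (B12 (M 1
  (L 31 1)) (B02 (M 1 (L 31 1)) (A13 (P 16 (L 49 8)) (A03 (P 16 (L 49 8)) (M 1 (L 31 1)))))) (B12
  (M 1 (L 31 1)) (B02 (M 1 (L 31 1)) (A23 (P 16 (L 49 8)) (A03 (P 16 (L 49 8)) (M 1 (L 31 1))))))))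
  (M 1 (L 31 1))))) (M 1 (B02 (A23 (B01 (P 12 (L 38 4)) (P 10 (L 31 1))) (B01 (P 12 (L 38 4)) (P 10
  (L 31 1)))) (P 10 (L 31 1)))))) (P 10 (A13 (A12 (P 15 (L 46 7)) (B12 (A02 (P 15 (L 46 7)) (B01
  (A23 (A12 (B02 (A01 (M 1 (L 31 1)) (P 16 (L 49 2))) (P 15 (L 46 7))) (M 1 (L 31 1))) (P 15 (L 46
  7))) (P 15 (L 46 7)))) (A02 (P 15 (L 46 7)) (A23 (A12 (B02 (B01 (M 1 (L 31 1)) (P 16 (L 49 8)))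
  (P 16 (L 49 8))) (M 1 (L 31 1))) (A03 (B02 (B01 (M 1 (L 31 1)) (P 16 (L 49 8))) (P 16 (L 49 8)))
  (S 1 (L 4 1) (L 31 1))))))) (A03 (B12 (A02 (P 15 (L 46 7)) (B01 (A12 (P 15 (L 46 7)) (M 1 (L 31
  1))) (P 15 (L 46 7)))) (A02 (P 15 (L 46 7)) (A12 (A01 (B02 (B01 (M 1 (L 31 1)) (A03 (B12 (P 15 (L
  46 7)) (M 1 (L 31 1))) (B12 (P 15 (L 46 7)) (M 1 (L 31 1))))) (B12 (A03 (P 16 (L 49 8)) (B01 (M 1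
  (L 31 1)) (P 15 (L 46 7)))) (M 1 (L 31 1)))) (B02 (B01 (M 1 (L 31 1)) (A13 (S 1 (L 4 1) (L 31 1))
  (B12 (P 15 (L 46 7)) (M 1 (L 31 1))))) (B12 (A13 (P 16 (L 49 8)) (B01 (M 1 (L 31 1)) (P 15 (L 46
  7)))) (A13 (P 16 (L 49 8)) (M 1 (L 31 1)))))) (M 1 (L 31 1))))) (B12 (A23 (B01 (A12 (A13 (P 15 (L
  46 7)) (M 1 (L 31 1))) (M 1 (L 31 1))) (P 15 (L 46 7))) (B01 (A13 (A12 (P 15 (L 46 7)) (M 1 (L 31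
  1))) (M 1 (L 31 1))) (P 15 (L 46 7)))) (A23 (A12 (A13 (B02 (B01 (M 1 (L 31 1)) (A01 (B12 (P 15 (L
  46 7)) (M 1 (L 31 1))) (S 1 (L 4 1) (L 31 1)))) (B12 (A01 (B01 (M 1 (L 31 1)) (P 15 (L 46 7))) (P
  16 (L 49 8))) (A01 (M 1 (L 31 1)) (P 16 (L 49 8))))) (M 1 (L 31 1))) (M 1 (L 31 1))) (A13 (A12
  (B02 (P 15 (L 46 7)) (B12 (P 15 (L 46 7)) (A01 (M 1 (L 31 1)) (P 16 (L 49 8))))) (M 1 (L 31 1)))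
  (M 1 (L 31 1)))))))))) (A23 (A12 (A13 (P 10 (B02 (B01 (A01 (M 1 (L 31 1)) (P 16 (L 49 8))) (P 16
  (L 49 8))) (P 16 (L 49 8)))) (B02 (B01 (M 1 (A03 (P 10 (L 31 1)) (P 12 (L 38 4)))) (P 16 (L 49
  8))) (P 16 (L 49 8)))) (A02 (B02 (B01 (M 1 (A03 (P 10 (L 31 1)) (P 12 (L 38 4)))) (P 16 (L 49
  8))) (P 16 (L 49 8))) (P 12 (L 38 4)))) (A13 (A12 (P 10 (B02 (B01 (A01 (M 1 (L 31 1)) (P 16 (L 49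
  8))) (P 16 (L 49 8))) (P 16 (L 49 8)))) (B02 (B01 (M 1 (A02 (P 10 (L 31 1)) (P 12 (L 38 4)))) (P
  16 (L 49 8))) (P 16 (L 49 8)))) (A03 (B02 (B01 (M 1 (A02 (P 10 (L 31 1)) (P 12 (L 38 4)))) (P 16
  (L 49 8))) (P 16 (L 49 8))) (M 1 (B02 (B01 (P 12 (L 38 4)) (P 10 (L 31 1))) (P 10 (L 31
  1)))))))))))))))) (M 5 (P 2 (A12 (A13 (A01 (M 11 (B12 (M 18 (A02 (B01 (A03 (A01 (M 1 (B02 (A02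
  (B01 (P 12 (L 38 4)) (P 10 (L 31 1))) (P 10 (L 31 1))) (P 10 (L 31 1)))) (P 10 (S 1 (L 4 1) (L 31
  1)))) (P 10 (S 1 (L 4 1) (L 31 1)))) (S 12 (L 38 4) (L 7 4))) (P 10 (B01 (A23 (out 3) (S 1 (L 4
  1) (L 31 1))) (A23 (out 3) (S 1 (L 4 1) (L 31 1))))))) (A02 (A03 (A01 (P 12 (M 1 (B02 (M 18 (L 38
  4)) (P 10 (L 31 1))))) (P 16 (P 10 (B02 (S 1 (L 4 1) (L 31 1)) (B12 (M 3 (L 49 8)) (P 12 (A12 (M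
  18 (L 38 4)) (M 1 (L 31 1))))))))) (P 16 (P 10 (A23 (B02 (S 1 (L 4 1) (L 31 1)) (B12 (M 3 (L 49
  8)) (P 12 (A12 (M 18 (L 38 4)) (M 1 (L 31 1)))))) (M 18 (B02 (S 1 (L 4 1) (L 31 1)) (B12 (M 3 (L
  49 8)) (A13 (P 12 (L 38 4)) (A03 (P 12 (L 38 4)) (A23 (P 12 (L 38 4)) (M 3 (L 49 8)))))))))))) (P
  16 (P 10 (A23 (out 3) (A03 (out 3) (M 18 (B02 (S 1 (L 4 1) (L 31 1)) (B12 (A13 (out 3) (B01 (A23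
  (out 3) (M 3 (L 49 8))) (A23 (out 3) (M 3 (L 49 8))))) (A13 (out 3) (A23 (out 3) (A03 (P 12 (L 38
  4)) (B02 (M 3 (L 49 8)) (B12 (A13 (P 12 (L 38 4)) (B01 (P 12 (L 38 4)) (A23 (P 12 (L 38 4)) (M 3
  (L 49 8))))) (P 12 (L 38 4))))))))))))))))) (P 16 (P 10 (B12 (A12 (B01 (A13 (out 3) (M 11 (A23
  (out 3) (S 1 (L 4 1) (L 31 1))))) (M 6 (A13 (out 3) (P 14 (L 43 10))))) (P 14 (M 11 (B01 (A23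
  (out 3) (A13 (out 3) (S 1 (L 4 1) (L 31 1)))) (M 6 (L 43 10)))))) (A12 (M 18 (A13 (out 3) (P 14
  (M 11 (A23 (out 3) (B02 (S 1 (L 4 1) (L 31 1)) (B12 (A03 (out 3) (B01 (A13 (out 3) (A23 (out 3)
  (M 3 (L 49 8)))) (M 6 (L 43 10)))) (A03 (out 3) (A13 (out 3) (A23 (out 3) (B02 (M 3 (L 49 8))
  (B12 (M 3 (L 49 8)) (P 12 (L 38 4)))))))))))))) (P 14 (M 11 (A23 (out 3) (M 18 (A13 (out 3) (B02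
  (S 1 (L 4 1) (L 31 1)) (B12 (A03 (out 3) (B01 (A23 (out 3) (A13 (out 3) (M 3 (L 49 8)))) (M 6 (L
  43 10)))) (A03 (out 3) (A23 (out 3) (A13 (out 3) (B02 (M 3 (L 49 8)) (B12 (A03 (P 12 (L 38 4))
  (B01 (P 12 (L 38 4)) (M 6 (L 43 10)))) (P 12 (L 38 4))))))))))))))))))) (M 11 (A23 (B12 (M 18
  (A02 (B01 (A01 (M 1 (A03 (B02 (A02 (B01 (P 12 (L 38 4)) (P 10 (L 31 1))) (P 10 (L 31 1))) (P 10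
  (L 31 1))) (P 10 (L 31 1)))) (P 10 (S 1 (L 4 1) (L 31 1)))) (S 12 (L 38 4) (L 7 4))) (P 10 (B01
  (A12 (S 1 (L 4 1) (L 31 1)) (P 12 (L 38 4))) (A12 (S 1 (L 4 1) (L 31 1)) (A23 (out 3) (B12 (S 1
  (L 4 1) (L 31 1)) (A03 (out 3) (A13 (out 3) (A23 (out 3) (S 1 (L 4 1) (L 31 1)))))))))))) (A02
  (A01 (P 12 (M 1 (A03 (B02 (M 18 (L 38 4)) (P 10 (L 31 1))) (P 10 (L 31 1))))) (P 16 (P 10 (A12 (M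
  18 (B02 (S 1 (L 4 1) (L 31 1)) (B12 (M 3 (L 49 8)) (A13 (A01 (P 12 (L 38 4)) (A12 (M 3 (L 49 8))
  (P 12 (L 38 4)))) (P 12 (L 38 4)))))) (P 12 (B02 (M 18 (L 38 4)) (B12 (M 18 (L 38 4)) (M 1 (L 31
  1))))))))) (P 16 (P 10 (A12 (A01 (P 12 (B02 (M 18 (L 38 4)) (B12 (M 18 (L 38 4)) (A03 (out 3) (M
  18 (L 38 4)))))) (M 18 (B02 (S 1 (L 4 1) (L 31 1)) (B12 (A13 (B01 (A12 (M 3 (L 49 8)) (P 12 (L 38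
  4))) (A12 (M 3 (L 49 8)) (A23 (out 3) (M 3 (L 49 8))))) (B01 (P 12 (L 38 4)) (A23 (A12 (M 3 (L 49
  8)) (out 3)) (M 3 (L 49 8))))) (A13 (A12 (A01 (P 12 (L 38 4)) (B02 (M 3 (L 49 8)) (B12 (A13 (B01
  (P 12 (L 38 4)) (A12 (M 3 (L 49 8)) (P 12 (L 38 4)))) (P 12 (L 38 4))) (P 12 (L 38 4))))) (P 12
  (L 38 4))) (P 12 (L 38 4))))))) (P 12 (A23 (out 3) (B02 (M 18 (L 38 4)) (B12 (M 18 (L 38 4)) (A03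
  (out 3) (A13 (out 3) (M 1 (L 31 1))))))))))))) (M 18 (B12 (A03 (B01 (A01 (M 1 (A02 (B02 (A03 (B01
  (P 12 (L 38 4)) (P 10 (L 31 1))) (B01 (P 12 (L 38 4)) (P 10 (L 31 1)))) (P 10 (L 31 1))) (B02
  (A23 (P 10 (L 31 1)) (B01 (P 12 (L 38 4)) (P 10 (L 31 1)))) (P 10 (L 31 1))))) (A13 (P 10 (S 1 (L
  4 1) (L 31 1))) (M 1 (B02 (A23 (P 10 (L 31 1)) (B01 (P 12 (L 38 4)) (P 10 (L 31 1)))) (P 10 (L 31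
  1)))))) (S 12 (L 38 4) (L 7 4))) (B01 (A13 (A01 (M 1 (B02 (A02 (B01 (P 12 (L 38 4)) (P 10 (L 31
  1))) (P 10 (L 31 1))) (P 10 (L 31 1)))) (P 10 (S 1 (L 4 1) (L 31 1)))) (M 1 (A23 (B02 (A02 (B01
  (P 12 (L 38 4)) (P 10 (L 31 1))) (P 10 (L 31 1))) (P 10 (L 31 1))) (B02 (A03 (B01 (P 12 (L 38 4))
  (P 10 (L 31 1))) (B01 (P 12 (L 38 4)) (P 10 (L 31 1)))) (P 10 (L 31 1)))))) (P 10 (A13 (S 1 (L 4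
  1) (L 31 1)) (A23 (S 1 (L 4 1) (L 31 1)) (B12 (A03 (B01 (A01 (M 1 (L 31 1)) (A13 (B02 (A12 (P 15
  (L 46 7)) (M 1 (L 31 1))) (A12 (P 15 (L 46 7)) (M 1 (L 31 1)))) (M 1 (L 31 1)))) (P 15 (L 46 7)))
  (B01 (A13 (A01 (M 1 (L 31 1)) (B02 (A12 (P 15 (L 46 7)) (M 1 (L 31 1))) (A12 (P 15 (L 46 7)) (M 1
  (L 31 1))))) (M 1 (L 31 1))) (P 15 (L 46 7)))) (A03 (A01 (M 1 (L 31 1)) (A13 (S 1 (L 4 1) (L 31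
  1)) (M 1 (L 31 1)))) (A13 (A01 (M 1 (L 31 1)) (B02 (B01 (M 1 (L 31 1)) (S 1 (L 4 1) (L 31 1))) (S
  1 (L 4 1) (L 31 1)))) (M 1 (L 31 1)))))))))) (A03 (A01 (P 12 (L 38 4)) (A13 (P 16 (P 10 (B02 (S 1
  (L 4 1) (L 31 1)) (B12 (M 3 (L 49 8)) (A12 (M 3 (L 49 8)) (P 12 (L 38 4))))))) (M 1 (B02 (B01 (P
  12 (L 38 4)) (P 10 (L 31 1))) (P 10 (L 31 1)))))) (A13 (A01 (M 1 (B02 (B01 (P 12 (L 38 4)) (P 10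
  (L 31 1))) (P 10 (L 31 1)))) (P 16 (P 10 (B02 (S 1 (L 4 1) (L 31 1)) (B12 (M 3 (L 49 8)) (A12 (M
  3 (L 49 8)) (P 12 (L 38 4)))))))) (M 1 (A23 (B02 (B01 (P 12 (L 38 4)) (P 10 (L 31 1))) (P 10 (L
  31 1))) (B02 (B01 (P 12 (L 38 4)) (P 10 (L 31 1))) (P 10 (L 31 1)))))))))))) (M 11 (A23 (A02 (B12
  (A01 (B01 (P 12 (M 1 (A03 (A02 (M 18 (L 38 4)) (P 10 (L 31 1))) (P 10 (L 31 1))))) (M 18 (P 16 (P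
  10 (A03 (A02 (M 3 (L 49 8)) (B12 (M 3 (L 49 8)) (P 12 (L 38 4)))) (A13 (B12 (S 1 (L 4 1) (L 31
  1)) (P 12 (L 38 4))) (M 1 (L 31 1)))))))) (P 10 (B01 (A13 (out 3) (M 1 (L 31 1))) (A13 (out 3)
  (A03 (out 3) (S 1 (L 4 1) (L 31 1))))))) (P 12 (A01 (M 1 (A03 (A02 (B02 (M 18 (L 38 4)) (P 10 (L
  31 1))) (P 10 (L 31 1))) (P 10 (L 31 1)))) (P 10 (A13 (out 3) (M 1 (L 31 1))))))) (P 10 (B12 (A12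
  (B01 (A13 (out 3) (M 1 (L 31 1))) (A13 (out 3) (P 12 (A23 (out 3) (B12 (S 1 (L 4 1) (L 31 1))
  (A03 (out 3) (M 18 (L 38 4)))))))) (B01 (M 1 (L 31 1)) (A23 (out 3) (A13 (out 3) (M 1 (L 31
  1)))))) (A12 (A13 (out 3) (M 1 (L 31 1))) (M 1 (L 31 1)))))) (A13 (B12 (A01 (B01 (P 12 (M 1 (A02
  (M 18 (L 38 4)) (P 10 (L 31 1))))) (M 18 (P 10 (A02 (S 12 (L 38 4) (L 7 4)) (S 1 (L 4 1) (L 31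
  1)))))) (P 10 (B01 (P 12 (A12 (M 18 (L 38 4)) (M 1 (L 31 1)))) (M 18 (A12 (A13 (out 3) (B12 (S 1
  (L 4 1) (L 31 1)) (P 12 (L 38 4)))) (A02 (B12 (S 1 (L 4 1) (L 31 1)) (P 12 (L 38 4))) (B12 (S 1
  (L 4 1) (L 31 1)) (P 12 (L 38 4))))))))) (P 12 (A01 (M 1 (A02 (A03 (B02 (M 18 (L 38 4)) (P 10 (L
  31 1))) (P 10 (L 31 1))) (P 10 (L 31 1)))) (P 10 (A12 (A13 (out 3) (B02 (B01 (M 1 (L 31 1)) (A03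
  (out 3) (B12 (M 18 (L 38 4)) (M 1 (L 31 1))))) (B12 (A03 (out 3) (B01 (M 1 (L 31 1)) (A23 (out 3)
  (M 18 (L 38 4))))) (M 1 (L 31 1))))) (M 1 (L 31 1))))))) (B12 (A03 (B01 (P 12 (M 1 (A02 (M 18 (L
  38 4)) (A23 (P 10 (L 31 1)) (M 18 (L 38 4)))))) (M 18 (P 10 (A02 (S 12 (L 38 4) (L 7 4)) (S 1 (L
  4 1) (L 31 1)))))) (B01 (P 12 (M 1 (A23 (A02 (M 18 (L 38 4)) (P 10 (L 31 1))) (M 18 (L 38 4)))))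
  (P 10 (A23 (S 1 (L 4 1) (L 31 1)) (A13 (S 1 (L 4 1) (L 31 1)) (M 1 (L 31 1))))))) (P 12 (M 1 (A03
  (A02 (A01 (B02 (M 18 (L 38 4)) (P 10 (L 31 1))) (B02 (M 18 (L 38 4)) (P 10 (L 31 1)))) (A23 (P 10
  (L 31 1)) (B02 (M 18 (L 38 4)) (P 10 (L 31 1))))) (A23 (A02 (B02 (M 18 (L 38 4)) (P 10 (L 31 1)))
  (P 10 (L 31 1))) (M 18 (L 38 4)))))))))))))) (M 5 (P 2 (A13 (A12 (A01 (P 14 (M 11 (A02 (M 18 (B12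
  (M 3 (A03 (B01 (A01 (M 1 (A02 (B02 (A03 (B01 (S 10 (L 31 1) (L 2 8)) (P 10 (L 31 1))) (P 10 (L 31
  1))) (P 10 (L 31 1))) (P 10 (L 31 1)))) (P 10 (S 1 (L 4 1) (L 31 1)))) (P 10 (A01 (A02 (B12 (A03
  (B01 (A01 (M 1 (L 31 1)) (A13 (B02 (A12 (P 15 (L 46 7)) (M 1 (L 31 1))) (A12 (P 15 (L 46 7)) (M 1
  (L 31 1)))) (M 1 (L 31 1)))) (S 1 (L 4 1) (L 31 1))) (B01 (S 1 (L 4 1) (L 31 1)) (S 1 (L 4 1) (L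
  31 1)))) (A03 (A01 (M 1 (L 31 1)) (A13 (B02 (B01 (M 1 (L 31 1)) (S 1 (L 4 1) (L 31 1))) (S 1 (L 4
  1) (L 31 1))) (M 1 (L 31 1)))) (S 1 (L 4 1) (L 31 1)))) (S 1 (L 4 1) (L 31 1))) (S 1 (L 4 1) (L
  31 1))))) (P 16 (P 10 (B01 (A13 (S 1 (L 4 1) (L 31 1)) (A23 (S 1 (L 4 1) (L 31 1)) (B02 (S 1 (L 4
  1) (L 31 1)) (A03 (S 1 (L 4 1) (L 31 1)) (A13 (A01 (B12 (S 1 (L 4 1) (L 31 1)) (B02 (S 1 (L 4 1)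
  (L 31 1)) (M 6 (K [(43,10,3),(49,4,5)] [])))) (B12 (S 1 (L 4 1) (L 31 1)) (B02 (S 1 (L 4 1) (L 31
  1)) (M 6 (K [(43,10,5),(49,4,3)] []))))) (A23 (B12 (S 1 (L 4 1) (L 31 1)) (B02 (S 1 (L 4 1) (L 31
  1)) (M 6 (S 12 (L 37 10) (L 7 10))))) (S 12 (L 38 10) (L 7 10)))))))) (A13 (S 1 (L 4 1) (L 31 1))
  (A23 (S 1 (L 4 1) (L 31 1)) (B12 (A03 (S 1 (L 4 1) (L 31 1)) (B01 (A13 (A01 (B02 (S 1 (L 4 1) (L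
  31 1)) (M 6 (K [(43,10,4),(43,5,4)] []))) (B02 (S 1 (L 4 1) (L 31 1)) (M 6 (K
  [(43,10,4),(43,5,4)] [])))) (A23 (B02 (S 1 (L 4 1) (L 31 1)) (M 6 (K [(43,10,4),(43,5,4)] [])))
  (B02 (A03 (S 1 (L 4 1) (L 31 1)) (M 6 (K [(43,10,4),(49,4,4)] []))) (M 6 (K [(43,5,5),(43,10,3)]
  []))))) (M 6 (A13 (K [(43,10,4),(43,5,4)] []) (K [(43,5,5),(43,10,3)] []))))) (A03 (S 1 (L 4 1)
  (L 31 1)) (A13 (A01 (B02 (B01 (S 1 (L 4 1) (L 31 1)) (M 6 (K [(43,10,3),(43,5,4)] []))) (M 6 (P 1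
  (K [(4,1,3),(43,5,4)] [])))) (B02 (B01 (S 1 (L 4 1) (L 31 1)) (M 6 (K [(43,10,4),(43,5,4)] [])))
  (M 6 (K [(43,10,4),(43,5,4)] [])))) (A23 (B02 (B01 (S 1 (L 4 1) (L 31 1)) (M 6 (P 1 (K
  [(4,1,3),(43,5,4)] [])))) (M 6 (P 1 (K [(4,1,3),(43,5,4)] [])))) (B02 (B01 (A03 (S 1 (L 4 1) (L
  31 1)) (M 6 (K [(49,4,4),(43,10,4)] []))) (L 49 4)) (L 49 4))))))))))))) (A03 (A01 (M 1 (A02 (B02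
  (B01 (S 10 (L 31 1) (L 2 8)) (P 10 (L 31 1))) (P 10 (L 31 1))) (P 10 (L 31 1)))) (P 16 (P 10 (A13
  (B02 (S 1 (L 4 1) (L 31 1)) (B12 (M 3 (L 49 8)) (A12 (M 3 (L 49 8)) (P 12 (L 38 4))))) (B02 (S 1
  (L 4 1) (L 31 1)) (B12 (S 1 (L 4 1) (L 31 1)) (S 1 (L 4 1) (L 31 1)))))))) (P 16 (P 10 (A13 (A01
  (B02 (S 1 (L 4 1) (L 31 1)) (B12 (S 1 (L 4 1) (L 31 1)) (S 1 (L 4 1) (L 31 1)))) (B02 (S 1 (L 4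
  1) (L 31 1)) (B12 (M 3 (L 49 8)) (A12 (A13 (A01 (P 12 (L 38 4)) (B02 (M 3 (L 49 8)) (B12 (M 3 (L
  49 8)) (P 12 (L 38 4))))) (P 12 (L 38 4))) (P 12 (L 38 4)))))) (A23 (B02 (B01 (S 1 (L 4 1) (L 31
  1)) (A02 (B12 (S 1 (L 4 1) (L 31 1)) (S 1 (L 4 1) (L 31 1))) (B12 (S 1 (L 4 1) (L 31 1)) (P 12 (L
  38 4))))) (B12 (A02 (B01 (S 1 (L 4 1) (L 31 1)) (A01 (A03 (S 1 (L 4 1) (L 31 1)) (B12 (S 1 (L 4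
  1) (L 31 1)) (P 12 (L 38 4)))) (A12 (M 6 (L 43 10)) (B12 (S 1 (L 4 1) (L 31 1)) (P 12 (L 38
  4)))))) (B01 (P 12 (L 38 4)) (A12 (A01 (B12 (S 1 (L 4 1) (L 31 1)) (P 12 (L 38 4))) (B12 (S 1 (L
  4 1) (L 31 1)) (A13 (M 3 (L 49 8)) (P 12 (L 38 4))))) (P 12 (L 38 4))))) (S 1 (L 4 1) (L 31 1))))
  (B02 (B01 (S 1 (L 4 1) (L 31 1)) (A03 (B12 (S 1 (L 4 1) (L 31 1)) (S 1 (L 4 1) (L 31 1))) (B12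
  (A13 (M 3 (A01 (L 49 4) (B01 (S 1 (L 4 1) (L 31 1)) (M 6 (K [(43,10,5),(49,4,3)] []))))) (A23 (M
  3 (L 49 4)) (B01 (A03 (M 3 (L 49 4)) (S 3 (L 9 4) (L 49 4))) (S 3 (L 9 4) (L 49 4))))) (M 15 (S 1
  (L 5 1) (L 31 1)))))) (B12 (A03 (B01 (M 15 (S 1 (L 5 1) (L 31 1))) (A01 (A02 (M 3 (L 49 4)) (B12
  (M 3 (L 49 4)) (M 15 (S 1 (L 5 1) (L 31 1))))) (M 6 (K [(43,10,5),(43,5,3)] [])))) (B01 (M 15 (S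
  1 (L 5 1) (L 31 1))) (M 6 (A13 (K [(43,10,4),(43,5,4)] []) (S 3 (L 11 4) (L 49 4)))))) (M 15 (S 1
  (L 5 1) (L 31 1)))))))))))) (P 16 (P 10 (B12 (M 18 (A23 (B01 (A12 (A13 (S 1 (L 4 1) (L 31 1))
  (B02 (A03 (S 1 (L 4 1) (L 31 1)) (B01 (P 12 (L 38 4)) (A23 (S 1 (L 4 1) (L 31 1)) (A13 (S 1 (L 4
  1) (L 31 1)) (P 12 (L 38 4)))))) (A03 (S 1 (L 4 1) (L 31 1)) (A23 (A02 (B12 (S 1 (L 4 1) (L 31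
  1)) (B02 (A01 (P 12 (L 38 4)) (B01 (P 12 (L 38 4)) (M 6 (L 43 10)))) (M 6 (L 43 10)))) (B12 (S 1
  (L 4 1) (L 31 1)) (B02 (A12 (B01 (P 12 (L 38 4)) (M 6 (L 43 10))) (out 3)) (M 6 (L 43 10)))))
  (A13 (B12 (S 1 (L 4 1) (L 31 1)) (B02 (A01 (P 12 (L 38 4)) (B01 (P 12 (L 38 4)) (M 6 (L 43 10))))
  (M 6 (L 43 10)))) (P 12 (L 38 4))))))) (P 12 (L 38 4))) (A12 (A13 (S 1 (L 4 1) (L 31 1)) (B12 (S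
  1 (L 4 1) (L 31 1)) (A03 (S 1 (L 4 1) (L 31 1)) (A23 (A02 (B02 (S 1 (L 4 1) (L 31 1)) (M 6 (L 43
  10))) (M 6 (L 43 10))) (A13 (B02 (S 1 (L 4 1) (L 31 1)) (M 6 (L 43 10))) (B02 (B01 (A03 (S 1 (L 4
  1) (L 31 1)) (out 3)) (M 6 (L 43 10))) (M 6 (L 43 10)))))))) (A02 (B12 (S 1 (L 4 1) (L 31 1))
  (A03 (A01 (A02 (S 1 (L 4 1) (L 31 1)) (B02 (S 1 (L 4 1) (L 31 1)) (B12 (S 1 (L 4 1) (L 31 1)) (P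
  12 (L 38 4))))) (A13 (out 3) (B02 (S 1 (L 4 1) (L 31 1)) (M 6 (L 43 10))))) (A13 (A01 (B02 (S 1
  (L 4 1) (L 31 1)) (M 6 (L 43 10))) (out 3)) (A23 (B02 (S 1 (L 4 1) (L 31 1)) (M 6 (L 43 10)))
  (B02 (B01 (A03 (S 1 (L 4 1) (L 31 1)) (out 3)) (M 6 (L 43 10))) (M 6 (L 43 10))))))) (out 3))))
  (B01 (A13 (A12 (S 1 (L 4 1) (L 31 1)) (B02 (A02 (S 1 (L 4 1) (L 31 1)) (B01 (P 12 (L 38 4)) (A23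
  (A12 (S 1 (L 4 1) (L 31 1)) (B12 (M 3 (L 49 2)) (P 12 (L 38 4)))) (S 1 (L 4 1) (L 31 1))))) (A02
  (S 1 (L 4 1) (L 31 1)) (A23 (A12 (B12 (S 1 (L 4 1) (L 31 1)) (B02 (S 1 (L 4 1) (L 31 1)) (M 6 (L
  43 10)))) (B12 (B01 (A02 (S 1 (L 4 1) (L 31 1)) (B02 (P 12 (L 38 4)) (M 6 (L 43 10)))) (A02 (S 1
  (L 4 1) (L 31 1)) (M 6 (L 43 10)))) (B02 (A02 (B01 (P 12 (L 38 4)) (A03 (P 12 (L 38 4)) (M 6 (L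
  43 10)))) (B01 (P 12 (L 38 4)) (M 6 (L 43 10)))) (M 6 (L 43 10))))) (S 1 (L 4 1) (L 31 1))))))
  (A03 (B02 (A02 (S 1 (L 4 1) (L 31 1)) (B01 (P 12 (L 38 4)) (A12 (S 1 (L 4 1) (L 31 1)) (A23 (B12
  (M 3 (L 49 2)) (P 12 (L 38 4))) (S 1 (L 4 1) (L 31 1)))))) (A02 (S 1 (L 4 1) (L 31 1)) (A12 (S 1
  (L 4 1) (L 31 1)) (A23 (B12 (B01 (A02 (S 1 (L 4 1) (L 31 1)) (B02 (P 12 (L 38 4)) (M 6 (L 43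
  10)))) (A02 (S 1 (L 4 1) (L 31 1)) (M 6 (L 43 10)))) (B02 (A02 (B01 (P 12 (L 38 4)) (A01 (P 12 (L
  38 4)) (M 6 (L 43 10)))) (B01 (P 12 (L 38 4)) (M 6 (L 43 10)))) (M 6 (L 43 10)))) (S 1 (L 4 1) (L
  31 1)))))) (B02 (A23 (B01 (P 12 (L 38 4)) (A12 (A13 (S 1 (L 4 1) (L 31 1)) (B12 (S 1 (L 4 1) (L
  31 1)) (P 12 (L 38 4)))) (A02 (B12 (S 1 (L 4 1) (L 31 1)) (P 12 (L 38 4))) (B12 (S 1 (L 4 1) (L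
  31 1)) (P 12 (L 38 4)))))) (B01 (S 1 (L 4 1) (L 31 1)) (A13 (A12 (S 1 (L 4 1) (L 31 1)) (B12 (S 1
  (L 4 1) (L 31 1)) (S 1 (L 4 1) (L 31 1)))) (A03 (B12 (S 1 (L 4 1) (L 31 1)) (S 1 (L 4 1) (L 31
  1))) (B12 (S 1 (L 4 1) (L 31 1)) (S 1 (L 4 1) (L 31 1))))))) (A23 (A12 (A13 (S 1 (L 4 1) (L 31
  1)) (B12 (B01 (A03 (S 1 (L 4 1) (L 31 1)) (M 6 (L 43 10))) (S 1 (L 4 1) (L 31 1))) (B02 (A03 (S 1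
  (L 4 1) (L 31 1)) (M 6 (L 43 10))) (M 6 (K [(43,10,4),(43,5,4)] []))))) (A02 (B12 (B01 (A03 (S 1
  (L 4 1) (L 31 1)) (M 6 (L 43 10))) (S 1 (L 4 1) (L 31 1))) (B02 (A03 (S 1 (L 4 1) (L 31 1)) (M 6
  (L 43 10))) (M 6 (K [(43,10,4),(43,5,4)] [])))) (M 6 (K [(43,10,13),(43,5,11)] [])))) (A13 (A12
  (M 3 (B12 (S 1 (L 4 1) (L 31 1)) (B02 (S 1 (L 4 1) (L 31 1)) (M 6 (K [(43,10,5),(49,4,3)] [])))))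
  (B12 (B01 (A02 (S 1 (L 4 1) (L 31 1)) (M 6 (L 43 10))) (S 1 (L 4 1) (L 31 1))) (B02 (A02 (S 1 (L
  4 1) (L 31 1)) (M 6 (L 43 10))) (M 6 (S 12 (L 37 10) (L 7 10)))))) (A03 (B12 (B01 (A02 (S 1 (L 4
  1) (L 31 1)) (M 6 (L 43 10))) (S 1 (L 4 1) (L 31 1))) (B02 (A02 (S 1 (L 4 1) (L 31 1)) (M 6 (L 43
  10))) (M 6 (S 12 (L 37 10) (L 7 10))))) (M 6 (S 12 (L 37 10) (L 7 10))))))))) (A13 (A12 (S 1 (L 4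
  1) (L 31 1)) (B12 (S 1 (L 4 1) (L 31 1)) (A02 (S 1 (L 4 1) (L 31 1)) (A23 (A12 (B02 (S 1 (L 4 1)
  (L 31 1)) (M 6 (L 43 10))) (B02 (B01 (A02 (S 1 (L 4 1) (L 31 1)) (M 6 (L 43 10))) (M 6 (L 43
  10))) (M 6 (L 43 10)))) (S 1 (L 4 1) (L 31 1)))))) (A03 (B12 (S 1 (L 4 1) (L 31 1)) (A02 (S 1 (L
  4 1) (L 31 1)) (A12 (S 1 (L 4 1) (L 31 1)) (A23 (B02 (B01 (A02 (S 1 (L 4 1) (L 31 1)) (M 6 (L 43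
  10))) (M 6 (L 43 10))) (M 6 (L 43 10))) (S 1 (L 4 1) (L 31 1)))))) (B12 (M 3 (A23 (B01 (A12 (A13
  (S 1 (L 4 1) (L 31 1)) (B02 (L 49 2) (P 15 (M 6 (K [(43,10,3),(46,3,5)] []))))) (A02 (B02 (L 49
  2) (M 6 (K [(43,10,2),(49,2,3),(43,5,3)] []))) (L 49 2))) (P 15 (M 6 (K [(43,10,4),(46,3,4)]
  [])))) (B01 (A13 (A12 (B02 (S 1 (L 4 1) (L 31 1)) (M 6 (K [(43,10,4),(43,5,4)] []))) (B02 (S 1 (L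
  4 1) (L 31 1)) (P 15 (M 6 (K [(43,10,4),(46,3,1),(43,5,4)] []))))) (A03 (B02 (S 1 (L 4 1) (L 31
  1)) (P 15 (M 6 (K [(43,10,4),(46,3,1),(43,5,4)] [])))) (M 6 (K
  [(43,10,8),(49,4,4),(43,5,10),(49,2,3)] [])))) (P 15 (M 12 (M 6 (P 1 (A13 (K
  [(43,10,4),(46,3,1),(43,5,3)] []) (K [(7,6,1),(4,8,4),(43,10,3)] []))))))))) (A23 (A12 (A13 (S 1
  (L 4 1) (L 31 1)) (B02 (M 3 (B01 (S 1 (L 4 1) (L 31 1)) (M 6 (K [(43,10,3),(49,2,2),(43,5,3)]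
  [])))) (M 6 (K [(43,10,4),(43,5,4)] [])))) (A02 (B02 (M 3 (B01 (S 1 (L 4 1) (L 31 1)) (M 6 (K
  [(43,10,3),(49,2,2),(43,5,3)] [])))) (M 6 (K [(43,10,4),(43,5,4)] []))) (M 6 (K
  [(43,10,13),(43,5,11)] [])))) (A13 (A12 (B02 (B01 (S 1 (L 4 1) (L 31 1)) (M 6 (K
  [(43,10,4),(43,5,4)] []))) (M 6 (K [(43,10,4),(43,5,4)] []))) (B02 (B01 (S 1 (L 4 1) (L 31 1)) (M
  6 (K [(43,10,4),(43,5,4)] []))) (M 6 (K [(43,10,4),(43,5,4)] [])))) (A03 (B02 (B01 (S 1 (L 4 1)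
  (L 31 1)) (M 6 (K [(43,10,3),(43,5,4)] []))) (M 6 (K [(43,10,4),(43,5,4)] []))) (M 6 (K
  [(43,5,14),(43,10,10)] []))))))))))) (A23 (A12 (A13 (M 18 (B02 (S 1 (L 4 1) (L 31 1)) (B12 (A01
  (B01 (P 12 (L 38 4)) (A02 (A03 (M 3 (L 49 8)) (B12 (M 3 (L 49 8)) (P 12 (L 38 4)))) (A12 (B12 (M
  3 (L 49 8)) (P 12 (L 38 4))) (B12 (A23 (out 3) (M 3 (L 49 8))) (P 12 (L 38 4)))))) (B01 (A12 (A13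
  (M 3 (L 49 8)) (P 12 (L 38 4))) (P 12 (L 38 4))) (A12 (A13 (M 3 (L 49 8)) (B12 (M 3 (L 49 8))
  (A03 (M 3 (L 49 8)) (M 6 (L 43 10))))) (A02 (B12 (M 3 (L 49 8)) (P 12 (L 38 4))) (M 6 (L 43
  10)))))) (A01 (P 12 (L 38 4)) (A12 (A13 (B02 (M 3 (L 49 8)) (B12 (A01 (P 12 (L 38 4)) (B01 (P 12
  (L 38 4)) (M 6 (L 43 10)))) (P 12 (L 38 4)))) (P 12 (L 38 4))) (P 12 (L 38 4))))))) (B02 (M 18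
  (B01 (P 12 (L 38 4)) (A03 (B12 (M 3 (L 49 8)) (P 12 (L 38 4))) (B12 (A23 (A02 (B01 (P 12 (L 38
  4)) (A01 (P 12 (L 38 4)) (M 6 (L 43 10)))) (B01 (P 12 (L 38 4)) (M 6 (L 43 10)))) (A13 (B01 (P 12
  (L 38 4)) (A01 (P 12 (L 38 4)) (M 6 (L 43 10)))) (P 12 (L 38 4)))) (P 12 (L 38 4)))))) (B12 (M 18
  (A03 (B01 (P 12 (L 38 4)) (A02 (A01 (P 12 (L 38 4)) (B12 (A13 (M 3 (L 49 8)) (P 12 (L 38 4))) (P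
  12 (L 38 4)))) (A23 (B12 (A12 (B01 (P 12 (L 38 4)) (M 6 (L 43 10))) (out 3)) (P 12 (L 38 4)))
  (B12 (A13 (B01 (P 12 (L 38 4)) (M 6 (L 43 10))) (P 12 (L 38 4))) (P 12 (L 38 4)))))) (B01 (P 12
  (L 38 4)) (A23 (A02 (B12 (A01 (P 12 (L 38 4)) (M 6 (L 43 10))) (P 12 (L 38 4))) (M 6 (L 43 10)))
  (A13 (B12 (A01 (P 12 (L 38 4)) (M 6 (L 43 10))) (P 12 (L 38 4))) (P 12 (L 38 4))))))) (P 12 (A03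
  (M 18 (L 38 4)) (A23 (M 18 (L 38 4)) (A13 (M 18 (L 38 4)) (M 4 (L 42 5))))))))) (P 12 (A02 (B02
  (M 18 (L 38 4)) (B12 (M 18 (L 38 4)) (A03 (A01 (A02 (M 18 (L 38 4)) (B02 (B01 (M 1 (L 31 1)) (A23
  (out 3) (M 18 (L 38 4)))) (B12 (A23 (out 3) (M 18 (L 38 4))) (M 1 (L 31 1))))) (A13 (out 3) (B02
  (B01 (M 1 (L 31 1)) (A23 (out 3) (M 18 (L 38 4)))) (B12 (A23 (out 3) (M 18 (L 38 4))) (M 4 (L 42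
  5)))))) (A13 (A01 (M 4 (L 42 5)) (out 3)) (M 4 (L 42 5)))))) (out 3)))) (A13 (A12 (M 18 (B02 (S 1
  (L 4 1) (L 31 1)) (B12 (A01 (B01 (P 12 (L 38 4)) (A03 (A02 (M 3 (L 49 8)) (B12 (M 3 (L 49 8)) (P
  12 (L 38 4)))) (A13 (B12 (M 3 (L 49 8)) (P 12 (L 38 4))) (B12 (M 3 (L 49 8)) (A23 (P 12 (L 38 4))
  (M 3 (L 49 8))))))) (B01 (A13 (A12 (M 3 (L 49 8)) (B02 (M 3 (L 49 8)) (A02 (M 3 (L 49 8)) (A23 (P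
  12 (L 38 4)) (M 3 (L 49 8)))))) (A03 (B02 (M 3 (L 49 8)) (A02 (M 3 (L 49 8)) (A12 (M 3 (L 49 8))
  (P 12 (L 38 4))))) (B02 (M 3 (L 49 8)) (M 6 (L 43 10))))) (A13 (A12 (M 3 (L 49 8)) (B12 (M 3 (L
  49 8)) (A02 (M 3 (L 49 8)) (M 6 (L 43 10))))) (A03 (B12 (M 3 (L 49 8)) (A02 (M 3 (L 49 8)) (M 6
  (L 43 10)))) (M 6 (L 43 10)))))) (A01 (P 12 (L 38 4)) (A13 (A12 (B02 (M 3 (L 49 8)) (B12 (M 3 (L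
  49 8)) (P 12 (L 38 4)))) (P 12 (L 38 4))) (P 12 (L 38 4))))))) (B02 (M 18 (B01 (P 12 (L 38 4))
  (A02 (B12 (S 1 (L 4 1) (L 31 1)) (P 12 (L 38 4))) (B12 (A23 (A12 (B01 (P 12 (L 38 4)) (A01 (B12
  (M 6 (L 43 10)) (P 12 (L 38 4))) (M 6 (L 43 10)))) (B01 (P 12 (L 38 4)) (A02 (B12 (M 6 (L 43 10))
  (P 12 (L 38 4))) (M 6 (L 43 10))))) (A03 (B01 (P 12 (L 38 4)) (A01 (B12 (M 6 (L 43 10)) (P 12 (L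
  38 4))) (M 6 (L 43 10)))) (M 6 (L 43 10)))) (P 12 (L 38 4)))))) (B12 (M 18 (A02 (B01 (P 12 (L 38
  4)) (A03 (A01 (P 12 (L 38 4)) (B12 (A12 (M 3 (L 49 8)) (P 12 (L 38 4))) (P 12 (L 38 4)))) (A23
  (B12 (A12 (M 3 (L 49 8)) (P 12 (L 38 4))) (P 12 (L 38 4))) (B12 (M 3 (L 49 8)) (A13 (P 12 (L 38
  4)) (A03 (P 12 (L 38 4)) (M 6 (L 43 10)))))))) (B01 (P 12 (L 38 4)) (A23 (A12 (B12 (A01 (B01 (P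
  12 (L 38 4)) (M 6 (L 43 10))) (M 6 (L 43 10))) (P 12 (L 38 4))) (B12 (A02 (B01 (P 12 (L 38 4)) (M
  6 (L 43 10))) (M 6 (L 43 10))) (P 12 (L 38 4)))) (A03 (B12 (A01 (B01 (P 12 (L 38 4)) (M 6 (L 43
  10))) (M 6 (L 43 10))) (P 12 (L 38 4))) (M 6 (L 43 10))))))) (P 12 (A02 (M 18 (L 38 4)) (A23 (A12
  (M 18 (L 38 4)) (M 4 (L 42 5))) (M 18 (L 38 4)))))))) (A03 (B02 (M 18 (B01 (P 12 (L 38 4)) (A02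
  (B12 (S 1 (L 4 1) (L 31 1)) (P 12 (L 38 4))) (B12 (A12 (A01 (B01 (P 12 (L 38 4)) (A03 (B12 (M 6
  (L 43 10)) (P 12 (L 38 4))) (B12 (M 6 (L 43 10)) (P 12 (L 38 4))))) (B01 (A13 (M 6 (L 43 10)) (P
  12 (L 38 4))) (M 6 (L 43 10)))) (A23 (B01 (P 12 (L 38 4)) (A02 (B12 (M 6 (L 43 10)) (P 12 (L 38
  4))) (M 6 (L 43 10)))) (B01 (P 12 (L 38 4)) (A03 (B12 (M 6 (L 43 10)) (P 12 (L 38 4))) (B12 (M 6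
  (L 43 10)) (P 12 (L 38 4))))))) (P 12 (L 38 4)))))) (B12 (M 18 (A02 (B01 (P 12 (L 38 4)) (A01 (P
  12 (L 38 4)) (A12 (B12 (S 1 (L 4 1) (L 31 1)) (A13 (A01 (P 12 (L 38 4)) (M 6 (L 43 10))) (P 12 (L
  38 4)))) (P 12 (L 38 4))))) (B01 (P 12 (L 38 4)) (A12 (A01 (B12 (A03 (B01 (P 12 (L 38 4)) (M 6 (L
  43 10))) (B01 (P 12 (L 38 4)) (M 6 (L 43 10)))) (P 12 (L 38 4))) (M 6 (L 43 10))) (A23 (B12 (A02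
  (B01 (P 12 (L 38 4)) (M 6 (L 43 10))) (M 6 (L 43 10))) (P 12 (L 38 4))) (B12 (A03 (B01 (P 12 (L
  38 4)) (M 6 (L 43 10))) (B01 (P 12 (L 38 4)) (M 6 (L 43 10)))) (P 12 (L 38 4)))))))) (P 12 (A02
  (M 18 (L 38 4)) (A12 (M 18 (L 38 4)) (M 4 (L 42 5))))))) (B02 (M 18 (B01 (S 1 (L 4 1) (L 31 1))
  (A23 (B12 (A12 (A13 (B01 (A01 (P 12 (L 38 4)) (M 6 (L 43 10))) (M 6 (L 43 10))) (B01 (P 12 (L 38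
  4)) (M 6 (K [(43,10,4),(43,5,4)] [])))) (A02 (B01 (P 12 (L 38 4)) (M 6 (K [(43,10,4),(43,5,4)]
  []))) (M 6 (K [(43,10,13),(43,5,11)] [])))) (P 12 (L 38 4))) (B12 (A13 (A12 (M 3 (B01 (S 1 (L 4
  1) (L 31 1)) (M 6 (K [(43,10,5),(49,4,3)] [])))) (B01 (A02 (A03 (P 12 (L 38 4)) (M 6 (L 43 10)))
  (M 6 (L 43 10))) (M 6 (S 12 (L 37 10) (L 7 10))))) (A03 (B01 (A02 (A01 (S 1 (L 4 1) (L 31 1)) (M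
  6 (L 43 10))) (M 6 (L 43 10))) (M 6 (S 12 (L 37 10) (L 7 10)))) (S 3 (L 11 4) (L 49 4)))) (M 15
  (S 1 (L 5 1) (L 31 1))))))) (B12 (M 18 (A23 (B01 (P 12 (L 38 4)) (M 6 (K [(43,10,33),(43,5,31)]
  []))) (B01 (M 15 (S 1 (L 5 1) (L 31 1))) (M 6 (A13 (K [(43,10,4),(43,5,4)] []) (S 3 (L 11 4) (L
  49 4))))))) (M 15 (P 12 (A23 (A12 (M 18 (L 38 4)) (M 4 (L 42 5))) (S 1 (L 5 1) (L 31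
  1)))))))))))))))) (P 16 (M 13 (P 10 (A13 (B12 (A12 (B01 (A01 (P 14 (M 11 (A02 (B02 (S 1 (L 4 1)
  (L 31 1)) (M 6 (L 43 10))) (out 3)))) (out 3)) (M 6 (A01 (P 14 (L 43 10)) (out 3)))) (P 14 (M 11
  (B01 (A02 (A01 (B02 (S 1 (L 4 1) (L 31 1)) (M 6 (L 43 10))) (out 3)) (out 3)) (M 6 (L 43 10))))))
  (A12 (M 18 (A01 (P 14 (A02 (B02 (B01 (A03 (M 3 (L 49 8)) (out 7)) (A03 (M 3 (L 49 8)) (out 7)))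
  (B12 (A03 (B01 (A01 (A02 (M 3 (L 49 8)) (M 6 (L 43 10))) (out 7)) (M 6 (L 43 10))) (out 7)) (A03
  (A01 (A02 (B02 (B01 (P 12 (L 38 4)) (M 6 (L 43 10))) (M 6 (L 43 10))) (M 6 (L 43 10))) (out 7))
  (out 7)))) (out 3))) (out 3))) (P 14 (A02 (M 18 (A01 (B02 (B01 (A03 (M 3 (L 49 8)) (A23 (A02 (B02
  (M 3 (L 49 8)) (B12 (M 3 (L 49 8)) (P 12 (L 38 4)))) (out 3)) (out 7))) (A03 (M 3 (L 49 8)) (B12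
  (M 6 (L 43 10)) (A23 (A02 (B02 (M 6 (L 43 10)) (A01 (B12 (M 6 (L 43 10)) (P 12 (L 38 4))) (out
  3))) (out 3)) (out 7))))) (B12 (A03 (B01 (A02 (A01 (M 3 (L 49 8)) (B02 (M 3 (L 49 8)) (M 6 (L 43
  10)))) (A23 (out 3) (B02 (M 3 (L 49 8)) (M 6 (L 43 10))))) (M 6 (L 43 10))) (B01 (A23 (A02 (B02
  (A01 (B01 (P 12 (L 38 4)) (M 6 (L 43 10))) (out 3)) (M 6 (L 43 10))) (out 3)) (out 7)) (M 6 (L 43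
  10)))) (A03 (A02 (A01 (B02 (B01 (P 12 (L 38 4)) (A03 (M 3 (L 49 8)) (B12 (M 3 (L 49 8)) (P 12 (L
  38 4))))) (B12 (A03 (B01 (P 12 (L 38 4)) (M 6 (L 43 10))) (B01 (P 12 (L 38 4)) (M 6 (L 43 10))))
  (P 12 (L 38 4)))) (B02 (B01 (P 12 (L 38 4)) (A13 (out 3) (B12 (M 6 (L 43 10)) (P 12 (L 38 4)))))
  (B12 (A13 (out 3) (B01 (P 12 (L 38 4)) (M 6 (L 43 10)))) (P 12 (L 38 4))))) (A23 (out 3) (B02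
  (B01 (P 12 (L 38 4)) (A13 (out 3) (B12 (M 6 (L 43 10)) (P 12 (L 38 4))))) (B12 (A13 (out 3) (B01
  (P 12 (L 38 4)) (M 6 (L 43 10)))) (P 12 (L 38 4)))))) (A23 (A02 (B02 (B01 (P 12 (L 38 4)) (M 6 (L
  43 10))) (M 6 (L 43 10))) (out 3)) (out 7))))) (out 3))) (out 3))))) (P 14 (M 11 (B12 (M 18 (A23
  (B01 (A02 (A03 (B02 (S 1 (L 4 1) (L 31 1)) (M 6 (L 43 10))) (B02 (A13 (S 1 (L 4 1) (L 31 1)) (B01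
  (P 12 (L 38 4)) (A23 (S 1 (L 4 1) (L 31 1)) (A03 (S 1 (L 4 1) (L 31 1)) (out 3))))) (M 6 (L 43
  10)))) (out 3)) (M 6 (L 43 10))) (B01 (A03 (A02 (B02 (S 1 (L 4 1) (L 31 1)) (M 6 (L 43 10))) (B02
  (A12 (S 1 (L 4 1) (L 31 1)) (B01 (P 12 (L 38 4)) (A23 (A02 (S 1 (L 4 1) (L 31 1)) (B12 (M 3 (L 49
  2)) (P 12 (L 38 4)))) (M 6 (L 43 10))))) (M 6 (L 43 10)))) (A13 (B02 (A12 (S 1 (L 4 1) (L 31 1))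
  (B01 (P 12 (L 38 4)) (A02 (M 6 (L 43 10)) (A23 (B12 (M 3 (L 49 2)) (P 12 (L 38 4))) (M 6 (L 43
  10)))))) (S 12 (L 38 4) (L 7 4))) (B02 (A23 (B01 (P 12 (L 38 4)) (A02 (M 6 (L 43 10)) (A12 (M 6
  (L 43 10)) (B12 (S 1 (L 4 1) (L 31 1)) (P 12 (L 38 4)))))) (B01 (S 1 (L 4 1) (L 31 1)) (M 6 (L 43
  10)))) (M 6 (A23 (K [(43,10,13),(43,5,11)] []) (A03 (K [(43,10,13),(43,5,11)] []) (A13 (K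
  [(43,10,33),(43,5,31)] []) (S 12 (L 37 10) (L 7 10))))))))) (M 6 (P 1 (A03 (L 43 10) (A13 (K
  [(43,10,5),(43,5,3)] []) (B12 (P 4 (M 3 (A23 (K [(43,10,4),(49,2,1),(43,5,3)] []) (B01 (A03 (K
  [(43,10,4),(49,2,1),(43,5,3)] []) (A13 (K [(43,10,4),(43,5,4)] []) (K
  [(43,10,7),(13,7,5),(43,5,8),(49,2,4)] []))) (P 15 (A03 (K [(46,3,1),(4,1,4),(43,5,3)] []) (K
  [(43,5,13),(49,2,6),(43,10,5)] []))))))) (A23 (K [(43,10,13),(43,5,11)] []) (A03 (K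
  [(43,10,4),(43,5,4)] []) (A13 (K [(43,10,4),(43,5,4)] []) (K [(43,5,37),(43,10,27)]
  [])))))))))))) (A23 (A02 (A03 (M 18 (B02 (B01 (A01 (S 1 (L 4 1) (L 31 1)) (A12 (A13 (out 7) (B02
  (M 3 (L 49 8)) (B12 (M 3 (L 49 8)) (P 12 (L 38 4))))) (A02 (B02 (M 3 (L 49 8)) (B12 (M 3 (L 49
  8)) (P 12 (L 38 4)))) (P 12 (L 38 4))))) (A01 (M 3 (L 49 8)) (B12 (M 6 (L 43 10)) (A12 (A13 (out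
  7) (B02 (M 6 (L 43 10)) (A03 (M 6 (L 43 10)) (P 12 (L 38 4))))) (A02 (B02 (M 6 (L 43 10)) (A03
  (B12 (M 6 (L 43 10)) (P 12 (L 38 4))) (P 12 (L 38 4)))) (P 12 (L 38 4))))))) (B12 (A01 (B01 (A02
  (A03 (M 3 (L 49 8)) (B02 (M 3 (L 49 8)) (M 6 (L 43 10)))) (A12 (B02 (M 3 (L 49 8)) (M 6 (L 43
  10))) (P 12 (L 38 4)))) (M 6 (L 43 10))) (B01 (A12 (A13 (out 7) (B02 (A03 (M 6 (L 43 10)) (P 12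
  (L 38 4))) (M 6 (L 43 10)))) (A02 (B02 (A03 (B01 (P 12 (L 38 4)) (M 6 (L 43 10))) (P 12 (L 38
  4))) (M 6 (L 43 10))) (P 12 (L 38 4)))) (M 6 (L 43 10)))) (A01 (A02 (A03 (B02 (B01 (P 12 (L 38
  4)) (A01 (M 3 (L 49 8)) (B12 (M 3 (L 49 8)) (P 12 (L 38 4))))) (B12 (A01 (B01 (P 12 (L 38 4)) (M
  6 (L 43 10))) (B01 (P 12 (L 38 4)) (M 6 (L 43 10)))) (P 12 (L 38 4)))) (B02 (B01 (P 12 (L 38 4))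
  (A13 (B12 (M 6 (L 43 10)) (P 12 (L 38 4))) (P 12 (L 38 4)))) (B12 (A13 (B01 (P 12 (L 38 4)) (M 6
  (L 43 10))) (P 12 (L 38 4))) (P 12 (L 38 4))))) (A12 (B02 (B01 (P 12 (L 38 4)) (A13 (B12 (M 6 (L
  43 10)) (P 12 (L 38 4))) (P 12 (L 38 4)))) (B12 (A13 (B01 (P 12 (L 38 4)) (M 6 (L 43 10))) (P 12
  (L 38 4))) (P 12 (L 38 4)))) (P 12 (L 38 4)))) (A12 (A13 (out 7) (B02 (B01 (P 12 (L 38 4)) (M 6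
  (L 43 10))) (M 6 (L 43 10)))) (A02 (B02 (B01 (P 12 (L 38 4)) (M 6 (L 43 10))) (M 6 (L 43 10))) (P
  12 (L 38 4)))))))) (B02 (M 18 (B01 (A13 (A12 (A01 (P 12 (L 38 4)) (out 3)) (P 12 (L 38 4))) (P 12
  (L 38 4))) (A13 (B12 (M 6 (L 43 10)) (A12 (A01 (P 12 (L 38 4)) (out 3)) (P 12 (L 38 4)))) (B12 (M
  6 (L 43 10)) (P 12 (L 38 4)))))) (B12 (M 18 (A13 (B01 (A12 (A01 (P 12 (L 38 4)) (out 3)) (P 12 (L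
  38 4))) (M 6 (L 43 10))) (B01 (P 12 (L 38 4)) (M 6 (L 43 10))))) (A13 (M 18 (A12 (A01 (P 12 (L 38
  4)) (out 3)) (P 12 (L 38 4)))) (P 12 (A23 (M 18 (L 38 4)) (A03 (M 18 (L 38 4)) (out 3))))))))
  (out 3)) (A03 (A02 (M 18 (B02 (B01 (A01 (S 1 (L 4 1) (L 31 1)) (A13 (A12 (out 7) (B02 (S 1 (L 4
  1) (L 31 1)) (B12 (M 3 (L 49 8)) (P 12 (L 38 4))))) (S 1 (L 4 1) (L 31 1)))) (A01 (S 1 (L 4 1) (L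
  31 1)) (B12 (M 6 (L 43 10)) (A13 (A12 (out 7) (B02 (M 6 (L 43 10)) (A02 (M 6 (L 43 10)) (B12 (M 6
  (L 43 10)) (P 12 (L 38 4)))))) (S 1 (L 4 1) (L 31 1)))))) (B12 (A01 (B01 (A03 (A02 (M 3 (L 49 8))
  (B02 (M 3 (L 49 8)) (M 6 (L 43 10)))) (A13 (B02 (M 3 (L 49 8)) (M 6 (L 43 10))) (B02 (M 3 (L 49
  8)) (M 6 (L 43 10))))) (M 6 (L 43 10))) (B01 (A13 (A12 (out 7) (B02 (A02 (M 6 (L 43 10)) (B01 (P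
  12 (L 38 4)) (M 6 (L 43 10)))) (M 6 (L 43 10)))) (A03 (B02 (A02 (M 6 (L 43 10)) (B01 (P 12 (L 38
  4)) (M 6 (L 43 10)))) (M 6 (L 43 10))) (B02 (A23 (B01 (P 12 (L 38 4)) (M 6 (L 43 10))) (B01 (P 12
  (L 38 4)) (M 6 (L 43 10)))) (M 6 (L 43 10))))) (M 6 (L 43 10)))) (A01 (A03 (A02 (B02 (B01 (P 12
  (L 38 4)) (M 6 (L 43 10))) (M 6 (L 43 10))) (B02 (B01 (P 12 (L 38 4)) (M 6 (L 43 10))) (M 6 (L 43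
  10)))) (A13 (B02 (B01 (P 12 (L 38 4)) (M 6 (L 43 10))) (M 6 (L 43 10))) (P 12 (L 38 4)))) (A13
  (A12 (out 7) (B02 (B01 (P 12 (L 38 4)) (M 6 (L 43 10))) (M 6 (L 43 10)))) (A03 (B02 (B01 (P 12 (L
  38 4)) (M 6 (L 43 10))) (M 6 (L 43 10))) (P 12 (L 38 4)))))))) (B02 (M 18 (B01 (A12 (A13 (A01
  (B02 (B01 (P 12 (L 38 4)) (A02 (M 3 (L 49 8)) (out 7))) (B12 (A02 (M 3 (L 49 8)) (out 7)) (P 12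
  (L 38 4)))) (out 7)) (A23 (B02 (B01 (P 12 (L 38 4)) (A02 (M 3 (L 49 8)) (out 7))) (B12 (A02 (M 3
  (L 49 8)) (out 7)) (P 12 (L 38 4)))) (B02 (S 1 (L 4 1) (L 31 1)) (B12 (S 1 (L 4 1) (L 31 1)) (P
  12 (L 38 4)))))) (P 12 (L 38 4))) (A12 (B12 (M 6 (L 43 10)) (A13 (A01 (B02 (M 6 (L 43 10)) (A02
  (B12 (M 6 (L 43 10)) (P 12 (L 38 4))) (out 7))) (out 7)) (A23 (B02 (M 6 (L 43 10)) (A02 (B12 (M 6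
  (L 43 10)) (P 12 (L 38 4))) (out 7))) (B02 (M 6 (L 43 10)) (A03 (B12 (M 6 (L 43 10)) (P 12 (L 38
  4))) (B12 (M 6 (L 43 10)) (P 12 (L 38 4)))))))) (B12 (M 6 (L 43 10)) (P 12 (L 38 4)))))) (B12 (M
  18 (A12 (B01 (A13 (A01 (B02 (A02 (B01 (P 12 (L 38 4)) (M 6 (L 43 10))) (out 7)) (M 6 (L 43 10)))
  (out 7)) (A23 (B02 (A02 (B01 (P 12 (L 38 4)) (M 6 (L 43 10))) (out 7)) (M 6 (L 43 10))) (B02 (A03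
  (B01 (P 12 (L 38 4)) (M 6 (L 43 10))) (B01 (P 12 (L 38 4)) (M 6 (L 43 10)))) (M 6 (L 43 10)))))
  (M 6 (L 43 10))) (B01 (P 12 (L 38 4)) (M 6 (L 43 10))))) (A12 (M 18 (A13 (A01 (P 12 (L 38 4))
  (out 7)) (P 12 (L 38 4)))) (P 12 (A23 (A02 (M 18 (L 38 4)) (M 4 (L 42 5))) (M 18 (L 38 4))))))))
  (A13 (B02 (M 18 (B01 (A12 (A01 (A02 (B02 (S 1 (L 4 1) (L 31 1)) (B12 (A03 (S 1 (L 4 1) (L 31 1))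
  (out 7)) (P 12 (L 38 4)))) (out 7)) (out 7)) (P 12 (L 38 4))) (A12 (S 12 (L 38 4) (L 7 4)) (B12
  (S 12 (L 38 4) (L 7 4)) (P 12 (L 38 4)))))) (B12 (M 18 (A12 (S 3 (L 9 8) (L 49 8)) (B01 (P 12 (L
  38 4)) (S 3 (L 9 8) (L 49 8))))) (A12 (S 3 (L 9 8) (L 49 8)) (P 12 (A02 (M 18 (L 38 4)) (M 4 (L
  42 5))))))) (B02 (M 18 (B01 (S 1 (L 4 1) (L 31 1)) (A23 (B12 (M 6 (K [(43,10,13),(43,5,11)] []))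
  (P 12 (L 38 4))) (M 6 (B12 (A03 (K [(43,10,13),(43,5,11)] []) (A13 (K [(43,10,33),(43,5,31)] [])
  (S 3 (L 11 4) (L 49 4)))) (P 12 (L 37 10))))))) (B12 (M 18 (A23 (B01 (P 12 (L 38 4)) (M 6 (K
  [(43,10,33),(43,5,31)] []))) (M 6 (B01 (P 12 (L 37 10)) (A03 (K [(43,10,4),(43,5,4)] []) (S 3 (L
  11 4) (L 49 4))))))) (P 12 (A23 (A02 (M 6 (L 37 10)) (M 4 (L 42 5))) (M 6 (L 37
  10))))))))))))))))) (P 14 (M 11 (A02 (A01 (B12 (M 3 (A03 (B01 (M 1 (A02 (S 10 (L 31 1) (L 2 8))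
  (P 10 (L 31 1)))) (P 10 (A02 (A01 (B12 (A03 (M 1 (L 31 1)) (B01 (S 1 (L 4 1) (L 31 1)) (A23 (M 1
  (L 31 1)) (A13 (M 1 (L 31 1)) (B12 (A03 (M 1 (L 31 1)) (P 16 (L 49 2))) (S 1 (L 4 1) (L 31
  1))))))) (A03 (M 1 (L 31 1)) (S 1 (L 4 1) (L 31 1)))) (S 1 (L 4 1) (L 31 1))) (S 1 (L 4 1) (L 31
  1))))) (P 16 (P 10 (B01 (A23 (S 1 (L 4 1) (L 31 1)) (A13 (S 1 (L 4 1) (L 31 1)) (B02 (S 1 (L 4 1)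
  (L 31 1)) (A03 (S 1 (L 4 1) (L 31 1)) (A23 (A02 (B12 (S 1 (L 4 1) (L 31 1)) (B02 (S 1 (L 4 1) (L
  31 1)) (A01 (L 49 4) (M 15 (S 1 (L 5 1) (L 31 1)))))) (M 15 (S 1 (L 5 1) (L 31 1)))) (A13 (B12 (S
  1 (L 4 1) (L 31 1)) (B02 (S 1 (L 4 1) (L 31 1)) (M 6 (S 12 (L 37 10) (L 7 10))))) (L 49 4)))))))
  (A23 (S 1 (L 4 1) (L 31 1)) (A13 (S 1 (L 4 1) (L 31 1)) (B12 (A03 (S 1 (L 4 1) (L 31 1)) (B01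
  (A23 (S 1 (L 4 1) (L 31 1)) (A13 (B02 (S 1 (L 4 1) (L 31 1)) (M 6 (K [(43,10,4),(43,5,4)] [])))
  (K [(49,4,14),(49,2,10)] []))) (A23 (S 1 (L 4 1) (L 31 1)) (M 6 (K [(43,5,5),(43,10,3)] [])))))
  (A03 (S 1 (L 4 1) (L 31 1)) (A23 (A02 (B02 (S 1 (L 4 1) (L 31 1)) (M 6 (K
  [(43,10,4),(49,4,1),(43,5,3)] []))) (B02 (S 1 (L 4 1) (L 31 1)) (B12 (A12 (M 6 (K
  [(43,10,4),(49,4,1),(43,5,3)] [])) (B01 (M 15 (S 1 (L 5 1) (L 31 1))) (A23 (S 1 (L 4 1) (L 31 1))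
  (M 6 (K [(43,10,3),(49,4,1),(43,5,4)] []))))) (A12 (M 6 (S 12 (L 37 10) (L 7 10))) (L 49 4)))))
  (A13 (B02 (B01 (S 1 (L 4 1) (L 31 1)) (M 6 (K [(43,10,4),(43,5,4)] []))) (M 6 (P 1 (K
  [(4,1,4),(43,5,4)] [])))) (L 49 4)))))))))))) (A03 (M 1 (A02 (A01 (S 10 (L 31 1) (L 2 8)) (P 10
  (L 31 1))) (P 10 (L 31 1)))) (P 16 (P 10 (A23 (P 12 (A02 (B02 (S 1 (L 4 1) (L 31 1)) (B12 (S 1 (L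
  4 1) (L 31 1)) (M 1 (L 31 1)))) (B02 (B01 (M 1 (L 31 1)) (A12 (M 18 (L 38 4)) (B12 (A23 (M 1 (L
  31 1)) (M 18 (L 38 4))) (M 1 (L 31 1))))) (B12 (A12 (M 18 (L 38 4)) (B01 (M 1 (L 31 1)) (A23 (M 1
  (L 31 1)) (M 18 (L 38 4))))) (M 1 (L 31 1)))))) (A13 (P 12 (B02 (S 1 (L 4 1) (L 31 1)) (B12 (S 1
  (L 4 1) (L 31 1)) (A01 (A02 (S 1 (L 4 1) (L 31 1)) (A12 (M 18 (L 38 4)) (B02 (M 18 (L 38 4)) (B12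
  (M 18 (L 38 4)) (M 4 (L 42 5)))))) (A12 (M 18 (L 38 4)) (A02 (M 18 (L 38 4)) (B02 (M 18 (L 38 4))
  (B12 (M 18 (L 38 4)) (M 4 (L 42 5)))))))))) (B02 (B01 (S 1 (L 4 1) (L 31 1)) (A03 (B12 (A02 (M 3
  (L 49 4)) (A23 (S 1 (L 4 1) (L 31 1)) (M 3 (L 49 4)))) (S 1 (L 4 1) (L 31 1))) (B12 (A23 (A02
  (B01 (S 1 (L 4 1) (L 31 1)) (A01 (B12 (M 3 (L 49 4)) (S 1 (L 4 1) (L 31 1))) (M 15 (S 1 (L 5 1)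
  (L 31 1))))) (M 15 (S 1 (L 5 1) (L 31 1)))) (A13 (B01 (S 1 (L 4 1) (L 31 1)) (S 3 (L 9 4) (L 49
  4))) (B01 (M 15 (S 1 (L 5 1) (L 31 1))) (S 3 (L 9 4) (L 49 4))))) (M 15 (S 1 (L 5 1) (L 31
  1)))))) (B12 (M 18 (A03 (B01 (M 15 (S 1 (L 5 1) (L 31 1))) (A02 (A01 (M 3 (L 49 4)) (B12 (M 3 (L
  49 4)) (M 15 (S 1 (L 5 1) (L 31 1))))) (A23 (S 1 (L 4 1) (L 31 1)) (B12 (M 3 (L 49 4)) (M 15 (S 1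
  (L 5 1) (L 31 1))))))) (B01 (M 15 (S 1 (L 5 1) (L 31 1))) (A23 (A02 (B12 (A01 (B01 (M 15 (S 1 (L
  5 1) (L 31 1))) (S 3 (L 9 4) (L 49 4))) (M 15 (S 1 (L 5 1) (L 31 1)))) (M 15 (S 1 (L 5 1) (L 31
  1)))) (M 15 (S 1 (L 5 1) (L 31 1)))) (S 3 (L 11 4) (L 49 4)))))) (M 15 (P 12 (A03 (A02 (S 1 (L 5
  1) (L 31 1)) (A23 (B02 (M 18 (L 38 4)) (B12 (M 18 (L 38 4)) (M 4 (L 42 5)))) (S 1 (L 5 1) (L 31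
  1)))) (A23 (A02 (S 1 (L 5 1) (L 31 1)) (M 4 (L 42 5))) (S 1 (L 5 1) (L 31 1)))))))))))))) (P 16
  (M 13 (P 10 (B12 (A13 (B01 (P 12 (A12 (M 18 (L 38 4)) (A23 (M 1 (L 31 1)) (M 18 (L 38 4))))) (M
  18 (A12 (A01 (B12 (S 1 (L 4 1) (L 31 1)) (A03 (A02 (A01 (S 1 (L 4 1) (L 31 1)) (B02 (S 1 (L 4 1)
  (L 31 1)) (B12 (S 1 (L 4 1) (L 31 1)) (P 12 (L 38 4))))) (A23 (out 3) (B02 (S 1 (L 4 1) (L 31 1))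
  (B12 (S 1 (L 4 1) (L 31 1)) (P 12 (L 38 4)))))) (A23 (A02 (B02 (S 1 (L 4 1) (L 31 1)) (B12 (A01
  (B01 (P 12 (L 38 4)) (M 6 (L 43 10))) (out 3)) (P 12 (L 38 4)))) (out 3)) (A13 (B02 (S 1 (L 4 1)
  (L 31 1)) (M 6 (L 43 10))) (B02 (B01 (P 12 (L 38 4)) (M 6 (L 43 10))) (M 6 (L 43 10))))))) (out
  3)) (A23 (B12 (S 1 (L 4 1) (L 31 1)) (P 12 (L 38 4))) (B12 (S 1 (L 4 1) (L 31 1)) (A03 (A01 (A02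
  (S 1 (L 4 1) (L 31 1)) (B02 (S 1 (L 4 1) (L 31 1)) (B12 (S 1 (L 4 1) (L 31 1)) (P 12 (L 38 4)))))
  (A13 (P 12 (L 38 4)) (B02 (S 1 (L 4 1) (L 31 1)) (B12 (S 1 (L 4 1) (L 31 1)) (P 12 (L 38 4))))))
  (A13 (A01 (B02 (S 1 (L 4 1) (L 31 1)) (B12 (A02 (B01 (P 12 (L 38 4)) (M 6 (L 43 10))) (P 12 (L 38
  4))) (P 12 (L 38 4)))) (P 12 (L 38 4))) (A23 (B02 (S 1 (L 4 1) (L 31 1)) (B12 (A02 (B01 (P 12 (L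
  38 4)) (M 6 (L 43 10))) (P 12 (L 38 4))) (P 12 (L 38 4)))) (B02 (B01 (P 12 (L 38 4)) (M 6 (L 43
  10))) (M 6 (L 43 10))))))))))) (B01 (A23 (P 12 (A12 (M 18 (L 38 4)) (B02 (M 1 (L 31 1)) (M 18 (L
  38 4))))) (M 18 (A03 (P 12 (L 38 4)) (B02 (A13 (S 1 (L 4 1) (L 31 1)) (B01 (S 1 (L 4 1) (L 31 1))
  (A23 (S 1 (L 4 1) (L 31 1)) (A03 (S 1 (L 4 1) (L 31 1)) (B12 (S 1 (L 4 1) (L 31 1)) (S 1 (L 4 1)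
  (L 31 1))))))) (A13 (M 15 (S 1 (L 5 1) (L 31 1))) (A23 (M 15 (S 1 (L 5 1) (L 31 1))) (A03 (B12 (S
  1 (L 4 1) (L 31 1)) (B02 (S 1 (L 4 1) (L 31 1)) (M 6 (S 12 (L 37 10) (L 7 10))))) (B12 (B01 (A13
  (B02 (S 1 (L 4 1) (L 31 1)) (M 3 (L 49 4))) (M 3 (L 49 4))) (M 3 (K [(49,4,5),(49,2,3)] [])))
  (B02 (A13 (B01 (M 15 (S 1 (L 5 1) (L 31 1))) (S 3 (L 9 4) (L 49 4))) (M 3 (L 49 4))) (S 3 (L 9 4)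
  (L 49 4))))))))))) (M 18 (A23 (A12 (B12 (S 1 (L 4 1) (L 31 1)) (A01 (A03 (A02 (S 1 (L 4 1) (L 31
  1)) (B02 (S 1 (L 4 1) (L 31 1)) (B12 (S 1 (L 4 1) (L 31 1)) (P 12 (L 38 4))))) (A13 (B02 (S 1 (L
  4 1) (L 31 1)) (B12 (S 1 (L 4 1) (L 31 1)) (P 12 (L 38 4)))) (S 1 (L 4 1) (L 31 1)))) (A13 (A12
  (B02 (B01 (P 12 (L 38 4)) (M 6 (L 43 10))) (M 6 (L 43 10))) (B02 (S 1 (L 4 1) (L 31 1)) (B12 (S 1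
  (L 4 1) (L 31 1)) (P 12 (L 38 4))))) (A03 (B02 (S 1 (L 4 1) (L 31 1)) (B12 (S 1 (L 4 1) (L 31 1))
  (P 12 (L 38 4)))) (S 1 (L 4 1) (L 31 1)))))) (B12 (S 1 (L 4 1) (L 31 1)) (S 1 (L 4 1) (L 31 1))))
  (A03 (B12 (S 1 (L 4 1) (L 31 1)) (A01 (S 1 (L 4 1) (L 31 1)) (A12 (A13 (B02 (B01 (P 12 (L 38 4))
  (M 6 (L 43 10))) (M 6 (L 43 10))) (B02 (S 1 (L 4 1) (L 31 1)) (M 6 (L 43 10)))) (A02 (B02 (S 1 (L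
  4 1) (L 31 1)) (B12 (S 1 (L 4 1) (L 31 1)) (A03 (P 12 (L 38 4)) (A13 (P 12 (L 38 4)) (S 1 (L 4 1)
  (L 31 1)))))) (B02 (S 1 (L 4 1) (L 31 1)) (B12 (S 1 (L 4 1) (L 31 1)) (A23 (S 1 (L 4 1) (L 31 1))
  (A13 (S 1 (L 4 1) (L 31 1)) (S 1 (L 4 1) (L 31 1)))))))))) (B12 (P 4 (M 3 (A13 (B01 (A12 (A01
  (B02 (L 49 2) (M 6 (K [(43,10,3),(49,2,2),(43,5,3)] []))) (L 49 2)) (A23 (S 1 (L 4 1) (L 31 1))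
  (B02 (L 49 2) (M 6 (K [(43,10,3),(49,2,2),(43,5,3)] []))))) (S 12 (L 38 6) (L 7 6))) (B01 (A23
  (A12 (B02 (S 1 (L 4 1) (L 31 1)) (M 6 (K [(43,10,3),(49,2,2),(43,5,3)] []))) (S 1 (L 4 1) (L 31
  1))) (A03 (B02 (S 1 (L 4 1) (L 31 1)) (M 6 (K [(43,10,3),(49,2,1),(43,5,4)] []))) (M 6 (K
  [(43,10,2),(13,7,2),(43,5,2),(49,2,2)] [])))) (A23 (S 12 (L 38 6) (L 7 6)) (M 12 (M 6 (K
  [(7,6,4),(43,10,2),(49,4,3)] [])))))))) (A13 (A12 (A01 (B02 (B01 (S 1 (L 4 1) (L 31 1)) (M 6 (K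
  [(43,10,4),(43,5,4)] []))) (M 6 (K [(43,10,4),(43,5,4)] []))) (B02 (B01 (A13 (A12 (M 6 (L 43 10))
  (S 1 (L 4 1) (L 31 1))) (S 1 (L 4 1) (L 31 1))) (M 6 (K [(43,10,4),(43,5,4)] []))) (M 6 (K
  [(43,10,4),(43,5,4)] [])))) (A23 (B02 (S 1 (L 4 1) (L 31 1)) (B12 (S 1 (L 4 1) (L 31 1)) (A02 (M
  6 (L 43 10)) (S 1 (L 4 1) (L 31 1))))) (B02 (M 3 (B01 (S 1 (L 4 1) (L 31 1)) (M 6 (K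
  [(43,10,3),(49,2,1),(49,4,1),(43,5,4)] [])))) (M 6 (K [(43,10,4),(43,5,4)] []))))) (A23 (A12 (B02
  (M 3 (B01 (S 1 (L 4 1) (L 31 1)) (M 6 (K [(43,10,3),(49,4,1),(43,5,4),(49,2,1)] [])))) (M 6 (K
  [(43,10,4),(43,5,4)] []))) (M 3 (B02 (S 1 (L 4 1) (L 31 1)) (B12 (A02 (M 6 (K
  [(43,10,4),(49,4,1),(43,5,3)] [])) (B01 (M 15 (S 1 (L 5 1) (L 31 1))) (A23 (S 1 (L 4 1) (L 31 1))
  (M 6 (S 12 (L 37 10) (L 7 10)))))) (A02 (M 6 (S 12 (L 37 10) (L 7 10))) (L 49 4)))))) (A03 (B02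
  (M 3 (B01 (S 1 (L 4 1) (L 31 1)) (M 6 (K [(43,10,3),(49,4,1),(43,5,4),(49,2,1)] [])))) (M 6 (K
  [(43,10,4),(43,5,4)] []))) (M 6 (K [(43,5,14),(43,10,10)] []))))))))))) (A13 (P 12 (A12 (A01 (B02
  (B01 (A03 (M 1 (L 31 1)) (A23 (M 1 (L 31 1)) (A13 (M 1 (L 31 1)) (B02 (M 18 (L 38 4)) (B12 (M 18
  (L 38 4)) (A03 (M 1 (L 31 1)) (out 3))))))) (A03 (B12 (M 18 (L 38 4)) (M 1 (L 31 1))) (B12 (M 18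
  (L 38 4)) (A23 (M 1 (L 31 1)) (A13 (B02 (M 18 (L 38 4)) (A01 (B12 (M 18 (L 38 4)) (M 1 (L 31 1)))
  (out 3))) (B02 (M 18 (L 38 4)) (A03 (B12 (M 18 (L 38 4)) (M 1 (L 31 1))) (out 3)))))))) (B12 (A03
  (B01 (A02 (M 18 (L 38 4)) (A23 (out 3) (M 18 (L 38 4)))) (A02 (M 18 (L 38 4)) (A23 (out 3) (M 18
  (L 38 4))))) (B01 (A23 (A02 (B02 (M 1 (L 31 1)) (M 18 (L 38 4))) (out 3)) (A13 (B02 (A01 (B01 (M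
  1 (L 31 1)) (M 18 (L 38 4))) (out 3)) (M 18 (L 38 4))) (B02 (A03 (B01 (M 4 (L 42 5)) (M 18 (L 38
  4))) (out 3)) (M 18 (L 38 4))))) (A23 (A02 (M 18 (L 38 4)) (out 3)) (M 18 (L 38 4))))) (A03 (A02
  (A01 (B02 (B01 (M 1 (L 31 1)) (A03 (M 1 (L 31 1)) (B12 (M 18 (L 38 4)) (M 1 (L 31 1))))) (B12
  (A03 (M 1 (L 31 1)) (M 4 (L 42 5))) (M 1 (L 31 1)))) (B02 (B01 (M 1 (L 31 1)) (A13 (out 3) (B12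
  (M 18 (L 38 4)) (M 1 (L 31 1))))) (M 4 (L 42 5)))) (M 4 (L 42 5))) (M 4 (L 42 5))))) (out 3))
  (A23 (M 1 (L 31 1)) (B02 (B01 (A03 (M 1 (L 31 1)) (A13 (M 1 (L 31 1)) (A23 (M 1 (L 31 1)) (B02 (M
  18 (L 38 4)) (B12 (M 18 (L 38 4)) (A03 (M 1 (L 31 1)) (out 3))))))) (A03 (B12 (M 18 (L 38 4)) (M
  1 (L 31 1))) (B12 (M 18 (L 38 4)) (A13 (M 1 (L 31 1)) (A23 (M 1 (L 31 1)) (B02 (M 18 (L 38 4))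
  (A03 (B12 (M 18 (L 38 4)) (M 1 (L 31 1))) (out 3)))))))) (B12 (A03 (B01 (A01 (A02 (M 18 (L 38 4))
  (B02 (M 1 (L 31 1)) (M 18 (L 38 4)))) (A13 (M 1 (L 31 1)) (B02 (M 1 (L 31 1)) (M 18 (L 38 4)))))
  (A01 (M 18 (L 38 4)) (A13 (B12 (M 18 (L 38 4)) (M 1 (L 31 1))) (M 18 (L 38 4))))) (B01 (A13 (A01
  (B02 (M 1 (L 31 1)) (M 18 (L 38 4))) (M 4 (L 42 5))) (A23 (B02 (M 1 (L 31 1)) (M 18 (L 38 4)))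
  (B02 (A03 (B01 (M 4 (L 42 5)) (M 18 (L 38 4))) (out 3)) (M 18 (L 38 4))))) (A13 (A01 (M 18 (L 38
  4)) (M 4 (L 42 5))) (M 18 (L 38 4))))) (A03 (A01 (A02 (B02 (B01 (M 1 (L 31 1)) (A03 (M 1 (L 31
  1)) (B12 (M 18 (L 38 4)) (M 1 (L 31 1))))) (B12 (A03 (M 1 (L 31 1)) (M 4 (L 42 5))) (M 1 (L 31
  1)))) (M 4 (L 42 5))) (M 4 (L 42 5))) (M 4 (L 42 5)))))))) (A23 (P 12 (A12 (B02 (B01 (A01 (M 1 (L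
  31 1)) (A13 (A12 (M 18 (L 38 4)) (M 1 (L 31 1))) (M 1 (L 31 1)))) (A01 (B12 (M 18 (L 38 4)) (M 1
  (L 31 1))) (B12 (M 18 (L 38 4)) (A13 (A12 (M 18 (L 38 4)) (B02 (M 18 (L 38 4)) (A02 (M 18 (L 38
  4)) (M 4 (L 42 5))))) (A03 (B02 (M 18 (L 38 4)) (A02 (M 18 (L 38 4)) (B12 (M 18 (L 38 4)) (M 1 (L
  31 1))))) (B02 (M 18 (L 38 4)) (A23 (B12 (M 18 (L 38 4)) (M 1 (L 31 1))) (B12 (M 18 (L 38 4)) (M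
  1 (L 31 1)))))))))) (B12 (A01 (B01 (A03 (A02 (M 18 (L 38 4)) (B02 (M 1 (L 31 1)) (M 18 (L 38
  4)))) (A13 (B02 (M 1 (L 31 1)) (M 18 (L 38 4))) (B02 (M 1 (L 31 1)) (M 18 (L 38 4))))) (M 18 (L
  38 4))) (B01 (A13 (A12 (M 18 (L 38 4)) (B02 (A02 (M 18 (L 38 4)) (M 4 (L 42 5))) (M 18 (L 38
  4)))) (A03 (B02 (A02 (M 18 (L 38 4)) (M 4 (L 42 5))) (M 18 (L 38 4))) (S 1 (L 4 1) (L 31 1)))) (M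
  18 (L 38 4)))) (A01 (A03 (A02 (B02 (M 18 (L 38 4)) (B12 (M 18 (L 38 4)) (M 1 (L 31 1)))) (B02
  (B01 (M 1 (L 31 1)) (M 4 (L 42 5))) (M 4 (L 42 5)))) (A13 (B02 (B01 (M 1 (L 31 1)) (M 4 (L 42
  5))) (M 4 (L 42 5))) (B02 (B01 (M 1 (L 31 1)) (M 4 (L 42 5))) (M 4 (L 42 5))))) (M 4 (L 42 5)))))
  (B02 (B01 (M 1 (L 31 1)) (A02 (B12 (M 18 (L 38 4)) (M 1 (L 31 1))) (B12 (A23 (M 1 (L 31 1)) (M 18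
  (L 38 4))) (M 1 (L 31 1))))) (B12 (A02 (B01 (M 1 (L 31 1)) (M 18 (L 38 4))) (B01 (M 1 (L 31 1))
  (A23 (M 1 (L 31 1)) (M 18 (L 38 4))))) (M 1 (L 31 1)))))) (A03 (P 12 (B02 (M 18 (L 38 4)) (B12 (M
  18 (L 38 4)) (A01 (A02 (M 18 (L 38 4)) (A12 (B02 (M 18 (L 38 4)) (M 4 (L 42 5))) (B02 (M 18 (L 38
  4)) (M 4 (L 42 5))))) (M 4 (L 42 5)))))) (B02 (M 18 (B01 (S 1 (L 4 1) (L 31 1)) (A13 (M 15 (S 1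
  (L 5 1) (L 31 1))) (B12 (A23 (M 15 (S 1 (L 5 1) (L 31 1))) (A03 (B01 (S 1 (L 4 1) (L 31 1)) (M 6
  (S 12 (L 37 10) (L 7 10)))) (B01 (M 15 (S 1 (L 5 1) (L 31 1))) (S 3 (L 11 4) (L 49 4))))) (M 15
  (S 1 (L 5 1) (L 31 1))))))) (B12 (M 18 (A13 (M 15 (S 1 (L 5 1) (L 31 1))) (B01 (M 15 (S 1 (L 5 1)
  (L 31 1))) (A23 (M 15 (S 1 (L 5 1) (L 31 1))) (S 3 (L 11 4) (L 49 4)))))) (M 4 (L 42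
  5)))))))))))) (P 16 (M 13 (P 10 (A23 (B12 (A12 (B01 (A01 (A02 (B02 (M 1 (L 31 1)) (A03 (M 1 (L 31
  1)) (A13 (M 1 (L 31 1)) (out 1)))) (out 3)) (out 3)) (A01 (A02 (S 1 (L 4 1) (L 31 1)) (out 3))
  (out 3))) (B01 (A02 (A01 (B02 (M 1 (L 31 1)) (A03 (M 1 (L 31 1)) (out 1))) (out 1)) (out 1)) (A02
  (A01 (B12 (A03 (M 1 (L 31 1)) (out 1)) (A03 (M 1 (L 31 1)) (out 1))) (out 1)) (out 1)))) (A12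
  (A01 (A02 (B02 (B01 (M 1 (L 31 1)) (A03 (M 1 (L 31 1)) (M 4 (L 42 5)))) (B12 (A03 (M 1 (L 31 1))
  (M 4 (L 42 5))) (P 18 (L 55 4)))) (out 3)) (out 3)) (A02 (A01 (B02 (B01 (M 1 (L 31 1)) (A03 (M 1
  (L 31 1)) (out 1))) (B12 (A03 (M 1 (L 31 1)) (out 1)) (P 18 (L 55 4)))) (out 1)) (out 1)))) (B12
  (A13 (B01 (P 12 (A01 (A03 (B02 (M 1 (L 31 1)) (A02 (M 1 (L 31 1)) (A12 (M 1 (L 31 1)) (A23 (out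
  1) (M 1 (L 31 1)))))) (B02 (A23 (M 1 (L 31 1)) (B01 (A13 (M 1 (L 31 1)) (A03 (M 1 (L 31 1)) (out
  3))) (M 18 (L 38 4)))) (A23 (A12 (M 18 (L 38 4)) (A02 (M 18 (L 38 4)) (out 1))) (M 18 (L 38
  4))))) (out 3))) (M 18 (A01 (A03 (S 1 (L 4 1) (L 31 1)) (B12 (A23 (S 1 (L 4 1) (L 31 1)) (B01
  (A13 (P 12 (L 38 4)) (A03 (P 12 (L 38 4)) (out 3))) (A13 (A12 (M 3 (L 49 2)) (B12 (M 3 (L 49 2))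
  (S 1 (L 4 1) (L 31 1)))) (A03 (B12 (M 3 (L 49 2)) (A02 (M 3 (L 49 2)) (out 3))) (out 3))))) (A23
  (P 12 (L 38 4)) (A13 (P 12 (L 38 4)) (A03 (P 12 (L 38 4)) (out 3)))))) (out 3)))) (B01 (A03 (P 12
  (A01 (B02 (M 1 (L 31 1)) (A02 (A03 (M 1 (L 31 1)) (A23 (M 1 (L 31 1)) (M 18 (L 38 4)))) (A23 (A12
  (B12 (M 1 (L 31 1)) (B02 (M 1 (L 31 1)) (M 18 (L 38 4)))) (out 1)) (A03 (B12 (M 1 (L 31 1)) (B02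
  (M 1 (L 31 1)) (M 18 (L 38 4)))) (M 18 (L 38 4)))))) (B02 (A12 (B01 (A13 (A01 (M 1 (L 31 1)) (B02
  (M 1 (L 31 1)) (M 18 (L 38 4)))) (M 1 (L 31 1))) (M 18 (L 38 4))) (M 1 (L 31 1))) (A12 (M 18 (L
  38 4)) (A23 (A02 (M 18 (L 38 4)) (out 1)) (M 18 (L 38 4))))))) (A23 (M 15 (P 12 (B02 (A12 (B01
  (A01 (M 1 (L 31 1)) (A13 (B02 (M 1 (L 31 1)) (M 18 (L 38 4))) (B02 (M 1 (L 31 1)) (M 18 (L 38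
  4))))) (S 1 (L 4 1) (L 31 1))) (B01 (M 1 (L 31 1)) (A02 (S 1 (L 4 1) (L 31 1)) (out 1)))) (A12 (S
  1 (L 5 1) (L 31 1)) (A02 (S 1 (L 5 1) (L 31 1)) (out 1)))))) (B02 (A13 (S 1 (L 4 1) (L 31 1))
  (B01 (S 1 (L 4 1) (L 31 1)) (A03 (S 1 (L 4 1) (L 31 1)) (A23 (S 1 (L 4 1) (L 31 1)) (B12 (S 1 (L
  4 1) (L 31 1)) (S 1 (L 4 1) (L 31 1))))))) (A13 (M 15 (S 1 (L 5 1) (L 31 1))) (A03 (M 15 (S 1 (L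
  5 1) (L 31 1))) (A23 (M 15 (S 1 (L 5 1) (L 31 1))) (B12 (B01 (A13 (B02 (S 1 (L 4 1) (L 31 1)) (M
  3 (L 49 4))) (B02 (M 15 (S 1 (L 5 1) (L 31 1))) (M 3 (L 49 4)))) (M 3 (K [(49,4,4),(49,2,4)]
  []))) (B02 (A13 (B01 (M 15 (S 1 (L 5 1) (L 31 1))) (S 3 (L 9 4) (L 49 4))) (B01 (M 15 (S 1 (L 5
  1) (L 31 1))) (S 3 (L 9 4) (L 49 4)))) (S 3 (L 9 4) (L 49 4)))))))))) (M 18 (A03 (A01 (B12 (A02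
  (S 1 (L 4 1) (L 31 1)) (B01 (S 1 (L 4 1) (L 31 1)) (A23 (S 1 (L 4 1) (L 31 1)) (S 1 (L 4 1) (L 31
  1))))) (S 1 (L 4 1) (L 31 1))) (B12 (A12 (B01 (A13 (A01 (S 1 (L 4 1) (L 31 1)) (B02 (A12 (M 3 (L
  49 2)) (S 1 (L 4 1) (L 31 1))) (M 6 (L 43 10)))) (S 1 (L 4 1) (L 31 1))) (A13 (A01 (B12 (M 3 (L
  49 2)) (A02 (M 3 (L 49 2)) (M 6 (L 43 10)))) (M 6 (L 43 10))) (A23 (B12 (M 3 (L 49 2)) (A02 (M 3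
  (L 49 2)) (M 6 (L 43 10)))) (S 1 (L 4 1) (L 31 1))))) (B01 (S 1 (L 4 1) (L 31 1)) (A23 (S 1 (L 4
  1) (L 31 1)) (A13 (B12 (M 3 (L 49 2)) (S 1 (L 4 1) (L 31 1))) (S 1 (L 4 1) (L 31 1)))))) (A12
  (A13 (A01 (S 1 (L 4 1) (L 31 1)) (B02 (B01 (P 12 (L 38 4)) (M 6 (L 43 10))) (M 6 (L 43 10)))) (S
  1 (L 4 1) (L 31 1))) (S 1 (L 4 1) (L 31 1))))) (A23 (B12 (A12 (B01 (A01 (M 15 (S 1 (L 5 1) (L 31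
  1))) (A13 (B02 (A12 (M 3 (L 49 2)) (S 1 (L 4 1) (L 31 1))) (M 6 (L 43 10))) (M 15 (S 1 (L 5 1) (L
  31 1))))) (A01 (A02 (S 12 (L 38 6) (L 7 6)) (S 3 (L 11 2) (L 49 2))) (S 3 (L 11 2) (L 49 2))))
  (B01 (M 15 (S 1 (L 5 1) (L 31 1))) (A02 (A01 (M 3 (B12 (L 49 2) (A03 (S 1 (L 4 1) (L 31 1)) (out
  1)))) (out 1)) (out 1)))) (A12 (A01 (M 15 (S 1 (L 5 1) (L 31 1))) (A13 (B02 (B01 (S 1 (L 4 1) (L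
  31 1)) (M 6 (L 43 10))) (M 6 (L 43 10))) (M 15 (S 1 (L 5 1) (L 31 1))))) (M 15 (S 1 (L 5 1) (L 31
  1))))) (B12 (P 4 (M 3 (A13 (B01 (A01 (A03 (B02 (S 1 (L 4 1) (L 31 1)) (A02 (S 1 (L 4 1) (L 31 1))
  (L 49 2))) (L 49 2)) (L 49 2)) (S 12 (L 38 6) (L 7 6))) (B01 (A03 (A01 (B02 (S 1 (L 4 1) (L 31
  1)) (A02 (S 1 (L 4 1) (L 31 1)) (M 6 (S 12 (L 37 10) (L 7 10))))) (M 6 (K
  [(43,10,2),(49,4,2),(49,2,3),(43,5,2)] []))) (K [(13,7,4),(49,2,4)] [])) (A03 (S 12 (L 38 6) (L 7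
  6)) (M 6 (K [(43,5,2),(49,2,4),(49,4,2)] []))))))) (A13 (A01 (A03 (B02 (B01 (S 1 (L 4 1) (L 31
  1)) (A02 (S 1 (L 4 1) (L 31 1)) (M 6 (S 12 (L 37 10) (L 7 6))))) (B12 (A02 (S 1 (L 4 1) (L 31 1))
  (M 6 (S 12 (L 37 10) (L 7 6)))) (M 15 (S 1 (L 5 1) (L 31 1))))) (B02 (B01 (A23 (S 1 (L 4 1) (L 31
  1)) (S 1 (L 4 1) (L 31 1))) (M 6 (K [(43,10,4),(43,5,4)] []))) (M 6 (K [(43,10,4),(43,5,4)]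
  [])))) (A12 (B02 (B01 (A13 (A01 (A03 (S 1 (L 4 1) (L 31 1)) (M 6 (L 43 10))) (M 6 (L 43 10)))
  (A03 (A01 (S 1 (L 4 1) (L 31 1)) (M 6 (L 43 10))) (M 6 (L 43 10)))) (M 6 (K [(43,10,4),(43,5,4)]
  []))) (M 6 (K [(43,10,4),(43,5,4)] []))) (B02 (B01 (A23 (S 1 (L 4 1) (L 31 1)) (A03 (S 1 (L 4 1)
  (L 31 1)) (M 6 (L 43 10)))) (M 6 (K [(43,10,4),(43,5,4)] []))) (M 6 (K [(43,10,4),(43,5,4)]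
  []))))) (A03 (A01 (B02 (B01 (S 1 (L 4 1) (L 31 1)) (A02 (S 1 (L 4 1) (L 31 1)) (S 3 (L 9 4) (L 49
  4)))) (B12 (A02 (M 3 (L 49 4)) (S 3 (L 9 4) (L 49 4))) (M 15 (S 1 (L 5 1) (L 31 1))))) (M 6 (K
  [(43,10,4),(43,5,4)] []))) (M 6 (K [(43,5,14),(43,10,10)] [])))))))))) (A13 (P 12 (A01 (A03 (B02
  (B01 (M 1 (L 31 1)) (A02 (M 1 (L 31 1)) (B12 (A12 (M 1 (L 31 1)) (A23 (out 1) (M 1 (L 31 1)))) (M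
  1 (L 31 1))))) (B12 (A02 (M 1 (L 31 1)) (M 4 (L 42 5))) (M 1 (L 31 1)))) (B02 (B01 (A23 (M 1 (L
  31 1)) (A13 (M 1 (L 31 1)) (A03 (M 1 (L 31 1)) (out 3)))) (A23 (B12 (A12 (A13 (B01 (M 1 (L 31 1))
  (A01 (B12 (M 18 (L 38 4)) (M 1 (L 31 1))) (out 3))) (B01 (A03 (M 1 (L 31 1)) (out 1)) (A03 (B12
  (M 18 (L 38 4)) (M 1 (L 31 1))) (out 1)))) (A02 (B01 (A03 (M 1 (L 31 1)) (out 1)) (A03 (B12 (M 18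
  (L 38 4)) (M 1 (L 31 1))) (out 1))) (out 1))) (M 1 (L 31 1))) (B12 (M 18 (L 38 4)) (A13 (M 1 (L
  31 1)) (A03 (M 1 (L 31 1)) (out 3)))))) (M 4 (L 42 5)))) (out 3))) (A03 (M 15 (P 12 (A01 (B02
  (B01 (M 1 (L 31 1)) (A02 (B12 (A03 (M 1 (L 31 1)) (A23 (M 1 (L 31 1)) (M 18 (L 38 4)))) (M 1 (L
  31 1))) (B12 (A23 (A12 (B01 (M 1 (L 31 1)) (A01 (S 1 (L 4 1) (L 31 1)) (B12 (M 18 (L 38 4)) (M 1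
  (L 31 1))))) (out 1)) (A03 (B01 (M 1 (L 31 1)) (A01 (S 1 (L 4 1) (L 31 1)) (M 18 (L 38 4)))) (M
  18 (L 38 4)))) (M 1 (L 31 1))))) (B12 (A02 (B01 (M 1 (L 31 1)) (A03 (M 1 (L 31 1)) (A23 (M 1 (L
  31 1)) (M 18 (L 38 4))))) (B01 (M 1 (L 31 1)) (A23 (S 1 (L 4 1) (L 31 1)) (A03 (S 1 (L 4 1) (L 31
  1)) (M 18 (L 38 4)))))) (M 1 (L 31 1)))) (B02 (B01 (A12 (A13 (A01 (M 1 (L 31 1)) (B02 (B01 (M 1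
  (L 31 1)) (A12 (M 18 (L 38 4)) (M 1 (L 31 1)))) (B12 (A12 (M 18 (L 38 4)) (M 1 (L 31 1))) (M 4 (L
  42 5))))) (M 1 (L 31 1))) (M 1 (L 31 1))) (A12 (B12 (M 18 (L 38 4)) (A13 (A01 (B02 (A02 (M 18 (L
  38 4)) (A23 (out 3) (M 18 (L 38 4)))) (M 4 (L 42 5))) (B02 (A12 (M 18 (L 38 4)) (A23 (out 3) (M
  18 (L 38 4)))) (M 4 (L 42 5)))) (A23 (B02 (A02 (M 18 (L 38 4)) (A12 (M 18 (L 38 4)) (out 1))) (M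
  4 (L 42 5))) (B02 (M 18 (L 38 4)) (S 1 (L 4 1) (L 31 1)))))) (B12 (A23 (A02 (B01 (A01 (M 1 (L 31
  1)) (out 1)) (A01 (B12 (M 18 (L 38 4)) (M 1 (L 31 1))) (out 1))) (out 1)) (M 18 (L 38 4))) (M 1
  (L 31 1))))) (B12 (A12 (B01 (S 1 (L 5 1) (L 31 1)) (A13 (M 4 (L 42 5)) (A23 (M 4 (L 42 5)) (M 18
  (L 38 4))))) (B01 (S 1 (L 4 1) (L 31 1)) (A23 (S 1 (L 5 1) (L 31 1)) (A13 (S 1 (L 5 1) (L 31 1))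
  (M 18 (L 38 4)))))) (M 4 (L 42 5))))))) (A23 (M 15 (P 12 (B02 (B01 (A12 (A01 (M 1 (L 31 1)) (A13
  (B02 (B01 (M 1 (L 31 1)) (A12 (M 18 (L 38 4)) (B12 (M 18 (L 38 4)) (M 1 (L 31 1))))) (B12 (A12 (M
  18 (L 38 4)) (B01 (M 1 (L 31 1)) (A02 (M 18 (L 38 4)) (out 1)))) (M 4 (L 42 5)))) (B02 (B01 (M 1
  (L 31 1)) (A23 (B12 (M 18 (L 38 4)) (M 1 (L 31 1))) (B12 (M 18 (L 38 4)) (M 1 (L 31 1))))) (B12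
  (A23 (B01 (M 1 (L 31 1)) (A02 (M 18 (L 38 4)) (out 1))) (B01 (M 1 (L 31 1)) (M 18 (L 38 4)))) (M
  1 (L 31 1)))))) (M 1 (L 31 1))) (A12 (B12 (S 1 (L 5 1) (L 31 1)) (A01 (A02 (B02 (M 18 (L 38 4))
  (S 1 (L 4 1) (L 31 1))) (B02 (A23 (A12 (M 18 (L 38 4)) (out 1)) (M 18 (L 38 4))) (M 4 (L 42 5))))
  (A13 (B02 (A12 (M 18 (L 38 4)) (A02 (M 18 (L 38 4)) (out 1))) (M 4 (L 42 5))) (B02 (A23 (A02 (M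
  18 (L 38 4)) (out 1)) (M 18 (L 38 4))) (M 4 (L 42 5)))))) (B12 (A02 (S 1 (L 5 1) (L 31 1)) (out
  1)) (A02 (A01 (B02 (A03 (M 1 (L 31 1)) (out 1)) (S 1 (L 4 1) (L 31 1))) (out 1)) (out 1))))) (B12
  (A12 (B01 (S 1 (L 5 1) (L 31 1)) (A01 (A02 (S 1 (L 5 1) (L 31 1)) (S 1 (L 5 1) (L 31 1))) (S 1 (L
  5 1) (L 31 1)))) (B01 (S 1 (L 5 1) (L 31 1)) (A02 (A01 (S 1 (L 5 1) (L 31 1)) (out 1)) (out 1))))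
  (M 4 (L 42 5)))))) (B02 (B01 (P 12 (A13 (A01 (A03 (M 1 (L 31 1)) (B02 (M 18 (L 38 4)) (B12 (M 18
  (L 38 4)) (M 4 (L 42 5))))) (A12 (M 18 (L 38 4)) (B02 (M 18 (L 38 4)) (B12 (M 18 (L 38 4)) (M 4
  (L 42 5)))))) (A03 (A01 (M 1 (L 31 1)) (B02 (M 18 (L 38 4)) (B12 (M 18 (L 38 4)) (S 1 (L 4 1) (L
  31 1))))) (A23 (B02 (M 18 (L 38 4)) (B12 (M 18 (L 38 4)) (S 1 (L 4 1) (L 31 1)))) (S 1 (L 4 1) (L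
  31 1)))))) (A13 (M 15 (P 12 (B12 (S 1 (L 5 1) (L 31 1)) (A01 (A03 (B02 (M 18 (L 38 4)) (S 1 (L 4
  1) (L 31 1))) (B02 (M 18 (L 38 4)) (M 4 (L 42 5)))) (A12 (M 18 (L 38 4)) (B02 (M 18 (L 38 4)) (M
  4 (L 42 5)))))))) (B12 (M 18 (A03 (M 15 (S 1 (L 5 1) (L 31 1))) (A23 (M 15 (S 1 (L 5 1) (L 31
  1))) (B01 (M 15 (S 1 (L 5 1) (L 31 1))) (S 3 (L 11 4) (L 49 4)))))) (M 15 (P 12 (A03 (A01 (B02 (M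
  18 (L 38 4)) (S 1 (L 4 1) (L 31 1))) (B02 (M 18 (L 38 4)) (S 1 (L 5 1) (L 31 1)))) (A23 (B02 (M
  18 (L 38 4)) (S 1 (L 5 1) (L 31 1))) (S 1 (L 5 1) (L 31 1))))))))) (B12 (A13 (M 15 (B01 (S 1 (L 5
  1) (L 31 1)) (S 1 (L 5 1) (L 31 1)))) (B01 (M 15 (S 1 (L 5 1) (L 31 1))) (M 18 (A03 (M 15 (S 1 (L
  5 1) (L 31 1))) (S 3 (L 11 4) (L 49 4)))))) (M 4 (L 42 5)))))))))))))))) (A23 (A02 (A03 (P 14 (M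
  11 (B12 (P 4 (M 3 (A01 (B01 (M 1 (A02 (A03 (B02 (A01 (B01 (A02 (A03 (S 10 (L 31 1) (L 2 8)) (P 16
  (P 10 (K [(31,1,4),(49,4,3)] [])))) (P 16 (P 10 (K [(31,1,5),(49,4,3)] [])))) (P 10 (S 13 (L 40
  11) (K [(31,1,13),(13,11,2),(13,7,9)] [])))) (P 16 (P 10 (K [(31,1,4),(49,4,3),(49,2,1)] []))))
  (P 10 (S 13 (L 40 11) (K [(31,1,5),(13,7,3)] [])))) (P 16 (P 10 (K [(31,1,13),(49,4,9),(49,2,2)]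
  [])))) (P 16 (P 10 (K [(31,1,5),(49,4,3)] []))))) (M 19 (M 18 (P 10 (A02 (A03 (B12 (A01 (P 6 (M 1
  (B01 (A02 (A03 (S 13 (L 40 11) (L 13 11)) (B02 (S 13 (L 40 11) (L 13 11)) (K [(31,1,4),(31,8,4)]
  []))) (A12 (B02 (S 13 (L 40 11) (L 13 11)) (K [(31,1,4),(31,8,4)] [])) (S 13 (L 40 11) (K
  [(13,11,4),(20,10,2),(31,8,2)] [])))) (S 12 (L 38 6) (L 7 6))))) (B01 (P 16 (A12 (A13 (S 1 (L 4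
  1) (L 31 1)) (M 1 (K [(31,1,7),(49,2,8),(49,4,5),(31,8,5)] []))) (M 1 (K
  [(31,1,2),(49,2,4),(31,8,2)] [])))) (A12 (A13 (B12 (A01 (M 1 (L 31 1)) (P 16 (L 49 2))) (S 1 (L 4
  1) (L 31 1))) (S 12 (L 38 6) (L 7 6))) (S 12 (L 38 6) (L 7 6))))) (A01 (M 1 (A02 (A03 (K
  [(31,1,6),(31,8,2)] []) (P 16 (K [(31,1,34),(49,4,17),(31,8,8),(49,2,5)] []))) (P 16 (K
  [(31,1,36),(31,8,9),(49,2,4),(49,4,15)] [])))) (P 16 (A12 (A13 (S 1 (L 4 1) (L 31 1)) (M 1 (K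
  [(31,1,3),(49,4,3),(31,8,1),(49,2,1)] []))) (M 1 (K [(31,1,36),(49,4,15),(31,8,9),(49,2,4)]
  [])))))) (P 16 (B12 (A13 (B01 (A12 (A01 (M 1 (K [(31,1,3),(49,2,1),(49,4,3),(31,8,1)] [])) (S 1
  (L 4 1) (L 31 1))) (M 1 (K [(31,1,13),(49,2,3),(31,8,4),(49,4,5)] []))) (S 12 (L 38 6) (L 7 6)))
  (P 6 (M 1 (B01 (A23 (K [(31,1,13),(49,2,3),(31,8,4),(49,4,5)] []) (A03 (K
  [(49,4,65),(31,1,82),(31,8,25),(49,2,29)] []) (B02 (A13 (K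
  [(49,4,21),(31,1,26),(31,8,6),(49,2,10)] []) (B01 (K [(49,4,11),(31,1,10),(49,2,4)] []) (A23 (K
  [(49,4,7),(31,1,8),(31,8,4),(49,2,4)] []) (K [(49,4,3),(20,5,1),(31,1,2),(49,2,2)] [])))) (K
  [(31,8,5),(31,1,3)] [])))) (A23 (S 12 (L 38 6) (L 7 6)) (K [(31,8,5),(49,2,2),(31,1,1)] []))))))
  (A13 (A12 (A01 (M 1 (K [(31,1,3),(49,4,3),(31,8,1),(49,2,1)] [])) (S 1 (L 4 1) (L 31 1))) (M 1 (K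
  [(31,1,36),(49,4,15),(31,8,9),(49,2,4)] []))) (M 1 (A23 (K
  [(31,1,36),(49,4,15),(31,8,9),(49,2,4)] []) (K [(49,4,11),(31,8,2),(31,1,10)] []))))))) (P 16 (M
  13 (A12 (B12 (A13 (S 1 (L 4 1) (L 31 1)) (M 1 (B01 (A03 (L 31 1) (K
  [(31,1,68),(49,4,65),(31,8,28),(49,2,39)] [])) (A03 (L 31 1) (K [(31,1,2),(13,11,2),(31,8,4)]
  []))))) (A13 (S 1 (L 4 1) (L 31 1)) (M 1 (K [(31,1,38),(49,4,15),(31,8,10)] [])))) (M 1 (B12 (A23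
  (L 31 1) (B01 (A03 (L 31 1) (A13 (L 31 1) (B02 (A23 (L 31 1) (K
  [(31,1,8),(49,4,8),(31,8,3),(49,2,5)] [])) (K [(31,1,23),(31,8,27),(49,4,7),(49,2,7)] [])))) (A03
  (L 31 1) (K [(31,1,2),(13,11,2),(31,8,4)] [])))) (K [(31,1,38),(49,4,15),(31,8,10)] [])))))))))))
  (P 16 (M 13 (P 10 (B01 (A12 (A13 (B02 (S 1 (L 4 1) (L 31 1)) (A01 (S 1 (L 4 1) (L 31 1)) (A12 (L
  49 4) (A02 (L 49 4) (M 15 (S 1 (L 5 1) (L 31 1))))))) (B02 (M 1 (K [(49,4,5),(31,1,3)] [])) (S 1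
  (L 4 1) (K [(49,4,5),(31,1,2)] [])))) (A02 (B02 (M 1 (K [(31,1,4),(49,4,4)] [])) (S 1 (L 4 1) (K
  [(31,1,4),(49,4,4)] []))) (B02 (M 1 (K [(31,1,4),(49,4,4)] [])) (S 1 (L 4 1) (K
  [(31,1,4),(49,4,4)] []))))) (A12 (A13 (B12 (A01 (S 1 (L 4 1) (L 31 1)) (B01 (A12 (L 49 4) (S 1 (L
  4 1) (L 31 1))) (A12 (S 1 (L 4 8) (L 31 1)) (S 1 (L 4 1) (L 31 1))))) (A01 (S 1 (L 4 1) (L 31 1))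
  (A12 (L 49 4) (A02 (L 49 4) (B02 (S 1 (L 4 1) (L 31 1)) (L 49 4)))))) (B12 (A03 (S 1 (L 4 1) (L
  31 1)) (B01 (S 1 (L 4 1) (K [(31,1,2),(49,4,6)] [])) (A23 (S 1 (L 4 1) (L 31 1)) (A13 (S 1 (L 4
  1) (L 31 1)) (M 1 (K [(31,8,4),(13,7,2),(31,1,2)] [])))))) (A03 (S 1 (L 4 1) (L 31 1)) (S 1 (L 4
  1) (K [(49,4,6),(31,1,2)] []))))) (A02 (B12 (A03 (S 1 (L 4 1) (L 31 1)) (B01 (S 1 (L 4 1) (K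
  [(31,1,63),(49,4,69),(49,2,46),(31,8,21)] [])) (A13 (S 1 (L 4 1) (L 31 1)) (M 1 (K
  [(31,1,2),(31,8,4),(49,2,2)] []))))) (A03 (S 1 (L 4 1) (L 31 1)) (S 1 (L 4 1) (K
  [(31,1,4),(49,4,4)] [])))) (B12 (A23 (S 1 (L 4 1) (L 31 1)) (B01 (A13 (S 1 (L 4 1) (L 31 1)) (M 1
  (A03 (L 31 1) (K [(31,1,19),(49,4,24),(31,8,5),(49,2,17)] [])))) (A13 (S 1 (L 4 1) (L 31 1)) (M 1
  (K [(31,1,2),(49,2,2),(31,8,4)] []))))) (S 1 (L 4 1) (K [(31,1,13),(49,4,11)] [])))))))))))) (A01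
  (M 15 (P 12 (M 1 (A02 (A03 (M 18 (M 3 (B02 (B01 (A01 (A02 (A03 (S 10 (L 31 1) (L 2 8)) (P 16 (P
  10 (K [(31,1,4),(49,4,4)] [])))) (P 16 (P 10 (K [(31,1,5),(49,4,3)] [])))) (P 16 (P 10 (K
  [(31,1,5),(49,4,3)] [])))) (P 16 (P 10 (K [(31,1,4),(49,4,3),(38,4,1)] [])))) (P 16 (P 10 (K
  [(49,4,3),(31,1,4),(38,4,1)] [])))))) (P 16 (P 10 (B02 (B01 (A13 (M 3 (K [(49,4,4),(31,1,4)] []))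
  (A23 (M 3 (K [(49,4,4),(31,1,4)] [])) (S 3 (L 9 4) (L 49 4)))) (A13 (M 3 (K [(49,4,3),(31,1,5)]
  [])) (B12 (M 3 (K [(49,4,3),(31,1,5)] [])) (A23 (M 3 (K [(49,4,4),(31,1,4)] [])) (S 3 (L 9 4) (L
  49 4)))))) (B12 (A13 (M 3 (K [(49,4,3),(31,1,5)] [])) (B01 (A23 (M 18 (M 3 (K [(49,4,4),(38,4,4)]
  []))) (S 3 (L 9 4) (L 49 4))) (M 18 (K [(31,8,4),(31,1,3),(38,4,1)] [])))) (S 3 (L 9 4) (L 49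
  4))))))) (P 16 (P 10 (A12 (B02 (B01 (A13 (L 31 1) (A03 (L 31 1) (A23 (L 31 1) (S 3 (L 9 4) (L 49
  4))))) (A13 (L 31 1) (B12 (M 3 (K [(49,4,3),(31,1,5)] [])) (A03 (L 31 1) (S 3 (L 9 4) (L 49
  4)))))) (B12 (A13 (L 31 1) (B01 (A03 (L 31 1) (S 3 (L 9 4) (L 49 4))) (P 9 (K
  [(31,1,3),(29,7,1),(31,8,4)] [])))) (A13 (L 31 1) (A03 (L 31 1) (A23 (L 31 1) (S 3 (L 9 4) (L 49
  4))))))) (B02 (B01 (S 9 (L 29 7) (L 1 7)) (A23 (L 31 1) (B12 (M 3 (K [(49,4,3),(31,1,5)] [])) (S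
  9 (L 29 7) (L 1 7))))) (B12 (A23 (L 31 1) (B01 (S 9 (L 29 7) (L 1 7)) (M 18 (K
  [(38,4,1),(31,1,3),(31,8,4)] [])))) (S 9 (L 29 7) (L 1 7))))))))))) (P 16 (P 10 (A12 (A13 (B02
  (B01 (S 1 (L 4 1) (L 31 1)) (A01 (B12 (A02 (M 3 (L 49 4)) (A12 (M 3 (L 49 4)) (S 1 (L 4 1) (L 31
  1)))) (S 1 (L 4 1) (L 31 1))) (B12 (A12 (A13 (B01 (M 15 (S 1 (L 5 1) (L 31 1))) (M 6 (L 43 5)))
  (B01 (S 1 (L 4 1) (L 31 1)) (A03 (M 6 (L 43 5)) (M 15 (S 1 (L 5 1) (L 31 1)))))) (A02 (B01 (S 1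
  (L 4 1) (L 31 1)) (A03 (B12 (M 3 (L 49 4)) (S 1 (L 4 1) (L 31 1))) (M 15 (S 1 (L 5 1) (L 31
  1))))) (M 15 (S 1 (L 5 1) (L 31 1))))) (M 15 (S 1 (L 5 1) (L 31 1)))))) (B12 (A01 (B01 (M 15 (S 1
  (L 5 1) (L 31 1))) (A02 (A03 (M 3 (L 49 4)) (B12 (M 3 (L 49 4)) (M 15 (S 1 (L 5 1) (L 31 1)))))
  (A12 (B12 (M 3 (L 49 4)) (M 15 (S 1 (L 5 1) (L 31 1)))) (S 1 (L 4 1) (L 31 1))))) (B01 (M 15 (S 1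
  (L 5 1) (L 31 1))) (A12 (A13 (M 6 (L 43 5)) (B12 (A03 (M 6 (L 43 5)) (S 1 (L 4 8) (L 31 1))) (M
  15 (S 1 (L 5 1) (L 31 1))))) (A02 (B12 (A03 (B01 (M 15 (S 1 (L 5 1) (L 31 1))) (M 6 (L 43 5))) (M
  15 (S 1 (L 5 1) (L 31 1)))) (M 15 (S 1 (L 5 1) (L 31 1)))) (M 15 (S 1 (L 5 1) (L 31 1))))))) (M
  15 (A01 (A02 (S 1 (L 5 1) (L 31 1)) (A12 (S 1 (L 5 1) (L 31 1)) (B02 (S 1 (L 4 1) (L 31 1)) (B12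
  (S 1 (L 4 1) (L 31 1)) (S 1 (L 4 1) (L 31 1)))))) (A12 (S 1 (L 5 1) (L 31 1)) (A02 (S 1 (L 5 1)
  (L 31 1)) (S 1 (L 5 1) (L 31 1)))))))) (M 15 (B02 (B01 (S 3 (L 9 4) (L 49 4)) (A03 (S 1 (L 4 1)
  (L 31 1)) (B12 (S 3 (L 9 4) (L 49 4)) (S 3 (L 9 4) (L 49 4))))) (B12 (A03 (S 1 (L 4 1) (L 31 1))
  (B01 (A23 (S 1 (L 4 1) (L 31 1)) (A13 (S 1 (L 4 1) (L 31 1)) (S 3 (L 9 4) (L 49 4)))) (M 18 (S 3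
  (L 11 4) (L 49 4))))) (A03 (A02 (S 1 (L 4 1) (L 31 1)) (A23 (B02 (S 1 (L 4 1) (L 31 1)) (B12 (S 1
  (L 4 1) (L 31 1)) (S 1 (L 4 1) (L 31 1)))) (S 1 (L 4 1) (L 31 1)))) (A23 (A02 (B02 (B01 (M 1 (L
  31 1)) (A01 (M 1 (L 31 1)) (B12 (S 1 (L 4 1) (L 31 1)) (M 1 (L 31 1))))) (B12 (A01 (M 1 (L 31 1))
  (B01 (M 4 (L 42 7)) (S 1 (L 4 1) (L 31 1)))) (A01 (M 1 (L 31 1)) (S 1 (L 4 1) (L 31 1))))) (S 1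
  (L 4 1) (L 31 1))) (A13 (B02 (B01 (M 1 (L 31 1)) (A01 (M 1 (L 31 1)) (B12 (S 1 (L 4 1) (L 31 1))
  (M 1 (L 31 1))))) (B12 (A01 (M 1 (L 31 1)) (B01 (M 4 (L 42 7)) (S 1 (L 4 1) (L 31 8)))) (A01 (M 1
  (L 31 1)) (S 1 (L 5 8) (L 31 1))))) (M 1 (B02 (S 3 (L 9 4) (L 49 4)) (K [(31,8,5),(31,1,3)]
  [])))))))))) (M 15 (P 12 (A02 (B02 (B01 (M 1 (A03 (L 31 1) (A13 (L 31 1) (A23 (L 31 1) (S 3 (L 9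
  4) (L 49 4)))))) (A03 (S 1 (L 4 1) (L 31 1)) (B12 (S 3 (L 9 4) (L 49 4)) (S 3 (L 9 4) (L 49
  4))))) (B12 (A03 (S 1 (L 4 1) (L 31 1)) (B01 (M 1 (A13 (L 31 1) (S 3 (L 9 4) (L 49 4)))) (A13 (S
  1 (L 4 1) (L 31 1)) (S 3 (L 9 4) (L 49 4))))) (M 1 (A03 (L 31 1) (A13 (L 31 1) (A23 (L 31 1) (B02
  (S 3 (L 9 4) (L 49 4)) (K [(31,8,4),(31,1,4)] [])))))))) (B02 (B01 (S 9 (L 29 7) (L 1 7)) (A23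
  (B12 (A12 (M 18 (L 38 4)) (M 1 (L 31 1))) (M 1 (L 31 1))) (B12 (S 3 (L 9 4) (L 49 4)) (S 3 (L 9
  4) (L 49 4))))) (B12 (A23 (B01 (M 1 (L 31 1)) (A12 (M 18 (L 38 4)) (M 1 (L 31 1)))) (B01 (S 9 (L
  29 7) (L 1 7)) (A13 (S 1 (L 4 1) (L 31 1)) (S 3 (L 9 4) (L 49 4))))) (S 9 (L 29 7) (L 1
  7)))))))))))))) (P 16 (P 10 (B12 (P 14 (M 11 (A13 (B01 (A12 (A01 (B02 (M 1 (A03 (B01 (S 3 (L 9 4)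
  (L 49 4)) (S 3 (L 9 4) (K [(49,4,6),(31,1,2)] []))) (L 31 1))) (A03 (A02 (S 3 (L 9 4) (L 49 4))
  (A23 (S 1 (L 4 1) (L 31 1)) (S 3 (L 9 4) (L 49 4)))) (A23 (A02 (S 3 (L 9 4) (L 49 4)) (S 1 (L 4
  1) (L 31 1))) (S 3 (L 9 4) (L 49 4))))) (B02 (A13 (B01 (S 1 (L 4 1) (L 31 1)) (A12 (A01 (S 1 (L 4
  1) (L 31 1)) (B12 (M 3 (L 49 4)) (S 1 (L 4 1) (L 31 1)))) (S 1 (L 4 1) (L 31 1)))) (B01 (A23 (S 1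
  (L 4 1) (L 31 1)) (A03 (S 1 (L 4 1) (L 31 1)) (out 1))) (S 1 (L 4 1) (L 31 1)))) (A13 (A12 (A01
  (M 15 (S 1 (L 5 1) (L 31 1))) (B12 (B01 (A13 (M 3 (L 49 4)) (M 15 (S 1 (L 5 1) (L 31 1)))) (M 3
  (L 49 4))) (B02 (A13 (M 3 (L 49 4)) (M 15 (S 1 (L 5 1) (L 31 1)))) (M 6 (L 43 5))))) (M 15 (S 1
  (L 5 1) (L 31 1)))) (M 15 (S 1 (L 5 1) (L 31 1)))))) (P 12 (A23 (B02 (M 1 (A02 (B01 (S 3 (L 9 4)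
  (L 49 4)) (S 3 (L 9 4) (K [(31,1,4),(49,4,4)] []))) (L 31 1))) (M 18 (A02 (A01 (M 1 (S 3 (L 9 4)
  (K [(49,4,4),(31,1,4)] []))) (S 1 (L 4 1) (L 31 1))) (L 38 4)))) (B02 (M 1 (A03 (B01 (S 3 (L 9 4)
  (L 49 4)) (S 3 (L 9 4) (K [(49,4,6),(31,1,2)] []))) (L 31 1))) (A03 (A01 (S 3 (L 9 4) (L 49 4))
  (A13 (S 1 (L 4 1) (L 31 1)) (S 3 (L 9 4) (L 49 4)))) (A13 (A01 (S 3 (L 9 4) (L 49 4)) (S 1 (L 4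
  1) (L 31 1))) (out 1))))))) (M 18 (A12 (A01 (B12 (M 3 (A03 (B01 (S 1 (L 4 1) (K
  [(49,4,6),(31,1,2)] [])) (A02 (K [(49,4,4),(49,2,4)] []) (A23 (S 1 (L 4 1) (L 31 1)) (K
  [(49,4,4),(49,2,4)] [])))) (B01 (S 1 (K [(4,1,5),(49,4,3)] []) (K [(49,4,4),(31,1,4)] [])) (A23
  (A02 (S 1 (L 4 1) (L 31 8)) (S 1 (L 4 1) (L 31 1))) (S 1 (L 4 8) (L 31 8)))))) (A03 (M 3 (S 1 (L
  4 1) (K [(49,4,6),(31,1,2)] []))) (A23 (A02 (S 3 (L 9 4) (L 49 4)) (S 1 (L 4 1) (L 31 1))) (S 3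
  (L 9 4) (L 49 4))))) (B12 (M 3 (A13 (B01 (A12 (L 49 4) (A23 (S 1 (L 4 1) (L 31 1)) (L 49 4)))
  (A12 (S 1 (L 4 8) (L 31 1)) (S 12 (L 38 6) (L 7 6)))) (B01 (A23 (A12 (L 49 4) (S 1 (L 4 1) (L 31
  1))) (L 49 4)) (A23 (S 12 (L 38 6) (L 7 6)) (S 1 (L 4 8) (L 31 8)))))) (A13 (A12 (A01 (B02 (M 3
  (L 49 4)) (B12 (M 3 (L 49 4)) (A03 (M 3 (L 49 4)) (M 6 (L 43 5))))) (S 3 (L 9 4) (L 49 4))) (A23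
  (M 3 (B02 (S 1 (L 4 1) (L 31 1)) (L 49 4))) (B02 (M 3 (L 49 4)) (B12 (M 3 (L 49 4)) (P 12 (L 38
  10)))))) (A23 (A12 (B02 (M 3 (L 49 4)) (B12 (M 3 (L 49 4)) (S 1 (L 4 8) (L 31 1)))) (S 1 (L 4 1)
  (L 31 1))) (A03 (B02 (M 3 (L 49 4)) (B12 (M 3 (L 49 4)) (S 1 (L 4 8) (L 31 1)))) (out 1))))))
  (A23 (B12 (M 3 (A02 (B01 (S 1 (L 4 1) (K [(31,1,19),(49,4,24),(49,2,17),(31,8,5)] [])) (A01 (M 1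
  (K [(31,1,2),(31,8,4),(49,2,2)] [])) (S 1 (L 4 1) (L 31 1)))) (S 1 (L 4 1) (L 31 1)))) (A02 (A01
  (M 1 (S 3 (L 9 4) (K [(49,4,4),(31,1,4)] []))) (S 1 (L 4 1) (L 31 1))) (S 1 (L 4 1) (L 31 1))))
  (B12 (M 3 (A03 (B01 (S 1 (L 4 1) (K [(31,1,2),(49,4,6)] [])) (A01 (M 1 (K
  [(31,8,4),(31,1,2),(49,4,2)] [])) (A13 (S 1 (L 4 1) (L 31 1)) (M 1 (K
  [(31,1,4),(31,8,2),(49,4,2)] []))))) (B01 (S 1 (K [(4,1,5),(49,4,3)] []) (K [(49,4,4),(31,1,4)]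
  [])) (A13 (A01 (P 12 (K [(49,4,4),(38,6,1),(49,2,3)] [])) (S 1 (L 4 1) (L 31 1))) (out 1)))))
  (A03 (A01 (S 3 (L 9 4) (L 49 4)) (A13 (S 1 (L 4 1) (L 31 1)) (S 3 (L 9 4) (L 49 4)))) (A13 (A01
  (S 3 (L 9 4) (L 49 4)) (S 1 (L 4 1) (L 31 1))) (out 1)))))))) (M 15 (P 12 (B01 (A23 (A12 (B02 (S
  3 (L 9 4) (L 49 4)) (A01 (S 3 (L 9 4) (L 49 4)) (out 1))) (M 1 (B02 (A02 (B01 (S 3 (L 9 4) (L 49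
  4)) (A03 (S 3 (L 9 4) (K [(49,4,4),(31,1,4)] [])) (L 31 1))) (L 31 1)) (A02 (A03 (S 3 (L 9 4) (K
  [(49,4,4),(31,1,4)] [])) (S 9 (L 29 7) (L 1 7))) (L 31 1))))) (A03 (B02 (S 3 (L 9 4) (L 49 4))
  (A01 (S 3 (L 9 4) (L 49 4)) (out 1))) (out 1))) (A23 (M 18 (A12 (B12 (M 3 (K
  [(49,4,14),(38,6,5),(49,2,5)] [])) (S 3 (L 9 4) (L 49 4))) (M 1 (B12 (M 3 (A02 (B01 (K
  [(31,1,19),(49,4,24),(31,8,5),(49,2,17)] []) (K [(31,1,2),(31,8,4),(49,2,2)] [])) (L 31 1))) (S 3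
  (L 9 4) (K [(49,4,11),(31,1,13)] [])))))) (A03 (M 18 (B12 (M 3 (K [(49,4,5),(38,6,3)] [])) (S 3
  (L 9 4) (L 49 4)))) (out 1))))))))) (A13 (P 14 (M 11 (A12 (A01 (M 15 (B02 (B01 (S 3 (L 9 4) (L 49
  4)) (A03 (B12 (S 3 (L 9 4) (L 49 4)) (S 3 (L 9 4) (L 49 4))) (B12 (S 3 (L 9 4) (L 49 4)) (A23 (M
  1 (L 31 1)) (A13 (M 1 (L 31 1)) (out 1)))))) (B12 (A03 (B01 (A02 (A01 (S 3 (L 9 4) (L 49 4)) (B02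
  (M 1 (L 31 1)) (S 3 (L 9 4) (L 49 4)))) (A23 (B02 (M 1 (L 31 1)) (S 1 (L 4 1) (L 31 1))) (B02 (M
  1 (L 31 1)) (S 3 (L 9 4) (L 49 4))))) (M 18 (S 3 (L 11 4) (L 49 4)))) (B01 (A23 (A02 (B02 (M 1 (L
  31 1)) (S 1 (L 4 1) (L 31 8))) (B02 (M 1 (L 31 1)) (S 1 (L 4 1) (L 31 1)))) (A13 (B02 (M 1 (L 31
  1)) (S 1 (L 5 8) (L 31 8))) (out 1))) (M 18 (S 3 (L 11 4) (L 49 4))))) (M 4 (A03 (A02 (K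
  [(42,7,4),(42,5,4)] []) (S 9 (L 28 7) (L 1 7))) (S 9 (L 28 7) (L 1 7))))))) (B02 (B01 (A13 (S 1
  (L 4 1) (L 31 1)) (A23 (A12 (B02 (B01 (M 1 (L 31 1)) (A01 (M 1 (L 31 1)) (out 1))) (B12 (A01 (M 1
  (L 31 1)) (out 1)) (A01 (M 1 (L 31 1)) (out 1)))) (M 1 (L 31 1))) (A03 (B02 (B01 (M 1 (L 31 1))
  (A01 (M 1 (L 31 1)) (out 1))) (B12 (A01 (M 1 (L 31 1)) (out 1)) (A01 (M 1 (L 31 1)) (out 1))))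
  (out 1)))) (A13 (B12 (A12 (A01 (M 15 (S 1 (L 5 1) (L 31 1))) (B01 (M 15 (S 1 (L 5 1) (L 31 1)))
  (M 6 (L 43 5)))) (M 15 (S 1 (L 5 1) (L 31 1)))) (M 15 (S 1 (L 5 1) (L 31 1)))) (M 15 (P 12 (B12
  (S 1 (L 5 1) (L 31 1)) (A23 (A12 (B02 (S 1 (L 5 1) (L 31 1)) (A01 (B12 (S 1 (L 4 1) (L 31 1)) (M
  1 (L 31 1))) (out 1))) (B02 (S 1 (L 4 1) (L 31 1)) (A02 (B12 (S 1 (L 4 1) (L 31 1)) (M 1 (L 31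
  1))) (B12 (M 18 (L 38 4)) (M 1 (L 31 1)))))) (A03 (B02 (S 1 (L 5 1) (L 31 1)) (A01 (B12 (S 1 (L 4
  1) (L 31 1)) (M 1 (L 31 1))) (out 1))) (out 1)))))))) (B12 (A13 (B01 (M 15 (S 1 (L 5 1) (L 31
  1))) (A12 (A01 (M 15 (S 1 (L 5 1) (L 31 1))) (M 6 (L 43 5))) (M 15 (S 1 (L 5 1) (L 31 1))))) (M
  15 (P 12 (B01 (A23 (A12 (B02 (A01 (B01 (M 4 (L 42 7)) (S 1 (L 4 1) (L 31 1))) (out 1)) (S 1 (L 5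
  1) (L 31 1))) (B02 (A02 (B01 (M 4 (L 42 7)) (S 1 (L 4 1) (L 31 1))) (B01 (M 4 (L 42 7)) (M 18 (L
  38 4)))) (S 1 (L 5 1) (L 31 1)))) (A03 (B02 (A01 (B01 (M 4 (L 42 7)) (S 1 (L 4 1) (L 31 1))) (out
  1)) (S 1 (L 5 1) (L 31 1))) (out 1))) (S 1 (L 5 1) (L 31 1)))))) (M 15 (S 1 (L 5 1) (L 31 1))))))
  (M 15 (P 12 (A23 (B02 (B01 (S 9 (L 29 7) (L 1 7)) (A02 (B12 (S 3 (L 9 4) (L 49 4)) (S 3 (L 9 4)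
  (L 49 4))) (B12 (A12 (M 18 (L 38 4)) (M 1 (L 31 1))) (M 1 (L 31 1))))) (B12 (A02 (B01 (S 9 (L 29
  7) (L 1 7)) (A01 (S 3 (L 9 4) (L 49 4)) (A12 (B12 (S 1 (L 4 1) (L 31 1)) (M 1 (L 31 1))) (M 1 (L
  31 1))))) (B01 (M 1 (L 31 1)) (A12 (A01 (M 1 (L 31 1)) (B12 (M 18 (L 38 4)) (M 1 (L 31 1)))) (M 1
  (L 31 1))))) (S 9 (L 29 7) (L 1 7)))) (B02 (B01 (S 3 (L 9 4) (L 49 4)) (A03 (B12 (S 3 (L 9 4) (L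
  49 4)) (S 3 (L 9 4) (L 49 4))) (B12 (S 3 (L 9 4) (L 49 4)) (A13 (M 1 (L 31 1)) (out 1))))) (B12
  (A03 (B01 (S 9 (L 29 7) (L 1 7)) (A01 (S 3 (L 9 4) (L 49 4)) (A13 (B12 (S 1 (L 4 1) (L 31 1)) (M
  1 (L 31 1))) (S 3 (L 9 4) (L 49 4))))) (B01 (S 9 (L 29 7) (L 1 7)) (A13 (A01 (B12 (S 3 (L 9 4) (L
  49 4)) (M 4 (S 9 (L 28 7) (L 1 7)))) (B12 (S 1 (L 4 1) (L 31 1)) (S 1 (L 4 1) (L 31 1)))) (out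
  1)))) (S 9 (L 29 7) (L 1 7)))))))))) (M 15 (A23 (M 11 (A12 (B02 (B01 (S 3 (L 9 4) (L 49 4)) (A01
  (S 3 (L 9 4) (L 49 4)) (out 1))) (B12 (A01 (S 3 (L 9 4) (L 49 4)) (out 1)) (S 9 (L 29 7) (L 1
  7)))) (M 1 (B02 (B01 (S 9 (L 29 7) (L 1 7)) (A02 (S 3 (L 9 4) (L 49 4)) (L 31 1))) (B12 (A02 (S 3
  (L 9 4) (L 49 4)) (L 31 1)) (S 9 (L 29 7) (L 1 7))))))) (A03 (P 14 (M 11 (B02 (B01 (S 3 (L 9 4)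
  (L 49 4)) (A01 (S 3 (L 9 4) (L 49 4)) (out 1))) (B12 (A01 (S 3 (L 9 4) (L 49 4)) (out 1)) (M 4 (K
  [(42,7,39),(42,5,25)] [])))))) (out 1))))))))) (P 16 (P 10 (A12 (B12 (P 14 (M 11 (A13 (B01 (A01
  (M 15 (P 12 (A03 (B02 (M 1 (L 31 1)) (A02 (A01 (M 1 (L 31 1)) (A12 (M 18 (L 38 4)) (M 1 (L 31
  1)))) (A12 (A01 (B12 (M 1 (L 31 1)) (B02 (M 1 (L 31 1)) (M 18 (L 38 4)))) (M 18 (L 38 4))) (out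
  1)))) (B02 (M 1 (L 31 1)) (A23 (A12 (M 18 (L 38 4)) (out 1)) (S 1 (L 5 1) (L 31 1))))))) (A12
  (B02 (A13 (B01 (S 1 (L 4 1) (L 31 1)) (A01 (S 1 (L 4 1) (L 31 1)) (A12 (B12 (M 3 (L 49 4)) (S 1
  (L 4 1) (L 31 1))) (S 1 (L 4 1) (L 31 1))))) (B01 (A03 (S 1 (L 4 1) (L 31 1)) (out 1)) (S 1 (L 4
  1) (L 31 1)))) (A13 (A01 (M 15 (S 1 (L 5 1) (L 31 1))) (A12 (B12 (B01 (A13 (B02 (M 15 (S 1 (L 5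
  1) (L 31 1))) (M 3 (L 49 4))) (M 15 (S 1 (L 5 1) (L 31 1)))) (M 3 (L 49 4))) (B02 (A13 (B01 (M 15
  (S 1 (L 5 1) (L 31 1))) (S 3 (L 9 4) (L 49 4))) (M 15 (S 1 (L 5 1) (L 31 1)))) (M 6 (L 43 5))))
  (M 15 (S 1 (L 5 1) (L 31 1))))) (M 15 (S 1 (L 5 1) (L 31 1))))) (M 15 (B02 (A23 (B01 (M 1 (L 31
  1)) (A02 (S 1 (L 4 1) (L 31 1)) (out 1))) (B01 (M 1 (L 31 1)) (S 1 (L 4 1) (L 31 1)))) (A23 (A02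
  (S 1 (L 5 1) (L 31 1)) (out 1)) (S 1 (L 5 1) (L 31 1))))))) (M 18 (A01 (A03 (B12 (A02 (S 1 (L 4
  1) (L 31 1)) (B01 (S 1 (L 4 1) (L 31 1)) (A12 (S 1 (L 4 1) (L 31 1)) (out 1)))) (S 1 (L 4 1) (L
  31 1))) (B12 (A23 (B01 (S 1 (L 4 1) (L 31 1)) (A12 (A13 (S 1 (L 4 1) (L 31 1)) (out 1)) (out 1)))
  (B01 (M 15 (S 1 (L 5 1) (L 31 1))) (A13 (A12 (S 1 (L 4 1) (L 31 1)) (out 1)) (out 1)))) (M 15 (S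
  1 (L 5 1) (L 31 1))))) (A12 (B12 (M 3 (A13 (B01 (A01 (A03 (B02 (S 1 (L 4 1) (L 31 1)) (A02 (S 1
  (L 4 1) (L 31 1)) (M 6 (S 12 (L 37 10) (L 7 10))))) (L 49 4)) (L 49 4)) (A01 (S 12 (L 38 6) (L 7
  6)) (M 6 (L 43 5)))) (B01 (A03 (A01 (M 15 (S 1 (L 5 1) (L 31 1))) (out 1)) (out 1)) (A03 (S 12 (L
  38 6) (L 7 6)) (out 1))))) (A13 (A01 (A03 (B02 (B01 (S 1 (L 4 1) (L 31 1)) (A02 (S 1 (L 4 1) (L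
  31 1)) (S 3 (L 9 4) (L 49 4)))) (B12 (A02 (M 3 (L 49 4)) (S 3 (L 9 4) (L 49 4))) (M 15 (S 1 (L 5
  1) (L 31 1))))) (B02 (B01 (M 15 (S 1 (L 5 1) (L 31 1))) (S 3 (L 9 4) (L 49 4))) (S 3 (L 11 4) (L
  49 4)))) (S 3 (L 11 4) (L 49 4))) (A03 (A01 (M 15 (S 1 (L 5 1) (L 31 1))) (out 1)) (out 1))))
  (B12 (A23 (B01 (M 15 (S 1 (L 5 1) (L 31 1))) (A02 (A03 (M 3 (B12 (L 49 2) (A01 (S 1 (L 4 1) (L 31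
  1)) (out 1)))) (out 1)) (out 1))) (B01 (M 15 (S 1 (L 5 1) (L 31 1))) (A03 (A02 (S 12 (L 38 6) (L
  7 6)) (out 1)) (out 1)))) (M 15 (S 1 (L 5 1) (L 31 1)))))))) (M 15 (B01 (A03 (A01 (B02 (M 1 (L 31
  1)) (A02 (M 1 (L 31 1)) (out 1))) (out 1)) (out 1)) (A03 (S 1 (L 5 1) (L 31 1)) (out 1)))))))
  (A13 (P 14 (M 11 (A01 (M 15 (P 12 (A03 (B02 (B01 (M 1 (L 31 1)) (A02 (B12 (A01 (M 1 (L 31 1))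
  (A12 (M 18 (L 38 4)) (M 1 (L 31 1)))) (M 1 (L 31 1))) (B12 (A12 (A01 (S 1 (L 4 1) (L 31 1)) (M 18
  (L 38 4))) (out 1)) (M 1 (L 31 1))))) (B12 (A02 (B01 (M 1 (L 31 1)) (A01 (M 1 (L 31 1)) (A12 (B12
  (M 18 (L 38 4)) (M 1 (L 31 1))) (M 1 (L 31 1))))) (B01 (M 1 (L 31 1)) (A12 (A01 (S 1 (L 4 1) (L
  31 1)) (B12 (M 18 (L 38 4)) (M 1 (L 31 1)))) (out 1)))) (M 1 (L 31 1)))) (B02 (B01 (M 1 (L 31 1))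
  (A23 (B12 (A12 (A13 (M 18 (L 38 4)) (out 1)) (out 1)) (M 1 (L 31 1))) (B12 (A13 (A12 (S 1 (L 4 1)
  (L 31 1)) (out 1)) (out 1)) (A13 (M 1 (L 31 1)) (out 1))))) (B12 (A23 (B01 (S 1 (L 5 1) (L 31 1))
  (A12 (A13 (B12 (M 18 (L 38 4)) (S 1 (L 4 1) (L 31 1))) (out 1)) (out 1))) (B01 (S 1 (L 5 1) (L 31
  1)) (A13 (A12 (B12 (S 1 (L 4 1) (L 31 1)) (S 1 (L 4 1) (L 31 1))) (out 1)) (out 1)))) (S 1 (L 5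
  1) (L 31 1))))))) (A12 (B02 (B01 (A13 (A01 (A03 (M 1 (L 31 1)) (B02 (S 1 (L 4 1) (L 31 1)) (B12
  (S 1 (L 4 1) (L 31 1)) (S 1 (L 4 1) (L 31 1))))) (A12 (S 1 (L 4 1) (L 31 1)) (B02 (S 1 (L 4 1) (L
  31 1)) (B12 (S 1 (L 4 1) (L 31 1)) (S 1 (L 4 1) (L 31 1)))))) (A03 (A01 (M 1 (L 31 1)) (out 1))
  (out 1))) (A13 (B12 (A01 (M 15 (S 1 (L 5 1) (L 31 1))) (A12 (B01 (M 15 (S 1 (L 5 1) (L 31 1))) (M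
  6 (L 43 5))) (M 15 (S 1 (L 5 1) (L 31 1))))) (M 15 (P 12 (A01 (A03 (B02 (M 18 (L 38 4)) (S 1 (L 4
  1) (L 31 1))) (B02 (S 1 (L 5 1) (L 31 1)) (S 1 (L 5 1) (L 31 1)))) (A12 (S 1 (L 5 1) (L 31 1))
  (B02 (S 1 (L 5 1) (L 31 1)) (S 1 (L 5 1) (L 31 1)))))))) (M 15 (P 12 (B12 (S 1 (L 5 1) (L 31 1))
  (A03 (A01 (B02 (M 18 (L 38 4)) (S 1 (L 4 1) (L 31 1))) (out 1)) (out 1))))))) (B12 (A13 (B01 (M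
  15 (S 1 (L 5 1) (L 31 1))) (M 18 (A01 (M 15 (S 1 (L 5 1) (L 31 1))) (S 3 (L 11 4) (L 49 4))))) (M
  15 (B01 (S 1 (L 5 1) (L 31 1)) (S 1 (L 5 1) (L 31 1))))) (M 15 (S 1 (L 5 1) (L 31 1))))) (M 15 (P
  12 (B02 (B01 (M 1 (L 31 1)) (A23 (B12 (A02 (A03 (S 1 (L 5 1) (L 31 1)) (out 1)) (out 1)) (A02
  (A03 (B02 (A01 (M 1 (L 31 1)) (out 1)) (S 1 (L 4 1) (L 31 1))) (out 1)) (out 1))) (B12 (A03 (A02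
  (S 1 (L 5 1) (L 31 1)) (out 1)) (out 1)) (A03 (A02 (B02 (M 18 (L 38 4)) (S 1 (L 4 1) (L 31 1)))
  (out 1)) (out 1))))) (B12 (A23 (B01 (S 1 (L 5 1) (L 31 1)) (A02 (A03 (S 1 (L 5 1) (L 31 1)) (out
  1)) (out 1))) (B01 (S 1 (L 5 1) (L 31 1)) (A03 (A02 (S 1 (L 5 1) (L 31 1)) (out 1)) (out 1)))) (S
  1 (L 5 1) (L 31 1)))))))))) (A03 (A01 (B02 (B01 (M 1 (L 31 1)) (A02 (M 1 (L 31 1)) (out 1))) (B12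
  (A02 (M 1 (L 31 1)) (out 1)) (P 18 (L 55 4)))) (out 1)) (out 1)))) (B12 (M 11 (A23 (B01 (A02 (A03
  (B02 (M 1 (L 31 1)) (A01 (M 1 (L 31 1)) (out 1))) (out 1)) (out 1)) (A02 (A03 (B12 (A01 (M 1 (L
  31 1)) (out 1)) (A01 (M 1 (L 31 1)) (out 1))) (out 1)) (out 1))) (B01 (A03 (A02 (B02 (M 1 (L 31
  1)) (A01 (M 1 (L 31 1)) (out 1))) (out 1)) (out 1)) (A03 (A02 (B12 (S 1 (L 4 1) (L 31 1)) (A01 (M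
  1 (L 31 1)) (out 1))) (out 1)) (out 1))))) (A23 (A02 (A03 (B02 (B01 (M 1 (L 31 1)) (A01 (M 1 (L
  31 1)) (out 1))) (B12 (A01 (M 1 (L 31 1)) (out 1)) (P 18 (L 55 4)))) (out 1)) (out 1)) (A03 (A02
  (B02 (B01 (M 1 (L 31 1)) (A01 (M 1 (L 31 1)) (out 1))) (B12 (A01 (M 1 (L 31 1)) (out 1)) (P 18 (L
  55 4)))) (out 1)) (out 1)))))))) (A03 (A02 (P 14 (M 11 (B12 (P 4 (M 3 (A01 (B01 (P 12 (M 1 (A03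
  (A02 (M 18 (B02 (A01 (B01 (L 38 10) (P 10 (S 13 (L 40 11) (K [(13,7,5),(31,1,2),(13,11,1)] []))))
  (P 16 (L 49 4))) (P 10 (S 13 (L 40 11) (K [(13,7,14),(31,1,8),(13,11,1)] []))))) (P 16 (L 49 4)))
  (P 16 (L 49 4))))) (M 19 (M 18 (P 10 (A03 (A02 (B12 (A01 (M 1 (B01 (A03 (A02 (S 13 (L 40 11) (L
  13 11)) (B02 (S 13 (L 40 11) (L 13 11)) (K [(31,8,5),(31,1,3)] []))) (A13 (B02 (S 13 (L 40 11) (L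
  13 11)) (K [(31,8,16),(31,1,8)] [])) (S 13 (L 40 11) (K [(13,7,6),(13,11,2)] [])))) (A03 (S 12 (L
  38 6) (L 7 6)) (A13 (S 12 (L 38 6) (L 7 6)) (L 31 8))))) (B01 (P 16 (K [(49,4,6),(49,2,2)] []))
  (A13 (A12 (B12 (A01 (S 12 (L 38 6) (L 7 6)) (P 16 (L 49 2))) (S 12 (L 38 6) (L 7 6))) (S 12 (L 38
  6) (L 7 6))) (M 1 (A03 (S 12 (L 38 6) (L 7 6)) (L 31 8)))))) (A01 (A03 (A02 (S 13 (L 40 11) (L 13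
  7)) (S 13 (L 41 7) (L 13 7))) (S 13 (L 41 7) (L 13 7))) (P 16 (L 49 4)))) (B12 (A12 (B01 (P 16 (K
  [(49,4,6),(49,2,2)] [])) (A13 (S 12 (L 38 6) (L 7 6)) (M 1 (L 31 8)))) (M 1 (B01 (P 16 (K
  [(49,4,6),(49,2,2)] [])) (L 31 8)))) (P 16 (L 49 4)))) (A13 (B12 (A12 (B01 (P 16 (L 49 4)) (A01
  (M 1 (L 31 8)) (S 12 (L 38 10) (L 7 6)))) (M 1 (B01 (P 16 (L 49 4)) (L 31 8)))) (P 16 (L 49 4)))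
  (M 1 (B12 (A23 (B01 (P 16 (L 49 4)) (L 31 8)) (L 31 8)) (P 16 (L 49 4)))))))))) (P 16 (K
  [(49,4,6),(49,2,2)] []))))) (A01 (A03 (A02 (P 4 (S 13 (L 40 5) (L 13 7))) (P 16 (S 3 (L 9 4) (L
  49 4)))) (P 16 (S 3 (L 9 4) (L 49 4)))) (P 16 (P 10 (A13 (A12 (M 18 (B02 (B01 (S 3 (L 9 4) (L 49
  4)) (A01 (B12 (M 3 (L 49 4)) (S 3 (L 9 4) (L 49 4))) (B12 (A13 (A12 (B01 (P 12 (L 38 10)) (M 6 (L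
  43 5))) (M 3 (L 49 4))) (M 3 (L 49 4))) (S 3 (L 9 4) (L 49 4))))) (B12 (A01 (B01 (S 3 (L 9 4) (L
  49 4)) (A03 (A02 (M 3 (L 49 4)) (B12 (M 3 (L 49 4)) (P 12 (L 38 10)))) (A13 (B12 (M 3 (L 49 4))
  (P 12 (L 38 10))) (P 12 (L 38 10))))) (B01 (S 3 (L 11 4) (L 49 4)) (A13 (A12 (M 6 (L 43 5)) (B12
  (M 3 (L 49 4)) (P 12 (L 38 10)))) (A03 (B12 (M 3 (L 49 4)) (P 12 (L 38 10))) (P 12 (L 38 10))))))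
  (S 3 (L 11 4) (L 49 4))))) (B02 (B01 (S 3 (L 9 4) (L 49 4)) (A02 (S 3 (L 9 4) (L 49 4)) (B12 (M 3
  (L 49 4)) (S 3 (L 9 4) (L 49 4))))) (B12 (A02 (S 3 (L 9 4) (L 49 4)) (B01 (A23 (A12 (S 3 (L 9 4)
  (L 49 4)) (S 3 (L 9 4) (L 49 4))) (S 3 (L 9 4) (L 49 4))) (S 1 (L 4 8) (L 31 8)))) (A02 (M 18 (S
  3 (L 11 4) (L 49 4))) (A23 (A12 (M 18 (S 3 (L 11 4) (L 49 4))) (S 3 (L 9 4) (L 49 4))) (M 18 (S 3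
  (L 11 4) (L 49 4)))))))) (P 12 (A03 (B02 (B01 (S 3 (L 9 4) (L 49 4)) (A02 (S 3 (L 9 4) (L 49 4))
  (B12 (M 3 (L 49 4)) (S 3 (L 9 4) (L 49 4))))) (B12 (A02 (S 3 (L 9 4) (L 49 4)) (B01 (A12 (M 18 (L
  38 10)) (S 3 (L 9 4) (L 49 4))) (S 1 (L 4 8) (L 31 8)))) (A02 (S 3 (L 9 4) (L 49 4)) (A12 (M 18
  (L 38 10)) (S 3 (L 9 4) (L 49 4)))))) (B02 (B01 (S 3 (L 9 4) (L 49 4)) (A23 (B12 (M 3 (L 49 4))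
  (M 1 (L 31 8))) (M 18 (L 38 10)))) (B12 (A23 (B01 (A12 (M 18 (L 38 10)) (M 1 (L 31 8))) (S 1 (L 4
  8) (L 31 8))) (M 18 (L 38 10))) (A23 (A12 (M 18 (L 38 10)) (M 1 (L 31 8))) (M 18 (L 38
  10)))))))))))))) (P 16 (P 10 (B12 (P 14 (M 11 (A12 (B01 (A13 (A01 (B02 (S 3 (L 9 4) (L 49 4)) (S
  3 (L 9 4) (L 49 4))) (B02 (A12 (M 18 (B01 (S 3 (L 9 4) (L 49 4)) (A13 (A01 (P 12 (L 38 10)) (B12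
  (M 3 (L 49 4)) (P 12 (L 38 10)))) (P 12 (L 38 10))))) (P 12 (B01 (A23 (A02 (S 3 (L 9 4) (L 49 4))
  (out 1)) (S 3 (L 9 4) (L 49 4))) (M 18 (L 38 10))))) (M 18 (A12 (A13 (A01 (P 12 (L 38 10)) (S 3
  (L 9 4) (L 49 4))) (P 12 (L 38 10))) (P 12 (L 38 10)))))) (A23 (B02 (S 3 (L 9 4) (L 49 4)) (S 3
  (L 9 4) (L 49 4))) (B02 (S 3 (L 9 4) (L 49 4)) (M 3 (L 49 4))))) (M 18 (A13 (A01 (B12 (M 3 (K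
  [(49,4,5),(49,2,3)] [])) (A02 (M 3 (L 49 4)) (A23 (P 12 (L 38 10)) (M 3 (L 49 4))))) (B12 (M 3 (L
  49 4)) (A12 (A13 (A01 (B02 (M 3 (L 49 4)) (B12 (M 3 (L 49 4)) (A02 (M 3 (L 49 4)) (M 6 (L 43
  5))))) (S 3 (L 9 4) (L 49 4))) (A23 (B02 (M 3 (L 49 4)) (B12 (M 3 (L 49 4)) (A02 (M 3 (L 49 4))
  (M 6 (L 43 5))))) (M 3 (L 49 4)))) (A23 (A02 (B02 (M 3 (L 49 4)) (B12 (M 3 (L 49 4)) (P 12 (L 38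
  10)))) (out 1)) (A13 (B02 (M 3 (L 49 4)) (B12 (M 3 (L 49 4)) (P 12 (L 38 10)))) (M 3 (L 49
  4))))))) (A23 (B12 (M 3 (K [(49,4,5),(49,2,3)] [])) (A02 (M 3 (L 49 4)) (A12 (M 3 (L 49 4)) (out
  1)))) (M 3 (K [(49,4,16),(49,2,8)] [])))))) (P 12 (B01 (A23 (A02 (B02 (S 3 (L 9 4) (L 49 4)) (A01
  (S 3 (L 9 4) (L 49 4)) (out 1))) (out 1)) (A13 (B02 (S 3 (L 9 4) (L 49 4)) (S 3 (L 9 4) (L 49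
  4))) (S 3 (L 9 4) (L 49 4)))) (A23 (A02 (M 18 (B12 (M 3 (K [(49,4,6),(38,6,2)] [])) (S 3 (L 9 4)
  (L 49 4)))) (out 1)) (M 18 (A13 (B12 (M 3 (K [(49,4,6),(38,6,2)] [])) (S 3 (L 9 4) (L 49 4))) (M
  1 (S 3 (L 9 4) (K [(49,4,4),(31,8,4)] []))))))))))) (A12 (P 14 (M 11 (A13 (A01 (M 15 (P 12 (B02
  (B01 (S 3 (L 9 4) (L 49 4)) (A02 (B12 (S 3 (L 9 4) (L 49 4)) (S 3 (L 9 4) (L 49 4))) (B12 (M 18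
  (L 38 10)) (A23 (A12 (B02 (S 3 (L 9 4) (L 49 4)) (A01 (M 4 (L 42 7)) (S 1 (L 4 1) (L 31 1))))
  (out 1)) (A03 (B02 (S 3 (L 9 4) (L 49 4)) (A01 (B12 (M 18 (L 38 10)) (M 4 (L 42 7))) (S 3 (L 9 4)
  (L 49 4)))) (S 3 (L 9 4) (L 49 4))))))) (B12 (A02 (B01 (A03 (A01 (S 3 (L 9 4) (L 49 4)) (B02 (S 3
  (L 9 4) (L 49 4)) (S 1 (L 5 8) (L 31 8)))) (A23 (B02 (S 3 (L 9 4) (L 49 4)) (S 1 (L 5 8) (L 31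
  8))) (S 3 (L 9 4) (L 49 4)))) (S 1 (L 4 8) (L 31 8))) (B01 (A23 (A12 (B02 (A01 (M 4 (L 42 7)) (S
  1 (L 5 8) (L 31 1))) (S 1 (L 5 8) (L 31 8))) (out 1)) (A03 (B02 (A01 (B01 (M 4 (L 42 7)) (M 18 (L
  38 10))) (S 3 (L 9 4) (L 49 4))) (S 1 (L 5 8) (L 31 8))) (S 3 (L 9 4) (L 49 4)))) (M 18 (L 38
  10)))) (A02 (A03 (A01 (S 3 (L 9 4) (L 49 4)) (B02 (B01 (M 4 (L 42 7)) (A12 (S 1 (L 5 8) (L 31 8))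
  (M 1 (L 31 8)))) (B12 (A12 (S 1 (L 5 8) (L 31 8)) (M 1 (L 31 8))) (S 1 (L 5 8) (L 31 8))))) (A23
  (B02 (B01 (M 4 (L 42 7)) (A12 (S 1 (L 5 8) (L 31 8)) (B12 (M 18 (L 38 10)) (M 4 (L 42 7))))) (B12
  (A12 (S 1 (L 5 8) (L 31 8)) (B01 (M 4 (L 42 7)) (M 18 (L 38 10)))) (S 1 (L 5 8) (L 31 8)))) (M 18
  (S 3 (L 11 4) (L 49 4))))) (A23 (M 4 (S 9 (L 28 7) (L 1 7))) (A03 (M 4 (S 9 (L 28 7) (L 1 7))) (M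
  18 (S 3 (L 11 4) (L 49 4)))))))))) (B02 (B01 (A12 (M 18 (S 3 (L 11 4) (L 49 4))) (A23 (A02 (S 3
  (L 9 4) (L 49 4)) (out 1)) (S 3 (L 9 4) (L 49 4)))) (A12 (M 18 (B12 (A13 (A01 (P 12 (L 38 10)) (S
  3 (L 9 4) (L 49 4))) (P 12 (L 38 10))) (S 3 (L 11 4) (L 49 4)))) (P 12 (B12 (M 18 (L 38 10)) (A23
  (A02 (S 1 (L 4 8) (L 31 1)) (out 1)) (S 3 (L 9 4) (L 49 4))))))) (B12 (A12 (M 18 (B01 (S 3 (L 11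
  4) (L 49 4)) (A13 (A01 (P 12 (L 38 10)) (M 6 (L 43 5))) (P 12 (L 38 10))))) (P 12 (B01 (A23 (A02
  (S 1 (L 4 8) (L 31 1)) (out 1)) (M 18 (S 3 (L 11 4) (L 49 4)))) (M 18 (L 38 10))))) (A12 (M 18 (S
  3 (L 11 4) (L 49 4))) (A23 (S 1 (L 4 8) (L 31 1)) (M 18 (S 3 (L 11 4) (L 49 4)))))))) (M 15 (P 12
  (A23 (B02 (B01 (S 3 (L 9 4) (L 49 4)) (A02 (B12 (S 3 (L 9 4) (L 49 4)) (S 3 (L 9 4) (L 49 4)))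
  (B12 (M 18 (L 38 10)) (A12 (A01 (B02 (M 18 (L 38 10)) (A03 (B12 (M 18 (L 38 10)) (M 4 (L 42 7)))
  (B12 (M 18 (L 38 10)) (M 4 (L 42 7))))) (M 18 (L 38 10))) (out 1))))) (B12 (A02 (B01 (A01 (M 1 (L
  31 8)) (A12 (M 18 (L 38 10)) (B02 (M 1 (L 31 8)) (M 18 (L 38 10))))) (S 1 (L 4 8) (L 31 8))) (B01
  (A12 (A01 (B02 (A03 (B01 (M 4 (L 42 7)) (M 18 (L 38 10))) (B01 (M 4 (L 42 7)) (M 18 (L 38 10))))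
  (M 18 (L 38 10))) (M 18 (L 38 10))) (out 1)) (M 18 (L 38 10)))) (A02 (A01 (A03 (M 1 (L 31 8))
  (B02 (M 1 (L 31 8)) (B12 (A23 (M 1 (L 31 8)) (B01 (M 4 (L 42 7)) (M 18 (L 38 10)))) (M 4 (L 42
  7))))) (A12 (M 18 (L 38 10)) (B02 (B01 (M 4 (L 42 7)) (A23 (B12 (M 18 (L 38 10)) (M 1 (L 31 8)))
  (B12 (M 18 (L 38 10)) (M 1 (L 31 8))))) (B12 (A23 (B01 (M 4 (L 42 7)) (M 18 (L 38 10))) (B01 (M 4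
  (L 42 7)) (M 18 (L 38 10)))) (M 4 (L 42 7)))))) (A12 (A01 (S 1 (L 5 8) (L 31 8)) (M 18 (L 38
  10))) (out 1))))) (B02 (B01 (S 3 (L 9 4) (L 49 4)) (A03 (B12 (S 1 (L 4 8) (L 31 8)) (M 1 (L 31
  8))) (M 18 (L 38 10)))) (B12 (A03 (B01 (A01 (M 1 (L 31 8)) (M 18 (L 38 10))) (S 1 (L 4 8) (L 31
  8))) (M 18 (L 38 10))) (A03 (A01 (A02 (M 1 (L 31 8)) (B02 (M 1 (L 31 8)) (B12 (A23 (B01 (M 4 (L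
  42 7)) (M 18 (L 38 10))) (M 1 (L 31 8))) (M 4 (L 42 7))))) (M 18 (L 38 10))) (M 18 (L 38
  10))))))))))) (M 15 (P 12 (A23 (A02 (M 11 (B02 (B01 (S 3 (L 9 4) (L 49 4)) (A01 (S 3 (L 9 4) (L
  49 4)) (out 1))) (B12 (A01 (M 1 (L 31 8)) (out 1)) (S 1 (L 5 8) (L 31 8))))) (out 1)) (P 14 (M 11
  (A13 (B02 (B01 (S 3 (L 9 4) (L 49 4)) (A01 (S 3 (L 9 4) (L 49 4)) (out 1))) (B12 (A01 (M 1 (L 31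
  8)) (out 1)) (S 1 (L 5 8) (L 31 8)))) (B02 (S 3 (L 9 4) (L 49 4)) (B12 (M 1 (L 31 8)) (A03 (A02
  (A01 (M 1 (L 31 8)) (B02 (M 1 (L 31 8)) (B12 (A13 (M 4 (L 42 7)) (M 1 (L 31 8))) (M 4 (L 42
  7))))) (A23 (out 1) (B02 (M 1 (L 31 8)) (B12 (A13 (M 4 (L 42 7)) (M 1 (L 31 8))) (M 4 (L 42
  7)))))) (A23 (A02 (B02 (M 1 (L 31 8)) (B12 (A01 (M 1 (L 31 8)) (M 4 (L 42 7))) (M 4 (L 42 7))))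
  (out 1)) (A13 (B02 (M 1 (L 31 8)) (M 18 (L 38 10))) (M 1 (L 31 8)))))))))))))))))) (P 16 (P 10
  (A13 (B12 (P 14 (M 11 (A12 (B01 (A01 (P 12 (A02 (M 18 (L 38 10)) (B02 (S 3 (L 9 4) (L 49 4)) (M
  18 (L 38 10))))) (A13 (B02 (A12 (M 18 (B01 (S 3 (L 9 4) (L 49 4)) (A01 (P 12 (L 38 10)) (A13 (B12
  (M 3 (L 49 4)) (P 12 (L 38 10))) (P 12 (L 38 10)))))) (P 12 (B01 (A02 (S 3 (L 9 4) (L 49 4)) (out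
  1)) (M 18 (L 38 10))))) (M 18 (A12 (A01 (P 12 (L 38 10)) (S 3 (L 9 4) (L 49 4))) (P 12 (L 38
  10))))) (P 12 (B02 (A23 (B01 (A02 (M 18 (L 38 10)) (out 1)) (M 18 (L 38 10))) (M 18 (L 38 10)))
  (M 18 (L 38 10)))))) (A01 (A02 (M 3 (L 49 4)) (B12 (M 3 (L 49 4)) (A23 (A12 (A13 (M 3 (L 49 4))
  (out 1)) (out 1)) (A13 (A12 (M 3 (L 49 4)) (out 1)) (out 1))))) (A13 (B12 (M 3 (L 49 4)) (A12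
  (A01 (A02 (M 3 (L 49 4)) (B02 (M 3 (L 49 4)) (M 6 (L 43 5)))) (S 3 (L 9 4) (L 49 4))) (A02 (A01
  (M 3 (L 49 4)) (out 1)) (out 1)))) (B12 (M 3 (L 49 4)) (A23 (A02 (A03 (M 3 (L 49 4)) (out 1))
  (out 1)) (A03 (A02 (M 3 (L 49 4)) (out 1)) (out 1))))))) (P 12 (B01 (A02 (A01 (B02 (S 3 (L 9 4)
  (L 49 4)) (M 18 (L 38 10))) (out 1)) (out 1)) (A02 (M 18 (L 38 10)) (out 1))))))) (A12 (P 14 (M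
  11 (A01 (P 12 (A02 (M 18 (L 38 10)) (B02 (B01 (A23 (A12 (M 18 (L 38 10)) (out 1)) (M 18 (L 38
  10))) (A23 (B12 (M 18 (L 38 10)) (A12 (M 18 (L 38 10)) (out 1))) (M 18 (L 38 10)))) (B12 (A23
  (B01 (A12 (M 18 (L 38 10)) (out 1)) (M 18 (L 38 10))) (M 18 (L 38 10))) (A23 (A12 (M 18 (L 38
  10)) (out 1)) (M 18 (L 38 10))))))) (A13 (B02 (B01 (A12 (M 18 (S 3 (L 11 4) (L 49 4))) (A02 (S 3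
  (L 9 4) (L 49 4)) (out 1))) (A12 (M 18 (B12 (A01 (P 12 (L 38 10)) (S 3 (L 9 4) (L 49 4))) (S 3 (L
  11 4) (L 49 4)))) (P 12 (B12 (M 18 (L 38 10)) (A02 (S 1 (L 4 8) (L 31 8)) (out 1)))))) (B12 (A12
  (M 18 (B01 (S 1 (L 4 8) (L 31 8)) (A01 (P 12 (L 38 10)) (M 6 (L 43 5))))) (P 12 (B01 (A02 (S 1 (L
  4 8) (L 31 8)) (out 1)) (M 18 (L 38 10))))) (A12 (S 1 (L 4 8) (L 31 8)) (A02 (S 1 (L 4 8) (L 31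
  8)) (out 1))))) (P 12 (B02 (B01 (A23 (A02 (M 18 (L 38 10)) (out 1)) (M 18 (L 38 10))) (A23 (B12
  (M 18 (L 38 10)) (A02 (M 18 (L 38 10)) (out 1))) (M 18 (L 38 10)))) (B12 (A23 (B01 (A02 (M 18 (L
  38 10)) (out 1)) (M 18 (L 38 10))) (M 18 (L 38 10))) (A23 (A02 (M 18 (L 38 10)) (out 1)) (M 18 (L
  38 10)))))))))) (P 12 (A02 (P 14 (M 11 (A01 (B02 (B01 (A03 (S 3 (L 9 4) (L 49 4)) (out 1)) (A03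
  (M 1 (L 31 8)) (out 1))) (B12 (A03 (B01 (A02 (A01 (B02 (M 1 (L 31 8)) (M 18 (L 38 10))) (B02 (M 1
  (L 31 8)) (M 18 (L 38 10)))) (out 1)) (M 18 (L 38 10))) (out 1)) (A03 (A02 (A01 (B02 (B01 (A03 (M
  1 (L 31 8)) (A23 (M 1 (L 31 8)) (M 18 (L 38 10)))) (M 18 (L 38 10))) (M 18 (L 38 10))) (B02 (B01
  (M 4 (L 42 7)) (M 18 (L 38 10))) (M 18 (L 38 10)))) (out 1)) (out 1)))) (out 1)))) (out 1))))) (P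
  12 (B12 (M 11 (A23 (B01 (A02 (A03 (B02 (S 3 (L 9 4) (L 49 4)) (M 18 (L 38 10))) (out 1)) (out 1))
  (A02 (M 18 (L 38 10)) (out 1))) (B01 (A03 (A02 (B02 (S 3 (L 9 4) (L 49 4)) (M 18 (L 38 10))) (out
  1)) (out 0)) (M 18 (L 38 10))))) (A23 (A02 (M 11 (A03 (B02 (B01 (A01 (S 3 (L 9 4) (L 49 4)) (out
  1)) (A01 (M 1 (L 31 8)) (out 1))) (B12 (A01 (B01 (A02 (A03 (B02 (M 1 (L 31 8)) (M 18 (L 38 10)))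
  (out 1)) (out 1)) (M 18 (L 38 10))) (out 1)) (A01 (A02 (A03 (B02 (B01 (A01 (M 1 (L 31 8)) (A12 (M
  18 (L 38 10)) (M 1 (L 31 8)))) (M 18 (L 38 10))) (M 18 (L 38 10))) (out 1)) (out 1)) (out 1))))
  (out 1))) (out 1)) (A03 (A02 (B02 (B01 (A01 (M 1 (L 31 8)) (out 1)) (A01 (M 1 (L 31 8)) (out 1)))
  (B12 (A01 (B01 (A03 (A02 (M 18 (L 38 10)) (out 1)) (out 1)) (M 18 (L 38 10))) (out 1)) (A01 (A03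
  (A02 (M 18 (L 38 10)) (out 1)) (out 1)) (out 1)))) (out 1)) (out 0)))))))))))))))))

/-- its cell -/
def cI5 : Cell :=
  ⟨0, 0, 0, 0, 1114112, 0, 1114112, 1114112, 0, 1114112, 1114112, 1114112, 0, 0, 0, 5070848, 3129344, 0⟩

theorem okI5 : check datI tI5 cI5 0 0 = true := by
  decide +kernel

end Pool.Agent.H315.NW
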