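import Pool.Agent.H315.NW.Data

/-!
# Project NW (helper315): certificates (generated)
-/

set_option autoImplicit false
set_option maxRecDepth 100000

namespace Pool.Agent.H315.NW

open Tr

/-- a part of the certificate -/
def tI6 : Tr :=
  (M 17 (P 8 (P 0 (A03 (M 18 (A02 (A01 (P 14 (M 11 (P 4 (M 3 (A03 (A02 (B12 (P 15 (M 12 (A01 (M 16
  (P 13 (B01 (A03 (out 10) (A13 (out 11) (B02 (A23 (out 11) (B01 (M 1 (L 45 7)) (A03 (out 11) (A13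
  (out 11) (B12 (A23 (M 19 (L 41 10)) (S 2 (L 8 2) (L 25 2))) (S 10 (L 32 1) (L 2 1))))))) (P 10
  (A23 (out 11) (A03 (out 11) (A13 (out 11) (S 1 (L 4 1) (L 31 1))))))))) (M 19 (A03 (out 10) (A13
  (out 11) (B12 (M 2 (A23 (out 11) (L 25 2))) (A23 (out 11) (A03 (out 11) (A13 (out 11) (K
  [(41,10,4),(41,5,4)] []))))))))))) (B01 (A13 (out 11) (A03 (out 11) (B02 (M 16 (P 13 (A23 (out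
  11) (B01 (M 1 (L 45 7)) (A13 (out 11) (A03 (out 11) (B12 (A23 (M 19 (L 41 10)) (S 2 (L 8 2) (L 25
  2))) (S 2 (L 7 4) (L 25 4))))))))) (P 10 (A23 (out 11) (A13 (out 11) (A03 (out 11) (S 1 (L 4 1)
  (L 31 1))))))))) (P 10 (A13 (out 11) (A03 (out 11) (B12 (A23 (out 11) (S 2 (L 7 2) (L 25 2)))
  (A23 (out 11) (A13 (out 11) (A03 (out 11) (B02 (B01 (S 1 (L 4 1) (L 31 1)) (S 2 (L 7 4) (L 25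
  4))) (S 2 (L 7 4) (L 25 4)))))))))))))) (A01 (A03 (out 10) (A13 (out 11) (P 13 (B02 (B01 (A23
  (out 11) (M 1 (A03 (out 11) (A13 (out 11) (B02 (P 15 (L 45 7)) (S 10 (L 31 1) (L 2 1))))))) (P 10
  (A23 (out 11) (B12 (P 15 (A03 (out 11) (M 5 (L 46 7)))) (M 1 (L 31 1)))))) (P 10 (B12 (A23 (out
  11) (B01 (M 1 (L 31 1)) (P 15 (A03 (out 11) (M 5 (L 46 7)))))) (M 5 (L 40 5)))))))) (A13 (out 11)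
  (A03 (out 11) (B02 (B01 (A23 (out 11) (M 1 (A13 (out 11) (A03 (out 11) (B02 (P 15 (L 45 7)) (S 10
  (L 31 1) (L 2 1))))))) (P 10 (A23 (out 11) (M 5 (B12 (P 15 (L 46 7)) (M 1 (L 31 1))))))) (P 10
  (B12 (A23 (out 11) (M 5 (B01 (M 1 (L 31 1)) (P 15 (L 46 7))))) (A23 (out 11) (M 1 (L 31
  1)))))))))) (B12 (P 15 (M 12 (A12 (B01 (A13 (out 11) (A23 (out 11) (B02 (P 13 (A03 (out 11) (B01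
  (S 2 (L 7 4) (L 25 4)) (A13 (out 11) (A23 (P 10 (S 1 (L 4 1) (L 31 1))) (B12 (A03 (M 19 (L 41
  10)) (S 2 (L 7 4) (L 25 4))) (S 2 (L 7 4) (L 25 4)))))))) (P 10 (A03 (out 11) (A13 (out 11) (S 1
  (L 4 1) (L 31 1)))))))) (A13 (out 11) (A23 (out 11) (B12 (A03 (out 11) (S 2 (L 7 2) (L 25 2)))
  (A03 (out 11) (A13 (out 11) (S 2 (L 7 4) (L 25 4)))))))) (B01 (A23 (M 19 (A02 (B02 (S 1 (L 4 1)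
  (L 45 1)) (A01 (S 1 (L 4 1) (L 45 1)) (A13 (out 11) (P 13 (L 41 5))))) (B02 (S 1 (L 4 1) (L 45
  1)) (A12 (A13 (out 11) (P 13 (L 41 5))) (P 13 (L 41 5)))))) (A13 (M 19 (P 10 (B02 (S 1 (L 4 1) (L
  31 1)) (A01 (S 1 (L 4 1) (L 45 1)) (A12 (out 11) (P 13 (L 41 5))))))) (B02 (A03 (B01 (A02 (out
  11) (S 2 (L 7 4) (L 25 4))) (S 1 (L 4 1) (L 45 1))) (B01 (S 2 (L 7 4) (L 25 4)) (A23 (S 1 (L 4 1)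
  (L 45 1)) (A13 (P 10 (S 1 (L 4 1) (L 31 1))) (B12 (A03 (P 10 (S 1 (L 4 1) (L 31 1))) (S 2 (L 7 4)
  (L 25 4))) (S 2 (L 7 4) (L 25 4))))))) (P 10 (S 1 (L 4 1) (L 31 1)))))) (A23 (A02 (B12 (M 2 (K
  [(25,4,5),(25,2,3)] [])) (S 2 (L 7 4) (L 25 4))) (S 2 (L 7 4) (L 25 4))) (A13 (B12 (M 2 (K
  [(25,4,5),(25,2,3)] [])) (S 2 (L 7 4) (L 25 4))) (B12 (M 2 (K [(25,4,4),(25,2,4)] [])) (S 2 (L 7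
  4) (L 25 4))))))))) (A12 (A13 (out 11) (A23 (out 11) (B02 (B01 (A03 (out 11) (M 1 (A13 (out 11)
  (A23 (M 12 (S 2 (L 7 4) (L 25 4))) (B02 (P 15 (L 45 7)) (S 10 (L 31 1) (L 2 1))))))) (P 10 (A03
  (out 11) (M 5 (B12 (P 15 (L 46 7)) (M 1 (L 31 1))))))) (P 10 (B12 (A03 (out 11) (M 5 (B01 (M 1 (L
  31 1)) (P 15 (L 46 7))))) (A03 (out 11) (M 1 (L 31 1)))))))) (A23 (M 19 (P 15 (P 10 (A02 (B02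
  (B01 (A01 (S 1 (L 4 1) (L 45 1)) (A13 (out 11) (S 1 (L 4 1) (L 31 1)))) (A01 (S 1 (L 4 1) (L 45
  1)) (B12 (A13 (out 11) (P 13 (L 41 5))) (A13 (out 11) (P 13 (L 41 5)))))) (B12 (A01 (B01 (A03
  (out 11) (M 5 (L 46 7))) (A03 (out 11) (A13 (out 11) (P 13 (L 41 5))))) (B01 (M 5 (L 46 7)) (A13
  (out 11) (A03 (out 11) (B12 (A23 (out 11) (B01 (M 5 (L 46 7)) (M 6 (L 43 10)))) (M 5 (L 46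
  7))))))) (M 5 (L 46 7)))) (B02 (B01 (A12 (A13 (out 11) (A23 (out 11) (S 1 (L 4 1) (L 31 1))))
  (A23 (A02 (B02 (S 1 (L 4 1) (L 45 1)) (B12 (P 13 (L 41 5)) (M 5 (L 46 7)))) (B02 (S 1 (L 4 1) (L
  45 1)) (B12 (P 13 (L 41 5)) (M 5 (L 46 7))))) (A13 (B02 (S 1 (L 4 1) (L 45 1)) (B12 (P 13 (L 41
  5)) (M 5 (L 46 7)))) (S 1 (L 4 1) (L 45 1))))) (A12 (B12 (A13 (out 11) (P 13 (L 41 5))) (A13 (out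
  11) (A23 (out 11) (P 13 (L 41 5))))) (B12 (P 13 (L 41 5)) (A23 (A02 (B02 (P 13 (L 41 5)) (M 5 (L
  46 7))) (B02 (P 13 (L 41 5)) (M 5 (L 46 7)))) (A13 (B02 (P 13 (L 41 5)) (M 5 (L 46 7))) (P 13 (L
  41 5))))))) (B12 (A12 (B01 (M 5 (L 46 7)) (A13 (out 11) (A23 (out 11) (B12 (A03 (out 11) (B01 (M
  5 (L 46 7)) (M 6 (L 43 10)))) (M 5 (L 46 7)))))) (B01 (M 5 (L 46 7)) (A23 (M 6 (L 43 10)) (A13 (M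
  6 (L 43 10)) (B12 (P 13 (L 41 5)) (M 5 (L 46 7))))))) (M 5 (L 46 7)))))))) (A13 (M 19 (P 15 (P 10
  (B02 (B01 (A01 (S 1 (L 4 1) (L 31 1)) (M 5 (L 46 7))) (A01 (S 1 (L 4 1) (L 31 1)) (M 5 (L 46
  7)))) (B12 (A01 (B01 (A02 (out 11) (M 5 (L 46 7))) (A02 (out 11) (A12 (out 11) (B12 (P 13 (L 41
  5)) (M 5 (L 46 7)))))) (M 5 (L 46 7))) (M 5 (L 46 7))))))) (B02 (B01 (A03 (M 12 (A02 (out 11) (S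
  2 (L 7 4) (L 25 4)))) (M 1 (A23 (M 12 (S 2 (L 7 4) (L 25 4))) (A13 (M 12 (S 2 (L 7 4) (L 25 4)))
  (B02 (M 12 (S 2 (L 7 4) (L 25 4))) (S 10 (L 31 1) (L 2 1))))))) (P 10 (A03 (S 1 (L 4 1) (L 31 1))
  (S 1 (L 4 1) (L 31 1))))) (M 19 (P 10 (B12 (A03 (P 15 (B01 (A02 (out 11) (M 5 (L 46 7))) (A02
  (out 11) (A23 (B12 (P 13 (L 41 5)) (M 5 (L 46 7))) (B12 (P 13 (L 41 5)) (M 5 (L 46 7))))))) (M 5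
  (B01 (M 1 (L 31 1)) (P 15 (L 46 7))))) (M 5 (A03 (P 15 (L 46 7)) (M 1 (L 31 1))))))))))))) (A13
  (B12 (P 15 (M 12 (A12 (B01 (A01 (A02 (B02 (A03 (B01 (M 5 (L 46 7)) (A01 (A02 (S 2 (L 7 4) (L 25
  4)) (P 10 (S 1 (L 4 1) (L 31 1)))) (P 10 (S 1 (L 4 1) (L 31 1))))) (P 10 (B01 (M 1 (L 31 1)) (A13
  (S 1 (L 4 1) (L 31 1)) (A23 (S 1 (L 4 1) (L 31 1)) (M 5 (L 46 7))))))) (M 19 (P 10 (A03 (A01 (S 1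
  (L 4 1) (L 31 1)) (A13 (out 11) (B12 (S 1 (L 4 1) (L 31 1)) (M 5 (L 46 7))))) (A13 (A01 (B12 (P
  13 (L 41 5)) (M 5 (L 46 7))) (out 11)) (A23 (B12 (P 13 (L 41 5)) (M 5 (L 46 7))) (M 5 (L 46
  7)))))))) (M 19 (B02 (A23 (out 11) (B01 (M 5 (L 46 7)) (A13 (out 11) (A03 (B12 (S 1 (L 4 1) (L 45
  1)) (M 5 (L 46 7))) (M 5 (L 46 7)))))) (A23 (out 11) (A13 (out 11) (A03 (B12 (B01 (M 5 (L 46 7))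
  (A02 (P 13 (L 41 5)) (M 5 (L 46 7)))) (M 5 (L 46 7))) (M 5 (L 46 7)))))))) (A13 (out 11) (B02
  (A23 (out 11) (M 5 (L 46 7))) (A23 (out 11) (M 5 (L 46 7)))))) (M 19 (A01 (A02 (B12 (A03 (P 13
  (B01 (S 2 (L 7 4) (L 25 4)) (K [(41,5,6),(41,10,2)] []))) (B01 (A13 (A01 (B02 (P 13 (L 41 5))
  (A02 (A03 (P 13 (L 41 5)) (M 6 (L 43 10))) (M 6 (L 43 10)))) (out 11)) (A23 (B02 (P 13 (L 41 5))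
  (A02 (A01 (P 13 (L 41 5)) (M 6 (L 43 10))) (M 6 (L 43 10)))) (M 5 (L 46 7)))) (S 13 (L 41 5) (L
  13 5)))) (A03 (A01 (S 2 (L 7 4) (L 25 4)) (A13 (out 11) (B02 (S 2 (L 7 4) (L 25 4)) (B12 (P 13 (L
  41 5)) (M 5 (L 46 7)))))) (A13 (A01 (B02 (B01 (P 13 (L 41 5)) (A02 (M 5 (L 46 7)) (M 6 (L 43
  10)))) (B12 (A02 (M 5 (L 46 7)) (M 6 (L 43 10))) (M 5 (L 46 7)))) (out 11)) (A23 (B02 (B01 (P 13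
  (L 41 5)) (A02 (M 5 (L 46 7)) (M 6 (L 43 10)))) (B12 (A02 (M 5 (L 46 7)) (M 6 (L 43 10))) (M 5 (L
  46 7)))) (M 5 (L 46 7)))))) (B12 (A23 (out 11) (B01 (A13 (out 11) (A03 (M 6 (L 43 10)) (B02 (P 13
  (L 41 5)) (M 6 (L 43 10))))) (S 13 (L 41 5) (L 13 5)))) (A23 (out 11) (A13 (out 11) (A03 (M 6 (L
  43 10)) (M 5 (L 46 7))))))) (A13 (out 11) (B12 (A23 (out 11) (B01 (A03 (out 11) (A13 (out 11)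
  (B02 (A23 (M 6 (L 43 10)) (M 5 (L 46 7))) (M 6 (L 43 10))))) (S 13 (L 41 5) (L 13 5)))) (A23 (out
  11) (M 5 (L 46 7)))))))) (B01 (A02 (A01 (B02 (A03 (B01 (M 5 (L 46 7)) (A02 (A01 (S 2 (L 7 4) (L
  25 4)) (P 10 (S 1 (L 4 1) (L 31 1)))) (P 10 (S 1 (L 4 1) (L 31 1))))) (P 10 (B01 (M 1 (L 31 1))
  (A23 (S 1 (L 4 1) (L 31 1)) (A13 (S 1 (L 4 1) (L 31 1)) (M 5 (L 46 7))))))) (M 19 (P 10 (A03 (S 1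
  (L 4 1) (L 31 1)) (A23 (P 13 (L 41 5)) (A13 (B12 (P 13 (L 41 5)) (M 5 (L 46 7))) (M 5 (L 46
  7)))))))) (M 19 (B02 (A13 (B01 (M 5 (L 46 7)) (A12 (out 11) (A23 (S 1 (L 4 1) (L 45 1)) (B12 (S 1
  (L 4 1) (L 45 1)) (M 5 (L 46 7)))))) (B01 (M 5 (L 46 7)) (A23 (A12 (B12 (S 1 (L 4 1) (L 45 1)) (M
  5 (L 46 7))) (S 1 (L 4 1) (L 45 1))) (A03 (B12 (S 1 (L 4 1) (L 45 1)) (M 5 (L 46 7))) (M 5 (L 46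
  7)))))) (A13 (A12 (out 11) (A23 (P 13 (L 41 5)) (B12 (B01 (A03 (P 13 (L 41 5)) (B02 (M 5 (L 46
  7)) (M 6 (L 43 10)))) (M 6 (L 43 10))) (B02 (A03 (P 13 (L 41 5)) (B01 (M 5 (L 46 7)) (M 6 (L 43
  10)))) (M 6 (L 43 10)))))) (A23 (A12 (B12 (B01 (M 5 (L 46 7)) (A01 (P 13 (L 41 5)) (A13 (M 6 (L
  43 10)) (P 13 (L 41 5))))) (M 5 (L 46 7))) (P 13 (L 41 5))) (A03 (B12 (B01 (M 5 (L 46 7)) (A01 (P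
  13 (L 41 5)) (M 5 (L 46 7)))) (M 5 (L 46 7))) (M 5 (L 46 7)))))))) (M 19 (A23 (B02 (S 1 (L 4 1)
  (L 45 1)) (A12 (A01 (A02 (B12 (P 13 (L 41 5)) (B02 (P 13 (L 41 5)) (M 6 (L 43 10)))) (M 6 (L 43
  10))) (M 6 (L 43 10))) (A02 (A01 (B12 (P 13 (L 41 5)) (B02 (P 13 (L 41 5)) (M 6 (L 43 10)))) (M 6
  (L 43 10))) (M 6 (L 43 10))))) (B02 (A13 (B01 (M 5 (L 46 7)) (A01 (A03 (S 1 (L 4 1) (L 45 1))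
  (B12 (P 13 (L 41 5)) (M 5 (L 46 7)))) (A12 (out 11) (B12 (P 13 (L 41 5)) (M 5 (L 46 7)))))) (B01
  (M 5 (L 46 7)) (A03 (A01 (S 1 (L 4 1) (L 45 1)) (B12 (P 13 (L 41 5)) (M 5 (L 46 7)))) (M 5 (L 46
  7))))) (A13 (A01 (A03 (B12 (P 13 (L 41 5)) (B02 (P 13 (L 41 5)) (M 6 (L 43 10)))) (B12 (B01 (A23
  (P 13 (L 41 5)) (B02 (M 5 (L 46 7)) (M 6 (L 43 10)))) (M 6 (L 43 10))) (B02 (A23 (B01 (M 5 (L 46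
  7)) (M 6 (L 43 10))) (B01 (M 5 (L 46 7)) (M 6 (L 43 10)))) (M 6 (L 43 10))))) (M 6 (L 43 10)))
  (A03 (A01 (B12 (P 13 (L 41 5)) (B02 (P 13 (L 41 5)) (A02 (P 13 (L 41 5)) (M 5 (L 46 7))))) (B12
  (B01 (M 5 (L 46 7)) (A12 (A13 (M 6 (L 43 10)) (P 13 (L 41 5))) (P 13 (L 41 5)))) (M 5 (L 46 7))))
  (M 5 (L 46 7)))))))) (M 19 (P 10 (A02 (A01 (B12 (A03 (P 13 (B01 (S 1 (L 4 1) (L 31 1)) (K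
  [(41,5,19),(41,10,5)] []))) (B01 (A23 (P 13 (L 41 5)) (A13 (P 13 (L 41 5)) (B02 (P 13 (L 41 5))
  (A03 (P 13 (L 41 5)) (M 6 (L 43 10)))))) (S 2 (L 7 4) (L 25 4)))) (A03 (S 1 (L 4 1) (L 31 1))
  (A23 (P 13 (L 41 5)) (A13 (B02 (P 13 (L 41 5)) (B12 (P 13 (L 41 5)) (M 5 (L 46 7)))) (M 5 (L 46
  7)))))) (B12 (A13 (S 2 (L 7 4) (L 25 4)) (B01 (A23 (M 6 (L 43 10)) (A03 (M 6 (L 43 10)) (B02 (P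
  13 (L 41 5)) (M 6 (L 43 10))))) (S 2 (L 7 4) (L 25 4)))) (A13 (M 6 (L 43 10)) (A23 (M 6 (L 43
  10)) (A03 (M 6 (L 43 10)) (M 5 (L 46 7))))))) (A23 (S 2 (L 7 4) (L 25 4)) (B12 (A13 (S 2 (L 7 4)
  (L 25 4)) (B01 (A03 (M 6 (L 43 10)) (A23 (M 6 (L 43 10)) (B02 (P 13 (L 41 5)) (M 6 (L 43 10)))))
  (S 2 (L 7 4) (L 25 4)))) (A13 (M 6 (L 43 10)) (A03 (M 6 (L 43 10)) (A23 (M 6 (L 43 10)) (M 5 (L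
  46 7)))))))))))))) (A12 (M 5 (A01 (A02 (B02 (B01 (M 1 (A03 (S 10 (L 31 1) (L 2 1)) (P 10 (L 31
  1)))) (P 10 (A03 (B12 (P 15 (L 46 7)) (M 1 (L 31 1))) (B12 (P 15 (L 46 7)) (M 1 (L 31 1)))))) (P
  10 (B12 (A03 (B01 (M 1 (L 31 1)) (P 15 (L 46 7))) (B01 (M 1 (L 31 1)) (P 15 (L 46 7)))) (M 1 (L
  31 1))))) (P 10 (B02 (B01 (A23 (out 11) (A13 (out 11) (A03 (P 15 (L 46 7)) (B02 (B01 (M 1 (L 31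
  1)) (A23 (P 15 (L 46 7)) (M 1 (L 31 1)))) (B12 (A23 (P 15 (L 46 7)) (M 1 (L 31 1))) (M 1 (L 31
  1))))))) (A23 (out 11) (B12 (P 15 (L 46 7)) (A13 (out 11) (A03 (P 15 (L 46 7)) (B02 (P 15 (L 46
  7)) (A23 (P 15 (L 46 7)) (M 1 (L 31 1))))))))) (B12 (A23 (out 11) (B01 (A13 (out 11) (A03 (P 15
  (L 46 7)) (P 16 (L 49 8)))) (P 15 (L 46 7)))) (A23 (out 11) (A13 (out 11) (A03 (B02 (B01 (A02 (M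
  1 (L 31 1)) (P 16 (L 49 8))) (A02 (B12 (P 15 (L 46 7)) (M 1 (L 31 1))) (P 16 (L 49 8)))) (P 16 (L
  49 8))) (P 16 (L 49 8))))))))) (P 10 (A13 (out 11) (B02 (B01 (A23 (out 11) (A03 (out 11) (A13
  (out 11) (B02 (B01 (M 1 (L 31 1)) (A23 (P 15 (L 46 7)) (M 1 (L 31 1)))) (B12 (A23 (P 15 (L 46 7))
  (M 1 (L 31 1))) (M 1 (L 31 1))))))) (A23 (out 11) (B12 (P 15 (L 46 7)) (A03 (out 11) (A13 (out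
  11) (B02 (P 15 (L 46 7)) (P 16 (L 49 8)))))))) (B12 (A23 (out 11) (B01 (A03 (out 11) (P 16 (L 49
  8))) (P 16 (L 49 8)))) (A23 (out 11) (A03 (out 11) (P 16 (L 49 8)))))))))) (A02 (M 5 (A01 (B02
  (B01 (M 1 (A03 (S 10 (L 31 1) (L 2 1)) (P 10 (L 31 1)))) (P 10 (A03 (S 1 (L 4 1) (L 31 1)) (B12
  (P 15 (L 46 7)) (M 1 (L 31 1)))))) (P 10 (B12 (A03 (B01 (M 1 (L 31 1)) (P 15 (L 46 7))) (B01 (M 1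
  (L 31 1)) (P 15 (L 46 7)))) (M 1 (L 31 1))))) (P 10 (B02 (B01 (A13 (P 15 (L 46 7)) (A23 (P 15 (L
  46 7)) (A03 (P 15 (L 46 7)) (B02 (B01 (M 1 (L 31 1)) (A13 (P 15 (L 46 7)) (M 1 (L 31 1)))) (B12
  (A13 (P 15 (L 46 7)) (M 1 (L 31 1))) (M 1 (L 31 1))))))) (A13 (P 15 (L 46 7)) (B12 (P 15 (L 46
  7)) (A23 (P 15 (L 46 7)) (A03 (P 15 (L 46 7)) (B02 (P 15 (L 46 7)) (A13 (P 15 (L 46 7)) (M 1 (L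
  31 1))))))))) (B12 (A13 (P 15 (L 46 7)) (B01 (A23 (P 15 (L 46 7)) (A03 (P 15 (L 46 7)) (B02 (A13
  (P 15 (L 46 7)) (M 1 (L 31 1))) (A13 (P 15 (L 46 7)) (A23 (P 15 (L 46 7)) (P 16 (L 49 8))))))) (P
  15 (L 46 7)))) (A13 (P 15 (L 46 7)) (A23 (A12 (B02 (P 15 (L 46 7)) (P 16 (L 49 8))) (B02 (P 15 (L
  46 7)) (B12 (P 15 (L 46 7)) (M 1 (L 31 1))))) (A03 (B02 (B01 (A01 (M 1 (L 31 1)) (P 16 (L 49 8)))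
  (A01 (B12 (P 15 (L 46 7)) (M 1 (L 31 1))) (P 16 (L 49 8)))) (P 16 (L 49 8))) (P 16 (L 49
  8)))))))))) (M 19 (P 10 (A23 (P 15 (B02 (B01 (A12 (M 5 (L 46 7)) (A02 (M 5 (L 46 7)) (A23 (B02 (S
  1 (L 4 1) (L 45 1)) (B12 (P 13 (L 41 5)) (M 5 (L 46 7)))) (M 5 (L 46 7))))) (A12 (M 5 (L 46 7))
  (B12 (A02 (A01 (B01 (M 5 (L 46 7)) (A03 (P 13 (L 41 5)) (M 6 (L 43 10)))) (M 6 (L 43 10))) (M 6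
  (L 43 10))) (A02 (M 5 (L 46 7)) (A23 (B02 (P 13 (L 41 5)) (M 5 (L 46 7))) (M 5 (L 46 7)))))))
  (B12 (A12 (M 5 (L 46 7)) (B01 (M 5 (L 46 7)) (A02 (A01 (B12 (A03 (P 13 (L 41 5)) (M 6 (L 43 10)))
  (M 5 (L 46 7))) (M 6 (L 43 10))) (M 6 (L 43 10))))) (M 5 (L 46 7))))) (M 5 (B02 (B01 (A13 (P 15
  (L 46 7)) (A03 (P 15 (L 46 7)) (A23 (P 15 (L 46 7)) (B02 (B01 (M 1 (L 31 1)) (A13 (P 15 (L 46 7))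
  (M 1 (L 31 1)))) (B12 (A13 (P 15 (L 46 7)) (M 1 (L 31 1))) (M 1 (L 31 1))))))) (A13 (P 15 (L 46
  7)) (B12 (P 15 (L 46 7)) (A03 (P 15 (L 46 7)) (A23 (P 15 (L 46 7)) (B02 (P 15 (L 46 7)) (A13 (P
  15 (L 46 7)) (M 1 (L 31 1))))))))) (B12 (A13 (P 15 (L 46 7)) (B01 (A03 (P 15 (L 46 7)) (A23 (P 15
  (L 46 7)) (B02 (A13 (P 15 (L 46 7)) (M 1 (L 31 1))) (A13 (P 15 (L 46 7)) (A03 (P 15 (L 46 7)) (P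
  16 (L 49 8))))))) (P 15 (L 46 7)))) (A13 (P 15 (L 46 7)) (A03 (A01 (B02 (P 15 (L 46 7)) (B12 (P
  15 (L 46 7)) (A02 (A03 (P 15 (L 46 7)) (P 16 (L 49 8))) (P 16 (L 49 8))))) (B02 (P 15 (L 46 7))
  (P 16 (L 49 8)))) (P 16 (L 49 8))))))))))))) (B12 (A23 (P 15 (M 12 (B01 (A02 (A03 (B02 (A01 (B01
  (M 5 (L 46 7)) (A02 (S 2 (L 7 4) (L 25 4)) (P 10 (S 1 (L 4 1) (L 31 1))))) (B01 (M 5 (L 46 7)) (P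
  10 (A12 (M 5 (L 46 7)) (S 1 (L 4 1) (L 31 1)))))) (M 19 (P 10 (A01 (S 1 (L 4 1) (L 31 1)) (A12 (M
  5 (L 46 7)) (P 13 (L 41 5))))))) (B02 (A13 (B01 (M 5 (L 46 7)) (P 10 (A12 (M 5 (L 46 7)) (S 1 (L
  4 1) (L 31 1))))) (B01 (M 5 (L 46 7)) (P 10 (S 1 (L 4 1) (L 31 1))))) (M 19 (A13 (A12 (M 5 (L 46
  7)) (A23 (P 13 (L 41 5)) (M 5 (L 46 7)))) (A23 (A12 (B12 (P 13 (L 41 5)) (M 5 (L 46 7))) (P 13 (L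
  41 5))) (A03 (B12 (P 13 (L 41 5)) (M 5 (L 46 7))) (B12 (P 13 (L 41 5)) (M 5 (L 46 7))))))))) (M
  19 (P 10 (A12 (B02 (A13 (B01 (M 5 (L 46 7)) (A01 (S 1 (L 4 1) (L 31 1)) (M 5 (L 46 7)))) (S 1 (L
  4 1) (L 31 1))) (A13 (A01 (A03 (B12 (P 13 (L 41 5)) (B02 (P 13 (L 41 5)) (A02 (P 13 (L 41 5)) (M
  5 (L 46 7))))) (M 5 (L 46 7))) (M 5 (L 46 7))) (A03 (A01 (B12 (P 13 (L 41 5)) (B02 (P 13 (L 41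
  5)) (A02 (P 13 (L 41 5)) (M 5 (L 46 7))))) (B12 (P 13 (L 41 5)) (M 5 (L 46 7)))) (A23 (B12 (P 13
  (L 41 5)) (M 5 (L 46 7))) (B12 (P 13 (L 41 5)) (M 5 (L 46 7))))))) (B02 (S 1 (L 4 1) (L 45 1))
  (A23 (A02 (A03 (B12 (P 13 (L 41 5)) (B02 (P 13 (L 41 5)) (M 6 (L 43 10)))) (B12 (P 13 (L 41 5))
  (B02 (P 13 (L 41 5)) (M 6 (L 43 10))))) (A12 (B12 (P 13 (L 41 5)) (B02 (P 13 (L 41 5)) (M 6 (L 43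
  10)))) (P 13 (L 41 5)))) (A03 (A02 (B12 (P 13 (L 41 5)) (B02 (P 13 (L 41 5)) (A01 (P 13 (L 41 5))
  (A13 (M 6 (L 43 10)) (P 13 (L 41 5)))))) (B12 (P 13 (L 41 5)) (B02 (P 13 (L 41 5)) (A12 (A13 (M 6
  (L 43 10)) (P 13 (L 41 5))) (P 13 (L 41 5)))))) (A13 (B12 (P 13 (L 41 5)) (B02 (P 13 (L 41 5))
  (A12 (M 5 (L 46 7)) (P 13 (L 41 5))))) (P 13 (L 41 5)))))))))) (M 19 (P 10 (A02 (A03 (B12 (A01 (P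
  13 (B01 (S 1 (L 4 1) (L 31 1)) (K [(41,5,19),(41,10,5)] []))) (B01 (A12 (A13 (B02 (P 13 (L 41 5))
  (A01 (P 13 (L 41 5)) (M 6 (L 43 10)))) (P 13 (L 41 5))) (P 13 (L 41 5))) (S 2 (L 7 4) (L 25 4))))
  (A01 (S 1 (L 4 1) (L 31 1)) (A12 (M 5 (L 46 7)) (P 13 (L 41 5))))) (B12 (A13 (B01 (A12 (A01 (P 13
  (L 41 5)) (B02 (P 13 (L 41 5)) (M 6 (L 43 10)))) (P 13 (L 41 5))) (M 6 (L 43 10))) (P 13 (L 41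
  5))) (A13 (A12 (M 5 (L 46 7)) (A23 (P 13 (L 41 5)) (B02 (P 13 (L 41 5)) (B12 (P 13 (L 41 5)) (M 5
  (L 46 7)))))) (A23 (A12 (B02 (P 13 (L 41 5)) (B12 (P 13 (L 41 5)) (M 5 (L 46 7)))) (P 13 (L 41
  5))) (A03 (B02 (P 13 (L 41 5)) (B12 (P 13 (L 41 5)) (M 5 (L 46 7)))) (B02 (P 13 (L 41 5)) (B12 (P
  13 (L 41 5)) (M 5 (L 46 7))))))))) (A12 (B12 (A13 (B01 (A01 (P 13 (L 41 5)) (A12 (B02 (P 13 (L 41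
  5)) (M 6 (L 43 10))) (P 13 (L 41 5)))) (M 6 (L 43 10))) (P 13 (L 41 5))) (A13 (A01 (A03 (B02 (P
  13 (L 41 5)) (M 6 (L 43 10))) (B02 (P 13 (L 41 5)) (B12 (P 13 (L 41 5)) (M 5 (L 46 7))))) (A12 (M
  5 (L 46 7)) (B02 (P 13 (L 41 5)) (B12 (A23 (M 6 (L 43 10)) (M 5 (L 46 7))) (M 5 (L 46 7))))))
  (A03 (A01 (B02 (P 13 (L 41 5)) (M 6 (L 43 10))) (B02 (P 13 (L 41 5)) (B12 (P 13 (L 41 5)) (M 5 (L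
  46 7))))) (A23 (B02 (P 13 (L 41 5)) (B12 (P 13 (L 41 5)) (M 5 (L 46 7)))) (B02 (P 13 (L 41 5))
  (B12 (P 13 (L 41 5)) (M 5 (L 46 7)))))))) (B12 (P 13 (L 41 5)) (A23 (M 6 (L 43 10)) (A03 (A02
  (B02 (P 13 (L 41 5)) (M 6 (L 43 10))) (B02 (P 13 (L 41 5)) (M 6 (L 43 10)))) (A13 (B02 (P 13 (L
  41 5)) (M 6 (L 43 10))) (P 13 (L 41 5))))))))))))) (B01 (A03 (A02 (B02 (M 1 (A01 (B01 (S 10 (L 31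
  1) (L 2 1)) (A03 (M 12 (S 2 (L 7 4) (L 25 4))) (S 10 (L 31 1) (L 2 1)))) (M 5 (B01 (A13 (A12 (P
  10 (L 31 1)) (S 10 (L 31 1) (L 2 1))) (S 10 (L 31 1) (L 2 1))) (A13 (P 15 (L 46 7)) (S 10 (L 31
  1) (L 2 1))))))) (P 10 (A01 (M 1 (L 31 1)) (M 5 (A13 (P 15 (L 46 7)) (M 1 (L 31 1))))))) (M 5
  (B02 (M 1 (A12 (B01 (A13 (A01 (S 10 (L 31 1) (L 2 1)) (P 10 (L 31 1))) (S 10 (L 31 1) (L 2 1)))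
  (A13 (P 15 (L 46 7)) (S 10 (L 31 1) (L 2 1)))) (S 10 (L 31 1) (L 2 1)))) (P 10 (A12 (A13 (P 15 (L
  46 7)) (A23 (P 15 (L 46 7)) (M 1 (L 31 1)))) (A23 (P 15 (L 46 7)) (A13 (P 15 (L 46 7)) (M 1 (L 31
  1))))))))) (M 5 (A13 (B02 (M 1 (A12 (B01 (A01 (A02 (B02 (S 10 (L 31 1) (L 2 1)) (A03 (S 10 (L 31
  1) (L 2 1)) (P 10 (L 31 1)))) (P 10 (L 31 1))) (P 10 (L 31 1))) (A01 (A02 (B12 (S 10 (L 31 1) (L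
  2 1)) (A03 (S 10 (L 31 1) (L 2 1)) (P 10 (L 31 1)))) (P 10 (L 31 1))) (P 10 (L 31 1)))) (B01 (A02
  (A01 (B02 (S 10 (L 31 1) (L 2 1)) (A03 (S 10 (L 31 1) (L 2 1)) (P 10 (L 31 1)))) (P 10 (L 31 1)))
  (P 10 (L 31 1))) (A02 (A01 (B12 (S 10 (L 31 1) (L 2 1)) (A03 (S 10 (L 31 1) (L 2 1)) (P 10 (L 31
  1)))) (P 10 (L 31 1))) (P 10 (L 31 1)))))) (P 10 (A12 (A01 (A02 (M 1 (L 31 1)) (B12 (M 1 (L 31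
  1)) (B02 (M 1 (L 31 1)) (P 15 (L 46 7))))) (A13 (P 15 (L 46 7)) (B12 (M 1 (L 31 1)) (B02 (M 1 (L
  31 1)) (P 15 (L 46 7)))))) (A02 (A01 (M 1 (L 31 1)) (B12 (M 1 (L 31 1)) (B02 (M 1 (L 31 1)) (P 15
  (L 46 7))))) (A23 (P 15 (L 46 7)) (B12 (M 1 (L 31 1)) (B02 (M 1 (L 31 1)) (P 15 (L 46 7)))))))))
  (B02 (M 1 (A23 (B01 (A02 (A03 (B02 (S 10 (L 31 1) (L 2 1)) (A01 (S 10 (L 31 1) (L 2 1)) (P 10 (L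
  31 1)))) (B02 (S 10 (L 31 1) (L 2 1)) (P 10 (L 31 1)))) (P 10 (L 31 1))) (A02 (A03 (B12 (S 10 (L
  31 1) (L 2 1)) (A01 (S 10 (L 31 1) (L 2 1)) (P 10 (L 31 1)))) (P 10 (L 31 1))) (P 10 (L 31 1))))
  (B01 (P 12 (L 38 4)) (A03 (A02 (B12 (S 10 (L 31 1) (L 2 1)) (A01 (S 10 (L 31 1) (L 2 1)) (P 10 (L
  31 1)))) (P 10 (L 31 1))) (P 10 (L 31 1)))))) (P 10 (A23 (A02 (M 1 (L 31 1)) (A12 (M 1 (L 31 1))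
  (B12 (M 1 (L 31 1)) (B02 (M 1 (L 31 1)) (P 15 (L 46 7)))))) (M 1 (L 31 1)))))))) (M 19 (P 10 (A03
  (P 15 (A02 (B12 (A01 (P 13 (B01 (S 1 (L 4 1) (L 31 1)) (K [(41,5,49),(41,10,15)] []))) (B01 (A13
  (A12 (M 5 (L 46 7)) (P 13 (L 41 5))) (P 13 (L 41 5))) (A13 (A12 (B12 (P 13 (L 41 5)) (M 5 (L 46
  7))) (P 13 (L 41 5))) (P 13 (L 41 5))))) (A01 (S 1 (L 4 1) (L 31 1)) (M 5 (L 46 7)))) (B12 (A12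
  (B01 (A13 (A01 (P 13 (L 41 5)) (M 5 (L 46 7))) (P 13 (L 41 5))) (A13 (A01 (P 13 (L 41 5)) (B12 (P
  13 (L 41 5)) (M 5 (L 46 7)))) (P 13 (L 41 5)))) (P 13 (L 41 5))) (M 5 (L 46 7))))) (A13 (P 15
  (B12 (A12 (B01 (M 5 (L 46 7)) (A01 (P 13 (L 41 5)) (A13 (B12 (P 13 (L 41 5)) (M 5 (L 46 7))) (B12
  (P 13 (L 41 5)) (M 5 (L 46 7)))))) (P 13 (L 41 5))) (M 5 (L 46 7)))) (B12 (P 13 (L 41 5)) (M 5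
  (A23 (P 15 (L 46 7)) (M 1 (L 31 1))))))))))) (A23 (A02 (M 5 (A03 (B02 (B01 (M 1 (A01 (S 10 (L 31
  1) (L 2 1)) (A12 (A13 (P 10 (L 31 1)) (B02 (S 10 (L 31 1) (L 2 1)) (P 10 (L 31 1)))) (A02 (B02 (S
  10 (L 31 1) (L 2 1)) (P 10 (L 31 1))) (B02 (P 15 (L 46 7)) (P 10 (L 31 1))))))) (P 10 (A01 (S 1
  (L 4 1) (L 31 1)) (B12 (P 15 (L 46 7)) (M 1 (L 31 1)))))) (P 10 (B12 (A01 (B01 (M 1 (L 31 1)) (P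
  15 (L 46 7))) (B01 (M 1 (L 31 1)) (P 15 (L 46 7)))) (M 1 (L 31 1))))) (B02 (B01 (M 1 (A13 (A12
  (A01 (B02 (S 10 (L 31 1) (L 2 1)) (P 10 (L 31 1))) (P 10 (L 31 1))) (A23 (B02 (P 15 (L 46 7)) (P
  10 (L 31 1))) (B02 (S 10 (L 31 1) (L 2 1)) (P 10 (L 31 1))))) (A23 (A12 (B02 (S 10 (L 31 1) (L 2
  1)) (P 10 (L 31 1))) (S 10 (L 31 1) (L 2 1))) (A03 (B02 (S 10 (L 31 1) (L 2 1)) (P 10 (L 31 1)))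
  (P 10 (L 31 1)))))) (P 10 (A13 (B12 (P 15 (L 46 7)) (M 1 (L 31 1))) (B12 (P 15 (L 46 7)) (M 1 (L
  31 1)))))) (P 10 (B12 (A13 (B01 (M 1 (L 31 1)) (P 15 (L 46 7))) (B01 (M 1 (L 31 1)) (P 15 (L 46
  7)))) (M 1 (L 31 1))))))) (M 19 (P 10 (A12 (M 5 (B02 (B01 (A13 (A01 (A03 (P 15 (L 46 7)) (B02 (S
  1 (L 4 1) (L 31 1)) (B12 (A23 (P 15 (L 46 7)) (M 1 (L 31 1))) (M 1 (L 31 1))))) (A12 (M 1 (L 31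
  1)) (B02 (S 1 (L 4 1) (L 31 1)) (B12 (A23 (P 15 (L 46 7)) (M 1 (L 31 1))) (M 1 (L 31 1)))))) (A03
  (A01 (P 15 (L 46 7)) (B02 (S 1 (L 4 1) (L 31 1)) (B12 (A12 (M 1 (L 31 1)) (P 15 (L 46 7))) (M 1
  (L 31 1))))) (A23 (B02 (S 1 (L 4 1) (L 31 1)) (B12 (A12 (M 1 (L 31 1)) (P 15 (L 46 7))) (M 1 (L
  31 1)))) (M 1 (L 31 1))))) (A13 (B12 (P 15 (L 46 7)) (A01 (A03 (P 15 (L 46 7)) (B02 (P 15 (L 46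
  7)) (A23 (P 15 (L 46 7)) (M 1 (L 31 1))))) (A12 (M 1 (L 31 1)) (B02 (P 15 (L 46 7)) (A23 (P 15 (L
  46 7)) (M 1 (L 31 1))))))) (B12 (P 15 (L 46 7)) (A03 (A01 (P 15 (L 46 7)) (B02 (P 15 (L 46 7))
  (A12 (M 1 (L 31 1)) (P 15 (L 46 7))))) (A23 (B02 (P 15 (L 46 7)) (A12 (M 1 (L 31 1)) (P 15 (L 46
  7)))) (M 1 (L 31 1))))))) (B12 (A13 (B01 (A01 (A03 (P 15 (L 46 7)) (B02 (A23 (P 15 (L 46 7)) (M 1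
  (L 31 1))) (P 15 (L 46 7)))) (A12 (B02 (M 1 (L 31 1)) (A13 (A01 (P 15 (L 46 7)) (P 16 (L 49 8)))
  (P 15 (L 46 7)))) (B02 (A23 (P 15 (L 46 7)) (M 1 (L 31 1))) (P 15 (L 46 7))))) (P 15 (L 46 7)))
  (B01 (A03 (A01 (P 15 (L 46 7)) (B02 (A12 (M 1 (L 31 1)) (P 15 (L 46 7))) (P 15 (L 46 7)))) (A23
  (B02 (A12 (M 1 (L 31 1)) (P 15 (L 46 7))) (P 15 (L 46 7))) (B02 (M 1 (L 31 1)) (P 15 (L 46 7)))))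
  (P 15 (L 46 7)))) (A13 (A01 (A03 (B02 (P 15 (L 46 7)) (B12 (P 15 (L 46 7)) (A02 (A01 (P 15 (L 46
  7)) (P 16 (L 49 8))) (P 16 (L 49 8))))) (B02 (B01 (A23 (P 15 (L 46 7)) (M 1 (L 31 1))) (P 16 (L
  49 8))) (P 16 (L 49 8)))) (P 16 (L 49 8))) (A03 (A01 (P 15 (L 46 7)) (B02 (B01 (A12 (M 1 (L 31
  1)) (P 15 (L 46 7))) (A12 (B12 (P 15 (L 46 7)) (M 1 (L 31 1))) (P 15 (L 46 7)))) (P 16 (L 49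
  8)))) (A23 (B02 (B01 (A12 (M 1 (L 31 1)) (P 15 (L 46 7))) (A12 (B12 (P 15 (L 46 7)) (M 1 (L 31
  1))) (P 15 (L 46 7)))) (P 16 (L 49 8))) (B02 (B01 (M 1 (L 31 1)) (A13 (B12 (P 15 (L 46 7)) (M 1
  (L 31 1))) (B12 (P 15 (L 46 7)) (M 1 (L 31 1))))) (P 16 (L 49 8))))))))) (P 15 (B02 (B01 (A23
  (A02 (M 5 (L 46 7)) (A12 (M 5 (L 46 7)) (S 1 (L 4 1) (L 45 1)))) (M 5 (L 46 7))) (A23 (B12 (A02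
  (A03 (B01 (M 5 (L 46 7)) (A01 (P 13 (L 41 5)) (M 6 (L 43 10)))) (B01 (M 5 (L 46 7)) (M 6 (L 43
  10)))) (A12 (B01 (M 5 (L 46 7)) (M 6 (L 43 10))) (P 13 (L 41 5)))) (A02 (M 5 (L 46 7)) (A12 (M 5
  (L 46 7)) (P 13 (L 41 5))))) (M 5 (L 46 7)))) (B12 (A23 (B01 (M 5 (L 46 7)) (A02 (A03 (B12 (A01
  (P 13 (L 41 5)) (M 6 (L 43 10))) (M 5 (L 46 7))) (M 6 (L 43 10))) (M 6 (L 43 10)))) (M 5 (L 46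
  7))) (M 5 (L 46 7))))))))) (M 5 (A03 (A02 (B02 (B01 (M 1 (A01 (S 10 (L 31 1) (L 2 1)) (A13 (A12
  (P 10 (L 31 1)) (B02 (S 10 (L 31 1) (L 2 1)) (P 10 (L 31 1)))) (A03 (B02 (S 10 (L 31 1) (L 2 1))
  (P 10 (L 31 1))) (B02 (S 10 (L 31 1) (L 2 1)) (B12 (S 10 (L 31 1) (L 2 1)) (A23 (P 10 (L 31 1))
  (P 12 (L 38 4))))))))) (P 10 (A01 (M 1 (L 31 1)) (B12 (A13 (P 15 (L 46 7)) (M 1 (L 31 1))) (M 1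
  (L 31 1)))))) (P 10 (B12 (A01 (M 1 (L 31 1)) (B01 (M 1 (L 31 1)) (A13 (A12 (B12 (P 15 (L 46 7))
  (M 1 (L 31 1))) (M 1 (L 31 1))) (M 1 (L 31 1))))) (M 1 (L 31 1))))) (B02 (B01 (M 1 (A12 (A13 (A01
  (B02 (S 10 (L 31 1) (L 2 1)) (P 10 (L 31 1))) (P 10 (L 31 1))) (A23 (B02 (S 10 (L 31 1) (L 2 1))
  (P 10 (L 31 1))) (B02 (S 10 (L 31 1) (L 2 1)) (B12 (S 10 (L 31 1) (L 2 1)) (A03 (P 10 (L 31 1))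
  (P 12 (L 38 4))))))) (A23 (A02 (B02 (S 10 (L 31 1) (L 2 1)) (P 10 (L 31 1))) (P 10 (L 31 1)))
  (A13 (B02 (S 10 (L 31 1) (L 2 1)) (P 10 (L 31 1))) (B02 (S 10 (L 31 1) (L 2 1)) (B12 (S 10 (L 31
  1) (L 2 1)) (A03 (P 10 (L 31 1)) (P 12 (L 38 4))))))))) (P 10 (A12 (B12 (A13 (P 15 (L 46 7)) (A23
  (P 15 (L 46 7)) (M 1 (L 31 1)))) (M 1 (L 31 1))) (B12 (A23 (P 15 (L 46 7)) (A13 (P 15 (L 46 7))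
  (M 1 (L 31 1)))) (M 1 (L 31 1)))))) (P 10 (B12 (A12 (B01 (M 1 (L 31 1)) (A13 (A01 (B12 (P 15 (L
  46 7)) (M 1 (L 31 1))) (P 16 (L 49 8))) (A23 (B12 (P 15 (L 46 7)) (M 1 (L 31 1))) (M 1 (L 31
  1))))) (B01 (M 1 (L 31 1)) (A23 (P 15 (L 46 7)) (A13 (P 15 (L 46 7)) (M 1 (L 31 1)))))) (M 1 (L
  31 1)))))) (A13 (B02 (B01 (M 1 (A12 (A01 (A02 (B02 (B01 (P 12 (L 38 4)) (A03 (S 10 (L 31 1) (L 2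
  1)) (P 10 (L 31 1)))) (B12 (A03 (P 13 (L 40 5)) (P 10 (L 31 1))) (P 12 (L 38 4)))) (P 10 (L 31
  1))) (P 10 (L 31 1))) (A02 (A01 (B02 (B01 (P 12 (L 38 4)) (A03 (S 10 (L 31 1) (L 2 1)) (P 10 (L
  31 1)))) (B12 (A03 (S 10 (L 31 1) (L 2 1)) (P 10 (L 31 1))) (P 12 (L 38 4)))) (P 10 (L 31 1))) (P
  10 (L 31 1))))) (P 10 (A12 (B12 (A01 (A02 (M 1 (L 31 1)) (B01 (M 1 (L 31 1)) (A23 (P 15 (L 46 7))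
  (M 1 (L 31 1))))) (A13 (P 15 (L 46 7)) (B01 (M 1 (L 31 1)) (A23 (P 15 (L 46 7)) (M 1 (L 31
  1)))))) (M 1 (L 31 1))) (B12 (A02 (A01 (M 1 (L 31 1)) (B01 (M 1 (L 31 1)) (A13 (P 15 (L 46 7)) (M
  1 (L 31 1))))) (A23 (P 15 (L 46 7)) (B01 (M 1 (L 31 1)) (A13 (P 15 (L 46 7)) (M 1 (L 31 1))))))
  (M 1 (L 31 1)))))) (P 10 (B12 (A12 (B01 (M 1 (L 31 1)) (A01 (A02 (M 1 (L 31 1)) (B12 (A23 (P 15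
  (L 46 7)) (M 1 (L 31 1))) (M 1 (L 31 1)))) (P 16 (L 49 8)))) (B01 (M 1 (L 31 1)) (A02 (A01 (M 1
  (L 31 1)) (B12 (A13 (P 15 (L 46 7)) (M 1 (L 31 1))) (M 1 (L 31 1)))) (A23 (P 15 (L 46 7)) (B12
  (A13 (P 15 (L 46 7)) (M 1 (L 31 1))) (M 1 (L 31 1))))))) (M 1 (L 31 1))))) (B02 (B01 (M 1 (A23
  (A02 (A03 (B02 (B01 (P 12 (L 38 4)) (A01 (S 10 (L 31 1) (L 2 1)) (P 10 (L 31 1)))) (B12 (A01 (S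
  10 (L 31 1) (L 2 1)) (P 10 (L 31 1))) (P 12 (L 38 4)))) (B02 (B01 (P 12 (L 38 4)) (P 10 (L 31
  1))) (P 10 (L 31 1)))) (P 10 (L 31 1))) (P 12 (L 38 4)))) (P 10 (A23 (B12 (A02 (M 1 (L 31 1))
  (A12 (M 1 (L 31 1)) (B01 (M 1 (L 31 1)) (A23 (P 15 (L 46 7)) (M 1 (L 31 1)))))) (M 1 (L 31 1)))
  (M 1 (L 31 1))))) (P 10 (B12 (A23 (B01 (M 1 (L 31 1)) (A02 (M 1 (L 31 1)) (A12 (M 1 (L 31 1))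
  (B12 (A23 (P 15 (L 46 7)) (M 1 (L 31 1))) (M 1 (L 31 1)))))) (M 1 (L 31 1))) (M 1 (L 31
  1)))))))))))))))) (A13 (M 19 (P 10 (A12 (P 16 (B12 (A01 (B01 (P 2 (S 12 (L 38 4) (L 7 4))) (M 12
  (A03 (out 11) (S 2 (L 7 4) (L 25 4))))) (B01 (A13 (out 7) (M 11 (S 1 (L 4 1) (L 31 1)))) (M 12
  (A13 (out 7) (S 2 (L 7 4) (L 25 4)))))) (M 5 (P 2 (A01 (S 12 (L 38 4) (L 7 4)) (A13 (out 7) (P 14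
  (A03 (out 11) (B02 (M 3 (L 49 8)) (B12 (A23 (out 11) (B01 (A13 (out 11) (M 3 (L 49 8))) (P 15 (L
  46 7)))) (A23 (out 11) (A13 (out 11) (A03 (out 11) (B02 (M 3 (L 49 8)) (M 6 (L 43
  10)))))))))))))))) (P 14 (M 11 (M 3 (B12 (A02 (B01 (A03 (out 11) (A23 (out 11) (S 1 (L 4 1) (L 31
  1)))) (M 6 (A03 (out 11) (L 43 10)))) (B01 (A23 (P 15 (A12 (B02 (A01 (B01 (M 5 (L 46 7)) (M 6 (L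
  43 10))) (B01 (M 5 (L 46 7)) (M 6 (L 43 10)))) (M 6 (L 43 10))) (B02 (A02 (B01 (A03 (out 11) (A23
  (out 11) (M 5 (L 46 7)))) (M 6 (L 43 10))) (B01 (A23 (A12 (B02 (A01 (P 13 (L 41 5)) (B01 (M 5 (L
  46 7)) (M 6 (L 43 10)))) (M 6 (L 43 10))) (P 13 (L 41 5))) (A03 (B02 (A01 (P 13 (L 41 5)) (M 5 (L
  46 7))) (M 6 (L 43 10))) (M 5 (L 46 7)))) (M 6 (L 43 10)))) (M 6 (L 43 10))))) (A03 (P 15 (B02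
  (A01 (B01 (M 5 (L 46 7)) (M 6 (L 43 10))) (M 5 (L 46 7))) (M 6 (L 43 10)))) (M 5 (B02 (A13 (P 15
  (L 46 7)) (B01 (P 16 (L 49 8)) (M 6 (L 43 10)))) (P 15 (L 46 7)))))) (M 6 (L 43 10)))) (A02 (A03
  (out 11) (A23 (out 11) (P 16 (L 49 8)))) (A23 (P 15 (A12 (M 5 (L 46 7)) (B02 (B01 (A02 (M 5 (L 46
  7)) (A23 (A12 (M 5 (L 46 7)) (B02 (P 13 (L 41 5)) (M 6 (L 43 10)))) (M 5 (L 46 7)))) (M 6 (L 43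
  10))) (M 6 (L 43 10))))) (M 5 (A03 (P 15 (L 46 7)) (P 16 (L 49 8))))))))))))) (P 14 (M 11 (M 3
  (A03 (M 19 (P 10 (B12 (A02 (B01 (A01 (P 15 (A03 (out 11) (B02 (A23 (out 11) (M 5 (L 46 7))) (A23
  (out 11) (M 5 (L 46 7)))))) (A12 (M 5 (B02 (A13 (S 1 (L 4 1) (L 31 1)) (B01 (A03 (P 16 (L 49 8))
  (A23 (P 16 (L 49 8)) (B02 (M 1 (L 31 1)) (P 15 (L 46 7))))) (P 15 (L 46 7)))) (P 15 (L 46 7))))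
  (P 15 (B02 (A23 (out 11) (M 5 (L 46 7))) (A23 (out 11) (M 5 (L 46 7))))))) (P 15 (M 12 (A01 (A03
  (out 11) (B12 (A23 (out 11) (B01 (A13 (out 11) (A03 (out 11) (B02 (A23 (M 6 (L 43 10)) (M 5 (L 46
  7))) (M 6 (L 43 10))))) (S 2 (L 7 4) (L 25 4)))) (A23 (out 11) (M 5 (L 46 7))))) (A12 (B12 (A13
  (M 6 (L 43 10)) (B01 (M 5 (L 46 7)) (S 2 (L 7 4) (L 25 4)))) (M 5 (L 46 7))) (B12 (A23 (out 11)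
  (B01 (A03 (out 11) (A13 (M 6 (L 43 10)) (B02 (A23 (M 6 (L 43 10)) (M 5 (L 46 7))) (M 6 (L 43
  10))))) (S 2 (L 7 4) (L 25 4)))) (A23 (out 11) (M 5 (L 46 7))))))))) (B01 (A12 (A01 (P 15 (B02
  (A03 (B01 (M 5 (L 46 7)) (M 6 (L 43 10))) (M 5 (L 46 7))) (A03 (M 6 (L 43 10)) (M 5 (L 46 7)))))
  (M 5 (B02 (A13 (B01 (P 16 (L 49 8)) (P 15 (L 46 7))) (B01 (A23 (A12 (B02 (A01 (P 15 (L 46 7))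
  (B01 (M 1 (L 31 1)) (P 15 (L 46 7)))) (P 15 (L 46 7))) (P 15 (L 46 7))) (A03 (B02 (A01 (P 15 (L
  46 7)) (B01 (M 1 (L 31 1)) (P 15 (L 46 7)))) (P 15 (L 46 7))) (B02 (M 1 (L 31 1)) (P 15 (L 46
  7))))) (P 15 (L 46 7)))) (P 15 (L 46 7))))) (P 15 (A23 (B02 (A02 (B01 (A01 (A03 (out 11) (B02 (P
  13 (L 41 5)) (A23 (out 11) (M 5 (L 46 7))))) (A12 (M 5 (L 46 7)) (B02 (P 13 (L 41 5)) (A23 (out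
  11) (M 5 (L 46 7)))))) (A01 (A03 (out 11) (B12 (P 13 (L 41 5)) (A23 (out 11) (M 5 (L 46 7)))))
  (A12 (B12 (A13 (M 6 (L 43 10)) (P 13 (L 41 5))) (M 5 (L 46 7))) (B12 (P 13 (L 41 5)) (A23 (out
  11) (M 5 (L 46 7))))))) (B01 (A12 (A01 (P 13 (L 41 5)) (M 5 (L 46 7))) (P 13 (L 41 5))) (A12 (A01
  (P 13 (L 41 5)) (B12 (A13 (M 6 (L 43 10)) (P 13 (L 41 5))) (M 5 (L 46 7)))) (P 13 (L 41 5))))) (M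
  6 (L 43 10))) (B02 (A03 (B01 (M 5 (L 46 7)) (A01 (A02 (out 11) (B12 (P 13 (L 41 5)) (M 5 (L 46
  7)))) (M 5 (L 46 7)))) (M 5 (L 46 7))) (A03 (M 6 (L 43 10)) (M 5 (L 46 7))))))) (P 15 (M 12 (A12
  (A01 (B12 (A03 (S 2 (L 7 4) (L 25 4)) (B01 (A23 (M 6 (L 43 10)) (A13 (M 6 (L 43 10)) (B02 (A03 (M
  6 (L 43 10)) (M 5 (L 46 7))) (M 6 (L 43 10))))) (M 6 (L 43 10)))) (A03 (M 6 (L 43 10)) (M 5 (L 46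
  7)))) (B12 (A13 (M 6 (L 43 10)) (B01 (A23 (M 6 (L 43 10)) (M 5 (L 46 7))) (M 6 (L 43 10)))) (M 5
  (L 46 7)))) (A23 (M 6 (L 43 10)) (B12 (A03 (S 2 (L 7 4) (L 25 4)) (B01 (A13 (M 6 (L 43 10)) (A23
  (M 6 (L 43 10)) (B02 (A03 (M 6 (L 43 10)) (M 5 (L 46 7))) (M 6 (L 43 10))))) (M 6 (L 43 10))))
  (A03 (M 6 (L 43 10)) (A13 (M 6 (L 43 10)) (A23 (M 6 (L 43 10)) (M 5 (L 46 7)))))))))))) (A02 (M 5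
  (A01 (A03 (out 11) (B02 (B01 (A23 (out 11) (A13 (out 11) (A03 (out 11) (B02 (B01 (M 1 (L 31 1))
  (A23 (P 15 (L 46 7)) (M 1 (L 31 1)))) (P 16 (L 49 8)))))) (A23 (out 11) (P 16 (L 49 8)))) (P 16
  (L 49 8)))) (A12 (B02 (B01 (A13 (P 16 (L 49 8)) (A03 (P 16 (L 49 8)) (A23 (P 16 (L 49 8)) (B02
  (B01 (M 1 (L 31 1)) (A13 (P 16 (L 49 8)) (B12 (P 15 (L 46 7)) (M 1 (L 31 1))))) (P 16 (L 49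
  8)))))) (P 16 (L 49 8))) (P 16 (L 49 8))) (B02 (B01 (A23 (out 11) (A03 (out 11) (A13 (B02 (P 15
  (L 46 7)) (P 16 (L 49 8))) (B02 (B01 (M 1 (L 31 1)) (A23 (P 15 (L 46 7)) (B12 (P 15 (L 46 7)) (M
  1 (L 31 1))))) (P 16 (L 49 8)))))) (A23 (out 11) (P 16 (L 49 8)))) (P 16 (L 49 8)))))) (A12 (M 5
  (A01 (B02 (B01 (A03 (P 15 (L 46 7)) (A23 (P 15 (L 46 7)) (A13 (P 15 (L 46 7)) (B02 (B01 (M 1 (L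
  31 1)) (A03 (P 15 (L 46 7)) (B12 (P 15 (L 46 7)) (M 1 (L 31 1))))) (P 16 (L 49 8)))))) (A03 (P 15
  (L 46 7)) (P 16 (L 49 8)))) (P 16 (L 49 8))) (B02 (B01 (A13 (P 16 (L 49 8)) (A23 (A12 (B02 (B01
  (A01 (P 15 (L 46 7)) (M 1 (L 31 1))) (P 16 (L 49 8))) (P 16 (L 49 8))) (P 15 (L 46 7))) (A03 (B02
  (B01 (A01 (P 15 (L 46 7)) (M 1 (L 31 1))) (P 16 (L 49 8))) (P 16 (L 49 8))) (B02 (B01 (M 1 (L 31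
  1)) (A13 (P 16 (L 49 8)) (B12 (P 15 (L 46 7)) (M 1 (L 31 1))))) (P 16 (L 49 8)))))) (P 16 (L 49
  8))) (P 16 (L 49 8))))) (A23 (P 15 (B02 (B01 (A02 (M 5 (L 46 7)) (A12 (M 5 (L 46 7)) (A23 (B02 (P
  13 (L 41 5)) (B12 (A02 (M 5 (L 46 7)) (B01 (M 5 (L 46 7)) (M 6 (L 43 10)))) (M 5 (L 46 7)))) (M 5
  (L 46 7))))) (A02 (M 5 (L 46 7)) (B12 (M 6 (L 43 10)) (A12 (M 5 (L 46 7)) (A23 (B02 (M 6 (L 43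
  10)) (M 5 (L 46 7))) (M 5 (L 46 7))))))) (B12 (A02 (M 5 (L 46 7)) (B01 (M 5 (L 46 7)) (M 6 (L 43
  10)))) (M 5 (L 46 7))))) (M 5 (B02 (B01 (A03 (P 15 (L 46 7)) (A13 (P 15 (L 46 7)) (A23 (P 15 (L
  46 7)) (B02 (B01 (M 1 (L 31 1)) (A03 (P 15 (L 46 7)) (M 1 (L 31 1)))) (B12 (A03 (P 15 (L 46 7))
  (M 1 (L 31 1))) (M 1 (L 31 1))))))) (A03 (P 15 (L 46 7)) (B12 (P 15 (L 46 7)) (A13 (P 15 (L 46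
  7)) (A23 (P 15 (L 46 7)) (B02 (P 15 (L 46 7)) (P 16 (L 49 8)))))))) (P 16 (L 49 8)))))))))) (B12
  (A23 (M 19 (P 10 (B01 (A12 (M 5 (A13 (B02 (A01 (B01 (A02 (M 1 (L 31 1)) (A12 (B02 (A13 (B01 (M 1
  (L 31 1)) (P 15 (L 46 7))) (B01 (M 1 (L 31 1)) (P 15 (L 46 7)))) (P 15 (L 46 7))) (B02 (A23 (P 15
  (L 46 7)) (B01 (M 1 (L 31 1)) (P 15 (L 46 7)))) (P 15 (L 46 7))))) (P 15 (L 46 7))) (B01 (P 16 (L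
  49 8)) (P 15 (L 46 7)))) (P 15 (L 46 7))) (B02 (A03 (B01 (A02 (M 1 (L 31 1)) (A23 (B02 (A12 (M 1
  (L 31 1)) (P 15 (L 46 7))) (P 15 (L 46 7))) (M 1 (L 31 1)))) (P 15 (L 46 7))) (B01 (A23 (A02 (M 1
  (L 31 1)) (B02 (A12 (M 1 (L 31 1)) (P 15 (L 46 7))) (P 15 (L 46 7)))) (M 1 (L 31 1))) (P 15 (L 46
  7)))) (P 15 (L 46 7))))) (P 15 (A02 (M 5 (L 46 7)) (B02 (A23 (B01 (A12 (M 5 (L 46 7)) (P 13 (L 41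
  5))) (A12 (A13 (B12 (A01 (P 13 (L 41 5)) (M 6 (L 43 10))) (M 5 (L 46 7))) (P 13 (L 41 5))) (P 13
  (L 41 5)))) (B01 (M 5 (L 46 7)) (A13 (A12 (M 5 (L 46 7)) (P 13 (L 41 5))) (P 13 (L 41 5))))) (A23
  (A12 (A13 (M 6 (L 43 10)) (B12 (P 13 (L 41 5)) (B02 (A03 (M 6 (L 43 10)) (B01 (M 5 (L 46 7)) (M 6
  (L 43 10)))) (M 6 (L 43 10))))) (A02 (B12 (P 13 (L 41 5)) (B02 (P 13 (L 41 5)) (M 6 (L 43 10))))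
  (B12 (P 13 (L 41 5)) (B02 (P 13 (L 41 5)) (M 6 (L 43 10)))))) (A13 (A12 (M 5 (L 46 7)) (B12 (P 13
  (L 41 5)) (B02 (A02 (M 5 (L 46 7)) (B01 (M 5 (L 46 7)) (M 6 (L 43 10)))) (M 6 (L 43 10))))) (A03
  (B12 (P 13 (L 41 5)) (B02 (A02 (M 5 (L 46 7)) (B01 (M 5 (L 46 7)) (A12 (M 5 (L 46 7)) (P 13 (L 41
  5))))) (M 6 (L 43 10)))) (B12 (P 13 (L 41 5)) (B02 (A23 (B01 (M 5 (L 46 7)) (A12 (M 5 (L 46 7))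
  (P 13 (L 41 5)))) (M 5 (L 46 7))) (A23 (M 6 (L 43 10)) (M 5 (L 46 7)))))))))))) (P 15 (A12 (A13
  (B12 (A01 (B01 (A02 (M 5 (L 46 7)) (M 6 (L 43 10))) (M 6 (L 43 10))) (M 6 (L 43 10))) (M 5 (L 46
  7))) (B12 (A03 (B01 (A02 (M 5 (L 46 7)) (A23 (M 6 (L 43 10)) (M 5 (L 46 7)))) (M 6 (L 43 10)))
  (B01 (A23 (A02 (B02 (A01 (P 13 (L 41 11)) (M 6 (L 43 10))) (M 6 (L 43 10))) (M 6 (L 43 10))) (A13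
  (B02 (A01 (P 13 (L 41 11)) (B01 (M 5 (L 46 7)) (M 6 (L 43 10)))) (M 6 (L 43 10))) (S 1 (L 4 1) (L
  45 1)))) (M 6 (L 43 10)))) (M 5 (L 46 7)))) (A02 (B12 (A03 (B01 (A01 (A02 (M 5 (L 46 7)) (B02
  (A23 (M 6 (L 43 10)) (B01 (M 5 (L 46 7)) (M 6 (L 43 10)))) (M 6 (L 43 10)))) (A13 (M 6 (L 43 10))
  (B02 (A23 (M 6 (L 43 10)) (B01 (M 5 (L 46 7)) (M 6 (L 43 10)))) (M 6 (L 43 10))))) (M 6 (L 43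
  10))) (B01 (A13 (A01 (S 1 (L 4 1) (L 45 1)) (M 6 (L 43 10))) (S 1 (L 4 1) (L 45 1))) (M 6 (L 43
  10)))) (A03 (A01 (A02 (M 5 (L 46 7)) (B02 (B01 (A23 (M 6 (L 43 10)) (M 5 (L 46 7))) (A23 (M 6 (L
  43 10)) (M 5 (L 46 7)))) (B12 (A23 (M 6 (L 43 10)) (M 5 (L 46 7))) (M 5 (L 46 7))))) (A13 (M 6 (L
  43 10)) (B02 (B01 (A23 (M 6 (L 43 10)) (M 5 (L 46 7))) (A23 (M 6 (L 43 10)) (M 5 (L 46 7)))) (B12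
  (A23 (M 6 (L 43 10)) (M 5 (L 46 7))) (M 5 (L 46 7)))))) (A13 (A01 (B02 (B01 (A02 (M 5 (L 46 7))
  (M 6 (L 43 10))) (A02 (M 5 (L 46 7)) (M 6 (L 43 10)))) (B12 (A02 (M 5 (L 46 7)) (M 6 (L 43 10)))
  (M 5 (L 46 7)))) (M 6 (L 43 10))) (A23 (B02 (P 13 (L 41 5)) (B12 (P 13 (L 41 5)) (M 5 (L 46 7))))
  (B02 (P 13 (L 41 5)) (B12 (P 13 (L 41 5)) (M 5 (L 46 7)))))))) (B12 (A23 (M 6 (L 43 10)) (B01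
  (A13 (M 6 (L 43 10)) (S 1 (L 4 1) (L 45 1))) (M 6 (L 43 10)))) (A23 (M 6 (L 43 10)) (A13 (M 6 (L
  43 10)) (A03 (M 6 (L 43 10)) (B02 (P 13 (L 41 5)) (B12 (P 13 (L 41 5)) (A23 (M 6 (L 43 10)) (M 5
  (L 46 7))))))))))))))) (B01 (M 5 (A13 (P 10 (A12 (B02 (A01 (B01 (M 1 (L 31 1)) (A03 (P 15 (L 46
  7)) (S 1 (L 4 1) (L 31 1)))) (S 1 (L 4 1) (L 31 1))) (A01 (A03 (P 15 (L 46 7)) (S 1 (L 4 1) (L 31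
  1))) (S 1 (L 4 1) (L 31 1)))) (B02 (A02 (B01 (M 1 (L 31 1)) (A03 (P 15 (L 46 7)) (A23 (P 15 (L 46
  7)) (B12 (A13 (P 15 (L 46 7)) (M 1 (L 31 1))) (A13 (P 15 (L 46 7)) (M 1 (L 31 1))))))) (B01 (M 1
  (L 31 1)) (A23 (P 15 (L 46 7)) (A03 (P 15 (L 46 7)) (B12 (A13 (P 15 (L 46 7)) (M 1 (L 31 1)))
  (A13 (P 15 (L 46 7)) (M 1 (L 31 1)))))))) (A02 (A03 (P 15 (L 46 7)) (A23 (P 15 (L 46 7)) (B12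
  (B01 (P 16 (L 49 8)) (P 15 (L 46 7))) (P 16 (L 49 8))))) (A23 (P 15 (L 46 7)) (A03 (P 15 (L 46
  7)) (B12 (B01 (A13 (P 15 (L 46 7)) (B02 (M 1 (L 31 1)) (P 15 (L 46 7)))) (P 15 (L 46 7))) (P 16
  (L 49 8))))))))) (A03 (P 10 (B02 (M 1 (L 31 1)) (A02 (A01 (A03 (P 15 (L 46 7)) (B12 (M 1 (L 31
  1)) (B02 (M 1 (L 31 1)) (P 15 (L 46 7))))) (A12 (B12 (M 1 (L 31 1)) (B02 (M 1 (L 31 1)) (P 15 (L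
  46 7)))) (B12 (M 1 (L 31 1)) (B02 (M 1 (L 31 1)) (P 15 (L 46 7)))))) (A12 (A01 (B12 (M 1 (L 31
  1)) (B02 (M 1 (L 31 1)) (P 15 (L 46 7)))) (B12 (M 1 (L 31 1)) (B02 (M 1 (L 31 1)) (P 15 (L 46
  7))))) (A23 (P 15 (L 46 7)) (B12 (M 1 (L 31 1)) (B02 (M 1 (L 31 1)) (P 15 (L 46 7))))))))) (B02
  (M 1 (A23 (P 10 (L 31 1)) (B01 (P 12 (L 38 4)) (P 10 (L 31 1))))) (P 10 (A23 (A12 (A13 (B12 (M 1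
  (L 31 1)) (B02 (M 1 (L 31 1)) (P 15 (L 46 7)))) (B12 (M 1 (L 31 1)) (B02 (M 1 (L 31 1)) (P 15 (L
  46 7))))) (A02 (B12 (M 1 (L 31 1)) (B02 (M 1 (L 31 1)) (P 15 (L 46 7)))) (B12 (M 1 (L 31 1)) (B02
  (M 1 (L 31 1)) (P 15 (L 46 7)))))) (M 1 (L 31 1)))))))) (M 19 (P 10 (A13 (P 15 (A12 (M 5 (L 46
  7)) (B12 (A02 (B01 (M 5 (L 46 7)) (M 6 (L 43 10))) (B01 (A23 (A12 (M 5 (L 46 7)) (S 1 (L 4 1) (L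
  45 1))) (M 5 (L 46 7))) (M 6 (L 43 10)))) (M 5 (L 46 7))))) (A03 (P 15 (B12 (A02 (B01 (M 5 (L 46
  7)) (A01 (A03 (M 6 (L 43 10)) (B12 (A23 (B01 (M 5 (L 46 7)) (M 6 (L 43 10))) (M 5 (L 46 7))) (M 5
  (L 46 7)))) (A12 (M 5 (L 46 7)) (B12 (A23 (B01 (M 5 (L 46 7)) (M 6 (L 43 10))) (M 5 (L 46 7))) (M
  5 (L 46 7)))))) (B01 (A12 (M 5 (L 46 7)) (S 1 (L 4 1) (L 31 1))) (A12 (A01 (B12 (P 13 (L 41 11))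
  (M 5 (L 46 7))) (M 5 (L 46 7))) (S 1 (L 4 1) (L 45 1))))) (M 5 (L 46 7)))) (B12 (A23 (P 15 (B01
  (A12 (M 5 (L 46 7)) (S 1 (L 4 1) (L 31 1))) (A12 (M 5 (L 46 7)) (S 1 (L 4 1) (L 45 1))))) (M 5
  (B01 (A13 (P 15 (L 46 7)) (M 1 (L 31 1))) (P 15 (L 46 7))))) (M 5 (A23 (P 15 (L 46 7)) (A13 (P 15
  (L 46 7)) (M 1 (L 31 1)))))))))))) (A23 (M 19 (P 10 (A12 (M 5 (A13 (B02 (B01 (A01 (A02 (M 1 (L 31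
  1)) (A12 (B02 (B01 (M 1 (L 31 1)) (P 16 (L 49 8))) (P 16 (L 49 8))) (B02 (B01 (A23 (P 15 (L 46
  7)) (M 1 (L 31 1))) (P 16 (L 49 8))) (P 16 (L 49 8))))) (P 16 (L 49 8))) (P 16 (L 49 8))) (P 16
  (L 49 8))) (B02 (B01 (A03 (A02 (M 1 (L 31 1)) (A23 (B02 (B01 (A12 (M 1 (L 31 1)) (P 15 (L 46 7)))
  (P 16 (L 49 8))) (P 16 (L 49 8))) (M 1 (L 31 1)))) (A23 (A02 (M 1 (L 31 1)) (B02 (B01 (A12 (M 1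
  (L 31 1)) (P 15 (L 46 7))) (A12 (B12 (P 15 (L 46 7)) (M 1 (L 31 1))) (P 15 (L 46 7)))) (B12 (A12
  (B01 (P 16 (L 49 8)) (P 15 (L 46 7))) (P 15 (L 46 7))) (P 16 (L 49 8))))) (M 1 (L 31 1)))) (A03
  (B12 (P 15 (L 46 7)) (A02 (A01 (B02 (P 15 (L 46 7)) (P 16 (L 49 8))) (B02 (P 15 (L 46 7)) (P 16
  (L 49 8)))) (A23 (P 16 (L 49 8)) (B02 (P 15 (L 46 7)) (P 16 (L 49 8)))))) (B12 (P 15 (L 46 7))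
  (A23 (A02 (B02 (P 15 (L 46 7)) (P 16 (L 49 8))) (B02 (P 15 (L 46 7)) (P 16 (L 49 8)))) (A13 (B02
  (P 15 (L 46 7)) (P 16 (L 49 8))) (B02 (P 15 (L 46 7)) (A03 (P 16 (L 49 8)) (B12 (P 15 (L 46 7))
  (M 1 (L 31 1)))))))))) (B12 (A03 (P 16 (L 49 8)) (B01 (A23 (P 16 (L 49 8)) (A13 (P 16 (L 49 8))
  (B02 (A03 (P 16 (L 49 8)) (B01 (P 16 (L 49 8)) (P 15 (L 46 7)))) (P 15 (L 46 7))))) (P 15 (L 46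
  7)))) (P 16 (L 49 8)))))) (A02 (M 5 (B02 (B01 (A03 (A01 (A02 (M 1 (L 31 1)) (B02 (B01 (M 1 (L 31
  1)) (A23 (P 15 (L 46 7)) (M 1 (L 31 1)))) (B12 (A23 (P 15 (L 46 7)) (M 1 (L 31 1))) (M 1 (L 31
  1))))) (A13 (P 15 (L 46 7)) (B02 (B01 (M 1 (L 31 1)) (A23 (P 15 (L 46 7)) (M 1 (L 31 1)))) (B12
  (A23 (P 15 (L 46 7)) (M 1 (L 31 1))) (M 1 (L 31 1)))))) (A13 (A01 (B02 (B01 (M 1 (L 31 1)) (A02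
  (M 1 (L 31 1)) (P 15 (L 46 7)))) (B12 (A02 (M 1 (L 31 1)) (P 15 (L 46 7))) (M 1 (L 31 1)))) (P 15
  (L 46 7))) (A23 (B02 (B01 (M 1 (L 31 1)) (A02 (M 1 (L 31 1)) (P 15 (L 46 7)))) (B12 (A02 (M 1 (L
  31 1)) (P 15 (L 46 7))) (M 1 (L 31 1)))) (M 1 (L 31 1))))) (A03 (B12 (P 15 (L 46 7)) (A01 (A02
  (B02 (P 15 (L 46 7)) (P 16 (L 49 8))) (B02 (P 15 (L 46 7)) (A23 (P 15 (L 46 7)) (P 16 (L 49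
  8))))) (A13 (P 15 (L 46 7)) (B02 (P 15 (L 46 7)) (A23 (P 15 (L 46 7)) (P 16 (L 49 8))))))) (B12
  (P 15 (L 46 7)) (A13 (A01 (B02 (P 15 (L 46 7)) (A02 (P 16 (L 49 8)) (P 15 (L 46 7)))) (P 15 (L 46
  7))) (A23 (B02 (P 15 (L 46 7)) (A02 (B12 (P 15 (L 46 7)) (M 1 (L 31 1))) (P 15 (L 46 7)))) (B02
  (P 15 (L 46 7)) (A03 (B12 (P 15 (L 46 7)) (M 1 (L 31 1))) (B12 (P 15 (L 46 7)) (M 1 (L 31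
  1)))))))))) (B12 (A03 (P 16 (L 49 8)) (B01 (A13 (P 16 (L 49 8)) (A23 (P 16 (L 49 8)) (B02 (A03 (P
  16 (L 49 8)) (B01 (P 16 (L 49 8)) (P 15 (L 46 7)))) (P 15 (L 46 7))))) (P 15 (L 46 7)))) (P 16 (L
  49 8))))) (P 15 (B02 (B01 (A23 (A12 (M 5 (L 46 7)) (A02 (M 5 (L 46 7)) (B02 (P 13 (L 41 5)) (B12
  (A23 (B01 (M 5 (L 46 7)) (M 6 (L 43 10))) (M 5 (L 46 7))) (M 5 (L 46 7)))))) (M 5 (L 46 7))) (A23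
  (B12 (A12 (M 5 (L 46 7)) (A02 (M 5 (L 46 7)) (B01 (A23 (M 6 (L 43 10)) (M 5 (L 46 7))) (M 6 (L 43
  10))))) (A12 (M 5 (L 46 7)) (A02 (M 5 (L 46 7)) (B02 (A23 (M 6 (L 43 10)) (M 5 (L 46 7))) (M 5 (L
  46 7)))))) (M 5 (L 46 7)))) (B12 (A23 (B01 (M 5 (L 46 7)) (M 6 (L 43 10))) (M 5 (L 46 7))) (M 5
  (L 46 7))))))))) (M 5 (A13 (P 10 (A12 (B02 (B01 (A01 (M 1 (L 31 1)) (P 16 (L 49 8))) (P 16 (L 49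
  8))) (P 16 (L 49 8))) (B02 (B01 (M 1 (L 31 1)) (A02 (B12 (A03 (P 15 (L 46 7)) (A23 (P 15 (L 46
  7)) (P 16 (L 49 8)))) (A03 (A01 (M 1 (L 31 1)) (B02 (A12 (P 16 (L 49 8)) (M 1 (L 31 1))) (P 16 (L
  49 8)))) (A23 (B02 (A12 (P 16 (L 49 8)) (M 1 (L 31 1))) (P 16 (L 49 8))) (P 16 (L 49 8))))) (B12
  (A23 (P 15 (L 46 7)) (A03 (P 15 (L 46 7)) (P 16 (L 49 8)))) (A23 (A12 (B02 (A01 (M 1 (L 31 1)) (P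
  16 (L 49 8))) (P 16 (L 49 8))) (M 1 (L 31 1))) (A03 (B02 (A01 (M 1 (L 31 1)) (P 16 (L 49 8))) (P
  16 (L 49 8))) (P 16 (L 49 8))))))) (B12 (A02 (P 16 (L 49 8)) (B01 (A23 (A12 (P 16 (L 49 8)) (B02
  (M 1 (L 31 1)) (A02 (P 16 (L 49 8)) (A23 (P 15 (L 46 7)) (P 16 (L 49 8)))))) (P 16 (L 49 8)))
  (A23 (P 15 (L 46 7)) (P 16 (L 49 8))))) (P 16 (L 49 8)))))) (A03 (P 10 (B02 (B01 (M 1 (L 31 1))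
  (A02 (B12 (A01 (A03 (P 15 (L 46 7)) (B01 (M 1 (L 31 1)) (P 16 (L 49 8)))) (A12 (P 16 (L 49 8))
  (B01 (M 1 (L 31 1)) (P 16 (L 49 8))))) (M 1 (L 31 1))) (B12 (A12 (A01 (B01 (M 1 (L 31 1)) (P 16
  (L 49 8))) (P 16 (L 49 8))) (A23 (P 15 (L 46 7)) (B01 (M 1 (L 31 1)) (A03 (P 15 (L 46 7)) (B12 (P
  15 (L 46 7)) (M 1 (L 31 1))))))) (M 1 (L 31 1))))) (B12 (A02 (P 16 (L 49 8)) (B01 (M 1 (L 31 1))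
  (A12 (P 16 (L 49 8)) (A23 (P 15 (L 46 7)) (P 16 (L 49 8)))))) (M 1 (L 31 1))))) (B02 (B01 (M 1
  (A23 (P 10 (L 31 1)) (P 12 (L 38 4)))) (P 10 (A23 (B12 (A12 (A13 (P 16 (L 49 8)) (B01 (M 1 (L 31
  1)) (A03 (P 16 (L 49 8)) (B12 (P 15 (L 46 7)) (M 1 (L 31 1)))))) (A02 (B01 (M 1 (L 31 1)) (A03
  (B12 (P 15 (L 46 7)) (M 1 (L 31 1))) (B12 (P 15 (L 46 7)) (M 1 (L 31 1))))) (B01 (M 1 (L 31 1))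
  (A23 (P 15 (L 46 7)) (B12 (P 15 (L 46 7)) (M 1 (L 31 1))))))) (M 1 (L 31 1))) (M 1 (L 31 1)))))
  (P 10 (B12 (A23 (B01 (M 1 (L 31 1)) (A12 (P 16 (L 49 8)) (A02 (P 16 (L 49 8)) (B12 (A23 (P 15 (L
  46 7)) (B01 (M 1 (L 31 1)) (P 15 (L 46 7)))) (M 1 (L 31 1)))))) (M 1 (L 31 1))) (M 1 (L 31
  1)))))))))))))))) (A12 (A13 (P 10 (A01 (B12 (A02 (P 14 (M 11 (B01 (A03 (P 15 (A01 (B02 (A02 (B01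
  (A03 (A01 (S 1 (L 4 1) (L 45 1)) (B02 (A12 (B01 (M 5 (L 46 7)) (M 6 (L 43 10))) (S 1 (L 4 1) (L
  31 1))) (M 6 (L 43 10)))) (M 5 (L 46 7))) (M 6 (L 43 10))) (B01 (M 5 (L 46 7)) (M 6 (L 43 10))))
  (M 6 (L 43 10))) (B02 (A12 (B01 (M 5 (L 46 7)) (M 6 (L 43 10))) (B01 (M 5 (L 46 7)) (M 6 (L 43
  10)))) (M 6 (L 43 10))))) (A23 (P 15 (B02 (A12 (M 5 (L 46 7)) (B01 (M 5 (L 46 7)) (M 6 (L 43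
  10)))) (M 6 (L 43 10)))) (M 5 (B02 (A13 (P 15 (L 46 7)) (B01 (S 1 (L 4 1) (L 31 1)) (M 6 (L 43
  10)))) (P 15 (L 46 7)))))) (M 6 (L 43 10))))) (B01 (A23 (out 7) (P 14 (M 11 (A03 (M 6 (L 43 10))
  (S 1 (L 4 1) (L 31 1)))))) (M 6 (A23 (out 7) (P 14 (L 43 10)))))) (A02 (P 14 (M 11 (A03 (P 15
  (A01 (B02 (B01 (A02 (A03 (A01 (B02 (B01 (M 5 (L 46 7)) (M 6 (L 43 10))) (M 6 (L 43 10))) (M 5 (L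
  46 7))) (M 5 (L 46 7))) (M 5 (L 46 7))) (M 6 (L 43 10))) (M 6 (L 43 10))) (M 5 (L 46 7)))) (S 1
  (L 4 1) (L 31 1))))) (A23 (out 7) (M 11 (S 1 (L 4 1) (L 31 1)))))) (P 16 (B12 (A12 (B01 (A13 (out
  7) (A23 (out 7) (M 11 (S 1 (L 4 1) (L 31 1))))) (M 12 (A13 (out 7) (S 2 (L 7 4) (L 25 4))))) (B01
  (A23 (out 7) (A13 (out 7) (M 11 (S 1 (L 4 1) (L 31 1))))) (P 1 (S 11 (L 35 1) (L 4 1))))) (M 5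
  (A12 (A13 (out 7) (A23 (out 7) (P 14 (B02 (M 3 (L 49 8)) (B12 (A03 (out 11) (B01 (A13 (out 11) (M
  3 (L 49 8))) (P 15 (L 46 7)))) (A03 (out 11) (A13 (out 11) (A23 (M 6 (L 43 10)) (B02 (M 3 (L 49
  8)) (M 6 (L 43 10))))))))))) (A23 (out 7) (A13 (out 7) (P 14 (M 11 (B02 (S 1 (L 4 1) (L 31 1))
  (B12 (M 3 (L 49 8)) (A03 (M 6 (L 43 10)) (A23 (M 6 (L 43 10)) (A13 (M 6 (L 43 10)) (M 3 (L 49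
  8))))))))))))))))) (A23 (M 19 (P 10 (B12 (A02 (P 14 (M 11 (B01 (A01 (P 15 (A03 (B02 (A02 (B01
  (A01 (A03 (S 1 (L 4 1) (L 45 1)) (M 5 (L 46 7))) (M 5 (L 46 7))) (M 6 (L 43 10))) (B01 (M 5 (L 46
  7)) (M 6 (L 43 10)))) (M 6 (L 43 10))) (B02 (A23 (B01 (M 5 (L 46 7)) (M 6 (L 43 10))) (M 5 (L 46
  7))) (M 6 (L 43 10))))) (A12 (B02 (A13 (B01 (S 1 (L 4 1) (L 31 1)) (M 6 (L 43 10))) (B01 (S 1 (L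
  4 1) (L 31 1)) (M 6 (L 43 10)))) (M 6 (L 43 10))) (P 15 (B02 (A23 (B01 (M 5 (L 46 7)) (M 6 (L 43
  10))) (M 5 (L 46 7))) (M 6 (L 43 10)))))) (M 6 (L 43 10))))) (B01 (A12 (P 14 (M 11 (A01 (P 15
  (B02 (A03 (M 6 (L 43 10)) (M 5 (L 46 7))) (M 6 (L 43 10)))) (S 1 (L 4 1) (L 31 1))))) (P 15 (A23
  (out 7) (P 14 (B02 (A03 (M 6 (L 43 10)) (M 5 (L 46 7))) (M 6 (L 43 10))))))) (M 6 (A12 (P 14 (L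
  43 10)) (A23 (out 7) (P 14 (L 43 10))))))) (A02 (P 14 (M 11 (A01 (P 15 (A03 (B02 (B01 (A02 (A01
  (A03 (B02 (B01 (M 5 (L 46 7)) (A02 (P 13 (L 41 5)) (M 5 (L 46 7)))) (B12 (A02 (B01 (M 5 (L 46 7))
  (M 6 (L 43 10))) (M 5 (L 46 7))) (M 5 (L 46 7)))) (M 5 (L 46 7))) (M 5 (L 46 7))) (M 5 (L 46 7)))
  (M 6 (L 43 10))) (M 6 (L 43 10))) (M 5 (L 46 7)))) (S 1 (L 4 1) (L 31 1))))) (M 5 (A12 (M 11 (S 1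
  (L 4 1) (L 31 1))) (P 15 (L 46 7)))))))) (P 14 (M 11 (M 3 (B12 (A03 (M 19 (P 10 (B01 (A01 (P 15
  (A02 (B02 (A03 (B01 (A01 (A02 (S 1 (L 4 1) (L 45 1)) (M 5 (L 46 7))) (M 5 (L 46 7))) (A01 (A02 (S
  1 (L 4 1) (L 45 1)) (B12 (S 1 (L 4 1) (L 45 1)) (A23 (A12 (S 1 (L 4 1) (L 31 1)) (A02 (S 1 (L 4
  1) (L 31 1)) (M 5 (L 46 7)))) (S 1 (L 4 1) (L 45 1))))) (A13 (M 6 (L 43 10)) (B12 (S 1 (L 4 1) (L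
  45 1)) (M 5 (L 46 7)))))) (B01 (M 5 (L 46 7)) (A13 (A01 (B12 (S 1 (L 4 1) (L 45 1)) (M 5 (L 46
  7))) (M 5 (L 46 7))) (A23 (B12 (S 1 (L 4 1) (L 45 1)) (M 5 (L 46 7))) (S 1 (L 4 1) (L 45 1))))))
  (A03 (A01 (A02 (B12 (S 1 (L 4 1) (L 45 1)) (B02 (P 13 (L 41 5)) (M 6 (L 43 10)))) (B12 (B01 (A23
  (M 6 (L 43 10)) (P 13 (L 41 5))) (M 6 (L 43 10))) (B02 (A23 (M 6 (L 43 10)) (P 13 (L 41 5))) (M 6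
  (L 43 10))))) (A13 (M 6 (L 43 10)) (B12 (B01 (A23 (M 6 (L 43 10)) (P 13 (L 41 5))) (M 6 (L 43
  10))) (B02 (A23 (M 6 (L 43 10)) (B01 (M 5 (L 46 7)) (M 6 (L 43 10)))) (M 6 (L 43 10)))))) (A13
  (A01 (B12 (B01 (A02 (P 13 (L 41 5)) (M 5 (L 46 7))) (M 6 (L 43 10))) (B02 (A02 (B01 (M 5 (L 46
  7)) (M 6 (L 43 10))) (M 5 (L 46 7))) (M 6 (L 43 10)))) (M 5 (L 46 7))) (A23 (B12 (B01 (A02 (P 13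
  (L 41 5)) (M 5 (L 46 7))) (M 6 (L 43 10))) (B02 (A02 (B01 (M 5 (L 46 7)) (M 6 (L 43 10))) (M 5 (L
  46 7))) (M 6 (L 43 10)))) (B12 (S 1 (L 4 1) (L 45 1)) (B02 (A03 (B01 (M 5 (L 46 7)) (A01 (P 13 (L
  41 5)) (M 5 (L 46 7)))) (M 5 (L 46 7))) (A03 (M 6 (L 43 10)) (M 5 (L 46 7))))))))) (M 5 (L 46
  7)))) (M 5 (A13 (B02 (A12 (B01 (S 1 (L 4 1) (L 31 1)) (P 15 (L 46 7))) (B01 (S 1 (L 4 1) (L 31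
  1)) (P 15 (L 46 7)))) (P 15 (L 46 7))) (B02 (A23 (B01 (A02 (A03 (B02 (A01 (P 15 (L 46 7)) (B01 (S
  1 (L 4 1) (L 31 1)) (P 15 (L 46 7)))) (P 15 (L 46 7))) (B02 (A13 (B01 (S 1 (L 4 1) (L 31 1)) (P
  15 (L 46 7))) (P 15 (L 46 7))) (P 15 (L 46 7)))) (A12 (B02 (A13 (S 1 (L 4 1) (L 31 1)) (P 15 (L
  46 7))) (P 15 (L 46 7))) (P 15 (L 46 7)))) (P 15 (L 46 7))) (B01 (A03 (A02 (B02 (A01 (P 15 (L 46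
  7)) (M 1 (L 31 1))) (P 15 (L 46 7))) (B02 (M 1 (L 31 1)) (P 15 (L 46 7)))) (M 1 (L 31 1))) (P 15
  (L 46 7)))) (P 15 (L 46 7)))))) (P 15 (A01 (A02 (B12 (A03 (M 6 (L 43 10)) (B01 (A13 (M 6 (L 43
  10)) (S 1 (L 4 1) (L 45 1))) (M 6 (L 43 10)))) (A03 (M 6 (L 43 10)) (A13 (M 6 (L 43 10)) (A23 (M
  6 (L 43 10)) (B02 (S 1 (L 4 1) (L 45 1)) (B12 (P 13 (L 41 5)) (A03 (M 6 (L 43 10)) (M 5 (L 46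
  7))))))))) (B12 (A23 (M 6 (L 43 10)) (B01 (A13 (M 6 (L 43 10)) (S 1 (L 4 1) (L 31 1))) (M 6 (L 43
  10)))) (A23 (M 6 (L 43 10)) (A13 (M 6 (L 43 10)) (A03 (M 6 (L 43 10)) (B02 (B01 (M 5 (L 46 7))
  (A23 (M 6 (L 43 10)) (S 1 (L 4 1) (L 31 1)))) (B12 (A23 (M 6 (L 43 10)) (P 13 (L 41 5))) (M 5 (L
  46 7))))))))) (A13 (M 6 (L 43 10)) (B12 (A23 (M 6 (L 43 10)) (B01 (A03 (M 6 (L 43 10)) (A13 (B02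
  (A12 (B01 (M 5 (L 46 7)) (M 6 (L 43 10))) (P 13 (L 41 11))) (M 6 (L 43 10))) (S 1 (L 4 1) (L 45
  1)))) (M 6 (L 43 10)))) (M 5 (L 46 7))))))))) (B01 (M 5 (A13 (P 10 (A01 (B02 (A02 (B01 (M 1 (L 31
  1)) (A03 (P 15 (L 46 7)) (A23 (P 15 (L 46 7)) (B12 (A13 (P 15 (L 46 7)) (M 1 (L 31 1))) (A13 (P
  15 (L 46 7)) (M 1 (L 31 1))))))) (B01 (A23 (A12 (B02 (M 1 (L 31 1)) (A01 (A03 (P 15 (L 46 7)) (S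
  1 (L 4 1) (L 31 1))) (S 1 (L 4 1) (L 31 1)))) (B02 (A02 (M 1 (L 31 1)) (S 1 (L 4 1) (L 31 1)))
  (A02 (A03 (P 15 (L 46 7)) (S 1 (L 4 1) (L 31 1))) (S 1 (L 4 1) (L 31 1))))) (M 1 (L 31 1))) (A23
  (P 15 (L 46 7)) (A03 (P 15 (L 46 7)) (S 1 (L 4 1) (L 31 1)))))) (A02 (A03 (P 15 (L 46 7)) (A23 (P
  15 (L 46 7)) (B12 (B01 (A13 (P 15 (L 46 7)) (B02 (M 1 (L 31 1)) (P 15 (L 46 7)))) (P 15 (L 46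
  7))) (P 16 (L 49 8))))) (A23 (P 15 (L 46 7)) (A03 (P 15 (L 46 7)) (S 1 (L 4 1) (L 31 1)))))) (S 1
  (L 4 1) (L 31 1)))) (A23 (P 10 (B02 (A02 (B01 (M 1 (L 31 1)) (A01 (A03 (P 15 (L 46 7)) (B12 (A23
  (P 15 (L 46 7)) (M 1 (L 31 1))) (M 1 (L 31 1)))) (A12 (M 1 (L 31 1)) (B12 (A23 (P 15 (L 46 7)) (M
  1 (L 31 1))) (M 1 (L 31 1)))))) (B01 (A12 (M 1 (L 31 1)) (A23 (B02 (A02 (M 1 (L 31 1)) (S 1 (L 4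
  1) (L 31 1))) (A02 (A01 (P 15 (L 46 7)) (S 1 (L 4 1) (L 31 1))) (S 1 (L 4 1) (L 31 1)))) (M 1 (L
  31 1)))) (A12 (A01 (B12 (A03 (P 15 (L 46 7)) (B01 (M 1 (L 31 1)) (P 15 (L 46 7)))) (M 1 (L 31
  1))) (B12 (A13 (S 1 (L 4 1) (L 31 1)) (B01 (M 1 (L 31 1)) (P 15 (L 46 7)))) (M 1 (L 31 1)))) (A23
  (P 15 (L 46 7)) (B12 (A03 (P 15 (L 46 7)) (B01 (M 1 (L 31 1)) (P 15 (L 46 7)))) (M 1 (L 31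
  1))))))) (A02 (A01 (A03 (P 15 (L 46 7)) (B12 (B01 (A23 (P 15 (L 46 7)) (B02 (M 1 (L 31 1)) (P 15
  (L 46 7)))) (P 15 (L 46 7))) (B02 (A23 (P 15 (L 46 7)) (B01 (M 1 (L 31 1)) (P 15 (L 46 7)))) (P
  15 (L 46 7))))) (A12 (B12 (B01 (A13 (B02 (M 1 (L 31 1)) (P 15 (L 46 7))) (B02 (M 1 (L 31 1)) (P
  15 (L 46 7)))) (P 15 (L 46 7))) (S 1 (L 4 1) (L 31 1))) (B12 (B01 (A23 (P 15 (L 46 7)) (B02 (M 1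
  (L 31 1)) (P 15 (L 46 7)))) (P 15 (L 46 7))) (S 1 (L 4 1) (L 31 1))))) (A12 (A01 (B12 (B01 (S 1
  (L 4 1) (L 31 1)) (P 15 (L 46 7))) (S 1 (L 4 1) (L 31 1))) (B12 (B01 (S 1 (L 4 1) (L 31 1)) (P 15
  (L 46 7))) (S 1 (L 4 1) (L 31 1)))) (A23 (P 15 (L 46 7)) (B12 (B01 (S 1 (L 4 1) (L 31 1)) (P 15
  (L 46 7))) (S 1 (L 4 1) (L 31 1)))))))) (B02 (M 1 (A03 (P 10 (L 31 1)) (B01 (P 12 (L 38 4)) (P 10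
  (L 31 1))))) (P 10 (A03 (A01 (A02 (B12 (M 1 (L 31 1)) (B02 (M 1 (L 31 1)) (P 15 (L 46 7)))) (B12
  (M 1 (L 31 1)) (B02 (M 1 (L 31 1)) (P 15 (L 46 7))))) (A13 (B12 (M 1 (L 31 1)) (S 1 (L 4 1) (L 31
  1))) (B12 (M 1 (L 31 1)) (B02 (M 1 (L 31 1)) (P 15 (L 46 7)))))) (M 1 (L 31 1)))))))) (M 19 (P 10
  (A13 (P 15 (A01 (B12 (A02 (B01 (A03 (A01 (S 1 (L 4 1) (L 31 1)) (M 5 (L 46 7))) (M 5 (L 46 7)))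
  (M 6 (L 43 10))) (B01 (M 5 (L 46 7)) (M 6 (L 43 10)))) (M 5 (L 46 7))) (M 5 (L 46 7)))) (A23 (P
  15 (B12 (A02 (B01 (A01 (A03 (S 1 (L 4 1) (L 31 1)) (M 5 (L 46 7))) (M 5 (L 46 7))) (A01 (A03 (S 1
  (L 4 1) (L 45 1)) (B12 (P 13 (L 41 11)) (M 5 (L 46 7)))) (A12 (M 5 (L 46 7)) (B12 (P 13 (L 41
  11)) (M 5 (L 46 7)))))) (B01 (M 5 (L 46 7)) (A12 (A01 (B12 (A03 (M 6 (L 43 10)) (M 5 (L 46 7)))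
  (M 5 (L 46 7))) (M 5 (L 46 7))) (A23 (M 6 (L 43 10)) (B12 (A03 (M 6 (L 43 10)) (M 5 (L 46 7))) (M
  5 (L 46 7))))))) (M 5 (L 46 7)))) (B12 (A03 (P 15 (B01 (A01 (A02 (S 1 (L 4 1) (L 45 1)) (M 5 (L
  46 7))) (M 5 (L 46 7))) (A01 (A02 (S 1 (L 4 1) (L 45 1)) (B12 (P 13 (L 41 11)) (M 5 (L 46 7))))
  (M 5 (L 46 7))))) (M 5 (B01 (A13 (P 15 (L 46 7)) (A23 (P 15 (L 46 7)) (M 1 (L 31 1)))) (P 15 (L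
  46 7))))) (M 5 (A03 (P 15 (L 46 7)) (A13 (P 15 (L 46 7)) (A23 (P 15 (L 46 7)) (M 1 (L 31
  1))))))))))))) (A03 (M 19 (P 10 (A01 (P 15 (A02 (B02 (B01 (A03 (A01 (A02 (B02 (P 13 (L 41 5))
  (B12 (A03 (B01 (M 5 (L 46 7)) (M 6 (L 43 10))) (M 5 (L 46 7))) (M 5 (L 46 7)))) (M 5 (L 46 7)))
  (M 5 (L 46 7))) (M 5 (L 46 7))) (A03 (B12 (A01 (A02 (B01 (A03 (M 6 (L 43 10)) (M 5 (L 46 7))) (M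
  6 (L 43 10))) (M 5 (L 46 7))) (M 5 (L 46 7))) (A01 (A02 (B02 (A03 (M 6 (L 43 10)) (M 5 (L 46 7)))
  (M 5 (L 46 7))) (M 5 (L 46 7))) (M 5 (L 46 7)))) (M 5 (L 46 7)))) (B12 (A03 (B01 (M 5 (L 46 7))
  (M 6 (L 43 10))) (M 5 (L 46 7))) (M 5 (L 46 7)))) (M 5 (L 46 7)))) (M 5 (A13 (S 1 (L 4 1) (L 31
  1)) (B02 (B01 (A23 (S 1 (L 4 1) (L 31 1)) (A03 (A02 (B02 (B01 (A01 (P 15 (L 46 7)) (M 1 (L 31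
  1))) (A01 (P 15 (L 46 7)) (B12 (P 15 (L 46 7)) (M 1 (L 31 1))))) (B12 (A01 (P 15 (L 46 7)) (B01
  (P 16 (L 49 8)) (P 15 (L 46 7)))) (P 16 (L 49 8)))) (B02 (B01 (M 1 (L 31 1)) (A12 (B12 (P 15 (L
  46 7)) (M 1 (L 31 1))) (P 15 (L 46 7)))) (B12 (A12 (B01 (P 16 (L 49 8)) (P 15 (L 46 7))) (P 15 (L
  46 7))) (P 16 (L 49 8))))) (M 1 (L 31 1)))) (A23 (S 1 (L 4 1) (L 31 1)) (B12 (P 15 (L 46 7)) (A03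
  (A02 (B02 (P 15 (L 46 7)) (P 16 (L 49 8))) (B02 (P 15 (L 46 7)) (P 16 (L 49 8)))) (A13 (B02 (P 15
  (L 46 7)) (P 16 (L 49 8))) (B02 (P 15 (L 46 7)) (A23 (P 16 (L 49 8)) (B12 (P 15 (L 46 7)) (M 1 (L
  31 1)))))))))) (B12 (A23 (S 1 (L 4 1) (L 31 1)) (B01 (A03 (P 16 (L 49 8)) (A13 (P 16 (L 49 8))
  (B02 (A23 (P 16 (L 49 8)) (B01 (P 16 (L 49 8)) (P 15 (L 46 7)))) (P 15 (L 46 7))))) (P 15 (L 46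
  7)))) (P 16 (L 49 8))))))))) (M 5 (A13 (P 10 (A01 (B02 (B01 (A02 (M 1 (L 31 1)) (S 1 (L 4 1) (L
  31 1))) (A02 (B12 (A03 (P 15 (L 46 7)) (S 1 (L 4 1) (L 31 1))) (A03 (A01 (B02 (A02 (M 1 (L 31 1))
  (A23 (P 15 (L 46 7)) (M 1 (L 31 1)))) (A02 (M 1 (L 31 1)) (P 16 (L 49 8)))) (S 1 (L 4 1) (L 31
  1))) (S 1 (L 4 1) (L 31 1)))) (S 1 (L 4 1) (L 31 1)))) (B12 (A02 (B01 (A03 (A01 (B02 (A02 (M 1 (L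
  31 1)) (P 16 (L 49 8))) (A02 (A03 (P 15 (L 46 7)) (P 16 (L 49 8))) (P 16 (L 49 8)))) (P 16 (L 49
  8))) (P 16 (L 49 8))) (A03 (P 15 (L 46 7)) (P 16 (L 49 8)))) (S 1 (L 4 1) (L 31 1))) (P 16 (L 49
  8)))) (S 1 (L 4 1) (L 31 1)))) (A23 (P 10 (B02 (B01 (A02 (M 1 (L 31 1)) (S 1 (L 4 1) (L 31 1)))
  (A02 (B12 (A01 (A03 (P 15 (L 46 7)) (S 1 (L 4 1) (L 31 1))) (S 1 (L 4 1) (L 31 1))) (A01 (A03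
  (B02 (A02 (M 1 (L 31 1)) (A12 (M 1 (L 31 1)) (P 15 (L 46 7)))) (A02 (M 1 (L 31 1)) (P 16 (L 49
  8)))) (S 1 (L 4 1) (L 31 1))) (S 1 (L 4 1) (L 31 1)))) (S 1 (L 4 1) (L 31 1)))) (B12 (A02 (B01
  (A01 (A03 (B02 (A02 (M 1 (L 31 1)) (P 16 (L 49 8))) (A02 (A01 (P 15 (L 46 7)) (P 16 (L 49 8))) (P
  16 (L 49 8)))) (S 1 (L 4 1) (L 31 1))) (S 1 (L 4 1) (L 31 1))) (A01 (A03 (P 15 (L 46 7)) (S 1 (L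
  4 1) (L 31 1))) (S 1 (L 4 1) (L 31 1)))) (S 1 (L 4 1) (L 31 1))) (P 16 (L 49 8))))) (B02 (B01 (M
  1 (A03 (P 10 (L 31 1)) (P 12 (L 38 4)))) (P 10 (A03 (B12 (A01 (A02 (B01 (M 1 (L 31 1)) (A03 (P 15
  (L 46 7)) (B12 (P 15 (L 46 7)) (M 1 (L 31 1))))) (B01 (M 1 (L 31 1)) (A23 (S 1 (L 4 1) (L 31 1))
  (B12 (P 15 (L 46 7)) (M 1 (L 31 1)))))) (A13 (S 1 (L 4 1) (L 31 1)) (B01 (M 1 (L 31 1)) (A23 (S 1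
  (L 4 1) (L 31 1)) (B12 (P 15 (L 46 7)) (M 1 (L 31 1))))))) (M 1 (L 31 1))) (M 1 (L 31 1))))) (P
  10 (B12 (A03 (B01 (M 1 (L 31 1)) (A01 (A02 (B12 (A03 (P 15 (L 46 7)) (B01 (M 1 (L 31 1)) (P 15 (L
  46 7)))) (M 1 (L 31 1))) (S 1 (L 4 1) (L 31 1))) (S 1 (L 4 1) (L 31 1)))) (M 1 (L 31 1))) (M 1 (L
  31 1))))))))))))))) (A23 (M 19 (P 15 (M 12 (P 10 (A02 (B12 (P 4 (A01 (P 14 (M 11 (B01 (A03 (A02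
  (B02 (A01 (S 1 (L 4 1) (L 31 1)) (B01 (A13 (M 6 (L 43 10)) (A03 (B02 (A02 (B01 (M 5 (L 46 7)) (M
  6 (L 43 10))) (B01 (M 5 (L 46 7)) (M 6 (L 43 10)))) (M 6 (L 43 10))) (B02 (A23 (B01 (M 5 (L 46
  7)) (M 6 (L 43 10))) (M 5 (L 46 7))) (A23 (M 6 (L 43 10)) (M 5 (L 46 7)))))) (A13 (M 6 (L 43 10))
  (A03 (M 6 (L 43 10)) (B12 (S 1 (L 4 1) (L 31 1)) (A23 (M 6 (L 43 10)) (A13 (M 6 (L 43 10)) (S 1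
  (L 4 1) (L 31 1))))))))) (M 6 (L 43 10))) (B02 (A12 (B01 (A13 (M 6 (L 43 10)) (A23 (M 6 (L 43
  10)) (B02 (A03 (B01 (M 5 (L 46 7)) (M 6 (L 43 10))) (M 5 (L 46 7))) (A03 (M 6 (L 43 10)) (M 5 (L
  46 7)))))) (A13 (M 6 (L 43 10)) (A23 (M 6 (L 43 10)) (B12 (S 1 (L 4 1) (L 31 1)) (A03 (M 6 (L 43
  10)) (A13 (M 6 (L 43 10)) (S 1 (L 4 1) (L 31 1)))))))) (B01 (A23 (out 5) (A13 (out 5) (S 1 (L 4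
  1) (L 31 1)))) (A23 (out 5) (A13 (out 5) (S 1 (L 4 1) (L 31 1)))))) (S 2 (L 7 4) (L 25 4)))) (A13
  (B02 (A12 (B01 (M 5 (L 46 7)) (A01 (A02 (B12 (S 1 (L 4 1) (L 31 1)) (M 5 (L 46 7))) (M 6 (L 43
  10))) (M 6 (L 43 10)))) (B01 (A02 (M 5 (L 46 7)) (M 6 (L 43 10))) (A02 (A01 (B12 (S 1 (L 4 1) (L
  31 1)) (A03 (A02 (M 5 (L 46 7)) (M 6 (L 43 10))) (M 6 (L 43 10)))) (M 6 (L 43 10))) (M 6 (L 43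
  10))))) (S 2 (L 7 4) (L 25 4))) (B02 (A23 (B01 (A02 (S 1 (L 4 1) (L 31 1)) (M 6 (L 43 10))) (A02
  (A03 (B12 (S 1 (L 4 1) (L 31 1)) (A01 (A02 (M 5 (L 46 7)) (M 6 (L 43 10))) (M 6 (L 43 10)))) (M 6
  (L 43 10))) (M 6 (L 43 10)))) (B01 (S 1 (L 4 1) (L 45 1)) (A03 (A02 (B12 (S 1 (L 4 1) (L 31 1))
  (M 5 (L 46 7))) (B12 (S 1 (L 4 1) (L 31 1)) (M 5 (L 46 7)))) (A13 (B12 (P 13 (L 41 7)) (S 1 (L 4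
  1) (L 31 1))) (B12 (A23 (P 13 (L 41 7)) (S 1 (L 4 1) (L 31 1))) (S 1 (L 4 1) (L 31 1))))))) (M 6
  (K [(43,10,4),(43,5,4)] []))))) (M 6 (A03 (A02 (L 43 10) (K [(43,10,5),(43,5,3)] [])) (A13 (K
  [(43,10,5),(43,5,3)] []) (K [(43,10,4),(43,5,4)] []))))))) (B01 (A13 (out 7) (P 14 (M 11 (A03 (M
  6 (K [(43,10,5),(43,5,3)] [])) (B02 (A23 (M 6 (L 43 10)) (B01 (S 13 (L 41 7) (L 13 7)) (A13 (M 6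
  (L 43 10)) (A03 (M 6 (L 43 10)) (B12 (A23 (M 6 (L 43 10)) (S 1 (L 4 1) (L 31 1))) (S 1 (L 4 1) (L
  31 1))))))) (S 13 (L 41 7) (L 13 7))))))) (M 6 (A13 (out 7) (P 14 (A03 (K [(43,10,5),(43,5,3)]
  []) (B12 (A23 (B01 (A12 (A13 (K [(43,10,13),(43,5,11)] []) (P 13 (K
  [(41,7,2),(43,10,2),(43,5,3),(41,11,1)] []))) (P 13 (K [(41,7,1),(43,10,13),(43,5,10)] []))) (K
  [(43,5,4),(43,10,3)] [])) (B01 (A13 (A12 (S 2 (L 7 4) (L 25 4)) (P 13 (K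
  [(41,7,1),(43,5,3),(43,10,3),(41,11,1)] []))) (P 13 (K [(41,7,1),(43,5,3),(43,10,4)] []))) (K
  [(43,5,5),(43,10,3)] []))) (S 13 (L 41 7) (L 13 7)))))))))) (A01 (P 14 (M 11 (P 4 (A03 (A02 (B02
  (B01 (A01 (A03 (A02 (B02 (B01 (M 5 (L 46 7)) (A01 (P 13 (L 41 5)) (B12 (M 6 (L 43 10)) (M 5 (L 46
  7))))) (B12 (A01 (P 13 (L 41 5)) (B01 (M 5 (L 46 7)) (M 6 (L 43 10)))) (M 5 (L 46 7)))) (B02 (B01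
  (M 5 (L 46 7)) (A12 (B12 (M 6 (L 43 10)) (M 5 (L 46 7))) (S 1 (L 4 1) (L 31 1)))) (B12 (A12 (B01
  (M 5 (L 46 7)) (M 6 (L 43 10))) (S 1 (L 4 1) (L 31 1))) (M 5 (L 46 7))))) (A13 (B02 (B01 (M 5 (L
  46 7)) (A12 (M 5 (L 46 7)) (B12 (M 6 (L 43 10)) (M 5 (L 46 7))))) (B12 (A12 (M 5 (L 46 7)) (B01
  (M 5 (L 46 7)) (M 6 (L 43 10)))) (M 5 (L 46 7)))) (B02 (B01 (M 5 (L 46 7)) (A23 (B12 (M 6 (L 43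
  10)) (M 5 (L 46 7))) (M 5 (L 46 7)))) (B12 (A23 (B01 (M 5 (L 46 7)) (M 6 (L 43 10))) (M 5 (L 46
  7))) (M 5 (L 46 7)))))) (A13 (M 6 (L 43 10)) (A03 (B02 (B01 (M 5 (L 46 7)) (M 6 (L 43 10))) (M 6
  (L 43 10))) (B02 (B01 (M 5 (L 46 7)) (A23 (M 6 (L 43 10)) (M 5 (L 46 7)))) (B12 (A23 (M 6 (L 43
  10)) (M 5 (L 46 7))) (M 5 (L 46 7))))))) (M 6 (L 43 10))) (M 6 (L 43 10))) (B02 (B01 (A12 (A13 (M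
  6 (L 43 10)) (A23 (M 6 (L 43 10)) (B02 (B01 (M 5 (L 46 7)) (A03 (M 6 (L 43 10)) (M 5 (L 46 7))))
  (B12 (A03 (M 6 (L 43 10)) (M 5 (L 46 7))) (M 5 (L 46 7)))))) (A23 (out 5) (A13 (out 5) (B02 (B01
  (M 5 (L 46 7)) (A03 (out 5) (M 5 (L 46 7)))) (B12 (A03 (out 5) (M 5 (L 46 7))) (M 5 (L 46
  7))))))) (S 2 (L 7 4) (L 25 4))) (S 2 (L 7 4) (L 25 4)))) (A13 (B02 (B01 (A12 (M 5 (L 46 7)) (A02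
  (M 5 (L 46 7)) (M 6 (L 43 10)))) (S 2 (L 7 4) (L 25 4))) (S 2 (L 7 4) (L 25 4))) (B02 (B01 (A23
  (A02 (S 1 (L 4 1) (L 31 1)) (M 6 (L 43 10))) (S 13 (L 41 7) (L 13 7))) (S 13 (L 41 7) (L 13 7)))
  (M 6 (K [(43,10,4),(43,5,4)] [])))))))) (A13 (out 7) (P 14 (P 4 (A03 (M 6 (K [(43,10,5),(43,5,3)]
  [])) (B02 (B01 (A23 (M 6 (L 43 10)) (S 13 (L 41 7) (L 13 7))) (S 13 (L 41 7) (L 13 7))) (M 6 (B12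
  (S 13 (L 41 7) (L 13 7)) (M 13 (P 2 (K [(13,7,1),(7,10,1),(43,5,3),(43,10,4)] [])))))))))))) (B12
  (P 4 (A12 (B01 (A13 (out 7) (A23 (out 7) (B02 (A03 (S 13 (L 41 7) (L 13 7)) (B01 (S 13 (L 41 7)
  (L 13 7)) (A13 (S 13 (L 41 7) (L 13 7)) (A23 (S 13 (L 41 7) (L 13 7)) (B12 (A03 (S 13 (L 41 7) (L
  13 7)) (S 13 (L 41 7) (L 13 7))) (S 13 (L 41 7) (L 13 7))))))) (S 13 (L 41 7) (L 13 7))))) (M 6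
  (A13 (out 7) (P 14 (A23 (out 7) (B12 (A03 (B01 (A01 (out 5) (S 13 (L 41 7) (L 13 7))) (L 43 5))
  (B01 (S 13 (L 41 7) (L 13 7)) (L 43 5))) (S 13 (L 41 7) (L 13 7)))))))) (P 14 (B01 (A23 (out 5)
  (A13 (out 5) (B02 (A03 (out 5) (B01 (M 5 (L 46 1)) (A23 (out 5) (A13 (S 13 (L 41 7) (L 13 7))
  (B12 (A03 (S 13 (L 41 7) (L 13 7)) (S 13 (L 41 7) (L 13 7))) (S 13 (L 41 7) (L 13 7))))))) (S 13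
  (L 41 7) (L 13 7))))) (M 6 (A23 (out 5) (A13 (out 5) (B12 (P 13 (K
  [(41,7,45),(43,5,103),(43,10,52)] [])) (S 13 (L 41 7) (L 13 7)))))))))) (A12 (A13 (out 7) (P 4
  (A23 (out 7) (B02 (B01 (A03 (S 13 (L 41 7) (L 13 7)) (S 13 (L 41 7) (L 13 7))) (S 13 (L 41 7) (L
  13 7))) (S 13 (L 41 7) (L 13 7)))))) (P 4 (A23 (out 5) (A13 (out 5) (B02 (B01 (A03 (out 5) (M 5
  (L 46 1))) (S 13 (L 41 7) (L 13 7))) (S 13 (L 41 7) (L 13 7))))))))))))) (A13 (M 19 (P 15 (M 12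
  (P 10 (B12 (P 4 (A01 (P 14 (M 11 (B01 (A02 (A03 (B02 (A01 (B01 (A02 (A03 (S 1 (L 4 1) (L 45 1))
  (M 5 (L 46 7))) (M 5 (L 46 7))) (A02 (M 6 (L 43 10)) (A12 (M 6 (L 43 10)) (B12 (S 1 (L 4 1) (L 31
  1)) (A23 (S 1 (L 4 1) (L 31 1)) (M 6 (L 43 10))))))) (B01 (M 5 (L 46 7)) (A12 (M 6 (L 43 10))
  (A02 (M 6 (L 43 10)) (B12 (S 1 (L 4 1) (L 31 1)) (M 5 (L 46 7))))))) (M 6 (L 43 10))) (B02 (A13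
  (B01 (M 5 (L 46 7)) (A12 (M 6 (L 43 10)) (A23 (B12 (S 1 (L 4 1) (L 31 1)) (M 5 (L 46 7))) (M 6 (L
  43 10))))) (B01 (M 5 (L 46 7)) (A23 (A12 (M 6 (L 43 10)) (B12 (A02 (M 6 (L 43 10)) (B01 (M 5 (L
  46 7)) (M 6 (L 43 10)))) (M 5 (L 46 7)))) (M 6 (L 43 10))))) (M 6 (L 43 10)))) (A12 (B02 (A13
  (B01 (M 5 (L 46 7)) (A01 (A03 (B12 (S 1 (L 4 1) (L 31 1)) (M 5 (L 46 7))) (M 6 (L 43 10))) (M 6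
  (L 43 10)))) (B01 (M 5 (L 46 7)) (A03 (A01 (B12 (A02 (B01 (M 5 (L 46 7)) (M 6 (L 43 10))) (M 6 (L
  43 10))) (M 5 (L 46 7))) (M 6 (L 43 10))) (M 6 (L 43 10))))) (M 6 (L 43 10))) (B02 (A23 (B01 (S 1
  (L 4 1) (L 45 1)) (A02 (A03 (B12 (S 1 (L 4 1) (L 31 1)) (M 5 (L 46 7))) (S 1 (L 4 1) (L 31 1)))
  (S 1 (L 4 1) (L 31 1)))) (B01 (S 1 (L 4 1) (L 31 1)) (A03 (A02 (B12 (A01 (B01 (M 5 (L 46 7)) (M 6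
  (L 43 10))) (B01 (M 5 (L 46 7)) (M 6 (L 43 10)))) (M 5 (L 46 7))) (S 1 (L 4 1) (L 31 1))) (S 1 (L
  4 1) (L 31 1))))) (M 6 (K [(43,10,4),(43,5,4)] []))))) (M 6 (A02 (L 43 10) (A12 (L 43 10) (K
  [(43,10,4),(43,5,4)] []))))))) (B01 (A12 (A13 (out 7) (P 14 (M 11 (B02 (A03 (M 6 (L 43 10)) (S 1
  (L 4 1) (L 31 1))) (S 2 (L 7 4) (L 25 4)))))) (P 14 (M 11 (A02 (B02 (A03 (M 6 (L 43 10)) (S 1 (L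
  4 1) (L 31 1))) (S 2 (L 7 4) (L 25 4))) (M 5 (B02 (A23 (S 13 (L 41 7) (L 13 7)) (S 1 (L 4 1) (L
  31 1))) (M 6 (S 13 (L 41 7) (K [(13,7,3),(43,10,2),(46,7,3)] []))))))))) (M 6 (P 1 (A12 (A13 (out
  7) (P 14 (K [(43,10,5),(43,5,3)] []))) (P 14 (M 11 (A02 (K [(43,10,5),(43,5,3)] []) (B12 (A23
  (B01 (A12 (S 2 (L 7 4) (L 25 4)) (M 16 (K [(32,4,3),(4,1,4),(43,5,1)] []))) (K
  [(43,5,5),(43,10,3)] [])) (K [(43,10,13),(43,5,11)] [])) (A23 (S 13 (L 41 7) (L 13 7)) (S 2 (L 7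
  4) (L 25 4))))))))))))) (A01 (P 14 (M 11 (P 4 (A02 (A03 (B02 (B01 (A01 (A02 (A03 (B02 (B01 (M 5
  (L 46 7)) (A01 (P 13 (L 41 5)) (M 5 (L 46 7)))) (B12 (A01 (P 13 (L 41 5)) (M 5 (L 46 7))) (M 5 (L
  46 7)))) (M 5 (L 46 7))) (M 5 (L 46 7))) (M 5 (L 46 7))) (M 6 (L 43 10))) (M 6 (L 43 10))) (M 5
  (L 46 7))) (M 5 (A12 (L 46 7) (B02 (B01 (A23 (S 13 (L 41 7) (L 13 7)) (S 1 (L 4 1) (L 31 1))) (M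
  6 (K [(43,10,4),(46,7,1),(43,5,4)] []))) (M 6 (K [(43,10,4),(43,5,4)] []))))))))) (P 16 (M 5 (A12
  (A13 (out 7) (M 3 (K [(46,7,12),(49,8,2),(49,4,6),(46,1,4)] []))) (M 11 (M 3 (A02 (K
  [(46,7,12),(49,4,6),(49,8,2),(46,1,4)] []) (S 1 (K [(49,4,2),(4,1,3),(4,8,2)] []) (K
  [(31,1,3),(49,4,2),(46,1,2)] [])))))))))))))) (P 14 (M 11 (P 4 (M 3 (B12 (A03 (M 19 (P 15 (P 10
  (B01 (A02 (A01 (B02 (A03 (B01 (A02 (A01 (S 1 (L 4 1) (L 45 1)) (M 5 (L 46 7))) (M 5 (L 46 7)))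
  (A02 (A01 (S 1 (L 4 1) (L 45 1)) (B12 (S 1 (L 4 1) (L 45 1)) (A13 (A12 (A01 (S 1 (L 4 1) (L 31
  1)) (M 5 (L 46 7))) (S 1 (L 4 1) (L 31 1))) (S 1 (L 4 1) (L 45 1))))) (A23 (B12 (S 1 (L 4 1) (L
  31 1)) (A12 (A01 (S 1 (L 4 1) (L 31 1)) (M 5 (L 46 7))) (S 1 (L 4 1) (L 31 1)))) (B12 (S 1 (L 4
  1) (L 45 1)) (A13 (A01 (S 1 (L 4 1) (L 31 1)) (M 5 (L 46 7))) (S 1 (L 4 1) (L 45 1))))))) (B01 (M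
  5 (L 46 7)) (A23 (A02 (B12 (S 1 (L 4 1) (L 45 1)) (M 5 (L 46 7))) (B12 (S 1 (L 4 1) (L 45 1)) (M
  5 (L 46 7)))) (A13 (B12 (S 1 (L 4 1) (L 45 1)) (M 5 (L 46 7))) (S 1 (L 4 1) (L 45 1)))))) (A03
  (A02 (A01 (S 1 (L 4 1) (L 45 1)) (B12 (B01 (A13 (M 6 (L 43 10)) (S 1 (L 4 1) (L 31 1))) (M 6 (L
  43 10))) (B02 (A13 (M 6 (L 43 10)) (P 13 (L 41 5))) (M 6 (L 43 10))))) (A23 (M 6 (L 43 10)) (B12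
  (B01 (A13 (M 6 (L 43 10)) (S 1 (L 4 1) (L 31 1))) (M 6 (L 43 10))) (B02 (A13 (M 6 (L 43 10)) (P
  13 (L 41 5))) (M 6 (L 43 10)))))) (A23 (A02 (B12 (B01 (A01 (S 1 (L 4 1) (L 31 1)) (B02 (M 5 (L 46
  7)) (S 1 (L 4 1) (L 31 1)))) (S 1 (L 4 1) (L 45 1))) (B02 (A01 (S 1 (L 4 1) (L 31 1)) (B01 (M 5
  (L 46 7)) (M 6 (L 43 10)))) (M 6 (L 43 10)))) (B12 (B01 (A12 (B02 (M 5 (L 46 7)) (S 1 (L 4 1) (L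
  31 1))) (S 1 (L 4 1) (L 31 1))) (S 1 (L 4 1) (L 31 1))) (B02 (A12 (B01 (M 5 (L 46 7)) (M 6 (L 43
  10))) (S 1 (L 4 1) (L 31 1))) (M 6 (L 43 10))))) (A13 (B12 (B01 (A01 (S 1 (L 4 1) (L 31 1)) (M 5
  (L 46 7))) (S 1 (L 4 1) (L 45 1))) (B02 (A01 (S 1 (L 4 1) (L 31 1)) (M 5 (L 46 7))) (M 6 (L 43
  10)))) (S 1 (L 4 1) (L 31 1)))))) (B02 (A13 (B01 (M 5 (L 46 7)) (A12 (M 5 (L 46 7)) (A23 (B12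
  (A02 (B01 (M 5 (L 46 7)) (M 6 (L 43 10))) (B01 (M 5 (L 46 7)) (M 6 (L 43 10)))) (M 5 (L 46 7)))
  (M 5 (L 46 7))))) (B01 (M 5 (L 46 7)) (A23 (A12 (M 5 (L 46 7)) (B12 (S 1 (L 4 1) (L 31 1)) (M 5
  (L 46 7)))) (M 5 (L 46 7))))) (A13 (A12 (M 5 (L 46 7)) (A23 (M 6 (L 43 10)) (M 5 (L 46 7)))) (A23
  (A12 (M 5 (L 46 7)) (B12 (B01 (A02 (M 5 (L 46 7)) (B02 (M 5 (L 46 7)) (S 1 (L 4 1) (L 31 1)))) (S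
  1 (L 4 1) (L 31 1))) (B02 (A02 (M 5 (L 46 7)) (B01 (M 5 (L 46 7)) (M 6 (L 43 10)))) (M 6 (L 43
  10))))) (M 5 (L 46 7)))))) (A23 (B02 (A12 (B01 (S 1 (L 4 1) (L 45 1)) (A01 (A02 (B12 (A03 (B01 (M
  5 (L 46 7)) (A01 (S 1 (L 4 1) (L 31 1)) (M 5 (L 46 7)))) (M 5 (L 46 7))) (M 5 (L 46 7))) (S 1 (L
  4 1) (L 31 1))) (S 1 (L 4 1) (L 31 1)))) (B01 (S 1 (L 4 1) (L 45 1)) (A02 (A01 (B12 (S 1 (L 4 1)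
  (L 31 1)) (M 5 (L 46 7))) (S 1 (L 4 1) (L 31 1))) (S 1 (L 4 1) (L 31 1))))) (A12 (A01 (A02 (B12
  (B01 (A03 (M 6 (L 43 10)) (M 5 (L 46 7))) (A03 (M 6 (L 43 10)) (M 5 (L 46 7)))) (B02 (A03 (M 6 (L
  43 10)) (M 5 (L 46 7))) (M 6 (L 43 10)))) (S 1 (L 4 1) (L 31 1))) (S 1 (L 4 1) (L 31 1))) (A02
  (A01 (B12 (B01 (A03 (M 6 (L 43 10)) (M 5 (L 46 7))) (S 1 (L 4 1) (L 31 1))) (B02 (A03 (M 6 (L 43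
  10)) (M 5 (L 46 7))) (M 6 (L 43 10)))) (S 1 (L 4 1) (L 31 1))) (M 5 (S 13 (L 40 7) (L 13 7))))))
  (B02 (A13 (B01 (S 1 (L 4 1) (L 45 1)) (A01 (A03 (B12 (A02 (B01 (M 5 (L 46 7)) (A01 (S 1 (L 4 1)
  (L 31 1)) (M 5 (L 46 7)))) (M 5 (L 46 7))) (M 5 (L 46 7))) (M 5 (L 46 7))) (M 5 (L 46 7)))) (B01
  (S 1 (L 4 1) (L 45 1)) (A03 (A01 (B12 (S 1 (L 4 1) (L 45 1)) (M 5 (L 46 7))) (M 5 (L 46 7))) (M 5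
  (L 46 7))))) (A13 (A01 (A03 (B12 (B01 (A02 (M 6 (L 43 10)) (M 5 (L 46 7))) (A02 (M 6 (L 43 10))
  (M 5 (L 46 7)))) (B02 (A02 (M 6 (L 43 10)) (M 5 (L 46 7))) (M 6 (L 43 10)))) (M 5 (L 46 7))) (M 5
  (L 46 7))) (A03 (A01 (B12 (B01 (A02 (B02 (M 5 (L 46 7)) (S 1 (L 4 1) (L 31 1))) (M 5 (L 46 7)))
  (S 1 (L 4 1) (L 31 1))) (B02 (A02 (B01 (M 5 (L 46 7)) (M 6 (L 43 10))) (M 5 (L 46 7))) (M 6 (L 43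
  10)))) (M 5 (L 46 7))) (M 5 (L 46 7))))))) (A02 (A01 (B12 (S 1 (L 4 1) (L 45 1)) (A03 (M 6 (L 43
  10)) (A23 (M 6 (L 43 10)) (A13 (M 6 (L 43 10)) (S 1 (L 4 1) (L 45 1)))))) (B12 (A13 (M 6 (L 43
  10)) (S 1 (L 4 1) (L 31 1))) (A13 (M 6 (L 43 10)) (A23 (M 6 (L 43 10)) (A03 (M 6 (L 43 10)) (B02
  (B01 (A13 (A12 (M 5 (L 46 7)) (S 1 (L 4 1) (L 31 1))) (S 1 (L 4 1) (L 45 1))) (A13 (M 6 (L 43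
  10)) (S 1 (L 4 1) (L 31 1)))) (B12 (A13 (M 6 (L 43 10)) (S 1 (L 4 1) (L 31 1))) (M 5 (L 46
  7))))))))) (A23 (B12 (A12 (B01 (A01 (S 1 (L 4 1) (L 31 1)) (A13 (M 6 (L 43 10)) (S 1 (L 4 1) (L
  31 1)))) (M 6 (L 43 10))) (M 16 (B01 (S 2 (L 8 4) (L 25 4)) (M 6 (K [(43,10,4),(43,5,4)] [])))))
  (A12 (A01 (A02 (B02 (B01 (A03 (M 6 (L 43 10)) (A13 (M 6 (L 43 10)) (S 1 (L 4 1) (L 31 1)))) (M 6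
  (L 43 10))) (M 6 (L 43 10))) (B02 (B01 (M 5 (L 46 7)) (M 6 (L 43 10))) (M 6 (L 43 10)))) (M 5 (L
  46 7))) (A02 (A01 (B02 (S 1 (L 4 1) (L 31 1)) (M 6 (L 43 10))) (B02 (B01 (A13 (M 6 (L 43 10)) (S
  1 (L 4 1) (L 31 1))) (M 6 (L 43 10))) (M 6 (L 43 10)))) (A23 (B02 (B01 (A12 (A01 (A02 (P 13 (L 41
  7)) (S 1 (L 4 1) (L 31 1))) (S 1 (L 4 1) (L 31 1))) (A02 (A01 (P 13 (L 41 7)) (S 1 (L 4 1) (L 31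
  1))) (S 1 (L 4 8) (L 31 1)))) (M 6 (L 43 5))) (M 6 (L 43 5))) (B02 (B01 (A13 (A01 (P 13 (L 41 7))
  (M 5 (L 46 7))) (S 1 (L 4 1) (L 31 1))) (M 6 (L 43 10))) (M 6 (L 43 10))))))) (B12 (A13 (B01 (A01
  (S 1 (L 4 1) (L 31 1)) (A12 (M 6 (L 43 10)) (P 13 (L 41 11)))) (M 6 (L 43 10))) (S 1 (L 4 1) (L
  31 1))) (A13 (A01 (A03 (B02 (B01 (A02 (M 6 (L 43 10)) (A12 (M 6 (L 43 10)) (S 1 (L 4 1) (L 31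
  1)))) (M 6 (L 43 10))) (M 6 (L 43 10))) (B02 (B01 (M 5 (L 46 7)) (M 6 (L 43 10))) (M 6 (L 43
  10)))) (M 5 (L 46 7))) (A03 (A01 (B02 (S 1 (L 4 1) (L 31 1)) (M 6 (L 43 10))) (B02 (B01 (A12 (A13
  (M 5 (L 46 7)) (S 1 (L 4 1) (L 31 1))) (S 1 (L 4 1) (L 31 1))) (M 6 (L 43 10))) (M 6 (L 43 10))))
  (A23 (B02 (B01 (A12 (A01 (S 1 (L 4 1) (L 31 1)) (M 5 (L 46 7))) (S 1 (L 4 1) (L 31 1))) (A12 (B12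
  (M 6 (L 43 10)) (A01 (S 1 (L 4 1) (L 31 1)) (M 5 (L 46 7)))) (S 1 (L 4 1) (L 31 1)))) (B12 (A12
  (B01 (M 5 (L 46 7)) (M 6 (L 43 10))) (S 1 (L 4 1) (L 31 1))) (M 5 (L 46 7)))) (B02 (B01 (A13 (A01
  (S 1 (L 4 1) (L 31 1)) (M 5 (L 46 7))) (S 1 (L 4 1) (L 45 1))) (A13 (B12 (M 6 (L 43 10)) (A01 (S
  1 (L 4 1) (L 31 1)) (M 5 (L 46 7)))) (S 1 (L 4 1) (L 31 1)))) (B12 (A13 (B01 (M 5 (L 46 7)) (M 6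
  (L 43 10))) (S 1 (L 4 1) (L 31 1))) (M 5 (L 46 7)))))))))))))) (B01 (M 5 (P 2 (A23 (P 10 (A02
  (B02 (A01 (B01 (P 6 (S 12 (L 38 10) (L 18 10))) (A03 (P 15 (L 46 7)) (A13 (P 15 (L 46 7)) (P 6 (S
  12 (L 38 10) (L 18 10)))))) (B01 (A13 (A12 (B02 (A01 (M 1 (L 31 1)) (S 1 (L 4 1) (L 31 1))) (S 1
  (L 4 1) (L 31 1))) (B02 (P 6 (S 12 (L 38 10) (L 18 10))) (S 1 (L 4 1) (L 31 1)))) (P 6 (S 12 (L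
  38 10) (L 18 10)))) (A13 (S 1 (L 4 1) (L 31 1)) (A03 (S 1 (L 4 1) (L 31 1)) (P 6 (S 12 (L 38 10)
  (L 18 10))))))) (P 15 (S 1 (L 4 1) (L 45 1)))) (B02 (A12 (B01 (A13 (A01 (B02 (P 6 (S 12 (L 38 10)
  (L 18 10))) (S 1 (L 4 1) (L 31 1))) (S 1 (L 4 1) (L 31 1))) (A23 (B02 (P 6 (S 12 (L 38 10) (L 18
  10))) (S 1 (L 4 1) (L 31 1))) (P 6 (S 12 (L 38 10) (L 18 10))))) (A13 (S 1 (L 4 1) (L 31 1)) (A23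
  (S 1 (L 4 1) (L 31 1)) (P 6 (S 12 (L 38 10) (L 18 10)))))) (B01 (A23 (A02 (B02 (P 6 (S 12 (L 38
  10) (L 18 10))) (P 15 (S 1 (L 4 1) (L 45 1)))) (B02 (S 12 (L 38 10) (L 7 10)) (P 15 (L 46 1))))
  (A13 (B02 (P 6 (S 12 (L 38 10) (L 18 10))) (P 15 (S 1 (L 4 1) (L 45 1)))) (P 6 (S 12 (L 38 10) (L
  18 10))))) (A23 (P 15 (S 1 (L 4 1) (L 45 1))) (A13 (P 15 (S 1 (L 4 1) (L 45 1))) (P 6 (S 12 (L 38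
  10) (L 18 10))))))) (P 15 (A12 (S 1 (L 4 1) (L 45 1)) (S 13 (L 40 7) (L 13 7))))))) (A13 (P 10
  (B02 (A01 (B01 (P 6 (S 12 (L 38 10) (L 18 10))) (A02 (A03 (P 15 (L 46 7)) (B12 (A13 (P 15 (L 46
  7)) (M 1 (L 31 1))) (M 1 (L 31 1)))) (A12 (B12 (A13 (P 15 (L 46 7)) (M 1 (L 31 1))) (M 1 (L 31
  1))) (P 6 (S 12 (L 38 10) (L 18 10)))))) (B01 (A12 (A13 (B02 (A01 (M 1 (L 31 1)) (S 1 (L 4 1) (L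
  31 1))) (S 1 (L 4 1) (L 31 1))) (M 1 (L 31 1))) (P 6 (S 12 (L 38 10) (L 18 10)))) (A12 (A13 (S 1
  (L 4 1) (L 31 1)) (B12 (A03 (S 1 (L 4 1) (L 31 1)) (M 1 (L 31 1))) (M 1 (L 31 1)))) (A02 (B12
  (A03 (S 1 (L 4 1) (L 31 1)) (M 1 (L 31 1))) (M 1 (L 31 1))) (P 6 (S 12 (L 38 10) (L 18 10)))))))
  (A01 (A02 (A03 (P 15 (L 46 7)) (B12 (B01 (A13 (P 15 (L 46 7)) (B02 (M 1 (L 31 1)) (P 15 (L 46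
  7)))) (P 15 (L 46 7))) (B02 (A13 (P 15 (L 46 7)) (B01 (M 1 (L 31 1)) (P 15 (L 46 7)))) (P 15 (L
  46 7))))) (A12 (B12 (B01 (A13 (P 15 (L 46 7)) (B02 (M 1 (L 31 1)) (P 15 (L 46 7)))) (P 15 (L 46
  7))) (B02 (A13 (P 15 (L 46 7)) (B01 (M 1 (L 31 1)) (P 15 (L 46 7)))) (P 15 (L 46 7)))) (B12 (P 6
  (S 12 (L 38 10) (L 18 10))) (B02 (P 6 (S 12 (L 38 10) (L 18 10))) (S 1 (L 4 1) (L 31 1)))))) (A12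
  (A13 (S 1 (L 4 1) (L 31 1)) (B12 (B01 (S 1 (L 4 1) (L 31 1)) (P 15 (L 46 7))) (S 1 (L 4 1) (L 31
  1)))) (A02 (B12 (B01 (A03 (S 1 (L 4 1) (L 31 1)) (B02 (A13 (S 1 (L 4 1) (L 31 1)) (M 1 (L 31 1)))
  (P 15 (L 46 7)))) (P 15 (L 46 7))) (S 1 (L 4 1) (L 31 1))) (B12 (B01 (A23 (P 15 (S 1 (L 4 1) (L
  45 1))) (B02 (A13 (S 1 (L 4 1) (L 31 1)) (M 1 (L 31 1))) (S 1 (L 4 1) (L 31 1)))) (P 15 (S 1 (L 4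
  1) (L 45 1)))) (B02 (A23 (P 15 (S 1 (L 4 1) (L 45 1))) (P 16 (L 49 4))) (S 1 (L 4 1) (L 31
  1))))))))) (B02 (P 6 (A03 (S 12 (L 38 10) (L 18 10)) (B01 (A23 (S 12 (L 38 10) (L 7 10)) (P 12 (L
  38 10))) (S 12 (L 38 10) (L 18 10))))) (P 10 (A03 (A02 (A01 (B12 (M 1 (L 31 1)) (B02 (M 1 (L 31
  1)) (P 15 (L 46 7)))) (B12 (M 1 (L 31 1)) (B02 (M 1 (L 31 1)) (P 15 (L 46 7))))) (P 6 (S 12 (L 38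
  10) (L 18 10)))) (P 6 (S 12 (L 38 10) (L 18 10)))))))))) (M 19 (P 10 (A23 (P 15 (A02 (B12 (A01 (S
  1 (L 4 1) (L 45 1)) (B01 (A13 (A12 (M 5 (L 46 7)) (B02 (A02 (M 5 (L 46 7)) (B01 (M 5 (L 46 7)) (M
  6 (L 43 10)))) (M 6 (L 43 10)))) (A03 (B02 (A02 (M 5 (L 46 7)) (B01 (M 5 (L 46 7)) (A12 (M 5 (L
  46 7)) (P 13 (L 41 11))))) (M 6 (L 43 10))) (B02 (A23 (B01 (M 5 (L 46 7)) (A12 (M 5 (L 46 7)) (P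
  13 (L 41 11)))) (S 1 (L 4 1) (L 45 1))) (A23 (A12 (M 5 (L 46 7)) (P 13 (L 41 11))) (S 1 (L 4 1)
  (L 31 1)))))) (A13 (M 6 (L 43 10)) (A03 (M 6 (L 43 10)) (B12 (P 13 (L 41 11)) (A23 (A12 (M 5 (L
  46 7)) (P 13 (L 41 11))) (S 1 (L 4 1) (L 31 1)))))))) (S 1 (L 4 1) (L 45 1))) (B12 (A12 (B01 (A13
  (A01 (B02 (A02 (B01 (M 5 (L 46 7)) (M 6 (L 43 10))) (M 5 (L 46 7))) (M 6 (L 43 10))) (M 5 (L 46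
  7))) (A23 (B02 (A02 (B01 (S 1 (L 4 1) (L 31 1)) (A01 (P 13 (L 41 11)) (M 5 (L 46 7)))) (S 1 (L 4
  1) (L 31 1))) (M 6 (L 43 10))) (B02 (A03 (B01 (S 1 (L 4 1) (L 31 1)) (A01 (P 13 (L 41 11)) (M 5
  (L 46 7)))) (S 1 (L 4 1) (L 45 1))) (A03 (A01 (P 13 (L 41 11)) (M 5 (L 46 7))) (S 1 (L 4 1) (L 31
  1)))))) (A13 (M 6 (L 43 10)) (A23 (M 6 (L 43 10)) (B12 (P 13 (L 41 11)) (A03 (A01 (P 13 (L 41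
  11)) (M 5 (L 46 7))) (S 1 (L 4 1) (L 31 1))))))) (M 16 (B01 (S 2 (L 8 4) (L 25 4)) (A23 (M 6 (K
  [(43,5,5),(43,10,3)] [])) (S 1 (L 4 1) (L 31 1)))))) (M 5 (A12 (S 1 (L 4 1) (L 45 1)) (S 13 (L 40
  7) (L 13 7))))))) (A13 (P 15 (B12 (A01 (B01 (A02 (A03 (S 1 (L 4 1) (L 45 1)) (M 5 (L 46 7))) (S 1
  (L 4 1) (L 45 1))) (A02 (A03 (S 1 (L 4 1) (L 45 1)) (B12 (P 13 (L 41 11)) (M 5 (L 46 7)))) (A12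
  (B12 (P 13 (L 41 11)) (M 5 (L 46 7))) (B12 (P 13 (L 41 11)) (S 1 (L 4 1) (L 31 1)))))) (B01 (S 1
  (L 4 1) (L 45 1)) (A12 (A13 (M 6 (L 43 10)) (B12 (P 13 (L 41 11)) (M 5 (L 46 7)))) (A02 (B12 (P
  13 (L 41 11)) (M 5 (L 46 7))) (B12 (P 13 (L 41 11)) (S 1 (L 4 1) (L 31 1))))))) (S 1 (L 4 1) (L
  45 1)))) (B12 (A03 (P 15 (B01 (A02 (A01 (S 1 (L 4 1) (L 45 1)) (M 5 (L 46 7))) (S 1 (L 4 1) (L 45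
  1))) (A02 (A01 (S 1 (L 4 1) (L 45 1)) (B12 (P 13 (L 41 11)) (M 5 (L 46 7)))) (A23 (B12 (P 13 (L
  41 11)) (S 1 (L 4 1) (L 45 1))) (B12 (P 13 (L 41 11)) (M 5 (L 46 7))))))) (M 5 (B01 (A23 (P 15 (S
  1 (L 4 1) (L 45 1))) (A13 (P 15 (S 1 (L 4 1) (L 45 1))) (P 13 (L 40 7)))) (P 15 (S 1 (L 4 1) (L
  45 1)))))) (A03 (P 15 (S 1 (L 4 1) (L 45 1))) (A23 (P 15 (S 1 (L 4 1) (L 45 1))) (A13 (P 15 (S 1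
  (L 4 1) (L 45 1))) (P 6 (S 12 (L 38 10) (L 18 10))))))))))))) (A03 (M 19 (P 15 (P 10 (A02 (A01
  (B02 (B01 (A03 (A02 (A01 (B02 (S 1 (L 4 1) (L 45 1)) (B12 (P 13 (L 41 5)) (M 5 (L 46 7)))) (M 5
  (L 46 7))) (M 5 (L 46 7))) (M 5 (L 46 7))) (A03 (B12 (A02 (A01 (P 13 (L 41 5)) (B01 (M 5 (L 46
  7)) (M 6 (L 43 10)))) (A23 (M 6 (L 43 10)) (B01 (M 5 (L 46 7)) (M 6 (L 43 10))))) (A02 (A01 (B02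
  (P 13 (L 41 5)) (M 5 (L 46 7))) (M 5 (L 46 7))) (M 5 (L 46 7)))) (M 5 (L 46 7)))) (B12 (A03 (B01
  (M 5 (L 46 7)) (M 6 (L 43 10))) (M 5 (L 46 7))) (M 5 (L 46 7)))) (M 5 (L 46 7))) (M 5 (A23 (B02
  (B01 (A12 (S 1 (L 4 1) (L 45 1)) (S 13 (L 41 7) (L 13 7))) (A12 (S 1 (L 4 1) (L 31 1)) (S 13 (L
  41 7) (L 13 7)))) (B12 (A12 (S 1 (L 4 1) (L 31 1)) (S 13 (L 41 7) (L 13 7))) (P 16 (S 1 (K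
  [(4,1,4),(49,4,2),(46,1,2)] []) (L 31 1))))) (K [(46,7,139),(46,1,61)] []))))))) (M 5 (P 2 (A23
  (P 10 (A02 (B02 (B01 (A01 (P 6 (S 12 (L 38 10) (L 18 10))) (A13 (A12 (S 1 (L 4 1) (L 31 1)) (B02
  (B01 (P 6 (S 12 (L 38 10) (L 18 10))) (S 1 (L 4 1) (L 31 1))) (S 1 (L 4 1) (L 31 1)))) (P 6 (S 12
  (L 38 10) (L 18 10))))) (A01 (B12 (P 15 (S 1 (L 4 1) (L 45 1))) (A03 (A02 (B02 (P 15 (L 46 7))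
  (A01 (M 1 (L 31 1)) (S 1 (L 4 1) (L 31 1)))) (B02 (S 1 (L 4 1) (L 31 1)) (S 1 (L 4 1) (L 31 1))))
  (A13 (B02 (S 1 (L 4 1) (L 31 1)) (S 1 (L 4 1) (L 31 1))) (B02 (A23 (S 1 (L 4 1) (L 31 1)) (S 12
  (L 38 10) (L 7 10))) (P 16 (L 49 4)))))) (P 16 (B12 (P 15 (S 1 (L 4 1) (L 45 1))) (A13 (S 1 (L 4
  1) (L 31 1)) (A03 (S 1 (L 4 1) (L 31 1)) (L 49 4))))))) (B12 (A01 (B01 (A03 (A02 (B02 (A01 (M 1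
  (L 31 1)) (S 1 (L 4 1) (L 31 1))) (P 15 (L 46 7))) (S 1 (L 4 1) (L 31 1))) (S 1 (L 4 1) (L 31
  1))) (S 1 (L 4 1) (L 31 1))) (S 1 (L 4 1) (L 31 1))) (S 1 (L 4 1) (L 31 1)))) (P 16 (B02 (B01
  (A12 (A13 (A01 (L 49 4) (S 1 (L 4 1) (L 31 1))) (L 49 4)) (L 49 4)) (A12 (B12 (P 15 (S 1 (L 4 1)
  (L 45 1))) (A13 (S 1 (L 4 1) (L 31 1)) (L 49 4))) (L 49 4))) (B12 (A12 (S 1 (L 4 1) (L 31 1)) (L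
  49 4)) (A12 (S 1 (L 4 1) (L 31 1)) (L 49 4))))))) (A13 (P 10 (B02 (B01 (A01 (P 6 (M 1 (A02 (A03
  (S 12 (L 38 10) (L 18 10)) (B02 (S 12 (L 38 10) (L 18 10)) (L 31 1))) (A12 (B02 (S 12 (L 38 10)
  (L 18 10)) (L 31 1)) (S 12 (L 38 10) (L 7 10)))))) (P 16 (A12 (S 1 (L 4 1) (L 31 1)) (M 1 (K
  [(31,1,4),(49,4,4)] []))))) (A01 (B12 (A02 (A03 (P 15 (L 46 7)) (B01 (A13 (P 15 (L 46 7)) (M 1 (L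
  31 1))) (A13 (P 15 (L 46 7)) (B12 (P 15 (L 46 7)) (A23 (P 15 (L 46 7)) (S 1 (L 4 1) (L 31
  1))))))) (A12 (B01 (A13 (P 15 (L 46 7)) (M 1 (L 31 1))) (A13 (P 15 (L 46 7)) (B12 (P 15 (L 46 7))
  (A03 (P 15 (L 46 7)) (S 1 (L 4 1) (L 31 1)))))) (B01 (P 6 (S 12 (L 38 10) (L 18 10))) (A23 (S 1
  (L 4 1) (L 31 1)) (B12 (S 1 (L 4 1) (L 31 1)) (A03 (S 1 (L 4 1) (L 31 1)) (S 1 (L 4 1) (L 31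
  1)))))))) (A02 (A03 (B02 (P 15 (L 46 7)) (A01 (M 1 (L 31 1)) (S 1 (L 4 1) (L 31 1)))) (B02 (A13
  (P 15 (L 46 7)) (M 1 (L 31 1))) (S 1 (L 4 1) (L 31 1)))) (A12 (B02 (A13 (S 1 (L 4 1) (L 31 1)) (M
  1 (L 31 1))) (S 1 (L 4 1) (L 31 1))) (S 12 (L 38 10) (L 7 10))))) (P 16 (B12 (A12 (S 1 (L 4 1) (L
  31 1)) (A02 (S 1 (L 4 1) (L 31 1)) (B01 (A23 (L 49 4) (S 1 (L 4 1) (L 31 1))) (S 1 (L 4 1) (L 31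
  1))))) (A12 (S 1 (L 4 1) (L 31 1)) (A02 (S 1 (L 4 1) (L 31 1)) (S 12 (L 38 10) (L 7 10))))))))
  (B12 (A01 (B01 (A02 (A03 (B02 (A01 (M 1 (L 31 1)) (S 1 (L 4 1) (L 31 1))) (P 15 (L 46 7))) (S 1
  (L 4 1) (L 31 1))) (S 1 (L 4 1) (L 31 1))) (A02 (A03 (P 15 (L 46 7)) (S 1 (L 4 1) (L 31 1))) (S 1
  (L 4 1) (L 31 1)))) (S 1 (L 4 1) (L 31 1))) (S 1 (L 4 1) (L 31 1))))) (B02 (B01 (P 6 (M 1 (A03 (P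
  10 (A02 (A01 (S 12 (L 38 10) (L 18 10)) (B02 (S 12 (L 38 10) (L 18 10)) (L 31 1))) (S 12 (L 38
  10) (L 7 10)))) (A23 (S 12 (L 38 10) (L 7 10)) (P 12 (L 38 10)))))) (P 10 (A03 (B12 (A02 (A01
  (B01 (M 1 (L 31 1)) (A03 (P 15 (L 46 7)) (B12 (P 15 (L 46 7)) (M 1 (L 31 1))))) (B01 (M 1 (L 31
  1)) (A13 (B12 (P 15 (L 46 7)) (M 1 (L 31 1))) (B12 (P 15 (L 46 7)) (M 1 (L 31 1)))))) (P 6 (S 12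
  (L 38 10) (L 18 10)))) (M 1 (A02 (L 31 1) (S 12 (L 38 10) (L 7 10))))) (P 6 (B12 (S 12 (L 38 10)
  (L 18 10)) (S 12 (L 38 10) (L 7 10))))))) (P 10 (B12 (A03 (B01 (M 1 (L 31 1)) (A02 (A01 (B12 (A03
  (P 15 (L 46 7)) (B01 (M 1 (L 31 1)) (P 15 (L 46 7)))) (M 1 (L 31 1))) (S 1 (L 4 1) (L 31 1))) (M
  1 (L 31 1)))) (P 16 (M 1 (K [(31,1,1),(49,4,5),(49,8,2)] [])))) (P 16 (M 1 (K [(31,1,5),(49,4,3)]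
  []))))))))))))))))))))) (A13 (M 18 (A12 (A01 (A02 (P 14 (M 11 (M 5 (P 2 (B12 (P 4 (M 3 (A03 (B01
  (A01 (A02 (M 1 (B02 (A03 (B01 (S 10 (L 31 1) (L 2 8)) (P 10 (L 31 1))) (P 10 (L 31 1))) (P 10 (L
  31 1)))) (P 10 (B02 (A23 (B01 (S 1 (L 4 1) (L 31 1)) (A12 (A13 (B12 (A01 (B01 (M 1 (L 31 1)) (P
  15 (L 46 7))) (S 1 (L 4 1) (L 31 1))) (M 1 (L 31 1))) (B12 (A03 (B01 (M 1 (L 31 1)) (P 15 (L 46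
  7))) (S 1 (L 4 1) (L 31 1))) (M 1 (L 31 1)))) (A02 (B12 (A03 (B01 (M 1 (L 31 1)) (P 15 (L 46 7)))
  (S 1 (L 4 1) (L 31 1))) (M 1 (L 31 1))) (S 1 (L 4 1) (L 31 1))))) (M 1 (L 31 1))) (A23 (A12 (A13
  (B12 (B01 (S 1 (L 4 1) (L 31 1)) (P 15 (L 46 7))) (S 1 (L 4 1) (L 31 1))) (B12 (B01 (S 1 (L 4 1)
  (L 31 1)) (S 1 (L 4 1) (L 31 1))) (S 1 (L 4 1) (L 31 1)))) (A02 (B12 (B01 (S 1 (L 4 1) (L 31 1))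
  (S 1 (L 4 1) (L 31 1))) (S 1 (L 4 1) (L 31 1))) (S 1 (L 4 1) (L 31 1)))) (A13 (A12 (B12 (B01 (S 1
  (L 4 1) (L 31 1)) (A01 (A03 (P 15 (L 46 7)) (S 1 (L 4 1) (L 31 1))) (S 1 (L 4 1) (L 31 1)))) (S 1
  (L 4 1) (L 31 1))) (B12 (B01 (S 1 (L 4 1) (L 31 1)) (A02 (A03 (P 15 (L 46 7)) (S 1 (L 4 1) (L 31
  1))) (S 1 (L 4 1) (L 31 1)))) (S 1 (L 4 1) (L 31 1)))) (A03 (B12 (B01 (S 1 (L 4 1) (L 31 1)) (A02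
  (M 1 (L 31 1)) (S 1 (L 4 1) (L 31 1)))) (S 1 (L 4 1) (L 31 1))) (S 1 (L 4 1) (L 31 1)))))))) (P
  10 (S 1 (L 4 1) (L 31 1)))) (P 10 (A01 (A02 (B12 (A03 (B01 (A01 (A02 (M 1 (L 31 1)) (B02 (M 1 (L
  31 1)) (S 1 (L 4 1) (L 31 1)))) (A13 (P 15 (L 46 7)) (B02 (M 1 (L 31 1)) (S 1 (L 4 1) (L 31
  1))))) (S 1 (L 4 1) (L 31 1))) (B01 (A13 (A01 (B02 (M 1 (L 31 1)) (S 1 (L 4 1) (L 31 1))) (P 15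
  (L 46 7))) (A23 (B02 (M 1 (L 31 1)) (S 1 (L 4 1) (L 31 1))) (S 1 (L 4 1) (L 31 1)))) (S 1 (L 4 1)
  (L 31 1)))) (A03 (A01 (A02 (M 1 (L 31 1)) (B02 (B01 (M 1 (L 31 1)) (A23 (P 15 (L 46 7)) (M 1 (L
  31 1)))) (B12 (A23 (P 15 (L 46 7)) (M 1 (L 31 1))) (S 1 (L 4 1) (L 31 1))))) (A13 (P 15 (L 46 7))
  (B02 (B01 (M 1 (L 31 1)) (S 1 (L 4 1) (L 31 1))) (S 1 (L 4 1) (L 31 1))))) (A13 (A01 (B02 (B01 (M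
  1 (L 31 1)) (S 1 (L 4 1) (L 31 1))) (S 1 (L 4 1) (L 31 1))) (P 15 (L 46 7))) (A23 (B02 (B01 (M 1
  (L 31 1)) (S 1 (L 4 1) (L 31 1))) (S 1 (L 4 1) (L 31 1))) (S 1 (L 4 1) (L 31 1)))))) (B12 (A23 (S
  1 (L 4 1) (L 31 1)) (B01 (A13 (S 1 (L 4 1) (L 31 1)) (A03 (S 1 (L 4 1) (L 31 1)) (S 1 (L 4 1) (L
  31 1)))) (S 1 (L 4 1) (L 31 1)))) (A23 (S 1 (L 4 1) (L 31 1)) (A13 (S 1 (L 4 1) (L 31 1)) (A03 (S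
  1 (L 4 1) (L 31 1)) (S 1 (L 4 1) (L 31 1))))))) (A13 (P 15 (L 46 7)) (B12 (A23 (S 1 (L 4 1) (L 31
  1)) (S 1 (L 4 1) (L 31 1))) (S 1 (L 4 1) (L 31 1))))))) (P 10 (B01 (P 16 (A13 (S 1 (L 4 1) (L 31
  1)) (A23 (B02 (S 1 (L 4 1) (L 31 1)) (A02 (A01 (A03 (S 1 (L 4 1) (L 31 1)) (B12 (S 1 (L 4 1) (L
  31 1)) (B02 (S 1 (L 4 1) (L 31 1)) (M 6 (K [(43,10,3),(49,4,5)] []))))) (A12 (B12 (S 1 (L 4 1) (L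
  31 1)) (B02 (S 1 (L 4 1) (L 31 1)) (M 6 (K [(43,10,5),(49,4,3)] [])))) (B12 (S 1 (L 4 1) (L 31
  1)) (B02 (S 1 (L 4 1) (L 31 1)) (M 6 (K [(43,10,4),(49,4,4)] [])))))) (A12 (A01 (B12 (S 1 (L 4 1)
  (L 31 1)) (B02 (S 1 (L 4 1) (L 31 1)) (M 6 (K [(43,10,5),(49,4,3)] [])))) (M 6 (K
  [(43,10,5),(49,4,3)] []))) (S 1 (K [(4,1,5),(49,4,3)] []) (L 31 1))))) (B02 (S 1 (L 4 1) (L 31
  1)) (A03 (A01 (S 12 (L 38 10) (L 7 10)) (A13 (B12 (S 1 (L 4 1) (L 31 1)) (B02 (S 1 (L 4 1) (L 31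
  1)) (M 6 (K [(43,10,5),(49,4,3)] [])))) (S 12 (L 38 10) (L 7 10)))) (A13 (A01 (S 12 (L 38 10) (L
  7 10)) (M 6 (K [(43,10,5),(49,4,3)] []))) (S 12 (L 38 10) (L 7 10)))))))) (A13 (A01 (B12 (A02 (S
  1 (L 4 1) (L 31 1)) (S 1 (L 4 1) (L 31 1))) (S 1 (L 4 1) (L 31 1))) (M 6 (L 43 10))) (A23 (B12
  (A02 (B01 (A01 (A03 (S 1 (L 4 1) (L 31 1)) (S 1 (K [(4,1,3),(4,8,4)] []) (L 31 1))) (S 1 (K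
  [(4,1,5),(4,8,3)] []) (L 31 1))) (S 1 (K [(4,1,5),(4,8,3)] []) (L 31 1))) (B01 (S 1 (K
  [(4,1,5),(4,8,3)] []) (L 31 1)) (M 6 (K [(43,10,5),(43,5,3)] [])))) (P 16 (A02 (A01 (A03 (S 1 (L
  4 1) (L 31 1)) (S 1 (K [(4,1,3),(49,4,1),(4,8,4)] []) (L 31 1))) (S 1 (K [(4,1,4),(4,8,4)] []) (L
  31 1))) (S 1 (K [(4,1,4),(4,8,4)] []) (L 31 1))))) (P 16 (M 13 (B12 (A03 (B01 (A01 (A02 (S 1 (L 4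
  1) (L 31 1)) (B02 (S 1 (L 4 1) (L 31 1)) (M 6 (K [(43,10,3),(43,5,4)] [])))) (A13 (S 1 (K
  [(4,1,5),(4,8,3)] []) (L 31 1)) (B02 (S 1 (L 4 1) (L 31 1)) (M 6 (K [(43,10,3),(43,5,5)] [])))))
  (S 1 (K [(4,1,5),(4,8,3)] []) (L 31 1))) (B01 (A13 (A01 (B02 (S 1 (L 4 1) (L 31 1)) (M 6 (K
  [(43,10,4),(43,5,4)] []))) (M 6 (K [(43,10,4),(43,5,4)] []))) (A23 (B02 (S 1 (L 4 1) (L 31 1)) (M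
  6 (K [(43,10,3),(43,5,4)] []))) (B02 (A03 (S 1 (L 4 1) (L 31 1)) (M 6 (K [(49,4,4),(43,10,4)]
  []))) (M 6 (P 1 (K [(4,8,5),(43,10,3)] [])))))) (M 6 (A13 (K [(43,10,4),(43,5,4)] []) (K
  [(43,5,5),(43,10,3)] []))))) (A03 (A01 (A02 (S 1 (L 4 1) (L 31 1)) (B02 (B01 (S 1 (L 4 1) (L 31
  1)) (M 6 (K [(43,10,3),(49,4,1),(43,5,4)] []))) (M 6 (K [(43,10,3),(13,7,1),(43,5,4)] [])))) (A13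
  (S 1 (K [(4,1,4),(4,8,4)] []) (L 31 1)) (B02 (B01 (S 1 (L 4 1) (L 31 1)) (M 6 (K
  [(43,10,3),(43,5,4)] []))) (M 6 (K [(43,10,3),(43,5,4)] []))))) (A13 (A01 (B02 (B01 (S 1 (L 4 1)
  (L 31 1)) (M 6 (K [(43,10,3),(43,5,4)] []))) (M 6 (K [(49,4,1),(43,10,3),(43,5,4)] []))) (M 6 (K
  [(43,10,4),(43,5,4)] []))) (A23 (B02 (B01 (S 1 (L 4 1) (L 31 1)) (L 49 4)) (L 49 4)) (B02 (B01
  (A03 (S 1 (L 4 1) (L 31 1)) (M 6 (K [(49,4,4),(43,10,4)] []))) (L 49 4)) (L 49 4)))))))))))))))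
  (A03 (A01 (A02 (M 1 (B02 (B01 (S 10 (L 31 1) (L 2 8)) (P 10 (L 31 1))) (P 10 (L 31 1)))) (P 10 (S
  1 (L 4 1) (L 31 1)))) (P 10 (S 1 (L 4 1) (L 31 1)))) (P 16 (P 10 (A13 (A01 (B02 (S 1 (L 4 1) (L
  31 1)) (B12 (S 1 (L 4 1) (L 31 1)) (A02 (A03 (A01 (B02 (M 3 (L 49 4)) (B12 (M 3 (L 49 4)) (S 1 (L
  4 1) (L 31 1)))) (B02 (S 1 (L 4 1) (L 31 1)) (B12 (S 1 (L 4 1) (L 31 1)) (P 12 (L 38 4))))) (A23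
  (B02 (S 1 (L 4 1) (L 31 1)) (B12 (S 1 (L 4 1) (L 31 1)) (P 12 (L 38 4)))) (P 12 (L 38 4)))) (A23
  (S 1 (L 4 1) (L 31 1)) (A03 (S 1 (L 4 1) (L 31 1)) (B02 (B01 (A13 (M 3 (L 49 8)) (A23 (M 3 (L 49
  8)) (P 12 (L 38 4)))) (A13 (M 3 (L 49 8)) (M 6 (L 43 10)))) (B12 (A13 (M 3 (L 49 8)) (M 6 (L 43
  10))) (A13 (A12 (P 12 (L 38 4)) (M 6 (L 43 10))) (M 6 (L 43 10)))))))))) (B02 (S 1 (L 4 1) (L 31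
  1)) (B12 (S 1 (L 4 1) (L 31 1)) (A12 (A13 (A01 (B02 (M 3 (L 49 8)) (B12 (M 3 (L 49 8)) (A02 (P 12
  (L 38 4)) (A23 (M 3 (L 49 8)) (P 12 (L 38 4)))))) (B02 (M 3 (L 49 8)) (B12 (M 3 (L 49 8)) (A12 (P
  12 (L 38 4)) (A23 (M 3 (L 49 8)) (P 12 (L 38 4))))))) (A23 (B02 (M 3 (L 49 8)) (B12 (M 3 (L 49
  8)) (A02 (P 12 (L 38 4)) (M 6 (L 43 10))))) (B02 (B01 (P 12 (L 38 4)) (A03 (M 3 (L 49 8)) (M 6 (L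
  43 10)))) (B12 (A03 (M 3 (L 49 8)) (M 6 (L 43 10))) (P 12 (L 38 4)))))) (A23 (M 3 (L 49 8)) (A13
  (M 3 (L 49 8)) (B02 (B01 (A03 (M 3 (L 49 8)) (A23 (M 3 (L 49 8)) (P 12 (L 38 4)))) (A03 (M 3 (L
  49 8)) (M 6 (L 43 10)))) (B12 (A03 (M 3 (L 49 8)) (M 6 (L 43 10))) (A03 (A02 (P 12 (L 38 4)) (M 6
  (L 43 10))) (M 6 (L 43 10))))))))))) (A23 (B02 (M 3 (B01 (S 1 (L 4 1) (L 31 1)) (A02 (B12 (A01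
  (A03 (S 1 (L 4 1) (L 31 1)) (B01 (S 1 (L 4 1) (L 31 1)) (L 49 4))) (A12 (B01 (S 1 (L 4 1) (L 31
  1)) (M 6 (K [(43,10,5),(49,4,3)] []))) (B01 (S 1 (L 4 1) (L 31 1)) (M 6 (K [(43,10,4),(49,4,4)]
  []))))) (S 1 (L 4 1) (L 31 1))) (B12 (A12 (A01 (B01 (S 1 (L 4 1) (L 31 1)) (M 6 (K
  [(43,10,5),(49,4,3)] []))) (M 6 (K [(43,10,5),(49,4,3)] []))) (S 1 (K [(4,1,5),(49,4,3)] []) (L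
  31 1))) (S 1 (L 4 1) (L 31 1)))))) (B12 (M 3 (A02 (B01 (A01 (L 49 4) (A12 (B02 (S 1 (L 4 1) (L 31
  1)) (M 6 (S 12 (L 37 10) (L 7 10)))) (B02 (S 1 (L 4 1) (L 31 1)) (M 6 (S 12 (L 37 10) (L 7
  10)))))) (A01 (L 49 4) (M 6 (K [(43,10,5),(49,4,3)] [])))) (B01 (A12 (A01 (B02 (S 1 (L 4 1) (L 31
  1)) (S 12 (L 38 10) (L 7 10))) (B02 (S 1 (L 4 1) (L 31 1)) (M 6 (K [(43,10,5),(49,4,3)] []))))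
  (A23 (S 1 (L 4 1) (L 31 1)) (S 12 (L 38 10) (L 7 10)))) (M 6 (K [(43,10,5),(49,4,3)] []))))) (A02
  (A01 (A03 (B02 (M 3 (L 49 4)) (B12 (M 3 (L 49 4)) (S 1 (L 4 1) (L 31 1)))) (B02 (M 3 (L 49 4))
  (B12 (M 3 (L 49 4)) (M 15 (S 1 (L 5 1) (L 31 1)))))) (A12 (B02 (B01 (S 1 (L 4 1) (L 31 1)) (A13
  (B12 (M 6 (L 43 10)) (P 12 (L 38 4))) (M 3 (K [(49,8,5),(49,4,3)] [])))) (B12 (A13 (B01 (P 12 (L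
  38 4)) (M 6 (L 43 10))) (M 3 (K [(49,8,5),(49,4,3)] []))) (M 15 (S 1 (L 5 1) (L 31 1))))) (B02 (M
  3 (K [(49,4,5),(49,8,3)] [])) (B12 (M 3 (K [(49,8,2),(49,4,6)] [])) (M 15 (S 1 (L 5 1) (L 31
  1))))))) (A12 (A01 (B02 (M 3 (K [(49,8,4),(49,4,4)] [])) (B12 (M 3 (K [(49,8,4),(49,4,4)] []))
  (A03 (M 3 (L 49 8)) (S 3 (L 11 8) (L 49 8))))) (B02 (B01 (A13 (A12 (P 12 (L 38 4)) (M 3 (L 49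
  8))) (S 1 (L 4 1) (L 31 1))) (M 6 (K [(43,10,4),(43,5,4)] []))) (M 6 (K [(43,10,4),(43,5,4)]
  [])))) (A23 (S 1 (L 4 1) (L 31 1)) (B02 (S 12 (L 38 10) (L 7 10)) (B12 (S 12 (L 38 10) (L 7 10))
  (A03 (M 3 (L 49 8)) (S 3 (L 11 8) (L 49 8)))))))))) (B02 (B01 (A03 (S 1 (L 4 1) (L 31 1)) (A13
  (A01 (B02 (M 3 (L 49 4)) (B12 (M 3 (L 49 4)) (S 1 (L 4 1) (L 31 1)))) (B02 (S 1 (L 4 1) (L 31 1))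
  (B12 (S 1 (L 4 1) (L 31 1)) (S 1 (L 4 1) (L 31 1))))) (A23 (B02 (M 3 (L 49 4)) (B12 (M 3 (L 49
  4)) (S 1 (L 4 1) (L 31 1)))) (S 1 (L 4 1) (L 31 1))))) (A03 (M 3 (B12 (A01 (S 12 (L 38 10) (L 7
  10)) (A13 (B01 (S 1 (L 4 1) (L 31 1)) (M 6 (K [(43,10,5),(49,4,3)] []))) (S 12 (L 38 10) (L 7
  10)))) (S 1 (L 4 1) (L 31 1)))) (B12 (A13 (M 3 (A01 (L 49 4) (M 6 (K [(43,10,5),(49,4,3)] []))))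
  (A23 (M 3 (L 49 4)) (B01 (A03 (M 3 (L 49 4)) (S 3 (L 9 4) (L 49 4))) (S 3 (L 9 4) (L 49 4)))))
  (A13 (A01 (B02 (M 3 (L 49 4)) (A02 (S 1 (L 4 1) (L 31 1)) (B12 (M 6 (L 43 10)) (S 1 (L 4 1) (L 31
  1))))) (B02 (M 6 (L 43 10)) (A12 (B12 (M 6 (L 43 10)) (P 12 (L 38 4))) (B12 (M 6 (L 43 10)) (S 1
  (L 4 1) (L 31 1)))))) (A23 (B02 (M 3 (L 49 4)) (A02 (S 1 (L 4 1) (L 31 1)) (M 6 (L 43 10)))) (M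
  15 (S 1 (L 5 1) (L 31 1)))))))) (B12 (A03 (M 3 (B01 (A01 (L 49 4) (A13 (B02 (S 1 (L 4 1) (L 31
  1)) (M 6 (S 12 (L 37 10) (L 7 10)))) (L 49 4))) (A01 (L 49 4) (M 6 (K [(43,10,5),(49,4,3)]
  []))))) (B01 (A13 (A01 (B02 (A02 (S 1 (L 4 1) (L 31 1)) (B01 (S 1 (L 4 1) (L 31 1)) (M 6 (L 43
  10)))) (S 3 (L 9 4) (L 49 4))) (B02 (A12 (B01 (P 12 (L 38 4)) (M 6 (L 43 10))) (B01 (S 1 (L 4 1)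
  (L 31 1)) (M 6 (L 43 10)))) (M 6 (S 12 (L 37 10) (L 7 10))))) (A23 (B02 (A02 (M 15 (S 1 (L 5 1)
  (L 31 1))) (S 3 (L 9 4) (L 49 4))) (S 3 (L 9 4) (L 49 4))) (M 15 (S 1 (L 5 1) (L 31 1))))) (M 6
  (A13 (K [(43,10,4),(43,5,4)] []) (S 3 (L 11 4) (L 49 4)))))) (A03 (A01 (A02 (M 15 (S 1 (L 5 1) (L
  31 1))) (B02 (B01 (S 1 (L 4 1) (L 31 1)) (A23 (M 3 (L 49 4)) (M 15 (S 1 (L 5 1) (L 31 1))))) (B12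
  (A23 (M 3 (L 49 4)) (M 15 (S 1 (L 5 1) (L 31 1)))) (M 15 (S 1 (L 5 1) (L 31 1)))))) (A13 (B02
  (B01 (S 1 (L 4 1) (L 31 1)) (A12 (B12 (M 6 (L 43 10)) (P 12 (L 38 4))) (B12 (M 3 (L 49 4)) (S 1
  (L 4 1) (L 31 1))))) (B12 (A12 (B01 (P 12 (L 38 4)) (M 6 (L 43 10))) (B01 (M 15 (S 1 (L 5 1) (L
  31 1))) (S 3 (L 11 8) (L 49 4)))) (M 15 (S 1 (L 5 1) (L 31 1))))) (B02 (B01 (S 1 (L 4 1) (L 31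
  1)) (A23 (B12 (M 3 (L 49 4)) (S 1 (L 4 1) (L 31 1))) (M 15 (S 1 (L 5 1) (L 31 1))))) (B12 (A23
  (B01 (M 15 (S 1 (L 5 1) (L 31 1))) (S 3 (L 9 4) (L 49 4))) (M 15 (S 1 (L 5 1) (L 31 1)))) (M 15
  (S 1 (L 5 1) (L 31 1))))))) (A13 (A01 (B02 (B01 (S 1 (L 4 1) (L 31 1)) (S 3 (L 11 4) (L 49 4)))
  (S 3 (L 11 4) (L 49 4))) (B02 (B01 (S 1 (L 4 1) (L 31 1)) (M 6 (S 12 (L 37 10) (L 7 10)))) (M 6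
  (S 12 (L 37 10) (L 7 10))))) (A23 (B02 (B01 (M 15 (S 1 (L 5 1) (L 31 1))) (S 3 (L 11 4) (L 49
  4))) (S 3 (L 11 4) (L 49 4))) (M 15 (S 1 (L 5 1) (L 31 1)))))))))))))))))) (M 19 (P 10 (B12 (P 4
  (M 3 (A23 (B01 (M 5 (A12 (P 14 (M 11 (A13 (S 1 (L 4 1) (L 31 1)) (B02 (S 1 (L 4 1) (L 31 1)) (M 6
  (K [(43,10,5),(43,5,3)] [])))))) (P 15 (A02 (M 11 (S 1 (K [(4,1,552),(46,7,92),(4,8,356)] []) (L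
  31 1))) (out 7))))) (M 6 (A12 (P 14 (A13 (L 43 10) (K [(43,10,5),(43,5,3)] []))) (A02 (P 14 (K
  [(43,10,5),(43,5,3)] [])) (out 7))))) (P 14 (M 11 (B01 (P 16 (A13 (A12 (S 1 (L 4 1) (L 31 1))
  (B02 (S 1 (L 4 1) (L 31 1)) (M 6 (K [(43,10,13),(49,4,2),(43,5,8)] [])))) (A03 (B02 (S 1 (L 4 1)
  (L 31 1)) (M 6 (K [(43,10,4),(49,4,1),(43,5,3)] []))) (B02 (S 1 (L 4 1) (L 31 1)) (M 6 (A23 (K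
  [(43,10,11),(49,4,3),(43,5,9)] []) (K [(49,4,13),(43,10,31),(43,5,20)] []))))))) (M 6 (A13 (A12
  (L 43 10) (K [(43,10,5),(43,5,3)] [])) (A03 (S 13 (L 41 11) (K [(43,10,32),(13,7,5),(43,5,27)]
  [])) (P 16 (B12 (A23 (B01 (A12 (A13 (K [(43,10,4),(43,5,4)] []) (K
  [(43,10,28),(49,4,12),(43,5,24)] [])) (K [(43,10,10),(49,4,5),(43,5,8)] [])) (K
  [(43,5,102),(49,2,22),(43,10,76)] [])) (B01 (A13 (A12 (K [(43,10,4),(43,5,4)] []) (K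
  [(43,10,10),(49,4,4),(43,5,11)] [])) (K [(49,4,2),(43,10,3),(43,5,4)] [])) (A13 (K
  [(49,2,22),(43,10,76),(43,5,102)] []) (K [(43,5,5),(43,10,3)] [])))) (A23 (A12 (K
  [(43,10,94),(49,4,8),(43,5,97)] []) (K [(49,4,6),(43,5,8),(43,10,10)] [])) (A13 (K
  [(43,10,94),(49,4,8),(43,5,97)] []) (K [(49,4,2),(43,5,3),(43,10,3)] [])))))))))))))) (P 16 (M 13
  (M 5 (P 2 (A23 (A12 (P 14 (M 11 (A13 (B02 (S 1 (L 4 1) (L 31 1)) (B12 (S 1 (L 4 1) (L 31 1)) (A01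
  (M 6 (L 43 10)) (A12 (A13 (M 3 (L 49 8)) (M 6 (L 43 10))) (M 6 (L 43 10)))))) (B02 (B01 (S 1 (L 4
  1) (L 31 1)) (M 6 (K [(43,10,5),(43,5,3)] []))) (M 6 (K [(43,10,39),(43,5,25)] [])))))) (P 15 (M
  12 (A02 (P 14 (M 11 (B02 (S 1 (K [(4,1,539),(46,7,107),(4,8,354)] []) (L 31 1)) (M 6 (P 1 (K
  [(7,4,8),(4,1,6),(46,1,2),(43,5,8)] [])))))) (out 7))))) (P 14 (M 11 (A13 (A12 (B02 (S 1 (L 4 1)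
  (L 31 1)) (B12 (S 1 (L 4 1) (L 31 1)) (A01 (M 6 (L 43 10)) (A13 (A12 (B02 (M 3 (L 49 8)) (M 6 (L
  43 10))) (B02 (M 3 (L 49 8)) (M 6 (L 43 10)))) (A03 (B02 (M 3 (L 49 8)) (M 6 (L 43 10))) (B02
  (B01 (A23 (M 3 (L 49 8)) (P 12 (L 38 4))) (M 6 (L 43 10))) (M 6 (L 43 10)))))))) (B02 (M 3 (B01
  (S 1 (L 4 1) (L 31 1)) (M 6 (K [(43,10,36),(49,4,5),(43,5,23)] [])))) (M 6 (K
  [(43,10,39),(43,5,25)] [])))) (A03 (B02 (M 3 (B01 (S 1 (L 4 1) (L 31 1)) (M 6 (K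
  [(43,10,4),(49,4,1),(43,5,3)] [])))) (M 6 (B12 (M 3 (K [(43,10,4),(49,4,1),(43,5,3)] [])) (A02 (K
  [(43,10,4),(43,5,4)] []) (A12 (K [(43,10,4),(43,5,4)] []) (S 12 (L 38 10) (L 7 10))))))) (B02
  (B01 (A23 (A12 (A13 (S 1 (L 4 1) (L 31 1)) (B02 (S 1 (L 4 1) (L 31 1)) (B12 (S 1 (L 4 1) (L 31
  1)) (A03 (S 1 (L 4 1) (L 31 1)) (out 7))))) (A02 (B02 (S 1 (L 4 1) (L 31 1)) (B12 (S 1 (L 4 1) (L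
  31 1)) (A03 (S 1 (L 4 1) (L 31 1)) (out 7)))) (out 7))) (A13 (A12 (B02 (S 1 (L 4 1) (L 31 1))
  (B12 (S 1 (L 4 1) (L 31 1)) (S 1 (L 4 1) (L 31 1)))) (B02 (M 3 (L 49 4)) (B12 (M 3 (L 49 4)) (S 1
  (L 4 1) (L 31 1))))) (A03 (B02 (M 3 (L 49 4)) (B12 (M 3 (L 49 4)) (S 1 (L 4 1) (L 31 1)))) (B02
  (B01 (S 1 (L 4 1) (L 31 1)) (A23 (M 3 (L 49 4)) (S 1 (L 4 1) (L 31 1)))) (B12 (A23 (M 3 (L 49 4))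
  (S 1 (L 4 1) (L 31 1))) (M 15 (S 1 (L 5 1) (L 31 1)))))))) (M 6 (A23 (B12 (P 4 (K
  [(13,7,2),(43,10,11),(43,5,10)] [])) (A12 (S 12 (L 37 10) (L 7 10)) (S 12 (L 38 10) (L 7 10))))
  (B12 (A13 (M 3 (K [(43,10,11),(49,4,2),(43,5,11)] [])) (S 3 (L 9 4) (L 49 4))) (S 12 (L 37 10) (L
  7 10)))))) (M 6 (B12 (A23 (B01 (A12 (S 12 (L 37 10) (L 7 10)) (S 3 (L 9 4) (L 49 4))) (A12 (K
  [(43,5,105),(43,10,95)] []) (M 12 (K [(7,10,1),(43,5,4),(43,10,3)] [])))) (B01 (S 12 (L 37 10) (L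
  7 10)) (A13 (K [(43,5,105),(43,10,95)] []) (S 3 (L 11 4) (L 49 4))))) (S 12 (L 37 10) (L 7
  10)))))))))))))))))) (P 16 (M 13 (P 10 (A13 (B12 (A12 (B01 (M 5 (A01 (A02 (M 11 (B02 (S 1 (L 4 1)
  (L 31 1)) (P 15 (L 46 7)))) (out 7)) (out 3))) (P 15 (A01 (A02 (M 5 (L 46 7)) (out 7)) (out 3))))
  (B01 (M 5 (A02 (A01 (M 11 (B02 (S 1 (L 4 1) (L 31 1)) (P 15 (L 46 7)))) (out 7)) (out 7))) (M 6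
  (A02 (A01 (P 14 (L 43 10)) (out 7)) (out 7))))) (M 5 (A12 (A01 (A02 (P 14 (B02 (B01 (A03 (M 3 (L
  49 8)) (out 7)) (A03 (M 3 (L 49 8)) (out 7))) (B12 (A03 (B01 (A01 (M 3 (L 49 8)) (out 7)) (P 15
  (L 46 7))) (out 7)) (A03 (A01 (A02 (B02 (B01 (A03 (M 3 (L 49 8)) (M 6 (L 43 10))) (M 6 (L 43
  10))) (M 6 (L 43 10))) (out 7)) (out 7)) (out 7))))) (out 7)) (out 3)) (A02 (A01 (P 14 (M 11 (B02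
  (B01 (A03 (S 1 (L 4 1) (L 31 1)) (out 7)) (A03 (M 3 (L 49 8)) (out 7))) (B12 (A03 (M 3 (L 49 8))
  (out 7)) (A03 (A02 (A01 (B02 (B01 (A03 (M 3 (L 49 8)) (M 6 (L 43 10))) (M 6 (L 43 10))) (M 6 (L
  43 10))) (out 7)) (out 7)) (out 7)))))) (out 7)) (out 7))))) (B12 (A23 (B01 (M 5 (A02 (M 11 (A03
  (B02 (S 1 (L 4 1) (L 31 1)) (P 15 (L 46 7))) (out 7))) (out 7))) (M 6 (A02 (P 14 (A03 (L 43 10)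
  (out 7))) (out 7)))) (P 14 (M 11 (B01 (A03 (A02 (B02 (S 1 (L 4 1) (L 31 1)) (M 6 (L 43 10))) (B02
  (S 1 (L 4 1) (L 31 1)) (M 6 (K [(43,10,5),(43,5,3)] [])))) (A13 (B02 (S 1 (L 4 1) (L 31 1)) (M 6
  (K [(43,10,5),(43,5,3)] []))) (M 3 (B02 (S 1 (L 4 1) (L 31 1)) (M 6 (A23 (K
  [(43,10,31),(49,4,10),(43,5,23)] []) (K [(43,10,31),(49,4,13),(43,5,20)] []))))))) (M 6 (A03 (A02
  (L 43 10) (K [(43,10,5),(43,5,3)] [])) (A13 (K [(43,10,5),(43,5,3)] []) (P 4 (M 3 (B12 (A23 (B01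
  (A02 (A03 (K [(43,10,4),(43,5,4)] []) (out 7)) (out 7)) (K [(43,5,102),(49,2,22),(43,10,76)] []))
  (B01 (A03 (A02 (K [(43,10,4),(43,5,4)] []) (B02 (K [(43,10,10),(49,2,2),(49,4,4),(43,5,8)] []) (K
  [(43,10,10),(43,5,14)] []))) (A13 (B02 (K [(43,10,10),(49,2,2),(49,4,4),(43,5,8)] []) (K
  [(43,5,14),(43,10,10)] [])) (K [(49,4,2),(43,5,2),(43,10,2),(49,2,1)] []))) (A03 (K
  [(49,2,22),(43,5,102),(43,10,76)] []) (K [(43,5,4),(49,2,3),(43,10,1)] [])))) (A23 (A02 (A03 (K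
  [(43,10,4),(43,5,3)] []) (out 7)) (out 7)) (A03 (A02 (K [(43,10,4),(43,5,3)] []) (B02 (B01 (K
  [(43,10,4),(49,4,1),(43,5,3)] []) (K [(43,5,14),(43,10,10)] [])) (K [(43,5,4),(13,7,1),(43,10,4)]
  []))) (A13 (B02 (B01 (K [(43,10,4),(49,4,1),(43,5,3)] []) (K [(43,5,14),(43,10,10)] [])) (K
  [(43,5,4),(49,4,1),(43,10,4)] [])) (K [(49,4,2),(43,5,3),(43,10,3)] [])))))))))))))) (P 2 (A23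
  (A02 (P 14 (M 11 (A03 (B02 (B01 (A01 (S 1 (L 4 1) (L 31 1)) (out 7)) (A01 (M 3 (L 49 8)) (out
  7))) (B12 (A01 (M 3 (L 49 8)) (out 7)) (A01 (A02 (A03 (B02 (B01 (A01 (M 3 (L 49 8)) (M 6 (L 43
  10))) (M 6 (L 43 10))) (M 6 (L 43 10))) (M 6 (L 43 10))) (out 7)) (out 7)))) (out 7)))) (out 7))
  (P 14 (M 11 (A03 (A02 (B02 (B01 (A01 (S 1 (L 4 1) (L 31 1)) (A13 (out 7) (S 1 (L 4 1) (L 31 1))))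
  (A01 (S 1 (L 4 1) (L 31 1)) (M 6 (L 43 10)))) (B12 (A01 (M 3 (L 49 8)) (M 6 (L 43 10))) (A01 (A03
  (A02 (B02 (B01 (P 12 (L 38 4)) (M 6 (L 43 10))) (M 6 (L 43 10))) (B02 (B01 (A12 (A13 (M 6 (L 43
  10)) (M 3 (L 49 8))) (M 3 (L 49 8))) (M 6 (L 43 10))) (M 6 (L 43 10)))) (A13 (B02 (B01 (A12 (A01
  (A02 (P 12 (L 38 4)) (M 6 (L 43 10))) (M 6 (L 43 10))) (A02 (A01 (P 12 (L 38 4)) (M 6 (L 43 10)))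
  (M 6 (L 43 10)))) (M 6 (L 43 10))) (M 6 (L 43 10))) (B02 (B01 (A23 (A02 (P 12 (L 38 4)) (M 6 (L
  43 10))) (P 12 (L 38 4))) (M 6 (L 43 10))) (M 6 (L 43 10))))) (M 6 (L 43 10))))) (B02 (B01 (A12
  (A13 (out 7) (A23 (out 7) (S 1 (L 4 1) (L 31 1)))) (A23 (out 7) (A13 (out 7) (S 1 (L 4 1) (L 31
  1))))) (M 6 (K [(43,10,5),(43,5,3)] []))) (M 6 (K [(43,10,123),(43,5,77)] [])))) (A13 (B02 (B01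
  (A12 (A01 (A02 (B02 (S 1 (L 4 1) (L 31 1)) (B12 (A03 (S 1 (L 4 1) (L 31 1)) (out 7)) (P 12 (L 38
  4)))) (out 7)) (out 7)) (A02 (A01 (B02 (S 1 (L 4 1) (L 31 1)) (B12 (A03 (S 1 (L 4 1) (L 31 1))
  (out 7)) (A03 (A02 (P 12 (L 38 4)) (out 7)) (out 7)))) (out 7)) (out 7))) (M 6 (K
  [(43,10,5),(43,5,3)] []))) (M 6 (K [(43,10,123),(43,5,77)] []))) (B02 (B01 (A23 (A02 (A03 (B02 (S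
  1 (L 4 1) (L 31 1)) (B12 (A01 (S 1 (L 4 1) (L 31 1)) (out 7)) (A01 (A02 (P 12 (L 38 4)) (out 7))
  (out 7)))) (out 7)) (out 7)) (A03 (A02 (B02 (S 1 (L 4 1) (L 31 1)) (B12 (A01 (S 1 (L 4 1) (L 31
  1)) (B01 (P 12 (L 38 4)) (M 6 (L 43 10)))) (P 12 (L 38 4)))) (B02 (S 1 (L 4 1) (L 31 1)) (B12
  (A12 (B01 (P 12 (L 38 4)) (M 6 (L 43 10))) (M 3 (L 49 4))) (S 1 (L 4 1) (L 31 1))))) (A13 (B02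
  (B01 (S 1 (L 4 1) (L 31 1)) (A12 (B12 (M 6 (L 43 10)) (P 12 (L 38 4))) (B12 (M 6 (L 43 10)) (S 1
  (L 4 1) (L 31 1))))) (B12 (A12 (B01 (P 12 (L 38 4)) (M 6 (L 43 10))) (B01 (S 1 (L 4 1) (L 31 1))
  (M 6 (L 43 10)))) (S 1 (L 4 1) (L 31 1)))) (B02 (B01 (S 1 (L 4 1) (L 31 1)) (A23 (B12 (M 3 (L 49
  4)) (S 1 (L 4 1) (L 31 1))) (S 1 (L 4 1) (L 31 1)))) (B12 (A23 (B01 (S 1 (L 4 1) (L 31 1)) (M 6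
  (L 43 10))) (M 15 (S 1 (L 5 1) (L 31 1)))) (M 15 (S 1 (L 5 1) (L 31 1)))))))) (M 6 (A23 (B12 (A02
  (A03 (K [(43,10,13),(43,5,11)] []) (out 7)) (out 7)) (A02 (S 12 (L 37 10) (L 7 10)) (out 7)))
  (B12 (A03 (A02 (K [(43,10,13),(43,5,11)] []) (B01 (S 12 (L 38 10) (L 7 10)) (S 3 (L 11 8) (L 49
  4)))) (A13 (B01 (S 12 (L 38 10) (L 7 10)) (S 3 (L 11 4) (L 49 4))) (S 3 (L 9 4) (L 49 4)))) (S 12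
  (L 37 10) (L 7 10)))))) (M 6 (B12 (A23 (B01 (A02 (S 12 (L 37 10) (L 7 10)) (out 7)) (K
  [(43,5,105),(43,10,95)] [])) (B01 (S 12 (L 37 10) (L 7 10)) (A03 (K [(43,5,105),(43,10,95)] [])
  (S 3 (L 11 4) (L 49 4))))) (S 12 (L 37 10) (L 7 10))))))))))))))))) (A02 (A01 (P 14 (M 11 (B12 (P
  4 (M 3 (A03 (B01 (M 5 (P 2 (A02 (A01 (P 6 (M 1 (B02 (A03 (B01 (A02 (P 12 (L 38 10)) (S 12 (L 38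
  10) (L 7 10))) (S 12 (L 38 10) (L 18 10))) (P 10 (B01 (P 16 (L 49 4)) (A23 (S 12 (L 38 10) (L 18
  10)) (L 31 1))))) (P 10 (A03 (S 12 (L 38 10) (L 18 10)) (A23 (S 12 (L 38 10) (L 18 10)) (L 31
  1))))))) (P 10 (B02 (A13 (B01 (P 16 (A12 (S 1 (L 4 1) (L 31 1)) (L 49 4))) (A12 (A01 (M 1 (L 31
  1)) (B12 (A13 (S 1 (L 4 1) (L 31 1)) (B01 (P 16 (L 49 4)) (S 1 (L 4 1) (L 31 1)))) (S 1 (L 4 1)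
  (L 31 1)))) (P 6 (S 12 (L 38 10) (L 18 10))))) (P 6 (M 1 (B01 (P 16 (L 49 4)) (A23 (S 12 (L 38
  10) (L 18 10)) (L 31 1)))))) (A13 (A12 (A01 (B12 (B01 (P 16 (L 49 4)) (S 1 (L 4 1) (L 31 1))) (S
  1 (L 4 1) (L 31 1))) (S 1 (L 4 1) (L 31 1))) (A23 (B12 (B01 (A02 (P 16 (L 49 4)) (P 15 (S 1 (L 4
  1) (L 45 1)))) (P 15 (S 1 (L 4 1) (L 45 1)))) (B02 (A02 (P 16 (L 49 4)) (P 15 (S 1 (L 4 1) (L 45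
  1)))) (S 1 (L 4 1) (L 31 1)))) (B12 (B01 (P 16 (L 49 4)) (S 1 (L 4 1) (L 31 1))) (P 16 (L 49
  4))))) (A23 (A12 (B12 (B01 (P 16 (L 49 4)) (A01 (M 1 (L 31 1)) (P 16 (L 49 4)))) (P 16 (L 49 4)))
  (B12 (P 6 (S 12 (L 38 10) (L 18 10))) (B02 (P 6 (S 12 (L 38 10) (L 18 10))) (S 1 (L 4 1) (L 31
  1))))) (A03 (B12 (B01 (P 16 (L 49 4)) (A01 (M 1 (L 31 1)) (P 16 (L 49 4)))) (P 16 (L 49 4))) (P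
  16 (L 49 4)))))))) (P 10 (A23 (B02 (A12 (B01 (P 16 (A01 (L 49 4) (A13 (S 1 (L 4 1) (L 31 1)) (L
  49 4)))) (A01 (A02 (P 6 (S 12 (L 38 10) (L 18 10))) (S 1 (L 4 1) (L 31 1))) (S 1 (L 4 1) (L 31
  1)))) (B01 (P 16 (L 49 4)) (A02 (A01 (P 6 (S 12 (L 38 10) (L 18 10))) (P 15 (S 1 (L 4 1) (L 45
  1)))) (P 15 (S 1 (L 4 1) (L 45 1)))))) (P 15 (A12 (S 1 (L 4 1) (L 45 1)) (S 13 (L 40 7) (L 13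
  7))))) (B02 (A13 (B01 (P 16 (A01 (L 49 4) (A12 (S 1 (L 4 1) (L 31 1)) (L 49 4)))) (A01 (P 6 (S 12
  (L 38 10) (L 18 10))) (A12 (B12 (A13 (S 1 (L 4 1) (L 31 1)) (B01 (P 16 (L 49 4)) (S 1 (L 4 1) (L
  31 1)))) (S 1 (L 4 1) (L 31 1))) (B12 (A23 (S 1 (L 4 1) (L 31 1)) (B01 (P 16 (L 49 4)) (S 1 (L 4
  1) (L 31 1)))) (P 16 (L 49 4)))))) (S 13 (L 40 7) (L 13 7))) (A13 (P 15 (S 1 (L 4 1) (L 45 1)))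
  (A03 (A01 (B12 (B01 (A02 (P 6 (S 12 (L 38 10) (L 18 10))) (P 16 (L 49 4))) (A02 (P 6 (S 12 (L 38
  10) (L 18 10))) (A23 (S 1 (L 4 1) (L 31 1)) (M 1 (L 31 1))))) (B02 (A02 (P 6 (S 12 (L 38 10) (L
  18 10))) (P 16 (L 49 4))) (S 1 (L 4 1) (L 31 1)))) (P 16 (L 49 4))) (P 16 (L 49 4)))))))))) (M 19
  (P 10 (A02 (A01 (B12 (A03 (B01 (A02 (A01 (P 6 (S 12 (L 38 10) (L 18 10))) (B02 (P 6 (S 12 (L 38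
  10) (L 18 10))) (S 1 (L 4 1) (L 31 1)))) (A23 (P 15 (S 1 (L 4 1) (L 45 1))) (B02 (P 6 (S 12 (L 38
  10) (L 18 10))) (S 1 (L 4 1) (L 31 1))))) (P 15 (S 1 (L 4 1) (L 45 1)))) (B01 (A23 (A02 (B02 (M 1
  (L 31 1)) (S 1 (L 4 1) (L 31 1))) (P 15 (S 1 (L 4 1) (L 45 1)))) (A13 (B02 (M 1 (L 31 1)) (S 1 (L
  4 1) (L 31 1))) (S 1 (L 4 1) (L 31 1)))) (S 1 (L 4 1) (L 31 1)))) (A03 (A02 (A01 (P 6 (S 12 (L 38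
  10) (L 18 10))) (B02 (B01 (P 6 (S 12 (L 38 10) (L 18 10))) (A13 (S 1 (L 4 1) (L 31 1)) (M 1 (L 31
  1)))) (B12 (A13 (S 1 (L 4 1) (L 31 1)) (M 1 (L 31 1))) (A13 (S 1 (L 4 1) (L 31 1)) (M 1 (L 31
  1)))))) (A23 (P 15 (S 1 (L 4 1) (L 45 1))) (B02 (B01 (P 6 (S 12 (L 38 10) (L 18 10))) (A13 (S 1
  (L 4 1) (L 31 1)) (M 1 (L 31 1)))) (B12 (A13 (S 1 (L 4 1) (L 31 1)) (M 1 (L 31 1))) (A13 (S 1 (L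
  4 1) (L 31 1)) (M 1 (L 31 1))))))) (A23 (A02 (B02 (B01 (M 1 (L 31 1)) (P 16 (L 49 4))) (P 16 (L
  49 4))) (P 15 (S 1 (L 4 1) (L 45 1)))) (A13 (B02 (B01 (M 1 (L 31 1)) (P 16 (L 49 4))) (P 16 (L 49
  4))) (P 16 (L 49 4)))))) (B12 (A13 (P 15 (S 1 (L 4 1) (L 45 1))) (B01 (A23 (P 15 (S 1 (L 4 1) (L
  45 1))) (A03 (S 1 (L 4 1) (L 31 1)) (P 16 (L 49 4)))) (S 1 (L 4 1) (L 31 1)))) (A13 (P 15 (S 1 (L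
  4 1) (L 45 1))) (A23 (P 15 (S 1 (L 4 1) (L 45 1))) (A03 (S 1 (L 4 1) (L 31 1)) (P 16 (L 49
  4))))))) (A23 (P 15 (B12 (A12 (B01 (S 1 (L 4 1) (L 45 1)) (A01 (A02 (B12 (P 13 (L 41 11)) (S 1 (L
  4 1) (L 31 1))) (M 6 (L 43 10))) (M 6 (L 43 10)))) (B01 (M 5 (S 13 (L 40 7) (L 13 7))) (A02 (A01
  (B12 (P 13 (L 41 11)) (S 1 (L 4 1) (L 31 1))) (M 6 (L 43 10))) (M 6 (L 43 5))))) (M 5 (A12 (S 1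
  (L 4 1) (L 45 1)) (S 13 (L 40 7) (L 13 7)))))) (B12 (A13 (P 15 (S 1 (L 4 1) (L 45 1))) (B01 (A03
  (P 15 (S 1 (L 4 1) (L 45 1))) (A23 (S 1 (L 4 1) (L 31 1)) (P 16 (L 49 4)))) (S 1 (L 4 1) (L 31
  1)))) (A13 (P 15 (S 1 (L 4 1) (L 45 1))) (A03 (P 15 (S 1 (L 4 1) (L 45 1))) (P 16 (L 49
  4)))))))))) (M 19 (P 10 (B01 (M 5 (A23 (A02 (P 16 (B02 (A01 (L 49 4) (B01 (A13 (A12 (S 1 (L 4 1)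
  (L 31 1)) (L 49 4)) (L 49 4)) (S 1 (L 4 1) (L 31 1)))) (A01 (L 49 4) (P 15 (K [(49,4,6),(46,7,2)]
  []))))) (B02 (A12 (B01 (P 16 (A13 (A01 (L 49 4) (S 1 (L 4 1) (L 31 1))) (L 49 4))) (S 1 (L 4 1)
  (L 31 1))) (B01 (P 16 (L 49 4)) (S 1 (L 4 1) (L 31 1)))) (A12 (A13 (S 1 (L 4 1) (L 31 1)) (S 13
  (L 41 7) (L 13 7))) (S 13 (L 41 7) (L 13 7))))) (P 16 (A13 (B02 (S 1 (L 4 1) (L 31 1)) (A01 (L 49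
  4) (P 15 (K [(49,4,6),(46,7,2)] [])))) (L 49 4))))) (A23 (A02 (M 5 (B12 (A01 (B01 (A03 (A02 (P 16
  (L 49 4)) (S 1 (L 4 1) (L 31 1))) (S 13 (L 41 7) (L 13 7))) (A03 (S 1 (L 4 1) (L 31 1)) (S 13 (L
  41 7) (L 13 7)))) (B01 (S 13 (L 41 7) (L 13 7)) (M 6 (K [(43,10,4),(43,5,4)] [])))) (P 16 (A01 (L
  49 4) (P 15 (K [(49,4,6),(46,7,2)] [])))))) (B12 (A12 (B01 (S 13 (L 41 7) (L 13 7)) (M 6 (K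
  [(43,10,4),(43,5,4)] []))) (B01 (S 13 (L 41 7) (L 13 7)) (M 6 (L 43 5)))) (A12 (A13 (S 1 (L 4 1)
  (L 31 1)) (S 13 (L 41 7) (L 13 7))) (S 13 (L 41 7) (L 13 7))))) (M 5 (A13 (B12 (A01 (P 16 (K
  [(49,4,6),(49,2,2)] [])) (B01 (P 16 (L 49 4)) (M 6 (K [(43,10,4),(43,5,4)] [])))) (P 16 (A01 (L
  49 4) (P 15 (K [(49,4,6),(46,7,2)] []))))) (P 16 (K [(49,4,6),(49,2,2)] []))))))))))) (M 5 (P 2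
  (A03 (M 3 (A02 (A01 (M 1 (B02 (B01 (A03 (A02 (P 12 (L 38 10)) (S 12 (L 38 10) (L 7 10))) (S 12 (L
  38 10) (L 7 10))) (P 16 (P 10 (K [(31,1,1),(49,4,6),(49,8,1)] [])))) (P 16 (P 10 (K
  [(31,1,4),(49,4,4)] []))))) (P 16 (P 10 (B02 (B01 (A13 (A12 (S 1 (L 4 1) (L 31 1)) (S 12 (L 38
  10) (L 7 10))) (S 12 (L 38 10) (L 7 10))) (A13 (B12 (A12 (S 1 (L 4 1) (L 31 1)) (A23 (B01 (A02 (S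
  1 (L 4 1) (L 31 1)) (L 49 4)) (S 1 (L 4 1) (L 31 1))) (S 1 (L 4 1) (L 31 1)))) (A12 (S 1 (L 4 1)
  (L 31 1)) (S 12 (L 38 10) (L 7 10)))) (B12 (A23 (A12 (S 1 (L 4 1) (L 31 1)) (B01 (S 12 (L 38 10)
  (L 7 10)) (S 1 (L 4 1) (L 31 1)))) (S 1 (L 4 1) (L 31 1))) (S 12 (L 38 10) (L 7 10))))) (S 1 (L 4
  1) (L 31 1)))))) (P 16 (P 10 (A23 (B02 (B01 (A12 (A01 (L 49 4) (A13 (S 1 (L 4 1) (L 31 1)) (L 49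
  4))) (L 49 4)) (A12 (B12 (P 15 (S 1 (L 4 1) (L 45 1))) (A01 (L 49 4) (S 1 (L 4 1) (L 31 1)))) (L
  49 4))) (B12 (A12 (S 1 (L 4 1) (L 31 1)) (L 49 4)) (A12 (A01 (L 49 4) (A13 (S 1 (L 4 1) (L 31 1))
  (L 49 4))) (L 49 4)))) (B02 (B01 (A13 (A01 (L 49 4) (A12 (S 1 (L 4 1) (L 31 1)) (L 49 4))) (L 49
  4)) (A13 (B12 (P 15 (K [(49,4,5),(46,7,3)] [])) (A01 (L 49 4) (S 1 (L 4 1) (L 31 1)))) (L 49 4)))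
  (B12 (S 1 (L 4 1) (L 31 1)) (A13 (A01 (L 49 4) (A12 (S 1 (L 4 1) (L 31 1)) (L 49 4))) (L 49
  4))))))))) (P 16 (P 10 (A23 (M 3 (A02 (B02 (B01 (A01 (L 49 4) (A13 (A12 (S 1 (L 4 1) (L 31 1)) (L
  49 4)) (L 49 4))) (A01 (L 49 4) (B12 (P 15 (K [(49,4,5),(46,7,3)] [])) (A13 (S 1 (L 4 1) (L 31
  1)) (L 49 4))))) (B12 (A01 (L 49 4) (B01 (A13 (A12 (B02 (S 1 (L 4 1) (L 31 1)) (M 6 (K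
  [(43,10,4),(49,4,4)] []))) (L 49 4)) (L 49 4)) (M 6 (K [(49,4,4),(43,10,4)] [])))) (A01 (L 49 4)
  (A13 (A12 (B02 (B01 (S 1 (L 4 1) (L 31 1)) (A01 (S 12 (L 38 10) (L 7 10)) (M 6 (K
  [(43,10,4),(49,4,4)] [])))) (B12 (A01 (S 12 (L 38 10) (L 7 10)) (M 6 (K [(43,10,4),(49,4,4)]
  []))) (S 12 (L 38 10) (L 7 10)))) (L 49 4)) (L 49 4))))) (B02 (B01 (A12 (A13 (A01 (L 49 4) (S 1
  (L 4 1) (L 31 1))) (L 49 4)) (L 49 4)) (A12 (B12 (P 15 (K [(49,4,5),(46,7,3)] [])) (A13 (S 1 (L 4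
  1) (L 31 1)) (L 49 4))) (L 49 4))) (B12 (A12 (B01 (A13 (A01 (L 49 4) (B02 (S 1 (L 4 1) (L 31 1))
  (P 15 (M 6 (K [(43,10,4),(46,1,2),(49,4,2)] []))))) (L 49 4)) (M 6 (K [(49,4,4),(43,10,4)] [])))
  (L 49 4)) (A12 (A13 (A01 (L 49 4) (B02 (B01 (S 1 (L 4 1) (L 31 1)) (M 6 (K [(43,10,4),(49,4,4)]
  []))) (M 6 (K [(43,10,4),(49,4,4)] [])))) (L 49 4)) (L 49 4)))))) (A13 (B02 (M 3 (B01 (S 1 (L 4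
  1) (L 31 1)) (A01 (L 49 4) (B12 (P 15 (K [(49,4,5),(46,7,3)] [])) (A12 (S 1 (L 4 1) (L 31 1)) (L
  49 4)))))) (B12 (M 3 (A01 (L 49 4) (B01 (A12 (A13 (B02 (S 1 (L 4 1) (L 31 1)) (M 6 (K
  [(43,10,4),(49,4,4)] []))) (L 49 4)) (L 49 4)) (M 6 (K [(49,4,4),(43,10,4)] []))))) (A01 (A02
  (A03 (M 3 (L 49 4)) (B02 (M 3 (L 49 4)) (B12 (M 3 (L 49 4)) (P 12 (L 38 10))))) (A12 (B02 (M 3 (L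
  49 4)) (B12 (M 3 (L 49 4)) (A13 (M 3 (L 49 4)) (S 3 (L 9 4) (L 49 4))))) (B02 (M 3 (L 49 4)) (S 3
  (L 9 4) (L 49 4))))) (A12 (A13 (M 3 (B02 (B01 (S 1 (L 4 1) (L 31 1)) (A01 (S 12 (L 38 10) (L 7
  10)) (M 6 (K [(43,10,4),(49,4,4)] [])))) (B12 (A01 (S 12 (L 38 10) (L 7 10)) (M 6 (K
  [(43,10,4),(49,4,4)] []))) (S 12 (L 38 10) (L 7 10))))) (B02 (M 3 (L 49 4)) (B12 (M 3 (L 49 4))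
  (A03 (M 3 (L 49 4)) (S 3 (L 11 8) (L 49 4)))))) (A02 (B02 (M 3 (L 49 4)) (B12 (M 3 (L 49 4)) (A03
  (M 3 (L 49 4)) (S 3 (L 9 4) (L 49 4))))) (S 3 (L 9 4) (L 49 4))))))) (B02 (B01 (A03 (M 3 (L 49
  4)) (A23 (M 3 (L 49 4)) (A13 (M 3 (L 49 4)) (P 12 (L 38 10))))) (A03 (M 3 (L 49 4)) (B12 (A23 (M
  3 (L 49 4)) (A13 (M 3 (L 49 4)) (B01 (A03 (M 3 (L 49 4)) (S 3 (L 9 4) (L 49 4))) (M 6 (L 43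
  5))))) (A23 (M 3 (L 49 4)) (A13 (M 3 (L 49 4)) (B02 (A03 (M 3 (L 49 4)) (S 3 (L 9 4) (L 49 4)))
  (A03 (B12 (M 3 (L 49 4)) (P 12 (L 38 10))) (S 3 (L 9 4) (L 49 4))))))))) (B12 (A03 (M 3 (L 49 4))
  (B01 (A23 (M 3 (L 49 4)) (A13 (M 3 (L 49 4)) (B02 (A03 (B01 (P 12 (L 38 10)) (S 3 (L 9 4) (L 49
  4))) (S 3 (L 11 4) (L 49 4))) (M 6 (L 43 5))))) (S 3 (L 11 4) (L 49 4)))) (A03 (A02 (A01 (P 12 (L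
  38 10)) (B02 (B01 (P 12 (L 38 10)) (S 3 (L 9 4) (L 49 4))) (S 3 (L 11 4) (L 49 4)))) (A23 (B02 (M
  3 (L 49 4)) (S 3 (L 9 4) (L 49 4))) (B02 (B01 (P 12 (L 38 10)) (S 3 (L 9 4) (L 49 4))) (S 3 (L 11
  4) (L 49 4))))) (A23 (A02 (B02 (B01 (P 12 (L 38 10)) (S 3 (L 9 4) (L 49 4))) (S 3 (L 11 4) (L 49
  4))) (S 3 (L 11 4) (L 49 4))) (A13 (B02 (B01 (P 12 (L 38 10)) (S 3 (L 9 4) (L 49 4))) (S 3 (L 11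
  4) (L 49 4))) (B02 (B01 (P 12 (L 38 10)) (M 6 (L 43 5))) (M 6 (L 43 5)))))))))))))))))) (M 19 (P
  10 (B12 (P 4 (M 3 (A13 (P 15 (M 12 (B01 (M 5 (A12 (P 16 (K [(46,7,3),(49,4,5)] [])) (P 14 (M 11
  (A23 (B02 (A02 (S 1 (L 4 1) (L 31 1)) (S 13 (L 41 7) (L 13 7))) (M 6 (S 13 (L 41 7) (K
  [(13,7,4),(43,10,1),(46,7,3)] [])))) (P 16 (K [(49,4,6),(46,7,2)] []))))))) (M 6 (A12 (A01 (P 14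
  (K [(43,10,5),(43,5,3)] [])) (out 7)) (P 14 (A23 (B12 (A02 (B01 (S 13 (L 41 7) (L 13 7)) (K
  [(43,5,4),(43,10,4)] [])) (B01 (S 13 (L 41 7) (L 13 7)) (S 2 (L 7 6) (L 25 6)))) (A02 (A01 (K
  [(43,10,4),(43,5,4)] []) (S 13 (L 41 7) (L 13 7))) (S 13 (L 41 7) (L 13 7)))) (B12 (A03 (B01 (S
  13 (L 41 7) (L 13 7)) (K [(43,10,4),(43,5,4)] [])) (out 7)) (M 13 (K
  [(13,7,3),(43,5,2),(43,10,3)] [])))))))))) (P 14 (M 11 (B01 (M 5 (A23 (A12 (P 16 (B02 (S 1 (L 4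
  1) (L 31 1)) (P 15 (M 6 (K [(49,4,6),(43,10,1),(46,7,2)] []))))) (B02 (A02 (B01 (S 1 (L 4 1) (L
  31 1)) (S 1 (L 4 1) (L 31 1))) (B01 (P 16 (L 49 4)) (S 1 (L 4 1) (L 31 1)))) (M 6 (K
  [(43,10,11),(43,5,13)] [])))) (P 16 (A03 (B02 (S 1 (L 4 1) (L 31 1)) (P 15 (M 6 (K
  [(43,10,1),(49,4,6),(46,7,2)] [])))) (L 49 4))))) (M 6 (A23 (A12 (B12 (A01 (K
  [(43,10,4),(43,5,4)] []) (S 13 (L 41 7) (L 13 7))) (M 13 (K [(13,7,3),(43,5,2),(43,10,3)] [])))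
  (K [(43,5,13),(43,10,11)] [])) (A03 (S 13 (K [(41,7,3),(41,11,5)] []) (K
  [(13,7,3),(43,10,3),(43,5,3)] [])) (P 16 (K [(49,4,6),(43,5,1),(49,2,1)] []))))))))))) (P 16 (M 5
  (P 2 (A13 (P 15 (A12 (A01 (P 14 (M 11 (B02 (M 3 (S 1 (K [(4,1,13),(49,4,3),(4,8,8)] []) (L 31
  1))) (M 6 (K [(43,10,4),(43,5,3)] []))))) (out 7)) (P 14 (A23 (M 3 (K
  [(49,4,12),(46,1,2),(46,7,8),(49,8,2)] [])) (B02 (M 3 (K [(49,4,13),(46,1,2),(46,7,9)] [])) (M 6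
  (K [(46,1,3),(43,5,31),(43,10,30)] []))))))) (P 14 (M 11 (A23 (A12 (B02 (M 3 (B01 (S 1 (L 4 1) (L
  31 1)) (M 6 (K [(49,4,2),(43,10,3),(43,5,2)] [])))) (M 6 (B12 (M 3 (K
  [(49,4,6),(43,5,8),(43,10,10)] [])) (A01 (M 3 (K [(49,4,4),(43,10,2),(49,8,2)] [])) (S 12 (L 38
  10) (L 7 10)))))) (M 3 (B02 (B01 (A02 (S 1 (L 4 1) (L 31 1)) (L 49 4)) (M 6 (K
  [(49,4,4),(43,10,4)] []))) (M 6 (K [(49,4,13),(43,10,9),(49,8,2)] []))))) (A03 (B02 (M 3 (B01 (S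
  1 (L 4 1) (L 31 1)) (M 6 (K [(49,4,2),(43,10,3),(43,5,2)] [])))) (M 6 (B12 (M 3 (K
  [(49,4,6),(43,10,10),(43,5,8)] [])) (A01 (A02 (K [(43,10,4),(43,5,4)] []) (S 12 (L 38 10) (L 7
  10))) (S 12 (L 38 10) (L 7 10)))))) (B02 (B01 (A13 (A12 (A01 (B02 (M 3 (L 49 4)) (B12 (M 3 (L 49
  4)) (A03 (M 3 (L 49 4)) (out 7)))) (out 7)) (A23 (M 3 (L 49 4)) (B02 (M 3 (L 49 4)) (B12 (M 3 (L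
  49 4)) (A03 (M 3 (L 49 4)) (out 7)))))) (A23 (A12 (B02 (M 3 (L 49 4)) (B12 (M 3 (L 49 4)) (A01 (M
  3 (L 49 4)) (M 6 (L 43 10))))) (M 3 (L 49 4))) (A03 (B02 (M 3 (L 49 4)) (B12 (M 3 (L 49 4)) (P 12
  (L 38 10)))) (B02 (B01 (P 12 (L 38 10)) (M 6 (L 43 10))) (S 3 (L 9 4) (L 49 4)))))) (S 3 (L 9 4)
  (L 49 4))) (S 3 (L 11 4) (L 49 4))))))))))))))) (M 19 (A23 (P 15 (B12 (P 4 (A12 (B01 (A01 (A02 (S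
  13 (L 41 7) (L 13 7)) (out 7)) (out 7)) (M 6 (A01 (P 14 (A02 (B12 (A03 (B01 (S 13 (L 41 7) (L 13
  7)) (L 43 5)) (out 7)) (S 13 (L 41 7) (L 13 7))) (out 7))) (out 7)))) (P 14 (B01 (A02 (A01 (B02
  (A03 (B01 (M 5 (L 46 1)) (A02 (S 13 (L 41 7) (L 13 7)) (out 7))) (out 7)) (M 6 (L 43 5))) (out
  7)) (out 0)) (M 6 (A02 (A01 (L 43 5) (out 7)) (out 0))))))) (A12 (P 16 (A01 (M 3 (L 49 4)) (out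
  7))) (P 14 (M 3 (A02 (A01 (B02 (B01 (P 16 (L 49 4)) (M 6 (L 43 5))) (M 6 (L 43 5))) (out 7)) (out
  0))))))) (B12 (P 4 (M 3 (A13 (B01 (A01 (S 13 (L 41 7) (L 13 7)) (out 7)) (M 6 (A01 (P 14 (A03
  (B12 (A02 (B01 (S 13 (L 41 7) (L 13 7)) (L 43 5)) (out 7)) (S 13 (L 41 7) (L 13 7))) (out 7)))
  (out 7)))) (P 14 (B01 (A03 (A01 (B02 (A02 (B01 (P 16 (L 49 4)) (S 13 (L 41 7) (L 13 7))) (P 16 (L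
  49 4))) (S 13 (L 41 7) (L 13 7))) (P 16 (L 49 4))) (P 16 (L 49 4))) (M 6 (A03 (A01 (B12 (A02 (K
  [(43,5,5),(43,10,3)] []) (S 13 (L 41 7) (L 13 7))) (S 13 (L 41 7) (L 13 7))) (S 13 (L 41 7) (L 13
  7))) (A23 (S 13 (L 41 7) (L 13 7)) (P 16 (K [(49,4,7),(43,5,1)] [])))))))))) (P 16 (A13 (A01 (S 3
  (L 11 8) (L 49 4)) (out 7)) (M 11 (A03 (A01 (M 3 (L 49 4)) (B02 (M 3 (L 49 4)) (S 3 (L 11 8) (L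
  49 4)))) (A23 (B02 (M 3 (L 49 4)) (S 3 (L 11 4) (L 49 4))) (B02 (B01 (A13 (A01 (A03 (M 3 (L 49
  4)) (out 7)) (out 7)) (A03 (A01 (M 3 (L 49 4)) (B02 (M 3 (L 49 4)) (S 3 (L 9 4) (L 49 4)))) (A23
  (B02 (M 3 (L 49 4)) (S 3 (L 9 4) (L 49 4))) (B02 (B01 (P 12 (L 38 10)) (S 3 (L 9 4) (L 49 4))) (S
  3 (L 9 4) (L 49 4)))))) (S 3 (L 9 4) (L 49 4))) (S 3 (L 11 4) (L 49 4)))))))))))))) (P 14 (M 11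
  (A23 (M 18 (A02 (A03 (B12 (P 4 (M 3 (A01 (B01 (M 5 (P 2 (A02 (P 6 (A03 (B02 (A01 (B01 (A02 (P 12
  (L 38 10)) (S 12 (L 38 10) (L 7 10))) (S 12 (L 38 10) (L 7 10))) (S 12 (L 38 10) (L 7 10))) (A01
  (S 12 (L 38 10) (L 18 10)) (S 13 (L 40 7) (L 13 7)))) (S 13 (L 40 7) (L 13 7)))) (P 10 (A12 (B02
  (S 12 (L 38 10) (L 7 10)) (A13 (A01 (A03 (B12 (B01 (A02 (P 6 (S 12 (L 38 10) (L 18 10))) (P 16 (L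
  49 4))) (A02 (P 6 (S 12 (L 38 10) (L 18 10))) (A12 (S 12 (L 38 10) (L 7 10)) (P 15 (L 46 1)))))
  (B02 (A02 (P 6 (S 12 (L 38 10) (L 18 10))) (P 16 (L 49 4))) (S 1 (L 4 1) (L 31 1)))) (P 16 (L 49
  4))) (P 16 (L 49 4))) (A03 (A01 (B12 (B01 (A02 (P 6 (S 12 (L 38 10) (L 18 10))) (P 16 (L 49 4)))
  (P 15 (S 1 (L 4 1) (L 45 1)))) (B02 (A02 (P 6 (S 12 (L 38 10) (L 18 10))) (P 16 (L 49 4))) (S 1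
  (L 4 1) (L 31 8)))) (P 16 (L 49 4))) (P 16 (L 49 4))))) (B02 (A23 (B01 (P 16 (L 49 4)) (A02 (P 6
  (S 12 (L 38 10) (L 18 10))) (P 15 (S 1 (L 4 1) (L 45 1))))) (S 12 (L 38 10) (L 7 10))) (A23 (S 13
  (L 40 7) (L 13 7)) (A03 (A02 (B12 (B01 (A01 (P 6 (S 12 (L 38 10) (L 18 10))) (P 16 (L 49 4))) (P
  15 (S 1 (L 4 1) (L 45 1)))) (B02 (A01 (P 6 (S 12 (L 38 10) (L 18 10))) (P 16 (L 49 4))) (S 1 (L 4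
  1) (L 31 8)))) (B12 (B01 (P 16 (L 49 4)) (P 15 (L 46 1))) (P 16 (L 49 4)))) (A13 (B12 (B01 (P 16
  (L 49 4)) (P 15 (L 46 1))) (P 16 (L 49 4))) (B12 (M 1 (L 31 8)) (P 16 (L 49 4)))))))))))) (M 19
  (P 10 (A02 (A03 (B12 (A01 (P 6 (S 12 (L 38 10) (L 18 10))) (B01 (A12 (A13 (S 1 (L 4 1) (L 31 1))
  (P 6 (S 12 (L 38 10) (L 18 10)))) (P 6 (S 12 (L 38 10) (L 18 10)))) (P 15 (S 1 (L 4 1) (L 45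
  1))))) (A01 (P 6 (S 12 (L 38 10) (L 18 10))) (A12 (P 16 (L 49 4)) (P 6 (S 12 (L 38 10) (L 18
  10)))))) (B12 (A13 (B01 (A12 (A01 (P 6 (S 12 (L 38 10) (L 18 10))) (P 16 (L 49 4))) (P 6 (S 12 (L
  38 10) (L 18 10)))) (P 15 (S 1 (L 4 1) (L 45 1)))) (P 6 (S 12 (L 38 10) (L 18 10)))) (A13 (A12 (P
  16 (L 49 4)) (P 6 (S 12 (L 38 10) (L 18 10)))) (P 6 (S 12 (L 38 10) (L 18 10)))))) (A12 (B12 (A13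
  (B01 (A01 (A03 (P 15 (S 1 (L 4 1) (L 45 1))) (B02 (A23 (P 15 (S 1 (L 4 1) (L 45 1))) (P 6 (S 12
  (L 38 10) (L 18 10)))) (S 1 (L 4 1) (L 31 8)))) (A12 (P 16 (L 49 4)) (B02 (A23 (S 1 (L 4 1) (L 31
  1)) (P 16 (L 49 4))) (S 1 (L 4 1) (L 31 8))))) (P 15 (S 1 (L 4 1) (L 45 1)))) (B01 (A03 (A01 (P
  15 (S 1 (L 4 1) (L 45 1))) (B02 (A12 (M 1 (L 31 8)) (P 15 (S 1 (L 4 1) (L 45 1)))) (S 1 (L 4 1)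
  (L 31 8)))) (A23 (B02 (A12 (M 1 (L 31 8)) (P 15 (S 1 (L 4 1) (L 45 1)))) (S 1 (L 4 8) (L 31 8)))
  (B02 (M 1 (L 31 8)) (S 1 (L 4 8) (L 31 8))))) (S 1 (L 4 8) (L 31 8)))) (A13 (A01 (A03 (P 15 (S 1
  (L 4 1) (L 45 1))) (P 16 (L 49 4))) (P 16 (L 49 4))) (A03 (A01 (P 15 (S 1 (L 4 1) (L 45 1))) (B02
  (B01 (A12 (M 1 (L 31 8)) (P 15 (S 1 (L 4 1) (L 45 1)))) (S 1 (L 4 1) (L 31 8))) (S 1 (L 4 8) (L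
  31 8)))) (A23 (B02 (B01 (A12 (M 1 (L 31 8)) (S 1 (L 4 1) (L 31 8))) (S 1 (L 4 8) (L 31 8))) (S 1
  (L 4 8) (L 31 8))) (B02 (B01 (M 1 (L 31 8)) (S 1 (L 4 8) (L 31 8))) (S 1 (L 4 8) (L 31 8)))))))
  (B12 (A23 (P 15 (B01 (M 5 (S 13 (L 40 7) (L 13 7))) (A02 (A03 (B12 (P 13 (L 41 11)) (S 1 (L 4 1)
  (L 31 1))) (B12 (S 1 (L 4 8) (L 31 8)) (S 1 (L 4 8) (L 31 8)))) (A12 (B12 (S 1 (L 4 8) (L 45 8))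
  (S 1 (L 4 8) (L 45 8))) (S 1 (L 4 8) (L 45 8)))))) (M 5 (B01 (A03 (S 13 (L 40 7) (L 13 7)) (A13
  (S 1 (L 4 8) (L 31 8)) (B02 (M 1 (L 31 8)) (S 1 (L 4 8) (L 31 8))))) (S 1 (L 4 8) (L 31 8))))) (M
  5 (A23 (S 13 (L 40 7) (L 13 7)) (A03 (S 13 (L 40 7) (L 13 7)) (A13 (S 1 (L 4 8) (L 31 8)) (B02
  (B01 (M 1 (L 31 8)) (S 1 (L 4 8) (L 31 8))) (S 1 (L 4 8) (L 31 8))))))))))))) (P 10 (B01 (M 5 (P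
  2 (A12 (P 16 (L 49 4)) (A02 (P 16 (L 49 4)) (B02 (A23 (B01 (P 16 (L 49 4)) (P 15 (L 46 1))) (B01
  (P 16 (L 49 4)) (A13 (A12 (P 16 (L 49 4)) (B12 (A02 (P 16 (L 49 4)) (B01 (P 16 (L 49 4)) (P 15 (L
  46 1)))) (P 16 (L 49 4)))) (S 12 (L 38 10) (L 7 10))))) (A23 (S 1 (L 4 8) (L 31 8)) (A13 (P 15 (L
  46 1)) (A03 (B12 (B01 (P 16 (L 49 4)) (P 15 (L 46 1))) (P 16 (L 49 4))) (B12 (B01 (P 16 (L 49 4))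
  (A23 (P 15 (L 46 1)) (P 16 (L 49 4)))) (P 16 (L 49 4))))))))))) (A12 (M 5 (A13 (P 16 (K
  [(49,4,6),(49,2,2)] [])) (B12 (A03 (P 16 (K [(49,4,6),(49,2,2)] [])) (B01 (A23 (P 16 (L 49 4))
  (A13 (P 16 (L 49 4)) (B02 (A03 (P 16 (L 49 4)) (B01 (P 16 (L 49 4)) (P 15 (L 46 1)))) (P 15 (L 46
  1))))) (S 1 (L 4 8) (L 31 8)))) (P 16 (L 49 4))))) (A02 (M 5 (B12 (A03 (B01 (A01 (A02 (P 16 (L 49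
  4)) (B02 (A23 (S 1 (L 4 1) (L 31 1)) (P 16 (L 49 4))) (S 1 (L 4 1) (L 31 8)))) (A13 (S 1 (L 4 8)
  (L 31 1)) (B02 (A23 (S 1 (L 4 1) (L 31 1)) (P 16 (L 49 4))) (S 1 (L 4 8) (L 31 8))))) (P 15 (A01
  (S 1 (L 4 1) (L 45 1)) (S 1 (L 4 8) (L 31 8))))) (B01 (A13 (A01 (B02 (A02 (P 16 (L 49 4)) (S 1 (L
  4 1) (L 31 8))) (S 1 (L 4 8) (L 31 8))) (S 1 (L 4 8) (L 31 8))) (A23 (B02 (A02 (B01 (P 16 (L 49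
  4)) (S 1 (L 4 1) (L 31 8))) (S 1 (L 4 1) (L 31 8))) (S 1 (L 4 8) (L 31 8))) (B02 (A03 (B01 (P 16
  (L 49 4)) (P 15 (L 46 1))) (B01 (P 16 (L 49 4)) (P 15 (L 46 1)))) (S 1 (L 4 8) (L 31 8))))) (S 1
  (L 4 8) (L 31 8)))) (P 16 (L 49 4)))) (B12 (A23 (P 15 (B01 (S 1 (L 4 8) (L 31 8)) (A12 (S 1 (L 4
  8) (L 45 8)) (A02 (B12 (S 1 (L 4 8) (L 45 8)) (S 1 (L 4 8) (L 45 8))) (B12 (S 1 (L 4 8) (L 45 8))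
  (A23 (M 6 (L 43 5)) (S 1 (L 4 8) (L 45 8)))))))) (M 5 (B01 (A13 (S 1 (L 4 8) (L 31 8)) (A03 (S 1
  (L 4 8) (L 31 8)) (B02 (A23 (S 1 (L 4 8) (L 31 8)) (B01 (A13 (P 15 (L 46 1)) (M 1 (L 31 8))) (P
  15 (L 46 1)))) (S 1 (L 4 8) (L 31 8))))) (S 1 (L 4 8) (L 31 8))))) (M 5 (A23 (S 1 (L 4 8) (L 31
  8)) (A13 (S 1 (L 4 8) (L 31 8)) (A03 (S 1 (L 4 8) (L 31 8)) (B02 (B01 (A23 (P 15 (L 46 1)) (P 16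
  (L 49 4))) (S 1 (L 4 8) (L 31 8))) (S 1 (L 4 8) (L 31 8))))))))))))))) (A01 (M 3 (A02 (A03 (B02
  (B01 (A01 (A02 (P 12 (L 38 10)) (P 16 (L 49 4))) (P 16 (L 49 4))) (P 16 (L 49 4))) (P 16 (L 49
  4))) (P 16 (L 49 4))) (P 16 (L 49 4)))) (P 16 (A12 (A13 (B02 (B01 (A01 (M 3 (L 49 4)) (A12 (P 12
  (L 38 10)) (M 3 (L 49 4)))) (A01 (M 3 (L 49 4)) (B12 (A12 (A13 (B01 (A01 (M 3 (L 49 4)) (S 3 (L 9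
  4) (L 49 4))) (M 6 (L 43 5))) (M 3 (L 49 4))) (M 3 (L 49 4))) (A12 (A13 (B02 (A01 (M 3 (L 49 4))
  (S 3 (L 9 4) (L 49 4))) (A01 (B12 (M 3 (L 49 4)) (P 12 (L 38 10))) (S 3 (L 9 4) (L 49 4)))) (B02
  (M 3 (L 49 4)) (A03 (B12 (M 3 (L 49 4)) (P 12 (L 38 10))) (B12 (M 3 (L 49 4)) (P 12 (L 38
  10)))))) (M 3 (L 49 4)))))) (B12 (A01 (M 3 (L 49 4)) (B01 (A12 (A13 (B02 (A01 (B01 (P 12 (L 38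
  10)) (S 3 (L 9 4) (L 49 4))) (S 3 (L 11 4) (L 49 4))) (M 6 (L 43 5))) (B02 (A03 (B01 (P 12 (L 38
  10)) (M 3 (L 49 4))) (B01 (P 12 (L 38 10)) (M 3 (L 49 4)))) (M 3 (L 49 4)))) (M 3 (L 49 4))) (M 6
  (L 43 5)))) (A01 (A02 (P 12 (L 38 10)) (A12 (B02 (B01 (P 12 (L 38 10)) (M 6 (L 43 5))) (M 6 (L 43
  5))) (B02 (M 3 (L 49 4)) (M 6 (L 43 5))))) (A12 (A13 (B02 (B01 (P 12 (L 38 10)) (M 6 (L 43 5)))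
  (M 6 (L 43 5))) (B02 (B01 (P 12 (L 38 10)) (M 6 (L 43 5))) (M 6 (L 43 5)))) (A02 (B02 (B01 (P 12
  (L 38 10)) (M 6 (L 43 5))) (M 6 (L 43 5))) (M 6 (L 43 5))))))) (B02 (M 3 (L 49 4)) (B12 (M 3 (L
  49 4)) (A03 (A02 (P 12 (L 38 10)) (A23 (B02 (M 3 (L 49 4)) (M 6 (L 43 5))) (B02 (M 3 (L 49 4))
  (B12 (M 3 (L 49 4)) (P 12 (L 38 10)))))) (A23 (A02 (B02 (M 3 (L 49 4)) (B12 (M 3 (L 49 4)) (A01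
  (M 3 (L 49 4)) (M 6 (L 43 5))))) (B02 (M 3 (L 49 4)) (M 6 (L 43 5)))) (A13 (B02 (M 3 (L 49 4))
  (B12 (M 3 (L 49 4)) (A01 (M 3 (L 49 4)) (M 6 (L 43 5))))) (M 3 (L 49 4)))))))) (M 3 (L 49 4))))))
  (M 19 (P 10 (B12 (M 3 (A13 (B01 (M 5 (A12 (P 16 (L 49 4)) (A23 (B02 (A02 (B01 (P 16 (L 49 4))
  (A01 (A03 (M 1 (L 31 8)) (B12 (A23 (M 1 (L 31 8)) (P 16 (L 49 4))) (P 16 (L 49 4)))) (A12 (P 16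
  (L 49 4)) (B12 (A23 (B01 (P 16 (L 49 4)) (P 15 (L 46 1))) (P 16 (L 49 4))) (P 16 (L 49 4))))))
  (B01 (P 16 (L 49 4)) (P 15 (L 46 1)))) (A02 (A01 (A03 (B12 (B01 (P 16 (L 49 4)) (A02 (P 16 (L 49
  4)) (P 15 (L 46 1)))) (P 16 (L 49 4))) (P 15 (L 46 1))) (P 15 (L 46 1))) (P 15 (L 46 1)))) (P 16
  (L 49 4))))) (A12 (M 5 (A01 (B12 (A03 (B01 (A02 (A01 (B02 (A03 (B01 (P 16 (L 49 4)) (P 15 (L 46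
  1))) (P 16 (L 49 4))) (P 15 (L 46 1))) (P 16 (L 49 4))) (P 16 (L 49 4))) (S 1 (L 4 8) (L 31 8)))
  (P 16 (L 49 4))) (P 16 (L 49 4))) (P 16 (L 49 4)))) (A23 (B12 (A02 (M 5 (B01 (A01 (A03 (B02 (A02
  (B01 (A01 (M 1 (L 31 8)) (P 15 (L 46 1))) (P 15 (L 46 1))) (S 1 (L 4 8) (L 31 8))) (S 1 (L 4 8)
  (L 31 8))) (S 1 (L 4 8) (L 31 8))) (S 1 (L 4 8) (L 31 8))) (S 1 (L 4 8) (L 31 8)))) (P 15 (B01 (S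
  1 (L 4 8) (L 31 8)) (A12 (S 1 (L 4 8) (L 45 8)) (A23 (B12 (S 1 (L 4 8) (L 45 8)) (A02 (S 1 (L 4
  8) (L 45 8)) (M 6 (L 43 5)))) (B12 (A03 (P 13 (L 41 7)) (M 6 (L 43 5))) (S 1 (L 4 8) (L 45
  8)))))))) (M 5 (A02 (A01 (A03 (B02 (B01 (A02 (P 16 (L 49 4)) (P 15 (L 46 1))) (S 1 (L 4 8) (L 31
  8))) (S 1 (L 4 8) (L 31 8))) (S 1 (L 4 8) (L 31 8))) (S 1 (L 4 8) (L 31 8))) (S 1 (L 4 8) (L 31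
  8))))) (M 5 (B12 (A03 (B01 (A01 (A02 (B02 (A03 (B01 (P 16 (L 49 4)) (P 15 (L 46 1))) (P 16 (L 49
  4))) (P 15 (L 46 1))) (P 16 (L 49 4))) (P 16 (L 49 4))) (S 1 (L 4 8) (L 31 8))) (S 1 (L 4 8) (L
  31 8))) (P 16 (L 49 4))))))) (B01 (M 5 (A23 (A12 (P 16 (L 49 4)) (B02 (A02 (B01 (P 16 (L 49 4))
  (A03 (A01 (M 1 (L 31 8)) (B12 (A12 (P 16 (L 49 4)) (M 1 (L 31 8))) (P 16 (L 49 4)))) (A23 (B12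
  (A12 (P 16 (L 49 4)) (M 1 (L 31 8))) (P 16 (L 49 4))) (P 16 (L 49 4))))) (B01 (P 16 (L 49 4)) (P
  15 (L 46 1)))) (A02 (A03 (A01 (B12 (B01 (P 16 (L 49 4)) (A02 (P 16 (L 49 4)) (P 15 (L 46 1)))) (P
  16 (L 49 4))) (P 15 (L 46 1))) (P 15 (L 46 1))) (P 15 (L 46 1))))) (P 16 (L 49 4)))) (A23 (A12 (M
  5 (B12 (A01 (B01 (A03 (A02 (B02 (A01 (M 1 (L 31 8)) (P 15 (L 46 1))) (P 15 (L 46 1))) (P 15 (L 46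
  1))) (P 15 (L 46 1))) (S 1 (L 4 8) (L 31 8))) (S 1 (L 4 8) (L 31 8))) (A01 (A03 (P 16 (L 49 4))
  (P 15 (L 46 1))) (P 15 (L 46 1))))) (B12 (A02 (B01 (A03 (A01 (B02 (M 1 (L 31 8)) (S 1 (L 4 8) (L
  31 8))) (S 1 (L 4 8) (L 31 8))) (S 1 (L 4 8) (L 31 8))) (S 1 (L 4 8) (L 31 8))) (P 15 (B01 (S 1
  (L 4 8) (L 31 8)) (A23 (A12 (B12 (A01 (P 13 (L 41 7)) (M 6 (L 43 5))) (S 1 (L 4 8) (L 45 8))) (S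
  1 (L 4 8) (L 45 8))) (A03 (B12 (A01 (P 13 (L 41 7)) (B01 (S 1 (L 4 8) (L 45 8)) (M 6 (L 43 5))))
  (S 1 (L 4 8) (L 45 8))) (B12 (A13 (B01 (S 1 (L 4 8) (L 31 8)) (M 6 (L 43 5))) (out 0)) (S 1 (L 4
  8) (L 31 8)))))))) (M 5 (A02 (A03 (A01 (B02 (B01 (A02 (P 16 (L 49 4)) (P 15 (L 46 1))) (S 1 (L 4
  8) (L 31 8))) (S 1 (L 4 8) (L 31 8))) (S 1 (L 4 8) (L 31 8))) (S 1 (L 4 8) (L 31 8))) (S 1 (L 4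
  8) (L 31 8)))))) (M 5 (A03 (B12 (A01 (B01 (A02 (A03 (B02 (A01 (M 1 (L 31 8)) (P 15 (L 46 1))) (P
  15 (L 46 1))) (P 15 (L 46 1))) (P 15 (L 46 1))) (S 1 (L 4 8) (L 31 8))) (S 1 (L 4 8) (L 31 8)))
  (A01 (A02 (P 16 (L 49 4)) (P 15 (L 46 1))) (P 15 (L 46 1)))) (out 0))))))) (P 16 (A13 (A12 (A01
  (B02 (M 3 (L 49 4)) (B12 (M 3 (L 49 4)) (A03 (A02 (A01 (M 3 (L 49 4)) (B02 (M 3 (L 49 4)) (M 6 (L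
  43 5)))) (A23 (B02 (M 3 (L 49 4)) (M 6 (L 43 5))) (B02 (M 3 (L 49 4)) (M 6 (L 43 5))))) (M 6 (L
  43 5))))) (B02 (B01 (A13 (A12 (P 12 (L 38 10)) (A23 (M 3 (L 49 4)) (B02 (M 3 (L 49 4)) (B12 (M 3
  (L 49 4)) (P 12 (L 38 10)))))) (A23 (A12 (B02 (M 3 (L 49 4)) (B12 (M 3 (L 49 4)) (A01 (M 3 (L 49
  4)) (M 6 (L 43 5))))) (M 3 (L 49 4))) (A03 (B02 (M 3 (L 49 4)) (B12 (M 3 (L 49 4)) (A01 (M 3 (L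
  49 4)) (M 6 (L 43 5))))) (B02 (M 3 (L 49 4)) (M 6 (L 43 5)))))) (A13 (B12 (A12 (A01 (M 3 (L 49
  4)) (S 3 (L 9 4) (L 49 4))) (M 3 (L 49 4))) (A12 (A01 (B02 (M 3 (L 49 4)) (M 6 (L 43 5))) (S 3 (L
  9 4) (L 49 4))) (A23 (M 3 (L 49 4)) (B02 (M 3 (L 49 4)) (M 6 (L 43 5)))))) (B12 (M 3 (L 49 4))
  (A23 (A12 (B02 (M 3 (L 49 4)) (M 6 (L 43 5))) (M 3 (L 49 4))) (A03 (B02 (M 3 (L 49 4)) (M 6 (L 43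
  5))) (M 6 (L 43 5))))))) (M 6 (L 43 5)))) (A23 (M 3 (L 49 4)) (B02 (M 3 (L 49 4)) (B12 (M 3 (L 49
  4)) (A03 (M 3 (L 49 4)) (M 6 (L 43 5))))))) (A23 (A12 (B02 (M 3 (L 49 4)) (B12 (M 3 (L 49 4))
  (A01 (M 3 (L 49 4)) (M 6 (L 43 5))))) (M 3 (L 49 4))) (A03 (B02 (M 3 (L 49 4)) (B12 (M 3 (L 49
  4)) (A01 (M 3 (L 49 4)) (M 6 (L 43 5))))) (out 0))))))))) (A12 (B12 (M 3 (A13 (B01 (M 5 (A01 (A03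
  (B02 (A02 (B01 (P 16 (L 49 4)) (P 15 (L 46 1))) (P 16 (L 49 4))) (P 15 (L 46 1))) (P 16 (L 49
  4))) (P 16 (L 49 4)))) (M 6 (K [(43,5,54),(43,10,10)] []))) (B01 (M 5 (A03 (A01 (B02 (A02 (B01 (P
  16 (L 49 4)) (P 15 (L 46 1))) (P 16 (L 49 4))) (P 15 (L 46 1))) (P 16 (L 49 4))) (out 0))) (A03
  (M 6 (L 43 5)) (out 0))))) (P 16 (A13 (A01 (A03 (M 3 (L 49 4)) (B02 (M 3 (L 49 4)) (M 6 (L 43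
  5)))) (A12 (B02 (B01 (A13 (A01 (A03 (M 3 (L 49 4)) (B02 (M 3 (L 49 4)) (S 3 (L 9 4) (L 49 4))))
  (A12 (B02 (B01 (P 12 (L 38 10)) (S 3 (L 9 4) (L 49 4))) (S 3 (L 9 4) (L 49 4))) (B02 (M 3 (L 49
  4)) (S 3 (L 9 4) (L 49 4))))) (A03 (A01 (M 3 (L 49 4)) (B02 (M 3 (L 49 4)) (M 6 (L 43 5)))) (A23
  (B02 (M 3 (L 49 4)) (M 6 (L 43 5))) (B02 (M 3 (L 49 4)) (M 6 (L 43 5)))))) (S 3 (L 9 4) (L 49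
  4))) (M 6 (L 43 5))) (B02 (M 3 (L 49 4)) (M 6 (L 43 5))))) (A03 (A01 (M 3 (L 49 4)) (B02 (M 3 (L
  49 4)) (M 6 (L 43 5)))) (out 0))))) (M 3 (B12 (A23 (P 15 (B01 (A02 (A03 (B02 (A01 (B01 (M 5 (L 46
  1)) (A02 (M 5 (L 46 1)) (out 7))) (out 7)) (M 6 (L 43 5))) (out 0)) (out 0)) (M 6 (L 43 5))))
  (B01 (M 5 (A03 (A02 (B02 (A01 (B01 (P 16 (L 49 4)) (P 15 (L 46 1))) (B01 (P 16 (L 49 4)) (P 15 (L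
  46 1)))) (P 15 (L 46 1))) (out 0)) (out 0))) (A03 (M 6 (L 43 5)) (out 0)))) (A23 (A02 (A03 (B02
  (B01 (P 16 (L 49 4)) (M 6 (L 43 5))) (M 6 (L 43 5))) (out 0)) (out 0)) (P 16 (L 49 4)))))))) (M 5
  (P 2 (A03 (M 18 (A02 (B12 (M 3 (A01 (B01 (A03 (A02 (P 12 (L 38 10)) (P 16 (L 49 4))) (P 16 (L 49
  4))) (P 10 (A03 (A02 (B12 (A01 (P 6 (S 12 (L 38 10) (L 18 10))) (B01 (A13 (A12 (P 16 (K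
  [(49,4,6),(49,2,2)] [])) (P 6 (S 12 (L 38 10) (L 18 10)))) (P 6 (S 12 (L 38 10) (L 18 10)))) (A13
  (A12 (B12 (A01 (S 12 (L 38 6) (L 7 6)) (B01 (P 16 (L 49 2)) (P 15 (L 46 3)))) (S 12 (L 38 10) (L
  7 6))) (P 6 (S 12 (L 38 6) (L 18 10)))) (S 12 (L 38 10) (L 7 6))))) (A01 (P 6 (S 12 (L 38 10) (L
  18 10))) (P 16 (L 49 4)))) (B12 (A12 (B01 (A13 (A01 (P 6 (S 12 (L 38 10) (L 18 10))) (P 16 (L 49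
  4))) (S 12 (L 38 10) (L 7 10))) (A13 (A01 (M 1 (L 31 8)) (B12 (A12 (B01 (P 16 (L 49 2)) (P 15 (L
  46 3))) (B01 (P 16 (L 49 4)) (P 15 (L 46 3)))) (P 16 (L 49 4)))) (M 1 (L 31 8)))) (M 1 (L 31 8)))
  (P 16 (L 49 4)))) (A13 (B12 (A12 (B01 (P 16 (L 49 4)) (A01 (M 1 (L 31 8)) (P 16 (K
  [(49,4,6),(49,2,2)] [])))) (M 1 (L 31 8))) (P 16 (L 49 4))) (M 1 (L 31 8)))))) (P 10 (B01 (P 16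
  (L 49 4)) (A13 (A12 (P 16 (K [(49,4,6),(49,2,2)] [])) (B12 (A02 (P 16 (K [(49,4,6),(49,2,2)] []))
  (B01 (A23 (A12 (P 16 (L 49 4)) (B02 (M 1 (L 31 8)) (P 15 (L 46 1)))) (P 16 (L 49 4))) (A23 (S 1
  (L 4 8) (L 31 8)) (P 16 (L 49 4))))) (P 16 (L 49 4)))) (A03 (B12 (A02 (P 16 (K
  [(49,4,6),(49,2,2)] [])) (B01 (A12 (P 16 (L 49 4)) (M 1 (L 31 8))) (A12 (P 16 (L 49 4)) (M 1 (L
  31 8))))) (P 16 (L 49 4))) (B12 (A23 (B01 (A12 (P 16 (L 49 4)) (M 1 (L 31 8))) (A12 (P 16 (L 49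
  4)) (M 1 (L 31 8)))) (P 16 (L 49 4))) (P 16 (L 49 4))))))))) (A01 (A03 (M 3 (A02 (P 12 (L 38 10))
  (P 16 (L 49 4)))) (P 16 (A13 (B02 (M 3 (L 49 4)) (B12 (M 3 (L 49 4)) (P 12 (L 38 10)))) (B02 (M 3
  (L 49 4)) (B12 (M 3 (L 49 4)) (P 12 (L 38 10))))))) (P 16 (A13 (A12 (B02 (B01 (P 12 (L 38 10))
  (A01 (B12 (M 3 (L 49 4)) (P 12 (L 38 10))) (B12 (A13 (A12 (B01 (P 12 (L 38 10)) (M 6 (L 43 5)))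
  (M 3 (L 49 4))) (M 3 (L 49 4))) (P 12 (L 38 10))))) (B12 (A01 (B01 (P 12 (L 38 10)) (M 3 (L 49
  4))) (B01 (P 12 (L 38 10)) (A13 (M 6 (L 43 5)) (A03 (M 6 (L 43 5)) (B12 (M 3 (L 49 4)) (A23 (M 6
  (L 43 5)) (P 12 (L 38 10)))))))) (P 12 (L 38 10)))) (B02 (B01 (P 12 (L 38 10)) (A02 (B12 (M 3 (L
  49 4)) (P 12 (L 38 10))) (B12 (M 3 (L 49 4)) (P 12 (L 38 10))))) (B12 (A02 (B01 (P 12 (L 38 10))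
  (M 3 (L 49 4))) (B01 (P 12 (L 38 10)) (M 3 (L 49 4)))) (P 12 (L 38 10))))) (A03 (B02 (B01 (P 12
  (L 38 10)) (A02 (B12 (M 3 (L 49 4)) (P 12 (L 38 10))) (B12 (M 3 (L 49 4)) (P 12 (L 38 10)))))
  (B12 (A02 (B01 (P 12 (L 38 10)) (M 3 (L 49 4))) (B01 (P 12 (L 38 10)) (M 3 (L 49 4)))) (P 12 (L
  38 10)))) (B02 (B01 (P 12 (L 38 10)) (A23 (B12 (M 3 (L 49 4)) (P 12 (L 38 10))) (P 12 (L 38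
  10)))) (B12 (A23 (B01 (P 12 (L 38 10)) (M 3 (L 49 4))) (P 12 (L 38 10))) (P 12 (L 38 10)))))))))
  (P 10 (B12 (M 3 (A12 (B01 (P 16 (L 49 4)) (A13 (A01 (B12 (A02 (B01 (A03 (A01 (B02 (A02 (M 1 (L 31
  8)) (P 16 (L 49 4))) (P 15 (L 46 1))) (P 16 (L 49 4))) (P 16 (L 49 4))) (A03 (S 1 (L 4 8) (L 31
  8)) (P 16 (L 49 4)))) (P 16 (L 49 4))) (P 16 (L 49 4))) (P 16 (L 49 4))) (A23 (B12 (A02 (B01 (A01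
  (A03 (B02 (A02 (M 1 (L 31 8)) (P 16 (L 49 4))) (P 15 (L 46 1))) (P 16 (L 49 4))) (P 16 (L 49 4)))
  (A01 (A03 (S 1 (L 4 8) (L 31 8)) (P 16 (L 49 4))) (P 16 (L 49 4)))) (P 16 (L 49 4))) (P 16 (L 49
  4))) (B12 (A03 (B01 (A01 (M 1 (L 31 8)) (P 16 (L 49 4))) (A01 (M 1 (L 31 8)) (P 16 (L 49 4)))) (P
  16 (L 49 4))) (P 16 (L 49 4)))))) (B01 (P 16 (L 49 4)) (A23 (A02 (B12 (A01 (B01 (A03 (A02 (B02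
  (A01 (M 1 (L 31 8)) (P 16 (L 49 4))) (P 15 (L 46 1))) (P 16 (L 49 4))) (P 16 (L 49 4))) (A03 (S 1
  (L 4 8) (L 31 8)) (A13 (P 15 (L 46 1)) (out 0)))) (B01 (P 16 (L 49 4)) (A13 (P 15 (L 46 1)) (A03
  (P 15 (L 46 1)) (out 0))))) (P 16 (L 49 4))) (out 0)) (A13 (B12 (A01 (B01 (A02 (A03 (B02 (A01 (M
  1 (L 31 8)) (P 16 (L 49 4))) (P 15 (L 46 1))) (P 16 (L 49 4))) (P 16 (L 49 4))) (A02 (A03 (S 1 (L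
  4 8) (L 31 8)) (B12 (A13 (P 15 (L 46 1)) (B01 (P 16 (L 49 4)) (P 15 (L 46 1)))) (P 16 (L 49 4))))
  (A12 (B12 (A13 (P 15 (L 46 1)) (B01 (P 16 (L 49 4)) (P 15 (L 46 1)))) (P 16 (L 49 4))) (B12 (M 1
  (L 31 8)) (P 16 (L 49 4)))))) (P 16 (L 49 4))) (P 16 (L 49 4))) (B12 (M 1 (L 31 8)) (P 16 (L 49
  4)))))))) (P 16 (A12 (A13 (A01 (B02 (B01 (A02 (P 12 (L 38 10)) (A23 (A12 (P 12 (L 38 10)) (B02 (M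
  3 (L 49 4)) (B12 (M 3 (L 49 4)) (P 12 (L 38 10))))) (P 12 (L 38 10)))) (A02 (B12 (M 3 (L 49 4))
  (A03 (M 3 (L 49 4)) (A23 (M 3 (L 49 4)) (P 12 (L 38 10))))) (B12 (M 3 (L 49 4)) (A23 (A12 (B02 (M
  3 (L 49 4)) (M 6 (L 43 5))) (B02 (M 3 (L 49 4)) (M 6 (L 43 5)))) (A03 (B02 (M 3 (L 49 4)) (A01
  (B12 (M 3 (L 49 4)) (P 12 (L 38 10))) (P 12 (L 38 10)))) (P 12 (L 38 10))))))) (B12 (A02 (B01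
  (A03 (M 3 (L 49 4)) (A23 (M 3 (L 49 4)) (P 12 (L 38 10)))) (M 3 (L 49 4))) (B01 (A23 (M 6 (L 43
  5)) (A03 (B02 (A01 (B01 (P 12 (L 38 10)) (M 3 (L 49 4))) (P 12 (L 38 10))) (M 3 (L 49 4))) (P 12
  (L 38 10)))) (M 3 (L 49 4)))) (A02 (A03 (A01 (M 3 (L 49 4)) (B02 (M 3 (L 49 4)) (B12 (M 3 (L 49
  4)) (A12 (P 12 (L 38 10)) (A23 (M 6 (L 43 5)) (P 12 (L 38 10))))))) (A23 (B02 (M 3 (L 49 4)) (B12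
  (M 3 (L 49 4)) (A12 (P 12 (L 38 10)) (A02 (P 12 (L 38 10)) (M 6 (L 43 5)))))) (P 12 (L 38 10))))
  (A23 (M 6 (L 43 5)) (A03 (B02 (B01 (P 12 (L 38 10)) (M 6 (L 43 5))) (M 6 (L 43 5))) (P 12 (L 38
  10))))))) (B02 (B01 (A12 (P 12 (L 38 10)) (A23 (A02 (P 12 (L 38 10)) (B02 (M 3 (L 49 4)) (B12 (M
  3 (L 49 4)) (P 12 (L 38 10))))) (P 12 (L 38 10)))) (A12 (B12 (A13 (A01 (M 3 (L 49 4)) (S 3 (L 9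
  4) (L 49 4))) (M 3 (L 49 4))) (A13 (A01 (B02 (M 3 (L 49 4)) (M 6 (L 43 5))) (S 3 (L 9 4) (L 49
  4))) (A23 (B02 (M 3 (L 49 4)) (M 6 (L 43 5))) (P 12 (L 38 10))))) (B12 (M 3 (L 49 4)) (A23 (A02
  (B02 (M 3 (L 49 4)) (M 6 (L 43 5))) (M 6 (L 43 5))) (A13 (B02 (M 3 (L 49 4)) (M 6 (L 43 5))) (P
  12 (L 38 10))))))) (B12 (A12 (B01 (A13 (M 6 (L 43 5)) (A23 (M 6 (L 43 5)) (P 12 (L 38 10)))) (A13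
  (M 6 (L 43 5)) (A23 (M 6 (L 43 5)) (B12 (M 3 (L 49 4)) (A03 (M 6 (L 43 5)) (P 12 (L 38 10)))))))
  (B01 (A23 (M 6 (L 43 5)) (A13 (M 6 (L 43 5)) (P 12 (L 38 10)))) (A23 (M 6 (L 43 5)) (A13 (M 6 (L
  43 5)) (M 3 (L 49 4)))))) (A12 (A13 (M 6 (L 43 5)) (A23 (M 6 (L 43 5)) (P 12 (L 38 10)))) (A23 (M
  6 (L 43 5)) (A13 (M 6 (L 43 5)) (P 12 (L 38 10)))))))) (A23 (B02 (B01 (A02 (P 12 (L 38 10)) (A12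
  (P 12 (L 38 10)) (A23 (B02 (M 3 (L 49 4)) (B12 (M 3 (L 49 4)) (P 12 (L 38 10)))) (P 12 (L 38
  10))))) (A02 (B12 (M 3 (L 49 4)) (A01 (M 3 (L 49 4)) (A12 (P 12 (L 38 10)) (M 3 (L 49 4))))) (B12
  (M 3 (L 49 4)) (A12 (A01 (B02 (M 3 (L 49 4)) (A03 (B12 (M 3 (L 49 4)) (P 12 (L 38 10))) (P 12 (L
  38 10)))) (P 12 (L 38 10))) (A23 (B02 (M 3 (L 49 4)) (M 6 (L 43 5))) (B02 (M 3 (L 49 4)) (A03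
  (B12 (M 3 (L 49 4)) (P 12 (L 38 10))) (P 12 (L 38 10))))))))) (B12 (A02 (B01 (A01 (M 3 (L 49 4))
  (A12 (P 12 (L 38 10)) (M 3 (L 49 4)))) (M 3 (L 49 4))) (B01 (A12 (A01 (B02 (A03 (B01 (P 12 (L 38
  10)) (M 3 (L 49 4))) (P 12 (L 38 10))) (M 3 (L 49 4))) (P 12 (L 38 10))) (A23 (M 6 (L 43 5)) (B02
  (A03 (M 6 (L 43 5)) (P 12 (L 38 10))) (M 3 (L 49 4))))) (M 3 (L 49 4)))) (A02 (A01 (A03 (M 3 (L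
  49 4)) (B02 (B01 (P 12 (L 38 10)) (A23 (M 3 (L 49 4)) (P 12 (L 38 10)))) (B12 (A23 (M 3 (L 49 4))
  (P 12 (L 38 10))) (A23 (A12 (P 12 (L 38 10)) (M 6 (L 43 5))) (P 12 (L 38 10)))))) (A12 (P 12 (L
  38 10)) (B02 (B01 (P 12 (L 38 10)) (A23 (M 3 (L 49 4)) (P 12 (L 38 10)))) (B12 (A23 (M 3 (L 49
  4)) (P 12 (L 38 10))) (A23 (A02 (P 12 (L 38 10)) (M 6 (L 43 5))) (P 12 (L 38 10))))))) (A12 (A01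
  (B02 (B01 (P 12 (L 38 10)) (M 6 (L 43 5))) (M 6 (L 43 5))) (P 12 (L 38 10))) (A23 (M 6 (L 43 5))
  (B02 (B01 (P 12 (L 38 10)) (M 6 (L 43 5))) (M 6 (L 43 5)))))))) (B02 (B01 (P 12 (L 38 10)) (A03
  (B12 (M 3 (L 49 4)) (P 12 (L 38 10))) (P 12 (L 38 10)))) (B12 (A03 (B01 (P 12 (L 38 10)) (M 3 (L
  49 4))) (P 12 (L 38 10))) (P 12 (L 38 10)))))) (A23 (A02 (B02 (M 3 (L 49 4)) (B12 (M 3 (L 49 4))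
  (A01 (M 3 (L 49 4)) (A13 (M 6 (L 43 5)) (A03 (M 6 (L 43 5)) (out 0)))))) (out 0)) (A13 (B02 (M 3
  (L 49 4)) (B12 (M 3 (L 49 4)) (A01 (A02 (A03 (M 3 (L 49 4)) (B02 (B01 (P 12 (L 38 10)) (A13 (M 3
  (L 49 4)) (P 12 (L 38 10)))) (M 6 (L 43 5)))) (A12 (B02 (B01 (P 12 (L 38 10)) (A13 (M 3 (L 49 4))
  (B12 (M 3 (L 49 4)) (P 12 (L 38 10))))) (M 6 (L 43 5))) (B02 (B01 (P 12 (L 38 10)) (A23 (out 0)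
  (B12 (M 3 (L 49 4)) (P 12 (L 38 10))))) (M 6 (L 43 5))))) (A12 (A13 (M 6 (L 43 5)) (B02 (B01 (P
  12 (L 38 10)) (M 6 (L 43 5))) (M 6 (L 43 5)))) (A02 (B02 (B01 (P 12 (L 38 10)) (M 6 (L 43 5))) (M
  6 (L 43 5))) (B02 (B01 (P 12 (L 38 10)) (M 6 (L 43 5))) (M 6 (L 43 5)))))))) (B02 (M 3 (L 49 4))
  (B12 (M 3 (L 49 4)) (P 12 (L 38 10)))))))))))) (P 10 (A13 (M 18 (P 9 (B12 (A12 (P 16 (B01 (A01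
  (A02 (P 12 (L 38 10)) (B02 (A23 (M 3 (L 49 4)) (P 12 (L 38 10))) (A23 (M 3 (L 49 4)) (A13 (M 3 (L
  49 4)) (A03 (M 3 (L 49 4)) (out 1)))))) (A13 (B02 (A12 (B01 (P 12 (L 38 10)) (M 3 (L 49 4))) (B01
  (A02 (P 12 (L 38 10)) (A23 (M 3 (L 49 4)) (P 12 (L 38 10)))) (M 3 (L 49 4)))) (M 3 (L 49 4)))
  (B02 (A23 (B01 (A02 (P 12 (L 38 10)) (A12 (P 12 (L 38 10)) (M 3 (L 49 4)))) (M 3 (L 49 4))) (P 12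
  (L 38 10))) (A23 (M 3 (L 49 4)) (A03 (M 3 (L 49 4)) (out 1)))))) (M 3 (L 49 4)))) (B01 (P 16 (A02
  (A01 (B02 (P 12 (L 38 10)) (A03 (M 3 (L 49 4)) (A23 (M 3 (L 49 4)) (P 12 (L 38 10))))) (B02 (A13
  (M 3 (L 49 4)) (P 12 (L 38 10))) (A13 (M 3 (L 49 4)) (A23 (M 3 (L 49 4)) (A03 (M 3 (L 49 4)) (out
  0)))))) (out 0))) (M 3 (A02 (P 16 (L 49 4)) (out 0))))) (P 16 (A12 (A01 (A02 (P 12 (L 38 10))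
  (B02 (B01 (A23 (A12 (P 12 (L 38 10)) (A02 (P 12 (L 38 10)) (B02 (B01 (P 12 (L 38 10)) (A23 (M 3
  (L 49 4)) (P 12 (L 38 10)))) (B12 (A23 (M 3 (L 49 4)) (P 12 (L 38 10))) (P 12 (L 38 10)))))) (P
  12 (L 38 10))) (A23 (B12 (M 3 (L 49 4)) (A12 (P 12 (L 38 10)) (A02 (P 12 (L 38 10)) (M 6 (L 43
  5))))) (B12 (A13 (M 3 (L 49 4)) (A03 (M 3 (L 49 4)) (out 1))) (P 12 (L 38 10))))) (B12 (A23 (B01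
  (A12 (P 12 (L 38 10)) (A02 (B02 (P 12 (L 38 10)) (M 6 (L 43 5))) (M 6 (L 43 5)))) (A12 (A13 (M 3
  (L 49 4)) (M 6 (L 43 5))) (M 6 (L 43 5)))) (B01 (P 12 (L 38 10)) (A13 (A12 (P 12 (L 38 10)) (M 6
  (L 43 5))) (M 6 (L 43 5))))) (A23 (A12 (P 12 (L 38 10)) (A02 (B02 (B01 (P 12 (L 38 10)) (M 6 (L
  43 5))) (M 6 (L 43 5))) (M 6 (L 43 5)))) (P 12 (L 38 10)))))) (A13 (B02 (B01 (A12 (P 12 (L 38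
  10)) (A02 (P 12 (L 38 10)) (A23 (B02 (B01 (P 12 (L 38 10)) (A12 (P 12 (L 38 10)) (B12 (M 3 (L 49
  4)) (P 12 (L 38 10))))) (B12 (A12 (P 12 (L 38 10)) (B01 (P 12 (L 38 10)) (M 3 (L 49 4)))) (P 12
  (L 38 10)))) (P 12 (L 38 10))))) (A12 (B12 (A01 (A02 (B01 (P 12 (L 38 10)) (A03 (M 3 (L 49 4)) (M
  6 (L 43 5)))) (M 6 (L 43 5))) (S 3 (L 9 4) (L 49 4))) (A01 (A02 (P 12 (L 38 10)) (M 6 (L 43 5)))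
  (S 3 (L 9 4) (L 49 4)))) (B12 (A02 (A01 (B01 (P 12 (L 38 10)) (A03 (M 3 (L 49 4)) (M 6 (L 43
  5)))) (M 6 (L 43 5))) (M 6 (L 43 5))) (A02 (A01 (P 12 (L 38 10)) (M 6 (L 43 5))) (M 6 (L 43
  5)))))) (B12 (A12 (B01 (A01 (A02 (P 12 (L 38 10)) (M 6 (L 43 5))) (M 6 (L 43 5))) (A01 (A02 (B12
  (A03 (M 3 (L 49 4)) (M 6 (L 43 5))) (P 12 (L 38 10))) (M 6 (L 43 5))) (M 6 (L 43 5)))) (B01 (A02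
  (A01 (P 12 (L 38 10)) (M 6 (L 43 5))) (M 6 (L 43 5))) (A02 (A01 (B12 (A03 (M 3 (L 49 4)) (M 6 (L
  43 5))) (A03 (A02 (P 12 (L 38 10)) (M 6 (L 43 5))) (M 6 (L 43 5)))) (M 6 (L 43 5))) (M 6 (L 43
  5))))) (A12 (A01 (A02 (P 12 (L 38 10)) (M 6 (L 43 5))) (M 4 (L 28 7))) (A02 (A01 (P 12 (L 38 10))
  (M 6 (L 43 5))) (M 6 (L 43 5)))))) (B02 (B01 (A23 (A02 (P 12 (L 38 10)) (A12 (P 12 (L 38 10))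
  (B02 (B01 (P 12 (L 38 10)) (A23 (B12 (M 3 (L 49 4)) (P 12 (L 38 10))) (P 12 (L 38 10)))) (B12
  (A23 (B01 (P 12 (L 38 10)) (M 3 (L 49 4))) (P 12 (L 38 10))) (P 12 (L 38 10)))))) (P 12 (L 38
  10))) (A23 (B12 (A02 (A03 (B01 (P 12 (L 38 10)) (A01 (M 3 (L 49 4)) (M 6 (L 43 5)))) (B01 (P 12
  (L 38 10)) (M 6 (L 43 5)))) (M 6 (L 43 5))) (A02 (P 12 (L 38 10)) (M 6 (L 43 5)))) (B12 (A03 (A02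
  (P 12 (L 38 10)) (out 1)) (out 1)) (P 12 (L 38 10))))) (B12 (A23 (B01 (A02 (P 12 (L 38 10)) (M 6
  (L 43 5))) (A02 (A03 (B12 (A01 (M 3 (L 49 4)) (M 6 (L 43 5))) (A01 (A02 (P 12 (L 38 10)) (M 6 (L
  43 5))) (M 6 (L 43 5)))) (M 6 (L 43 5))) (M 6 (L 43 5)))) (B01 (P 12 (L 38 10)) (A03 (A02 (P 12
  (L 38 10)) (out 1)) (out 1)))) (A23 (A02 (P 12 (L 38 10)) (M 6 (L 43 5))) (P 12 (L 38 10)))))))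
  (A02 (A01 (B02 (B01 (P 12 (L 38 10)) (A03 (B12 (M 3 (L 49 4)) (P 12 (L 38 10))) (B12 (A23 (M 3 (L
  49 4)) (P 12 (L 38 10))) (P 12 (L 38 10))))) (B12 (A03 (B01 (P 12 (L 38 10)) (M 3 (L 49 4))) (B01
  (P 12 (L 38 10)) (A23 (M 3 (L 49 4)) (P 12 (L 38 10))))) (P 12 (L 38 10)))) (B02 (B01 (A13 (A12
  (A01 (P 12 (L 38 10)) (out 0)) (P 12 (L 38 10))) (P 12 (L 38 10))) (A13 (B12 (M 3 (L 49 4)) (A12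
  (A01 (P 12 (L 38 10)) (out 0)) (P 12 (L 38 10)))) (B12 (A23 (M 3 (L 49 4)) (A03 (M 3 (L 49 4))
  (out 0))) (P 12 (L 38 10))))) (B12 (A13 (B01 (A12 (A01 (B02 (P 12 (L 38 10)) (M 6 (L 43 5))) (out
  0)) (A23 (M 3 (L 49 4)) (B02 (P 12 (L 38 10)) (M 6 (L 43 5))))) (M 6 (L 43 5))) (B01 (P 12 (L 38
  10)) (M 6 (L 43 5)))) (A13 (A12 (A01 (B02 (B01 (P 12 (L 38 10)) (M 6 (L 43 5))) (M 6 (L 43 5)))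
  (out 0)) (A23 (B02 (B01 (P 12 (L 38 10)) (M 6 (L 43 5))) (M 6 (L 43 5))) (B02 (B01 (P 12 (L 38
  10)) (M 6 (L 43 5))) (M 6 (L 43 5))))) (P 12 (L 38 10)))))) (out 0))))))) (B12 (A23 (M 18 (B01 (P
  16 (A02 (A03 (B02 (P 12 (L 38 10)) (A01 (M 3 (L 49 4)) (A12 (out 1) (M 3 (L 49 4))))) (out 0))
  (out 0))) (M 3 (A02 (P 16 (L 49 4)) (out 0))))) (P 16 (P 12 (B01 (A03 (A02 (B02 (S 3 (L 9 4) (L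
  49 4)) (M 18 (L 38 10))) (out 0)) (out 0)) (M 18 (L 38 10)))))) (P 16 (A23 (M 18 (A02 (A03 (B02
  (B01 (P 12 (L 38 10)) (A01 (B12 (M 3 (L 49 4)) (P 12 (L 38 10))) (B12 (A12 (out 1) (M 3 (L 49
  4))) (P 12 (L 38 10))))) (B12 (A01 (B01 (P 12 (L 38 10)) (M 3 (L 49 4))) (B01 (P 12 (L 38 10))
  (A12 (out 1) (M 3 (L 49 4))))) (P 12 (L 38 10)))) (out 0)) (out 0))) (P 12 (A03 (A02 (B02 (B01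
  (A01 (M 1 (L 31 8)) (out 1)) (M 18 (L 38 10))) (M 18 (L 38 10))) (out 0)) (out
  0)))))))))))))))))))

/-- its cell -/
def cI6 : Cell :=
  ⟨0, 0, 0, 0, 1114112, 0, 0, 1114112, 1114112, 1114112, 1114112, 1114112, 0, 0, 0, 5070848, 3129344, 0⟩

theorem okI6 : check datI tI6 cI6 0 0 = true := by
  decide +kernel

end Pool.Agent.H315.NW
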