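import Pool.Agent.H315.NW.Data

/-!
# Project NW (helper315): certificates (generated)
-/

set_option autoImplicit false
set_option maxRecDepth 100000

namespace Pool.Agent.H315.NW

open Tr

/-- a part of the certificate -/
def tI7 : Tr :=
  (P 14 (M 11 (A03 (P 4 (A02 (M 18 (A01 (M 17 (P 8 (M 7 (P 0 (A03 (M 16 (P 13 (A02 (B12 (P 15 (A01
  (B01 (A03 (out 9) (A13 (out 10) (B02 (A23 (out 10) (B01 (M 1 (L 45 7)) (A03 (out 10) (S 10 (L 32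
  1) (L 2 1))))) (A23 (out 10) (A03 (out 10) (M 1 (S 10 (L 31 1) (L 2 1)))))))) (A03 (out 9) (A13
  (out 10) (B12 (M 2 (A23 (out 10) (B01 (A03 (out 10) (A13 (out 10) (L 25 2))) (P 10 (K
  [(25,2,5),(32,1,3)] []))))) (A23 (out 10) (A03 (out 10) (A13 (out 10) (B02 (B01 (A23 (S 10 (L 32
  1) (L 2 1)) (M 19 (L 41 10))) (M 19 (K [(41,10,4),(41,5,4)] []))) (M 19 (K [(41,10,4),(41,5,4)]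
  [])))))))))) (B01 (A13 (out 10) (A03 (out 10) (M 1 (S 10 (L 31 1) (L 2 1))))) (A13 (out 10) (A03
  (out 10) (B12 (M 2 (A23 (out 10) (B01 (A13 (out 10) (A03 (out 10) (K [(25,2,6),(25,4,2)] []))) (S
  1 (L 4 3) (L 45 3))))) (A23 (out 10) (A13 (out 10) (A03 (out 10) (B02 (B01 (S 10 (L 32 1) (L 2
  1)) (M 19 (K [(41,10,4),(41,5,4)] []))) (M 19 (K [(41,10,3),(41,5,5)] [])))))))))))) (A01 (A03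
  (out 9) (A13 (out 10) (B02 (B01 (M 1 (A23 (out 10) (A03 (out 10) (A13 (out 10) (B02 (P 15 (L 45
  7)) (B12 (P 15 (L 45 7)) (M 5 (L 40 5)))))))) (A23 (out 10) (B12 (A03 (out 10) (M 1 (S 10 (L 31
  1) (L 2 1)))) (M 1 (A03 (out 10) (A13 (out 10) (B02 (P 15 (L 45 7)) (M 5 (L 40 5))))))))) (B12
  (A23 (out 10) (B01 (A03 (out 10) (A13 (out 10) (M 5 (L 40 5)))) (M 12 (A03 (out 10) (S 2 (L 7 4)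
  (L 25 4)))))) (M 5 (L 40 5)))))) (A13 (out 10) (A03 (out 10) (M 1 (B02 (B01 (A23 (out 10) (A13
  (out 10) (A03 (out 10) (B02 (P 15 (L 45 7)) (B12 (P 15 (L 45 7)) (S 10 (L 32 1) (L 2 1)))))))
  (A23 (out 10) (B12 (S 10 (L 31 1) (L 2 1)) (A13 (out 10) (A03 (out 10) (B02 (P 15 (L 45 7)) (S 10
  (L 31 1) (L 2 1)))))))) (B12 (A23 (out 10) (B01 (A13 (out 10) (A03 (out 10) (M 5 (L 40 5)))) (M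
  12 (S 2 (L 7 4) (L 25 4))))) (A23 (out 10) (A13 (out 10) (M 5 (L 40 5))))))))))) (B12 (A12 (P 15
  (B01 (A13 (out 10) (M 1 (S 10 (L 31 1) (L 2 1)))) (A13 (out 10) (A23 (out 10) (B12 (M 2 (A03 (out
  10) (B01 (A13 (out 10) (K [(25,2,5),(25,4,3)] [])) (S 1 (L 4 3) (L 45 3))))) (A03 (out 10) (A13
  (out 10) (A23 (B02 (M 2 (B01 (S 10 (L 32 1) (L 2 1)) (A02 (B12 (P 10 (S 1 (L 4 1) (L 31 1))) (S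
  10 (L 32 1) (L 2 1))) (K [(25,4,4),(25,2,4)] [])))) (B12 (M 2 (A02 (B01 (M 1 (S 10 (L 31 1) (L 2
  1))) (P 10 (S 1 (L 4 1) (L 31 1)))) (L 25 4))) (M 1 (S 10 (L 31 1) (L 2 1))))) (B02 (B01 (S 10 (L
  32 1) (L 2 1)) (P 10 (S 1 (L 4 1) (L 31 1)))) (P 10 (S 1 (L 4 1) (L 31 1)))))))))))) (B01 (M 1
  (A23 (P 19 (K [(58,10,19),(58,5,5)] [])) (A13 (B02 (P 19 (L 58 10)) (S 10 (L 32 1) (L 2 1))) (B02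
  (A03 (P 19 (L 58 10)) (B01 (A23 (P 19 (L 58 10)) (A13 (P 19 (L 58 10)) (B02 (P 19 (L 58 10)) (P
  15 (L 45 7))))) (S 10 (L 32 1) (L 2 1)))) (S 10 (L 31 1) (L 2 1)))))) (A23 (A02 (B12 (S 10 (L 32
  1) (L 2 1)) (S 10 (L 32 1) (L 2 1))) (P 19 (K [(58,10,6),(58,5,2)] []))) (A13 (B12 (S 10 (L 32 1)
  (L 2 1)) (S 10 (L 32 1) (L 2 1))) (B12 (M 2 (A03 (S 10 (L 32 1) (L 2 1)) (K [(25,2,5),(25,4,3)]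
  []))) (A03 (S 10 (L 32 1) (L 2 1)) (A23 (S 10 (L 32 1) (L 2 1)) (A13 (S 10 (L 32 1) (L 2 1)) (B02
  (B01 (S 10 (L 32 1) (L 2 1)) (P 10 (S 1 (L 4 1) (L 31 1)))) (P 10 (S 1 (L 4 1) (L 31
  1)))))))))))) (A12 (A13 (out 10) (M 1 (A23 (out 10) (B02 (B01 (A03 (out 10) (A13 (out 10) (A23 (P
  15 (L 45 7)) (B02 (P 15 (L 45 7)) (B12 (P 15 (L 45 7)) (S 10 (L 32 1) (L 2 1))))))) (A03 (out 10)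
  (B12 (M 12 (S 2 (L 7 4) (L 25 4))) (A13 (out 10) (A23 (P 15 (L 45 7)) (B02 (P 15 (L 45 7)) (S 10
  (L 32 1) (L 2 1)))))))) (B12 (A03 (out 10) (B01 (A13 (out 10) (S 10 (L 31 1) (L 2 1))) (M 12 (S 2
  (L 7 4) (L 25 4))))) (A03 (out 10) (A13 (out 10) (M 5 (L 40 5))))))))) (M 1 (A23 (P 19 (K
  [(58,10,49),(58,5,15)] [])) (A13 (B02 (B01 (P 19 (L 58 10)) (A01 (B12 (A02 (out 10) (A12 (out 10)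
  (B01 (P 19 (L 58 10)) (A23 (P 19 (L 58 10)) (S 2 (L 8 4) (L 25 4)))))) (P 19 (L 58 10))) (B12
  (A12 (out 10) (A02 (out 10) (B01 (P 19 (L 58 10)) (A23 (P 19 (L 58 10)) (S 2 (L 8 4) (L 25
  4)))))) (P 19 (L 58 10))))) (B12 (A01 (B01 (P 19 (L 58 10)) (A02 (out 10) (A12 (out 10) (B12 (A23
  (P 19 (L 58 10)) (S 2 (L 8 4) (L 25 4))) (S 10 (L 32 1) (L 2 1)))))) (B01 (P 19 (L 58 10)) (A12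
  (out 10) (A02 (out 10) (B12 (A23 (P 19 (L 58 10)) (S 2 (L 8 4) (L 25 4))) (S 10 (L 32 1) (L 2
  1))))))) (P 19 (L 58 10)))) (B02 (B01 (A03 (P 19 (L 58 10)) (A23 (P 19 (L 58 10)) (A13 (P 19 (L
  58 10)) (B02 (B01 (P 19 (L 58 10)) (A03 (P 19 (L 58 10)) (S 10 (L 32 1) (L 2 1)))) (B12 (A03 (P
  19 (L 58 10)) (S 10 (L 32 1) (L 2 1))) (S 10 (L 32 1) (L 2 1))))))) (A03 (B12 (A02 (out 10) (A23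
  (B01 (P 19 (L 58 10)) (A12 (M 12 (S 2 (L 7 4) (L 25 4))) (B12 (P 15 (L 45 7)) (P 19 (L 58 10)))))
  (S 10 (L 32 1) (L 2 1)))) (P 19 (L 58 10))) (B12 (A23 (A02 (M 12 (S 2 (L 7 4) (L 25 4))) (B01 (P
  19 (L 58 10)) (A12 (M 12 (S 2 (L 7 4) (L 25 4))) (S 10 (L 32 1) (L 2 1))))) (M 12 (S 2 (L 7 4) (L
  25 4)))) (A23 (P 19 (L 58 10)) (A13 (B02 (P 15 (L 45 7)) (S 10 (L 32 1) (L 2 1))) (B02 (P 15 (L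
  45 7)) (M 5 (L 40 5)))))))) (B12 (A03 (B01 (A02 (out 10) (S 10 (L 32 1) (L 2 1))) (A02 (out 10)
  (A23 (B12 (A12 (M 12 (S 2 (L 7 4) (L 25 4))) (B01 (P 19 (L 58 10)) (P 15 (L 45 7)))) (S 10 (L 32
  1) (L 2 1))) (M 12 (S 2 (L 7 4) (L 25 4)))))) (B01 (S 10 (L 31 1) (L 2 1)) (A23 (A02 (M 12 (S 2
  (L 7 4) (L 25 4))) (B12 (A12 (M 12 (S 2 (L 7 4) (L 25 4))) (S 10 (L 32 1) (L 2 1))) (S 10 (L 32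
  1) (L 2 1)))) (M 12 (S 2 (L 7 4) (L 25 4)))))) (M 5 (L 40 5)))))))))))) (A13 (M 16 (P 13 (B12
  (A12 (P 15 (M 12 (B01 (A01 (A02 (S 2 (L 7 4) (L 25 4)) (S 2 (L 8 4) (L 25 4))) (A13 (out 10) (S 2
  (L 8 4) (L 25 4)))) (A01 (A02 (B12 (M 2 (A03 (B01 (A01 (K [(25,4,4),(25,2,4)] []) (K
  [(25,4,13),(25,2,11)] [])) (S 1 (L 4 3) (L 45 3))) (B01 (K [(25,4,13),(25,2,11)] []) (S 10 (L 32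
  8) (L 2 1))))) (A03 (A01 (A02 (B02 (B01 (S 2 (L 7 4) (L 25 4)) (P 10 (S 1 (L 4 1) (L 31 1)))) (P
  10 (S 1 (L 4 1) (L 31 1)))) (B02 (M 2 (L 25 4)) (B12 (M 2 (L 25 4)) (S 2 (L 8 4) (L 25 4)))))
  (A13 (out 10) (B02 (M 2 (L 25 4)) (B12 (M 2 (L 25 4)) (S 2 (L 8 4) (L 25 4)))))) (A13 (A01 (B02
  (M 2 (L 25 4)) (B12 (M 2 (L 25 4)) (S 2 (L 8 4) (L 25 4)))) (out 10)) (S 2 (L 8 4) (L 25 4)))))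
  (B12 (M 2 (A23 (out 10) (B01 (K [(25,4,13),(25,2,11)] []) (S 10 (L 32 8) (L 2 1))))) (A23 (out
  10) (A13 (out 10) (S 2 (L 8 4) (L 25 4)))))) (A13 (out 10) (B12 (M 2 (K [(25,4,5),(25,2,3)] []))
  (A23 (out 10) (A03 (out 10) (A13 (out 10) (M 1 (L 45 1))))))))))) (B01 (M 1 (A02 (A01 (B02 (A03
  (B01 (A02 (A01 (B02 (P 19 (L 58 10)) (P 15 (L 45 7))) (B02 (P 19 (L 58 10)) (P 15 (L 45 7))))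
  (A23 (P 19 (L 58 10)) (B02 (P 19 (L 58 10)) (P 15 (L 45 7))))) (M 12 (S 2 (L 7 4) (L 25 4))))
  (B01 (A23 (A02 (B02 (P 19 (L 58 10)) (P 15 (L 45 7))) (P 19 (L 58 10))) (A13 (B02 (P 19 (L 58
  10)) (P 15 (L 45 7))) (B02 (S 2 (L 8 4) (L 25 4)) (S 2 (L 8 4) (L 25 4))))) (S 2 (L 8 4) (L 25
  4)))) (M 12 (S 2 (L 7 4) (L 25 4)))) (B02 (S 2 (L 8 4) (L 25 4)) (S 2 (L 8 4) (L 25 4)))) (A23 (S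
  2 (L 8 4) (L 25 4)) (B02 (S 2 (L 8 4) (L 25 4)) (S 2 (L 8 4) (L 25 4)))))) (A02 (M 12 (A01 (B12
  (M 2 (K [(25,4,4),(25,2,4)] [])) (A03 (A02 (A01 (B02 (B01 (S 2 (L 7 4) (L 25 4)) (P 10 (S 1 (L 4
  1) (L 31 1)))) (P 10 (S 1 (L 4 1) (L 31 1)))) (S 2 (L 7 4) (L 25 4))) (S 2 (L 7 4) (L 25 4))) (S
  2 (L 8 4) (L 25 4)))) (B12 (M 2 (A13 (S 10 (L 32 1) (L 2 1)) (K [(25,4,4),(25,2,4)] []))) (S 2 (L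
  8 4) (L 25 4))))) (A23 (P 19 (K [(58,10,6),(58,5,2)] [])) (B12 (P 5 (M 2 (S 10 (K
  [(32,1,2),(32,8,5),(25,4,1)] []) (K [(17,7,1),(2,1,6),(2,8,1)] [])))) (S 2 (L 8 4) (L 25 4)))))))
  (A12 (A01 (M 1 (A02 (B02 (B01 (A03 (A01 (A02 (B02 (P 15 (L 45 7)) (B12 (P 15 (L 45 7)) (S 10 (L
  32 1) (L 2 1)))) (P 15 (L 45 7))) (M 12 (S 2 (L 7 4) (L 25 4)))) (M 12 (S 2 (L 7 4) (L 25 4))))
  (A03 (B12 (M 12 (S 2 (L 7 4) (L 25 4))) (A01 (A02 (B02 (P 15 (L 45 7)) (S 10 (L 31 1) (L 2 1)))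
  (P 15 (L 45 7))) (M 12 (S 2 (L 7 4) (L 25 4))))) (M 12 (S 2 (L 7 4) (L 25 4))))) (B12 (A03 (B01
  (A01 (S 10 (L 31 1) (L 2 1)) (M 12 (S 2 (L 7 4) (L 25 4)))) (M 12 (S 2 (L 7 4) (L 25 4)))) (M 12
  (S 2 (L 7 4) (L 25 4)))) (A03 (A01 (M 5 (L 40 5)) (A13 (out 10) (S 10 (L 31 1) (L 2 1)))) (A13
  (A01 (S 10 (L 31 1) (L 2 1)) (out 10)) (S 10 (L 31 1) (L 2 1)))))) (B02 (S 2 (L 8 4) (L 25 4))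
  (B12 (S 2 (L 8 4) (L 25 4)) (A23 (out 10) (A13 (out 10) (S 10 (L 31 1) (L 2 1)))))))) (M 12 (A13
  (out 10) (B02 (S 2 (L 8 4) (L 25 4)) (S 2 (L 7 4) (L 25 4)))))) (P 6 (M 1 (A02 (A01 (B02 (B01
  (A03 (A02 (A01 (S 10 (L 32 1) (L 2 1)) (B02 (B01 (P 19 (L 58 10)) (A13 (P 19 (L 58 10)) (S 10 (L
  32 1) (L 2 1)))) (B12 (A13 (P 19 (L 58 10)) (S 10 (L 32 1) (L 2 1))) (P 19 (L 58 10))))) (A23 (P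
  19 (L 58 10)) (B02 (B01 (P 19 (L 58 10)) (A13 (P 19 (L 58 10)) (S 10 (L 32 1) (L 2 1)))) (B12
  (A13 (P 19 (L 58 10)) (S 10 (L 32 1) (L 2 1))) (P 19 (L 58 10)))))) (A23 (A02 (B02 (B01 (P 19 (L
  58 10)) (A01 (M 5 (L 40 7)) (P 19 (L 58 10)))) (B12 (A01 (M 5 (L 40 7)) (P 19 (L 58 10))) (P 19
  (L 58 10)))) (P 19 (L 58 10))) (A13 (B02 (B01 (P 19 (L 58 10)) (A01 (M 5 (L 40 7)) (P 19 (L 58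
  10)))) (B12 (A01 (M 5 (L 40 7)) (P 19 (L 58 10))) (P 19 (L 58 10)))) (P 2 (S 12 (L 38 4) (L 7
  4)))))) (A03 (B12 (A02 (M 12 (S 2 (L 7 4) (L 25 4))) (A23 (B01 (P 19 (L 58 10)) (A12 (M 12 (S 2
  (L 7 4) (L 25 4))) (S 10 (L 32 1) (L 2 1)))) (M 12 (S 2 (L 7 4) (L 25 4))))) (A02 (A01 (S 10 (L
  31 1) (L 2 1)) (B02 (P 15 (L 45 7)) (S 10 (L 31 1) (L 2 1)))) (A23 (P 19 (L 58 10)) (B02 (P 15 (L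
  45 7)) (S 10 (L 31 1) (L 2 1)))))) (B12 (A23 (A02 (M 12 (S 2 (L 7 4) (L 25 4))) (B01 (P 19 (L 58
  10)) (A12 (S 2 (L 8 4) (L 25 4)) (M 5 (L 40 7))))) (M 12 (S 2 (L 7 4) (L 25 4)))) (A23 (A02 (B02
  (P 15 (L 45 7)) (S 10 (L 31 1) (L 2 1))) (P 19 (L 58 10))) (A13 (B02 (P 15 (L 45 7)) (S 10 (L 31
  1) (L 2 1))) (S 10 (L 31 1) (L 2 1))))))) (B12 (A03 (B01 (S 10 (L 31 1) (L 2 1)) (A02 (M 12 (S 2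
  (L 7 4) (L 25 4))) (A23 (B12 (A12 (M 12 (S 2 (L 7 4) (L 25 4))) (S 10 (L 32 1) (L 2 1))) (S 10 (L
  32 1) (L 2 1))) (M 12 (S 2 (L 7 4) (L 25 4)))))) (B01 (S 10 (L 31 1) (L 2 1)) (A23 (A02 (M 12 (S
  2 (L 7 4) (L 25 4))) (B12 (A12 (M 12 (S 2 (L 7 4) (L 25 4))) (S 10 (L 32 1) (L 2 1))) (S 10 (L 32
  1) (L 2 1)))) (M 12 (S 2 (L 7 4) (L 25 4)))))) (S 10 (L 31 1) (L 2 1)))) (B02 (B01 (P 19 (A13 (L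
  58 10) (A23 (L 58 10) (S 2 (L 8 4) (L 25 4))))) (A13 (B12 (A12 (out 10) (A23 (B01 (P 19 (L 58
  10)) (A02 (S 2 (L 8 4) (L 25 4)) (P 19 (L 58 10)))) (S 2 (L 8 4) (L 25 4)))) (P 19 (L 58 10)))
  (B12 (A23 (A12 (S 2 (L 8 4) (L 25 4)) (B01 (P 19 (L 58 10)) (A02 (S 2 (L 8 4) (L 25 4)) (B12 (S 2
  (L 8 4) (L 25 4)) (P 19 (L 58 10)))))) (S 2 (L 8 4) (L 25 4))) (A23 (P 19 (L 58 10)) (A03 (P 19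
  (L 58 10)) (B02 (S 2 (L 8 4) (L 25 4)) (A13 (P 19 (L 58 10)) (M 5 (L 40 7))))))))) (B12 (A13 (B01
  (P 19 (L 58 10)) (A12 (out 10) (A23 (B12 (A02 (S 2 (L 8 4) (L 25 4)) (P 19 (L 58 10))) (S 10 (L
  32 1) (L 2 1))) (S 2 (L 8 4) (L 25 4))))) (B01 (A23 (A12 (B02 (P 19 (L 58 10)) (A01 (M 5 (L 40
  7)) (A13 (P 19 (L 58 5)) (M 5 (L 40 7))))) (S 10 (L 32 1) (L 2 1))) (A03 (B02 (P 19 (L 58 10))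
  (A01 (M 5 (L 40 7)) (A12 (S 2 (L 8 4) (L 25 4)) (M 5 (L 40 7))))) (B02 (A13 (P 19 (L 58 10)) (M 5
  (L 40 7))) (A13 (A12 (S 2 (L 8 4) (L 25 4)) (M 5 (L 40 7))) (M 5 (L 40 7)))))) (A23 (A12 (S 2 (L
  8 4) (L 25 4)) (B12 (A02 (S 2 (L 8 4) (L 25 4)) (B01 (M 5 (L 40 7)) (S 2 (L 8 4) (L 25 4)))) (S
  10 (L 32 1) (L 2 1)))) (S 2 (L 8 4) (L 25 4))))) (A13 (P 19 (L 58 10)) (S 10 (L 31 1) (L 2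
  1)))))) (A23 (P 19 (B02 (K [(58,10,151),(58,5,49)] []) (K [(58,10,5),(58,5,3)] []))) (B02 (B01 (P
  19 (A13 (L 58 10) (A03 (L 58 10) (S 2 (L 8 4) (L 25 4))))) (A13 (P 19 (K [(58,10,7),(58,5,1)]
  [])) (B12 (A03 (A01 (B01 (P 19 (L 58 10)) (A02 (B12 (S 2 (L 8 4) (L 25 4)) (P 19 (L 58 10))) (B12
  (S 2 (L 8 4) (L 25 4)) (P 19 (L 58 10))))) (B01 (P 19 (L 58 10)) (A12 (S 2 (L 8 4) (L 25 4)) (B12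
  (S 2 (L 8 4) (L 25 4)) (P 19 (L 58 10)))))) (A23 (B01 (P 19 (L 58 10)) (A12 (S 2 (L 8 4) (L 25
  4)) (B12 (S 2 (L 8 4) (L 25 4)) (P 19 (L 58 5))))) (S 2 (L 8 4) (L 25 4)))) (A03 (P 19 (L 58 10))
  (A23 (P 19 (L 58 10)) (B02 (S 2 (L 8 4) (L 25 4)) (A13 (P 19 (L 58 10)) (M 5 (L 40 7)))))))))
  (B12 (A13 (P 19 (K [(58,10,6),(58,5,2)] [])) (B01 (A03 (A01 (S 12 (L 38 4) (L 18 4)) (B02 (P 19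
  (L 58 10)) (A12 (A13 (P 19 (L 58 5)) (M 5 (L 40 7))) (M 5 (L 40 7))))) (A23 (B02 (P 19 (L 58 10))
  (A12 (A01 (M 5 (L 40 7)) (P 19 (L 58 5))) (M 5 (L 40 7)))) (B02 (A13 (P 19 (L 58 10)) (M 5 (L 40
  7))) (A13 (A01 (M 5 (L 40 7)) (A12 (S 2 (L 8 4) (L 25 4)) (M 5 (L 40 7)))) (M 5 (L 40 7))))))
  (A03 (A01 (B12 (A02 (B01 (M 5 (L 40 7)) (S 2 (L 8 4) (L 25 4))) (B01 (M 5 (L 40 7)) (S 2 (L 8 4)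
  (L 25 4)))) (S 12 (L 38 4) (L 18 4))) (B12 (A12 (S 2 (L 8 4) (L 25 4)) (B01 (M 5 (L 40 7)) (S 2
  (L 8 4) (L 25 4)))) (A12 (S 2 (L 8 4) (L 25 4)) (M 5 (L 40 7))))) (A23 (B12 (A12 (S 2 (L 8 4) (L
  25 4)) (B01 (M 5 (L 40 7)) (S 2 (L 8 4) (L 25 4)))) (A12 (S 2 (L 8 4) (L 25 4)) (M 5 (L 40 7))))
  (S 2 (L 8 4) (L 25 4)))))) (A13 (P 19 (K [(58,10,6),(58,5,2)] [])) (P 2 (S 12 (L 38 4) (L 7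
  4)))))))))))))) (B12 (A23 (M 16 (P 13 (B01 (M 1 (A02 (A03 (B02 (A01 (B01 (A02 (S 10 (L 32 1) (L 2
  1)) (A12 (B02 (P 19 (L 58 10)) (A13 (P 15 (L 45 7)) (P 19 (L 58 10)))) (P 19 (L 58 10)))) (A02
  (A03 (M 12 (S 2 (L 7 4) (L 25 4))) (B12 (S 2 (L 8 4) (L 25 4)) (A13 (M 12 (S 2 (L 7 4) (L 25 4)))
  (P 19 (L 58 10))))) (A12 (B12 (S 2 (L 8 4) (L 25 4)) (A13 (S 2 (L 8 4) (L 25 4)) (P 19 (L 58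
  10)))) (P 19 (L 58 10))))) (B01 (A12 (A13 (B02 (S 2 (L 8 4) (L 25 4)) (S 2 (L 8 4) (L 25 4)))
  (B02 (P 19 (L 58 10)) (A03 (P 15 (L 45 7)) (P 19 (L 58 10))))) (A02 (B02 (P 19 (L 58 10)) (A03 (P
  15 (L 45 7)) (P 19 (L 58 10)))) (P 19 (L 58 10)))) (A12 (A13 (S 2 (L 8 4) (L 25 4)) (B12 (S 2 (L
  8 4) (L 25 4)) (A03 (S 2 (L 8 4) (L 25 4)) (P 19 (L 58 10))))) (A02 (B12 (S 2 (L 8 4) (L 25 4))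
  (A03 (S 2 (L 8 4) (L 25 4)) (P 19 (L 58 10)))) (P 19 (L 58 10)))))) (A01 (A02 (A03 (M 12 (S 2 (L
  7 4) (L 25 4))) (B12 (B01 (A13 (M 12 (S 2 (L 7 4) (L 25 4))) (S 10 (L 32 1) (L 2 1))) (S 2 (L 8
  4) (L 25 4))) (B02 (A13 (M 12 (S 2 (L 7 4) (L 25 4))) (S 10 (L 32 1) (L 2 1))) (M 12 (S 2 (L 7 4)
  (L 25 4)))))) (A12 (B12 (B01 (A13 (S 2 (L 8 4) (L 25 4)) (B02 (A03 (P 15 (L 45 7)) (A23 (P 15 (L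
  45 7)) (S 10 (L 32 1) (L 2 1)))) (M 12 (S 2 (L 7 4) (L 25 4))))) (S 2 (L 8 4) (L 25 4))) (B02
  (A13 (M 12 (S 2 (L 7 4) (L 25 4))) (B01 (S 10 (L 32 1) (L 2 1)) (M 12 (S 2 (L 7 4) (L 25 4)))))
  (M 12 (S 2 (L 7 4) (L 25 4))))) (B12 (B01 (A23 (P 15 (L 45 7)) (B02 (P 19 (L 58 10)) (P 15 (L 45
  7)))) (P 15 (L 45 7))) (B02 (A23 (P 15 (L 45 7)) (B01 (P 19 (L 58 10)) (P 15 (L 45 7)))) (P 15 (L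
  45 7)))))) (A12 (A13 (S 2 (L 8 4) (L 25 4)) (B12 (B01 (A03 (S 2 (L 8 4) (L 25 4)) (B02 (A23 (P 15
  (L 45 7)) (S 10 (L 32 1) (L 2 1))) (S 2 (L 8 4) (L 25 4)))) (S 2 (L 8 4) (L 25 4))) (B02 (A03 (S
  2 (L 8 4) (L 25 4)) (B01 (S 10 (L 32 1) (L 2 1)) (M 12 (S 2 (L 7 4) (L 25 4))))) (M 12 (S 2 (L 7
  4) (L 25 4)))))) (A02 (B12 (B01 (A03 (S 2 (L 8 4) (L 25 4)) (B02 (A13 (P 15 (L 45 7)) (A23 (P 15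
  (L 45 7)) (S 10 (L 32 1) (L 2 1)))) (S 2 (L 8 4) (L 25 4)))) (S 2 (L 8 4) (L 25 4))) (B02 (A03 (S
  2 (L 8 4) (L 25 4)) (B01 (S 10 (L 32 1) (L 2 1)) (M 12 (S 2 (L 7 4) (L 25 4))))) (M 12 (S 2 (L 7
  4) (L 25 4))))) (B12 (B01 (A23 (P 19 (L 58 10)) (B02 (P 19 (L 58 10)) (S 2 (L 8 4) (L 25 4)))) (S
  2 (L 8 4) (L 25 4))) (B02 (A23 (P 19 (L 58 10)) (B01 (P 19 (L 58 10)) (M 12 (S 2 (L 7 4) (L 25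
  4))))) (M 12 (S 2 (L 7 4) (L 25 4))))))))) (B02 (P 19 (A13 (B01 (A12 (A01 (L 58 10) (S 2 (L 8 4)
  (L 25 4))) (L 58 10)) (L 58 10)) (L 58 10))) (A13 (A12 (A01 (B12 (B01 (A03 (B02 (P 19 (L 58 10))
  (S 2 (L 8 4) (L 25 4))) (B02 (P 19 (L 58 10)) (S 2 (L 8 4) (L 25 4)))) (S 2 (L 8 4) (L 25 4)))
  (B02 (A03 (B01 (S 10 (L 32 1) (L 2 1)) (M 12 (S 2 (L 7 4) (L 25 4)))) (B01 (M 5 (L 40 7)) (S 2 (L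
  8 4) (L 25 4)))) (M 12 (S 2 (L 7 4) (L 25 4))))) (B12 (B01 (A13 (S 2 (L 8 4) (L 25 4)) (B02 (P 19
  (L 58 10)) (S 2 (L 8 4) (L 25 4)))) (S 2 (L 8 4) (L 25 4))) (B02 (A13 (S 2 (L 8 4) (L 25 4)) (B01
  (M 5 (L 40 7)) (S 2 (L 8 4) (L 25 4)))) (S 2 (L 8 4) (L 25 4))))) (A23 (B12 (B01 (A02 (B02 (P 19
  (L 58 10)) (S 2 (L 8 4) (L 25 4))) (P 19 (L 58 10))) (S 2 (L 8 4) (L 25 4))) (B02 (A02 (B01 (P 19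
  (L 58 10)) (M 12 (S 2 (L 7 4) (L 25 4)))) (P 19 (L 58 10))) (M 12 (S 2 (L 7 4) (L 25 4))))) (B12
  (B01 (A03 (B02 (P 19 (L 58 10)) (S 2 (L 8 4) (L 25 4))) (P 19 (L 58 10))) (S 2 (L 8 4) (L 25 4)))
  (B02 (A03 (B01 (P 19 (L 58 10)) (M 12 (S 2 (L 7 4) (L 25 4)))) (P 19 (L 58 10))) (M 12 (S 2 (L 7
  4) (L 25 4))))))) (A23 (A12 (B12 (B01 (S 10 (L 32 1) (L 2 1)) (A01 (A03 (P 15 (L 45 7)) (P 19 (L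
  58 10))) (P 19 (L 58 10)))) (S 10 (L 31 1) (L 2 1))) (B12 (B01 (A02 (S 10 (L 32 1) (L 2 1)) (P 19
  (L 58 10))) (A02 (A03 (P 15 (L 45 7)) (P 19 (L 58 10))) (P 19 (L 58 10)))) (B02 (A02 (S 10 (L 32
  1) (L 2 1)) (P 19 (L 58 10))) (A02 (S 10 (L 31 1) (L 2 1)) (P 19 (L 58 10)))))) (P 2 (S 12 (L 38
  4) (L 7 4))))))) (A12 (B02 (S 2 (L 8 4) (L 25 4)) (A13 (A01 (A03 (S 2 (L 8 4) (L 25 4)) (B12 (P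
  19 (L 58 10)) (B02 (P 19 (L 58 10)) (S 2 (L 8 4) (L 25 4))))) (A12 (B12 (B01 (A13 (S 2 (L 8 4) (L
  25 4)) (P 19 (L 58 10))) (S 2 (L 8 4) (L 25 4))) (B02 (A13 (S 2 (L 8 4) (L 25 4)) (P 19 (L 58
  10))) (S 2 (L 8 4) (L 25 4)))) (B12 (P 19 (L 58 10)) (B02 (P 19 (L 58 10)) (S 2 (L 8 4) (L 25
  4)))))) (A03 (A01 (S 2 (L 8 4) (L 25 4)) (B12 (P 19 (L 58 10)) (B02 (P 19 (L 58 10)) (A12 (M 5 (L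
  40 7)) (P 19 (L 58 5)))))) (A23 (B12 (P 19 (L 58 10)) (B02 (P 19 (L 58 10)) (A12 (M 5 (L 40 7))
  (P 19 (L 58 5))))) (M 5 (L 40 7)))))) (S 2 (L 8 4) (L 25 4))))) (A02 (A03 (P 15 (M 12 (B12 (A01
  (B01 (A02 (A03 (B02 (S 10 (L 32 1) (L 2 1)) (P 10 (S 1 (L 4 1) (L 31 1)))) (M 1 (S 10 (L 31 1) (L
  2 1)))) (M 1 (S 10 (L 31 1) (L 2 1)))) (A02 (M 19 (K [(41,5,5),(41,10,3)] [])) (A12 (B12 (M 2 (L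
  25 2)) (A13 (S 1 (L 4 1) (L 45 3)) (M 1 (S 10 (L 31 1) (L 2 1))))) (S 10 (L 32 1) (L 2 1)))))
  (B01 (M 1 (A12 (S 2 (L 8 4) (L 25 4)) (S 10 (L 31 1) (L 2 1)))) (A12 (A13 (M 2 (L 25 4)) (B12 (M
  2 (L 25 4)) (A03 (M 2 (L 25 4)) (S 2 (L 8 4) (L 25 4))))) (A02 (B12 (S 10 (L 32 8) (L 2 1)) (A03
  (M 2 (L 25 4)) (S 2 (L 8 4) (L 25 4)))) (S 10 (L 32 1) (L 2 1)))))) (A01 (A02 (A03 (B02 (B01 (S 2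
  (L 7 4) (L 25 4)) (P 10 (S 1 (L 4 1) (L 31 1)))) (P 10 (S 1 (L 4 1) (L 31 1)))) (S 2 (L 7 4) (L
  25 4))) (S 2 (L 7 4) (L 25 4))) (S 2 (L 7 4) (L 25 4)))))) (B12 (A13 (B01 (A12 (S 2 (L 8 4) (L 25
  4)) (S 10 (L 32 1) (L 2 1))) (S 10 (L 32 8) (L 2 1))) (B01 (A23 (S 10 (L 32 1) (L 2 1)) (A03 (S 2
  (L 8 4) (L 25 4)) (S 2 (L 8 4) (L 25 4)))) (A23 (S 10 (L 32 1) (L 2 1)) (S 2 (L 8 4) (L 25 4)))))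
  (A13 (M 12 (S 2 (L 7 4) (L 25 4))) (A23 (M 12 (S 2 (L 7 4) (L 25 4))) (A03 (M 12 (S 2 (L 7 4) (L
  25 4))) (B02 (S 2 (L 8 4) (L 25 4)) (B12 (P 19 (L 58 5)) (M 5 (L 40 7))))))))) (M 1 (A12 (B12
  (A13 (P 15 (B01 (A01 (A03 (M 2 (K [(25,4,4),(25,2,4)] [])) (S 2 (L 8 4) (L 25 4))) (S 2 (L 8 4)
  (L 25 4))) (M 2 (K [(25,4,4),(45,3,1),(25,2,3)] [])))) (P 19 (K [(58,5,2),(58,10,6)] []))) (A13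
  (S 2 (L 8 4) (L 25 4)) (A03 (S 2 (L 8 4) (L 25 4)) (A23 (S 2 (L 8 4) (L 25 4)) (B02 (S 2 (L 8 4)
  (L 25 4)) (B12 (P 19 (L 58 5)) (M 5 (L 40 7)))))))) (P 19 (K [(58,10,5),(58,5,3)] [])))))))) (B01
  (P 6 (M 1 (A03 (M 16 (P 13 (A02 (B02 (A01 (B01 (S 10 (L 31 1) (L 2 1)) (A03 (A02 (M 12 (S 2 (L 7
  4) (L 25 4))) (B12 (M 12 (S 2 (L 7 4) (L 25 4))) (A12 (M 12 (S 2 (L 7 4) (L 25 4))) (S 10 (L 32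
  1) (L 2 1))))) (A13 (B12 (M 12 (S 2 (L 7 4) (L 25 4))) (A12 (M 12 (S 2 (L 7 4) (L 25 4))) (S 10
  (L 32 1) (L 2 1)))) (S 10 (L 31 1) (L 2 1))))) (B01 (A13 (A12 (B02 (S 2 (L 8 4) (L 25 4)) (S 2 (L
  8 4) (L 25 4))) (S 10 (L 32 1) (L 2 1))) (S 10 (L 31 1) (L 2 1))) (A13 (A12 (S 2 (L 8 4) (L 25
  4)) (B12 (S 2 (L 8 4) (L 25 4)) (A02 (S 2 (L 8 4) (L 25 4)) (S 10 (L 32 1) (L 2 1))))) (A03 (B12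
  (S 2 (L 8 4) (L 25 4)) (A02 (M 12 (S 2 (L 7 4) (L 25 4))) (S 10 (L 32 1) (L 2 1)))) (S 10 (L 31
  1) (L 2 1)))))) (A01 (A03 (A02 (M 12 (S 2 (L 7 4) (L 25 4))) (B12 (B01 (A12 (M 12 (S 2 (L 7 4) (L
  25 4))) (S 10 (L 31 1) (L 2 1))) (M 12 (S 2 (L 7 4) (L 25 4)))) (B02 (A12 (M 12 (S 2 (L 7 4) (L
  25 4))) (S 10 (L 31 1) (L 2 1))) (M 12 (S 2 (L 7 4) (L 25 4)))))) (A13 (B12 (B01 (A12 (M 12 (S 2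
  (L 7 4) (L 25 4))) (S 10 (L 31 1) (L 2 1))) (M 12 (S 2 (L 7 4) (L 25 4)))) (B02 (A12 (M 12 (S 2
  (L 7 4) (L 25 4))) (S 10 (L 31 1) (L 2 1))) (M 12 (S 2 (L 7 4) (L 25 4))))) (S 10 (L 31 1) (L 2
  1)))) (A13 (A12 (S 2 (L 8 4) (L 25 4)) (B12 (B01 (A02 (M 12 (S 2 (L 7 4) (L 25 4))) (S 10 (L 31
  1) (L 2 1))) (S 2 (L 8 4) (L 25 4))) (B02 (A02 (M 12 (S 2 (L 7 4) (L 25 4))) (S 10 (L 31 1) (L 2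
  1))) (M 12 (S 2 (L 7 4) (L 25 4)))))) (A03 (B12 (B01 (A02 (M 12 (S 2 (L 7 4) (L 25 4))) (S 10 (L
  31 1) (L 2 1))) (M 12 (S 2 (L 7 4) (L 25 4)))) (B02 (A02 (M 12 (S 2 (L 7 4) (L 25 4))) (S 10 (L
  31 1) (L 2 1))) (M 12 (S 2 (L 7 4) (L 25 4))))) (S 10 (L 31 1) (L 2 1)))))) (B02 (A12 (B01 (A13
  (A01 (S 10 (L 32 1) (L 2 1)) (B02 (S 2 (L 8 4) (L 25 4)) (A12 (S 2 (L 8 4) (L 25 4)) (M 5 (L 40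
  7))))) (S 10 (L 31 1) (L 2 1))) (A13 (A01 (B12 (A02 (S 2 (L 8 4) (L 25 4)) (B01 (M 5 (L 40 7)) (S
  2 (L 8 4) (L 25 4)))) (S 10 (L 32 1) (L 2 1))) (B12 (A12 (S 2 (L 8 4) (L 25 4)) (B01 (A23 (P 19
  (L 58 10)) (S 2 (L 8 4) (L 25 4))) (S 2 (L 8 4) (L 25 4)))) (A12 (S 2 (L 8 4) (L 25 4)) (M 5 (L
  40 7))))) (S 10 (L 31 1) (L 2 1)))) (S 10 (L 31 1) (L 2 1))) (A12 (A13 (A01 (B12 (B01 (S 10 (L 31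
  1) (L 2 1)) (S 2 (L 8 4) (L 25 4))) (S 10 (L 31 1) (L 2 1))) (B12 (B01 (A12 (S 2 (L 8 4) (L 25
  4)) (M 5 (L 40 7))) (S 2 (L 8 4) (L 25 4))) (B02 (A12 (S 2 (L 8 4) (L 25 4)) (M 5 (L 40 7))) (S 2
  (L 8 4) (L 25 4))))) (S 10 (L 31 1) (L 2 1))) (P 2 (S 12 (L 38 4) (L 7 4)))))))) (A13 (M 16 (P 13
  (B02 (A12 (B01 (A01 (S 10 (L 31 1) (L 2 1)) (A13 (B02 (S 2 (L 8 4) (L 25 4)) (A12 (S 2 (L 8 4) (L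
  25 4)) (M 5 (L 40 7)))) (M 5 (L 40 7)))) (A01 (S 10 (L 31 1) (L 2 1)) (A13 (B12 (A12 (S 2 (L 8 4)
  (L 25 4)) (B01 (A02 (S 2 (L 8 4) (L 25 4)) (P 19 (L 58 10))) (S 2 (L 8 4) (L 25 4)))) (A12 (S 2
  (L 8 4) (L 25 4)) (M 5 (L 40 7)))) (M 5 (L 40 7))))) (B01 (S 12 (L 38 4) (L 18 4)) (A02 (S 10 (L
  31 1) (L 2 1)) (A23 (P 19 (L 58 10)) (S 10 (L 31 8) (L 2 1)))))) (A12 (A01 (S 10 (L 32 8) (L 2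
  8)) (A13 (B12 (B01 (A12 (S 2 (L 8 4) (L 25 4)) (M 5 (L 40 7))) (S 2 (L 8 4) (L 25 4))) (B02 (A12
  (S 2 (L 8 4) (L 25 4)) (M 5 (L 40 7))) (S 2 (L 8 4) (L 25 4)))) (M 5 (L 40 7)))) (P 2 (S 12 (L 38
  4) (L 7 4))))))) (P 2 (B02 (A23 (B01 (P 12 (L 38 4)) (A02 (S 10 (L 31 1) (L 2 1)) (A12 (S 10 (L
  31 8) (L 2 1)) (P 19 (L 58 10))))) (B01 (P 12 (L 38 4)) (A03 (S 10 (L 31 1) (L 2 1)) (A13 (M 16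
  (S 10 (L 32 8) (L 2 1))) (B12 (S 10 (L 31 1) (L 2 1)) (P 12 (L 38 4))))))) (A23 (S 12 (L 38 4) (L
  7 4)) (A03 (M 16 (S 10 (L 32 8) (L 2 8))) (A13 (M 16 (S 10 (L 32 8) (L 2 8))) (B12 (B01 (A23 (M
  16 (S 10 (L 32 8) (L 2 8))) (P 10 (L 31 1))) (M 16 (S 10 (L 32 8) (L 2 8)))) (B02 (A23 (M 16 (S
  10 (L 32 8) (L 2 8))) (S 12 (L 38 4) (L 18 4))) (S 12 (L 38 4) (L 7 4))))))))))))) (A03 (M 16 (P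
  13 (A02 (M 12 (B12 (A01 (B01 (A03 (A02 (P 10 (S 1 (L 4 1) (L 31 1))) (S 2 (L 7 4) (L 25 4))) (S 2
  (L 7 4) (L 25 4))) (M 19 (K [(41,5,6),(41,10,2)] []))) (B01 (S 2 (L 7 4) (L 25 4)) (A13 (A12 (M 2
  (L 25 4)) (B12 (M 2 (L 25 4)) (A02 (M 2 (L 25 4)) (S 2 (L 8 4) (L 25 4))))) (M 19 (L 41 5)))))
  (A01 (A03 (A02 (P 10 (S 1 (L 4 1) (L 31 1))) (S 2 (L 7 4) (L 25 4))) (S 2 (L 7 4) (L 25 4))) (S 2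
  (L 7 4) (L 25 4))))) (M 1 (B12 (A12 (M 12 (S 2 (L 7 4) (L 25 4))) (B01 (A23 (A02 (S 2 (L 8 4) (L
  25 4)) (B02 (P 19 (L 58 10)) (S 2 (L 8 4) (L 25 4)))) (M 12 (S 2 (L 7 4) (L 25 4)))) (M 12 (S 2
  (L 7 4) (L 25 4))))) (A12 (M 12 (S 2 (L 7 4) (L 25 4))) (A23 (A02 (M 12 (S 2 (L 7 4) (L 25 4)))
  (B02 (B01 (A12 (S 2 (L 8 4) (L 25 4)) (M 5 (L 40 7))) (A12 (S 2 (L 8 4) (L 25 4)) (M 5 (L 40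
  7)))) (B12 (A12 (S 2 (L 8 4) (L 25 4)) (M 5 (L 40 7))) (S 10 (L 31 8) (L 2 8))))) (M 12 (S 2 (L 7
  4) (L 25 4)))))))))) (M 1 (A13 (M 16 (P 13 (B12 (A12 (M 12 (S 2 (L 7 4) (L 25 4))) (B01 (A02 (M
  12 (S 2 (L 7 4) (L 25 4))) (A23 (B02 (S 2 (L 8 4) (L 25 4)) (S 2 (L 8 4) (L 25 4))) (S 2 (L 8 4)
  (L 25 4)))) (M 12 (S 2 (L 7 4) (L 25 4))))) (A12 (M 12 (S 2 (L 7 4) (L 25 4))) (A02 (M 12 (S 2 (L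
  7 4) (L 25 4))) (A23 (B02 (B01 (A12 (S 2 (L 8 4) (L 25 4)) (M 5 (L 40 7))) (A12 (S 2 (L 8 4) (L
  25 4)) (M 5 (L 40 7)))) (B12 (A12 (S 2 (L 8 4) (L 25 4)) (M 5 (L 40 7))) (S 10 (L 31 8) (L 2
  8)))) (M 12 (S 2 (L 7 4) (L 25 4))))))))) (B12 (M 16 (A23 (B01 (P 2 (S 12 (L 38 4) (L 7 4))) (M
  12 (S 2 (L 7 4) (L 25 4)))) (B01 (S 10 (L 32 8) (L 2 8)) (M 12 (S 2 (L 7 4) (L 25 4)))))) (P 2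
  (A23 (S 12 (L 38 4) (L 7 4)) (A03 (M 16 (S 10 (L 32 8) (L 2 8))) (A13 (M 16 (S 10 (L 32 8) (L 2
  8))) (B02 (M 16 (S 10 (L 32 8) (L 2 8))) (S 12 (L 38 4) (L 7 4))))))))))))) (P 6 (M 5 (P 2 (M 1
  (A23 (P 13 (A02 (A03 (S 12 (L 38 4) (L 7 4)) (B02 (B01 (P 19 (K [(58,10,6),(40,7,2)] [])) (S 12
  (L 38 4) (L 7 4))) (S 12 (L 38 4) (L 7 4)))) (A12 (B02 (B01 (P 19 (K [(40,7,5),(58,10,3)] [])) (S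
  12 (L 38 4) (L 7 4))) (S 12 (L 38 4) (L 7 4))) (S 12 (L 38 4) (L 18 4))))) (A03 (A02 (B02 (S 12
  (L 38 4) (L 7 4)) (B12 (A01 (B01 (A03 (S 10 (L 31 1) (L 2 1)) (A13 (S 10 (L 31 1) (L 2 1)) (B02
  (P 13 (L 40 5)) (A23 (P 13 (L 40 5)) (P 10 (L 31 1)))))) (A03 (S 10 (L 31 1) (L 2 1)) (A13 (S 10
  (L 31 1) (L 2 1)) (B12 (S 10 (L 31 1) (L 2 1)) (A23 (P 13 (L 40 5)) (P 10 (L 31 1))))))) (B01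
  (A13 (S 10 (L 31 1) (L 2 1)) (A03 (S 10 (L 31 1) (L 2 1)) (B02 (S 10 (L 31 1) (L 2 1)) (A23 (S 10
  (L 31 1) (L 2 1)) (P 10 (L 31 1)))))) (A13 (M 16 (S 10 (L 32 8) (L 2 8))) (A03 (S 10 (L 31 1) (L
  2 1)) (B12 (S 10 (L 31 1) (L 2 8)) (A23 (S 10 (L 31 1) (L 2 1)) (P 10 (L 31 1)))))))) (A01 (A03
  (A02 (B02 (P 13 (L 40 5)) (P 10 (L 31 1))) (B02 (P 13 (L 40 5)) (B12 (P 13 (L 40 5)) (A12 (P 10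
  (L 31 1)) (P 12 (L 38 4)))))) (A13 (B02 (P 13 (L 40 5)) (B12 (P 13 (L 40 5)) (A12 (P 10 (L 31 1))
  (P 12 (L 38 4))))) (B02 (B01 (P 12 (L 38 4)) (A23 (P 13 (L 40 5)) (P 10 (L 31 1)))) (B12 (A23 (P
  13 (L 40 5)) (P 10 (L 31 1))) (P 12 (L 38 4)))))) (A13 (A12 (B02 (S 10 (L 31 1) (L 2 1)) (P 10 (L
  31 1))) (B02 (P 13 (L 40 5)) (B12 (P 13 (L 40 5)) (A02 (P 10 (L 31 1)) (P 12 (L 38 4)))))) (A03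
  (B02 (P 13 (L 40 5)) (B12 (P 13 (L 40 5)) (A02 (P 10 (L 31 1)) (P 12 (L 38 4))))) (B02 (B01 (P 12
  (L 38 4)) (A23 (P 13 (L 40 5)) (P 10 (L 31 1)))) (B12 (A23 (P 13 (L 40 5)) (P 10 (L 31 1))) (P 12
  (L 38 4))))))))) (B02 (P 13 (B01 (A12 (A13 (A01 (S 10 (L 31 8) (L 2 1)) (B02 (L 40 7) (S 10 (L 31
  8) (L 2 1)))) (S 10 (L 31 1) (L 2 1))) (P 12 (L 38 4))) (S 12 (L 38 4) (L 7 4)))) (B12 (A12 (B01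
  (A13 (S 10 (L 31 1) (L 2 1)) (A23 (S 10 (L 31 1) (L 2 1)) (B02 (S 10 (L 31 1) (L 2 1)) (A03 (S 10
  (L 31 1) (L 2 8)) (P 10 (L 31 1)))))) (A13 (M 16 (S 10 (L 32 8) (L 2 8))) (A23 (M 16 (S 10 (L 32
  8) (L 2 8))) (B12 (S 10 (L 31 1) (L 2 8)) (A03 (S 10 (L 31 1) (L 2 8)) (P 10 (L 31 1))))))) (B01
  (P 12 (L 38 4)) (A23 (M 16 (S 10 (L 32 8) (L 2 8))) (A13 (M 16 (S 10 (L 32 8) (L 2 8))) (B12 (S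
  10 (L 31 1) (L 2 8)) (A03 (P 13 (L 40 5)) (P 10 (L 31 1)))))))) (A12 (A13 (A01 (B02 (S 10 (L 31
  1) (L 2 1)) (B12 (S 10 (L 31 1) (L 2 8)) (P 12 (L 38 4)))) (B02 (M 16 (S 10 (L 32 8) (L 2 8)))
  (B12 (M 16 (S 10 (L 32 8) (L 2 8))) (A12 (P 10 (L 31 1)) (P 12 (L 38 4)))))) (A23 (B02 (S 10 (L
  31 1) (L 2 1)) (B12 (S 10 (L 31 1) (L 2 8)) (P 12 (L 38 4)))) (B02 (B01 (P 12 (L 38 4)) (A03 (P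
  13 (L 40 5)) (P 10 (L 31 1)))) (B12 (A03 (P 13 (L 40 5)) (P 10 (L 31 1))) (P 12 (L 38 4)))))) (P
  12 (L 38 4)))))) (A13 (B02 (P 13 (B01 (A12 (A01 (S 10 (L 31 1) (L 2 1)) (A13 (B02 (L 40 7) (S 10
  (L 31 8) (L 2 1))) (S 10 (L 31 8) (L 2 1)))) (P 12 (L 38 4))) (S 12 (L 38 4) (L 7 4)))) (B12 (A12
  (B01 (A01 (A02 (B02 (S 10 (L 31 1) (L 2 8)) (P 10 (L 31 1))) (M 16 (S 10 (L 32 8) (L 2 8)))) (M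
  16 (S 10 (L 32 8) (L 2 8)))) (A01 (A02 (P 10 (L 31 1)) (M 16 (S 10 (L 32 8) (L 2 8)))) (M 16 (S
  10 (L 32 8) (L 2 8))))) (B01 (P 12 (L 38 4)) (A02 (A01 (P 10 (L 31 1)) (M 16 (S 10 (L 32 8) (L 2
  8)))) (M 16 (S 10 (L 32 8) (L 2 8)))))) (A12 (A01 (A02 (B02 (B01 (P 12 (L 38 4)) (P 10 (L 31 1)))
  (P 10 (L 31 1))) (B02 (B01 (P 12 (L 38 4)) (A23 (M 16 (S 10 (L 32 8) (L 2 8))) (P 10 (L 31 1))))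
  (B12 (A23 (M 16 (S 10 (L 32 8) (L 2 8))) (P 10 (L 31 1))) (P 12 (L 38 4))))) (A13 (B02 (M 16 (S
  10 (L 32 8) (L 2 8))) (B12 (M 16 (S 10 (L 32 8) (L 2 8))) (A12 (P 10 (L 31 1)) (P 12 (L 38 4)))))
  (B02 (B01 (P 12 (L 38 4)) (A23 (M 16 (S 10 (L 32 8) (L 2 8))) (P 10 (L 31 1)))) (B12 (A23 (M 16
  (S 10 (L 32 8) (L 2 8))) (P 10 (L 31 1))) (P 12 (L 38 4)))))) (P 12 (L 38 4))))) (B02 (B01 (P 12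
  (L 38 4)) (A23 (S 12 (L 38 4) (L 7 4)) (B12 (A03 (A02 (P 10 (L 31 1)) (B01 (A12 (P 10 (L 31 1))
  (P 12 (L 38 4))) (S 12 (L 38 4) (L 7 4)))) (A13 (B01 (A12 (P 10 (L 31 1)) (P 12 (L 38 4))) (S 12
  (L 38 4) (L 7 4))) (B01 (P 12 (L 38 4)) (S 12 (L 38 4) (L 7 4))))) (P 12 (L 38 4))))) (B12 (A23
  (B01 (P 12 (L 38 4)) (A02 (S 12 (L 38 4) (L 7 4)) (A12 (S 12 (L 38 4) (L 7 4)) (B12 (S 10 (L 31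
  8) (L 2 8)) (P 12 (L 38 4)))))) (B01 (P 12 (L 38 4)) (S 12 (L 38 4) (L 7 4)))) (P 12 (L 38
  4)))))))))))))))))) (A13 (M 16 (P 13 (A12 (B12 (A01 (B01 (P 8 (A03 (out 10) (S 2 (L 8 4) (L 25
  4)))) (M 2 (S 8 (L 25 4) (L 44 4)))) (B01 (P 8 (S 2 (L 8 4) (L 25 4))) (P 15 (A13 (out 6) (S 1 (L
  4 1) (L 45 1)))))) (P 8 (M 7 (A01 (A03 (out 10) (M 1 (A13 (out 10) (B02 (S 2 (L 8 4) (L 25 4))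
  (B12 (P 19 (L 58 5)) (A23 (out 10) (A03 (out 10) (A13 (out 10) (B02 (P 19 (L 58 5)) (P 15 (L 45
  1))))))))))) (M 1 (A13 (out 6) (A03 (out 10) (B02 (S 2 (L 8 4) (L 25 4)) (B12 (P 19 (L 58 5))
  (A23 (out 10) (A13 (out 10) (A03 (out 10) (B02 (P 19 (L 58 5)) (P 15 (L 45 1))))))))))))))) (P 8
  (M 7 (P 0 (B12 (P 19 (M 10 (A02 (B01 (A03 (out 10) (S 2 (L 8 4) (L 25 4))) (M 2 (K
  [(25,4,5),(58,5,2),(25,2,2)] []))) (B01 (S 2 (L 8 4) (L 25 4)) (A23 (A12 (M 2 (K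
  [(25,4,12),(2,8,3),(25,2,6),(58,10,2)] [])) (B12 (M 2 (A02 (B01 (A03 (out 10) (A23 (out 10) (L 25
  4))) (K [(58,5,16),(25,2,8)] [])) (B01 (A23 (K [(25,4,18),(58,5,19),(58,10,17),(25,2,11)] [])
  (A03 (K [(25,4,7),(58,5,7),(58,10,6),(25,2,4)] []) (L 25 4))) (A23 (K
  [(58,5,12),(25,4,1),(25,2,8),(58,10,3)] []) (K [(58,5,16),(25,2,8)] []))))) (S 2 (L 8 4) (L 25
  4)))) (M 2 (K [(25,4,5),(58,5,2),(25,2,2)] []))))))) (A02 (A03 (out 10) (M 1 (A23 (out 10) (B02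
  (S 2 (L 8 4) (L 25 4)) (B12 (P 19 (L 58 5)) (A13 (out 10) (A03 (out 10) (A23 (B02 (P 19 (L 58 5))
  (P 15 (L 45 1))) (B02 (P 19 (L 58 5)) (P 15 (L 45 1))))))))))) (A23 (S 2 (L 8 4) (L 25 4)) (A03
  (S 2 (L 8 4) (L 25 4)) (B02 (S 2 (L 8 4) (L 25 4)) (B12 (P 19 (L 58 5)) (A13 (P 19 (L 58 5)) (A23
  (P 19 (L 58 5)) (A03 (B02 (P 19 (L 58 5)) (B12 (P 19 (L 58 5)) (M 5 (L 40 7)))) (B02 (P 19 (L 58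
  5)) (B12 (A13 (P 19 (L 58 5)) (M 5 (L 40 7))) (M 5 (L 40 7))))))))))))))))))) (M 17 (P 8 (M 7 (P
  0 (A03 (M 16 (P 13 (B12 (A02 (B01 (A01 (A03 (out 10) (S 2 (L 8 4) (L 25 4))) (M 1 (A12 (B02 (S 2
  (L 8 4) (L 25 4)) (P 15 (L 45 1))) (B02 (S 2 (L 8 4) (L 25 4)) (S 2 (L 8 4) (L 25 4)))))) (P 15
  (A01 (A03 (out 10) (B12 (M 2 (K [(25,4,5),(25,2,3)] [])) (A23 (out 10) (A13 (out 10) (A03 (out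
  10) (M 1 (L 45 1))))))) (A12 (B12 (M 2 (L 25 4)) (M 1 (L 45 1))) (B12 (M 2 (K [(25,4,5),(25,2,3)]
  [])) (S 2 (L 8 4) (L 25 4))))))) (M 1 (B01 (A12 (A01 (B02 (S 2 (L 8 4) (L 25 4)) (A03 (S 2 (L 8
  4) (L 25 4)) (A23 (S 2 (L 8 4) (L 25 4)) (P 15 (L 45 1))))) (B02 (S 2 (L 8 4) (L 25 4)) (A13 (A12
  (P 15 (L 45 1)) (A23 (P 19 (L 58 5)) (P 15 (L 45 1)))) (A23 (A12 (P 15 (L 45 1)) (P 19 (L 58 5)))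
  (P 15 (L 45 1)))))) (A23 (S 2 (L 8 4) (L 25 4)) (B02 (S 2 (L 8 4) (L 25 4)) (A03 (S 2 (L 8 4) (L
  25 4)) (A13 (S 2 (L 8 4) (L 25 4)) (S 2 (L 8 4) (L 25 4))))))) (A12 (A01 (B12 (M 2 (K
  [(25,4,5),(25,2,3)] [])) (S 2 (L 8 4) (L 25 4))) (S 2 (L 8 4) (L 25 4))) (A23 (P 19 (B12 (P 5 (M
  2 (A02 (B01 (A01 (K [(25,4,2),(58,5,3),(58,10,3)] []) (A12 (L 25 4) (K
  [(25,4,2),(58,5,3),(58,10,3)] []))) (K [(58,5,41),(25,2,23)] [])) (B01 (A12 (A01 (K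
  [(25,4,3),(58,5,1),(58,10,2),(25,2,3)] []) (L 25 4)) (K [(25,4,3),(58,10,3),(25,2,2)] [])) (A12
  (K [(58,5,41),(25,2,23)] []) (K [(58,5,2),(17,7,2),(25,2,2),(58,10,2)] [])))))) (S 2 (L 8 4) (L
  25 4)))) (B12 (M 2 (S 10 (L 32 8) (K [(25,4,11),(2,8,4),(2,1,4),(25,2,5)] []))) (S 2 (L 8 4) (L
  25 4)))))))) (A02 (A01 (M 12 (A03 (out 10) (B02 (S 2 (L 8 4) (L 25 4)) (S 2 (L 7 4) (L 25 4)))))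
  (M 1 (A12 (B02 (B01 (S 2 (L 8 4) (L 25 4)) (A13 (B12 (P 15 (L 45 1)) (P 19 (L 58 5))) (P 15 (L 45
  1)))) (B12 (A13 (B01 (A01 (P 15 (L 45 1)) (A12 (P 15 (L 45 1)) (P 15 (L 45 1)))) (P 15 (L 45 1)))
  (P 15 (L 45 1))) (A13 (A01 (P 15 (L 45 1)) (A12 (P 15 (L 45 1)) (P 15 (L 45 1)))) (P 15 (L 45
  1))))) (B02 (B01 (S 2 (L 8 4) (L 25 4)) (S 2 (L 8 4) (L 25 4))) (M 12 (S 2 (L 7 4) (L 25 4)))))))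
  (P 6 (M 1 (A12 (A01 (B02 (B01 (S 2 (L 8 4) (L 25 4)) (A03 (S 2 (L 8 4) (L 25 4)) (B12 (A23 (P 19
  (L 58 5)) (P 15 (L 45 1))) (A23 (P 19 (L 58 5)) (A13 (P 19 (L 58 5)) (B02 (A03 (P 19 (L 58 5))
  (A23 (P 19 (L 58 5)) (P 15 (L 45 1)))) (A03 (P 19 (L 58 5)) (M 5 (L 40 7))))))))) (B12 (A03 (S 2
  (L 8 4) (L 25 4)) (B01 (A23 (P 19 (L 58 5)) (A13 (B02 (P 19 (L 58 5)) (A01 (A02 (P 15 (L 45 1))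
  (A12 (P 15 (L 45 1)) (M 5 (L 40 7)))) (A12 (P 15 (L 45 1)) (A02 (P 15 (L 45 1)) (M 5 (L 40
  7)))))) (B02 (A03 (P 19 (L 58 5)) (M 5 (L 40 7))) (A03 (A02 (P 15 (L 45 1)) (M 5 (L 40 7))) (M 5
  (L 40 7)))))) (A23 (P 19 (L 58 5)) (P 15 (L 45 1))))) (A03 (S 2 (L 8 4) (L 25 4)) (S 10 (L 32 8)
  (L 2 8))))) (B02 (B01 (S 2 (L 8 4) (L 25 4)) (A13 (B12 (A12 (P 15 (L 45 1)) (A23 (P 19 (L 58 5))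
  (P 15 (L 45 1)))) (P 19 (L 58 5))) (B12 (A23 (A12 (P 15 (L 45 1)) (P 19 (L 58 5))) (P 15 (L 45
  1))) (A23 (P 19 (L 58 5)) (A03 (P 19 (L 58 5)) (B02 (A13 (P 19 (L 58 5)) (A23 (P 19 (L 58 5)) (P
  15 (L 45 1)))) (M 5 (L 40 7)))))))) (B12 (A13 (B01 (A12 (A01 (B02 (P 19 (L 58 5)) (A03 (P 19 (L
  58 5)) (M 5 (L 40 7)))) (M 5 (L 40 7))) (A23 (P 19 (L 58 5)) (B02 (P 19 (L 58 5)) (A03 (P 19 (L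
  58 5)) (M 5 (L 40 7)))))) (A12 (P 15 (L 45 1)) (A23 (P 19 (L 58 5)) (P 15 (L 45 1))))) (B01 (A23
  (A12 (B02 (P 19 (L 58 5)) (A01 (P 19 (L 58 5)) (M 5 (L 40 7)))) (P 19 (L 58 5))) (A03 (B02 (P 19
  (L 58 5)) (A01 (A02 (P 15 (L 45 1)) (M 5 (L 40 7))) (M 5 (L 40 7)))) (M 5 (L 40 7)))) (A23 (A12
  (P 15 (L 45 1)) (P 19 (L 58 5))) (P 15 (L 45 1))))) (S 10 (L 32 8) (L 2 8))))) (A23 (P 19 (B02 (S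
  2 (L 8 4) (L 25 4)) (B12 (S 2 (L 8 4) (L 25 4)) (A02 (A01 (S 12 (L 38 4) (L 18 4)) (M 5 (K
  [(40,7,5),(58,5,3)] []))) (P 12 (M 5 (K [(40,7,6),(38,4,2)] []))))))) (B02 (B01 (S 2 (L 8 4) (L
  25 4)) (A03 (S 2 (L 8 4) (L 25 4)) (B12 (A13 (S 2 (L 8 4) (L 25 4)) (A23 (S 2 (L 8 4) (L 25 4))
  (P 15 (L 45 1)))) (A13 (S 2 (L 8 4) (L 25 4)) (A23 (S 2 (L 8 4) (L 25 4)) (B02 (A03 (P 19 (L 58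
  5)) (A13 (P 19 (L 58 5)) (P 15 (L 45 1)))) (A03 (P 19 (L 58 5)) (M 5 (L 40 7))))))))) (B12 (A03
  (S 2 (L 8 4) (L 25 4)) (B01 (A13 (S 2 (L 8 4) (L 25 4)) (A23 (S 2 (L 8 4) (L 25 4)) (B02 (A03 (P
  19 (L 58 5)) (M 5 (L 40 7))) (A03 (A01 (A02 (P 15 (L 45 1)) (M 5 (L 40 7))) (M 5 (L 40 7))) (M 5
  (L 40 7)))))) (A13 (P 19 (L 58 5)) (A23 (P 19 (L 58 5)) (P 15 (L 45 1)))))) (A03 (P 19 (A01 (A02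
  (out 10) (M 5 (K [(40,7,5),(58,5,3)] []))) (M 5 (K [(40,7,5),(58,5,3)] [])))) (M 5 (K
  [(40,7,5),(40,5,3)] []))))))))))))) (P 6 (M 1 (B12 (A23 (M 16 (P 13 (B01 (A12 (A13 (B02 (S 2 (L 8
  4) (L 25 4)) (A01 (A02 (A03 (P 15 (L 45 1)) (B12 (P 19 (L 58 5)) (B02 (P 19 (L 58 5)) (P 15 (L 45
  1))))) (A12 (B12 (P 19 (L 58 5)) (B02 (P 19 (L 58 5)) (P 15 (L 45 1)))) (P 19 (L 58 5)))) (A12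
  (A13 (P 15 (L 45 1)) (B12 (P 19 (L 58 5)) (B02 (P 19 (L 58 5)) (P 15 (L 45 1))))) (A02 (B12 (P 19
  (L 58 5)) (B02 (P 19 (L 58 5)) (P 15 (L 45 1)))) (P 19 (L 58 5)))))) (B02 (S 2 (L 8 4) (L 25 4))
  (A03 (A02 (A01 (B12 (B01 (A03 (P 15 (L 45 1)) (P 19 (L 58 5))) (S 2 (L 8 4) (L 25 4))) (B02 (A03
  (P 15 (L 45 1)) (P 19 (L 58 5))) (S 2 (L 8 4) (L 25 4)))) (B12 (P 19 (L 58 5)) (B02 (P 19 (L 58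
  5)) (S 2 (L 8 4) (L 25 4))))) (A23 (P 19 (L 58 5)) (B12 (P 19 (L 58 5)) (B02 (P 19 (L 58 5)) (S 2
  (L 8 4) (L 25 4)))))) (A23 (A02 (B12 (P 19 (L 58 5)) (B02 (P 19 (L 58 5)) (A01 (A03 (S 2 (L 8 4)
  (L 25 4)) (P 19 (L 58 5))) (P 19 (L 58 5))))) (P 19 (L 58 5))) (A13 (B12 (P 19 (L 58 5)) (M 5 (L
  40 7))) (M 5 (L 40 7))))))) (A02 (B02 (S 2 (L 8 4) (L 25 4)) (A03 (A01 (A02 (B12 (B01 (A03 (P 15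
  (L 45 1)) (P 19 (L 58 5))) (S 2 (L 8 4) (L 25 4))) (B02 (A03 (P 15 (L 45 1)) (P 19 (L 58 5))) (S
  2 (L 8 4) (L 25 4)))) (B12 (S 2 (L 8 4) (L 25 4)) (B02 (S 2 (L 8 4) (L 25 4)) (S 2 (L 8 4) (L 25
  4))))) (A13 (S 2 (L 8 4) (L 25 4)) (B12 (S 2 (L 8 4) (L 25 4)) (B02 (S 2 (L 8 4) (L 25 4)) (S 2
  (L 8 4) (L 25 4)))))) (A13 (A01 (B12 (S 2 (L 8 4) (L 25 4)) (B02 (S 2 (L 8 4) (L 25 4)) (A02 (A03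
  (S 2 (L 8 4) (L 25 4)) (P 19 (L 58 5))) (P 19 (L 58 5))))) (S 2 (L 8 4) (L 25 4))) (A23 (B12 (S 2
  (L 8 4) (L 25 4)) (B02 (S 2 (L 8 4) (L 25 4)) (A02 (M 5 (L 40 7)) (P 19 (L 58 5))))) (M 5 (L 40
  7)))))) (S 2 (L 8 4) (L 25 4)))) (A12 (A13 (S 2 (L 8 4) (L 25 4)) (B12 (A03 (S 2 (L 8 4) (L 25
  4)) (S 2 (L 8 4) (L 25 4))) (A03 (S 2 (L 8 4) (L 25 4)) (A23 (S 2 (L 8 4) (L 25 4)) (A13 (S 2 (L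
  8 4) (L 25 4)) (B02 (S 2 (L 8 4) (L 25 4)) (B12 (P 19 (L 58 5)) (M 5 (L 40 7))))))))) (A02 (B12
  (A03 (S 2 (L 8 4) (L 25 4)) (S 2 (L 8 4) (L 25 4))) (A03 (S 2 (L 8 4) (L 25 4)) (A13 (S 2 (L 8 4)
  (L 25 4)) (A23 (S 2 (L 8 4) (L 25 4)) (B02 (S 2 (L 8 4) (L 25 4)) (B12 (P 19 (L 58 5)) (M 5 (L 40
  7)))))))) (P 19 (B12 (A23 (B01 (A12 (S 2 (L 8 4) (L 25 4)) (A02 (S 2 (L 8 4) (L 25 4)) (B02 (A23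
  (M 2 (K [(25,4,4),(58,10,4)] [])) (S 2 (L 8 4) (L 25 4))) (M 2 (K [(25,4,4),(58,10,4)] []))))) (M
  12 (M 2 (K [(25,4,4),(18,6,1),(25,2,4)] [])))) (S 2 (L 8 4) (L 25 4))) (S 2 (L 8 4) (L 25
  4))))))))) (B01 (A13 (M 16 (P 13 (A12 (B02 (S 2 (L 8 4) (L 25 4)) (A01 (A03 (A02 (P 15 (L 45 1))
  (B12 (B01 (A12 (P 15 (L 45 1)) (B02 (M 5 (L 40 7)) (P 15 (L 45 1)))) (P 15 (L 45 1))) (B02 (A12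
  (P 15 (L 45 1)) (B01 (M 5 (L 40 7)) (P 15 (L 45 1)))) (P 15 (L 45 1))))) (A13 (B12 (B01 (A12 (P
  15 (L 45 1)) (B02 (M 5 (L 40 7)) (P 15 (L 45 1)))) (P 15 (L 45 1))) (B02 (A12 (P 15 (L 45 1))
  (B01 (M 5 (L 40 7)) (P 15 (L 45 1)))) (P 15 (L 45 1)))) (B12 (B01 (M 5 (L 40 7)) (P 15 (L 45 1)))
  (M 5 (L 40 7))))) (A13 (A12 (P 15 (L 45 1)) (B12 (P 19 (L 58 5)) (B02 (P 19 (L 58 5)) (P 15 (L 45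
  1))))) (A03 (B12 (P 19 (L 58 5)) (B02 (P 19 (L 58 5)) (P 15 (L 45 1)))) (B12 (B01 (M 5 (L 40 7))
  (P 15 (L 45 1))) (M 5 (L 40 7))))))) (B02 (S 2 (L 8 4) (L 25 4)) (A02 (A03 (A01 (B12 (B01 (A02 (P
  15 (L 45 1)) (B02 (M 5 (L 40 7)) (S 2 (L 8 4) (L 25 4)))) (S 2 (L 8 4) (L 25 4))) (B02 (A02 (P 15
  (L 45 1)) (B01 (M 5 (L 40 7)) (S 2 (L 8 4) (L 25 4)))) (S 2 (L 8 4) (L 25 4)))) (B12 (B01 (A12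
  (B02 (M 5 (L 40 7)) (P 15 (L 45 1))) (B02 (M 5 (L 40 7)) (S 2 (L 8 4) (L 25 4)))) (S 2 (L 8 4) (L
  25 4))) (B02 (A12 (B01 (M 5 (L 40 7)) (P 15 (L 45 1))) (B01 (M 5 (L 40 7)) (S 2 (L 8 4) (L 25
  4)))) (S 2 (L 8 4) (L 25 4))))) (A23 (B12 (B01 (M 5 (L 40 7)) (S 2 (L 8 4) (L 25 4))) (M 5 (L 40
  7))) (B12 (B01 (M 5 (L 40 7)) (P 15 (L 45 1))) (M 5 (L 40 7))))) (A23 (A12 (B12 (P 19 (L 58 5))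
  (M 5 (L 40 7))) (M 5 (L 40 7))) (A03 (B12 (P 19 (L 58 5)) (M 5 (L 40 7))) (B12 (B01 (M 5 (L 40
  7)) (A13 (P 19 (L 58 5)) (M 5 (L 40 7)))) (M 5 (L 40 7)))))))))) (A03 (M 16 (P 13 (B02 (A02 (B01
  (A01 (A03 (S 2 (L 8 4) (L 25 4)) (M 5 (L 40 7))) (M 5 (L 40 7))) (A01 (A03 (S 2 (L 8 4) (L 25 4))
  (B12 (A23 (S 2 (L 8 4) (L 25 4)) (B01 (M 5 (L 40 7)) (P 15 (L 45 1)))) (M 5 (L 40 7)))) (A12 (B12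
  (A13 (P 19 (L 58 5)) (B01 (M 5 (L 40 7)) (P 15 (L 45 1)))) (M 5 (L 40 7))) (B12 (A23 (S 2 (L 8 4)
  (L 25 4)) (B01 (M 5 (L 40 7)) (P 15 (L 45 1)))) (M 5 (L 40 7)))))) (M 5 (L 40 7))) (A02 (A01 (A03
  (B12 (B01 (A02 (P 15 (L 45 1)) (M 5 (L 40 7))) (S 2 (L 8 4) (L 25 4))) (B02 (A02 (P 15 (L 45 1))
  (M 5 (L 40 7))) (S 2 (L 8 4) (L 25 4)))) (B12 (B01 (M 5 (L 40 7)) (S 2 (L 8 4) (L 25 4))) (M 5 (L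
  40 7)))) (A12 (B12 (B01 (M 5 (L 40 7)) (P 15 (L 45 1))) (M 5 (L 40 7))) (B12 (B01 (M 5 (L 40 7))
  (S 2 (L 8 4) (L 25 4))) (M 5 (L 40 7))))) (M 5 (L 40 7)))))) (M 5 (B02 (A23 (P 13 (L 40 7)) (B01
  (S 13 (L 40 7) (L 13 5)) (A13 (P 13 (L 40 7)) (A03 (P 13 (L 40 7)) (B12 (P 13 (L 40 7)) (S 13 (L
  40 7) (L 13 5))))))) (A23 (P 13 (L 40 7)) (A13 (P 13 (L 40 7)) (A03 (P 13 (L 40 7)) (B12 (B01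
  (A23 (P 13 (L 40 7)) (P 10 (L 31 8))) (P 13 (L 40 7))) (B02 (A23 (P 13 (L 40 7)) (P 10 (L 31 8)))
  (P 10 (L 31 8))))))))))) (A13 (M 16 (P 13 (A12 (P 15 (L 45 1)) (B12 (A02 (S 2 (L 8 4) (L 25 4))
  (B01 (A23 (S 2 (L 8 4) (L 25 4)) (S 2 (L 8 4) (L 25 4))) (S 2 (L 8 4) (L 25 4)))) (A02 (S 2 (L 8
  4) (L 25 4)) (A23 (A12 (S 2 (L 8 4) (L 25 4)) (B02 (S 2 (L 8 4) (L 25 4)) (B12 (A02 (S 2 (L 8 4)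
  (L 25 4)) (M 5 (L 40 7))) (M 5 (L 40 7))))) (S 2 (L 8 4) (L 25 4)))))))) (A03 (M 16 (P 13 (B12
  (A02 (S 2 (L 8 4) (L 25 4)) (B01 (A12 (S 2 (L 8 4) (L 25 4)) (A23 (B02 (S 2 (L 8 4) (L 25 4)) (S
  2 (L 8 4) (L 25 4))) (S 2 (L 8 4) (L 25 4)))) (S 2 (L 8 4) (L 25 4)))) (A02 (S 2 (L 8 4) (L 25
  4)) (A12 (S 2 (L 8 4) (L 25 4)) (A23 (B02 (B01 (S 2 (L 8 4) (L 25 4)) (A02 (S 2 (L 8 4) (L 25 4))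
  (M 5 (L 40 7)))) (B12 (A02 (S 2 (L 8 4) (L 25 4)) (M 5 (L 40 7))) (M 5 (L 40 7)))) (S 2 (L 8 4)
  (L 25 4)))))))) (B12 (M 16 (P 13 (A23 (B01 (A12 (A13 (P 15 (L 45 1)) (M 5 (L 40 7))) (M 5 (L 40
  7))) (S 2 (L 8 4) (L 25 4))) (B01 (A13 (A12 (P 15 (L 45 1)) (M 5 (L 40 7))) (M 5 (L 40 7))) (S 2
  (L 8 4) (L 25 4)))))) (M 5 (A23 (P 13 (L 40 7)) (A13 (P 13 (L 40 7)) (A03 (P 13 (L 40 7)) (B02 (P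
  13 (L 40 7)) (M 19 (S 13 (L 41 5) (L 13 5))))))))))))) (A23 (M 16 (P 13 (A12 (A13 (B02 (B01 (M 5
  (L 40 7)) (A01 (B12 (A02 (A03 (P 15 (L 45 1)) (B01 (P 19 (L 58 5)) (A13 (P 15 (L 45 1)) (B12 (P
  15 (L 45 1)) (M 5 (L 40 7)))))) (A12 (B01 (P 19 (L 58 5)) (A13 (P 15 (L 45 1)) (P 19 (L 58 5))))
  (P 19 (L 58 5)))) (M 5 (L 40 7))) (B12 (A12 (A13 (P 15 (L 45 1)) (B01 (P 19 (L 58 5)) (A03 (P 15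
  (L 45 1)) (P 19 (L 58 5))))) (A02 (B01 (P 19 (L 58 5)) (A03 (P 15 (L 45 1)) (P 19 (L 58 5)))) (P
  19 (L 58 5)))) (M 5 (L 40 7))))) (B12 (A01 (B01 (M 5 (L 40 7)) (A02 (A03 (P 15 (L 45 1)) (B12
  (A13 (P 15 (L 45 1)) (B01 (M 5 (L 40 7)) (P 15 (L 45 1)))) (M 5 (L 40 7)))) (A12 (B12 (A13 (P 15
  (L 45 1)) (P 19 (L 58 5))) (M 5 (L 40 7))) (P 19 (L 58 5))))) (B01 (M 5 (L 40 7)) (A12 (A13 (P 15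
  (L 45 1)) (B12 (A03 (P 15 (L 45 1)) (P 19 (L 58 5))) (M 5 (L 40 7)))) (A02 (B12 (A03 (P 15 (L 45
  1)) (P 19 (L 58 5))) (M 5 (L 40 7))) (P 19 (L 58 5)))))) (S 10 (L 32 8) (L 2 8)))) (B02 (B01 (M 5
  (L 40 7)) (A03 (B12 (A02 (A01 (B01 (M 5 (L 40 7)) (A03 (P 15 (L 45 1)) (B12 (S 2 (L 8 4) (L 25
  4)) (M 5 (L 40 7))))) (B01 (M 5 (L 40 7)) (A13 (B12 (P 15 (L 45 1)) (M 5 (L 40 7))) (B12 (S 2 (L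
  8 4) (L 25 4)) (P 19 (L 58 5)))))) (A23 (P 19 (L 58 5)) (B01 (M 5 (L 40 7)) (A13 (P 19 (L 58 5))
  (B12 (S 2 (L 8 4) (L 25 4)) (M 5 (L 40 7))))))) (M 5 (L 40 7))) (B12 (A23 (A02 (M 5 (L 40 7)) (P
  19 (L 58 5))) (M 5 (L 40 7))) (M 5 (L 40 7))))) (B12 (A03 (B01 (M 5 (L 40 7)) (A02 (A01 (B12 (A03
  (P 15 (L 45 1)) (B01 (M 5 (L 40 7)) (S 2 (L 8 4) (L 25 4)))) (M 5 (L 40 7))) (B12 (A13 (B01 (M 5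
  (L 40 7)) (P 15 (L 45 1))) (B01 (M 5 (L 40 7)) (S 2 (L 8 4) (L 25 4)))) (M 5 (L 40 7)))) (A23 (P
  19 (L 58 5)) (B12 (A13 (P 19 (L 58 5)) (B01 (M 5 (L 40 7)) (S 2 (L 8 4) (L 25 4)))) (M 5 (L 40
  7)))))) (B01 (M 5 (L 40 7)) (A23 (A02 (M 5 (L 40 7)) (P 19 (L 58 5))) (M 5 (L 40 7))))) (M 5 (K
  [(40,7,5),(40,5,3)] []))))) (A02 (B02 (B01 (M 5 (L 40 7)) (A03 (B12 (A01 (A02 (B01 (M 5 (L 40 7))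
  (A03 (P 15 (L 45 1)) (B12 (S 2 (L 8 4) (L 25 4)) (M 5 (L 40 7))))) (B01 (M 5 (L 40 7)) (A23 (P 19
  (L 58 5)) (B12 (S 2 (L 8 4) (L 25 4)) (M 5 (L 40 7)))))) (A13 (S 2 (L 8 4) (L 25 4)) (B01 (M 5 (L
  40 7)) (A23 (P 19 (L 58 5)) (B12 (S 2 (L 8 4) (L 25 4)) (M 5 (L 40 7))))))) (M 5 (L 40 7))) (B12
  (A13 (A01 (M 5 (L 40 7)) (S 2 (L 8 4) (L 25 4))) (M 5 (L 40 7))) (M 5 (L 40 7))))) (B12 (A03 (B01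
  (M 5 (L 40 7)) (A01 (A02 (B12 (A03 (P 15 (L 45 1)) (B01 (M 5 (L 40 7)) (S 2 (L 8 4) (L 25 4))))
  (M 5 (L 40 7))) (B12 (A23 (P 19 (L 58 5)) (B01 (M 5 (L 40 7)) (S 2 (L 8 4) (L 25 4)))) (M 5 (L 40
  7)))) (A13 (P 19 (L 58 5)) (B12 (A23 (P 19 (L 58 5)) (B01 (M 5 (L 40 7)) (S 2 (L 8 4) (L 25 4))))
  (M 5 (L 40 7)))))) (B01 (M 5 (L 40 7)) (A13 (A01 (M 5 (L 40 7)) (P 19 (L 58 5))) (M 5 (L 40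
  7))))) (M 5 (K [(40,7,16),(40,5,8)] [])))) (B02 (S 2 (L 8 4) (L 25 4)) (B12 (S 2 (L 8 4) (L 25
  4)) (P 12 (K [(38,4,4),(38,10,4)] [])))))))) (A13 (A12 (B02 (P 13 (B01 (M 5 (L 40 7)) (A01 (B12
  (A03 (A02 (P 15 (L 45 1)) (B01 (A12 (P 15 (L 45 1)) (M 5 (L 40 7))) (A12 (P 15 (L 45 1)) (M 5 (L
  40 7))))) (A13 (B01 (A12 (P 15 (L 45 1)) (M 5 (L 40 7))) (A12 (P 15 (L 45 1)) (M 5 (L 40 7)))) (M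
  5 (L 40 7)))) (M 5 (L 40 7))) (B12 (A13 (A12 (P 15 (L 45 1)) (B01 (P 19 (L 58 5)) (A02 (P 15 (L
  45 1)) (M 5 (L 40 7))))) (A03 (B01 (A02 (P 15 (L 45 1)) (M 5 (L 40 7))) (A02 (P 15 (L 45 1)) (M 5
  (L 40 7)))) (M 5 (L 40 7)))) (M 5 (L 40 7)))))) (B12 (P 13 (A01 (B01 (M 5 (L 40 7)) (A03 (A02 (P
  15 (L 45 1)) (B12 (A12 (P 15 (L 45 1)) (M 5 (L 40 7))) (M 5 (L 40 7)))) (A13 (B12 (A12 (P 15 (L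
  45 1)) (M 5 (L 40 7))) (M 5 (L 40 7))) (M 5 (L 40 7))))) (B01 (M 5 (L 40 7)) (A13 (A12 (P 15 (L
  45 1)) (B12 (A02 (P 15 (L 45 1)) (M 5 (L 40 7))) (M 5 (L 40 7)))) (A03 (B12 (A02 (P 15 (L 45 1))
  (M 5 (L 40 7))) (M 5 (L 40 7))) (M 5 (L 40 7))))))) (M 5 (A01 (A03 (M 16 (S 10 (L 32 8) (L 2 8)))
  (A13 (P 13 (L 40 7)) (B02 (P 13 (L 40 7)) (B12 (P 13 (L 40 7)) (A23 (P 13 (L 40 7)) (P 10 (L 31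
  8))))))) (A13 (P 13 (L 40 7)) (A03 (P 13 (L 40 7)) (B02 (P 13 (L 40 7)) (B12 (P 13 (L 40 7)) (A23
  (P 13 (L 40 7)) (P 10 (L 31 8))))))))))) (M 5 (B02 (P 13 (L 40 7)) (B12 (P 13 (L 40 7)) (A02 (A03
  (M 16 (S 10 (L 32 8) (L 2 8))) (A23 (S 10 (L 31 8) (L 2 8)) (B02 (P 13 (L 40 7)) (B12 (P 13 (L 40
  7)) (A13 (P 13 (L 40 7)) (P 10 (L 31 8))))))) (A23 (S 10 (L 31 8) (L 2 8)) (A03 (S 10 (L 31 8) (L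
  2 8)) (B02 (P 13 (L 40 7)) (B12 (P 13 (L 40 7)) (P 12 (L 38 10))))))))))) (M 5 (P 2 (A03 (B02 (P
  13 (K [(40,7,6),(40,5,2)] [])) (B12 (M 16 (P 13 (A02 (S 10 (L 32 8) (L 2 8)) (K
  [(40,7,6),(40,5,2)] [])))) (A02 (A01 (A03 (M 16 (S 10 (L 32 8) (L 2 8))) (B02 (B01 (P 12 (L 38
  4)) (A23 (M 16 (S 10 (L 32 8) (L 2 8))) (S 12 (L 38 4) (L 7 4)))) (B12 (A23 (M 16 (S 10 (L 32 8)
  (L 2 8))) (S 12 (L 38 4) (L 7 4))) (A23 (A12 (S 12 (L 38 4) (L 18 4)) (P 12 (L 38 4))) (S 12 (L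
  38 4) (L 7 10)))))) (A12 (B02 (B01 (P 12 (L 38 10)) (S 12 (L 38 10) (L 18 10))) (S 12 (L 38 10)
  (L 18 10))) (B02 (B01 (P 12 (L 38 10)) (A23 (S 10 (L 31 8) (L 2 8)) (S 12 (L 38 10) (L 18 10))))
  (B12 (A23 (S 10 (L 31 8) (L 2 8)) (S 12 (L 38 10) (L 18 10))) (A23 (A02 (P 10 (L 31 8)) (P 12 (L
  38 10))) (S 12 (L 38 10) (L 7 10))))))) (A12 (A01 (P 12 (K [(38,10,5),(38,4,3)] [])) (B02 (B01 (P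
  12 (L 38 10)) (S 12 (L 38 10) (L 7 10))) (S 12 (L 38 10) (L 7 10)))) (P 12 (K
  [(38,4,4),(38,10,4)] [])))))) (B02 (B01 (P 12 (K [(38,10,4),(38,4,4)] [])) (A23 (P 13 (K
  [(40,7,7),(40,5,1)] [])) (B12 (A13 (P 13 (L 40 7)) (A03 (B01 (A02 (P 10 (L 31 8)) (S 10 (L 31 8)
  (L 2 8))) (M 19 (S 13 (L 41 5) (L 13 5)))) (B01 (S 10 (L 31 8) (L 2 8)) (P 10 (L 31 8))))) (S 10
  (L 31 8) (L 2 8))))) (B12 (A23 (B01 (A12 (A13 (M 16 (S 10 (L 32 8) (L 2 8))) (P 12 (K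
  [(38,10,4),(38,4,4)] []))) (P 12 (K [(38,4,4),(38,10,4)] []))) (A12 (A13 (M 16 (S 10 (L 32 8) (L
  2 8))) (B12 (P 13 (L 40 7)) (A03 (M 16 (S 10 (L 32 8) (L 2 8))) (S 10 (L 31 8) (L 2 8))))) (A02
  (B12 (P 13 (L 40 7)) (A03 (M 16 (S 10 (L 32 8) (L 2 8))) (P 12 (L 38 4)))) (B12 (P 13 (L 40 7))
  (P 12 (L 38 4)))))) (B01 (A13 (A12 (S 12 (L 38 10) (L 7 10)) (P 12 (K [(38,10,4),(38,4,4)] [])))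
  (P 12 (K [(38,10,4),(38,4,4)] []))) (M 19 (S 13 (L 41 5) (L 13 5))))) (A23 (A12 (A13 (B02 (B01 (P
  12 (L 38 10)) (S 12 (L 38 10) (L 7 10))) (S 12 (L 38 10) (L 7 10))) (P 12 (K [(38,10,4),(38,4,4)]
  []))) (P 12 (K [(38,10,4),(38,4,4)] []))) (A13 (A12 (S 12 (L 38 10) (L 7 10)) (S 13 (L 40 5) (L
  13 5))) (S 13 (L 40 5) (L 13 5)))))))))))))))))))))) (M 1 (A12 (M 18 (A13 (M 16 (P 13 (A01 (P 8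
  (B12 (P 19 (A02 (B01 (A03 (A01 (B02 (A02 (S 2 (L 8 4) (L 25 4)) (B01 (P 12 (L 38 10)) (S 2 (L 8
  4) (L 25 4)))) (S 2 (L 8 4) (L 25 4))) (B02 (A12 (S 2 (L 8 4) (L 25 4)) (B01 (P 12 (L 38 10)) (S
  2 (L 8 4) (L 25 4)))) (M 7 (L 58 5)))) (A23 (B02 (A12 (S 2 (L 8 4) (L 25 4)) (B01 (P 12 (L 38
  10)) (S 2 (L 8 4) (L 25 4)))) (M 7 (L 58 5))) (S 2 (L 8 4) (L 25 4)))) (M 7 (A03 (A01 (B12 (M 2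
  (K [(25,4,79),(58,5,34),(25,2,87)] [])) (S 2 (L 8 4) (L 25 4))) (L 58 5)) (M 2 (L 25 4))))) (B01
  (A23 (out 6) (A03 (B02 (A01 (B01 (P 12 (L 38 10)) (M 7 (L 58 5))) (M 7 (L 58 5))) (M 7 (L 58 5)))
  (S 2 (L 8 4) (L 25 4)))) (A23 (out 6) (M 2 (L 25 4)))))) (A02 (A03 (P 19 (A01 (B02 (B01 (S 2 (L 8
  4) (L 25 4)) (S 2 (L 8 4) (L 25 4))) (S 2 (L 8 4) (L 25 4))) (B02 (B01 (A12 (S 2 (L 8 4) (L 25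
  4)) (P 12 (L 38 10))) (M 7 (L 58 5))) (M 7 (L 58 5))))) (A23 (P 19 (B02 (B01 (A12 (S 2 (L 8 4) (L
  25 4)) (P 12 (L 38 10))) (M 7 (L 58 5))) (M 7 (L 58 5)))) (M 7 (B02 (S 2 (L 8 4) (L 25 4)) (B12
  (P 19 (L 58 5)) (A13 (P 19 (L 58 5)) (A03 (P 19 (L 58 5)) (A23 (P 19 (L 58 5)) (B02 (P 19 (L 58
  5)) (B12 (A13 (P 19 (L 58 5)) (M 5 (L 40 7))) (M 5 (L 40 7)))))))))))) (A23 (out 6) (A03 (P 19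
  (B02 (B01 (A01 (P 12 (L 38 10)) (M 7 (L 58 5))) (M 7 (L 58 5))) (M 7 (L 58 5)))) (M 7 (B02 (S 2
  (L 8 4) (L 25 4)) (B12 (P 19 (L 58 5)) (A13 (P 19 (L 58 5)) (A23 (P 19 (L 58 5)) (A03 (P 19 (L 58
  5)) (B02 (P 19 (L 58 5)) (B12 (A13 (P 19 (L 58 5)) (M 5 (L 40 7))) (M 5 (L 40 7)))))))))))))))
  (B12 (A12 (B01 (P 8 (S 2 (L 8 4) (L 25 4))) (P 15 (L 45 1))) (P 8 (B01 (A23 (out 6) (S 2 (L 8 4)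
  (L 25 4))) (A23 (out 6) (M 2 (L 25 4)))))) (P 8 (A12 (M 7 (A13 (out 6) (A23 (out 6) (B02 (S 2 (L
  8 4) (L 25 4)) (B12 (P 19 (L 58 5)) (A03 (out 10) (A13 (out 10) (A23 (P 19 (L 58 5)) (B02 (P 19
  (L 58 5)) (P 15 (L 45 1))))))))))) (A23 (out 6) (M 7 (A13 (out 6) (B02 (S 2 (L 8 4) (L 25 4))
  (B12 (P 19 (L 58 5)) (A03 (P 19 (L 58 5)) (A23 (P 19 (L 58 5)) (A13 (P 19 (L 58 5)) (B02 (P 19 (L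
  58 5)) (B12 (A03 (P 19 (L 58 5)) (M 5 (L 40 7))) (M 5 (L 40 7)))))))))))))))))) (P 8 (A23 (M 16
  (P 13 (B12 (P 19 (A02 (B01 (A01 (A03 (B02 (A02 (S 2 (L 8 4) (L 25 4)) (B01 (P 12 (L 38 10)) (S 2
  (L 8 4) (L 25 4)))) (S 2 (L 8 4) (L 25 4))) (B02 (A23 (B01 (P 12 (L 38 10)) (S 2 (L 8 4) (L 25
  4))) (S 2 (L 8 4) (L 25 4))) (M 7 (L 58 5)))) (A12 (S 2 (L 8 4) (L 25 4)) (B02 (A23 (B01 (P 12 (L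
  38 10)) (S 2 (L 8 4) (L 25 4))) (S 2 (L 8 4) (L 25 4))) (M 7 (L 58 5))))) (M 7 (A01 (A03 (B12
  (A02 (B01 (A01 (A03 (M 2 (K [(25,4,3),(58,5,2),(58,10,4)] [])) (S 2 (L 8 4) (L 25 4))) (S 2 (L 8
  4) (L 25 4))) (P 15 (M 2 (K [(25,4,4),(45,3,1),(25,2,4)] [])))) (L 58 5)) (S 2 (L 8 4) (L 25 4)))
  (L 58 5)) (L 58 5)))) (B01 (A12 (A01 (B02 (A03 (B01 (P 12 (L 38 10)) (M 7 (L 58 5))) (S 2 (L 8 4)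
  (L 25 4))) (M 7 (L 58 5))) (S 2 (L 8 4) (L 25 4))) (A23 (out 6) (B02 (P 12 (L 38 10)) (M 7 (L 58
  5))))) (A12 (M 7 (L 58 5)) (A23 (out 6) (M 7 (L 58 5))))))) (A02 (A01 (P 19 (A03 (B02 (B01 (M 5
  (L 40 7)) (S 2 (L 8 4) (L 25 4))) (S 2 (L 8 4) (L 25 4))) (B02 (B01 (M 5 (L 40 7)) (M 7 (L 58
  5))) (M 7 (L 58 5))))) (A12 (M 7 (B02 (S 2 (L 8 4) (L 25 4)) (B12 (P 19 (L 58 5)) (M 5 (L 40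
  7))))) (P 19 (B02 (B01 (M 5 (L 40 7)) (M 7 (L 58 5))) (M 7 (L 58 5)))))) (A12 (A01 (P 19 (B02
  (B01 (M 5 (L 40 7)) (M 7 (L 58 5))) (M 7 (L 58 5)))) (M 7 (B02 (S 2 (L 8 4) (L 25 4)) (B12 (P 19
  (L 58 5)) (M 5 (L 40 7)))))) (P 19 (A23 (out 6) (B02 (B01 (M 5 (L 40 7)) (M 7 (L 58 5))) (M 7 (L
  58 5)))))))))) (M 7 (P 0 (B12 (A03 (P 19 (M 16 (B01 (S 2 (L 8 4) (L 25 4)) (A01 (A02 (B12 (A03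
  (B01 (A01 (A02 (B02 (A03 (M 2 (K [(25,4,4),(58,10,4)] [])) (S 2 (L 8 4) (L 25 4))) (M 2 (K
  [(25,4,4),(58,10,4)] []))) (S 2 (L 8 4) (L 25 4))) (S 2 (L 8 4) (L 25 4))) (P 15 (M 2 (K
  [(25,4,4),(45,3,1),(25,2,4)] [])))) (S 2 (L 8 4) (L 25 4))) (S 2 (L 8 4) (L 25 4))) (S 2 (L 8 4)
  (L 25 4))) (S 2 (L 8 4) (L 25 4)))))) (B01 (A13 (M 16 (P 13 (A01 (B02 (S 2 (L 8 4) (L 25 4)) (A02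
  (A03 (A01 (M 5 (L 40 7)) (B12 (P 19 (L 58 5)) (M 5 (L 40 7)))) (A23 (B12 (P 19 (L 58 5)) (M 5 (L
  40 7))) (B12 (B01 (M 5 (L 40 7)) (A13 (P 19 (L 58 5)) (M 5 (L 40 7)))) (M 5 (L 40 7))))) (A23 (P
  19 (L 58 5)) (A03 (P 19 (L 58 5)) (B12 (B01 (M 5 (L 40 7)) (A13 (P 19 (L 58 5)) (M 5 (L 40 7))))
  (M 5 (L 40 7))))))) (B02 (S 2 (L 8 4) (L 25 4)) (A12 (A13 (A01 (B12 (P 19 (L 58 5)) (B02 (P 19 (L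
  58 5)) (P 15 (L 45 1)))) (B12 (P 19 (L 58 5)) (B02 (P 19 (L 58 5)) (P 15 (L 45 1))))) (A23 (B12
  (P 19 (L 58 5)) (M 5 (L 40 7))) (B12 (B01 (M 5 (L 40 7)) (P 15 (L 45 1))) (M 5 (L 40 7))))) (A23
  (P 19 (L 58 5)) (A13 (P 19 (L 58 5)) (B12 (B01 (M 5 (L 40 7)) (A03 (P 19 (L 58 5)) (M 5 (L 40
  7)))) (M 5 (L 40 7)))))))))) (M 5 (A23 (P 13 (L 40 7)) (B02 (A03 (P 13 (L 40 7)) (B01 (S 13 (L 40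
  7) (L 13 7)) (A13 (P 13 (L 40 7)) (A23 (P 13 (L 40 7)) (B12 (P 13 (L 40 7)) (S 13 (L 40 7) (L 13
  5))))))) (A03 (P 13 (L 40 7)) (A13 (P 13 (L 40 7)) (A23 (P 13 (L 40 7)) (B12 (B01 (A03 (P 13 (L
  40 7)) (P 10 (L 31 8))) (P 13 (L 40 7))) (B02 (A03 (P 13 (L 40 7)) (P 10 (L 31 8))) (P 10 (L 31
  8))))))))))) (A13 (M 16 (P 13 (A01 (B12 (A02 (B01 (A03 (S 2 (L 8 4) (L 25 4)) (A23 (P 19 (L 58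
  5)) (P 15 (L 45 1)))) (S 2 (L 8 4) (L 25 4))) (B01 (A23 (P 19 (L 58 5)) (A03 (P 19 (L 58 5)) (B02
  (P 19 (L 58 5)) (P 15 (L 45 1))))) (S 2 (L 8 4) (L 25 4)))) (A02 (A03 (A01 (M 5 (L 40 7)) (B02 (P
  19 (L 58 5)) (B12 (A12 (S 2 (L 8 4) (L 25 4)) (M 5 (L 40 7))) (M 5 (L 40 7))))) (A23 (B02 (P 19
  (L 58 5)) (B12 (A12 (P 15 (L 45 1)) (M 5 (L 40 7))) (M 5 (L 40 7)))) (P 15 (L 45 1)))) (A23 (P 19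
  (L 58 5)) (A03 (P 19 (L 58 5)) (B02 (B01 (A13 (P 19 (L 58 5)) (M 5 (L 40 7))) (P 15 (L 45 1))) (P
  15 (L 45 1))))))) (B12 (A12 (P 15 (L 45 1)) (B01 (A23 (P 19 (L 58 5)) (A13 (P 19 (L 58 5)) (B02
  (P 19 (L 58 5)) (P 15 (L 45 1))))) (S 2 (L 8 4) (L 25 4)))) (A12 (P 15 (L 45 1)) (A23 (P 19 (L 58
  5)) (A13 (P 19 (L 58 5)) (B02 (B01 (A03 (P 19 (L 58 5)) (A23 (P 19 (L 58 5)) (P 15 (L 45 1)))) (P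
  15 (L 45 1))) (P 15 (L 45 1)))))))))) (A23 (M 16 (P 13 (B12 (A02 (B01 (A01 (M 5 (L 40 7)) (A12
  (B02 (P 19 (L 58 5)) (A13 (P 15 (L 45 1)) (M 5 (L 40 7)))) (M 5 (L 40 7)))) (S 2 (L 8 4) (L 25
  4))) (B01 (A12 (A01 (P 19 (L 58 5)) (B02 (P 19 (L 58 5)) (A13 (P 15 (L 45 1)) (A23 (P 15 (L 45
  1)) (M 5 (L 40 7)))))) (P 19 (L 58 5))) (S 2 (L 8 4) (L 25 4)))) (M 5 (L 40 7))))) (B12 (M 16 (P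
  13 (A03 (B01 (A01 (M 5 (L 40 7)) (A13 (B02 (A12 (P 15 (L 45 1)) (M 5 (L 40 7))) (A12 (P 15 (L 45
  1)) (M 5 (L 40 7)))) (M 5 (L 40 7)))) (S 2 (L 8 4) (L 25 4))) (B01 (A13 (A01 (M 5 (L 40 7)) (B02
  (A12 (P 15 (L 45 1)) (M 5 (L 40 7))) (A12 (P 15 (L 45 1)) (M 5 (L 40 7))))) (M 5 (L 40 7))) (S 2
  (L 8 4) (L 25 4)))))) (M 5 (A03 (P 13 (L 40 7)) (A13 (P 13 (L 40 7)) (A23 (P 13 (L 40 7)) (B02 (P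
  13 (L 40 7)) (P 10 (L 31 8)))))))))))) (A03 (M 16 (P 13 (A01 (P 19 (A02 (B02 (S 2 (L 8 4) (L 25
  4)) (B12 (S 2 (L 8 4) (L 25 4)) (P 12 (M 5 (K [(40,7,1),(38,10,4),(38,4,3)] []))))) (B02 (S 2 (L
  8 4) (L 25 4)) (L 58 5)))) (A13 (B02 (S 2 (L 8 4) (L 25 4)) (B12 (A12 (B01 (M 5 (L 40 7)) (A01 (P
  19 (L 58 5)) (A13 (B12 (P 19 (L 58 5)) (A12 (P 15 (L 45 1)) (M 5 (L 40 7)))) (B12 (P 19 (L 58 5))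
  (M 5 (L 40 7)))))) (P 19 (L 58 5))) (M 5 (L 40 7)))) (B02 (S 2 (L 8 4) (L 25 4)) (B12 (P 19 (L 58
  5)) (S 10 (L 31 8) (L 2 8)))))))) (A13 (A01 (M 5 (B02 (P 13 (L 40 7)) (B12 (P 13 (L 40 7)) (A02
  (A03 (S 10 (L 31 8) (L 2 8)) (A23 (P 12 (L 38 10)) (B02 (P 13 (L 40 7)) (B12 (P 13 (L 40 7)) (P
  12 (L 38 10)))))) (A23 (P 12 (L 38 10)) (A03 (P 12 (L 38 10)) (B02 (P 13 (L 40 7)) (B12 (P 13 (L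
  40 7)) (P 12 (L 38 10)))))))))) (B02 (P 13 (B01 (M 5 (L 40 7)) (A12 (B12 (A13 (A01 (M 5 (L 40 7))
  (B01 (P 19 (L 58 5)) (A12 (P 15 (L 45 1)) (B12 (P 15 (L 45 1)) (M 5 (L 40 7)))))) (M 5 (L 40 7)))
  (M 5 (L 40 7))) (M 5 (L 40 7))))) (B12 (P 13 (A12 (B01 (M 5 (L 40 7)) (A13 (A01 (M 5 (L 40 7))
  (B12 (A12 (P 15 (L 45 1)) (B01 (M 5 (L 40 7)) (P 15 (L 45 1)))) (A12 (P 15 (L 45 1)) (M 5 (L 40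
  7))))) (M 5 (L 40 7)))) (M 5 (L 40 7)))) (M 5 (A12 (A13 (P 13 (L 40 7)) (A23 (P 13 (L 40 7)) (B02
  (P 13 (L 40 7)) (B12 (P 13 (L 40 7)) (A03 (P 13 (L 40 7)) (P 10 (L 31 8))))))) (A23 (P 12 (L 38
  10)) (A13 (B02 (P 13 (L 40 7)) (B12 (P 13 (L 40 7)) (P 12 (L 38 10)))) (B02 (P 13 (L 40 7)) (B12
  (P 13 (L 40 7)) (P 12 (L 38 10))))))))))) (M 5 (A23 (B02 (P 13 (L 40 7)) (B12 (P 13 (L 40 7))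
  (A02 (A01 (S 10 (L 31 8) (L 2 8)) (A12 (B02 (B01 (P 12 (L 38 10)) (A13 (B12 (P 13 (L 40 7)) (P 12
  (L 38 10))) (P 12 (L 38 10)))) (P 10 (L 31 8))) (P 12 (L 38 10)))) (A12 (A01 (P 12 (L 38 10))
  (B02 (B01 (P 12 (L 38 10)) (A13 (B12 (P 13 (L 40 7)) (P 12 (L 38 10))) (P 12 (L 38 10)))) (P 10
  (L 31 8)))) (P 12 (L 38 10)))))) (B02 (B01 (P 12 (K [(38,10,13),(38,4,11)] [])) (A03 (P 13 (K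
  [(40,7,7),(40,5,1)] [])) (B12 (A13 (P 13 (L 40 7)) (A23 (B01 (S 10 (L 31 8) (L 2 8)) (A02 (P 10
  (L 31 8)) (B12 (P 13 (L 40 7)) (P 12 (L 38 10))))) (B01 (S 10 (L 31 8) (L 2 8)) (P 10 (L 31
  8))))) (S 10 (L 31 8) (L 2 8))))) (B12 (A03 (B01 (A01 (S 10 (L 31 8) (L 2 8)) (A13 (P 13 (L 40
  7)) (S 10 (L 31 8) (L 2 8)))) (A01 (A02 (B12 (P 13 (L 40 7)) (S 10 (L 31 8) (L 2 8))) (B12 (P 13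
  (L 40 7)) (S 10 (L 31 8) (L 2 8)))) (A13 (P 13 (L 40 7)) (B12 (P 13 (L 40 7)) (S 10 (L 31 8) (L 2
  8)))))) (B01 (A13 (A01 (S 10 (L 31 8) (L 2 8)) (P 10 (L 31 8))) (S 10 (L 31 8) (L 2 8))) (P 10 (L
  31 8)))) (A03 (A01 (S 10 (L 31 8) (L 2 8)) (A13 (B02 (B01 (P 12 (L 38 10)) (P 10 (L 31 8))) (P 10
  (L 31 8))) (S 10 (L 31 8) (L 2 8)))) (A13 (A01 (S 10 (L 31 8) (L 2 8)) (P 10 (L 31 8))) (S 10 (L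
  31 8) (L 2 8))))))))))))))))) (P 8 (A23 (P 19 (M 10 (A02 (B12 (M 16 (P 13 (A01 (B01 (A03 (A02
  (B02 (A01 (B01 (S 2 (L 8 4) (L 25 4)) (A03 (A02 (S 2 (L 8 4) (L 25 4)) (S 2 (L 8 4) (L 25 4))) (S
  2 (L 8 4) (L 25 4)))) (S 2 (L 8 4) (L 25 4))) (S 2 (L 8 4) (L 25 4))) (B02 (A12 (B01 (M 5 (L 40
  7)) (S 2 (L 8 4) (L 25 4))) (B01 (M 5 (L 40 7)) (A23 (out 4) (S 2 (L 8 4) (L 25 4))))) (S 0 (L 2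
  8) (L 24 8)))) (P 12 (A13 (B02 (A12 (B01 (M 5 (L 40 7)) (M 18 (L 38 10))) (M 5 (L 40 7))) (M 18
  (L 38 10))) (M 5 (L 40 7))))) (P 9 (A03 (A02 (M 7 (B12 (A01 (B01 (A03 (M 2 (K
  [(25,4,1),(58,5,4),(58,10,4)] [])) (S 2 (L 8 4) (L 25 4))) (K [(58,5,5),(58,10,3)] [])) (L 58 5))
  (S 2 (L 8 4) (L 25 4)))) (B12 (A12 (M 7 (L 58 5)) (B01 (S 0 (L 2 8) (L 24 8)) (A23 (out 4) (M 7
  (L 58 5))))) (A12 (M 7 (L 58 5)) (S 0 (L 2 8) (L 24 8))))) (A13 (B12 (A12 (M 7 (L 58 5)) (B01 (S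
  0 (L 2 8) (L 24 8)) (A02 (M 7 (L 58 5)) (S 0 (L 2 8) (L 27 8))))) (A12 (M 7 (L 58 5)) (S 0 (L 2
  8) (L 24 8)))) (B12 (A23 (B01 (M 5 (L 40 7)) (A02 (M 7 (L 58 5)) (S 0 (L 2 8) (L 27 8)))) (M 7 (L
  58 5))) (M 5 (L 40 7))))))) (B01 (P 12 (A13 (out 6) (A03 (B02 (A02 (B01 (M 5 (L 40 7)) (M 18 (L
  38 10))) (M 5 (L 40 7))) (M 18 (L 38 10))) (M 5 (L 40 7))))) (A13 (out 6) (A03 (B12 (A02 (M 7 (L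
  58 5)) (S 0 (L 2 8) (L 24 8))) (A02 (M 7 (L 58 5)) (S 0 (L 2 8) (L 24 8)))) (S 0 (L 2 8) (L 24
  8)))))))) (P 12 (A01 (A03 (M 16 (P 13 (A02 (S 2 (L 8 4) (L 25 4)) (B02 (B01 (M 5 (L 40 7)) (A12
  (M 7 (L 58 5)) (M 5 (L 40 7)))) (M 7 (L 58 5)))))) (A13 (P 13 (B02 (B01 (M 5 (L 40 7)) (A12 (M 18
  (L 38 10)) (M 5 (L 40 7)))) (M 7 (L 58 5)))) (M 5 (B02 (B01 (A23 (P 13 (L 40 7)) (A03 (P 13 (L 40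
  7)) (A13 (P 13 (L 40 7)) (B02 (P 13 (L 40 7)) (M 7 (L 58 5)))))) (A23 (P 13 (L 40 7)) (M 7 (L 58
  5)))) (M 7 (L 58 5)))))) (A13 (out 6) (A03 (P 13 (B02 (B01 (M 5 (L 40 7)) (A02 (M 18 (L 38 10))
  (M 5 (L 40 7)))) (M 7 (L 58 5)))) (M 5 (B02 (B01 (A23 (P 13 (L 40 7)) (A13 (P 13 (L 40 7)) (A03
  (P 13 (L 40 7)) (B02 (P 13 (L 40 7)) (M 7 (L 58 5)))))) (A23 (P 13 (L 40 7)) (M 7 (L 58 5)))) (M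
  7 (L 58 5))))))))) (B12 (P 13 (A12 (B01 (A13 (out 6) (M 5 (L 40 7))) (A13 (out 6) (S 0 (L 2 8) (L
  24 8)))) (B01 (M 5 (L 40 7)) (A23 (out 4) (A13 (out 4) (B12 (A03 (out 4) (M 5 (L 40 7))) (M 5 (L
  40 7)))))))) (M 5 (A12 (A13 (out 6) (A23 (out 6) (B02 (B01 (A03 (P 13 (L 40 7)) (A13 (P 13 (L 40
  7)) (A23 (P 13 (L 40 7)) (B02 (P 13 (L 40 7)) (M 7 (L 58 5)))))) (A03 (P 13 (L 40 7)) (M 7 (L 58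
  5)))) (M 7 (L 58 5))))) (A23 (out 4) (A13 (out 4) (B02 (B01 (A03 (out 4) (A23 (out 4) (A13 (B02
  (P 13 (L 40 7)) (M 7 (L 58 5))) (B02 (P 13 (L 40 7)) (M 7 (L 58 5)))))) (A03 (out 4) (M 7 (L 58
  5)))) (M 7 (L 58 5))))))))))) (A13 (P 19 (B12 (M 16 (P 13 (A01 (B01 (A02 (M 18 (A03 (B02 (A01 (S
  2 (L 8 4) (L 25 4)) (S 2 (L 8 4) (L 25 4))) (S 2 (L 8 4) (L 25 4))) (P 12 (L 38 10)))) (P 12 (A12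
  (M 18 (L 38 10)) (M 5 (L 40 7))))) (M 7 (A02 (A03 (B12 (A01 (B01 (A02 (A03 (M 2 (K
  [(25,4,1),(58,5,3),(58,10,4)] [])) (S 2 (L 8 4) (L 25 4))) (S 2 (L 8 4) (L 25 4))) (K
  [(58,5,135),(58,10,65)] [])) (L 58 5)) (S 2 (L 8 4) (L 25 4))) (L 58 5)) (L 58 5)))) (B01 (P 12
  (A12 (M 18 (L 38 10)) (A02 (M 18 (L 38 10)) (M 5 (L 40 7))))) (A12 (A13 (out 6) (M 7 (L 58 5)))
  (M 7 (L 58 5))))))) (M 15 (P 12 (A01 (A02 (M 16 (S 2 (L 8 4) (L 25 4))) (A12 (M 18 (L 38 10)) (S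
  9 (L 29 1) (L 12 1)))) (A12 (M 18 (L 38 10)) (A02 (M 18 (L 38 10)) (S 9 (L 29 1) (L 12 1)))))))))
  (M 7 (P 0 (B12 (A03 (P 19 (M 16 (P 13 (B01 (A02 (S 2 (L 8 4) (L 25 4)) (M 5 (L 40 7))) (A02 (A01
  (B12 (A03 (B01 (A02 (A01 (K [(58,10,110),(58,5,90)] []) (S 2 (L 8 4) (L 25 4))) (S 2 (L 8 4) (L
  25 4))) (A02 (M 2 (K [(25,4,3),(25,2,5)] [])) (S 2 (L 8 4) (L 25 4)))) (S 2 (L 8 4) (L 25 4))) (S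
  2 (L 8 4) (L 25 4))) (S 2 (L 8 4) (L 25 4))) (S 2 (L 8 4) (L 25 4))))))) (B01 (M 5 (A23 (P 13 (L
  40 7)) (S 13 (L 40 7) (L 13 7)))) (A23 (M 16 (P 13 (A02 (B12 (S 2 (L 8 4) (L 25 4)) (M 5 (L 40
  7))) (B12 (P 19 (L 58 5)) (M 5 (L 40 7)))))) (A13 (M 16 (P 13 (B12 (S 2 (L 8 4) (L 25 4)) (M 5 (L
  40 7))))) (B12 (P 13 (A03 (B01 (M 5 (L 40 7)) (A02 (A01 (B12 (A03 (P 19 (L 58 5)) (M 5 (L 40 7)))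
  (M 5 (L 40 7))) (M 5 (L 40 7))) (M 5 (L 40 7)))) (M 5 (L 40 7)))) (M 5 (A03 (P 13 (L 40 7)) (A23
  (P 13 (L 40 7)) (A13 (P 13 (L 40 7)) (B02 (P 13 (L 40 7)) (P 10 (L 31 8)))))))))))) (M 15 (P 12
  (M 5 (A03 (P 19 (A02 (M 18 (P 13 (K [(40,7,5),(38,10,11),(58,5,1),(38,4,7)] []))) (A23 (S 9 (L 29
  1) (L 12 1)) (M 18 (S 13 (K [(40,7,5),(38,10,11),(58,5,1),(38,4,7)] []) (K
  [(13,5,3),(38,10,4),(58,5,1)] [])))))) (A23 (A02 (B02 (S 13 (L 40 7) (L 13 7)) (S 10 (L 31 8) (L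
  2 8))) (B02 (B01 (S 9 (L 29 1) (L 12 1)) (M 18 (L 38 10))) (M 18 (L 38 10)))) (M 18 (A13 (B02 (S
  13 (L 40 7) (L 13 7)) (S 10 (L 31 8) (L 2 8))) (B02 (B01 (K [(38,10,5),(38,4,3)] []) (A03 (B12 (P
  13 (L 40 7)) (K [(38,10,5),(38,4,3)] [])) (S 10 (L 31 8) (L 2 8)))) (S 10 (L 31 8) (L 2
  8)))))))))))))))))))) (A13 (P 6 (P 4 (M 1 (A12 (M 18 (A01 (P 8 (A02 (M 7 (P 0 (B12 (A03 (B01 (A01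
  (M 5 (A02 (B02 (A03 (B01 (P 12 (L 38 10)) (A01 (A02 (B12 (P 13 (L 40 7)) (P 12 (L 38 10))) (P 13
  (L 40 7))) (P 13 (L 40 7)))) (B01 (P 12 (L 38 10)) (P 13 (L 40 7)))) (A03 (A01 (A02 (B12 (B01 (P
  10 (L 31 8)) (P 13 (L 40 7))) (P 10 (L 31 8))) (P 13 (L 40 7))) (P 13 (L 40 7))) (P 13 (L 40
  7)))) (B02 (A23 (P 13 (L 40 7)) (B01 (P 12 (L 38 10)) (P 13 (L 40 7)))) (P 13 (L 40 7))))) (A13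
  (M 16 (P 13 (B02 (S 2 (L 8 4) (L 25 4)) (A12 (A01 (A02 (B12 (B01 (M 5 (L 40 7)) (P 15 (L 45 1)))
  (M 5 (L 40 7))) (B12 (P 19 (L 58 5)) (M 5 (L 40 7)))) (A13 (B12 (P 19 (L 58 5)) (B02 (P 19 (L 58
  5)) (P 15 (L 45 1)))) (B12 (P 19 (L 58 5)) (B02 (P 19 (L 58 5)) (P 15 (L 45 1)))))) (A02 (A01 (M
  5 (L 40 7)) (B12 (P 19 (L 58 5)) (M 5 (L 40 7)))) (A23 (P 19 (L 58 5)) (B12 (P 19 (L 58 5)) (M 5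
  (L 40 7))))))))) (M 5 (B02 (A23 (P 13 (L 40 7)) (B01 (P 12 (L 38 10)) (P 13 (L 40 7)))) (P 13 (L
  40 7)))))) (A01 (A02 (B12 (P 13 (A03 (B01 (A01 (M 5 (L 40 7)) (A13 (B02 (A12 (P 15 (L 45 1)) (M 5
  (L 40 7))) (A12 (P 15 (L 45 1)) (M 5 (L 40 7)))) (M 5 (L 40 7)))) (P 15 (L 45 1))) (B01 (A13 (A01
  (M 5 (L 40 7)) (B02 (A12 (P 15 (L 45 1)) (M 5 (L 40 7))) (A12 (P 15 (L 45 1)) (M 5 (L 40 7)))))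
  (M 5 (L 40 7))) (P 15 (L 45 1))))) (M 5 (A03 (A01 (A02 (B02 (P 13 (L 40 7)) (P 10 (L 31 8))) (P
  13 (L 40 7))) (P 13 (L 40 7))) (P 13 (L 40 7))))) (P 13 (B12 (A23 (B01 (A12 (A13 (B02 (P 19 (L 58
  5)) (A01 (A02 (M 5 (L 40 7)) (P 15 (L 45 1))) (P 15 (L 45 1)))) (P 19 (L 58 5))) (P 19 (L 58 5)))
  (P 15 (L 45 1))) (B01 (A13 (A12 (B02 (A01 (M 5 (L 40 7)) (P 15 (L 45 1))) (A01 (M 5 (L 40 7)) (P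
  15 (L 45 1)))) (M 5 (L 40 7))) (M 5 (L 40 7))) (P 15 (L 45 1)))) (M 5 (L 40 7))))) (P 13 (A13
  (B12 (A12 (P 15 (L 45 1)) (B01 (A02 (A01 (B02 (P 19 (L 58 5)) (P 15 (L 45 1))) (P 19 (L 58 5)))
  (P 19 (L 58 5))) (P 15 (L 45 1)))) (A12 (P 15 (L 45 1)) (A02 (A01 (B02 (B01 (A03 (A02 (P 15 (L 45
  1)) (P 19 (L 58 5))) (P 19 (L 58 5))) (P 15 (L 45 1))) (P 15 (L 45 1))) (B02 (P 19 (L 58 5)) (P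
  15 (L 45 1)))) (A23 (P 19 (L 58 5)) (B02 (P 19 (L 58 5)) (P 15 (L 45 1))))))) (B12 (A23 (B01 (A02
  (A03 (B02 (P 19 (L 58 5)) (P 15 (L 45 1))) (P 19 (L 58 5))) (P 19 (L 58 5))) (P 15 (L 45 1)))
  (B01 (A03 (A02 (P 15 (L 45 1)) (B02 (A12 (B01 (M 5 (L 40 7)) (P 15 (L 45 1))) (M 5 (L 40 7)))
  (A12 (P 15 (L 45 1)) (M 5 (L 40 7))))) (A13 (B02 (A12 (B01 (M 5 (L 40 7)) (P 15 (L 45 1))) (M 5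
  (L 40 7))) (A12 (P 15 (L 45 1)) (M 5 (L 40 7)))) (M 5 (L 40 7)))) (P 15 (L 45 1)))) (A23 (A02
  (A03 (B02 (B01 (M 5 (L 40 7)) (P 15 (L 45 1))) (P 15 (L 45 1))) (B02 (P 19 (L 58 5)) (B12 (A13 (P
  15 (L 45 1)) (M 5 (L 40 7))) (M 5 (L 40 7))))) (A12 (B02 (P 19 (L 58 5)) (B12 (P 19 (L 58 5)) (M
  5 (L 40 7)))) (M 5 (L 40 7)))) (A03 (A02 (P 15 (L 45 1)) (B02 (B01 (M 5 (L 40 7)) (A12 (P 15 (L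
  45 1)) (M 5 (L 40 7)))) (B12 (A12 (P 15 (L 45 1)) (M 5 (L 40 7))) (M 5 (L 40 7))))) (A13 (B02
  (B01 (M 5 (L 40 7)) (A12 (P 15 (L 45 1)) (M 5 (L 40 7)))) (B12 (A12 (P 15 (L 45 1)) (M 5 (L 40
  7))) (M 5 (L 40 7)))) (M 5 (L 40 7)))))))))) (B01 (A13 (A01 (M 5 (B02 (A02 (B01 (P 12 (L 38 10))
  (P 13 (L 40 7))) (P 13 (L 40 7))) (P 13 (L 40 7)))) (M 16 (P 13 (B02 (S 2 (L 8 4) (L 25 4)) (A12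
  (A13 (A01 (B12 (P 19 (L 58 5)) (B02 (P 19 (L 58 5)) (P 15 (L 45 1)))) (P 19 (L 58 5))) (A23 (B12
  (P 19 (L 58 5)) (B02 (P 19 (L 58 5)) (P 15 (L 45 1)))) (B12 (S 2 (L 8 4) (L 25 4)) (B02 (P 19 (L
  58 5)) (P 15 (L 45 1)))))) (A23 (A02 (B12 (P 19 (L 58 5)) (M 5 (L 40 7))) (P 19 (L 58 5))) (A13
  (B12 (P 19 (L 58 5)) (M 5 (L 40 7))) (M 5 (L 40 7))))))))) (M 5 (A23 (B02 (A02 (B01 (P 12 (L 38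
  10)) (P 13 (L 40 7))) (P 13 (L 40 7))) (P 13 (L 40 7))) (B02 (A03 (B01 (P 12 (L 38 10)) (P 13 (L
  40 7))) (B01 (P 12 (L 38 10)) (P 13 (L 40 7)))) (P 13 (L 40 7)))))) (M 16 (P 13 (A13 (A01 (B12
  (A02 (B01 (A03 (A01 (M 5 (L 40 7)) (B02 (P 19 (L 58 5)) (A12 (P 15 (L 45 1)) (M 5 (L 40 7))))) (S
  2 (L 8 4) (L 25 4))) (P 15 (L 45 1))) (S 2 (L 8 4) (L 25 4))) (A02 (A03 (A01 (M 5 (L 40 7)) (B02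
  (B01 (M 5 (L 40 7)) (A12 (P 15 (L 45 1)) (M 5 (L 40 7)))) (B12 (A12 (P 15 (L 45 1)) (M 5 (L 40
  7))) (M 5 (L 40 7))))) (A23 (B02 (P 19 (L 58 5)) (B12 (A12 (P 15 (L 45 1)) (M 5 (L 40 7))) (M 5
  (L 40 7)))) (B02 (S 2 (L 8 4) (L 25 4)) (P 15 (L 45 1))))) (A23 (A12 (B02 (P 19 (L 58 5)) (B12 (P
  19 (L 58 5)) (M 5 (L 40 7)))) (M 5 (L 40 7))) (A03 (B02 (P 19 (L 58 5)) (B12 (P 19 (L 58 5)) (M 5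
  (L 40 7)))) (B02 (S 2 (L 8 4) (L 25 4)) (B12 (P 19 (L 58 5)) (M 5 (L 40 7)))))))) (B12 (S 2 (L 8
  4) (L 25 4)) (A12 (P 15 (L 45 1)) (A23 (A02 (B02 (P 19 (L 58 5)) (B12 (P 19 (L 58 5)) (A01 (M 5
  (L 40 7)) (P 19 (L 58 5))))) (P 19 (L 58 5))) (A13 (B02 (P 19 (L 58 5)) (B12 (P 19 (L 58 5)) (A01
  (M 5 (L 40 7)) (P 19 (L 58 5))))) (B02 (S 2 (L 8 4) (L 25 4)) (B12 (P 19 (L 58 5)) (M 5 (L 40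
  7))))))))) (A23 (B12 (A02 (B01 (A01 (M 5 (L 40 7)) (S 2 (L 8 4) (L 25 4))) (A01 (A03 (P 15 (L 45
  1)) (S 2 (L 8 4) (L 25 4))) (S 2 (L 8 4) (L 25 4)))) (S 2 (L 8 4) (L 25 4))) (A02 (A01 (M 5 (L 40
  7)) (A12 (B02 (S 2 (L 8 4) (L 25 4)) (B12 (A13 (B01 (M 5 (L 40 7)) (P 15 (L 45 1))) (M 5 (L 40
  7))) (M 5 (L 40 7)))) (M 5 (L 40 7)))) (A12 (A01 (M 5 (L 40 7)) (S 2 (L 8 4) (L 25 4))) (M 5 (L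
  40 7))))) (B12 (A03 (B01 (A01 (M 5 (L 40 7)) (A13 (S 2 (L 8 4) (L 25 4)) (M 5 (L 40 7)))) (A01
  (A02 (P 15 (L 45 1)) (B12 (P 19 (L 58 11)) (M 5 (L 40 7)))) (A13 (S 2 (L 8 4) (L 25 4)) (B12 (P
  19 (L 58 11)) (M 5 (L 40 7)))))) (B01 (A13 (A01 (M 5 (L 40 7)) (S 2 (L 8 4) (L 25 4))) (M 5 (L 40
  7))) (A13 (A01 (B12 (P 19 (L 58 11)) (M 5 (L 40 7))) (S 12 (L 38 10) (L 18 10))) (A23 (B12 (P 19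
  (L 58 11)) (M 5 (L 40 7))) (B12 (P 19 (L 58 11)) (S 10 (L 32 8) (L 2 2))))))) (A03 (A01 (M 5 (L
  40 7)) (A13 (B02 (S 2 (L 8 4) (L 25 4)) (B12 (A12 (B01 (M 5 (L 40 7)) (P 15 (L 45 1))) (M 5 (L 40
  7))) (M 5 (L 40 7)))) (M 5 (L 40 7)))) (A13 (A01 (M 5 (L 40 7)) (B02 (S 2 (L 8 4) (L 25 4)) (B12
  (P 19 (L 58 5)) (M 5 (L 40 7))))) (M 5 (L 40 7))))))))))) (A03 (A01 (M 5 (A02 (B02 (B01 (P 12 (L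
  38 10)) (A03 (B12 (A01 (A02 (P 10 (L 31 8)) (B01 (P 12 (L 38 10)) (A23 (B12 (P 13 (L 40 7)) (P 12
  (L 38 10))) (P 10 (L 31 8))))) (A13 (P 13 (L 40 7)) (B01 (P 12 (L 38 10)) (A23 (P 13 (L 40 7)) (P
  10 (L 31 8)))))) (P 12 (L 38 10))) (B12 (A13 (A01 (B01 (P 12 (L 38 10)) (A02 (P 10 (L 31 8)) (P
  13 (L 40 7)))) (P 13 (L 40 7))) (A23 (B01 (P 12 (L 38 10)) (A02 (P 10 (L 31 8)) (P 13 (L 40 7))))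
  (P 10 (L 31 8)))) (P 12 (L 38 10))))) (P 10 (L 31 8))) (B02 (B01 (P 12 (L 38 10)) (A23 (P 13 (L
  40 7)) (B12 (A13 (P 13 (L 40 7)) (A03 (P 13 (L 40 7)) (B01 (P 12 (L 38 10)) (A23 (P 13 (L 40 7))
  (P 10 (L 31 8)))))) (P 12 (L 38 10))))) (B12 (A23 (P 13 (L 40 7)) (P 10 (L 31 8))) (A23 (A12 (A13
  (B02 (B01 (P 12 (L 38 10)) (A01 (P 12 (L 38 10)) (B12 (P 13 (L 40 7)) (P 12 (L 38 10))))) (P 10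
  (L 31 8))) (P 12 (L 38 10))) (P 12 (L 38 10))) (P 10 (L 31 8))))))) (A13 (B02 (P 13 (B01 (M 5 (L
  40 7)) (A12 (B12 (A01 (M 5 (L 40 7)) (A13 (B01 (P 19 (L 58 5)) (A12 (P 15 (L 45 1)) (B12 (P 15 (L
  45 1)) (M 5 (L 40 7))))) (M 5 (L 40 7)))) (M 5 (L 40 7))) (M 5 (L 40 7))))) (B12 (P 13 (A12 (B01
  (M 5 (L 40 7)) (A01 (M 5 (L 40 7)) (A13 (B12 (A12 (P 15 (L 45 1)) (B01 (M 5 (L 40 7)) (P 15 (L 45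
  1)))) (A12 (P 15 (L 45 1)) (M 5 (L 40 7)))) (M 5 (L 40 7))))) (M 5 (L 40 7)))) (M 5 (A12 (A01
  (A02 (B02 (P 13 (L 40 7)) (P 10 (L 31 8))) (B02 (P 13 (L 40 7)) (B12 (P 13 (L 40 7)) (A23 (P 13
  (L 40 7)) (P 10 (L 31 8)))))) (A13 (P 13 (L 40 7)) (B02 (P 13 (L 40 7)) (B12 (P 13 (L 40 7)) (A23
  (P 13 (L 40 7)) (P 10 (L 31 8))))))) (A02 (A01 (B02 (P 13 (L 40 7)) (P 10 (L 31 8))) (B02 (P 13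
  (L 40 7)) (B12 (P 13 (L 40 7)) (P 12 (L 38 10))))) (A23 (P 12 (L 38 10)) (B02 (P 13 (L 40 7))
  (B12 (P 13 (L 40 7)) (P 12 (L 38 10)))))))))) (M 5 (B02 (B01 (P 12 (L 38 10)) (A23 (P 13 (L 40
  7)) (B12 (A03 (P 13 (L 40 7)) (A13 (P 13 (L 40 7)) (B01 (P 12 (L 38 10)) (A23 (P 13 (L 40 7)) (P
  10 (L 31 8)))))) (P 12 (L 38 10))))) (B12 (A23 (P 13 (L 40 7)) (P 10 (L 31 8))) (A23 (A02 (A03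
  (B02 (B01 (P 12 (L 38 10)) (A01 (B12 (P 13 (L 40 7)) (P 12 (L 38 10))) (B12 (P 13 (L 40 7)) (P 12
  (L 38 10))))) (P 10 (L 31 8))) (B02 (B01 (P 12 (L 38 10)) (A13 (B12 (P 13 (L 40 7)) (P 12 (L 38
  10))) (P 12 (L 38 10)))) (P 10 (L 31 8)))) (A12 (B02 (B01 (P 12 (L 38 10)) (A13 (P 13 (L 40 7))
  (P 12 (L 38 10)))) (P 10 (L 31 8))) (P 12 (L 38 10)))) (P 10 (L 31 8)))))))) (A13 (A01 (M 5 (B02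
  (B01 (P 12 (L 38 10)) (A02 (B12 (A03 (A01 (B01 (P 12 (L 38 10)) (A02 (P 10 (L 31 8)) (P 13 (L 40
  7)))) (P 13 (L 40 7))) (P 13 (L 40 7))) (P 12 (L 38 10))) (P 13 (L 40 7)))) (B12 (A02 (B01 (A03
  (P 10 (L 31 8)) (P 13 (L 40 7))) (A03 (P 10 (L 31 8)) (P 13 (L 40 7)))) (P 13 (L 40 7))) (A02 (P
  10 (L 31 8)) (A23 (A12 (B02 (B01 (P 12 (L 38 10)) (A01 (P 12 (L 38 10)) (P 13 (L 40 7)))) (P 10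
  (L 31 8))) (P 12 (L 38 10))) (A03 (B02 (B01 (P 12 (L 38 10)) (A01 (P 12 (L 38 10)) (P 13 (L 40
  7)))) (P 10 (L 31 8))) (B02 (P 13 (L 40 7)) (P 10 (L 31 8))))))))) (B02 (P 13 (B01 (M 5 (L 40 7))
  (A12 (B12 (A13 (A01 (M 5 (L 40 7)) (P 19 (L 58 5))) (M 5 (L 40 7))) (M 5 (L 40 7))) (M 5 (L 40
  7))))) (B12 (P 13 (A12 (B01 (M 5 (L 40 7)) (A13 (A01 (M 5 (L 40 7)) (B12 (A12 (P 15 (L 45 1))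
  (B01 (M 5 (L 40 7)) (P 15 (L 45 1)))) (A12 (P 15 (L 45 1)) (M 5 (L 40 7))))) (M 5 (L 40 7)))) (M
  5 (L 40 7)))) (M 5 (A12 (A13 (A01 (B02 (P 13 (L 40 7)) (B12 (P 13 (L 40 7)) (A02 (P 10 (L 31 8))
  (P 13 (L 40 7))))) (P 13 (L 40 7))) (A23 (B02 (P 13 (L 40 7)) (B12 (P 13 (L 40 7)) (A02 (P 10 (L
  31 8)) (P 13 (L 40 7))))) (B02 (P 13 (L 40 7)) (P 10 (L 31 8))))) (A23 (A02 (B02 (P 13 (L 40 7))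
  (B12 (P 13 (L 40 7)) (P 12 (L 38 10)))) (P 12 (L 38 10))) (A13 (B02 (P 13 (L 40 7)) (B12 (P 13 (L
  40 7)) (P 12 (L 38 10)))) (B02 (P 13 (L 40 7)) (P 10 (L 31 8)))))))))) (M 5 (A23 (B02 (B01 (P 12
  (L 38 10)) (A02 (B12 (A01 (A03 (B01 (P 12 (L 38 10)) (A02 (P 10 (L 31 8)) (P 13 (L 40 7)))) (P 13
  (L 40 7))) (P 13 (L 40 7))) (P 12 (L 38 10))) (P 13 (L 40 7)))) (B12 (A02 (B01 (A01 (P 12 (L 38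
  10)) (P 13 (L 40 7))) (A01 (A03 (P 10 (L 31 8)) (B12 (P 13 (L 40 7)) (A23 (A12 (A13 (P 10 (L 31
  8)) (P 12 (L 38 10))) (P 12 (L 38 10))) (A13 (A12 (P 10 (L 31 8)) (P 12 (L 38 10))) (P 12 (L 38
  10)))))) (P 13 (L 40 7)))) (P 13 (L 40 7))) (A02 (P 10 (L 31 8)) (A12 (A01 (P 12 (L 38 10)) (B02
  (B01 (P 12 (L 38 10)) (A13 (P 13 (L 40 7)) (P 12 (L 38 10)))) (P 10 (L 31 8)))) (P 12 (L 38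
  10)))))) (B02 (B01 (P 12 (L 38 10)) (A03 (B12 (A01 (A02 (B01 (P 12 (L 38 10)) (P 10 (L 31 8))) (P
  13 (L 40 7))) (P 13 (L 40 7))) (P 12 (L 38 10))) (B12 (P 13 (L 40 7)) (P 12 (L 38 10))))) (B12
  (A03 (B01 (A01 (P 12 (L 38 10)) (A13 (P 13 (L 40 7)) (P 12 (L 38 10)))) (A01 (A02 (P 10 (L 31 8))
  (B12 (P 13 (L 40 7)) (A23 (A12 (P 10 (L 31 8)) (P 12 (L 38 10))) (P 10 (L 31 8))))) (A13 (P 13 (L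
  40 7)) (B12 (P 13 (L 40 7)) (A23 (P 13 (L 40 7)) (P 10 (L 31 8))))))) (B01 (A13 (A01 (P 12 (L 38
  10)) (P 13 (L 40 7))) (P 12 (L 38 10))) (A13 (A01 (B12 (P 13 (L 40 7)) (A02 (P 10 (L 31 8)) (P 13
  (L 40 7)))) (P 13 (L 40 7))) (A23 (B12 (P 13 (L 40 7)) (A02 (P 10 (L 31 8)) (P 13 (L 40 7)))) (P
  10 (L 31 8)))))) (P 10 (L 31 8))))))))))) (B12 (A23 (M 16 (B01 (A12 (S 2 (L 8 4) (L 25 4)) (A02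
  (S 2 (L 8 4) (L 25 4)) (out 6))) (A12 (S 2 (L 8 4) (L 25 4)) (A02 (S 2 (L 8 4) (L 25 4)) (out
  6))))) (M 7 (B01 (A13 (M 16 (S 2 (L 8 4) (L 25 4))) (M 5 (A03 (P 13 (L 40 7)) (B02 (A23 (P 13 (L
  40 7)) (B01 (P 12 (L 38 10)) (P 13 (L 40 7)))) (P 13 (L 40 7)))))) (M 16 (P 13 (A13 (S 2 (L 8 4)
  (L 25 4)) (A03 (S 2 (L 8 4) (L 25 4)) (B12 (S 12 (L 38 10) (L 18 10)) (A23 (S 2 (L 8 4) (L 25 4))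
  (A13 (A12 (B02 (S 2 (L 8 4) (L 25 4)) (B12 (P 19 (L 58 5)) (M 5 (L 40 7)))) (M 5 (L 40 7))) (M 5
  (L 40 7)))))))))))) (A23 (M 16 (P 13 (A12 (M 7 (A13 (B02 (S 2 (L 8 4) (L 25 4)) (B12 (P 19 (L 58
  5)) (M 5 (L 40 7)))) (B02 (S 2 (L 8 4) (L 25 4)) (B12 (P 19 (L 58 5)) (P 12 (L 38 10)))))) (A02
  (S 2 (L 8 4) (L 25 4)) (out 6))))) (M 7 (A13 (P 13 (A12 (B02 (B01 (M 5 (L 40 7)) (A01 (M 5 (L 40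
  7)) (B12 (P 19 (L 58 5)) (M 5 (L 40 7))))) (B12 (A01 (M 5 (L 40 7)) (B01 (M 5 (L 40 7)) (A13 (A12
  (B12 (P 19 (L 58 5)) (A01 (M 5 (L 40 7)) (P 15 (L 45 1)))) (B12 (P 19 (L 58 5)) (M 5 (L 40 7))))
  (M 5 (L 40 7))))) (M 5 (L 40 7)))) (M 5 (L 40 7)))) (M 5 (A03 (B02 (P 13 (L 40 7)) (B12 (P 13 (L
  40 7)) (A02 (A01 (P 12 (L 38 10)) (A12 (B02 (B01 (P 12 (L 38 10)) (A13 (P 13 (L 40 7)) (P 12 (L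
  38 10)))) (B12 (A13 (P 13 (L 40 7)) (P 12 (L 38 10))) (P 12 (L 38 10)))) (P 12 (L 38 10)))) (A12
  (A01 (P 12 (L 38 10)) (B02 (B01 (P 12 (L 38 10)) (A13 (P 13 (L 40 7)) (P 12 (L 38 10)))) (B12
  (A13 (P 13 (L 40 7)) (P 12 (L 38 10))) (P 12 (L 38 10))))) (P 12 (L 38 10)))))) (B02 (B01 (P 12
  (L 38 10)) (A23 (P 13 (L 40 7)) (B12 (P 13 (L 40 7)) (P 12 (L 38 10))))) (B12 (A23 (P 13 (L 40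
  7)) (B01 (A13 (P 13 (L 40 7)) (P 12 (L 38 10))) (P 13 (L 40 7)))) (A23 (A12 (A13 (B02 (B01 (P 12
  (L 38 10)) (A01 (P 12 (L 38 10)) (P 13 (L 40 7)))) (B12 (A01 (P 12 (L 38 10)) (P 13 (L 40 7))) (P
  12 (L 38 10)))) (P 12 (L 38 10))) (P 12 (L 38 10))) (A13 (A12 (P 10 (L 31 8)) (P 12 (L 38 10)))
  (P 12 (L 38 10)))))))))))))) (A13 (M 16 (P 13 (B12 (A12 (B01 (P 8 (S 2 (L 8 4) (L 25 4))) (P 15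
  (L 45 1))) (P 8 (B01 (A02 (S 2 (L 8 4) (L 25 4)) (out 6)) (A02 (M 2 (L 25 4)) (out 6))))) (P 8
  (A12 (M 7 (A01 (A02 (B02 (S 2 (L 8 4) (L 25 4)) (B12 (P 19 (L 58 5)) (A03 (A01 (A02 (B02 (P 19 (L
  58 5)) (P 15 (L 45 1))) (out 6)) (out 6)) (out 6)))) (out 6)) (out 5))) (A02 (M 7 (A01 (B02 (S 2
  (L 8 4) (L 25 4)) (B12 (P 19 (L 58 5)) (A03 (A02 (A01 (M 5 (L 40 7)) (out 6)) (out 6)) (out 6))))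
  (out 6))) (out 6))))))) (P 8 (B12 (A23 (M 16 (B01 (A02 (S 2 (L 8 4) (L 25 4)) (out 6)) (A02 (S 2
  (L 8 4) (L 25 4)) (out 6)))) (B01 (A03 (M 16 (S 2 (L 8 4) (L 25 4))) (A13 (M 16 (S 2 (L 8 4) (L
  25 4))) (M 5 (B02 (A23 (P 13 (L 40 7)) (B01 (P 12 (L 38 10)) (P 13 (L 40 7)))) (P 13 (L 40
  7)))))) (M 16 (P 13 (A03 (S 2 (L 8 4) (L 25 4)) (A13 (S 12 (L 38 10) (L 18 10)) (B12 (S 12 (L 38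
  10) (L 18 10)) (A23 (S 2 (L 8 4) (L 25 4)) (A03 (A02 (B02 (S 2 (L 8 4) (L 25 4)) (B12 (S 2 (L 8
  4) (L 25 4)) (M 5 (L 40 7)))) (B02 (S 2 (L 8 4) (L 25 4)) (B12 (S 2 (L 8 4) (L 25 4)) (M 5 (L 40
  7))))) (A13 (B02 (S 2 (L 8 4) (L 25 4)) (B12 (S 2 (L 8 4) (L 25 4)) (M 5 (L 40 7)))) (M 5 (L 40
  7)))))))))))) (A23 (M 16 (P 13 (A02 (M 7 (A03 (B02 (S 2 (L 8 4) (L 25 4)) (B12 (P 19 (L 58 5)) (M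
  5 (L 40 7)))) (out 6))) (out 6)))) (M 7 (A03 (P 13 (A02 (B02 (B01 (A01 (M 5 (L 40 7)) (M 5 (L 40
  7))) (A01 (B12 (P 19 (L 58 5)) (M 5 (L 40 7))) (B12 (P 19 (L 58 5)) (M 5 (L 40 7))))) (B12 (A01
  (B01 (M 5 (L 40 7)) (A03 (A02 (P 15 (L 45 1)) (B12 (P 19 (L 58 5)) (A12 (P 15 (L 45 1)) (M 5 (L
  40 7))))) (A13 (B12 (P 19 (L 58 5)) (A12 (P 15 (L 45 1)) (M 5 (L 40 7)))) (M 5 (L 40 7))))) (B01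
  (M 5 (L 40 7)) (A13 (out 6) (A03 (B12 (P 19 (L 58 5)) (A02 (P 15 (L 45 1)) (M 5 (L 40 7)))) (B12
  (A23 (P 19 (L 58 5)) (B01 (M 5 (L 40 7)) (P 15 (L 45 1)))) (M 5 (L 40 7))))))) (M 5 (L 40 7))))
  (B02 (B01 (M 5 (L 40 7)) (A12 (B12 (P 19 (L 58 5)) (M 5 (L 40 7))) (M 5 (L 40 7)))) (B12 (A12
  (B01 (M 5 (L 40 7)) (A13 (out 6) (A23 (out 6) (B12 (A03 (P 19 (L 58 5)) (B01 (M 5 (L 40 7)) (P 15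
  (L 45 1)))) (M 5 (L 40 7)))))) (M 5 (L 40 7))) (M 5 (L 40 7)))))) (A13 (P 13 (B02 (B01 (M 5 (L 40
  7)) (A12 (B12 (P 19 (L 58 5)) (M 5 (L 40 7))) (M 5 (L 40 7)))) (B12 (A12 (B01 (M 5 (L 40 7)) (A01
  (A02 (B12 (A03 (B01 (M 5 (L 40 7)) (P 15 (L 45 1))) (out 6)) (M 5 (L 40 7))) (out 6)) (out 6)))
  (M 5 (L 40 7))) (M 5 (L 40 7))))) (M 5 (B02 (B01 (P 12 (L 38 10)) (A23 (P 13 (L 40 7)) (B12 (P 13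
  (L 40 7)) (P 12 (L 38 10))))) (B12 (A23 (P 13 (L 40 7)) (B01 (A03 (P 13 (L 40 7)) (A13 (P 13 (L
  40 7)) (P 12 (L 38 10)))) (P 13 (L 40 7)))) (A23 (A02 (A03 (B02 (P 13 (L 40 7)) (B12 (P 13 (L 40
  7)) (P 10 (L 31 8)))) (out 6)) (out 6)) (A03 (A02 (P 10 (L 31 8)) (B02 (B01 (P 12 (L 38 10)) (P
  10 (L 31 8))) (P 10 (L 31 8)))) (A13 (B02 (B01 (P 12 (L 38 10)) (P 10 (L 31 8))) (P 10 (L 31 8)))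
  (P 12 (L 38 10))))))))))))))))) (P 8 (A02 (A01 (M 7 (P 0 (B12 (A03 (B01 (P 12 (M 5 (A02 (M 18 (L
  38 10)) (A23 (P 13 (L 40 7)) (M 18 (L 38 10)))))) (A02 (A01 (M 5 (B12 (P 13 (L 40 7)) (A03 (A02
  (A01 (B02 (P 13 (L 40 7)) (P 10 (L 31 8))) (P 13 (L 40 7))) (P 13 (L 40 7))) (P 13 (L 40 7)))))
  (P 13 (B12 (A13 (P 19 (L 58 5)) (M 5 (L 40 7))) (M 5 (L 40 7))))) (P 13 (A23 (B12 (P 19 (L 58 5))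
  (M 5 (L 40 7))) (B12 (A13 (P 19 (L 58 5)) (M 5 (L 40 7))) (M 5 (L 40 7))))))) (B01 (P 12 (M 5
  (A23 (A02 (M 18 (L 38 10)) (P 13 (L 40 7))) (M 18 (L 38 10))))) (M 16 (P 13 (A23 (A02 (B12 (A01
  (M 5 (L 40 7)) (P 19 (L 58 5))) (M 5 (L 40 7))) (P 19 (L 58 5))) (A13 (B12 (A01 (B01 (M 5 (L 40
  7)) (A02 (A03 (M 5 (L 40 7)) (S 2 (L 8 4) (L 25 4))) (S 2 (L 8 4) (L 25 4)))) (S 2 (L 8 4) (L 25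
  4))) (M 5 (L 40 7))) (B12 (A03 (B01 (M 5 (L 40 7)) (A02 (A01 (M 5 (L 40 7)) (B12 (P 19 (L 58 11))
  (M 5 (L 40 7)))) (A23 (S 2 (L 8 4) (L 25 4)) (B12 (P 19 (L 58 11)) (M 5 (L 40 7)))))) (B01 (M 5
  (L 40 7)) (A23 (A02 (B12 (P 19 (L 58 11)) (M 5 (L 40 7))) (S 2 (L 8 4) (L 25 4))) (A13 (B12 (P 19
  (L 58 11)) (M 5 (L 40 7))) (S 10 (L 32 8) (L 2 2)))))) (M 5 (L 40 7))))))))) (A03 (M 15 (P 12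
  (A02 (M 18 (L 38 10)) (A23 (B02 (B01 (S 9 (L 29 1) (L 12 1)) (M 18 (L 38 10))) (M 18 (L 38 10)))
  (M 18 (L 38 10)))))) (M 15 (P 12 (A23 (A02 (M 18 (L 38 10)) (B02 (S 9 (L 29 1) (L 12 1)) (M 18 (L
  38 10)))) (M 18 (L 38 10))))))))) (B12 (A13 (M 16 (P 13 (B01 (P 12 (A12 (M 18 (L 38 10)) (M 5 (L
  40 7)))) (A12 (A01 (S 2 (L 8 4) (L 25 4)) (out 6)) (S 2 (L 8 4) (L 25 4)))))) (B01 (P 12 (M 5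
  (A23 (P 13 (L 40 7)) (M 18 (L 38 10))))) (M 18 (M 16 (P 13 (A23 (S 2 (L 8 4) (L 25 4)) (A03 (S 2
  (L 8 4) (L 25 4)) (B12 (S 12 (L 38 10) (L 18 10)) (M 5 (L 40 7)))))))))) (M 15 (P 12 (M 5 (A13
  (A12 (P 13 (L 40 7)) (S 9 (L 29 1) (L 12 1))) (A23 (A12 (M 18 (L 38 10)) (B02 (S 9 (L 29 1) (L 12
  1)) (M 18 (L 38 10)))) (M 18 (L 38 10))))))))) (A23 (P 19 (M 10 (B12 (P 13 (A12 (B01 (A01 (M 5 (L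
  40 7)) (out 6)) (A01 (S 0 (L 2 8) (L 24 8)) (out 6))) (B01 (M 5 (L 40 7)) (A02 (A01 (M 5 (L 40
  7)) (out 6)) (out 2))))) (M 15 (M 5 (A12 (A01 (A02 (B02 (B01 (A03 (A01 (A02 (S 9 (L 29 1) (L 12
  1)) (out 6)) (out 6)) (out 6)) (M 7 (L 58 5))) (M 7 (L 58 5))) (out 6)) (out 6)) (A02 (A01 (B02
  (B01 (A03 (A02 (A01 (B02 (P 13 (L 40 7)) (M 7 (L 58 5))) (out 6)) (out 6)) (out 6)) (M 7 (L 58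
  5))) (M 7 (L 58 5))) (out 6)) (out 2)))))))) (B12 (A13 (M 16 (P 13 (B01 (A01 (M 5 (L 40 7)) (out
  6)) (A01 (S 2 (L 8 4) (L 25 4)) (out 6))))) (B01 (P 12 (M 5 (A03 (P 13 (L 40 7)) (A23 (P 13 (L 40
  7)) (M 18 (L 38 10)))))) (M 18 (M 16 (P 13 (A03 (S 2 (L 8 4) (L 25 4)) (A23 (S 2 (L 8 4) (L 25
  4)) (B12 (S 12 (L 38 10) (L 18 10)) (M 5 (L 40 7)))))))))) (M 15 (P 12 (A13 (A01 (S 9 (L 29 1) (L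
  12 1)) (out 6)) (P 0 (A03 (A01 (B02 (S 9 (L 29 1) (L 12 1)) (M 18 (L 38 10))) (B02 (S 9 (L 29 1)
  (L 12 1)) (M 18 (L 38 10)))) (A23 (B02 (S 9 (L 29 1) (L 1 1)) (M 18 (L 38 10))) (M 18 (L 38
  10)))))))))))))))) (M 5 (P 2 (A23 (P 6 (M 1 (A02 (M 7 (P 0 (A03 (P 4 (M 3 (B12 (A01 (B01 (M 15 (P
  12 (A02 (A03 (M 18 (L 38 10)) (B02 (A13 (M 18 (L 38 10)) (B01 (A23 (M 18 (L 38 10)) (A03 (M 18 (L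
  38 10)) (B02 (A13 (M 18 (L 38 10)) (P 19 (L 58 5))) (M 18 (L 38 10))))) (M 18 (L 38 10)))) (M 18
  (L 38 10)))) (A12 (B02 (A13 (M 18 (L 38 10)) (B01 (A03 (M 18 (L 38 10)) (A23 (M 18 (L 38 10))
  (B02 (A13 (M 18 (L 38 10)) (P 19 (L 58 5))) (M 18 (L 38 10))))) (M 18 (L 38 10)))) (M 18 (L 38
  10))) (B02 (A23 (S 9 (L 29 1) (L 12 1)) (B01 (A03 (S 9 (L 29 1) (L 12 1)) (A13 (S 9 (L 29 1) (L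
  12 1)) (B02 (S 9 (L 29 1) (L 12 1)) (M 18 (L 38 10))))) (M 18 (L 38 10)))) (M 18 (L 38 10)))))))
  (M 18 (A02 (A03 (B12 (P 13 (L 40 7)) (A01 (A02 (A03 (B02 (P 13 (L 40 7)) (P 10 (L 31 8))) (B02
  (B01 (A13 (P 13 (L 40 7)) (P 12 (L 38 10))) (P 10 (L 31 8))) (P 10 (L 31 8)))) (A12 (B02 (B01
  (A13 (P 13 (L 40 7)) (P 12 (L 38 10))) (A13 (P 13 (L 40 7)) (P 12 (L 38 10)))) (P 10 (L 31 8)))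
  (P 12 (L 38 10)))) (A12 (A13 (B02 (P 13 (L 40 7)) (P 10 (L 31 8))) (B02 (B01 (A03 (P 13 (L 40 7))
  (P 12 (L 38 10))) (A03 (P 13 (L 40 7)) (P 12 (L 38 10)))) (P 10 (L 31 8)))) (A02 (B02 (B01 (A03
  (P 13 (L 40 7)) (P 12 (L 38 10))) (A03 (P 13 (L 40 7)) (P 12 (L 38 10)))) (P 10 (L 31 8))) (P 12
  (L 38 10)))))) (B12 (P 13 (L 40 7)) (A13 (A12 (A01 (P 12 (L 38 10)) (B02 (P 13 (L 40 7)) (P 10 (L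
  31 8)))) (P 12 (L 38 10))) (P 12 (L 38 10))))) (A12 (B12 (P 13 (L 40 7)) (A13 (A01 (P 12 (L 38
  10)) (A12 (B02 (P 13 (L 40 7)) (B12 (P 13 (L 40 7)) (A13 (P 13 (L 40 7)) (P 12 (L 38 10))))) (P
  12 (L 38 10)))) (P 12 (L 38 10)))) (S 10 (L 31 8) (L 2 8)))))) (B01 (M 15 (P 12 (A12 (A13 (M 18
  (L 38 10)) (B02 (A03 (M 18 (L 38 10)) (B01 (A23 (M 18 (L 38 10)) (A13 (M 18 (L 38 10)) (B02 (A03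
  (M 18 (L 38 10)) (B01 (P 16 (L 49 4)) (M 18 (L 38 10)))) (M 18 (L 38 10))))) (M 18 (L 38 10))))
  (M 18 (L 38 10)))) (A02 (B02 (A03 (M 18 (L 38 10)) (B01 (A13 (M 18 (L 38 10)) (A23 (M 18 (L 38
  10)) (B02 (A03 (M 18 (L 38 10)) (P 19 (L 58 5))) (M 18 (L 38 10))))) (M 18 (L 38 10)))) (M 18 (L
  38 10))) (B02 (A23 (S 9 (L 29 1) (L 12 1)) (B01 (A13 (S 9 (L 29 1) (L 12 1)) (A03 (S 9 (L 29 1)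
  (L 12 1)) (B02 (S 9 (L 29 1) (L 12 1)) (M 18 (L 38 10))))) (M 18 (L 38 10)))) (M 18 (L 38
  10))))))) (M 18 (A12 (A13 (S 12 (L 38 10) (L 18 10)) (B12 (P 13 (L 40 7)) (A03 (A02 (A01 (B02 (P
  13 (L 40 7)) (B12 (P 13 (L 40 7)) (A03 (P 13 (L 40 7)) (P 12 (L 38 10))))) (P 12 (L 38 10))) (P
  12 (L 38 10))) (P 12 (L 38 10))))) (A02 (B12 (P 13 (L 40 7)) (A03 (A01 (A02 (B02 (P 13 (L 40 7))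
  (B12 (P 13 (L 40 7)) (A03 (P 13 (L 40 7)) (P 12 (L 38 10))))) (P 12 (L 38 10))) (P 12 (L 38 10)))
  (P 12 (L 38 10)))) (S 10 (L 31 8) (L 2 8))))))) (A01 (M 15 (P 12 (A02 (A03 (M 18 (L 38 10)) (B02
  (B01 (A13 (M 18 (L 38 10)) (A23 (M 18 (L 38 10)) (P 16 (L 49 4)))) (M 18 (L 38 10))) (M 18 (L 38
  10)))) (A12 (B02 (B01 (A13 (M 18 (L 38 10)) (A03 (M 18 (L 38 10)) (A23 (M 18 (L 38 10)) (P 16 (L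
  49 4))))) (M 18 (L 38 10))) (M 18 (L 38 10))) (B02 (B01 (A23 (S 9 (L 29 1) (L 12 1)) (A03 (A02 (M
  18 (L 38 10)) (B02 (S 9 (L 29 1) (L 12 1)) (M 18 (L 38 10)))) (A13 (B02 (S 9 (L 29 1) (L 12 1))
  (M 18 (L 38 10))) (P 16 (L 49 4))))) (M 18 (L 38 10))) (M 18 (L 38 10))))))) (M 15 (P 12 (A12
  (A13 (M 18 (L 38 10)) (B02 (B01 (A03 (M 18 (L 38 10)) (A23 (M 18 (L 38 10)) (P 16 (L 49 4)))) (M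
  18 (L 38 10))) (M 18 (L 38 10)))) (A02 (B02 (B01 (A03 (M 18 (L 38 10)) (A13 (M 18 (L 38 10)) (A23
  (M 18 (L 38 10)) (P 16 (L 49 4))))) (M 18 (L 38 10))) (M 18 (L 38 10))) (B02 (B01 (A23 (S 9 (L 29
  1) (L 12 1)) (A13 (A12 (M 18 (L 38 10)) (B02 (S 9 (L 29 1) (L 12 1)) (M 18 (L 38 10)))) (A03 (B02
  (S 9 (L 29 1) (L 12 1)) (M 18 (L 38 10))) (P 16 (L 49 4))))) (M 18 (L 38 10))) (M 18 (L 38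
  10))))))))))) (B12 (A13 (P 4 (M 3 (B01 (M 15 (P 12 (A12 (A01 (B02 (A03 (B01 (A02 (A01 (B02 (A03
  (B01 (P 16 (L 49 4)) (M 18 (L 38 10))) (M 18 (L 38 10))) (M 18 (L 38 10))) (M 18 (L 38 10))) (M
  18 (L 38 10))) (M 18 (L 38 10))) (M 18 (L 38 10))) (M 18 (L 38 10))) (M 18 (L 38 10))) (A23 (B02
  (A02 (B01 (A01 (A03 (B02 (S 9 (L 29 1) (L 12 1)) (M 18 (L 38 10))) (S 9 (L 29 1) (L 12 1))) (S 9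
  (L 29 1) (L 12 1))) (M 18 (L 38 10))) (S 9 (L 29 1) (L 12 1))) (M 18 (L 38 10))) (B02 (A03 (B01
  (A01 (A02 (B02 (A03 (P 19 (L 58 5)) (B01 (P 16 (L 49 4)) (M 18 (L 38 10)))) (M 18 (L 38 10)))
  (B02 (A23 (P 19 (L 58 5)) (B01 (P 16 (L 49 4)) (M 18 (L 38 10)))) (M 18 (L 38 10)))) (A13 (P 19
  (L 58 5)) (B02 (A23 (P 19 (L 58 5)) (B01 (P 16 (L 49 4)) (M 18 (L 38 10)))) (M 18 (L 38 10)))))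
  (M 18 (L 38 10))) (B01 (A13 (A01 (B02 (A02 (B01 (P 16 (L 49 4)) (M 18 (L 38 10))) (S 9 (L 29 1)
  (L 12 1))) (M 18 (L 38 10))) (S 9 (L 29 1) (L 12 1))) (A23 (B02 (A02 (B01 (P 16 (L 49 4)) (M 18
  (L 38 10))) (S 9 (L 29 1) (L 12 1))) (M 18 (L 38 10))) (B02 (A03 (B01 (P 16 (L 49 4)) (M 18 (L 38
  10))) (B01 (P 16 (L 49 4)) (M 18 (L 38 10)))) (M 18 (L 38 10))))) (M 18 (L 38 10)))) (M 18 (L 38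
  10))))))) (M 18 (A12 (A01 (P 12 (L 38 10)) (B12 (S 12 (L 38 10) (L 18 10)) (A13 (P 13 (L 40 7))
  (P 12 (L 38 10))))) (S 13 (L 40 7) (L 13 7))))))) (M 15 (P 12 (B01 (A23 (P 4 (M 3 (A12 (B02 (A01
  (B01 (A03 (A02 (P 16 (L 49 4)) (B02 (A12 (P 16 (L 49 4)) (P 19 (L 58 5))) (A12 (P 16 (L 49 4)) (P
  19 (L 58 5))))) (A13 (B02 (A12 (P 16 (L 49 4)) (P 19 (L 58 5))) (A12 (P 16 (L 49 4)) (P 19 (L 58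
  5)))) (P 19 (L 58 5)))) (A03 (M 18 (L 38 10)) (A13 (M 18 (L 38 10)) (P 19 (L 58 5))))) (B01 (A13
  (A12 (P 16 (L 49 4)) (B02 (A02 (P 16 (L 49 4)) (S 9 (L 29 1) (L 12 1))) (M 18 (L 38 10)))) (A03
  (B02 (A02 (P 16 (L 49 4)) (P 19 (L 58 5))) (A02 (P 16 (L 49 4)) (P 19 (L 58 5)))) (P 19 (L 58
  5)))) (A13 (M 18 (L 38 10)) (A03 (M 18 (L 38 10)) (S 9 (L 29 1) (L 12 1)))))) (A01 (A03 (M 18 (L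
  38 10)) (A13 (M 18 (L 38 10)) (B12 (P 19 (L 58 5)) (B02 (P 19 (L 58 5)) (M 18 (L 38 10)))))) (A13
  (M 18 (L 38 10)) (A03 (M 18 (L 38 10)) (S 9 (L 29 1) (L 12 1)))))) (B02 (A02 (B01 (A03 (A01 (B02
  (S 9 (L 29 1) (L 12 1)) (A02 (P 16 (L 49 4)) (P 19 (L 58 5)))) (S 9 (L 29 1) (L 12 1))) (S 9 (L
  29 1) (L 12 1))) (A03 (M 18 (L 38 10)) (P 19 (L 58 5)))) (S 9 (L 29 1) (L 12 1))) (A02 (A03 (M 18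
  (L 38 10)) (A23 (M 18 (L 38 10)) (B12 (P 19 (L 58 5)) (B02 (P 19 (L 58 5)) (M 18 (L 38 10))))))
  (P 19 (L 58 5))))))) (A03 (M 3 (B02 (A01 (B01 (P 16 (L 49 4)) (A02 (A03 (M 18 (L 38 10)) (B12 (P
  19 (L 58 5)) (P 16 (L 49 4)))) (A12 (B12 (P 19 (L 58 5)) (P 16 (L 49 4))) (out 2)))) (B01 (P 16
  (L 49 4)) (A12 (A13 (M 18 (L 38 10)) (B12 (P 19 (L 58 11)) (P 16 (L 49 4)))) (A02 (B12 (P 19 (L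
  58 11)) (P 16 (L 49 4))) (out 2))))) (A01 (A02 (M 18 (L 38 10)) (A12 (M 18 (L 38 10)) (out 2)))
  (A12 (M 18 (L 38 10)) (A02 (M 18 (L 38 10)) (out 2)))))) (out 2))) (P 4 (A23 (S 13 (L 40 7) (L 13
  7)) (A03 (M 18 (L 38 10)) (out 2)))))))) (M 15 (P 12 (A13 (P 4 (M 3 (A12 (A01 (B02 (B01 (A03 (A02
  (P 16 (L 49 4)) (M 18 (L 38 10))) (M 18 (L 38 10))) (M 18 (L 38 10))) (M 18 (L 38 10))) (M 18 (L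
  38 10))) (A23 (B02 (B01 (A02 (A01 (P 16 (L 49 4)) (A12 (B02 (P 19 (L 58 5)) (M 18 (L 38 10)))
  (B02 (S 9 (L 29 1) (L 12 1)) (M 18 (L 38 10))))) (S 9 (L 29 1) (L 12 1))) (M 18 (L 38 10))) (M 18
  (L 38 10))) (B02 (B01 (A03 (A01 (P 16 (L 49 4)) (A13 (B02 (P 19 (L 58 5)) (M 18 (L 38 10))) (P 16
  (L 49 4)))) (A13 (A01 (P 16 (L 49 4)) (B02 (P 19 (L 58 5)) (M 18 (L 38 10)))) (P 16 (L 49 4))))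
  (M 18 (L 38 10))) (M 18 (L 38 10))))))) (A23 (P 4 (M 3 (A12 (B02 (B01 (P 16 (L 49 4)) (A01 (B12
  (A03 (M 18 (L 38 10)) (A13 (M 18 (L 38 10)) (B01 (A23 (M 18 (L 38 10)) (out 2)) (M 18 (L 38
  10))))) (P 16 (L 49 4))) (B12 (A13 (M 18 (L 38 10)) (A03 (M 18 (L 38 10)) (B01 (A23 (M 18 (L 38
  10)) (out 2)) (M 18 (L 38 10))))) (P 16 (L 49 4))))) (B12 (A01 (B01 (P 16 (L 49 4)) (M 18 (L 38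
  10))) (B01 (P 16 (L 49 4)) (M 18 (L 38 10)))) (P 16 (L 49 4)))) (B02 (B01 (A02 (P 16 (L 49 4)) (S
  9 (L 29 1) (L 12 1))) (A02 (B12 (A03 (M 18 (L 38 10)) (A23 (M 18 (L 38 10)) (B01 (A13 (M 18 (L 38
  10)) (out 2)) (M 18 (L 38 10))))) (P 16 (L 49 4))) (P 19 (L 58 5)))) (B12 (A02 (B01 (P 16 (L 49
  4)) (M 18 (L 38 10))) (B01 (A23 (A12 (B02 (A01 (P 19 (L 58 5)) (B01 (P 16 (L 49 4)) (M 18 (L 38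
  10)))) (M 18 (L 38 10))) (B02 (P 19 (L 58 5)) (M 18 (L 38 10)))) (P 16 (L 49 4))) (M 18 (L 38
  10)))) (A02 (P 16 (L 49 4)) (A23 (A12 (P 16 (L 49 4)) (B02 (B01 (P 16 (L 49 4)) (A02 (P 16 (L 49
  4)) (P 19 (L 58 5)))) (B12 (A02 (P 16 (L 49 4)) (P 19 (L 58 5))) (P 16 (L 49 4))))) (P 16 (L 49
  4))))))))) (P 16 (A03 (M 3 (L 49 4)) (out 2))))))))))) (A12 (M 7 (P 0 (B12 (A13 (P 4 (M 3 (B01 (M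
  15 (P 12 (A01 (A03 (S 9 (L 29 1) (L 12 1)) (B02 (A23 (S 9 (L 29 1) (L 12 1)) (B01 (A13 (S 9 (L 29
  1) (L 12 1)) (A03 (S 9 (L 29 1) (L 12 1)) (B02 (A23 (S 9 (L 29 1) (L 1 1)) (B01 (P 16 (L 49 4))
  (M 18 (L 38 10)))) (M 18 (L 38 10))))) (M 18 (L 38 10)))) (M 18 (L 38 10)))) (A12 (M 18 (L 38
  10)) (B02 (A23 (S 9 (L 29 1) (L 12 1)) (B01 (A03 (S 9 (L 29 1) (L 1 1)) (A13 (S 9 (L 29 1) (L 1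
  1)) (B02 (A23 (S 9 (L 29 1) (L 1 1)) (M 18 (L 38 10))) (M 18 (L 38 10))))) (M 18 (L 38 10)))) (M
  18 (L 38 10))))))) (M 18 (A01 (S 13 (L 40 7) (L 13 7)) (A12 (B12 (S 12 (L 38 10) (L 18 10)) (A13
  (P 13 (L 40 7)) (P 12 (L 38 10)))) (P 12 (L 38 10)))))))) (M 15 (P 12 (B01 (A03 (P 4 (A01 (S 9 (L
  29 1) (L 12 1)) (B02 (A12 (B01 (A13 (A01 (S 9 (L 29 1) (L 12 1)) (out 2)) (S 9 (L 29 1) (L 12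
  1))) (A13 (M 18 (L 38 10)) (S 9 (L 29 1) (L 12 1)))) (S 9 (L 29 1) (L 12 1))) (A12 (A13 (M 18 (L
  38 10)) (S 9 (L 29 1) (L 12 1))) (S 9 (L 29 1) (L 12 1)))))) (out 2)) (P 4 (A03 (S 13 (L 40 7) (L
  13 7)) (out 2))))))) (M 15 (P 12 (A13 (P 4 (M 3 (A01 (A03 (B02 (S 9 (L 29 1) (L 12 1)) (M 18 (L
  38 10))) (B02 (B01 (A23 (A12 (A13 (P 19 (L 58 5)) (B02 (S 9 (L 29 1) (L 12 1)) (M 18 (L 38 10))))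
  (A02 (B02 (S 9 (L 29 1) (L 12 1)) (B12 (P 19 (L 58 5)) (A03 (P 19 (L 58 5)) (out 6)))) (out 6)))
  (A13 (A12 (B02 (P 19 (L 58 5)) (M 18 (L 38 10))) (B02 (S 9 (L 29 1) (L 1 1)) (M 18 (L 38 10))))
  (P 16 (L 49 4)))) (M 18 (L 38 10))) (M 18 (L 38 10)))) (A12 (M 18 (L 38 10)) (B02 (B01 (A23 (A02
  (A03 (M 18 (L 38 10)) (out 6)) (out 6)) (A03 (A02 (M 18 (L 38 10)) (B02 (S 9 (L 29 1) (L 1 1)) (M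
  18 (L 38 10)))) (A13 (B02 (B01 (A12 (M 18 (L 38 10)) (A02 (M 18 (L 38 10)) (out 6))) (M 18 (L 38
  10))) (M 18 (L 38 10))) (P 16 (L 49 4))))) (M 18 (L 38 10))) (M 18 (L 38 10))))))) (A03 (P 4 (M 3
  (A01 (B02 (S 9 (L 29 1) (L 12 1)) (B12 (A02 (B01 (A03 (A01 (P 19 (L 58 5)) (B02 (A12 (B01 (P 16
  (L 49 4)) (M 18 (L 38 10))) (P 19 (L 58 5))) (M 18 (L 38 10)))) (A23 (B02 (A12 (B01 (P 16 (L 49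
  4)) (M 18 (L 38 10))) (P 19 (L 58 5))) (M 18 (L 38 10))) (P 16 (L 49 4)))) (M 18 (L 38 10))) (B01
  (A23 (A12 (B02 (A01 (P 19 (L 58 5)) (B01 (P 16 (L 49 4)) (M 18 (L 38 10)))) (M 18 (L 38 10)))
  (out 6)) (A03 (B02 (A01 (P 19 (L 58 5)) (B01 (P 16 (L 49 4)) (M 18 (L 38 10)))) (M 18 (L 38 10)))
  (P 16 (L 49 4)))) (M 18 (L 38 10)))) (A02 (A03 (A01 (B02 (P 19 (L 58 5)) (B12 (P 19 (L 58 5)) (P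
  16 (L 49 4)))) (B02 (B01 (P 16 (L 49 4)) (A12 (P 16 (L 49 4)) (P 19 (L 58 5)))) (B12 (A12 (P 16
  (L 49 4)) (B01 (P 16 (L 49 4)) (M 18 (L 38 10)))) (P 16 (L 49 4))))) (A23 (B02 (B01 (P 16 (L 49
  4)) (A12 (P 16 (L 49 4)) (P 19 (L 58 5)))) (B12 (A12 (P 16 (L 49 4)) (B01 (P 16 (L 49 4)) (M 18
  (L 38 10)))) (P 16 (L 49 4)))) (P 16 (L 49 4)))) (A23 (A12 (B02 (B01 (P 16 (L 49 4)) (M 18 (L 38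
  10))) (M 18 (L 38 10))) (out 6)) (A03 (B02 (B01 (P 16 (L 49 4)) (M 18 (L 38 10))) (M 18 (L 38
  10))) (P 16 (L 49 4))))))) (B02 (B01 (A12 (P 16 (L 49 4)) (A23 (A02 (B02 (S 9 (L 29 1) (L 12 1))
  (B12 (P 19 (L 58 5)) (P 16 (L 49 4)))) (out 2)) (A13 (B02 (S 9 (L 29 1) (L 12 1)) (B12 (P 19 (L
  58 5)) (P 16 (L 49 4)))) (P 19 (L 58 5))))) (A12 (B12 (A13 (M 18 (L 38 10)) (A23 (M 18 (L 38 10))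
  (B01 (A03 (M 18 (L 38 10)) (out 2)) (M 18 (L 38 10))))) (P 16 (L 49 4))) (B12 (P 19 (L 58 5))
  (A23 (A02 (B02 (M 18 (L 38 10)) (A01 (P 19 (L 58 5)) (out 2))) (out 2)) (A13 (B02 (M 18 (L 38
  10)) (P 16 (L 49 4))) (P 19 (L 58 5))))))) (B12 (A12 (B01 (P 16 (L 49 4)) (M 18 (L 38 10))) (B01
  (A23 (A02 (B02 (A01 (B01 (P 16 (L 49 4)) (M 18 (L 38 10))) (out 2)) (M 18 (L 38 10))) (out 2)) (P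
  16 (L 49 4))) (M 18 (L 38 10)))) (A12 (P 16 (L 49 4)) (A23 (A02 (P 16 (L 49 4)) (out 2)) (P 16 (L
  49 4))))))))) (out 2)))))))) (M 15 (P 12 (B12 (A23 (P 19 (B01 (A02 (A03 (B02 (A01 (B01 (A02 (A03
  (P 13 (L 40 7)) (B02 (A13 (P 13 (L 40 7)) (out 2)) (M 7 (L 58 5)))) (out 6)) (P 13 (L 40 7)))
  (out 6)) (P 13 (L 40 7))) (out 2)) (out 2)) (A02 (A03 (P 13 (L 40 7)) (out 2)) (out 2)))) (B01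
  (A03 (P 4 (A02 (S 9 (L 29 1) (L 12 1)) (out 2))) (out 2)) (M 7 (A03 (P 19 (L 58 5)) (out 2)))))
  (A23 (P 4 (M 3 (A02 (A03 (P 19 (B02 (B01 (A01 (A02 (A03 (B02 (B01 (A01 (A02 (S 9 (L 29 1) (L 12
  1)) (A12 (S 9 (L 29 1) (L 12 1)) (P 18 (L 54 10)))) (A12 (S 9 (L 29 1) (L 12 1)) (A02 (S 9 (L 29
  1) (L 12 1)) (P 18 (L 54 10))))) (M 7 (L 58 5))) (M 7 (L 58 5))) (B02 (B01 (A13 (A12 (S 9 (L 29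
  1) (L 12 1)) (P 18 (L 54 10))) (out 2)) (M 7 (L 58 5))) (M 7 (L 58 5)))) (out 6)) (out 6)) (M 7
  (L 58 5))) (M 7 (L 58 5)))) (out 2)) (out 2)))) (A03 (P 4 (M 3 (A02 (M 7 (B02 (S 9 (L 29 1) (L 12
  1)) (B12 (A01 (B01 (A03 (P 19 (L 58 5)) (A13 (P 19 (L 58 5)) (out 2))) (A03 (P 19 (L 58 5)) (A13
  (P 19 (L 58 5)) (out 2)))) (B01 (A13 (out 6) (A03 (P 19 (L 58 5)) (out 2))) (A13 (out 6) (A03 (P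
  19 (L 58 5)) (out 2))))) (A01 (A03 (A02 (B02 (P 19 (L 58 5)) (B12 (P 19 (L 58 5)) (P 16 (L 49
  4)))) (B02 (P 19 (L 58 5)) (B12 (P 19 (L 58 5)) (P 16 (L 49 4))))) (A13 (B02 (P 19 (L 58 5)) (B12
  (P 19 (L 58 5)) (P 16 (L 49 4)))) (out 2))) (A13 (out 6) (A03 (B02 (P 19 (L 58 5)) (B12 (A02 (B01
  (P 16 (L 49 4)) (M 18 (L 38 10))) (out 2)) (P 16 (L 49 4)))) (out 2))))))) (out 2)))) (out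
  2)))))))))) (A03 (P 6 (M 1 (A02 (B12 (M 3 (A01 (B01 (P 12 (A03 (A02 (M 18 (L 38 10)) (B02 (A12 (M
  18 (L 38 10)) (B01 (A23 (A02 (M 18 (L 38 10)) (B02 (A12 (M 18 (L 38 10)) (P 16 (L 49 4))) (M 18
  (L 38 10)))) (M 18 (L 38 10))) (M 18 (L 38 10)))) (M 18 (L 38 10)))) (A13 (B02 (A12 (M 18 (L 38
  10)) (B01 (A02 (M 18 (L 38 10)) (A23 (B02 (A12 (M 18 (L 38 10)) (P 16 (L 49 4))) (M 18 (L 38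
  10))) (M 18 (L 38 10)))) (M 18 (L 38 10)))) (M 18 (L 38 10))) (B02 (A23 (B01 (P 16 (L 49 4)) (M
  18 (L 38 10))) (P 16 (L 49 4))) (M 18 (L 38 10)))))) (M 18 (A03 (A02 (B12 (A01 (P 10 (L 31 8))
  (B01 (A13 (P 13 (L 40 7)) (P 10 (L 31 8))) (A13 (P 13 (L 40 7)) (P 10 (L 31 8))))) (A01 (P 10 (L
  31 8)) (A13 (A12 (B02 (B01 (A01 (P 10 (L 31 8)) (A13 (P 13 (L 40 7)) (P 10 (L 31 8)))) (P 10 (L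
  31 8))) (P 10 (L 31 8))) (P 10 (L 31 8))) (P 10 (L 31 8))))) (B12 (A12 (B01 (A13 (P 13 (L 40 7))
  (P 12 (L 38 10))) (A13 (P 13 (L 40 7)) (A23 (P 13 (L 40 7)) (P 10 (L 31 8))))) (B01 (P 12 (L 38
  10)) (A23 (P 12 (L 38 10)) (A13 (P 12 (L 38 10)) (P 10 (L 31 8)))))) (A12 (A13 (A01 (P 12 (L 38
  10)) (B02 (B01 (P 12 (L 38 10)) (P 10 (L 31 8))) (P 10 (L 31 8)))) (P 12 (L 38 10))) (P 12 (L 38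
  10))))) (A13 (B12 (A12 (B01 (A01 (P 12 (L 38 10)) (A13 (P 13 (L 40 7)) (P 12 (L 38 10)))) (A01
  (A02 (P 10 (L 31 8)) (B12 (P 13 (L 40 7)) (A23 (P 13 (L 40 7)) (P 10 (L 31 8))))) (A13 (P 13 (L
  40 7)) (B12 (P 13 (L 40 7)) (A23 (P 13 (L 40 7)) (P 10 (L 31 8))))))) (B01 (P 12 (L 38 10)) (A02
  (A01 (P 10 (L 31 8)) (P 12 (L 38 10))) (P 12 (L 38 10))))) (A12 (A01 (P 12 (L 38 10)) (A13 (B02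
  (B01 (P 12 (L 38 10)) (P 10 (L 31 8))) (P 10 (L 31 8))) (P 12 (L 38 10)))) (P 12 (L 38 10))))
  (B12 (A23 (B01 (P 12 (L 38 10)) (A02 (P 10 (L 31 8)) (P 12 (L 38 10)))) (P 10 (L 31 8))) (P 12 (L
  38 10))))))) (B01 (P 12 (A13 (A12 (M 18 (L 38 10)) (B02 (A02 (M 18 (L 38 10)) (B01 (A23 (A12 (M
  18 (L 38 10)) (B02 (A02 (M 18 (L 38 10)) (P 16 (L 49 4))) (M 18 (L 38 10)))) (M 18 (L 38 10))) (M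
  18 (L 38 10)))) (M 18 (L 38 10)))) (A03 (B02 (A02 (M 18 (L 38 10)) (B01 (A12 (M 18 (L 38 10))
  (A23 (B02 (A02 (M 18 (L 38 10)) (P 16 (L 49 4))) (M 18 (L 38 10))) (M 18 (L 38 10)))) (M 18 (L 38
  10)))) (M 18 (L 38 10))) (B02 (A23 (B01 (P 16 (L 49 4)) (M 18 (L 38 10))) (M 18 (L 38 10))) (M 18
  (L 38 10)))))) (M 18 (A13 (A12 (B12 (A01 (B01 (A03 (P 13 (L 40 7)) (A13 (P 13 (L 40 7)) (P 12 (L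
  38 10)))) (P 13 (L 40 7))) (B01 (A13 (P 13 (L 40 7)) (A03 (P 13 (L 40 7)) (P 12 (L 38 10)))) (S
  12 (L 38 10) (L 18 10)))) (A01 (A03 (A02 (B02 (P 13 (L 40 7)) (P 10 (L 31 8))) (B02 (P 13 (L 40
  7)) (B12 (P 13 (L 40 7)) (P 10 (L 31 8))))) (A13 (B02 (P 13 (L 40 7)) (B12 (P 13 (L 40 7)) (P 10
  (L 31 8)))) (P 12 (L 38 10)))) (A13 (P 13 (L 40 7)) (A03 (P 13 (L 40 7)) (P 12 (L 38 10))))))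
  (B12 (A02 (B01 (A03 (P 13 (L 40 7)) (P 12 (L 38 10))) (P 13 (L 40 7))) (P 12 (L 38 10))) (A02
  (A03 (A01 (B02 (P 13 (L 40 7)) (P 10 (L 31 8))) (P 12 (L 38 10))) (P 12 (L 38 10))) (P 12 (L 38
  10))))) (A03 (B12 (A02 (B01 (A01 (A03 (P 13 (L 40 7)) (P 12 (L 38 10))) (P 12 (L 38 10))) (A01
  (A03 (P 13 (L 40 7)) (B12 (P 13 (L 40 7)) (A23 (P 13 (L 40 7)) (P 10 (L 31 8))))) (A12 (S 12 (L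
  38 10) (L 7 10)) (B12 (P 13 (L 40 7)) (A23 (P 13 (L 40 7)) (P 10 (L 31 8))))))) (P 12 (L 38 10)))
  (A02 (A01 (A03 (B02 (P 13 (L 40 7)) (P 10 (L 31 8))) (P 12 (L 38 10))) (P 12 (L 38 10))) (P 12 (L
  38 10)))) (P 12 (L 38 10)))))))) (A01 (P 12 (A03 (M 3 (A02 (M 18 (L 38 10)) (B02 (B01 (A12 (M 18
  (L 38 10)) (P 16 (L 49 4))) (M 18 (L 38 10))) (M 18 (L 38 10))))) (A13 (M 3 (B02 (B01 (A12 (M 18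
  (L 38 10)) (P 16 (L 49 4))) (M 18 (L 38 10))) (M 18 (L 38 10)))) (P 16 (B02 (M 3 (L 49 4)) (M 18
  (L 38 10))))))) (P 12 (A13 (M 3 (A12 (M 18 (L 38 10)) (B02 (B01 (A02 (M 18 (L 38 10)) (P 16 (L 49
  4))) (M 18 (L 38 10))) (M 18 (L 38 10))))) (A03 (M 3 (B02 (B01 (A02 (M 18 (L 38 10)) (P 16 (L 49
  4))) (M 18 (L 38 10))) (M 18 (L 38 10)))) (P 16 (B02 (M 3 (L 49 4)) (M 18 (L 38 10))))))))) (B12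
  (A12 (M 3 (B01 (P 12 (A13 (A01 (B02 (A02 (B01 (A03 (A01 (P 16 (L 49 4)) (M 18 (L 38 10))) (M 18
  (L 38 10))) (M 18 (L 38 10))) (M 18 (L 38 10))) (M 18 (L 38 10))) (M 18 (L 38 10))) (A23 (B02
  (A02 (B01 (P 16 (L 49 4)) (M 18 (L 38 10))) (M 18 (L 38 10))) (M 18 (L 38 10))) (B02 (A03 (B01 (P
  16 (L 49 4)) (M 18 (L 38 10))) (M 18 (L 38 10))) (M 18 (L 38 10)))))) (M 18 (A13 (A01 (P 12 (L 38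
  10)) (B12 (A12 (B01 (A13 (P 13 (L 40 7)) (P 12 (L 38 10))) (S 12 (L 38 10) (L 18 10))) (P 12 (L
  38 10))) (A12 (A13 (P 13 (L 40 7)) (P 12 (L 38 10))) (P 12 (L 38 10))))) (P 12 (L 38 10)))))) (P
  12 (B01 (A23 (A02 (M 3 (B02 (A01 (B01 (P 16 (L 49 4)) (A03 (A02 (M 18 (L 38 10)) (B12 (A12 (M 18
  (L 38 10)) (out 2)) (P 16 (L 49 4)))) (A13 (B12 (A12 (M 18 (L 38 10)) (out 2)) (P 16 (L 49 4)))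
  (out 2)))) (B01 (P 16 (L 49 4)) (A13 (A12 (M 18 (L 38 10)) (B12 (A02 (M 18 (L 38 10)) (out 2)) (P
  16 (L 49 4)))) (A03 (B12 (A02 (M 18 (L 38 10)) (out 2)) (P 16 (L 49 4))) (out 2))))) (M 18 (L 38
  10)))) (out 2)) (M 3 (A13 (B02 (A01 (B01 (P 16 (L 49 4)) (M 18 (L 38 10))) (B01 (P 16 (L 49 4))
  (M 18 (L 38 10)))) (M 18 (L 38 10))) (B02 (A03 (B01 (P 16 (L 49 4)) (M 18 (L 38 10))) (P 16 (L 49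
  4))) (M 18 (L 38 10)))))) (A23 (A02 (M 18 (L 38 10)) (out 2)) (M 18 (L 38 10)))))) (P 12 (A12
  (A13 (M 3 (A01 (B02 (B01 (P 16 (L 49 4)) (M 18 (L 38 10))) (M 18 (L 38 10))) (M 18 (L 38 10))))
  (P 16 (A23 (M 3 (L 49 4)) (B02 (M 3 (L 49 4)) (M 18 (L 38 10)))))) (P 16 (A23 (A02 (B02 (M 3 (L
  49 4)) (P 10 (L 31 8))) (out 2)) (A13 (B02 (M 3 (L 49 4)) (P 10 (L 31 8))) (B02 (M 3 (L 49 4)) (P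
  10 (L 31 8)))))))))))) (A13 (P 6 (B12 (A12 (M 18 (B01 (P 12 (L 38 10)) (A01 (P 12 (L 38 10)) (A13
  (B12 (A12 (B01 (A01 (P 12 (L 38 10)) (P 13 (L 40 7))) (S 12 (L 38 10) (L 18 10))) (P 12 (L 38
  10))) (A12 (A01 (P 12 (L 38 10)) (A13 (P 13 (L 40 7)) (P 12 (L 38 10)))) (P 12 (L 38 10)))) (P 12
  (L 38 10)))))) (P 12 (B01 (A02 (M 3 (A01 (P 16 (L 49 4)) (B02 (A13 (B01 (P 16 (L 49 4)) (M 18 (L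
  38 10))) (P 16 (L 49 4))) (M 18 (L 38 10))))) (out 2)) (A02 (M 18 (L 38 10)) (out 2))))) (P 12
  (A12 (M 18 (L 38 10)) (P 16 (S 3 (L 9 4) (L 49 4))))))) (P 12 (B12 (A23 (B01 (P 16 (A02 (S 3 (L 9
  4) (L 49 4)) (out 2))) (A02 (M 18 (L 38 10)) (out 2))) (B01 (P 16 (S 3 (L 9 4) (L 49 4))) (M 18
  (L 38 10)))) (P 16 (A23 (S 3 (L 9 4) (L 49 4)) (A03 (A02 (B02 (S 3 (L 9 4) (L 49 4)) (M 18 (L 38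
  10))) (out 0)) (out 0)))))))))))))))

/-- its cell -/
def cI7 : Cell :=
  ⟨0, 0, 0, 0, 0, 1114112, 1114112, 0, 1114112, 1114112, 1114112, 1114112, 0, 0, 0, 5070848, 3129344, 0⟩

theorem okI7 : check datI tI7 cI7 0 0 = true := by
  decide +kernel

end Pool.Agent.H315.NW
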