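import Pool.Agent.H315.NW.Data

/-!
# Project NW (helper315): certificates (generated)
-/

set_option autoImplicit false
set_option maxRecDepth 100000

namespace Pool.Agent.H315.NW

open Tr

/-- a part of the certificate -/
def tI8 : Tr :=
  (M 18 (P 4 (M 3 (A02 (A01 (P 8 (P 0 (A03 (A02 (M 16 (P 13 (B12 (P 15 (M 12 (A01 (B01 (A03 (out
  10) (A13 (out 10) (B02 (A23 (out 11) (B01 (M 1 (L 45 7)) (A03 (out 11) (A13 (B12 (S 10 (L 32 1)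
  (L 2 1)) (S 10 (L 32 1) (L 2 1))) (B12 (A23 (S 10 (L 32 1) (L 2 1)) (S 10 (L 32 1) (L 2 1))) (S
  10 (L 32 1) (L 2 1))))))) (P 10 (A23 (out 11) (A03 (out 11) (S 1 (L 4 1) (L 31 1)))))))) (M 19
  (A03 (out 10) (A13 (out 10) (B12 (M 2 (A23 (out 11) (K [(25,2,3),(41,10,2),(41,5,2)] []))) (A23
  (out 11) (A03 (out 11) (K [(41,10,4),(41,5,4)] [])))))))) (B01 (A13 (out 10) (A03 (out 10) (B02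
  (A23 (B01 (A12 (S 10 (L 32 1) (L 2 1)) (out 11)) (A12 (A13 (out 10) (B12 (S 10 (L 32 1) (L 2 1))
  (S 10 (L 32 1) (L 2 1)))) (out 11))) (B01 (S 10 (L 32 1) (L 2 1)) (A13 (A12 (out 10) (B12 (S 10
  (L 32 1) (L 2 1)) (S 10 (L 32 1) (L 2 1)))) (A03 (B12 (S 10 (L 32 1) (L 2 1)) (S 10 (L 32 1) (L 2
  1))) (B12 (A23 (S 10 (L 32 1) (L 2 1)) (S 10 (L 32 1) (L 2 1))) (S 2 (L 7 4) (L 25 4))))))) (A23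
  (A12 (A13 (out 10) (P 10 (S 1 (L 4 1) (L 31 1)))) (out 11)) (A13 (A12 (out 10) (P 10 (S 1 (L 4 1)
  (L 31 1)))) (P 10 (S 1 (L 4 1) (L 31 1)))))))) (A13 (out 10) (A03 (out 10) (B12 (M 2 (A23 (B01
  (A12 (A13 (out 10) (M 19 (K [(41,10,3),(25,4,1),(25,2,1),(41,5,3)] []))) (out 11)) (M 19 (K
  [(41,5,4),(25,2,1),(41,10,2)] []))) (B01 (A13 (A12 (out 10) (M 19 (K
  [(41,10,3),(25,2,1),(25,4,1),(41,5,3)] []))) (M 19 (K [(41,10,3),(25,2,1),(25,4,1),(41,5,3)]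
  []))) (S 1 (L 4 3) (L 45 1))))) (A23 (A12 (A13 (out 10) (M 19 (K [(41,10,4),(41,5,4)] []))) (out
  11)) (A13 (A12 (out 10) (M 19 (K [(41,10,4),(41,5,4)] []))) (M 19 (K [(41,10,4),(41,5,4)]
  []))))))))))) (A01 (A03 (out 10) (A13 (out 10) (B02 (B01 (A23 (out 11) (M 1 (A03 (out 11) (A13 (P
  15 (L 45 7)) (B02 (P 15 (L 45 7)) (S 10 (L 31 1) (L 2 1))))))) (A23 (out 11) (B12 (P 10 (A03 (out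
  11) (S 1 (L 4 1) (L 31 1)))) (M 1 (A03 (out 11) (A13 (P 15 (L 45 7)) (S 10 (L 31 1) (L 2
  1)))))))) (B12 (A23 (out 11) (B01 (M 1 (A03 (out 11) (A13 (P 15 (L 45 7)) (M 5 (L 40 5))))) (P 10
  (A03 (out 11) (S 1 (L 4 1) (L 31 1)))))) (M 5 (L 40 5)))))) (A13 (out 10) (A03 (out 10) (B02 (B01
  (A23 (A12 (S 10 (L 32 1) (L 2 1)) (out 11)) (M 1 (A13 (S 10 (L 32 1) (L 2 1)) (A03 (P 15 (L 45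
  7)) (B02 (P 15 (L 45 7)) (B12 (P 15 (L 45 7)) (S 10 (L 31 1) (L 2 1)))))))) (A23 (B12 (A12 (A13
  (out 10) (P 10 (S 1 (L 4 1) (L 31 1)))) (out 11)) (A12 (M 1 (S 10 (L 31 1) (L 2 1))) (out 11)))
  (B12 (A13 (A12 (out 10) (P 10 (S 1 (L 4 1) (L 31 1)))) (P 10 (S 1 (L 4 1) (L 31 1)))) (M 1 (A13
  (S 10 (L 31 1) (L 2 1)) (A03 (P 15 (L 45 7)) (B02 (P 15 (L 45 7)) (S 10 (L 31 1) (L 2 1)))))))))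
  (B12 (A23 (M 12 (B01 (A12 (S 2 (L 7 4) (L 25 4)) (out 11)) (P 10 (S 1 (L 4 1) (L 31 1))))) (B01
  (M 1 (A13 (M 12 (S 2 (L 7 4) (L 25 4))) (A03 (P 15 (L 45 7)) (M 5 (L 40 5))))) (P 10 (S 1 (L 4 1)
  (L 31 1))))) (A23 (M 12 (A12 (S 2 (L 7 4) (L 25 4)) (out 11))) (A13 (M 12 (S 2 (L 7 4) (L 25 4)))
  (M 5 (L 40 5)))))))))))) (B12 (M 16 (P 15 (P 13 (M 12 (A12 (B01 (A13 (out 10) (A23 (M 2 (L 25 4))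
  (B02 (A03 (B01 (A01 (A02 (out 11) (S 2 (L 8 4) (L 25 4))) (S 2 (L 8 4) (L 25 4))) (A01 (M 19 (L
  41 10)) (A13 (M 2 (L 25 4)) (B12 (M 2 (L 25 4)) (M 1 (L 45 1)))))) (B01 (S 2 (L 7 4) (L 25 4))
  (A13 (A01 (B12 (M 2 (L 25 4)) (S 2 (L 8 4) (L 25 4))) (M 2 (L 25 4))) (A23 (B12 (M 2 (L 25 4)) (S
  2 (L 8 4) (L 25 4))) (B12 (A03 (M 2 (L 25 4)) (S 2 (L 7 4) (L 25 4))) (S 2 (L 7 4) (L 25 4)))))))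
  (A03 (A01 (S 1 (L 4 1) (L 45 1)) (A13 (M 2 (L 25 4)) (S 1 (L 4 1) (L 45 1)))) (A13 (A01 (P 10 (S
  1 (L 4 1) (L 31 1))) (M 2 (L 25 4))) (P 10 (S 1 (L 4 1) (L 31 1)))))))) (A13 (out 10) (A23 (M 2
  (K [(25,4,5),(25,2,3)] [])) (B12 (M 2 (A03 (B01 (K [(25,4,13),(25,2,11)] []) (M 19 (K
  [(41,5,4),(25,4,2),(25,2,1),(41,10,1)] []))) (B01 (A13 (K [(25,4,13),(25,2,11)] []) (M 19 (P 10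
  (K [(25,4,3),(32,1,1),(41,5,1),(25,2,3)] [])))) (M 19 (K [(41,5,5),(25,2,2),(41,10,2)] [])))))
  (A03 (A01 (S 2 (L 8 4) (L 25 4)) (A13 (M 2 (L 25 4)) (S 2 (L 8 4) (L 25 4)))) (A13 (A01 (S 2 (L 8
  4) (L 25 4)) (M 2 (L 25 4))) (S 2 (L 7 4) (L 25 4)))))))) (B01 (A23 (A02 (B02 (A01 (B01 (A03 (out
  11) (A13 (out 11) (S 1 (L 4 1) (L 45 1)))) (S 1 (L 4 1) (L 45 1))) (B01 (A13 (M 2 (L 25 4)) (A03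
  (M 2 (L 25 4)) (S 1 (L 4 1) (L 45 1)))) (A13 (M 2 (L 25 4)) (S 1 (L 4 1) (L 45 1))))) (S 1 (L 4
  1) (L 45 1))) (B02 (A12 (B01 (A13 (M 2 (L 25 4)) (S 1 (L 4 1) (L 45 1))) (A13 (M 2 (L 25 4)) (S 1
  (L 4 1) (L 45 1)))) (S 1 (L 4 1) (L 45 1))) (M 19 (L 41 5)))) (A13 (B02 (A01 (B01 (A02 (M 2 (L 25
  4)) (A12 (M 2 (L 25 4)) (M 1 (L 45 1)))) (S 1 (L 4 1) (L 45 1))) (B01 (A12 (M 2 (L 25 4)) (A02 (M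
  2 (L 25 4)) (M 1 (L 45 1)))) (A12 (M 2 (L 25 4)) (S 1 (L 4 1) (L 45 1))))) (S 1 (L 4 1) (L 45
  1))) (B02 (A03 (B01 (A02 (A01 (out 11) (S 2 (L 8 4) (L 25 4))) (S 2 (L 8 4) (L 25 4))) (S 1 (L 4
  1) (L 45 1))) (B01 (S 2 (L 7 4) (L 25 4)) (A23 (S 1 (L 4 1) (L 45 1)) (A13 (P 10 (S 1 (L 4 1) (L
  31 1))) (B12 (A03 (P 10 (S 1 (L 4 1) (L 31 1))) (S 2 (L 7 4) (L 25 4))) (S 2 (L 7 4) (L 25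
  4))))))) (P 10 (S 1 (L 4 1) (L 31 1)))))) (M 19 (A23 (S 2 (L 8 4) (K [(25,4,5),(41,5,3)] []))
  (A13 (B12 (M 2 (K [(25,4,5),(41,5,3)] [])) (S 2 (L 8 4) (L 25 4))) (B12 (M 2 (K
  [(25,4,4),(25,2,4)] [])) (S 2 (L 7 4) (L 25 4)))))))))))) (A12 (M 16 (P 13 (A13 (out 10) (A23 (P
  15 (M 12 (B02 (B01 (A02 (A01 (A03 (out 10) (B02 (B01 (S 2 (L 8 4) (L 25 4)) (A23 (out 10) (S 2 (L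
  8 4) (L 25 4)))) (B12 (A23 (out 10) (S 2 (L 8 4) (L 25 4))) (S 2 (L 7 4) (L 25 4))))) (A12 (S 2
  (L 8 4) (L 25 4)) (B02 (B01 (S 2 (L 8 4) (L 25 4)) (A23 (out 10) (S 2 (L 8 4) (L 25 4)))) (B12
  (A23 (out 10) (S 2 (L 8 4) (L 25 4))) (S 2 (L 8 4) (L 25 4)))))) (A12 (A01 (B02 (B01 (M 1 (L 45
  1)) (A03 (out 10) (M 1 (L 45 1)))) (B12 (A03 (out 10) (M 1 (L 45 1))) (M 1 (L 45 1)))) (S 2 (L 8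
  4) (L 25 4))) (A23 (out 10) (B02 (B01 (M 1 (L 45 1)) (A03 (out 10) (M 1 (L 45 1)))) (B12 (A03
  (out 10) (M 1 (L 45 1))) (M 1 (L 45 1))))))) (A02 (B12 (A01 (S 1 (L 4 1) (L 45 1)) (A12 (B01 (A13
  (out 10) (S 1 (L 4 1) (L 45 1))) (M 19 (L 41 5))) (S 1 (L 4 1) (L 45 1)))) (A01 (P 10 (S 1 (L 4
  1) (L 31 1))) (A12 (S 2 (L 8 4) (L 25 4)) (P 10 (S 1 (L 4 1) (L 31 1)))))) (B12 (A12 (A01 (S 1 (L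
  4 1) (L 45 1)) (B01 (M 1 (L 45 1)) (M 19 (L 41 5)))) (M 19 (L 41 5))) (A12 (A01 (S 1 (L 4 1) (L
  45 1)) (S 2 (L 8 4) (L 25 4))) (M 19 (L 41 5)))))) (B12 (A02 (B01 (A01 (P 10 (S 1 (L 4 1) (L 31
  1))) (A12 (S 2 (L 7 4) (L 25 4)) (P 10 (S 1 (L 4 1) (L 31 1))))) (M 19 (L 41 5))) (B01 (A12 (A01
  (S 1 (L 4 1) (L 45 1)) (S 2 (L 8 4) (L 25 4))) (M 19 (L 41 5))) (M 19 (L 41 5)))) (A02 (A01 (P 10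
  (S 1 (L 4 1) (L 31 1))) (A12 (S 2 (L 7 4) (L 25 4)) (P 10 (S 1 (L 4 1) (L 31 1))))) (A12 (A01 (P
  10 (S 1 (L 4 1) (L 31 1))) (S 2 (L 7 4) (L 25 4))) (M 19 (L 41 5)))))))) (B02 (B01 (A03 (M 12
  (A01 (A02 (out 11) (S 2 (L 7 4) (L 25 4))) (S 2 (L 7 4) (L 25 4)))) (M 1 (A13 (M 12 (S 2 (L 7 4)
  (L 25 4))) (A23 (M 12 (S 2 (L 7 4) (L 25 4))) (B02 (P 15 (L 45 7)) (B12 (P 15 (L 45 7)) (S 10 (L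
  31 1) (L 2 1)))))))) (A03 (P 15 (M 12 (B12 (A01 (S 1 (L 4 1) (L 45 1)) (A13 (B01 (A12 (out 10) (S
  1 (L 4 1) (L 45 1))) (S 1 (L 4 1) (L 45 1))) (S 1 (L 4 1) (L 45 1)))) (A01 (P 10 (S 1 (L 4 1) (L
  31 1))) (S 2 (L 7 4) (L 25 4)))))) (B12 (A13 (A01 (P 10 (S 1 (L 4 1) (L 31 1))) (B01 (S 2 (L 8 4)
  (L 25 4)) (P 10 (S 1 (L 4 1) (L 31 1))))) (P 10 (S 1 (L 4 1) (L 31 1)))) (M 1 (A13 (M 12 (S 2 (L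
  7 4) (L 25 4))) (A23 (M 12 (S 2 (L 7 4) (L 25 4))) (B02 (P 15 (L 45 7)) (S 10 (L 31 1) (L 2
  1))))))))) (B12 (A03 (P 15 (M 12 (B01 (A01 (P 10 (S 1 (L 4 1) (L 31 1))) (S 2 (L 7 4) (L 25 4)))
  (S 1 (L 4 1) (L 45 1))))) (B01 (M 1 (A13 (M 12 (S 2 (L 7 4) (L 25 4))) (S 10 (L 31 1) (L 2 1))))
  (P 10 (S 1 (L 4 1) (L 31 1))))) (A03 (P 15 (M 12 (A01 (M 5 (L 46 7)) (S 2 (L 7 4) (L 25 4))))) (M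
  1 (A13 (M 12 (S 2 (L 7 4) (L 25 4))) (S 10 (L 31 1) (L 2 1))))))))))) (A23 (P 15 (A02 (B02 (B01
  (A01 (A03 (out 11) (A13 (out 11) (S 1 (L 4 1) (L 45 1)))) (A13 (A12 (B02 (B01 (M 1 (L 45 1)) (S 1
  (L 4 1) (L 45 1))) (S 1 (L 4 1) (L 45 1))) (B02 (B01 (M 1 (L 45 1)) (S 1 (L 4 1) (L 45 1))) (S 1
  (L 4 1) (L 45 1)))) (A03 (B02 (B01 (M 1 (L 45 1)) (S 1 (L 4 1) (L 45 1))) (S 1 (L 4 1) (L 45 1)))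
  (S 1 (L 4 1) (L 45 1))))) (S 1 (L 4 1) (L 45 1))) (M 19 (B12 (S 1 (L 4 1) (L 45 1)) (A01 (A03
  (out 11) (A13 (out 11) (M 5 (L 46 7)))) (A13 (A12 (P 13 (L 41 5)) (B02 (P 13 (L 41 5)) (B12 (P 13
  (L 41 5)) (M 5 (L 46 7))))) (A03 (B02 (P 13 (L 41 5)) (B12 (P 13 (L 41 5)) (M 5 (L 46 7)))) (M 5
  (L 46 7)))))))) (B02 (P 13 (B01 (A12 (A13 (A01 (S 1 (L 4 1) (L 45 1)) (B02 (B01 (M 1 (L 45 1)) (M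
  19 (L 41 5))) (M 19 (L 41 5)))) (S 1 (L 4 1) (L 45 1))) (S 1 (L 4 1) (L 45 1))) (M 19 (L 41 5))))
  (M 19 (B12 (P 13 (L 41 5)) (A12 (A13 (A01 (B02 (P 13 (L 41 5)) (B12 (P 13 (L 41 5)) (M 5 (L 46
  7)))) (P 13 (L 41 5))) (M 5 (L 46 7))) (M 5 (L 46 7)))))))) (A13 (P 15 (B02 (B01 (A01 (A02 (A03
  (out 11) (B02 (B01 (M 1 (L 45 1)) (S 1 (L 4 1) (L 45 1))) (P 10 (S 1 (L 4 1) (L 31 1))))) (A12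
  (B02 (B01 (M 1 (L 45 1)) (S 1 (L 4 1) (L 45 1))) (P 10 (S 1 (L 4 1) (L 31 1)))) (M 1 (L 45 1))))
  (A12 (A13 (B02 (B01 (M 1 (L 45 1)) (S 1 (L 4 1) (L 45 1))) (S 1 (L 4 1) (L 45 1))) (B02 (B01 (M 1
  (L 45 1)) (S 1 (L 4 1) (L 45 1))) (S 1 (L 4 1) (L 45 1)))) (A02 (B02 (B01 (M 1 (L 45 1)) (S 1 (L
  4 1) (L 45 1))) (S 1 (L 4 1) (L 45 1))) (M 1 (L 45 1))))) (S 1 (L 4 1) (L 45 1))) (M 19 (P 10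
  (B12 (S 1 (L 4 1) (L 45 1)) (A01 (A02 (S 1 (L 4 1) (L 31 1)) (A12 (P 13 (L 41 5)) (M 5 (L 46
  7)))) (A12 (P 13 (L 41 5)) (A02 (P 13 (L 41 5)) (M 5 (L 46 7)))))))))) (B02 (B01 (A03 (M 12 (A02
  (A01 (out 11) (S 2 (L 7 4) (L 25 4))) (S 2 (L 7 4) (L 25 4)))) (M 1 (A23 (M 12 (S 2 (L 7 4) (L 25
  4))) (A13 (M 12 (S 2 (L 7 4) (L 25 4))) (B02 (M 12 (S 2 (L 7 4) (L 25 4))) (S 10 (L 31 1) (L 2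
  1))))))) (P 10 (A03 (S 1 (L 4 1) (L 31 1)) (B12 (S 1 (L 4 1) (L 31 1)) (M 1 (L 31 1)))))) (P 10
  (B12 (A03 (S 1 (L 4 1) (L 31 1)) (B01 (M 1 (L 31 1)) (S 1 (L 4 1) (L 31 1)))) (M 5 (A03 (P 15 (L
  46 7)) (M 1 (L 31 1)))))))))))) (A13 (B12 (M 16 (P 15 (P 13 (M 12 (A12 (B01 (A01 (A02 (B02 (S 2
  (L 7 4) (L 25 4)) (A03 (A01 (P 10 (S 1 (L 4 1) (L 31 1))) (A13 (M 2 (L 25 4)) (B12 (S 2 (L 8 4)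
  (L 25 4)) (B02 (S 2 (L 8 4) (L 25 4)) (P 10 (S 1 (L 4 1) (L 31 1))))))) (A13 (A01 (B12 (S 2 (L 8
  4) (L 25 4)) (B02 (S 2 (L 8 4) (L 25 4)) (M 19 (L 41 5)))) (M 2 (L 25 4))) (A23 (B12 (S 2 (L 8 4)
  (L 25 4)) (B02 (S 2 (L 8 4) (L 25 4)) (M 19 (L 41 5)))) (S 2 (L 8 4) (L 25 4)))))) (B02 (A23 (M 2
  (L 25 4)) (S 2 (L 8 4) (L 25 4))) (A23 (M 2 (L 25 4)) (A13 (M 2 (L 25 4)) (A03 (M 2 (L 25 4)) (M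
  1 (L 45 1))))))) (A13 (out 10) (B02 (A23 (M 2 (L 25 4)) (S 2 (L 8 4) (L 25 4))) (A23 (M 2 (L 25
  4)) (M 1 (L 45 1)))))) (A01 (A02 (B12 (M 2 (A03 (B01 (A01 (P 10 (S 1 (L 4 1) (L 31 1))) (S 1 (L 4
  1) (L 45 1))) (M 19 (K [(41,5,3),(25,4,2),(25,2,1),(41,10,2)] []))) (K [(25,4,14),(25,2,10)]
  []))) (A03 (A01 (P 10 (S 1 (L 4 1) (L 31 1))) (A13 (M 2 (L 25 4)) (B02 (M 2 (L 25 4)) (S 1 (L 4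
  1) (L 45 1))))) (A13 (A01 (B02 (M 2 (L 25 4)) (M 19 (L 41 5))) (M 2 (L 25 4))) (A23 (B02 (M 2 (L
  25 4)) (M 19 (L 41 5))) (B02 (M 2 (L 25 4)) (M 19 (L 41 5))))))) (B12 (M 2 (K [(25,4,5),(25,2,3)]
  [])) (A23 (M 2 (L 25 4)) (A13 (M 2 (L 25 4)) (A03 (M 2 (L 25 4)) (B02 (M 2 (L 25 4)) (M 19 (L 41
  5)))))))) (A13 (out 10) (B12 (M 2 (K [(25,4,5),(25,2,3)] [])) (A23 (M 2 (L 25 4)) (A03 (M 2 (L 25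
  4)) (A13 (M 2 (L 25 4)) (B02 (M 2 (L 25 4)) (B12 (M 2 (L 25 4)) (A23 (M 2 (L 25 4)) (M 1 (L 45
  1)))))))))))) (B01 (A02 (A01 (B02 (A03 (B01 (S 2 (L 7 4) (L 25 4)) (A02 (S 2 (L 7 4) (L 25 4))
  (A23 (S 1 (L 4 1) (L 45 1)) (S 2 (L 7 4) (L 25 4))))) (B01 (S 2 (L 8 4) (L 25 4)) (A23 (A02 (S 2
  (L 8 4) (L 25 4)) (S 1 (L 4 1) (L 45 1))) (S 2 (L 8 4) (L 25 4))))) (A03 (P 10 (S 1 (L 4 1) (L 31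
  1))) (A23 (P 10 (S 1 (L 4 1) (L 31 1))) (A13 (P 10 (S 1 (L 4 1) (L 31 1))) (S 2 (L 8 4) (L 25
  4)))))) (B02 (A13 (B01 (M 1 (L 45 1)) (A12 (M 2 (L 25 4)) (A23 (S 1 (L 4 1) (L 45 1)) (M 2 (L 25
  4))))) (B01 (M 1 (L 45 1)) (A23 (A12 (M 1 (L 45 1)) (S 1 (L 4 1) (L 45 1))) (M 1 (L 45 1)))))
  (A13 (A12 (M 2 (L 25 4)) (A23 (M 19 (L 41 5)) (M 2 (L 25 4)))) (A23 (A12 (B12 (B01 (A01 (M 19 (L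
  41 5)) (B02 (M 1 (L 45 1)) (A13 (M 2 (L 25 4)) (M 19 (L 41 5))))) (M 2 (L 25 4))) (M 19 (L 41
  5))) (M 19 (L 41 5))) (A03 (B12 (M 1 (L 45 1)) (M 19 (L 41 5))) (M 1 (L 45 1))))))) (A23 (B02
  (A12 (B01 (A01 (S 1 (L 4 1) (L 45 1)) (A13 (M 2 (L 25 4)) (B02 (M 1 (L 45 1)) (M 19 (L 41 5)))))
  (A01 (S 1 (L 4 1) (L 45 1)) (A13 (M 2 (L 25 4)) (M 19 (L 41 5))))) (S 1 (L 4 1) (L 45 1))) (M 19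
  (L 41 5))) (B02 (A13 (B01 (M 1 (L 45 1)) (A01 (A03 (S 1 (L 4 1) (L 45 1)) (B12 (M 2 (L 25 4))
  (A23 (M 19 (L 41 5)) (M 2 (L 25 4))))) (A12 (M 2 (L 25 4)) (B12 (M 2 (L 25 4)) (A23 (M 19 (L 41
  5)) (M 2 (L 25 4))))))) (B01 (M 1 (L 45 1)) (A03 (A01 (S 1 (L 4 1) (L 45 1)) (M 1 (L 45 1))) (M 1
  (L 45 1))))) (A13 (A01 (A03 (M 19 (L 41 5)) (B12 (B01 (A23 (M 19 (L 41 5)) (M 2 (L 25 4))) (M 2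
  (L 25 4))) (M 19 (L 41 5)))) (A12 (M 2 (L 25 4)) (B12 (B01 (A23 (M 19 (L 41 5)) (M 2 (L 25 4)))
  (M 2 (L 25 4))) (M 19 (L 41 5))))) (A03 (A01 (M 19 (L 41 5)) (B12 (B01 (A12 (B02 (M 1 (L 45 1))
  (A13 (M 2 (L 25 4)) (M 19 (L 41 5)))) (M 19 (L 41 5))) (M 2 (L 25 4))) (M 19 (L 41 5)))) (A23
  (B12 (B01 (A12 (M 1 (L 45 1)) (M 19 (L 41 5))) (M 2 (L 25 4))) (M 19 (L 41 5))) (M 1 (L 45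
  1)))))))) (A02 (A01 (B12 (M 2 (K [(25,4,5),(25,2,3)] [])) (A03 (P 10 (S 1 (L 4 1) (L 31 1))) (A23
  (S 1 (L 4 1) (L 45 1)) (A13 (S 1 (L 4 1) (L 45 1)) (B02 (M 2 (L 25 4)) (M 19 (L 41 5))))))) (B12
  (M 2 (L 25 4)) (A13 (A12 (M 2 (L 25 4)) (A23 (M 19 (L 41 5)) (M 2 (L 25 4)))) (A23 (A12 (B02 (M 2
  (L 25 4)) (M 19 (L 41 5))) (M 19 (L 41 5))) (A03 (B02 (M 2 (L 25 4)) (M 19 (L 41 5))) (B02 (M 2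
  (L 25 4)) (M 19 (L 41 5)))))))) (A23 (M 19 (L 41 5)) (B12 (M 2 (L 25 4)) (A13 (A01 (A03 (M 19 (L
  41 5)) (M 2 (L 25 4))) (M 2 (L 25 4))) (A03 (A01 (M 19 (L 41 5)) (B02 (M 2 (L 25 4)) (M 19 (L 41
  5)))) (A23 (B02 (M 2 (L 25 4)) (M 19 (L 41 5))) (B02 (M 2 (L 25 4)) (M 19 (L 41 5)))))))))))))))
  (A12 (M 16 (P 13 (A01 (A02 (B02 (B01 (M 1 (A03 (A01 (A02 (B02 (P 15 (L 45 7)) (B12 (P 15 (L 45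
  7)) (S 10 (L 31 1) (L 2 1)))) (M 12 (S 2 (L 7 4) (L 25 4)))) (M 12 (S 2 (L 7 4) (L 25 4)))) (M 12
  (S 2 (L 7 4) (L 25 4))))) (A03 (B12 (M 12 (A01 (P 10 (S 1 (L 4 1) (L 31 1))) (A13 (B01 (S 2 (L 8
  4) (L 25 4)) (P 10 (S 1 (L 4 1) (L 31 1)))) (B01 (S 2 (L 7 4) (L 25 4)) (P 10 (S 1 (L 4 1) (L 31
  1))))))) (M 1 (A01 (A02 (B02 (P 15 (L 45 7)) (S 10 (L 31 1) (L 2 1))) (M 12 (S 2 (L 7 4) (L 25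
  4)))) (M 12 (S 2 (L 7 4) (L 25 4)))))) (M 12 (B12 (A13 (A01 (B01 (S 2 (L 7 4) (L 25 4)) (M 19 (L
  41 5))) (B01 (S 2 (L 8 4) (L 25 4)) (M 19 (L 41 5)))) (A23 (B01 (S 2 (L 7 4) (L 25 4)) (M 19 (L
  41 5))) (S 2 (L 7 4) (L 25 4)))) (S 2 (L 7 4) (L 25 4)))))) (B12 (A03 (B01 (M 1 (A01 (S 10 (L 31
  1) (L 2 1)) (M 12 (S 2 (L 7 4) (L 25 4))))) (P 10 (S 1 (L 4 1) (L 31 1)))) (M 12 (B01 (S 2 (L 7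
  4) (L 25 4)) (M 19 (L 41 5))))) (M 1 (A03 (A01 (S 10 (L 31 1) (L 2 1)) (A13 (M 12 (S 2 (L 7 4) (L
  25 4))) (S 10 (L 31 1) (L 2 1)))) (A13 (A01 (S 10 (L 31 1) (L 2 1)) (M 12 (S 2 (L 7 4) (L 25
  4)))) (S 10 (L 31 1) (L 2 1))))))) (P 15 (M 12 (B02 (B01 (S 2 (L 8 4) (L 25 4)) (A23 (B12 (A12
  (A13 (B01 (M 1 (L 45 1)) (M 19 (L 41 5))) (B01 (M 1 (L 45 1)) (M 19 (L 41 5)))) (M 19 (L 41 5)))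
  (A12 (S 2 (L 8 4) (L 25 4)) (M 19 (L 41 5)))) (B12 (A13 (A12 (B01 (M 1 (L 45 1)) (M 19 (L 41 5)))
  (B01 (M 1 (L 45 1)) (M 19 (L 41 5)))) (A03 (B01 (M 1 (L 45 1)) (M 19 (L 41 5))) (M 1 (L 45 1))))
  (S 2 (L 8 4) (L 25 4))))) (B12 (A23 (B01 (A12 (S 2 (L 8 4) (L 25 4)) (M 19 (L 41 5))) (M 19 (L 41
  5))) (B01 (S 2 (L 7 4) (L 25 4)) (M 19 (L 41 5)))) (A23 (A12 (S 2 (L 7 4) (L 25 4)) (M 19 (L 41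
  5))) (S 2 (L 7 4) (L 25 4)))))))) (P 15 (M 12 (A13 (out 10) (B02 (B01 (S 2 (L 8 4) (L 25 4)) (A23
  (B12 (M 2 (L 25 4)) (A02 (S 2 (L 8 4) (L 25 4)) (A12 (M 1 (L 45 1)) (B02 (A23 (out 10) (M 1 (L 45
  1))) (A23 (out 10) (M 1 (L 45 1))))))) (S 2 (L 8 4) (L 25 4)))) (B12 (A23 (B01 (A02 (S 2 (L 8 4)
  (L 25 4)) (A12 (M 1 (L 45 1)) (B02 (A23 (out 10) (M 1 (L 45 1))) (M 19 (L 41 5))))) (A02 (A03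
  (out 10) (B12 (M 2 (L 25 4)) (M 1 (L 45 1)))) (A12 (B12 (M 2 (L 25 4)) (M 1 (L 45 1))) (M 19 (L
  41 5))))) (S 2 (L 8 4) (L 25 4))) (A23 (A02 (S 2 (L 7 4) (L 25 4)) (A12 (M 1 (L 45 1)) (B02 (B01
  (M 1 (L 45 1)) (M 19 (L 41 5))) (M 19 (L 41 5))))) (S 2 (L 7 4) (L 25 4))))))))))) (A02 (A01 (B02
  (B01 (M 1 (A03 (A02 (A01 (S 10 (L 31 1) (L 2 1)) (M 12 (S 2 (L 7 4) (L 25 4)))) (M 12 (S 2 (L 7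
  4) (L 25 4)))) (M 12 (S 2 (L 7 4) (L 25 4))))) (A03 (B12 (P 10 (S 1 (L 4 1) (L 31 1))) (M 1 (A02
  (A01 (S 10 (L 31 1) (L 2 1)) (M 12 (S 2 (L 7 4) (L 25 4)))) (M 12 (S 2 (L 7 4) (L 25 4)))))) (M
  12 (B12 (A23 (P 10 (S 1 (L 4 1) (L 31 1))) (A13 (P 10 (S 1 (L 4 1) (L 31 1))) (S 2 (L 7 4) (L 25
  4)))) (S 2 (L 7 4) (L 25 4)))))) (B12 (P 13 (A03 (B01 (M 1 (S 10 (L 31 1) (L 2 1))) (P 10 (S 1 (L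
  4 1) (L 31 1)))) (P 15 (B01 (M 5 (L 46 7)) (M 19 (L 41 5)))))) (M 5 (M 1 (A03 (A02 (A01 (B02 (P
  13 (L 40 5)) (P 10 (L 31 1))) (B02 (S 10 (L 31 1) (L 2 1)) (P 10 (L 31 1)))) (A23 (P 15 (L 46 7))
  (B02 (S 10 (L 31 1) (L 2 1)) (P 10 (L 31 1))))) (A23 (A02 (S 10 (L 31 1) (L 2 1)) (P 15 (L 46
  7))) (S 10 (L 31 1) (L 2 1)))))))) (P 15 (M 12 (B02 (P 13 (B01 (S 2 (L 7 4) (L 25 4)) (A13 (M 19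
  (L 41 5)) (B12 (A23 (M 19 (L 41 5)) (A03 (M 19 (L 41 5)) (M 1 (L 45 1)))) (S 2 (L 7 4) (L 25
  4)))))) (B12 (P 13 (A13 (M 19 (L 41 5)) (B01 (S 2 (L 7 4) (L 25 4)) (M 19 (L 41 5))))) (A13 (M 19
  (A12 (P 13 (L 41 5)) (M 5 (L 46 7)))) (M 5 (L 46 7)))))))) (P 15 (A23 (B02 (P 13 (B01 (A12 (A01
  (S 1 (L 4 1) (L 45 1)) (A13 (B02 (B01 (M 1 (L 45 1)) (M 19 (L 41 5))) (M 19 (L 41 5))) (B02 (B01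
  (M 1 (L 45 1)) (M 19 (L 41 5))) (M 19 (L 41 5))))) (S 1 (L 4 1) (L 45 1))) (M 19 (L 41 5)))) (M
  19 (B12 (P 13 (L 41 5)) (A12 (A01 (M 5 (L 46 7)) (P 13 (L 41 5))) (M 5 (L 46 7)))))) (B02 (P 13
  (B01 (M 1 (L 45 1)) (A13 (M 19 (L 41 5)) (B12 (A03 (M 19 (L 41 5)) (A23 (M 19 (L 41 5)) (M 1 (L
  45 1)))) (M 1 (L 45 1)))))) (B12 (P 13 (A13 (M 19 (L 41 5)) (B01 (M 1 (L 45 1)) (M 19 (L 41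
  5))))) (A13 (M 19 (A01 (M 5 (L 46 7)) (P 13 (L 41 5)))) (M 5 (L 46 7)))))))))) (B12 (A23 (P 15 (P
  13 (M 12 (B01 (A02 (A03 (B02 (A01 (B01 (M 5 (L 46 7)) (A02 (S 2 (L 7 4) (L 25 4)) (A12 (S 2 (L 7
  4) (L 25 4)) (P 10 (S 1 (L 4 1) (L 31 1)))))) (B01 (S 2 (L 7 4) (L 25 4)) (A12 (S 2 (L 7 4) (L 25
  4)) (A02 (S 2 (L 7 4) (L 25 4)) (S 1 (L 4 1) (L 45 1)))))) (A01 (P 10 (S 1 (L 4 1) (L 31 1)))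
  (A12 (S 2 (L 7 4) (L 25 4)) (P 10 (S 1 (L 4 1) (L 31 1)))))) (B02 (A13 (B01 (S 2 (L 7 4) (L 25
  4)) (A12 (M 1 (L 45 1)) (S 1 (L 4 1) (L 45 1)))) (B01 (M 5 (L 46 7)) (S 1 (L 4 1) (L 45 1))))
  (A13 (A12 (M 1 (L 45 1)) (M 19 (L 41 5))) (M 19 (L 41 5))))) (A12 (B02 (A13 (B01 (M 1 (L 45 1))
  (A01 (S 1 (L 4 1) (L 45 1)) (M 1 (L 45 1)))) (B01 (M 1 (L 45 1)) (S 1 (L 4 1) (L 45 1)))) (A13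
  (A01 (M 19 (L 41 5)) (A12 (M 1 (L 45 1)) (M 19 (L 41 5)))) (M 19 (L 41 5)))) (S 1 (L 4 1) (L 45
  1)))) (A02 (A03 (B12 (A01 (M 19 (P 10 (B01 (S 1 (L 4 1) (L 31 1)) (K [(41,5,19),(41,10,5)] []))))
  (B01 (A12 (A13 (M 2 (L 25 4)) (S 1 (L 4 1) (L 45 1))) (S 1 (L 4 1) (L 45 1))) (A12 (A13 (M 2 (L
  25 4)) (M 19 (L 41 5))) (M 19 (L 41 5))))) (A01 (P 10 (S 1 (L 4 1) (L 31 1))) (A12 (A13 (B02 (B01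
  (M 1 (L 45 1)) (A01 (M 19 (L 41 5)) (B12 (M 2 (L 25 4)) (M 1 (L 45 1))))) (M 19 (L 41 5))) (S 1
  (L 4 1) (L 45 1))) (S 1 (L 4 1) (L 45 1))))) (B12 (A13 (B01 (A12 (A01 (M 19 (L 41 5)) (M 2 (L 25
  4))) (M 19 (L 41 5))) (A12 (A01 (M 19 (L 41 5)) (M 2 (L 25 4))) (M 19 (L 41 5)))) (M 19 (L 41
  5))) (A13 (A12 (A01 (M 19 (L 41 5)) (B02 (B01 (M 1 (L 45 1)) (A13 (B12 (M 2 (L 25 4)) (M 1 (L 45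
  1))) (M 19 (L 41 5)))) (M 19 (L 41 5)))) (M 19 (L 41 5))) (M 19 (L 41 5))))) (A12 (B12 (A13 (M 2
  (L 25 4)) (M 19 (L 41 5))) (A13 (A01 (M 19 (L 41 5)) (A12 (B02 (B01 (M 1 (L 45 1)) (A13 (M 2 (L
  25 4)) (M 19 (L 41 5)))) (M 19 (L 41 5))) (M 19 (L 41 5)))) (M 19 (L 41 5)))) (M 19 (L 41
  5)))))))) (B01 (A03 (M 16 (P 13 (A02 (M 1 (B02 (A01 (B01 (S 10 (L 31 1) (L 2 1)) (A03 (M 12 (S 2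
  (L 7 4) (L 25 4))) (A13 (M 12 (S 2 (L 7 4) (L 25 4))) (S 10 (L 31 1) (L 2 1))))) (B01 (A13 (A12
  (B02 (S 2 (L 8 4) (L 25 4)) (S 2 (L 8 4) (L 25 4))) (S 10 (L 31 1) (L 2 1))) (S 10 (L 31 1) (L 2
  1))) (A13 (M 12 (S 2 (L 7 4) (L 25 4))) (A03 (M 12 (S 2 (L 7 4) (L 25 4))) (S 10 (L 31 1) (L 2
  1)))))) (A01 (P 10 (L 31 1)) (A13 (M 12 (S 2 (L 7 4) (L 25 4))) (P 10 (L 31 1)))))) (B02 (M 1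
  (A12 (B01 (A13 (A01 (S 10 (L 31 1) (L 2 1)) (B02 (A12 (S 2 (L 8 4) (L 25 4)) (M 5 (L 40 7))) (S 2
  (L 8 4) (L 25 4)))) (S 10 (L 31 1) (L 2 1))) (A13 (M 12 (S 2 (L 7 4) (L 25 4))) (A23 (M 12 (S 2
  (L 7 4) (L 25 4))) (S 10 (L 31 1) (L 2 1))))) (B01 (S 10 (L 31 1) (L 2 1)) (A23 (P 10 (L 31 1))
  (A13 (P 10 (L 31 1)) (S 10 (L 31 1) (L 2 1))))))) (A12 (M 1 (A13 (M 12 (S 2 (L 7 4) (L 25 4))) (P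
  10 (L 31 1)))) (M 19 (L 41 5))))))) (A13 (M 16 (P 13 (B02 (M 1 (A12 (B01 (A01 (P 2 (S 12 (L 38 4)
  (L 7 4))) (A13 (B02 (A12 (S 2 (L 8 4) (L 25 4)) (M 5 (L 40 7))) (S 2 (L 8 4) (L 25 4))) (M 5 (L
  40 7)))) (A01 (A02 (S 10 (L 31 1) (L 2 1)) (B12 (A23 (S 2 (L 8 4) (L 25 4)) (M 5 (L 40 7))) (M 5
  (L 40 7)))) (A13 (S 2 (L 8 4) (L 25 4)) (B12 (A23 (S 2 (L 8 4) (L 25 4)) (M 5 (L 40 7))) (M 5 (L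
  40 7)))))) (B01 (P 2 (S 12 (L 38 4) (L 7 4))) (A02 (A01 (S 10 (L 31 1) (L 2 1)) (B12 (A13 (P 15
  (L 45 1)) (M 5 (L 40 7))) (S 10 (L 31 1) (L 2 8)))) (A23 (P 15 (L 45 1)) (B12 (A13 (P 15 (L 45
  1)) (M 5 (L 40 7))) (S 10 (L 31 1) (L 2 8)))))))) (A12 (M 1 (A01 (P 10 (L 31 1)) (A13 (S 2 (L 8
  4) (L 25 4)) (B12 (B01 (M 5 (L 40 7)) (P 15 (L 45 1))) (M 5 (L 40 7)))))) (M 19 (L 41 5)))))) (M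
  5 (B02 (M 1 (A23 (S 10 (L 31 1) (L 2 1)) (B01 (P 12 (L 38 4)) (A03 (S 10 (L 31 1) (L 2 1)) (A13
  (S 10 (L 31 1) (L 2 8)) (P 10 (L 31 1))))))) (P 10 (A23 (A02 (M 1 (L 31 1)) (A12 (M 1 (L 31 1))
  (B12 (M 1 (L 31 1)) (B02 (M 1 (L 31 1)) (P 15 (L 46 7)))))) (M 1 (L 31 1)))))))) (A03 (P 15 (P 13
  (A02 (B12 (A01 (M 19 (P 10 (B01 (S 1 (L 4 1) (L 31 1)) (K [(41,5,6),(41,10,2)] [])))) (B01 (A13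
  (A12 (M 1 (L 45 1)) (S 1 (L 4 1) (L 45 1))) (P 10 (S 1 (L 4 1) (L 31 1)))) (A13 (A12 (M 2 (L 25
  4)) (M 19 (L 41 5))) (M 19 (L 41 5))))) (A01 (P 10 (S 1 (L 4 1) (L 31 1))) (A13 (A12 (M 1 (L 45
  1)) (P 10 (S 1 (L 4 1) (L 31 1)))) (P 10 (S 1 (L 4 1) (L 31 1)))))) (B12 (A12 (B01 (A13 (A01 (M
  19 (L 41 5)) (M 1 (L 45 1))) (M 19 (L 41 5))) (A13 (A01 (M 19 (L 41 5)) (M 2 (L 25 4))) (M 19 (L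
  41 5)))) (M 19 (L 41 5))) (A12 (A13 (A01 (M 19 (L 41 5)) (M 1 (L 45 1))) (M 19 (L 41 5))) (M 19
  (L 41 5))))))) (A13 (P 13 (M 12 (B12 (A12 (B01 (S 2 (L 7 4) (L 25 4)) (A01 (M 19 (L 41 5)) (A13
  (M 2 (L 25 4)) (M 19 (L 41 5))))) (M 19 (L 41 5))) (A12 (S 2 (L 7 4) (L 25 4)) (M 19 (L 41
  5)))))) (M 19 (P 10 (B12 (P 13 (L 41 5)) (M 5 (A23 (P 15 (L 46 7)) (M 1 (L 31 1))))))))))) (A23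
  (A02 (M 5 (P 2 (A03 (B02 (B01 (S 12 (L 38 4) (L 7 4)) (A01 (B12 (P 15 (L 46 7)) (M 1 (S 10 (L 31
  1) (L 2 1)))) (B12 (P 15 (L 46 7)) (M 1 (S 10 (L 31 1) (L 2 1)))))) (B12 (A01 (B01 (M 1 (S 10 (L
  31 1) (L 2 1))) (P 15 (L 46 7))) (B01 (M 1 (S 10 (L 31 1) (L 2 1))) (P 15 (L 46 7)))) (M 1 (A01
  (A02 (A03 (B02 (P 13 (L 40 5)) (P 10 (L 31 1))) (B02 (B01 (A13 (P 13 (L 40 5)) (P 10 (L 31 1)))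
  (P 10 (L 31 1))) (P 10 (L 31 1)))) (A12 (B02 (B01 (A13 (P 13 (L 40 5)) (P 10 (L 31 1))) (P 10 (L
  31 1))) (P 10 (L 31 1))) (P 10 (L 31 1)))) (A12 (A13 (S 10 (L 31 1) (L 2 1)) (B02 (B01 (A03 (S 10
  (L 31 1) (L 2 1)) (P 10 (L 31 1))) (P 10 (L 31 1))) (P 10 (L 31 1)))) (A02 (B02 (B01 (A03 (S 10
  (L 31 1) (L 2 1)) (P 10 (L 31 1))) (P 10 (L 31 1))) (P 10 (L 31 1))) (P 10 (L 31 1)))))))) (B02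
  (B01 (M 1 (A13 (S 12 (L 38 4) (L 7 4)) (A23 (S 10 (L 31 1) (L 2 1)) (A03 (S 10 (L 31 1) (L 2 1))
  (B02 (P 15 (L 46 7)) (P 10 (L 31 1))))))) (A13 (B12 (P 15 (L 46 7)) (M 1 (S 10 (L 31 1) (L 2
  8)))) (P 10 (B12 (P 15 (L 46 7)) (M 1 (L 31 1)))))) (B12 (A13 (B01 (M 1 (S 10 (L 31 1) (L 2 8)))
  (P 15 (L 46 7))) (P 10 (B01 (M 1 (L 31 1)) (P 15 (L 46 7))))) (M 1 (A13 (A12 (A01 (P 10 (L 31 1))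
  (B02 (M 16 (S 10 (L 32 8) (L 2 8))) (P 10 (L 31 1)))) (P 10 (L 31 1))) (P 10 (L 31 1))))))))) (P
  15 (A12 (B02 (B01 (M 5 (L 46 7)) (A13 (P 13 (B12 (A01 (M 19 (L 41 5)) (A12 (M 1 (L 45 1)) (M 19
  (L 41 5)))) (M 5 (L 46 7)))) (M 19 (B12 (P 13 (L 41 5)) (M 5 (L 46 7)))))) (B12 (A13 (P 13 (B01
  (M 5 (L 46 7)) (M 19 (L 41 5)))) (M 19 (B01 (M 5 (L 46 7)) (A03 (A01 (B12 (P 13 (L 41 5)) (M 5 (L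
  46 7))) (B12 (P 13 (L 41 5)) (M 5 (L 46 7)))) (A23 (B12 (P 13 (L 41 5)) (M 5 (L 46 7))) (M 5 (L
  46 7))))))) (M 5 (L 46 7)))) (M 19 (B02 (B01 (A23 (S 1 (L 4 1) (L 45 1)) (M 5 (L 46 7))) (A23 (P
  13 (L 41 5)) (B12 (P 13 (L 41 5)) (M 5 (L 46 7))))) (B12 (A23 (B01 (M 5 (L 46 7)) (A02 (A03 (P 13
  (L 41 5)) (B12 (P 13 (L 41 5)) (M 5 (L 46 7)))) (A12 (B12 (P 13 (L 41 5)) (M 5 (L 46 7))) (M 6 (L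
  43 10))))) (B01 (M 5 (L 46 7)) (A03 (A02 (B12 (P 13 (L 41 5)) (M 5 (L 46 7))) (B12 (P 13 (L 41
  5)) (M 5 (L 46 7)))) (A13 (B12 (P 13 (L 41 5)) (M 5 (L 46 7))) (M 5 (L 46 7)))))) (M 5 (L 46
  7)))))))) (M 5 (P 2 (A03 (A02 (M 1 (B02 (S 12 (L 38 4) (L 7 4)) (B12 (A01 (B01 (A03 (S 10 (L 31
  1) (L 2 1)) (A13 (S 10 (L 31 1) (L 2 1)) (P 10 (L 31 1)))) (P 10 (L 31 1))) (B01 (A13 (S 10 (L 31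
  1) (L 2 1)) (A03 (S 10 (L 31 1) (L 2 1)) (P 10 (L 31 1)))) (P 10 (L 31 1)))) (A01 (A03 (A02 (B02
  (P 13 (L 40 5)) (P 10 (L 31 1))) (B02 (B01 (A12 (P 13 (L 40 5)) (P 10 (L 31 1))) (P 10 (L 31 1)))
  (P 10 (L 31 1)))) (A13 (B02 (B01 (A12 (P 13 (L 40 5)) (P 10 (L 31 1))) (P 10 (L 31 1))) (P 10 (L
  31 1))) (P 10 (L 31 1)))) (A13 (A12 (B02 (S 10 (L 31 1) (L 2 1)) (P 10 (L 31 1))) (B02 (B01 (A02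
  (P 13 (L 40 5)) (P 10 (L 31 1))) (P 10 (L 31 1))) (P 10 (L 31 1)))) (A03 (B02 (B01 (A02 (P 13 (L
  40 5)) (P 10 (L 31 1))) (P 10 (L 31 1))) (P 10 (L 31 1))) (P 10 (L 31 1)))))))) (B02 (B01 (M 1
  (A12 (S 12 (L 38 4) (L 7 4)) (A23 (A02 (B02 (S 10 (L 31 1) (L 2 1)) (P 10 (L 31 1))) (B02 (S 10
  (L 31 1) (L 2 1)) (P 10 (L 31 1)))) (A13 (B02 (S 10 (L 31 1) (L 2 1)) (P 10 (L 31 1))) (B02 (S 10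
  (L 31 1) (L 2 1)) (B12 (S 10 (L 31 1) (L 2 1)) (A03 (P 10 (L 31 1)) (P 12 (L 38 4))))))))) (A12
  (M 1 (S 10 (L 31 1) (L 2 8))) (M 19 (P 10 (B12 (P 13 (L 41 5)) (M 1 (L 31 1))))))) (B12 (A12 (M 1
  (B01 (A13 (S 10 (L 31 1) (L 2 8)) (P 10 (L 31 1))) (P 10 (L 31 1)))) (P 10 (B01 (M 1 (L 31 1))
  (A23 (P 15 (L 46 7)) (M 1 (L 31 1)))))) (M 1 (A12 (A13 (A01 (P 10 (L 31 1)) (B02 (M 16 (S 10 (L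
  32 8) (L 2 8))) (P 10 (L 31 1)))) (P 10 (L 31 1))) (P 10 (L 31 1))))))) (A13 (B02 (B01 (M 1 (A12
  (S 12 (L 38 4) (L 7 4)) (A02 (A01 (B02 (S 10 (L 31 1) (L 2 1)) (B12 (S 10 (L 31 1) (L 2 1)) (P 12
  (L 38 4)))) (B02 (S 12 (L 38 4) (L 7 4)) (B12 (S 10 (L 31 1) (L 2 8)) (A13 (P 10 (L 31 1)) (P 12
  (L 38 4)))))) (A23 (B02 (S 10 (L 31 1) (L 2 1)) (P 10 (L 31 1))) (B02 (S 12 (L 38 4) (L 7 4))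
  (B12 (S 10 (L 31 1) (L 2 8)) (A13 (P 10 (L 31 1)) (P 12 (L 38 4))))))))) (A12 (M 16 (S 10 (L 32
  8) (L 2 8))) (M 19 (P 10 (B12 (P 13 (L 41 5)) (M 1 (L 31 1))))))) (B12 (A12 (M 1 (B01 (A01 (P 10
  (L 31 1)) (M 16 (S 10 (L 32 8) (L 2 8)))) (P 10 (L 31 1)))) (P 10 (B01 (M 1 (L 31 1)) (A02 (M 1
  (L 31 1)) (A23 (P 15 (L 46 7)) (M 1 (L 31 1))))))) (M 1 (A12 (A01 (P 10 (L 31 1)) (A13 (B02 (M 16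
  (S 10 (L 32 8) (L 2 8))) (P 10 (L 31 1))) (P 10 (L 31 1)))) (P 10 (L 31 1)))))) (B02 (B01 (M 1
  (A23 (A02 (A03 (B02 (S 10 (L 31 1) (L 2 1)) (B12 (S 10 (L 31 1) (L 2 1)) (P 12 (L 38 4)))) (B02
  (B01 (P 12 (L 38 4)) (A13 (S 10 (L 31 1) (L 2 8)) (P 10 (L 31 1)))) (B12 (A13 (S 10 (L 31 1) (L 2
  8)) (P 10 (L 31 1))) (P 12 (L 38 4))))) (A12 (B02 (B01 (P 12 (L 38 4)) (A13 (S 10 (L 31 1) (L 2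
  8)) (P 10 (L 31 1)))) (B12 (A13 (S 10 (L 31 1) (L 2 8)) (P 10 (L 31 1))) (P 12 (L 38 4)))) (P 10
  (L 31 1)))) (P 12 (L 38 4)))) (P 10 (A23 (B12 (A02 (M 1 (L 31 1)) (A12 (M 1 (L 31 1)) (B01 (M 1
  (L 31 1)) (A23 (P 15 (L 46 7)) (M 1 (L 31 1)))))) (M 1 (L 31 1))) (M 1 (L 31 1))))) (P 10 (B12
  (A23 (B01 (M 1 (L 31 1)) (A02 (M 1 (L 31 1)) (A12 (M 1 (L 31 1)) (B12 (A23 (P 15 (L 46 7)) (M 1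
  (L 31 1))) (M 1 (L 31 1)))))) (M 1 (L 31 1))) (M 1 (L 31 1))))))))))))))) (A13 (A12 (M 16 (B12
  (A01 (B01 (P 8 (A03 (out 10) (A13 (out 10) (B02 (S 2 (L 8 4) (L 25 4)) (P 15 (A23 (M 2 (L 25 4))
  (M 1 (L 45 1)))))))) (M 2 (A03 (out 10) (A13 (out 10) (P 8 (L 25 4)))))) (B01 (P 8 (A13 (out 5)
  (A03 (out 5) (B02 (S 2 (L 8 4) (L 25 4)) (P 15 (A23 (out 5) (M 1 (L 45 1)))))))) (M 2 (A13 (out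
  5) (A03 (out 5) (P 8 (L 25 4))))))) (P 8 (M 7 (A01 (A03 (out 10) (A13 (out 10) (B02 (B01 (S 2 (L
  8 4) (L 25 4)) (P 15 (A23 (B12 (M 2 (L 25 4)) (M 1 (L 45 1))) (M 1 (L 45 1))))) (P 15 (B12 (A23
  (B01 (M 1 (L 45 1)) (M 2 (L 25 4))) (M 1 (L 45 1))) (M 1 (L 45 1))))))) (A13 (out 5) (A03 (out 5)
  (B02 (B01 (P 19 (L 58 5)) (P 15 (A23 (out 5) (M 1 (L 45 1))))) (P 15 (B12 (A23 (out 5) (M 1 (L 45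
  1))) (M 1 (L 45 1)))))))))))) (P 8 (M 7 (B12 (M 16 (P 13 (A02 (B01 (A03 (out 10) (A23 (M 2 (L 25
  4)) (B02 (S 2 (L 8 4) (L 25 4)) (P 15 (A13 (M 2 (L 25 4)) (M 1 (L 45 1))))))) (M 2 (L 25 4)))
  (B01 (A23 (P 15 (A12 (B02 (A01 (B01 (M 1 (L 45 1)) (M 2 (L 25 4))) (B01 (M 1 (L 45 1)) (M 2 (L 25
  4)))) (M 2 (L 25 4))) (B02 (A02 (B01 (A03 (M 2 (L 25 4)) (A23 (M 2 (L 25 4)) (M 1 (L 45 1)))) (M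
  2 (L 25 4))) (B01 (A23 (M 19 (L 41 5)) (A03 (M 19 (L 41 5)) (M 1 (L 45 1)))) (M 2 (L 25 4)))) (M
  2 (L 25 4))))) (A03 (P 15 (B02 (A01 (B01 (M 1 (L 45 1)) (M 2 (L 25 4))) (M 1 (L 45 1))) (M 2 (L
  25 4)))) (B02 (M 1 (A13 (P 15 (L 45 1)) (B01 (A23 (P 15 (L 45 1)) (P 19 (L 58 5))) (P 15 (L 45
  1))))) (P 15 (A13 (M 2 (L 25 4)) (A23 (M 2 (L 25 4)) (M 1 (L 45 1)))))))) (M 2 (L 25 4)))))) (A02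
  (M 16 (P 13 (A03 (out 10) (A23 (P 15 (B02 (B01 (M 1 (L 45 1)) (A12 (B12 (M 2 (L 25 4)) (M 1 (L 45
  1))) (B12 (M 2 (L 25 4)) (A02 (M 1 (L 45 1)) (A23 (out 10) (M 1 (L 45 1))))))) (B12 (A12 (B01
  (A01 (A02 (M 1 (L 45 1)) (B02 (M 1 (L 45 1)) (A23 (out 5) (M 1 (L 45 1))))) (A13 (out 5) (B02 (M
  1 (L 45 1)) (A23 (out 5) (M 1 (L 45 1)))))) (M 2 (L 25 4))) (B01 (A02 (A01 (M 1 (L 45 1)) (B02 (M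
  1 (L 45 1)) (A13 (out 10) (M 1 (L 45 1))))) (A23 (out 10) (B02 (M 1 (L 45 1)) (M 19 (L 41 5)))))
  (M 2 (L 25 4)))) (A12 (A01 (A02 (M 1 (L 45 1)) (B02 (B01 (M 1 (L 45 1)) (A23 (out 5) (M 1 (L 45
  1)))) (M 19 (L 41 5)))) (A13 (out 5) (B02 (B01 (M 1 (L 45 1)) (A23 (out 5) (M 1 (L 45 1)))) (M 19
  (L 41 5))))) (A02 (A01 (M 1 (L 45 1)) (B02 (B01 (M 1 (L 45 1)) (M 19 (L 41 5))) (M 19 (L 41 5))))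
  (A23 (out 10) (B02 (B01 (M 1 (L 45 1)) (M 19 (L 41 5))) (M 19 (L 41 5))))))))) (B02 (B01 (S 2 (L
  8 4) (L 25 4)) (P 15 (A13 (B12 (M 2 (L 25 4)) (M 1 (L 45 1))) (M 1 (L 45 1))))) (P 15 (B12 (A13
  (B01 (M 1 (L 45 1)) (M 2 (L 25 4))) (M 1 (L 45 1))) (M 1 (L 45 1))))))))) (A23 (P 15 (A12 (P 13
  (B02 (B01 (M 1 (L 45 1)) (A01 (B12 (A03 (M 2 (L 25 4)) (A13 (M 2 (L 25 4)) (M 19 (L 41 5)))) (A03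
  (A02 (B02 (M 2 (L 25 4)) (M 19 (L 41 5))) (B02 (M 2 (L 25 4)) (M 19 (L 41 5)))) (A13 (B02 (M 2 (L
  25 4)) (M 19 (L 41 5))) (M 19 (L 41 5))))) (B12 (A13 (out 5) (A03 (out 5) (B01 (A23 (out 5) (A13
  (out 5) (M 19 (L 41 5)))) (M 19 (L 41 5))))) (A13 (out 5) (A03 (out 5) (B02 (A23 (out 5) (M 1 (L
  45 1))) (M 19 (L 41 5)))))))) (B12 (A01 (M 19 (L 41 5)) (B01 (A13 (out 5) (M 19 (L 41 5))) (A13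
  (out 5) (M 19 (L 41 5))))) (A01 (M 19 (L 41 5)) (A13 (out 5) (M 19 (L 41 5))))))) (B02 (P 13 (B01
  (A02 (A03 (A01 (B02 (B01 (M 1 (L 45 1)) (M 19 (L 41 5))) (M 19 (L 41 5))) (B02 (B01 (M 1 (L 45
  1)) (M 19 (L 41 5))) (M 19 (L 41 5)))) (A23 (B02 (B01 (M 1 (L 45 1)) (M 19 (L 41 5))) (M 19 (L 41
  5))) (M 1 (L 45 1)))) (A23 (M 19 (L 41 5)) (A03 (M 19 (L 41 5)) (M 1 (L 45 1))))) (M 19 (L 41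
  5)))) (M 19 (B12 (P 13 (L 41 5)) (A02 (P 13 (L 41 5)) (A23 (A12 (B02 (P 13 (L 41 5)) (B12 (P 13
  (L 41 5)) (M 5 (L 46 7)))) (M 5 (L 46 7))) (A03 (B02 (P 13 (L 41 5)) (B12 (P 13 (L 41 5)) (M 5 (L
  46 7)))) (B02 (P 13 (L 41 5)) (B12 (P 13 (L 41 5)) (M 5 (L 46 7)))))))))))) (P 13 (A03 (P 15 (B02
  (B01 (M 1 (L 45 1)) (A01 (B12 (A02 (M 2 (L 25 4)) (A12 (M 2 (L 25 4)) (B01 (M 1 (L 45 1)) (A23 (M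
  19 (L 41 5)) (M 2 (L 25 4)))))) (A02 (A03 (B02 (M 2 (L 25 4)) (M 19 (L 41 5))) (M 1 (L 45 1))) (M
  1 (L 45 1)))) (B12 (A12 (M 2 (L 25 4)) (A02 (M 2 (L 25 4)) (B01 (M 1 (L 45 1)) (A23 (M 19 (L 41
  5)) (M 2 (L 25 4)))))) (M 1 (L 45 1))))) (B12 (A01 (B01 (A02 (A03 (M 19 (L 41 5)) (B02 (M 1 (L 45
  1)) (M 19 (L 41 5)))) (A12 (B02 (M 1 (L 45 1)) (M 19 (L 41 5))) (B02 (M 1 (L 45 1)) (M 19 (L 41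
  5))))) (M 19 (L 41 5))) (B01 (A12 (A13 (out 5) (B02 (M 1 (L 45 1)) (M 19 (L 41 5)))) (A02 (B02 (M
  1 (L 45 1)) (M 19 (L 41 5))) (M 1 (L 45 1)))) (A12 (M 2 (L 25 4)) (M 19 (L 41 5))))) (A01 (A02
  (A03 (M 19 (L 41 5)) (B02 (B01 (M 1 (L 45 1)) (M 19 (L 41 5))) (M 19 (L 41 5)))) (A12 (B02 (B01
  (M 1 (L 45 1)) (M 19 (L 41 5))) (M 19 (L 41 5))) (B02 (B01 (M 1 (L 45 1)) (M 19 (L 41 5))) (M 19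
  (L 41 5))))) (A12 (A13 (out 5) (B02 (B01 (M 1 (L 45 1)) (M 19 (L 41 5))) (M 19 (L 41 5)))) (A02
  (B02 (B01 (M 1 (L 45 1)) (M 19 (L 41 5))) (M 19 (L 41 5))) (M 1 (L 45 1)))))))) (B02 (B01 (M 1
  (A13 (P 15 (L 45 1)) (A23 (P 15 (L 45 1)) (A03 (P 15 (L 45 1)) (B02 (P 19 (L 58 5)) (B12 (P 19 (L
  58 5)) (A13 (P 15 (L 45 1)) (M 5 (L 40 7))))))))) (P 15 (A13 (B12 (A12 (M 2 (L 25 4)) (A23 (B01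
  (M 1 (L 45 1)) (A02 (M 2 (L 25 4)) (M 19 (L 41 5)))) (M 2 (L 25 4)))) (M 1 (L 45 1))) (B12 (A23
  (A12 (M 1 (L 45 1)) (B01 (M 1 (L 45 1)) (A02 (M 1 (L 45 1)) (M 19 (L 41 5))))) (M 1 (L 45 1))) (M
  1 (L 45 1)))))) (P 15 (B12 (A13 (B01 (M 1 (L 45 1)) (A12 (M 2 (L 25 4)) (A23 (M 19 (L 41 5)) (M 2
  (L 25 4))))) (B01 (M 1 (L 45 1)) (A23 (A12 (M 1 (L 45 1)) (M 19 (L 41 5))) (M 1 (L 45 1))))) (M 1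
  (L 45 1))))))))))))) (P 8 (M 7 (P 0 (A03 (B12 (M 16 (P 13 (A02 (B01 (A01 (P 15 (A03 (out 10) (B02
  (A23 (M 2 (L 25 4)) (M 1 (L 45 1))) (A23 (M 2 (L 25 4)) (M 1 (L 45 1)))))) (A12 (M 1 (B02 (S 2 (L
  8 4) (L 25 4)) (P 15 (L 45 1)))) (P 15 (B02 (A23 (M 2 (L 25 4)) (M 1 (L 45 1))) (A23 (M 2 (L 25
  4)) (M 1 (L 45 1))))))) (P 15 (A01 (A03 (out 10) (B12 (M 2 (L 25 4)) (A23 (M 2 (L 25 4)) (A13 (M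
  2 (L 25 4)) (A03 (M 2 (L 25 4)) (B02 (M 2 (L 25 4)) (B12 (M 2 (L 25 4)) (A23 (M 2 (L 25 4)) (M 1
  (L 45 1)))))))))) (A12 (B12 (M 2 (L 25 4)) (M 1 (L 45 1))) (B12 (M 2 (L 25 4)) (A23 (M 2 (L 25
  4)) (A03 (M 2 (L 25 4)) (A13 (M 2 (L 25 4)) (B02 (M 2 (L 25 4)) (B12 (M 2 (L 25 4)) (A23 (M 2 (L
  25 4)) (M 1 (L 45 1))))))))))))) (B01 (A12 (A01 (P 15 (B02 (A03 (B01 (M 1 (L 45 1)) (M 2 (L 25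
  4))) (M 1 (L 45 1))) (A03 (M 2 (L 25 4)) (A23 (A02 (M 1 (L 45 1)) (B12 (M 1 (L 45 1)) (B02 (M 1
  (L 45 1)) (M 2 (L 25 4))))) (M 1 (L 45 1)))))) (B02 (M 1 (A13 (B01 (A12 (S 2 (L 8 4) (L 25 4))
  (A23 (P 15 (L 45 1)) (S 2 (L 8 4) (L 25 4)))) (P 15 (L 45 1))) (B01 (A23 (A12 (B02 (S 2 (L 8 4)
  (L 25 4)) (P 15 (L 45 1))) (P 15 (L 45 1))) (A03 (B02 (S 2 (L 8 4) (L 25 4)) (P 15 (L 45 1)))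
  (B02 (S 2 (L 8 4) (L 25 4)) (P 15 (L 45 1))))) (P 15 (L 45 1))))) (P 15 (A13 (A12 (M 1 (L 45 1))
  (A23 (B12 (M 1 (L 45 1)) (B02 (M 1 (L 45 1)) (M 2 (L 25 4)))) (M 1 (L 45 1)))) (A23 (A12 (M 1 (L
  45 1)) (B12 (M 1 (L 45 1)) (B02 (M 1 (L 45 1)) (M 2 (L 25 4))))) (M 1 (L 45 1))))))) (P 15 (A23
  (B02 (A02 (B01 (A01 (A03 (M 2 (L 25 4)) (B02 (M 1 (L 45 1)) (A23 (M 2 (L 25 4)) (M 1 (L 45 1)))))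
  (A12 (M 1 (L 45 1)) (B02 (M 1 (L 45 1)) (A23 (M 2 (L 25 4)) (M 1 (L 45 1)))))) (A01 (A03 (M 2 (L
  25 4)) (B12 (M 2 (L 25 4)) (A23 (M 2 (L 25 4)) (A13 (M 2 (L 25 4)) (M 19 (L 41 5)))))) (A12 (B12
  (M 2 (L 25 4)) (M 1 (L 45 1))) (B12 (M 2 (L 25 4)) (A23 (M 2 (L 25 4)) (A03 (M 2 (L 25 4)) (M 19
  (L 41 5)))))))) (B01 (A12 (A01 (M 19 (L 41 5)) (M 1 (L 45 1))) (M 19 (L 41 5))) (A12 (A01 (M 19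
  (L 41 5)) (B12 (M 2 (L 25 4)) (A13 (M 2 (L 25 4)) (M 19 (L 41 5))))) (M 19 (L 41 5))))) (M 19 (L
  41 5))) (B02 (A03 (B01 (M 1 (L 45 1)) (A01 (A02 (M 2 (L 25 4)) (B12 (M 2 (L 25 4)) (M 1 (L 45
  1)))) (M 1 (L 45 1)))) (M 1 (L 45 1))) (A03 (A01 (A02 (M 2 (L 25 4)) (B12 (B01 (A23 (M 19 (L 41
  5)) (M 2 (L 25 4))) (M 2 (L 25 4))) (M 19 (L 41 5)))) (A13 (M 19 (L 41 5)) (B12 (B01 (A23 (M 19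
  (L 41 5)) (M 2 (L 25 4))) (M 2 (L 25 4))) (M 19 (L 41 5))))) (A13 (A01 (B12 (B01 (A02 (M 1 (L 45
  1)) (B02 (M 1 (L 45 1)) (M 2 (L 25 4)))) (M 2 (L 25 4))) (M 19 (L 41 5))) (B12 (B01 (A12 (M 1 (L
  45 1)) (B02 (M 1 (L 45 1)) (M 2 (L 25 4)))) (M 2 (L 25 4))) (M 19 (L 41 5)))) (A23 (B12 (B01 (A02
  (M 1 (L 45 1)) (B02 (M 1 (L 45 1)) (M 2 (L 25 4)))) (M 2 (L 25 4))) (M 19 (L 41 5))) (M 1 (L 45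
  1))))))))) (P 15 (A12 (A01 (B12 (M 2 (L 25 4)) (A03 (M 2 (L 25 4)) (A23 (M 2 (L 25 4)) (A13 (M 2
  (L 25 4)) (B02 (M 2 (L 25 4)) (B12 (M 2 (L 25 4)) (A03 (M 2 (L 25 4)) (M 1 (L 45 1))))))))) (B12
  (M 2 (L 25 4)) (A13 (M 2 (L 25 4)) (A23 (M 2 (L 25 4)) (M 1 (L 45 1)))))) (A23 (M 2 (L 25 4))
  (B12 (M 2 (L 25 4)) (A03 (M 2 (L 25 4)) (A13 (M 2 (L 25 4)) (A23 (M 2 (L 25 4)) (B02 (M 2 (L 25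
  4)) (M 19 (L 41 5)))))))))))))) (A02 (M 16 (P 13 (A01 (P 15 (A03 (out 10) (B02 (B01 (M 1 (L 45
  1)) (A23 (B12 (M 2 (L 25 4)) (A12 (M 1 (L 45 1)) (A02 (M 1 (L 45 1)) (B02 (A23 (out 10) (M 1 (L
  45 1))) (A23 (out 10) (M 1 (L 45 1))))))) (M 1 (L 45 1)))) (B12 (A23 (B01 (A12 (M 1 (L 45 1))
  (A02 (M 1 (L 45 1)) (B02 (A23 (out 10) (M 1 (L 45 1))) (M 19 (L 41 5))))) (A12 (M 1 (L 45 1))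
  (A02 (B12 (M 2 (L 25 4)) (M 1 (L 45 1))) (M 19 (L 41 5))))) (M 1 (L 45 1))) (A23 (A12 (M 1 (L 45
  1)) (A02 (M 1 (L 45 1)) (B02 (B01 (M 1 (L 45 1)) (M 19 (L 41 5))) (M 19 (L 41 5))))) (M 1 (L 45
  1))))))) (A12 (M 1 (B02 (B01 (S 2 (L 8 4) (L 25 4)) (P 15 (L 45 1))) (P 15 (L 45 1)))) (P 15 (B02
  (B01 (M 1 (L 45 1)) (A23 (B12 (M 2 (L 25 4)) (A02 (M 1 (L 45 1)) (A12 (M 1 (L 45 1)) (B02 (A23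
  (out 10) (M 1 (L 45 1))) (A23 (out 10) (M 1 (L 45 1))))))) (M 1 (L 45 1)))) (B12 (A23 (B01 (A02
  (M 1 (L 45 1)) (A12 (M 1 (L 45 1)) (B02 (A23 (out 10) (M 1 (L 45 1))) (M 19 (L 41 5))))) (A02 (M
  1 (L 45 1)) (M 19 (L 41 5)))) (M 1 (L 45 1))) (A23 (A02 (M 1 (L 45 1)) (A12 (M 1 (L 45 1)) (B02
  (B01 (M 1 (L 45 1)) (M 19 (L 41 5))) (M 19 (L 41 5))))) (M 1 (L 45 1)))))))))) (A12 (M 16 (P 13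
  (A01 (P 15 (B02 (B01 (M 1 (L 45 1)) (A03 (B12 (A02 (M 2 (L 25 4)) (A23 (B01 (M 1 (L 45 1)) (A12
  (B12 (M 2 (L 25 4)) (A01 (M 19 (L 41 5)) (M 1 (L 45 1)))) (M 19 (L 41 5)))) (B01 (M 1 (L 45 1))
  (A13 (B12 (M 2 (L 25 4)) (A01 (M 19 (L 41 5)) (M 1 (L 45 1)))) (M 19 (L 41 5)))))) (A02 (A01 (M
  19 (L 41 5)) (M 1 (L 45 1))) (M 1 (L 45 1)))) (B12 (A23 (A02 (M 1 (L 45 1)) (B01 (M 1 (L 45 1))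
  (A12 (M 1 (L 45 1)) (M 19 (L 41 5))))) (M 1 (L 45 1))) (M 1 (L 45 1))))) (B12 (A03 (B01 (A02 (A01
  (M 19 (L 41 5)) (B02 (M 1 (L 45 1)) (M 19 (L 41 5)))) (A23 (B02 (M 1 (L 45 1)) (M 19 (L 41 5)))
  (B02 (M 1 (L 45 1)) (M 19 (L 41 5))))) (M 19 (L 41 5))) (B01 (M 1 (L 45 1)) (M 19 (L 41 5))))
  (A03 (A02 (A01 (M 19 (L 41 5)) (B02 (B01 (M 1 (L 45 1)) (M 19 (L 41 5))) (M 19 (L 41 5)))) (A23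
  (B02 (B01 (M 1 (L 45 1)) (M 19 (L 41 5))) (M 19 (L 41 5))) (B02 (B01 (M 1 (L 45 1)) (M 19 (L 41
  5))) (M 19 (L 41 5))))) (M 1 (L 45 1)))))) (B02 (B01 (M 1 (A13 (A12 (A01 (B02 (S 2 (L 8 4) (L 25
  4)) (P 15 (L 45 1))) (B02 (S 2 (L 8 4) (L 25 4)) (B12 (P 19 (L 58 5)) (M 5 (L 40 7))))) (A23 (P
  15 (L 45 1)) (B02 (S 2 (L 8 4) (L 25 4)) (P 15 (L 45 1))))) (A23 (A12 (B02 (B01 (S 2 (L 8 4) (L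
  25 4)) (P 15 (L 45 1))) (P 15 (L 45 1))) (P 15 (L 45 1))) (A03 (B02 (B01 (S 2 (L 8 4) (L 25 4))
  (P 15 (L 45 1))) (P 15 (L 45 1))) (B02 (B01 (S 2 (L 8 4) (L 25 4)) (P 15 (L 45 1))) (P 15 (L 45
  1))))))) (P 15 (A13 (B12 (A12 (M 1 (L 45 1)) (A23 (B01 (M 1 (L 45 1)) (A02 (M 1 (L 45 1)) (M 19
  (L 41 5)))) (M 1 (L 45 1)))) (M 1 (L 45 1))) (B12 (A23 (A12 (M 1 (L 45 1)) (B01 (M 1 (L 45 1))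
  (A02 (M 1 (L 45 1)) (M 19 (L 41 5))))) (M 1 (L 45 1))) (M 1 (L 45 1)))))) (P 15 (B12 (A13 (B01 (M
  1 (L 45 1)) (A12 (M 1 (L 45 1)) (A23 (M 19 (L 41 5)) (M 1 (L 45 1))))) (B01 (M 1 (L 45 1)) (A23
  (A12 (M 1 (L 45 1)) (M 19 (L 41 5))) (M 1 (L 45 1))))) (M 1 (L 45 1)))))))) (P 15 (A23 (B02 (P 13
  (B01 (A02 (A01 (A03 (B02 (B01 (M 1 (L 45 1)) (M 19 (L 41 5))) (M 19 (L 41 5))) (B02 (B01 (M 1 (L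
  45 1)) (M 19 (L 41 5))) (M 19 (L 41 5)))) (A12 (M 1 (L 45 1)) (B02 (B01 (M 1 (L 45 1)) (M 19 (L
  41 5))) (M 19 (L 41 5))))) (A12 (A01 (M 19 (L 41 5)) (M 1 (L 45 1))) (M 19 (L 41 5)))) (M 19 (L
  41 5)))) (M 19 (B12 (P 13 (L 41 5)) (A02 (P 13 (L 41 5)) (M 5 (L 46 7)))))) (P 13 (B02 (B01 (M 1
  (L 45 1)) (A03 (M 19 (L 41 5)) (B12 (A13 (M 19 (L 41 5)) (A23 (M 19 (L 41 5)) (M 1 (L 45 1)))) (M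
  1 (L 45 1))))) (B12 (A03 (M 19 (L 41 5)) (B01 (M 1 (L 45 1)) (M 19 (L 41 5)))) (A03 (M 19 (L 41
  5)) (M 5 (L 46 7))))))))))) (B12 (A23 (M 16 (P 13 (B01 (A12 (A13 (B02 (M 1 (A01 (B01 (A02 (A03
  (B02 (S 2 (L 8 4) (L 25 4)) (P 15 (L 45 1))) (B02 (S 2 (L 8 4) (L 25 4)) (P 15 (L 45 1)))) (A12
  (B02 (S 2 (L 8 4) (L 25 4)) (P 15 (L 45 1))) (B02 (A23 (P 15 (L 45 1)) (B01 (M 5 (L 40 7)) (P 15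
  (L 45 1)))) (P 15 (L 45 1))))) (P 15 (L 45 1))) (B01 (A12 (A13 (S 2 (L 8 4) (L 25 4)) (B02 (S 2
  (L 8 4) (L 25 4)) (P 15 (L 45 1)))) (A02 (B02 (S 2 (L 8 4) (L 25 4)) (P 15 (L 45 1))) (B02 (A23
  (P 15 (L 45 1)) (B01 (M 5 (L 40 7)) (P 15 (L 45 1)))) (P 15 (L 45 1))))) (P 15 (L 45 1))))) (P 15
  (A01 (A02 (M 1 (L 45 1)) (A12 (M 1 (L 45 1)) (B12 (M 1 (L 45 1)) (B02 (M 1 (L 45 1)) (M 19 (L 41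
  5)))))) (A12 (M 1 (L 45 1)) (A02 (M 1 (L 45 1)) (B12 (M 1 (L 45 1)) (B02 (M 1 (L 45 1)) (A23 (A12
  (M 1 (L 45 1)) (M 19 (L 41 5))) (M 1 (L 45 1)))))))))) (B02 (M 1 (A03 (B01 (A02 (A01 (P 15 (L 45
  1)) (B02 (A13 (B01 (M 5 (L 40 7)) (P 15 (L 45 1))) (P 15 (L 45 1))) (P 15 (L 45 1)))) (A23 (B02
  (A12 (B01 (M 5 (L 40 7)) (P 15 (L 45 1))) (P 15 (L 45 1))) (P 15 (L 45 1))) (B02 (A13 (B01 (M 5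
  (L 40 7)) (P 15 (L 45 1))) (P 15 (L 45 1))) (P 15 (L 45 1))))) (P 15 (L 45 1))) (B01 (A23 (A02 (M
  5 (L 40 7)) (B02 (A12 (M 5 (L 40 7)) (P 15 (L 45 1))) (P 15 (L 45 1)))) (M 5 (L 40 7))) (P 15 (L
  45 1))))) (P 15 (A03 (A02 (M 1 (L 45 1)) (A23 (B12 (M 1 (L 45 1)) (M 19 (L 41 5))) (M 1 (L 45
  1)))) (A23 (A02 (B12 (M 1 (L 45 1)) (M 19 (L 41 5))) (B12 (M 1 (L 45 1)) (M 19 (L 41 5)))) (A13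
  (B12 (M 1 (L 45 1)) (M 19 (L 41 5))) (M 19 (L 41 5)))))))) (P 15 (A02 (B02 (M 1 (L 45 1)) (A03
  (A01 (A02 (M 1 (L 45 1)) (B12 (B01 (A23 (B02 (M 1 (L 45 1)) (A12 (M 1 (L 45 1)) (M 19 (L 41 5))))
  (M 1 (L 45 1))) (A23 (A12 (M 1 (L 45 1)) (M 19 (L 41 5))) (M 1 (L 45 1)))) (M 19 (L 41 5)))) (A13
  (B12 (B01 (A12 (M 1 (L 45 1)) (B02 (M 1 (L 45 1)) (A02 (M 1 (L 45 1)) (M 19 (L 41 5))))) (M 2 (L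
  25 4))) (M 19 (L 41 5))) (B12 (B01 (A23 (B02 (M 1 (L 45 1)) (A02 (M 1 (L 45 1)) (M 19 (L 41 5))))
  (M 1 (L 45 1))) (A23 (A02 (M 1 (L 45 1)) (M 19 (L 41 5))) (M 1 (L 45 1)))) (M 19 (L 41 5))))) (M
  19 (L 41 5)))) (B02 (A23 (B01 (A12 (M 1 (L 45 1)) (M 19 (L 41 5))) (A12 (A13 (B12 (M 2 (L 25 4))
  (A01 (M 19 (L 41 5)) (A12 (M 1 (L 45 1)) (M 19 (L 41 5))))) (M 19 (L 41 5))) (M 19 (L 41 5))))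
  (B01 (M 1 (L 45 1)) (A13 (A12 (M 1 (L 45 1)) (M 19 (L 41 5))) (M 19 (L 41 5))))) (M 19 (L 41
  5)))))) (P 15 (A12 (A13 (B12 (M 2 (L 25 4)) (A01 (A02 (M 1 (L 45 1)) (A12 (M 1 (L 45 1)) (B02 (M
  2 (L 25 4)) (M 19 (L 41 5))))) (A12 (M 1 (L 45 1)) (A02 (M 1 (L 45 1)) (B02 (M 2 (L 25 4)) (B12
  (M 2 (L 25 4)) (A23 (M 2 (L 25 4)) (M 1 (L 45 1))))))))) (B12 (A03 (M 2 (L 25 4)) (B01 (A23 (M 2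
  (L 25 4)) (A13 (B02 (A01 (M 19 (L 41 5)) (B01 (M 1 (L 45 1)) (M 2 (L 25 4)))) (M 2 (L 25 4))) (M
  19 (L 41 5)))) (M 19 (L 41 5)))) (A03 (A02 (M 1 (L 45 1)) (A23 (B02 (M 2 (L 25 4)) (M 19 (L 41
  5))) (B02 (B01 (M 1 (L 45 1)) (M 19 (L 41 5))) (M 19 (L 41 5))))) (A23 (A02 (B02 (B01 (M 1 (L 45
  1)) (M 19 (L 41 5))) (M 19 (L 41 5))) (B02 (M 2 (L 25 4)) (M 19 (L 41 5)))) (A13 (B02 (B01 (M 1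
  (L 45 1)) (M 19 (L 41 5))) (M 19 (L 41 5))) (M 19 (L 41 5))))))) (A02 (B12 (A03 (M 2 (L 25 4)) (M
  19 (L 41 5))) (A03 (A01 (A02 (B02 (B01 (M 1 (L 45 1)) (A03 (M 2 (L 25 4)) (M 19 (L 41 5)))) (M 19
  (L 41 5))) (B02 (B01 (A23 (M 2 (L 25 4)) (M 1 (L 45 1))) (M 19 (L 41 5))) (M 19 (L 41 5)))) (A13
  (M 2 (L 25 4)) (B02 (B01 (A23 (M 2 (L 25 4)) (M 1 (L 45 1))) (M 19 (L 41 5))) (M 19 (L 41 5)))))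
  (M 19 (L 41 5)))) (M 19 (L 41 5)))))))) (B01 (A13 (M 16 (P 13 (A12 (M 1 (B02 (A01 (B01 (A03 (A02
  (S 2 (L 8 4) (L 25 4)) (B02 (S 2 (L 8 4) (L 25 4)) (A12 (P 19 (L 58 5)) (M 5 (L 40 7))))) (A13
  (B02 (S 2 (L 8 4) (L 25 4)) (A12 (P 19 (L 58 5)) (M 5 (L 40 7)))) (M 5 (L 40 7)))) (A03 (P 15 (L
  45 1)) (A13 (P 15 (L 45 1)) (B12 (A23 (P 15 (L 45 1)) (P 19 (L 58 5))) (M 5 (L 40 7)))))) (B01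
  (A13 (A12 (S 2 (L 8 4) (L 25 4)) (B02 (S 2 (L 8 4) (L 25 4)) (A02 (P 19 (L 58 5)) (M 5 (L 40
  7))))) (A03 (B02 (S 2 (L 8 4) (L 25 4)) (A02 (P 19 (L 58 5)) (M 5 (L 40 7)))) (M 5 (L 40 7))))
  (A13 (P 15 (L 45 1)) (A03 (P 15 (L 45 1)) (B12 (A23 (P 15 (L 45 1)) (P 19 (L 58 5))) (M 5 (L 40
  7))))))) (A01 (A03 (P 15 (L 45 1)) (A13 (P 15 (L 45 1)) (B12 (B01 (A23 (P 15 (L 45 1)) (M 5 (L 40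
  7))) (P 15 (L 45 1))) (B02 (A23 (P 15 (L 45 1)) (M 5 (L 40 7))) (P 15 (L 45 1)))))) (A13 (P 15 (L
  45 1)) (A03 (P 15 (L 45 1)) (B12 (B01 (A23 (P 15 (L 45 1)) (M 5 (L 40 7))) (P 15 (L 45 1))) (B02
  (A23 (P 15 (L 45 1)) (M 5 (L 40 7))) (P 15 (L 45 1))))))))) (B02 (M 1 (A02 (B01 (A03 (A01 (B02
  (A02 (S 2 (L 8 4) (L 25 4)) (M 5 (L 40 7))) (A02 (A03 (P 15 (L 45 1)) (M 5 (L 40 7))) (M 5 (L 40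
  7)))) (M 5 (L 40 7))) (M 5 (L 40 7))) (A03 (P 15 (L 45 1)) (A23 (P 15 (L 45 1)) (B12 (A13 (P 15
  (L 45 1)) (B01 (M 5 (L 40 7)) (P 15 (L 45 1)))) (M 5 (L 40 7)))))) (B01 (M 5 (L 40 7)) (A23 (P 15
  (L 45 1)) (A03 (P 15 (L 45 1)) (B12 (A13 (P 15 (L 45 1)) (M 5 (L 40 7))) (M 5 (L 40 7))))))))
  (A02 (M 1 (A03 (P 15 (L 45 1)) (A23 (P 15 (L 45 1)) (B12 (B01 (A13 (P 15 (L 45 1)) (M 5 (L 40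
  7))) (P 15 (L 45 1))) (B02 (A13 (P 15 (L 45 1)) (M 5 (L 40 7))) (P 15 (L 45 1))))))) (A23 (P 15
  (A12 (M 1 (L 45 1)) (M 19 (L 41 5)))) (M 1 (A03 (P 15 (L 45 1)) (B12 (B01 (A13 (P 15 (L 45 1)) (M
  5 (L 40 7))) (P 15 (L 45 1))) (B02 (A13 (P 15 (L 45 1)) (M 5 (L 40 7))) (P 15 (L 45 1))))))))))))
  (A03 (M 16 (P 13 (B02 (M 1 (A02 (B01 (A01 (A03 (B02 (A02 (S 2 (L 8 4) (L 25 4)) (M 5 (L 40 7)))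
  (A02 (A01 (P 15 (L 45 1)) (M 5 (L 40 7))) (M 5 (L 40 7)))) (M 5 (L 40 7))) (M 5 (L 40 7))) (A01
  (A03 (P 15 (L 45 1)) (B12 (A23 (P 15 (L 45 1)) (B01 (M 5 (L 40 7)) (P 15 (L 45 1)))) (M 5 (L 40
  7)))) (A12 (B12 (A13 (B01 (M 5 (L 40 7)) (P 15 (L 45 1))) (B01 (M 5 (L 40 7)) (P 15 (L 45 1))))
  (M 5 (L 40 7))) (B12 (A23 (P 15 (L 45 1)) (B01 (M 5 (L 40 7)) (P 15 (L 45 1)))) (M 5 (L 40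
  7)))))) (B01 (M 5 (L 40 7)) (A12 (A01 (B12 (A03 (P 15 (L 45 1)) (M 5 (L 40 7))) (M 5 (L 40 7)))
  (M 5 (L 40 7))) (A23 (P 15 (L 45 1)) (B12 (A03 (P 15 (L 45 1)) (M 5 (L 40 7))) (M 5 (L 40
  7)))))))) (A02 (M 1 (A01 (A03 (P 15 (L 45 1)) (B12 (B01 (M 5 (L 40 7)) (P 15 (L 45 1))) (M 5 (L
  40 7)))) (A12 (B12 (B01 (M 5 (L 40 7)) (P 15 (L 45 1))) (M 5 (L 40 7))) (B12 (B01 (M 5 (L 40 7))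
  (P 15 (L 45 1))) (M 5 (L 40 7)))))) (A12 (M 1 (A01 (B12 (B01 (M 5 (L 40 7)) (P 15 (L 45 1))) (M 5
  (L 40 7))) (M 5 (L 40 7)))) (M 19 (L 41 5))))))) (M 5 (P 2 (B02 (P 6 (A23 (P 13 (L 40 7)) (B01 (P
  12 (L 38 10)) (A13 (P 13 (L 40 7)) (A03 (P 13 (L 40 7)) (B12 (P 13 (L 40 7)) (A23 (A12 (A13 (P 13
  (L 40 7)) (S 12 (L 38 10) (L 7 10))) (S 12 (L 38 10) (L 18 10))) (P 12 (L 38 10))))))))) (A23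
  (A12 (P 6 (A13 (P 13 (L 40 7)) (S 12 (L 38 10) (L 18 10)))) (A02 (S 12 (L 38 4) (L 7 4)) (B12 (P
  13 (L 40 7)) (B02 (P 13 (L 40 7)) (P 15 (L 46 7)))))) (P 6 (A13 (A12 (P 13 (L 40 7)) (S 12 (L 38
  10) (L 18 10))) (S 12 (L 38 10) (L 18 10)))))))))) (A13 (P 15 (P 13 (A12 (M 1 (L 45 1)) (B12 (A02
  (B01 (M 1 (L 45 1)) (A03 (M 2 (L 25 4)) (A23 (M 2 (L 25 4)) (M 1 (L 45 1))))) (B01 (A23 (A12 (M 1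
  (L 45 1)) (M 19 (L 41 5))) (M 1 (L 45 1))) (A23 (M 19 (L 41 5)) (A03 (M 19 (L 41 5)) (M 1 (L 45
  1)))))) (A02 (M 1 (L 45 1)) (A23 (A12 (M 1 (L 45 1)) (M 19 (L 41 5))) (M 1 (L 45 1)))))))) (A03
  (P 15 (P 13 (B12 (A02 (B01 (M 1 (L 45 1)) (A01 (A03 (M 2 (L 25 4)) (B12 (A23 (M 2 (L 25 4)) (M 1
  (L 45 1))) (A23 (A12 (M 1 (L 45 1)) (M 19 (L 41 5))) (M 1 (L 45 1))))) (A12 (M 1 (L 45 1)) (B12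
  (A23 (M 2 (L 25 4)) (M 1 (L 45 1))) (A23 (A02 (M 1 (L 45 1)) (M 19 (L 41 5))) (M 1 (L 45 1)))))))
  (B01 (A12 (M 1 (L 45 1)) (M 19 (L 41 5))) (A12 (A01 (M 19 (L 41 5)) (M 1 (L 45 1))) (M 19 (L 41
  5))))) (A02 (M 1 (L 45 1)) (A12 (M 1 (L 45 1)) (M 19 (L 41 5))))))) (B12 (P 13 (A23 (P 15 (B01
  (A12 (M 1 (L 45 1)) (M 19 (L 41 5))) (A12 (M 1 (L 45 1)) (M 19 (L 41 5))))) (M 1 (B01 (A13 (P 15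
  (L 45 1)) (M 5 (L 40 7))) (P 15 (L 45 1)))))) (M 5 (A23 (P 15 (L 46 7)) (P 6 (A13 (P 15 (L 46 7))
  (S 12 (L 38 4) (L 18 10))))))))))) (A23 (A12 (A13 (M 16 (P 13 (B02 (B01 (M 1 (A01 (A02 (M 5 (L 40
  7)) (A12 (M 5 (L 40 7)) (B02 (B01 (M 5 (L 40 7)) (P 15 (L 45 1))) (P 15 (L 45 1))))) (A12 (A13
  (B02 (S 2 (L 8 4) (L 25 4)) (B12 (P 19 (L 58 5)) (M 5 (L 40 7)))) (B02 (B01 (M 5 (L 40 7)) (A03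
  (P 19 (L 58 5)) (B12 (P 15 (L 45 1)) (M 5 (L 40 7))))) (B12 (A03 (P 19 (L 58 5)) (B01 (M 5 (L 40
  7)) (P 15 (L 45 1)))) (M 5 (L 40 7))))) (A02 (B02 (B01 (M 5 (L 40 7)) (P 15 (L 45 1))) (P 15 (L
  45 1))) (B02 (B01 (M 5 (L 40 7)) (P 15 (L 45 1))) (P 15 (L 45 1))))))) (P 15 (A01 (B12 (A02 (M 1
  (L 45 1)) (A12 (M 1 (L 45 1)) (B01 (M 1 (L 45 1)) (M 19 (L 41 5))))) (M 1 (L 45 1))) (B12 (A12 (M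
  1 (L 45 1)) (A02 (M 1 (L 45 1)) (B01 (M 1 (L 45 1)) (M 19 (L 41 5))))) (M 1 (L 45 1)))))) (P 15
  (B12 (A01 (B01 (M 5 (L 40 7)) (A02 (M 1 (L 45 1)) (A12 (M 1 (L 45 1)) (M 19 (L 41 5))))) (B01 (M
  5 (L 40 7)) (A12 (M 1 (L 45 1)) (A02 (M 1 (L 45 1)) (M 19 (L 41 5)))))) (M 1 (L 45 1))))))) (B02
  (B01 (M 1 (A03 (P 13 (A02 (M 5 (L 40 7)) (A23 (B02 (B01 (M 5 (L 40 7)) (P 15 (L 45 1))) (P 15 (L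
  45 1))) (M 5 (L 40 7))))) (A23 (P 13 (A02 (M 5 (L 40 7)) (B02 (B01 (M 5 (L 40 7)) (P 15 (L 45
  1))) (P 15 (L 45 1))))) (M 5 (A13 (P 13 (L 40 7)) (P 15 (L 45 1))))))) (P 15 (A03 (P 13 (B12 (A02
  (M 1 (L 45 1)) (M 19 (L 41 5))) (M 1 (L 45 1)))) (M 19 (B12 (P 13 (L 41 5)) (M 1 (L 45 1)))))))
  (P 15 (B12 (A03 (P 13 (B01 (M 1 (L 45 1)) (M 19 (L 41 5)))) (M 19 (B01 (M 1 (L 45 1)) (A23 (P 13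
  (L 41 5)) (M 5 (L 46 7)))))) (M 1 (L 45 1)))))) (P 15 (A02 (B02 (B01 (M 1 (L 45 1)) (A03 (P 13
  (B12 (A01 (A02 (M 1 (L 45 1)) (M 19 (L 41 5))) (M 19 (L 41 5))) (M 1 (L 45 1)))) (M 19 (B12 (P 13
  (L 41 5)) (M 1 (L 45 1)))))) (B12 (A03 (P 13 (B01 (M 5 (L 46 7)) (M 19 (L 41 5)))) (M 19 (B01 (M
  5 (L 46 7)) (A13 (P 13 (L 41 5)) (A23 (P 13 (L 41 5)) (M 5 (L 46 7))))))) (M 5 (L 46 7)))) (B02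
  (B01 (A23 (P 13 (A12 (M 1 (L 45 1)) (M 19 (L 41 5)))) (M 1 (L 45 1))) (M 19 (A23 (P 13 (L 41 5))
  (B12 (P 13 (L 41 5)) (A13 (P 13 (L 41 5)) (M 5 (L 46 7))))))) (M 19 (B12 (A23 (B01 (M 5 (L 46 7))
  (A12 (A13 (P 13 (L 41 5)) (B12 (P 13 (L 41 5)) (A03 (P 13 (L 41 5)) (A23 (P 13 (L 41 5)) (M 5 (L
  46 7)))))) (A02 (B12 (P 13 (L 41 5)) (A03 (P 13 (L 41 5)) (A13 (P 13 (L 41 5)) (M 5 (L 46 7)))))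
  (M 6 (L 43 10))))) (B01 (M 5 (L 46 7)) (A13 (A12 (P 13 (L 41 5)) (B12 (P 13 (L 41 5)) (M 5 (L 46
  7)))) (A03 (B12 (P 13 (L 41 5)) (M 5 (L 46 7))) (M 5 (L 46 7)))))) (M 5 (L 46 7)))))))) (A13 (A12
  (M 1 (B02 (P 13 (B01 (M 5 (L 40 7)) (A01 (B12 (A03 (P 15 (L 45 1)) (A13 (P 15 (L 45 1)) (M 5 (L
  40 7)))) (M 5 (L 40 7))) (B12 (A13 (P 15 (L 45 1)) (A03 (P 15 (L 45 1)) (M 5 (L 40 7)))) (M 5 (L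
  40 7)))))) (B12 (P 13 (A01 (B01 (M 5 (L 40 7)) (A03 (P 15 (L 45 1)) (A13 (P 15 (L 45 1)) (M 5 (L
  40 7))))) (B01 (M 5 (L 40 7)) (A13 (P 15 (L 45 1)) (A03 (P 15 (L 45 1)) (M 5 (L 40 7))))))) (M 5
  (A01 (A03 (M 16 (S 10 (L 32 8) (L 2 8))) (A13 (P 13 (L 40 7)) (B02 (P 13 (L 40 7)) (P 10 (L 31
  8))))) (A13 (P 13 (L 40 7)) (A03 (P 13 (L 40 7)) (B02 (P 13 (L 40 7)) (P 10 (L 31 8)))))))))) (M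
  5 (P 2 (B02 (B01 (P 6 (A02 (P 13 (L 40 7)) (A23 (A12 (P 13 (L 40 7)) (B02 (P 13 (L 40 7)) (S 12
  (L 38 10) (L 18 10)))) (P 13 (L 40 7))))) (A02 (P 13 (L 40 7)) (B12 (P 13 (K [(40,7,6),(40,5,2)]
  [])) (P 6 (A23 (S 12 (L 38 10) (L 18 10)) (P 13 (L 40 7))))))) (B12 (A02 (M 16 (S 10 (L 32 8) (L
  2 8))) (M 19 (B01 (P 6 (S 12 (L 38 10) (L 18 10))) (A23 (P 15 (L 46 7)) (P 13 (L 41 5)))))) (P 6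
  (A02 (A03 (A01 (B02 (M 16 (S 10 (L 32 8) (L 2 8))) (S 12 (L 38 4) (L 7 4))) (S 12 (L 38 10) (L 18
  10))) (S 12 (L 38 10) (L 18 10))) (S 12 (L 38 10) (L 18 10))))))))) (M 5 (P 2 (A03 (B02 (B01 (P 6
  (A02 (S 12 (L 38 10) (L 18 10)) (A12 (S 12 (L 38 10) (L 18 10)) (A23 (B02 (P 13 (L 40 7)) (S 12
  (L 38 10) (L 18 10))) (S 12 (L 38 10) (L 18 10)))))) (A02 (M 16 (S 10 (L 32 8) (L 2 8))) (B12 (P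
  13 (K [(40,7,6),(40,5,2)] [])) (P 6 (A12 (M 16 (S 10 (L 32 8) (L 2 8))) (S 12 (L 38 4) (L 18
  10))))))) (B12 (A02 (M 16 (S 10 (L 32 8) (L 2 8))) (M 19 (P 10 (B01 (P 6 (S 12 (L 38 10) (L 18
  10))) (A12 (P 13 (L 41 5)) (A23 (P 15 (L 46 7)) (M 1 (L 31 1)))))))) (P 6 (A02 (A01 (A03 (B02 (M
  16 (S 10 (L 32 8) (L 2 8))) (S 12 (L 38 4) (L 7 4))) (S 12 (L 38 4) (L 7 4))) (S 12 (L 38 10) (L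
  18 10))) (S 12 (L 38 10) (L 18 10)))))) (B02 (B01 (P 6 (M 1 (A23 (A12 (A13 (B02 (P 13 (L 40 7))
  (B12 (P 13 (L 40 7)) (A01 (A02 (P 12 (L 38 10)) (A12 (P 12 (L 38 10)) (P 10 (L 31 8)))) (A12 (P
  12 (L 38 10)) (A02 (P 12 (L 38 10)) (P 10 (L 31 8))))))) (B02 (B01 (P 12 (L 38 10)) (A03 (P 13 (L
  40 7)) (S 12 (L 38 10) (L 18 10)))) (B12 (A03 (P 13 (L 40 7)) (S 12 (L 38 10) (L 18 10))) (A03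
  (A02 (P 12 (L 38 10)) (S 12 (L 38 10) (L 7 10))) (S 12 (L 38 10) (L 7 10)))))) (A02 (B02 (B01 (P
  12 (L 38 10)) (A03 (P 13 (L 40 7)) (S 12 (L 38 10) (L 18 10)))) (B12 (A03 (P 13 (L 40 7)) (S 12
  (L 38 10) (L 18 10))) (A03 (A01 (P 12 (L 38 4)) (S 12 (L 38 10) (L 7 10))) (S 12 (L 38 10) (L 7
  10))))) (B02 (B01 (A23 (M 16 (S 10 (L 32 8) (L 2 8))) (P 12 (L 38 10))) (S 12 (L 38 10) (L 18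
  10))) (S 12 (L 38 10) (L 18 10))))) (P 12 (L 38 10))))) (A23 (B12 (A12 (P 6 (A13 (P 13 (L 40 7))
  (S 12 (L 38 10) (L 18 10)))) (P 10 (A02 (S 12 (L 38 4) (L 7 4)) (B01 (S 12 (L 38 10) (L 7 4))
  (A23 (P 15 (L 46 7)) (M 1 (L 31 1))))))) (P 6 (A12 (A13 (B02 (P 13 (L 40 7)) (S 12 (L 38 10) (L
  18 10))) (S 12 (L 38 10) (L 18 10))) (S 12 (L 38 10) (L 18 10))))) (P 6 (B12 (A13 (A12 (P 13 (L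
  40 7)) (S 12 (L 38 10) (L 18 10))) (S 12 (L 38 10) (L 18 10))) (P 12 (L 38 10)))))) (M 19 (P 10
  (B12 (A23 (B01 (P 6 (S 12 (L 38 10) (L 18 10))) (A12 (P 6 (S 12 (L 38 10) (L 18 10))) (A02 (M 1
  (L 31 1)) (B12 (A23 (P 15 (L 46 7)) (M 1 (L 31 1))) (M 1 (L 31 1)))))) (M 1 (K
  [(31,8,507),(31,1,493)] []))) (A23 (S 13 (L 41 5) (L 13 5)) (S 12 (L 38 10) (L 7
  10))))))))))))))))))) (A12 (A13 (A01 (P 8 (M 7 (B12 (P 13 (A02 (B01 (A03 (P 15 (A01 (B02 (A02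
  (B01 (A03 (M 19 (L 41 5)) (A23 (M 19 (L 41 5)) (M 1 (L 45 1)))) (M 2 (L 25 4))) (B01 (A23 (out 5)
  (A03 (out 5) (M 1 (L 45 1)))) (M 2 (L 25 4)))) (M 2 (L 25 4))) (B02 (A12 (B01 (M 1 (L 45 1)) (M 2
  (L 25 4))) (B01 (A23 (out 5) (M 1 (L 45 1))) (M 2 (L 25 4)))) (M 2 (L 25 4))))) (A23 (P 15 (B02
  (A12 (M 1 (L 45 1)) (B01 (A02 (M 1 (L 45 1)) (out 5)) (M 2 (L 25 4)))) (M 2 (L 25 4)))) (B02 (M 1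
  (A13 (P 15 (L 45 1)) (B01 (A03 (P 15 (L 45 1)) (A23 (P 15 (L 45 1)) (P 19 (L 58 5)))) (P 15 (L 45
  1))))) (P 15 (A13 (M 2 (L 25 4)) (A03 (M 2 (L 25 4)) (M 1 (L 45 1)))))))) (M 2 (L 25 4))) (B01
  (A23 (out 5) (A03 (out 5) (B02 (M 1 (A13 (out 5) (B01 (A23 (out 5) (A03 (P 15 (L 45 1)) (P 19 (L
  58 5)))) (P 15 (L 45 1))))) (P 15 (A13 (out 5) (M 1 (L 45 1))))))) (M 2 (A23 (out 5) (L 25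
  4)))))) (A02 (A03 (P 15 (A01 (B02 (P 13 (B01 (A02 (A03 (M 19 (L 41 5)) (A23 (M 19 (L 41 5)) (M 1
  (L 45 1)))) (A23 (out 5) (A03 (out 5) (M 1 (L 45 1))))) (M 19 (L 41 5)))) (M 19 (B12 (P 13 (L 41
  5)) (A02 (A03 (A01 (B02 (B01 (M 5 (L 46 7)) (A02 (M 5 (L 46 7)) (P 13 (L 41 5)))) (B12 (A02 (M 5
  (L 46 7)) (B01 (M 5 (L 46 7)) (M 6 (L 43 10)))) (M 5 (L 46 7)))) (B02 (P 13 (L 41 5)) (B12 (P 13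
  (L 41 5)) (M 5 (L 46 7))))) (A23 (B02 (P 13 (L 41 5)) (B12 (P 13 (L 41 5)) (M 5 (L 46 7)))) (B02
  (P 13 (L 41 5)) (B12 (P 13 (L 41 5)) (M 5 (L 46 7)))))) (A23 (out 5) (A03 (out 5) (P 13 (L 41
  5)))))))) (P 13 (B02 (B01 (A12 (M 1 (L 45 1)) (A23 (out 5) (M 1 (L 45 1)))) (A12 (B12 (A13 (out
  5) (A23 (out 5) (B01 (A03 (out 5) (A13 (out 5) (M 19 (L 41 5)))) (M 19 (L 41 5))))) (A13 (out 5)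
  (A23 (out 5) (B02 (A03 (out 5) (M 1 (L 45 1))) (M 19 (L 41 5)))))) (M 19 (L 41 5)))) (B12 (A12
  (B01 (A13 (out 5) (M 19 (L 41 5))) (A13 (out 5) (M 19 (L 41 5)))) (M 19 (L 41 5))) (A12 (A13 (out
  5) (M 19 (L 41 5))) (M 19 (L 41 5)))))))) (P 13 (A23 (P 15 (B02 (B01 (A12 (M 1 (L 45 1)) (A02 (M
  1 (L 45 1)) (out 5))) (A12 (B12 (A01 (A02 (B01 (M 1 (L 45 1)) (M 19 (L 41 5))) (out 5)) (out 5))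
  (A01 (A02 (M 1 (L 45 1)) (out 5)) (out 5))) (M 19 (L 41 5)))) (B12 (A12 (B01 (A01 (M 19 (L 41 5))
  (out 5)) (A01 (M 19 (L 41 5)) (out 5))) (M 19 (L 41 5))) (A12 (A01 (M 19 (L 41 5)) (out 5)) (M 19
  (L 41 5)))))) (B02 (B01 (M 1 (A13 (P 15 (L 45 1)) (A03 (P 15 (L 45 1)) (A23 (P 15 (L 45 1)) (B02
  (P 19 (L 58 5)) (B12 (P 19 (L 58 5)) (A13 (P 15 (L 45 1)) (M 5 (L 40 7))))))))) (P 15 (A13 (B12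
  (A01 (A03 (B01 (M 1 (L 45 1)) (M 19 (L 41 5))) (M 2 (L 25 4))) (out 5)) (M 1 (L 45 1))) (B12 (A03
  (A01 (B01 (M 1 (L 45 1)) (M 19 (L 41 5))) (M 1 (L 45 1))) (M 1 (L 45 1))) (M 1 (L 45 1)))))) (P
  15 (B12 (A13 (B01 (M 1 (L 45 1)) (A01 (A03 (M 19 (L 41 5)) (B12 (M 2 (L 25 4)) (M 1 (L 45 1))))
  (out 5))) (B01 (M 1 (L 45 1)) (A03 (A01 (M 19 (L 41 5)) (M 1 (L 45 1))) (M 1 (L 45 1))))) (M 1 (L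
  45 1)))))))) (P 13 (A23 (out 5) (A03 (out 5) (B02 (B01 (M 1 (A13 (out 5) (A23 (out 5) (A03 (P 15
  (L 45 1)) (B02 (P 19 (L 58 5)) (B12 (P 19 (L 58 5)) (A13 (P 15 (L 45 1)) (M 5 (L 40 7))))))))) (P
  15 (A13 (out 5) (M 1 (L 45 1))))) (P 15 (B12 (A13 (out 5) (M 1 (L 45 1))) (M 1 (L 45
  1)))))))))))) (M 16 (B12 (A12 (B01 (P 8 (A13 (out 5) (A23 (out 5) (B02 (S 2 (L 8 4) (L 25 4)) (P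
  15 (A03 (out 5) (M 1 (L 45 1)))))))) (M 2 (A13 (out 5) (A23 (out 5) (P 8 (L 25 4)))))) (B01 (P 8
  (A23 (out 5) (A13 (out 5) (B02 (S 2 (L 8 4) (L 25 4)) (P 15 (A03 (out 5) (M 1 (L 45 1)))))))) (M
  2 (A23 (out 5) (A13 (out 5) (P 8 (L 25 4))))))) (M 7 (A12 (A13 (out 5) (A23 (out 5) (B02 (B01 (P
  19 (L 58 5)) (P 15 (A03 (out 5) (M 1 (L 45 1))))) (P 15 (B12 (A03 (out 5) (M 1 (L 45 1))) (M 1 (L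
  45 1))))))) (A23 (out 5) (A13 (out 5) (B02 (B01 (A03 (out 5) (A23 (out 5) (P 19 (L 58 5)))) (P 15
  (A03 (out 5) (M 1 (L 45 1))))) (P 15 (B12 (A03 (out 5) (M 1 (L 45 1))) (M 1 (L 45 1))))))))))))
  (P 8 (M 7 (P 0 (A23 (B12 (P 13 (A02 (B01 (A01 (P 15 (A03 (B02 (A02 (B01 (A01 (M 19 (L 41 5)) (A12
  (M 1 (L 45 1)) (M 19 (L 41 5)))) (A01 (M 19 (L 41 5)) (A12 (B12 (A13 (M 2 (L 25 4)) (M 19 (L 41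
  5))) (A13 (A01 (M 19 (L 41 5)) (M 1 (L 45 1))) (M 19 (L 41 5)))) (M 19 (L 41 5))))) (B01 (A12
  (A01 (M 19 (L 41 5)) (M 1 (L 45 1))) (M 19 (L 41 5))) (A12 (A01 (M 19 (L 41 5)) (B12 (A13 (M 2 (L
  25 4)) (M 19 (L 41 5))) (M 1 (L 45 1)))) (M 19 (L 41 5))))) (S 1 (L 4 1) (L 45 1))) (B02 (A23
  (B01 (A12 (M 1 (L 45 1)) (M 19 (L 41 5))) (A12 (M 1 (L 45 1)) (M 19 (L 41 5)))) (M 1 (L 45 1)))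
  (S 1 (L 4 1) (L 45 1))))) (A12 (B02 (M 1 (A13 (B01 (A01 (A03 (P 15 (L 45 1)) (B02 (P 19 (L 58 5))
  (P 15 (L 45 1)))) (A12 (P 19 (L 58 5)) (B02 (P 19 (L 58 5)) (P 15 (L 45 1))))) (P 15 (L 45 1)))
  (B01 (A03 (A01 (P 15 (L 45 1)) (B02 (A12 (B01 (M 5 (L 40 7)) (P 15 (L 45 1))) (P 15 (L 45 1))) (P
  15 (L 45 1)))) (A23 (B02 (A12 (B01 (M 5 (L 40 7)) (P 15 (L 45 1))) (P 15 (L 45 1))) (P 15 (L 45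
  1))) (M 5 (L 40 7)))) (P 15 (L 45 1))))) (P 15 (A13 (A01 (A03 (B12 (M 1 (L 45 1)) (B02 (M 1 (L 45
  1)) (M 2 (L 25 4)))) (M 1 (L 45 1))) (M 1 (L 45 1))) (A03 (A01 (B12 (M 1 (L 45 1)) (M 19 (L 41
  5))) (M 1 (L 45 1))) (M 1 (L 45 1)))))) (P 15 (B02 (A23 (B01 (A02 (M 1 (L 45 1)) (out 5)) (A02 (M
  1 (L 45 1)) (out 5))) (M 1 (L 45 1))) (A23 (A02 (A03 (B12 (B01 (A01 (M 19 (L 41 5)) (B02 (M 1 (L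
  45 1)) (M 2 (L 25 4)))) (M 2 (L 25 4))) (M 19 (L 41 5))) (B12 (B01 (A13 (B02 (M 1 (L 45 1)) (M 2
  (L 25 4))) (M 19 (L 41 5))) (M 2 (L 25 4))) (M 19 (L 41 5)))) (out 5)) (A03 (A02 (B12 (M 1 (L 45
  1)) (M 19 (L 41 5))) (B12 (M 1 (L 45 1)) (M 19 (L 41 5)))) (A13 (B12 (M 1 (L 45 1)) (M 19 (L 41
  5))) (B12 (M 1 (L 45 1)) (S 1 (L 4 1) (L 45 1)))))))))) (P 15 (A01 (S 1 (L 4 1) (L 45 1)) (A12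
  (B12 (A13 (M 2 (L 25 4)) (B01 (A03 (M 2 (L 25 4)) (M 1 (L 45 1))) (M 2 (L 25 4)))) (A13 (M 2 (L
  25 4)) (A03 (M 2 (L 25 4)) (M 1 (L 45 1))))) (B12 (A23 (S 1 (L 4 1) (L 45 1)) (B01 (A03 (M 2 (L
  25 4)) (A13 (M 2 (L 25 4)) (B02 (A23 (M 2 (L 25 4)) (M 1 (L 45 1))) (M 2 (L 25 4))))) (M 2 (L 25
  4)))) (A23 (M 2 (L 25 4)) (A03 (M 2 (L 25 4)) (A13 (M 2 (L 25 4)) (B02 (B01 (M 1 (L 45 1)) (M 19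
  (L 41 5))) (S 1 (L 4 1) (L 45 1))))))))))) (B01 (A12 (A01 (P 15 (B02 (A03 (out 5) (M 1 (L 45 1)))
  (A03 (out 5) (A23 (out 5) (A13 (B12 (M 1 (L 45 1)) (M 19 (L 41 5))) (B12 (M 1 (L 45 1)) (S 1 (L 4
  1) (L 45 1)))))))) (M 1 (B02 (A13 (B01 (A12 (A01 (B02 (P 19 (L 58 5)) (P 15 (L 45 1))) (P 19 (L
  58 5))) (A23 (out 5) (B02 (P 19 (L 58 5)) (P 15 (L 45 1))))) (P 15 (L 45 1))) (B01 (A23 (A12 (B02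
  (A01 (P 15 (L 45 1)) (B01 (M 5 (L 40 7)) (P 15 (L 45 1)))) (P 15 (L 45 1))) (out 5)) (A03 (B02
  (A01 (P 15 (L 45 1)) (B01 (M 5 (L 40 7)) (P 15 (L 45 1)))) (P 15 (L 45 1))) (M 5 (L 40 7)))) (P
  15 (L 45 1)))) (P 15 (L 45 1))))) (P 15 (A23 (out 5) (B02 (A03 (out 5) (M 1 (L 45 1))) (A03 (out
  5) (A13 (out 5) (A23 (out 5) (B12 (M 1 (L 45 1)) (S 1 (L 4 1) (L 45 1)))))))))) (P 15 (A12 (A01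
  (B12 (A03 (out 5) (B01 (A23 (out 5) (A13 (M 2 (L 25 4)) (B02 (A03 (M 2 (L 25 4)) (M 1 (L 45 1)))
  (M 2 (L 25 4))))) (S 1 (L 4 1) (L 45 1)))) (A03 (out 5) (A23 (out 5) (A13 (M 2 (L 25 4)) (B02
  (B01 (M 1 (L 45 1)) (A03 (M 2 (L 25 4)) (B12 (M 2 (L 25 4)) (M 1 (L 45 1))))) (S 1 (L 4 1) (L 45
  1))))))) (B12 (A13 (M 2 (L 25 4)) (B01 (M 1 (L 45 1)) (S 1 (L 4 1) (L 45 1)))) (M 1 (L 45 1))))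
  (A23 (out 5) (B12 (A03 (out 5) (B01 (A13 (out 5) (A23 (out 5) (B02 (A03 (M 2 (L 25 4)) (M 1 (L 45
  1))) (M 2 (L 25 4))))) (S 1 (L 4 1) (L 45 1)))) (A03 (out 5) (A13 (out 5) (A23 (out 5) (B02 (B01
  (M 1 (L 45 1)) (A03 (M 2 (L 25 4)) (B12 (M 2 (L 25 4)) (M 1 (L 45 1))))) (S 1 (L 4 1) (L 45
  1))))))))))))) (A02 (A01 (P 15 (A03 (B02 (P 13 (B01 (A02 (A01 (M 19 (L 41 5)) (A12 (M 1 (L 45 1))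
  (M 19 (L 41 5)))) (A12 (A01 (M 19 (L 41 5)) (M 1 (L 45 1))) (M 19 (L 41 5)))) (M 19 (L 41 5))))
  (M 19 (B12 (P 13 (L 41 5)) (A02 (A01 (A03 (B02 (B01 (M 5 (L 46 7)) (A02 (M 5 (L 46 7)) (B12 (M 6
  (L 43 10)) (M 5 (L 46 7))))) (B12 (A02 (M 5 (L 46 7)) (B01 (M 5 (L 46 7)) (M 6 (L 43 10)))) (M 5
  (L 46 7)))) (B02 (B01 (M 5 (L 46 7)) (A23 (B12 (M 6 (L 43 10)) (M 5 (L 46 7))) (M 5 (L 46 7))))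
  (B12 (A23 (B01 (M 5 (L 46 7)) (M 6 (L 43 10))) (M 5 (L 46 7))) (M 5 (L 46 7))))) (A12 (M 5 (L 46
  7)) (B02 (B01 (M 5 (L 46 7)) (A23 (P 13 (L 41 5)) (M 5 (L 46 7)))) (B12 (A23 (P 13 (L 41 5)) (M 5
  (L 46 7))) (M 5 (L 46 7)))))) (A12 (A01 (B02 (B01 (M 5 (L 46 7)) (A03 (out 5) (M 5 (L 46 7))))
  (B12 (A03 (out 5) (M 5 (L 46 7))) (M 5 (L 46 7)))) (M 5 (L 46 7))) (A23 (out 5) (B02 (B01 (M 5 (L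
  46 7)) (A03 (out 5) (M 5 (L 46 7)))) (B12 (A03 (out 5) (M 5 (L 46 7))) (M 5 (L 46 7))))))))))
  (B02 (P 13 (B01 (A23 (A12 (M 1 (L 45 1)) (M 19 (L 41 5))) (M 1 (L 45 1))) (S 1 (L 4 1) (L 45
  1)))) (B12 (S 1 (L 4 1) (L 45 1)) (A23 (A12 (M 5 (L 46 7)) (A02 (M 5 (L 46 7)) (out 5))) (S 1 (L
  4 1) (L 45 1))))))) (A12 (B02 (P 13 (B01 (M 1 (A13 (A01 (A03 (P 15 (L 45 1)) (B02 (B01 (A23 (P 15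
  (L 45 1)) (M 5 (L 40 7))) (P 15 (L 45 1))) (P 15 (L 45 1)))) (A12 (B02 (P 19 (L 58 5)) (B12 (A13
  (P 19 (L 58 5)) (B01 (M 5 (L 40 7)) (P 15 (L 45 1)))) (M 5 (L 40 7)))) (B02 (B01 (A23 (P 15 (L 45
  1)) (M 5 (L 40 7))) (P 15 (L 45 1))) (P 15 (L 45 1))))) (A03 (A01 (P 15 (L 45 1)) (B02 (B01 (A12
  (M 5 (L 40 7)) (P 15 (L 45 1))) (P 15 (L 45 1))) (P 15 (L 45 1)))) (A23 (B02 (B01 (A12 (M 5 (L 40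
  7)) (P 15 (L 45 1))) (P 15 (L 45 1))) (P 15 (L 45 1))) (M 5 (L 40 7)))))) (P 15 (A13 (B12 (A01
  (A03 (B01 (M 1 (L 45 1)) (M 19 (L 41 5))) (M 1 (L 45 1))) (M 1 (L 45 1))) (M 1 (L 45 1))) (B12
  (A03 (A01 (M 19 (L 41 5)) (M 1 (L 45 1))) (M 1 (L 45 1))) (M 1 (L 45 1))))))) (P 15 (B12 (P 13
  (A13 (B01 (M 1 (L 45 1)) (A01 (M 19 (L 41 5)) (M 1 (L 45 1)))) (S 1 (L 4 1) (L 45 1)))) (M 1 (L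
  45 1))))) (P 15 (B02 (B01 (A23 (A02 (M 1 (L 45 1)) (out 5)) (M 1 (L 45 1))) (S 1 (L 4 1) (L 45
  1))) (B12 (S 1 (L 4 1) (L 45 1)) (A23 (A02 (M 5 (L 46 7)) (out 5)) (S 1 (L 4 1) (L 45 1))))))))
  (A12 (A01 (P 15 (B02 (B01 (A03 (out 5) (M 1 (L 45 1))) (A03 (out 5) (B12 (A23 (out 5) (S 1 (L 4
  1) (L 45 1))) (M 1 (L 45 1))))) (B12 (S 1 (L 4 1) (L 45 1)) (A03 (out 5) (A23 (out 5) (S 1 (L 4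
  1) (L 45 1))))))) (M 1 (B02 (P 13 (B01 (A13 (A12 (A01 (B02 (B01 (A03 (P 15 (L 45 1)) (M 5 (L 40
  7))) (P 15 (L 45 1))) (P 15 (L 45 1))) (B02 (P 19 (L 58 5)) (B12 (A13 (P 19 (L 58 5)) (B01 (M 5
  (L 40 7)) (P 15 (L 45 1)))) (M 5 (L 40 7))))) (A23 (out 5) (B02 (B01 (A03 (P 15 (L 45 1)) (M 5 (L
  40 7))) (P 15 (L 45 1))) (P 15 (L 45 1))))) (A23 (A12 (B02 (B01 (A01 (P 15 (L 45 1)) (M 5 (L 40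
  7))) (P 15 (L 45 1))) (P 15 (L 45 1))) (out 5)) (A03 (B02 (B01 (A01 (P 15 (L 45 1)) (M 5 (L 40
  7))) (P 15 (L 45 1))) (P 15 (L 45 1))) (M 5 (L 40 7))))) (P 15 (L 45 1)))) (P 15 (L 45 1))))) (P
  15 (A23 (out 5) (B02 (B01 (A03 (out 5) (M 1 (L 45 1))) (A03 (out 5) (B12 (A13 (out 5) (S 1 (L 4
  1) (L 45 1))) (M 1 (L 45 1))))) (P 10 (B12 (S 1 (L 4 1) (L 45 1)) (A03 (out 5) (A13 (out 5) (S 1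
  (L 4 1) (L 31 8)))))))))))) (B12 (A03 (P 13 (B01 (A01 (P 15 (A02 (B02 (A03 (B01 (A01 (M 19 (L 41
  5)) (M 1 (L 45 1))) (A01 (M 19 (L 41 5)) (A13 (B12 (A12 (M 2 (L 25 4)) (M 19 (L 41 5))) (A12 (A01
  (M 19 (L 41 5)) (M 1 (L 45 1))) (M 19 (L 41 5)))) (M 19 (L 41 5))))) (B01 (M 1 (L 45 1)) (A13
  (A01 (M 19 (L 41 5)) (M 1 (L 45 1))) (M 19 (L 41 5))))) (M 19 (L 41 5))) (B02 (M 1 (L 45 1)) (S 1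
  (L 4 1) (L 45 1))))) (A13 (B02 (M 1 (A12 (B01 (A01 (A02 (B02 (A03 (P 15 (L 45 1)) (B01 (M 5 (L 40
  7)) (P 15 (L 45 1)))) (P 15 (L 45 1))) (B02 (P 19 (L 58 5)) (P 15 (L 45 1)))) (A13 (P 19 (L 58
  5)) (B02 (P 19 (L 58 5)) (P 15 (L 45 1))))) (P 15 (L 45 1))) (B01 (A02 (A01 (B02 (A03 (P 15 (L 45
  1)) (B01 (M 5 (L 40 7)) (P 15 (L 45 1)))) (P 15 (L 45 1))) (B02 (A13 (B01 (M 5 (L 40 7)) (P 15 (L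
  45 1))) (B01 (M 5 (L 40 7)) (P 15 (L 45 1)))) (P 15 (L 45 1)))) (M 5 (L 40 7))) (P 15 (L 45
  1))))) (P 15 (A12 (A01 (A02 (B12 (M 1 (L 45 1)) (B02 (M 1 (L 45 1)) (A03 (A01 (M 19 (L 41 5)) (M
  1 (L 45 1))) (M 1 (L 45 1))))) (M 1 (L 45 1))) (M 1 (L 45 1))) (A02 (A01 (B12 (M 1 (L 45 1)) (M
  19 (L 41 5))) (M 1 (L 45 1))) (M 1 (L 45 1)))))) (B02 (M 1 (A23 (B01 (A02 (A03 (B02 (A01 (P 15 (L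
  45 1)) (M 5 (L 40 7))) (P 15 (L 45 1))) (M 5 (L 40 7))) (M 5 (L 40 7))) (P 15 (L 45 1))) (B01
  (A03 (A02 (B02 (A01 (P 15 (L 45 1)) (M 5 (L 40 7))) (P 15 (L 45 1))) (M 5 (L 40 7))) (M 5 (L 40
  7))) (P 15 (L 45 1))))) (P 15 (A23 (A02 (A03 (B12 (M 1 (L 45 1)) (M 19 (L 41 5))) (M 1 (L 45 1)))
  (M 1 (L 45 1))) (A03 (A02 (B12 (M 1 (L 45 1)) (M 19 (L 41 5))) (B12 (M 1 (L 45 1)) (M 19 (L 41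
  5)))) (A13 (B12 (M 1 (L 45 1)) (M 19 (L 41 5))) (M 19 (L 41 5))))))))) (P 15 (A01 (S 1 (L 4 1) (L
  45 1)) (A13 (B12 (A12 (M 2 (L 25 4)) (B01 (A02 (M 2 (L 25 4)) (M 1 (L 45 1))) (M 2 (L 25 4))))
  (A12 (A01 (A02 (B02 (M 2 (L 25 4)) (B12 (M 2 (L 25 4)) (A03 (M 2 (L 25 4)) (M 1 (L 45 1))))) (M 1
  (L 45 1))) (M 1 (L 45 1))) (A02 (A01 (B02 (M 2 (L 25 4)) (M 19 (L 41 5))) (M 1 (L 45 1))) (M 1 (L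
  45 1))))) (B12 (A23 (B01 (A02 (A03 (M 2 (L 25 4)) (B02 (M 1 (L 45 1)) (M 19 (L 41 5)))) (A12 (B02
  (M 1 (L 45 1)) (M 19 (L 41 5))) (M 19 (L 41 5)))) (M 2 (L 25 4))) (B01 (A03 (A02 (M 2 (L 25 4))
  (B02 (A12 (M 2 (L 25 4)) (M 19 (L 41 5))) (M 19 (L 41 5)))) (A13 (B02 (A12 (B01 (M 1 (L 45 1)) (M
  2 (L 25 4))) (M 19 (L 41 5))) (M 19 (L 41 5))) (M 19 (L 41 5)))) (M 19 (L 41 5)))) (A23 (A02 (A03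
  (B02 (M 2 (L 25 4)) (M 19 (L 41 5))) (B02 (B01 (M 1 (L 45 1)) (M 19 (L 41 5))) (M 19 (L 41 5))))
  (A12 (B02 (B01 (M 1 (L 45 1)) (M 19 (L 41 5))) (M 19 (L 41 5))) (S 1 (L 4 1) (L 45 1)))) (A03
  (A02 (B02 (M 2 (L 25 4)) (M 19 (L 41 5))) (B02 (B01 (M 1 (L 45 1)) (M 19 (L 41 5))) (M 19 (L 41
  5)))) (A13 (B02 (B01 (M 1 (L 45 1)) (M 19 (L 41 5))) (M 19 (L 41 5))) (M 19 (L 41 5)))))))))))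
  (B01 (A13 (P 13 (A01 (B02 (M 1 (A02 (B01 (M 5 (L 40 7)) (A03 (P 15 (L 45 1)) (A23 (P 15 (L 45 1))
  (B12 (A13 (P 15 (L 45 1)) (M 5 (L 40 7))) (M 5 (L 40 7)))))) (B01 (M 5 (L 40 7)) (A23 (P 15 (L 45
  1)) (A03 (P 15 (L 45 1)) (B12 (A13 (P 15 (L 45 1)) (M 5 (L 40 7))) (M 5 (L 40 7)))))))) (A02 (A03
  (P 15 (A01 (M 5 (L 46 7)) (M 1 (L 45 1)))) (M 1 (A23 (P 15 (L 45 1)) (B12 (B01 (A13 (P 15 (L 45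
  1)) (M 5 (L 40 7))) (P 15 (L 45 1))) (B02 (A13 (P 15 (L 45 1)) (M 5 (L 40 7))) (P 15 (L 45
  1))))))) (M 1 (A23 (P 15 (L 45 1)) (A03 (P 15 (L 45 1)) (B12 (B01 (A13 (P 15 (L 45 1)) (M 5 (L 40
  7))) (P 15 (L 45 1))) (B02 (A13 (P 15 (L 45 1)) (M 5 (L 40 7))) (P 15 (L 45 1))))))))) (M 1 (B02
  (A12 (B01 (A13 (A01 (M 5 (L 40 7)) (P 19 (L 58 5))) (M 5 (L 40 7))) (A13 (P 15 (L 45 1)) (A23 (P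
  15 (L 45 1)) (B12 (A03 (P 15 (L 45 1)) (P 19 (L 58 5))) (M 5 (L 40 7)))))) (B01 (M 5 (L 40 7))
  (A23 (P 15 (L 45 1)) (A13 (P 15 (L 45 1)) (B12 (A03 (P 15 (L 45 1)) (M 5 (L 40 7))) (M 5 (L 40
  7))))))) (A12 (A13 (P 15 (L 45 1)) (A23 (P 15 (L 45 1)) (B12 (B01 (A03 (P 15 (L 45 1)) (M 5 (L 40
  7))) (P 15 (L 45 1))) (B02 (A03 (P 15 (L 45 1)) (M 5 (L 40 7))) (P 15 (L 45 1)))))) (A23 (P 15 (L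
  45 1)) (A13 (P 15 (L 45 1)) (B12 (B01 (A03 (P 15 (L 45 1)) (M 5 (L 40 7))) (P 15 (L 45 1))) (B02
  (A03 (P 15 (L 45 1)) (M 5 (L 40 7))) (P 15 (L 45 1))))))))))) (M 5 (P 2 (A23 (P 13 (L 40 7)) (B02
  (P 6 (A03 (P 13 (L 40 7)) (B01 (P 12 (L 38 10)) (A13 (P 13 (L 40 7)) (A23 (P 13 (L 40 7)) (B12 (P
  13 (L 40 7)) (A03 (A01 (S 12 (L 38 10) (L 18 10)) (A13 (P 13 (L 40 7)) (S 12 (L 38 10) (L 7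
  10)))) (P 12 (L 38 10))))))))) (A03 (A01 (A02 (B12 (P 13 (L 40 7)) (B02 (P 13 (L 40 7)) (P 15 (L
  46 7)))) (P 6 (S 12 (L 38 10) (L 18 10)))) (P 6 (A13 (P 13 (L 40 7)) (S 12 (L 38 10) (L 18
  10))))) (P 6 (A13 (A01 (S 12 (L 38 10) (L 18 10)) (P 13 (L 40 7))) (S 12 (L 38 10) (L 18
  10)))))))))) (A13 (P 15 (P 13 (A01 (B12 (A02 (B01 (A03 (A01 (M 19 (L 41 5)) (B02 (M 1 (L 45 1))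
  (M 19 (L 41 5)))) (A23 (B02 (M 1 (L 45 1)) (M 19 (L 41 5))) (M 1 (L 45 1)))) (A03 (M 19 (L 41 5))
  (A23 (M 19 (L 41 5)) (M 1 (L 45 1))))) (B01 (A23 (A12 (B02 (M 1 (L 45 1)) (M 19 (L 41 5))) (B02
  (M 1 (L 45 1)) (M 19 (L 41 5)))) (A03 (B02 (M 1 (L 45 1)) (M 19 (L 41 5))) (M 1 (L 45 1)))) (A23
  (M 2 (L 25 4)) (A03 (M 2 (L 25 4)) (M 1 (L 45 1)))))) (A02 (A03 (A01 (M 19 (L 41 5)) (B02 (B01 (M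
  1 (L 45 1)) (M 19 (L 41 5))) (M 19 (L 41 5)))) (A23 (B02 (B01 (M 1 (L 45 1)) (M 19 (L 41 5))) (M
  19 (L 41 5))) (M 1 (L 45 1)))) (A23 (A12 (B02 (B01 (M 1 (L 45 1)) (M 19 (L 41 5))) (M 19 (L 41
  5))) (B02 (B01 (M 1 (L 45 1)) (M 19 (L 41 5))) (S 1 (L 4 1) (L 45 1)))) (A03 (B02 (B01 (M 1 (L 45
  1)) (M 19 (L 41 5))) (M 19 (L 41 5))) (M 1 (L 45 1)))))) (M 1 (L 45 1))))) (A23 (P 15 (P 13 (B12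
  (A02 (B01 (A01 (M 19 (L 41 5)) (A12 (M 1 (L 45 1)) (M 19 (L 41 5)))) (A01 (M 19 (L 41 5)) (A12 (M
  1 (L 45 1)) (M 19 (L 41 5))))) (B01 (A12 (A01 (B02 (M 1 (L 45 1)) (M 19 (L 41 5))) (M 1 (L 45
  1))) (A23 (B02 (M 1 (L 45 1)) (M 19 (L 41 5))) (B02 (M 1 (L 45 1)) (M 19 (L 41 5))))) (A12 (A01
  (M 19 (L 41 5)) (M 1 (L 45 1))) (M 19 (L 41 5))))) (A02 (A01 (S 1 (L 4 1) (L 45 1)) (A12 (M 1 (L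
  45 1)) (S 1 (L 4 1) (L 45 1)))) (A12 (A01 (B02 (B01 (M 5 (L 40 7)) (M 19 (L 41 5))) (S 1 (L 4 1)
  (L 45 1))) (M 1 (L 45 1))) (A23 (B02 (B01 (M 1 (L 45 1)) (M 19 (L 41 5))) (S 1 (L 4 1) (L 45 1)))
  (B02 (B01 (M 5 (L 40 7)) (M 19 (L 41 5))) (S 1 (L 4 1) (L 45 1))))))))) (B12 (P 13 (A03 (P 15
  (B01 (A01 (M 19 (L 41 5)) (M 1 (L 45 1))) (A01 (M 19 (L 41 5)) (M 1 (L 45 1))))) (M 1 (B01 (A13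
  (P 15 (L 45 1)) (M 5 (L 40 7))) (P 15 (L 45 1)))))) (A03 (P 15 (A01 (S 1 (L 4 1) (L 45 1)) (M 1
  (L 45 1)))) (P 6 (M 1 (A13 (P 15 (L 45 1)) (S 12 (L 38 10) (L 18 10))))))))))) (A03 (A01 (P 15
  (A02 (B02 (B01 (A03 (P 13 (A01 (M 19 (L 41 5)) (M 1 (L 45 1)))) (M 1 (L 45 1))) (M 19 (A03 (P 13
  (L 41 5)) (B12 (P 13 (L 41 5)) (A13 (P 13 (L 41 5)) (M 5 (L 46 7))))))) (M 19 (B12 (A03 (B01 (M 5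
  (L 46 7)) (A01 (M 6 (L 43 10)) (A13 (P 13 (L 41 5)) (B12 (P 13 (L 41 5)) (A23 (P 13 (L 41 5))
  (A03 (P 13 (L 41 5)) (M 5 (L 46 7)))))))) (B01 (M 5 (L 46 7)) (A13 (A01 (B12 (P 13 (L 41 5)) (M 5
  (L 46 7))) (P 13 (L 41 5))) (A23 (B12 (P 13 (L 41 5)) (M 5 (L 46 7))) (M 5 (L 46 7)))))) (M 5 (L
  46 7))))) (B02 (B01 (M 1 (L 45 1)) (M 19 (A23 (S 1 (L 4 1) (L 45 1)) (B12 (P 13 (L 41 5)) (A13 (P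
  13 (L 41 5)) (S 1 (L 4 1) (L 45 1))))))) (M 19 (B12 (A23 (B01 (S 1 (L 4 1) (L 45 1)) (A12 (A13 (P
  13 (L 41 5)) (B12 (P 13 (L 41 5)) (M 5 (L 46 7)))) (A02 (B12 (P 13 (L 41 5)) (M 5 (L 46 7))) (B12
  (S 1 (L 4 1) (L 45 1)) (S 1 (L 4 1) (L 45 1)))))) (B01 (S 1 (L 4 1) (L 45 1)) (A13 (A12 (P 13 (L
  41 5)) (B12 (P 13 (L 41 5)) (M 5 (L 46 7)))) (A03 (B12 (P 13 (L 41 5)) (M 5 (L 46 7))) (M 5 (L 46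
  7)))))) (S 1 (L 4 1) (L 45 1))))))) (A13 (B02 (P 13 (B01 (M 1 (A12 (A01 (A02 (B02 (B01 (M 5 (L 40
  7)) (P 15 (L 45 1))) (P 15 (L 45 1))) (B02 (B01 (M 5 (L 40 7)) (P 15 (L 45 1))) (P 15 (L 45 1))))
  (A13 (B02 (P 19 (L 58 5)) (B12 (A12 (P 19 (L 58 5)) (B01 (M 5 (L 40 7)) (P 15 (L 45 1)))) (M 5 (L
  40 7)))) (B02 (B01 (M 5 (L 40 7)) (A23 (B12 (P 15 (L 45 1)) (M 5 (L 40 7))) (B12 (P 15 (L 45 1))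
  (M 5 (L 40 7))))) (B12 (A23 (B01 (M 5 (L 40 7)) (P 15 (L 45 1))) (B01 (M 5 (L 40 7)) (P 15 (L 45
  1)))) (M 5 (L 40 7)))))) (A02 (A01 (B02 (B01 (M 5 (L 40 7)) (P 15 (L 45 1))) (P 15 (L 45 1))) (M
  5 (L 40 7))) (M 5 (L 40 7))))) (P 15 (A12 (B12 (A01 (A02 (B01 (M 1 (L 45 1)) (M 19 (L 41 5))) (M
  1 (L 45 1))) (M 1 (L 45 1))) (M 1 (L 45 1))) (B12 (A02 (A01 (M 19 (L 41 5)) (M 1 (L 45 1))) (M 1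
  (L 45 1))) (M 1 (L 45 1))))))) (P 15 (B12 (P 13 (A12 (B01 (M 5 (L 40 7)) (A01 (M 19 (L 41 5)) (M
  1 (L 45 1)))) (S 1 (L 4 1) (L 45 1)))) (M 1 (L 45 1))))) (B02 (B01 (M 1 (A23 (P 13 (A02 (A03 (B02
  (B01 (M 5 (L 40 7)) (P 15 (L 45 1))) (P 15 (L 45 1))) (M 5 (L 40 7))) (M 5 (L 40 7)))) (A03 (P 13
  (A02 (B02 (B01 (M 5 (L 40 7)) (P 15 (L 45 1))) (P 15 (L 45 1))) (M 5 (L 40 7)))) (M 5 (A13 (P 13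
  (L 40 7)) (P 15 (L 45 1))))))) (M 19 (P 15 (A23 (S 1 (L 4 1) (L 45 1)) (B12 (P 13 (L 41 5)) (M 1
  (L 45 1))))))) (M 19 (P 15 (B12 (A23 (B01 (M 1 (L 45 1)) (A02 (A03 (P 13 (L 41 5)) (M 1 (L 45
  1))) (M 1 (L 45 1)))) (B01 (M 1 (L 45 1)) (A03 (A02 (P 13 (L 41 5)) (M 5 (L 46 7))) (M 5 (L 46
  7))))) (M 1 (L 45 1)))))))) (A13 (A01 (M 5 (B02 (B01 (P 6 (A02 (A03 (A01 (B02 (P 13 (L 40 7)) (S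
  12 (L 38 10) (L 18 10))) (P 13 (L 40 7))) (P 13 (L 40 7))) (P 13 (L 40 7)))) (A02 (B12 (P 13 (K
  [(40,7,6),(40,5,2)] [])) (P 6 (A03 (S 12 (L 38 10) (L 18 10)) (P 13 (L 40 7))))) (P 13 (L 40
  7)))) (B12 (A02 (B01 (P 6 (S 12 (L 38 10) (L 18 10))) (A03 (P 15 (L 46 7)) (P 6 (S 12 (L 38 10)
  (L 18 10))))) (P 6 (S 12 (L 38 10) (L 18 10)))) (P 6 (S 12 (L 38 10) (L 18 10)))))) (M 1 (B02 (P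
  13 (B01 (M 5 (L 40 7)) (A12 (B12 (A13 (P 15 (L 45 1)) (A23 (P 15 (L 45 1)) (M 5 (L 40 7)))) (M 5
  (L 40 7))) (B12 (A23 (P 15 (L 45 1)) (A13 (P 15 (L 45 1)) (M 5 (L 40 7)))) (M 5 (L 40 7))))))
  (B12 (P 13 (A12 (B01 (M 5 (L 40 7)) (A13 (P 15 (L 45 1)) (A23 (P 15 (L 45 1)) (M 5 (L 40 7)))))
  (P 10 (L 31 8)))) (M 5 (A12 (A13 (P 13 (L 40 7)) (A23 (B02 (P 13 (L 40 7)) (P 10 (L 31 8))) (B02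
  (P 13 (L 40 7)) (P 10 (L 31 8))))) (P 10 (L 31 8)))))))) (M 5 (P 2 (A23 (B02 (B01 (P 6 (M 1 (A02
  (A01 (A03 (B02 (P 13 (L 40 7)) (S 12 (L 38 10) (L 18 10))) (B02 (P 13 (L 40 7)) (S 12 (L 38 10)
  (L 18 10)))) (A12 (B02 (P 13 (L 40 7)) (B12 (P 13 (L 40 7)) (A13 (P 13 (L 40 7)) (P 10 (L 31
  8))))) (B02 (P 13 (L 40 7)) (S 12 (L 38 10) (L 18 10))))) (A12 (A01 (B02 (P 13 (L 40 7)) (S 12 (L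
  38 10) (L 18 10))) (B02 (P 13 (L 40 7)) (B12 (P 13 (L 40 7)) (A13 (P 13 (L 40 7)) (P 10 (L 31
  8)))))) (A23 (B02 (P 13 (L 40 7)) (S 12 (L 38 10) (L 18 10))) (B02 (P 13 (L 40 7)) (S 12 (L 38
  10) (L 18 10)))))))) (A02 (B12 (P 13 (K [(40,7,6),(40,5,2)] [])) (P 6 (A01 (S 12 (L 38 10) (L 18
  10)) (A12 (B02 (P 13 (L 40 7)) (S 12 (L 38 10) (L 18 10))) (S 12 (L 38 10) (L 18 10)))))) (P 6 (M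
  1 (B12 (P 13 (L 40 7)) (A12 (A01 (S 12 (L 38 10) (L 18 10)) (B02 (P 13 (L 40 7)) (P 10 (L 31
  8)))) (S 12 (L 38 10) (L 18 10)))))))) (B12 (A02 (B01 (P 6 (S 12 (L 38 10) (L 18 10))) (A01 (P 15
  (S 1 (L 4 1) (L 45 1))) (P 6 (S 12 (L 38 10) (L 18 10))))) (P 6 (S 12 (L 38 10) (L 18 10)))) (P 6
  (S 12 (L 38 10) (L 18 10))))) (B02 (B01 (P 6 (M 1 (A03 (A01 (A02 (B02 (B01 (A03 (M 16 (S 10 (L 32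
  8) (L 2 8))) (A13 (M 16 (S 10 (L 32 8) (L 2 8))) (S 12 (L 38 10) (L 7 10)))) (S 12 (L 38 10) (L
  18 10))) (S 12 (L 38 10) (L 18 10))) (B02 (B01 (A23 (A12 (A13 (P 13 (L 40 7)) (S 12 (L 38 10) (L
  7 10))) (S 12 (L 38 10) (L 7 10))) (A13 (A12 (P 13 (L 40 7)) (S 12 (L 38 10) (L 7 10))) (S 12 (L
  38 10) (L 7 10)))) (S 12 (L 38 10) (L 18 10))) (S 12 (L 38 10) (L 18 10)))) (A13 (B02 (P 13 (L 40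
  7)) (B12 (P 13 (L 40 7)) (A12 (A01 (P 10 (L 31 8)) (P 12 (L 38 10))) (P 10 (L 31 8))))) (B02 (B01
  (P 12 (L 38 10)) (S 12 (L 38 10) (L 18 10))) (S 12 (L 38 10) (L 18 10))))) (P 12 (L 38 10)))))
  (A03 (B12 (A01 (P 10 (A02 (B01 (P 6 (S 12 (L 38 10) (L 18 10))) (A03 (P 15 (L 46 7)) (M 1 (L 31
  1)))) (P 6 (S 12 (L 38 10) (L 18 10))))) (P 6 (A13 (P 13 (L 40 7)) (S 12 (L 38 10) (L 18 10)))))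
  (P 6 (A01 (S 12 (L 38 10) (L 18 10)) (A13 (B02 (P 13 (L 40 7)) (S 12 (L 38 10) (L 18 10))) (S 12
  (L 38 10) (L 18 10)))))) (P 6 (M 1 (B12 (A13 (A01 (S 12 (L 38 10) (L 18 10)) (P 13 (L 40 7))) (S
  12 (L 38 10) (L 18 10))) (A13 (A01 (S 12 (L 38 10) (L 7 10)) (B02 (P 13 (L 40 7)) (P 10 (L 31
  8)))) (S 12 (L 38 10) (L 7 10)))))))) (P 10 (B12 (A03 (B01 (P 6 (S 12 (L 38 10) (L 18 10))) (A01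
  (A02 (B12 (A03 (P 15 (L 46 7)) (M 1 (L 31 1))) (M 1 (L 31 1))) (P 6 (S 12 (L 38 10) (L 18 10))))
  (P 6 (S 12 (L 38 10) (L 18 10))))) (P 6 (B01 (S 12 (L 38 10) (L 7 10)) (S 12 (L 38 10) (L 18
  10))))) (P 6 (M 1 (A03 (A01 (A02 (S 13 (L 40 5) (L 13 5)) (B02 (B01 (S 12 (L 38 10) (L 7 10)) (K
  [(31,1,4),(31,8,4)] [])) (K [(31,1,4),(31,8,4)] []))) (A13 (S 12 (L 38 10) (L 18 10)) (B02 (B01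
  (S 12 (L 38 10) (L 7 10)) (K [(31,1,4),(31,8,4)] [])) (K [(31,1,4),(31,8,4)] [])))) (S 12 (L 38
  10) (L 7 10))))))))))))))))))) (P 8 (A23 (P 15 (M 12 (A02 (B12 (A01 (M 19 (P 10 (B01 (A03 (S 2 (L
  7 4) (L 25 4)) (A13 (B02 (S 1 (L 4 1) (L 45 1)) (S 2 (L 7 4) (L 25 4))) (B02 (A23 (B01 (A02 (S 1
  (L 4 1) (L 45 1)) (out 5)) (S 1 (L 4 1) (L 31 1))) (B01 (S 1 (L 4 1) (L 45 1)) (A03 (S 1 (L 4 1)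
  (L 31 1)) (A13 (S 1 (L 4 1) (L 31 1)) (B12 (A23 (P 13 (L 41 7)) (S 1 (L 4 1) (L 31 1))) (S 1 (L 4
  1) (L 31 1))))))) (M 6 (K [(43,10,4),(43,5,4)] []))))) (M 6 (A03 (A02 (L 43 10) (K
  [(43,10,5),(43,5,3)] [])) (K [(43,10,4),(43,5,4)] [])))))) (B01 (A13 (out 5) (M 19 (P 10 (A03
  (out 5) (B02 (A23 (out 5) (B01 (S 1 (L 4 1) (L 45 1)) (A13 (out 5) (A03 (S 1 (L 4 1) (L 45 1))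
  (B12 (A23 (P 13 (L 41 7)) (S 1 (L 4 1) (L 45 1))) (S 1 (L 4 1) (L 45 1))))))) (A23 (out 5) (A13
  (out 5) (A03 (S 1 (L 4 8) (L 31 1)) (B12 (B01 (M 6 (L 43 5)) (P 13 (L 41 7))) (M 6 (L 43
  5))))))))))) (A13 (out 5) (M 19 (A03 (out 5) (B12 (A23 (out 5) (S 1 (L 4 8) (L 45 8))) (A23 (out
  5) (A13 (out 5) (A03 (S 1 (L 4 8) (L 45 8)) (B02 (P 13 (L 41 7)) (M 6 (L 43 5)))))))))))) (A01 (M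
  19 (P 10 (A03 (A02 (B02 (B01 (A01 (A03 (A02 (B02 (S 1 (L 4 1) (L 45 1)) (B12 (P 13 (L 41 5)) (M 5
  (L 46 7)))) (B02 (S 1 (L 4 1) (L 45 1)) (B12 (S 1 (L 4 1) (L 31 1)) (M 5 (L 46 7))))) (A13 (B02
  (S 1 (L 4 1) (L 45 1)) (B12 (S 1 (L 4 1) (L 31 1)) (M 5 (L 46 7)))) (B02 (B01 (M 5 (L 46 7)) (A23
  (S 1 (L 4 1) (L 31 1)) (M 5 (L 46 7)))) (B12 (A23 (S 1 (L 4 1) (L 31 1)) (M 5 (L 46 7))) (M 5 (L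
  46 7)))))) (A13 (out 5) (A03 (out 5) (B02 (B01 (M 5 (L 46 7)) (A23 (out 5) (M 5 (L 46 7)))) (B12
  (A23 (out 5) (M 5 (L 46 7))) (M 5 (L 46 7))))))) (M 6 (L 43 10))) (M 6 (L 43 10))) (B02 (B01 (A12
  (A13 (out 5) (A23 (out 5) (B02 (B01 (M 5 (L 46 7)) (A03 (out 5) (M 5 (L 46 7)))) (B12 (A03 (out
  5) (M 5 (L 46 7))) (M 5 (L 46 7)))))) (A23 (out 5) (A13 (out 5) (B02 (B01 (M 5 (L 46 7)) (A03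
  (out 5) (M 5 (L 46 7)))) (B12 (A03 (out 5) (M 5 (L 46 7))) (M 5 (L 46 7))))))) (S 2 (L 7 4) (L 25
  4))) (S 2 (L 7 4) (L 25 4)))) (A13 (B02 (B01 (A12 (A01 (A02 (S 1 (L 4 1) (L 45 1)) (out 5)) (out
  5)) (A02 (A01 (S 1 (L 4 1) (L 45 1)) (out 5)) (out 5))) (M 6 (K [(43,10,5),(43,5,3)] []))) (M 6
  (K [(43,10,4),(43,5,4)] []))) (B02 (B01 (A23 (A02 (S 13 (L 41 7) (L 13 7)) (out 5)) (S 13 (L 41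
  7) (L 13 7))) (S 13 (L 41 7) (L 13 7))) (M 6 (K [(43,10,4),(43,5,4)] []))))))) (A13 (out 5) (M 19
  (A03 (out 5) (B02 (B01 (A23 (out 5) (S 13 (L 41 7) (L 13 7))) (A23 (out 5) (B12 (A13 (out 5) (M 6
  (L 43 5))) (S 1 (L 4 8) (L 45 8))))) (S 13 (L 41 7) (L 13 7)))))))) (B12 (A12 (B01 (A13 (out 5)
  (M 19 (P 10 (A23 (out 5) (B02 (A03 (out 5) (B01 (M 5 (L 46 1)) (A13 (out 5) (A23 (out 5) (B12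
  (A03 (P 13 (L 41 7)) (S 1 (L 4 8) (L 31 8))) (S 13 (L 41 7) (L 13 7))))))) (A03 (out 5) (A13 (out
  5) (A23 (out 5) (B12 (B01 (M 6 (L 43 5)) (P 13 (L 41 7))) (M 6 (L 43 5))))))))))) (A13 (out 5) (M
  19 (A23 (out 5) (B12 (A03 (out 5) (S 1 (L 4 8) (L 45 8))) (A03 (out 5) (A13 (out 5) (A23 (out 5)
  (B02 (P 13 (L 41 7)) (M 6 (L 43 5))))))))))) (M 19 (P 10 (B01 (A23 (out 5) (A13 (out 5) (B02 (A03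
  (out 5) (B01 (M 5 (L 46 1)) (A23 (out 5) (A13 (out 5) (B12 (A03 (P 13 (L 41 7)) (S 1 (L 4 8) (L
  31 1))) (S 13 (L 41 7) (L 13 7))))))) (S 13 (L 41 7) (L 13 7))))) (M 6 (A23 (out 5) (A13 (out 5)
  (B12 (P 13 (K [(43,5,103),(41,7,45),(43,10,52)] [])) (S 13 (L 41 7) (L 13 7)))))))))) (A12 (A13
  (out 5) (M 19 (A23 (out 5) (B02 (B01 (A03 (out 5) (M 5 (L 46 1))) (A03 (out 5) (B12 (A13 (out 5)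
  (M 6 (L 43 5))) (M 5 (L 46 1))))) (S 13 (L 41 7) (L 13 7)))))) (M 19 (A23 (out 5) (A13 (out 5)
  (B02 (B01 (A03 (out 5) (M 5 (L 46 1))) (S 13 (L 41 7) (L 13 7))) (S 13 (L 41 7) (L 13
  7))))))))))) (A13 (P 15 (M 12 (B12 (A01 (M 19 (B01 (A02 (S 1 (L 4 1) (L 45 1)) (A12 (S 1 (L 4 1)
  (L 45 1)) (B02 (A23 (B01 (S 1 (L 4 1) (L 45 1)) (A02 (S 1 (L 4 1) (L 45 1)) (A12 (S 1 (L 4 1) (L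
  45 1)) (S 1 (L 4 1) (L 45 1))))) (S 1 (L 4 1) (L 45 1))) (A23 (A02 (S 1 (L 4 1) (L 45 1)) (A12 (M
  16 (S 2 (L 8 4) (L 25 4))) (M 5 (S 13 (L 40 7) (L 13 7))))) (S 1 (L 4 1) (L 45 1)))))) (A02 (S 1
  (L 4 1) (L 45 1)) (A12 (S 1 (L 4 1) (L 45 1)) (B12 (M 16 (A23 (B01 (S 2 (L 8 4) (L 25 4)) (A02 (S
  1 (L 4 1) (L 45 8)) (S 1 (L 4 8) (L 45 8)))) (S 1 (L 4 1) (L 45 1)))) (A23 (A02 (S 1 (L 4 1) (L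
  45 1)) (A12 (S 2 (L 7 4) (L 25 4)) (B02 (M 16 (S 2 (L 8 4) (L 25 4))) (B12 (S 1 (L 4 8) (L 45 8))
  (A23 (M 6 (L 43 5)) (P 13 (L 41 7))))))) (S 1 (L 4 1) (L 45 1)))))))) (B01 (A12 (A13 (out 5) (B02
  (A03 (out 5) (M 1 (L 45 1))) (A03 (out 5) (A23 (out 5) (A13 (out 5) (S 1 (L 4 1) (L 45 1)))))))
  (P 10 (A02 (M 16 (S 2 (L 8 4) (L 25 4))) (B02 (A23 (B01 (S 1 (L 4 1) (L 45 1)) (A12 (S 1 (L 4 1)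
  (L 45 1)) (A02 (S 1 (L 4 1) (L 45 1)) (S 1 (L 4 1) (L 45 1))))) (S 1 (L 4 1) (L 45 1))) (A23 (A12
  (S 1 (L 4 8) (L 31 8)) (A02 (S 1 (L 4 8) (L 31 8)) (S 1 (L 4 8) (L 31 8)))) (S 1 (L 4 8) (L 31
  8))))))) (A12 (P 13 (A13 (out 5) (B12 (A03 (out 5) (B01 (A23 (out 5) (A13 (out 5) (M 19 (L 41
  11)))) (A23 (out 5) (S 1 (L 4 8) (L 45 1))))) (A03 (out 5) (A23 (out 5) (A13 (out 5) (S 1 (L 4 1)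
  (L 45 1)))))))) (M 19 (P 10 (A02 (B12 (A03 (out 5) (B01 (A13 (out 5) (S 1 (L 4 1) (L 45 1))) (S 1
  (L 4 8) (L 31 8)))) (A03 (out 5) (A13 (out 5) (S 1 (L 4 1) (L 45 1))))) (B12 (A23 (S 1 (L 4 8) (L
  31 8)) (S 1 (L 4 8) (L 31 8))) (A23 (A12 (S 1 (L 4 8) (L 31 8)) (A02 (S 1 (L 4 8) (L 31 8)) (B02
  (S 1 (L 4 8) (L 31 8)) (B12 (S 1 (L 4 8) (L 45 8)) (A23 (M 6 (L 43 5)) (P 13 (L 41 7))))))) (S 1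
  (L 4 8) (L 31 8)))))))))) (A01 (M 19 (P 10 (A02 (A03 (B02 (B01 (A01 (A02 (A03 (B02 (S 1 (L 4 1)
  (L 45 1)) (B12 (P 13 (L 41 5)) (M 5 (L 46 7)))) (B02 (S 1 (L 4 1) (L 45 1)) (B12 (P 13 (L 41 5))
  (M 5 (L 46 7))))) (A12 (B02 (S 1 (L 4 1) (L 45 1)) (B12 (P 13 (L 41 5)) (M 5 (L 46 7)))) (M 5 (L
  46 7)))) (A12 (S 1 (L 4 1) (L 45 1)) (A02 (S 1 (L 4 1) (L 45 1)) (M 5 (L 46 7))))) (A01 (B12 (A02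
  (P 13 (L 41 5)) (A12 (P 13 (L 41 5)) (B01 (A23 (M 6 (L 43 10)) (S 1 (L 4 1) (L 31 1))) (M 6 (L 43
  10))))) (A02 (A03 (B02 (M 6 (L 43 10)) (A01 (B12 (M 6 (L 43 10)) (M 5 (L 46 7))) (B12 (M 6 (L 43
  10)) (M 5 (L 46 7))))) (B02 (P 13 (L 41 5)) (A13 (B12 (M 6 (L 43 10)) (M 5 (L 46 7))) (M 5 (L 46
  7))))) (A12 (B02 (P 13 (L 41 5)) (A13 (B12 (M 6 (L 43 10)) (M 5 (L 46 7))) (M 5 (L 46 7)))) (M 5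
  (L 46 7))))) (B12 (A12 (S 1 (L 4 1) (L 31 1)) (A02 (S 1 (L 4 1) (L 31 1)) (B01 (A23 (M 6 (L 43
  10)) (S 1 (L 4 1) (L 31 1))) (M 6 (L 43 10))))) (A12 (S 1 (L 4 1) (L 31 1)) (A02 (S 1 (L 4 1) (L
  31 1)) (M 5 (L 46 7))))))) (B12 (A01 (B01 (A02 (A03 (B02 (A01 (B01 (M 5 (L 46 7)) (M 6 (L 43
  10))) (B01 (M 5 (L 46 7)) (M 6 (L 43 10)))) (M 6 (L 43 10))) (B02 (A13 (B01 (M 5 (L 46 7)) (M 6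
  (L 43 10))) (M 5 (L 46 7))) (M 6 (L 43 10)))) (A12 (B02 (A13 (B01 (M 5 (L 46 7)) (M 6 (L 43 10)))
  (M 5 (L 46 7))) (M 6 (L 43 10))) (M 5 (L 46 7)))) (M 6 (L 43 10))) (B01 (A12 (S 1 (L 4 1) (L 31
  1)) (A02 (S 1 (L 4 1) (L 31 1)) (M 5 (L 46 7)))) (M 6 (L 43 10)))) (A01 (A02 (A03 (B02 (B01 (M 5
  (L 46 7)) (M 6 (L 43 10))) (M 6 (L 43 10))) (B02 (B01 (M 5 (L 46 7)) (A13 (M 6 (L 43 10)) (M 5 (L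
  46 7)))) (B12 (A13 (M 6 (L 43 10)) (M 5 (L 46 7))) (M 5 (L 46 7))))) (A12 (B02 (B01 (M 5 (L 46
  7)) (A13 (M 6 (L 43 10)) (M 5 (L 46 7)))) (B12 (A13 (M 6 (L 43 10)) (M 5 (L 46 7))) (M 5 (L 46
  7)))) (M 5 (L 46 7)))) (A12 (A13 (out 5) (B02 (B01 (M 5 (L 46 7)) (A03 (out 5) (M 5 (L 46 7))))
  (B12 (A03 (out 5) (M 5 (L 46 7))) (M 5 (L 46 7))))) (A02 (B02 (B01 (M 5 (L 46 7)) (A03 (out 5) (M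
  5 (L 46 7)))) (B12 (A03 (out 5) (M 5 (L 46 7))) (M 5 (L 46 7)))) (M 5 (L 46 7))))))) (B02 (B01
  (A13 (A12 (S 1 (L 4 1) (L 45 1)) (M 5 (L 46 7))) (S 1 (L 4 1) (L 45 1))) (A13 (B12 (A12 (S 1 (L 4
  1) (L 45 1)) (A23 (B01 (A02 (S 1 (L 4 1) (L 31 1)) (A12 (S 1 (L 4 1) (L 31 1)) (M 5 (L 46 7))))
  (M 6 (L 43 10))) (S 1 (L 4 1) (L 45 1)))) (A12 (S 1 (L 4 1) (L 45 1)) (M 5 (L 46 7)))) (B12 (A23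
  (A12 (S 1 (L 4 1) (L 45 1)) (B01 (M 5 (L 46 7)) (M 6 (L 43 10)))) (S 1 (L 4 1) (L 45 1))) (S 1 (L
  4 1) (L 45 1))))) (B12 (A13 (B01 (A12 (S 1 (L 4 1) (L 45 1)) (M 5 (L 46 7))) (A12 (S 1 (L 4 1) (L
  31 1)) (A23 (M 6 (L 43 10)) (S 1 (L 4 1) (L 31 1))))) (B01 (S 1 (L 4 1) (L 45 1)) (A23 (A12 (B12
  (S 1 (L 4 1) (L 31 1)) (A01 (M 6 (L 43 10)) (A13 (S 1 (L 4 1) (L 31 1)) (M 5 (L 46 7))))) (M 6 (L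
  43 10))) (A03 (B12 (S 1 (L 4 1) (L 31 1)) (A01 (M 5 (L 46 7)) (A12 (S 1 (L 4 1) (L 31 1)) (M 5 (L
  46 7))))) (B12 (S 1 (L 4 1) (L 45 1)) (A13 (A12 (S 1 (L 4 1) (L 45 1)) (M 5 (L 46 7))) (S 1 (L 4
  1) (L 45 1)))))))) (A13 (A12 (A01 (M 5 (L 46 7)) (out 5)) (M 5 (L 46 7))) (S 1 (L 4 1) (L 45
  1)))))) (A12 (B02 (B01 (A13 (A01 (S 1 (L 4 1) (L 45 1)) (out 5)) (S 1 (L 4 1) (L 45 1))) (A13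
  (B12 (A01 (A03 (B01 (A02 (A01 (M 5 (L 46 7)) (S 1 (L 4 1) (L 31 1))) (S 1 (L 4 1) (L 31 1))) (M 6
  (L 43 10))) (S 1 (L 4 1) (L 45 1))) (out 5)) (A01 (S 1 (L 4 1) (L 45 1)) (out 5))) (B12 (A03 (A01
  (B01 (M 5 (L 46 7)) (M 6 (L 43 10))) (S 1 (L 4 1) (L 45 1))) (S 1 (L 4 1) (L 45 1))) (S 1 (L 4 1)
  (L 45 1))))) (B12 (A13 (B01 (A01 (S 1 (L 4 1) (L 45 1)) (out 5)) (A01 (A03 (M 6 (L 43 10)) (S 1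
  (L 4 1) (L 31 1))) (out 5))) (B01 (S 1 (L 4 1) (L 45 1)) (A03 (A01 (M 6 (L 43 10)) (B12 (S 1 (L 4
  1) (L 31 1)) (A12 (A13 (S 1 (L 4 1) (L 31 1)) (M 5 (L 46 7))) (M 5 (L 46 7))))) (A23 (B12 (S 1 (L
  4 1) (L 31 1)) (A12 (A01 (M 5 (L 46 7)) (S 1 (L 4 1) (L 31 1))) (M 5 (L 46 7)))) (B12 (S 1 (L 4
  1) (L 45 1)) (A13 (A01 (M 5 (L 46 7)) (S 1 (L 4 1) (L 45 1))) (S 1 (L 4 1) (L 45 1)))))))) (A13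
  (A01 (M 5 (K [(46,7,13),(46,1,11)] [])) (out 5)) (M 5 (A03 (K [(46,7,13),(46,1,11)] []) (S 13 (L
  41 7) (L 13 7))))))) (B02 (B01 (M 5 (S 13 (L 40 7) (L 13 7))) (A23 (B12 (A02 (A03 (B01 (M 5 (L 46
  7)) (M 6 (L 43 10))) (B01 (S 1 (L 4 1) (L 45 1)) (A13 (M 6 (L 43 10)) (S 1 (L 4 1) (L 31 1)))))
  (A12 (B01 (S 1 (L 4 1) (L 45 1)) (A13 (M 6 (L 43 5)) (S 1 (L 4 8) (L 31 1)))) (S 13 (L 41 7) (L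
  13 7)))) (S 13 (L 41 7) (L 13 7))) (B12 (A03 (A02 (B01 (M 5 (L 46 7)) (M 6 (L 43 10))) (B01 (S 1
  (L 4 1) (L 45 1)) (A12 (M 6 (L 43 10)) (S 1 (L 4 1) (L 31 1))))) (A13 (B01 (S 1 (L 4 1) (L 45 1))
  (A12 (S 1 (L 4 1) (L 31 1)) (S 1 (L 4 1) (L 31 1)))) (S 1 (L 4 1) (L 45 1)))) (S 1 (L 4 1) (L 45
  1))))) (B12 (A23 (B01 (S 13 (L 41 7) (L 13 7)) (A02 (A03 (M 6 (L 43 10)) (B12 (A13 (M 6 (L 43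
  10)) (S 1 (L 4 8) (L 31 1))) (S 1 (L 4 8) (L 31 1)))) (A12 (B12 (A13 (M 6 (L 43 5)) (S 1 (L 4 8)
  (L 31 1))) (S 1 (L 4 8) (L 31 1))) (S 1 (L 4 8) (L 31 1))))) (B01 (S 1 (L 4 1) (L 45 1)) (A03
  (A02 (M 6 (L 43 10)) (B12 (A12 (M 6 (L 43 10)) (S 1 (L 4 1) (L 31 1))) (S 1 (L 4 1) (L 31 1))))
  (A13 (B12 (A12 (S 1 (L 4 1) (L 31 1)) (S 1 (L 4 1) (L 31 1))) (S 1 (L 4 1) (L 31 1))) (S 1 (L 4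
  1) (L 45 1)))))) (A23 (A02 (A03 (S 1 (L 4 1) (L 31 1)) (S 13 (L 41 7) (L 13 7))) (S 13 (L 41 7)
  (L 13 7))) (A03 (A02 (S 1 (L 4 1) (L 31 1)) (S 13 (L 41 7) (L 13 7))) (S 13 (L 41 7) (L 13
  7)))))))))) (A12 (A13 (out 5) (P 10 (B02 (M 16 (S 2 (L 8 4) (L 25 4))) (B12 (M 16 (S 2 (L 8 4) (L
  25 4))) (A03 (out 5) (S 1 (L 4 8) (L 31 8))))))) (M 19 (P 10 (A02 (B02 (B01 (A03 (out 5) (M 5 (S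
  13 (L 40 7) (L 13 7)))) (A03 (out 5) (B12 (S 1 (L 4 8) (L 31 8)) (S 1 (L 4 8) (L 31 8))))) (B12
  (A03 (out 5) (B01 (S 1 (L 4 8) (L 31 8)) (S 1 (L 4 8) (L 31 8)))) (A03 (out 5) (S 1 (L 4 8) (L 31
  8))))) (B02 (B01 (M 5 (S 13 (L 40 7) (L 13 7))) (A23 (B12 (A12 (A13 (out 5) (B01 (S 1 (L 4 8) (L
  31 8)) (A03 (P 13 (L 41 7)) (S 1 (L 4 8) (L 45 8))))) (A02 (B01 (S 1 (L 4 8) (L 31 8)) (A03 (M 6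
  (L 43 5)) (S 1 (L 4 8) (L 45 8)))) (S 1 (L 4 8) (L 31 8)))) (S 1 (L 4 8) (L 31 8))) (B12 (A13
  (A12 (out 5) (B01 (S 1 (L 4 8) (L 31 8)) (A02 (P 13 (L 41 7)) (B12 (P 13 (L 41 7)) (S 1 (L 4 8)
  (L 45 8)))))) (A03 (B01 (S 1 (L 4 1) (L 45 1)) (A02 (P 13 (L 41 7)) (B12 (P 13 (L 41 7)) (S 1 (L
  4 8) (L 45 8))))) (B01 (M 1 (L 45 1)) (A23 (B12 (P 13 (L 41 7)) (S 1 (L 4 1) (L 45 1))) (S 1 (L 4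
  1) (L 45 1)))))) (S 1 (L 4 8) (L 31 8))))) (B12 (A23 (B01 (S 1 (L 4 8) (L 31 8)) (A12 (A13 (out
  5) (B12 (A03 (P 13 (L 41 7)) (S 1 (L 4 8) (L 45 8))) (S 1 (L 4 8) (L 45 8)))) (A02 (B12 (A03 (M 6
  (L 43 5)) (S 1 (L 4 8) (L 45 8))) (S 1 (L 4 8) (L 45 8))) (S 1 (L 4 8) (L 45 8))))) (B01 (S 1 (L
  4 8) (L 31 8)) (A13 (A12 (out 5) (B12 (A02 (P 13 (L 41 7)) (B01 (S 1 (L 4 8) (L 45 8)) (P 13 (L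
  41 7)))) (S 1 (L 4 8) (L 45 8)))) (A03 (B12 (A02 (P 13 (L 41 7)) (B01 (S 1 (L 4 8) (L 45 8)) (P
  13 (L 41 7)))) (S 1 (L 4 8) (L 45 8))) (B12 (A23 (B01 (S 1 (L 4 8) (L 31 8)) (P 13 (L 41 7))) (S
  1 (L 4 8) (L 45 1))) (S 1 (L 4 8) (L 31 8))))))) (S 1 (L 4 8) (L 31 8)))))))))))) (B12 (A03 (M 19
  (P 15 (P 10 (B01 (A02 (S 1 (L 4 1) (L 45 1)) (A23 (B02 (A12 (B01 (S 1 (L 4 1) (L 45 1)) (A01 (A02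
  (B12 (S 1 (L 4 1) (L 45 1)) (M 5 (L 46 7))) (M 1 (L 45 1))) (M 1 (L 45 1)))) (B01 (S 1 (L 4 1) (L
  45 1)) (A02 (A01 (B12 (S 1 (L 4 1) (L 45 1)) (M 5 (L 46 7))) (S 1 (L 4 1) (L 45 1))) (S 1 (L 4 1)
  (L 45 1))))) (A12 (A01 (A02 (B12 (B01 (A03 (S 1 (L 4 1) (L 31 1)) (M 5 (L 46 7))) (S 1 (L 4 1) (L
  45 1))) (B02 (A03 (S 1 (L 4 1) (L 31 1)) (M 5 (L 46 7))) (M 6 (L 43 10)))) (B12 (B01 (S 1 (L 4 1)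
  (L 45 1)) (S 1 (L 4 1) (L 45 1))) (S 1 (L 4 1) (L 45 1)))) (A13 (S 1 (L 4 1) (L 45 1)) (B12 (B01
  (S 1 (L 4 1) (L 45 1)) (S 1 (L 4 1) (L 45 1))) (S 1 (L 4 1) (L 45 1))))) (A02 (A01 (B12 (B01 (A03
  (S 1 (L 4 1) (L 31 1)) (M 5 (L 46 7))) (S 1 (L 4 1) (L 31 1))) (B02 (A03 (S 1 (L 4 1) (L 31 1))
  (M 5 (L 46 7))) (M 6 (L 43 10)))) (S 1 (L 4 1) (L 45 1))) (M 5 (S 13 (L 40 7) (L 13 7)))))) (B02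
  (A13 (B01 (S 1 (L 4 1) (L 45 1)) (A01 (A03 (B12 (S 1 (L 4 1) (L 45 1)) (M 5 (L 46 7))) (M 1 (L 45
  1))) (M 1 (L 45 1)))) (B01 (S 1 (L 4 1) (L 45 1)) (A03 (A01 (B12 (S 1 (L 4 1) (L 45 1)) (M 5 (L
  46 7))) (M 5 (L 46 7))) (M 5 (L 46 7))))) (A13 (A01 (A03 (B12 (B01 (A02 (S 1 (L 4 1) (L 31 1)) (M
  5 (L 46 7))) (S 1 (L 4 1) (L 45 1))) (B02 (A02 (S 1 (L 4 1) (L 31 1)) (M 5 (L 46 7))) (M 6 (L 43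
  10)))) (B12 (B01 (M 5 (L 46 7)) (S 1 (L 4 1) (L 45 1))) (M 5 (L 46 7)))) (A12 (S 1 (L 4 1) (L 45
  1)) (B12 (B01 (S 1 (L 4 1) (L 45 1)) (S 1 (L 4 1) (L 45 1))) (S 1 (L 4 1) (L 45 1))))) (A03 (A01
  (B12 (B01 (A02 (S 1 (L 4 1) (L 31 1)) (M 5 (L 46 7))) (S 1 (L 4 1) (L 45 1))) (B02 (A02 (S 1 (L 4
  1) (L 31 1)) (M 5 (L 46 7))) (M 6 (L 43 10)))) (M 5 (L 46 7))) (M 5 (L 46 7))))))) (A02 (S 1 (L 4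
  1) (L 45 1)) (A23 (B12 (M 16 (A12 (S 1 (L 4 1) (L 45 1)) (B01 (S 2 (L 8 4) (L 25 4)) (A02 (S 1 (L
  4 1) (L 45 8)) (A23 (S 1 (L 4 8) (L 45 8)) (S 1 (L 4 1) (L 45 8))))))) (A12 (A01 (A02 (B02 (S 1
  (L 4 1) (L 31 1)) (M 6 (L 43 10))) (B02 (S 1 (L 4 1) (L 45 1)) (B12 (S 1 (L 4 1) (L 31 1)) (A23
  (S 1 (L 4 1) (L 31 1)) (M 6 (L 43 10)))))) (A13 (S 1 (L 4 1) (L 45 1)) (B02 (S 1 (L 4 1) (L 45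
  1)) (B12 (S 1 (L 4 1) (L 31 1)) (A23 (S 1 (L 4 1) (L 31 1)) (A03 (S 1 (L 4 1) (L 31 1)) (M 5 (L
  46 7)))))))) (A02 (A01 (B02 (S 1 (L 4 1) (L 31 1)) (M 6 (L 43 10))) (B02 (S 1 (L 4 1) (L 45 1))
  (B12 (S 1 (L 4 1) (L 31 1)) (A13 (P 13 (L 41 7)) (M 6 (L 43 10)))))) (A23 (B02 (M 16 (S 2 (L 8 4)
  (L 25 4))) (B12 (S 1 (L 4 8) (L 45 8)) (S 1 (L 4 8) (L 45 8)))) (B02 (S 1 (L 4 1) (L 45 1)) (B12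
  (S 1 (L 4 1) (L 31 1)) (M 5 (L 46 7)))))))) (B12 (S 1 (L 4 1) (L 45 1)) (A13 (A01 (A03 (B02 (S 1
  (L 4 1) (L 31 1)) (M 6 (L 43 10))) (B02 (S 1 (L 4 1) (L 45 1)) (B12 (S 1 (L 4 1) (L 31 1)) (A23
  (A12 (S 1 (L 4 1) (L 31 1)) (A02 (S 1 (L 4 1) (L 31 1)) (M 5 (L 46 7)))) (S 1 (L 4 1) (L 31
  1)))))) (A12 (S 1 (L 4 1) (L 45 1)) (B02 (S 1 (L 4 1) (L 45 1)) (B12 (S 1 (L 4 1) (L 45 1)) (A23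
  (A02 (S 1 (L 4 1) (L 31 1)) (M 5 (L 46 7))) (S 1 (L 4 1) (L 45 1))))))) (A03 (A01 (B02 (S 1 (L 4
  1) (L 31 1)) (M 6 (L 43 10))) (B02 (S 1 (L 4 1) (L 45 1)) (B12 (S 1 (L 4 1) (L 31 1)) (A12 (S 1
  (L 4 1) (L 31 1)) (A23 (A02 (S 1 (L 4 1) (L 31 1)) (M 5 (L 46 7))) (S 1 (L 4 1) (L 31 1)))))))
  (A23 (B02 (S 1 (L 4 1) (L 45 1)) (B12 (S 1 (L 4 1) (L 31 1)) (M 5 (L 46 7)))) (S 1 (L 4 1) (L 45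
  1)))))))))))) (B01 (M 5 (P 2 (A23 (A02 (B02 (P 6 (S 12 (L 38 10) (L 18 10))) (P 15 (S 1 (L 4 1)
  (L 45 1)))) (B02 (A12 (P 6 (S 12 (L 38 10) (L 18 10))) (B01 (A23 (A02 (P 6 (S 12 (L 38 10) (L 18
  10))) (B02 (S 12 (L 38 10) (L 7 10)) (P 15 (L 46 1)))) (P 6 (S 12 (L 38 10) (L 18 10)))) (A23 (P
  15 (S 1 (L 4 1) (L 45 1))) (P 6 (S 12 (L 38 10) (L 18 10)))))) (S 13 (L 40 7) (L 13 7)))) (A13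
  (B02 (P 6 (S 12 (L 38 10) (L 18 10))) (A01 (A02 (A03 (P 15 (L 46 7)) (P 6 (S 12 (L 38 10) (L 18
  10)))) (P 6 (S 12 (L 38 10) (L 18 10)))) (P 6 (S 12 (L 38 10) (L 18 10))))) (B02 (P 6 (A03 (S 12
  (L 38 10) (L 18 10)) (B01 (A23 (S 12 (L 38 10) (L 7 10)) (P 12 (L 38 10))) (S 12 (L 38 10) (L 18
  10))))) (P 10 (A03 (A02 (A01 (B12 (M 1 (L 31 1)) (B02 (M 1 (L 31 1)) (P 15 (L 46 7)))) (P 6 (S 12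
  (L 38 10) (L 18 10)))) (P 6 (S 12 (L 38 10) (L 18 10)))) (P 6 (S 12 (L 38 10) (L 18 10))))))))))
  (P 10 (A23 (P 15 (A02 (B12 (S 1 (L 4 1) (L 45 1)) (A01 (A03 (A02 (B02 (S 1 (L 4 1) (L 45 1)) (B12
  (S 1 (L 4 1) (L 45 1)) (M 5 (L 46 7)))) (B02 (S 1 (L 4 1) (L 45 1)) (B12 (S 1 (L 4 1) (L 31 1))
  (M 5 (L 46 7))))) (A13 (B02 (S 1 (L 4 1) (L 45 1)) (B12 (S 1 (L 4 1) (L 45 1)) (M 5 (L 46 7))))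
  (S 1 (L 4 1) (L 45 1)))) (A13 (A12 (S 1 (L 4 1) (L 45 1)) (B02 (S 1 (L 4 1) (L 45 1)) (B12 (S 1
  (L 4 1) (L 45 1)) (M 5 (L 46 7))))) (A03 (B02 (S 1 (L 4 1) (L 45 1)) (B12 (S 1 (L 4 1) (L 45 1))
  (M 5 (L 46 7)))) (S 1 (L 4 1) (L 45 1)))))) (B12 (M 16 (A12 (S 1 (L 4 1) (L 45 1)) (B01 (S 2 (L 8
  4) (L 25 4)) (A23 (A02 (S 1 (L 4 1) (L 45 8)) (S 1 (L 4 8) (L 45 8))) (S 1 (L 4 1) (L 31 1))))))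
  (A12 (A13 (A01 (B02 (S 1 (L 4 1) (L 45 1)) (B12 (S 1 (L 4 1) (L 45 1)) (M 5 (L 46 7)))) (S 1 (L 4
  1) (L 45 1))) (A23 (B02 (S 1 (L 4 1) (L 45 1)) (B12 (S 1 (L 4 1) (L 45 1)) (S 1 (L 4 1) (L 45
  1)))) (S 1 (L 4 1) (L 45 1)))) (A23 (A02 (B02 (S 1 (L 4 1) (L 45 1)) (B12 (S 1 (L 4 1) (L 31 1))
  (S 1 (L 4 1) (L 31 1)))) (B02 (S 1 (L 4 8) (L 31 8)) (B12 (S 1 (L 4 8) (L 45 8)) (S 1 (L 4 8) (L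
  45 8))))) (A13 (B02 (S 1 (L 4 1) (L 45 1)) (B12 (S 1 (L 4 1) (L 31 1)) (S 1 (L 4 1) (L 31 1))))
  (S 1 (L 4 1) (L 45 1)))))))) (A13 (P 15 (B12 (S 1 (L 4 1) (L 45 1)) (A01 (A02 (A03 (B02 (S 1 (L 4
  1) (L 45 1)) (B12 (S 1 (L 4 1) (L 45 1)) (M 5 (L 46 7)))) (B02 (S 1 (L 4 1) (L 45 1)) (B12 (S 1
  (L 4 1) (L 45 1)) (S 1 (L 4 1) (L 45 1))))) (A12 (B02 (S 1 (L 4 1) (L 45 1)) (B12 (S 1 (L 4 1) (L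
  45 1)) (S 1 (L 4 1) (L 45 1)))) (S 1 (L 4 1) (L 45 1)))) (A12 (S 1 (L 4 1) (L 45 1)) (A02 (S 1 (L
  4 1) (L 45 1)) (M 1 (L 45 1))))))) (B12 (M 16 (A03 (P 15 (S 1 (L 4 1) (L 45 1))) (S 2 (L 8 4) (L
  25 4)))) (A03 (P 15 (S 1 (L 4 1) (L 45 1))) (P 6 (S 12 (L 38 10) (L 18 10)))))))))) (A03 (M 19 (P
  15 (P 10 (A02 (A01 (B02 (B01 (A03 (A02 (A01 (B02 (S 1 (L 4 1) (L 45 1)) (B12 (P 13 (L 41 5)) (M 5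
  (L 46 7)))) (M 5 (L 46 7))) (M 5 (L 46 7))) (M 5 (L 46 7))) (A03 (B12 (A02 (P 13 (L 41 5)) (A23
  (B01 (M 5 (L 46 7)) (M 6 (L 43 10))) (P 13 (L 41 5)))) (A02 (A01 (B02 (P 13 (L 41 5)) (M 5 (L 46
  7))) (M 5 (L 46 7))) (M 5 (L 46 7)))) (B12 (A23 (A02 (B01 (M 5 (L 46 7)) (M 6 (L 43 10))) (B01 (M
  5 (L 46 7)) (M 6 (L 43 10)))) (A13 (B01 (M 5 (L 46 7)) (A01 (M 5 (L 46 7)) (B12 (P 13 (L 41 5))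
  (M 5 (L 46 7))))) (M 5 (L 46 7)))) (M 5 (L 46 7))))) (B12 (A03 (B01 (M 5 (L 46 7)) (M 6 (L 43
  10))) (B01 (M 5 (L 46 7)) (A23 (M 6 (L 43 10)) (A13 (B12 (A01 (M 5 (L 46 7)) (B01 (M 5 (L 46 7))
  (M 6 (L 43 10)))) (M 5 (L 46 7))) (M 5 (L 46 7)))))) (M 5 (L 46 7)))) (B02 (B01 (S 1 (L 4 1) (L
  45 1)) (A13 (B12 (A12 (S 1 (L 4 1) (L 45 1)) (A23 (B01 (M 5 (L 46 7)) (M 6 (L 43 10))) (S 1 (L 4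
  1) (L 45 1)))) (S 1 (L 4 1) (L 45 1))) (B12 (A23 (A12 (B01 (M 5 (L 46 7)) (A01 (B12 (S 1 (L 4 1)
  (L 31 1)) (M 5 (L 46 7))) (M 5 (L 46 7)))) (B01 (M 5 (L 46 7)) (M 6 (L 43 10)))) (A03 (B01 (M 5
  (L 46 7)) (A01 (B12 (P 13 (L 41 5)) (M 5 (L 46 7))) (M 5 (L 46 7)))) (M 5 (L 46 7)))) (S 1 (L 4
  1) (L 45 1))))) (B12 (A13 (B01 (S 1 (L 4 1) (L 45 1)) (A12 (A01 (B12 (S 1 (L 4 1) (L 31 1)) (M 5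
  (L 46 7))) (S 1 (L 4 1) (L 45 1))) (A23 (M 6 (L 43 10)) (B12 (S 1 (L 4 1) (L 31 1)) (M 5 (L 46
  7)))))) (B01 (S 1 (L 4 1) (L 31 1)) (A23 (A12 (B12 (A01 (B01 (M 5 (L 46 7)) (M 6 (L 43 10))) (M 5
  (L 46 7))) (M 5 (L 46 7))) (M 6 (L 43 10))) (A03 (B12 (A01 (B01 (M 5 (L 46 7)) (M 6 (L 43 10)))
  (M 5 (L 46 7))) (M 5 (L 46 7))) (M 5 (L 46 7)))))) (S 1 (L 4 1) (L 45 1))))) (M 5 (A23 (B02 (S 13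
  (L 40 7) (L 13 7)) (B12 (S 13 (L 40 7) (L 13 7)) (A12 (A01 (P 16 (K [(49,4,4),(49,8,3)] [])) (S
  13 (L 41 7) (L 13 7))) (P 16 (K [(49,4,5),(49,8,3)] []))))) (S 1 (L 4 1) (L 45 1)))))))) (M 5 (P
  2 (A23 (M 19 (P 10 (A02 (B02 (B01 (P 6 (S 12 (L 38 10) (L 18 10))) (A01 (B12 (P 15 (S 1 (L 4 1)
  (L 45 1))) (A03 (A02 (P 6 (S 12 (L 38 10) (L 18 10))) (B02 (P 15 (S 1 (L 4 1) (L 45 1))) (A12 (M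
  1 (L 31 1)) (P 16 (L 49 4))))) (A13 (B02 (P 15 (S 1 (L 4 1) (L 45 1))) (A12 (M 1 (L 31 1)) (P 16
  (L 49 4)))) (B02 (A23 (P 15 (S 1 (L 4 1) (L 45 1))) (S 12 (L 38 10) (L 7 10))) (P 16 (L 49
  4)))))) (B12 (P 15 (S 1 (L 4 1) (L 45 1))) (A13 (A12 (P 6 (S 12 (L 38 10) (L 18 10))) (B02 (P 15
  (S 1 (L 4 1) (L 45 1))) (A02 (P 6 (S 12 (L 38 10) (L 18 10))) (B12 (P 15 (S 1 (L 4 1) (L 45 1)))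
  (S 12 (L 38 10) (L 7 10)))))) (A03 (B02 (P 15 (S 1 (L 4 1) (L 45 1))) (A02 (P 6 (S 12 (L 38 10)
  (L 18 10))) (P 16 (L 49 4)))) (B02 (A23 (P 15 (S 1 (L 4 1) (L 45 1))) (S 12 (L 38 10) (L 7 10)))
  (P 16 (L 49 4)))))))) (B12 (A01 (B01 (A03 (A02 (B02 (M 1 (L 31 1)) (P 15 (L 46 7))) (B02 (A12 (M
  1 (L 31 1)) (P 16 (L 49 4))) (S 1 (L 4 1) (L 31 1)))) (A13 (B02 (A12 (M 1 (L 31 1)) (P 16 (L 49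
  4))) (S 1 (L 4 1) (L 31 1))) (P 16 (L 49 4)))) (S 1 (L 4 1) (L 31 1))) (B01 (A13 (A12 (B02 (P 6
  (S 12 (L 38 10) (L 18 10))) (P 15 (S 1 (L 4 1) (L 45 1)))) (B02 (A02 (P 6 (S 12 (L 38 10) (L 18
  10))) (B01 (P 16 (L 49 4)) (P 15 (S 1 (L 4 1) (L 45 1))))) (P 15 (S 1 (L 4 1) (L 45 1))))) (A03
  (B02 (A02 (P 6 (S 12 (L 38 10) (L 18 10))) (P 16 (L 49 4))) (P 15 (S 1 (L 4 1) (L 45 1)))) (P 16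
  (L 49 4)))) (P 15 (S 1 (L 4 1) (L 45 1))))) (A01 (A03 (A02 (B02 (B01 (M 1 (L 31 1)) (P 16 (L 49
  8))) (P 16 (L 49 8))) (B02 (B01 (A12 (M 1 (L 31 1)) (P 16 (L 49 4))) (P 16 (L 49 4))) (S 1 (L 4
  1) (L 31 1)))) (A13 (B02 (B01 (A12 (M 1 (L 31 1)) (P 16 (L 49 4))) (P 16 (L 49 4))) (S 1 (L 4 1)
  (L 31 1))) (S 1 (L 4 1) (L 31 1)))) (A13 (A12 (B02 (B01 (S 12 (L 38 10) (L 7 10)) (P 15 (S 1 (L 4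
  1) (L 45 1)))) (P 15 (S 1 (L 4 1) (L 45 1)))) (B02 (B01 (A02 (S 12 (L 38 10) (L 7 10)) (P 16 (L
  49 4))) (P 16 (L 49 4))) (P 16 (L 49 4)))) (A03 (B02 (B01 (A02 (S 12 (L 38 10) (L 7 10)) (P 16 (L
  49 4))) (P 16 (L 49 4))) (P 16 (L 49 4))) (P 16 (L 49 4))))))) (B02 (B01 (A12 (P 6 (S 12 (L 38
  10) (L 18 10))) (A23 (A02 (P 6 (S 12 (L 38 10) (L 18 10))) (B02 (B01 (S 12 (L 38 10) (L 7 10))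
  (A12 (S 12 (L 38 10) (L 7 10)) (P 16 (L 49 4)))) (B12 (A12 (S 12 (L 38 10) (L 7 10)) (P 16 (L 49
  4))) (P 16 (L 49 4))))) (P 6 (S 12 (L 38 10) (L 18 10))))) (A12 (B12 (P 15 (S 1 (L 4 1) (L 45
  1))) (A13 (A01 (B02 (P 15 (S 1 (L 4 1) (L 45 1))) (A02 (B12 (P 15 (S 1 (L 4 1) (L 45 1))) (S 12
  (L 38 10) (L 7 10))) (B12 (P 15 (L 46 1)) (M 1 (L 31 8))))) (M 1 (L 31 8))) (A23 (B02 (P 15 (S 1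
  (L 4 1) (L 45 1))) (P 16 (L 49 4))) (B02 (A03 (P 15 (S 1 (L 4 1) (L 45 1))) (S 12 (L 38 10) (L 7
  10))) (P 16 (L 49 4)))))) (B12 (S 13 (L 41 7) (L 13 7)) (A23 (S 13 (L 41 7) (L 13 7)) (A13 (P 15
  (S 1 (L 4 1) (L 45 1))) (P 16 (L 49 4))))))) (B12 (A12 (B01 (A13 (A01 (B02 (A02 (B01 (P 16 (L 49
  4)) (P 15 (S 1 (L 4 1) (L 45 1)))) (B01 (P 16 (L 49 4)) (P 15 (L 46 1)))) (P 15 (S 1 (L 4 1) (L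
  45 1)))) (B02 (M 1 (L 31 8)) (P 15 (L 46 1)))) (P 16 (L 49 4))) (P 15 (S 1 (L 4 1) (L 45 1))))
  (B01 (P 16 (L 49 4)) (S 13 (L 41 7) (L 13 7)))) (A12 (A13 (A01 (P 16 (L 49 4)) (B02 (B01 (A12 (M
  1 (L 31 8)) (P 16 (L 49 4))) (P 15 (L 46 1))) (P 15 (L 46 1)))) (P 16 (L 49 4))) (P 16 (L 49
  4)))))))) (A13 (B02 (B01 (P 6 (S 12 (L 38 10) (L 18 10))) (A01 (B12 (A02 (A03 (P 15 (L 46 7)) (P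
  6 (S 12 (L 38 10) (L 18 10)))) (P 6 (S 12 (L 38 10) (L 18 10)))) (P 6 (S 12 (L 38 10) (L 18
  10)))) (P 6 (S 12 (L 38 10) (L 18 10))))) (B12 (A01 (B01 (P 6 (S 12 (L 38 10) (L 18 10))) (P 15
  (S 1 (L 4 1) (L 45 1)))) (P 6 (S 12 (L 38 10) (L 18 10)))) (P 6 (S 12 (L 38 10) (L 18 10)))))
  (B02 (B01 (P 6 (A03 (S 12 (L 38 10) (L 18 10)) (A23 (S 12 (L 38 10) (L 7 10)) (P 12 (L 38 10)))))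
  (P 10 (A03 (B12 (A02 (A01 (B01 (M 1 (L 31 1)) (A03 (P 15 (L 46 7)) (M 1 (L 31 1)))) (P 6 (S 12 (L
  38 10) (L 18 10)))) (P 6 (S 12 (L 38 10) (L 18 10)))) (P 6 (S 12 (L 38 10) (L 18 10)))) (P 6 (B12
  (S 12 (L 38 10) (L 18 10)) (S 12 (L 38 10) (L 7 10))))))) (P 10 (B12 (A03 (B01 (P 6 (S 12 (L 38
  10) (L 18 10))) (A02 (A01 (B12 (A03 (P 15 (L 46 7)) (M 1 (L 31 1))) (M 1 (L 31 1))) (P 6 (S 12 (L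
  38 10) (L 18 10)))) (P 6 (S 12 (L 38 10) (L 18 10))))) (P 6 (B01 (S 12 (L 38 10) (L 7 10)) (S 12
  (L 38 10) (L 18 10))))) (P 16 (M 1 (K [(49,4,4),(31,1,4)] []))))))))))))))))))))

/-- its cell -/
def cI8 : Cell :=
  ⟨0, 0, 0, 0, 0, 1114112, 0, 1114112, 1114112, 557056, 557056, 557056, 0, 0, 0, 5070848, 3129344, 0⟩

theorem okI8 : check datI tI8 cI8 16384 2048 = true := by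
  decide +kernel

end Pool.Agent.H315.NW
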