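import Pool.Agent.H315.NW.Data

/-!
# Project NW (helper315): certificates (generated)
-/

set_option autoImplicit false
set_option maxRecDepth 100000

namespace Pool.Agent.H315.NW

open Tr

/-- a part of the certificate -/
def tI9 : Tr :=
  (A13 (M 18 (P 4 (M 3 (A12 (A01 (P 8 (M 7 (P 0 (A02 (M 1 (B12 (A03 (B01 (A01 (M 5 (A02 (B02 (A03
  (B01 (P 12 (L 38 10)) (A01 (A02 (B12 (P 13 (L 40 7)) (P 12 (L 38 10))) (P 13 (L 40 7))) (P 13 (L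
  40 7)))) (B01 (P 12 (L 38 10)) (P 13 (L 40 7)))) (A03 (A01 (P 10 (L 31 8)) (P 13 (L 40 7))) (P 13
  (L 40 7)))) (B02 (A23 (P 13 (L 40 7)) (B01 (P 12 (L 38 10)) (P 13 (L 40 7)))) (P 13 (L 40 7)))))
  (A13 (P 13 (B02 (A12 (P 19 (L 58 5)) (B01 (M 5 (L 40 7)) (A02 (A01 (M 5 (L 40 7)) (B12 (A13 (P 15
  (L 45 1)) (M 5 (L 40 7))) (M 5 (L 40 7)))) (A23 (P 15 (L 45 1)) (B12 (A13 (P 15 (L 45 1)) (M 5 (L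
  40 7))) (M 5 (L 40 7))))))) (A12 (A01 (A02 (B12 (B01 (M 5 (L 40 7)) (P 15 (L 45 1))) (M 5 (L 40
  7))) (B12 (B01 (A23 (P 15 (L 45 1)) (M 5 (L 40 7))) (P 15 (L 45 1))) (B02 (A23 (P 15 (L 45 1)) (M
  5 (L 40 7))) (P 15 (L 45 1))))) (A13 (P 15 (L 45 1)) (B12 (P 19 (L 58 5)) (B02 (A23 (P 15 (L 45
  1)) (B01 (M 5 (L 40 7)) (P 15 (L 45 1)))) (P 15 (L 45 1)))))) (A02 (A01 (M 5 (L 40 7)) (B12 (B01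
  (A13 (P 15 (L 45 1)) (M 5 (L 40 7))) (P 15 (L 45 1))) (B02 (A13 (P 15 (L 45 1)) (M 5 (L 40 7)))
  (P 15 (L 45 1))))) (A23 (P 15 (L 45 1)) (B12 (B01 (A13 (P 15 (L 45 1)) (M 5 (L 40 7))) (P 15 (L
  45 1))) (B02 (A13 (P 15 (L 45 1)) (M 5 (L 40 7))) (P 15 (L 45 1))))))))) (M 5 (B02 (A23 (P 13 (L
  40 7)) (B01 (P 12 (L 38 10)) (P 13 (L 40 7)))) (P 13 (L 40 7)))))) (A01 (A02 (B12 (P 13 (A03 (B01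
  (A01 (M 5 (L 40 7)) (A13 (P 15 (L 45 1)) (M 5 (L 40 7)))) (P 15 (L 45 1))) (B01 (A13 (A01 (M 5 (L
  40 7)) (P 15 (L 45 1))) (M 5 (L 40 7))) (P 15 (L 45 1))))) (M 5 (A03 (A01 (P 10 (L 31 8)) (P 13
  (L 40 7))) (P 13 (L 40 7))))) (P 13 (B12 (A23 (P 15 (L 45 1)) (B01 (A13 (P 15 (L 45 1)) (M 5 (L
  40 7))) (P 15 (L 45 1)))) (A23 (P 15 (L 45 1)) (M 5 (L 40 7)))))) (P 13 (A13 (P 15 (L 45 1)) (B12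
  (A23 (P 15 (L 45 1)) (B01 (A03 (P 15 (L 45 1)) (A13 (B02 (A12 (B01 (M 5 (L 40 7)) (P 15 (L 45
  1))) (M 5 (L 40 7))) (P 15 (L 45 1))) (M 5 (L 40 7)))) (P 15 (L 45 1)))) (A23 (P 15 (L 45 1))
  (A03 (P 15 (L 45 1)) (A13 (B02 (B01 (M 5 (L 40 7)) (P 15 (L 45 1))) (P 15 (L 45 1))) (M 5 (L 40
  7)))))))))) (B01 (A13 (A01 (M 5 (B02 (A02 (B01 (P 12 (L 38 10)) (P 13 (L 40 7))) (P 13 (L 40 7)))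
  (P 13 (L 40 7)))) (M 16 (P 13 (B02 (A12 (S 2 (L 8 4) (L 25 4)) (B01 (M 5 (L 40 7)) (A23 (A02 (B12
  (A01 (M 5 (L 40 7)) (P 15 (L 45 1))) (M 5 (L 40 7))) (P 15 (L 45 1))) (A13 (B12 (P 19 (L 58 5))
  (M 5 (L 40 7))) (B12 (P 19 (L 58 11)) (M 5 (L 40 7))))))) (A12 (A13 (A01 (B12 (P 19 (L 58 5))
  (B02 (A02 (B01 (M 5 (L 40 7)) (P 15 (L 45 1))) (P 15 (L 45 1))) (P 15 (L 45 1)))) (P 15 (L 45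
  1))) (A23 (B12 (P 19 (L 58 5)) (B02 (A02 (B01 (M 5 (L 40 7)) (P 15 (L 45 1))) (P 15 (L 45 1))) (P
  15 (L 45 1)))) (B12 (S 2 (L 8 4) (L 25 4)) (B02 (P 19 (L 58 5)) (P 15 (L 45 1)))))) (A23 (A02
  (B12 (B01 (A01 (M 5 (L 40 7)) (P 15 (L 45 1))) (P 15 (L 45 1))) (B02 (A01 (M 5 (L 40 7)) (P 15 (L
  45 1))) (P 15 (L 45 1)))) (P 15 (L 45 1))) (A13 (B12 (B01 (A01 (M 5 (L 40 7)) (P 15 (L 45 1))) (P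
  15 (L 45 1))) (B02 (A01 (M 5 (L 40 7)) (P 15 (L 45 1))) (P 15 (L 45 1)))) (B12 (B01 (M 5 (L 40
  7)) (A03 (P 15 (L 45 1)) (A23 (P 15 (L 45 1)) (S 2 (L 8 4) (L 25 4))))) (M 5 (L 40 7)))))))))) (M
  5 (A23 (B02 (A02 (B01 (P 12 (L 38 10)) (P 13 (L 40 7))) (P 13 (L 40 7))) (P 13 (L 40 7))) (B02
  (A03 (B01 (P 12 (L 38 10)) (P 13 (L 40 7))) (B01 (P 12 (L 38 10)) (P 13 (L 40 7)))) (P 13 (L 40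
  7)))))) (M 16 (P 13 (A13 (A01 (B12 (A02 (B01 (A03 (A01 (M 5 (L 40 7)) (B02 (A12 (P 19 (L 58 5))
  (M 5 (L 40 7))) (P 15 (L 45 1)))) (A23 (B02 (A12 (P 19 (L 58 5)) (B01 (M 5 (L 40 7)) (P 15 (L 45
  1)))) (P 15 (L 45 1))) (S 2 (L 8 4) (L 25 4)))) (P 15 (L 45 1))) (P 15 (L 45 1))) (A02 (A03 (A01
  (M 5 (L 40 7)) (B02 (B01 (M 5 (L 40 7)) (P 15 (L 45 1))) (P 15 (L 45 1)))) (A23 (B02 (B01 (M 5 (L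
  40 7)) (P 15 (L 45 1))) (P 15 (L 45 1))) (B02 (S 2 (L 8 4) (L 25 4)) (P 15 (L 45 1))))) (P 15 (L
  45 1)))) (P 15 (L 45 1))) (A23 (B12 (A02 (B01 (A01 (M 5 (L 40 7)) (A12 (B02 (P 19 (L 58 11)) (P
  15 (L 45 1))) (B02 (A23 (B01 (M 5 (L 40 7)) (P 15 (L 45 1))) (B01 (M 5 (L 40 7)) (P 15 (L 45
  1)))) (P 15 (L 45 1))))) (P 15 (L 45 1))) (P 15 (L 45 1))) (A02 (A01 (M 5 (L 40 7)) (A12 (B02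
  (B01 (M 5 (L 40 7)) (P 15 (L 45 1))) (P 15 (L 45 1))) (M 5 (L 40 7)))) (P 15 (L 45 1)))) (B12
  (A03 (B01 (A01 (M 5 (L 40 7)) (A13 (B02 (P 19 (L 58 11)) (P 15 (L 45 1))) (M 5 (L 40 7)))) (P 15
  (L 45 1))) (B01 (A13 (A01 (M 5 (L 40 7)) (B02 (P 19 (L 58 11)) (P 15 (L 45 1)))) (M 5 (L 40 7)))
  (A13 (P 15 (L 45 1)) (A23 (P 15 (L 45 1)) (B12 (P 19 (L 58 11)) (S 10 (L 31 2) (L 2 2))))))) (A03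
  (A01 (M 5 (L 40 7)) (A13 (B02 (B01 (M 5 (L 40 7)) (P 15 (L 45 1))) (P 15 (L 45 1))) (M 5 (L 40
  7)))) (A13 (A01 (M 5 (L 40 7)) (B02 (B01 (M 5 (L 40 7)) (A12 (S 2 (L 8 4) (L 25 4)) (M 5 (L 40
  7)))) (B12 (A12 (P 19 (L 58 5)) (M 5 (L 40 7))) (M 5 (L 40 7))))) (M 5 (L 40 7))))))))))) (A03
  (A01 (M 5 (A02 (B02 (B01 (P 12 (L 38 10)) (A03 (B12 (A01 (P 10 (L 31 8)) (A13 (P 13 (L 40 7)) (P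
  10 (L 31 8)))) (A01 (P 10 (L 31 8)) (A13 (B02 (P 13 (L 40 7)) (P 10 (L 31 8))) (P 10 (L 31 8)))))
  (B12 (A13 (A01 (P 10 (L 31 8)) (P 13 (L 40 7))) (P 10 (L 31 8))) (A13 (A01 (P 10 (L 31 8)) (B02
  (P 13 (L 40 7)) (P 10 (L 31 8)))) (P 10 (L 31 8)))))) (P 10 (L 31 8))) (B02 (B01 (A23 (A12 (A13
  (B02 (P 13 (L 40 7)) (B12 (P 13 (L 40 7)) (A01 (P 10 (L 31 8)) (P 13 (L 40 7))))) (B02 (P 13 (L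
  40 7)) (P 10 (L 31 8)))) (A02 (B02 (P 13 (L 40 7)) (P 10 (L 31 8))) (B02 (P 13 (L 40 7)) (P 10 (L
  31 8))))) (P 12 (L 38 10))) (A23 (B12 (P 13 (L 40 7)) (A12 (A13 (B02 (P 13 (L 40 7)) (P 10 (L 31
  8))) (P 10 (L 31 8))) (P 10 (L 31 8)))) (B12 (A13 (P 13 (L 40 7)) (P 10 (L 31 8))) (A13 (A12 (B02
  (P 13 (L 40 7)) (P 10 (L 31 8))) (P 10 (L 31 8))) (P 10 (L 31 8)))))) (P 10 (L 31 8))))) (A13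
  (B02 (P 13 (B01 (M 5 (L 40 7)) (A12 (B12 (A01 (A02 (M 5 (L 40 7)) (B01 (M 5 (L 40 7)) (A23 (P 15
  (L 45 1)) (M 5 (L 40 7))))) (A13 (P 15 (L 45 1)) (B01 (M 5 (L 40 7)) (A23 (P 15 (L 45 1)) (M 5 (L
  40 7)))))) (M 5 (L 40 7))) (B12 (A02 (A01 (M 5 (L 40 7)) (B01 (M 5 (L 40 7)) (A13 (P 15 (L 45 1))
  (M 5 (L 40 7))))) (A23 (P 15 (L 45 1)) (B01 (M 5 (L 40 7)) (A13 (P 15 (L 45 1)) (M 5 (L 40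
  7)))))) (M 5 (L 40 7)))))) (B12 (P 13 (A12 (B01 (M 5 (L 40 7)) (A01 (A02 (M 5 (L 40 7)) (B12 (A23
  (P 15 (L 45 1)) (M 5 (L 40 7))) (M 5 (L 40 7)))) (A13 (P 15 (L 45 1)) (B12 (A23 (P 15 (L 45 1))
  (M 5 (L 40 7))) (M 5 (L 40 7)))))) (P 10 (L 31 8)))) (M 5 (A12 (A01 (A02 (B02 (P 13 (L 40 7)) (P
  10 (L 31 8))) (B02 (P 13 (L 40 7)) (P 10 (L 31 8)))) (A13 (P 13 (L 40 7)) (B02 (P 13 (L 40 7)) (P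
  10 (L 31 8))))) (P 10 (L 31 8)))))) (M 5 (B02 (B01 (A23 (A02 (A03 (P 13 (L 40 7)) (B02 (P 13 (L
  40 7)) (B12 (P 13 (L 40 7)) (A13 (P 13 (L 40 7)) (P 10 (L 31 8)))))) (A12 (B02 (P 13 (L 40 7))
  (B12 (P 13 (L 40 7)) (A13 (P 13 (L 40 7)) (P 10 (L 31 8))))) (B02 (P 13 (L 40 7)) (P 10 (L 31
  8))))) (P 12 (L 38 10))) (A23 (B12 (P 13 (L 40 7)) (A02 (A03 (P 13 (L 40 7)) (B02 (P 13 (L 40 7))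
  (A13 (P 13 (L 40 7)) (P 10 (L 31 8))))) (A12 (B02 (P 13 (L 40 7)) (A13 (P 13 (L 40 7)) (P 10 (L
  31 8)))) (P 10 (L 31 8))))) (B12 (A03 (P 13 (L 40 7)) (A13 (P 13 (L 40 7)) (P 10 (L 31 8)))) (A03
  (A02 (B02 (P 13 (L 40 7)) (A01 (P 10 (L 31 8)) (B12 (P 13 (L 40 7)) (P 12 (L 38 10))))) (B02 (P
  13 (L 40 7)) (A12 (B12 (P 13 (L 40 7)) (P 12 (L 38 10))) (P 10 (L 31 8))))) (A13 (B02 (P 13 (L 40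
  7)) (A12 (B12 (P 13 (L 40 7)) (P 12 (L 38 10))) (P 10 (L 31 8)))) (P 10 (L 31 8))))))) (P 10 (L
  31 8)))))) (A13 (A01 (M 5 (B02 (B01 (A02 (P 12 (L 38 10)) (A23 (A12 (B02 (P 13 (L 40 7)) (B12 (P
  13 (L 40 7)) (A01 (P 10 (L 31 8)) (P 13 (L 40 7))))) (B02 (P 13 (L 40 7)) (P 10 (L 31 8)))) (A03
  (B02 (P 13 (L 40 7)) (B12 (P 13 (L 40 7)) (A01 (P 10 (L 31 8)) (P 13 (L 40 7))))) (P 13 (L 40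
  7))))) (A02 (B12 (A03 (A01 (B01 (A02 (P 12 (L 38 10)) (P 13 (L 40 7))) (P 10 (L 31 8))) (P 13 (L
  40 7))) (P 13 (L 40 7))) (A03 (A01 (B02 (A02 (P 12 (L 38 10)) (A23 (P 10 (L 31 8)) (P 12 (L 38
  10)))) (P 10 (L 31 8))) (B02 (P 13 (L 40 7)) (A12 (B12 (P 13 (L 40 7)) (P 12 (L 38 10))) (P 10 (L
  31 8))))) (A23 (B02 (P 13 (L 40 7)) (A12 (P 13 (L 40 7)) (P 10 (L 31 8)))) (P 13 (L 40 7)))))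
  (B12 (P 13 (L 40 7)) (A23 (A12 (B02 (P 13 (L 40 7)) (A01 (P 10 (L 31 8)) (P 13 (L 40 7)))) (P 10
  (L 31 8))) (A03 (B02 (P 13 (L 40 7)) (A01 (P 10 (L 31 8)) (P 13 (L 40 7)))) (P 13 (L 40 7)))))))
  (B12 (A02 (B01 (A03 (P 10 (L 31 8)) (A23 (P 10 (L 31 8)) (P 13 (L 40 7)))) (A03 (P 10 (L 31 8))
  (A23 (P 10 (L 31 8)) (P 13 (L 40 7))))) (B01 (A23 (P 10 (L 31 8)) (A03 (P 10 (L 31 8)) (P 13 (L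
  40 7)))) (A23 (P 10 (L 31 8)) (A03 (P 10 (L 31 8)) (P 13 (L 40 7)))))) (P 10 (L 31 8))))) (B02 (P
  13 (B01 (M 5 (L 40 7)) (A12 (B12 (A13 (A01 (B01 (M 5 (L 40 7)) (A02 (M 5 (L 40 7)) (P 15 (L 45
  1)))) (P 15 (L 45 1))) (A23 (B01 (M 5 (L 40 7)) (A02 (M 5 (L 40 7)) (P 15 (L 45 1)))) (M 5 (L 40
  7)))) (M 5 (L 40 7))) (B12 (A23 (A02 (B01 (M 5 (L 40 7)) (A01 (M 5 (L 40 7)) (P 15 (L 45 1)))) (P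
  15 (L 45 1))) (A13 (B01 (M 5 (L 40 7)) (A01 (M 5 (L 40 7)) (P 15 (L 45 1)))) (M 5 (L 40 7)))) (M
  5 (L 40 7)))))) (B12 (P 13 (A12 (B01 (M 5 (L 40 7)) (A13 (A01 (B12 (A02 (M 5 (L 40 7)) (P 15 (L
  45 1))) (M 5 (L 40 7))) (P 15 (L 45 1))) (A23 (B12 (A02 (M 5 (L 40 7)) (P 15 (L 45 1))) (M 5 (L
  40 7))) (M 5 (L 40 7))))) (B01 (M 5 (L 40 7)) (A23 (P 10 (L 31 8)) (A13 (P 10 (L 31 8)) (M 5 (L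
  40 7))))))) (M 5 (A12 (A13 (A01 (B02 (P 13 (L 40 7)) (P 10 (L 31 8))) (P 13 (L 40 7))) (A23 (B02
  (P 13 (L 40 7)) (P 10 (L 31 8))) (B02 (P 13 (L 40 7)) (P 10 (L 31 8))))) (P 10 (L 31 8))))))) (M
  5 (A23 (B02 (B01 (A02 (P 12 (L 38 10)) (A12 (A01 (B02 (P 13 (L 40 7)) (P 10 (L 31 8))) (B02 (P 13
  (L 40 7)) (B12 (P 13 (L 40 7)) (A13 (P 13 (L 40 7)) (P 10 (L 31 8)))))) (A23 (B02 (P 13 (L 40 7))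
  (P 10 (L 31 8))) (B02 (P 13 (L 40 7)) (P 10 (L 31 8)))))) (A02 (B12 (A01 (A03 (B01 (A02 (P 12 (L
  38 10)) (P 13 (L 40 7))) (P 10 (L 31 8))) (P 13 (L 40 7))) (P 13 (L 40 7))) (A01 (A03 (B02 (A02
  (P 12 (L 38 10)) (A12 (P 12 (L 38 10)) (P 10 (L 31 8)))) (P 10 (L 31 8))) (B02 (P 13 (L 40 7)) (P
  10 (L 31 8)))) (A12 (B02 (P 13 (L 40 7)) (A13 (P 13 (L 40 7)) (P 10 (L 31 8)))) (B02 (P 13 (L 40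
  7)) (P 10 (L 31 8)))))) (B12 (P 13 (L 40 7)) (A12 (A01 (P 10 (L 31 8)) (B02 (P 13 (L 40 7)) (A13
  (P 13 (L 40 7)) (P 10 (L 31 8))))) (P 10 (L 31 8)))))) (B12 (A02 (B01 (A01 (P 10 (L 31 8)) (A12
  (B02 (A13 (P 13 (L 40 7)) (P 10 (L 31 8))) (P 13 (L 40 7))) (P 10 (L 31 8)))) (A01 (P 10 (L 31
  8)) (A12 (P 13 (L 40 7)) (P 10 (L 31 8))))) (B01 (A12 (A01 (P 10 (L 31 8)) (B02 (A13 (P 13 (L 40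
  7)) (P 10 (L 31 8))) (P 13 (L 40 7)))) (P 10 (L 31 8))) (A12 (A01 (P 10 (L 31 8)) (P 13 (L 40
  7))) (P 10 (L 31 8))))) (P 10 (L 31 8)))) (B02 (B01 (P 12 (L 38 10)) (A03 (B12 (A01 (A02 (B01 (P
  12 (L 38 10)) (P 10 (L 31 8))) (P 13 (L 40 7))) (P 13 (L 40 7))) (A01 (A02 (P 12 (L 38 10)) (B02
  (A23 (P 13 (L 40 7)) (P 12 (L 38 10))) (P 10 (L 31 8)))) (A13 (B02 (P 13 (L 40 7)) (A12 (P 13 (L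
  40 7)) (P 10 (L 31 8)))) (B02 (A23 (P 13 (L 40 7)) (P 12 (L 38 10))) (P 10 (L 31 8)))))) (B12 (P
  13 (L 40 7)) (A13 (A01 (B02 (A02 (P 12 (L 38 10)) (P 13 (L 40 7))) (P 10 (L 31 8))) (B02 (P 13 (L
  40 7)) (A12 (P 13 (L 40 7)) (P 10 (L 31 8))))) (A23 (B02 (A02 (P 12 (L 38 10)) (P 13 (L 40 7)))
  (P 10 (L 31 8))) (P 12 (L 38 10))))))) (B12 (A03 (B01 (A01 (P 10 (L 31 8)) (A13 (B02 (A12 (P 13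
  (L 40 7)) (P 10 (L 31 8))) (P 13 (L 40 7))) (P 10 (L 31 8)))) (A01 (P 10 (L 31 8)) (A13 (P 13 (L
  40 7)) (P 10 (L 31 8))))) (B01 (A13 (A01 (P 10 (L 31 8)) (B02 (A12 (P 13 (L 40 7)) (P 10 (L 31
  8))) (P 13 (L 40 7)))) (P 10 (L 31 8))) (A13 (A01 (P 10 (L 31 8)) (P 13 (L 40 7))) (P 10 (L 31
  8))))) (P 10 (L 31 8)))))))))) (B12 (A23 (M 16 (P 13 (B01 (A12 (M 1 (A13 (B02 (A01 (B01 (A02 (M 5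
  (L 40 7)) (A12 (B02 (A13 (B01 (M 5 (L 40 7)) (P 15 (L 45 1))) (B01 (M 5 (L 40 7)) (P 15 (L 45
  1)))) (P 15 (L 45 1))) (B02 (A23 (out 5) (B01 (M 5 (L 40 7)) (P 15 (L 45 1)))) (P 15 (L 45 1)))))
  (P 15 (L 45 1))) (S 2 (L 8 4) (L 25 4))) (P 15 (L 45 1))) (B02 (A03 (B01 (A02 (M 5 (L 40 7)) (A23
  (B02 (A12 (B01 (M 5 (L 40 7)) (P 15 (L 45 1))) (out 5)) (P 15 (L 45 1))) (M 5 (L 40 7)))) (P 15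
  (L 45 1))) (B01 (A23 (A02 (M 5 (L 40 7)) (B02 (P 19 (L 58 11)) (P 15 (L 45 1)))) (M 5 (L 40 7)))
  (P 15 (L 45 1)))) (S 2 (L 8 4) (L 25 4))))) (A02 (M 1 (B02 (A03 (B01 (A01 (A02 (M 5 (L 40 7))
  (B02 (A23 (out 5) (M 5 (L 40 7))) (P 15 (L 45 1)))) (A13 (out 5) (B02 (A23 (out 5) (M 5 (L 40
  7))) (P 15 (L 45 1))))) (P 15 (L 45 1))) (B01 (A13 (A01 (B02 (A02 (M 5 (L 40 7)) (out 5)) (P 15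
  (L 45 1))) (out 5)) (A23 (B02 (A02 (M 5 (L 40 7)) (out 5)) (P 15 (L 45 1))) (M 5 (L 40 7)))) (P
  15 (L 45 1)))) (S 2 (L 8 4) (L 25 4)))) (out 5))) (P 15 (A12 (M 1 (A13 (L 45 1) (K
  [(45,1,5),(45,8,3)] []))) (A02 (M 1 (K [(45,1,5),(45,8,3)] [])) (out 5))))))) (P 6 (M 1 (B01 (A13
  (M 16 (P 13 (A12 (B02 (A01 (B01 (M 5 (L 40 7)) (A03 (P 15 (L 45 1)) (A13 (P 15 (L 45 1)) (B12 (P
  19 (L 58 11)) (A23 (A02 (M 5 (L 40 7)) (P 19 (L 58 5))) (M 5 (L 40 7))))))) (S 2 (L 8 4) (L 25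
  4))) (A01 (A03 (P 15 (L 45 1)) (A13 (P 15 (L 45 1)) (B12 (B01 (A23 (P 15 (L 45 1)) (M 5 (L 40
  7))) (A23 (P 15 (L 45 1)) (A03 (P 15 (L 45 1)) (S 2 (L 8 4) (L 25 4))))) (B02 (A23 (P 15 (L 45
  1)) (M 5 (L 40 7))) (P 15 (L 45 1)))))) (A13 (P 15 (L 45 1)) (A03 (P 15 (L 45 1)) (B12 (S 2 (L 8
  4) (L 25 4)) (B02 (P 19 (L 58 5)) (P 15 (L 45 1)))))))) (B02 (A02 (B01 (M 5 (L 40 7)) (A03 (P 15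
  (L 45 1)) (A23 (P 15 (L 45 1)) (B12 (P 19 (L 58 11)) (A13 (A01 (M 5 (L 40 7)) (P 19 (L 58 5))) (M
  5 (L 40 7))))))) (B01 (M 5 (L 40 7)) (A23 (A12 (B12 (A01 (B01 (M 5 (L 40 7)) (P 15 (L 45 1))) (P
  19 (L 58 11))) (A01 (M 5 (L 40 7)) (A13 (P 15 (L 45 1)) (M 5 (L 40 7))))) (B12 (A02 (B01 (M 5 (L
  40 7)) (P 15 (L 45 1))) (P 19 (L 58 11))) (M 5 (L 40 7)))) (A03 (B12 (A01 (B01 (M 5 (L 40 7)) (P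
  15 (L 45 1))) (P 19 (L 58 11))) (A01 (M 5 (L 40 7)) (A12 (P 15 (L 45 1)) (M 5 (L 40 7))))) (S 2
  (L 8 4) (L 25 4)))))) (A02 (A03 (P 15 (L 45 1)) (A23 (P 15 (L 45 1)) (B12 (B01 (A13 (P 15 (L 45
  1)) (M 5 (L 40 7))) (A13 (P 15 (L 45 1)) (A03 (P 15 (L 45 1)) (S 2 (L 8 4) (L 25 4))))) (B02 (A13
  (P 15 (L 45 1)) (M 5 (L 40 7))) (P 15 (L 45 1)))))) (A23 (S 2 (L 8 4) (L 25 4)) (A03 (P 15 (L 45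
  1)) (B12 (S 2 (L 8 4) (L 25 4)) (B02 (A13 (P 15 (L 45 1)) (M 5 (L 40 7))) (P 15 (L 45
  1))))))))))) (A03 (M 16 (P 13 (B02 (A02 (B01 (M 5 (L 40 7)) (A01 (A03 (P 15 (L 45 1)) (B12 (A23
  (P 15 (L 45 1)) (M 5 (L 40 7))) (M 5 (L 40 7)))) (A12 (M 5 (L 40 7)) (B12 (A23 (P 15 (L 45 1)) (M
  5 (L 40 7))) (M 5 (L 40 7)))))) (B01 (M 5 (L 40 7)) (A12 (A01 (B12 (A03 (B01 (M 5 (L 40 7)) (P 15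
  (L 45 1))) (M 5 (L 40 7))) (M 5 (L 40 7))) (M 5 (L 40 7))) (A23 (B12 (A02 (B01 (M 5 (L 40 7)) (P
  15 (L 45 1))) (P 19 (L 58 11))) (M 5 (L 40 7))) (B12 (A03 (B01 (M 5 (L 40 7)) (P 15 (L 45 1))) (M
  5 (L 40 7))) (M 5 (L 40 7))))))) (A02 (A01 (A03 (P 15 (L 45 1)) (B12 (B01 (M 5 (L 40 7)) (P 15 (L
  45 1))) (M 5 (L 40 7)))) (A12 (M 5 (L 40 7)) (B12 (B01 (M 5 (L 40 7)) (P 15 (L 45 1))) (M 5 (L 40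
  7))))) (A12 (A01 (B12 (B01 (M 5 (L 40 7)) (P 15 (L 45 1))) (M 5 (L 40 7))) (M 5 (L 40 7))) (A23
  (S 2 (L 8 4) (L 25 4)) (B12 (B01 (M 5 (L 40 7)) (P 15 (L 45 1))) (M 5 (L 40 7))))))))) (B02 (A23
  (P 13 (B01 (M 5 (L 40 7)) (A12 (M 5 (L 40 7)) (A02 (M 5 (L 40 7)) (B12 (P 19 (L 58 11)) (M 5 (L
  40 7))))))) (M 5 (B01 (P 12 (L 38 10)) (P 13 (L 40 7))))) (M 16 (P 13 (A23 (A12 (M 5 (L 40 7))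
  (A02 (M 5 (L 40 7)) (B12 (B01 (A23 (P 15 (L 45 1)) (M 5 (L 40 7))) (P 15 (L 45 1))) (B02 (A23 (P
  15 (L 45 1)) (M 5 (L 40 7))) (S 2 (L 8 4) (L 25 4)))))) (M 5 (L 40 7)))))))) (M 16 (P 13 (A13 (P
  15 (A12 (L 45 1) (K [(45,1,16),(45,8,8)] []))) (A03 (P 15 (K [(45,1,16),(45,8,8)] [])) (B12 (A23
  (S 10 (L 32 2) (L 2 2)) (B01 (A13 (A12 (B02 (P 19 (L 58 11)) (P 15 (L 45 1))) (B02 (P 19 (L 58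
  11)) (P 15 (L 45 1)))) (S 10 (L 32 2) (L 2 2))) (A13 (P 15 (L 45 1)) (A03 (P 15 (L 45 1)) (P 19
  (L 58 11)))))) (A23 (P 15 (K [(45,1,16),(45,8,8)] [])) (A13 (A12 (B02 (B01 (M 5 (L 40 7)) (A01
  (B12 (P 15 (L 45 1)) (M 5 (L 40 7))) (S 2 (L 8 4) (L 25 4)))) (B12 (A01 (B01 (M 5 (L 40 7)) (P 15
  (L 45 1))) (P 19 (L 58 5))) (M 5 (L 40 7)))) (B02 (B01 (M 5 (L 40 7)) (A02 (B12 (P 15 (L 45 1))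
  (M 5 (L 40 7))) (B12 (P 15 (L 45 1)) (M 5 (L 40 7))))) (B12 (A02 (B01 (M 5 (L 40 7)) (P 15 (L 45
  1))) (B01 (M 5 (L 40 7)) (P 15 (L 45 1)))) (M 5 (L 40 7))))) (S 12 (L 38 10) (L 18
  10))))))))))))) (A23 (A12 (M 1 (A13 (B02 (P 13 (B01 (A01 (A02 (M 5 (L 40 7)) (A12 (M 5 (L 40 7))
  (B02 (B01 (A23 (out 5) (M 5 (L 40 7))) (A23 (out 5) (M 5 (L 40 7)))) (B12 (A23 (out 5) (M 5 (L 40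
  7))) (M 5 (L 40 7)))))) (A12 (A13 (B02 (P 19 (L 58 5)) (B12 (A01 (B01 (M 5 (L 40 7)) (P 15 (L 45
  1))) (P 19 (L 58 5))) (M 5 (L 40 7)))) (B02 (P 19 (L 58 5)) (B12 (A03 (B01 (M 5 (L 40 7)) (P 15
  (L 45 1))) (B01 (M 5 (L 40 7)) (P 15 (L 45 1)))) (M 5 (L 40 7))))) (A02 (B02 (P 19 (L 58 5)) (B12
  (A03 (B01 (M 5 (L 40 7)) (P 15 (L 45 1))) (B01 (M 5 (L 40 7)) (P 15 (L 45 1)))) (M 5 (L 40 7))))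
  (B02 (P 19 (L 58 5)) (B12 (A23 (out 5) (B01 (M 5 (L 40 7)) (P 15 (L 45 1)))) (M 5 (L 40 7)))))))
  (P 15 (L 45 1)))) (P 15 (L 45 1))) (B02 (M 16 (P 13 (B01 (A03 (A02 (M 5 (L 40 7)) (A23 (B02 (B01
  (A12 (M 5 (L 40 7)) (out 5)) (A12 (M 5 (L 40 7)) (out 5))) (B12 (A12 (M 5 (L 40 7)) (out 5)) (M 5
  (L 40 7)))) (M 5 (L 40 7)))) (A23 (A02 (M 5 (L 40 7)) (B02 (B01 (A12 (M 5 (L 40 7)) (out 5)) (A12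
  (M 5 (L 40 7)) (out 5))) (B12 (A12 (M 5 (L 40 7)) (out 5)) (M 5 (L 40 7))))) (M 5 (L 40 7)))) (S
  2 (L 8 4) (L 25 4))))) (B12 (M 16 (S 2 (L 8 4) (L 25 4))) (P 10 (L 31 8)))))) (A02 (B02 (M 16 (P
  13 (M 1 (B01 (A03 (A01 (A02 (M 5 (L 40 7)) (B02 (B01 (M 5 (L 40 7)) (P 15 (L 45 1))) (P 15 (L 45
  1)))) (A13 (out 5) (B02 (B01 (M 5 (L 40 7)) (P 15 (L 45 1))) (P 15 (L 45 1))))) (A13 (A01 (B02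
  (B01 (M 5 (L 40 7)) (P 15 (L 45 1))) (P 15 (L 45 1))) (out 5)) (A23 (B02 (B01 (M 5 (L 40 7)) (P
  15 (L 45 1))) (P 15 (L 45 1))) (M 5 (L 40 7))))) (S 2 (L 8 4) (L 25 4)))))) (P 10 (B12 (S 1 (L 4
  8) (L 31 8)) (A03 (A01 (S 1 (L 4 8) (L 31 8)) (A13 (out 5) (S 1 (L 4 8) (L 31 8)))) (A13 (A01 (S
  1 (L 4 8) (L 31 8)) (out 5)) (S 1 (L 4 8) (L 31 8))))))) (out 5))) (M 1 (A13 (A12 (B02 (P 13 (B01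
  (M 5 (L 40 7)) (A01 (B12 (A03 (P 15 (L 45 1)) (A13 (P 15 (L 45 1)) (B01 (M 5 (L 40 7)) (A23 (P 15
  (L 45 1)) (M 5 (L 40 7)))))) (M 5 (L 40 7))) (B12 (A13 (P 15 (L 45 1)) (A03 (P 15 (L 45 1)) (B01
  (M 5 (L 40 7)) (A23 (P 15 (L 45 1)) (M 5 (L 40 7)))))) (M 5 (L 40 7)))))) (B12 (P 13 (A01 (B01 (M
  5 (L 40 7)) (A03 (P 15 (L 45 1)) (A13 (P 15 (L 45 1)) (B12 (A23 (P 15 (L 45 1)) (M 5 (L 40 7)))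
  (M 5 (L 40 7)))))) (B01 (M 5 (L 40 7)) (A13 (P 15 (L 45 1)) (A03 (P 15 (L 45 1)) (B12 (A23 (P 15
  (L 45 1)) (M 5 (L 40 7))) (M 5 (L 40 7)))))))) (M 5 (A01 (P 10 (L 31 8)) (P 13 (L 40 7)))))) (B02
  (M 16 (P 13 (B01 (M 5 (L 40 7)) (A02 (B12 (A03 (P 15 (L 45 1)) (A23 (P 15 (L 45 1)) (B01 (M 5 (L
  40 7)) (A13 (P 15 (L 45 1)) (M 5 (L 40 7)))))) (M 5 (L 40 7))) (B12 (A23 (S 2 (L 8 4) (L 25 4))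
  (A03 (P 15 (L 45 1)) (B01 (M 5 (L 40 7)) (A13 (P 15 (L 45 1)) (M 5 (L 40 7)))))) (M 5 (L 40
  7))))))) (B12 (M 16 (P 13 (A02 (B01 (M 5 (L 40 7)) (A03 (P 15 (L 45 1)) (A23 (P 15 (L 45 1)) (B12
  (A13 (P 15 (L 45 1)) (M 5 (L 40 7))) (M 5 (L 40 7)))))) (B01 (M 5 (L 40 7)) (A23 (S 2 (L 8 4) (L
  25 4)) (A03 (P 15 (L 45 1)) (B12 (A13 (P 15 (L 45 1)) (M 5 (L 40 7))) (M 5 (L 40 7))))))))) (P 10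
  (L 31 8))))) (A03 (B02 (B01 (M 5 (A02 (A01 (A03 (P 13 (L 40 7)) (B02 (P 13 (L 40 7)) (P 10 (L 31
  8)))) (A12 (B02 (P 13 (L 40 7)) (B12 (P 13 (L 40 7)) (A13 (P 13 (L 40 7)) (P 10 (L 31 8))))) (B02
  (P 13 (L 40 7)) (B12 (P 13 (L 40 7)) (P 10 (L 31 8)))))) (A12 (A01 (B02 (P 13 (L 40 7)) (B12 (P
  13 (L 40 7)) (P 10 (L 31 8)))) (B02 (P 13 (L 40 7)) (B12 (P 13 (L 40 7)) (A13 (P 13 (L 40 7)) (P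
  10 (L 31 8)))))) (A23 (P 13 (L 40 7)) (B02 (P 13 (L 40 7)) (B12 (P 13 (L 40 7)) (P 10 (L 31
  8)))))))) (A02 (M 5 (B12 (P 13 (L 40 7)) (A01 (P 10 (L 31 8)) (A12 (B02 (P 13 (L 40 7)) (A13 (P
  13 (L 40 7)) (P 10 (L 31 8)))) (B02 (P 13 (L 40 7)) (P 10 (L 31 8))))))) (B12 (M 16 (P 13 (A12 (M
  5 (L 40 7)) (A23 (S 2 (L 8 4) (L 25 4)) (M 5 (L 40 7)))))) (M 5 (A12 (A01 (B02 (P 13 (L 40 7)) (P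
  10 (L 31 8))) (B02 (P 13 (L 40 7)) (A13 (P 13 (L 40 7)) (P 10 (L 31 8))))) (A23 (P 13 (L 40 7))
  (B02 (P 13 (L 40 7)) (P 10 (L 31 8))))))))) (B12 (A02 (M 5 (B01 (A01 (P 10 (L 31 8)) (A12 (B02
  (A13 (P 13 (L 40 7)) (P 10 (L 31 8))) (P 13 (L 40 7))) (P 10 (L 31 8)))) (P 13 (L 40 7)))) (B01
  (M 5 (A12 (A01 (P 10 (L 31 8)) (B02 (A13 (P 13 (L 40 7)) (P 10 (L 31 8))) (P 13 (L 40 7)))) (P 10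
  (L 31 8)))) (P 13 (A12 (M 5 (L 40 7)) (P 10 (L 31 8)))))) (P 10 (L 31 8)))) (B02 (B01 (M 5 (A23
  (A12 (A13 (B02 (P 13 (L 40 7)) (B12 (P 13 (L 40 7)) (A01 (P 10 (L 31 8)) (P 13 (L 40 7))))) (B02
  (P 13 (L 40 7)) (B12 (P 13 (L 40 7)) (P 10 (L 31 8))))) (A02 (B02 (P 13 (L 40 7)) (B12 (P 13 (L
  40 7)) (P 10 (L 31 8)))) (P 13 (L 40 7)))) (P 12 (L 38 10)))) (A23 (B12 (M 16 (P 13 (A12 (M 5 (L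
  40 7)) (A02 (M 5 (L 40 7)) (B01 (M 5 (L 40 7)) (S 2 (L 8 4) (L 25 4))))))) (M 5 (A12 (A13 (B02 (P
  13 (L 40 7)) (A01 (P 10 (L 31 8)) (P 13 (L 40 7)))) (B02 (P 13 (L 40 7)) (P 10 (L 31 8)))) (A02
  (B02 (P 13 (L 40 7)) (P 10 (L 31 8))) (P 13 (L 40 7)))))) (M 5 (B12 (P 13 (L 40 7)) (A13 (A12
  (B02 (P 13 (L 40 7)) (A01 (P 10 (L 31 8)) (P 13 (L 40 7)))) (B02 (P 13 (L 40 7)) (P 10 (L 31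
  8)))) (A03 (B02 (P 13 (L 40 7)) (P 10 (L 31 8))) (B02 (P 13 (L 40 7)) (P 10 (L 31 8))))))))) (B12
  (A23 (B01 (M 5 (A12 (A13 (B02 (A01 (P 10 (L 31 8)) (P 13 (L 40 7))) (P 13 (L 40 7))) (P 10 (L 31
  8))) (P 10 (L 31 8)))) (P 13 (A12 (M 5 (L 40 7)) (P 10 (L 31 8))))) (M 5 (B01 (A13 (A12 (B02 (A01
  (P 10 (L 31 8)) (P 13 (L 40 7))) (P 13 (L 40 7))) (P 10 (L 31 8))) (P 10 (L 31 8))) (P 13 (L 40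
  7))))) (P 10 (L 31 8))))))))))))) (A13 (M 16 (P 13 (B12 (A12 (M 1 (B01 (P 8 (S 2 (L 8 4) (L 25
  4))) (P 15 (L 45 1)))) (B01 (P 8 (A02 (M 1 (A01 (B02 (S 2 (L 8 4) (L 25 4)) (P 15 (L 45 1))) (out
  5))) (out 5))) (P 15 (A02 (M 1 (L 45 1)) (out 5))))) (P 8 (M 7 (A12 (M 1 (A01 (A02 (B02 (S 2 (L 8
  4) (L 25 4)) (B12 (P 19 (L 58 5)) (A03 (A01 (A02 (B02 (P 19 (L 58 5)) (P 15 (L 45 1))) (B02 (P 19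
  (L 58 5)) (P 15 (L 45 1)))) (out 6)) (out 6)))) (out 5)) (out 5))) (A02 (M 1 (A01 (B02 (B01 (A03
  (A02 (P 19 (L 58 5)) (A23 (out 5) (P 19 (L 58 5)))) (A23 (A02 (S 2 (L 8 4) (L 25 4)) (out 5))
  (out 6))) (A03 (B12 (P 15 (L 45 1)) (A02 (P 19 (L 58 5)) (A23 (out 5) (P 19 (L 58 5))))) (B12 (P
  15 (L 45 1)) (A23 (A02 (P 19 (L 58 5)) (out 5)) (out 6))))) (B12 (A03 (B01 (A02 (A01 (B02 (A03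
  (B01 (M 5 (L 40 7)) (P 15 (L 45 1))) (B01 (M 5 (L 40 7)) (P 15 (L 45 1)))) (P 15 (L 45 1))) (B02
  (A13 (out 5) (B01 (M 5 (L 40 7)) (P 15 (L 45 1)))) (P 15 (L 45 1)))) (A23 (out 5) (B02 (A13 (out
  5) (B01 (M 5 (L 40 7)) (P 15 (L 45 1)))) (P 15 (L 45 1))))) (P 15 (L 45 1))) (B01 (A23 (A02 (B02
  (A01 (B01 (M 5 (L 40 7)) (P 15 (L 45 1))) (out 5)) (P 15 (L 45 1))) (out 5)) (out 6)) (P 15 (L 45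
  1)))) (A03 (A02 (A01 (B02 (B01 (M 5 (L 40 7)) (P 15 (L 45 1))) (P 15 (L 45 1))) (B02 (B01 (A13
  (out 5) (M 5 (L 40 7))) (P 15 (L 45 1))) (P 15 (L 45 1)))) (A23 (out 5) (B02 (B01 (A13 (out 5) (M
  5 (L 40 7))) (P 15 (L 45 1))) (P 15 (L 45 1))))) (A23 (A02 (B02 (B01 (A01 (M 5 (L 40 7)) (out 5))
  (P 15 (L 45 1))) (P 15 (L 45 1))) (out 5)) (out 6))))) (out 5))) (out 5)))))))) (M 17 (P 8 (M 7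
  (P 0 (B12 (A23 (M 16 (P 13 (B01 (A02 (M 1 (A03 (B02 (S 2 (L 8 4) (L 25 4)) (P 15 (L 45 1))) (B02
  (A13 (S 2 (L 8 4) (L 25 4)) (B01 (A23 (S 2 (L 8 4) (L 25 4)) (M 5 (L 40 7))) (P 15 (L 45 1)))) (S
  2 (L 8 4) (L 25 4))))) (out 5)) (P 15 (M 12 (P 5 (A02 (P 6 (M 1 (S 10 (K [(32,8,3),(31,8,5)] [])
  (K [(18,10,8),(17,7,4),(2,2,8),(2,8,1),(45,8,3)] [])))) (out 5)))))))) (P 6 (M 1 (B01 (A03 (M 16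
  (P 13 (A02 (S 2 (L 8 4) (L 25 4)) (B02 (A12 (S 2 (L 8 4) (L 25 4)) (B01 (M 5 (L 40 7)) (A23 (A02
  (S 2 (L 8 4) (L 25 4)) (B12 (S 2 (L 8 4) (L 25 4)) (A12 (S 2 (L 8 4) (L 25 4)) (M 5 (L 40 7)))))
  (S 2 (L 8 4) (L 25 4))))) (A12 (S 2 (L 8 4) (L 25 4)) (A23 (S 2 (L 8 4) (L 25 4)) (A13 (P 15 (L
  45 1)) (B12 (S 2 (L 8 4) (L 25 4)) (B02 (P 19 (L 58 5)) (P 15 (L 45 1))))))))))) (A13 (M 16 (P 13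
  (B02 (A12 (S 2 (L 8 4) (L 25 4)) (B01 (M 5 (L 40 7)) (A02 (S 2 (L 8 4) (L 25 4)) (A23 (B12 (S 2
  (L 8 4) (L 25 4)) (A12 (S 2 (L 8 4) (L 25 4)) (M 5 (L 40 7)))) (S 2 (L 8 4) (L 25 4)))))) (A12 (S
  2 (L 8 4) (L 25 4)) (A02 (A01 (B12 (S 2 (L 8 4) (L 25 4)) (M 5 (L 40 7))) (B12 (S 2 (L 8 4) (L 25
  4)) (B02 (S 2 (L 8 4) (L 25 4)) (P 15 (L 45 1))))) (A23 (S 2 (L 8 4) (L 25 4)) (B12 (S 2 (L 8 4)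
  (L 25 4)) (B02 (S 2 (L 8 4) (L 25 4)) (P 15 (L 45 1)))))))))) (B02 (A23 (P 13 (B01 (M 5 (L 40 7))
  (A02 (M 5 (L 40 7)) (A12 (M 5 (L 40 7)) (B12 (P 19 (L 58 11)) (M 5 (L 40 7))))))) (M 5 (B01 (P 12
  (L 38 10)) (P 13 (L 40 7))))) (M 16 (P 13 (A23 (A02 (M 5 (L 40 7)) (A12 (M 5 (L 40 7)) (B12 (B01
  (A23 (P 15 (L 45 1)) (M 5 (L 40 7))) (P 15 (L 45 1))) (B02 (A23 (P 15 (L 45 1)) (M 5 (L 40 7)))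
  (S 2 (L 8 4) (L 25 4)))))) (M 5 (L 40 7)))))))) (M 16 (P 13 (A03 (P 15 (A02 (L 45 1) (K
  [(45,1,16),(45,8,8)] []))) (A13 (B12 (P 19 (A12 (S 12 (L 38 10) (L 18 10)) (L 58 11))) (A12 (S 2
  (L 8 4) (L 25 4)) (A02 (A01 (B02 (S 2 (L 8 4) (L 25 4)) (P 15 (L 45 1))) (B02 (S 2 (L 8 4) (L 25
  4)) (P 15 (L 45 1)))) (A23 (P 15 (K [(45,1,5),(45,8,3)] [])) (B02 (S 12 (L 38 10) (L 18 10)) (P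
  15 (L 45 1))))))) (B12 (P 19 (L 58 11)) (A23 (A02 (A03 (B02 (S 2 (L 8 4) (L 25 4)) (P 15 (L 45
  1))) (B02 (S 12 (L 38 10) (L 18 10)) (P 15 (L 45 1)))) (A12 (B02 (S 12 (L 38 10) (L 18 10)) (P 15
  (L 45 1))) (P 15 (K [(45,1,5),(45,8,3)] [])))) (A03 (A02 (B02 (S 2 (L 8 4) (L 25 4)) (B12 (S 2 (L
  8 4) (L 25 4)) (M 5 (L 40 7)))) (B02 (S 12 (L 38 10) (L 18 10)) (B12 (S 12 (L 38 10) (L 18 10))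
  (M 5 (L 40 7))))) (A13 (B02 (S 12 (L 38 10) (L 18 10)) (B12 (S 12 (L 38 10) (L 18 10)) (M 5 (L 40
  7)))) (S 12 (L 38 10) (L 18 10)))))))))))))) (A23 (M 16 (P 13 (A02 (M 1 (A03 (B02 (B01 (A01 (A02
  (A03 (P 19 (L 58 5)) (B02 (P 19 (L 58 5)) (B12 (P 19 (L 58 5)) (M 5 (L 40 7))))) (A12 (B02 (P 19
  (L 58 5)) (B12 (P 19 (L 58 5)) (M 5 (L 40 7)))) (B02 (P 19 (L 58 5)) (B12 (A23 (out 5) (P 19 (L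
  58 5))) (M 5 (L 40 7)))))) (A12 (A13 (out 6) (B02 (S 2 (L 8 4) (L 25 4)) (B12 (P 19 (L 58 5)) (M
  5 (L 40 7))))) (A02 (B02 (S 2 (L 8 4) (L 25 4)) (B12 (P 19 (L 58 5)) (M 5 (L 40 7)))) (B02 (S 2
  (L 8 4) (L 25 4)) (B12 (A23 (out 5) (P 19 (L 58 5))) (M 5 (L 40 7))))))) (A01 (B12 (P 15 (L 45
  1)) (A02 (A03 (P 19 (L 58 5)) (B02 (P 15 (L 45 1)) (A13 (P 19 (L 58 5)) (P 15 (L 45 1))))) (A12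
  (B02 (P 15 (L 45 1)) (A13 (P 19 (L 58 5)) (P 15 (L 45 1)))) (P 15 (L 45 1))))) (B12 (P 15 (L 45
  1)) (A12 (A13 (out 6) (B02 (P 15 (L 45 1)) (A03 (P 19 (L 58 5)) (P 15 (L 45 1))))) (A02 (B02 (P
  15 (L 45 1)) (A03 (P 19 (L 58 5)) (P 15 (L 45 1)))) (P 15 (L 45 1))))))) (B12 (A01 (B01 (A02 (A03
  (B02 (A01 (B01 (M 5 (L 40 7)) (P 15 (L 45 1))) (B01 (M 5 (L 40 7)) (P 15 (L 45 1)))) (P 15 (L 45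
  1))) (B02 (A13 (B01 (M 5 (L 40 7)) (P 15 (L 45 1))) (P 15 (L 45 1))) (P 15 (L 45 1)))) (A12 (B02
  (A13 (B01 (M 5 (L 40 7)) (P 15 (L 45 1))) (P 15 (L 45 1))) (P 15 (L 45 1))) (P 15 (L 45 1)))) (P
  15 (L 45 1))) (B01 (A12 (A13 (out 6) (B02 (A03 (P 19 (L 58 5)) (P 15 (L 45 1))) (P 15 (L 45 1))))
  (A02 (B02 (A03 (B01 (M 5 (L 40 7)) (P 15 (L 45 1))) (P 15 (L 45 1))) (P 15 (L 45 1))) (P 15 (L 45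
  1)))) (P 15 (L 45 1)))) (A01 (A02 (M 5 (L 40 7)) (A12 (M 5 (L 40 7)) (P 15 (L 45 1)))) (A12 (A13
  (out 6) (B02 (B01 (M 5 (L 40 7)) (P 15 (L 45 1))) (P 15 (L 45 1)))) (A02 (B02 (B01 (M 5 (L 40 7))
  (P 15 (L 45 1))) (P 15 (L 45 1))) (P 15 (L 45 1))))))) (B02 (B01 (A13 (A12 (A01 (B02 (S 2 (L 8 4)
  (L 25 4)) (B12 (P 19 (L 58 5)) (M 5 (L 40 7)))) (out 5)) (A23 (B02 (S 2 (L 8 4) (L 25 4)) (B12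
  (A02 (P 19 (L 58 5)) (out 5)) (M 5 (L 40 7)))) (B02 (S 2 (L 8 4) (L 25 4)) (B12 (P 19 (L 58 5))
  (M 5 (L 40 7)))))) (A23 (A12 (B02 (B01 (M 5 (L 40 7)) (A01 (B12 (P 15 (L 45 1)) (M 5 (L 40 7)))
  (out 5))) (B12 (A01 (B01 (M 5 (L 40 7)) (P 15 (L 45 1))) (out 5)) (M 5 (L 40 7)))) (B02 (B01 (A02
  (M 5 (L 40 7)) (out 5)) (A02 (B12 (P 15 (L 45 1)) (M 5 (L 40 7))) (out 5))) (B12 (A02 (B01 (M 5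
  (L 40 7)) (P 15 (L 45 1))) (out 5)) (M 5 (L 40 7))))) (M 5 (L 40 7)))) (A13 (B12 (P 15 (L 45 1))
  (A12 (A01 (P 15 (L 45 1)) (out 5)) (P 15 (L 45 1)))) (S 2 (L 8 4) (L 25 4)))) (B12 (A13 (B01 (A12
  (A01 (P 15 (L 45 1)) (out 5)) (P 15 (L 45 1))) (P 15 (L 45 1))) (S 2 (L 8 4) (L 25 4))) (A13 (A12
  (A01 (P 15 (L 45 1)) (out 5)) (P 15 (L 45 1))) (P 10 (L 31 8))))))) (out 5)))) (M 1 (A03 (M 16 (P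
  13 (A02 (B02 (B01 (A01 (M 5 (L 40 7)) (M 5 (L 40 7))) (A01 (B12 (A03 (P 15 (L 45 1)) (A13 (P 15
  (L 45 1)) (B01 (M 5 (L 40 7)) (A23 (P 15 (L 45 1)) (M 5 (L 40 7)))))) (M 5 (L 40 7))) (B12 (A13
  (P 15 (L 45 1)) (A03 (P 15 (L 45 1)) (B01 (M 5 (L 40 7)) (A23 (P 15 (L 45 1)) (B12 (P 19 (L 58
  5)) (M 5 (L 40 7))))))) (M 5 (L 40 7))))) (B12 (A01 (B01 (M 5 (L 40 7)) (A03 (P 15 (L 45 1)) (A13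
  (P 15 (L 45 1)) (B12 (A23 (P 15 (L 45 1)) (M 5 (L 40 7))) (M 5 (L 40 7)))))) (B01 (M 5 (L 40 7))
  (A13 (P 15 (L 45 1)) (A03 (P 15 (L 45 1)) (B12 (A23 (P 15 (L 45 1)) (B01 (M 5 (L 40 7)) (P 15 (L
  45 1)))) (M 5 (L 40 7))))))) (M 5 (L 40 7)))) (B02 (B01 (M 5 (L 40 7)) (A12 (B12 (A13 (P 15 (L 45
  1)) (A23 (P 15 (L 45 1)) (B01 (M 5 (L 40 7)) (A03 (P 15 (L 45 1)) (B12 (P 19 (L 58 5)) (M 5 (L 40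
  7))))))) (M 5 (L 40 7))) (B12 (A23 (S 2 (L 8 4) (L 25 4)) (A13 (P 15 (L 45 1)) (B01 (M 5 (L 40
  7)) (A03 (P 15 (L 45 1)) (M 5 (L 40 7)))))) (M 5 (L 40 7))))) (B12 (A12 (B01 (M 5 (L 40 7)) (A13
  (P 15 (L 45 1)) (A23 (P 15 (L 45 1)) (B12 (A03 (P 15 (L 45 1)) (B01 (M 5 (L 40 7)) (P 15 (L 45
  1)))) (M 5 (L 40 7)))))) (B01 (M 5 (L 40 7)) (A23 (S 2 (L 8 4) (L 25 4)) (A13 (P 15 (L 45 1))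
  (B12 (A03 (P 15 (L 45 1)) (M 5 (L 40 7))) (M 5 (L 40 7))))))) (M 5 (L 40 7))))))) (A13 (M 16 (P
  13 (B02 (B01 (M 5 (L 40 7)) (A12 (B12 (P 19 (L 58 5)) (M 5 (L 40 7))) (B12 (A02 (A01 (M 5 (L 40
  7)) (B01 (M 5 (L 40 7)) (A13 (P 15 (L 45 1)) (M 5 (L 40 7))))) (A23 (S 2 (L 8 4) (L 25 4)) (B01
  (M 5 (L 40 7)) (A13 (P 15 (L 45 1)) (M 5 (L 40 7)))))) (M 5 (L 40 7))))) (B12 (A12 (B01 (M 5 (L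
  40 7)) (A01 (A02 (B12 (A03 (B01 (M 5 (L 40 7)) (P 15 (L 45 1))) (out 6)) (M 5 (L 40 7))) (out 6))
  (out 6))) (B01 (M 5 (L 40 7)) (A02 (A01 (M 5 (L 40 7)) (B12 (A13 (P 15 (L 45 1)) (M 5 (L 40 7)))
  (M 5 (L 40 7)))) (A23 (S 2 (L 8 4) (L 25 4)) (B12 (A13 (P 15 (L 45 1)) (M 5 (L 40 7))) (M 5 (L 40
  7))))))) (M 5 (L 40 7)))))) (B02 (B01 (M 5 (A23 (P 13 (L 40 7)) (P 12 (L 38 10)))) (A23 (M 16 (P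
  13 (B12 (A02 (M 5 (L 40 7)) (A12 (M 5 (L 40 7)) (B01 (M 5 (L 40 7)) (S 2 (L 8 4) (L 25 4))))) (M
  5 (L 40 7))))) (M 5 (B12 (P 13 (L 40 7)) (A03 (P 13 (L 40 7)) (A13 (P 13 (L 40 7)) (B02 (P 13 (L
  40 7)) (P 10 (L 31 8))))))))) (B12 (A23 (M 16 (P 13 (B01 (M 5 (L 40 7)) (A02 (M 5 (L 40 7)) (A12
  (M 5 (L 40 7)) (S 2 (L 8 4) (L 25 4))))))) (M 5 (B01 (A03 (P 13 (L 40 7)) (A13 (P 13 (L 40 7)) (P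
  10 (L 31 8)))) (P 13 (L 40 7))))) (P 10 (L 31 8))))))))))))))) (P 8 (M 7 (P 0 (A02 (A01 (B12 (A03
  (B01 (M 5 (P 2 (A02 (P 6 (M 1 (A01 (B02 (A03 (B01 (A02 (P 12 (L 38 10)) (A23 (S 12 (L 38 10) (L 7
  10)) (P 12 (L 38 10)))) (S 12 (L 38 10) (L 18 10))) (B01 (A23 (A02 (P 12 (L 38 10)) (S 12 (L 38
  10) (L 7 10))) (P 12 (L 38 10))) (A23 (S 12 (L 38 10) (L 18 10)) (A13 (P 10 (L 31 8)) (B12 (P 13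
  (L 40 7)) (P 12 (L 38 10))))))) (A03 (S 12 (L 38 10) (L 18 10)) (A23 (S 12 (L 38 10) (L 18 10))
  (A13 (P 10 (L 31 8)) (B12 (B01 (P 10 (L 31 8)) (P 13 (L 40 7))) (P 10 (L 31 8))))))) (B02 (A13 (S
  12 (L 38 10) (L 18 10)) (B01 (A23 (S 12 (L 38 10) (L 7 10)) (P 12 (L 38 10))) (A23 (S 12 (L 38
  10) (L 18 10)) (A03 (P 10 (L 31 8)) (B12 (P 13 (L 40 7)) (A13 (P 10 (L 31 8)) (P 12 (L 38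
  10)))))))) (A13 (S 12 (L 38 10) (L 18 10)) (A23 (S 12 (L 38 10) (L 18 10)) (A03 (P 10 (L 31 8))
  (B12 (B01 (P 10 (L 31 8)) (P 13 (L 40 7))) (P 10 (L 31 8)))))))))) (A23 (B02 (A12 (P 6 (S 12 (L
  38 10) (L 18 10))) (B01 (A02 (S 12 (L 38 10) (L 7 10)) (A23 (B02 (S 12 (L 38 10) (L 7 10)) (P 15
  (L 46 1))) (S 12 (L 38 10) (L 7 10)))) (A02 (P 6 (S 12 (L 38 10) (L 18 10))) (A23 (P 15 (S 1 (L 4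
  1) (L 45 1))) (P 6 (S 12 (L 38 10) (L 18 10))))))) (S 13 (L 40 7) (L 13 7))) (P 6 (M 1 (B02 (A13
  (S 12 (L 38 10) (L 18 10)) (B01 (A03 (S 12 (L 38 10) (L 7 10)) (A23 (P 10 (L 31 8)) (P 12 (L 38
  10)))) (A03 (S 12 (L 38 10) (L 7 10)) (A23 (P 10 (L 31 8)) (B12 (P 13 (L 40 7)) (A13 (P 10 (L 31
  8)) (P 12 (L 38 10)))))))) (A13 (S 12 (L 38 10) (L 18 10)) (A03 (S 12 (L 38 10) (L 18 10)) (A23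
  (P 10 (L 31 8)) (B12 (B01 (P 10 (L 31 8)) (P 13 (L 40 7))) (P 10 (L 31 8))))))))))))) (A02 (P 6
  (M 1 (A01 (B12 (M 16 (P 13 (A03 (S 2 (L 8 4) (L 25 4)) (B01 (M 5 (L 40 7)) (P 15 (L 45 1)))))) (M
  5 (A03 (S 12 (L 38 10) (L 18 10)) (A23 (S 12 (L 38 10) (L 18 10)) (A13 (P 10 (L 31 8)) (B02 (P 13
  (L 40 7)) (P 10 (L 31 8)))))))) (B12 (P 13 (A13 (P 15 (L 45 1)) (B01 (M 5 (L 40 7)) (P 15 (L 45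
  1))))) (A13 (P 15 (L 45 1)) (M 5 (A23 (P 15 (L 45 1)) (A03 (P 15 (L 45 1)) (B02 (P 13 (L 40 7))
  (P 10 (L 31 8))))))))))) (A23 (P 15 (P 10 (B12 (M 16 (A12 (S 1 (L 4 1) (L 45 1)) (B01 (S 2 (L 8
  4) (L 25 4)) (S 1 (L 4 8) (L 31 8))))) (A12 (A01 (A02 (S 1 (L 4 1) (L 45 1)) (S 1 (L 4 1) (L 45
  1))) (S 1 (L 4 1) (L 45 1))) (A02 (A01 (S 1 (L 4 1) (L 45 1)) (B02 (S 1 (L 4 1) (L 45 1)) (B12 (S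
  1 (L 4 8) (L 31 8)) (S 1 (L 4 8) (L 31 8))))) (A23 (B02 (S 1 (L 4 8) (L 31 8)) (B12 (S 1 (L 4 8)
  (L 45 8)) (S 1 (L 4 8) (L 45 8)))) (B02 (S 1 (L 4 8) (L 45 1)) (B12 (S 1 (L 4 8) (L 31 8)) (S 1
  (L 4 8) (L 31 8)))))))))) (M 1 (B12 (P 13 (A13 (P 15 (L 45 1)) (B01 (M 5 (L 40 7)) (P 15 (L 45
  1))))) (A13 (P 15 (L 45 1)) (M 5 (A03 (P 15 (L 45 1)) (A23 (P 15 (L 45 1)) (B02 (P 13 (L 40 7))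
  (P 10 (L 31 8)))))))))))) (B01 (M 5 (P 2 (A23 (A02 (M 1 (B02 (A01 (B01 (A03 (A02 (P 12 (L 38 10))
  (P 10 (L 31 8))) (P 10 (L 31 8))) (A03 (A02 (P 13 (L 40 7)) (P 10 (L 31 8))) (P 10 (L 31 8)))) (P
  10 (L 31 8))) (A01 (A03 (A02 (P 13 (L 40 7)) (P 10 (L 31 8))) (P 10 (L 31 8))) (P 10 (L 31 8)))))
  (P 10 (B02 (A12 (P 6 (S 12 (L 38 10) (L 18 10))) (B01 (A23 (A02 (S 12 (L 38 10) (L 7 10)) (B02 (S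
  12 (L 38 10) (L 7 10)) (P 15 (L 46 1)))) (S 12 (L 38 10) (L 7 10))) (A23 (A02 (M 1 (L 31 8)) (P
  15 (S 1 (L 4 1) (L 45 1)))) (M 1 (L 31 8))))) (S 13 (L 40 7) (L 13 7))))) (M 1 (A13 (B02 (A01
  (B01 (A02 (P 12 (L 38 10)) (A12 (B02 (P 12 (L 38 10)) (P 13 (L 40 7))) (B02 (P 12 (L 38 10)) (A23
  (P 10 (L 31 8)) (P 13 (L 40 7)))))) (P 13 (L 40 7))) (B01 (A12 (P 13 (L 40 7)) (A02 (P 13 (L 40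
  7)) (B02 (A23 (P 10 (L 31 8)) (P 13 (L 40 7))) (A23 (P 10 (L 31 8)) (P 13 (L 40 7)))))) (P 13 (L
  40 7)))) (P 13 (L 40 7))) (B02 (A03 (B01 (A02 (P 12 (L 38 10)) (A23 (B02 (P 12 (L 38 10)) (A12 (P
  13 (L 40 7)) (P 10 (L 31 8)))) (P 12 (L 38 10)))) (P 13 (L 40 7))) (B01 (A23 (A02 (P 12 (L 38
  10)) (B02 (P 12 (L 38 10)) (A12 (P 13 (L 40 7)) (P 10 (L 31 8))))) (P 12 (L 38 10))) (P 13 (L 40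
  7)))) (P 13 (L 40 7)))))))) (A23 (A02 (P 13 (M 1 (B12 (A01 (B01 (M 5 (L 40 7)) (P 15 (L 45 1)))
  (P 15 (L 45 1))) (A01 (M 5 (L 40 7)) (P 10 (L 31 8)))))) (M 19 (P 15 (M 12 (P 10 (B12 (M 16 (P 13
  (A12 (B01 (S 2 (L 8 4) (L 25 4)) (A13 (S 1 (L 4 8) (L 45 1)) (A23 (S 1 (L 4 8) (L 45 1)) (P 6 (M
  1 (K [(41,11,2),(18,10,2),(31,8,4)] [])))))) (B01 (S 2 (L 8 4) (L 25 4)) (A23 (S 1 (L 4 8) (L 31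
  8)) (A13 (S 1 (L 4 8) (L 31 8)) (B12 (L 41 11) (A03 (S 1 (L 4 8) (L 31 8)) (A23 (S 1 (L 4 8) (L
  31 8)) (S 2 (L 8 4) (L 25 6))))))))))) (A12 (S 1 (L 4 8) (L 31 8)) (A23 (A02 (B02 (S 1 (L 4 8) (L
  31 8)) (B12 (S 1 (L 4 8) (L 31 8)) (S 1 (L 4 8) (L 31 8)))) (B02 (S 1 (L 4 8) (L 31 8)) (B12 (S 1
  (L 4 8) (L 45 8)) (S 1 (L 4 8) (L 45 8))))) (S 1 (L 4 8) (L 31 8)))))))))) (M 16 (P 13 (M 1 (A13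
  (B12 (A01 (B01 (M 5 (L 40 7)) (P 15 (L 45 1))) (P 15 (L 45 1))) (A01 (M 5 (L 40 7)) (S 2 (L 8 4)
  (L 25 4)))) (B12 (A03 (B01 (M 5 (L 40 7)) (P 15 (L 45 1))) (B01 (M 5 (L 40 7)) (A23 (P 15 (L 45
  1)) (A13 (P 15 (L 45 1)) (B12 (P 19 (L 58 11)) (S 10 (L 31 2) (L 2 2))))))) (M 5 (L 40
  7)))))))))) (M 5 (P 2 (A03 (A02 (P 6 (M 1 (A01 (B02 (B01 (A03 (A02 (P 12 (L 38 10)) (A23 (S 12 (L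
  38 10) (L 7 10)) (P 12 (L 38 10)))) (A23 (A02 (P 12 (L 38 10)) (S 12 (L 38 10) (L 7 10))) (P 12
  (L 38 10)))) (S 12 (L 38 10) (L 18 10))) (S 13 (L 40 7) (L 13 7))) (B02 (B01 (A13 (S 12 (L 38 10)
  (L 7 10)) (A23 (S 12 (L 38 10) (L 7 10)) (P 12 (L 38 10)))) (P 10 (L 31 8))) (P 10 (L 31 8))))))
  (A23 (P 10 (B02 (B01 (A12 (S 12 (L 38 10) (L 7 10)) (A02 (S 12 (L 38 10) (L 7 10)) (A23 (B02 (B01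
  (S 12 (L 38 10) (L 7 10)) (A12 (S 12 (L 38 10) (L 7 10)) (P 16 (L 49 4)))) (B12 (A12 (S 12 (L 38
  10) (L 7 10)) (P 16 (L 49 4))) (P 16 (L 49 4)))) (S 12 (L 38 10) (L 7 10))))) (A12 (B12 (P 15 (S
  1 (L 4 1) (L 45 1))) (M 1 (L 31 8))) (B12 (S 1 (L 4 8) (L 31 8)) (A02 (A01 (P 16 (L 49 4)) (B02
  (A13 (P 15 (L 46 1)) (A23 (P 15 (L 46 1)) (M 1 (L 31 8)))) (P 16 (L 49 4)))) (A23 (P 15 (L 46 1))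
  (B02 (A13 (P 15 (L 46 1)) (A03 (P 15 (L 46 1)) (A23 (P 15 (L 46 1)) (M 1 (L 31 8))))) (P 16 (L 49
  4)))))))) (B12 (A12 (B01 (A01 (P 16 (L 49 4)) (A13 (B02 (M 1 (L 31 8)) (P 15 (L 46 1))) (B02 (M 1
  (L 31 8)) (P 15 (L 46 1))))) (S 1 (L 4 8) (L 31 8))) (B01 (P 16 (L 49 4)) (S 1 (L 4 8) (L 31
  8)))) (A12 (A01 (P 16 (L 49 4)) (A13 (B02 (B01 (A12 (M 1 (L 31 8)) (P 16 (L 49 4))) (P 15 (L 46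
  1))) (P 15 (L 46 1))) (P 16 (L 49 4)))) (P 16 (L 49 4)))))) (M 1 (B02 (B01 (A13 (S 12 (L 38 10)
  (L 7 10)) (A03 (S 12 (L 38 10) (L 7 10)) (A23 (P 10 (L 31 8)) (P 12 (L 38 10))))) (P 10 (L 31
  8))) (P 10 (L 31 8)))))) (A23 (A02 (M 1 (B02 (B01 (A01 (A03 (A02 (P 12 (L 38 10)) (P 10 (L 31
  8))) (P 10 (L 31 8))) (P 10 (L 31 8))) (P 10 (L 31 8))) (P 10 (L 31 8)))) (P 10 (B02 (B01 (A12 (S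
  12 (L 38 10) (L 7 10)) (A23 (A02 (S 12 (L 38 10) (L 7 10)) (B02 (B01 (S 12 (L 38 10) (L 7 10)) (P
  15 (L 46 1))) (P 15 (L 46 1)))) (S 12 (L 38 10) (L 7 10)))) (A12 (B12 (S 1 (L 4 8) (L 31 8)) (M 1
  (L 31 8))) (B12 (S 1 (L 4 8) (L 31 8)) (A23 (A02 (B02 (A01 (A03 (A02 (M 1 (L 31 8)) (P 15 (L 46
  1))) (P 15 (L 46 1))) (P 15 (L 46 1))) (P 16 (L 49 4))) (P 15 (L 46 1))) (M 1 (L 31 8)))))) (B12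
  (A12 (B01 (A13 (A01 (B02 (M 1 (L 31 8)) (P 15 (L 46 1))) (B02 (M 1 (L 31 8)) (P 15 (L 46 1))))
  (A23 (B02 (M 1 (L 31 8)) (P 15 (L 46 1))) (B02 (M 1 (L 31 8)) (P 15 (L 46 1))))) (S 1 (L 4 8) (L
  31 8))) (B01 (P 16 (L 49 4)) (S 1 (L 4 8) (L 31 8)))) (A12 (A13 (A01 (P 16 (L 49 4)) (B02 (B01
  (A12 (M 1 (L 31 8)) (P 16 (L 49 4))) (P 15 (L 46 1))) (P 15 (L 46 1)))) (P 16 (L 49 4))) (P 16 (L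
  49 4))))))) (M 1 (A13 (B02 (B01 (A01 (A02 (P 12 (L 38 10)) (P 10 (L 31 8))) (P 10 (L 31 8))) (P
  10 (L 31 8))) (P 10 (L 31 8))) (B02 (B01 (A03 (A02 (P 12 (L 38 10)) (A23 (P 10 (L 31 8)) (P 12 (L
  38 10)))) (A23 (A02 (P 12 (L 38 10)) (P 10 (L 31 8))) (P 12 (L 38 10)))) (P 10 (L 31 8))) (P 10
  (L 31 8)))))))))) (B12 (A13 (B01 (A12 (M 16 (P 13 (A01 (B02 (M 1 (A03 (B01 (A02 (A01 (M 5 (L 40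
  7)) (B02 (A13 (out 5) (M 5 (L 40 7))) (P 15 (L 45 1)))) (A23 (out 5) (B02 (A13 (out 5) (M 5 (L 40
  7))) (P 15 (L 45 1))))) (P 15 (L 45 1))) (B01 (A23 (A02 (B02 (A01 (M 5 (L 40 7)) (out 5)) (P 15
  (L 45 1))) (out 5)) (A13 (B02 (A01 (M 5 (L 40 7)) (out 5)) (P 15 (L 45 1))) (M 5 (L 40 7)))) (P
  15 (L 45 1))))) (P 15 (A03 (A02 (A01 (B12 (M 1 (L 45 1)) (S 1 (L 4 8) (L 45 1))) (B12 (M 1 (L 45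
  1)) (S 1 (L 4 8) (L 45 1)))) (A23 (out 5) (B12 (M 1 (L 45 1)) (P 10 (S 1 (L 4 8) (L 31 8))))))
  (A23 (A02 (S 2 (L 8 4) (L 25 4)) (out 5)) (S 2 (L 8 4) (L 25 4)))))) (out 5)))) (A23 (P 15 (P 10
  (B02 (A02 (M 1 (L 45 1)) (B01 (M 5 (L 46 1)) (A12 (S 1 (L 4 8) (L 45 1)) (S 1 (L 4 8) (L 45
  1))))) (A02 (S 1 (L 4 8) (L 31 8)) (A12 (S 1 (L 4 8) (L 31 8)) (S 1 (L 4 8) (L 31 8))))))) (M 16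
  (P 13 (B02 (M 1 (A03 (B01 (M 5 (L 40 7)) (P 15 (L 45 1))) (B01 (M 5 (L 40 7)) (P 15 (L 45 1)))))
  (P 15 (A03 (A01 (A02 (B12 (M 1 (L 45 1)) (S 1 (L 4 8) (L 45 1))) (B12 (M 1 (L 45 1)) (P 10 (S 1
  (L 4 8) (L 31 8))))) (A13 (P 10 (S 1 (L 4 8) (L 31 8))) (B12 (M 1 (L 45 1)) (P 10 (S 1 (L 4 8) (L
  31 8)))))) (A13 (A01 (B12 (M 1 (L 45 1)) (P 10 (S 1 (L 4 8) (L 31 8)))) (S 2 (L 8 4) (L 25 4)))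
  (A23 (B12 (M 1 (L 45 1)) (P 10 (S 1 (L 4 8) (L 31 8)))) (S 2 (L 8 4) (L 25 4))))))))))) (P 15
  (A12 (M 16 (A01 (B12 (A03 (B01 (A02 (A01 (B02 (M 1 (L 45 1)) (M 2 (L 25 4))) (M 2 (L 25 4))) (A23
  (out 5) (S 1 (L 4 8) (L 45 1)))) (A02 (S 1 (L 4 8) (L 45 1)) (A23 (out 5) (S 1 (L 4 8) (L 45
  1))))) (B01 (A23 (A02 (S 10 (L 32 2) (L 2 2)) (out 5)) (S 10 (L 32 2) (L 2 2))) (A23 (A02 (S 10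
  (L 32 2) (L 2 2)) (out 5)) (S 10 (L 32 2) (L 2 2))))) (A03 (A02 (A01 (B02 (B01 (M 1 (L 45 1)) (S
  1 (L 4 8) (L 45 1))) (S 1 (L 4 8) (L 45 1))) (B02 (B01 (M 1 (L 45 1)) (S 1 (L 4 8) (L 45 1))) (S
  1 (L 4 8) (L 45 1)))) (A23 (out 5) (B02 (B01 (M 1 (L 45 1)) (S 1 (L 4 8) (L 45 1))) (P 10 (S 1 (L
  4 8) (L 31 8)))))) (A23 (A02 (M 1 (K [(45,8,3),(45,1,5)] [])) (out 5)) (M 1 (K
  [(45,1,5),(45,8,3)] []))))) (out 5))) (A23 (M 19 (P 10 (B12 (A02 (S 1 (L 4 8) (L 31 8)) (S 1 (L 4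
  8) (L 31 8))) (A02 (S 1 (L 4 8) (L 31 8)) (A12 (S 1 (L 4 8) (L 31 8)) (A23 (B02 (S 1 (L 4 8) (L
  31 8)) (B12 (S 1 (L 4 8) (L 45 8)) (A02 (P 13 (L 41 7)) (M 6 (L 43 5))))) (S 1 (L 4 8) (L 31
  8)))))))) (M 16 (P 13 (B12 (A03 (B01 (A01 (A02 (B02 (M 1 (L 45 1)) (M 2 (L 25 4))) (B02 (M 1 (L
  45 1)) (M 2 (K [(25,4,4),(25,6,4)] [])))) (A13 (B02 (A12 (out 5) (M 1 (L 45 1))) (S 1 (L 4 8) (L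
  45 8))) (B02 (M 1 (L 45 1)) (M 2 (A23 (M 19 (K [(41,11,3),(25,4,2),(25,6,3)] [])) (S 1 (L 4 8) (L
  45 1))))))) (M 2 (A01 (K [(25,6,5),(25,4,3)] []) (A13 (S 1 (L 4 8) (L 45 8)) (B12 (S 10 (L 32 2)
  (L 2 2)) (A23 (M 19 (K [(41,11,3),(25,6,3),(25,4,2)] [])) (S 1 (L 4 8) (L 45 1)))))))) (B01 (A13
  (A01 (M 1 (K [(45,1,5),(45,8,3)] [])) (B02 (A12 (out 5) (M 1 (L 45 1))) (S 1 (L 4 8) (L 45 8))))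
  (M 1 (K [(45,1,5),(45,8,3)] []))) (M 2 (A13 (A01 (M 1 (K [(45,8,3),(45,1,5)] [])) (S 1 (L 4 8) (L
  45 8))) (M 1 (K [(25,6,4),(45,8,2),(45,1,3)] [])))))) (A03 (A01 (A02 (B02 (B01 (M 1 (L 45 1)) (S
  1 (L 4 8) (L 45 1))) (S 1 (L 4 8) (L 45 1))) (B02 (B01 (M 1 (L 45 1)) (P 10 (S 1 (L 4 8) (L 31
  8)))) (P 10 (S 1 (L 4 8) (L 31 8))))) (A13 (P 10 (S 1 (L 4 8) (L 31 8))) (B02 (B01 (M 1 (L 45 1))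
  (P 10 (S 1 (L 4 8) (L 31 8)))) (P 10 (S 1 (L 4 8) (L 31 8)))))) (A13 (A01 (B02 (M 1 (K
  [(45,1,5),(45,8,3)] [])) (P 10 (S 1 (L 4 8) (L 31 8)))) (B02 (B01 (A12 (out 5) (M 1 (K
  [(45,1,5),(45,8,3)] []))) (S 1 (L 4 8) (L 45 8))) (S 1 (L 4 8) (L 45 8)))) (A23 (B02 (M 1 (K
  [(45,1,5),(45,8,3)] [])) (P 10 (S 1 (L 4 8) (L 31 8)))) (M 1 (K [(45,1,5),(45,8,3)]
  [])))))))))))) (B01 (A23 (A12 (B02 (M 1 (A01 (B01 (M 5 (A03 (P 13 (L 40 7)) (A13 (P 13 (L 40 7))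
  (P 10 (L 31 8))))) (P 13 (A03 (P 15 (L 45 1)) (A13 (P 15 (L 45 1)) (M 5 (L 40 7)))))) (B01 (M 5
  (P 2 (A13 (P 13 (L 40 7)) (A03 (P 13 (L 40 7)) (S 12 (L 38 10) (L 7 10)))))) (P 13 (A13 (P 15 (L
  45 1)) (A03 (P 15 (L 45 1)) (M 5 (L 40 7)))))))) (M 16 (P 15 (P 13 (A01 (A03 (A02 (M 1 (L 45 1))
  (B12 (M 1 (L 45 1)) (M 5 (L 40 7)))) (A13 (B12 (M 1 (L 45 1)) (M 5 (L 40 7))) (M 5 (L 40 7))))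
  (A13 (A12 (S 2 (L 8 4) (L 25 4)) (B12 (M 1 (L 45 1)) (M 5 (L 40 7)))) (A03 (B12 (M 1 (L 45 1)) (M
  5 (L 40 7))) (M 5 (L 40 7))))))))) (P 10 (M 5 (P 2 (B02 (A02 (P 6 (S 12 (L 38 10) (L 18 10)))
  (B01 (A23 (A12 (S 12 (L 38 10) (L 7 10)) (B02 (S 12 (L 38 10) (L 7 10)) (P 15 (L 46 1)))) (S 12
  (L 38 10) (L 7 10))) (A23 (P 15 (S 1 (L 4 8) (L 45 1))) (M 1 (L 31 8))))) (S 13 (L 40 7) (L 13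
  7))))))) (P 6 (M 1 (A03 (B02 (A01 (B01 (M 5 (A02 (P 13 (L 40 7)) (A12 (P 13 (L 40 7)) (B02 (A23
  (P 10 (L 31 8)) (P 13 (L 40 7))) (A23 (P 10 (L 31 8)) (P 13 (L 40 7))))))) (P 13 (A02 (A03 (P 15
  (L 45 1)) (B12 (A13 (P 15 (L 45 1)) (M 5 (L 40 7))) (M 5 (L 40 7)))) (A12 (B12 (A13 (P 15 (L 45
  1)) (M 5 (L 40 7))) (M 5 (L 40 7))) (M 5 (L 40 7)))))) (B01 (M 5 (P 2 (A12 (P 13 (L 40 7)) (A02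
  (P 13 (L 40 7)) (B02 (A23 (S 12 (L 38 10) (L 7 10)) (P 13 (L 40 7))) (A23 (S 12 (L 38 10) (L 7
  10)) (P 13 (L 40 7)))))))) (P 13 (A12 (A13 (P 15 (L 45 1)) (B12 (A03 (P 15 (L 45 1)) (M 5 (L 40
  7))) (M 5 (L 40 7)))) (A02 (B12 (A03 (P 15 (L 45 1)) (M 5 (L 40 7))) (M 5 (L 40 7))) (M 5 (L 40
  7))))))) (M 16 (P 13 (A01 (A02 (A03 (P 15 (L 45 1)) (B12 (B01 (M 5 (L 40 7)) (P 15 (L 45 1))) (M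
  5 (L 40 7)))) (A12 (B12 (B01 (M 5 (L 40 7)) (P 15 (L 45 1))) (M 5 (L 40 7))) (M 5 (L 40 7))))
  (A12 (A13 (S 2 (L 8 4) (L 25 4)) (B12 (B01 (M 5 (L 40 7)) (P 15 (L 45 1))) (M 5 (L 40 7)))) (A02
  (B12 (B01 (M 5 (L 40 7)) (P 15 (L 45 1))) (M 5 (L 40 7))) (M 5 (L 40 7)))))))) (B02 (A13 (B01 (M
  5 (P 2 (A12 (P 13 (L 40 7)) (A23 (B02 (A02 (P 13 (L 40 7)) (S 12 (L 38 10) (L 18 10))) (A02 (P 13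
  (L 40 7)) (S 12 (L 38 10) (L 7 10)))) (P 13 (L 40 7)))))) (P 13 (A12 (A01 (M 5 (L 40 7)) (B12
  (A13 (P 15 (L 45 1)) (M 5 (L 40 7))) (M 5 (L 40 7)))) (M 5 (L 40 7))))) (M 5 (P 2 (B01 (A23 (A12
  (B02 (P 12 (L 38 10)) (P 13 (L 40 7))) (B02 (P 12 (L 38 10)) (A02 (P 13 (L 40 7)) (S 12 (L 38 10)
  (L 7 10))))) (P 12 (L 38 10))) (P 13 (L 40 7)))))) (M 16 (P 13 (A13 (A12 (A01 (M 5 (L 40 7)) (B12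
  (B01 (A13 (P 15 (L 45 1)) (M 5 (L 40 7))) (P 15 (L 45 1))) (B02 (A13 (P 15 (L 45 1)) (M 5 (L 40
  7))) (S 2 (L 8 4) (L 25 4))))) (M 5 (L 40 7))) (M 5 (L 40 7)))))))))) (A23 (P 15 (A12 (P 13 (B12
  (M 1 (K [(45,1,5),(45,8,3)] [])) (A01 (A03 (A02 (M 1 (L 45 1)) (B02 (M 1 (K [(45,1,5),(45,8,3)]
  [])) (P 10 (S 1 (L 4 8) (L 31 8))))) (A13 (B02 (M 1 (K [(45,1,5),(45,8,3)] [])) (P 10 (S 1 (L 4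
  8) (L 31 8)))) (P 10 (S 1 (L 4 8) (L 31 8))))) (A13 (A12 (M 1 (K [(45,1,5),(45,8,3)] [])) (B02 (M
  1 (K [(45,1,5),(45,8,3)] [])) (P 10 (S 1 (L 4 8) (L 31 8))))) (A03 (B02 (M 1 (K
  [(45,1,5),(45,8,3)] [])) (P 10 (S 1 (L 4 8) (L 31 8)))) (M 19 (P 10 (B02 (M 1 (K
  [(45,1,1),(31,8,5),(41,11,2)] [])) (S 1 (L 4 8) (L 31 8)))))))))) (M 19 (P 10 (B12 (P 13 (A02
  (B01 (A03 (S 1 (L 4 8) (L 31 8)) (A23 (S 1 (L 4 8) (L 31 8)) (M 1 (K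
  [(45,1,3),(31,8,3),(41,11,1),(45,8,1)] [])))) (A03 (S 1 (L 4 8) (L 31 8)) (A23 (S 1 (L 4 8) (L 31
  8)) (M 1 (K [(41,11,2),(31,8,4),(45,1,2)] []))))) (B01 (A23 (S 1 (L 4 8) (L 31 8)) (A03 (S 1 (L 4
  8) (L 31 8)) (B02 (M 1 (L 45 1)) (A13 (S 1 (L 4 8) (L 31 8)) (M 5 (L 40 7)))))) (A23 (S 1 (L 4 8)
  (L 45 8)) (A03 (S 1 (L 4 8) (L 31 8)) (B12 (L 41 11) (A13 (S 1 (L 4 8) (L 31 8)) (A23 (S 1 (L 4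
  8) (L 31 8)) (M 1 (K [(31,8,5),(41,11,2),(45,1,2)] [])))))))))) (A02 (S 1 (L 4 8) (L 31 8)) (A23
  (A12 (S 1 (L 4 8) (L 31 8)) (B02 (S 1 (L 4 8) (L 31 8)) (B12 (S 1 (L 4 8) (L 45 8)) (S 1 (L 4 8)
  (L 45 8))))) (S 1 (L 4 8) (L 31 8))))))))) (M 16 (P 13 (P 6 (M 1 (A03 (P 15 (K
  [(45,1,41),(45,8,23)] [])) (B12 (A13 (P 15 (K [(45,1,5),(45,8,3)] [])) (B01 (S 12 (L 38 10) (L 18
  10)) (A23 (P 15 (L 45 1)) (A03 (P 15 (L 45 1)) (B12 (P 19 (L 58 11)) (A13 (P 15 (L 45 1)) (S 10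
  (L 32 2) (L 2 2)))))))) (A13 (P 15 (K [(45,1,5),(45,8,3)] [])) (M 5 (K [(40,7,6),(40,3,2)]
  [])))))))))))) (A13 (A12 (A01 (B02 (P 13 (B01 (A03 (P 10 (A02 (M 1 (L 31 8)) (A23 (out 5) (M 1 (L
  31 8))))) (A23 (P 10 (A02 (M 1 (L 31 8)) (out 5))) (M 1 (A13 (P 10 (L 31 8)) (M 5 (L 40 7))))))
  (P 10 (S 1 (L 4 8) (L 31 8))))) (P 10 (B12 (S 1 (L 4 8) (L 31 8)) (S 1 (L 4 8) (L 31 8))))) (out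
  5)) (A23 (M 19 (P 15 (P 10 (B02 (B01 (M 5 (L 46 1)) (A02 (B12 (A01 (A03 (B01 (M 1 (L 45 1)) (A02
  (S 1 (L 4 8) (L 45 1)) (B12 (P 13 (L 41 7)) (S 1 (L 4 8) (L 31 8))))) (B01 (M 1 (L 31 8)) (A23
  (B12 (P 13 (L 41 7)) (S 1 (L 4 8) (L 31 8))) (P 13 (L 41 7))))) (A12 (P 13 (L 41 7)) (B01 (S 1 (L
  4 8) (L 31 8)) (A23 (B12 (P 13 (L 41 7)) (S 1 (L 4 8) (L 31 8))) (P 13 (L 41 7)))))) (M 5 (L 46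
  1))) (B12 (A12 (A01 (S 1 (L 4 8) (L 31 8)) (P 13 (L 41 7))) (S 1 (L 4 8) (L 31 8))) (M 5 (L 46
  1))))) (B12 (A02 (B01 (M 5 (L 46 1)) (A01 (A03 (B12 (A02 (S 1 (L 4 8) (L 31 8)) (B01 (S 1 (L 4 8)
  (L 31 8)) (P 13 (L 41 7)))) (S 1 (L 4 8) (L 31 8))) (B12 (A23 (B01 (S 1 (L 4 8) (L 31 8)) (P 13
  (L 41 7))) (P 13 (L 41 7))) (S 1 (L 4 8) (L 31 8)))) (A12 (P 13 (L 41 7)) (B12 (A23 (B01 (S 1 (L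
  4 8) (L 45 8)) (P 13 (L 41 7))) (P 13 (L 41 7))) (S 1 (L 4 8) (L 45 8)))))) (B01 (M 5 (L 46 1))
  (A12 (A01 (S 1 (L 4 8) (L 45 8)) (B12 (P 13 (L 41 7)) (A13 (out 5) (S 1 (L 4 8) (L 45 8))))) (S 1
  (L 4 8) (L 45 8))))) (M 5 (L 46 1))))))) (B02 (B01 (M 5 (A03 (P 10 (A01 (M 1 (L 31 8)) (A13 (P 15
  (L 46 1)) (M 1 (L 31 8))))) (A13 (P 10 (A01 (M 1 (L 31 8)) (P 15 (L 46 1)))) (M 1 (A23 (P 10 (L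
  31 8)) (P 13 (L 40 7))))))) (P 15 (P 10 (A03 (B12 (S 1 (L 4 8) (L 31 8)) (M 5 (L 46 1))) (B12 (S
  1 (L 4 8) (L 31 8)) (M 5 (L 46 1))))))) (P 15 (P 10 (B12 (A03 (B01 (M 5 (L 46 1)) (S 1 (L 4 8) (L
  31 8))) (B01 (M 5 (L 46 1)) (S 1 (L 4 8) (L 31 8)))) (M 5 (L 46 1)))))))) (A23 (A12 (B02 (B01 (M
  5 (M 1 (A01 (P 10 (L 31 8)) (A13 (A12 (B02 (P 13 (L 40 7)) (P 10 (L 31 8))) (P 10 (L 31 8))) (P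
  10 (L 31 8)))))) (P 10 (A01 (B12 (S 1 (L 4 8) (L 31 8)) (M 1 (L 31 8))) (B12 (A13 (S 1 (L 4 8) (L
  31 8)) (S 1 (L 4 8) (L 31 8))) (M 1 (L 31 8)))))) (P 10 (B12 (A01 (M 5 (B01 (A03 (P 15 (L 46 1))
  (A13 (P 15 (L 46 1)) (B02 (M 1 (L 31 8)) (P 15 (L 46 1))))) (S 1 (L 4 8) (L 31 8)))) (B01 (M 5
  (A13 (P 15 (L 46 1)) (A03 (P 15 (L 46 1)) (B02 (M 1 (L 31 8)) (P 15 (L 46 1)))))) (A13 (S 1 (L 4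
  8) (L 31 8)) (S 1 (L 4 8) (L 31 8))))) (M 5 (A01 (A03 (P 15 (L 46 1)) (A13 (P 15 (L 46 1)) (B02
  (B01 (M 1 (L 31 8)) (P 15 (L 46 1))) (P 15 (L 46 1))))) (A13 (P 15 (L 46 1)) (A03 (P 15 (L 46 1))
  (B02 (B01 (M 1 (L 31 8)) (P 15 (L 46 1))) (P 15 (L 46 1)))))))))) (P 10 (M 5 (P 2 (B02 (B01 (A02
  (S 12 (L 38 10) (L 7 10)) (A23 (A12 (S 12 (L 38 10) (L 7 10)) (B02 (B01 (S 12 (L 38 10) (L 7 10))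
  (P 15 (L 46 1))) (P 15 (L 46 1)))) (S 12 (L 38 10) (L 7 10)))) (A02 (B12 (S 1 (L 4 8) (L 31 8))
  (M 1 (L 31 8))) (B12 (S 1 (L 4 8) (L 31 8)) (A23 (P 15 (L 46 1)) (M 1 (L 31 8)))))) (B12 (A02
  (B01 (A03 (P 15 (L 46 1)) (A23 (P 15 (L 46 1)) (B02 (M 1 (L 31 8)) (P 15 (L 46 1))))) (S 1 (L 4
  8) (L 31 8))) (B01 (A23 (P 15 (L 46 1)) (A03 (P 15 (L 46 1)) (B02 (A13 (P 15 (L 46 1)) (B01 (P 16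
  (L 49 4)) (P 15 (L 46 1)))) (P 15 (L 46 1))))) (S 1 (L 4 8) (L 31 8)))) (A02 (A03 (P 15 (L 46 1))
  (A23 (P 15 (L 46 1)) (B02 (B01 (P 16 (L 49 4)) (P 15 (L 46 1))) (P 15 (L 46 1))))) (A23 (P 15 (L
  46 1)) (A03 (P 15 (L 46 1)) (B02 (B01 (P 16 (L 49 4)) (P 15 (L 46 1))) (P 15 (L 46 1))))))))))))
  (M 1 (A03 (B02 (B01 (M 5 (A01 (P 10 (L 31 8)) (A12 (A13 (B02 (P 13 (L 40 7)) (P 10 (L 31 8))) (P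
  10 (L 31 8))) (P 10 (L 31 8))))) (P 10 (L 31 8))) (P 10 (L 31 8))) (B02 (B01 (M 5 (A13 (A12 (A01
  (B02 (P 13 (L 40 7)) (P 10 (L 31 8))) (B02 (P 13 (L 40 7)) (P 10 (L 31 8)))) (A23 (P 10 (L 31 8))
  (B02 (B01 (A03 (P 10 (L 31 8)) (A13 (P 10 (L 31 8)) (P 12 (L 38 10)))) (P 10 (L 31 8))) (P 10 (L
  31 8))))) (A23 (A12 (B02 (B01 (P 12 (L 38 10)) (P 10 (L 31 8))) (P 10 (L 31 8))) (P 10 (L 31 8)))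
  (P 12 (L 38 10))))) (P 10 (L 31 8))) (P 10 (L 31 8))))))))) (A23 (P 15 (B12 (A12 (B01 (A01 (M 19
  (P 10 (A02 (B02 (A03 (B01 (M 5 (L 46 1)) (A01 (A02 (S 1 (L 4 8) (L 31 8)) (B12 (P 13 (L 41 7)) (M
  5 (L 46 1)))) (A13 (out 5) (B12 (P 13 (L 41 7)) (M 5 (L 46 1)))))) (B01 (M 5 (L 46 1)) (A13 (A01
  (B12 (P 13 (L 41 7)) (M 5 (L 46 1))) (out 5)) (out 0)))) (A03 (A01 (A02 (S 1 (L 4 8) (L 45 8))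
  (B12 (B01 (A23 (out 5) (S 1 (L 4 8) (L 45 8))) (P 13 (L 41 7))) (M 6 (L 43 5)))) (A13 (out 5)
  (B12 (B01 (A23 (out 5) (S 1 (L 4 8) (L 45 8))) (P 13 (L 41 7))) (B02 (A23 (out 5) (S 1 (L 4 8) (L
  45 8))) (P 13 (L 41 7)))))) (A13 (A01 (B12 (B01 (A02 (B02 (M 5 (L 46 1)) (P 13 (L 41 7))) (out
  5)) (P 13 (L 41 7))) (B02 (A02 (B01 (M 5 (L 46 1)) (P 13 (L 41 7))) (out 5)) (M 6 (L 43 5))))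
  (out 5)) (out 0)))) (out 5)))) (out 5)) (A01 (M 19 (A02 (B12 (S 1 (L 4 8) (L 45 8)) (A03 (A01
  (A02 (B02 (P 13 (L 41 7)) (M 6 (L 43 5))) (P 13 (L 41 7))) (S 1 (L 4 8) (L 45 8))) (S 1 (L 4 8)
  (L 45 8)))) (out 5))) (out 5))) (M 19 (B01 (A02 (A01 (B02 (A03 (B01 (M 5 (L 46 1)) (A02 (A01 (M 5
  (L 46 1)) (B12 (P 13 (L 41 7)) (M 5 (L 46 1)))) (out 0))) (out 0)) (A03 (A02 (A01 (M 5 (L 46 1))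
  (B12 (B01 (A13 (out 5) (M 5 (L 46 1))) (P 13 (L 41 7))) (M 6 (L 43 5)))) (out 0)) (out 0))) (out
  0)) (out 0)) (A02 (A01 (B12 (S 1 (L 4 8) (L 45 8)) (A03 (A02 (A01 (B02 (P 13 (L 41 7)) (M 6 (L 43
  5))) (P 13 (L 41 7))) (out 0)) (out 0))) (out 0)) (out 0))))) (A12 (A01 (A02 (B02 (B01 (M 5 (L 46
  1)) (A03 (B12 (A01 (M 6 (L 43 5)) (A13 (out 5) (B01 (M 5 (L 46 1)) (M 6 (L 43 5))))) (M 5 (L 46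
  1))) (B12 (A13 (A01 (B01 (M 5 (L 46 1)) (M 6 (L 43 5))) (out 5)) (out 0)) (M 5 (L 46 1))))) (M 6
  (L 43 5))) (out 5)) (out 5)) (A02 (A01 (B02 (B01 (M 5 (L 46 1)) (A03 (M 6 (L 43 5)) (out 0))) (M
  6 (L 43 5))) (out 0)) (out 0))))) (B12 (A13 (B01 (A01 (A03 (M 19 (P 15 (P 10 (B02 (A02 (B01 (M 5
  (L 46 1)) (A01 (S 1 (L 4 8) (L 31 8)) (A12 (S 1 (L 4 8) (L 31 8)) (S 1 (L 4 8) (L 31 8))))) (B01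
  (M 5 (L 46 1)) (A12 (A01 (B12 (M 1 (L 31 8)) (M 5 (L 46 1))) (M 1 (L 31 8))) (A23 (out 0) (B12 (M
  1 (L 31 8)) (M 5 (L 46 1))))))) (A02 (A01 (S 1 (L 4 8) (L 31 8)) (A12 (S 1 (L 4 8) (L 31 8)) (S 1
  (L 4 8) (L 31 8)))) (A12 (A01 (B12 (B01 (A03 (B02 (M 5 (L 46 1)) (P 13 (L 41 7))) (P 13 (L 41
  7))) (S 1 (L 4 8) (L 31 8))) (B02 (A03 (B01 (M 5 (L 46 1)) (P 13 (L 41 7))) (P 13 (L 41 7))) (P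
  13 (L 41 7)))) (S 1 (L 4 8) (L 31 8))) (A23 (out 0) (B12 (B01 (A03 (B02 (M 5 (L 46 1)) (P 13 (L
  41 7))) (P 13 (L 41 7))) (S 1 (L 4 8) (L 31 8))) (B02 (A03 (B01 (M 5 (L 46 1)) (P 13 (L 41 7)))
  (P 13 (L 41 7))) (P 13 (L 41 7))))))))))) (B02 (M 1 (A23 (P 15 (P 10 (B01 (M 5 (L 46 1)) (M 16 (K
  [(32,4,3),(45,1,4),(45,8,1)] []))))) (M 16 (P 13 (B01 (M 5 (L 40 7)) (P 15 (A13 (M 19 (P 10 (K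
  [(45,1,16),(32,4,6),(41,11,2)] []))) (L 45 1)))))))) (M 16 (P 15 (P 13 (M 12 (A23 (M 19 (A12 (A13
  (B12 (B01 (L 41 7) (A01 (A02 (S 2 (L 8 4) (L 25 4)) (out 5)) (out 5))) (L 41 7)) (S 2 (L 7 10) (L
  25 10))) (S 2 (L 7 10) (L 25 10)))) (A13 (M 19 (P 10 (A12 (B12 (S 2 (L 8 4) (L 25 4)) (L 41 7))
  (B12 (M 1 (K [(41,7,3),(31,8,1),(45,1,4)] [])) (L 41 7))))) (A03 (M 19 (P 10 (B12 (M 1 (K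
  [(41,7,3),(45,1,4),(31,8,2)] [])) (L 41 7)))) (out 5)))))))))) (out 5)) (P 15 (M 12 (A01 (A03 (M
  19 (P 10 (B12 (A02 (S 1 (L 4 8) (L 31 8)) (B01 (A12 (S 1 (L 4 8) (L 31 8)) (A23 (out 0) (S 1 (L 4
  8) (L 31 8)))) (S 1 (L 4 8) (L 45 8)))) (A02 (A01 (A03 (B02 (P 13 (L 41 7)) (M 6 (L 43 5))) (S 1
  (L 4 8) (L 31 8))) (S 1 (L 4 8) (L 31 8))) (S 1 (L 4 8) (L 31 8)))))) (P 13 (B12 (A23 (B01 (A12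
  (A13 (M 19 (B02 (A01 (P 6 (M 1 (K [(18,5,2),(41,11,1),(20,5,1),(41,7,2),(45,1,3)] []))) (out 5))
  (S 1 (L 4 8) (L 45 8)))) (B02 (M 1 (A03 (M 19 (K [(45,8,2),(41,11,1),(41,7,2),(45,1,3)] [])) (out
  0))) (S 1 (L 4 8) (L 45 8)))) (A02 (B02 (P 6 (M 1 (A03 (M 19 (K
  [(45,8,1),(41,7,2),(20,5,1),(41,11,1),(45,1,2)] [])) (out 0)))) (A03 (S 1 (L 4 8) (L 45 8)) (out
  0))) (out 0))) (S 1 (L 4 8) (L 45 8))) (B01 (A13 (A12 (B02 (A01 (M 1 (K [(45,8,3),(45,1,5)] []))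
  (out 5)) (S 1 (L 4 8) (L 45 8))) (M 1 (B02 (A02 (K [(45,8,3),(45,1,5)] []) (out 5)) (L 45 8))))
  (M 1 (A03 (B02 (A02 (K [(45,1,5),(45,8,3)] []) (out 5)) (K [(45,8,5),(45,1,3)] [])) (out 5)))) (M
  2 (A13 (S 1 (L 4 8) (L 45 8)) (L 25 6))))) (A23 (M 19 (P 10 (A12 (A13 (B02 (B01 (A01 (A02 (M 1 (K
  [(45,8,2),(41,7,3),(45,1,3)] [])) (out 5)) (out 5)) (S 1 (L 4 8) (L 45 8))) (S 1 (L 4 8) (L 45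
  8))) (B02 (B01 (A03 (A02 (M 1 (K [(41,7,3),(45,8,1),(45,1,3)] [])) (out 0)) (out 0)) (L 41 7)) (L
  41 7))) (A02 (B02 (B01 (A03 (A01 (M 1 (K [(41,7,4),(31,8,2),(45,1,2)] [])) (out 0)) (out 0)) (L
  41 7)) (L 41 7)) (out 0))))) (A13 (M 19 (A12 (B02 (B01 (A01 (M 1 (K
  [(45,8,2),(45,1,3),(41,7,2),(41,11,1)] [])) (out 5)) (S 1 (L 4 8) (L 45 8))) (S 1 (L 4 8) (L 45
  8))) (B02 (M 1 (K [(45,8,4),(41,7,9),(41,11,4),(45,1,8)] [])) (S 1 (L 4 8) (L 45 8))))) (A03 (M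
  19 (P 10 (B02 (M 1 (K [(45,8,2),(41,7,3),(45,1,3),(41,11,1)] [])) (S 1 (L 4 8) (L 31 8))))) (out
  5))))))) (out 5))))) (B01 (A03 (A01 (P 10 (M 5 (P 2 (B02 (A02 (B01 (A03 (A01 (B02 (S 12 (L 38 10)
  (L 7 10)) (P 15 (L 46 1))) (B02 (S 12 (L 38 10) (L 7 10)) (P 15 (L 46 1)))) (A23 (B02 (M 1 (L 31
  8)) (P 15 (L 46 1))) (M 1 (L 31 8)))) (A03 (P 15 (L 46 1)) (A23 (P 15 (L 46 1)) (M 1 (L 31 8)))))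
  (B01 (A23 (A12 (B02 (M 1 (L 31 8)) (P 15 (L 46 1))) (out 0)) (A03 (B02 (M 1 (L 31 8)) (P 15 (L 46
  1))) (M 1 (L 31 8)))) (A23 (P 15 (L 46 1)) (A03 (P 15 (L 46 1)) (P 13 (L 40 7)))))) (P 15 (L 46
  1)))))) (B02 (M 1 (A12 (B01 (M 5 (P 2 (A13 (P 13 (L 40 7)) (S 12 (L 38 10) (L 7 10))))) (A13 (P
  15 (L 45 1)) (P 2 (S 12 (L 38 10) (L 7 10))))) (P 2 (S 12 (L 38 10) (L 7 10))))) (P 15 (M 12 (A12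
  (A13 (A01 (M 5 (L 46 1)) (S 2 (L 7 10) (L 25 10))) (M 5 (L 46 1))) (M 5 (L 46 1))))))) (A23 (B02
  (M 1 (A12 (B01 (M 5 (P 2 (A01 (S 12 (L 38 10) (L 7 10)) (A13 (P 13 (L 40 7)) (S 12 (L 38 10) (L 7
  10)))))) (A01 (P 2 (S 12 (L 38 10) (L 7 10))) (A13 (P 15 (L 45 1)) (P 2 (S 12 (L 38 10) (L 7
  10)))))) (P 2 (S 12 (L 38 10) (L 7 10))))) (P 13 (M 12 (A12 (S 2 (L 7 10) (L 25 10)) (M 19 (L 41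
  7)))))) (P 6 (M 1 (B02 (A13 (B01 (M 5 (P 2 (A01 (A03 (S 12 (L 38 10) (L 7 10)) (B02 (A23 (S 12 (L
  38 10) (L 18 10)) (P 13 (L 40 7))) (P 13 (L 40 7)))) (A12 (P 13 (L 40 7)) (B02 (A23 (S 12 (L 38
  10) (L 18 10)) (P 13 (L 40 7))) (P 13 (L 40 7))))))) (P 13 (A01 (M 5 (L 40 7)) (A12 (B12 (A13 (P
  15 (L 45 1)) (M 5 (L 40 7))) (M 5 (L 40 7))) (M 5 (L 40 7)))))) (M 5 (P 2 (B01 (A03 (A01 (S 12 (L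
  38 10) (L 7 10)) (B02 (P 12 (L 38 10)) (P 13 (L 40 7)))) (A23 (B02 (P 12 (L 38 10)) (P 13 (L 40
  7))) (P 12 (L 38 10)))) (P 13 (L 40 7)))))) (M 16 (P 13 (A13 (A01 (M 5 (L 40 7)) (A12 (B12 (B01
  (A13 (P 15 (L 45 1)) (M 5 (L 40 7))) (P 15 (L 45 1))) (B02 (A13 (P 15 (L 45 1)) (M 5 (L 40 7)))
  (S 2 (L 8 4) (L 25 10)))) (M 5 (L 40 7)))) (M 5 (L 40 7)))))))))) (A03 (P 15 (M 12 (A01 (M 19 (P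
  10 (B12 (M 16 (P 13 (A02 (B01 (A03 (S 1 (L 4 8) (L 31 8)) (A23 (S 1 (L 4 8) (L 31 8)) (B02 (P 6
  (M 1 (K [(18,10,2),(31,8,6),(41,11,1)] []))) (A13 (S 1 (L 4 8) (L 31 8)) (M 5 (L 40 7)))))) (A03
  (S 1 (L 4 8) (L 45 8)) (A23 (S 1 (L 4 8) (L 45 8)) (B12 (L 41 11) (A13 (S 1 (L 4 8) (L 31 8))
  (A03 (S 1 (L 4 8) (L 31 8)) (M 1 (K [(31,8,4),(41,11,3)] [])))))))) (B01 (A23 (A12 (B02 (A01 (L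
  41 7) (M 1 (K [(32,4,2),(45,8,1),(45,1,2),(41,11,1)] []))) (S 1 (L 4 8) (L 45 8))) (out 0)) (A03
  (B02 (A01 (L 41 7) (M 1 (K [(32,4,2),(45,8,2),(45,1,3),(41,11,1)] []))) (S 1 (L 4 8) (L 45 8)))
  (M 1 (K [(41,7,2),(31,8,2),(45,8,1),(45,1,1),(31,2,1),(41,11,2)] [])))) (A23 (S 1 (L 4 8) (L 45
  8)) (A03 (S 1 (L 4 8) (L 45 8)) (P 6 (M 1 (K [(18,5,2),(41,11,4),(31,8,3)] []))))))))) (A02 (A03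
  (A01 (B02 (P 13 (L 41 7)) (B12 (P 13 (L 41 7)) (S 1 (L 4 8) (L 45 8)))) (S 1 (L 4 8) (L 31 8)))
  (S 1 (L 4 8) (L 31 8))) (M 16 (P 13 (A23 (A12 (B02 (B01 (A01 (L 41 7) (M 1 (K
  [(41,7,2),(31,8,4),(45,1,2)] []))) (L 41 7)) (L 41 7)) (out 0)) (A03 (B02 (B01 (S 2 (L 8 4) (L 25
  4)) (L 41 7)) (L 41 7)) (B02 (M 1 (K [(41,7,2),(31,8,4),(45,1,2)] [])) (L 41 7)))))))))) (M 16 (P
  13 (B12 (A12 (M 1 (B01 (A13 (A01 (B02 (A02 (K [(45,1,5),(45,8,3)] []) (B01 (A23 (out 5) (K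
  [(45,1,5),(45,8,3)] [])) (A23 (out 5) (K [(45,1,5),(45,8,3)] [])))) (K [(45,8,13),(45,1,11)] []))
  (B02 (S 10 (L 32 2) (L 2 2)) (K [(45,8,13),(45,1,11)] []))) (A23 (B02 (A02 (K [(45,1,5),(45,8,3)]
  []) (B01 (S 2 (L 7 10) (L 25 10)) (A12 (K [(45,1,5),(45,8,3)] []) (out 0)))) (K
  [(45,8,13),(45,1,11)] [])) (K [(45,1,13),(45,8,11)] []))) (K [(45,8,13),(45,1,11)] []))) (B01
  (A23 (A02 (M 1 (B02 (A01 (M 19 (P 10 (K [(32,4,2),(45,8,1),(45,1,2),(41,11,1)] []))) (out 0)) (L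
  45 8))) (out 0)) (P 6 (M 1 (A13 (B02 (A01 (M 19 (K [(41,7,2),(45,1,3),(41,11,1),(45,8,2)] []))
  (out 0)) (K [(45,8,5),(45,1,3)] [])) (M 19 (P 10 (K
  [(41,7,2),(45,1,1),(20,5,2),(45,8,1),(31,2,1),(41,11,2)] []))))))) (A23 (A02 (M 1 (L 45 8)) (out
  0)) (M 1 (K [(45,8,13),(45,1,11)] []))))) (A12 (A13 (A01 (M 19 (P 10 (B02 (M 1 (K
  [(41,7,6),(31,8,2),(45,1,7),(45,8,5),(41,11,3)] [])) (S 1 (L 4 8) (L 31 8))))) (M 1 (B02 (B01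
  (A12 (L 45 1) (A23 (out 5) (L 45 1))) (K [(45,8,13),(45,1,11)] [])) (K [(45,8,4),(45,1,4)] []))))
  (M 19 (P 10 (A23 (B02 (M 1 (K [(32,4,2),(31,8,1),(45,8,1),(45,1,2),(41,11,1)] [])) (S 1 (L 4 8)
  (L 31 8))) (B02 (M 1 (K [(45,1,4),(31,8,1),(41,7,1),(45,8,3)] [])) (S 1 (L 4 8) (L 31 8))))))) (M
  19 (P 10 (A23 (A02 (B02 (M 1 (K [(41,7,4),(31,8,2),(45,1,2)] [])) (L 41 7)) (out 0)) (A13 (B02 (M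
  1 (K [(41,7,4),(31,8,2),(45,1,2)] [])) (L 41 7)) (B02 (M 1 (K [(41,7,3),(31,8,4),(45,1,2)] []))
  (L 41 7))))))))))))) (M 16 (P 13 (A23 (P 15 (M 12 (B12 (A12 (M 1 (B01 (A01 (A02 (K
  [(45,1,13),(45,8,11)] []) (B02 (S 10 (L 31 2) (L 2 2)) (K [(45,8,13),(45,1,11)] []))) (A13 (B02
  (S 10 (L 32 2) (L 2 2)) (K [(45,8,13),(45,1,11)] [])) (B02 (S 10 (L 31 2) (L 2 2)) (K
  [(45,8,13),(45,1,11)] [])))) (K [(45,8,13),(45,1,11)] []))) (B01 (A02 (P 6 (M 1 (A01 (M 19 (P 10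
  (K [(32,4,2),(45,1,2),(20,11,1),(41,11,1),(31,8,1),(45,8,1)] []))) (out 0)))) (out 0)) (A02 (M 1
  (K [(45,8,13),(45,1,11)] [])) (out 0)))) (A12 (M 1 (A01 (M 19 (P 10 (K
  [(41,7,5),(31,8,2),(45,8,6),(45,1,7),(31,2,1),(41,11,2)] []))) (A13 (B02 (B01 (A12 (L 45 1) (S 2
  (L 7 10) (L 25 10))) (K [(45,8,13),(45,1,11)] [])) (K [(45,8,4),(45,1,4)] [])) (B02 (B01 (S 2 (L
  7 10) (L 25 10)) (K [(45,8,13),(45,1,11)] [])) (M 19 (K [(41,7,1),(45,8,3),(45,1,3)] [])))))) (M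
  19 (L 41 7)))))) (P 6 (M 1 (B12 (A13 (P 15 (K [(45,1,13),(45,8,11)] [])) (B01 (M 5 (A03 (A01 (B02
  (S 12 (L 38 10) (L 18 10)) (P 15 (K [(45,1,3),(46,1,2),(45,8,3)] []))) (S 10 (L 31 2) (L 2 2)))
  (S 10 (L 31 2) (L 2 2)))) (A03 (P 15 (K [(45,1,4),(45,8,4)] [])) (A23 (S 10 (L 31 2) (L 2 2))
  (B12 (P 19 (L 58 11)) (A13 (P 15 (L 45 1)) (S 10 (L 32 2) (L 2 2)))))))) (A13 (P 15 (K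
  [(45,1,105),(45,8,95)] [])) (M 5 (A03 (A01 (M 19 (K [(40,7,2),(41,7,3),(41,11,2),(40,3,1)] []))
  (B02 (B01 (L 40 7) (P 15 (K [(45,1,3),(46,1,1),(45,8,3)] []))) (P 15 (M 12 (K
  [(46,1,1),(18,10,4),(45,8,4)] []))))) (A23 (B02 (B01 (L 40 7) (P 15 (M 12 (K
  [(18,10,1),(46,1,5),(40,3,2)] [])))) (P 15 (M 12 (K [(46,1,5),(18,10,1),(40,3,2)] [])))) (S 12 (L
  38 10) (L 18 10))))))))))))))) (A13 (A01 (A03 (M 19 (P 15 (P 10 (B02 (B01 (M 5 (L 46 1)) (A02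
  (B12 (A01 (S 1 (L 4 8) (L 31 8)) (A12 (P 13 (L 41 7)) (S 1 (L 4 8) (L 31 8)))) (M 5 (L 46 1)))
  (B12 (A12 (A01 (B01 (M 5 (L 46 1)) (A03 (M 6 (L 43 5)) (P 13 (L 41 7)))) (P 13 (L 41 7))) (A23
  (out 0) (B01 (M 5 (L 46 1)) (A03 (B12 (P 13 (L 41 7)) (M 5 (L 46 1))) (P 13 (L 41 7)))))) (M 5 (L
  46 1))))) (B12 (A02 (B01 (M 5 (L 46 1)) (A01 (S 1 (L 4 8) (L 45 8)) (A12 (B12 (P 13 (L 41 7))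
  (A13 (out 5) (M 5 (L 46 1)))) (S 1 (L 4 8) (L 45 8))))) (B01 (M 5 (L 46 1)) (A12 (A01 (B12 (A03
  (M 6 (L 43 5)) (P 13 (L 41 7))) (M 5 (L 46 1))) (B12 (P 13 (L 41 7)) (A13 (out 5) (M 5 (L 46
  1))))) (A23 (out 0) (B12 (A03 (M 6 (L 43 5)) (P 13 (L 41 7))) (M 5 (L 46 1))))))) (M 5 (L 46
  1))))))) (B02 (B01 (M 5 (A23 (P 15 (L 46 1)) (A13 (P 15 (L 46 1)) (A03 (P 15 (L 46 1)) (out
  5))))) (M 19 (P 15 (A23 (B12 (P 13 (L 41 7)) (M 5 (L 46 1))) (B12 (P 13 (L 41 7)) (M 5 (L 46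
  1))))))) (M 19 (P 15 (B12 (A23 (B01 (M 5 (L 46 1)) (A12 (P 13 (L 41 7)) (A02 (B12 (P 13 (L 41 7))
  (M 5 (L 46 1))) (out 0)))) (B01 (M 5 (L 46 1)) (P 13 (L 41 7)))) (M 5 (L 46 1))))))) (out 5))
  (A03 (A01 (P 10 (M 5 (P 2 (B02 (B01 (A02 (A03 (A01 (B02 (B01 (S 12 (L 38 10) (L 7 10)) (P 15 (L
  46 1))) (P 15 (L 46 1))) (B02 (B01 (S 12 (L 38 10) (L 7 10)) (P 15 (L 46 1))) (P 15 (L 46 1))))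
  (A23 (B02 (B01 (M 1 (L 31 8)) (P 15 (L 46 1))) (P 15 (L 46 1))) (M 1 (L 31 8)))) (A23 (A12 (B02
  (B01 (M 1 (L 31 8)) (P 15 (L 46 1))) (P 15 (L 46 1))) (out 0)) (A03 (B02 (B01 (M 1 (L 31 8)) (P
  15 (L 46 1))) (P 15 (L 46 1))) (M 1 (L 31 8))))) (A02 (B12 (P 15 (L 46 1)) (A03 (P 15 (L 46 1))
  (A23 (P 15 (L 46 1)) (M 1 (L 31 8))))) (B12 (P 15 (L 46 1)) (A23 (P 15 (L 46 1)) (A03 (P 15 (L 46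
  1)) (M 1 (L 31 8))))))) (B12 (A02 (B01 (A03 (P 15 (L 46 1)) (A23 (P 15 (L 46 1)) (B02 (A13 (P 15
  (L 46 1)) (B01 (P 16 (L 49 4)) (P 15 (L 46 1)))) (P 15 (L 46 1))))) (P 15 (L 46 1))) (B01 (A23 (P
  15 (L 46 1)) (A03 (P 15 (L 46 1)) (B02 (A13 (P 15 (L 46 1)) (B01 (P 16 (L 49 4)) (P 15 (L 46
  1)))) (P 15 (L 46 1))))) (P 15 (L 46 1)))) (A02 (A03 (P 15 (L 46 1)) (A23 (P 15 (L 46 1)) (B02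
  (B01 (P 16 (L 49 4)) (P 15 (L 46 1))) (P 15 (L 46 1))))) (A23 (P 15 (L 46 1)) (A03 (P 15 (L 46
  1)) (B02 (B01 (P 16 (L 49 4)) (P 15 (L 46 1))) (P 15 (L 46 1))))))))))) (B02 (B01 (M 5 (P 2 (A12
  (M 1 (A13 (A01 (S 12 (L 38 10) (L 7 10)) (B02 (P 13 (L 40 7)) (P 10 (L 31 8)))) (S 12 (L 38 10)
  (L 7 10)))) (A23 (A02 (S 12 (L 38 10) (L 7 10)) (out 0)) (S 12 (L 38 10) (L 7 10)))))) (M 19 (P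
  10 (A12 (B12 (P 15 (A13 (P 13 (L 41 7)) (M 5 (L 46 1)))) (M 1 (L 31 8))) (M 5 (B12 (P 15 (L 46
  1)) (A23 (P 15 (L 46 1)) (M 1 (L 31 8))))))))) (M 19 (P 10 (B12 (A12 (B01 (M 5 (A13 (P 15 (L 46
  1)) (A23 (P 15 (L 46 1)) (B02 (M 1 (L 31 8)) (P 15 (L 46 1)))))) (P 15 (A13 (P 13 (L 41 7)) (M 5
  (L 46 1))))) (M 5 (B01 (A23 (P 15 (L 46 1)) (A13 (P 15 (L 46 1)) (B02 (M 1 (L 31 8)) (P 15 (L 46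
  1))))) (P 15 (L 46 1))))) (M 5 (A12 (A13 (P 15 (L 46 1)) (A23 (P 15 (L 46 1)) (B02 (B01 (M 1 (L
  31 8)) (P 15 (L 46 1))) (P 15 (L 46 1))))) (A23 (P 15 (L 46 1)) (A13 (P 15 (L 46 1)) (B02 (B01 (P
  16 (L 49 4)) (P 15 (L 46 1))) (P 15 (L 46 1)))))))))))) (A23 (B02 (B01 (M 5 (P 2 (A12 (M 1 (A01
  (S 12 (L 38 10) (L 7 10)) (A13 (B02 (P 13 (L 40 7)) (P 10 (L 31 8))) (S 12 (L 38 10) (L 7 10)))))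
  (A02 (S 12 (L 38 10) (L 7 10)) (out 0))))) (P 10 (A12 (M 1 (L 31 8)) (M 5 (B12 (P 15 (L 46 1))
  (A02 (M 1 (L 31 8)) (out 0))))))) (M 19 (P 10 (B12 (A12 (B01 (M 5 (A01 (A02 (M 1 (L 31 8)) (B02
  (M 1 (L 31 8)) (P 15 (L 46 1)))) (A13 (P 15 (L 46 1)) (B02 (M 1 (L 31 8)) (P 15 (L 46 1)))))) (P
  15 (A01 (M 5 (L 46 1)) (A13 (P 13 (L 41 7)) (M 5 (L 46 1)))))) (M 5 (B01 (A02 (A01 (B02 (M 1 (L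
  31 8)) (P 15 (L 46 1))) (out 0)) (out 0)) (P 15 (L 46 1))))) (M 5 (A12 (A01 (A02 (B02 (M 1 (L 31
  8)) (P 15 (L 46 1))) (B02 (B01 (M 1 (L 31 8)) (P 15 (L 46 1))) (P 15 (L 46 1)))) (A13 (P 15 (L 46
  1)) (B02 (B01 (M 1 (L 31 8)) (P 15 (L 46 1))) (P 15 (L 46 1))))) (A02 (A01 (B02 (B01 (P 16 (L 49
  4)) (P 15 (L 46 1))) (P 15 (L 46 1))) (out 0)) (out 0)))))))) (P 6 (M 1 (B02 (B01 (M 5 (P 2 (A13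
  (A01 (A03 (S 12 (L 38 10) (L 7 10)) (B02 (B01 (A23 (S 12 (L 38 10) (L 18 10)) (A13 (S 12 (L 38
  10) (L 18 10)) (P 12 (L 38 10)))) (P 10 (L 31 8))) (P 10 (L 31 8)))) (A12 (B02 (P 13 (L 40 7)) (P
  10 (L 31 8))) (B02 (B01 (A23 (S 12 (L 38 10) (L 18 10)) (P 13 (L 40 7))) (P 10 (L 31 8))) (P 10
  (L 31 8))))) (A03 (A01 (S 12 (L 38 10) (L 7 10)) (B02 (B01 (P 12 (L 38 10)) (P 10 (L 31 8))) (P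
  10 (L 31 8)))) (A23 (B02 (B01 (P 12 (L 38 10)) (P 10 (L 31 8))) (P 10 (L 31 8))) (P 12 (L 38
  10))))))) (P 10 (L 31 8))) (P 10 (L 31 8)))))))))))))))))) (P 0 (A23 (M 18 (P 4 (M 3 (A02 (A03
  (B12 (A01 (B01 (M 5 (P 2 (A02 (P 6 (M 1 (A03 (B02 (A01 (B01 (A02 (P 12 (L 38 10)) (A12 (P 12 (L
  38 10)) (S 12 (L 38 10) (L 7 10)))) (S 12 (L 38 10) (L 7 10))) (B01 (A12 (P 12 (L 38 10)) (A02 (P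
  12 (L 38 10)) (S 12 (L 38 10) (L 7 10)))) (A12 (A13 (B12 (P 13 (L 40 7)) (P 12 (L 38 10))) (P 10
  (L 31 8))) (S 12 (L 38 10) (L 7 10))))) (A01 (S 12 (L 38 10) (L 18 10)) (A12 (A13 (B12 (B01 (P 10
  (L 31 8)) (P 13 (L 40 7))) (P 10 (L 31 8))) (P 10 (L 31 8))) (S 12 (L 38 10) (L 18 10))))) (B02
  (A13 (B01 (A12 (P 12 (L 38 10)) (S 12 (L 38 10) (L 7 10))) (A12 (A01 (P 10 (L 31 8)) (B12 (A13 (P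
  13 (L 40 7)) (P 10 (L 31 8))) (P 12 (L 38 10)))) (S 12 (L 38 10) (L 7 10)))) (S 12 (L 38 10) (L 7
  10))) (A13 (A12 (A01 (P 10 (L 31 8)) (B12 (B01 (P 10 (L 31 8)) (A13 (P 13 (L 40 7)) (P 10 (L 31
  8)))) (P 10 (L 31 8)))) (S 12 (L 38 10) (L 18 10))) (S 12 (L 38 10) (L 18 10))))))) (A12 (P 6 (M
  1 (B02 (A13 (B01 (A01 (S 12 (L 38 10) (L 7 10)) (A12 (P 12 (L 38 10)) (P 10 (L 31 8)))) (A01 (S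
  12 (L 38 10) (L 7 10)) (A12 (B12 (A13 (P 13 (L 40 7)) (P 10 (L 31 8))) (P 12 (L 38 10))) (P 10 (L
  31 8))))) (S 12 (L 38 10) (L 7 10))) (A13 (A01 (S 12 (L 38 10) (L 18 10)) (A12 (B12 (B01 (P 10 (L
  31 8)) (A13 (P 13 (L 40 7)) (P 10 (L 31 8)))) (P 10 (L 31 8))) (P 10 (L 31 8)))) (S 12 (L 38 10)
  (L 18 10)))))) (P 10 (B02 (A23 (B01 (A02 (S 12 (L 38 10) (L 7 10)) (A12 (S 12 (L 38 10) (L 7 10))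
  (B02 (S 12 (L 38 10) (L 7 10)) (A23 (P 15 (L 46 1)) (S 12 (L 38 10) (L 7 10)))))) (A02 (P 6 (S 12
  (L 38 10) (L 18 10))) (A12 (P 6 (S 12 (L 38 10) (L 18 10))) (P 15 (S 1 (L 4 1) (L 45 1)))))) (S
  12 (L 38 10) (L 7 10))) (A23 (S 13 (L 40 7) (L 13 7)) (A03 (A02 (B12 (P 6 (S 12 (L 38 10) (L 18
  10))) (B02 (M 1 (L 31 8)) (S 1 (L 4 1) (L 31 8)))) (B12 (M 1 (L 31 8)) (B02 (A12 (M 1 (L 31 8))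
  (B01 (P 16 (L 49 4)) (P 15 (L 46 1)))) (P 15 (L 46 1))))) (A13 (B12 (M 1 (L 31 8)) (B02 (A12 (M 1
  (L 31 8)) (B01 (P 16 (L 49 4)) (P 15 (L 46 1)))) (P 15 (L 46 1)))) (B12 (M 1 (L 31 8)) (P 16 (L
  49 4)))))))))))) (A02 (P 6 (M 5 (M 1 (A03 (B12 (A01 (S 12 (L 38 10) (L 18 10)) (B01 (A12 (A13 (P
  13 (L 40 7)) (P 10 (L 31 8))) (S 12 (L 38 10) (L 18 10))) (P 15 (L 45 1)))) (A01 (S 12 (L 38 10)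
  (L 18 10)) (A12 (A13 (B02 (P 13 (L 40 7)) (P 10 (L 31 8))) (P 10 (L 31 8))) (S 12 (L 38 10) (L 18
  10))))) (B12 (A13 (B01 (A12 (A01 (P 10 (L 31 8)) (P 13 (L 40 7))) (S 12 (L 38 10) (L 18 10))) (P
  15 (L 45 1))) (S 12 (L 38 10) (L 18 10))) (A13 (A12 (A01 (P 10 (L 31 8)) (B02 (B01 (A13 (P 13 (L
  40 7)) (P 10 (L 31 8))) (P 10 (L 31 8))) (P 10 (L 31 8)))) (S 12 (L 38 10) (L 18 10))) (S 12 (L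
  38 10) (L 18 10)))))))) (A12 (P 6 (M 5 (M 1 (B12 (A13 (P 13 (L 40 7)) (S 12 (L 38 10) (L 18 10)))
  (A13 (A01 (S 12 (L 38 10) (L 18 10)) (A12 (B02 (B01 (A13 (P 13 (L 40 7)) (P 10 (L 31 8))) (P 10
  (L 31 8))) (P 10 (L 31 8))) (P 10 (L 31 8)))) (S 12 (L 38 10) (L 18 10))))))) (P 10 (B12 (A23 (P
  13 (B01 (M 5 (L 40 7)) (S 1 (L 4 8) (L 31 8)))) (M 5 (B01 (A03 (S 13 (L 40 7) (L 13 7)) (A13 (S 1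
  (L 4 8) (L 31 8)) (B02 (M 1 (L 31 8)) (S 1 (L 4 8) (L 31 8))))) (S 1 (L 4 8) (L 31 8))))) (M 5
  (A23 (S 13 (L 40 7) (L 13 7)) (A03 (S 13 (L 40 7) (L 13 7)) (A13 (S 1 (L 4 8) (L 31 8)) (B02 (B01
  (M 1 (L 31 8)) (S 1 (L 4 8) (L 31 8))) (S 1 (L 4 8) (L 31 8)))))))))))) (B01 (M 5 (P 2 (A12 (P 6
  (M 1 (A13 (B02 (A01 (B01 (A02 (P 12 (L 38 10)) (A12 (P 12 (L 38 10)) (P 10 (L 31 8)))) (A02 (A03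
  (B12 (P 13 (L 40 7)) (P 12 (L 38 10))) (B12 (A13 (P 13 (L 40 7)) (P 10 (L 31 8))) (P 12 (L 38
  10)))) (A12 (B12 (A13 (P 13 (L 40 7)) (P 10 (L 31 8))) (P 12 (L 38 10))) (P 10 (L 31 8))))) (B01
  (A12 (P 12 (L 38 10)) (A02 (P 12 (L 38 10)) (P 10 (L 31 8)))) (A12 (P 12 (L 38 10)) (A02 (B12
  (A03 (P 13 (L 40 7)) (S 12 (L 38 10) (L 18 10))) (P 12 (L 38 10))) (S 12 (L 38 10) (L 7 10))))))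
  (A01 (A02 (A03 (B12 (B01 (P 10 (L 31 8)) (P 13 (L 40 7))) (P 10 (L 31 8))) (B12 (B01 (P 10 (L 31
  8)) (P 13 (L 40 7))) (P 10 (L 31 8)))) (A12 (B12 (B01 (P 10 (L 31 8)) (P 13 (L 40 7))) (P 10 (L
  31 8))) (P 10 (L 31 8)))) (A12 (A13 (P 13 (L 40 7)) (B12 (B01 (P 10 (L 31 8)) (P 13 (L 40 7))) (P
  10 (L 31 8)))) (A02 (B12 (B01 (P 10 (L 31 8)) (P 13 (L 40 7))) (P 10 (L 31 8))) (S 12 (L 38 10)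
  (L 7 10)))))) (B02 (A03 (B01 (A02 (P 12 (L 38 10)) (P 10 (L 31 8))) (A02 (A01 (B12 (A03 (P 13 (L
  40 7)) (P 10 (L 31 8))) (P 12 (L 38 10))) (P 10 (L 31 8))) (P 10 (L 31 8)))) (S 12 (L 38 10) (L 7
  10))) (A03 (A02 (A01 (B12 (B01 (P 10 (L 31 8)) (A03 (P 13 (L 40 7)) (P 10 (L 31 8)))) (P 10 (L 31
  8))) (P 10 (L 31 8))) (P 10 (L 31 8))) (P 10 (L 31 8))))))) (A02 (M 1 (B02 (A03 (B01 (A01 (A02 (P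
  12 (L 38 10)) (P 10 (L 31 8))) (P 10 (L 31 8))) (A01 (A02 (B12 (A03 (P 13 (L 40 7)) (P 10 (L 31
  8))) (P 12 (L 38 10))) (P 10 (L 31 8))) (P 10 (L 31 8)))) (S 12 (L 38 10) (L 7 10))) (A03 (A01
  (A02 (B12 (B01 (P 10 (L 31 8)) (A03 (P 13 (L 40 7)) (P 10 (L 31 8)))) (P 10 (L 31 8))) (P 10 (L
  31 8))) (P 10 (L 31 8))) (P 10 (L 31 8))))) (P 10 (B02 (A23 (B01 (A12 (S 12 (L 38 10) (L 7 10))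
  (A02 (S 12 (L 38 10) (L 7 10)) (B02 (S 12 (L 38 10) (L 7 10)) (A23 (P 15 (L 46 1)) (M 1 (L 31
  8)))))) (A12 (M 1 (L 31 8)) (A02 (M 1 (L 31 8)) (P 15 (L 46 1))))) (S 12 (L 38 10) (L 7 10)))
  (A23 (P 15 (L 46 1)) (A13 (A12 (M 1 (L 31 8)) (B12 (M 1 (L 31 8)) (B02 (A02 (M 1 (L 31 8)) (B01
  (P 16 (L 49 4)) (P 15 (L 46 1)))) (P 15 (L 46 1))))) (A03 (B12 (M 1 (L 31 8)) (B02 (A02 (M 1 (L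
  31 8)) (B01 (P 16 (L 49 4)) (P 15 (L 46 1)))) (P 15 (L 46 1)))) (B12 (M 1 (L 31 8)) (P 16 (L 49
  4)))))))))))) (A12 (P 6 (M 1 (A13 (B12 (P 13 (A01 (B01 (M 5 (L 40 7)) (P 15 (L 45 1))) (B01 (M 5
  (L 40 7)) (A12 (S 12 (L 38 10) (L 18 10)) (P 15 (L 45 1)))))) (M 5 (A01 (A02 (A03 (P 13 (L 40 7))
  (B02 (P 13 (L 40 7)) (P 10 (L 31 8)))) (A12 (B02 (P 13 (L 40 7)) (P 10 (L 31 8))) (P 10 (L 31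
  8)))) (A12 (A13 (P 13 (L 40 7)) (B02 (P 13 (L 40 7)) (P 10 (L 31 8)))) (A02 (B02 (P 13 (L 40 7))
  (P 10 (L 31 8))) (S 13 (L 40 7) (L 13 7))))))) (B12 (A03 (P 13 (B01 (M 5 (L 40 7)) (P 15 (L 45
  1)))) (P 10 (K [(31,8,16),(31,2,8)] []))) (M 5 (A03 (A02 (A01 (B02 (B01 (A03 (P 13 (L 40 7)) (P
  10 (L 31 8))) (P 10 (L 31 8))) (P 10 (L 31 8))) (P 10 (L 31 8))) (P 10 (L 31 8))) (P 10 (L 31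
  8)))))))) (A02 (M 1 (B12 (A03 (P 13 (B01 (M 5 (L 40 7)) (P 15 (L 45 1)))) (P 10 (K
  [(31,8,6),(31,2,2)] []))) (M 5 (A03 (A01 (A02 (B02 (B01 (A03 (P 13 (L 40 7)) (P 10 (L 31 8))) (P
  10 (L 31 8))) (P 10 (L 31 8))) (P 10 (L 31 8))) (P 10 (L 31 8))) (P 10 (L 31 8)))))) (M 19 (P 10
  (B12 (A23 (P 15 (P 13 (B01 (M 5 (L 40 7)) (A12 (A13 (B12 (M 1 (K [(31,8,4),(41,11,2),(45,1,1)]
  [])) (A01 (S 1 (L 4 8) (L 31 8)) (A12 (M 5 (L 40 7)) (S 1 (L 4 8) (L 31 8))))) (S 1 (L 4 8) (L 31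
  8))) (S 1 (L 4 8) (L 31 8)))))) (B01 (M 5 (A13 (P 13 (L 40 7)) (A03 (P 13 (L 40 7)) (B02 (M 1 (L
  31 8)) (S 1 (L 4 8) (L 31 8)))))) (M 12 (A13 (P 13 (A12 (P 6 (M 1 (K
  [(31,8,4),(18,10,2),(41,11,2)] []))) (S 1 (L 4 8) (L 31 8)))) (S 1 (L 4 8) (L 31 8)))))) (A23 (S
  1 (L 4 8) (L 31 8)) (A13 (S 1 (L 4 8) (L 31 8)) (A03 (S 1 (L 4 8) (L 31 8)) (B02 (B01 (M 1 (L 31
  8)) (S 1 (L 4 8) (L 31 8))) (S 1 (L 4 8) (L 31 8))))))))))))) (M 5 (P 2 (A01 (A02 (A03 (P 6 (B02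
  (B01 (A01 (A02 (P 12 (L 38 10)) (A12 (P 12 (L 38 10)) (P 16 (L 49 4)))) (A12 (P 12 (L 38 10))
  (A02 (P 12 (L 38 10)) (P 16 (L 49 4))))) (S 12 (L 38 10) (L 18 10))) (M 19 (S 13 (L 41 7) (L 13
  7))))) (B02 (M 1 (B01 (A13 (A12 (P 12 (L 38 10)) (P 16 (L 49 4))) (P 16 (L 49 4))) (P 10 (L 31
  8)))) (P 10 (B12 (A13 (M 1 (L 31 8)) (P 16 (L 49 4))) (P 16 (L 49 4)))))) (A12 (B02 (M 1 (B01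
  (A13 (A01 (P 16 (L 49 4)) (A12 (P 12 (L 38 10)) (P 10 (L 31 8)))) (P 16 (L 49 4))) (P 10 (L 31
  8)))) (P 10 (B12 (A13 (M 1 (L 31 8)) (B01 (P 16 (L 49 4)) (A03 (M 1 (L 31 8)) (A23 (M 1 (L 31 8))
  (P 16 (L 49 4)))))) (P 16 (L 49 4))))) (P 10 (B02 (B01 (P 16 (L 49 4)) (A23 (B12 (S 1 (L 4 8) (L
  31 8)) (P 16 (L 49 4))) (B12 (A03 (A02 (B01 (P 16 (L 49 4)) (A01 (P 16 (L 49 4)) (B12 (P 15 (L 46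
  1)) (P 16 (L 49 4))))) (B01 (P 16 (L 49 4)) (A12 (B12 (P 15 (L 46 1)) (P 16 (L 49 4))) (P 16 (L
  49 4))))) (A13 (B01 (P 16 (L 49 4)) (A12 (B12 (P 15 (L 46 1)) (P 16 (L 49 4))) (P 16 (L 49 4))))
  (P 16 (L 49 4)))) (P 16 (L 49 4))))) (B12 (A23 (B01 (P 16 (L 49 4)) (S 1 (L 4 8) (L 31 8))) (B01
  (P 16 (L 49 4)) (A03 (A02 (B12 (A01 (P 16 (L 49 4)) (B01 (P 16 (L 49 4)) (P 15 (L 46 1)))) (P 16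
  (L 49 4))) (B12 (A12 (B01 (P 16 (L 49 4)) (P 15 (L 46 1))) (P 16 (L 49 4))) (P 16 (L 49 4))))
  (A13 (B12 (A12 (B01 (P 16 (L 49 4)) (P 15 (L 46 1))) (P 16 (L 49 4))) (P 16 (L 49 4))) (P 16 (L
  49 4)))))) (P 16 (L 49 4))))))) (A12 (A13 (M 1 (B02 (B01 (A01 (A02 (P 12 (L 38 10)) (A12 (P 12 (L
  38 10)) (P 10 (L 31 8)))) (A12 (P 12 (L 38 10)) (A02 (P 12 (L 38 10)) (P 10 (L 31 8))))) (P 10 (L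
  31 8))) (P 10 (L 31 8)))) (B02 (M 1 (B01 (A03 (A02 (P 12 (L 38 10)) (P 10 (L 31 8))) (S 12 (L 38
  10) (L 7 10))) (P 10 (L 31 8)))) (P 10 (B12 (A03 (M 1 (L 31 8)) (B01 (P 16 (L 49 4)) (A23 (M 1 (L
  31 8)) (P 16 (L 49 4))))) (P 16 (L 49 4)))))) (A02 (B02 (M 1 (B01 (A03 (A01 (A02 (P 12 (L 38 10))
  (P 10 (L 31 8))) (P 10 (L 31 8))) (S 12 (L 38 10) (L 7 10))) (P 10 (L 31 8)))) (P 10 (B12 (A03 (M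
  1 (L 31 8)) (B01 (P 16 (L 49 4)) (A13 (M 1 (L 31 8)) (A23 (M 1 (L 31 8)) (P 16 (L 49 4)))))) (P
  16 (L 49 4))))) (P 10 (B02 (B01 (A23 (A12 (S 12 (L 38 10) (L 7 10)) (P 16 (L 49 4))) (S 12 (L 38
  10) (L 7 10))) (A23 (B12 (P 15 (L 46 1)) (A12 (A13 (M 1 (L 31 8)) (P 16 (L 49 4))) (P 16 (L 49
  4)))) (B12 (A13 (A12 (M 1 (L 31 8)) (B01 (P 16 (L 49 4)) (P 15 (L 46 1)))) (A03 (B01 (P 16 (L 49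
  4)) (P 15 (L 46 1))) (P 16 (L 49 4)))) (A13 (A12 (M 1 (L 31 8)) (P 16 (L 49 4))) (P 16 (L 49
  4)))))) (B12 (A23 (B01 (P 16 (L 49 4)) (P 15 (L 46 1))) (B01 (P 16 (L 49 4)) (A13 (P 15 (L 46 1))
  (A03 (P 15 (L 46 1)) (P 16 (L 49 4)))))) (P 16 (L 49 4))))))))))) (B12 (A13 (B01 (M 5 (P 2 (A12
  (P 6 (A01 (S 12 (L 38 10) (L 7 10)) (B02 (A13 (B01 (A12 (P 12 (L 38 10)) (S 12 (L 38 10) (L 7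
  10))) (A12 (P 12 (L 38 10)) (S 12 (L 38 10) (L 7 10)))) (S 12 (L 38 10) (L 7 10))) (A13 (A12 (A01
  (S 12 (L 38 10) (L 7 10)) (B12 (B01 (A13 (P 13 (L 40 7)) (S 12 (L 38 10) (L 18 10))) (P 13 (L 40
  7))) (B02 (A13 (P 13 (L 40 7)) (S 12 (L 38 10) (L 18 10))) (P 13 (L 40 7))))) (S 12 (L 38 10) (L
  7 10))) (S 12 (L 38 10) (L 7 10)))))) (P 10 (A23 (B02 (A02 (S 12 (L 38 10) (L 7 10)) (B01 (A12 (S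
  12 (L 38 10) (L 7 10)) (A23 (B02 (S 12 (L 38 10) (L 7 10)) (A02 (M 1 (L 31 8)) (P 15 (L 46 1))))
  (S 12 (L 38 10) (L 7 10)))) (A12 (M 1 (L 31 8)) (P 15 (L 46 1))))) (A02 (A01 (A03 (B12 (M 1 (L 31
  8)) (P 16 (L 49 4))) (B12 (M 1 (L 31 8)) (B02 (A23 (P 16 (L 49 4)) (M 1 (L 31 8))) (P 15 (L 46
  1))))) (A12 (B12 (M 1 (L 31 8)) (B02 (M 1 (L 31 8)) (P 15 (L 46 1)))) (B12 (M 1 (L 31 8)) (B02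
  (A23 (B01 (P 16 (L 49 4)) (P 15 (L 46 1))) (M 1 (L 31 8))) (P 15 (L 46 1)))))) (P 15 (L 46 1))))
  (B02 (S 12 (L 38 10) (L 7 10)) (A03 (A01 (A02 (B12 (M 1 (L 31 8)) (P 16 (L 49 4))) (B12 (M 1 (L
  31 8)) (B02 (M 1 (L 31 8)) (P 15 (L 46 1))))) (A13 (B12 (M 1 (L 31 8)) (B02 (M 1 (L 31 8)) (P 15
  (L 46 1)))) (B12 (M 1 (L 31 8)) (B02 (M 1 (L 31 8)) (P 15 (L 46 1)))))) (A13 (A01 (B12 (S 12 (L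
  38 10) (L 7 10)) (B02 (M 1 (L 31 8)) (P 15 (L 46 1)))) (B12 (S 12 (L 38 10) (L 7 10)) (B02 (M 1
  (L 31 8)) (P 15 (L 46 1))))) (out 0))))))))) (A12 (P 6 (M 1 (A01 (M 19 (P 10 (B12 (A03 (K
  [(31,8,14),(31,2,10)] []) (B01 (M 5 (S 13 (L 40 7) (L 13 7))) (P 15 (P 13 (M 12 (K
  [(41,7,1),(18,10,3),(31,2,1),(45,8,3)] [])))))) (M 5 (S 13 (L 40 7) (L 13 7)))))) (B12 (P 13 (A13
  (B01 (M 5 (L 40 7)) (A12 (S 12 (L 38 10) (L 18 10)) (P 15 (L 45 1)))) (B01 (M 5 (L 40 7)) (P 15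
  (A23 (K [(45,1,14),(45,8,10)] []) (M 5 (K [(46,1,4),(45,1,1),(40,3,2)] []))))))) (M 5 (A13 (A12
  (A01 (S 12 (L 38 10) (L 18 10)) (P 13 (L 40 7))) (S 13 (L 40 7) (L 13 7))) (S 13 (L 40 7) (L 13
  7)))))))) (M 19 (P 10 (A23 (B12 (A02 (B01 (M 5 (A01 (A03 (B02 (M 1 (L 31 8)) (S 1 (L 4 8) (L 31
  8))) (S 1 (L 4 8) (L 31 8))) (P 13 (L 40 7)))) (P 15 (A01 (S 1 (L 4 8) (L 31 8)) (P 13 (A12 (M 1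
  (K [(31,8,6),(45,1,1),(41,11,1)] [])) (S 1 (L 4 8) (L 31 8))))))) (P 15 (P 13 (B01 (M 5 (L 40 7))
  (A12 (A01 (S 1 (L 4 8) (L 31 8)) (B12 (M 1 (K [(31,8,6),(41,11,1),(45,1,1)] [])) (A13 (A12 (P 6
  (M 5 (K [(20,5,2),(40,7,4),(46,3,1)] []))) (S 1 (L 4 8) (L 31 8))) (S 1 (L 4 8) (L 31 8))))) (S 1
  (L 4 8) (L 45 8))))))) (A02 (A01 (A03 (B02 (B01 (M 1 (L 31 8)) (S 1 (L 4 8) (L 31 8))) (S 1 (L 4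
  8) (L 31 8))) (S 1 (L 4 8) (L 31 8))) (S 1 (L 4 8) (L 31 8))) (S 1 (L 4 8) (L 31 8)))) (B12 (P 6
  (M 1 (A03 (K [(31,8,6),(31,2,2)] []) (B01 (M 5 (S 13 (L 40 7) (L 13 7))) (M 16 (P 15 (K
  [(32,4,1),(45,8,7),(20,5,4),(31,2,6),(45,1,6)] []))))))) (M 5 (P 2 (A03 (A01 (A02 (B02 (M 1 (L 31
  8)) (P 15 (L 46 1))) (B02 (M 1 (L 31 8)) (P 15 (L 46 1)))) (A13 (S 1 (L 4 8) (L 31 8)) (B02 (M 1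
  (L 31 8)) (P 15 (L 46 1))))) (A13 (A01 (B02 (S 12 (L 38 10) (L 7 10)) (P 15 (L 46 1))) (S 13 (L
  41 7) (L 13 7))) (out 0))))))))))) (P 10 (B01 (M 5 (A23 (A12 (B02 (A01 (B01 (P 16 (L 49 4)) (A03
  (M 1 (L 31 8)) (out 0))) (out 0)) (A01 (A03 (A02 (P 16 (L 49 4)) (B12 (M 1 (L 31 8)) (B02 (A12 (P
  16 (L 49 4)) (P 15 (L 46 1))) (P 15 (L 46 1))))) (out 0)) (out 0))) (B02 (A02 (B01 (P 16 (L 49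
  4)) (A03 (M 1 (L 31 8)) (A23 (B12 (M 1 (L 31 8)) (P 16 (L 49 4))) (out 0)))) (B01 (P 16 (L 49 4))
  (P 15 (L 46 1)))) (A02 (A03 (A01 (B12 (M 1 (L 31 8)) (P 16 (L 49 4))) (P 15 (L 46 1))) (P 15 (L
  46 1))) (P 15 (L 46 1))))) (A03 (B02 (A01 (P 16 (L 49 4)) (out 0)) (A01 (P 16 (L 49 4)) (out 0)))
  (out 0)))) (A23 (A12 (M 5 (B12 (A01 (B01 (A03 (A02 (B02 (M 1 (L 31 8)) (P 15 (L 46 1))) (B02 (M 1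
  (L 31 8)) (P 15 (L 46 1)))) (out 0)) (S 1 (L 4 8) (L 31 8))) (out 0)) (A01 (A03 (A02 (B02 (B01 (M
  1 (L 31 8)) (P 15 (L 46 1))) (P 15 (L 46 1))) (B02 (B01 (M 1 (L 31 8)) (P 15 (L 46 1))) (P 15 (L
  46 1)))) (out 0)) (out 0)))) (B12 (A02 (B01 (A03 (A01 (B02 (M 1 (L 31 8)) (S 1 (L 4 8) (L 31 8)))
  (S 1 (L 4 8) (L 31 8))) (S 1 (L 4 8) (L 31 8))) (S 1 (L 4 8) (L 31 8))) (P 15 (B01 (S 1 (L 4 8)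
  (L 31 8)) (S 1 (L 4 8) (L 45 8))))) (A02 (A03 (A01 (B02 (B01 (M 1 (L 31 8)) (S 1 (L 4 8) (L 31
  8))) (S 1 (L 4 8) (L 31 8))) (S 1 (L 4 8) (L 31 8))) (S 1 (L 4 8) (L 31 8))) (S 1 (L 4 8) (L 31
  8))))) (M 5 (A03 (B12 (A01 (B01 (A02 (A03 (B02 (M 1 (L 31 8)) (P 15 (L 46 1))) (out 0)) (out 0))
  (S 1 (L 4 8) (L 31 8))) (out 0)) (A01 (A02 (A03 (B02 (B01 (P 16 (L 49 4)) (P 15 (L 46 1))) (P 15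
  (L 46 1))) (out 0)) (out 0)) (out 0))) (out 0))))))) (M 5 (P 2 (A13 (A12 (A01 (P 10 (B02 (S 12 (L
  38 10) (L 7 10)) (B12 (A03 (B01 (P 16 (L 49 4)) (A02 (P 16 (L 49 4)) (A23 (M 1 (L 31 8)) (P 16 (L
  49 4))))) (B01 (P 16 (L 49 4)) (A23 (A02 (B12 (M 1 (L 31 8)) (P 16 (L 49 4))) (M 1 (L 31 8)))
  (A13 (B12 (M 1 (L 31 8)) (P 16 (L 49 4))) (out 0))))) (P 16 (L 49 4))))) (B02 (M 1 (B01 (A13 (A12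
  (P 12 (L 38 10)) (S 12 (L 38 10) (L 7 10))) (S 12 (L 38 10) (L 7 10))) (P 10 (L 31 8)))) (P 10
  (B12 (M 1 (L 31 8)) (A13 (M 1 (L 31 8)) (P 16 (L 49 4))))))) (P 10 (A23 (B02 (B01 (A02 (S 12 (L
  38 10) (L 7 10)) (A12 (S 12 (L 38 10) (L 7 10)) (P 16 (L 49 4)))) (A02 (B12 (A01 (P 16 (L 49 4))
  (A12 (B01 (A13 (M 1 (L 31 8)) (P 16 (L 49 4))) (P 15 (L 46 1))) (P 16 (L 49 4)))) (A01 (P 16 (L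
  49 4)) (A12 (B02 (A13 (M 1 (L 31 8)) (P 16 (L 49 4))) (P 16 (L 49 4))) (P 16 (L 49 4))))) (B12 (P
  15 (L 46 1)) (A12 (A01 (P 16 (L 49 4)) (B02 (P 15 (L 46 1)) (P 16 (L 49 4)))) (P 16 (L 49 4))))))
  (B12 (A02 (B01 (P 16 (L 49 4)) (A01 (P 16 (L 49 4)) (P 15 (L 46 1)))) (B01 (P 16 (L 49 4)) (P 15
  (L 46 1)))) (P 16 (L 49 4)))) (B02 (B01 (S 12 (L 38 10) (L 7 10)) (A03 (B12 (A01 (P 16 (L 49 4))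
  (A13 (B01 (A12 (M 1 (L 31 8)) (P 16 (L 49 4))) (P 15 (L 46 1))) (P 16 (L 49 4)))) (A01 (P 16 (L
  49 4)) (A13 (B02 (A12 (M 1 (L 31 8)) (P 16 (L 49 4))) (P 16 (L 49 4))) (P 16 (L 49 4))))) (B12
  (A13 (A01 (B01 (P 16 (L 49 4)) (A02 (M 1 (L 31 8)) (P 15 (L 46 1)))) (B01 (A12 (M 1 (L 31 8)) (P
  16 (L 49 4))) (P 15 (L 46 1)))) (out 0)) (A13 (A01 (P 16 (L 49 4)) (B02 (A12 (M 1 (L 31 8)) (P 16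
  (L 49 4))) (P 16 (L 49 4)))) (out 0))))) (B12 (A03 (B01 (P 16 (L 49 4)) (A01 (P 16 (L 49 4)) (A13
  (P 15 (L 46 1)) (P 16 (L 49 4))))) (B01 (P 16 (L 49 4)) (A13 (A01 (B12 (A02 (B01 (P 16 (L 49 4))
  (P 15 (L 46 1))) (P 15 (L 46 1))) (P 16 (L 49 4))) (P 15 (L 46 1))) (out 0)))) (P 16 (L 49
  4))))))) (P 16 (L 49 4))))))) (A12 (B12 (A13 (B01 (M 5 (P 2 (A01 (P 10 (A03 (B02 (A02 (B01 (A01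
  (A03 (B02 (S 12 (L 38 10) (L 7 10)) (P 15 (L 46 1))) (B02 (M 1 (L 31 8)) (P 15 (L 46 1)))) (A12
  (M 1 (L 31 8)) (B02 (M 1 (L 31 8)) (P 15 (L 46 1))))) (A01 (P 15 (L 46 1)) (A12 (M 1 (L 31 8)) (P
  15 (L 46 1))))) (B01 (A12 (A01 (B02 (M 1 (L 31 8)) (P 15 (L 46 1))) (M 1 (L 31 8))) (out 0)) (A12
  (A01 (P 15 (L 46 1)) (S 12 (L 38 10) (L 7 10))) (out 0)))) (P 15 (L 46 1))) (B02 (S 12 (L 38 10)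
  (L 7 10)) (A23 (P 15 (L 46 1)) (A13 (A12 (B12 (S 12 (L 38 10) (L 7 10)) (B02 (M 1 (L 31 8)) (P 15
  (L 46 1)))) (out 0)) (out 0)))))) (A12 (P 6 (B02 (A13 (B01 (A01 (S 12 (L 38 10) (L 7 10)) (A12 (P
  12 (L 38 10)) (S 12 (L 38 10) (L 18 10)))) (A01 (S 12 (L 38 10) (L 18 10)) (A12 (P 12 (L 38 10))
  (B12 (P 13 (L 40 7)) (S 12 (L 38 10) (L 18 10)))))) (S 12 (L 38 10) (L 7 10))) (A13 (A01 (S 12 (L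
  38 10) (L 7 10)) (A12 (B12 (B01 (A13 (P 13 (L 40 7)) (S 12 (L 38 10) (L 18 10))) (P 13 (L 40 7)))
  (B02 (A13 (P 13 (L 40 7)) (S 12 (L 38 10) (L 18 10))) (P 13 (L 40 7)))) (B12 (B01 (S 12 (L 38 10)
  (L 18 10)) (P 13 (L 40 7))) (S 12 (L 38 10) (L 7 10))))) (S 12 (L 38 10) (L 7 10))))) (B02 (S 12
  (L 38 10) (L 7 10)) (A23 (P 15 (L 46 1)) (S 12 (L 38 10) (L 7 10)))))))) (A01 (M 19 (P 10 (A03 (P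
  15 (M 12 (B12 (M 16 (P 13 (A02 (B01 (A01 (S 1 (L 4 8) (L 31 8)) (A12 (M 5 (L 40 7)) (S 1 (L 4 8)
  (L 31 8)))) (A01 (S 1 (L 4 8) (L 45 8)) (A12 (B12 (P 6 (M 1 (K [(20,5,6),(41,11,1),(45,1,1)]
  []))) (A13 (A01 (S 1 (L 4 8) (L 31 8)) (M 1 (K [(31,8,6),(45,1,2)] []))) (S 1 (L 4 8) (L 31 8))))
  (S 1 (L 4 8) (L 45 8))))) (B01 (A12 (A01 (L 41 7) (P 2 (M 1 (K
  [(7,10,1),(45,8,3),(45,1,3),(31,2,1)] [])))) (out 0)) (A12 (A01 (S 1 (L 4 8) (L 45 8)) (M 1 (K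
  [(31,8,7),(41,7,6),(32,2,8),(31,2,2),(45,1,1)] []))) (out 0)))))) (A02 (A01 (A03 (B02 (P 13 (L 41
  7)) (B12 (P 13 (L 41 7)) (S 1 (L 4 8) (L 45 8)))) (B02 (P 13 (L 41 7)) (B12 (P 13 (L 41 7)) (S 1
  (L 4 8) (L 31 8))))) (A12 (S 1 (L 4 8) (L 31 8)) (B02 (P 13 (L 41 7)) (B12 (P 13 (L 41 7)) (S 1
  (L 4 8) (L 31 8)))))) (A12 (A01 (B02 (P 13 (L 41 7)) (B12 (P 13 (L 41 7)) (M 5 (L 46 1)))) (S 13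
  (L 41 7) (L 13 7))) (out 0)))))) (B12 (M 16 (P 13 (A23 (P 15 (B01 (A12 (M 5 (M 1 (K
  [(46,1,9),(31,8,1),(45,8,6),(45,1,8)] []))) (out 0)) (A12 (M 1 (K
  [(45,8,1),(32,4,3),(31,8,9),(31,2,9),(41,11,2)] [])) (out 0)))) (M 1 (K
  [(41,7,16),(31,8,17),(31,2,22),(41,11,8)] []))))) (A23 (A12 (S 13 (L 41 7) (L 13 7)) (out 0))
  (A13 (S 13 (L 41 7) (L 13 7)) (out 0))))))) (A12 (P 6 (M 1 (B12 (P 13 (A13 (B01 (M 5 (P 2 (A01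
  (A03 (B02 (S 12 (L 38 10) (L 18 10)) (P 15 (K [(46,1,5),(40,7,2),(45,8,1)] []))) (S 12 (L 38 10)
  (L 7 10))) (S 10 (L 31 2) (L 2 2))))) (A01 (P 15 (K [(45,1,13),(45,8,11)] [])) (A12 (S 10 (L 31
  2) (L 2 2)) (S 10 (L 31 2) (L 2 2))))) (B01 (M 19 (M 5 (K [(40,7,2),(41,7,3),(41,11,2)] []))) (P
  15 (A03 (K [(45,1,13),(45,8,11)] []) (out 0)))))) (M 5 (P 2 (A13 (P 13 (A01 (M 19 (K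
  [(40,7,3),(41,7,5)] [])) (S 12 (L 38 10) (L 7 10)))) (M 19 (S 13 (L 41 7) (L 13 7))))))))) (B12
  (P 13 (A23 (P 15 (M 12 (B01 (P 10 (A02 (P 2 (M 1 (K [(7,10,9),(45,8,6),(45,1,8),(31,8,1)] [])))
  (out 0))) (A02 (M 1 (A03 (K [(45,8,13),(45,1,11)] []) (out 0))) (out 0))))) (P 6 (M 1 (B01 (M 19
  (M 5 (K [(41,7,3),(40,7,2),(20,11,1),(41,11,1)] []))) (P 15 (A03 (A02 (K [(45,8,4),(45,1,4)] [])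
  (out 0)) (out 0)))))))) (M 19 (A23 (P 13 (L 41 7)) (S 13 (L 41 7) (L 13 7)))))))) (M 19 (P 10
  (B01 (M 5 (P 2 (A03 (A01 (B02 (A02 (B01 (A03 (A01 (B02 (S 12 (L 38 10) (L 7 10)) (P 15 (L 46 1)))
  (B02 (M 1 (L 31 8)) (P 15 (L 46 1)))) (out 0)) (P 15 (L 46 1))) (out 0)) (P 15 (L 46 1))) (out
  0)) (out 0)))) (A03 (A01 (P 15 (B12 (A02 (B01 (A03 (P 13 (L 41 7)) (out 0)) (S 1 (L 4 8) (L 45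
  8))) (out 0)) (A02 (A03 (A01 (B02 (B01 (S 1 (L 4 8) (L 45 8)) (M 6 (L 43 5))) (M 6 (L 43 5)))
  (B02 (B01 (M 5 (L 46 1)) (A12 (S 1 (L 4 8) (L 31 8)) (B12 (P 13 (L 41 7)) (M 5 (L 46 1))))) (B12
  (A12 (S 1 (L 4 8) (L 31 8)) (M 6 (L 43 5))) (M 5 (L 46 1))))) (out 0)) (out 0)))) (out 0)) (out
  0)))))) (M 5 (P 2 (A13 (A01 (P 10 (A03 (B02 (B01 (A02 (A01 (P 16 (L 49 4)) (A12 (M 1 (L 31 8))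
  (B02 (B01 (P 16 (L 49 4)) (A23 (P 15 (L 46 1)) (M 1 (L 31 8)))) (B12 (A23 (P 15 (L 46 1)) (M 1 (L
  31 8))) (P 16 (L 49 4)))))) (A12 (A01 (B02 (B01 (M 1 (L 31 8)) (A03 (P 15 (L 46 1)) (M 1 (L 31
  8)))) (B12 (A03 (P 15 (L 46 1)) (M 1 (L 31 8))) (P 16 (L 49 4)))) (M 1 (L 31 8))) (out 0))) (A02
  (B12 (P 15 (L 46 1)) (A01 (P 16 (L 49 4)) (A12 (B02 (P 15 (L 46 1)) (P 16 (L 49 4))) (P 15 (L 46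
  1))))) (B12 (P 15 (L 46 1)) (A12 (A01 (P 15 (L 46 1)) (B02 (P 15 (L 46 1)) (P 16 (L 49 4)))) (out
  0))))) (B12 (A02 (B01 (P 16 (L 49 4)) (P 15 (L 46 1))) (B01 (A12 (P 16 (L 49 4)) (out 0)) (P 15
  (L 46 1)))) (P 16 (L 49 4)))) (B02 (B01 (A23 (A12 (M 1 (L 31 8)) (out 0)) (S 12 (L 38 10) (L 7
  10))) (A23 (B12 (P 15 (L 46 1)) (A12 (A13 (B02 (P 15 (L 46 1)) (P 16 (L 49 4))) (out 0)) (out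
  0))) (B12 (A13 (A12 (B01 (A01 (A03 (P 15 (L 46 1)) (M 1 (L 31 8))) (M 1 (L 31 8))) (P 15 (L 46
  1))) (out 0)) (out 0)) (A13 (A12 (B02 (A01 (P 16 (L 49 4)) (M 1 (L 31 8))) (P 16 (L 49 4))) (out
  0)) (out 0))))) (B12 (A23 (B01 (A12 (P 16 (L 49 4)) (out 0)) (P 15 (L 46 1))) (B01 (P 16 (L 49
  4)) (P 15 (L 46 1)))) (P 16 (L 49 4)))))) (A12 (B02 (M 1 (B01 (A13 (A01 (S 12 (L 38 10) (L 7 10))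
  (A12 (P 12 (L 38 10)) (S 12 (L 38 10) (L 7 10)))) (S 12 (L 38 10) (L 7 10))) (P 10 (L 31 8)))) (P
  10 (B12 (M 1 (L 31 8)) (A13 (M 1 (L 31 8)) (P 16 (L 49 4)))))) (P 10 (B02 (B01 (A23 (A02 (S 12 (L
  38 10) (L 7 10)) (out 0)) (S 12 (L 38 10) (L 7 10))) (A23 (B12 (P 15 (L 46 1)) (A02 (M 1 (L 31
  8)) (out 0))) (M 1 (L 31 8)))) (B12 (A23 (B01 (A02 (A03 (B02 (M 1 (L 31 8)) (P 15 (L 46 1))) (out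
  0)) (out 0)) (P 15 (L 46 1))) (B01 (A03 (A02 (B02 (M 1 (L 31 8)) (P 15 (L 46 1))) (out 0)) (out
  0)) (P 15 (L 46 1)))) (P 16 (L 49 4))))))) (A03 (A01 (B02 (B01 (A02 (P 16 (L 49 4)) (out 0)) (P
  15 (L 46 1))) (P 15 (L 46 1))) (out 0)) (out 0)))))) (M 19 (B12 (A23 (P 15 (B01 (A02 (A03 (B02
  (A01 (B01 (M 5 (L 46 1)) (A02 (M 5 (L 46 1)) (out 0))) (out 0)) (A01 (A02 (M 5 (L 46 1)) (out 0))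
  (out 0))) (out 0)) (out 0)) (A02 (A03 (B12 (S 1 (L 4 8) (L 45 8)) (A01 (A02 (A03 (B02 (P 13 (L 41
  7)) (M 6 (L 43 5))) (out 0)) (out 0)) (out 0))) (out 0)) (out 0)))) (B01 (M 5 (A03 (A02 (B02 (A01
  (B01 (A03 (P 15 (L 46 1)) (out 0)) (P 15 (L 46 1))) (out 0)) (P 15 (L 46 1))) (out 0)) (out 0)))
  (P 15 (A03 (A02 (B12 (A01 (B01 (A03 (P 13 (L 41 7)) (out 0)) (M 6 (L 43 5))) (out 0)) (A01 (A03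
  (A02 (B02 (B01 (S 1 (L 4 8) (L 45 8)) (M 6 (L 43 5))) (M 6 (L 43 5))) (out 0)) (out 0)) (out 0)))
  (out 0)) (out 0))))) (A23 (P 15 (A02 (A03 (B02 (B01 (M 5 (L 46 1)) (A01 (M 6 (L 43 5)) (out 0)))
  (M 6 (L 43 5))) (out 0)) (out 0))) (M 5 (A03 (A02 (B02 (B01 (A01 (P 16 (L 49 4)) (out 0)) (P 15
  (L 46 1))) (M 6 (L 43 5))) (out 0)) (out 0))))))))))) (M 5 (P 2 (A03 (M 18 (A02 (B12 (P 6 (M 3 (M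
  1 (A01 (B01 (A03 (A02 (P 12 (L 38 10)) (B02 (P 12 (L 38 10)) (A12 (A13 (A01 (P 10 (L 31 8)) (B12
  (P 12 (L 38 10)) (P 10 (L 31 8)))) (P 10 (L 31 8))) (P 10 (L 31 8))))) (A13 (B02 (P 12 (L 38 10))
  (A12 (A01 (P 10 (L 31 8)) (A13 (B12 (P 12 (L 38 10)) (P 10 (L 31 8))) (P 10 (L 31 8)))) (P 10 (L
  31 8)))) (P 16 (L 49 4)))) (A03 (A02 (B12 (A01 (P 10 (L 31 8)) (B01 (A13 (A12 (P 13 (L 40 7)) (P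
  10 (L 31 8))) (P 10 (L 31 8))) (A13 (A12 (P 13 (L 40 7)) (P 10 (L 31 8))) (P 10 (L 31 8))))) (A01
  (P 10 (L 31 8)) (A13 (A12 (B02 (B01 (A01 (P 10 (L 31 8)) (A13 (P 13 (L 40 7)) (P 10 (L 31 8))))
  (P 10 (L 31 8))) (P 10 (L 31 8))) (P 10 (L 31 8))) (P 10 (L 31 8))))) (B12 (A12 (B01 (A13 (A01 (P
  10 (L 31 8)) (P 13 (L 40 7))) (P 10 (L 31 8))) (A13 (A01 (P 10 (L 31 8)) (P 13 (L 40 7))) (P 10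
  (L 31 8)))) (P 10 (L 31 8))) (A12 (A13 (A01 (P 10 (L 31 8)) (B02 (B01 (A12 (A13 (P 13 (L 40 7))
  (P 10 (L 31 8))) (P 10 (L 31 8))) (P 10 (L 31 8))) (P 10 (L 31 8)))) (P 10 (L 31 8))) (P 10 (L 31
  8))))) (A13 (B12 (A12 (B01 (A01 (P 10 (L 31 8)) (A13 (P 13 (L 40 7)) (P 10 (L 31 8)))) (A01 (P 10
  (L 31 8)) (A13 (P 13 (L 40 7)) (P 10 (L 31 8))))) (P 10 (L 31 8))) (A12 (A01 (P 10 (L 31 8)) (A13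
  (B02 (B01 (A12 (A01 (P 10 (L 31 8)) (P 13 (L 40 7))) (P 10 (L 31 8))) (P 10 (L 31 8))) (P 10 (L
  31 8))) (P 10 (L 31 8)))) (P 10 (L 31 8)))) (P 10 (L 31 8))))) (B01 (A13 (A12 (B02 (P 12 (L 38
  10)) (A01 (A03 (A02 (B12 (P 12 (L 38 10)) (P 10 (L 31 8))) (B12 (P 12 (L 38 10)) (P 10 (L 31
  8)))) (A13 (B12 (P 12 (L 38 10)) (P 10 (L 31 8))) (P 10 (L 31 8)))) (A13 (A12 (B12 (P 12 (L 38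
  10)) (B02 (P 12 (L 38 10)) (A01 (P 10 (L 31 8)) (A13 (P 13 (L 40 7)) (P 10 (L 31 8)))))) (B12 (P
  12 (L 38 10)) (P 10 (L 31 8)))) (A03 (B12 (P 12 (L 38 10)) (P 10 (L 31 8))) (S 12 (L 38 10) (L 7
  10)))))) (B02 (P 12 (L 38 10)) (A02 (A03 (A01 (B12 (P 12 (L 38 10)) (P 10 (L 31 8))) (P 10 (L 31
  8))) (P 10 (L 31 8))) (P 10 (L 31 8))))) (A03 (B02 (P 12 (L 38 10)) (A02 (A01 (A03 (B12 (P 12 (L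
  38 10)) (P 10 (L 31 8))) (P 10 (L 31 8))) (P 10 (L 31 8))) (P 10 (L 31 8)))) (P 16 (L 49 4))))
  (A13 (A12 (B12 (A01 (B01 (A03 (P 13 (L 40 7)) (A13 (P 13 (L 40 7)) (B02 (A23 (P 13 (L 40 7)) (P
  12 (L 38 10))) (P 13 (L 40 7))))) (P 13 (L 40 7))) (B01 (A13 (P 13 (L 40 7)) (A03 (P 13 (L 40 7))
  (B02 (A23 (P 13 (L 40 7)) (P 12 (L 38 10))) (P 13 (L 40 7))))) (S 12 (L 38 10) (L 18 10)))) (A01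
  (A03 (A02 (B02 (P 13 (L 40 7)) (P 10 (L 31 8))) (B02 (P 13 (L 40 7)) (P 10 (L 31 8)))) (A13 (B02
  (P 13 (L 40 7)) (P 10 (L 31 8))) (P 10 (L 31 8)))) (A13 (A12 (P 13 (L 40 7)) (B02 (P 13 (L 40 7))
  (P 10 (L 31 8)))) (A03 (B02 (P 13 (L 40 7)) (P 10 (L 31 8))) (S 12 (L 38 10) (L 7 10)))))) (B12
  (A02 (B01 (A03 (P 13 (L 40 7)) (S 12 (L 38 10) (L 7 10))) (P 13 (L 40 7))) (S 12 (L 38 10) (L 18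
  10))) (A02 (A03 (A01 (B02 (B01 (A02 (P 13 (L 40 7)) (P 10 (L 31 8))) (P 10 (L 31 8))) (P 10 (L 31
  8))) (P 10 (L 31 8))) (P 10 (L 31 8))) (P 10 (L 31 8))))) (A03 (B12 (A02 (B01 (A01 (A03 (P 13 (L
  40 7)) (P 10 (L 31 8))) (S 12 (L 38 10) (L 7 10))) (A01 (A03 (P 13 (L 40 7)) (P 10 (L 31 8))) (S
  12 (L 38 10) (L 18 10)))) (S 12 (L 38 10) (L 18 10))) (A02 (A01 (A03 (B02 (B01 (A02 (P 13 (L 40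
  7)) (P 10 (L 31 8))) (P 10 (L 31 8))) (P 10 (L 31 8))) (P 10 (L 31 8))) (P 10 (L 31 8))) (P 10 (L
  31 8)))) (S 12 (L 38 10) (L 18 10))))))))) (A01 (A03 (M 3 (A02 (P 12 (L 38 10)) (B02 (M 1 (B01 (P
  12 (L 38 10)) (P 10 (L 31 8)))) (P 10 (B12 (A12 (M 1 (L 31 8)) (P 16 (L 49 4))) (P 16 (L 49
  4))))))) (A13 (M 3 (B02 (M 1 (B01 (P 12 (L 38 10)) (P 10 (L 31 8)))) (P 10 (B12 (A12 (M 1 (L 31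
  8)) (P 16 (L 49 4))) (P 16 (L 49 4)))))) (P 16 (B02 (M 3 (L 49 4)) (B12 (M 3 (L 49 4)) (P 12 (L
  38 10))))))) (A13 (M 3 (A12 (M 1 (B02 (B01 (P 12 (L 38 10)) (P 10 (L 31 8))) (P 10 (L 31 8))))
  (B02 (M 1 (B01 (P 12 (L 38 10)) (P 10 (L 31 8)))) (P 10 (B12 (A02 (M 1 (L 31 8)) (P 16 (L 49 4)))
  (P 16 (L 49 4))))))) (A03 (M 3 (B02 (M 1 (B01 (P 12 (L 38 10)) (P 10 (L 31 8)))) (P 10 (B12 (A02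
  (M 1 (L 31 8)) (P 16 (L 49 4))) (P 16 (L 49 4)))))) (P 16 (B02 (M 3 (L 49 4)) (B12 (M 3 (L 49 4))
  (P 12 (L 38 10))))))))) (B12 (P 4 (M 3 (A12 (P 6 (M 1 (B01 (A13 (A01 (S 12 (L 38 10) (L 7 10))
  (B02 (P 12 (L 38 10)) (A12 (A13 (A01 (S 12 (L 38 10) (L 7 10)) (B12 (P 12 (L 38 10)) (B02 (P 12
  (L 38 10)) (A12 (A13 (P 13 (L 40 7)) (S 12 (L 38 10) (L 18 10))) (S 12 (L 38 10) (L 18 10))))))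
  (S 12 (L 38 10) (L 7 10))) (S 12 (L 38 10) (L 7 10))))) (S 12 (L 38 10) (L 7 10))) (A13 (A01 (M
  19 (P 10 (B12 (A02 (B01 (S 12 (L 38 10) (L 7 10)) (K [(31,8,112),(31,2,88)] [])) (B01 (S 12 (L 38
  10) (L 7 10)) (M 16 (P 13 (K [(8,4,1),(41,7,2),(31,2,4)] []))))) (S 12 (L 38 10) (L 7 10)))))
  (B12 (A12 (B01 (A13 (P 13 (L 40 7)) (A23 (P 13 (L 40 7)) (B02 (A03 (P 13 (L 40 7)) (P 12 (L 38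
  10))) (P 13 (L 40 7))))) (S 12 (L 38 10) (L 18 10))) (B01 (S 12 (L 38 10) (L 7 10)) (A23 (A02 (S
  12 (L 38 10) (L 18 10)) (out 0)) (S 12 (L 38 10) (L 18 10))))) (A12 (A13 (A01 (S 12 (L 38 10) (L
  18 10)) (P 13 (L 40 7))) (S 12 (L 38 10) (L 7 10))) (S 12 (L 38 10) (L 7 10))))) (A23 (B12 (A02
  (S 13 (L 40 7) (L 13 7)) (S 12 (L 38 10) (L 7 10))) (S 12 (L 38 10) (L 7 10))) (S 12 (L 38 10) (L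
  18 10))))))) (M 19 (P 10 (B01 (A23 (A02 (B02 (S 12 (L 38 10) (L 7 10)) (A01 (P 16 (L 49 4)) (out
  0))) (out 0)) (A13 (B02 (P 12 (L 38 10)) (A01 (P 16 (L 49 4)) (out 0))) (P 16 (L 49 4)))) (A23
  (A02 (B12 (A01 (B01 (A03 (A02 (M 1 (L 31 8)) (out 0)) (out 0)) (A03 (S 1 (L 4 8) (L 31 8)) (out
  0))) (out 0)) (A01 (A03 (A02 (B02 (M 1 (L 31 8)) (B12 (A01 (P 16 (L 49 4)) (B01 (P 16 (L 49 4))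
  (P 15 (L 46 1)))) (P 16 (L 49 4)))) (out 0)) (out 0)) (out 0))) (out 0)) (A13 (B12 (S 13 (L 41 7)
  (L 13 7)) (A01 (A02 (S 12 (L 38 10) (L 7 10)) (out 0)) (out 0))) (B12 (S 13 (L 40 7) (L 13 7)) (P
  16 (L 49 4))))))))))) (A12 (A13 (M 3 (A01 (P 16 (L 49 4)) (B02 (M 1 (B01 (P 12 (L 38 10)) (P 10
  (L 31 8)))) (P 10 (B12 (M 1 (L 31 8)) (A12 (M 1 (L 31 8)) (P 16 (L 49 4)))))))) (P 16 (A23 (M 3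
  (L 49 4)) (B02 (M 3 (L 49 4)) (B12 (M 3 (L 49 4)) (P 12 (L 38 10))))))) (P 16 (A23 (M 3 (L 49 4))
  (A13 (M 3 (L 49 4)) (B02 (M 3 (L 49 4)) (B12 (M 3 (L 49 4)) (P 12 (L 38 10))))))))))) (A13 (M 18
  (B12 (M 3 (A12 (P 6 (B01 (A01 (S 12 (L 38 10) (L 7 10)) (A13 (B02 (P 12 (L 38 10)) (A12 (A01 (S
  12 (L 38 10) (L 18 10)) (A13 (B12 (P 12 (L 38 10)) (B02 (P 12 (L 38 10)) (A12 (A01 (S 12 (L 38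
  10) (L 18 10)) (P 13 (L 40 7))) (S 12 (L 38 10) (L 18 10))))) (B12 (P 12 (L 38 10)) (S 12 (L 38
  10) (L 18 10))))) (S 12 (L 38 10) (L 7 10)))) (S 12 (L 38 10) (L 7 10)))) (A01 (S 12 (L 38 10) (L
  7 10)) (A13 (B12 (A12 (B01 (A01 (A02 (B02 (P 12 (L 38 10)) (P 13 (L 40 7))) (P 13 (L 40 7))) (P
  13 (L 40 7))) (S 12 (L 38 10) (L 18 10))) (B01 (S 12 (L 38 10) (L 7 10)) (S 12 (L 38 10) (L 7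
  10)))) (A12 (A01 (S 12 (L 38 10) (L 18 10)) (A13 (P 13 (L 40 7)) (B02 (B01 (A23 (P 13 (L 40 7))
  (P 12 (L 38 10))) (A23 (P 13 (L 40 7)) (P 12 (L 38 10)))) (S 12 (L 38 10) (L 18 10))))) (S 12 (L
  38 10) (L 7 10)))) (B12 (A23 (B01 (S 12 (L 38 10) (L 7 10)) (A02 (A03 (S 12 (L 38 10) (L 18 10))
  (out 0)) (out 0))) (B01 (P 12 (L 38 10)) (A03 (A02 (P 12 (L 38 10)) (out 0)) (out 0)))) (S 12 (L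
  38 10) (L 7 10))))))) (B01 (A02 (A01 (P 16 (L 49 4)) (out 0)) (out 0)) (A02 (A01 (B12 (S 12 (L 38
  10) (L 7 10)) (P 16 (L 49 4))) (out 0)) (out 0))))) (A12 (A01 (P 16 (A02 (P 12 (L 38 10)) (M 3 (L
  49 4)))) (M 3 (A13 (B02 (M 1 (B01 (P 12 (L 38 10)) (P 10 (L 31 8)))) (P 10 (B12 (M 1 (L 31 8))
  (A12 (M 1 (L 31 8)) (P 16 (L 49 4)))))) (P 16 (L 49 4))))) (P 16 (A02 (A01 (B02 (M 3 (L 49 4))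
  (B12 (M 3 (L 49 4)) (P 12 (L 38 10)))) (out 0)) (out 0)))))) (B12 (A23 (M 18 (B01 (P 16 (A02 (A03
  (M 3 (L 49 4)) (out 0)) (out 0))) (M 3 (A02 (A03 (B12 (S 12 (L 38 10) (L 7 10)) (P 16 (L 49 4)))
  (out 0)) (out 0))))) (P 12 (B01 (P 16 (A03 (A02 (S 3 (L 9 4) (L 49 4)) (out 0)) (out 0))) (M 18
  (L 38 10))))) (P 16 (A23 (M 18 (A02 (A03 (B02 (B01 (P 12 (L 38 10)) (A01 (B12 (M 3 (L 49 4)) (P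
  12 (L 38 10))) (out 0))) (B12 (A01 (B01 (P 12 (L 38 10)) (M 3 (L 49 4))) (out 0)) (P 12 (L 38
  10)))) (out 0)) (out 0))) (P 12 (A03 (A02 (B02 (S 3 (L 9 4) (L 49 4)) (M 18 (L 38 10))) (out 0))
  (out 0)))))))))))))

/-- its cell -/
def cI9 : Cell :=
  ⟨557056, 557056, 557056, 0, 0, 1114112, 0, 1114112, 1114112, 1114112, 1114112, 1114112, 0, 0, 0, 5070848, 3129344, 0⟩

theorem okI9 : check datI tI9 cI9 16384 2048 = true := by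
  decide +kernel

end Pool.Agent.H315.NW
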