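import Pool.Agent.H315.NW.Defs2

/-!
# Project NW (helper315): the branch and bound checker

A cell is the product of a tetrahedron of quaternions `(SP, x - LP, y - LP, z - LP)` and a triangle
of directions `(a, b, SN)`.  All polarised values of a form, quadratic in the quaternion and linear
in the direction, are computed at once: the generators are packed into one natural number with the
base `2^192`, and all coefficients are shifted by `CC` to make them natural numbers.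
-/

set_option autoImplicit false

namespace Pool.Agent.H315.NW

/-- three integers -/
structure Z3 where
  x : ℤ
  y : ℤ
  z : ℤ

/-- a cell: the four quaternion generators `(x, y, z)` and the three direction generators
`(a, b)` -/
@[ext] structure Cell where
  x0 : ℕ
  y0 : ℕ
  z0 : ℕ
  x1 : ℕ
  y1 : ℕ
  z1 : ℕ
  x2 : ℕ
  y2 : ℕ
  z2 : ℕ
  x3 : ℕ
  y3 : ℕ
  z3 : ℕ
  a0 : ℕ
  b0 : ℕ
  a1 : ℕ
  b1 : ℕ
  a2 : ℕ
  b2 : ℕ

/-- scale of the quaternions, `89 * 2 ^ 14` -/
def SP : ℕ := 1458176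
/-- shift of the quaternions, `34 * 2 ^ 14` -/
def LP : ℕ := 557056
/-- scale of the directions, `1000 * 2 ^ 13` -/
def SN : ℕ := 8192000
/-- `2 ^ 44` -/
def FM : ℕ := 17592186044416
/-- `round (2 ^ 44 * φ)` -/
def FG : ℕ := 28464754956277
/-- the scale factor is `cn / cd` -/
def cn : ℕ := 4016
/-- the scale factor is `cn / cd` -/
def cd : ℕ := 3973

/-- powers of the base -/
def B1 : ℕ := 2 ^ 192
/-- powers of the base -/
def B4 : ℕ := 2 ^ (192 * 4)
/-- powers of the base -/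
def B6 : ℕ := 2 ^ (192 * 6)
/-- powers of the base -/
def B13 : ℕ := 2 ^ (192 * 13)
/-- powers of the base -/
def B26 : ℕ := 2 ^ (192 * 26)
/-- the packed ones -/
def UP : ℕ := 1 + B1 + B4 + B6
/-- its square -/
def UPQ : ℕ := UP * UP
/-- the packed last coordinate of the directions -/
def NN : ℕ := SN * (1 + B13 + B26)
/-- the sum of the used slots -/
def UU : ℕ := (1 + B1 + B1 * B1 + B4 + B1 * B4 + B4 * B4 + B6 + B1 * B6 + B4 * B6 + B6 * B6) *
  (1 + B13 + B26)
/-- the top bits of the slots -/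
def MASK : ℕ := 2 ^ 191 * ((2 ^ (192 * 39) - 1) / (2 ^ 192 - 1))
/-- error bound for the constraints -/
def EG : ℕ := 2 ^ 24 * FM * SP ^ 2 * SN * UU
/-- the shift of the coefficients -/
def CC : ℕ := 2 ^ 160

/-- ten coefficients -/
structure Rw where
  k0 : ℕ
  k1 : ℕ
  k2 : ℕ
  k3 : ℕ
  k4 : ℕ
  k5 : ℕ
  k6 : ℕ
  k7 : ℕ
  k8 : ℕ
  k9 : ℕ

/-- thirty coefficients -/
structure Tb where
  r0 : Rw
  r1 : Rw
  r2 : Rw

/-- the packed cell -/
structure Pk where
  ux : ℕ
  uy : ℕ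
  uz : ℕ
  xx : ℕ
  yy : ℕ
  zz : ℕ
  xy : ℕ
  xz : ℕ
  yz : ℕ
  n0 : ℕ
  n1 : ℕ

/-- shifted coefficient -/
def toN (z : ℤ) : ℕ := Int.toNat (Int.add z (Int.ofNat CC))

/-- the coefficients of the quadratic form with the matrix `x`, in the shifted coordinates -/
def mkRw (x00 x01 x02 x10 x11 x12 x20 x21 x22 : ℤ) : Rw where
  k0 := toN ((SP : ℤ) * SP * (x00 + x11 + x22) - SP * LP * (2 * (x21 - x12 + x02 - x20 + x10 - x01))
    + LP * LP * (2 * (x01 + x10 + x02 + x20 + x12 + x21) - (x00 + x11 + x22)))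
  k1 := toN (SP * (2 * (x21 - x12)) - LP * (2 * (x00 - x11 - x22) + 2 * (x01 + x10 + x02 + x20)))
  k2 := toN (SP * (2 * (x02 - x20)) - LP * (2 * (x11 - x00 - x22) + 2 * (x01 + x10 + x12 + x21)))
  k3 := toN (SP * (2 * (x10 - x01)) - LP * (2 * (x22 - x00 - x11) + 2 * (x02 + x20 + x12 + x21)))
  k4 := toN (x00 - x11 - x22)
  k5 := toN (x11 - x00 - x22)
  k6 := toN (x22 - x00 - x11)
  k7 := toN (2 * (x01 + x10))
  k8 := toN (2 * (x02 + x20))
  k9 := toN (2 * (x12 + x21))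

/-- the coefficients of the form -/
def mkTb (a t v : Z3) : Tb where
  r0 := mkRw (-t.x) (-(cn * a.x * v.z)) (cn * a.x * v.y) (-t.y) (-(cn * a.y * v.z))
    (cn * a.y * v.y) (-t.z) (-(cn * a.z * v.z)) (cn * a.z * v.y)
  r1 := mkRw (cn * a.x * v.z) (-t.x) (-(cn * a.x * v.x)) (cn * a.y * v.z) (-t.y)
    (-(cn * a.y * v.x)) (cn * a.z * v.z) (-t.z) (-(cn * a.z * v.x))
  r2 := mkRw (-(cn * a.x * v.y)) (cn * a.x * v.x) (-t.x) (-(cn * a.y * v.y)) (cn * a.y * v.x)
    (-t.y) (-(cn * a.z * v.y)) (cn * a.z * v.x) (-t.z)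

/-- the packed cell from the packed coordinates -/
def mkPk (px py pz nx ny : ℕ) : Pk where
  ux := Nat.mul UP px
  uy := Nat.mul UP py
  uz := Nat.mul UP pz
  xx := Nat.mul px px
  yy := Nat.mul py py
  zz := Nat.mul pz pz
  xy := Nat.mul px py
  xz := Nat.mul px pz
  yz := Nat.mul py pz
  n0 := nx
  n1 := ny

/-- packing -/
def Cell.pk (c : Cell) : Pk :=
  mkPk (Nat.add c.x0 (Nat.add (Nat.mul c.x1 B1) (Nat.add (Nat.mul c.x2 B4) (Nat.mul c.x3 B6))))
    (Nat.add c.y0 (Nat.add (Nat.mul c.y1 B1) (Nat.add (Nat.mul c.y2 B4) (Nat.mul c.y3 B6))))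
    (Nat.add c.z0 (Nat.add (Nat.mul c.z1 B1) (Nat.add (Nat.mul c.z2 B4) (Nat.mul c.z3 B6))))
    (Nat.add c.a0 (Nat.add (Nat.mul c.a1 B13) (Nat.mul c.a2 B26)))
    (Nat.add c.b0 (Nat.add (Nat.mul c.b1 B13) (Nat.mul c.b2 B26)))

/-- the value of a row -/
def evR (P : Pk) (r : Rw) : ℕ :=
  Nat.add (Nat.mul r.k0 UPQ) (Nat.add (Nat.mul r.k1 P.ux) (Nat.add (Nat.mul r.k2 P.uy)
    (Nat.add (Nat.mul r.k3 P.uz) (Nat.add (Nat.mul r.k4 P.xx) (Nat.add (Nat.mul r.k5 P.yy)
      (Nat.add (Nat.mul r.k6 P.zz) (Nat.add (Nat.mul r.k7 P.xy) (Nat.add (Nat.mul r.k8 P.xz)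
        (Nat.mul r.k9 P.yz)))))))))

/-- the value of a form -/
def evT (P : Pk) (T : Tb) : ℕ :=
  Nat.add (Nat.mul P.n0 (evR P T.r0)) (Nat.add (Nat.mul P.n1 (evR P T.r1))
    (Nat.mul NN (evR P T.r2)))

/-- the value of the form with all coefficients one, times the shift, plus the error bound -/
def evW (P : Pk) : ℕ :=
  Nat.add (Nat.mul CC (Nat.mul (Nat.add P.n0 (Nat.add P.n1 NN))
    (Nat.add UPQ (Nat.add P.ux (Nat.add P.uy (Nat.add P.uz (Nat.add P.xx (Nat.add P.yy
      (Nat.add P.zz (Nat.add P.xy (Nat.add P.xz P.yz)))))))))))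
    EG

/-- the difference is nonnegative and all its digits are below the half of the base -/
def digs (z w : ℕ) : Bool := Nat.ble w z && Nat.beq (Nat.land (Nat.sub z w) MASK) 0

/-- an ordered pair of faces: the indices, the vector product and the scaled difference -/
structure ER where
  f1 : ℕ
  f2 : ℕ
  a : Z3
  t : Z3

/-- the local region: lower and upper bounds -/
structure LR where
  lx : ℕ
  hx : ℕ
  ly : ℕ
  hy : ℕ
  lz : ℕ
  hz : ℕ
  ha : ℕ
  lb : ℕ
  hb : ℕ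

/-- the data of a polyhedron -/
structure Dat where
  edges : List ER
  verts : List Z3
  /-- the face vectors, scaled -/
  faces : List Z3
  outs : List (ℤ × Z3)
  locs : List LR
  holes : List (Cell × ℕ × ℕ)

/-- certificates -/
inductive Tr
  | out (j : ℕ)
  | loc (k : ℕ)
  | H (k : ℕ)
  | L (e v : ℕ)
  | K (es : List (ℕ × ℕ × ℕ)) (fs : List (ℕ × ℕ))
  | S (f : ℕ) (l r : Tr)
  | P (f : ℕ) (t : Tr)
  | M (f : ℕ) (t : Tr)
  | A01 (l r : Tr)
  | A02 (l r : Tr)
  | A03 (l r : Tr)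
  | A12 (l r : Tr)
  | A13 (l r : Tr)
  | A23 (l r : Tr)
  | B01 (l r : Tr)
  | B02 (l r : Tr)
  | B12 (l r : Tr)

/-- midpoint -/
def md (x y : ℕ) : ℕ := Nat.div (Nat.add x y) 2

/-- is the sum even -/
def ev (x y : ℕ) : Bool := Nat.beq (Nat.mod (Nat.add x y) 2) 0

/-- positive -/
def psb : ℤ → Bool
  | .ofNat z => Nat.blt 0 z
  | .negSucc _ => false

/-- the check of a positive linear form on one generator -/
def outOk (o : ℤ × Z3) (x y z : ℕ) : Bool :=
  psb (o.1 * SP + (o.2.x * ((x : ℤ) - LP) + (o.2.y * ((y : ℤ) - LP) + o.2.z * ((z : ℤ) - LP))) -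
    4 * SP)

/-- the three coordinates near the centre -/
def locP (l : LR) (x y z : ℕ) : Bool :=
  Nat.ble l.lx x && Nat.ble x l.hx && Nat.ble l.ly y && Nat.ble y l.hy && Nat.ble l.lz z &&
    Nat.ble z l.hz

/-- the two coordinates near the centre -/
def locN (l : LR) (a b : ℕ) : Bool := Nat.ble a l.ha && Nat.ble l.lb b && Nat.ble b l.hb

/-- the cell is in the local region -/
def locOk (l : LR) (c : Cell) : Bool :=
  locP l c.x0 c.y0 c.z0 && locP l c.x1 c.y1 c.z1 && locP l c.x2 c.y2 c.z2 &&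
    locP l c.x3 c.y3 c.z3 && locN l c.a0 c.b0 && locN l c.a1 c.b1 && locN l c.a2 c.b2

/-- equality of cells -/
def ceq (c d : Cell) : Bool :=
  Nat.beq c.x0 d.x0 && Nat.beq c.y0 d.y0 && Nat.beq c.z0 d.z0 && Nat.beq c.x1 d.x1 &&
    Nat.beq c.y1 d.y1 && Nat.beq c.z1 d.z1 && Nat.beq c.x2 d.x2 && Nat.beq c.y2 d.y2 &&
    Nat.beq c.z2 d.z2 && Nat.beq c.x3 d.x3 && Nat.beq c.y3 d.y3 && Nat.beq c.z3 d.z3 &&
    Nat.beq c.a0 d.a0 && Nat.beq c.b0 d.b0 && Nat.beq c.a1 d.a1 && Nat.beq c.b1 d.b1 &&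
    Nat.beq c.a2 d.a2 && Nat.beq c.b2 d.b2

/-- the zero vector -/
def Z0 : Z3 := ⟨0, 0, 0⟩

/-- the table of the form `F ⬝ m` (negated `t` because of the sign in `mkTb`) -/
def tbP (F : Z3) : Tb := mkTb Z0 ⟨-F.x, -F.y, -F.z⟩ Z0

/-- the table of the form `- F ⬝ m` -/
def tbM (F : Z3) : Tb := mkTb Z0 F Z0

/-- a triple is admissible -/
def okE (D : Dat) (p q : ℕ) : List (ℕ × ℕ × ℕ) → Bool
  | [] => true
  | (e, v, _) :: l =>
    match D.edges[e]?, D.verts[v]? with
    | some E, some _ => Nat.testBit p E.f1 && Nat.testBit q E.f2 && okE D p q l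
    | _, _ => false

/-- the value of the constraints -/
def valE (D : Dat) (P : Pk) : List (ℕ × ℕ × ℕ) → ℕ
  | [] => 0
  | (e, v, m) :: l =>
    match D.edges[e]?, D.verts[v]? with
    | some E, some V => Nat.add (Nat.mul m (evT P (mkTb E.a E.t V))) (valE D P l)
    | _, _ => 0

/-- the weight of the constraints -/
def wtE : List (ℕ × ℕ × ℕ) → ℕ
  | [] => 0
  | (_, _, m) :: l => Nat.add m (wtE l)

/-- a pair is admissible -/
def okF (D : Dat) (p q : ℕ) : List (ℕ × ℕ) → Bool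
  | [] => true
  | (f, _) :: l =>
    match D.faces[f]? with
    | some _ => (Nat.testBit p f || Nat.testBit q f) && okF D p q l
    | _ => false

/-- the value of the sign forms -/
def valF (D : Dat) (P : Pk) (p : ℕ) : List (ℕ × ℕ) → ℕ
  | [] => 0
  | (f, m) :: l =>
    match D.faces[f]? with
    | some F =>
      Nat.add (Nat.mul m (evT P (match Nat.testBit p f with
        | true => tbM F
        | false => tbP F))) (valF D P p l)
    | _ => 0

/-- the weight of the sign forms -/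
def wtF : List (ℕ × ℕ) → ℕ
  | [] => 0
  | (_, m) :: l => Nat.add m (wtF l)

/-- a combination -/
def combOk (D : Dat) (es : List (ℕ × ℕ × ℕ)) (fs : List (ℕ × ℕ)) (P : Pk) (p q : ℕ) : Bool :=
  okE D p q es && okF D p q fs && Nat.blt 0 (Nat.add (wtE es) (wtF fs)) &&
    Nat.ble (Nat.add (wtE es) (wtF fs)) 1024 &&
    digs (Nat.add (valE D P es) (valF D P p fs)) (Nat.mul (Nat.add (wtE es) (wtF fs)) (evW P))

/-- the check of a certificate; `p` and `q` are the sets of the faces for which the sign is known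
to be nonnegative and nonpositive -/
def check (D : Dat) : Tr → Cell → ℕ → ℕ → Bool
  | .out j, c, _, _ =>
    match D.outs[j]? with
    | some o => outOk o c.x0 c.y0 c.z0 && outOk o c.x1 c.y1 c.z1 && outOk o c.x2 c.y2 c.z2 &&
        outOk o c.x3 c.y3 c.z3
    | none => false
  | .loc k, c, _, _ =>
    match D.locs[k]? with
    | some l => locOk l c
    | none => false
  | .H k, c, p, q =>
    match D.holes[k]? with
    | some h => ceq h.1 c && Nat.beq h.2.1 p && Nat.beq h.2.2 q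
    | none => false
  | .L e v, c, p, q =>
    match D.edges[e]?, D.verts[v]? with
    | some E, some V => Nat.testBit p E.f1 && Nat.testBit q E.f2 &&
        digs (evT c.pk (mkTb E.a E.t V)) (evW c.pk)
    | _, _ => false
  | .K es fs, c, p, q => combOk D es fs c.pk p q
  | .S f l r, c, p, q => check D l c (Nat.lor p (Nat.shiftLeft 1 f)) q &&
      check D r c p (Nat.lor q (Nat.shiftLeft 1 f))
  | .P f t, c, p, q =>
    match D.faces[f]? with
    | some F => digs (evT c.pk (tbP F)) (evW c.pk) &&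
        check D t c (Nat.lor p (Nat.shiftLeft 1 f)) q
    | none => false
  | .M f t, c, p, q =>
    match D.faces[f]? with
    | some F => digs (evT c.pk (tbM F)) (evW c.pk) &&
        check D t c p (Nat.lor q (Nat.shiftLeft 1 f))
    | none => false
  | .A01 l r, c, p, q => ev c.x0 c.x1 && ev c.y0 c.y1 && ev c.z0 c.z1 &&
      check D l { c with x1 := md c.x0 c.x1, y1 := md c.y0 c.y1, z1 := md c.z0 c.z1 } p q &&
      check D r { c with x0 := md c.x0 c.x1, y0 := md c.y0 c.y1, z0 := md c.z0 c.z1 } p q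
  | .A02 l r, c, p, q => ev c.x0 c.x2 && ev c.y0 c.y2 && ev c.z0 c.z2 &&
      check D l { c with x2 := md c.x0 c.x2, y2 := md c.y0 c.y2, z2 := md c.z0 c.z2 } p q &&
      check D r { c with x0 := md c.x0 c.x2, y0 := md c.y0 c.y2, z0 := md c.z0 c.z2 } p q
  | .A03 l r, c, p, q => ev c.x0 c.x3 && ev c.y0 c.y3 && ev c.z0 c.z3 &&
      check D l { c with x3 := md c.x0 c.x3, y3 := md c.y0 c.y3, z3 := md c.z0 c.z3 } p q &&
      check D r { c with x0 := md c.x0 c.x3, y0 := md c.y0 c.y3, z0 := md c.z0 c.z3 } p q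
  | .A12 l r, c, p, q => ev c.x1 c.x2 && ev c.y1 c.y2 && ev c.z1 c.z2 &&
      check D l { c with x2 := md c.x1 c.x2, y2 := md c.y1 c.y2, z2 := md c.z1 c.z2 } p q &&
      check D r { c with x1 := md c.x1 c.x2, y1 := md c.y1 c.y2, z1 := md c.z1 c.z2 } p q
  | .A13 l r, c, p, q => ev c.x1 c.x3 && ev c.y1 c.y3 && ev c.z1 c.z3 &&
      check D l { c with x3 := md c.x1 c.x3, y3 := md c.y1 c.y3, z3 := md c.z1 c.z3 } p q &&
      check D r { c with x1 := md c.x1 c.x3, y1 := md c.y1 c.y3, z1 := md c.z1 c.z3 } p q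
  | .A23 l r, c, p, q => ev c.x2 c.x3 && ev c.y2 c.y3 && ev c.z2 c.z3 &&
      check D l { c with x3 := md c.x2 c.x3, y3 := md c.y2 c.y3, z3 := md c.z2 c.z3 } p q &&
      check D r { c with x2 := md c.x2 c.x3, y2 := md c.y2 c.y3, z2 := md c.z2 c.z3 } p q
  | .B01 l r, c, p, q => ev c.a0 c.a1 && ev c.b0 c.b1 &&
      check D l { c with a1 := md c.a0 c.a1, b1 := md c.b0 c.b1 } p q &&
      check D r { c with a0 := md c.a0 c.a1, b0 := md c.b0 c.b1 } p q
  | .B02 l r, c, p, q => ev c.a0 c.a2 && ev c.b0 c.b2 &&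
      check D l { c with a2 := md c.a0 c.a2, b2 := md c.b0 c.b2 } p q &&
      check D r { c with a0 := md c.a0 c.a2, b0 := md c.b0 c.b2 } p q
  | .B12 l r, c, p, q => ev c.a1 c.a2 && ev c.b1 c.b2 &&
      check D l { c with a2 := md c.a1 c.a2, b2 := md c.b1 c.b2 } p q &&
      check D r { c with a1 := md c.a1 c.a2, b1 := md c.b1 c.b2 } p q

end Pool.Agent.H315.NW
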