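import Pool.Agent.H315.NW.Defs2

/-!
# Project NW: `S_CON` (edge-normal constraint, mirror symmetry, monotonicity)
-/

set_option autoImplicit false

namespace Pool.Agent.H315.NW

open Matrix

theorem dot3 (a b : Fin 3 → ℝ) : a ⬝ᵥ b = a 0 * b 0 + a 1 * b 1 + a 2 * b 2 := by
  simp only [dotProduct, Fin.sum_univ_three]

theorem Rm0 (p : Fin 4 → ℝ) (y : Fin 3 → ℝ) : (Rm p *ᵥ y) 0 =
    (p 0 ^ 2 + p 1 ^ 2 - p 2 ^ 2 - p 3 ^ 2) * y 0 + 2 * (p 1 * p 2 - p 0 * p 3) * y 1 +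
      2 * (p 1 * p 3 + p 0 * p 2) * y 2 := by
  simp only [mulVec, dot3]; rfl

theorem Rm1 (p : Fin 4 → ℝ) (y : Fin 3 → ℝ) : (Rm p *ᵥ y) 1 =
    2 * (p 1 * p 2 + p 0 * p 3) * y 0 + (p 0 ^ 2 - p 1 ^ 2 + p 2 ^ 2 - p 3 ^ 2) * y 1 +
      2 * (p 2 * p 3 - p 0 * p 1) * y 2 := by
  simp only [mulVec, dot3]; rfl

theorem Rm2 (p : Fin 4 → ℝ) (y : Fin 3 → ℝ) : (Rm p *ᵥ y) 2 =
    2 * (p 1 * p 3 - p 0 * p 2) * y 0 + 2 * (p 2 * p 3 + p 0 * p 1) * y 1 +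
      (p 0 ^ 2 - p 1 ^ 2 - p 2 ^ 2 + p 3 ^ 2) * y 2 := by
  simp only [mulVec, dot3]; rfl

theorem nq_nonneg (p : Fin 4 → ℝ) : 0 ≤ nq p := by unfold nq; positivity

theorem con1 (V : Set (Fin 3 → ℝ)) (c : ℝ) (p : Fin 4 → ℝ) (n F1 F2 v : Fin 3 → ℝ)
    (hp : 0 < nq p) (h1 : ∀ z ∈ V, F1 ⬝ᵥ z ≤ g ^ 2) (h2 : ∀ z ∈ V, F2 ⬝ᵥ z ≤ g ^ 2)
    (hv : v ∈ V) (hW : WQ V c p n) (h3 : 0 ≤ F1 ⬝ᵥ (Rm p *ᵥ n))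
    (h4 : F2 ⬝ᵥ (Rm p *ᵥ n) ≤ 0) : GG c F1 F2 v p n ≤ 0 := by
  obtain ⟨m, hm⟩ : ∃ m, m = Rm p *ᵥ n := ⟨_, rfl⟩
  obtain ⟨y', hy'⟩ : ∃ y' : Fin 3 → ℝ, y' = (F1 ⬝ᵥ m) • F2 - (F2 ⬝ᵥ m) • F1 := ⟨_, rfl⟩
  -- the transpose of `Rm p` applied to `y'`
  obtain ⟨y, hy⟩ : ∃ y : Fin 3 → ℝ, y =
    ![(p 0 ^ 2 + p 1 ^ 2 - p 2 ^ 2 - p 3 ^ 2) * y' 0 + 2 * (p 1 * p 2 + p 0 * p 3) * y' 1 +
        2 * (p 1 * p 3 - p 0 * p 2) * y' 2,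
      2 * (p 1 * p 2 - p 0 * p 3) * y' 0 + (p 0 ^ 2 - p 1 ^ 2 + p 2 ^ 2 - p 3 ^ 2) * y' 1 +
        2 * (p 2 * p 3 + p 0 * p 1) * y' 2,
      2 * (p 1 * p 3 + p 0 * p 2) * y' 0 + 2 * (p 2 * p 3 - p 0 * p 1) * y' 1 +
        (p 0 ^ 2 - p 1 ^ 2 - p 2 ^ 2 + p 3 ^ 2) * y' 2] := ⟨_, rfl⟩
  have y0 : y 0 = (p 0 ^ 2 + p 1 ^ 2 - p 2 ^ 2 - p 3 ^ 2) * y' 0 +
      2 * (p 1 * p 2 + p 0 * p 3) * y' 1 + 2 * (p 1 * p 3 - p 0 * p 2) * y' 2 := by rw [hy]; rfl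
  have y1 : y 1 = 2 * (p 1 * p 2 - p 0 * p 3) * y' 0 +
      (p 0 ^ 2 - p 1 ^ 2 + p 2 ^ 2 - p 3 ^ 2) * y' 1 + 2 * (p 2 * p 3 + p 0 * p 1) * y' 2 := by
    rw [hy]; rfl
  have y2 : y 2 = 2 * (p 1 * p 3 + p 0 * p 2) * y' 0 + 2 * (p 2 * p 3 - p 0 * p 1) * y' 1 +
      (p 0 ^ 2 - p 1 ^ 2 - p 2 ^ 2 + p 3 ^ 2) * y' 2 := by rw [hy]; rfl
  have hadj : ∀ x : Fin 3 → ℝ, y ⬝ᵥ x = y' ⬝ᵥ (Rm p *ᵥ x) := by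
    intro x
    rw [dot3, dot3, Rm0, Rm1, Rm2, y0, y1, y2]; ring
  have hyn : y ⬝ᵥ n = 0 := by
    rw [hadj, ← hm, hy', sub_dotProduct, smul_dotProduct, smul_dotProduct, smul_eq_mul,
      smul_eq_mul]
    ring
  obtain ⟨z, hz, h5⟩ := hW y hyn v hv
  have h6 : (Rm p *ᵥ y) ⬝ᵥ z = nq p ^ 2 * (y' ⬝ᵥ z) := by
    rw [dot3, dot3, Rm0, Rm1, Rm2, y0, y1, y2]; unfold nq; ring
  have m0 : m 0 = (p 0 ^ 2 + p 1 ^ 2 - p 2 ^ 2 - p 3 ^ 2) * n 0 +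
      2 * (p 1 * p 2 - p 0 * p 3) * n 1 + 2 * (p 1 * p 3 + p 0 * p 2) * n 2 := by rw [hm, Rm0]
  have m1 : m 1 = 2 * (p 1 * p 2 + p 0 * p 3) * n 0 +
      (p 0 ^ 2 - p 1 ^ 2 + p 2 ^ 2 - p 3 ^ 2) * n 1 + 2 * (p 2 * p 3 - p 0 * p 1) * n 2 := by
    rw [hm, Rm1]
  have m2 : m 2 = 2 * (p 1 * p 3 - p 0 * p 2) * n 0 + 2 * (p 2 * p 3 + p 0 * p 1) * n 1 +
      (p 0 ^ 2 - p 1 ^ 2 - p 2 ^ 2 + p 3 ^ 2) * n 2 := by rw [hm, Rm2]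
  -- the vector identity `R n × R v = nq R (n × v)`
  have c0 : m 1 * (Rm p *ᵥ v) 2 - m 2 * (Rm p *ᵥ v) 1 = nq p * (Rm p *ᵥ cr n v) 0 := by
    rw [Rm0, Rm1, Rm2, m1, m2]
    simp only [cr, nq, Matrix.cons_val_zero, Matrix.cons_val_one, Matrix.cons_val]
    ring
  have c1 : m 2 * (Rm p *ᵥ v) 0 - m 0 * (Rm p *ᵥ v) 2 = nq p * (Rm p *ᵥ cr n v) 1 := by
    rw [Rm0, Rm1, Rm2, m0, m2]
    simp only [cr, nq, Matrix.cons_val_zero, Matrix.cons_val_one, Matrix.cons_val]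
    ring
  have c2 : m 0 * (Rm p *ᵥ v) 1 - m 1 * (Rm p *ᵥ v) 0 = nq p * (Rm p *ᵥ cr n v) 2 := by
    rw [Rm0, Rm1, Rm2, m0, m1]
    simp only [cr, nq, Matrix.cons_val_zero, Matrix.cons_val_one, Matrix.cons_val]
    ring
  have h7 : y ⬝ᵥ v = nq p * (cr F1 F2 ⬝ᵥ (Rm p *ᵥ cr n v)) := by
    have e1 : nq p * (cr F1 F2 ⬝ᵥ (Rm p *ᵥ cr n v)) =
        (F1 1 * F2 2 - F1 2 * F2 1) * (nq p * (Rm p *ᵥ cr n v) 0) +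
        (F1 2 * F2 0 - F1 0 * F2 2) * (nq p * (Rm p *ᵥ cr n v) 1) +
        (F1 0 * F2 1 - F1 1 * F2 0) * (nq p * (Rm p *ᵥ cr n v) 2) := by
      rw [dot3]
      have q0 : cr F1 F2 0 = F1 1 * F2 2 - F1 2 * F2 1 := rfl
      have q1 : cr F1 F2 1 = F1 2 * F2 0 - F1 0 * F2 2 := rfl
      have q2 : cr F1 F2 2 = F1 0 * F2 1 - F1 1 * F2 0 := rfl
      rw [q0, q1, q2]; ring
    have e2 : ∀ i, y' i = (F1 ⬝ᵥ m) * F2 i - (F2 ⬝ᵥ m) * F1 i := by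
      intro i; rw [hy']; rfl
    rw [hadj, e1, ← c0, ← c1, ← c2, dot3, e2, e2, e2, dot3, dot3]
    ring
  have h8 : y' ⬝ᵥ z = (F1 ⬝ᵥ m) * (F2 ⬝ᵥ z) - (F2 ⬝ᵥ m) * (F1 ⬝ᵥ z) := by
    rw [hy', sub_dotProduct, smul_dotProduct, smul_dotProduct, smul_eq_mul, smul_eq_mul]
  rw [h6, h7, h8] at h5
  have h9 : c * (cr F1 F2 ⬝ᵥ (Rm p *ᵥ cr n v)) ≤
      (F1 ⬝ᵥ m) * (F2 ⬝ᵥ z) - (F2 ⬝ᵥ m) * (F1 ⬝ᵥ z) := by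
    have hpp : 0 < nq p ^ 2 := by positivity
    have h10 : nq p ^ 2 * (c * (cr F1 F2 ⬝ᵥ (Rm p *ᵥ cr n v))) ≤
        nq p ^ 2 * ((F1 ⬝ᵥ m) * (F2 ⬝ᵥ z) - (F2 ⬝ᵥ m) * (F1 ⬝ᵥ z)) := by
      calc nq p ^ 2 * (c * (cr F1 F2 ⬝ᵥ (Rm p *ᵥ cr n v)))
          = c * nq p * (nq p * (cr F1 F2 ⬝ᵥ (Rm p *ᵥ cr n v))) := by ring
        _ ≤ _ := h5
    exact le_of_mul_le_mul_left h10 hpp
  rw [← hm] at h3 h4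
  unfold GG
  rw [← hm, sub_dotProduct]
  nlinarith [mul_le_mul_of_nonneg_left (h2 z hz) h3,
    mul_le_mul_of_nonneg_left (h1 z hz) (neg_nonneg.2 h4)]

theorem con2 (V : Set (Fin 3 → ℝ)) (c : ℝ) (p : Fin 4 → ℝ) (n : Fin 3 → ℝ)
    (hV : ∀ z ∈ V, ![-z 0, z 1, z 2] ∈ V) (hW : WQ V c p n) :
    WQ V c ![p 0, p 1, -p 2, -p 3] ![-n 0, n 1, n 2] := by
  intro y hy v hv
  obtain ⟨z, hz, h⟩ := hW ![-y 0, y 1, y 2] (by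
    rw [dot3] at hy ⊢
    simp only [Matrix.cons_val_zero, Matrix.cons_val_one, Matrix.cons_val] at hy ⊢
    linarith) _ (hV v hv)
  refine ⟨_, hV z hz, ?_⟩
  rw [dot3, dot3, Rm0, Rm1, Rm2] at h ⊢
  simp only [nq, Matrix.cons_val_zero, Matrix.cons_val_one, Matrix.cons_val] at h ⊢
  nlinarith [h]

theorem con3 (V : Set (Fin 3 → ℝ)) (c c' : ℝ) (p : Fin 4 → ℝ) (n : Fin 3 → ℝ)
    (hV : ∀ z ∈ V, -z ∈ V) (hc' : 0 < c') (hcc : c' ≤ c) (hW : WQ V c p n) : WQ V c' p n := by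
  intro y hy v hv
  have hq := nq_nonneg p
  rcases le_or_gt 0 (y ⬝ᵥ v) with h | h
  · obtain ⟨z, hz, h1⟩ := hW y hy v hv
    refine ⟨z, hz, le_trans ?_ h1⟩
    exact mul_le_mul_of_nonneg_right (mul_le_mul_of_nonneg_right hcc hq) h
  · obtain ⟨z, hz, h1⟩ := hW y hy (-v) (hV v hv)
    refine ⟨z, hz, ?_⟩
    rw [dotProduct_neg] at h1
    have h2 : 0 ≤ c * nq p * -(y ⬝ᵥ v) :=
      mul_nonneg (mul_nonneg (hc'.le.trans hcc) hq) (by linarith)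
    have h3 : c' * nq p * (y ⬝ᵥ v) ≤ 0 :=
      mul_nonpos_of_nonneg_of_nonpos (mul_nonneg hc'.le hq) h.le
    linarith

theorem con : S_CON := ⟨con1, con2, con3⟩

end Pool.Agent.H315.NW
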