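import Pool.Agent.H315.NW.MkD

/-!
# Project NW (helper315): the six root cells cover the domain
-/

set_option autoImplicit false

namespace Pool.Agent.H315.NW

open Matrix

/-- root cells -/
def rc0 (A B : ℕ) : Cell := ⟨0, 0, 0, 1114112, 0, 0, 1114112, 1114112, 0, 1114112, 1114112,
  1114112, 0, 0, 0, B, A, 0⟩
/-- root cells -/
def rc1 (A B : ℕ) : Cell := ⟨0, 0, 0, 1114112, 0, 0, 1114112, 0, 1114112, 1114112, 1114112,
  1114112, 0, 0, 0, B, A, 0⟩
/-- root cells -/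
def rc2 (A B : ℕ) : Cell := ⟨0, 0, 0, 0, 1114112, 0, 1114112, 1114112, 0, 1114112, 1114112,
  1114112, 0, 0, 0, B, A, 0⟩
/-- root cells -/
def rc3 (A B : ℕ) : Cell := ⟨0, 0, 0, 0, 1114112, 0, 0, 1114112, 1114112, 1114112, 1114112,
  1114112, 0, 0, 0, B, A, 0⟩
/-- root cells -/
def rc4 (A B : ℕ) : Cell := ⟨0, 0, 0, 0, 0, 1114112, 1114112, 0, 1114112, 1114112, 1114112,
  1114112, 0, 0, 0, B, A, 0⟩
/-- root cells -/
def rc5 (A B : ℕ) : Cell := ⟨0, 0, 0, 0, 0, 1114112, 0, 1114112, 1114112, 1114112, 1114112,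
  1114112, 0, 0, 0, B, A, 0⟩

/-- the four weights of a sorted triple -/
noncomputable def wt4 (x y z : ℝ) : Fin 4 → ℝ :=
  ![(557056 - x) / 1114112, (x - y) / 1114112, (y - z) / 1114112, (z + 557056) / 1114112]

theorem wt4_nonneg {x y z : ℝ} (hx : x ≤ 557056) (hy : y ≤ x) (hz : z ≤ y) (h : -557056 ≤ z) :
    ∀ i, 0 ≤ wt4 x y z i := by
  intro i
  fin_cases i <;> simp only [wt4, Fin.zero_eta, Fin.mk_one, Fin.reduceFinMk,
    Matrix.cons_val_zero, Matrix.cons_val_one, Matrix.cons_val] <;>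
    apply div_nonneg <;> linarith

theorem wt4_sum (x y z : ℝ) : ∑ i, wt4 x y z i = 1 := by
  simp only [wt4, Fin.sum_univ_four, Matrix.cons_val_zero, Matrix.cons_val_one, Matrix.cons_val]
  ring

/-- the three weights of a direction -/
noncomputable def wt3 (A B x y : ℝ) : Fin 3 → ℝ := ![1 - x / A - y / B, y / B, x / A]

theorem wt3_nonneg {A B x y : ℝ} (hA : 0 < A) (hB : 0 < B) (hx : 0 ≤ x) (hy : 0 ≤ y)
    (h : x / A + y / B ≤ 1) : ∀ i, 0 ≤ wt3 A B x y i := by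
  intro i
  fin_cases i
  · change 0 ≤ 1 - x / A - y / B
    linarith
  · exact div_nonneg hy hB.le
  · exact div_nonneg hx hA.le

theorem wt3_sum (A B x y : ℝ) : ∑ i, wt3 A B x y i = 1 := by
  simp only [wt3, Fin.sum_univ_three, Matrix.cons_val_zero, Matrix.cons_val_one, Matrix.cons_val]
  ring

theorem cover {A B : ℕ} (hA : 0 < A) (hB : 0 < B) {p : Fin 4 → ℝ} {n : Fin 3 → ℝ}
    (h0 : p 0 = SP) (h1 : |p 1| ≤ 557056) (h2 : |p 2| ≤ 557056) (h3 : |p 3| ≤ 557056)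
    (hn0 : 0 ≤ n 0) (hn1 : 0 ≤ n 1) (hn2 : n 2 = SN) (hn : n 0 / A + n 1 / B ≤ 1) :
    InC (rc0 A B) p n ∨ InC (rc1 A B) p n ∨ InC (rc2 A B) p n ∨ InC (rc3 A B) p n ∨
      InC (rc4 A B) p n ∨ InC (rc5 A B) p n := by
  rw [abs_le] at h1 h2 h3
  have hA' : (0 : ℝ) < A := by exact_mod_cast hA
  have hB' : (0 : ℝ) < B := by exact_mod_cast hB
  have w3 := wt3_nonneg hA' hB' hn0 hn1 hn
  have w3s := wt3_sum (A : ℝ) B (n 0) (n 1)
  have hN : n = ∑ i, wt3 A B (n 0) (n 1) i •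
      (![mN 0 0, mN 0 B, mN A 0] : Fin 3 → Fin 3 → ℝ) i := by
    funext k
    fin_cases k <;>
      simp only [Fin.sum_univ_three, wt3, mN, Pi.add_apply, Pi.smul_apply, smul_eq_mul,
        Fin.zero_eta, Fin.mk_one, Fin.reduceFinMk, Matrix.cons_val_zero, Matrix.cons_val_one,
        Matrix.cons_val]
    · push_cast; field_simp; ring
    · push_cast; field_simp; ring
    · rw [hn2]; ring
  have hP : ∀ k, p k = (![p 0, p 1, p 2, p 3] : Fin 4 → ℝ) k := by
    intro k; fin_cases k <;> rfl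
  rcases le_total (p 1) (p 2) with c12 | c12 <;> rcases le_total (p 2) (p 3) with c23 | c23 <;>
    rcases le_total (p 1) (p 3) with c13 | c13
  · right; right; right; right; right
    refine ⟨wt4 (p 3) (p 2) (p 1), _, wt4_nonneg h3.2 c23 c12 h1.1, w3, wt4_sum _ _ _, w3s, ?_,
      by rw [Nr_eq]; exact hN⟩
    rw [Pr_eq]; funext k
    simp only [rc5, Fin.sum_univ_four, wt4, mP, SP, LP] at *
    fin_cases k <;> simp [h0] <;> ring
  · right; right; right; right; right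
    refine ⟨wt4 (p 3) (p 2) (p 1), _, wt4_nonneg h3.2 c23 c12 h1.1, w3, wt4_sum _ _ _, w3s, ?_,
      by rw [Nr_eq]; exact hN⟩
    rw [Pr_eq]; funext k
    simp only [rc5, Fin.sum_univ_four, wt4, mP, SP, LP] at *
    fin_cases k <;> simp [h0] <;> ring
  · right; right; right; left
    refine ⟨wt4 (p 2) (p 3) (p 1), _, wt4_nonneg h2.2 c23 c13 h1.1, w3, wt4_sum _ _ _, w3s, ?_,
      by rw [Nr_eq]; exact hN⟩
    rw [Pr_eq]; funext k
    simp only [rc3, Fin.sum_univ_four, wt4, mP, SP, LP] at *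
    fin_cases k <;> simp [h0] <;> ring
  · right; right; left
    refine ⟨wt4 (p 2) (p 1) (p 3), _, wt4_nonneg h2.2 c12 c13 h3.1, w3, wt4_sum _ _ _, w3s, ?_,
      by rw [Nr_eq]; exact hN⟩
    rw [Pr_eq]; funext k
    simp only [rc2, Fin.sum_univ_four, wt4, mP, SP, LP] at *
    fin_cases k <;> simp [h0] <;> ring
  · right; right; right; right; left
    refine ⟨wt4 (p 3) (p 1) (p 2), _, wt4_nonneg h3.2 c13 c12 h2.1, w3, wt4_sum _ _ _, w3s, ?_,
      by rw [Nr_eq]; exact hN⟩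
    rw [Pr_eq]; funext k
    simp only [rc4, Fin.sum_univ_four, wt4, mP, SP, LP] at *
    fin_cases k <;> simp [h0] <;> ring
  · right; left
    refine ⟨wt4 (p 1) (p 3) (p 2), _, wt4_nonneg h1.2 c13 c23 h2.1, w3, wt4_sum _ _ _, w3s, ?_,
      by rw [Nr_eq]; exact hN⟩
    rw [Pr_eq]; funext k
    simp only [rc1, Fin.sum_univ_four, wt4, mP, SP, LP] at *
    fin_cases k <;> simp [h0] <;> ring
  · left
    refine ⟨wt4 (p 1) (p 2) (p 3), _, wt4_nonneg h1.2 c12 c23 h3.1, w3, wt4_sum _ _ _, w3s, ?_,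
      by rw [Nr_eq]; exact hN⟩
    rw [Pr_eq]; funext k
    simp only [rc0, Fin.sum_univ_four, wt4, mP, SP, LP] at *
    fin_cases k <;> simp [h0] <;> ring
  · left
    refine ⟨wt4 (p 1) (p 2) (p 3), _, wt4_nonneg h1.2 c12 c23 h3.1, w3, wt4_sum _ _ _, w3s, ?_,
      by rw [Nr_eq]; exact hN⟩
    rw [Pr_eq]; funext k
    simp only [rc0, Fin.sum_univ_four, wt4, mP, SP, LP] at *
    fin_cases k <;> simp [h0] <;> ring

/-- homogeneity of the weak passage -/
theorem WQ_smul {V : Set (Fin 3 → ℝ)} {c : ℝ} {p : Fin 4 → ℝ} {n : Fin 3 → ℝ} (h : WQ V c p n)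
    {s t : ℝ} (hs : s ≠ 0) (ht : t ≠ 0) : WQ V c (fun i => s * p i) (fun i => t * n i) := by
  intro y hy v hv
  have hy' : y ⬝ᵥ n = 0 := by
    have : y ⬝ᵥ (fun i => t * n i) = t * (y ⬝ᵥ n) := by
      simp only [dotProduct, Finset.mul_sum]
      exact Finset.sum_congr rfl fun i _ => by ring
    rw [this] at hy
    exact (mul_eq_zero.1 hy).resolve_left ht
  obtain ⟨z, hz, hz2⟩ := h y hy' v hv
  refine ⟨z, hz, ?_⟩
  have e1 : nq (fun i => s * p i) = s ^ 2 * nq p := by unfold nq; ring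
  have e2 : (Rm (fun i => s * p i) *ᵥ y) ⬝ᵥ z = s ^ 2 * ((Rm p *ᵥ y) ⬝ᵥ z) := by
    simp only [Rm, dotProduct, mulVec, Fin.sum_univ_three, Matrix.of_apply,
      Matrix.cons_val_zero, Matrix.cons_val_one, Matrix.cons_val]
    ring
  rw [e1, e2]
  have := mul_le_mul_of_nonneg_left hz2 (sq_nonneg s)
  linarith

end Pool.Agent.H315.NW
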