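import Pool.Agent.H315.NW.MkD
import Pool.Agent.H315.NW.Data

/-!
# Project NW (helper315): the data of the polyhedra over `ℤ[φ]` (generated)
-/

set_option autoImplicit false
set_option maxRecDepth 10000
set_option linter.unusedSimpArgs false

namespace Pool.Agent.H315.NW

open Matrix

deriving instance DecidableEq for Z3
deriving instance DecidableEq for ER

/-- vertices -/
def vsI : List ZT := [
    ⟨(0, 0), (1, 0), (0, 1)⟩,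
    ⟨(1, 0), (0, 1), (0, 0)⟩,
    ⟨(0, 1), (0, 0), (1, 0)⟩,
    ⟨(0, 0), (1, 0), (0, -1)⟩,
    ⟨(1, 0), (0, -1), (0, 0)⟩,
    ⟨(0, -1), (0, 0), (1, 0)⟩,
    ⟨(0, 0), (-1, 0), (0, 1)⟩,
    ⟨(-1, 0), (0, 1), (0, 0)⟩,
    ⟨(0, 1), (0, 0), (-1, 0)⟩,
    ⟨(0, 0), (-1, 0), (0, -1)⟩,
    ⟨(-1, 0), (0, -1), (0, 0)⟩,
    ⟨(0, -1), (0, 0), (-1, 0)⟩]

/-- faces -/
def fsI : List ZT := [
    ⟨(1, 0), (1, 0), (1, 0)⟩,
    ⟨(1, 0), (1, 0), (-1, 0)⟩,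
    ⟨(1, 0), (-1, 0), (1, 0)⟩,
    ⟨(1, 0), (-1, 0), (-1, 0)⟩,
    ⟨(-1, 0), (1, 0), (1, 0)⟩,
    ⟨(-1, 0), (1, 0), (-1, 0)⟩,
    ⟨(-1, 0), (-1, 0), (1, 0)⟩,
    ⟨(-1, 0), (-1, 0), (-1, 0)⟩,
    ⟨(-1, 1), (0, 0), (0, 1)⟩,
    ⟨(0, 0), (0, 1), (-1, 1)⟩,
    ⟨(0, 1), (-1, 1), (0, 0)⟩,
    ⟨(-1, 1), (0, 0), (0, -1)⟩,
    ⟨(0, 0), (0, -1), (-1, 1)⟩,
    ⟨(0, -1), (-1, 1), (0, 0)⟩,
    ⟨(1, -1), (0, 0), (0, 1)⟩,
    ⟨(0, 0), (0, 1), (1, -1)⟩,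
    ⟨(0, 1), (1, -1), (0, 0)⟩,
    ⟨(1, -1), (0, 0), (0, -1)⟩,
    ⟨(0, 0), (0, -1), (1, -1)⟩,
    ⟨(0, -1), (1, -1), (0, 0)⟩]

/-- pairs of adjacent faces -/
def idxI : List (ℕ × ℕ) := [
    (0, 8), (0, 9), (0, 10), (1, 10), (1, 11), (1, 15), (2, 8), (2, 12), (2, 16), (3, 11),
    (3, 16), (3, 18), (4, 9), (4, 13), (4, 14), (5, 13), (5, 15), (5, 17), (6, 12), (6, 14),
    (6, 19), (7, 17), (7, 18), (7, 19), (8, 0), (8, 2), (8, 14), (9, 0), (9, 4), (9, 15),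
    (10, 0), (10, 1), (10, 16), (11, 1), (11, 3), (11, 17), (12, 2), (12, 6), (12, 18), (13, 4),
    (13, 5), (13, 19), (14, 4), (14, 6), (14, 8), (15, 1), (15, 5), (15, 9), (16, 2), (16, 3),
    (16, 10), (17, 5), (17, 7), (17, 11), (18, 3), (18, 7), (18, 12), (19, 6), (19, 7), (19, 13)]

/-- the domain -/
def osI : List ((ℤ × ℤ) × ZT) := [
    ((-2, 1), ⟨(0, 0), (-1, 1), (1, 0)⟩),
    ((-2, 1), ⟨(-1, 1), (1, 0), (0, 0)⟩),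
    ((-2, 1), ⟨(1, 0), (0, 0), (-1, 1)⟩),
    ((-2, 1), ⟨(0, 0), (-1, 1), (-1, 0)⟩),
    ((-2, 1), ⟨(-1, 1), (-1, 0), (0, 0)⟩),
    ((-2, 1), ⟨(-1, 0), (0, 0), (-1, 1)⟩),
    ((-2, 1), ⟨(0, 0), (1, -1), (1, 0)⟩),
    ((-2, 1), ⟨(1, -1), (1, 0), (0, 0)⟩),
    ((-2, 1), ⟨(1, 0), (0, 0), (1, -1)⟩),
    ((-2, 1), ⟨(0, 0), (1, -1), (-1, 0)⟩),
    ((-2, 1), ⟨(1, -1), (-1, 0), (0, 0)⟩),
    ((-2, 1), ⟨(-1, 0), (0, 0), (1, -1)⟩)]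

theorem edgesI : datI.edges = idxI.map (mkE fsI) := by decide +kernel
theorem vertsI : datI.verts = vsI.map ZT.ap := by decide +kernel
theorem facesI : datI.faces = fsI.map ZT.ap2 := by decide +kernel
theorem outsI : datI.outs = osI.map fun o => (Zp.ap o.1, o.2.ap) := by decide +kernel
theorem chkEI : ∀ ij ∈ idxI, chkE fsI ij = true := by decide +kernel
theorem chkVI : ∀ v ∈ vsI, v.sm = true ∧ bnd3 v.ap 45 = true := by decide +kernel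
theorem chkFI : ∀ F ∈ fsI, F.sm = true ∧ bnd3 F.ap2 103 = true := by decide +kernel
theorem chkOI : ∀ o ∈ osI, o.2.sm = true ∧ |o.1.2| ≤ 2 := by decide +kernel
theorem chkSI : ∀ F ∈ ZT0 :: fsI, ∀ v ∈ vsI, Zp.nn (Zp.sub (1, 1) (ZT.dot F v)) = true := by
  decide +kernel

/-- vertices -/
def vsD : List ZT := [
    ⟨(1, 0), (1, 0), (1, 0)⟩,
    ⟨(1, 0), (1, 0), (-1, 0)⟩,
    ⟨(1, 0), (-1, 0), (1, 0)⟩,
    ⟨(1, 0), (-1, 0), (-1, 0)⟩,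
    ⟨(-1, 0), (1, 0), (1, 0)⟩,
    ⟨(-1, 0), (1, 0), (-1, 0)⟩,
    ⟨(-1, 0), (-1, 0), (1, 0)⟩,
    ⟨(-1, 0), (-1, 0), (-1, 0)⟩,
    ⟨(0, 0), (-1, 1), (0, 1)⟩,
    ⟨(-1, 1), (0, 1), (0, 0)⟩,
    ⟨(0, 1), (0, 0), (-1, 1)⟩,
    ⟨(0, 0), (-1, 1), (0, -1)⟩,
    ⟨(-1, 1), (0, -1), (0, 0)⟩,
    ⟨(0, -1), (0, 0), (-1, 1)⟩,
    ⟨(0, 0), (1, -1), (0, 1)⟩,
    ⟨(1, -1), (0, 1), (0, 0)⟩,
    ⟨(0, 1), (0, 0), (1, -1)⟩,
    ⟨(0, 0), (1, -1), (0, -1)⟩,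
    ⟨(1, -1), (0, -1), (0, 0)⟩,
    ⟨(0, -1), (0, 0), (1, -1)⟩]

/-- faces -/
def fsD : List ZT := [
    ⟨(0, 0), (0, 1), (1, 0)⟩,
    ⟨(0, 1), (1, 0), (0, 0)⟩,
    ⟨(1, 0), (0, 0), (0, 1)⟩,
    ⟨(0, 0), (0, -1), (1, 0)⟩,
    ⟨(0, -1), (1, 0), (0, 0)⟩,
    ⟨(1, 0), (0, 0), (0, -1)⟩,
    ⟨(0, 0), (0, 1), (-1, 0)⟩,
    ⟨(0, 1), (-1, 0), (0, 0)⟩,
    ⟨(-1, 0), (0, 0), (0, 1)⟩,
    ⟨(0, 0), (0, -1), (-1, 0)⟩,
    ⟨(0, -1), (-1, 0), (0, 0)⟩,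
    ⟨(-1, 0), (0, 0), (0, -1)⟩]

/-- pairs of adjacent faces -/
def idxD : List (ℕ × ℕ) := [
    (0, 1), (0, 2), (0, 4), (0, 6), (0, 8), (1, 0), (1, 2), (1, 5), (1, 6), (1, 7),
    (2, 0), (2, 1), (2, 3), (2, 7), (2, 8), (3, 2), (3, 7), (3, 8), (3, 9), (3, 10),
    (4, 0), (4, 6), (4, 8), (4, 10), (4, 11), (5, 1), (5, 6), (5, 7), (5, 9), (5, 11),
    (6, 0), (6, 1), (6, 4), (6, 5), (6, 11), (7, 1), (7, 2), (7, 3), (7, 5), (7, 9),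
    (8, 0), (8, 2), (8, 3), (8, 4), (8, 10), (9, 3), (9, 5), (9, 7), (9, 10), (9, 11),
    (10, 3), (10, 4), (10, 8), (10, 9), (10, 11), (11, 4), (11, 5), (11, 6), (11, 9), (11, 10)]

/-- the domain -/
def osD : List ((ℤ × ℤ) × ZT) := [
    ((-2, 1), ⟨(0, 0), (1, 0), (-1, 1)⟩),
    ((-2, 1), ⟨(1, 0), (-1, 1), (0, 0)⟩),
    ((-2, 1), ⟨(-1, 1), (0, 0), (1, 0)⟩),
    ((-2, 1), ⟨(0, 0), (-1, 0), (-1, 1)⟩),
    ((-2, 1), ⟨(-1, 0), (-1, 1), (0, 0)⟩),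
    ((-2, 1), ⟨(-1, 1), (0, 0), (-1, 0)⟩),
    ((-2, 1), ⟨(0, 0), (1, 0), (1, -1)⟩),
    ((-2, 1), ⟨(1, 0), (1, -1), (0, 0)⟩),
    ((-2, 1), ⟨(1, -1), (0, 0), (1, 0)⟩),
    ((-2, 1), ⟨(0, 0), (-1, 0), (1, -1)⟩),
    ((-2, 1), ⟨(-1, 0), (1, -1), (0, 0)⟩),
    ((-2, 1), ⟨(1, -1), (0, 0), (-1, 0)⟩)]

theorem edgesD : datD.edges = idxD.map (mkE fsD) := by decide +kernel
theorem vertsD : datD.verts = vsD.map ZT.ap := by decide +kernel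
theorem facesD : datD.faces = fsD.map ZT.ap2 := by decide +kernel
theorem outsD : datD.outs = osD.map fun o => (Zp.ap o.1, o.2.ap) := by decide +kernel
theorem chkED : ∀ ij ∈ idxD, chkE fsD ij = true := by decide +kernel
theorem chkVD : ∀ v ∈ vsD, v.sm = true ∧ bnd3 v.ap 45 = true := by decide +kernel
theorem chkFD : ∀ F ∈ fsD, F.sm = true ∧ bnd3 F.ap2 103 = true := by decide +kernel
theorem chkOD : ∀ o ∈ osD, o.2.sm = true ∧ |o.1.2| ≤ 2 := by decide +kernel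
theorem chkSD : ∀ F ∈ ZT0 :: fsD, ∀ v ∈ vsD, Zp.nn (Zp.sub (1, 1) (ZT.dot F v)) = true := by
  decide +kernel

theorem zv00 : Zp.zv (0, 0) = 0 := by simp [Zp.zv]
theorem zv10 : Zp.zv (1, 0) = 1 := by simp [Zp.zv]
theorem zvn10 : Zp.zv (-1, 0) = -1 := by simp [Zp.zv]
theorem zv01 : Zp.zv (0, 1) = g := by simp [Zp.zv]
theorem zv0n1 : Zp.zv (0, -1) = -g := by simp [Zp.zv]
theorem ginv' : 1 / g = g - 1 := by
  have h : g ^ 2 = g + 1 := Real.goldenRatio_sq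
  have h0 : g ≠ 0 := Real.goldenRatio_pos.ne'
  rw [div_eq_iff h0]; linarith
theorem zvn11 : Zp.zv (-1, 1) = 1 / g := by rw [ginv']; simp [Zp.zv]; ring
theorem zv1n1 : Zp.zv (1, -1) = -1 / g := by
  have : -1 / g = -(1 / g) := by ring
  rw [this, ginv']; simp [Zp.zv]; ring

theorem mem_vsI : ∀ z ∈ VI, ∃ v ∈ vsI, z = v.r := by
  rintro z ⟨s, t, hs, ht, h⟩
  rcases hs with rfl | rfl <;> rcases ht with rfl | rfl <;> rcases h with rfl | rfl | rfl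
  · refine ⟨⟨(0, 0), (1, 0), (0, 1)⟩, by simp [vsI], ?_⟩
    funext i; fin_cases i <;> simp [ZT.r, zv00, zv10, zvn10, zv01, zv0n1]
  · refine ⟨⟨(1, 0), (0, 1), (0, 0)⟩, by simp [vsI], ?_⟩
    funext i; fin_cases i <;> simp [ZT.r, zv00, zv10, zvn10, zv01, zv0n1]
  · refine ⟨⟨(0, 1), (0, 0), (1, 0)⟩, by simp [vsI], ?_⟩
    funext i; fin_cases i <;> simp [ZT.r, zv00, zv10, zvn10, zv01, zv0n1]
  · refine ⟨⟨(0, 0), (1, 0), (0, -1)⟩, by simp [vsI], ?_⟩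
    funext i; fin_cases i <;> simp [ZT.r, zv00, zv10, zvn10, zv01, zv0n1]
  · refine ⟨⟨(1, 0), (0, -1), (0, 0)⟩, by simp [vsI], ?_⟩
    funext i; fin_cases i <;> simp [ZT.r, zv00, zv10, zvn10, zv01, zv0n1]
  · refine ⟨⟨(0, -1), (0, 0), (1, 0)⟩, by simp [vsI], ?_⟩
    funext i; fin_cases i <;> simp [ZT.r, zv00, zv10, zvn10, zv01, zv0n1]
  · refine ⟨⟨(0, 0), (-1, 0), (0, 1)⟩, by simp [vsI], ?_⟩
    funext i; fin_cases i <;> simp [ZT.r, zv00, zv10, zvn10, zv01, zv0n1]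
  · refine ⟨⟨(-1, 0), (0, 1), (0, 0)⟩, by simp [vsI], ?_⟩
    funext i; fin_cases i <;> simp [ZT.r, zv00, zv10, zvn10, zv01, zv0n1]
  · refine ⟨⟨(0, 1), (0, 0), (-1, 0)⟩, by simp [vsI], ?_⟩
    funext i; fin_cases i <;> simp [ZT.r, zv00, zv10, zvn10, zv01, zv0n1]
  · refine ⟨⟨(0, 0), (-1, 0), (0, -1)⟩, by simp [vsI], ?_⟩
    funext i; fin_cases i <;> simp [ZT.r, zv00, zv10, zvn10, zv01, zv0n1]
  · refine ⟨⟨(-1, 0), (0, -1), (0, 0)⟩, by simp [vsI], ?_⟩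
    funext i; fin_cases i <;> simp [ZT.r, zv00, zv10, zvn10, zv01, zv0n1]
  · refine ⟨⟨(0, -1), (0, 0), (-1, 0)⟩, by simp [vsI], ?_⟩
    funext i; fin_cases i <;> simp [ZT.r, zv00, zv10, zvn10, zv01, zv0n1]

theorem vsI_mem : ∀ v ∈ vsI, v.r ∈ VI := by
  intro v hv
  simp only [vsI, List.mem_cons, List.not_mem_nil, or_false] at hv
  rcases hv with rfl | rfl | rfl | rfl | rfl | rfl | rfl | rfl | rfl | rfl | rfl | rfl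
  · refine ⟨1, 1, Or.inl rfl, Or.inl rfl, Or.inl ?_⟩
    funext i; fin_cases i <;> simp [ZT.r, zv00, zv10, zvn10, zv01, zv0n1]
  · refine ⟨1, 1, Or.inl rfl, Or.inl rfl, Or.inr (Or.inl ?_)⟩
    funext i; fin_cases i <;> simp [ZT.r, zv00, zv10, zvn10, zv01, zv0n1]
  · refine ⟨1, 1, Or.inl rfl, Or.inl rfl, Or.inr (Or.inr ?_)⟩
    funext i; fin_cases i <;> simp [ZT.r, zv00, zv10, zvn10, zv01, zv0n1]
  · refine ⟨1, -1, Or.inl rfl, Or.inr rfl, Or.inl ?_⟩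
    funext i; fin_cases i <;> simp [ZT.r, zv00, zv10, zvn10, zv01, zv0n1]
  · refine ⟨1, -1, Or.inl rfl, Or.inr rfl, Or.inr (Or.inl ?_)⟩
    funext i; fin_cases i <;> simp [ZT.r, zv00, zv10, zvn10, zv01, zv0n1]
  · refine ⟨1, -1, Or.inl rfl, Or.inr rfl, Or.inr (Or.inr ?_)⟩
    funext i; fin_cases i <;> simp [ZT.r, zv00, zv10, zvn10, zv01, zv0n1]
  · refine ⟨-1, 1, Or.inr rfl, Or.inl rfl, Or.inl ?_⟩
    funext i; fin_cases i <;> simp [ZT.r, zv00, zv10, zvn10, zv01, zv0n1]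
  · refine ⟨-1, 1, Or.inr rfl, Or.inl rfl, Or.inr (Or.inl ?_)⟩
    funext i; fin_cases i <;> simp [ZT.r, zv00, zv10, zvn10, zv01, zv0n1]
  · refine ⟨-1, 1, Or.inr rfl, Or.inl rfl, Or.inr (Or.inr ?_)⟩
    funext i; fin_cases i <;> simp [ZT.r, zv00, zv10, zvn10, zv01, zv0n1]
  · refine ⟨-1, -1, Or.inr rfl, Or.inr rfl, Or.inl ?_⟩
    funext i; fin_cases i <;> simp [ZT.r, zv00, zv10, zvn10, zv01, zv0n1]
  · refine ⟨-1, -1, Or.inr rfl, Or.inr rfl, Or.inr (Or.inl ?_)⟩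
    funext i; fin_cases i <;> simp [ZT.r, zv00, zv10, zvn10, zv01, zv0n1]
  · refine ⟨-1, -1, Or.inr rfl, Or.inr rfl, Or.inr (Or.inr ?_)⟩
    funext i; fin_cases i <;> simp [ZT.r, zv00, zv10, zvn10, zv01, zv0n1]

theorem mem_vsD : ∀ z ∈ VD, ∃ v ∈ vsD, z = v.r := by
  rintro z ⟨r, s, t, hr, hs, ht, h⟩
  rcases hr with rfl | rfl <;> rcases hs with rfl | rfl <;> rcases ht with rfl | rfl <;>
    rcases h with rfl | rfl | rfl | rfl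
  · refine ⟨⟨(1, 0), (1, 0), (1, 0)⟩, by simp [vsD], ?_⟩
    funext i; fin_cases i <;> simp [ZT.r, zv00, zv10, zvn10, zv01, zv0n1, zvn11, zv1n1]
  · refine ⟨⟨(0, 0), (-1, 1), (0, 1)⟩, by simp [vsD], ?_⟩
    funext i; fin_cases i <;> simp [ZT.r, zv00, zv10, zvn10, zv01, zv0n1, zvn11, zv1n1]
  · refine ⟨⟨(-1, 1), (0, 1), (0, 0)⟩, by simp [vsD], ?_⟩
    funext i; fin_cases i <;> simp [ZT.r, zv00, zv10, zvn10, zv01, zv0n1, zvn11, zv1n1]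
  · refine ⟨⟨(0, 1), (0, 0), (-1, 1)⟩, by simp [vsD], ?_⟩
    funext i; fin_cases i <;> simp [ZT.r, zv00, zv10, zvn10, zv01, zv0n1, zvn11, zv1n1]
  · refine ⟨⟨(1, 0), (1, 0), (-1, 0)⟩, by simp [vsD], ?_⟩
    funext i; fin_cases i <;> simp [ZT.r, zv00, zv10, zvn10, zv01, zv0n1, zvn11, zv1n1]
  · refine ⟨⟨(0, 0), (-1, 1), (0, -1)⟩, by simp [vsD], ?_⟩
    funext i; fin_cases i <;> simp [ZT.r, zv00, zv10, zvn10, zv01, zv0n1, zvn11, zv1n1]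
  · refine ⟨⟨(-1, 1), (0, -1), (0, 0)⟩, by simp [vsD], ?_⟩
    funext i; fin_cases i <;> simp [ZT.r, zv00, zv10, zvn10, zv01, zv0n1, zvn11, zv1n1]
  · refine ⟨⟨(0, -1), (0, 0), (-1, 1)⟩, by simp [vsD], ?_⟩
    funext i; fin_cases i <;> simp [ZT.r, zv00, zv10, zvn10, zv01, zv0n1, zvn11, zv1n1]
  · refine ⟨⟨(1, 0), (-1, 0), (1, 0)⟩, by simp [vsD], ?_⟩
    funext i; fin_cases i <;> simp [ZT.r, zv00, zv10, zvn10, zv01, zv0n1, zvn11, zv1n1]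
  · refine ⟨⟨(0, 0), (1, -1), (0, 1)⟩, by simp [vsD], ?_⟩
    funext i; fin_cases i <;> simp [ZT.r, zv00, zv10, zvn10, zv01, zv0n1, zvn11, zv1n1]
  · refine ⟨⟨(1, -1), (0, 1), (0, 0)⟩, by simp [vsD], ?_⟩
    funext i; fin_cases i <;> simp [ZT.r, zv00, zv10, zvn10, zv01, zv0n1, zvn11, zv1n1]
  · refine ⟨⟨(0, 1), (0, 0), (1, -1)⟩, by simp [vsD], ?_⟩
    funext i; fin_cases i <;> simp [ZT.r, zv00, zv10, zvn10, zv01, zv0n1, zvn11, zv1n1]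
  · refine ⟨⟨(1, 0), (-1, 0), (-1, 0)⟩, by simp [vsD], ?_⟩
    funext i; fin_cases i <;> simp [ZT.r, zv00, zv10, zvn10, zv01, zv0n1, zvn11, zv1n1]
  · refine ⟨⟨(0, 0), (1, -1), (0, -1)⟩, by simp [vsD], ?_⟩
    funext i; fin_cases i <;> simp [ZT.r, zv00, zv10, zvn10, zv01, zv0n1, zvn11, zv1n1]
  · refine ⟨⟨(1, -1), (0, -1), (0, 0)⟩, by simp [vsD], ?_⟩
    funext i; fin_cases i <;> simp [ZT.r, zv00, zv10, zvn10, zv01, zv0n1, zvn11, zv1n1]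
  · refine ⟨⟨(0, -1), (0, 0), (1, -1)⟩, by simp [vsD], ?_⟩
    funext i; fin_cases i <;> simp [ZT.r, zv00, zv10, zvn10, zv01, zv0n1, zvn11, zv1n1]
  · refine ⟨⟨(-1, 0), (1, 0), (1, 0)⟩, by simp [vsD], ?_⟩
    funext i; fin_cases i <;> simp [ZT.r, zv00, zv10, zvn10, zv01, zv0n1, zvn11, zv1n1]
  · refine ⟨⟨(0, 0), (-1, 1), (0, 1)⟩, by simp [vsD], ?_⟩
    funext i; fin_cases i <;> simp [ZT.r, zv00, zv10, zvn10, zv01, zv0n1, zvn11, zv1n1]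
  · refine ⟨⟨(-1, 1), (0, 1), (0, 0)⟩, by simp [vsD], ?_⟩
    funext i; fin_cases i <;> simp [ZT.r, zv00, zv10, zvn10, zv01, zv0n1, zvn11, zv1n1]
  · refine ⟨⟨(0, 1), (0, 0), (-1, 1)⟩, by simp [vsD], ?_⟩
    funext i; fin_cases i <;> simp [ZT.r, zv00, zv10, zvn10, zv01, zv0n1, zvn11, zv1n1]
  · refine ⟨⟨(-1, 0), (1, 0), (-1, 0)⟩, by simp [vsD], ?_⟩
    funext i; fin_cases i <;> simp [ZT.r, zv00, zv10, zvn10, zv01, zv0n1, zvn11, zv1n1]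
  · refine ⟨⟨(0, 0), (-1, 1), (0, -1)⟩, by simp [vsD], ?_⟩
    funext i; fin_cases i <;> simp [ZT.r, zv00, zv10, zvn10, zv01, zv0n1, zvn11, zv1n1]
  · refine ⟨⟨(-1, 1), (0, -1), (0, 0)⟩, by simp [vsD], ?_⟩
    funext i; fin_cases i <;> simp [ZT.r, zv00, zv10, zvn10, zv01, zv0n1, zvn11, zv1n1]
  · refine ⟨⟨(0, -1), (0, 0), (-1, 1)⟩, by simp [vsD], ?_⟩
    funext i; fin_cases i <;> simp [ZT.r, zv00, zv10, zvn10, zv01, zv0n1, zvn11, zv1n1]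
  · refine ⟨⟨(-1, 0), (-1, 0), (1, 0)⟩, by simp [vsD], ?_⟩
    funext i; fin_cases i <;> simp [ZT.r, zv00, zv10, zvn10, zv01, zv0n1, zvn11, zv1n1]
  · refine ⟨⟨(0, 0), (1, -1), (0, 1)⟩, by simp [vsD], ?_⟩
    funext i; fin_cases i <;> simp [ZT.r, zv00, zv10, zvn10, zv01, zv0n1, zvn11, zv1n1]
  · refine ⟨⟨(1, -1), (0, 1), (0, 0)⟩, by simp [vsD], ?_⟩
    funext i; fin_cases i <;> simp [ZT.r, zv00, zv10, zvn10, zv01, zv0n1, zvn11, zv1n1]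
  · refine ⟨⟨(0, 1), (0, 0), (1, -1)⟩, by simp [vsD], ?_⟩
    funext i; fin_cases i <;> simp [ZT.r, zv00, zv10, zvn10, zv01, zv0n1, zvn11, zv1n1]
  · refine ⟨⟨(-1, 0), (-1, 0), (-1, 0)⟩, by simp [vsD], ?_⟩
    funext i; fin_cases i <;> simp [ZT.r, zv00, zv10, zvn10, zv01, zv0n1, zvn11, zv1n1]
  · refine ⟨⟨(0, 0), (1, -1), (0, -1)⟩, by simp [vsD], ?_⟩
    funext i; fin_cases i <;> simp [ZT.r, zv00, zv10, zvn10, zv01, zv0n1, zvn11, zv1n1]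
  · refine ⟨⟨(1, -1), (0, -1), (0, 0)⟩, by simp [vsD], ?_⟩
    funext i; fin_cases i <;> simp [ZT.r, zv00, zv10, zvn10, zv01, zv0n1, zvn11, zv1n1]
  · refine ⟨⟨(0, -1), (0, 0), (1, -1)⟩, by simp [vsD], ?_⟩
    funext i; fin_cases i <;> simp [ZT.r, zv00, zv10, zvn10, zv01, zv0n1, zvn11, zv1n1]

theorem vsD_mem : ∀ v ∈ vsD, v.r ∈ VD := by
  intro v hv
  simp only [vsD, List.mem_cons, List.not_mem_nil, or_false] at hv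
  rcases hv with rfl | rfl | rfl | rfl | rfl | rfl | rfl | rfl | rfl | rfl | rfl | rfl | rfl | rfl | rfl | rfl | rfl | rfl | rfl | rfl
  · refine ⟨1, 1, 1, Or.inl rfl, Or.inl rfl, Or.inl rfl, Or.inl ?_⟩
    funext i; fin_cases i <;> simp [ZT.r, zv00, zv10, zvn10, zv01, zv0n1, zvn11, zv1n1]
  · refine ⟨1, 1, -1, Or.inl rfl, Or.inl rfl, Or.inr rfl, Or.inl ?_⟩
    funext i; fin_cases i <;> simp [ZT.r, zv00, zv10, zvn10, zv01, zv0n1, zvn11, zv1n1]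
  · refine ⟨1, -1, 1, Or.inl rfl, Or.inr rfl, Or.inl rfl, Or.inl ?_⟩
    funext i; fin_cases i <;> simp [ZT.r, zv00, zv10, zvn10, zv01, zv0n1, zvn11, zv1n1]
  · refine ⟨1, -1, -1, Or.inl rfl, Or.inr rfl, Or.inr rfl, Or.inl ?_⟩
    funext i; fin_cases i <;> simp [ZT.r, zv00, zv10, zvn10, zv01, zv0n1, zvn11, zv1n1]
  · refine ⟨-1, 1, 1, Or.inr rfl, Or.inl rfl, Or.inl rfl, Or.inl ?_⟩
    funext i; fin_cases i <;> simp [ZT.r, zv00, zv10, zvn10, zv01, zv0n1, zvn11, zv1n1]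
  · refine ⟨-1, 1, -1, Or.inr rfl, Or.inl rfl, Or.inr rfl, Or.inl ?_⟩
    funext i; fin_cases i <;> simp [ZT.r, zv00, zv10, zvn10, zv01, zv0n1, zvn11, zv1n1]
  · refine ⟨-1, -1, 1, Or.inr rfl, Or.inr rfl, Or.inl rfl, Or.inl ?_⟩
    funext i; fin_cases i <;> simp [ZT.r, zv00, zv10, zvn10, zv01, zv0n1, zvn11, zv1n1]
  · refine ⟨-1, -1, -1, Or.inr rfl, Or.inr rfl, Or.inr rfl, Or.inl ?_⟩
    funext i; fin_cases i <;> simp [ZT.r, zv00, zv10, zvn10, zv01, zv0n1, zvn11, zv1n1]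
  · refine ⟨1, 1, 1, Or.inl rfl, Or.inl rfl, Or.inl rfl, Or.inr (Or.inl ?_)⟩
    funext i; fin_cases i <;> simp [ZT.r, zv00, zv10, zvn10, zv01, zv0n1, zvn11, zv1n1]
  · refine ⟨1, 1, 1, Or.inl rfl, Or.inl rfl, Or.inl rfl, Or.inr (Or.inr (Or.inl ?_))⟩
    funext i; fin_cases i <;> simp [ZT.r, zv00, zv10, zvn10, zv01, zv0n1, zvn11, zv1n1]
  · refine ⟨1, 1, 1, Or.inl rfl, Or.inl rfl, Or.inl rfl, Or.inr (Or.inr (Or.inr ?_))⟩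
    funext i; fin_cases i <;> simp [ZT.r, zv00, zv10, zvn10, zv01, zv0n1, zvn11, zv1n1]
  · refine ⟨1, 1, -1, Or.inl rfl, Or.inl rfl, Or.inr rfl, Or.inr (Or.inl ?_)⟩
    funext i; fin_cases i <;> simp [ZT.r, zv00, zv10, zvn10, zv01, zv0n1, zvn11, zv1n1]
  · refine ⟨1, 1, -1, Or.inl rfl, Or.inl rfl, Or.inr rfl, Or.inr (Or.inr (Or.inl ?_))⟩
    funext i; fin_cases i <;> simp [ZT.r, zv00, zv10, zvn10, zv01, zv0n1, zvn11, zv1n1]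
  · refine ⟨1, 1, -1, Or.inl rfl, Or.inl rfl, Or.inr rfl, Or.inr (Or.inr (Or.inr ?_))⟩
    funext i; fin_cases i <;> simp [ZT.r, zv00, zv10, zvn10, zv01, zv0n1, zvn11, zv1n1]
  · refine ⟨1, -1, 1, Or.inl rfl, Or.inr rfl, Or.inl rfl, Or.inr (Or.inl ?_)⟩
    funext i; fin_cases i <;> simp [ZT.r, zv00, zv10, zvn10, zv01, zv0n1, zvn11, zv1n1]
  · refine ⟨1, -1, 1, Or.inl rfl, Or.inr rfl, Or.inl rfl, Or.inr (Or.inr (Or.inl ?_))⟩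
    funext i; fin_cases i <;> simp [ZT.r, zv00, zv10, zvn10, zv01, zv0n1, zvn11, zv1n1]
  · refine ⟨1, -1, 1, Or.inl rfl, Or.inr rfl, Or.inl rfl, Or.inr (Or.inr (Or.inr ?_))⟩
    funext i; fin_cases i <;> simp [ZT.r, zv00, zv10, zvn10, zv01, zv0n1, zvn11, zv1n1]
  · refine ⟨1, -1, -1, Or.inl rfl, Or.inr rfl, Or.inr rfl, Or.inr (Or.inl ?_)⟩
    funext i; fin_cases i <;> simp [ZT.r, zv00, zv10, zvn10, zv01, zv0n1, zvn11, zv1n1]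
  · refine ⟨1, -1, -1, Or.inl rfl, Or.inr rfl, Or.inr rfl, Or.inr (Or.inr (Or.inl ?_))⟩
    funext i; fin_cases i <;> simp [ZT.r, zv00, zv10, zvn10, zv01, zv0n1, zvn11, zv1n1]
  · refine ⟨1, -1, -1, Or.inl rfl, Or.inr rfl, Or.inr rfl, Or.inr (Or.inr (Or.inr ?_))⟩
    funext i; fin_cases i <;> simp [ZT.r, zv00, zv10, zvn10, zv01, zv0n1, zvn11, zv1n1]

theorem supp {V : Set (Fin 3 → ℝ)} {fs vs : List ZT} (hm : ∀ z ∈ V, ∃ v ∈ vs, z = v.r)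
    (hc : ∀ F ∈ ZT0 :: fs, ∀ v ∈ vs, Zp.nn (Zp.sub (1, 1) (ZT.dot F v)) = true) (i : ℕ) :
    ∀ z ∈ V, (fget fs i).r ⬝ᵥ z ≤ g ^ 2 := by
  intro z hz
  obtain ⟨v, hv, rfl⟩ := hm z hz
  have hF : fget fs i ∈ ZT0 :: fs := by
    unfold fget
    cases hf : fs[i]? with
    | none => simp
    | some F => exact List.mem_cons_of_mem _ (List.mem_of_getElem? hf)
  have h1 := Zp.nn_spec (hc _ hF v hv)
  rw [Zp.zv_sub, ZT.dot_r] at h1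
  have h2 : Zp.zv (1, 1) = g ^ 2 := by rw [Zp.gsq]; simp [Zp.zv]; ring
  rw [h2] at h1
  linarith

theorem VI_neg : ∀ v ∈ VI, -v ∈ VI := by
  rintro v ⟨s, t, hs, ht, h⟩
  refine ⟨-s, -t, ?_, ?_, ?_⟩
  · rcases hs with rfl | rfl <;> simp
  · rcases ht with rfl | rfl <;> simp
  · rcases h with rfl | rfl | rfl
    · left; funext i; fin_cases i <;> simp
    · right; left; funext i; fin_cases i <;> simp
    · right; right; funext i; fin_cases i <;> simp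

theorem VD_neg : ∀ v ∈ VD, -v ∈ VD := by
  rintro v ⟨r, s, t, hr, hs, ht, h⟩
  refine ⟨-r, -s, -t, ?_, ?_, ?_, ?_⟩
  · rcases hr with rfl | rfl <;> simp
  · rcases hs with rfl | rfl <;> simp
  · rcases ht with rfl | rfl <;> simp
  · rcases h with rfl | rfl | rfl | rfl
    · left; funext i; fin_cases i <;> simp
    · right; left; funext i; fin_cases i <;> simp [neg_div]
    · right; right; left; funext i; fin_cases i <;> simp [neg_div]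
    · right; right; right; funext i; fin_cases i <;> simp [neg_div]

theorem VI_mir : ∀ z ∈ VI, ![-z 0, z 1, z 2] ∈ VI := by
  rintro v ⟨s, t, hs, ht, h⟩
  rcases h with rfl | rfl | rfl
  · exact ⟨s, t, hs, ht, Or.inl (by simp)⟩
  · refine ⟨-s, t, ?_, ht, Or.inr (Or.inl (by simp))⟩
    rcases hs with rfl | rfl <;> simp
  · refine ⟨s, -t, hs, ?_, Or.inr (Or.inr (by simp))⟩
    rcases ht with rfl | rfl <;> simp

theorem VD_mir : ∀ z ∈ VD, ![-z 0, z 1, z 2] ∈ VD := by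
  rintro v ⟨r, s, t, hr, hs, ht, h⟩
  rcases h with rfl | rfl | rfl | rfl
  · refine ⟨-r, s, t, ?_, hs, ht, Or.inl (by simp)⟩
    rcases hr with rfl | rfl <;> simp
  · exact ⟨r, s, t, hr, hs, ht, Or.inr (Or.inl (by simp))⟩
  · refine ⟨r, -s, t, hr, ?_, ht, Or.inr (Or.inr (Or.inl (by simp [neg_div])))⟩
    rcases hs with rfl | rfl <;> simp
  · refine ⟨r, s, -t, hr, hs, ?_, Or.inr (Or.inr (Or.inr (by simp)))⟩
    rcases ht with rfl | rfl <;> simp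

end Pool.Agent.H315.NW
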