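import Pool.Agent.H315.NW.Defs

/-!
# Project NW (helper315): the local analysis, statements of the pieces
-/

set_option autoImplicit false

namespace Pool.Agent.H315.NW

open Matrix

/-- cross product -/
def cr (a b : Fin 3 → ℝ) : Fin 3 → ℝ :=
  ![a 1 * b 2 - a 2 * b 1, a 2 * b 0 - a 0 * b 2, a 0 * b 1 - a 1 * b 0]

/-- the constraint function -/
noncomputable def GG (c : ℝ) (F1 F2 v : Fin 3 → ℝ) (p : Fin 4 → ℝ) (n : Fin 3 → ℝ) : ℝ :=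
  c * (cr F1 F2 ⬝ᵥ (Rm p *ᵥ cr n v)) - g ^ 2 * ((F1 - F2) ⬝ᵥ (Rm p *ᵥ n))

/-- the constraint function in the coordinates of the optimum, with the angles of the inner
projection `c1 s1` and of the outer projection `c2 s2` -/
noncomputable def Gh (c1 s1 c2 s2 : ℝ) (F1 F2 v : Fin 3 → ℝ) (a : Fin 3 → ℝ) (x y : ℝ) : ℝ :=
  nu * (((RY c2 s2)ᵀ *ᵥ cr F1 F2) ⬝ᵥ (Rm ![1, a 0, a 1, a 2] *ᵥ cr ![x, y, 1] (RX c1 s1 *ᵥ v))) -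
    g ^ 2 * (((RY c2 s2)ᵀ *ᵥ (F1 - F2)) ⬝ᵥ (Rm ![1, a 0, a 1, a 2] *ᵥ ![x, y, 1]))

/-- NW-CON (three statements).  Proof of the first: let `m = Rm p n`, `y' = cr m (cr F2 F1)
= (F1·m) F2 - (F2·m) F1`, `y = (Rm p)ᵀ y'`.  Then `y ⬝ n = y' ⬝ m = 0`, `Rm p y = nq p ^ 2 • y'`, so
there is `z ∈ V` with `c nq (y ⬝ v) ≤ nq ^ 2 (y' ⬝ z)`; `y ⬝ v = y' ⬝ (Rm p v) =
nq (cr F1 F2 ⬝ Rm p (cr n v))` (polynomial identity) and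
`y' ⬝ z = (F1·m)(F2·z) - (F2·m)(F1·z) ≤ g² (F1·m - F2·m)`.
The second: the reflection `x ↦ -x` of the first coordinate maps `V` to itself and
conjugates `Rm p` into `Rm p'`.
The third: monotonicity in `c` (if `y ⬝ v < 0` use `-v ∈ V`). -/
def S_CON : Prop :=
  (∀ (V : Set (Fin 3 → ℝ)) (c : ℝ) (p : Fin 4 → ℝ) (n F1 F2 v : Fin 3 → ℝ), 0 < nq p →
    (∀ z ∈ V, F1 ⬝ᵥ z ≤ g ^ 2) → (∀ z ∈ V, F2 ⬝ᵥ z ≤ g ^ 2) → v ∈ V → WQ V c p n →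
    0 ≤ F1 ⬝ᵥ (Rm p *ᵥ n) → F2 ⬝ᵥ (Rm p *ᵥ n) ≤ 0 → GG c F1 F2 v p n ≤ 0) ∧
  (∀ (V : Set (Fin 3 → ℝ)) (c : ℝ) (p : Fin 4 → ℝ) (n : Fin 3 → ℝ),
    (∀ z ∈ V, ![-z 0, z 1, z 2] ∈ V) → WQ V c p n →
    WQ V c ![p 0, p 1, -p 2, -p 3] ![-n 0, n 1, n 2]) ∧
  (∀ (V : Set (Fin 3 → ℝ)) (c c' : ℝ) (p : Fin 4 → ℝ) (n : Fin 3 → ℝ), (∀ z ∈ V, -z ∈ V) →
    0 < c' → c' ≤ c → WQ V c p n → WQ V c' p n)

/-- NW-POLYI: among the four active constraints of the icosahedron, near the optimum at least one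
is nonnegative for `c = nu`.

Put `ξ = (α, β, γ, x, y)`, and let `G1, G2, G3, G4` be the four functions in the order of the
statement.  With the hats `â = (RY Cb Sb)ᵀ (F1 × F2)`, `d̂ = (RY Cb Sb)ᵀ (F1 - F2)`,
`v̂ = RX Ca Sa v`, `h = g ^ 2` every `G` is a polynomial in `ξ` (quadratic in `(α, β, γ)`, linear in
`(x, y)`) with
 constant term `nu (â_y v̂_x - â_x v̂_y) - h d̂_z`,
 α: `2 nu â_z v̂_x + 2 h d̂_y`,  β: `2 nu â_z v̂_y - 2 h d̂_x`,  γ: `-2 nu (â_x v̂_x + â_y v̂_y)`,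
 x: `nu (-â_y v̂_z + â_z v̂_y) - h d̂_x`,  y: `nu (â_x v̂_z - â_z v̂_x) - h d̂_y`.
For G1, G2: `â = (Y, -g, Sb/g - Cb)`, `Y = Sb + Cb/g`, `d̂ = (Cb/g - Sb, -1/g², Sb/g + Cb)`;
for G3, G4 it is `(-Y, -g, Cb - Sb/g)`, `(Cb/g - Sb, 1/g², Sb/g + Cb)`.  `v̂` = `(-g, -Sa, Ca)`,
`(-1, -g Ca, -g Sa)`, `(-1, g Ca, g Sa)`, `(-g, Sa, -Ca)`.
Exact facts (from S_ALG): the constant terms are 0; the β-coefficient of G1 and G4 is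
`2 D Ca (g Ca - Sa)`, of G2 and G3 `-2 g Sa D (g Ca - Sa)` with `D = g Sb - Cb` (use
`nu (Sb/g - Cb) = D (g Sa + Ca)`); with `μ = (g Sa, Ca, Ca, g Sa)` the linear part of `∑ μ_i G_i` is 0
(α, γ cancel in the pairs 1-4, 2-3; x like β: `x1 + x4 = β1`; y: `y1 + y4 = 2 nu Y Ca`,
`y2 + y3 = -2 nu Y g Sa`).
Numerical data (errors below 10^-4): linear coefficients (α, β, γ, x, y) of
 G1: (0.6235, -1.1737, 1.6621, 0.9444, 0.5017), G2: (-0.3786, 0.7128, -3.2176, -0.5735, -0.3047),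
 G3: (0.3786, 0.7128, 3.2176, 1.2863, -0.6833), G4: (-0.6235, -1.1737, -1.6621, -2.1181, 1.1251);
the quadratic part of `∑ μ_i G_i` is
`q = 5.6230 α² + 12.1434 β² - 17.7664 γ² - 2·5.2469 αγ - 2·2.8115 αy + 2·6.0717 βx + 2·2.6235 γy`;
the sum of the absolute values of the quadratic (cubic) coefficients of each `G_i` is < 45 (< 39).
Proof: if all `G_i < 0`, then `∑ (μ_i + 40 G_i) G_i < 0` because `|G_i| ≤ 0.01`.  But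
`∑ μ_i G_i + 40 ∑ G_i² ≥ q(ξ) + 20 ∑ ℓ_i(ξ)² - (ε₀ + 160 ε₁²) |ξ|²`, where `|∑ μ_i G_i - q| ≤ ε₀ |ξ|²`,
`|G_i - ℓ_i| ≤ ε₁ |ξ|` (use `(ℓ + ρ)² ≥ ℓ²/2 - ρ²`), `ε₀ ≤ 0.13`, `ε₁ ≤ 0.05` and the smallest
eigenvalue of `q + 20 ∑ ℓ_i²` is `1.80` (write it minus `|ξ|²` as a sum of squares, LDLᵀ). -/
def S_POLYI : Prop := S_NU → S_ALG → ∀ α β γ x y : ℝ, |α| ≤ 1 / 1000 → |β| ≤ 1 / 1000 →
  |γ| ≤ 1 / 1000 → |x| ≤ 1 / 1000 → |y| ≤ 1 / 1000 →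
  0 ≤ Gh Ca Sa Cb Sb ![-1, -1, 1] ![-g, -1 / g, 0] ![-g, 0, 1] ![α, β, γ] x y ∨
  0 ≤ Gh Ca Sa Cb Sb ![-1, -1, 1] ![-g, -1 / g, 0] ![-1, -g, 0] ![α, β, γ] x y ∨
  0 ≤ Gh Ca Sa Cb Sb ![-1, 1, 1] ![-g, 1 / g, 0] ![-1, g, 0] ![α, β, γ] x y ∨
  0 ≤ Gh Ca Sa Cb Sb ![-1, 1, 1] ![-g, 1 / g, 0] ![-g, 0, -1] ![α, β, γ] x y

/-- NW-POLYD: the same for the dodecahedron.  The general formulas of `S_POLYI` hold with the hats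
`â = (RY Ca Sa)ᵀ (F1 × F2)`, `d̂ = (RY Ca Sa)ᵀ (F1 - F2)`, `v̂ = RX Cb Sb v`.  For G1, G2:
`â = (-Ca - g² Sa, -g, g² Ca - Sa)`, `d̂ = (g Ca - Sa, 1/g, g Sa + Ca)`; for G3, G4:
`â = (-Ca - g² Sa, g, g² Ca - Sa)`, `d̂ = (g Ca - Sa, -1/g, g Sa + Ca)`; `v̂` =
`(-1/g, g Cb, g Sb)`, `(-1, Cb + Sb, Sb - Cb)`, `(1/g, g Cb, g Sb)`, `(1, Cb + Sb, Sb - Cb)`.
Exact facts (from S_ALG): the constant terms are 0; the β-coefficient of G1 and G3 is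
`2 E g Sb (Cb - g Sb)`, of G2 and G4 `-2 E (Cb - g Sb) (Cb - Sb)` with `E = g Ca - Sa` (use
`nu (g² Ca - Sa) = g E (Sb/g + Cb)`); with `μ = (Cb - Sb, g Sb, Cb - Sb, g Sb)` the linear part of
`∑ μ_i G_i` is 0 (α, γ cancel in the pairs 1-3, 2-4; x like β; y: `y1 + y3 = 2 nu â_x g Sb`,
`y2 + y4 = 2 nu â_x (Sb - Cb)`).
Numerical data (errors below 10^-4): linear coefficients (α, β, γ, x, y) of
 G1: (0.6126, 0.5340, 2.7868, 0.9637, -1.1056), G2: (-1.0088, -0.8794, 0.2644, -1.5869, 1.8205),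
 G3: (-0.6126, 0.5340, -2.7868, -0.4297, -0.4929), G4: (1.0088, -0.8794, -0.2644, 0.7076, 0.8117);
the quadratic part of `∑ μ_i G_i` is
`q = 12.1434 α² + 5.6230 β² - 17.7664 γ² - 2·13.7366 αγ - 2·6.0717 αy + 2·2.8115 βx + 2·6.8683 γy`;
the sum of the absolute values of the quadratic (cubic) coefficients of each `G_i` is < 69 (< 64).
Proof as for S_POLYI with the same constant 40 (`ε₀ ≤ 0.15`, `ε₁ ≤ 0.07`), the smallest eigenvalue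
of `q + 20 ∑ ℓ_i²` is `2.18`. -/
def S_POLYD : Prop := S_NU → S_ALG → ∀ α β γ x y : ℝ, |α| ≤ 1 / 1000 → |β| ≤ 1 / 1000 →
  |γ| ≤ 1 / 1000 → |x| ≤ 1 / 1000 → |y| ≤ 1 / 1000 →
  0 ≤ Gh Cb Sb Ca Sa ![0, g, 1] ![-g, 1, 0] ![-1 / g, g, 0] ![α, β, γ] x y ∨
  0 ≤ Gh Cb Sb Ca Sa ![0, g, 1] ![-g, 1, 0] ![-1, 1, -1] ![α, β, γ] x y ∨
  0 ≤ Gh Cb Sb Ca Sa ![g, 1, 0] ![0, g, -1] ![1 / g, g, 0] ![α, β, γ] x y ∨
  0 ≤ Gh Cb Sb Ca Sa ![g, 1, 0] ![0, g, -1] ![1, 1, -1] ![α, β, γ] x y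

/-- NW-LOCI.  Proof.  Put `c1 = Ca, s1 = Sa, c2 = Cb, s2 = Sb`, `u = s1 / (1 + c1)`,
`t = s2 / (1 + c2)` (half angle tangents, `c1 = (1 - u²)/(1 + u²)`, `s1 = 2u/(1 + u²)`, ...),
`κ = (1 + u²)(1 + t²)`, and the quaternion `d = (1, 0, -t, 0) * p * (1, -u, 0, 0)`, that is the `d`
with `(1, 0, t, 0) * d * (1, u, 0, 0) = κ p`; `Rm` is multiplicative and
`Rm (1, u, 0, 0) = (1 + u²) RX c1 s1`, `Rm (1, 0, t, 0) = (1 + t²) RY c2 s2`, so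
`κ Rm p = RY c2 s2 * Rm d * RX c1 s1`.  Hence, with `η = RX c1 s1 *ᵥ n`,
`κ GG c F1 F2 v p n = c (RYᵀ(F1 × F2)) ⬝ Rm d (η × RX v) - g² (RYᵀ(F1 - F2)) ⬝ Rm d η`.
In the box `d 0 > 1`, `η 2 > 1`, and with `a = (d 1, d 2, d 3) / d 0`, `x = η 0 / η 2`,
`y = η 1 / η 2` all of `|a i|, |x|, |y|` are `≤ 1 / 1000` (the centre of the box is `a = 0`,
`x = y = 0` up to 10^-8; numerically the maximal deviations are 0.00088 and 0.00095).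
If `WQ VI c p n` with `c > nu` held, then by `S_CON` all four `GG c ... ≤ 0` (the signs
`F1 ⬝ Rm p n ≥ 0 ≥ F2 ⬝ Rm p n` hold near the optimum, where the normalised values are `0.70`,
`-0.43`; the faces satisfy `F ⬝ z ≤ g²` on `VI`), and because `cr F1 F2 ⬝ Rm p (cr n v) > 0` there
(`2.92` at the optimum), `GG nu ... < 0` for all four, that is `Gh ... < 0`, contradicting
`S_POLYI`. -/
def S_LOCI : Prop := S_NU → S_ALG → S_CON → S_POLYI → ∀ c : ℝ, nu < c →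
  ∀ (p : Fin 4 → ℝ) (n : Fin 3 → ℝ), p 0 = 1 → n 2 = 1 →
  |p 1 - 0.18147977| ≤ 1 / 2000 → |p 2 - 0.13399842| ≤ 1 / 2000 →
  |p 3 - (-0.02431800)| ≤ 1 / 2000 → |n 0| ≤ 1 / 1000 → |n 1 - 0.37532070| ≤ 1 / 1000 →
  ¬ WQ VI c p n

/-- NW-LOCD.  The same for the dodecahedron: `c1 = Cb, s1 = Sb, c2 = Ca, s2 = Sa`; the normalised
values are `F1 ⬝ m = 0.94`, `F2 ⬝ m = -0.57` for the first pair, `0.57`, `-0.94` for the second,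
`cr F1 F2 ⬝ Rm p (cr n v)` is `3.90`. -/
def S_LOCD : Prop := S_NU → S_ALG → S_CON → S_POLYD → ∀ c : ℝ, nu < c →
  ∀ (p : Fin 4 → ℝ) (n : Fin 3 → ℝ), p 0 = 1 → n 2 = 1 →
  |p 1 - 0.13399842| ≤ 1 / 2000 → |p 2 - 0.18147977| ≤ 1 / 2000 →
  |p 3 - (-0.02431800)| ≤ 1 / 2000 → |n 0| ≤ 1 / 1000 → |n 1 - 0.27289686| ≤ 1 / 1000 →
  ¬ WQ VD c p n

end Pool.Agent.H315.NW
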