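import Pool.Agent.H315.NW.DatZ
import Pool.Agent.H315.NW.Cov
import Pool.Agent.H315.NW.CertD0
import Pool.Agent.H315.NW.CertD1
import Pool.Agent.H315.NW.CertD2
import Pool.Agent.H315.NW.CertD3
import Pool.Agent.H315.NW.CertD4
import Pool.Agent.H315.NW.CertD5

/-!
# Project NW (helper315): no weak passage above `nu` (part D, partly generated)
-/

set_option autoImplicit false
set_option maxRecDepth 10000

namespace Pool.Agent.H315.NW

open Matrix Tr

theorem boxD {c : ℝ} (hloc : ∀ (p : Fin 4 → ℝ) (n : Fin 3 → ℝ), p 0 = 1 → n 2 = 1 →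
    |p 1 - 0.13399842| ≤ 1 / 2000 → |p 2 - 0.18147977| ≤ 1 / 2000 →
    |p 3 - (-0.02431800)| ≤ 1 / 2000 → |n 0| ≤ 1 / 1000 → |n 1 - 0.27289686| ≤ 1 / 1000 →
    ¬ WQ VD c p n) (hcon : S_CON) :
    ∀ l ∈ datD.locs, ∀ p n, BadP VD c osD p n → p 0 = SP → n 2 = SN →
      (l.lx : ℝ) - LP ≤ p 1 → p 1 ≤ (l.hx : ℝ) - LP → (l.ly : ℝ) - LP ≤ p 2 →
      p 2 ≤ (l.hy : ℝ) - LP → (l.lz : ℝ) - LP ≤ p 3 → p 3 ≤ (l.hz : ℝ) - LP →
      0 ≤ n 0 → n 0 ≤ (l.ha : ℝ) → (l.lb : ℝ) ≤ n 1 → n 1 ≤ (l.hb : ℝ) → False := by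
  intro l hl p n hB h0 hn2 a1 a2 a3 a4 a5 a6 b1 b2 b3 b4
  have hW := hB.2.2
  simp only [datD, List.mem_cons, List.not_mem_nil, or_false] at hl
  simp only [SP, SN, LP] at h0 hn2 a1 a2 a3 a4 a5 a6
  rcases hl with rfl | rfl
  · have hW' := WQ_smul hW (s := 1 / 1458176) (t := 1 / 8192000) (by norm_num) (by norm_num)
    refine hloc _ _ ?_ ?_ ?_ ?_ ?_ ?_ ?_ hW'
    · simp only [h0]; norm_num
    · simp only [hn2]; norm_num
    · rw [abs_le]; norm_num at a1 a2 ⊢; constructor <;> linarith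
    · rw [abs_le]; norm_num at a3 a4 ⊢; constructor <;> linarith
    · rw [abs_le]; norm_num at a5 a6 ⊢; constructor <;> linarith
    · rw [abs_le]; norm_num at b1 b2 ⊢; constructor <;> linarith
    · rw [abs_le]; norm_num at b3 b4 ⊢; constructor <;> linarith
  · have hW2 := hcon.2.1 VD c p n VD_mir hW
    have hW' := WQ_smul hW2 (s := 1 / 1458176) (t := 1 / 8192000) (by norm_num) (by norm_num)
    refine hloc _ _ ?_ ?_ ?_ ?_ ?_ ?_ ?_ hW'
    · simp [h0]
    · simp [hn2]
    · simp only [Matrix.cons_val_one, Matrix.cons_val_zero, Matrix.cons_val]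
      rw [abs_le]; norm_num at a1 a2 ⊢; constructor <;> linarith
    · simp only [Matrix.cons_val_one, Matrix.cons_val_zero, Matrix.cons_val]
      rw [abs_le]; norm_num at a3 a4 ⊢; constructor <;> linarith
    · simp only [Matrix.cons_val_one, Matrix.cons_val_zero, Matrix.cons_val]
      rw [abs_le]; norm_num at a5 a6 ⊢; constructor <;> linarith
    · simp only [Matrix.cons_val_one, Matrix.cons_val_zero, Matrix.cons_val]
      rw [abs_le]; norm_num at b1 b2 ⊢; constructor <;> linarith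
    · simp only [Matrix.cons_val_one, Matrix.cons_val_zero, Matrix.cons_val]
      rw [abs_le]; norm_num at b3 b4 ⊢; constructor <;> linarith

theorem dokD {c : ℝ} (hnu : S_NU) (halg : S_ALG) (hcon : S_CON) (hpoly : S_POLYD)
    (hloc : S_LOCD) (hc : nu < c) : DOK datD (sgn fsD) (BadP VD c osD) := by
  refine mkD VD_neg ?_ hcon edgesD vertsD facesD outsD (supp mem_vsD chkSD)
    vsD_mem chkED chkVD chkFD chkOD
    (boxD (hloc hnu halg hcon hpoly c hc) hcon) ?_
  · have := hnu.2.1
    have h2 : (4016 : ℝ) / 3973 ≤ 1.01082306 := by norm_num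
    linarith
  · intro h hh
    simp [datD] at hh

/-- the data with the parts as holes -/
def datDH : Dat := { datD with holes := [(cD0, 0, 0), (cD1, 0, 0), (cD2, 0, 0), (cD3, 0, 0), (cD4, 0, 0), (cD5, 0, 0)] }

theorem dokDH {c : ℝ} (hnu : S_NU) (halg : S_ALG) (hcon : S_CON) (hpoly : S_POLYD)
    (hloc : S_LOCD) (hc : nu < c) : DOK datDH (sgn fsD) (BadP VD c osD) := by
  have hD := dokD hnu halg hcon hpoly hloc hc
  refine ⟨hD.edge, hD.face, hD.outs, hD.locs, ?_⟩
  intro h hh
  simp only [datDH, List.mem_cons, List.not_mem_nil, or_false] at hh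
  rcases hh with rfl | rfl | rfl | rfl | rfl | rfl

  · intro p n hI hp hq
    exact check_sound hD tD0 cD0 0 0 okD0
      (by constructor <;> decide) p n hI hp hq
  · intro p n hI hp hq
    exact check_sound hD tD1 cD1 0 0 okD1
      (by constructor <;> decide) p n hI hp hq
  · intro p n hI hp hq
    exact check_sound hD tD2 cD2 0 0 okD2
      (by constructor <;> decide) p n hI hp hq
  · intro p n hI hp hq
    exact check_sound hD tD3 cD3 0 0 okD3
      (by constructor <;> decide) p n hI hp hq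
  · intro p n hI hp hq
    exact check_sound hD tD4 cD4 0 0 okD4
      (by constructor <;> decide) p n hI hp hq
  · intro p n hI hp hq
    exact check_sound hD tD5 cD5 0 0 okD5
      (by constructor <;> decide) p n hI hp hq

/-- the top of the certificate -/
def topD0 : Tr :=
  (H 0)

theorem topokD0 : check datDH topD0 (rc0 5070848 3129344) 0 0 = true := by decide +kernel

/-- the top of the certificate -/
def topD1 : Tr :=
  (H 1)

theorem topokD1 : check datDH topD1 (rc1 5070848 3129344) 0 0 = true := by decide +kernel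

/-- the top of the certificate -/
def topD2 : Tr :=
  (H 2)

theorem topokD2 : check datDH topD2 (rc2 5070848 3129344) 0 0 = true := by decide +kernel

/-- the top of the certificate -/
def topD3 : Tr :=
  (H 3)

theorem topokD3 : check datDH topD3 (rc3 5070848 3129344) 0 0 = true := by decide +kernel

/-- the top of the certificate -/
def topD4 : Tr :=
  (H 4)

theorem topokD4 : check datDH topD4 (rc4 5070848 3129344) 0 0 = true := by decide +kernel

/-- the top of the certificate -/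
def topD5 : Tr :=
  (H 5)

theorem topokD5 : check datDH topD5 (rc5 5070848 3129344) 0 0 = true := by decide +kernel

theorem root_bdD : Bd (rc0 5070848 3129344) ∧ Bd (rc1 5070848 3129344) ∧ Bd (rc2 5070848 3129344) ∧
    Bd (rc3 5070848 3129344) ∧ Bd (rc4 5070848 3129344) ∧ Bd (rc5 5070848 3129344) := by
  refine ⟨?_, ?_, ?_, ?_, ?_, ?_⟩ <;> constructor <;> decide

/-- no point of the covered domain is bad -/
theorem noneD {c : ℝ} (hnu : S_NU) (halg : S_ALG) (hcon : S_CON) (hpoly : S_POLYD)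
    (hloc : S_LOCD) (hc : nu < c) {p : Fin 4 → ℝ} {n : Fin 3 → ℝ}
    (h0 : p 0 = SP) (h1 : |p 1| ≤ 557056) (h2 : |p 2| ≤ 557056) (h3 : |p 3| ≤ 557056)
    (hn0 : 0 ≤ n 0) (hn1 : 0 ≤ n 1) (hn2 : n 2 = SN)
    (hn : n 0 / (5070848 : ℕ) + n 1 / (3129344 : ℕ) ≤ 1) : ¬ BadP VD c osD p n := by
  have hD := dokDH hnu halg hcon hpoly hloc hc
  have z : ∀ f, Nat.testBit 0 f = true → 0 ≤ sgn fsD f p n := by
    intro f hf; simp at hf
  have z' : ∀ f, Nat.testBit 0 f = true → sgn fsD f p n ≤ 0 := by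
    intro f hf; simp at hf
  obtain ⟨b0, b1, b2, b3, b4, b5⟩ := root_bdD
  rcases cover (by norm_num) (by norm_num) h0 h1 h2 h3 hn0 hn1 hn2 hn with
    h | h | h | h | h | h
  · exact check_sound hD _ _ 0 0 topokD0 b0 p n h z z'
  · exact check_sound hD _ _ 0 0 topokD1 b1 p n h z z'
  · exact check_sound hD _ _ 0 0 topokD2 b2 p n h z z'
  · exact check_sound hD _ _ 0 0 topokD3 b3 p n h z z'
  · exact check_sound hD _ _ 0 0 topokD4 b4 p n h z z'
  · exact check_sound hD _ _ 0 0 topokD5 b5 p n h z z'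

end Pool.Agent.H315.NW
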