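import Pool.Agent.H315.NW.DatZ
import Pool.Agent.H315.NW.Cov
import Pool.Agent.H315.NW.CertI0
import Pool.Agent.H315.NW.CertI1
import Pool.Agent.H315.NW.CertI2
import Pool.Agent.H315.NW.CertI3
import Pool.Agent.H315.NW.CertI4
import Pool.Agent.H315.NW.CertI5
import Pool.Agent.H315.NW.CertI6
import Pool.Agent.H315.NW.CertI7
import Pool.Agent.H315.NW.CertI8
import Pool.Agent.H315.NW.CertI9

/-!
# Project NW (helper315): no weak passage above `nu` (part I, partly generated)
-/

set_option autoImplicit false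
set_option maxRecDepth 10000

namespace Pool.Agent.H315.NW

open Matrix Tr

theorem boxI {c : ℝ} (hloc : ∀ (p : Fin 4 → ℝ) (n : Fin 3 → ℝ), p 0 = 1 → n 2 = 1 →
    |p 1 - 0.18147977| ≤ 1 / 2000 → |p 2 - 0.13399842| ≤ 1 / 2000 →
    |p 3 - (-0.02431800)| ≤ 1 / 2000 → |n 0| ≤ 1 / 1000 → |n 1 - 0.37532070| ≤ 1 / 1000 →
    ¬ WQ VI c p n) (hcon : S_CON) :
    ∀ l ∈ datI.locs, ∀ p n, BadP VI c osI p n → p 0 = SP → n 2 = SN →
      (l.lx : ℝ) - LP ≤ p 1 → p 1 ≤ (l.hx : ℝ) - LP → (l.ly : ℝ) - LP ≤ p 2 →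
      p 2 ≤ (l.hy : ℝ) - LP → (l.lz : ℝ) - LP ≤ p 3 → p 3 ≤ (l.hz : ℝ) - LP →
      0 ≤ n 0 → n 0 ≤ (l.ha : ℝ) → (l.lb : ℝ) ≤ n 1 → n 1 ≤ (l.hb : ℝ) → False := by
  intro l hl p n hB h0 hn2 a1 a2 a3 a4 a5 a6 b1 b2 b3 b4
  have hW := hB.2.2
  simp only [datI, List.mem_cons, List.not_mem_nil, or_false] at hl
  simp only [SP, SN, LP] at h0 hn2 a1 a2 a3 a4 a5 a6
  rcases hl with rfl | rfl
  · have hW' := WQ_smul hW (s := 1 / 1458176) (t := 1 / 8192000) (by norm_num) (by norm_num)
    refine hloc _ _ ?_ ?_ ?_ ?_ ?_ ?_ ?_ hW'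
    · simp only [h0]; norm_num
    · simp only [hn2]; norm_num
    · rw [abs_le]; norm_num at a1 a2 ⊢; constructor <;> linarith
    · rw [abs_le]; norm_num at a3 a4 ⊢; constructor <;> linarith
    · rw [abs_le]; norm_num at a5 a6 ⊢; constructor <;> linarith
    · rw [abs_le]; norm_num at b1 b2 ⊢; constructor <;> linarith
    · rw [abs_le]; norm_num at b3 b4 ⊢; constructor <;> linarith
  · have hW2 := hcon.2.1 VI c p n VI_mir hW
    have hW' := WQ_smul hW2 (s := 1 / 1458176) (t := 1 / 8192000) (by norm_num) (by norm_num)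
    refine hloc _ _ ?_ ?_ ?_ ?_ ?_ ?_ ?_ hW'
    · simp [h0]
    · simp [hn2]
    · simp only [Matrix.cons_val_one, Matrix.cons_val_zero, Matrix.cons_val]
      rw [abs_le]; norm_num at a1 a2 ⊢; constructor <;> linarith
    · simp only [Matrix.cons_val_one, Matrix.cons_val_zero, Matrix.cons_val]
      rw [abs_le]; norm_num at a3 a4 ⊢; constructor <;> linarith
    · simp only [Matrix.cons_val_one, Matrix.cons_val_zero, Matrix.cons_val]
      rw [abs_le]; norm_num at a5 a6 ⊢; constructor <;> linarith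
    · simp only [Matrix.cons_val_one, Matrix.cons_val_zero, Matrix.cons_val]
      rw [abs_le]; norm_num at b1 b2 ⊢; constructor <;> linarith
    · simp only [Matrix.cons_val_one, Matrix.cons_val_zero, Matrix.cons_val]
      rw [abs_le]; norm_num at b3 b4 ⊢; constructor <;> linarith

theorem dokI {c : ℝ} (hnu : S_NU) (halg : S_ALG) (hcon : S_CON) (hpoly : S_POLYI)
    (hloc : S_LOCI) (hc : nu < c) : DOK datI (sgn fsI) (BadP VI c osI) := by
  refine mkD VI_neg ?_ hcon edgesI vertsI facesI outsI (supp mem_vsI chkSI)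
    vsI_mem chkEI chkVI chkFI chkOI
    (boxI (hloc hnu halg hcon hpoly c hc) hcon) ?_
  · have := hnu.2.1
    have h2 : (4016 : ℝ) / 3973 ≤ 1.01082306 := by norm_num
    linarith
  · intro h hh
    simp [datI] at hh

/-- the data with the parts as holes -/
def datIH : Dat := { datI with holes := [(cI0, 256, 0), (cI1, 256, 0), (cI2, 256, 2048), (cI3, 260, 2080), (cI4, 260, 2080), (cI5, 0, 0), (cI6, 0, 0), (cI7, 0, 0), (cI8, 16384, 2048), (cI9, 16384, 2048)] }

theorem dokIH {c : ℝ} (hnu : S_NU) (halg : S_ALG) (hcon : S_CON) (hpoly : S_POLYI)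
    (hloc : S_LOCI) (hc : nu < c) : DOK datIH (sgn fsI) (BadP VI c osI) := by
  have hD := dokI hnu halg hcon hpoly hloc hc
  refine ⟨hD.edge, hD.face, hD.outs, hD.locs, ?_⟩
  intro h hh
  simp only [datIH, List.mem_cons, List.not_mem_nil, or_false] at hh
  rcases hh with rfl | rfl | rfl | rfl | rfl | rfl | rfl | rfl | rfl | rfl

  · intro p n hI hp hq
    exact check_sound hD tI0 cI0 256 0 okI0
      (by constructor <;> decide) p n hI hp hq
  · intro p n hI hp hq
    exact check_sound hD tI1 cI1 256 0 okI1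
      (by constructor <;> decide) p n hI hp hq
  · intro p n hI hp hq
    exact check_sound hD tI2 cI2 256 2048 okI2
      (by constructor <;> decide) p n hI hp hq
  · intro p n hI hp hq
    exact check_sound hD tI3 cI3 260 2080 okI3
      (by constructor <;> decide) p n hI hp hq
  · intro p n hI hp hq
    exact check_sound hD tI4 cI4 260 2080 okI4
      (by constructor <;> decide) p n hI hp hq
  · intro p n hI hp hq
    exact check_sound hD tI5 cI5 0 0 okI5
      (by constructor <;> decide) p n hI hp hq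
  · intro p n hI hp hq
    exact check_sound hD tI6 cI6 0 0 okI6
      (by constructor <;> decide) p n hI hp hq
  · intro p n hI hp hq
    exact check_sound hD tI7 cI7 0 0 okI7
      (by constructor <;> decide) p n hI hp hq
  · intro p n hI hp hq
    exact check_sound hD tI8 cI8 16384 2048 okI8
      (by constructor <;> decide) p n hI hp hq
  · intro p n hI hp hq
    exact check_sound hD tI9 cI9 16384 2048 okI9
      (by constructor <;> decide) p n hI hp hq

/-- the top of the certificate -/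
def topI0 : Tr :=
  (P 8 (A03 (H 0) (H 1)))

theorem topokI0 : check datIH topI0 (rc0 3129344 5070848) 0 0 = true := by decide +kernel

/-- the top of the certificate -/
def topI1 : Tr :=
  (M 11 (P 8 (A03 (H 2) (M 5 (P 2 (A13 (H 3) (H 4)))))))

theorem topokI1 : check datIH topI1 (rc1 3129344 5070848) 0 0 = true := by decide +kernel

/-- the top of the certificate -/
def topI2 : Tr :=
  (H 5)

theorem topokI2 : check datIH topI2 (rc2 3129344 5070848) 0 0 = true := by decide +kernel

/-- the top of the certificate -/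
def topI3 : Tr :=
  (H 6)

theorem topokI3 : check datIH topI3 (rc3 3129344 5070848) 0 0 = true := by decide +kernel

/-- the top of the certificate -/
def topI4 : Tr :=
  (H 7)

theorem topokI4 : check datIH topI4 (rc4 3129344 5070848) 0 0 = true := by decide +kernel

/-- the top of the certificate -/
def topI5 : Tr :=
  (P 14 (M 11 (A03 (H 8) (H 9))))

theorem topokI5 : check datIH topI5 (rc5 3129344 5070848) 0 0 = true := by decide +kernel

theorem root_bdI : Bd (rc0 3129344 5070848) ∧ Bd (rc1 3129344 5070848) ∧ Bd (rc2 3129344 5070848) ∧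
    Bd (rc3 3129344 5070848) ∧ Bd (rc4 3129344 5070848) ∧ Bd (rc5 3129344 5070848) := by
  refine ⟨?_, ?_, ?_, ?_, ?_, ?_⟩ <;> constructor <;> decide

/-- no point of the covered domain is bad -/
theorem noneI {c : ℝ} (hnu : S_NU) (halg : S_ALG) (hcon : S_CON) (hpoly : S_POLYI)
    (hloc : S_LOCI) (hc : nu < c) {p : Fin 4 → ℝ} {n : Fin 3 → ℝ}
    (h0 : p 0 = SP) (h1 : |p 1| ≤ 557056) (h2 : |p 2| ≤ 557056) (h3 : |p 3| ≤ 557056)
    (hn0 : 0 ≤ n 0) (hn1 : 0 ≤ n 1) (hn2 : n 2 = SN)
    (hn : n 0 / (3129344 : ℕ) + n 1 / (5070848 : ℕ) ≤ 1) : ¬ BadP VI c osI p n := by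
  have hD := dokIH hnu halg hcon hpoly hloc hc
  have z : ∀ f, Nat.testBit 0 f = true → 0 ≤ sgn fsI f p n := by
    intro f hf; simp at hf
  have z' : ∀ f, Nat.testBit 0 f = true → sgn fsI f p n ≤ 0 := by
    intro f hf; simp at hf
  obtain ⟨b0, b1, b2, b3, b4, b5⟩ := root_bdI
  rcases cover (by norm_num) (by norm_num) h0 h1 h2 h3 hn0 hn1 hn2 hn with
    h | h | h | h | h | h
  · exact check_sound hD _ _ 0 0 topokI0 b0 p n h z z'
  · exact check_sound hD _ _ 0 0 topokI1 b1 p n h z z'
  · exact check_sound hD _ _ 0 0 topokI2 b2 p n h z z'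
  · exact check_sound hD _ _ 0 0 topokI3 b3 p n h z z'
  · exact check_sound hD _ _ 0 0 topokI4 b4 p n h z z'
  · exact check_sound hD _ _ 0 0 topokI5 b5 p n h z z'

end Pool.Agent.H315.NW
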