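import Mathlib
import Pool.Agent.H315.NW.Defs

set_option autoImplicit false

namespace Pool.Agent.H315.NW

open Matrix

namespace LinkL

/-- one-sided inequality -/
theorem half (V : Set (Fin 3 → ℝ)) (c : ℝ) (A B : Matrix (Fin 3) (Fin 3) ℝ)
    (hA : Aᵀ * A = 1) (w : Fin 2 → ℝ)
    (h : (fun x : Fin 3 → ℝ => c • ![(A.mulVec x) 0, (A.mulVec x) 1] + w) '' convexHull ℝ V ⊆
      interior ((fun x : Fin 3 → ℝ => ![(B.mulVec x) 0, (B.mulVec x) 1]) '' convexHull ℝ V))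
    (y : Fin 3 → ℝ) (hy : y ⬝ᵥ A 2 = 0) (v : Fin 3 → ℝ) (hv : v ∈ V) :
    ∃ z ∈ V, c * (y ⬝ᵥ v) + ((A *ᵥ y) 0 * w 0 + (A *ᵥ y) 1 * w 1) ≤
      ((Bᵀ * A) *ᵥ y) ⬝ᵥ z := by
  have hv' : v ∈ convexHull ℝ V := subset_convexHull ℝ V hv
  have h1 := interior_subset (h ⟨v, hv', rfl⟩)
  obtain ⟨x, hx, hxe⟩ := h1
  have e0 : (B *ᵥ x) 0 = c * (A *ᵥ v) 0 + w 0 := by
    have := congrFun hxe 0
    simpa using this
  have e1 : (B *ᵥ x) 1 = c * (A *ᵥ v) 1 + w 1 := by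
    have := congrFun hxe 1
    simpa using this
  have e2 : (A *ᵥ y) 2 = 0 := by
    have : (A *ᵥ y) 2 = A 2 ⬝ᵥ y := rfl
    rw [this, dotProduct_comm]
    exact hy
  have e3 : ((Bᵀ * A) *ᵥ y) ⬝ᵥ x = (A *ᵥ y) ⬝ᵥ (B *ᵥ x) := by
    rw [← Matrix.mulVec_mulVec, Matrix.mulVec_transpose, ← Matrix.dotProduct_mulVec]
  have e4 : (A *ᵥ y) ⬝ᵥ (A *ᵥ v) = y ⬝ᵥ v := by
    rw [Matrix.dotProduct_mulVec, Matrix.vecMul_mulVec, hA, Matrix.vecMul_one]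
  have e5 : ((Bᵀ * A) *ᵥ y) ⬝ᵥ x =
      c * (y ⬝ᵥ v) + ((A *ᵥ y) 0 * w 0 + (A *ᵥ y) 1 * w 1) := by
    rw [e3, ← e4]
    simp only [dotProduct, Fin.sum_univ_three]
    rw [e0, e1, e2]
    ring
  let f : (Fin 3 → ℝ) →ₗ[ℝ] ℝ := dotProductBilin ℝ ℝ ((Bᵀ * A) *ᵥ y)
  have hf : ConvexOn ℝ Set.univ f := f.convexOn convex_univ
  obtain ⟨z, hz, hz'⟩ := hf.exists_ge_of_mem_convexHull (Set.subset_univ V) hx
  refine ⟨z, hz, ?_⟩
  have h6 : ((Bᵀ * A) *ᵥ y) ⬝ᵥ x ≤ ((Bᵀ * A) *ᵥ y) ⬝ᵥ z := hz'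
  rw [e5] at h6
  exact h6

end LinkL

theorem link : S_LINK := by
  intro V _ _ hneg c hc
  obtain ⟨_, A, hA, B, hB, w, h⟩ := hc
  obtain ⟨hA1, hA2⟩ := Matrix.mem_specialOrthogonalGroup_iff.1 hA
  obtain ⟨hB1, hB2⟩ := Matrix.mem_specialOrthogonalGroup_iff.1 hB
  have hAA : A * Aᵀ = 1 := by
    have := (Matrix.mem_orthogonalGroup_iff (Fin 3) ℝ).1 hA1
    simpa [Matrix.star_eq_conjTranspose] using this
  have hAA' : Aᵀ * A = 1 := by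
    have := (Matrix.mem_orthogonalGroup_iff' (Fin 3) ℝ).1 hA1
    simpa [Matrix.star_eq_conjTranspose] using this
  have hBB : B * Bᵀ = 1 := by
    have := (Matrix.mem_orthogonalGroup_iff (Fin 3) ℝ).1 hB1
    simpa [Matrix.star_eq_conjTranspose] using this
  refine ⟨Bᵀ * A, ?_, A 2, ?_, ?_⟩
  · rw [Matrix.mem_specialOrthogonalGroup_iff]
    refine ⟨?_, ?_⟩
    · rw [Matrix.mem_orthogonalGroup_iff]
      have : (Bᵀ * A)ᵀ = Aᵀ * B := by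
        rw [Matrix.transpose_mul, Matrix.transpose_transpose]
      rw [this, Matrix.mul_assoc, ← Matrix.mul_assoc A, hAA, Matrix.one_mul]
      exact mul_eq_one_comm.1 hBB
    · rw [Matrix.det_mul, Matrix.det_transpose, hA2, hB2, mul_one]
  · intro h0
    have h1 : (A * Aᵀ) 2 2 = 1 := by rw [hAA]; simp
    have h2 : (A * Aᵀ) 2 2 = A 2 ⬝ᵥ A 2 := by
      simp [Matrix.mul_apply, dotProduct]
    rw [h2, h0] at h1
    simp at h1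
  · intro y hy v hv
    obtain ⟨z1, hz1, h1⟩ := LinkL.half V c A B hAA' w h y hy v hv
    obtain ⟨z2, hz2, h2⟩ := LinkL.half V c A B hAA' w h (-y) (by rw [neg_dotProduct, hy, neg_zero])
      (-v) (hneg v hv)
    simp only [Matrix.mulVec_neg, neg_dotProduct, dotProduct_neg, Pi.neg_apply, neg_neg] at h2
    rcases le_total (((Bᵀ * A) *ᵥ y) ⬝ᵥ z1) (-(((Bᵀ * A) *ᵥ y) ⬝ᵥ z2)) with h3 | h3
    · refine ⟨-z2, hneg z2 hz2, ?_⟩
      rw [dotProduct_neg]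
      linarith
    · refine ⟨z1, hz1, ?_⟩
      linarith

end Pool.Agent.H315.NW
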