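import Pool.Agent.H315.NW.Defs2

/-!
# NW-LOCI: transfer of the local positivity to quaternion coordinates
-/

set_option autoImplicit false

namespace Pool.Agent.H315.NW

namespace LocI

open Matrix

/-- quaternion product -/
def qm (a b : Fin 4 → ℝ) : Fin 4 → ℝ :=
  ![a 0 * b 0 - a 1 * b 1 - a 2 * b 2 - a 3 * b 3, a 0 * b 1 + a 1 * b 0 + a 2 * b 3 - a 3 * b 2,
    a 0 * b 2 - a 1 * b 3 + a 2 * b 0 + a 3 * b 1, a 0 * b 3 + a 1 * b 2 - a 2 * b 1 + a 3 * b 0]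

lemma Rm_qm (a b : Fin 4 → ℝ) : Rm (qm a b) = Rm a * Rm b := by
  ext i j
  fin_cases i <;> fin_cases j <;>
    simp [Rm, qm, Matrix.mul_apply, Fin.sum_univ_three] <;> ring

lemma Rm_smul (k : ℝ) (a : Fin 4 → ℝ) : Rm (k • a) = (k ^ 2) • Rm a := by
  ext i j
  fin_cases i <;> fin_cases j <;> simp [Rm] <;> ring

lemma Rm_X (c s : ℝ) (h : c ^ 2 + s ^ 2 = 1) :
    Rm ![1 + c, s, 0, 0] = (2 * (1 + c)) • RX c s := by
  ext i j
  fin_cases i <;> fin_cases j <;> simp [Rm, RX] <;>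
    first | ring1 | linear_combination h | linear_combination (-1) * h

lemma Rm_Y (c s : ℝ) (h : c ^ 2 + s ^ 2 = 1) :
    Rm ![1 + c, 0, s, 0] = (2 * (1 + c)) • RY c s := by
  ext i j
  fin_cases i <;> fin_cases j <;> simp [Rm, RY] <;>
    first | ring1 | linear_combination h | linear_combination (-1) * h

/-- the quaternion in the coordinates of the optimum -/
def dd (c1 s1 c2 s2 : ℝ) (p : Fin 4 → ℝ) : Fin 4 → ℝ :=
  qm (qm ![1 + c2, 0, -s2, 0] p) ![1 + c1, -s1, 0, 0]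

lemma qm_dd {c1 s1 c2 s2 : ℝ} (h1 : c1 ^ 2 + s1 ^ 2 = 1) (h2 : c2 ^ 2 + s2 ^ 2 = 1)
    (p : Fin 4 → ℝ) : qm (qm ![1 + c2, 0, s2, 0] (dd c1 s1 c2 s2 p)) ![1 + c1, s1, 0, 0] =
      (4 * (1 + c1) * (1 + c2)) • p := by
  ext i
  fin_cases i
  · simp [qm, dd]
    linear_combination (2 * (1 + c2)) * p 0 * h1 + ((1 + c1) ^ 2 + s1 ^ 2) * p 0 * h2
  · simp [qm, dd]
    linear_combination (2 * (1 + c2)) * p 1 * h1 + ((1 + c1) ^ 2 + s1 ^ 2) * p 1 * h2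
  · simp [qm, dd]
    linear_combination (2 * (1 + c2)) * p 2 * h1 + ((1 + c1) ^ 2 + s1 ^ 2) * p 2 * h2
  · simp [qm, dd]
    linear_combination (2 * (1 + c2)) * p 3 * h1 + ((1 + c1) ^ 2 + s1 ^ 2) * p 3 * h2

lemma Rm_dd {c1 s1 c2 s2 : ℝ} (h1 : c1 ^ 2 + s1 ^ 2 = 1) (h2 : c2 ^ 2 + s2 ^ 2 = 1)
    (hc1 : 0 < 1 + c1) (hc2 : 0 < 1 + c2) (p : Fin 4 → ℝ) :
    (4 * (1 + c1) * (1 + c2)) • Rm p = RY c2 s2 * Rm (dd c1 s1 c2 s2 p) * RX c1 s1 := by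
  have h := congrArg Rm (qm_dd h1 h2 p)
  rw [Rm_qm, Rm_qm, Rm_X c1 s1 h1, Rm_Y c2 s2 h2, Rm_smul] at h
  rw [Matrix.smul_mul, Matrix.smul_mul, Matrix.mul_smul, smul_smul] at h
  have hK : (0 : ℝ) < 4 * (1 + c1) * (1 + c2) := by positivity
  have h3 : (4 * (1 + c1) * (1 + c2)) • (RY c2 s2 * Rm (dd c1 s1 c2 s2 p) * RX c1 s1) =
      (4 * (1 + c1) * (1 + c2)) • ((4 * (1 + c1) * (1 + c2)) • Rm p) := by
    rw [smul_smul, ← pow_two, ← h]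
    congr 1
    ring
  have h4 := congrArg (fun M => (4 * (1 + c1) * (1 + c2))⁻¹ • M) h3
  simp only [smul_smul] at h4
  rw [inv_mul_cancel₀ hK.ne', one_smul] at h4
  rw [h4]
  congr 1
  field_simp

lemma dot_dd {c1 s1 c2 s2 : ℝ} (h1 : c1 ^ 2 + s1 ^ 2 = 1) (h2 : c2 ^ 2 + s2 ^ 2 = 1)
    (hc1 : 0 < 1 + c1) (hc2 : 0 < 1 + c2) (p : Fin 4 → ℝ) (F w : Fin 3 → ℝ) :
    (4 * (1 + c1) * (1 + c2)) * (F ⬝ᵥ (Rm p *ᵥ w)) =
      ((RY c2 s2)ᵀ *ᵥ F) ⬝ᵥ (Rm (dd c1 s1 c2 s2 p) *ᵥ (RX c1 s1 *ᵥ w)) := by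
  have h3 : (4 * (1 + c1) * (1 + c2)) * (F ⬝ᵥ (Rm p *ᵥ w)) =
      F ⬝ᵥ (((4 * (1 + c1) * (1 + c2)) • Rm p) *ᵥ w) := by
    rw [Matrix.smul_mulVec, dotProduct_smul, smul_eq_mul]
  rw [h3, Rm_dd h1 h2 hc1 hc2 p, ← Matrix.mulVec_mulVec, ← Matrix.mulVec_mulVec,
    Matrix.dotProduct_mulVec, Matrix.mulVec_transpose]

lemma RX_cr {c s : ℝ} (h : c ^ 2 + s ^ 2 = 1) (n v : Fin 3 → ℝ) :
    RX c s *ᵥ cr n v = cr (RX c s *ᵥ n) (RX c s *ᵥ v) := by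
  ext i
  fin_cases i
  · simp [RX, cr, Matrix.mulVec, dotProduct, Fin.sum_univ_three]
    linear_combination (-1) * (n 1 * v 2 - n 2 * v 1) * h
  · simp [RX, cr, Matrix.mulVec, dotProduct, Fin.sum_univ_three]
    ring
  · simp [RX, cr, Matrix.mulVec, dotProduct, Fin.sum_univ_three]
    ring

lemma cr_smul (k : ℝ) (a b : Fin 3 → ℝ) : cr (k • a) b = k • cr a b := by
  ext i
  fin_cases i <;> simp [cr] <;> ring

lemma GG_dd {c1 s1 c2 s2 : ℝ} (h1 : c1 ^ 2 + s1 ^ 2 = 1) (h2 : c2 ^ 2 + s2 ^ 2 = 1)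
    (hc1 : 0 < 1 + c1) (hc2 : 0 < 1 + c2) (p : Fin 4 → ℝ) (n F1 F2 v : Fin 3 → ℝ)
    (hn : n 2 = 1) (hd : 0 < dd c1 s1 c2 s2 p 0) (he : 0 < s1 * n 1 + c1) :
    (4 * (1 + c1) * (1 + c2)) * GG nu F1 F2 v p n =
      ((dd c1 s1 c2 s2 p 0) ^ 2 * (s1 * n 1 + c1)) *
        Gh c1 s1 c2 s2 F1 F2 v ![dd c1 s1 c2 s2 p 1 / dd c1 s1 c2 s2 p 0,
          dd c1 s1 c2 s2 p 2 / dd c1 s1 c2 s2 p 0, dd c1 s1 c2 s2 p 3 / dd c1 s1 c2 s2 p 0]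
          (n 0 / (s1 * n 1 + c1)) ((c1 * n 1 - s1) / (s1 * n 1 + c1)) := by
  have hdd : dd c1 s1 c2 s2 p = (dd c1 s1 c2 s2 p 0) • ![1,
      dd c1 s1 c2 s2 p 1 / dd c1 s1 c2 s2 p 0, dd c1 s1 c2 s2 p 2 / dd c1 s1 c2 s2 p 0,
      dd c1 s1 c2 s2 p 3 / dd c1 s1 c2 s2 p 0] := by
    ext i
    fin_cases i
    · simp
    · show dd c1 s1 c2 s2 p 1 = dd c1 s1 c2 s2 p 0 * (dd c1 s1 c2 s2 p 1 / dd c1 s1 c2 s2 p 0)
      field_simp
    · show dd c1 s1 c2 s2 p 2 = dd c1 s1 c2 s2 p 0 * (dd c1 s1 c2 s2 p 2 / dd c1 s1 c2 s2 p 0)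
      field_simp
    · show dd c1 s1 c2 s2 p 3 = dd c1 s1 c2 s2 p 0 * (dd c1 s1 c2 s2 p 3 / dd c1 s1 c2 s2 p 0)
      field_simp
  have hee : RX c1 s1 *ᵥ n = (s1 * n 1 + c1) • ![n 0 / (s1 * n 1 + c1),
      (c1 * n 1 - s1) / (s1 * n 1 + c1), 1] := by
    ext i
    fin_cases i
    · simp [RX, Matrix.mulVec, dotProduct, Fin.sum_univ_three]
      field_simp
    · show (RX c1 s1 *ᵥ n) 1 = (s1 * n 1 + c1) * ((c1 * n 1 - s1) / (s1 * n 1 + c1))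
      rw [mul_div_cancel₀ _ he.ne']
      simp [RX, Matrix.mulVec, dotProduct, Fin.sum_univ_three, hn]
      ring
    · simp [RX, Matrix.mulVec, dotProduct, Fin.sum_univ_three, hn]
  have e1 := dot_dd h1 h2 hc1 hc2 p (cr F1 F2) (cr n v)
  have e2 := dot_dd h1 h2 hc1 hc2 p (F1 - F2) n
  rw [RX_cr h1, hee, cr_smul, Matrix.mulVec_smul, dotProduct_smul, smul_eq_mul] at e1
  rw [hee, Matrix.mulVec_smul, dotProduct_smul, smul_eq_mul] at e2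
  have e3 : Rm (dd c1 s1 c2 s2 p) = ((dd c1 s1 c2 s2 p 0) ^ 2) • Rm ![1,
      dd c1 s1 c2 s2 p 1 / dd c1 s1 c2 s2 p 0, dd c1 s1 c2 s2 p 2 / dd c1 s1 c2 s2 p 0,
      dd c1 s1 c2 s2 p 3 / dd c1 s1 c2 s2 p 0] := by
    rw [← Rm_smul, ← hdd]
  rw [e3, Matrix.smul_mulVec, dotProduct_smul, smul_eq_mul] at e1 e2
  unfold GG Gh
  simp only [Matrix.cons_val_zero, Matrix.cons_val_one, Matrix.cons_val]
  linear_combination nu * e1 - g ^ 2 * e2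

/-- interval bound for products -/
lemma mulb {x y a b e f : ℝ} (hx : |x - a| ≤ e) (hy : |y - b| ≤ f) :
    |x * y - a * b| ≤ |a| * f + |b| * e + e * f := by
  have h : x * y - a * b = a * (y - b) + (x - a) * b + (x - a) * (y - b) := by ring
  rw [h]
  have h1 := abs_add_le (a * (y - b) + (x - a) * b) ((x - a) * (y - b))
  have h2 := abs_add_le (a * (y - b)) ((x - a) * b)
  rw [abs_mul, abs_mul] at h2
  rw [abs_mul] at h1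
  have h3 : |a| * |y - b| ≤ |a| * f := mul_le_mul_of_nonneg_left hy (abs_nonneg _)
  have h4 : |x - a| * |b| ≤ e * |b| := mul_le_mul_of_nonneg_right hx (abs_nonneg _)
  have h5 : |x - a| * |y - b| ≤ e * f :=
    mul_le_mul hx hy (abs_nonneg _) ((abs_nonneg _).trans hx)
  linarith

lemma dotb {x y a b : Fin 3 → ℝ} {e f A B : ℝ} (hx : ∀ i, |x i - a i| ≤ e)
    (hy : ∀ i, |y i - b i| ≤ f) (ha : ∀ i, |a i| ≤ A) (hb : ∀ i, |b i| ≤ B) :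
    |x ⬝ᵥ y - a ⬝ᵥ b| ≤ 3 * (A * f + B * e + e * f) := by
  have he : 0 ≤ e := (abs_nonneg _).trans (hx 0)
  have hf : 0 ≤ f := (abs_nonneg _).trans (hy 0)
  have h : ∀ i, |x i * y i - a i * b i| ≤ A * f + B * e + e * f := fun i => by
    have h1 := mulb (hx i) (hy i)
    have h2 := mul_le_mul_of_nonneg_right (ha i) hf
    have h3 := mul_le_mul_of_nonneg_right (hb i) he
    linarith
  have h0 := h 0
  have h1 := h 1
  have h2 := h 2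
  rw [abs_le] at h0 h1 h2 ⊢
  simp only [dotProduct, Fin.sum_univ_three]
  constructor <;> linarith [h0.1, h0.2, h1.1, h1.2, h2.1, h2.2]

lemma mvb {M N : Matrix (Fin 3) (Fin 3) ℝ} {x a : Fin 3 → ℝ} {e f A B : ℝ}
    (hM : ∀ i j, |M i j - N i j| ≤ e) (hx : ∀ i, |x i - a i| ≤ f) (hN : ∀ i j, |N i j| ≤ A)
    (ha : ∀ i, |a i| ≤ B) : ∀ i, |(M *ᵥ x) i - (N *ᵥ a) i| ≤ 3 * (A * f + B * e + e * f) :=
  fun i => dotb (x := fun j => M i j) (a := fun j => N i j) (hM i) hx (hN i) ha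

/-- interval bound for products, with bounds for the centres -/
lemma mulc {x y a b e f A B : ℝ} (hx : |x - a| ≤ e) (hy : |y - b| ≤ f) (ha : |a| ≤ A)
    (hb : |b| ≤ B) : |x * y - a * b| ≤ A * f + B * e + e * f := by
  have he : 0 ≤ e := (abs_nonneg _).trans hx
  have hf : 0 ≤ f := (abs_nonneg _).trans hy
  have h1 := mulb hx hy
  have h2 := mul_le_mul_of_nonneg_right ha hf
  have h3 := mul_le_mul_of_nonneg_right hb he
  linarith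

lemma dd0 (c1 s1 c2 s2 : ℝ) (p : Fin 4 → ℝ) : dd c1 s1 c2 s2 p 0 = ((1 + c2) * (1 + c1)) * p 0 +
    (s2 * (1 + c1)) * p 2 + ((1 + c2) * s1) * p 1 - (s2 * s1) * p 3 := by
  simp [dd, qm]
  ring

lemma dd1 (c1 s1 c2 s2 : ℝ) (p : Fin 4 → ℝ) : dd c1 s1 c2 s2 p 1 = -((1 + c2) * s1) * p 0 -
    (s2 * s1) * p 2 + ((1 + c2) * (1 + c1)) * p 1 - (s2 * (1 + c1)) * p 3 := by
  simp [dd, qm]
  ring

lemma dd2 (c1 s1 c2 s2 : ℝ) (p : Fin 4 → ℝ) : dd c1 s1 c2 s2 p 2 = ((1 + c2) * (1 + c1)) * p 2 -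
    (s2 * (1 + c1)) * p 0 - ((1 + c2) * s1) * p 3 - (s2 * s1) * p 1 := by
  simp [dd, qm]
  ring

lemma dd3 (c1 s1 c2 s2 : ℝ) (p : Fin 4 → ℝ) : dd c1 s1 c2 s2 p 3 = ((1 + c2) * s1) * p 2 -
    (s2 * s1) * p 0 + ((1 + c2) * (1 + c1)) * p 3 + (s2 * (1 + c1)) * p 1 := by
  simp [dd, qm]
  ring

lemma g_sq : g ^ 2 = g + 1 := Real.goldenRatio_sq

lemma g_bd : 1.6180339 < g ∧ g < 1.618034 := by
  have h := g_sq
  have h0 : 0 < g := Real.goldenRatio_pos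
  constructor
  · by_contra hc
    push Not at hc
    nlinarith
  · by_contra hc
    push Not at hc
    nlinarith

lemma g_inv : 1 / g = g - 1 := by
  have h := g_sq
  have h0 : 0 < g := Real.goldenRatio_pos
  rw [div_eq_iff h0.ne']
  linear_combination (-1) * h

/-- the step from `c` to `nu` -/
lemma GG_lt {V : Set (Fin 3 → ℝ)} (hCON : S_CON) {c : ℝ} (hc : nu < c) {p : Fin 4 → ℝ}
    {n F1 F2 v : Fin 3 → ℝ} (hq : 0 < nq p) (hF1 : ∀ z ∈ V, F1 ⬝ᵥ z ≤ g ^ 2)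
    (hF2 : ∀ z ∈ V, F2 ⬝ᵥ z ≤ g ^ 2) (hv : v ∈ V) (hW : WQ V c p n)
    (h1 : 0 ≤ F1 ⬝ᵥ (Rm p *ᵥ n)) (h2 : F2 ⬝ᵥ (Rm p *ᵥ n) ≤ 0)
    (h3 : 0 < cr F1 F2 ⬝ᵥ (Rm p *ᵥ cr n v)) : GG nu F1 F2 v p n < 0 := by
  have h := hCON.1 V c p n F1 F2 v hq hF1 hF2 hv hW h1 h2
  unfold GG at h ⊢
  nlinarith [mul_pos (sub_pos.2 hc) h3]

/-! ### The numbers -/

/-- the matrix at the centre -/
def R0 : Matrix (Fin 3) (Fin 3) ℝ :=
  !![1.01439, 0.09727, 0.25917; 0, 0.98443, -0.36948; -0.27682, 0.35644, 0.9497]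

lemma R0_bd : ∀ i j, |R0 i j| ≤ 11 / 10 := by
  intro i j
  fin_cases i <;> fin_cases j <;> simp [R0] <;> norm_num [abs_le]

lemma Rm_bd {p : Fin 4 → ℝ} (hp0 : p 0 = 1) (h1 : |p 1 - 0.18147977| ≤ 1 / 2000)
    (h2 : |p 2 - 0.13399842| ≤ 1 / 2000) (h3 : |p 3 - (-0.02431800)| ≤ 1 / 2000) :
    ∀ i j, |Rm p i j - R0 i j| ≤ 1 / 500 := by
  have b1 : |(0.18147977 : ℝ)| ≤ 0.182 := by norm_num [abs_le]
  have b2 : |(0.13399842 : ℝ)| ≤ 0.182 := by norm_num [abs_le]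
  have b3 : |(-0.02431800 : ℝ)| ≤ 0.025 := by norm_num [abs_le]
  have q11 := mulc h1 h1 b1 b1
  have q22 := mulc h2 h2 b2 b2
  have q33 := mulc h3 h3 b3 b3
  have q12 := mulc h1 h2 b1 b2
  have q13 := mulc h1 h3 b1 b3
  have q23 := mulc h2 h3 b2 b3
  rw [abs_le] at h1 h2 h3 q11 q22 q33 q12 q13 q23
  obtain ⟨l1, u1⟩ := h1
  obtain ⟨l2, u2⟩ := h2
  obtain ⟨l3, u3⟩ := h3
  obtain ⟨l11, u11⟩ := q11
  obtain ⟨l22, u22⟩ := q22
  obtain ⟨l33, u33⟩ := q33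
  obtain ⟨l12, u12⟩ := q12
  obtain ⟨l13, u13⟩ := q13
  obtain ⟨l23, u23⟩ := q23
  have e00 : |(p 0 ^ 2 + p 1 ^ 2 - p 2 ^ 2 - p 3 ^ 2) - (1.01439 : ℝ)| ≤ 1 / 500 := by
    rw [hp0, abs_le]
    constructor <;> nlinarith
  have e01 : |(2 * (p 1 * p 2 - p 0 * p 3)) - (0.09727 : ℝ)| ≤ 1 / 500 := by
    rw [hp0, abs_le]
    constructor <;> nlinarith
  have e02 : |(2 * (p 1 * p 3 + p 0 * p 2)) - (0.25917 : ℝ)| ≤ 1 / 500 := by
    rw [hp0, abs_le]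
    constructor <;> nlinarith
  have e10 : |(2 * (p 1 * p 2 + p 0 * p 3)) - (0 : ℝ)| ≤ 1 / 500 := by
    rw [hp0, abs_le]
    constructor <;> nlinarith
  have e11 : |(p 0 ^ 2 - p 1 ^ 2 + p 2 ^ 2 - p 3 ^ 2) - (0.98443 : ℝ)| ≤ 1 / 500 := by
    rw [hp0, abs_le]
    constructor <;> nlinarith
  have e12 : |(2 * (p 2 * p 3 - p 0 * p 1)) - (-0.36948 : ℝ)| ≤ 1 / 500 := by
    rw [hp0, abs_le]
    constructor <;> nlinarith
  have e20 : |(2 * (p 1 * p 3 - p 0 * p 2)) - (-0.27682 : ℝ)| ≤ 1 / 500 := by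
    rw [hp0, abs_le]
    constructor <;> nlinarith
  have e21 : |(2 * (p 2 * p 3 + p 0 * p 1)) - (0.35644 : ℝ)| ≤ 1 / 500 := by
    rw [hp0, abs_le]
    constructor <;> nlinarith
  have e22 : |(p 0 ^ 2 - p 1 ^ 2 - p 2 ^ 2 + p 3 ^ 2) - (0.9497 : ℝ)| ≤ 1 / 500 := by
    rw [hp0, abs_le]
    constructor <;> nlinarith
  intro i j
  fin_cases i <;> fin_cases j
  exacts [e00, e01, e02, e10, e11, e12, e20, e21, e22]

lemma ddb {p : Fin 4 → ℝ} (hA : S_ALG) (hp0 : p 0 = 1) (h1 : |p 1 - 0.18147977| ≤ 1 / 2000)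
    (h2 : |p 2 - 0.13399842| ≤ 1 / 2000) (h3 : |p 3 - (-0.02431800)| ≤ 1 / 2000) :
    3.99 < dd Ca Sa Cb Sb p 0 ∧ |dd Ca Sa Cb Sb p 1| ≤ 0.0039 ∧
      |dd Ca Sa Cb Sb p 2| ≤ 0.0039 ∧ |dd Ca Sa Cb Sb p 3| ≤ 0.0039 := by
  obtain ⟨-, -, -, -, -, -, -, -, -, -, hCa, hSa, hCb, hSb⟩ := hA
  have t1 : |(1 + Ca) - 1.93623042943| ≤ 1 / 10 ^ 10 := by
    rw [abs_lt] at hCa
    rw [abs_le]
    constructor <;> linarith [hCa.1, hCa.2]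
  have t2 : |(1 + Cb) - 1.96472227929| ≤ 1 / 10 ^ 10 := by
    rw [abs_lt] at hCb
    rw [abs_le]
    constructor <;> linarith [hCb.1, hCb.2]
  have a1 : |(1.93623042943 : ℝ)| ≤ 2 := by norm_num [abs_le]
  have a2 : |(1.96472227929 : ℝ)| ≤ 2 := by norm_num [abs_le]
  have a3 : |(0.35138665740 : ℝ)| ≤ 2 := by norm_num [abs_le]
  have a4 : |(0.26326967893 : ℝ)| ≤ 2 := by norm_num [abs_le]
  have m0 := mulc t2 t1 a2 a1
  have n0 : |((1.96472227929 : ℝ) * 1.93623042943)| ≤ 4 := by norm_num [abs_le]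
  have m1 := mulc t2 hSa.le a2 a3
  have n1 : |((1.96472227929 : ℝ) * 0.35138665740)| ≤ 4 := by norm_num [abs_le]
  have m2 := mulc hSb.le t1 a4 a1
  have n2 : |((0.26326967893 : ℝ) * 1.93623042943)| ≤ 4 := by norm_num [abs_le]
  have m3 := mulc hSb.le hSa.le a4 a3
  have n3 : |((0.26326967893 : ℝ) * 0.35138665740)| ≤ 4 := by norm_num [abs_le]
  have b1 : |(0.18147977 : ℝ)| ≤ 0.182 := by norm_num [abs_le]
  have b2 : |(0.13399842 : ℝ)| ≤ 0.182 := by norm_num [abs_le]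
  have b3 : |(-0.02431800 : ℝ)| ≤ 0.025 := by norm_num [abs_le]
  have c0 : |((1.96472227929 : ℝ) * 1.93623042943)| ≤ 3.80417 := by norm_num [abs_le]
  have r01 := mulc m0 h1 c0 b1
  have r02 := mulc m0 h2 c0 b2
  have r03 := mulc m0 h3 c0 b3
  have c1 : |((1.96472227929 : ℝ) * 0.35138665740)| ≤ 0.69039 := by norm_num [abs_le]
  have r11 := mulc m1 h1 c1 b1
  have r12 := mulc m1 h2 c1 b2
  have r13 := mulc m1 h3 c1 b3
  have c2 : |((0.26326967893 : ℝ) * 1.93623042943)| ≤ 0.50976 := by norm_num [abs_le]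
  have r21 := mulc m2 h1 c2 b1
  have r22 := mulc m2 h2 c2 b2
  have r23 := mulc m2 h3 c2 b3
  have c3 : |((0.26326967893 : ℝ) * 0.35138665740)| ≤ 0.09252 := by norm_num [abs_le]
  have r31 := mulc m3 h1 c3 b1
  have r32 := mulc m3 h2 c3 b2
  have r33 := mulc m3 h3 c3 b3
  rw [dd0, dd1, dd2, dd3, hp0]
  simp only [abs_le, mul_one] at *
  obtain ⟨ml0, mu0⟩ := m0
  obtain ⟨rl01, ru01⟩ := r01
  obtain ⟨rl02, ru02⟩ := r02
  obtain ⟨rl03, ru03⟩ := r03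
  obtain ⟨ml1, mu1⟩ := m1
  obtain ⟨rl11, ru11⟩ := r11
  obtain ⟨rl12, ru12⟩ := r12
  obtain ⟨rl13, ru13⟩ := r13
  obtain ⟨ml2, mu2⟩ := m2
  obtain ⟨rl21, ru21⟩ := r21
  obtain ⟨rl22, ru22⟩ := r22
  obtain ⟨rl23, ru23⟩ := r23
  obtain ⟨ml3, mu3⟩ := m3
  obtain ⟨rl31, ru31⟩ := r31
  obtain ⟨rl32, ru32⟩ := r32
  obtain ⟨rl33, ru33⟩ := r33
  refine ⟨?_, ⟨?_, ?_⟩, ⟨?_, ?_⟩, ?_, ?_⟩ <;> linarith

lemma hyps {n : Fin 3 → ℝ} (hn2 : n 2 = 1) (hn0 : |n 0| ≤ 1 / 1000)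
    (hn1 : |n 1 - 0.37532070| ≤ 1 / 1000) : ∀ i, |n i - (![0, 0.37532070, 1] : Fin 3 → ℝ) i| ≤ 1 / 1000 := by
  intro i
  fin_cases i
  · simpa using hn0
  · exact hn1
  · simp [hn2]

lemma gi : (1 : ℝ) / g = g - 1 := g_inv

lemma gi' : (-1 : ℝ) / g = 1 - g := by
  rw [neg_div, g_inv]
  ring

/-- the faces of pair 0 -/
lemma face0a : ∀ z ∈ VI, ![-1, -1, 1] ⬝ᵥ z ≤ g ^ 2 := by
  rintro z ⟨s, t, hs, ht, hz⟩
  have hg := g_bd
  have h2 := g_sq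
  rw [h2]
  rcases hs with rfl | rfl <;> rcases ht with rfl | rfl <;> rcases hz with rfl | rfl | rfl <;>
    simp only [gi, gi', dotProduct, Fin.sum_univ_three] <;> simp <;> nlinarith [hg.1, hg.2]

lemma face0b : ∀ z ∈ VI, ![-g, -1 / g, 0] ⬝ᵥ z ≤ g ^ 2 := by
  rintro z ⟨s, t, hs, ht, hz⟩
  have hg := g_bd
  have h2 := g_sq
  rw [h2]
  rcases hs with rfl | rfl <;> rcases ht with rfl | rfl <;> rcases hz with rfl | rfl | rfl <;>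
    simp only [gi, gi', dotProduct, Fin.sum_univ_three] <;> simp <;> nlinarith [hg.1, hg.2]

lemma Fb0a : ∀ i, |(![-1, -1, 1] : Fin 3 → ℝ) i - (![-1, -1, 1] : Fin 3 → ℝ) i| ≤ 1 / 100000 := by
  have hg := g_bd
  have h2 := g_sq
  intro i
  fin_cases i <;> simp only [gi, gi'] <;> simp <;> (try rw [abs_le]) <;>
    (try constructor) <;> (try linarith [hg.1, hg.2])

lemma Fb0b : ∀ i, |(![-g, -1 / g, 0] : Fin 3 → ℝ) i - (![-1.618034, -0.618034, 0] : Fin 3 → ℝ) i| ≤ 1 / 100000 := by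
  have hg := g_bd
  have h2 := g_sq
  intro i
  fin_cases i <;> simp only [gi, gi'] <;> simp <;> (try rw [abs_le]) <;>
    (try constructor) <;> (try linarith [hg.1, hg.2])

lemma Kb0 : ∀ i, |cr ![-1, -1, 1] ![-g, -1 / g, 0] i - (![0.618034, -1.618034, -1] : Fin 3 → ℝ) i| ≤ 1 / 100000 := by
  have hg := g_bd
  have h2 := g_sq
  intro i
  fin_cases i <;> simp only [gi, gi', cr] <;> simp <;> (try rw [abs_le]) <;>
    (try constructor) <;> (try nlinarith [hg.1, hg.2])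

/-- the faces of pair 1 -/
lemma face1a : ∀ z ∈ VI, ![-1, 1, 1] ⬝ᵥ z ≤ g ^ 2 := by
  rintro z ⟨s, t, hs, ht, hz⟩
  have hg := g_bd
  have h2 := g_sq
  rw [h2]
  rcases hs with rfl | rfl <;> rcases ht with rfl | rfl <;> rcases hz with rfl | rfl | rfl <;>
    simp only [gi, gi', dotProduct, Fin.sum_univ_three] <;> simp <;> nlinarith [hg.1, hg.2]

lemma face1b : ∀ z ∈ VI, ![-g, 1 / g, 0] ⬝ᵥ z ≤ g ^ 2 := by
  rintro z ⟨s, t, hs, ht, hz⟩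
  have hg := g_bd
  have h2 := g_sq
  rw [h2]
  rcases hs with rfl | rfl <;> rcases ht with rfl | rfl <;> rcases hz with rfl | rfl | rfl <;>
    simp only [gi, gi', dotProduct, Fin.sum_univ_three] <;> simp <;> nlinarith [hg.1, hg.2]

lemma Fb1a : ∀ i, |(![-1, 1, 1] : Fin 3 → ℝ) i - (![-1, 1, 1] : Fin 3 → ℝ) i| ≤ 1 / 100000 := by
  have hg := g_bd
  have h2 := g_sq
  intro i
  fin_cases i <;> simp only [gi, gi'] <;> simp <;> (try rw [abs_le]) <;>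
    (try constructor) <;> (try linarith [hg.1, hg.2])

lemma Fb1b : ∀ i, |(![-g, 1 / g, 0] : Fin 3 → ℝ) i - (![-1.618034, 0.618034, 0] : Fin 3 → ℝ) i| ≤ 1 / 100000 := by
  have hg := g_bd
  have h2 := g_sq
  intro i
  fin_cases i <;> simp only [gi, gi'] <;> simp <;> (try rw [abs_le]) <;>
    (try constructor) <;> (try linarith [hg.1, hg.2])

lemma Kb1 : ∀ i, |cr ![-1, 1, 1] ![-g, 1 / g, 0] i - (![-0.618034, -1.618034, 1] : Fin 3 → ℝ) i| ≤ 1 / 100000 := by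
  have hg := g_bd
  have h2 := g_sq
  intro i
  fin_cases i <;> simp only [gi, gi', cr] <;> simp <;> (try rw [abs_le]) <;>
    (try constructor) <;> (try nlinarith [hg.1, hg.2])

lemma sg0 {p : Fin 4 → ℝ} {n : Fin 3 → ℝ}
    (hp0 : p 0 = 1) (hn2 : n 2 = 1) (h1 : |p 1 - 0.18147977| ≤ 1 / 2000)
    (h2 : |p 2 - 0.13399842| ≤ 1 / 2000) (h3 : |p 3 - (-0.02431800)| ≤ 1 / 2000)
    (hn0 : |n 0| ≤ 1 / 1000) (hn1 : |n 1 - 0.37532070| ≤ 1 / 1000) :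
    0 ≤ ![-1, -1, 1] ⬝ᵥ (Rm p *ᵥ n) ∧ ![-g, -1 / g, 0] ⬝ᵥ (Rm p *ᵥ n) ≤ 0 := by
  have hR := Rm_bd hp0 h1 h2 h3
  have hn := hyps hn2 hn0 hn1
  have hm := mvb hR hn R0_bd (B := 1) (by
    intro i
    fin_cases i <;> simp <;> norm_num [abs_le])
  have hb : ∀ i, |(R0 *ᵥ (![0, 0.37532070, 1] : Fin 3 → ℝ)) i| ≤ 2 := by
    intro i
    fin_cases i <;> simp [R0, Matrix.mulVec, dotProduct, Fin.sum_univ_three] <;>
      norm_num [abs_le]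
  have d1 := dotb Fb0a hm (A := 2) (by
    intro i
    fin_cases i <;> simp <;> norm_num [abs_le]) hb
  have d2 := dotb Fb0b hm (A := 2) (by
    intro i
    fin_cases i <;> simp <;> norm_num [abs_le]) hb
  have v1 : 0.2 < (![-1, -1, 1] : Fin 3 → ℝ) ⬝ᵥ (R0 *ᵥ (![0, 0.37532070, 1] : Fin 3 → ℝ)) := by
    simp [R0, Matrix.mulVec, dotProduct, Fin.sum_univ_three]
    norm_num
  have v2 : (![-1.618034, -0.618034, 0] : Fin 3 → ℝ) ⬝ᵥ (R0 *ᵥ (![0, 0.37532070, 1] : Fin 3 → ℝ)) < -0.2 := by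
    simp [R0, Matrix.mulVec, dotProduct, Fin.sum_univ_three]
    norm_num
  rw [abs_le] at d1 d2
  constructor
  · linarith [d1.1]
  · linarith [d2.2]

lemma sg1 {p : Fin 4 → ℝ} {n : Fin 3 → ℝ}
    (hp0 : p 0 = 1) (hn2 : n 2 = 1) (h1 : |p 1 - 0.18147977| ≤ 1 / 2000)
    (h2 : |p 2 - 0.13399842| ≤ 1 / 2000) (h3 : |p 3 - (-0.02431800)| ≤ 1 / 2000)
    (hn0 : |n 0| ≤ 1 / 1000) (hn1 : |n 1 - 0.37532070| ≤ 1 / 1000) :
    0 ≤ ![-1, 1, 1] ⬝ᵥ (Rm p *ᵥ n) ∧ ![-g, 1 / g, 0] ⬝ᵥ (Rm p *ᵥ n) ≤ 0 := by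
  have hR := Rm_bd hp0 h1 h2 h3
  have hn := hyps hn2 hn0 hn1
  have hm := mvb hR hn R0_bd (B := 1) (by
    intro i
    fin_cases i <;> simp <;> norm_num [abs_le])
  have hb : ∀ i, |(R0 *ᵥ (![0, 0.37532070, 1] : Fin 3 → ℝ)) i| ≤ 2 := by
    intro i
    fin_cases i <;> simp [R0, Matrix.mulVec, dotProduct, Fin.sum_univ_three] <;>
      norm_num [abs_le]
  have d1 := dotb Fb1a hm (A := 2) (by
    intro i
    fin_cases i <;> simp <;> norm_num [abs_le]) hb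
  have d2 := dotb Fb1b hm (A := 2) (by
    intro i
    fin_cases i <;> simp <;> norm_num [abs_le]) hb
  have v1 : 0.2 < (![-1, 1, 1] : Fin 3 → ℝ) ⬝ᵥ (R0 *ᵥ (![0, 0.37532070, 1] : Fin 3 → ℝ)) := by
    simp [R0, Matrix.mulVec, dotProduct, Fin.sum_univ_three]
    norm_num
  have v2 : (![-1.618034, 0.618034, 0] : Fin 3 → ℝ) ⬝ᵥ (R0 *ᵥ (![0, 0.37532070, 1] : Fin 3 → ℝ)) < -0.2 := by
    simp [R0, Matrix.mulVec, dotProduct, Fin.sum_univ_three]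
    norm_num
  rw [abs_le] at d1 d2
  constructor
  · linarith [d1.1]
  · linarith [d2.2]

lemma con0 (hCON : S_CON) {c : ℝ} (hc : nu < c) {p : Fin 4 → ℝ} {n : Fin 3 → ℝ}
    (hp0 : p 0 = 1) (hn2 : n 2 = 1) (h1 : |p 1 - 0.18147977| ≤ 1 / 2000)
    (h2 : |p 2 - 0.13399842| ≤ 1 / 2000) (h3 : |p 3 - (-0.02431800)| ≤ 1 / 2000)
    (hn0 : |n 0| ≤ 1 / 1000) (hn1 : |n 1 - 0.37532070| ≤ 1 / 1000)
    (hW : WQ VI c p n) : GG nu ![-1, -1, 1] ![-g, -1 / g, 0] ![-g, 0, 1] p n < 0 := by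
  have hq : 0 < nq p := by
    unfold nq
    rw [hp0]
    positivity
  have hR := Rm_bd hp0 h1 h2 h3
  obtain ⟨g1, g2⟩ := sg0 hp0 hn2 h1 h2 h3 hn0 hn1
  have hgb : |g - 1.618034| ≤ 1 / 1000000 := by
    have := g_bd
    rw [abs_le]
    constructor <;> linarith [this.1, this.2]
  have a0 : |(0 : ℝ)| ≤ 1 := by norm_num
  have a1 : |(0.37532070 : ℝ)| ≤ 1 := by norm_num [abs_le]
  have a2 : |(1.618034 : ℝ)| ≤ 2 := by norm_num [abs_le]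
  have hn0' : |n 0 - 0| ≤ 1 / 1000 := by simpa using hn0
  have k0 := mulc hn0' hgb a0 a2
  have k1 := mulc hn1 hgb a1 a2
  have k2 := g_sq
  have hw : ∀ i, |cr n ![-g, 0, 1] i - (![0.375321, -1.618034, 0.607282] : Fin 3 → ℝ) i| ≤ 1 / 100 := by
    rw [abs_le] at k0 k1 hn0 hn1 hgb
    obtain ⟨k0l, k0u⟩ := k0
    obtain ⟨k1l, k1u⟩ := k1
    obtain ⟨n0l, n0u⟩ := hn0
    obtain ⟨n1l, n1u⟩ := hn1
    obtain ⟨gl, gu⟩ := hgb
    intro i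
    fin_cases i <;> simp only [gi, gi', cr, hn2] <;> simp <;> rw [abs_le] <;>
      constructor <;> linarith
  have hm := mvb hR hw R0_bd (B := 2) (by
    intro i
    fin_cases i <;> simp <;> norm_num [abs_le])
  have hb : ∀ i, |(R0 *ᵥ (![0.375321, -1.618034, 0.607282] : Fin 3 → ℝ)) i| ≤ 2 := by
    intro i
    fin_cases i <;> simp [R0, Matrix.mulVec, dotProduct, Fin.sum_univ_three] <;>
      norm_num [abs_le]
  have d1 := dotb Kb0 hm (A := 3) (by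
    intro i
    fin_cases i <;> simp <;> norm_num [abs_le]) hb
  have v1 : 2 < (![0.618034, -1.618034, -1] : Fin 3 → ℝ) ⬝ᵥ (R0 *ᵥ (![0.375321, -1.618034, 0.607282] : Fin 3 → ℝ)) := by
    simp [R0, Matrix.mulVec, dotProduct, Fin.sum_univ_three]
    norm_num
  rw [abs_le] at d1
  refine GG_lt hCON hc hq face0a face0b ?_ hW g1 g2 ?_
  · refine ⟨1, -1, Or.inl rfl, Or.inr rfl, Or.inr (Or.inr ?_)⟩
    simp
  · linarith [d1.1]

lemma con1 (hCON : S_CON) {c : ℝ} (hc : nu < c) {p : Fin 4 → ℝ} {n : Fin 3 → ℝ}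
    (hp0 : p 0 = 1) (hn2 : n 2 = 1) (h1 : |p 1 - 0.18147977| ≤ 1 / 2000)
    (h2 : |p 2 - 0.13399842| ≤ 1 / 2000) (h3 : |p 3 - (-0.02431800)| ≤ 1 / 2000)
    (hn0 : |n 0| ≤ 1 / 1000) (hn1 : |n 1 - 0.37532070| ≤ 1 / 1000)
    (hW : WQ VI c p n) : GG nu ![-1, -1, 1] ![-g, -1 / g, 0] ![-1, -g, 0] p n < 0 := by
  have hq : 0 < nq p := by
    unfold nq
    rw [hp0]
    positivity
  have hR := Rm_bd hp0 h1 h2 h3
  obtain ⟨g1, g2⟩ := sg0 hp0 hn2 h1 h2 h3 hn0 hn1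
  have hgb : |g - 1.618034| ≤ 1 / 1000000 := by
    have := g_bd
    rw [abs_le]
    constructor <;> linarith [this.1, this.2]
  have a0 : |(0 : ℝ)| ≤ 1 := by norm_num
  have a1 : |(0.37532070 : ℝ)| ≤ 1 := by norm_num [abs_le]
  have a2 : |(1.618034 : ℝ)| ≤ 2 := by norm_num [abs_le]
  have hn0' : |n 0 - 0| ≤ 1 / 1000 := by simpa using hn0
  have k0 := mulc hn0' hgb a0 a2
  have k1 := mulc hn1 hgb a1 a2
  have k2 := g_sq
  have hw : ∀ i, |cr n ![-1, -g, 0] i - (![1.618034, -1, 0.375321] : Fin 3 → ℝ) i| ≤ 1 / 100 := by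
    rw [abs_le] at k0 k1 hn0 hn1 hgb
    obtain ⟨k0l, k0u⟩ := k0
    obtain ⟨k1l, k1u⟩ := k1
    obtain ⟨n0l, n0u⟩ := hn0
    obtain ⟨n1l, n1u⟩ := hn1
    obtain ⟨gl, gu⟩ := hgb
    intro i
    fin_cases i <;> simp only [gi, gi', cr, hn2] <;> simp <;> rw [abs_le] <;>
      constructor <;> linarith
  have hm := mvb hR hw R0_bd (B := 2) (by
    intro i
    fin_cases i <;> simp <;> norm_num [abs_le])
  have hb : ∀ i, |(R0 *ᵥ (![1.618034, -1, 0.375321] : Fin 3 → ℝ)) i| ≤ 2 := by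
    intro i
    fin_cases i <;> simp [R0, Matrix.mulVec, dotProduct, Fin.sum_univ_three] <;>
      norm_num [abs_le]
  have d1 := dotb Kb0 hm (A := 3) (by
    intro i
    fin_cases i <;> simp <;> norm_num [abs_le]) hb
  have v1 : 2 < (![0.618034, -1.618034, -1] : Fin 3 → ℝ) ⬝ᵥ (R0 *ᵥ (![1.618034, -1, 0.375321] : Fin 3 → ℝ)) := by
    simp [R0, Matrix.mulVec, dotProduct, Fin.sum_univ_three]
    norm_num
  rw [abs_le] at d1
  refine GG_lt hCON hc hq face0a face0b ?_ hW g1 g2 ?_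
  · refine ⟨-1, -1, Or.inr rfl, Or.inr rfl, Or.inr (Or.inl ?_)⟩
    simp
  · linarith [d1.1]

lemma con2 (hCON : S_CON) {c : ℝ} (hc : nu < c) {p : Fin 4 → ℝ} {n : Fin 3 → ℝ}
    (hp0 : p 0 = 1) (hn2 : n 2 = 1) (h1 : |p 1 - 0.18147977| ≤ 1 / 2000)
    (h2 : |p 2 - 0.13399842| ≤ 1 / 2000) (h3 : |p 3 - (-0.02431800)| ≤ 1 / 2000)
    (hn0 : |n 0| ≤ 1 / 1000) (hn1 : |n 1 - 0.37532070| ≤ 1 / 1000)
    (hW : WQ VI c p n) : GG nu ![-1, 1, 1] ![-g, 1 / g, 0] ![-1, g, 0] p n < 0 := by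
  have hq : 0 < nq p := by
    unfold nq
    rw [hp0]
    positivity
  have hR := Rm_bd hp0 h1 h2 h3
  obtain ⟨g1, g2⟩ := sg1 hp0 hn2 h1 h2 h3 hn0 hn1
  have hgb : |g - 1.618034| ≤ 1 / 1000000 := by
    have := g_bd
    rw [abs_le]
    constructor <;> linarith [this.1, this.2]
  have a0 : |(0 : ℝ)| ≤ 1 := by norm_num
  have a1 : |(0.37532070 : ℝ)| ≤ 1 := by norm_num [abs_le]
  have a2 : |(1.618034 : ℝ)| ≤ 2 := by norm_num [abs_le]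
  have hn0' : |n 0 - 0| ≤ 1 / 1000 := by simpa using hn0
  have k0 := mulc hn0' hgb a0 a2
  have k1 := mulc hn1 hgb a1 a2
  have k2 := g_sq
  have hw : ∀ i, |cr n ![-1, g, 0] i - (![-1.618034, -1, 0.375321] : Fin 3 → ℝ) i| ≤ 1 / 100 := by
    rw [abs_le] at k0 k1 hn0 hn1 hgb
    obtain ⟨k0l, k0u⟩ := k0
    obtain ⟨k1l, k1u⟩ := k1
    obtain ⟨n0l, n0u⟩ := hn0
    obtain ⟨n1l, n1u⟩ := hn1
    obtain ⟨gl, gu⟩ := hgb
    intro i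
    fin_cases i <;> simp only [gi, gi', cr, hn2] <;> simp <;> rw [abs_le] <;>
      constructor <;> linarith
  have hm := mvb hR hw R0_bd (B := 2) (by
    intro i
    fin_cases i <;> simp <;> norm_num [abs_le])
  have hb : ∀ i, |(R0 *ᵥ (![-1.618034, -1, 0.375321] : Fin 3 → ℝ)) i| ≤ 2 := by
    intro i
    fin_cases i <;> simp [R0, Matrix.mulVec, dotProduct, Fin.sum_univ_three] <;>
      norm_num [abs_le]
  have d1 := dotb Kb1 hm (A := 3) (by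
    intro i
    fin_cases i <;> simp <;> norm_num [abs_le]) hb
  have v1 : 2 < (![-0.618034, -1.618034, 1] : Fin 3 → ℝ) ⬝ᵥ (R0 *ᵥ (![-1.618034, -1, 0.375321] : Fin 3 → ℝ)) := by
    simp [R0, Matrix.mulVec, dotProduct, Fin.sum_univ_three]
    norm_num
  rw [abs_le] at d1
  refine GG_lt hCON hc hq face1a face1b ?_ hW g1 g2 ?_
  · refine ⟨-1, 1, Or.inr rfl, Or.inl rfl, Or.inr (Or.inl ?_)⟩
    simp
  · linarith [d1.1]

lemma con3 (hCON : S_CON) {c : ℝ} (hc : nu < c) {p : Fin 4 → ℝ} {n : Fin 3 → ℝ}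
    (hp0 : p 0 = 1) (hn2 : n 2 = 1) (h1 : |p 1 - 0.18147977| ≤ 1 / 2000)
    (h2 : |p 2 - 0.13399842| ≤ 1 / 2000) (h3 : |p 3 - (-0.02431800)| ≤ 1 / 2000)
    (hn0 : |n 0| ≤ 1 / 1000) (hn1 : |n 1 - 0.37532070| ≤ 1 / 1000)
    (hW : WQ VI c p n) : GG nu ![-1, 1, 1] ![-g, 1 / g, 0] ![-g, 0, -1] p n < 0 := by
  have hq : 0 < nq p := by
    unfold nq
    rw [hp0]
    positivity
  have hR := Rm_bd hp0 h1 h2 h3
  obtain ⟨g1, g2⟩ := sg1 hp0 hn2 h1 h2 h3 hn0 hn1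
  have hgb : |g - 1.618034| ≤ 1 / 1000000 := by
    have := g_bd
    rw [abs_le]
    constructor <;> linarith [this.1, this.2]
  have a0 : |(0 : ℝ)| ≤ 1 := by norm_num
  have a1 : |(0.37532070 : ℝ)| ≤ 1 := by norm_num [abs_le]
  have a2 : |(1.618034 : ℝ)| ≤ 2 := by norm_num [abs_le]
  have hn0' : |n 0 - 0| ≤ 1 / 1000 := by simpa using hn0
  have k0 := mulc hn0' hgb a0 a2
  have k1 := mulc hn1 hgb a1 a2
  have k2 := g_sq
  have hw : ∀ i, |cr n ![-g, 0, -1] i - (![-0.375321, -1.618034, 0.607282] : Fin 3 → ℝ) i| ≤ 1 / 100 := by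
    rw [abs_le] at k0 k1 hn0 hn1 hgb
    obtain ⟨k0l, k0u⟩ := k0
    obtain ⟨k1l, k1u⟩ := k1
    obtain ⟨n0l, n0u⟩ := hn0
    obtain ⟨n1l, n1u⟩ := hn1
    obtain ⟨gl, gu⟩ := hgb
    intro i
    fin_cases i <;> simp only [gi, gi', cr, hn2] <;> simp <;> rw [abs_le] <;>
      constructor <;> linarith
  have hm := mvb hR hw R0_bd (B := 2) (by
    intro i
    fin_cases i <;> simp <;> norm_num [abs_le])
  have hb : ∀ i, |(R0 *ᵥ (![-0.375321, -1.618034, 0.607282] : Fin 3 → ℝ)) i| ≤ 2 := by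
    intro i
    fin_cases i <;> simp [R0, Matrix.mulVec, dotProduct, Fin.sum_univ_three] <;>
      norm_num [abs_le]
  have d1 := dotb Kb1 hm (A := 3) (by
    intro i
    fin_cases i <;> simp <;> norm_num [abs_le]) hb
  have v1 : 2 < (![-0.618034, -1.618034, 1] : Fin 3 → ℝ) ⬝ᵥ (R0 *ᵥ (![-0.375321, -1.618034, 0.607282] : Fin 3 → ℝ)) := by
    simp [R0, Matrix.mulVec, dotProduct, Fin.sum_univ_three]
    norm_num
  rw [abs_le] at d1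
  refine GG_lt hCON hc hq face1a face1b ?_ hW g1 g2 ?_
  · refine ⟨-1, -1, Or.inr rfl, Or.inr rfl, Or.inr (Or.inr ?_)⟩
    simp
  · linarith [d1.1]

theorem main : S_LOCI := by
  intro hNU hA hCON hPOLY c hc p n hp0 hn2 h1 h2 h3 hn0 hn1 hW
  have hA1 : Ca ^ 2 + Sa ^ 2 = 1 := hA.1
  have hA2 : Cb ^ 2 + Sb ^ 2 = 1 := hA.2.1
  have hA' := hA
  obtain ⟨hd, b1, b2, b3⟩ := ddb hA hp0 h1 h2 h3
  obtain ⟨-, -, -, -, -, -, -, -, -, -, hCa, hSa, hCb, hSb⟩ := hA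
  rw [abs_lt] at hCa hCb
  have hc1 : 0 < 1 + Ca := by linarith [hCa.1]
  have hc2 : 0 < 1 + Cb := by linarith [hCb.1]
  have x1 : |(0.93623042943 : ℝ)| ≤ 0.97 := by norm_num [abs_le]
  have x2 : |(0.35138665740 : ℝ)| ≤ 1 := by norm_num [abs_le]
  have x3 : |(0.37532070 : ℝ)| ≤ 1 := by norm_num [abs_le]
  have hC1 : |Ca - 0.93623042943| ≤ 1 / 10 ^ 10 := by
    rw [abs_le]
    constructor <;> linarith [hCa.1, hCa.2]
  have y1 := mulc hC1 hn1 x1 x3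
  have y2 := mulc hSa.le hn1 x2 x3
  rw [abs_le] at y1 y2
  have heta1 : 1 ≤ Sa * n 1 + Ca := by linarith [y2.1, hCa.1]
  have heta : 0 < Sa * n 1 + Ca := by linarith
  have hd0 : 0 < dd Ca Sa Cb Sb p 0 := by linarith
  have hK : 0 < 4 * (1 + Ca) * (1 + Cb) := by positivity
  have hpos : 0 < (dd Ca Sa Cb Sb p 0) ^ 2 * (Sa * n 1 + Ca) := by positivity
  have hq : ∀ u : ℝ, |u| ≤ 0.0039 → |u / dd Ca Sa Cb Sb p 0| ≤ 1 / 1000 := by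
    intro u hu
    rw [abs_div, abs_of_pos hd0, div_le_iff₀ hd0]
    linarith
  have hx : |n 0 / (Sa * n 1 + Ca)| ≤ 1 / 1000 := by
    rw [abs_div, abs_of_pos heta, div_le_iff₀ heta]
    linarith
  have hy : |(Ca * n 1 - Sa) / (Sa * n 1 + Ca)| ≤ 1 / 1000 := by
    rw [abs_div, abs_of_pos heta, div_le_iff₀ heta, abs_le]
    rw [abs_lt] at hSa
    constructor <;> linarith [y1.1, y1.2, hSa.1, hSa.2]
  rcases hPOLY hNU hA' _ _ _ _ _ (hq _ b1) (hq _ b2) (hq _ b3) hx hy with h | h | h | h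
  · have e := GG_dd hA1 hA2 hc1 hc2 p n ![-1, -1, 1] ![-g, -1 / g, 0] ![-g, 0, 1] hn2 hd0 heta
    have l := con0 hCON hc hp0 hn2 h1 h2 h3 hn0 hn1 hW
    nlinarith [mul_nonneg hpos.le h, mul_pos hK (neg_pos.2 l)]
  · have e := GG_dd hA1 hA2 hc1 hc2 p n ![-1, -1, 1] ![-g, -1 / g, 0] ![-1, -g, 0] hn2 hd0 heta
    have l := con1 hCON hc hp0 hn2 h1 h2 h3 hn0 hn1 hW
    nlinarith [mul_nonneg hpos.le h, mul_pos hK (neg_pos.2 l)]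
  · have e := GG_dd hA1 hA2 hc1 hc2 p n ![-1, 1, 1] ![-g, 1 / g, 0] ![-1, g, 0] hn2 hd0 heta
    have l := con2 hCON hc hp0 hn2 h1 h2 h3 hn0 hn1 hW
    nlinarith [mul_nonneg hpos.le h, mul_pos hK (neg_pos.2 l)]
  · have e := GG_dd hA1 hA2 hc1 hc2 p n ![-1, 1, 1] ![-g, 1 / g, 0] ![-g, 0, -1] hn2 hd0 heta
    have l := con3 hCON hc hp0 hn2 h1 h2 h3 hn0 hn1 hW
    nlinarith [mul_nonneg hpos.le h, mul_pos hK (neg_pos.2 l)]

end LocI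

theorem loci : S_LOCI := LocI.main

end Pool.Agent.H315.NW
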