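import Pool.Agent.H315.NW.Defs

set_option autoImplicit false

namespace Pool.Agent.H315.NW

open Matrix

namespace LowL

theorem RX_zero (c s : ℝ) (v : Fin 3 → ℝ) : (RX c s *ᵥ v) 0 = v 0 := by
  simp [RX, Matrix.mulVec, dotProduct, Fin.sum_univ_three]

theorem RX_one (c s : ℝ) (v : Fin 3 → ℝ) : (RX c s *ᵥ v) 1 = c * v 1 - s * v 2 := by
  simp [RX, Matrix.mulVec, dotProduct, Fin.sum_univ_three]
  ring

theorem RY_zero (c s : ℝ) (v : Fin 3 → ℝ) : ((RY c s)ᵀ *ᵥ v) 0 = c * v 0 - s * v 2 := by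
  simp [RY, Matrix.mulVec, dotProduct, Fin.sum_univ_three, Matrix.transpose]
  ring

theorem RY_one (c s : ℝ) (v : Fin 3 → ℝ) : ((RY c s)ᵀ *ᵥ v) 1 = v 1 := by
  simp [RY, Matrix.mulVec, dotProduct, Fin.sum_univ_three, Matrix.transpose]

theorem RX_mem (c s : ℝ) (h : c ^ 2 + s ^ 2 = 1) :
    RX c s ∈ Matrix.specialOrthogonalGroup (Fin 3) ℝ := by
  rw [Matrix.mem_specialOrthogonalGroup_iff, Matrix.mem_orthogonalGroup_iff]
  constructor
  · ext i j
    fin_cases i <;> fin_cases j <;>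
      simp [RX, Matrix.mul_apply, Fin.sum_univ_three] <;> nlinarith
  · simp [RX, Matrix.det_fin_three]
    nlinarith

theorem RY_mem (c s : ℝ) (h : c ^ 2 + s ^ 2 = 1) :
    (RY c s)ᵀ ∈ Matrix.specialOrthogonalGroup (Fin 3) ℝ := by
  rw [Matrix.mem_specialOrthogonalGroup_iff, Matrix.mem_orthogonalGroup_iff]
  constructor
  · ext i j
    fin_cases i <;> fin_cases j <;>
      simp [RY, Matrix.mul_apply, Fin.sum_univ_three, Matrix.transpose] <;>
      nlinarith
  · rw [Matrix.det_transpose]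
    simp [RY, Matrix.det_fin_three]
    nlinarith

theorem halfset_open (α β K : ℝ) : IsOpen {p : Fin 2 → ℝ | α * |p 0| + β * |p 1| < K} := by
  apply isOpen_lt
  · fun_prop
  · fun_prop

theorem halfset_convex (α β K : ℝ) (hα : 0 ≤ α) (hβ : 0 ≤ β) :
    Convex ℝ {p : Fin 2 → ℝ | α * |p 0| + β * |p 1| < K} := by
  intro p hp q hq a b ha hb hab
  change α * |p 0| + β * |p 1| < K at hp
  change α * |q 0| + β * |q 1| < K at hq
  change α * |(a • p + b • q) 0| + β * |(a • p + b • q) 1| < K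
  have h0 : |(a • p + b • q) 0| ≤ a * |p 0| + b * |q 0| := by
    simp only [Pi.add_apply, Pi.smul_apply, smul_eq_mul]
    calc |a * p 0 + b * q 0| ≤ |a * p 0| + |b * q 0| := abs_add_le _ _
      _ = a * |p 0| + b * |q 0| := by rw [abs_mul, abs_mul, abs_of_nonneg ha, abs_of_nonneg hb]
  have h1 : |(a • p + b • q) 1| ≤ a * |p 1| + b * |q 1| := by
    simp only [Pi.add_apply, Pi.smul_apply, smul_eq_mul]
    calc |a * p 1 + b * q 1| ≤ |a * p 1| + |b * q 1| := abs_add_le _ _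
      _ = a * |p 1| + b * |q 1| := by rw [abs_mul, abs_mul, abs_of_nonneg ha, abs_of_nonneg hb]
  have h2 : α * |(a • p + b • q) 0| + β * |(a • p + b • q) 1|
      ≤ a * (α * |p 0| + β * |p 1|) + b * (α * |q 0| + β * |q 1|) := by
    have := mul_le_mul_of_nonneg_left h0 hα
    have := mul_le_mul_of_nonneg_left h1 hβ
    nlinarith
  rcases eq_or_lt_of_le ha with h | h
  · have hb1 : b = 1 := by linarith
    rw [← h, hb1] at h2
    rw [← h, hb1]
    linarith
  · have h3 : a * (α * |p 0| + β * |p 1|) < a * K := mul_lt_mul_of_pos_left hp h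
    have h4 : b * (α * |q 0| + β * |q 1|) ≤ b * K := mul_le_mul_of_nonneg_left hq.le hb
    have h5 : a * K + b * K = K := by rw [← add_mul, hab, one_mul]
    linarith

/-- the linear projection -/
noncomputable def pr (B : Matrix (Fin 3) (Fin 3) ℝ) : (Fin 3 → ℝ) →ₗ[ℝ] (Fin 2 → ℝ) where
  toFun x := ![(B.mulVec x) 0, (B.mulVec x) 1]
  map_add' x y := by
    ext i
    fin_cases i <;> simp [Matrix.mulVec_add]
  map_smul' r x := by
    ext i
    fin_cases i <;> simp [Matrix.mulVec_smul]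

theorem pr_apply (B : Matrix (Fin 3) (Fin 3) ℝ) (x : Fin 3 → ℝ) :
    pr B x = ![(B.mulVec x) 0, (B.mulVec x) 1] := rfl

theorem passage (V : Set (Fin 3 → ℝ)) (c : ℝ) (hc : 0 < c) (A B : Matrix (Fin 3) (Fin 3) ℝ)
    (hA : A ∈ Matrix.specialOrthogonalGroup (Fin 3) ℝ)
    (hB : B ∈ Matrix.specialOrthogonalGroup (Fin 3) ℝ) (O : Set (Fin 2 → ℝ)) (hO : IsOpen O)
    (hOc : Convex ℝ O) (hin : ∀ v ∈ V, c • pr A v ∈ O)
    (hout : O ⊆ pr B '' convexHull ℝ V) : c ∈ SC V := by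
  refine ⟨hc, A, hA, B, hB, 0, ?_⟩
  have h1 : convexHull ℝ V ⊆ (fun x => (c • pr A) x) ⁻¹' O := by
    apply convexHull_min
    · intro v hv
      exact hin v hv
    · exact hOc.linear_preimage (c • pr A)
  have h2 : O ⊆ interior (pr B '' convexHull ℝ V) := interior_maximal hout hO
  rintro _ ⟨x, hx, rfl⟩
  have h3 : c • pr A x ∈ O := h1 hx
  have h4 := h2 h3
  simp only [add_zero]
  exact h4

theorem trap (S : Set (Fin 2 → ℝ)) (hS : Convex ℝ S) (a b y0 y1 : ℝ) (ha : 0 < a) (hb : 0 < b)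
    (h01 : y0 < y1) (h1 : ![a, y0] ∈ S) (h2 : ![-a, y0] ∈ S) (h3 : ![b, y1] ∈ S)
    (h4 : ![-b, y1] ∈ S) (x y : ℝ) (hy0 : y0 ≤ y) (hy1 : y ≤ y1)
    (hx : |x| * (y1 - y0) ≤ a * (y1 - y) + b * (y - y0)) : ![x, y] ∈ S := by
  have hd : 0 < y1 - y0 := by linarith
  set τ := (y - y0) / (y1 - y0) with hτ
  have hτ0 : 0 ≤ τ := div_nonneg (by linarith) hd.le
  have hτ1 : τ ≤ 1 := by rw [hτ, div_le_one hd]; linarith
  have hτm : τ * (y1 - y0) = y - y0 := by rw [hτ]; field_simp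
  set M := (1 - τ) * a + τ * b with hM
  have hMpos : 0 < M := by
    rcases eq_or_lt_of_le hτ0 with h | h
    · rw [hM, ← h]; simpa using ha
    · have : 0 < τ * b := mul_pos h hb
      have : 0 ≤ (1 - τ) * a := mul_nonneg (by linarith) ha.le
      linarith
  have hxM : |x| ≤ M := by
    have h5 : M * (y1 - y0) = a * (y1 - y) + b * (y - y0) := by
      have : M * (y1 - y0) = a * ((y1 - y0) - τ * (y1 - y0)) + b * (τ * (y1 - y0)) := by
        rw [hM]; ring
      rw [this, hτm]; ring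
    rw [← h5] at hx
    exact le_of_mul_le_mul_right hx hd
  have p1 : ![M, y] ∈ S := by
    have := hS h1 h3 (by linarith : (0 : ℝ) ≤ 1 - τ) hτ0 (by ring)
    have e : (1 - τ) • ![a, y0] + τ • ![b, y1] = ![M, y] := by
      ext i
      fin_cases i
      · simp [hM]
      · simp
        linarith [hτm]
    rwa [e] at this
  have p2 : ![-M, y] ∈ S := by
    have := hS h2 h4 (by linarith : (0 : ℝ) ≤ 1 - τ) hτ0 (by ring)
    have e : (1 - τ) • ![-a, y0] + τ • ![-b, y1] = ![-M, y] := by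
      ext i
      fin_cases i
      · simp [hM]
        ring
      · simp
        linarith [hτm]
    rwa [e] at this
  obtain ⟨hx1, hx2⟩ := abs_le.mp hxM
  have hs1 : 0 ≤ (1 + x / M) / 2 := by
    have : -1 ≤ x / M := by rw [le_div_iff₀ hMpos]; linarith
    linarith
  have hs2 : 0 ≤ (1 - x / M) / 2 := by
    have : x / M ≤ 1 := by rw [div_le_iff₀ hMpos]; linarith
    linarith
  have := hS p1 p2 hs1 hs2 (by ring)
  have e : ((1 + x / M) / 2) • ![M, y] + ((1 - x / M) / 2) • ![-M, y] = ![x, y] := by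
    ext i
    fin_cases i
    · simp
      field_simp
      ring
    · simp
      ring
  rwa [e] at this

theorem gdiv (x : ℝ) : x / Real.goldenRatio = x * (Real.goldenRatio - 1) := by
  have h := Real.goldenRatio_sq
  have hp := Real.goldenRatio_pos
  have e : (Real.goldenRatio - 1) * Real.goldenRatio = 1 := by linear_combination h
  rw [div_eq_iff hp.ne', mul_assoc, e, mul_one]

theorem gbd : 1.618 < Real.goldenRatio ∧ Real.goldenRatio < 1.6181 := by
  have h := Real.goldenRatio_sq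
  have hp := Real.goldenRatio_pos
  constructor <;> nlinarith

/-- the numerical part for the icosahedron -/
theorem numI (G Ca Sa Cb Sb nu Y X c : ℝ) (hg : G ^ 2 = G + 1) (hg1 : 1.618 < G)
    (hg2 : G < 1.6181) (hn1 : 1.01082306 < nu) (hn2 : nu < 1.01082307) (hc0 : 0 < c) (hc : c < nu)
    (a1 : 0.9362 < Ca) (a2 : Ca < 0.9363) (a3 : 0.3513 < Sa) (a4 : Sa < 0.3514)
    (a5 : 0.9647 < Cb) (a6 : Cb < 0.9648) (a7 : 0.2632 < Sb) (a8 : Sb < 0.2633)
    (hY : Y = Sb + Cb * (G - 1)) (hX : X = Sb + G * Cb) (hI1 : Y * (G * Ca - Sa) = 1)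
    (hI2 : nu * (1 + Y * Ca) = X) :
    0 < Y ∧ Y < X ∧ (c * (G * Ca) < G ∧ c * Sa < G ∧ c * (Ca + G * Sa) < G) ∧
    c * (G + Y * (G * Ca)) < G * X ∧ c * (G * G + Y * Sa) < G * X ∧
    c * (Y * (Ca + G * Sa)) < G * X := by
  have hY1 : 0.859 < Y := by
    rw [hY]
    nlinarith [mul_pos (by linarith : (0 : ℝ) < Cb - 0.9647) (by linarith : (0 : ℝ) < G - 1.618)]
  have hY2 : Y < 0.86 := by
    rw [hY]
    nlinarith [mul_pos (by linarith : (0 : ℝ) < Cb - 0.9647) (by linarith : (0 : ℝ) < 1.6181 - G)]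
  have hX1 : 1.823 < X := by
    have : X = Y + Cb := by rw [hX, hY]; ring
    linarith
  have q : c < 1.011 := by linarith
  have hn0 : 0 < nu := by linarith
  have gS : G * Sa < 1.6181 * 0.3514 := mul_lt_mul'' hg2 a4 (by linarith) (by linarith)
  have gS' : 0 < G * Sa := mul_pos (by linarith) (by linarith)
  norm_num at gS
  have e1 : Ca + G * Sa < 1.505 := by linarith
  have e1' : 0 < Ca + G * Sa := by linarith
  have e3 : 0 < 1 + Y * Ca := by
    have := mul_pos (by linarith : (0 : ℝ) < Y) (by linarith : (0 : ℝ) < Ca)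
    linarith
  have t1 : c * (1 + Y * Ca) < X := by
    rw [← hI2]
    exact mul_lt_mul_of_pos_right hc e3
  have hGp : 0 < G := by linarith
  have e4 : G * G + Y * Sa = G * (1 + Y * Ca) := by
    have : Y * Sa = G * (Y * Ca) - 1 := by rw [← hI1]; ring
    rw [this]
    linear_combination hg
  have t2 : c * (G * (1 + Y * Ca)) < G * X := by
    have := mul_lt_mul_of_pos_left t1 hGp
    linarith
  have b1 : c * Ca < 1.011 * 0.9363 := mul_lt_mul'' q a2 hc0.le (by linarith)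
  have b2 : c * Sa < 1.011 * 0.3514 := mul_lt_mul'' q a4 hc0.le (by linarith)
  have b3 : c * (Ca + G * Sa) < 1.011 * 1.505 := mul_lt_mul'' q e1 hc0.le e1'.le
  norm_num at b1 b2 b3
  refine ⟨by linarith, by linarith, ⟨?_, by linarith, by linarith⟩, ?_, ?_, ?_⟩
  · have h1 : c * Ca < 1 := by linarith
    have := mul_lt_mul_of_pos_left h1 hGp
    linarith
  · rw [show G + Y * (G * Ca) = G * (1 + Y * Ca) by ring]
    exact t2
  · rw [e4]
    exact t2
  · have e5 : Y * (Ca + G * Sa) < 0.86 * 1.505 := mul_lt_mul'' hY2 e1 (by linarith) e1'.le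
    have e6 : 0 < Y * (Ca + G * Sa) := mul_pos (by linarith) e1'
    norm_num at e5
    have e7 : c * (Y * (Ca + G * Sa)) < 1.011 * 1.3 := mul_lt_mul'' q (by linarith) hc0.le e6.le
    have e8 : 1.618 * 1.823 < G * X := mul_lt_mul'' hg1 hX1 (by norm_num) (by norm_num)
    norm_num at e7 e8
    linarith

/-- the numerical part for the dodecahedron -/
theorem numD (G Ca Sa Cb Sb nu Z K X1 X2 c : ℝ) (hg : G ^ 2 = G + 1) (hg1 : 1.618 < G)
    (hg2 : G < 1.6181) (hn1 : 1.01082306 < nu) (hn2 : nu < 1.01082307) (hc0 : 0 < c) (hc : c < nu)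
    (a1 : 0.9362 < Ca) (a2 : Ca < 0.9363) (a3 : 0.3513 < Sa) (a4 : Sa < 0.3514)
    (a5 : 0.9647 < Cb) (a6 : Cb < 0.9648) (a7 : 0.2632 < Sb) (a8 : Sb < 0.2633)
    (hZ : Z = G * Sa + Ca * (G - 1)) (hK : K = G * (Ca + G * Sa))
    (hX1 : X1 = G * Ca + Sa * (G - 1)) (hX2 : X2 = Ca + Sa)
    (hD1 : Z * (Cb * (G - 1) - Sb) = (G - 1) ^ 2)
    (hD2 : nu * ((G - 1) + Z * G * Cb) = K) :
    0 < Z ∧ X2 < X1 ∧
    (c * (Cb + Sb) < G ∧ c * (Cb * (G - 1) + G * Sb) < G ∧ c * (G * Cb) < G ∧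
      c * (Sb * (G - 1)) < G) ∧
    (c * (1 + (X1 - X2) * (Cb + Sb)) < X1 ∧ c * ((X1 - X2) * (Cb * (G - 1) + G * Sb)) < X1 ∧
      c * ((G - 1) + (X1 - X2) * (G * Cb)) < X1 ∧ c * (G + (X1 - X2) * (Sb * (G - 1))) < X1) ∧
    (c * (1 + Z * (Cb + Sb)) < K ∧ c * (Z * (Cb * (G - 1) + G * Sb)) < K ∧
      c * ((G - 1) + Z * (G * Cb)) < K ∧ c * (G + Z * (Sb * (G - 1))) < K) := by
  have r1 : 1.618 * 0.3513 < G * Sa := mul_lt_mul'' hg1 a3 (by norm_num) (by norm_num)
  have r2 : G * Sa < 1.6181 * 0.3514 := mul_lt_mul'' hg2 a4 (by linarith) (by linarith)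
  have r3 : 0.9362 * 0.618 < Ca * (G - 1) :=
    mul_lt_mul'' a1 (by linarith) (by norm_num) (by norm_num)
  have r4 : Ca * (G - 1) < 0.9363 * 0.6181 :=
    mul_lt_mul'' a2 (by linarith) (by linarith) (by linarith)
  have r5 : 0.3513 * 0.618 < Sa * (G - 1) :=
    mul_lt_mul'' a3 (by linarith) (by norm_num) (by norm_num)
  have r6 : Sa * (G - 1) < 0.3514 * 0.6181 :=
    mul_lt_mul'' a4 (by linarith) (by linarith) (by linarith)
  have r7 : 1.618 * 0.2632 < G * Sb := mul_lt_mul'' hg1 a7 (by norm_num) (by norm_num)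
  have r8 : G * Sb < 1.6181 * 0.2633 := mul_lt_mul'' hg2 a8 (by linarith) (by linarith)
  have r9 : Cb * (G - 1) < 0.9648 * 0.6181 :=
    mul_lt_mul'' a6 (by linarith) (by linarith) (by linarith)
  have r10 : 0 < Cb * (G - 1) := mul_pos (by linarith) (by linarith)
  have r11 : G * Cb < 1.6181 * 0.9648 := mul_lt_mul'' hg2 a6 (by linarith) (by linarith)
  have r12 : Sb * (G - 1) < 0.2633 * 0.6181 :=
    mul_lt_mul'' a8 (by linarith) (by linarith) (by linarith)
  norm_num at r1 r2 r3 r4 r5 r6 r7 r8 r9 r11 r12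
  have z1 : 1.146 < Z := by rw [hZ]; linarith
  have z2 : Z < 1.148 := by rw [hZ]; linarith
  have x1 : 1.731 < X1 := by
    rw [hX1, show G * Ca = Ca * (G - 1) + Ca by ring]; linarith
  have x2 : X1 - X2 < 0.446 := by
    rw [hX1, hX2, show G * Ca = Ca * (G - 1) + Ca by ring]; linarith
  have x3 : 0.44 < X1 - X2 := by
    rw [hX1, hX2, show G * Ca = Ca * (G - 1) + Ca by ring]; linarith
  have k1 : 2.43 < K := by
    have : 1.618 * 1.504 < G * (Ca + G * Sa) :=
      mul_lt_mul'' hg1 (by linarith) (by norm_num) (by norm_num)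
    rw [hK]
    norm_num at this
    linarith
  have p1 : Cb * (G - 1) + G * Sb < 1.0225 := by linarith
  have p1' : 0 < Cb * (G - 1) + G * Sb := by linarith
  have p2 : G * Cb < 1.5612 := by linarith
  have p2' : 0 < G * Cb := mul_pos (by linarith) (by linarith)
  have p3 : Sb * (G - 1) < 0.163 := by linarith
  have p3' : 0 < Sb * (G - 1) := mul_pos (by linarith) (by linarith)
  have e1 : 1 + Z * (Cb + Sb) = (G - 1) + Z * (G * Cb) := by
    have h1 : Z * (Cb * (G - 1) - Sb) = G ^ 2 - 2 * G + 1 := by rw [hD1]; ring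
    have h2 : Z * (G * Cb) = Z * (Cb * (G - 1) - Sb) + Z * (Cb + Sb) := by ring
    rw [h2, h1, hg]
    ring
  have tight : c * ((G - 1) + Z * (G * Cb)) < K := by
    rw [← hD2, ← mul_assoc Z G Cb]
    refine mul_lt_mul_of_pos_right hc ?_
    rw [mul_assoc Z G Cb]
    have := mul_pos (by linarith : (0 : ℝ) < Z) p2'
    linarith
  clear hD1 hD2 hg hZ hK hX1 hX2
  generalize hd : X1 - X2 = d at *
  generalize hq1 : Cb * (G - 1) + G * Sb = q1 at *
  generalize hq2 : G * Cb = q2 at *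
  generalize hq3 : Sb * (G - 1) = q3 at *
  have q : c < 1.011 := by linarith
  have m0 : d * (Cb + Sb) < 0.446 * 1.2281 :=
    mul_lt_mul'' x2 (by linarith) (by linarith) (by linarith)
  have m0' : 0 < d * (Cb + Sb) := mul_pos (by linarith) (by linarith)
  have m1 : d * q1 < 0.446 * 1.0225 := mul_lt_mul'' x2 p1 (by linarith) p1'.le
  have m1' : 0 < d * q1 := mul_pos (by linarith) p1'
  have m2 : d * q2 < 0.446 * 1.5612 := mul_lt_mul'' x2 p2 (by linarith) p2'.le
  have m2' : 0 < d * q2 := mul_pos (by linarith) p2'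
  have m3 : d * q3 < 0.446 * 0.163 := mul_lt_mul'' x2 p3 (by linarith) p3'.le
  have m3' : 0 < d * q3 := mul_pos (by linarith) p3'
  have m4 : Z * q1 < 1.148 * 1.0225 := mul_lt_mul'' z2 p1 (by linarith) p1'.le
  have m4' : 0 < Z * q1 := mul_pos (by linarith) p1'
  have m5 : Z * q3 < 1.148 * 0.163 := mul_lt_mul'' z2 p3 (by linarith) p3'.le
  have m5' : 0 < Z * q3 := mul_pos (by linarith) p3'
  norm_num at m0 m1 m2 m3 m4 m5
  have up : ∀ m M : ℝ, 0 < m → m < M → c * m < 1.011 * M := by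
    intro m M hm hM
    exact mul_lt_mul'' q hM hc0.le hm.le
  refine ⟨by linarith, by linarith, ⟨?_, ?_, ?_, ?_⟩, ⟨?_, ?_, ?_, ?_⟩, ⟨?_, ?_, ?_, ?_⟩⟩
  · have := up (Cb + Sb) 1.23 (by linarith) (by linarith)
    linarith
  · have := up _ _ p1' p1
    linarith
  · have := up _ _ p2' p2
    linarith
  · have := up _ _ p3' p3
    linarith
  · have := up (1 + d * (Cb + Sb)) 1.56 (by linarith) (by linarith)
    linarith
  · have := up (d * q1) 0.5 m1' (by linarith)
    linarith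
  · have := up ((G - 1) + d * q2) 1.4 (by linarith) (by linarith)
    linarith
  · have := up (G + d * q3) 1.7 (by linarith) (by linarith)
    linarith
  · rw [e1]
    exact tight
  · have := up (Z * q1) 1.2 m4' (by linarith)
    linarith
  · exact tight
  · have := up (G + Z * q3) 1.9 (by linarith) (by linarith)
    linarith

theorem absG (s t a b : ℝ) (ha : 0 ≤ a) (hb : 0 ≤ b) (hs : s = 1 ∨ s = -1)
    (ht : t = 1 ∨ t = -1) : |a * s - b * t| ≤ a + b := by
  rw [abs_le]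
  rcases hs with rfl | rfl <;> rcases ht with rfl | rfl <;> constructor <;> linarith

end LowL

open LowL

theorem lowi : S_LOWI := by
  rintro ⟨-, hn1, hn2⟩ ⟨hA1, hB1, hI1, hI2, -, -, -, -, -, -, hCa, hSa, hCb, hSb⟩ c hc0 hc
  have hg := Real.goldenRatio_sq
  obtain ⟨hg1, hg2⟩ := gbd
  rw [gdiv] at hI1 hI2
  rw [abs_lt] at hCa hSa hCb hSb
  obtain ⟨hCa1, hCa2⟩ := hCa
  obtain ⟨hSa1, hSa2⟩ := hSa
  obtain ⟨hCb1, hCb2⟩ := hCb
  obtain ⟨hSb1, hSb2⟩ := hSb
  norm_num at hCa1 hCa2 hSa1 hSa2 hCb1 hCb2 hSb1 hSb2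
  obtain ⟨Y, hY⟩ : ∃ Y, Y = Sb + Cb * (Real.goldenRatio - 1) := ⟨_, rfl⟩
  obtain ⟨X, hX⟩ : ∃ X, X = Sb + Real.goldenRatio * Cb := ⟨_, rfl⟩
  rw [← hY] at hI1 hI2
  rw [← hX] at hI2
  obtain ⟨f0, f1, ⟨f2, f3, f4⟩, f5, f6, f7⟩ := numI Real.goldenRatio Ca Sa Cb Sb nu Y X c hg hg1 hg2
    hn1 hn2 hc0 hc (by linarith) (by linarith) (by linarith) (by linarith) (by linarith)
    (by linarith) (by linarith) (by linarith) hY hX hI1 hI2
  have c0 : 0 ≤ Ca := by linarith
  have c1 : 0 ≤ Sa := by linarith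
  have c2 : 0 < Cb := by linarith
  have hgp : 0 < Real.goldenRatio := by linarith
  obtain ⟨G, hG⟩ : ∃ G, G = Real.goldenRatio := ⟨_, rfl⟩
  have hV : VI = {v | ∃ s t : ℝ, (s = 1 ∨ s = -1) ∧ (t = 1 ∨ t = -1) ∧
          (v = ![0, s, t * G] ∨ v = ![s, t * G, 0] ∨ v = ![t * G, 0, s])} := by
    rw [hG]; rfl
  rw [← hG] at hg hg1 hg2 hY hX f2 f3 f4 f5 f6 f7 hgp
  clear hG
  have hXY : X - Y = Cb := by rw [hX, hY]; ring
  set O : Set (Fin 2 → ℝ) := {p | 0 * |p 0| + 1 * |p 1| < G} ∩ {p | G * |p 0| + Y * |p 1| < G * X}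
    with hO
  apply passage VI c hc0 (RX Ca Sa) (RY Cb Sb)ᵀ (RX_mem _ _ hA1) (RY_mem _ _ hB1) O
  · exact (halfset_open _ _ _).inter (halfset_open _ _ _)
  · exact (halfset_convex _ _ _ le_rfl zero_le_one).inter
      (halfset_convex _ _ _ (by linarith) (by linarith))
  · -- inner points
    have key : ∀ x y M N : ℝ, |x| ≤ M → |y| ≤ N → c * N < G → c * (G * M + Y * N) < G * X →
        c • (![x, y] : Fin 2 → ℝ) ∈ O := by
      intro x y M N hx hy h1 h2
      have hx' : c * |x| ≤ c * M := mul_le_mul_of_nonneg_left hx hc0.le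
      have hy' : c * |y| ≤ c * N := mul_le_mul_of_nonneg_left hy hc0.le
      have e0 : |(c • (![x, y] : Fin 2 → ℝ)) 0| = c * |x| := by
        simp [abs_mul, abs_of_pos hc0]
      have e1 : |(c • (![x, y] : Fin 2 → ℝ)) 1| = c * |y| := by
        simp [abs_mul, abs_of_pos hc0]
      constructor
      · change 0 * |(c • (![x, y] : Fin 2 → ℝ)) 0| + 1 * |(c • (![x, y] : Fin 2 → ℝ)) 1| < G
        rw [e0, e1]
        linarith
      · change G * |(c • (![x, y] : Fin 2 → ℝ)) 0| + Y * |(c • (![x, y] : Fin 2 → ℝ)) 1| < G * X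
        rw [e0, e1]
        have := mul_le_mul_of_nonneg_left hx' hgp.le
        have := mul_le_mul_of_nonneg_left hy' f0.le
        nlinarith
    rintro v hv
    rw [hV] at hv
    obtain ⟨s, t, hs, ht, hv⟩ := hv
    rw [pr_apply, RX_zero, RX_one]
    have as : |s| = 1 := by rcases hs with rfl | rfl <;> simp
    have at' : |t| = 1 := by rcases ht with rfl | rfl <;> simp
    rcases hv with rfl | rfl | rfl
    · apply key _ _ 0 (Ca + G * Sa)
      · simp
      · have := absG s t Ca (G * Sa) c0 (by positivity) hs ht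
        simp only [Matrix.cons_val_one, Matrix.cons_val_two, Matrix.cons_val_zero, Matrix.tail_cons,
          Matrix.head_cons]
        rw [show Ca * s - Sa * (t * G) = Ca * s - G * Sa * t by ring]
        exact this
      · exact f4
      · rw [mul_zero, zero_add]
        exact f7
    · apply key _ _ 1 (G * Ca)
      · simp [as]
      · simp [abs_mul, at', abs_of_pos hgp, abs_of_nonneg c0, mul_comm]
      · exact f2
      · rw [mul_one]
        exact f5
    · apply key _ _ G Sa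
      · simp [abs_mul, at', abs_of_pos hgp]
      · simp [abs_mul, as, abs_of_nonneg c1]
      · exact f3
      · exact f6
  · -- outer points
    set S : Set (Fin 2 → ℝ) := pr (RY Cb Sb)ᵀ '' convexHull ℝ VI with hS
    have hSc : Convex ℝ S := (convex_convexHull ℝ VI).linear_image _
    have hmem : ∀ v ∈ VI, ![Cb * v 0 - Sb * v 2, v 1] ∈ S := by
      intro v hv
      refine ⟨v, subset_convexHull ℝ _ hv, ?_⟩
      rw [pr_apply, RY_zero, RY_one]
    have m1 : ∀ t : ℝ, (t = 1 ∨ t = -1) → ![t * X, 0] ∈ S := by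
      intro t ht
      have h := hmem ![t * G, 0, -t] (by
        rw [hV]
        refine ⟨-t, t, ?_, ht, Or.inr (Or.inr rfl)⟩
        rcases ht with rfl | rfl <;> simp)
      have e : ![Cb * (![t * G, 0, -t] : Fin 3 → ℝ) 0 - Sb * (![t * G, 0, -t] : Fin 3 → ℝ) 2,
          (![t * G, 0, -t] : Fin 3 → ℝ) 1] = ![t * X, 0] := by
        ext i
        fin_cases i
        · simp [hX]; ring
        · simp
      rwa [e] at h
    have m2 : ∀ s t : ℝ, (s = 1 ∨ s = -1) → (t = 1 ∨ t = -1) → ![s * Cb, t * G] ∈ S := by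
      intro s t hs ht
      have h := hmem ![s, t * G, 0] (by
        rw [hV]
        exact ⟨s, t, hs, ht, Or.inr (Or.inl rfl)⟩)
      have e : ![Cb * (![s, t * G, 0] : Fin 3 → ℝ) 0 - Sb * (![s, t * G, 0] : Fin 3 → ℝ) 2,
          (![s, t * G, 0] : Fin 3 → ℝ) 1] = ![s * Cb, t * G] := by
        ext i
        fin_cases i
        · simp; ring
        · simp
      rwa [e] at h
    have n1 : ![X, 0] ∈ S := by simpa using m1 1 (Or.inl rfl)
    have n2 : ![-X, 0] ∈ S := by simpa using m1 (-1) (Or.inr rfl)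
    have n3 : ![Cb, G] ∈ S := by simpa using m2 1 1 (Or.inl rfl) (Or.inl rfl)
    have n4 : ![-Cb, G] ∈ S := by simpa using m2 (-1) 1 (Or.inr rfl) (Or.inl rfl)
    have n5 : ![Cb, -G] ∈ S := by simpa using m2 1 (-1) (Or.inl rfl) (Or.inr rfl)
    have n6 : ![-Cb, -G] ∈ S := by simpa using m2 (-1) (-1) (Or.inr rfl) (Or.inr rfl)
    rintro p ⟨hp1, hp2⟩
    change 0 * |p 0| + 1 * |p 1| < G at hp1
    change G * |p 0| + Y * |p 1| < G * X at hp2
    have ep : p = ![p 0, p 1] := by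
      ext i
      fin_cases i <;> simp
    rw [ep]
    obtain ⟨b1, b2⟩ := abs_lt.mp (show |p 1| < G by linarith)
    have hXp : 0 < X := by linarith
    rcases le_total 0 (p 1) with h | h
    · rw [abs_of_nonneg h] at hp2
      apply trap S hSc X Cb 0 G hXp c2 hgp n1 n2 n3 n4 _ _ h b2.le
      rw [← hXY]
      nlinarith
    · rw [abs_of_nonpos h] at hp2
      apply trap S hSc Cb X (-G) 0 c2 hXp (by linarith) n5 n6 n1 n2 _ _ b1.le h
      rw [← hXY]
      nlinarith

theorem lowd : S_LOWD := by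
  rintro ⟨-, hn1, hn2⟩ ⟨hA1, hB1, -, -, -, hD1, hD2, -, -, -, hCa, hSa, hCb, hSb⟩ c hc0 hc
  have hg := Real.goldenRatio_sq
  obtain ⟨hg1, hg2⟩ := gbd
  rw [abs_lt] at hCa hSa hCb hSb
  obtain ⟨hCa1, hCa2⟩ := hCa
  obtain ⟨hSa1, hSa2⟩ := hSa
  obtain ⟨hCb1, hCb2⟩ := hCb
  obtain ⟨hSb1, hSb2⟩ := hSb
  norm_num at hCa1 hCa2 hSa1 hSa2 hCb1 hCb2 hSb1 hSb2
  obtain ⟨Z, hZ⟩ : ∃ Z, Z = Real.goldenRatio * Sa + Ca * (Real.goldenRatio - 1) := ⟨_, rfl⟩
  obtain ⟨K, hK⟩ : ∃ K, K = Real.goldenRatio * (Ca + Real.goldenRatio * Sa) := ⟨_, rfl⟩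
  obtain ⟨X1, hX1⟩ : ∃ X, X = Real.goldenRatio * Ca + Sa * (Real.goldenRatio - 1) := ⟨_, rfl⟩
  obtain ⟨X2, hX2⟩ : ∃ X, X = Ca + Sa := ⟨_, rfl⟩
  obtain ⟨X3, hX3⟩ : ∃ X, X = Ca * (Real.goldenRatio - 1) := ⟨_, rfl⟩
  have hD1' : Z * (Cb * (Real.goldenRatio - 1) - Sb) = (Real.goldenRatio - 1) ^ 2 := by
    have e1 : (g * Sa + Ca / g) = Z := by rw [hZ, ← gdiv]
    have e2 : Cb / g = Cb * (Real.goldenRatio - 1) := gdiv Cb
    have e3 : 1 / g ^ 2 = (Real.goldenRatio - 1) ^ 2 := by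
      rw [← _root_.one_div_pow, gdiv, one_mul]
    rw [e1, e2, e3] at hD1
    exact hD1
  have hD2' : nu * ((Real.goldenRatio - 1) + Z * Real.goldenRatio * Cb) = K := by
    have e1 : (g * Sa + Ca / g) = Z := by rw [hZ, ← gdiv]
    have e2 : 1 / g = Real.goldenRatio - 1 := by rw [gdiv, one_mul]
    rw [e1, e2] at hD2
    rw [hK]
    exact hD2
  obtain ⟨f0, f1, ⟨f2, f3, f4, f5⟩, ⟨f6, f7, f8, f9⟩, f10, f11, f12, f13⟩ :=
    numD Real.goldenRatio Ca Sa Cb Sb nu Z K X1 X2 c hg hg1 hg2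
    hn1 hn2 hc0 hc (by linarith) (by linarith) (by linarith) (by linarith) (by linarith)
    (by linarith) (by linarith) (by linarith) hZ hK hX1 hX2 hD1' hD2'
  have c0 : 0 < Ca := by linarith
  have c1 : 0 < Sa := by linarith
  have c2 : 0 < Cb := by linarith
  have c3 : 0 < Sb := by linarith
  have hgp : 0 < Real.goldenRatio := by linarith
  obtain ⟨G, hG⟩ : ∃ G, G = Real.goldenRatio := ⟨_, rfl⟩
  have hV : VD = {v | ∃ r s t : ℝ, (r = 1 ∨ r = -1) ∧ (s = 1 ∨ s = -1) ∧ (t = 1 ∨ t = -1) ∧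
          (v = ![r, s, t] ∨ v = ![0, s * (G - 1), t * G] ∨
           v = ![s * (G - 1), t * G, 0] ∨
           v = ![t * G, 0, s * (G - 1)])} := by
    rw [hG]
    simp only [← gdiv]
    rfl
  rw [← hG] at hg hg1 hg2 hZ hK hX1 hX3 f2 f3 f4 f5 f7 f8 f9 f11 f12 f13 hgp
  clear hG hD1 hD2 hD1' hD2'
  have hX23 : X2 + Z = K := by rw [hX2, hZ, hK]; linear_combination (-Sa) * hg
  have hX3K : X3 + Z * G = K := by rw [hX3, hZ, hK]; linear_combination Ca * hg
  have c4 : 0 < X3 := by rw [hX3]; exact mul_pos c0 (by linarith)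
  have c5 : 0 < X2 := by linarith
  set O : Set (Fin 2 → ℝ) := {p | 0 * |p 0| + 1 * |p 1| < G} ∩
    ({p | 1 * |p 0| + (X1 - X2) * |p 1| < X1} ∩ {p | 1 * |p 0| + Z * |p 1| < K})
    with hO
  apply passage VD c hc0 (RX Cb Sb) (RY Ca Sa)ᵀ (RX_mem _ _ hB1) (RY_mem _ _ hA1) O
  · exact (halfset_open _ _ _).inter ((halfset_open _ _ _).inter (halfset_open _ _ _))
  · exact (halfset_convex _ _ _ le_rfl zero_le_one).inter
      ((halfset_convex _ _ _ zero_le_one (by linarith)).inter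
      (halfset_convex _ _ _ zero_le_one (by linarith)))
  · -- inner points
    have key : ∀ x y M N : ℝ, |x| ≤ M → |y| ≤ N → c * N < G → c * (M + (X1 - X2) * N) < X1 →
        c * (M + Z * N) < K → c • (![x, y] : Fin 2 → ℝ) ∈ O := by
      intro x y M N hx hy h1 h2 h3
      have hx' : c * |x| ≤ c * M := mul_le_mul_of_nonneg_left hx hc0.le
      have hy' : c * |y| ≤ c * N := mul_le_mul_of_nonneg_left hy hc0.le
      have e0 : |(c • (![x, y] : Fin 2 → ℝ)) 0| = c * |x| := by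
        simp [abs_mul, abs_of_pos hc0]
      have e1 : |(c • (![x, y] : Fin 2 → ℝ)) 1| = c * |y| := by
        simp [abs_mul, abs_of_pos hc0]
      refine ⟨?_, ?_, ?_⟩
      · change 0 * |(c • (![x, y] : Fin 2 → ℝ)) 0| + 1 * |(c • (![x, y] : Fin 2 → ℝ)) 1| < G
        rw [e0, e1]
        linarith
      · change 1 * |(c • (![x, y] : Fin 2 → ℝ)) 0| +
          (X1 - X2) * |(c • (![x, y] : Fin 2 → ℝ)) 1| < X1
        rw [e0, e1]
        have := mul_le_mul_of_nonneg_left hy' (by linarith : (0 : ℝ) ≤ X1 - X2)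
        linarith
      · change 1 * |(c • (![x, y] : Fin 2 → ℝ)) 0| + Z * |(c • (![x, y] : Fin 2 → ℝ)) 1| < K
        rw [e0, e1]
        have := mul_le_mul_of_nonneg_left hy' f0.le
        linarith
    rintro v hv
    rw [hV] at hv
    obtain ⟨r, s, t, hr, hs, ht, hv⟩ := hv
    rw [pr_apply, RX_zero, RX_one]
    have ar : |r| = 1 := by rcases hr with rfl | rfl <;> simp
    have as : |s| = 1 := by rcases hs with rfl | rfl <;> simp
    have at' : |t| = 1 := by rcases ht with rfl | rfl <;> simp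
    have hg' : |G - 1| = G - 1 := abs_of_pos (by linarith)
    rcases hv with rfl | rfl | rfl | rfl
    · apply key _ _ 1 (Cb + Sb)
      · simp [ar]
      · have := absG s t Cb Sb c2.le c3.le hs ht
        simpa using this
      · exact f2
      · exact f6
      · exact f10
    · apply key _ _ 0 (Cb * (G - 1) + G * Sb)
      · simp
      · have := absG s t (Cb * (G - 1)) (G * Sb) (mul_nonneg c2.le (by linarith)) (by positivity)
          hs ht
        rw [show Cb * (G - 1) * s - G * Sb * t = Cb * (s * (G - 1)) - Sb * (t * G) by ring] at this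
        simpa using this
      · exact f3
      · rw [zero_add]
        exact f7
      · rw [zero_add]
        exact f11
    · apply key _ _ (G - 1) (G * Cb)
      · simp [abs_mul, as, hg']
      · simp [abs_mul, at', abs_of_pos hgp, abs_of_pos c2, mul_comm]
      · exact f4
      · exact f8
      · exact f12
    · apply key _ _ G (Sb * (G - 1))
      · simp [abs_mul, at', abs_of_pos hgp]
      · simp [abs_mul, as, abs_of_pos c3, hg']
      · exact f5
      · exact f9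
      · exact f13
  · -- outer points
    set S : Set (Fin 2 → ℝ) := pr (RY Ca Sa)ᵀ '' convexHull ℝ VD with hS
    have hSc : Convex ℝ S := (convex_convexHull ℝ VD).linear_image _
    have hmem : ∀ v ∈ VD, ![Ca * v 0 - Sa * v 2, v 1] ∈ S := by
      intro v hv
      refine ⟨v, subset_convexHull ℝ _ hv, ?_⟩
      rw [pr_apply, RY_zero, RY_one]
    have neg1 : ∀ t : ℝ, (t = 1 ∨ t = -1) → (-t = 1 ∨ -t = -1) := by
      intro t ht
      rcases ht with rfl | rfl <;> simp
    have m1 : ∀ t : ℝ, (t = 1 ∨ t = -1) → ![t * X1, 0] ∈ S := by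
      intro t ht
      have h := hmem ![t * G, 0, (-t) * (G - 1)] (by
        rw [hV]
        exact ⟨t, -t, t, ht, neg1 t ht, ht, Or.inr (Or.inr (Or.inr rfl))⟩)
      have e : ![Ca * (![t * G, 0, (-t) * (G - 1)] : Fin 3 → ℝ) 0
          - Sa * (![t * G, 0, (-t) * (G - 1)] : Fin 3 → ℝ) 2,
          (![t * G, 0, (-t) * (G - 1)] : Fin 3 → ℝ) 1] = ![t * X1, 0] := by
        ext i
        fin_cases i
        · simp [hX1]; ring
        · simp
      rwa [e] at h
    have m2 : ∀ s t : ℝ, (s = 1 ∨ s = -1) → (t = 1 ∨ t = -1) → ![s * X2, t] ∈ S := by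
      intro s t hs ht
      have h := hmem ![s, t, -s] (by
        rw [hV]
        exact ⟨s, t, -s, hs, ht, neg1 s hs, Or.inl rfl⟩)
      have e : ![Ca * (![s, t, -s] : Fin 3 → ℝ) 0 - Sa * (![s, t, -s] : Fin 3 → ℝ) 2,
          (![s, t, -s] : Fin 3 → ℝ) 1] = ![s * X2, t] := by
        ext i
        fin_cases i
        · simp [hX2]; ring
        · simp
      rwa [e] at h
    have m3 : ∀ s t : ℝ, (s = 1 ∨ s = -1) → (t = 1 ∨ t = -1) → ![s * X3, t * G] ∈ S := by
      intro s t hs ht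
      have h := hmem ![s * (G - 1), t * G, 0] (by
        rw [hV]
        exact ⟨s, s, t, hs, hs, ht, Or.inr (Or.inr (Or.inl rfl))⟩)
      have e : ![Ca * (![s * (G - 1), t * G, 0] : Fin 3 → ℝ) 0
          - Sa * (![s * (G - 1), t * G, 0] : Fin 3 → ℝ) 2,
          (![s * (G - 1), t * G, 0] : Fin 3 → ℝ) 1] = ![s * X3, t * G] := by
        ext i
        fin_cases i
        · simp [hX3]; ring
        · simp
      rwa [e] at h
    have n1 : ![X1, 0] ∈ S := by simpa using m1 1 (Or.inl rfl)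
    have n2 : ![-X1, 0] ∈ S := by simpa using m1 (-1) (Or.inr rfl)
    have o1 : ![X2, 1] ∈ S := by simpa using m2 1 1 (Or.inl rfl) (Or.inl rfl)
    have o2 : ![-X2, 1] ∈ S := by simpa using m2 (-1) 1 (Or.inr rfl) (Or.inl rfl)
    have o3 : ![X2, -1] ∈ S := by simpa using m2 1 (-1) (Or.inl rfl) (Or.inr rfl)
    have o4 : ![-X2, -1] ∈ S := by simpa using m2 (-1) (-1) (Or.inr rfl) (Or.inr rfl)
    have n3 : ![X3, G] ∈ S := by simpa using m3 1 1 (Or.inl rfl) (Or.inl rfl)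
    have n4 : ![-X3, G] ∈ S := by simpa using m3 (-1) 1 (Or.inr rfl) (Or.inl rfl)
    have n5 : ![X3, -G] ∈ S := by simpa using m3 1 (-1) (Or.inl rfl) (Or.inr rfl)
    have n6 : ![-X3, -G] ∈ S := by simpa using m3 (-1) (-1) (Or.inr rfl) (Or.inr rfl)
    rintro p ⟨hp1, hp2, hp3⟩
    change 0 * |p 0| + 1 * |p 1| < G at hp1
    change 1 * |p 0| + (X1 - X2) * |p 1| < X1 at hp2
    change 1 * |p 0| + Z * |p 1| < K at hp3
    have ep : p = ![p 0, p 1] := by
      ext i
      fin_cases i <;> simp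
    rw [ep]
    obtain ⟨b1, b2⟩ := abs_lt.mp (show |p 1| < G by linarith)
    have hXp : 0 < X1 := by linarith
    have hG1 : 0 < G - 1 := by linarith
    rcases le_total 0 (p 1) with h | h
    · rw [abs_of_nonneg h] at hp2 hp3
      rcases le_total (p 1) 1 with h' | h'
      · apply trap S hSc X1 X2 0 1 hXp c5 zero_lt_one n1 n2 o1 o2 _ _ h h'
        linarith
      · apply trap S hSc X2 X3 1 G c5 c4 (by linarith) o1 o2 n3 n4 _ _ h' b2.le
        have h5 : |p 0| ≤ K - Z * p 1 := by linarith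
        calc |p 0| * (G - 1) ≤ (K - Z * p 1) * (G - 1) := mul_le_mul_of_nonneg_right h5 hG1.le
          _ = (K - Z) * (G - p 1) + (K - Z * G) * (p 1 - 1) := by ring
          _ = X2 * (G - p 1) + X3 * (p 1 - 1) := by
            rw [show K - Z = X2 by linarith, show K - Z * G = X3 by linarith]
    · rw [abs_of_nonpos h] at hp2 hp3
      rcases le_total (-1) (p 1) with h' | h'
      · apply trap S hSc X2 X1 (-1) 0 c5 hXp (by linarith) o3 o4 n1 n2 _ _ h' h
        linarith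
      · apply trap S hSc X3 X2 (-G) (-1) c4 c5 (by linarith) n5 n6 o3 o4 _ _ b1.le h'
        have h5 : |p 0| ≤ K + Z * p 1 := by linarith
        calc |p 0| * (-1 - -G) = |p 0| * (G - 1) := by ring
          _ ≤ (K + Z * p 1) * (G - 1) := mul_le_mul_of_nonneg_right h5 hG1.le
          _ = (K - Z * G) * (-1 - p 1) + (K - Z) * (p 1 - -G) := by ring
          _ = X3 * (-1 - p 1) + X2 * (p 1 - -G) := by
            rw [show K - Z = X2 by linarith, show K - Z * G = X3 by linarith]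

end Pool.Agent.H315.NW
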