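import Pool.Agent.H315.NW.Defs2

/-!
# Project NW, part POLYD: local positivity near the optimum of the dodecahedron
-/

set_option autoImplicit false

namespace Pool.Agent.H315.NW

open Matrix

namespace PD

set_option linter.unusedVariables false

/-- the constraint as a function of the products of the numbers -/
def Lg (p11 p12 p13 p21 p22 p23 p31 p32 p33 e1 e2 e3 α β γ x y : ℝ) : ℝ :=
  p11 * (2 * (α * β - γ) - y * (2 * (α * γ + β))) +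
  p12 * (-(1 + α ^ 2 - β ^ 2 - γ ^ 2) + x * (2 * (α * γ + β))) +
  p13 * (y * (1 + α ^ 2 - β ^ 2 - γ ^ 2) - x * (2 * (α * β - γ))) +
  p21 * ((1 - α ^ 2 + β ^ 2 - γ ^ 2) - y * (2 * (β * γ - α))) +
  p22 * (-(2 * (α * β + γ)) + x * (2 * (β * γ - α))) +
  p23 * (y * (2 * (α * β + γ)) - x * (1 - α ^ 2 + β ^ 2 - γ ^ 2)) +
  p31 * ((2 * (β * γ + α)) - y * (1 - α ^ 2 - β ^ 2 + γ ^ 2)) +
  p32 * (-(2 * (α * γ - β)) + x * (1 - α ^ 2 - β ^ 2 + γ ^ 2)) +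
  p33 * (y * (2 * (α * γ - β)) - x * (2 * (β * γ + α))) -
  e1 * (x * (1 + α ^ 2 - β ^ 2 - γ ^ 2) + y * (2 * (α * β - γ)) + 2 * (α * γ + β)) -
  e2 * (x * (2 * (α * β + γ)) + y * (1 - α ^ 2 + β ^ 2 - γ ^ 2) + 2 * (β * γ - α)) -
  e3 * (x * (2 * (α * γ - β)) + y * (2 * (β * γ + α)) + (1 - α ^ 2 - β ^ 2 + γ ^ 2))

theorem m2 {a b r : ℝ} (ha : |a| ≤ 1 / 1000) (hb : |b| ≤ r) : |a * b| ≤ r / 1000 := by
  rw [abs_mul]
  calc |a| * |b| ≤ 1 / 1000 * r := mul_le_mul ha hb (abs_nonneg _) (by norm_num)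
    _ = r / 1000 := by ring

theorem m3 {a b c r : ℝ} (ha : |a| ≤ 1 / 1000) (hb : |b| ≤ 1 / 1000) (hc : |c| ≤ r) :
    |a * b * c| ≤ r / 1000000 := by
  have h1 := m2 hb hc
  have h2 := m2 ha h1
  rw [mul_assoc]
  calc |a * (b * c)| ≤ r / 1000 / 1000 := h2
    _ = r / 1000000 := by ring

theorem pb {p W B w : ℝ} (hp : |p| ≤ B) (hW : |W| ≤ w) : |p * W| ≤ B * w := by
  rw [abs_mul]
  exact mul_le_mul hp hW (abs_nonneg _) ((abs_nonneg _).trans hp)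

theorem mb {a b a' b' c e1 e2 e : ℝ} (ha : |a - a'| ≤ e1) (hb : |b - b'| ≤ e2)
    (h : |a'| * e2 + |b'| * e1 + e1 * e2 + |a' * b' - c| ≤ e) : |a * b - c| ≤ e := by
  have e0 : a * b - c = a' * (b - b') + b' * (a - a') + (a - a') * (b - b') + (a' * b' - c) := by
    ring
  rw [e0]
  have h1 : |a' * (b - b')| ≤ |a'| * e2 := by
    rw [abs_mul]
    exact mul_le_mul_of_nonneg_left hb (abs_nonneg _)
  have h2 : |b' * (a - a')| ≤ |b'| * e1 := by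
    rw [abs_mul]
    exact mul_le_mul_of_nonneg_left ha (abs_nonneg _)
  have h3 : |(a - a') * (b - b')| ≤ e1 * e2 := pb ha hb
  have t1 := abs_add_le (a' * (b - b') + b' * (a - a') + (a - a') * (b - b')) (a' * b' - c)
  have t2 := abs_add_le (a' * (b - b') + b' * (a - a')) ((a - a') * (b - b'))
  have t3 := abs_add_le (a' * (b - b')) (b' * (a - a'))
  linarith

theorem bW11 {α β γ x y ρ : ℝ} (hα : |α| ≤ 1 / 1000) (hβ : |β| ≤ 1 / 1000) (hγ : |γ| ≤ 1 / 1000) (hx : |x| ≤ 1 / 1000) (hy : |y| ≤ 1 / 1000) (rα : |α| ≤ ρ) (rβ : |β| ≤ ρ) (rγ : |γ| ≤ ρ) (rx : |x| ≤ ρ) (ry : |y| ≤ ρ) :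
    |2*α*β - 2*y*(α*γ) - 2*y*β| ≤ 4 * (101 / 100000 * ρ) := by
  have r0 : 0 ≤ ρ := (abs_nonneg _).trans rα
  obtain ⟨l0, u0⟩ := abs_le.1 (m2 hα rβ)
  obtain ⟨l1, u1⟩ := abs_le.1 (m3 hy hα rγ)
  obtain ⟨l2, u2⟩ := abs_le.1 (m2 hy rβ)
  exact abs_le.2 ⟨by linarith, by linarith⟩

theorem bW12 {α β γ x y ρ : ℝ} (hα : |α| ≤ 1 / 1000) (hβ : |β| ≤ 1 / 1000) (hγ : |γ| ≤ 1 / 1000) (hx : |x| ≤ 1 / 1000) (hy : |y| ≤ 1 / 1000) (rα : |α| ≤ ρ) (rβ : |β| ≤ ρ) (rγ : |γ| ≤ ρ) (rx : |x| ≤ ρ) (ry : |y| ≤ ρ) :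
    |-(α^2 - β^2 - γ^2) + 2*x*(α*γ + β)| ≤ 5 * (101 / 100000 * ρ) := by
  have r0 : 0 ≤ ρ := (abs_nonneg _).trans rα
  obtain ⟨l0, u0⟩ := abs_le.1 (m2 hα rα)
  obtain ⟨l1, u1⟩ := abs_le.1 (m2 hβ rβ)
  obtain ⟨l2, u2⟩ := abs_le.1 (m2 hγ rγ)
  obtain ⟨l3, u3⟩ := abs_le.1 (m3 hx hα rγ)
  obtain ⟨l4, u4⟩ := abs_le.1 (m2 hx rβ)
  exact abs_le.2 ⟨by linarith, by linarith⟩

theorem bW13 {α β γ x y ρ : ℝ} (hα : |α| ≤ 1 / 1000) (hβ : |β| ≤ 1 / 1000) (hγ : |γ| ≤ 1 / 1000) (hx : |x| ≤ 1 / 1000) (hy : |y| ≤ 1 / 1000) (rα : |α| ≤ ρ) (rβ : |β| ≤ ρ) (rγ : |γ| ≤ ρ) (rx : |x| ≤ ρ) (ry : |y| ≤ ρ) :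
    |y*(α^2 - β^2 - γ^2) - 2*x*(α*β) + 2*x*γ| ≤ 2 * (101 / 100000 * ρ) := by
  have r0 : 0 ≤ ρ := (abs_nonneg _).trans rα
  obtain ⟨l0, u0⟩ := abs_le.1 (m3 hy hα rα)
  obtain ⟨l1, u1⟩ := abs_le.1 (m3 hy hβ rβ)
  obtain ⟨l2, u2⟩ := abs_le.1 (m3 hy hγ rγ)
  obtain ⟨l3, u3⟩ := abs_le.1 (m3 hx hα rβ)
  obtain ⟨l4, u4⟩ := abs_le.1 (m2 hx rγ)
  exact abs_le.2 ⟨by linarith, by linarith⟩

theorem bW21 {α β γ x y ρ : ℝ} (hα : |α| ≤ 1 / 1000) (hβ : |β| ≤ 1 / 1000) (hγ : |γ| ≤ 1 / 1000) (hx : |x| ≤ 1 / 1000) (hy : |y| ≤ 1 / 1000) (rα : |α| ≤ ρ) (rβ : |β| ≤ ρ) (rγ : |γ| ≤ ρ) (rx : |x| ≤ ρ) (ry : |y| ≤ ρ) :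
    |-α^2 + β^2 - γ^2 - 2*y*(β*γ - α)| ≤ 5 * (101 / 100000 * ρ) := by
  have r0 : 0 ≤ ρ := (abs_nonneg _).trans rα
  obtain ⟨l0, u0⟩ := abs_le.1 (m2 hα rα)
  obtain ⟨l1, u1⟩ := abs_le.1 (m2 hβ rβ)
  obtain ⟨l2, u2⟩ := abs_le.1 (m2 hγ rγ)
  obtain ⟨l3, u3⟩ := abs_le.1 (m3 hy hβ rγ)
  obtain ⟨l4, u4⟩ := abs_le.1 (m2 hy rα)
  exact abs_le.2 ⟨by linarith, by linarith⟩

theorem bW22 {α β γ x y ρ : ℝ} (hα : |α| ≤ 1 / 1000) (hβ : |β| ≤ 1 / 1000) (hγ : |γ| ≤ 1 / 1000) (hx : |x| ≤ 1 / 1000) (hy : |y| ≤ 1 / 1000) (rα : |α| ≤ ρ) (rβ : |β| ≤ ρ) (rγ : |γ| ≤ ρ) (rx : |x| ≤ ρ) (ry : |y| ≤ ρ) :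
    |-(2*α*β) + 2*x*(β*γ - α)| ≤ 4 * (101 / 100000 * ρ) := by
  have r0 : 0 ≤ ρ := (abs_nonneg _).trans rα
  obtain ⟨l0, u0⟩ := abs_le.1 (m2 hα rβ)
  obtain ⟨l1, u1⟩ := abs_le.1 (m3 hx hβ rγ)
  obtain ⟨l2, u2⟩ := abs_le.1 (m2 hx rα)
  exact abs_le.2 ⟨by linarith, by linarith⟩

theorem bW23 {α β γ x y ρ : ℝ} (hα : |α| ≤ 1 / 1000) (hβ : |β| ≤ 1 / 1000) (hγ : |γ| ≤ 1 / 1000) (hx : |x| ≤ 1 / 1000) (hy : |y| ≤ 1 / 1000) (rα : |α| ≤ ρ) (rβ : |β| ≤ ρ) (rγ : |γ| ≤ ρ) (rx : |x| ≤ ρ) (ry : |y| ≤ ρ) :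
    |2*y*(α*β + γ) - x*(-α^2 + β^2 - γ^2)| ≤ 2 * (101 / 100000 * ρ) := by
  have r0 : 0 ≤ ρ := (abs_nonneg _).trans rα
  obtain ⟨l0, u0⟩ := abs_le.1 (m3 hy hα rβ)
  obtain ⟨l1, u1⟩ := abs_le.1 (m2 hy rγ)
  obtain ⟨l2, u2⟩ := abs_le.1 (m3 hx hα rα)
  obtain ⟨l3, u3⟩ := abs_le.1 (m3 hx hβ rβ)
  obtain ⟨l4, u4⟩ := abs_le.1 (m3 hx hγ rγ)
  exact abs_le.2 ⟨by linarith, by linarith⟩

theorem bW31 {α β γ x y ρ : ℝ} (hα : |α| ≤ 1 / 1000) (hβ : |β| ≤ 1 / 1000) (hγ : |γ| ≤ 1 / 1000) (hx : |x| ≤ 1 / 1000) (hy : |y| ≤ 1 / 1000) (rα : |α| ≤ ρ) (rβ : |β| ≤ ρ) (rγ : |γ| ≤ ρ) (rx : |x| ≤ ρ) (ry : |y| ≤ ρ) :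
    |2*β*γ - y*(-α^2 - β^2 + γ^2)| ≤ 2 * (101 / 100000 * ρ) := by
  have r0 : 0 ≤ ρ := (abs_nonneg _).trans rα
  obtain ⟨l0, u0⟩ := abs_le.1 (m2 hβ rγ)
  obtain ⟨l1, u1⟩ := abs_le.1 (m3 hy hα rα)
  obtain ⟨l2, u2⟩ := abs_le.1 (m3 hy hβ rβ)
  obtain ⟨l3, u3⟩ := abs_le.1 (m3 hy hγ rγ)
  exact abs_le.2 ⟨by linarith, by linarith⟩

theorem bW32 {α β γ x y ρ : ℝ} (hα : |α| ≤ 1 / 1000) (hβ : |β| ≤ 1 / 1000) (hγ : |γ| ≤ 1 / 1000) (hx : |x| ≤ 1 / 1000) (hy : |y| ≤ 1 / 1000) (rα : |α| ≤ ρ) (rβ : |β| ≤ ρ) (rγ : |γ| ≤ ρ) (rx : |x| ≤ ρ) (ry : |y| ≤ ρ) :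
    |-(2*α*γ) + x*(-α^2 - β^2 + γ^2)| ≤ 2 * (101 / 100000 * ρ) := by
  have r0 : 0 ≤ ρ := (abs_nonneg _).trans rα
  obtain ⟨l0, u0⟩ := abs_le.1 (m2 hα rγ)
  obtain ⟨l1, u1⟩ := abs_le.1 (m3 hx hα rα)
  obtain ⟨l2, u2⟩ := abs_le.1 (m3 hx hβ rβ)
  obtain ⟨l3, u3⟩ := abs_le.1 (m3 hx hγ rγ)
  exact abs_le.2 ⟨by linarith, by linarith⟩

theorem bW33 {α β γ x y ρ : ℝ} (hα : |α| ≤ 1 / 1000) (hβ : |β| ≤ 1 / 1000) (hγ : |γ| ≤ 1 / 1000) (hx : |x| ≤ 1 / 1000) (hy : |y| ≤ 1 / 1000) (rα : |α| ≤ ρ) (rβ : |β| ≤ ρ) (rγ : |γ| ≤ ρ) (rx : |x| ≤ ρ) (ry : |y| ≤ ρ) :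
    |2*y*(α*γ - β) - 2*x*(β*γ + α)| ≤ 4 * (101 / 100000 * ρ) := by
  have r0 : 0 ≤ ρ := (abs_nonneg _).trans rα
  obtain ⟨l0, u0⟩ := abs_le.1 (m3 hy hα rγ)
  obtain ⟨l1, u1⟩ := abs_le.1 (m2 hy rβ)
  obtain ⟨l2, u2⟩ := abs_le.1 (m3 hx hβ rγ)
  obtain ⟨l3, u3⟩ := abs_le.1 (m2 hx rα)
  exact abs_le.2 ⟨by linarith, by linarith⟩

theorem bW1 {α β γ x y ρ : ℝ} (hα : |α| ≤ 1 / 1000) (hβ : |β| ≤ 1 / 1000) (hγ : |γ| ≤ 1 / 1000) (hx : |x| ≤ 1 / 1000) (hy : |y| ≤ 1 / 1000) (rα : |α| ≤ ρ) (rβ : |β| ≤ ρ) (rγ : |γ| ≤ ρ) (rx : |x| ≤ ρ) (ry : |y| ≤ ρ) :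
    |x*(α^2 - β^2 - γ^2) + 2*y*(α*β - γ) + 2*α*γ| ≤ 4 * (101 / 100000 * ρ) := by
  have r0 : 0 ≤ ρ := (abs_nonneg _).trans rα
  obtain ⟨l0, u0⟩ := abs_le.1 (m3 hx hα rα)
  obtain ⟨l1, u1⟩ := abs_le.1 (m3 hx hβ rβ)
  obtain ⟨l2, u2⟩ := abs_le.1 (m3 hx hγ rγ)
  obtain ⟨l3, u3⟩ := abs_le.1 (m3 hy hα rβ)
  obtain ⟨l4, u4⟩ := abs_le.1 (m2 hy rγ)
  obtain ⟨l5, u5⟩ := abs_le.1 (m2 hα rγ)
  exact abs_le.2 ⟨by linarith, by linarith⟩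

theorem bW2 {α β γ x y ρ : ℝ} (hα : |α| ≤ 1 / 1000) (hβ : |β| ≤ 1 / 1000) (hγ : |γ| ≤ 1 / 1000) (hx : |x| ≤ 1 / 1000) (hy : |y| ≤ 1 / 1000) (rα : |α| ≤ ρ) (rβ : |β| ≤ ρ) (rγ : |γ| ≤ ρ) (rx : |x| ≤ ρ) (ry : |y| ≤ ρ) :
    |2*x*(α*β + γ) + y*(-α^2 + β^2 - γ^2) + 2*β*γ| ≤ 4 * (101 / 100000 * ρ) := by
  have r0 : 0 ≤ ρ := (abs_nonneg _).trans rα
  obtain ⟨l0, u0⟩ := abs_le.1 (m3 hx hα rβ)
  obtain ⟨l1, u1⟩ := abs_le.1 (m2 hx rγ)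
  obtain ⟨l2, u2⟩ := abs_le.1 (m3 hy hα rα)
  obtain ⟨l3, u3⟩ := abs_le.1 (m3 hy hβ rβ)
  obtain ⟨l4, u4⟩ := abs_le.1 (m3 hy hγ rγ)
  obtain ⟨l5, u5⟩ := abs_le.1 (m2 hβ rγ)
  exact abs_le.2 ⟨by linarith, by linarith⟩

theorem bW3 {α β γ x y ρ : ℝ} (hα : |α| ≤ 1 / 1000) (hβ : |β| ≤ 1 / 1000) (hγ : |γ| ≤ 1 / 1000) (hx : |x| ≤ 1 / 1000) (hy : |y| ≤ 1 / 1000) (rα : |α| ≤ ρ) (rβ : |β| ≤ ρ) (rγ : |γ| ≤ ρ) (rx : |x| ≤ ρ) (ry : |y| ≤ ρ) :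
    |2*x*(α*γ - β) + 2*y*(β*γ + α) + (-α^2 - β^2 + γ^2)| ≤ 7 * (101 / 100000 * ρ) := by
  have r0 : 0 ≤ ρ := (abs_nonneg _).trans rα
  obtain ⟨l0, u0⟩ := abs_le.1 (m3 hx hα rγ)
  obtain ⟨l1, u1⟩ := abs_le.1 (m2 hx rβ)
  obtain ⟨l2, u2⟩ := abs_le.1 (m3 hy hβ rγ)
  obtain ⟨l3, u3⟩ := abs_le.1 (m2 hy rα)
  obtain ⟨l4, u4⟩ := abs_le.1 (m2 hα rα)
  obtain ⟨l5, u5⟩ := abs_le.1 (m2 hβ rβ)
  obtain ⟨l6, u6⟩ := abs_le.1 (m2 hγ rγ)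
  exact abs_le.2 ⟨by linarith, by linarith⟩

theorem rem {p11 p12 p13 p21 p22 p23 p31 p32 p33 e1 e2 e3 B11 B12 B13 B21 B22 B23 B31 B32 B33 C1 C2 C3 α β γ x y ρ : ℝ}
    (hα : |α| ≤ 1 / 1000) (hβ : |β| ≤ 1 / 1000) (hγ : |γ| ≤ 1 / 1000) (hx : |x| ≤ 1 / 1000) (hy : |y| ≤ 1 / 1000) (rα : |α| ≤ ρ) (rβ : |β| ≤ ρ) (rγ : |γ| ≤ ρ) (rx : |x| ≤ ρ) (ry : |y| ≤ ρ)
    (qp11 : |p11| ≤ B11) (qp12 : |p12| ≤ B12) (qp13 : |p13| ≤ B13) (qp21 : |p21| ≤ B21) (qp22 : |p22| ≤ B22) (qp23 : |p23| ≤ B23) (qp31 : |p31| ≤ B31) (qp32 : |p32| ≤ B32) (qp33 : |p33| ≤ B33) (qe1 : |e1| ≤ C1) (qe2 : |e2| ≤ C2) (qe3 : |e3| ≤ C3) :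
    |Lg p11 p12 p13 p21 p22 p23 p31 p32 p33 e1 e2 e3 α β γ x y - (p21 - p12 - e3) -
      ((2 * p31 + 2 * e2) * α + (2 * p32 - 2 * e1) * β + (-2 * p11 - 2 * p22) * γ +
        (p32 - p23 - e1) * x + (p13 - p31 - e2) * y)| ≤
    (4 * B11 + 5 * B12 + 2 * B13 + 5 * B21 + 4 * B22 + 2 * B23 + 2 * B31 + 2 * B32 + 4 * B33 +
      4 * C1 + 4 * C2 + 7 * C3) * (101 / 100000 * ρ) := by
  have tW11 := pb qp11 (bW11 hα hβ hγ hx hy rα rβ rγ rx ry)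
  have tW12 := pb qp12 (bW12 hα hβ hγ hx hy rα rβ rγ rx ry)
  have tW13 := pb qp13 (bW13 hα hβ hγ hx hy rα rβ rγ rx ry)
  have tW21 := pb qp21 (bW21 hα hβ hγ hx hy rα rβ rγ rx ry)
  have tW22 := pb qp22 (bW22 hα hβ hγ hx hy rα rβ rγ rx ry)
  have tW23 := pb qp23 (bW23 hα hβ hγ hx hy rα rβ rγ rx ry)
  have tW31 := pb qp31 (bW31 hα hβ hγ hx hy rα rβ rγ rx ry)
  have tW32 := pb qp32 (bW32 hα hβ hγ hx hy rα rβ rγ rx ry)
  have tW33 := pb qp33 (bW33 hα hβ hγ hx hy rα rβ rγ rx ry)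
  have tW1 := pb qe1 (bW1 hα hβ hγ hx hy rα rβ rγ rx ry)
  have tW2 := pb qe2 (bW2 hα hβ hγ hx hy rα rβ rγ rx ry)
  have tW3 := pb qe3 (bW3 hα hβ hγ hx hy rα rβ rγ rx ry)
  have e0 : Lg p11 p12 p13 p21 p22 p23 p31 p32 p33 e1 e2 e3 α β γ x y - (p21 - p12 - e3) -
      ((2 * p31 + 2 * e2) * α + (2 * p32 - 2 * e1) * β + (-2 * p11 - 2 * p22) * γ +
        (p32 - p23 - e1) * x + (p13 - p31 - e2) * y) =
      p11 * (2*α*β - 2*y*(α*γ) - 2*y*β) + p12 * (-(α^2 - β^2 - γ^2) + 2*x*(α*γ + β)) + p13 * (y*(α^2 - β^2 - γ^2) - 2*x*(α*β) + 2*x*γ) + p21 * (-α^2 + β^2 - γ^2 - 2*y*(β*γ - α)) + p22 * (-(2*α*β) + 2*x*(β*γ - α)) + p23 * (2*y*(α*β + γ) - x*(-α^2 + β^2 - γ^2)) + p31 * (2*β*γ - y*(-α^2 - β^2 + γ^2)) + p32 * (-(2*α*γ) + x*(-α^2 - β^2 + γ^2)) + p33 * (2*y*(α*γ - β) - 2*x*(β*γ + α)) - e1 * (x*(α^2 - β^2 - γ^2) + 2*y*(α*β - γ) + 2*α*γ) - e2 * (2*x*(α*β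 + γ) + y*(-α^2 + β^2 - γ^2) + 2*β*γ) - e3 * (2*x*(α*γ - β) + 2*y*(β*γ + α) + (-α^2 - β^2 + γ^2)) := by
    unfold Lg
    ring
  rw [e0]
  generalize 2*α*β - 2*y*(α*γ) - 2*y*β = W11 at *
  generalize -(α^2 - β^2 - γ^2) + 2*x*(α*γ + β) = W12 at *
  generalize y*(α^2 - β^2 - γ^2) - 2*x*(α*β) + 2*x*γ = W13 at *
  generalize -α^2 + β^2 - γ^2 - 2*y*(β*γ - α) = W21 at *
  generalize -(2*α*β) + 2*x*(β*γ - α) = W22 at *
  generalize 2*y*(α*β + γ) - x*(-α^2 + β^2 - γ^2) = W23 at *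
  generalize 2*β*γ - y*(-α^2 - β^2 + γ^2) = W31 at *
  generalize -(2*α*γ) + x*(-α^2 - β^2 + γ^2) = W32 at *
  generalize 2*y*(α*γ - β) - 2*x*(β*γ + α) = W33 at *
  generalize x*(α^2 - β^2 - γ^2) + 2*y*(α*β - γ) + 2*α*γ = W1 at *
  generalize 2*x*(α*β + γ) + y*(-α^2 + β^2 - γ^2) + 2*β*γ = W2 at *
  generalize 2*x*(α*γ - β) + 2*y*(β*γ + α) + (-α^2 - β^2 + γ^2) = W3 at *
  obtain ⟨lW11, uW11⟩ := abs_le.1 tW11
  obtain ⟨lW12, uW12⟩ := abs_le.1 tW12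
  obtain ⟨lW13, uW13⟩ := abs_le.1 tW13
  obtain ⟨lW21, uW21⟩ := abs_le.1 tW21
  obtain ⟨lW22, uW22⟩ := abs_le.1 tW22
  obtain ⟨lW23, uW23⟩ := abs_le.1 tW23
  obtain ⟨lW31, uW31⟩ := abs_le.1 tW31
  obtain ⟨lW32, uW32⟩ := abs_le.1 tW32
  obtain ⟨lW33, uW33⟩ := abs_le.1 tW33
  obtain ⟨lW1, uW1⟩ := abs_le.1 tW1
  obtain ⟨lW2, uW2⟩ := abs_le.1 tW2
  obtain ⟨lW3, uW3⟩ := abs_le.1 tW3
  exact abs_le.2 ⟨by linarith, by linarith⟩
theorem sos (α β γ x y : ℝ) : 0 ≤ ((60717/10000) * (2 * (α ^ 2 - γ ^ 2 - α * y)) + (5623/2000) * (2 * (β ^ 2 - γ ^ 2 + β * x)) +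
      (68683/10000) * (-(4 * (α * γ)) + 2 * (γ * y))) +
    20 * (((3063/5000) * α + (267/500) * β + (6967/2500) * γ + (9637/10000) * x + (-691/625) * y) ^ 2 +
      ((-1261/1250) * α + (-4397/5000) * β + (661/2500) * γ + (-15869/10000) * x + (3641/2000) * y) ^ 2 +
      ((-3063/5000) * α + (267/500) * β + (-6967/2500) * γ + (-4297/10000) * x + (-4929/10000) * y) ^ 2 +
      ((1261/1250) * α + (-4397/5000) * β + (-661/2500) * γ + (1769/2500) * x + (8117/10000) * y) ^ 2) -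
    181 / 100 * (α ^ 2 + β ^ 2 + γ ^ 2 + x ^ 2 + y ^ 2) := by
  have e : ((60717/10000) * (2 * (α ^ 2 - γ ^ 2 - α * y)) + (5623/2000) * (2 * (β ^ 2 - γ ^ 2 + β * x)) +
      (68683/10000) * (-(4 * (α * γ)) + 2 * (γ * y))) +
    20 * (((3063/5000) * α + (267/500) * β + (6967/2500) * γ + (9637/10000) * x + (-691/625) * y) ^ 2 +
      ((-1261/1250) * α + (-4397/5000) * β + (661/2500) * γ + (-15869/10000) * x + (3641/2000) * y) ^ 2 +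
      ((-3063/5000) * α + (267/500) * β + (-6967/2500) * γ + (-4297/10000) * x + (-4929/10000) * y) ^ 2 +
      ((1261/1250) * α + (-4397/5000) * β + (-661/2500) * γ + (1769/2500) * x + (8117/10000) * y) ^ 2) -
    181 / 100 * (α ^ 2 + β ^ 2 + γ ^ 2 + x ^ 2 + y ^ 2) =
    (1032057/15625) * ((1) * α + (27426299/41282280) * γ + (79207211/82564560) * x + (-84830123/165129120) * y) ^ 2 +
    (14422817/312500) * ((1) * β + (59949371/115382536) * x + (-19802223/14422817) * y) ^ 2 +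
    (6830064539203799/25801425000000) * ((1) * γ + (1209134188693151/13660129078407598) * x + (61560780951817/27320258156815196) * y) ^ 2 +
    (434529969194168732241395580029/78807016757700574945426400000) * ((1) * x + (5592435688594715506036849996/14983792041178232146255020001) * y) ^ 2 +
    (525890123751369927966596911288283/299675840823564642925100400020000) * ((1) * y) ^ 2 := by
    ring
  rw [e]
  positivity
theorem near {p11 p12 p13 p21 p22 p23 p31 p32 p33 e1 e2 e3 B11 B12 B13 B21 B22 B23 B31 B32 B33 C1 C2 C3 α β γ x y ρ l1 l2 l3 l4 l5 : ℝ}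
    (hα : |α| ≤ 1 / 1000) (hβ : |β| ≤ 1 / 1000) (hγ : |γ| ≤ 1 / 1000)
    (hx : |x| ≤ 1 / 1000) (hy : |y| ≤ 1 / 1000) (rα : |α| ≤ ρ) (rβ : |β| ≤ ρ) (rγ : |γ| ≤ ρ)
    (rx : |x| ≤ ρ) (ry : |y| ≤ ρ)
    (qp11 : |p11| ≤ B11) (qp12 : |p12| ≤ B12) (qp13 : |p13| ≤ B13) (qp21 : |p21| ≤ B21) (qp22 : |p22| ≤ B22) (qp23 : |p23| ≤ B23) (qp31 : |p31| ≤ B31) (qp32 : |p32| ≤ B32) (qp33 : |p33| ≤ B33) (qe1 : |e1| ≤ C1) (qe2 : |e2| ≤ C2) (qe3 : |e3| ≤ C3)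
    (hc : p21 - p12 - e3 = 0)
    (k1 : |2 * p31 + 2 * e2 - l1| ≤ 51 / 1000000) (k2 : |2 * p32 - 2 * e1 - l2| ≤ 51 / 1000000)
    (k3 : |-2 * p11 - 2 * p22 - l3| ≤ 51 / 1000000) (k4 : |p32 - p23 - e1 - l4| ≤ 51 / 1000000)
    (k5 : |p13 - p31 - e2 - l5| ≤ 51 / 1000000)
    (hB : 4 * B11 + 5 * B12 + 2 * B13 + 5 * B21 + 4 * B22 + 2 * B23 + 2 * B31 + 2 * B32 + 4 * B33 +
      4 * C1 + 4 * C2 + 7 * C3 ≤ 10182 / 100) :
    |Lg p11 p12 p13 p21 p22 p23 p31 p32 p33 e1 e2 e3 α β γ x y -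
      (l1 * α + l2 * β + l3 * γ + l4 * x + l5 * y)| ≤ 1032 / 10000 * ρ := by
  have r0 : 0 ≤ ρ := (abs_nonneg _).trans rα
  have h := rem hα hβ hγ hx hy rα rβ rγ rx ry qp11 qp12 qp13 qp21 qp22 qp23 qp31 qp32 qp33 qe1 qe2 qe3
  rw [hc, sub_zero] at h
  have h1 := pb k1 rα
  have h2 := pb k2 rβ
  have h3 := pb k3 rγ
  have h4 := pb k4 rx
  have h5 := pb k5 ry
  have h6 : (4 * B11 + 5 * B12 + 2 * B13 + 5 * B21 + 4 * B22 + 2 * B23 + 2 * B31 + 2 * B32 +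
      4 * B33 + 4 * C1 + 4 * C2 + 7 * C3) * (101 / 100000 * ρ) ≤
      10182 / 100 * (101 / 100000 * ρ) := mul_le_mul_of_nonneg_right hB (by positivity)
  have h7 := h.trans h6
  obtain ⟨a1, b1⟩ := abs_le.1 h1
  obtain ⟨a2, b2⟩ := abs_le.1 h2
  obtain ⟨a3, b3⟩ := abs_le.1 h3
  obtain ⟨a4, b4⟩ := abs_le.1 h4
  obtain ⟨a5, b5⟩ := abs_le.1 h5
  obtain ⟨a7, b7⟩ := abs_le.1 h7
  exact abs_le.2 ⟨by linarith, by linarith⟩

theorem ub {a a' e B : ℝ} (h : |a - a'| ≤ e) (hB : |a'| + e ≤ B) : |a| ≤ B := by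
  have h1 := abs_add_le (a - a') a'
  rw [sub_add_cancel] at h1
  linarith

theorem ub' {a a' e B : ℝ} (h : |a - a'| ≤ e) (hB : |a'| + e ≤ B) : |-a| ≤ B := by
  rw [abs_neg]
  exact ub h hB

theorem n2 {a b N : ℝ} (ha : a ^ 2 ≤ N) (hb : b ^ 2 ≤ N) : |a * b| ≤ N := by
  refine abs_le.2 ⟨?_, ?_⟩
  · nlinarith [sq_nonneg (a + b)]
  · nlinarith [sq_nonneg (a - b)]

theorem n3 {a b c N : ℝ} (h : |a| ≤ 1 / 1000) (hb : b ^ 2 ≤ N) (hc : c ^ 2 ≤ N) :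
    |a * (b * c)| ≤ 1 / 1000 * N := pb h (n2 hb hc)

theorem low {P Q E α β γ x y N : ℝ} (hα : |α| ≤ 1 / 1000) (hβ : |β| ≤ 1 / 1000)
    (hγ : |γ| ≤ 1 / 1000) (hx : |x| ≤ 1 / 1000) (hy : |y| ≤ 1 / 1000)
    (hN : N = α ^ 2 + β ^ 2 + γ ^ 2 + x ^ 2 + y ^ 2)
    (hP : |P - (60717/10000)| ≤ 1 / 10000) (hQ : |Q - (5623/2000)| ≤ 1 / 10000) (hE : |E - (68683/10000)| ≤ 1 / 10000) :
    ((60717/10000) * (2 * (α ^ 2 - γ ^ 2 - α * y)) + (5623/2000) * (2 * (β ^ 2 - γ ^ 2 + β * x)) +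
      (68683/10000) * (-(4 * (α * γ)) + 2 * (γ * y))) - N / 10 ≤
    Lg 0 (-P) 0 Q 0 0 0 E 0 E 0 (P + Q) α β γ x y := by
  have Nα : α ^ 2 ≤ N := by rw [hN]; linarith only [sq_nonneg α, sq_nonneg β, sq_nonneg γ, sq_nonneg x, sq_nonneg y]
  have Nβ : β ^ 2 ≤ N := by rw [hN]; linarith only [sq_nonneg α, sq_nonneg β, sq_nonneg γ, sq_nonneg x, sq_nonneg y]
  have Nγ : γ ^ 2 ≤ N := by rw [hN]; linarith only [sq_nonneg α, sq_nonneg β, sq_nonneg γ, sq_nonneg x, sq_nonneg y]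
  have Nx : x ^ 2 ≤ N := by rw [hN]; linarith only [sq_nonneg α, sq_nonneg β, sq_nonneg γ, sq_nonneg x, sq_nonneg y]
  have Ny : y ^ 2 ≤ N := by rw [hN]; linarith only [sq_nonneg α, sq_nonneg β, sq_nonneg γ, sq_nonneg x, sq_nonneg y]
  have hN0 : 0 ≤ N := (sq_nonneg α).trans Nα
  obtain ⟨a1, b1⟩ := abs_le.1 (n2 Nα Nα)
  obtain ⟨a2, b2⟩ := abs_le.1 (n2 Nβ Nβ)
  obtain ⟨a3, b3⟩ := abs_le.1 (n2 Nγ Nγ)
  obtain ⟨a4, b4⟩ := abs_le.1 (n2 Nα Ny)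
  obtain ⟨a5, b5⟩ := abs_le.1 (n2 Nβ Nx)
  obtain ⟨a6, b6⟩ := abs_le.1 (n2 Nα Nγ)
  obtain ⟨a7, b7⟩ := abs_le.1 (n2 Nγ Ny)
  obtain ⟨c1, d1⟩ := abs_le.1 (n3 hx Nα Nγ)
  obtain ⟨c2, d2⟩ := abs_le.1 (n3 hy Nβ Nγ)
  obtain ⟨c3, d3⟩ := abs_le.1 (n3 hx Nα Nα)
  obtain ⟨c4, d4⟩ := abs_le.1 (n3 hx Nγ Nγ)
  obtain ⟨c5, d5⟩ := abs_le.1 (n3 hy Nα Nβ)
  have X1 : |2 * (α ^ 2 - γ ^ 2 - α * y) - 4 * (x * (α * γ)) - 2 * (y * (β * γ))| ≤ 7 * N :=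
    abs_le.2 ⟨by linarith, by linarith⟩
  have X2 : |2 * (β ^ 2 - γ ^ 2 + β * x) - 2 * (x * (α * γ)) - 4 * (y * (β * γ))| ≤ 7 * N :=
    abs_le.2 ⟨by linarith, by linarith⟩
  have X3 : |-(4 * (α * γ)) + 2 * (γ * y) + 2 * (x * (γ * γ)) - 2 * (x * (α * α)) -
      2 * (y * (α * β))| ≤ 7 * N := abs_le.2 ⟨by linarith, by linarith⟩
  obtain ⟨s1, t1⟩ := abs_le.1 (pb hP X1)
  obtain ⟨s2, t2⟩ := abs_le.1 (pb hQ X2)
  obtain ⟨s3, t3⟩ := abs_le.1 (pb hE X3)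
  unfold Lg
  linarith

theorem fin {α β γ x y ρ G1 G2 G3 G4 m1 m2 : ℝ} (hα : |α| ≤ 1 / 1000) (hβ : |β| ≤ 1 / 1000)
    (hγ : |γ| ≤ 1 / 1000) (hx : |x| ≤ 1 / 1000) (hy : |y| ≤ 1 / 1000) (r0 : 0 ≤ ρ)
    (hρ : ρ ^ 2 = α ^ 2 + β ^ 2 + γ ^ 2 + x ^ 2 + y ^ 2)
    (h1 : |G1 - ((3063/5000) * α + (267/500) * β + (6967/2500) * γ + (9637/10000) * x + (-691/625) * y)| ≤ 1032 / 10000 * ρ)
    (h2 : |G2 - ((-1261/1250) * α + (-4397/5000) * β + (661/2500) * γ + (-15869/10000) * x + (3641/2000) * y)| ≤ 1032 / 10000 * ρ)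
    (h3 : |G3 - ((-3063/5000) * α + (267/500) * β + (-6967/2500) * γ + (-4297/10000) * x + (-4929/10000) * y)| ≤ 1032 / 10000 * ρ)
    (h4 : |G4 - ((1261/1250) * α + (-4397/5000) * β + (-661/2500) * γ + (1769/2500) * x + (8117/10000) * y)| ≤ 1032 / 10000 * ρ)
    (hm1 : 42 / 100 ≤ m1) (hm2 : 42 / 100 ≤ m2)
    (hS : ((60717/10000) * (2 * (α ^ 2 - γ ^ 2 - α * y)) + (5623/2000) * (2 * (β ^ 2 - γ ^ 2 + β * x)) +
      (68683/10000) * (-(4 * (α * γ)) + 2 * (γ * y))) -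
      (α ^ 2 + β ^ 2 + γ ^ 2 + x ^ 2 + y ^ 2) / 10 ≤ m1 * (G1 + G3) + m2 * (G2 + G4))
    (g1 : G1 < 0) (g2 : G2 < 0) (g3 : G3 < 0) (g4 : G4 < 0) : False := by
  have hρ2 : ρ ≤ 23 / 10000 := by
    have i1 : ρ ^ 2 ≤ 5 / 1000000 := by
      rw [hρ]
      have j1 := abs_le.1 hα
      have j2 := abs_le.1 hβ
      have j3 := abs_le.1 hγ
      have j4 := abs_le.1 hx
      have j5 := abs_le.1 hy
      nlinarith [mul_nonneg (sub_nonneg.2 j1.1) (sub_nonneg.2 j1.2), mul_nonneg (sub_nonneg.2 j2.1) (sub_nonneg.2 j2.2), mul_nonneg (sub_nonneg.2 j3.1) (sub_nonneg.2 j3.2), mul_nonneg (sub_nonneg.2 j4.1) (sub_nonneg.2 j4.2), mul_nonneg (sub_nonneg.2 j5.1) (sub_nonneg.2 j5.2)]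
    by_contra hcon
    push Not at hcon
    nlinarith
  have hs := sos α β γ x y
  obtain ⟨u1, v1⟩ := abs_le.1 hα
  obtain ⟨u2, v2⟩ := abs_le.1 hβ
  obtain ⟨u3, v3⟩ := abs_le.1 hγ
  obtain ⟨u4, v4⟩ := abs_le.1 hx
  obtain ⟨u5, v5⟩ := abs_le.1 hy
  have n1 : -(1 / 100) ≤ G1 := by
    have := (abs_le.1 h1).1
    linarith
  have n2 : -(1 / 100) ≤ G2 := by
    have := (abs_le.1 h2).1
    linarith
  have n3 : -(1 / 100) ≤ G3 := by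
    have := (abs_le.1 h3).1
    linarith
  have n4 : -(1 / 100) ≤ G4 := by
    have := (abs_le.1 h4).1
    linarith
  have sq : ∀ G l : ℝ, |G - l| ≤ 1032 / 10000 * ρ →
      20 * l ^ 2 - 40 * (1032 / 10000) ^ 2 * (α ^ 2 + β ^ 2 + γ ^ 2 + x ^ 2 + y ^ 2) ≤ 40 * G ^ 2 := by
    intro G l h
    have h2 : (G - l) ^ 2 ≤ (1032 / 10000 * ρ) ^ 2 := by
      rw [← sq_abs (G - l)]
      exact pow_le_pow_left₀ (abs_nonneg _) h 2
    rw [mul_pow, hρ] at h2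
    nlinarith [sq_nonneg (2 * G - l)]
  have k1 := sq _ _ h1
  have k2 := sq _ _ h2
  have k3 := sq _ _ h3
  have k4 := sq _ _ h4
  have w : ∀ G m : ℝ, G < 0 → -(1 / 100) ≤ G → 42 / 100 ≤ m → m * G + 40 * G ^ 2 < 0 := by
    intro G m h h' hm
    have : 0 < m + 40 * G := by linarith
    nlinarith [mul_neg_of_neg_of_pos h this]
  have w1 := w G1 m1 g1 n1 hm1
  have w2 := w G2 m2 g2 n2 hm2
  have w3 := w G3 m1 g3 n3 hm1
  have w4 := w G4 m2 g4 n4 hm2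
  have hN0 : 0 ≤ α ^ 2 + β ^ 2 + γ ^ 2 + x ^ 2 + y ^ 2 := by positivity
  clear h1 h2 h3 h4 u1 v1 u2 v2 u3 v3 u4 v4 u5 v5 sq w n1 n2 n3 n4 hα hβ hγ hx hy hρ2
  generalize ((60717/10000) * (2 * (α ^ 2 - γ ^ 2 - α * y)) + (5623/2000) * (2 * (β ^ 2 - γ ^ 2 + β * x)) +
      (68683/10000) * (-(4 * (α * γ)) + 2 * (γ * y))) = Q0 at *
  generalize (3063/5000) * α + (267/500) * β + (6967/2500) * γ + (9637/10000) * x + (-691/625) * y = L1 at *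
  generalize (-1261/1250) * α + (-4397/5000) * β + (661/2500) * γ + (-15869/10000) * x + (3641/2000) * y = L2 at *
  generalize (-3063/5000) * α + (267/500) * β + (-6967/2500) * γ + (-4297/10000) * x + (-4929/10000) * y = L3 at *
  generalize (1261/1250) * α + (-4397/5000) * β + (-661/2500) * γ + (1769/2500) * x + (8117/10000) * y = L4 at *
  generalize α ^ 2 + β ^ 2 + γ ^ 2 + x ^ 2 + y ^ 2 = N at *
  linarith

theorem agg (A11 A12 A13 A21 A22 A23 A31 A32 A33 B11 B12 B13 B21 B22 B23 B31 B32 B33 e1 g e3 m1 m2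
    α β γ x y : ℝ) :
    m1 * (Lg A11 (-A12) (-A13) A21 (-A22) (-A23) (-A31) A32 A33 e1 g e3 α β γ x y +
      Lg (-A11) (-A12) (-A13) A21 A22 A23 A31 A32 A33 e1 (-g) e3 α β γ x y) +
    m2 * (Lg B11 (-B12) (-B13) B21 (-B22) (-B23) (-B31) B32 B33 e1 g e3 α β γ x y +
      Lg (-B11) (-B12) (-B13) B21 B22 B23 B31 B32 B33 e1 (-g) e3 α β γ x y) =
    Lg 0 (-(2 * (m1 * A12 + m2 * B12))) (-(2 * (m1 * A13 + m2 * B13))) (2 * (m1 * A21 + m2 * B21))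
      0 0 0 (2 * (m1 * A32 + m2 * B32)) (2 * (m1 * A33 + m2 * B33)) (2 * (m1 + m2) * e1) 0
      (2 * (m1 + m2) * e3) α β γ x y := by
  unfold Lg
  ring

theorem core {g n Ca Sa Cb Sb α β γ x y : ℝ} (hg : g ^ 2 = g + 1) (h1 : Cb ^ 2 + Sb ^ 2 = 1)
    (bg : |g - (1618033989/1000000000)| ≤ 1 / 10 ^ 9) (bn : |n - (202164613/200000000)| ≤ 1 / 10 ^ 8)
    (bCa : |Ca - (936230429/1000000000)| ≤ 1 / 10 ^ 9) (bSa : |Sa - (351386657/1000000000)| ≤ 1 / 10 ^ 9)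
    (bCb : |Cb - (964722279/1000000000)| ≤ 1 / 10 ^ 9) (bSb : |Sb - (263269679/1000000000)| ≤ 1 / 10 ^ 9)
    (K1 : n * g * (g - 1) + n * (Ca + g * Sa + Sa) * (g * Cb) - (2 * (g * Sa) + Sa + g * Ca + Ca) = 0)
    (K2 : n * g + n * (Ca + g * Sa + Sa) * (Cb + Sb) - (2 * (g * Sa) + Sa + g * Ca + Ca) = 0)
    (K3 : n * (g * Ca + Ca - Sa) * g = (Cb - Sb + g * Sb) * (2 * (g * Ca) + Ca - g * Sa - Sa))
    (hα : |α| ≤ 1 / 1000) (hβ : |β| ≤ 1 / 1000)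
    (hγ : |γ| ≤ 1 / 1000) (hx : |x| ≤ 1 / 1000) (hy : |y| ≤ 1 / 1000)
    (g1 : Lg (n * (Ca + g * Sa + Sa) * (g - 1)) (-(n * (Ca + g * Sa + Sa) * (g * Cb))) (-(n * (Ca + g * Sa + Sa) * (g * Sb))) (n * g * (g - 1)) (-(n * g * (g * Cb))) (-(n * g * (g * Sb))) (-(n * (g * Ca + Ca - Sa) * (g - 1))) (n * (g * Ca + Ca - Sa) * (g * Cb)) (n * (g * Ca + Ca - Sa) * (g * Sb)) (2 * (g * Ca) + Ca - g * Sa - Sa) g (2 * (g * Sa) + Sa + g * Ca + Ca)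
      α β γ x y < 0)
    (g2 : Lg (n * (Ca + g * Sa + Sa)) (-(n * (Ca + g * Sa + Sa) * (Cb + Sb))) (-(n * (Ca + g * Sa + Sa) * (Sb - Cb))) (n * g) (-(n * g * (Cb + Sb))) (-(n * g * (Sb - Cb))) (-(n * (g * Ca + Ca - Sa))) (n * (g * Ca + Ca - Sa) * (Cb + Sb)) (n * (g * Ca + Ca - Sa) * (Sb - Cb)) (2 * (g * Ca) + Ca - g * Sa - Sa) g (2 * (g * Sa) + Sa + g * Ca + Ca)
      α β γ x y < 0)
    (g3 : Lg (-(n * (Ca + g * Sa + Sa) * (g - 1))) (-(n * (Ca + g * Sa + Sa) * (g * Cb))) (-(n * (Ca + g * Sa + Sa) * (g * Sb))) (n * g * (g - 1)) (n * g * (g * Cb)) (n * g * (g * Sb)) (n * (g * Ca + Ca - Sa) * (g - 1)) (n * (g * Ca + Ca - Sa) * (g * Cb)) (n * (g * Ca + Ca - Sa) * (g * Sb)) (2 * (g * Ca) + Ca - g * Sa - Sa) (-g) (2 * (g * Sa) + Sa + g * Ca + Ca)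
      α β γ x y < 0)
    (g4 : Lg (-(n * (Ca + g * Sa + Sa))) (-(n * (Ca + g * Sa + Sa) * (Cb + Sb))) (-(n * (Ca + g * Sa + Sa) * (Sb - Cb))) (n * g) (n * g * (Cb + Sb)) (n * g * (Sb - Cb)) (n * (g * Ca + Ca - Sa)) (n * (g * Ca + Ca - Sa) * (Cb + Sb)) (n * (g * Ca + Ca - Sa) * (Sb - Cb)) (2 * (g * Ca) + Ca - g * Sa - Sa) (-g) (2 * (g * Sa) + Sa + g * Ca + Ca)
      α β γ x y < 0)
    : False := by
  have bgSa : |g * Sa - (113711111/200000000)| ≤ (7/2500000000) := mb bg bSa (by norm_num)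
  have bgCa : |g * Ca - (94678291/62500000)| ≤ (3/1000000000) := mb bg bCa (by norm_num)
  have bgCb : |g * Cb - (780476719/500000000)| ≤ (17/5000000000) := mb bg bCb (by norm_num)
  have bgSb : |g * Sb - (425979289/1000000000)| ≤ (21/10000000000) := mb bg bSb (by norm_num)
  have bA1 : |(Ca + g * Sa + Sa) - (928086321/500000000)| ≤ (3/500000000) := by
    have hCa := abs_le.1 bCa
    have hgSa := abs_le.1 bgSa
    have hSa := abs_le.1 bSa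
    exact abs_le.2 ⟨by linarith only [hCa.1, hCa.2, hgSa.1, hgSa.2, hSa.1, hSa.2], by linarith only [hCa.1, hCa.2, hgSa.1, hgSa.2, hSa.1, hSa.2]⟩
  have bA3 : |(g * Ca + Ca - Sa) - (524924107/250000000)| ≤ (13/2500000000) := by
    have hgCa := abs_le.1 bgCa
    have hCa := abs_le.1 bCa
    have hSa := abs_le.1 bSa
    exact abs_le.2 ⟨by linarith only [hgCa.1, hgCa.2, hCa.1, hCa.2, hSa.1, hSa.2], by linarith only [hgCa.1, hgCa.2, hCa.1, hCa.2, hSa.1, hSa.2]⟩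
  have bE1 : |(2 * (g * Ca) + Ca - g * Sa - Sa) - (3045993529/1000000000)| ≤ (3/250000000) := by
    have hgCa := abs_le.1 bgCa
    have hCa := abs_le.1 bCa
    have hgSa := abs_le.1 bgSa
    have hSa := abs_le.1 bSa
    exact abs_le.2 ⟨by linarith only [hgCa.1, hgCa.2, hCa.1, hCa.2, hgSa.1, hgSa.2, hSa.1, hSa.2], by linarith only [hgCa.1, hgCa.2, hCa.1, hCa.2, hgSa.1, hgSa.2, hSa.1, hSa.2]⟩
  have bE3 : |(2 * (g * Sa) + Sa + g * Ca + Ca) - (3939580853/1000000000)| ≤ (13/1000000000) := by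
    have hgSa := abs_le.1 bgSa
    have hSa := abs_le.1 bSa
    have hgCa := abs_le.1 bgCa
    have hCa := abs_le.1 bCa
    exact abs_le.2 ⟨by linarith only [hgSa.1, hgSa.2, hSa.1, hSa.2, hgCa.1, hgCa.2, hCa.1, hCa.2], by linarith only [hgSa.1, hgSa.2, hSa.1, hSa.2, hgCa.1, hgCa.2, hCa.1, hCa.2]⟩
  have bN1 : |n * (Ca + g * Sa + Sa) - (1876262111/1000000000)| ≤ (17/500000000) := mb bn bA1 (by norm_num)
  have bN2 : |n * g - (1635546069/1000000000)| ≤ (13/500000000) := mb bn bg (by norm_num)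
  have bN3 : |n * (g * Ca + Ca - Sa) - (212242157/100000000)| ≤ (37/1000000000) := mb bn bA3 (by norm_num)
  have bV1a : |(g - 1) - (618033989/1000000000)| ≤ (3/2500000000) := by
    have hg := abs_le.1 bg
    exact abs_le.2 ⟨by linarith only [hg.1, hg.2], by linarith only [hg.1, hg.2]⟩
  have bV2b : |(Cb + Sb) - (613995979/500000000)| ≤ (11/5000000000) := by
    have hCb := abs_le.1 bCb
    have hSb := abs_le.1 bSb
    exact abs_le.2 ⟨by linarith only [hCb.1, hCb.2, hSb.1, hSb.2], by linarith only [hCb.1, hCb.2, hSb.1, hSb.2]⟩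
  have bV3b : |(Sb - Cb) - (-3507263/5000000)| ≤ (11/5000000000) := by
    have hSb := abs_le.1 bSb
    have hCb := abs_le.1 bCb
    exact abs_le.2 ⟨by linarith only [hSb.1, hSb.2, hCb.1, hCb.2], by linarith only [hSb.1, hSb.2, hCb.1, hCb.2]⟩
  have bq11a : |n * (Ca + g * Sa + Sa) * (g - 1) - (289898439/250000000)| ≤ (13/500000000) := mb bN1 bV1a (by norm_num)
  have bq12a : |n * (Ca + g * Sa + Sa) * (g * Cb) - (91523681/31250000)| ≤ (31/500000000) := mb bN1 bgCb (by norm_num)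
  have bq13a : |n * (Ca + g * Sa + Sa) * (g * Sb) - (799248799/1000000000)| ≤ (21/1000000000) := mb bN1 bgSb (by norm_num)
  have bq21a : |n * g * (g - 1) - (1010823061/1000000000)| ≤ (1/50000000) := mb bN2 bV1a (by norm_num)
  have bq22a : |n * g * (g * Cb) - (2553011259/1000000000)| ≤ (3/62500000) := mb bN2 bgCb (by norm_num)
  have bq23a : |n * g * (g * Sb) - (696708751/1000000000)| ≤ (17/1000000000) := mb bN2 bgSb (by norm_num)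
  have bq31a : |n * (g * Ca + Ca - Sa) * (g - 1) - (1311728669/1000000000)| ≤ (27/1000000000) := mb bN3 bV1a (by norm_num)
  have bq32a : |n * (g * Ca + Ca - Sa) * (g * Cb) - (1656500623/500000000)| ≤ (67/1000000000) := mb bN3 bgCb (by norm_num)
  have bq33a : |n * (g * Ca + Ca - Sa) * (g * Sb) - (904107631/1000000000)| ≤ (11/500000000) := mb bN3 bgSb (by norm_num)
  have bq12b : |n * (Ca + g * Sa + Sa) * (Cb + Sb) - (72001087/31250000)| ≤ (3/62500000) := mb bN1 bV2b (by norm_num)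
  have bq13b : |n * (Ca + g * Sa + Sa) * (Sb - Cb) - (-1316108937/1000000000)| ≤ (3/100000000) := mb bN1 bV3b (by norm_num)
  have bq22b : |n * g * (Cb + Sb) - (100421871/50000000)| ≤ (37/1000000000) := mb bN2 bV2b (by norm_num)
  have bq23b : |n * g * (Sb - Cb) - (-1147258043/1000000000)| ≤ (3/125000000) := mb bN2 bV3b (by norm_num)
  have bq32b : |n * (g * Ca + Ca - Sa) * (Cb + Sb) - (130315831/50000000)| ≤ (13/250000000) := mb bN3 bV2b (by norm_num)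
  have bq33b : |n * (g * Ca + Ca - Sa) * (Sb - Cb) - (-1488778129/1000000000)| ≤ (33/1000000000) := mb bN3 bV3b (by norm_num)
  obtain ⟨ρ, hρ⟩ : ∃ ρ, ρ = Real.sqrt (α ^ 2 + β ^ 2 + γ ^ 2 + x ^ 2 + y ^ 2) := ⟨_, rfl⟩
  have hN0 : 0 ≤ α ^ 2 + β ^ 2 + γ ^ 2 + x ^ 2 + y ^ 2 := by positivity
  have r0 : 0 ≤ ρ := by
    rw [hρ]
    exact Real.sqrt_nonneg _
  have hρ2 : ρ ^ 2 = α ^ 2 + β ^ 2 + γ ^ 2 + x ^ 2 + y ^ 2 := by
    rw [hρ, Real.sq_sqrt hN0]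
  have rα : |α| ≤ ρ := by
    rw [hρ]
    exact Real.abs_le_sqrt (by linarith only [sq_nonneg α, sq_nonneg β, sq_nonneg γ, sq_nonneg x, sq_nonneg y])
  have rβ : |β| ≤ ρ := by
    rw [hρ]
    exact Real.abs_le_sqrt (by linarith only [sq_nonneg α, sq_nonneg β, sq_nonneg γ, sq_nonneg x, sq_nonneg y])
  have rγ : |γ| ≤ ρ := by
    rw [hρ]
    exact Real.abs_le_sqrt (by linarith only [sq_nonneg α, sq_nonneg β, sq_nonneg γ, sq_nonneg x, sq_nonneg y])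
  have rx : |x| ≤ ρ := by
    rw [hρ]
    exact Real.abs_le_sqrt (by linarith only [sq_nonneg α, sq_nonneg β, sq_nonneg γ, sq_nonneg x, sq_nonneg y])
  have ry : |y| ≤ ρ := by
    rw [hρ]
    exact Real.abs_le_sqrt (by linarith only [sq_nonneg α, sq_nonneg β, sq_nonneg γ, sq_nonneg x, sq_nonneg y])
  have nn1 := near (l1 := (3063/5000)) (l2 := (267/500)) (l3 := (6967/2500)) (l4 := (9637/10000))
    (l5 := (-691/625)) hα hβ hγ hx hy rα rβ rγ rx ry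
    (ub (B := (2899/2500)) bq11a (by norm_num))
    (ub' (B := (3661/1250)) bq12a (by norm_num))
    (ub' (B := (7993/10000)) bq13a (by norm_num))
    (ub (B := (10109/10000)) bq21a (by norm_num))
    (ub' (B := (25531/10000)) bq22a (by norm_num))
    (ub' (B := (871/1250)) bq23a (by norm_num))
    (ub' (B := (6559/5000)) bq31a (by norm_num))
    (ub (B := (33131/10000)) bq32a (by norm_num))
    (ub (B := (4521/5000)) bq33a (by norm_num))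
    (ub (B := (1523/500)) bE1 (by norm_num))
    (ub (B := (16181/10000)) bg (by norm_num))
    (ub (B := (9849/2500)) bE3 (by norm_num))
    (by linarith only [K1])
    (by
      obtain ⟨s0, t0⟩ := abs_le.1 bq31a
      obtain ⟨s1, t1⟩ := abs_le.1 bg
      exact abs_le.2 ⟨by linarith only [s0, t0, s1, t1], by linarith only [s0, t0, s1, t1]⟩)
    (by
      obtain ⟨s0, t0⟩ := abs_le.1 bq32a
      obtain ⟨s1, t1⟩ := abs_le.1 bE1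
      exact abs_le.2 ⟨by linarith only [s0, t0, s1, t1], by linarith only [s0, t0, s1, t1]⟩)
    (by
      obtain ⟨s0, t0⟩ := abs_le.1 bq11a
      obtain ⟨s1, t1⟩ := abs_le.1 bq22a
      exact abs_le.2 ⟨by linarith only [s0, t0, s1, t1], by linarith only [s0, t0, s1, t1]⟩)
    (by
      obtain ⟨s0, t0⟩ := abs_le.1 bq32a
      obtain ⟨s1, t1⟩ := abs_le.1 bq23a
      obtain ⟨s2, t2⟩ := abs_le.1 bE1
      exact abs_le.2 ⟨by linarith only [s0, t0, s1, t1, s2, t2], by linarith only [s0, t0, s1, t1, s2, t2]⟩)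
    (by
      obtain ⟨s0, t0⟩ := abs_le.1 bq13a
      obtain ⟨s1, t1⟩ := abs_le.1 bq31a
      obtain ⟨s2, t2⟩ := abs_le.1 bg
      exact abs_le.2 ⟨by linarith only [s0, t0, s1, t1, s2, t2], by linarith only [s0, t0, s1, t1, s2, t2]⟩)
    (by norm_num)
  have nn2 := near (l1 := (-1261/1250)) (l2 := (-4397/5000)) (l3 := (661/2500)) (l4 := (-15869/10000))
    (l5 := (3641/2000)) hα hβ hγ hx hy rα rβ rγ rx ry
    (ub (B := (18763/10000)) bN1 (by norm_num))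
    (ub' (B := (23041/10000)) bq12b (by norm_num))
    (ub' (B := (6581/5000)) bq13b (by norm_num))
    (ub (B := (4089/2500)) bN2 (by norm_num))
    (ub' (B := (4017/2000)) bq22b (by norm_num))
    (ub' (B := (11473/10000)) bq23b (by norm_num))
    (ub' (B := (849/400)) bN3 (by norm_num))
    (ub (B := (1629/625)) bq32b (by norm_num))
    (ub (B := (1861/1250)) bq33b (by norm_num))
    (ub (B := (1523/500)) bE1 (by norm_num))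
    (ub (B := (16181/10000)) bg (by norm_num))
    (ub (B := (9849/2500)) bE3 (by norm_num))
    (by linarith only [K2])
    (by
      obtain ⟨s0, t0⟩ := abs_le.1 bN3
      obtain ⟨s1, t1⟩ := abs_le.1 bg
      exact abs_le.2 ⟨by linarith only [s0, t0, s1, t1], by linarith only [s0, t0, s1, t1]⟩)
    (by
      obtain ⟨s0, t0⟩ := abs_le.1 bq32b
      obtain ⟨s1, t1⟩ := abs_le.1 bE1
      exact abs_le.2 ⟨by linarith only [s0, t0, s1, t1], by linarith only [s0, t0, s1, t1]⟩)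
    (by
      obtain ⟨s0, t0⟩ := abs_le.1 bN1
      obtain ⟨s1, t1⟩ := abs_le.1 bq22b
      exact abs_le.2 ⟨by linarith only [s0, t0, s1, t1], by linarith only [s0, t0, s1, t1]⟩)
    (by
      obtain ⟨s0, t0⟩ := abs_le.1 bq32b
      obtain ⟨s1, t1⟩ := abs_le.1 bq23b
      obtain ⟨s2, t2⟩ := abs_le.1 bE1
      exact abs_le.2 ⟨by linarith only [s0, t0, s1, t1, s2, t2], by linarith only [s0, t0, s1, t1, s2, t2]⟩)
    (by
      obtain ⟨s0, t0⟩ := abs_le.1 bq13b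
      obtain ⟨s1, t1⟩ := abs_le.1 bN3
      obtain ⟨s2, t2⟩ := abs_le.1 bg
      exact abs_le.2 ⟨by linarith only [s0, t0, s1, t1, s2, t2], by linarith only [s0, t0, s1, t1, s2, t2]⟩)
    (by norm_num)
  have nn3 := near (l1 := (-3063/5000)) (l2 := (267/500)) (l3 := (-6967/2500)) (l4 := (-4297/10000))
    (l5 := (-4929/10000)) hα hβ hγ hx hy rα rβ rγ rx ry
    (ub' (B := (2899/2500)) bq11a (by norm_num))
    (ub' (B := (3661/1250)) bq12a (by norm_num))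
    (ub' (B := (7993/10000)) bq13a (by norm_num))
    (ub (B := (10109/10000)) bq21a (by norm_num))
    (ub (B := (25531/10000)) bq22a (by norm_num))
    (ub (B := (871/1250)) bq23a (by norm_num))
    (ub (B := (6559/5000)) bq31a (by norm_num))
    (ub (B := (33131/10000)) bq32a (by norm_num))
    (ub (B := (4521/5000)) bq33a (by norm_num))
    (ub (B := (1523/500)) bE1 (by norm_num))
    (ub' (B := (16181/10000)) bg (by norm_num))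
    (ub (B := (9849/2500)) bE3 (by norm_num))
    (by linarith only [K1])
    (by
      obtain ⟨s0, t0⟩ := abs_le.1 bq31a
      obtain ⟨s1, t1⟩ := abs_le.1 bg
      exact abs_le.2 ⟨by linarith only [s0, t0, s1, t1], by linarith only [s0, t0, s1, t1]⟩)
    (by
      obtain ⟨s0, t0⟩ := abs_le.1 bq32a
      obtain ⟨s1, t1⟩ := abs_le.1 bE1
      exact abs_le.2 ⟨by linarith only [s0, t0, s1, t1], by linarith only [s0, t0, s1, t1]⟩)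
    (by
      obtain ⟨s0, t0⟩ := abs_le.1 bq11a
      obtain ⟨s1, t1⟩ := abs_le.1 bq22a
      exact abs_le.2 ⟨by linarith only [s0, t0, s1, t1], by linarith only [s0, t0, s1, t1]⟩)
    (by
      obtain ⟨s0, t0⟩ := abs_le.1 bq32a
      obtain ⟨s1, t1⟩ := abs_le.1 bq23a
      obtain ⟨s2, t2⟩ := abs_le.1 bE1
      exact abs_le.2 ⟨by linarith only [s0, t0, s1, t1, s2, t2], by linarith only [s0, t0, s1, t1, s2, t2]⟩)
    (by
      obtain ⟨s0, t0⟩ := abs_le.1 bq13a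
      obtain ⟨s1, t1⟩ := abs_le.1 bq31a
      obtain ⟨s2, t2⟩ := abs_le.1 bg
      exact abs_le.2 ⟨by linarith only [s0, t0, s1, t1, s2, t2], by linarith only [s0, t0, s1, t1, s2, t2]⟩)
    (by norm_num)
  have nn4 := near (l1 := (1261/1250)) (l2 := (-4397/5000)) (l3 := (-661/2500)) (l4 := (1769/2500))
    (l5 := (8117/10000)) hα hβ hγ hx hy rα rβ rγ rx ry
    (ub' (B := (18763/10000)) bN1 (by norm_num))
    (ub' (B := (23041/10000)) bq12b (by norm_num))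
    (ub' (B := (6581/5000)) bq13b (by norm_num))
    (ub (B := (4089/2500)) bN2 (by norm_num))
    (ub (B := (4017/2000)) bq22b (by norm_num))
    (ub (B := (11473/10000)) bq23b (by norm_num))
    (ub (B := (849/400)) bN3 (by norm_num))
    (ub (B := (1629/625)) bq32b (by norm_num))
    (ub (B := (1861/1250)) bq33b (by norm_num))
    (ub (B := (1523/500)) bE1 (by norm_num))
    (ub' (B := (16181/10000)) bg (by norm_num))
    (ub (B := (9849/2500)) bE3 (by norm_num))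
    (by linarith only [K2])
    (by
      obtain ⟨s0, t0⟩ := abs_le.1 bN3
      obtain ⟨s1, t1⟩ := abs_le.1 bg
      exact abs_le.2 ⟨by linarith only [s0, t0, s1, t1], by linarith only [s0, t0, s1, t1]⟩)
    (by
      obtain ⟨s0, t0⟩ := abs_le.1 bq32b
      obtain ⟨s1, t1⟩ := abs_le.1 bE1
      exact abs_le.2 ⟨by linarith only [s0, t0, s1, t1], by linarith only [s0, t0, s1, t1]⟩)
    (by
      obtain ⟨s0, t0⟩ := abs_le.1 bN1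
      obtain ⟨s1, t1⟩ := abs_le.1 bq22b
      exact abs_le.2 ⟨by linarith only [s0, t0, s1, t1], by linarith only [s0, t0, s1, t1]⟩)
    (by
      obtain ⟨s0, t0⟩ := abs_le.1 bq32b
      obtain ⟨s1, t1⟩ := abs_le.1 bq23b
      obtain ⟨s2, t2⟩ := abs_le.1 bE1
      exact abs_le.2 ⟨by linarith only [s0, t0, s1, t1, s2, t2], by linarith only [s0, t0, s1, t1, s2, t2]⟩)
    (by
      obtain ⟨s0, t0⟩ := abs_le.1 bq13b
      obtain ⟨s1, t1⟩ := abs_le.1 bN3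
      obtain ⟨s2, t2⟩ := abs_le.1 bg
      exact abs_le.2 ⟨by linarith only [s0, t0, s1, t1, s2, t2], by linarith only [s0, t0, s1, t1, s2, t2]⟩)
    (by norm_num)
  have hm1 : 42 / 100 ≤ Cb - Sb := by
    obtain ⟨s1, t1⟩ := abs_le.1 bCb
    obtain ⟨s2, t2⟩ := abs_le.1 bSb
    linarith only [s1, t1, s2, t2]
  have hm2 : 42 / 100 ≤ g * Sb := by
    obtain ⟨s1, t1⟩ := abs_le.1 bgSb
    linarith only [s1, t1]
  have hag := agg (n * (Ca + g * Sa + Sa) * (g - 1)) (n * (Ca + g * Sa + Sa) * (g * Cb)) (n * (Ca + g * Sa + Sa) * (g * Sb))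
    (n * g * (g - 1)) (n * g * (g * Cb)) (n * g * (g * Sb))
    (n * (g * Ca + Ca - Sa) * (g - 1)) (n * (g * Ca + Ca - Sa) * (g * Cb)) (n * (g * Ca + Ca - Sa) * (g * Sb))
    (n * (Ca + g * Sa + Sa)) (n * (Ca + g * Sa + Sa) * (Cb + Sb)) (n * (Ca + g * Sa + Sa) * (Sb - Cb))
    (n * g) (n * g * (Cb + Sb)) (n * g * (Sb - Cb))
    (n * (g * Ca + Ca - Sa)) (n * (g * Ca + Ca - Sa) * (Cb + Sb)) (n * (g * Ca + Ca - Sa) * (Sb - Cb))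
    (2 * (g * Ca) + Ca - g * Sa - Sa) g (2 * (g * Sa) + Sa + g * Ca + Ca) (Cb - Sb) (g * Sb) α β γ x y
  have c12 : 2 * ((Cb - Sb) * (n * (Ca + g * Sa + Sa) * (g * Cb)) + g * Sb * (n * (Ca + g * Sa + Sa) * (Cb + Sb))) =
      2 * (n * (Ca + g * Sa + Sa) * g) := by
    linear_combination 2 * g * (n * (Ca + g * Sa + Sa)) * h1
  have c13 : 2 * ((Cb - Sb) * (n * (Ca + g * Sa + Sa) * (g * Sb)) + g * Sb * (n * (Ca + g * Sa + Sa) * (Sb - Cb))) = 0 := by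
    ring
  have c21 : 2 * ((Cb - Sb) * (n * g * (g - 1)) + g * Sb * (n * g)) =
      2 * (n * (Cb + g * Sb)) := by
    linear_combination 2 * n * Cb * hg
  have c32 : 2 * ((Cb - Sb) * (n * (g * Ca + Ca - Sa) * (g * Cb)) + g * Sb * (n * (g * Ca + Ca - Sa) * (Cb + Sb))) =
      2 * (n * (g * Ca + Ca - Sa) * g) := by
    linear_combination 2 * g * (n * (g * Ca + Ca - Sa)) * h1
  have c33 : 2 * ((Cb - Sb) * (n * (g * Ca + Ca - Sa) * (g * Sb)) + g * Sb * (n * (g * Ca + Ca - Sa) * (Sb - Cb))) = 0 := by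
    ring
  have ce1 : 2 * (Cb - Sb + g * Sb) * (2 * (g * Ca) + Ca - g * Sa - Sa) = 2 * (n * (g * Ca + Ca - Sa) * g) := by
    linear_combination -2 * K3
  have ce3 : 2 * (Cb - Sb + g * Sb) * (2 * (g * Sa) + Sa + g * Ca + Ca) = 2 * (n * (Ca + g * Sa + Sa) * g) + 2 * (n * (Cb + g * Sb)) := by
    linear_combination -2 * (Cb - Sb) * K1 - 2 * g * Sb * K2 + c12 + c21
  rw [c12, c13, c21, c32, c33, ce1, ce3, neg_zero] at hag
  have hPb : |2 * (n * (Ca + g * Sa + Sa) * g) - (60717/10000)| ≤ 1 / 10000 := by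
    have hh : |n * (Ca + g * Sa + Sa) * g - (60717/20000)| ≤ 1 / 20000 := mb bN1 bg (by norm_num)
    obtain ⟨s1, t1⟩ := abs_le.1 hh
    exact abs_le.2 ⟨by linarith only [s1], by linarith only [t1]⟩
  have hEb : |2 * (n * (g * Ca + Ca - Sa) * g) - (68683/10000)| ≤ 1 / 10000 := by
    have hh : |n * (g * Ca + Ca - Sa) * g - (68683/20000)| ≤ 1 / 20000 := mb bN3 bg (by norm_num)
    obtain ⟨s1, t1⟩ := abs_le.1 hh
    exact abs_le.2 ⟨by linarith only [s1], by linarith only [t1]⟩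
  have hQb : |2 * (n * (Cb + g * Sb)) - (5623/2000)| ≤ 1 / 10000 := by
    have hh0 : |Cb + g * Sb - 139070156/100000000| ≤ 1 / 10000000 := by
      obtain ⟨s1, t1⟩ := abs_le.1 bCb
      obtain ⟨s2, t2⟩ := abs_le.1 bgSb
      exact abs_le.2 ⟨by linarith only [s1, s2], by linarith only [t1, t2]⟩
    have hh : |n * (Cb + g * Sb) - (5623/4000)| ≤ 1 / 20000 := mb bn hh0 (by norm_num)
    obtain ⟨s1, t1⟩ := abs_le.1 hh
    exact abs_le.2 ⟨by linarith only [s1], by linarith only [t1]⟩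
  have hlow := low hα hβ hγ hx hy rfl hPb hQb hEb
  rw [← hag] at hlow
  exact fin hα hβ hγ hx hy r0 hρ2 nn1 nn2 nn3 nn4 hm1 hm2 hlow g1 g2 g3 g4

theorem gh_eq {c1 s1 c2 s2 : ℝ} {F1 F2 v : Fin 3 → ℝ} {a1 a2 a3 d1 d2 d3 v1 v2 v3 e1 e2 e3 : ℝ}
    (α β γ x y : ℝ)
    (hA : (RY c2 s2)ᵀ *ᵥ cr F1 F2 = ![a1, a2, a3])
    (hD : (RY c2 s2)ᵀ *ᵥ (F1 - F2) = ![d1, d2, d3]) (hV : RX c1 s1 *ᵥ v = ![v1, v2, v3])
    (h1 : g ^ 2 * d1 = e1) (h2 : g ^ 2 * d2 = e2) (h3 : g ^ 2 * d3 = e3) :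
    Gh c1 s1 c2 s2 F1 F2 v ![α, β, γ] x y =
      Lg (nu * a1 * v1) (nu * a1 * v2) (nu * a1 * v3) (nu * a2 * v1) (nu * a2 * v2) (nu * a2 * v3)
        (nu * a3 * v1) (nu * a3 * v2) (nu * a3 * v3) e1 e2 e3 α β γ x y := by
  unfold Gh
  rw [hA, hD, hV, ← h1, ← h2, ← h3]
  unfold Lg
  simp only [dotProduct, Matrix.mulVec, Rm, cr, Fin.sum_univ_three, Matrix.cons_val_zero,
    Matrix.cons_val_one, Matrix.cons_val, Matrix.of_apply]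
  ring

end PD

theorem polyd : S_POLYD := by
  intro hNU hALG α β γ x y hα hβ hγ hx hy
  obtain ⟨hC1, h1, -, -, -, D1, D2, D3, -, -, nCa, nSa, nCb, nSb⟩ := hALG
  have hg : g ^ 2 = g + 1 := Real.goldenRatio_sq
  have hg0 : (0 : ℝ) < g := Real.goldenRatio_pos
  have hgi : 1 / g = g - 1 := by
    rw [div_eq_iff hg0.ne']
    linear_combination -hg
  have hdiv : ∀ z : ℝ, z / g = z * (g - 1) := by
    intro z
    rw [← hgi]
    ring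
  have hgi2 : 1 / g ^ 2 = (g - 1) ^ 2 := by
    rw [← hgi, _root_.one_div_pow]
  rw [hdiv, hdiv, hgi2] at D1
  rw [hgi, hdiv] at D2
  rw [hdiv, hdiv] at D3
  have bg : |g - 1618033989 / 1000000000| ≤ 1 / 10 ^ 9 := by
    have l5 : (2.2360679774 : ℝ) < Real.sqrt 5 := by
      rw [Real.lt_sqrt (by norm_num)]
      norm_num
    have u5 : Real.sqrt 5 < 2.2360679776 := by
      rw [Real.sqrt_lt' (by norm_num)]
      norm_num
    have hgs : g = (1 + Real.sqrt 5) / 2 := rfl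
    rw [hgs]
    exact abs_le.2 ⟨by norm_num at l5 ⊢; linarith, by norm_num at u5 ⊢; linarith⟩
  have bn : |nu - (202164613/200000000)| ≤ 1 / 10 ^ 8 := by
    have h2 := hNU.2.1
    have h3 := hNU.2.2
    exact abs_le.2 ⟨by norm_num at h2 ⊢; linarith, by norm_num at h3 ⊢; linarith⟩
  have bCa : |Ca - (936230429/1000000000)| ≤ 1 / 10 ^ 9 := by
    obtain ⟨h2, h3⟩ := abs_lt.1 nCa
    exact abs_le.2 ⟨by norm_num at h2 ⊢; linarith, by norm_num at h3 ⊢; linarith⟩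
  have bSa : |Sa - (351386657/1000000000)| ≤ 1 / 10 ^ 9 := by
    obtain ⟨h2, h3⟩ := abs_lt.1 nSa
    exact abs_le.2 ⟨by norm_num at h2 ⊢; linarith, by norm_num at h3 ⊢; linarith⟩
  have bCb : |Cb - (964722279/1000000000)| ≤ 1 / 10 ^ 9 := by
    obtain ⟨h2, h3⟩ := abs_lt.1 nCb
    exact abs_le.2 ⟨by norm_num at h2 ⊢; linarith, by norm_num at h3 ⊢; linarith⟩
  have bSb : |Sb - (263269679/1000000000)| ≤ 1 / 10 ^ 9 := by
    obtain ⟨h2, h3⟩ := abs_lt.1 nSb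
    exact abs_le.2 ⟨by norm_num at h2 ⊢; linarith, by norm_num at h3 ⊢; linarith⟩
  have K1 : nu * g * (g - 1) + nu * (Ca + g * Sa + Sa) * (g * Cb) -
      (2 * (g * Sa) + Sa + g * Ca + Ca) = 0 := by
    linear_combination g * D2 + (-nu * Cb * g * (Ca + Sa) + Ca + Sa * (g + 1)) * hg
  have K2 : nu * g + nu * (Ca + g * Sa + Sa) * (Cb + Sb) -
      (2 * (g * Sa) + Sa + g * Ca + Ca) = 0 := by
    linear_combination K1 - nu * g * D1 + nu * ((Ca + Sa) * ((g - 1) * Cb - Sb) - g) * hg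
  have K3 : nu * (g * Ca + Ca - Sa) * g =
      (Cb - Sb + g * Sb) * (2 * (g * Ca) + Ca - g * Sa - Sa) := by
    linear_combination -g ^ 2 * D3 +
      (nu * g * (Sa - Ca) + (Cb - Sb + g * Sb) * (Ca * (g + 1) - Sa)) * hg
  -- the hats
  have A1 : (RY Ca Sa)ᵀ *ᵥ cr ![0, g, 1] ![-g, 1, 0] =
      ![-(Ca + g * Sa + Sa), -g, g * Ca + Ca - Sa] := by
    funext i
    fin_cases i <;>
    simp only [Matrix.mulVec, dotProduct, Matrix.transpose_apply, RY, cr, Fin.sum_univ_three,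
      Matrix.cons_val_zero, Matrix.cons_val_one, Matrix.cons_val, Matrix.of_apply, Fin.isValue,
      Fin.zero_eta, Fin.mk_one, Fin.reduceFinMk]
    · linear_combination -Sa * hg
    · ring
    · linear_combination Ca * hg
  have A3 : (RY Ca Sa)ᵀ *ᵥ cr ![g, 1, 0] ![0, g, -1] =
      ![-(Ca + g * Sa + Sa), g, g * Ca + Ca - Sa] := by
    funext i
    fin_cases i <;>
    simp only [Matrix.mulVec, dotProduct, Matrix.transpose_apply, RY, cr, Fin.sum_univ_three,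
      Matrix.cons_val_zero, Matrix.cons_val_one, Matrix.cons_val, Matrix.of_apply, Fin.isValue,
      Fin.zero_eta, Fin.mk_one, Fin.reduceFinMk]
    · linear_combination -Sa * hg
    · ring
    · linear_combination Ca * hg
  have E1 : (RY Ca Sa)ᵀ *ᵥ (![0, g, 1] - ![-g, 1, 0]) = ![g * Ca - Sa, g - 1, g * Sa + Ca] := by
    funext i
    fin_cases i <;>
    simp only [Matrix.mulVec, dotProduct, Matrix.transpose_apply, RY, Fin.sum_univ_three,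
      Matrix.cons_val_zero, Matrix.cons_val_one, Matrix.cons_val, Matrix.of_apply, Fin.isValue,
      Fin.zero_eta, Fin.mk_one, Fin.reduceFinMk, Pi.sub_apply] <;> ring
  have E3 : (RY Ca Sa)ᵀ *ᵥ (![g, 1, 0] - ![0, g, -1]) = ![g * Ca - Sa, 1 - g, g * Sa + Ca] := by
    funext i
    fin_cases i <;>
    simp only [Matrix.mulVec, dotProduct, Matrix.transpose_apply, RY, Fin.sum_univ_three,
      Matrix.cons_val_zero, Matrix.cons_val_one, Matrix.cons_val, Matrix.of_apply, Fin.isValue,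
      Fin.zero_eta, Fin.mk_one, Fin.reduceFinMk, Pi.sub_apply] <;> ring
  have V1 : RX Cb Sb *ᵥ ![-1 / g, g, 0] = ![-(g - 1), g * Cb, g * Sb] := by
    funext i
    fin_cases i <;>
    simp only [Matrix.mulVec, dotProduct, RX, Fin.sum_univ_three,
      Matrix.cons_val_zero, Matrix.cons_val_one, Matrix.cons_val, Matrix.of_apply, Fin.isValue,
      Fin.zero_eta, Fin.mk_one, Fin.reduceFinMk, hdiv] <;> ring
  have V2 : RX Cb Sb *ᵥ ![-1, 1, -1] = ![-1, Cb + Sb, Sb - Cb] := by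
    funext i
    fin_cases i <;>
    simp only [Matrix.mulVec, dotProduct, RX, Fin.sum_univ_three,
      Matrix.cons_val_zero, Matrix.cons_val_one, Matrix.cons_val, Matrix.of_apply, Fin.isValue,
      Fin.zero_eta, Fin.mk_one, Fin.reduceFinMk] <;> ring
  have V3 : RX Cb Sb *ᵥ ![1 / g, g, 0] = ![g - 1, g * Cb, g * Sb] := by
    funext i
    fin_cases i <;>
    simp only [Matrix.mulVec, dotProduct, RX, Fin.sum_univ_three,
      Matrix.cons_val_zero, Matrix.cons_val_one, Matrix.cons_val, Matrix.of_apply, Fin.isValue,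
      Fin.zero_eta, Fin.mk_one, Fin.reduceFinMk, hdiv] <;> ring
  have V4 : RX Cb Sb *ᵥ ![1, 1, -1] = ![1, Cb + Sb, Sb - Cb] := by
    funext i
    fin_cases i <;>
    simp only [Matrix.mulVec, dotProduct, RX, Fin.sum_univ_three,
      Matrix.cons_val_zero, Matrix.cons_val_one, Matrix.cons_val, Matrix.of_apply, Fin.isValue,
      Fin.zero_eta, Fin.mk_one, Fin.reduceFinMk] <;> ring
  have q1 : g ^ 2 * (g * Ca - Sa) = 2 * (g * Ca) + Ca - g * Sa - Sa := by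
    linear_combination (Ca * (g + 1) - Sa) * hg
  have q2 : g ^ 2 * (g - 1) = g := by
    linear_combination g * hg
  have q2' : g ^ 2 * (1 - g) = -g := by
    linear_combination -g * hg
  have q3 : g ^ 2 * (g * Sa + Ca) = 2 * (g * Sa) + Sa + g * Ca + Ca := by
    linear_combination (Sa * (g + 1) + Ca) * hg
  by_contra hcon
  push Not at hcon
  obtain ⟨g1, g2, g3, g4⟩ := hcon
  rw [PD.gh_eq α β γ x y A1 E1 V1 q1 q2 q3] at g1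
  rw [PD.gh_eq α β γ x y A1 E1 V2 q1 q2 q3] at g2
  rw [PD.gh_eq α β γ x y A3 E3 V3 q1 q2' q3] at g3
  rw [PD.gh_eq α β γ x y A3 E3 V4 q1 q2' q3] at g4
  refine PD.core (n := nu) hg h1 bg bn bCa bSa bCb bSb K1 K2 K3 hα hβ hγ hx hy ?_ ?_ ?_ ?_
  · refine lt_of_eq_of_lt ?_ g1
    unfold PD.Lg
    ring
  · refine lt_of_eq_of_lt ?_ g2
    unfold PD.Lg
    ring
  · refine lt_of_eq_of_lt ?_ g3
    unfold PD.Lg
    ring
  · refine lt_of_eq_of_lt ?_ g4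
    unfold PD.Lg
    ring

end Pool.Agent.H315.NW
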