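import Pool.Agent.H315.NW.Defs2

/-!
# Project NW (helper315), piece POLYI (helper335): local positivity near the optimum of the
icosahedron
-/

set_option autoImplicit false

namespace Pool.Agent.H315.NW

open Matrix

namespace PolyI

/-- the constraint polynomial in terms of the products of the coordinates of the hats -/
def Gp (xx xy xz yx yy yz zx zy zz hx hy hz α β γ x y : ℝ) : ℝ :=
  xx * (2 * (α * β - γ) - y * (2 * (α * γ + β))) +
  xy * (-(1 + α ^ 2 - β ^ 2 - γ ^ 2) + x * (2 * (α * γ + β))) +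
  xz * (y * (1 + α ^ 2 - β ^ 2 - γ ^ 2) - x * (2 * (α * β - γ))) +
  yx * ((1 - α ^ 2 + β ^ 2 - γ ^ 2) - y * (2 * (β * γ - α))) +
  yy * (-(2 * (α * β + γ)) + x * (2 * (β * γ - α))) +
  yz * (y * (2 * (α * β + γ)) - x * (1 - α ^ 2 + β ^ 2 - γ ^ 2)) +
  zx * (2 * (β * γ + α) - y * (1 - α ^ 2 - β ^ 2 + γ ^ 2)) +
  zy * (-(2 * (α * γ - β)) + x * (1 - α ^ 2 - β ^ 2 + γ ^ 2)) +
  zz * (y * (2 * (α * γ - β)) - x * (2 * (β * γ + α))) -
  hx * (x * (1 + α ^ 2 - β ^ 2 - γ ^ 2) + y * (2 * (α * β - γ)) + 2 * (α * γ + β)) -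
  hy * (x * (2 * (α * β + γ)) + y * (1 - α ^ 2 + β ^ 2 - γ ^ 2) + 2 * (β * γ - α)) -
  hz * (x * (2 * (α * γ - β)) + y * (2 * (β * γ + α)) + (1 - α ^ 2 - β ^ 2 + γ ^ 2))

theorem two {a b m M : ℝ} (_hM : 0 ≤ M) (ha : |a| ≤ m) (hb : |b| ≤ M) :
    -(m * M) ≤ a * b ∧ a * b ≤ m * M := by
  rw [← abs_le, abs_mul]
  exact mul_le_mul ha hb (abs_nonneg b) ((abs_nonneg a).trans ha)

theorem three {a b c m M : ℝ} (hM : 0 ≤ M) (ha : |a| ≤ m) (hb : |b| ≤ m) (hc : |c| ≤ M) :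
    -(m * (m * M)) ≤ a * (b * c) ∧ a * (b * c) ≤ m * (m * M) := by
  have h0 : 0 ≤ m := (abs_nonneg a).trans ha
  exact two (mul_nonneg h0 hM) ha (abs_le.2 (two hM hb hc))

theorem sum12 {w1 w2 w3 w4 w5 w6 w7 w8 w9 w10 w11 w12 : ℝ}
    {e1 e2 e3 e4 e5 e6 e7 e8 e9 e10 e11 e12 : ℝ}
    {b1 b2 b3 b4 b5 b6 b7 b8 b9 b10 b11 b12 m : ℝ} (hm : 0 ≤ m)
    (h1 : |w1| ≤ b1) (h2 : |w2| ≤ b2) (h3 : |w3| ≤ b3) (h4 : |w4| ≤ b4) (h5 : |w5| ≤ b5)
    (h6 : |w6| ≤ b6) (h7 : |w7| ≤ b7) (h8 : |w8| ≤ b8) (h9 : |w9| ≤ b9) (h10 : |w10| ≤ b10)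
    (h11 : |w11| ≤ b11) (h12 : |w12| ≤ b12)
    (k1 : |e1| ≤ 4.005 * m) (k2 : |e2| ≤ 5.005 * m) (k3 : |e3| ≤ 2.005 * m)
    (k4 : |e4| ≤ 5.005 * m) (k5 : |e5| ≤ 4.005 * m) (k6 : |e6| ≤ 2.005 * m)
    (k7 : |e7| ≤ 2.005 * m) (k8 : |e8| ≤ 2.005 * m) (k9 : |e9| ≤ 4.005 * m)
    (k10 : |e10| ≤ 4.005 * m) (k11 : |e11| ≤ 4.005 * m) (k12 : |e12| ≤ 7.005 * m) :
    |w1 * e1 + w2 * e2 + w3 * e3 + w4 * e4 + w5 * e5 + w6 * e6 + w7 * e7 + w8 * e8 + w9 * e9 -
      w10 * e10 - w11 * e11 - w12 * e12| ≤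
    (4.005 * b1 + 5.005 * b2 + 2.005 * b3 + 5.005 * b4 + 4.005 * b5 + 2.005 * b6 +
      2.005 * b7 + 2.005 * b8 + 4.005 * b9 + 4.005 * b10 + 4.005 * b11 + 7.005 * b12) * m := by
  have p1 := two (by positivity) h1 k1
  have p2 := two (by positivity) h2 k2
  have p3 := two (by positivity) h3 k3
  have p4 := two (by positivity) h4 k4
  have p5 := two (by positivity) h5 k5
  have p6 := two (by positivity) h6 k6
  have p7 := two (by positivity) h7 k7
  have p8 := two (by positivity) h8 k8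
  have p9 := two (by positivity) h9 k9
  have p10 := two (by positivity) h10 k10
  have p11 := two (by positivity) h11 k11
  have p12 := two (by positivity) h12 k12
  rw [abs_le]
  constructor
  · linarith only [p1.1, p2.1, p3.1, p4.1, p5.1, p6.1, p7.1, p8.1, p9.1, p10.2, p11.2, p12.2]
  · linarith only [p1.2, p2.2, p3.2, p4.2, p5.2, p6.2, p7.2, p8.2, p9.2, p10.1, p11.1, p12.1]

theorem gp_bound {xx xy xz yx yy yz zx zy zz hx hy hz α β γ x y M : ℝ}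
    {bxx bxy bxz byx byy byz bzx bzy bzz bhx bhy bhz : ℝ}
    (hxx : |xx| ≤ bxx) (hxy : |xy| ≤ bxy) (hxz : |xz| ≤ bxz)
    (hyx : |yx| ≤ byx) (hyy : |yy| ≤ byy) (hyz : |yz| ≤ byz)
    (hzx : |zx| ≤ bzx) (hzy : |zy| ≤ bzy) (hzz : |zz| ≤ bzz)
    (hhx : |hx| ≤ bhx) (hhy : |hy| ≤ bhy) (hhz : |hz| ≤ bhz)
    (hM : 0 ≤ M) (a1 : |α| ≤ M) (b1 : |β| ≤ M) (c1 : |γ| ≤ M) 
    (a2 : |α| ≤ 1 / 1000) (b2 : |β| ≤ 1 / 1000) (c2 : |γ| ≤ 1 / 1000) (x2 : |x| ≤ 1 / 1000)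
    (y2 : |y| ≤ 1 / 1000) (hc : yx - xy - hz = 0) :
    |Gp xx xy xz yx yy yz zx zy zz hx hy hz α β γ x y -
      ((2 * zx + 2 * hy) * α + (2 * zy - 2 * hx) * β + (-2 * (xx + yy)) * γ + (zy - yz - hx) * x +
        (xz - zx - hy) * y)| ≤
    (4.005 * bxx + 5.005 * bxy + 2.005 * bxz + 5.005 * byx + 4.005 * byy + 2.005 * byz +
      2.005 * bzx + 2.005 * bzy + 4.005 * bzz + 4.005 * bhx + 4.005 * bhy + 7.005 * bhz) *
      (M / 1000) := by
  have q1 := two hM a2 a1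
  have q2 := two hM b2 b1
  have q3 := two hM c2 c1
  have q4 := two hM a2 b1
  have q5 := two hM a2 c1
  have q6 := two hM b2 c1
  have q7 := two hM x2 a1
  have q8 := two hM x2 b1
  have q9 := two hM x2 c1
  have q10 := two hM y2 a1
  have q11 := two hM y2 b1
  have q12 := two hM y2 c1
  have t1 := three hM x2 a2 a1
  have t2 := three hM x2 b2 b1
  have t3 := three hM x2 c2 c1
  have t4 := three hM x2 a2 b1
  have t5 := three hM x2 a2 c1
  have t6 := three hM x2 b2 c1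
  have t7 := three hM y2 a2 a1
  have t8 := three hM y2 b2 b1
  have t9 := three hM y2 c2 c1
  have t10 := three hM y2 a2 b1
  have t11 := three hM y2 a2 c1
  have t12 := three hM y2 b2 c1
  have exx : |2 * (α * β) - 2 * (y * β) - 2 * (y * (α * γ))| ≤ 4.005 * (M / 1000) := by
    rw [abs_le]; constructor <;> linarith only [q4.1, q4.2, q11.1, q11.2, t11.1, t11.2]
  have exy : |-(α * α) + β * β + γ * γ + 2 * (x * β) + 2 * (x * (α * γ))| ≤
      5.005 * (M / 1000) := by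
    rw [abs_le]; constructor <;>
      linarith only [q1.1, q1.2, q2.1, q2.2, q3.1, q3.2, q8.1, q8.2, t5.1, t5.2]
  have exz : |2 * (x * γ) + (y * (α * α) - y * (β * β) - y * (γ * γ)) - 2 * (x * (α * β))| ≤
      2.005 * (M / 1000) := by
    rw [abs_le]; constructor <;>
      linarith only [q9.1, q9.2, t7.1, t7.2, t8.1, t8.2, t9.1, t9.2, t4.1, t4.2]
  have eyx : |-(α * α) + β * β - γ * γ + 2 * (y * α) - 2 * (y * (β * γ))| ≤
      5.005 * (M / 1000) := by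
    rw [abs_le]; constructor <;>
      linarith only [q1.1, q1.2, q2.1, q2.2, q3.1, q3.2, q10.1, q10.2, t12.1, t12.2]
  have eyy : |-(2 * (α * β)) - 2 * (x * α) + 2 * (x * (β * γ))| ≤ 4.005 * (M / 1000) := by
    rw [abs_le]; constructor <;> linarith only [q4.1, q4.2, q7.1, q7.2, t6.1, t6.2]
  have eyz : |2 * (y * γ) + 2 * (y * (α * β)) + (x * (α * α) - x * (β * β) + x * (γ * γ))| ≤
      2.005 * (M / 1000) := by
    rw [abs_le]; constructor <;>
      linarith only [q12.1, q12.2, t10.1, t10.2, t1.1, t1.2, t2.1, t2.2, t3.1, t3.2]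
  have ezx : |2 * (β * γ) + (y * (α * α) + y * (β * β) - y * (γ * γ))| ≤ 2.005 * (M / 1000) := by
    rw [abs_le]; constructor <;>
      linarith only [q6.1, q6.2, t7.1, t7.2, t8.1, t8.2, t9.1, t9.2]
  have ezy : |-(2 * (α * γ)) + (x * (γ * γ) - x * (α * α) - x * (β * β))| ≤
      2.005 * (M / 1000) := by
    rw [abs_le]; constructor <;>
      linarith only [q5.1, q5.2, t1.1, t1.2, t2.1, t2.2, t3.1, t3.2]
  have ezz : |-(2 * (y * β)) - 2 * (x * α) + 2 * (y * (α * γ)) - 2 * (x * (β * γ))| ≤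
      4.005 * (M / 1000) := by
    rw [abs_le]; constructor <;>
      linarith only [q11.1, q11.2, q7.1, q7.2, t11.1, t11.2, t6.1, t6.2]
  have erx : |-(2 * (y * γ)) + 2 * (α * γ) + (x * (α * α) - x * (β * β) - x * (γ * γ)) +
      2 * (y * (α * β))| ≤ 4.005 * (M / 1000) := by
    rw [abs_le]; constructor <;>
      linarith only [q12.1, q12.2, q5.1, q5.2, t1.1, t1.2, t2.1, t2.2, t3.1, t3.2, t10.1, t10.2]
  have ery : |2 * (x * γ) + 2 * (β * γ) + 2 * (x * (α * β)) +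
      (-(y * (α * α)) + y * (β * β) - y * (γ * γ))| ≤ 4.005 * (M / 1000) := by
    rw [abs_le]; constructor <;>
      linarith only [q9.1, q9.2, q6.1, q6.2, t7.1, t7.2, t8.1, t8.2, t9.1, t9.2, t4.1, t4.2]
  have erz : |-(α * α) - β * β + γ * γ - 2 * (x * β) + 2 * (y * α) + 2 * (x * (α * γ)) +
      2 * (y * (β * γ))| ≤ 7.005 * (M / 1000) := by
    rw [abs_le]; constructor <;>
      linarith only [q1.1, q1.2, q2.1, q2.2, q3.1, q3.2, q8.1, q8.2, q10.1, q10.2, t5.1, t5.2,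
        t12.1, t12.2]
  have hM' : 0 ≤ M / 1000 := div_nonneg hM (by norm_num)
  have key : Gp xx xy xz yx yy yz zx zy zz hx hy hz α β γ x y -
      ((2 * zx + 2 * hy) * α + (2 * zy - 2 * hx) * β + (-2 * (xx + yy)) * γ + (zy - yz - hx) * x +
        (xz - zx - hy) * y) =
      xx * (2 * (α * β) - 2 * (y * β) - 2 * (y * (α * γ))) +
      xy * (-(α * α) + β * β + γ * γ + 2 * (x * β) + 2 * (x * (α * γ))) +
      xz * (2 * (x * γ) + (y * (α * α) - y * (β * β) - y * (γ * γ)) - 2 * (x * (α * β))) +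
      yx * (-(α * α) + β * β - γ * γ + 2 * (y * α) - 2 * (y * (β * γ))) +
      yy * (-(2 * (α * β)) - 2 * (x * α) + 2 * (x * (β * γ))) +
      yz * (2 * (y * γ) + 2 * (y * (α * β)) + (x * (α * α) - x * (β * β) + x * (γ * γ))) +
      zx * (2 * (β * γ) + (y * (α * α) + y * (β * β) - y * (γ * γ))) +
      zy * (-(2 * (α * γ)) + (x * (γ * γ) - x * (α * α) - x * (β * β))) +
      zz * (-(2 * (y * β)) - 2 * (x * α) + 2 * (y * (α * γ)) - 2 * (x * (β * γ))) -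
      hx * (-(2 * (y * γ)) + 2 * (α * γ) + (x * (α * α) - x * (β * β) - x * (γ * γ)) +
        2 * (y * (α * β))) -
      hy * (2 * (x * γ) + 2 * (β * γ) + 2 * (x * (α * β)) +
        (-(y * (α * α)) + y * (β * β) - y * (γ * γ))) -
      hz * (-(α * α) - β * β + γ * γ - 2 * (x * β) + 2 * (y * α) + 2 * (x * (α * γ)) +
        2 * (y * (β * γ))) := by
    unfold Gp
    linear_combination hc
  rw [key]
  exact sum12 hM' hxx hxy hxz hyx hyy hyz hzx hzy hzz hhx hhy hhz exx exy exz eyx eyy eyz ezx ezy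
    ezz erx ery erz

theorem mulI {a b al ah bl bh : ℝ} (lo hi : ℝ) (ha : al ≤ a ∧ a ≤ ah) (hb : bl ≤ b ∧ b ≤ bh)
    (h0 : 0 ≤ al) (h1 : 0 ≤ bl) (h2 : lo ≤ al * bl) (h3 : ah * bh ≤ hi) :
    lo ≤ a * b ∧ a * b ≤ hi :=
  ⟨h2.trans (mul_le_mul ha.1 hb.1 h1 (h0.trans ha.1)),
    (mul_le_mul ha.2 hb.2 (h1.trans hb.1) (h0.trans (ha.1.trans ha.2))).trans h3⟩

theorem absP {a lo hi b : ℝ} (h : lo ≤ a ∧ a ≤ hi) (h0 : 0 ≤ lo) (h1 : hi ≤ b) : |a| ≤ b := by
  rw [abs_of_nonneg (h0.trans h.1)]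
  exact h.2.trans h1

theorem absN {a lo hi b : ℝ} (h : lo ≤ a ∧ a ≤ hi) (h0 : 0 ≤ lo) (h1 : hi ≤ b) : |(-a)| ≤ b := by
  rw [abs_neg]
  exact absP h h0 h1

theorem step {G l1 l2 l3 l4 l5 L1 L2 L3 L4 L5 α β γ x y M B : ℝ} (hM : 0 ≤ M)
    (h : |G - (l1 * α + l2 * β + l3 * γ + l4 * x + l5 * y)| ≤ B * (M / 1000)) (hB : B ≤ 65.5)
    (e1 : |l1 - L1| ≤ 1 / 10000) (e2 : |l2 - L2| ≤ 1 / 10000) (e3 : |l3 - L3| ≤ 1 / 10000)
    (e4 : |l4 - L4| ≤ 1 / 10000) (e5 : |l5 - L5| ≤ 1 / 10000)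
    (a1 : |α| ≤ M) (b1 : |β| ≤ M) (c1 : |γ| ≤ M) (x1 : |x| ≤ M) (y1 : |y| ≤ M) :
    |G - (L1 * α + L2 * β + L3 * γ + L4 * x + L5 * y)| ≤ 0.066 * M := by
  have h' : |G - (l1 * α + l2 * β + l3 * γ + l4 * x + l5 * y)| ≤ 65.5 * (M / 1000) :=
    h.trans (mul_le_mul_of_nonneg_right hB (div_nonneg hM (by norm_num)))
  have p1 := two hM e1 a1
  have p2 := two hM e2 b1
  have p3 := two hM e3 c1
  have p4 := two hM e4 x1
  have p5 := two hM e5 y1
  have h2 := abs_le.1 h'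
  rw [abs_le]
  constructor
  · linarith only [h2.1, p1.1, p2.1, p3.1, p4.1, p5.1]
  · linarith only [h2.2, p1.2, p2.2, p3.2, p4.2, p5.2]

theorem sos (α β γ x y : ℝ) : α ^ 2 + β ^ 2 + γ ^ 2 + x ^ 2 + y ^ 2 ≤
    4 * (1.4058 * (α ^ 2 - γ ^ 2 - α * y) + 3.0359 * (β ^ 2 - γ ^ 2 + β * x) +
      1.3117 * (γ * y - 2 * (α * γ))) +
    20 * (((0.6235) * α + (-1.1737) * β + (1.6621) * γ + (0.9444) * x + (0.5017) * y) ^ 2 +
      ((-0.3786) * α + (0.7128) * β + (-3.2176) * γ + (-0.5735) * x + (-0.3047) * y) ^ 2 +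
      ((0.3786) * α + (0.7128) * β + (3.2176) * γ + (1.2863) * x + (-0.6833) * y) ^ 2 +
      ((-0.6235) * α + (-1.1737) * β + (-1.6621) * γ + (-2.1181) * x + (1.1251) * y) ^ 2) := by
  linarith only [sq_nonneg (α + 3.3104 * γ + 2.0373 * x - 0.5243 * y),
    sq_nonneg (β + 0.5072 * x - 0.6056 * y), sq_nonneg (γ + 0.2159 * x + 0.0092 * y),
    sq_nonneg (x + 0.1768 * y), sq_nonneg α, sq_nonneg β, sq_nonneg γ, sq_nonneg x, sq_nonneg y,
    sq_nonneg (α + β), sq_nonneg (α + γ), sq_nonneg (α + x), sq_nonneg (α + y),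
    sq_nonneg (β + γ), sq_nonneg (β + x), sq_nonneg (β + y), sq_nonneg (γ + x),
    sq_nonneg (γ + y), sq_nonneg (x + y), sq_nonneg (α - β), sq_nonneg (α - γ),
    sq_nonneg (α - x), sq_nonneg (α - y), sq_nonneg (β - γ), sq_nonneg (β - x),
    sq_nonneg (β - y), sq_nonneg (γ - x), sq_nonneg (γ - y), sq_nonneg (x - y)]

theorem fin {G1 G2 G3 G4 m1 m2 α β γ x y M K1 K2 K4 : ℝ} (hM : 0 ≤ M)
    (hMS : M ^ 2 = α ^ 2 + β ^ 2 + γ ^ 2 + x ^ 2 + y ^ 2)
    (a1 : |α| ≤ M) (b1 : |β| ≤ M) (c1 : |γ| ≤ M) (x1 : |x| ≤ M) (y1 : |y| ≤ M)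
    (a2 : |α| ≤ 1 / 1000) (b2 : |β| ≤ 1 / 1000) (c2 : |γ| ≤ 1 / 1000) (x2 : |x| ≤ 1 / 1000)
    (y2 : |y| ≤ 1 / 1000)
    (h1 : |G1 - ((0.6235) * α + (-1.1737) * β + (1.6621) * γ + (0.9444) * x + (0.5017) * y)| ≤ 0.066 * M)
    (h2 : |G2 - ((-0.3786) * α + (0.7128) * β + (-3.2176) * γ + (-0.5735) * x + (-0.3047) * y)| ≤ 0.066 * M)
    (h3 : |G3 - ((0.3786) * α + (0.7128) * β + (3.2176) * γ + (1.2863) * x + (-0.6833) * y)| ≤ 0.066 * M)
    (h4 : |G4 - ((-0.6235) * α + (-1.1737) * β + (-1.6621) * γ + (-2.1181) * x + (1.1251) * y)| ≤ 0.066 * M)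
    (hm1 : 0.56 ≤ m1) (hm2 : 0.56 ≤ m2)
    (hk1 : |K1 - 1.4058| ≤ 1 / 10000) (hk2 : |K2 - 3.0359| ≤ 1 / 10000)
    (hk4 : |K4 - 1.3117| ≤ 1 / 10000)
    (hF : m1 * (G1 + G4) + m2 * (G2 + G3) =
      4 * (K1 * (α ^ 2 - γ ^ 2 - α * y) + K2 * (β ^ 2 - γ ^ 2 + β * x) +
        K4 * (γ * y - 2 * (α * γ))) - 4 * (2 * K1 + K2) * (x * (α * γ)) -
      4 * (K1 + 2 * K2) * (y * (β * γ)) + 4 * K4 * (x * (γ ^ 2 - α ^ 2)) -
      4 * K4 * (y * (α * β)))
    (n1 : G1 < 0) (n2 : G2 < 0) (n3 : G3 < 0) (n4 : G4 < 0) : False := by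
  have a3 := abs_le.1 a2
  have b3 := abs_le.1 b2
  have c3 := abs_le.1 c2
  have x3 := abs_le.1 x2
  have y3 := abs_le.1 y2
  have sqb : ∀ z : ℝ, |z| ≤ 1 / 1000 → z ^ 2 ≤ 1 / 1000000 := by
    intro z hz
    have h := two (by norm_num) hz hz
    have e : z ^ 2 = z * z := by ring
    rw [e]
    linarith only [h.2]
  have hMle : M ≤ 1 / 400 := by
    by_contra hc
    have hc' : 1 / 400 < M := not_le.1 hc
    have h5 : (1 / 400 : ℝ) * (1 / 400) < M * M := mul_lt_mul'' hc' hc' (by norm_num) (by norm_num)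
    have e : M * M = α ^ 2 + β ^ 2 + γ ^ 2 + x ^ 2 + y ^ 2 := by rw [← hMS]; ring
    linarith only [h5, e, sqb α a2, sqb β b2, sqb γ c2, sqb x x2, sqb y y2]
  have g1 := abs_le.1 h1
  have g2 := abs_le.1 h2
  have g3 := abs_le.1 h3
  have g4 := abs_le.1 h4
  have u1 : -0.01 ≤ G1 := by
    linarith only [g1.1, hMle, hM, a3.1, a3.2, b3.1, b3.2, c3.1, c3.2, x3.1, x3.2, y3.1, y3.2]
  have u2 : -0.01 ≤ G2 := by
    linarith only [g2.1, hMle, hM, a3.1, a3.2, b3.1, b3.2, c3.1, c3.2, x3.1, x3.2, y3.1, y3.2]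
  have u3 : -0.01 ≤ G3 := by
    linarith only [g3.1, hMle, hM, a3.1, a3.2, b3.1, b3.2, c3.1, c3.2, x3.1, x3.2, y3.1, y3.2]
  have u4 : -0.01 ≤ G4 := by
    linarith only [g4.1, hMle, hM, a3.1, a3.2, b3.1, b3.2, c3.1, c3.2, x3.1, x3.2, y3.1, y3.2]
  have v1 : (m1 + 40 * G1) * G1 ≤ 0 :=
    mul_nonpos_of_nonneg_of_nonpos (by linarith only [hm1, u1]) n1.le
  have v2 : (m2 + 40 * G2) * G2 ≤ 0 :=
    mul_nonpos_of_nonneg_of_nonpos (by linarith only [hm2, u2]) n2.le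
  have v3 : (m2 + 40 * G3) * G3 ≤ 0 :=
    mul_nonpos_of_nonneg_of_nonpos (by linarith only [hm2, u3]) n3.le
  have v4 : (m1 + 40 * G4) * G4 ≤ 0 :=
    mul_nonpos_of_nonneg_of_nonpos (by linarith only [hm1, u4]) n4.le
  have key : ∀ G l : ℝ, |G - l| ≤ 0.066 * M → 20 * l ^ 2 - 0.1743 * M ^ 2 ≤ 40 * G ^ 2 := by
    intro G l h
    have h5 : (G - l) * (G - l) ≤ (0.066 * M) * (0.066 * M) :=
      (two (by positivity) h h).2
    nlinarith only [h5, sq_nonneg (2 * G - l), sq_nonneg M]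
  have w1 := key _ _ h1
  have w2 := key _ _ h2
  have w3 := key _ _ h3
  have w4 := key _ _ h4
  have s0 := sos α β γ x y
  rw [← hMS] at s0
  have hS0 : 0 ≤ M ^ 2 := sq_nonneg M
  have z1 : |α ^ 2 - γ ^ 2 - α * y| ≤ 2 * M ^ 2 := by
    rw [hMS, abs_le]
    constructor <;> nlinarith only [sq_nonneg (α + y), sq_nonneg (α - y), sq_nonneg α, sq_nonneg β,
      sq_nonneg γ, sq_nonneg x, sq_nonneg y]
  have z2 : |β ^ 2 - γ ^ 2 + β * x| ≤ 2 * M ^ 2 := by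
    rw [hMS, abs_le]
    constructor <;> nlinarith only [sq_nonneg (β + x), sq_nonneg (β - x), sq_nonneg α, sq_nonneg β,
      sq_nonneg γ, sq_nonneg x, sq_nonneg y]
  have z3 : |γ * y - 2 * (α * γ)| ≤ 2 * M ^ 2 := by
    rw [hMS, abs_le]
    constructor <;> nlinarith only [sq_nonneg (γ + y), sq_nonneg (γ - y), sq_nonneg (α + γ),
      sq_nonneg (α - γ), sq_nonneg α, sq_nonneg β, sq_nonneg γ, sq_nonneg x, sq_nonneg y]
  have z4 : |α * γ| ≤ M ^ 2 := by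
    rw [hMS, abs_le]
    constructor <;> nlinarith only [sq_nonneg (α + γ), sq_nonneg (α - γ), sq_nonneg β, sq_nonneg x,
      sq_nonneg y]
  have z5 : |β * γ| ≤ M ^ 2 := by
    rw [hMS, abs_le]
    constructor <;> nlinarith only [sq_nonneg (β + γ), sq_nonneg (β - γ), sq_nonneg α, sq_nonneg x,
      sq_nonneg y]
  have z6 : |α * β| ≤ M ^ 2 := by
    rw [hMS, abs_le]
    constructor <;> nlinarith only [sq_nonneg (α + β), sq_nonneg (α - β), sq_nonneg γ, sq_nonneg x,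
      sq_nonneg y]
  have z7 : |γ ^ 2 - α ^ 2| ≤ M ^ 2 := by
    rw [hMS, abs_le]
    constructor <;> linarith only [sq_nonneg α, sq_nonneg β, sq_nonneg γ, sq_nonneg x, sq_nonneg y]
  have y4 := two (by positivity) hk1 z1
  have y5 := two (by positivity) hk2 z2
  have y6 := two (by positivity) hk4 z3
  have k5 := abs_le.1 hk1
  have k6 := abs_le.1 hk2
  have k7 := abs_le.1 hk4
  have c4 := two hS0 x2 z4
  have c5 := two hS0 y2 z5
  have c6 := two hS0 x2 z7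
  have c7 := two hS0 y2 z6
  have d1 : |4 * (2 * K1 + K2)| ≤ 24 := by
    rw [abs_le]; constructor <;> linarith only [k5.1, k5.2, k6.1, k6.2]
  have d2 : |4 * (K1 + 2 * K2)| ≤ 30 := by
    rw [abs_le]; constructor <;> linarith only [k5.1, k5.2, k6.1, k6.2]
  have d3 : |4 * K4| ≤ 6 := by
    rw [abs_le]; constructor <;> linarith only [k7.1, k7.2]
  have f1 := two (by positivity) d1 (abs_le.2 c4)
  have f2 := two (by positivity) d2 (abs_le.2 c5)
  have f3 := two (by positivity) d3 (abs_le.2 c6)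
  have f4 := two (by positivity) d3 (abs_le.2 c7)
  have hlow : 4 * (1.4058 * (α ^ 2 - γ ^ 2 - α * y) + 3.0359 * (β ^ 2 - γ ^ 2 + β * x) +
      1.3117 * (γ * y - 2 * (α * γ))) - 0.07 * M ^ 2 ≤ m1 * (G1 + G4) + m2 * (G2 + G3) := by
    rw [hF]
    linarith only [y4.1, y5.1, y6.1, f1.2, f2.2, f3.1, f4.2, hS0]
  have hM2 : M ^ 2 ≤ 0 := by
    linarith only [v1, v2, v3, v4, w1, w2, w3, w4, s0, hlow, hS0]
  have hM0 : M = 0 := by
    have := le_antisymm hM2 hS0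
    exact pow_eq_zero_iff (two_ne_zero) |>.1 this
  rw [hM0] at a1 b1 c1 x1 y1
  have a4 : α = 0 := abs_eq_zero.1 (le_antisymm a1 (abs_nonneg α))
  have b4 : β = 0 := abs_eq_zero.1 (le_antisymm b1 (abs_nonneg β))
  have c4' : γ = 0 := abs_eq_zero.1 (le_antisymm c1 (abs_nonneg γ))
  have x4 : x = 0 := abs_eq_zero.1 (le_antisymm x1 (abs_nonneg x))
  have y4' : y = 0 := abs_eq_zero.1 (le_antisymm y1 (abs_nonneg y))
  have g5 := g1.1
  rw [a4, b4, c4', x4, y4', hM0] at g5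
  linarith only [g5, n1]

theorem Fid {ν g C S Y Z P R α β γ x y : ℝ} (hA : C ^ 2 + S ^ 2 = 1)
    (hB : (g * S + C) * P = ν * Z * g)
    (hK : (g * S + C) * R = ν * Y * g + (ν * g * g * S * g + ν * g * C)) :
    g * S * (Gp (-(ν * Y * g)) (-(ν * Y * S)) (ν * Y * C) (ν * g * g) (ν * g * S) (-(ν * g * C)) (ν * Z * g) (ν * Z * S) (-(ν * Z * C)) P (-1) R α β γ x y +
      Gp (ν * Y * g) (-(ν * Y * S)) (ν * Y * C) (ν * g * g) (-(ν * g * S)) (ν * g * C) (-(ν * Z * g)) (ν * Z * S) (-(ν * Z * C)) P (1) R α β γ x y) +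
    C * (Gp (-(ν * Y)) (-(ν * Y * g * C)) (-(ν * Y * g * S)) (ν * g) (ν * g * g * C) (ν * g * g * S) (ν * Z) (ν * Z * g * C) (ν * Z * g * S) P (-1) R α β γ x y +
      Gp (ν * Y) (-(ν * Y * g * C)) (-(ν * Y * g * S)) (ν * g) (-(ν * g * g * C)) (-(ν * g * g * S)) (-(ν * Z)) (ν * Z * g * C) (ν * Z * g * S) P (1) R α β γ x y) =
      4 * ((ν * Y * g) * (α ^ 2 - γ ^ 2 - α * y) + (ν * g * g * S * g + ν * g * C) * (β ^ 2 - γ ^ 2 + β * x) +
        (ν * Z * g) * (γ * y - 2 * (α * γ))) - 4 * (2 * (ν * Y * g) + (ν * g * g * S * g + ν * g * C)) * (x * (α * γ)) -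
      4 * ((ν * Y * g) + 2 * (ν * g * g * S * g + ν * g * C)) * (y * (β * γ)) + 4 * (ν * Z * g) * (x * (γ ^ 2 - α ^ 2)) -
      4 * (ν * Z * g) * (y * (α * β)) := by
  unfold Gp
  linear_combination (2 * (-(ν * g * Y) * (-(1 + α ^ 2 - β ^ 2 - γ ^ 2) + x * (2 * (α * γ + β))) +
    ν * g * Z * (-(2 * (α * γ - β)) + x * (1 - α ^ 2 - β ^ 2 + γ ^ 2)))) * hA -
    2 * (x * (1 + α ^ 2 - β ^ 2 - γ ^ 2) + y * (2 * (α * β - γ)) + 2 * (α * γ + β)) * hB -
    2 * (x * (2 * (α * γ - β)) + y * (2 * (β * γ + α)) + (1 - α ^ 2 - β ^ 2 + γ ^ 2)) * hK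

theorem core {ν g C S Y Z P R α β γ x y : ℝ}
    (hn : 1.0108229 ≤ ν ∧ ν ≤ 1.0108232) (hg : 1.6180338 ≤ g ∧ g ≤ 1.6180341)
    (hC : 0.9362303 ≤ C ∧ C ≤ 0.9362306) (hS : 0.3513865 ≤ S ∧ S ≤ 0.3513868)
    (hY : 0.8595007 ≤ Y ∧ Y ≤ 0.8595010) (hZ : 0.8020125 ≤ Z ∧ Z ≤ 0.8020128)
    (hP : 0.87170 ≤ P ∧ P ≤ 0.87171) (hR : 2.95165 ≤ R ∧ R ≤ 2.95166)
    (hA : C ^ 2 + S ^ 2 = 1) (r1 : ν * g * g + ν * Y * S = R) (r2 : ν * g + ν * Y * g * C = R)
    (hB : (g * S + C) * P = ν * Z * g)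
    (hK : (g * S + C) * R = ν * Y * g + (ν * g * g * S * g + ν * g * C))
    (a2 : |α| ≤ 1 / 1000) (b2 : |β| ≤ 1 / 1000) (c2 : |γ| ≤ 1 / 1000) (x2 : |x| ≤ 1 / 1000)
    (y2 : |y| ≤ 1 / 1000) :
    0 ≤ Gp (-(ν * Y * g)) (-(ν * Y * S)) (ν * Y * C) (ν * g * g) (ν * g * S) (-(ν * g * C)) (ν * Z * g) (ν * Z * S) (-(ν * Z * C)) P (-1) R α β γ x y ∨
    0 ≤ Gp (-(ν * Y)) (-(ν * Y * g * C)) (-(ν * Y * g * S)) (ν * g) (ν * g * g * C) (ν * g * g * S) (ν * Z) (ν * Z * g * C) (ν * Z * g * S) P (-1) R α β γ x y ∨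
    0 ≤ Gp (ν * Y) (-(ν * Y * g * C)) (-(ν * Y * g * S)) (ν * g) (-(ν * g * g * C)) (-(ν * g * g * S)) (-(ν * Z)) (ν * Z * g * C) (ν * Z * g * S) P (1) R α β γ x y ∨
    0 ≤ Gp (ν * Y * g) (-(ν * Y * S)) (ν * Y * C) (ν * g * g) (-(ν * g * S)) (ν * g * C) (-(ν * Z * g)) (ν * Z * S) (-(ν * Z * C)) P (1) R α β γ x y := by
  have i_nY := mulI 0.868802 0.868804 hn hY (by norm_num) (by norm_num) (by norm_num) (by norm_num)
  have i_ng := mulI 1.635545 1.635547 hn hg (by norm_num) (by norm_num) (by norm_num) (by norm_num)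
  have i_nZ := mulI 0.810692 0.810694 hn hZ (by norm_num) (by norm_num) (by norm_num) (by norm_num)
  have i_nYg := mulI 1.405750 1.405755 i_nY hg (by norm_num) (by norm_num) (by norm_num) (by norm_num)
  have i_nYS := mulI 0.305285 0.305287 i_nY hS (by norm_num) (by norm_num) (by norm_num) (by norm_num)
  have i_nYC := mulI 0.813398 0.813401 i_nY hC (by norm_num) (by norm_num) (by norm_num) (by norm_num)
  have i_ngg := mulI 2.646367 2.646371 i_ng hg (by norm_num) (by norm_num) (by norm_num) (by norm_num)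
  have i_ngS := mulI 0.574708 0.574710 i_ng hS (by norm_num) (by norm_num) (by norm_num) (by norm_num)
  have i_ngC := mulI 1.531246 1.531250 i_ng hC (by norm_num) (by norm_num) (by norm_num) (by norm_num)
  have i_nZg := mulI 1.311727 1.311731 i_nZ hg (by norm_num) (by norm_num) (by norm_num) (by norm_num)
  have i_nZS := mulI 0.284866 0.284868 i_nZ hS (by norm_num) (by norm_num) (by norm_num) (by norm_num)
  have i_nZC := mulI 0.758994 0.758997 i_nZ hC (by norm_num) (by norm_num) (by norm_num) (by norm_num)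
  have i_nYgC := mulI 1.316105 1.316111 i_nYg hC (by norm_num) (by norm_num) (by norm_num) (by norm_num)
  have i_nYgS := mulI 0.493961 0.493964 i_nYg hS (by norm_num) (by norm_num) (by norm_num) (by norm_num)
  have i_nggC := mulI 2.477608 2.477614 i_ngg hC (by norm_num) (by norm_num) (by norm_num) (by norm_num)
  have i_nggS := mulI 0.929897 0.929900 i_ngg hS (by norm_num) (by norm_num) (by norm_num) (by norm_num)
  have i_nZgC := mulI 1.228078 1.228083 i_nZg hC (by norm_num) (by norm_num) (by norm_num) (by norm_num)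
  have i_nZgS := mulI 0.460923 0.460925 i_nZg hS (by norm_num) (by norm_num) (by norm_num) (by norm_num)
  have i_nggSg := mulI 1.504604 1.504610 i_nggS hg (by norm_num) (by norm_num) (by norm_num) (by norm_num)
  have hS0 : 0 ≤ α ^ 2 + β ^ 2 + γ ^ 2 + x ^ 2 + y ^ 2 := by positivity
  obtain ⟨M, hM, hMS⟩ : ∃ M : ℝ, 0 ≤ M ∧ M ^ 2 = α ^ 2 + β ^ 2 + γ ^ 2 + x ^ 2 + y ^ 2 :=
    ⟨Real.sqrt _, Real.sqrt_nonneg _, Real.sq_sqrt hS0⟩
  have a1 : |α| ≤ M := abs_le_of_sq_le_sq (by rw [hMS]; linarith only [sq_nonneg β, sq_nonneg γ, sq_nonneg x, sq_nonneg y]) hM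
  have b1 : |β| ≤ M := abs_le_of_sq_le_sq (by rw [hMS]; linarith only [sq_nonneg α, sq_nonneg γ, sq_nonneg x, sq_nonneg y]) hM
  have c1 : |γ| ≤ M := abs_le_of_sq_le_sq (by rw [hMS]; linarith only [sq_nonneg α, sq_nonneg β, sq_nonneg x, sq_nonneg y]) hM
  have x1 : |x| ≤ M := abs_le_of_sq_le_sq (by rw [hMS]; linarith only [sq_nonneg α, sq_nonneg β, sq_nonneg γ, sq_nonneg y]) hM
  have y1 : |y| ≤ M := abs_le_of_sq_le_sq (by rw [hMS]; linarith only [sq_nonneg α, sq_nonneg β, sq_nonneg γ, sq_nonneg x]) hM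
  have h1 := step (L1 := 0.6235) (L2 := -1.1737) (L3 := 1.6621) (L4 := 0.9444) (L5 := 0.5017) hM
    (gp_bound (absN i_nYg (b := 1.4058) (by norm_num) (by norm_num))
      (absN i_nYS (b := 0.3053) (by norm_num) (by norm_num))
      (absP i_nYC (b := 0.8135) (by norm_num) (by norm_num))
      (absP i_ngg (b := 2.6464) (by norm_num) (by norm_num))
      (absP i_ngS (b := 0.5748) (by norm_num) (by norm_num))
      (absN i_ngC (b := 1.5313) (by norm_num) (by norm_num))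
      (absP i_nZg (b := 1.3118) (by norm_num) (by norm_num))
      (absP i_nZS (b := 0.2849) (by norm_num) (by norm_num))
      (absN i_nZC (b := 0.7590) (by norm_num) (by norm_num))
      (absP hP (b := 0.8718) (by norm_num) (by norm_num))
      (show |(-1 : ℝ)| ≤ 1 by norm_num)
      (absP hR (b := 2.9517) (by norm_num) (by norm_num))
      hM a1 b1 c1 a2 b2 c2 x2 y2 (by linarith only [r1])) (by norm_num)
    (by rw [abs_le]; constructor <;> linarith only [i_nZg.1, i_nZg.2])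
    (by rw [abs_le]; constructor <;> linarith only [i_nZS.1, i_nZS.2, hP.1, hP.2])
    (by rw [abs_le]; constructor <;> linarith only [i_nYg.1, i_nYg.2, i_ngS.1, i_ngS.2])
    (by rw [abs_le]; constructor <;> linarith only [i_nZS.1, i_nZS.2, i_ngC.1, i_ngC.2, hP.1, hP.2])
    (by rw [abs_le]; constructor <;> linarith only [i_nYC.1, i_nYC.2, i_nZg.1, i_nZg.2])
    a1 b1 c1 x1 y1
  have h2 := step (L1 := -0.3786) (L2 := 0.7128) (L3 := -3.2176) (L4 := -0.5735) (L5 := -0.3047) hM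
    (gp_bound (absN i_nY (b := 0.8689) (by norm_num) (by norm_num))
      (absN i_nYgC (b := 1.3162) (by norm_num) (by norm_num))
      (absN i_nYgS (b := 0.4940) (by norm_num) (by norm_num))
      (absP i_ng (b := 1.6356) (by norm_num) (by norm_num))
      (absP i_nggC (b := 2.4777) (by norm_num) (by norm_num))
      (absP i_nggS (b := 0.9299) (by norm_num) (by norm_num))
      (absP i_nZ (b := 0.8107) (by norm_num) (by norm_num))
      (absP i_nZgC (b := 1.2281) (by norm_num) (by norm_num))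
      (absP i_nZgS (b := 0.4610) (by norm_num) (by norm_num))
      (absP hP (b := 0.8718) (by norm_num) (by norm_num))
      (show |(-1 : ℝ)| ≤ 1 by norm_num)
      (absP hR (b := 2.9517) (by norm_num) (by norm_num))
      hM a1 b1 c1 a2 b2 c2 x2 y2 (by linarith only [r2])) (by norm_num)
    (by rw [abs_le]; constructor <;> linarith only [i_nZ.1, i_nZ.2])
    (by rw [abs_le]; constructor <;> linarith only [i_nZgC.1, i_nZgC.2, hP.1, hP.2])
    (by rw [abs_le]; constructor <;> linarith only [i_nY.1, i_nY.2, i_nggC.1, i_nggC.2])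
    (by rw [abs_le]; constructor <;> linarith only [i_nZgC.1, i_nZgC.2, i_nggS.1, i_nggS.2, hP.1, hP.2])
    (by rw [abs_le]; constructor <;> linarith only [i_nYgS.1, i_nYgS.2, i_nZ.1, i_nZ.2])
    a1 b1 c1 x1 y1
  have h3 := step (L1 := 0.3786) (L2 := 0.7128) (L3 := 3.2176) (L4 := 1.2863) (L5 := -0.6833) hM
    (gp_bound (absP i_nY (b := 0.8689) (by norm_num) (by norm_num))
      (absN i_nYgC (b := 1.3162) (by norm_num) (by norm_num))
      (absN i_nYgS (b := 0.4940) (by norm_num) (by norm_num))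
      (absP i_ng (b := 1.6356) (by norm_num) (by norm_num))
      (absN i_nggC (b := 2.4777) (by norm_num) (by norm_num))
      (absN i_nggS (b := 0.9299) (by norm_num) (by norm_num))
      (absN i_nZ (b := 0.8107) (by norm_num) (by norm_num))
      (absP i_nZgC (b := 1.2281) (by norm_num) (by norm_num))
      (absP i_nZgS (b := 0.4610) (by norm_num) (by norm_num))
      (absP hP (b := 0.8718) (by norm_num) (by norm_num))
      (show |(1 : ℝ)| ≤ 1 by norm_num)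
      (absP hR (b := 2.9517) (by norm_num) (by norm_num))
      hM a1 b1 c1 a2 b2 c2 x2 y2 (by linarith only [r2])) (by norm_num)
    (by rw [abs_le]; constructor <;> linarith only [i_nZ.1, i_nZ.2])
    (by rw [abs_le]; constructor <;> linarith only [i_nZgC.1, i_nZgC.2, hP.1, hP.2])
    (by rw [abs_le]; constructor <;> linarith only [i_nY.1, i_nY.2, i_nggC.1, i_nggC.2])
    (by rw [abs_le]; constructor <;> linarith only [i_nZgC.1, i_nZgC.2, i_nggS.1, i_nggS.2, hP.1, hP.2])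
    (by rw [abs_le]; constructor <;> linarith only [i_nYgS.1, i_nYgS.2, i_nZ.1, i_nZ.2])
    a1 b1 c1 x1 y1
  have h4 := step (L1 := -0.6235) (L2 := -1.1737) (L3 := -1.6621) (L4 := -2.1181) (L5 := 1.1251) hM
    (gp_bound (absP i_nYg (b := 1.4058) (by norm_num) (by norm_num))
      (absN i_nYS (b := 0.3053) (by norm_num) (by norm_num))
      (absP i_nYC (b := 0.8135) (by norm_num) (by norm_num))
      (absP i_ngg (b := 2.6464) (by norm_num) (by norm_num))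
      (absN i_ngS (b := 0.5748) (by norm_num) (by norm_num))
      (absP i_ngC (b := 1.5313) (by norm_num) (by norm_num))
      (absN i_nZg (b := 1.3118) (by norm_num) (by norm_num))
      (absP i_nZS (b := 0.2849) (by norm_num) (by norm_num))
      (absN i_nZC (b := 0.7590) (by norm_num) (by norm_num))
      (absP hP (b := 0.8718) (by norm_num) (by norm_num))
      (show |(1 : ℝ)| ≤ 1 by norm_num)
      (absP hR (b := 2.9517) (by norm_num) (by norm_num))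
      hM a1 b1 c1 a2 b2 c2 x2 y2 (by linarith only [r1])) (by norm_num)
    (by rw [abs_le]; constructor <;> linarith only [i_nZg.1, i_nZg.2])
    (by rw [abs_le]; constructor <;> linarith only [i_nZS.1, i_nZS.2, hP.1, hP.2])
    (by rw [abs_le]; constructor <;> linarith only [i_nYg.1, i_nYg.2, i_ngS.1, i_ngS.2])
    (by rw [abs_le]; constructor <;> linarith only [i_nZS.1, i_nZS.2, i_ngC.1, i_ngC.2, hP.1, hP.2])
    (by rw [abs_le]; constructor <;> linarith only [i_nYC.1, i_nYC.2, i_nZg.1, i_nZg.2])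
    a1 b1 c1 x1 y1
  by_contra hcon
  rw [not_or, not_or, not_or, not_le, not_le, not_le, not_le] at hcon
  obtain ⟨n1, n2, n3, n4⟩ := hcon
  have i_gS := mulI 0.56 0.57 hg hS (by norm_num) (by norm_num) (by norm_num) (by norm_num)
  exact fin hM hMS a1 b1 c1 x1 y1 a2 b2 c2 x2 y2 h1 h2 h3 h4 i_gS.1 (by linarith only [hC.1])
    (by rw [abs_le]; constructor <;> linarith only [i_nYg.1, i_nYg.2])
    (by rw [abs_le]; constructor <;> linarith only [i_nggSg.1, i_nggSg.2, i_ngC.1, i_ngC.2])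
    (by rw [abs_le]; constructor <;> linarith only [i_nZg.1, i_nZg.2])
    (Fid hA hB hK) n1 n2 n3 n4

theorem g_sq : g ^ 2 = g + 1 := Real.goldenRatio_sq

theorem g_ne : g ≠ 0 := Real.goldenRatio_pos.ne'

theorem g_inv : 1 / g = g - 1 := by
  have h := g_sq
  have h0 := g_ne
  rw [div_eq_iff h0]
  linear_combination -h

theorem g_inv' (c : ℝ) : c / g = c * (g - 1) := by
  rw [← g_inv]
  ring

theorem g_bd : 1.61803398 ≤ g ∧ g ≤ 1.61803399 := by
  have h := g_sq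
  have h1 : (1 : ℝ) < g := Real.one_lt_goldenRatio
  constructor
  · by_contra hc
    have hc' := not_le.1 hc
    nlinarith only [h, h1, hc']
  · by_contra hc
    have hc' := not_le.1 hc
    nlinarith only [h, h1, hc']

theorem Gh1 (α β γ x y : ℝ) :
    Gh Ca Sa Cb Sb ![-1, -1, 1] ![-g, -1 / g, 0] ![-g, 0, 1] ![α, β, γ] x y =
    Gp (-(nu * (Sb + Cb * (g - 1)) * g)) (-(nu * (Sb + Cb * (g - 1)) * Sa))
      (nu * (Sb + Cb * (g - 1)) * Ca) (nu * g * g) (nu * g * Sa) (-(nu * g * Ca))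
      (nu * (Cb - Sb * (g - 1)) * g) (nu * (Cb - Sb * (g - 1)) * Sa)
      (-(nu * (Cb - Sb * (g - 1)) * Ca)) (g ^ 2 * (Cb * (g - 1) - Sb)) (-1)
      (g ^ 2 * (Sb * (g - 1) + Cb)) α β γ x y := by
  have h := g_sq
  have hi : -1 / g = -(g - 1) := by rw [neg_div, g_inv]
  rw [hi]
  unfold Gh Gp
  simp only [cr, Rm, RY, RX, Matrix.mulVec, dotProduct, Fin.sum_univ_three, Matrix.transpose_apply,
    Matrix.of_apply, Matrix.cons_val, Pi.sub_apply]
  linear_combination (-(g - 1) * (x * (2 * (α * β + γ)) + y * (1 - α ^ 2 + β ^ 2 - γ ^ 2) +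
    2 * (β * γ - α))) * h

theorem Gh2 (α β γ x y : ℝ) :
    Gh Ca Sa Cb Sb ![-1, -1, 1] ![-g, -1 / g, 0] ![-1, -g, 0] ![α, β, γ] x y =
    Gp (-(nu * (Sb + Cb * (g - 1)))) (-(nu * (Sb + Cb * (g - 1)) * g * Ca))
      (-(nu * (Sb + Cb * (g - 1)) * g * Sa)) (nu * g) (nu * g * g * Ca) (nu * g * g * Sa)
      (nu * (Cb - Sb * (g - 1))) (nu * (Cb - Sb * (g - 1)) * g * Ca)
      (nu * (Cb - Sb * (g - 1)) * g * Sa) (g ^ 2 * (Cb * (g - 1) - Sb)) (-1)
      (g ^ 2 * (Sb * (g - 1) + Cb)) α β γ x y := by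
  have h := g_sq
  have hi : -1 / g = -(g - 1) := by rw [neg_div, g_inv]
  rw [hi]
  unfold Gh Gp
  simp only [cr, Rm, RY, RX, Matrix.mulVec, dotProduct, Fin.sum_univ_three, Matrix.transpose_apply,
    Matrix.of_apply, Matrix.cons_val, Pi.sub_apply]
  linear_combination (-(g - 1) * (x * (2 * (α * β + γ)) + y * (1 - α ^ 2 + β ^ 2 - γ ^ 2) +
    2 * (β * γ - α))) * h

theorem Gh3 (α β γ x y : ℝ) :
    Gh Ca Sa Cb Sb ![-1, 1, 1] ![-g, 1 / g, 0] ![-1, g, 0] ![α, β, γ] x y =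
    Gp (nu * (Sb + Cb * (g - 1))) (-(nu * (Sb + Cb * (g - 1)) * g * Ca))
      (-(nu * (Sb + Cb * (g - 1)) * g * Sa)) (nu * g) (-(nu * g * g * Ca)) (-(nu * g * g * Sa))
      (-(nu * (Cb - Sb * (g - 1)))) (nu * (Cb - Sb * (g - 1)) * g * Ca)
      (nu * (Cb - Sb * (g - 1)) * g * Sa) (g ^ 2 * (Cb * (g - 1) - Sb)) (1)
      (g ^ 2 * (Sb * (g - 1) + Cb)) α β γ x y := by
  have h := g_sq
  rw [g_inv]
  unfold Gh Gp
  simp only [cr, Rm, RY, RX, Matrix.mulVec, dotProduct, Fin.sum_univ_three, Matrix.transpose_apply,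
    Matrix.of_apply, Matrix.cons_val, Pi.sub_apply]
  linear_combination ((g - 1) * (x * (2 * (α * β + γ)) + y * (1 - α ^ 2 + β ^ 2 - γ ^ 2) +
    2 * (β * γ - α))) * h

theorem Gh4 (α β γ x y : ℝ) :
    Gh Ca Sa Cb Sb ![-1, 1, 1] ![-g, 1 / g, 0] ![-g, 0, -1] ![α, β, γ] x y =
    Gp (nu * (Sb + Cb * (g - 1)) * g) (-(nu * (Sb + Cb * (g - 1)) * Sa))
      (nu * (Sb + Cb * (g - 1)) * Ca) (nu * g * g) (-(nu * g * Sa)) (nu * g * Ca)
      (-(nu * (Cb - Sb * (g - 1)) * g)) (nu * (Cb - Sb * (g - 1)) * Sa)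
      (-(nu * (Cb - Sb * (g - 1)) * Ca)) (g ^ 2 * (Cb * (g - 1) - Sb)) (1)
      (g ^ 2 * (Sb * (g - 1) + Cb)) α β γ x y := by
  have h := g_sq
  rw [g_inv]
  unfold Gh Gp
  simp only [cr, Rm, RY, RX, Matrix.mulVec, dotProduct, Fin.sum_univ_three, Matrix.transpose_apply,
    Matrix.of_apply, Matrix.cons_val, Pi.sub_apply]
  linear_combination ((g - 1) * (x * (2 * (α * β + γ)) + y * (1 - α ^ 2 + β ^ 2 - γ ^ 2) +
    2 * (β * γ - α))) * h

end PolyI

open PolyI in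
theorem polyi : S_POLYI := by
  rintro ⟨-, hn1, hn2⟩ ⟨hCS, -, E1, E2, E3, -, -, -, -, -, bCa, bSa, bCb, bSb⟩ α β γ x y a2 b2 c2 x2 y2
  have hg := g_sq
  have gb := g_bd
  rw [g_inv'] at E1 E2 E3
  have bCa' := abs_lt.1 bCa
  have bSa' := abs_lt.1 bSa
  have bCb' := abs_lt.1 bCb
  have bSb' := abs_lt.1 bSb
  have hCb : 0.9647222 ≤ Cb ∧ Cb ≤ 0.9647223 := by
    constructor <;> linarith only [bCb'.1, bCb'.2]
  have hCb2 : 0.96472227 ≤ Cb ∧ Cb ≤ 0.96472228 := by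
    constructor <;> linarith only [bCb'.1, bCb'.2]
  have hSb2 : 0.26326967 ≤ Sb ∧ Sb ≤ 0.26326968 := by
    constructor <;> linarith only [bSb'.1, bSb'.2]
  have hg1 : 0.61803398 ≤ g - 1 ∧ g - 1 ≤ 0.61803399 := by
    constructor <;> linarith only [gb.1, gb.2]
  have hg2 : 2.61803398 ≤ g ^ 2 ∧ g ^ 2 ≤ 2.61803399 := by
    rw [hg]
    constructor <;> linarith only [gb.1, gb.2]
  have iC := mulI 0.59623113 0.59623116 hCb2 hg1 (by norm_num) (by norm_num) (by norm_num) (by norm_num)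
  have iS := mulI 0.16270959 0.16270962 hSb2 hg1 (by norm_num) (by norm_num) (by norm_num) (by norm_num)
  have hY : 0.8595007 ≤ Sb + Cb * (g - 1) ∧ Sb + Cb * (g - 1) ≤ 0.8595010 := by
    constructor <;> linarith only [iC.1, iC.2, hSb2.1, hSb2.2]
  have hZ : 0.8020125 ≤ Cb - Sb * (g - 1) ∧ Cb - Sb * (g - 1) ≤ 0.8020128 := by
    constructor <;> linarith only [iS.1, iS.2, hCb2.1, hCb2.2]
  have hp : 0.332961 ≤ Cb * (g - 1) - Sb ∧ Cb * (g - 1) - Sb ≤ 0.332962 := by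
    constructor <;> linarith only [iC.1, iC.2, hSb2.1, hSb2.2]
  have hr : 1.127431 ≤ Sb * (g - 1) + Cb ∧ Sb * (g - 1) + Cb ≤ 1.127432 := by
    constructor <;> linarith only [iS.1, iS.2, hCb2.1, hCb2.2]
  have hP := mulI 0.87170 0.87171 hg2 hp (by norm_num) (by norm_num) (by norm_num) (by norm_num)
  have hR := mulI 2.95165 2.95166 hg2 hr (by norm_num) (by norm_num) (by norm_num) (by norm_num)
  have r2 : nu * g + nu * (Sb + Cb * (g - 1)) * g * Ca = g ^ 2 * (Sb * (g - 1) + Cb) := by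
    linear_combination g * E2 - g * Sb * hg
  have r1 : nu * g * g + nu * (Sb + Cb * (g - 1)) * Sa = g ^ 2 * (Sb * (g - 1) + Cb) := by
    linear_combination r2 + nu * hg - nu * E1
  have hB : (g * Sa + Ca) * (g ^ 2 * (Cb * (g - 1) - Sb)) = nu * (Cb - Sb * (g - 1)) * g := by
    linear_combination -g * E3 + (g * Sa + Ca) * g * Cb * hg
  have hK : (g * Sa + Ca) * (g ^ 2 * (Sb * (g - 1) + Cb)) =
      nu * (Sb + Cb * (g - 1)) * g + (nu * g * g * Sa * g + nu * g * Ca) := by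
    linear_combination -(g * Sa + Ca) * r1 + nu * Ca * hg +
      nu * g * (Sb + Cb * (g - 1)) * hCS - nu * Ca * E1
  rw [Gh1, Gh2, Gh3, Gh4]
  refine core ⟨by linarith only [hn1], by linarith only [hn2]⟩
    ⟨by linarith only [gb.1], by linarith only [gb.2]⟩
    ⟨by linarith only [bCa'.1], by linarith only [bCa'.2]⟩
    ⟨by linarith only [bSa'.1], by linarith only [bSa'.2]⟩
    hY hZ hP hR hCS r1 r2 hB hK a2 b2 c2 x2 y2

end Pool.Agent.H315.NW
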