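import Mathlib
import Pool.Agent.H315.NW.Defs

set_option autoImplicit false

namespace Pool.Agent.H315.NW

open Matrix

namespace RedG

/-- `(k x) · (k y) = x · y` -/
theorem orth_dot {k : Matrix (Fin 3) (Fin 3) ℝ} (hk : kᵀ * k = 1) (x y : Fin 3 → ℝ) :
    (k *ᵥ x) ⬝ᵥ (k *ᵥ y) = x ⬝ᵥ y := by
  rw [Matrix.dotProduct_mulVec, ← Matrix.mulVec_transpose, Matrix.mulVec_mulVec, hk,
    Matrix.one_mulVec]

theorem tr_dot (h : Matrix (Fin 3) (Fin 3) ℝ) (y n : Fin 3 → ℝ) :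
    (hᵀ *ᵥ y) ⬝ᵥ n = y ⬝ᵥ (h *ᵥ n) := by
  rw [Matrix.dotProduct_mulVec, Matrix.mulVec_transpose]

variable {V : Set (Fin 3 → ℝ)} {c : ℝ} {Q : Matrix (Fin 3) (Fin 3) ℝ} {n : Fin 3 → ℝ}

theorem wp_left (h : WP V c Q n) {k : Matrix (Fin 3) (Fin 3) ℝ} (hk : kᵀ * k = 1)
    (hV : ∀ v ∈ V, k *ᵥ v ∈ V) : WP V c (k * Q) n := by
  intro y hy v hv
  obtain ⟨z, hz, hle⟩ := h y hy v hv
  refine ⟨k *ᵥ z, hV z hz, ?_⟩
  rw [← Matrix.mulVec_mulVec, orth_dot hk]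
  exact hle

theorem wp_neg (h : WP V c Q n) (hV : ∀ v ∈ V, -v ∈ V) : WP V c (-Q) n := by
  intro y hy v hv
  obtain ⟨z, hz, hle⟩ := h y hy v hv
  refine ⟨-z, hV z hz, ?_⟩
  rw [Matrix.neg_mulVec, neg_dotProduct_neg]
  exact hle

theorem wp_right (hw : WP V c Q n) {h : Matrix (Fin 3) (Fin 3) ℝ} (hh : hᵀ * h = 1)
    (hV : ∀ v ∈ V, hᵀ *ᵥ v ∈ V) : WP V c (Q * hᵀ) (h *ᵥ n) := by
  intro y hy v hv
  rw [← tr_dot] at hy
  obtain ⟨z, hz, hle⟩ := hw (hᵀ *ᵥ y) hy (hᵀ *ᵥ v) (hV v hv)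
  refine ⟨z, hz, ?_⟩
  have h2 : (hᵀ)ᵀ * hᵀ = 1 := by
    rw [Matrix.transpose_transpose]
    exact mul_eq_one_comm.1 hh
  rw [orth_dot h2] at hle
  rw [← Matrix.mulVec_mulVec]
  exact hle

theorem entry_le {h : Matrix (Fin 3) (Fin 3) ℝ} (hh : hᵀ * h = 1) (i j : Fin 3) :
    h i j ∈ Set.Icc (-1:ℝ) 1 := by
  have h1 : (hᵀ * h) j j = 1 := by rw [hh, Matrix.one_apply_eq]
  rw [Matrix.mul_apply] at h1
  simp only [Matrix.transpose_apply] at h1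
  have h2 : h i j * h i j ≤ ∑ x, h x j * h x j :=
    Finset.single_le_sum (f := fun x => h x j * h x j) (fun x _ => mul_self_nonneg _)
      (Finset.mem_univ i)
  rw [h1] at h2
  constructor <;> nlinarith

theorem compact_of (hfin : V.Finite) (P : Matrix (Fin 3) (Fin 3) ℝ → Prop)
    (hP : IsClosed {h | P h}) (hPo : ∀ h, P h → hᵀ * h = 1) :
    IsCompact {h : Matrix (Fin 3) (Fin 3) ℝ | P h ∧ ∀ v ∈ V, h *ᵥ v ∈ V} := by
  have hB : IsCompact (Set.pi Set.univ (fun _ : Fin 3 => Set.pi Set.univ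
      (fun _ : Fin 3 => Set.Icc (-1:ℝ) 1)) : Set (Fin 3 → Fin 3 → ℝ)) :=
    isCompact_univ_pi fun _ => isCompact_univ_pi fun _ => isCompact_Icc
  refine IsCompact.of_isClosed_subset hB ?_ ?_
  · have h1 : IsClosed {h : Matrix (Fin 3) (Fin 3) ℝ | ∀ v ∈ V, h *ᵥ v ∈ V} := by
      have : {h : Matrix (Fin 3) (Fin 3) ℝ | ∀ v ∈ V, h *ᵥ v ∈ V} =
          ⋂ v ∈ V, (fun h : Matrix (Fin 3) (Fin 3) ℝ => h *ᵥ v) ⁻¹' V := by
        ext h; simp
      rw [this]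
      refine isClosed_biInter fun v _ => hfin.isClosed.preimage ?_
      exact Continuous.matrix_mulVec continuous_id continuous_const
    exact hP.inter h1
  · intro h hh i _ j _
    exact entry_le (hPo h hh.1) i j

/-! ### the reflections -/

theorem refl_mulVec (u x : Fin 3 → ℝ) :
    ((1 : Matrix (Fin 3) (Fin 3) ℝ) - (2:ℝ) • Matrix.vecMulVec u u) *ᵥ x =
      x - (2 * (x ⬝ᵥ u)) • u := by
  rw [Matrix.sub_mulVec, Matrix.one_mulVec, Matrix.smul_mulVec]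
  congr 1
  ext i
  simp [Matrix.mulVec, Matrix.vecMulVec_apply, dotProduct, Fin.sum_univ_three]
  ring

theorem refl_orth {u : Fin 3 → ℝ} (hu : u ⬝ᵥ u = 1) :
    ((1 : Matrix (Fin 3) (Fin 3) ℝ) - (2:ℝ) • Matrix.vecMulVec u u)ᵀ *
      ((1 : Matrix (Fin 3) (Fin 3) ℝ) - (2:ℝ) • Matrix.vecMulVec u u) = 1 := by
  have h1 : (Matrix.vecMulVec u u)ᵀ = Matrix.vecMulVec u u := by
    ext i j
    simp [Matrix.vecMulVec_apply, mul_comm]
  have h2 : Matrix.vecMulVec u u * Matrix.vecMulVec u u = Matrix.vecMulVec u u := by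
    ext i j
    simp only [dotProduct, Fin.sum_univ_three] at hu
    simp only [Matrix.mul_apply, Matrix.vecMulVec_apply, Fin.sum_univ_three]
    linear_combination (u i * u j) * hu
  rw [Matrix.transpose_sub, Matrix.transpose_one, Matrix.transpose_smul, h1, sub_mul, mul_sub,
    mul_sub, one_mul, mul_one, one_mul, smul_mul_smul_comm, h2]
  module

theorem refl_symm (u : Fin 3 → ℝ) :
    ((1 : Matrix (Fin 3) (Fin 3) ℝ) - (2:ℝ) • Matrix.vecMulVec u u)ᵀ =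
      1 - (2:ℝ) • Matrix.vecMulVec u u := by
  rw [Matrix.transpose_sub, Matrix.transpose_one, Matrix.transpose_smul]
  congr 2
  ext i j
  simp [Matrix.vecMulVec_apply, mul_comm]

/-! ### quaternions -/

theorem Rm_orth (p : Fin 4 → ℝ) (hp : nq p = 4) :
    ((1 / 4 : ℝ) • Rm p)ᵀ * ((1 / 4 : ℝ) • Rm p) = 1 := by
  unfold nq at hp
  ext i j
  rw [Matrix.mul_apply, Fin.sum_univ_three]
  fin_cases i <;> fin_cases j <;> simp [Rm] <;>
    first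
    | ring1
    | linear_combination ((p 0 ^ 2 + p 1 ^ 2 + p 2 ^ 2 + p 3 ^ 2 + 4) / 16) * hp

theorem Rm_det (p : Fin 4 → ℝ) (hp : nq p = 4) : ((1 / 4 : ℝ) • Rm p).det = 1 := by
  unfold nq at hp
  rw [Matrix.det_smul, Fintype.card_fin, Matrix.det_fin_three]
  simp only [Rm, Matrix.of_apply, Matrix.cons_val', Matrix.cons_val_zero, Matrix.cons_val_one,
    Matrix.cons_val, Matrix.empty_val', Matrix.cons_val_fin_one]
  linear_combination (((p 0 ^ 2 + p 1 ^ 2 + p 2 ^ 2 + p 3 ^ 2) ^ 2 +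
    4 * (p 0 ^ 2 + p 1 ^ 2 + p 2 ^ 2 + p 3 ^ 2) + 16) / 64) * hp

/-- the quaternion of a rotation -/
def qv (Q : Matrix (Fin 3) (Fin 3) ℝ) : Fin 4 → ℝ :=
  ![1 + Q.trace, Q 2 1 - Q 1 2, Q 0 2 - Q 2 0, Q 1 0 - Q 0 1]

/-- the relations between the entries of a rotation -/
structure Rel (Q : Matrix (Fin 3) (Fin 3) ℝ) : Prop where
  c00 : Q 0 0 = Q 1 1 * Q 2 2 - Q 1 2 * Q 2 1
  c01 : Q 0 1 = Q 1 2 * Q 2 0 - Q 1 0 * Q 2 2
  c02 : Q 0 2 = Q 1 0 * Q 2 1 - Q 1 1 * Q 2 0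
  c10 : Q 1 0 = Q 0 2 * Q 2 1 - Q 0 1 * Q 2 2
  c11 : Q 1 1 = Q 0 0 * Q 2 2 - Q 0 2 * Q 2 0
  c12 : Q 1 2 = Q 0 1 * Q 2 0 - Q 0 0 * Q 2 1
  c20 : Q 2 0 = Q 0 1 * Q 1 2 - Q 0 2 * Q 1 1
  c21 : Q 2 1 = Q 0 2 * Q 1 0 - Q 0 0 * Q 1 2
  c22 : Q 2 2 = Q 0 0 * Q 1 1 - Q 0 1 * Q 1 0
  r00 : Q 0 0 ^ 2 + Q 0 1 ^ 2 + Q 0 2 ^ 2 = 1
  r11 : Q 1 0 ^ 2 + Q 1 1 ^ 2 + Q 1 2 ^ 2 = 1
  r22 : Q 2 0 ^ 2 + Q 2 1 ^ 2 + Q 2 2 ^ 2 = 1
  r01 : Q 0 0 * Q 1 0 + Q 0 1 * Q 1 1 + Q 0 2 * Q 1 2 = 0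
  r02 : Q 0 0 * Q 2 0 + Q 0 1 * Q 2 1 + Q 0 2 * Q 2 2 = 0
  r12 : Q 1 0 * Q 2 0 + Q 1 1 * Q 2 1 + Q 1 2 * Q 2 2 = 0
  k00 : Q 0 0 ^ 2 + Q 1 0 ^ 2 + Q 2 0 ^ 2 = 1
  k11 : Q 0 1 ^ 2 + Q 1 1 ^ 2 + Q 2 1 ^ 2 = 1
  k22 : Q 0 2 ^ 2 + Q 1 2 ^ 2 + Q 2 2 ^ 2 = 1
  k01 : Q 0 0 * Q 0 1 + Q 1 0 * Q 1 1 + Q 2 0 * Q 2 1 = 0
  k02 : Q 0 0 * Q 0 2 + Q 1 0 * Q 1 2 + Q 2 0 * Q 2 2 = 0
  k12 : Q 0 1 * Q 0 2 + Q 1 1 * Q 1 2 + Q 2 1 * Q 2 2 = 0

theorem rel_of {Q : Matrix (Fin 3) (Fin 3) ℝ} (h1 : Qᵀ * Q = 1) (hd : Q.det = 1) : Rel Q := by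
  have h2 : Q * Qᵀ = 1 := mul_eq_one_comm.1 h1
  have hadj : Q.adjugate = Qᵀ := by
    have h3 : Q.adjugate * Q = 1 := by rw [Matrix.adjugate_mul, hd, one_smul]
    calc Q.adjugate = Q.adjugate * (Q * Qᵀ) := by rw [h2, mul_one]
      _ = Qᵀ := by rw [← mul_assoc, h3, one_mul]
  have e1 : ∀ i j, ∑ k, Q k i * Q k j = if i = j then 1 else 0 := by
    intro i j
    have := congrFun (congrFun h1 i) j
    rw [Matrix.mul_apply, Matrix.one_apply] at this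
    simpa only [Matrix.transpose_apply] using this
  have e2 : ∀ i j, ∑ k, Q i k * Q j k = if i = j then 1 else 0 := by
    intro i j
    have := congrFun (congrFun h2 i) j
    rw [Matrix.mul_apply, Matrix.one_apply] at this
    simpa only [Matrix.transpose_apply] using this
  have e3 : ∀ i j, Q.adjugate i j = Q j i := fun i j => by rw [hadj]; rfl
  simp only [Fin.sum_univ_three] at e1 e2
  rw [Matrix.adjugate_fin_three] at e3
  have a00 := e3 0 0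
  have a01 := e3 1 0
  have a02 := e3 2 0
  have a10 := e3 0 1
  have a11 := e3 1 1
  have a12 := e3 2 1
  have a20 := e3 0 2
  have a21 := e3 1 2
  have a22 := e3 2 2
  simp only [Matrix.of_apply, Matrix.cons_val', Matrix.cons_val_zero, Matrix.cons_val_one,
    Matrix.cons_val, Matrix.empty_val', Matrix.cons_val_fin_one] at a00 a01 a02 a10 a11 a12 a20 a21 a22
  have s00 := e1 0 0
  have s11 := e1 1 1
  have s22 := e1 2 2
  have s01 := e1 0 1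
  have s02 := e1 0 2
  have s12 := e1 1 2
  have t00 := e2 0 0
  have t11 := e2 1 1
  have t22 := e2 2 2
  have t01 := e2 0 1
  have t02 := e2 0 2
  have t12 := e2 1 2
  simp at s00 s11 s22 s01 s02 s12 t00 t11 t22 t01 t02 t12
  constructor <;> linarith

theorem qv_sq {Q : Matrix (Fin 3) (Fin 3) ℝ} (h : Rel Q) :
    Rm (qv Q) = (4 * (1 + Q.trace)) • Q ∧ nq (qv Q) = 4 * (1 + Q.trace) := by
  obtain ⟨c00, c01, c02, c10, c11, c12, c20, c21, c22, r00, r11, r22, r01, r02, r12, k00, k11,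
    k22, k01, k02, k12⟩ := h
  have ht : Q.trace = Q 0 0 + Q 1 1 + Q 2 2 := by rw [Matrix.trace_fin_three]
  have q0 : qv Q 0 = 1 + Q.trace := rfl
  have q1 : qv Q 1 = Q 2 1 - Q 1 2 := rfl
  have q2 : qv Q 2 = Q 0 2 - Q 2 0 := rfl
  have q3 : qv Q 3 = Q 1 0 - Q 0 1 := rfl
  have s1 : (Q 2 1 - Q 1 2) ^ 2 = (1 + Q.trace) * (1 + Q 0 0 - Q 1 1 - Q 2 2) := by
    rw [ht]
    linear_combination (-2) * c00 + r11 + r22 - k00
  have s2 : (Q 0 2 - Q 2 0) ^ 2 = (1 + Q.trace) * (1 - Q 0 0 + Q 1 1 - Q 2 2) := by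
    rw [ht]
    linear_combination (-2) * c11 + r00 + r22 - k11
  have s3 : (Q 1 0 - Q 0 1) ^ 2 = (1 + Q.trace) * (1 - Q 0 0 - Q 1 1 + Q 2 2) := by
    rw [ht]
    linear_combination (-2) * c22 + r00 + r11 - k22
  have s12 : (Q 2 1 - Q 1 2) * (Q 0 2 - Q 2 0) = (1 + Q.trace) * (Q 0 1 + Q 1 0) := by
    rw [ht]
    linear_combination -c01 - c10 - r01 - k01
  have s13 : (Q 2 1 - Q 1 2) * (Q 1 0 - Q 0 1) = (1 + Q.trace) * (Q 0 2 + Q 2 0) := by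
    rw [ht]
    linear_combination -c02 - c20 - r02 - k02
  have s23 : (Q 0 2 - Q 2 0) * (Q 1 0 - Q 0 1) = (1 + Q.trace) * (Q 1 2 + Q 2 1) := by
    rw [ht]
    linear_combination -c12 - c21 - r12 - k12
  clear c00 c01 c02 c10 c11 c12 c20 c21 c22 r00 r11 r22 r01 r02 r12 k00 k11 k22 k01 k02 k12
  generalize Q.trace = t at *
  constructor
  · ext i j
    rw [Matrix.smul_apply, smul_eq_mul]
    unfold Rm
    rw [q0, q1, q2, q3]
    fin_cases i <;> fin_cases j <;> simp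
    · linear_combination s1 - s2 - s3 + (1 + t) * ht
    · linear_combination 2 * s12
    · linear_combination 2 * s13
    · linear_combination 2 * s12
    · linear_combination -s1 + s2 - s3 + (1 + t) * ht
    · linear_combination 2 * s23
    · linear_combination 2 * s13
    · linear_combination 2 * s23
    · linear_combination -s1 - s2 + s3 + (1 + t) * ht
  · unfold nq
    rw [q0, q1, q2, q3]
    linear_combination s1 + s2 + s3 + (1 + t) * ht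

theorem trace_mul (P p : Fin 4 → ℝ) : (Rm P * Rm p).trace =
    4 * (P 0 * p 0 - P 1 * p 1 - P 2 * p 2 - P 3 * p 3) ^ 2 - nq P * nq p := by
  rw [Matrix.trace_fin_three, Matrix.mul_apply, Matrix.mul_apply, Matrix.mul_apply]
  simp only [Fin.sum_univ_three, Rm, nq, Matrix.of_apply, Matrix.cons_val', Matrix.cons_val_zero,
    Matrix.cons_val_one, Matrix.cons_val, Matrix.empty_val', Matrix.cons_val_fin_one]
  ring

end RedG

open RedG

theorem redg : S_REDG := by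
  intro V hfin hne hsym u ρ P hu hρ hrefl hP hPV hsum c Q hQ n hn hW
  rw [Matrix.mem_specialOrthogonalGroup_iff, Matrix.mem_orthogonalGroup_iff'] at hQ
  obtain ⟨hQo, hQd⟩ := hQ
  have hQo : Qᵀ * Q = 1 := hQo
  -- step 1: the normal vector
  have hH : IsCompact {h : Matrix (Fin 3) (Fin 3) ℝ |
      (hᵀ * h = 1 ∧ ∀ v ∈ V, hᵀ *ᵥ v ∈ V) ∧ ∀ v ∈ V, h *ᵥ v ∈ V} := by
    refine compact_of hfin (fun h => hᵀ * h = 1 ∧ ∀ v ∈ V, hᵀ *ᵥ v ∈ V) ?_ (fun h hh => hh.1)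
    have h1 : IsClosed {h : Matrix (Fin 3) (Fin 3) ℝ | hᵀ * h = 1} :=
      isClosed_eq (continuous_id.matrix_transpose.matrix_mul continuous_id) continuous_const
    have h2 : IsClosed {h : Matrix (Fin 3) (Fin 3) ℝ | ∀ v ∈ V, hᵀ *ᵥ v ∈ V} := by
      have : {h : Matrix (Fin 3) (Fin 3) ℝ | ∀ v ∈ V, hᵀ *ᵥ v ∈ V} =
          ⋂ v ∈ V, (fun h : Matrix (Fin 3) (Fin 3) ℝ => hᵀ *ᵥ v) ⁻¹' V := by
        ext h; simp
      rw [this]
      refine isClosed_biInter fun v _ => hfin.isClosed.preimage ?_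
      exact Continuous.matrix_mulVec continuous_id.matrix_transpose continuous_const
    exact h1.inter h2
  have hf : Continuous fun h : Matrix (Fin 3) (Fin 3) ℝ => ρ ⬝ᵥ (h *ᵥ n) :=
    Continuous.dotProduct continuous_const (Continuous.matrix_mulVec continuous_id continuous_const)
  obtain ⟨h, ⟨⟨hh, hhV⟩, hhV'⟩, hmax⟩ := hH.exists_isMaxOn
    ⟨1, ⟨by simp, fun v hv => by simpa using hv⟩, fun v hv => by simpa using hv⟩ hf.continuousOn
  have hn' : h *ᵥ n ≠ 0 := by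
    intro h0
    apply hn
    have := congrArg (fun x => hᵀ *ᵥ x) h0
    simpa [Matrix.mulVec_mulVec, hh] using this
  have hnu : ∀ i, 0 ≤ (h *ᵥ n) ⬝ᵥ u i := by
    intro i
    have hs := refl_orth (hu i)
    have hst := refl_symm (u i)
    have hsv := refl_mulVec (u i)
    have hmem := hmax (a := ((1 : Matrix (Fin 3) (Fin 3) ℝ) - (2:ℝ) • Matrix.vecMulVec (u i) (u i)) * h)
      ⟨⟨?_, ?_⟩, ?_⟩
    · simp only [Set.mem_ofPred_eq] at hmem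
      rw [← Matrix.mulVec_mulVec, hsv, dotProduct_sub, dotProduct_smul, smul_eq_mul] at hmem
      have := hρ i
      nlinarith
    · rw [Matrix.transpose_mul, mul_assoc, ← mul_assoc _ _ h, hs, one_mul, hh]
    · intro v hv
      rw [Matrix.transpose_mul, ← Matrix.mulVec_mulVec, hst, hsv]
      exact hhV _ (hrefl i v hv)
    · intro v hv
      rw [← Matrix.mulVec_mulVec, hsv]
      exact hrefl i _ (hhV' v hv)
  -- step 2: determinant one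
  have hW1 := wp_right hW hh hhV
  have hQ1 : (Q * hᵀ)ᵀ * (Q * hᵀ) = 1 := by
    rw [Matrix.transpose_mul, Matrix.transpose_transpose, mul_assoc, ← mul_assoc _ Q, hQo, one_mul]
    exact mul_eq_one_comm.1 hh
  obtain ⟨Q1, hQ1o, hQ1d, hW1⟩ : ∃ Q1 : Matrix (Fin 3) (Fin 3) ℝ, Q1ᵀ * Q1 = 1 ∧ Q1.det = 1 ∧
      WP V c Q1 (h *ᵥ n) := by
    have hd : (Q * hᵀ).det = 1 ∨ (Q * hᵀ).det = -1 := by
      have := congrArg Matrix.det hQ1
      rw [Matrix.det_mul, Matrix.det_transpose, Matrix.det_one] at this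
      exact mul_self_eq_one_iff.1 this
    rcases hd with hd | hd
    · exact ⟨_, hQ1, hd, hW1⟩
    · refine ⟨-(Q * hᵀ), ?_, ?_, wp_neg hW1 hsym⟩
      · rw [Matrix.transpose_neg, neg_mul_neg, hQ1]
      · rw [Matrix.det_neg, hd]
        norm_num
  -- step 3: the trace
  have hK : IsCompact {k : Matrix (Fin 3) (Fin 3) ℝ |
      (kᵀ * k = 1 ∧ k.det = 1) ∧ ∀ v ∈ V, k *ᵥ v ∈ V} := by
    refine compact_of hfin (fun k => kᵀ * k = 1 ∧ k.det = 1) ?_ (fun k hk => hk.1)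
    have h1 : IsClosed {h : Matrix (Fin 3) (Fin 3) ℝ | hᵀ * h = 1} :=
      isClosed_eq (continuous_id.matrix_transpose.matrix_mul continuous_id) continuous_const
    have h2 : IsClosed {h : Matrix (Fin 3) (Fin 3) ℝ | h.det = 1} :=
      isClosed_eq continuous_id.matrix_det continuous_const
    exact h1.inter h2
  have hg : Continuous fun k : Matrix (Fin 3) (Fin 3) ℝ => (k * Q1).trace :=
    (continuous_id.matrix_mul continuous_const).matrix_trace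
  obtain ⟨k, ⟨⟨hk, hkd⟩, hkV⟩, hkmax⟩ := hK.exists_isMaxOn
    ⟨1, ⟨by simp, by simp⟩, fun v hv => by simpa using hv⟩ hg.continuousOn
  have hW2 := wp_left hW1 hk hkV
  have hQ2 : (k * Q1)ᵀ * (k * Q1) = 1 := by
    rw [Matrix.transpose_mul, mul_assoc, ← mul_assoc _ k, hk, one_mul, hQ1o]
  have hQ2d : (k * Q1).det = 1 := by rw [Matrix.det_mul, hkd, hQ1d, one_mul]
  obtain ⟨Q2, hQ2e⟩ : ∃ Q2, Q2 = k * Q1 := ⟨_, rfl⟩
  have htr : ∀ j, (Rm (P j) * Q2).trace ≤ 4 * Q2.trace := by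
    intro j
    have hmem := hkmax (a := ((1 / 4 : ℝ) • Rm (P j)) * k) ⟨⟨?_, ?_⟩, ?_⟩
    · simp only [Set.mem_ofPred_eq] at hmem
      rw [mul_assoc, ← hQ2e, Matrix.smul_mul, Matrix.trace_smul, smul_eq_mul] at hmem
      linarith
    · rw [Matrix.transpose_mul, mul_assoc, ← mul_assoc _ _ k, Rm_orth _ (hP j), one_mul, hk]
    · rw [Matrix.det_mul, Rm_det _ (hP j), hkd, one_mul]
    · intro v hv
      rw [← Matrix.mulVec_mulVec]
      exact hPV j _ (hkV v hv)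
  have htr0 : 0 ≤ Q2.trace := by
    have h1 : ∑ j, (Rm (P j) * Q2).trace ≤ ∑ _j : Fin 12, 4 * Q2.trace :=
      Finset.sum_le_sum fun j _ => htr j
    rw [← Matrix.trace_sum, ← Finset.sum_mul, hsum, Matrix.smul_mul, one_mul, Matrix.trace_smul,
      smul_eq_mul, Finset.sum_const, Finset.card_univ, Fintype.card_fin, nsmul_eq_mul] at h1
    have h2 : g < 2 := Real.goldenRatio_lt_two
    push_cast at h1
    nlinarith
  rw [← hQ2e] at hW2 hQ2 hQ2d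
  obtain ⟨hRm, hnq⟩ := qv_sq (rel_of hQ2 hQ2d)
  have h0 : qv Q2 0 = 1 + Q2.trace := rfl
  refine ⟨qv Q2, h *ᵥ n, ?_, hn', hnu, ?_, ?_⟩
  · rw [h0]; linarith
  · intro j
    have h1 := trace_mul (P j) (qv Q2)
    rw [hRm, Matrix.mul_smul, Matrix.trace_smul, smul_eq_mul, hP, hnq] at h1
    have h2 := htr j
    have h3 : (P j 0 * qv Q2 0 - P j 1 * qv Q2 1 - P j 2 * qv Q2 2 - P j 3 * qv Q2 3) ^ 2 ≤
        (2 * qv Q2 0) ^ 2 := by
      rw [h0]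
      rw [h0] at h1
      nlinarith
    exact le_of_abs_le (abs_le_of_sq_le_sq h3 (by rw [h0]; linarith))
  · intro y hy v hv
    obtain ⟨z, hz, hle⟩ := hW2 y hy v hv
    refine ⟨z, hz, ?_⟩
    rw [hRm, hnq, Matrix.smul_mulVec, smul_dotProduct, smul_eq_mul]
    have : 0 < 4 * (1 + Q2.trace) := by linarith
    nlinarith

end Pool.Agent.H315.NW
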