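import Pool.Agent.H315.NW.Defs

/-!
# NW-REDI and NW-REDD: the symmetry data of the icosahedron and of the dodecahedron (helper154)
-/

set_option autoImplicit false

namespace Pool.Agent.H315.NW

open Matrix

namespace Red

theorem g2 : g ^ 2 = g + 1 := Real.goldenRatio_sq
theorem g1 : 1 < g := Real.one_lt_goldenRatio
theorem g0 : 0 < g := Real.goldenRatio_pos
theorem ginv : 1 / g = g - 1 := by
  have h := g0.ne'
  rw [div_eq_iff h]
  have := g2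
  nlinarith

/-! ### arithmetic in `ℤ[g]` -/

/-- product in `ℤ[g]` -/
def mul (x y : ℤ × ℤ) : ℤ × ℤ := (x.1 * y.1 + x.2 * y.2, x.1 * y.2 + x.2 * y.1 + x.2 * y.2)

/-- sum in `ℤ[g]` -/
def add (x y : ℤ × ℤ) : ℤ × ℤ := (x.1 + y.1, x.2 + y.2)

/-- difference in `ℤ[g]` -/
def sub (x y : ℤ × ℤ) : ℤ × ℤ := (x.1 - y.1, x.2 - y.2)

/-- evaluation -/
noncomputable def ev (x : ℤ × ℤ) : ℝ := x.1 + x.2 * g

theorem ev_mul (x y : ℤ × ℤ) : ev (mul x y) = ev x * ev y := by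
  unfold ev mul
  push_cast
  have := g2
  linear_combination (-(x.2 : ℝ) * y.2) * this

theorem ev_add (x y : ℤ × ℤ) : ev (add x y) = ev x + ev y := by
  unfold ev add; push_cast; ring

theorem ev_sub (x y : ℤ × ℤ) : ev (sub x y) = ev x - ev y := by
  unfold ev sub; push_cast; ring

/-- vectors -/
abbrev Z3 : Type := (ℤ × ℤ) × (ℤ × ℤ) × (ℤ × ℤ)

/-- quaternions -/
abbrev Z4 : Type := (ℤ × ℤ) × (ℤ × ℤ) × (ℤ × ℤ) × (ℤ × ℤ)

/-- evaluation of a vector -/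
noncomputable def ev3 (v : Z3) : Fin 3 → ℝ := ![ev v.1, ev v.2.1, ev v.2.2]

/-- evaluation of a quaternion -/
noncomputable def ev4 (q : Z4) : Fin 4 → ℝ := ![ev q.1, ev q.2.1, ev q.2.2.1, ev q.2.2.2]

/-- twice a number -/
def dbl (x : ℤ × ℤ) : ℤ × ℤ := add x x

/-- the product of the rotation matrix and a vector -/
def rot (q : Z4) (v : Z3) : Z3 :=
  let a := q.1
  let b := q.2.1
  let c := q.2.2.1
  let d := q.2.2.2
  (add (add (mul (sub (sub (add (mul a a) (mul b b)) (mul c c)) (mul d d)) v.1)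
      (mul (dbl (sub (mul b c) (mul a d))) v.2.1)) (mul (dbl (add (mul b d) (mul a c))) v.2.2),
   add (add (mul (dbl (add (mul b c) (mul a d))) v.1)
      (mul (sub (add (sub (mul a a) (mul b b)) (mul c c)) (mul d d)) v.2.1))
      (mul (dbl (sub (mul c d) (mul a b))) v.2.2),
   add (add (mul (dbl (sub (mul b d) (mul a c))) v.1)
      (mul (dbl (add (mul c d) (mul a b))) v.2.1))
      (mul (add (sub (sub (mul a a) (mul b b)) (mul c c)) (mul d d)) v.2.2))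

/-- four times a vector -/
def four (v : Z3) : Z3 := (dbl (dbl v.1), dbl (dbl v.2.1), dbl (dbl v.2.2))

/-- `2 v - (v ⬝ a) a` -/
def refl (a v : Z3) : Z3 :=
  let s := add (add (mul v.1 a.1) (mul v.2.1 a.2.1)) (mul v.2.2 a.2.2)
  (sub (dbl v.1) (mul s a.1), sub (dbl v.2.1) (mul s a.2.1), sub (dbl v.2.2) (mul s a.2.2))

/-- twice a vector -/
def two (v : Z3) : Z3 := (dbl v.1, dbl v.2.1, dbl v.2.2)

theorem ev_rot (q : Z4) (v : Z3) : Rm (ev4 q) *ᵥ ev3 v = ev3 (rot q v) := by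
  ext i
  fin_cases i
  · simp [Rm, ev4, ev3, rot, dbl, ev_add, ev_mul, ev_sub, Matrix.mulVec, dotProduct,
      Fin.sum_univ_succ]
    ring
  · simp [Rm, ev4, ev3, rot, dbl, ev_add, ev_mul, ev_sub, Matrix.mulVec, dotProduct,
      Fin.sum_univ_succ]
    ring
  · simp [Rm, ev4, ev3, rot, dbl, ev_add, ev_mul, ev_sub, Matrix.mulVec, dotProduct,
      Fin.sum_univ_succ]
    ring

theorem ev_four (v : Z3) : ev3 (four v) = (4 : ℝ) • ev3 v := by
  ext i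
  fin_cases i <;> simp [ev3, four, dbl, ev_add] <;> ring

theorem rot_mem {L : List Z3} {q : Z4}
    (h : ∀ v ∈ L, ∃ v' ∈ L, rot q v = four v') {v : Z3}
    (hv : v ∈ L) : ∃ v' ∈ L, ((1 / 4 : ℝ) • Rm (ev4 q)) *ᵥ ev3 v = ev3 v' := by
  obtain ⟨v', hv', e⟩ := h v hv
  refine ⟨v', hv', ?_⟩
  rw [Matrix.smul_mulVec, ev_rot, e, ev_four, smul_smul]
  norm_num

theorem refl_mem {L : List Z3} {a : Z3}
    (h : ∀ v ∈ L, ∃ v' ∈ L, refl a v = two v') {v : Z3} (hv : v ∈ L) :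
    ∃ v' ∈ L, ev3 v - (2 * (ev3 v ⬝ᵥ ((1 / 2 : ℝ) • ev3 a))) • ((1 / 2 : ℝ) • ev3 a) = ev3 v' := by
  obtain ⟨v', hv', e⟩ := h v hv
  refine ⟨v', hv', ?_⟩
  have e1 : ev3 (refl a v) = ev3 (two v') := by rw [e]
  ext i
  have e2 := congrFun e1 i
  fin_cases i
  · simp [ev3, refl, two, dbl, ev_add, ev_mul, ev_sub, dotProduct, Fin.sum_univ_succ] at e2 ⊢
    linear_combination (1 / 2 : ℝ) * e2
  · simp [ev3, refl, two, dbl, ev_add, ev_mul, ev_sub, dotProduct, Fin.sum_univ_succ] at e2 ⊢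
    linear_combination (1 / 2 : ℝ) * e2
  · simp [ev3, refl, two, dbl, ev_add, ev_mul, ev_sub, dotProduct, Fin.sum_univ_succ] at e2 ⊢
    linear_combination (1 / 2 : ℝ) * e2

/-- the vertices of the icosahedron -/
def LI : List Z3 := [
  ((0, 0), (1, 0), (0, 1)),
  ((0, 0), (1, 0), (0, -1)),
  ((0, 0), (-1, 0), (0, 1)),
  ((0, 0), (-1, 0), (0, -1)),
  ((1, 0), (0, 1), (0, 0)),
  ((1, 0), (0, -1), (0, 0)),
  ((-1, 0), (0, 1), (0, 0)),
  ((-1, 0), (0, -1), (0, 0)),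
  ((0, 1), (0, 0), (1, 0)),
  ((0, -1), (0, 0), (1, 0)),
  ((0, 1), (0, 0), (-1, 0)),
  ((0, -1), (0, 0), (-1, 0))]

/-- the vertices of the dodecahedron -/
def LD : List Z3 := [
  ((1, 0), (1, 0), (1, 0)),
  ((1, 0), (1, 0), (-1, 0)),
  ((1, 0), (-1, 0), (1, 0)),
  ((1, 0), (-1, 0), (-1, 0)),
  ((-1, 0), (1, 0), (1, 0)),
  ((-1, 0), (1, 0), (-1, 0)),
  ((-1, 0), (-1, 0), (1, 0)),
  ((-1, 0), (-1, 0), (-1, 0)),
  ((0, 0), (-1, 1), (0, 1)),
  ((0, 0), (-1, 1), (0, -1)),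
  ((0, 0), (1, -1), (0, 1)),
  ((0, 0), (1, -1), (0, -1)),
  ((-1, 1), (0, 1), (0, 0)),
  ((-1, 1), (0, -1), (0, 0)),
  ((1, -1), (0, 1), (0, 0)),
  ((1, -1), (0, -1), (0, 0)),
  ((0, 1), (0, 0), (-1, 1)),
  ((0, -1), (0, 0), (-1, 1)),
  ((0, 1), (0, 0), (1, -1)),
  ((0, -1), (0, 0), (1, -1))]

/-- the rotations of the icosahedron -/
def PI : List Z4 := [
  ((0, 1), (0, 0), (-1, 1), (1, 0)),
  ((0, 1), (0, 0), (-1, 1), (-1, 0)),
  ((0, 1), (0, 0), (1, -1), (1, 0)),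
  ((0, 1), (0, 0), (1, -1), (-1, 0)),
  ((0, 1), (-1, 1), (1, 0), (0, 0)),
  ((0, 1), (-1, 1), (-1, 0), (0, 0)),
  ((0, 1), (1, -1), (1, 0), (0, 0)),
  ((0, 1), (1, -1), (-1, 0), (0, 0)),
  ((0, 1), (1, 0), (0, 0), (-1, 1)),
  ((0, 1), (-1, 0), (0, 0), (-1, 1)),
  ((0, 1), (1, 0), (0, 0), (1, -1)),
  ((0, 1), (-1, 0), (0, 0), (1, -1))]

/-- the rotations of the dodecahedron -/
def PD : List Z4 := [
  ((0, 1), (0, 0), (1, 0), (-1, 1)),
  ((0, 1), (0, 0), (-1, 0), (-1, 1)),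
  ((0, 1), (0, 0), (1, 0), (1, -1)),
  ((0, 1), (0, 0), (-1, 0), (1, -1)),
  ((0, 1), (1, 0), (-1, 1), (0, 0)),
  ((0, 1), (-1, 0), (-1, 1), (0, 0)),
  ((0, 1), (1, 0), (1, -1), (0, 0)),
  ((0, 1), (-1, 0), (1, -1), (0, 0)),
  ((0, 1), (-1, 1), (0, 0), (1, 0)),
  ((0, 1), (-1, 1), (0, 0), (-1, 0)),
  ((0, 1), (1, -1), (0, 0), (1, 0)),
  ((0, 1), (1, -1), (0, 0), (-1, 0))]


/-- the rotation number `j` -/
def get4 (L : List Z4) (j : Fin 12) : Z4 := L.getD j.val ((0, 0), (0, 0), (0, 0), (0, 0))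

/-- norm and sum checks -/
def nrm (q : Z4) : ℤ × ℤ :=
  add (add (add (mul q.1 q.1) (mul q.2.1 q.2.1)) (mul q.2.2.1 q.2.2.1)) (mul q.2.2.2 q.2.2.2)

/-- mirror vectors of the icosahedron (twice) -/
def aI : List Z3 := [((2, 0), (0, 0), (0, 0)), ((0, 0), (2, 0), (0, 0)), ((0, -1), (-1, 0), (-1, 1))]

/-- mirror vectors of the dodecahedron (twice) -/
def aD : List Z3 := [((2, 0), (0, 0), (0, 0)), ((0, 0), (2, 0), (0, 0)), ((-1, 0), (0, -1), (-1, 1))]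

/-- the vector number `i` -/
def get3 (L : List Z3) (i : Fin 3) : Z3 := L.getD i.val ((0, 0), (0, 0), (0, 0))

set_option maxRecDepth 100000 in
theorem chk_rotI : ∀ j : Fin 12, ∀ v ∈ LI, ∃ v' ∈ LI, rot (get4 PI j) v = four v' := by
  decide +kernel

set_option maxRecDepth 100000 in
theorem chk_rotD : ∀ j : Fin 12, ∀ v ∈ LD, ∃ v' ∈ LD, rot (get4 PD j) v = four v' := by
  decide +kernel

set_option maxRecDepth 100000 in
theorem chk_reflI : ∀ i : Fin 3, ∀ v ∈ LI, ∃ v' ∈ LI, refl (get3 aI i) v = two v' := by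
  decide +kernel

set_option maxRecDepth 100000 in
theorem chk_reflD : ∀ i : Fin 3, ∀ v ∈ LD, ∃ v' ∈ LD, refl (get3 aD i) v = two v' := by
  decide +kernel


theorem e0 : (0 : ℝ) = ev (0, 0) := by simp [ev]
theorem e1 : (1 : ℝ) = ev (1, 0) := by simp [ev]
theorem em1 : (-1 : ℝ) = ev (-1, 0) := by simp [ev]
theorem eg : (1 : ℝ) * Real.goldenRatio = ev (0, 1) := by simp [ev]
theorem egm : (-1 : ℝ) * Real.goldenRatio = ev (0, -1) := by simp [ev]
theorem ei : (1 : ℝ) / Real.goldenRatio = ev (-1, 1) := by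
  have h : (1 : ℝ) / Real.goldenRatio = g - 1 := ginv
  rw [h]; simp [ev]; ring
theorem eim : (-1 : ℝ) / Real.goldenRatio = ev (1, -1) := by
  have h : (1 : ℝ) / Real.goldenRatio = g - 1 := ginv
  rw [neg_div, h]; simp [ev]; ring

theorem vec3 {a b c a' b' c' : ℝ} (h1 : a = a') (h2 : b = b') (h3 : c = c') :
    ![a, b, c] = ![a', b', c'] := by rw [h1, h2, h3]

theorem mem_LI {v : Fin 3 → ℝ} (hv : v ∈ VI) : ∃ x ∈ LI, v = ev3 x := by
  obtain ⟨s, t, hs, ht, h⟩ := hv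
  rcases hs with rfl | rfl <;> rcases ht with rfl | rfl <;> rcases h with rfl | rfl | rfl
  · exact ⟨((0, 0), (1, 0), (0, 1)), by decide, vec3 e0 e1 eg⟩
  · exact ⟨((1, 0), (0, 1), (0, 0)), by decide, vec3 e1 eg e0⟩
  · exact ⟨((0, 1), (0, 0), (1, 0)), by decide, vec3 eg e0 e1⟩
  · exact ⟨((0, 0), (1, 0), (0, -1)), by decide, vec3 e0 e1 egm⟩
  · exact ⟨((1, 0), (0, -1), (0, 0)), by decide, vec3 e1 egm e0⟩
  · exact ⟨((0, -1), (0, 0), (1, 0)), by decide, vec3 egm e0 e1⟩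
  · exact ⟨((0, 0), (-1, 0), (0, 1)), by decide, vec3 e0 em1 eg⟩
  · exact ⟨((-1, 0), (0, 1), (0, 0)), by decide, vec3 em1 eg e0⟩
  · exact ⟨((0, 1), (0, 0), (-1, 0)), by decide, vec3 eg e0 em1⟩
  · exact ⟨((0, 0), (-1, 0), (0, -1)), by decide, vec3 e0 em1 egm⟩
  · exact ⟨((-1, 0), (0, -1), (0, 0)), by decide, vec3 em1 egm e0⟩
  · exact ⟨((0, -1), (0, 0), (-1, 0)), by decide, vec3 egm e0 em1⟩

theorem VI_of {x : Z3} (hx : x ∈ LI) : ev3 x ∈ VI := by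
  simp only [LI, List.mem_cons, List.not_mem_nil, or_false] at hx
  rcases hx with rfl | rfl | rfl | rfl | rfl | rfl | rfl | rfl | rfl | rfl | rfl | rfl
  · exact ⟨1, 1, Or.inl rfl, Or.inl rfl, Or.inl (vec3 e0 e1 eg).symm⟩
  · exact ⟨1, -1, Or.inl rfl, Or.inr rfl, Or.inl (vec3 e0 e1 egm).symm⟩
  · exact ⟨-1, 1, Or.inr rfl, Or.inl rfl, Or.inl (vec3 e0 em1 eg).symm⟩
  · exact ⟨-1, -1, Or.inr rfl, Or.inr rfl, Or.inl (vec3 e0 em1 egm).symm⟩
  · exact ⟨1, 1, Or.inl rfl, Or.inl rfl, Or.inr (Or.inl (vec3 e1 eg e0).symm)⟩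
  · exact ⟨1, -1, Or.inl rfl, Or.inr rfl, Or.inr (Or.inl (vec3 e1 egm e0).symm)⟩
  · exact ⟨-1, 1, Or.inr rfl, Or.inl rfl, Or.inr (Or.inl (vec3 em1 eg e0).symm)⟩
  · exact ⟨-1, -1, Or.inr rfl, Or.inr rfl, Or.inr (Or.inl (vec3 em1 egm e0).symm)⟩
  · exact ⟨1, 1, Or.inl rfl, Or.inl rfl, Or.inr (Or.inr (vec3 eg e0 e1).symm)⟩
  · exact ⟨1, -1, Or.inl rfl, Or.inr rfl, Or.inr (Or.inr (vec3 egm e0 e1).symm)⟩
  · exact ⟨-1, 1, Or.inr rfl, Or.inl rfl, Or.inr (Or.inr (vec3 eg e0 em1).symm)⟩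
  · exact ⟨-1, -1, Or.inr rfl, Or.inr rfl, Or.inr (Or.inr (vec3 egm e0 em1).symm)⟩

theorem mem_LD {v : Fin 3 → ℝ} (hv : v ∈ VD) : ∃ x ∈ LD, v = ev3 x := by
  obtain ⟨r, s, t, hr, hs, ht, h⟩ := hv
  rcases hr with rfl | rfl <;> rcases hs with rfl | rfl <;> rcases ht with rfl | rfl <;>
    rcases h with rfl | rfl | rfl | rfl
  · exact ⟨((1, 0), (1, 0), (1, 0)), by decide, vec3 e1 e1 e1⟩
  · exact ⟨((0, 0), (-1, 1), (0, 1)), by decide, vec3 e0 ei eg⟩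
  · exact ⟨((-1, 1), (0, 1), (0, 0)), by decide, vec3 ei eg e0⟩
  · exact ⟨((0, 1), (0, 0), (-1, 1)), by decide, vec3 eg e0 ei⟩
  · exact ⟨((1, 0), (1, 0), (-1, 0)), by decide, vec3 e1 e1 em1⟩
  · exact ⟨((0, 0), (-1, 1), (0, -1)), by decide, vec3 e0 ei egm⟩
  · exact ⟨((-1, 1), (0, -1), (0, 0)), by decide, vec3 ei egm e0⟩
  · exact ⟨((0, -1), (0, 0), (-1, 1)), by decide, vec3 egm e0 ei⟩
  · exact ⟨((1, 0), (-1, 0), (1, 0)), by decide, vec3 e1 em1 e1⟩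
  · exact ⟨((0, 0), (1, -1), (0, 1)), by decide, vec3 e0 eim eg⟩
  · exact ⟨((1, -1), (0, 1), (0, 0)), by decide, vec3 eim eg e0⟩
  · exact ⟨((0, 1), (0, 0), (1, -1)), by decide, vec3 eg e0 eim⟩
  · exact ⟨((1, 0), (-1, 0), (-1, 0)), by decide, vec3 e1 em1 em1⟩
  · exact ⟨((0, 0), (1, -1), (0, -1)), by decide, vec3 e0 eim egm⟩
  · exact ⟨((1, -1), (0, -1), (0, 0)), by decide, vec3 eim egm e0⟩
  · exact ⟨((0, -1), (0, 0), (1, -1)), by decide, vec3 egm e0 eim⟩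
  · exact ⟨((-1, 0), (1, 0), (1, 0)), by decide, vec3 em1 e1 e1⟩
  · exact ⟨((0, 0), (-1, 1), (0, 1)), by decide, vec3 e0 ei eg⟩
  · exact ⟨((-1, 1), (0, 1), (0, 0)), by decide, vec3 ei eg e0⟩
  · exact ⟨((0, 1), (0, 0), (-1, 1)), by decide, vec3 eg e0 ei⟩
  · exact ⟨((-1, 0), (1, 0), (-1, 0)), by decide, vec3 em1 e1 em1⟩
  · exact ⟨((0, 0), (-1, 1), (0, -1)), by decide, vec3 e0 ei egm⟩
  · exact ⟨((-1, 1), (0, -1), (0, 0)), by decide, vec3 ei egm e0⟩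
  · exact ⟨((0, -1), (0, 0), (-1, 1)), by decide, vec3 egm e0 ei⟩
  · exact ⟨((-1, 0), (-1, 0), (1, 0)), by decide, vec3 em1 em1 e1⟩
  · exact ⟨((0, 0), (1, -1), (0, 1)), by decide, vec3 e0 eim eg⟩
  · exact ⟨((1, -1), (0, 1), (0, 0)), by decide, vec3 eim eg e0⟩
  · exact ⟨((0, 1), (0, 0), (1, -1)), by decide, vec3 eg e0 eim⟩
  · exact ⟨((-1, 0), (-1, 0), (-1, 0)), by decide, vec3 em1 em1 em1⟩
  · exact ⟨((0, 0), (1, -1), (0, -1)), by decide, vec3 e0 eim egm⟩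
  · exact ⟨((1, -1), (0, -1), (0, 0)), by decide, vec3 eim egm e0⟩
  · exact ⟨((0, -1), (0, 0), (1, -1)), by decide, vec3 egm e0 eim⟩

theorem VD_of {x : Z3} (hx : x ∈ LD) : ev3 x ∈ VD := by
  simp only [LD, List.mem_cons, List.not_mem_nil, or_false] at hx
  rcases hx with rfl | rfl | rfl | rfl | rfl | rfl | rfl | rfl | rfl | rfl | rfl | rfl | rfl | rfl | rfl | rfl | rfl | rfl | rfl | rfl
  · exact ⟨1, 1, 1, Or.inl rfl, Or.inl rfl, Or.inl rfl, Or.inl (vec3 e1 e1 e1).symm⟩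
  · exact ⟨1, 1, -1, Or.inl rfl, Or.inl rfl, Or.inr rfl, Or.inl (vec3 e1 e1 em1).symm⟩
  · exact ⟨1, -1, 1, Or.inl rfl, Or.inr rfl, Or.inl rfl, Or.inl (vec3 e1 em1 e1).symm⟩
  · exact ⟨1, -1, -1, Or.inl rfl, Or.inr rfl, Or.inr rfl, Or.inl (vec3 e1 em1 em1).symm⟩
  · exact ⟨-1, 1, 1, Or.inr rfl, Or.inl rfl, Or.inl rfl, Or.inl (vec3 em1 e1 e1).symm⟩
  · exact ⟨-1, 1, -1, Or.inr rfl, Or.inl rfl, Or.inr rfl, Or.inl (vec3 em1 e1 em1).symm⟩
  · exact ⟨-1, -1, 1, Or.inr rfl, Or.inr rfl, Or.inl rfl, Or.inl (vec3 em1 em1 e1).symm⟩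
  · exact ⟨-1, -1, -1, Or.inr rfl, Or.inr rfl, Or.inr rfl, Or.inl (vec3 em1 em1 em1).symm⟩
  · exact ⟨1, 1, 1, Or.inl rfl, Or.inl rfl, Or.inl rfl, Or.inr (Or.inl (vec3 e0 ei eg).symm)⟩
  · exact ⟨1, 1, -1, Or.inl rfl, Or.inl rfl, Or.inr rfl, Or.inr (Or.inl (vec3 e0 ei egm).symm)⟩
  · exact ⟨1, -1, 1, Or.inl rfl, Or.inr rfl, Or.inl rfl, Or.inr (Or.inl (vec3 e0 eim eg).symm)⟩
  · exact ⟨1, -1, -1, Or.inl rfl, Or.inr rfl, Or.inr rfl, Or.inr (Or.inl (vec3 e0 eim egm).symm)⟩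
  · exact ⟨1, 1, 1, Or.inl rfl, Or.inl rfl, Or.inl rfl, Or.inr (Or.inr (Or.inl (vec3 ei eg e0).symm))⟩
  · exact ⟨1, 1, -1, Or.inl rfl, Or.inl rfl, Or.inr rfl, Or.inr (Or.inr (Or.inl (vec3 ei egm e0).symm))⟩
  · exact ⟨1, -1, 1, Or.inl rfl, Or.inr rfl, Or.inl rfl, Or.inr (Or.inr (Or.inl (vec3 eim eg e0).symm))⟩
  · exact ⟨1, -1, -1, Or.inl rfl, Or.inr rfl, Or.inr rfl, Or.inr (Or.inr (Or.inl (vec3 eim egm e0).symm))⟩
  · exact ⟨1, 1, 1, Or.inl rfl, Or.inl rfl, Or.inl rfl, Or.inr (Or.inr (Or.inr (vec3 eg e0 ei).symm))⟩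
  · exact ⟨1, 1, -1, Or.inl rfl, Or.inl rfl, Or.inr rfl, Or.inr (Or.inr (Or.inr (vec3 egm e0 ei).symm))⟩
  · exact ⟨1, -1, 1, Or.inl rfl, Or.inr rfl, Or.inl rfl, Or.inr (Or.inr (Or.inr (vec3 eg e0 eim).symm))⟩
  · exact ⟨1, -1, -1, Or.inl rfl, Or.inr rfl, Or.inr rfl, Or.inr (Or.inr (Or.inr (vec3 egm e0 eim).symm))⟩

/-- the negative of a vector -/
def neg3 (v : Z3) : Z3 := (sub (0, 0) v.1, sub (0, 0) v.2.1, sub (0, 0) v.2.2)

theorem ev_neg3 (v : Z3) : ev3 (neg3 v) = - ev3 v := by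
  ext i
  fin_cases i <;> simp [ev3, neg3, ev_sub, ← e0]

theorem chk_negI : ∀ v ∈ LI, neg3 v ∈ LI := by decide +kernel
theorem chk_negD : ∀ v ∈ LD, neg3 v ∈ LD := by decide +kernel
theorem chk_nrmI : ∀ j : Fin 12, nrm (get4 PI j) = (4, 0) := by decide +kernel
theorem chk_nrmD : ∀ j : Fin 12, nrm (get4 PD j) = (4, 0) := by decide +kernel

theorem nq_ev (q : Z4) : nq (ev4 q) = ev (nrm q) := by
  simp [nq, ev4, nrm, ev_add, ev_mul]
  ring

theorem fin_of {V : Set (Fin 3 → ℝ)} {L : List Z3} (h : ∀ v ∈ V, ∃ x ∈ L, v = ev3 x) :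
    V.Finite := by
  refine Set.Finite.subset ((L.toFinset.finite_toSet).image ev3) fun v hv => ?_
  obtain ⟨x, hx, rfl⟩ := h v hv
  exact ⟨x, by simpa using hx, rfl⟩

/-- the three mirror vectors -/
noncomputable def uu (a : List Z3) (i : Fin 3) : Fin 3 → ℝ := (1 / 2 : ℝ) • ev3 (get3 a i)

theorem uuI : ∀ i, uu aI i ⬝ᵥ uu aI i = 1 := by
  intro i
  have h := g2
  fin_cases i
  · simp [uu, get3, aI, ev3, ev, dotProduct, Fin.sum_univ_succ]
  · simp [uu, get3, aI, ev3, ev, dotProduct, Fin.sum_univ_succ]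
  · simp [uu, get3, aI, ev3, ev, dotProduct, Fin.sum_univ_succ]
    linear_combination (1 / 2 : ℝ) * h

theorem uuD : ∀ i, uu aD i ⬝ᵥ uu aD i = 1 := by
  intro i
  have h := g2
  fin_cases i
  · simp [uu, get3, aD, ev3, ev, dotProduct, Fin.sum_univ_succ]
  · simp [uu, get3, aD, ev3, ev, dotProduct, Fin.sum_univ_succ]
  · simp [uu, get3, aD, ev3, ev, dotProduct, Fin.sum_univ_succ]
    linear_combination (1 / 2 : ℝ) * h

theorem posI : ∀ i, 0 < (![1, 1, 10] : Fin 3 → ℝ) ⬝ᵥ uu aI i := by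
  intro i
  have h := g2
  have h1 := g1
  fin_cases i
  · simp [uu, get3, aI, ev3, ev, dotProduct, Fin.sum_univ_succ]
  · simp [uu, get3, aI, ev3, ev, dotProduct, Fin.sum_univ_succ]
  · simp [uu, get3, aI, ev3, ev, dotProduct, Fin.sum_univ_succ]
    nlinarith

theorem posD : ∀ i, 0 < (![1, 1, 10] : Fin 3 → ℝ) ⬝ᵥ uu aD i := by
  intro i
  have h := g2
  have h1 := g1
  fin_cases i
  · simp [uu, get3, aD, ev3, ev, dotProduct, Fin.sum_univ_succ]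
  · simp [uu, get3, aD, ev3, ev, dotProduct, Fin.sum_univ_succ]
  · simp [uu, get3, aD, ev3, ev, dotProduct, Fin.sum_univ_succ]
    nlinarith

/-- the entries of the rotation matrix -/
def ent (q : Z4) : Fin 3 → Fin 3 → ℤ × ℤ :=
  let a := q.1
  let b := q.2.1
  let c := q.2.2.1
  let d := q.2.2.2
  ![![sub (sub (add (mul a a) (mul b b)) (mul c c)) (mul d d), dbl (sub (mul b c) (mul a d)),
      dbl (add (mul b d) (mul a c))],
    ![dbl (add (mul b c) (mul a d)), sub (add (sub (mul a a) (mul b b)) (mul c c)) (mul d d),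
      dbl (sub (mul c d) (mul a b))],
    ![dbl (sub (mul b d) (mul a c)), dbl (add (mul c d) (mul a b)),
      add (sub (sub (mul a a) (mul b b)) (mul c c)) (mul d d)]]

theorem ev_dbl (x : ℤ × ℤ) : ev (dbl x) = 2 * ev x := by
  rw [dbl, ev_add]; ring

theorem ev_ent (q : Z4) (i k : Fin 3) : Rm (ev4 q) i k = ev (ent q i k) := by
  fin_cases i <;> fin_cases k <;>
    simp [Rm, ev4, ent, ev_dbl, ev_add, ev_mul, ev_sub] <;> ring

theorem sum_ev (f : Fin 12 → ℤ × ℤ) : ∑ j, ev (f j) = ev (∑ j, (f j).1, ∑ j, (f j).2) := by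
  simp only [ev]
  rw [Finset.sum_add_distrib]
  push_cast
  rw [Finset.sum_mul]

set_option maxRecDepth 100000 in
theorem chk_sumI : ∀ i k : Fin 3, ((∑ j, (ent (get4 PI j) i k).1, ∑ j, (ent (get4 PI j) i k).2) :
    ℤ × ℤ) = if i = k then (0, 16) else (0, 0) := by
  decide +kernel

set_option maxRecDepth 100000 in
theorem chk_sumD : ∀ i k : Fin 3, ((∑ j, (ent (get4 PD j) i k).1, ∑ j, (ent (get4 PD j) i k).2) :
    ℤ × ℤ) = if i = k then (0, 16) else (0, 0) := by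
  decide +kernel

theorem sum_of {P : List Z4} (h : ∀ i k : Fin 3, ((∑ j, (ent (get4 P j) i k).1,
    ∑ j, (ent (get4 P j) i k).2) : ℤ × ℤ) = if i = k then (0, 16) else (0, 0)) :
    (∑ j : Fin 12, Rm (ev4 (get4 P j))) = (16 * g) • (1 : Matrix (Fin 3) (Fin 3) ℝ) := by
  ext i k
  rw [Matrix.sum_apply, Matrix.smul_apply, Matrix.one_apply]
  simp only [ev_ent]
  rw [sum_ev, h i k]
  by_cases hik : i = k
  · simp [hik, ev]
  · simp [hik, ev]

theorem sumI : (∑ j : Fin 12, Rm (ev4 (get4 PI j))) = (16 * g) • (1 : Matrix (Fin 3) (Fin 3) ℝ) :=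
  sum_of chk_sumI

theorem sumD : (∑ j : Fin 12, Rm (ev4 (get4 PD j))) = (16 * g) • (1 : Matrix (Fin 3) (Fin 3) ℝ) :=
  sum_of chk_sumD

end Red

open Red in
theorem redi : S_REDI := by
  intro hG c Q hQ n hn hW
  obtain ⟨p, n', hp0, hn0, hu, hj, hWQ⟩ := hG VI (fin_of fun v hv => mem_LI hv)
    ⟨_, VI_of (x := ((0, 0), (1, 0), (0, 1))) (by decide)⟩
    (fun v hv => by
      obtain ⟨x, hx, rfl⟩ := mem_LI hv
      rw [← ev_neg3]
      exact VI_of (chk_negI x hx))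
    (uu aI) ![1, 1, 10] (fun j => ev4 (get4 PI j)) uuI posI
    (fun i v hv => by
      obtain ⟨x, hx, rfl⟩ := mem_LI hv
      obtain ⟨y, hy, e⟩ := refl_mem (chk_reflI i) hx
      have e' : ev3 x - (2 * (ev3 x ⬝ᵥ uu aI i)) • uu aI i = ev3 y := e
      rw [e']
      exact VI_of hy)
    (fun j => by
      rw [nq_ev, chk_nrmI j]; simp [ev])
    (fun j v hv => by
      obtain ⟨x, hx, rfl⟩ := mem_LI hv
      obtain ⟨y, hy, e⟩ := rot_mem (chk_rotI j) hx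
      rw [e]
      exact VI_of hy)
    sumI c Q hQ n hn hW
  have hg2 := g2
  have hg1 := g1
  have h0 : 0 ≤ n' 0 := by
    have := hu 0
    simp [uu, get3, aI, ev3, ev, dotProduct, Fin.sum_univ_succ] at this
    linarith
  have h1 : 0 ≤ n' 1 := by
    have := hu 1
    simp [uu, get3, aI, ev3, ev, dotProduct, Fin.sum_univ_succ] at this
    linarith
  have h2 : g * n' 0 + n' 1 ≤ (g - 1) * n' 2 := by
    have := hu 2
    simp [uu, get3, aI, ev3, ev, dotProduct, Fin.sum_univ_succ] at this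
    linarith
  have h3 : g ^ 2 * n' 0 + g * n' 1 ≤ n' 2 := by
    have h4 := mul_le_mul_of_nonneg_left h2 (by linarith : (0 : ℝ) ≤ g)
    have h5 : g * ((g - 1) * n' 2) = n' 2 := by linear_combination n' 2 * hg2
    rw [h5] at h4
    linarith
  refine ⟨p, n', hp0, ?_, h0, h1, ?_, h3, hWQ⟩
  · intro s t hs ht
    rcases hs with rfl | rfl <;> rcases ht with rfl | rfl
    · have a := hj 3
      have b := hj 7
      have c := hj 11
      simp [get4, PI, ev4, ev] at a b c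
      refine ⟨?_, ?_, ?_⟩ <;> linarith
    · have a := hj 2
      have b := hj 6
      have c := hj 10
      simp [get4, PI, ev4, ev] at a b c
      refine ⟨?_, ?_, ?_⟩ <;> linarith
    · have a := hj 1
      have b := hj 5
      have c := hj 9
      simp [get4, PI, ev4, ev] at a b c
      refine ⟨?_, ?_, ?_⟩ <;> linarith
    · have a := hj 0
      have b := hj 4
      have c := hj 8
      simp [get4, PI, ev4, ev] at a b c
      refine ⟨?_, ?_, ?_⟩ <;> linarith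
  · by_contra hneg
    push Not at hneg
    have a0 : 0 ≤ g ^ 2 * n' 0 := mul_nonneg (by positivity) h0
    have a1 : 0 ≤ g * n' 1 := mul_nonneg (by linarith) h1
    have b0 : g ^ 2 * n' 0 = 0 := by linarith
    have b1 : g * n' 1 = 0 := by linarith
    have b2 : n' 2 = 0 := by linarith
    have hgne : g ≠ 0 := by linarith
    apply hn0
    ext i
    fin_cases i
    · simpa using (mul_eq_zero.mp b0).resolve_left (pow_ne_zero 2 hgne)
    · simpa using (mul_eq_zero.mp b1).resolve_left hgne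
    · simpa using b2

open Red in
theorem redd : S_REDD := by
  intro hG c Q hQ n hn hW
  obtain ⟨p, n', hp0, hn0, hu, hj, hWQ⟩ := hG VD (fin_of fun v hv => mem_LD hv)
    ⟨_, VD_of (x := ((1, 0), (1, 0), (1, 0))) (by decide)⟩
    (fun v hv => by
      obtain ⟨x, hx, rfl⟩ := mem_LD hv
      rw [← ev_neg3]
      exact VD_of (chk_negD x hx))
    (uu aD) ![1, 1, 10] (fun j => ev4 (get4 PD j)) uuD posD
    (fun i v hv => by
      obtain ⟨x, hx, rfl⟩ := mem_LD hv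
      obtain ⟨y, hy, e⟩ := refl_mem (chk_reflD i) hx
      have e' : ev3 x - (2 * (ev3 x ⬝ᵥ uu aD i)) • uu aD i = ev3 y := e
      rw [e']
      exact VD_of hy)
    (fun j => by
      rw [nq_ev, chk_nrmD j]; simp [ev])
    (fun j v hv => by
      obtain ⟨x, hx, rfl⟩ := mem_LD hv
      obtain ⟨y, hy, e⟩ := rot_mem (chk_rotD j) hx
      rw [e]
      exact VD_of hy)
    sumD c Q hQ n hn hW
  have hg2 := g2
  have hg1 := g1
  have h0 : 0 ≤ n' 0 := by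
    have := hu 0
    simp [uu, get3, aD, ev3, ev, dotProduct, Fin.sum_univ_succ] at this
    linarith
  have h1 : 0 ≤ n' 1 := by
    have := hu 1
    simp [uu, get3, aD, ev3, ev, dotProduct, Fin.sum_univ_succ] at this
    linarith
  have h2 : n' 0 + g * n' 1 ≤ (g - 1) * n' 2 := by
    have := hu 2
    simp [uu, get3, aD, ev3, ev, dotProduct, Fin.sum_univ_succ] at this
    linarith
  have h3 : g * n' 0 + g ^ 2 * n' 1 ≤ n' 2 := by
    have h4 := mul_le_mul_of_nonneg_left h2 (by linarith : (0 : ℝ) ≤ g)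
    have h5 : g * ((g - 1) * n' 2) = n' 2 := by linear_combination n' 2 * hg2
    rw [h5] at h4
    linarith
  refine ⟨p, n', hp0, ?_, h0, h1, ?_, h3, hWQ⟩
  · intro s t hs ht
    rcases hs with rfl | rfl <;> rcases ht with rfl | rfl
    · have a := hj 3
      have b := hj 7
      have c := hj 11
      simp [get4, PD, ev4, ev] at a b c
      refine ⟨?_, ?_, ?_⟩ <;> linarith
    · have a := hj 2
      have b := hj 6
      have c := hj 10
      simp [get4, PD, ev4, ev] at a b c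
      refine ⟨?_, ?_, ?_⟩ <;> linarith
    · have a := hj 1
      have b := hj 5
      have c := hj 9
      simp [get4, PD, ev4, ev] at a b c
      refine ⟨?_, ?_, ?_⟩ <;> linarith
    · have a := hj 0
      have b := hj 4
      have c := hj 8
      simp [get4, PD, ev4, ev] at a b c
      refine ⟨?_, ?_, ?_⟩ <;> linarith
  · by_contra hneg
    push Not at hneg
    have a0 : 0 ≤ g * n' 0 := mul_nonneg (by linarith) h0
    have a1 : 0 ≤ g ^ 2 * n' 1 := mul_nonneg (by positivity) h1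
    have b0 : g * n' 0 = 0 := by linarith
    have b1 : g ^ 2 * n' 1 = 0 := by linarith
    have b2 : n' 2 = 0 := by linarith
    have hgne : g ≠ 0 := by linarith
    apply hn0
    ext i
    fin_cases i
    · simpa using (mul_eq_zero.mp b0).resolve_left hgne
    · simpa using (mul_eq_zero.mp b1).resolve_left (pow_ne_zero 2 hgne)
    · simpa using b2

end Pool.Agent.H315.NW
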