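import Pool.Agent.H315.NW.FinI
import Pool.Agent.H315.NW.FinD
import Pool.Agent.H315.NW.Link
import Pool.Agent.H315.NW.Alg
import Pool.Agent.H315.NW.Low
import Pool.Agent.H315.NW.RedG
import Pool.Agent.H315.NW.RedID
import Pool.Agent.H315.NW.ConP
import Pool.Agent.H315.NW.PolyI
import Pool.Agent.H315.NW.PolyD
import Pool.Agent.H315.NW.LocI
import Pool.Agent.H315.NW.LocD

/-!
# Project NW (helper315): the Nieuwland numbers of the icosahedron and of the dodecahedron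
-/

set_option autoImplicit false

namespace Pool.Agent.H315.NW

open Matrix

theorem g_bd : (1.618 : ℝ) ≤ g ∧ g ≤ 1.6181 := by
  have h1 := Zp.g_lo
  have h2 := Zp.g_hi
  constructor
  · refine le_trans ?_ h1; norm_num
  · refine le_trans h2 ?_; norm_num

theorem VI_fin : VI.Finite := by
  refine ((List.finite_toSet (vsI.map ZT.r))).subset ?_
  intro z hz
  obtain ⟨v, hv, rfl⟩ := mem_vsI z hz
  exact List.mem_map.2 ⟨v, hv, rfl⟩

theorem VD_fin : VD.Finite := by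
  refine ((List.finite_toSet (vsD.map ZT.r))).subset ?_
  intro z hz
  obtain ⟨v, hv, rfl⟩ := mem_vsD z hz
  exact List.mem_map.2 ⟨v, hv, rfl⟩

theorem VI_ne : VI.Nonempty := ⟨_, 1, 1, Or.inl rfl, Or.inl rfl, Or.inl rfl⟩

theorem VD_ne : VD.Nonempty := ⟨_, 1, 1, 1, Or.inl rfl, Or.inl rfl, Or.inl rfl, Or.inl rfl⟩

theorem upI {c : ℝ} (hc : c ∈ SC VI) : c ≤ nu := by
  by_contra hlt
  push Not at hlt
  obtain ⟨Q, hQ, n, hn, hW⟩ := link VI VI_fin VI_ne VI_neg c hc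
  obtain ⟨p, n', hp0, hdom, hn0, hn1, hn2, hn3, hWQ⟩ := redi redg c Q hQ n hn hW
  obtain ⟨gl, gu⟩ := g_bd
  have hg : g ^ 2 = g + 1 := Real.goldenRatio_sq
  have hs : 0 < (1458176 : ℝ) / p 0 := by positivity
  have ht : 0 < (8192000 : ℝ) / n' 2 := by positivity
  have hsp : (1458176 : ℝ) / p 0 * p 0 = 1458176 := by field_simp
  have htn : (8192000 : ℝ) / n' 2 * n' 2 = 8192000 := by field_simp
  generalize (1458176 : ℝ) / p 0 = s at hs hsp
  generalize (8192000 : ℝ) / n' 2 = t at ht htn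
  have hW2 := WQ_smul hWQ hs.ne' ht.ne'
  have D : ∀ a b : ℝ, (a = 1 ∨ a = -1) → (b = 1 ∨ b = -1) →
      a * (g - 1) * (s * p 2) + b * (s * p 3) ≤ (2 - g) * 1458176 ∧
      a * (g - 1) * (s * p 1) + b * (s * p 2) ≤ (2 - g) * 1458176 ∧
      a * (g - 1) * (s * p 3) + b * (s * p 1) ≤ (2 - g) * 1458176 := by
    intro a b ha hb
    obtain ⟨d1, d2, d3⟩ := hdom a b ha hb
    have e1 := mul_le_mul_of_nonneg_left d1 hs.le
    have e2 := mul_le_mul_of_nonneg_left d2 hs.le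
    have e3 := mul_le_mul_of_nonneg_left d3 hs.le
    rw [← hsp]
    refine ⟨?_, ?_, ?_⟩ <;> linarith
  obtain ⟨a1, a2, a3⟩ := D 1 1 (Or.inl rfl) (Or.inl rfl)
  obtain ⟨b1, b2, b3⟩ := D 1 (-1) (Or.inl rfl) (Or.inr rfl)
  obtain ⟨c1, c2, c3⟩ := D (-1) 1 (Or.inr rfl) (Or.inl rfl)
  obtain ⟨d1, d2, d3⟩ := D (-1) (-1) (Or.inr rfl) (Or.inr rfl)
  have m0 : 0 ≤ t * n' 0 := mul_nonneg ht.le hn0
  have m1 : 0 ≤ t * n' 1 := mul_nonneg ht.le hn1
  have m2 : g ^ 2 * (t * n' 0) + g * (t * n' 1) ≤ 8192000 := by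
    have := mul_le_mul_of_nonneg_left hn3 ht.le
    rw [← htn]; linarith
  refine noneI (c := c) (p := fun i => s * p i) (n := fun i => t * n' i) nu_ok alg_ok con polyi
    loci hlt ?_ ?_ ?_ ?_ ?_ ?_ ?_ ?_ ⟨?_, ?_, hW2⟩
  · simp only [SP]; exact_mod_cast hsp
  · rw [abs_le]; constructor <;> linarith
  · rw [abs_le]; constructor <;> linarith
  · rw [abs_le]; constructor <;> linarith
  · exact m0
  · exact m1
  · simp only [SN]; exact_mod_cast htn
  · rw [hg] at m2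
    push_cast
    generalize t * n' 0 = u at *
    generalize t * n' 1 = v at *
    have h1 : (1.618 + 1) * u ≤ (g + 1) * u := mul_le_mul_of_nonneg_right (by linarith) m0
    have h2 : 1.618 * v ≤ g * v := mul_le_mul_of_nonneg_right gl m1
    rw [div_add_div _ _ (by norm_num) (by norm_num), div_le_one (by norm_num)]
    linarith
  · exact mul_pos hs hp0
  · intro o ho
    simp only [osI, List.mem_cons, List.not_mem_nil, or_false] at ho
    rcases ho with rfl | rfl | rfl | rfl | rfl | rfl | rfl | rfl | rfl | rfl | rfl | rfl <;>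
      simp only [Zp.zv, ZT.r, Matrix.cons_val_zero, Matrix.cons_val_one, Matrix.cons_val] <;>
      rw [hsp] <;> push_cast <;> linarith

theorem upD {c : ℝ} (hc : c ∈ SC VD) : c ≤ nu := by
  by_contra hlt
  push Not at hlt
  obtain ⟨Q, hQ, n, hn, hW⟩ := link VD VD_fin VD_ne VD_neg c hc
  obtain ⟨p, n', hp0, hdom, hn0, hn1, hn2, hn3, hWQ⟩ := redd redg c Q hQ n hn hW
  obtain ⟨gl, gu⟩ := g_bd
  have hg : g ^ 2 = g + 1 := Real.goldenRatio_sq
  have hs : 0 < (1458176 : ℝ) / p 0 := by positivity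
  have ht : 0 < (8192000 : ℝ) / n' 2 := by positivity
  have hsp : (1458176 : ℝ) / p 0 * p 0 = 1458176 := by field_simp
  have htn : (8192000 : ℝ) / n' 2 * n' 2 = 8192000 := by field_simp
  generalize (1458176 : ℝ) / p 0 = s at hs hsp
  generalize (8192000 : ℝ) / n' 2 = t at ht htn
  have hW2 := WQ_smul hWQ hs.ne' ht.ne'
  have D : ∀ a b : ℝ, (a = 1 ∨ a = -1) → (b = 1 ∨ b = -1) →
      a * (g - 1) * (s * p 3) + b * (s * p 2) ≤ (2 - g) * 1458176 ∧
      a * (g - 1) * (s * p 2) + b * (s * p 1) ≤ (2 - g) * 1458176 ∧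
      a * (g - 1) * (s * p 1) + b * (s * p 3) ≤ (2 - g) * 1458176 := by
    intro a b ha hb
    obtain ⟨d1, d2, d3⟩ := hdom a b ha hb
    have e1 := mul_le_mul_of_nonneg_left d1 hs.le
    have e2 := mul_le_mul_of_nonneg_left d2 hs.le
    have e3 := mul_le_mul_of_nonneg_left d3 hs.le
    rw [← hsp]
    refine ⟨?_, ?_, ?_⟩ <;> linarith
  obtain ⟨a1, a2, a3⟩ := D 1 1 (Or.inl rfl) (Or.inl rfl)
  obtain ⟨b1, b2, b3⟩ := D 1 (-1) (Or.inl rfl) (Or.inr rfl)
  obtain ⟨c1, c2, c3⟩ := D (-1) 1 (Or.inr rfl) (Or.inl rfl)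
  obtain ⟨d1, d2, d3⟩ := D (-1) (-1) (Or.inr rfl) (Or.inr rfl)
  have m0 : 0 ≤ t * n' 0 := mul_nonneg ht.le hn0
  have m1 : 0 ≤ t * n' 1 := mul_nonneg ht.le hn1
  have m2 : g * (t * n' 0) + g ^ 2 * (t * n' 1) ≤ 8192000 := by
    have := mul_le_mul_of_nonneg_left hn3 ht.le
    rw [← htn]; linarith
  refine noneD (c := c) (p := fun i => s * p i) (n := fun i => t * n' i) nu_ok alg_ok con polyd
    locd hlt ?_ ?_ ?_ ?_ ?_ ?_ ?_ ?_ ⟨?_, ?_, hW2⟩
  · simp only [SP]; exact_mod_cast hsp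
  · rw [abs_le]; constructor <;> linarith
  · rw [abs_le]; constructor <;> linarith
  · rw [abs_le]; constructor <;> linarith
  · exact m0
  · exact m1
  · simp only [SN]; exact_mod_cast htn
  · rw [hg] at m2
    push_cast
    generalize t * n' 0 = u at *
    generalize t * n' 1 = v at *
    have h1 : (1.618 + 1) * v ≤ (g + 1) * v := mul_le_mul_of_nonneg_right (by linarith) m1
    have h2 : 1.618 * u ≤ g * u := mul_le_mul_of_nonneg_right gl m0
    rw [div_add_div _ _ (by norm_num) (by norm_num), div_le_one (by norm_num)]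
    linarith
  · exact mul_pos hs hp0
  · intro o ho
    simp only [osD, List.mem_cons, List.not_mem_nil, or_false] at ho
    rcases ho with rfl | rfl | rfl | rfl | rfl | rfl | rfl | rfl | rfl | rfl | rfl | rfl <;>
      simp only [Zp.zv, ZT.r, Matrix.cons_val_zero, Matrix.cons_val_one, Matrix.cons_val] <;>
      rw [hsp] <;> push_cast <;> linarith

theorem nu_pos : 0 < nu := by
  have := nu_ok.2.1
  linarith

theorem sup_eq {S : Set ℝ} (hu : ∀ c ∈ S, c ≤ nu) (hl : ∀ c : ℝ, 0 < c → c < nu → c ∈ S) :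
    sSup S = nu := by
  have hp := nu_pos
  refine csSup_eq_of_forall_le_of_forall_lt_exists_gt ⟨nu / 2, hl _ (by linarith) (by linarith)⟩
    hu ?_
  intro b hb
  have h1 : max b 0 < nu := max_lt hb hp
  have h2 : 0 ≤ max b 0 := le_max_right _ _
  have h3 : b ≤ max b 0 := le_max_left _ _
  exact ⟨(max b 0 + nu) / 2, hl _ (by linarith) (by linarith), by linarith⟩

theorem main (V : Set (Fin 3 → ℝ)) (hV : V = VI ∨ V = VD) :
    ∃ ν : ℝ, sSup (SC V) = ν ∧
      2025 * ν ^ 8 - 11970 * ν ^ 6 + 17009 * ν ^ 4 - 9000 * ν ^ 2 + 2000 = 0 ∧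
      1.01 < ν ∧ ν < 1.011 := by
  obtain ⟨h1, h2, h3⟩ := nu_ok
  refine ⟨nu, ?_, h1, by linarith, by linarith⟩
  rcases hV with rfl | rfl
  · exact sup_eq (fun c hc => upI hc) (lowi nu_ok alg_ok)
  · exact sup_eq (fun c hc => upD hc) (lowd nu_ok alg_ok)

end Pool.Agent.H315.NW
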