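import Pool.Agent.H315.NW.Zp

/-!
# Project NW (helper315): valid data from lists over `ℤ[φ]`
-/

set_option autoImplicit false

namespace Pool.Agent.H315.NW

open Matrix

/-- the zero vector -/
def ZT0 : ZT := ⟨(0, 0), (0, 0), (0, 0)⟩

/-- the face with the given index -/
def fget (fs : List ZT) (i : ℕ) : ZT := (fs[i]?).getD ZT0

/-- the sign function of a face -/
noncomputable def sgn (fs : List ZT) (f : ℕ) (p : Fin 4 → ℝ) (n : Fin 3 → ℝ) : ℝ :=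
  (fget fs f).r ⬝ᵥ (Rm p *ᵥ n)

/-- the edge record of a pair of faces -/
def mkE (fs : List ZT) (ij : ℕ × ℕ) : ER :=
  ⟨ij.1, ij.2, (ZT.cross (fget fs ij.1) (fget fs ij.2)).ap,
    (ZT.dif (fget fs ij.1) (fget fs ij.2)).ap2⟩

/-- the sizes of the integers are admissible -/
def bnd3 (a : Z3) (b : ℕ) : Bool :=
  decide (|a.x| ≤ 2 ^ b) && decide (|a.y| ≤ 2 ^ b) && decide (|a.z| ≤ 2 ^ b)

/-- the check of the edges -/
def chkE (fs : List ZT) (ij : ℕ × ℕ) : Bool :=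
  (ZT.cross (fget fs ij.1) (fget fs ij.2)).sm && (ZT.dif (fget fs ij.1) (fget fs ij.2)).sm &&
    bnd3 (mkE fs ij).a 47 && bnd3 (mkE fs ij).t 103

/-- the points in question -/
def BadP (V : Set (Fin 3 → ℝ)) (c : ℝ) (os : List ((ℤ × ℤ) × ZT)) (p : Fin 4 → ℝ)
    (n : Fin 3 → ℝ) : Prop :=
  0 < p 0 ∧ (∀ o ∈ os, Zp.zv o.1 * p 0 + o.2.r 0 * p 1 + o.2.r 1 * p 2 + o.2.r 2 * p 3 ≤ 0) ∧
    WQ V c p n

theorem nq_pos {p : Fin 4 → ℝ} (h : 0 < p 0) : 0 < nq p := by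
  unfold nq; positivity

theorem bnd3_v {a : Z3} {b : ℕ} (h : bnd3 a b = true) (i : Fin 3) : |a.v i| ≤ 2 ^ b := by
  simp only [bnd3, Bool.and_eq_true, decide_eq_true_eq] at h
  fin_cases i
  · exact h.1.1
  · exact h.1.2
  · exact h.2

theorem fget_sm {fs : List ZT} (h : ∀ F ∈ fs, F.sm = true) (i : ℕ) : (fget fs i).sm = true := by
  unfold fget
  cases hf : fs[i]? with
  | none => decide
  | some F => exact h F (List.mem_of_getElem? hf)

theorem mkD {V : Set (Fin 3 → ℝ)} (hVs : ∀ v ∈ V, -v ∈ V) {c : ℝ} (hc : (4016 : ℝ) / 3973 ≤ c)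
    (hcon : S_CON) {D : Dat} {fs vs : List ZT} {idx : List (ℕ × ℕ)} {os : List ((ℤ × ℤ) × ZT)}
    (he : D.edges = idx.map (mkE fs)) (hv : D.verts = vs.map ZT.ap)
    (hf : D.faces = fs.map ZT.ap2) (ho : D.outs = os.map fun o => (Zp.ap o.1, o.2.ap))
    (hF : ∀ i, ∀ z ∈ V, (fget fs i).r ⬝ᵥ z ≤ g ^ 2) (hV : ∀ v ∈ vs, v.r ∈ V)
    (hi : ∀ ij ∈ idx, chkE fs ij = true) (hvs : ∀ v ∈ vs, v.sm = true ∧ bnd3 v.ap 45 = true)
    (hfs : ∀ F ∈ fs, F.sm = true ∧ bnd3 F.ap2 103 = true)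
    (hos : ∀ o ∈ os, o.2.sm = true ∧ |o.1.2| ≤ 2)
    (hl : ∀ l ∈ D.locs, ∀ p n, BadP V c os p n → p 0 = SP → n 2 = SN →
      (l.lx : ℝ) - LP ≤ p 1 → p 1 ≤ (l.hx : ℝ) - LP → (l.ly : ℝ) - LP ≤ p 2 →
      p 2 ≤ (l.hy : ℝ) - LP → (l.lz : ℝ) - LP ≤ p 3 → p 3 ≤ (l.hz : ℝ) - LP →
      0 ≤ n 0 → n 0 ≤ (l.ha : ℝ) → (l.lb : ℝ) ≤ n 1 → n 1 ≤ (l.hb : ℝ) → False)
    (hh : ∀ h ∈ D.holes, ∀ p n, InC h.1 p n →
      (∀ f, Nat.testBit h.2.1 f = true → 0 ≤ sgn fs f p n) →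
      (∀ f, Nat.testBit h.2.2 f = true → sgn fs f p n ≤ 0) → ¬ BadP V c os p n) :
    DOK D (sgn fs) (BadP V c os) := by
  constructor
  · intro E hE v hv'
    rw [he] at hE
    rw [hv] at hv'
    obtain ⟨ij, hij, rfl⟩ := List.mem_map.1 hE
    obtain ⟨v, hvv, rfl⟩ := List.mem_map.1 hv'
    have h1 := hi ij hij
    simp only [chkE, Bool.and_eq_true] at h1
    obtain ⟨⟨⟨s1, s2⟩, b1⟩, b2⟩ := h1
    obtain ⟨s3, b3⟩ := hvs v hvv
    refine ⟨fun i => 2 ^ 44 * (ZT.cross (fget fs ij.1) (fget fs ij.2)).r i,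
      fun i => cd * 2 ^ 88 * (ZT.dif (fget fs ij.1) (fget fs ij.2)).r i,
      fun i => 2 ^ 44 * v.r i, ?_, ?_⟩
    · refine ⟨⟨bnd3_v b1 0, bnd3_v b1 1, bnd3_v b1 2, bnd3_v b3 0, bnd3_v b3 1, bnd3_v b3 2,
        bnd3_v b2 0, bnd3_v b2 1, bnd3_v b2 2⟩, ?_, ?_, ?_, ?_⟩
      · intro i
        have := ZT.r_le s1 i
        rw [abs_mul, abs_of_nonneg (by positivity : (0 : ℝ) ≤ 2 ^ 44)]
        have h2 : (2 : ℝ) ^ 44 * |(ZT.cross (fget fs ij.1) (fget fs ij.2)).r i| ≤ 2 ^ 44 * 6 :=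
          mul_le_mul_of_nonneg_left this (by positivity)
        refine h2.trans (by norm_num)
      · exact fun i => ZT.ap_r s1 i
      · exact fun i => ZT.ap_r s3 i
      · exact fun i => ZT.ap2_r s2 i
    · intro p n hB h1 h2
      obtain ⟨hp0, -, hW⟩ := hB
      have hW' := hcon.2.2 V c (4016 / 3973) p n hVs (by norm_num) hc hW
      have hG := hcon.1 V (4016 / 3973) p n (fget fs ij.1).r (fget fs ij.2).r v.r (nq_pos hp0)
        (hF _) (hF _) (hV v hvv) hW' h1 h2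
      rw [bf_Rm, ZT.cross_r, ZT.dif_r]
      have e1 : ∀ (s : ℝ) (u w : Fin 3 → ℝ), (fun i => s * u i) ⬝ᵥ w = s * (u ⬝ᵥ w) := by
        intro s u w; simp only [dotProduct, Finset.mul_sum]
        exact Finset.sum_congr rfl fun i _ => by ring
      have e2 : cr n (fun i => 2 ^ 44 * v.r i) = fun i => 2 ^ 44 * cr n v.r i := by
        funext i; fin_cases i <;> simp [cr] <;> ring
      have e3 : Rm p *ᵥ (fun i => 2 ^ 44 * cr n v.r i) = fun i => 2 ^ 44 * (Rm p *ᵥ cr n v.r) i := by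
        funext i
        simp only [mulVec, dotProduct, Finset.mul_sum]
        exact Finset.sum_congr rfl fun i _ => by ring
      have e4 : ∀ (s : ℝ) (u w : Fin 3 → ℝ), u ⬝ᵥ (fun i => s * w i) = s * (u ⬝ᵥ w) := by
        intro s u w; simp only [dotProduct, Finset.mul_sum]
        exact Finset.sum_congr rfl fun i _ => by ring
      rw [e1, e2, e3, e4, e1]
      have e5 : ((g ^ 2 • ((fget fs ij.1).r - (fget fs ij.2).r)) ⬝ᵥ (Rm p *ᵥ n)) =
          g ^ 2 * (((fget fs ij.1).r - (fget fs ij.2).r) ⬝ᵥ (Rm p *ᵥ n)) := by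
        rw [smul_dotProduct, smul_eq_mul]
      rw [e5]
      unfold GG at hG
      have hcn : (cn : ℝ) = 4016 := by simp [cn]
      have hcd : (cd : ℝ) = 3973 := by simp [cd]
      rw [hcn, hcd]
      generalize cr (fget fs ij.1).r (fget fs ij.2).r ⬝ᵥ (Rm p *ᵥ cr n v.r) = α at *
      generalize g ^ 2 * (((fget fs ij.1).r - (fget fs ij.2).r) ⬝ᵥ (Rm p *ᵥ n)) = β at *
      have : (4016 : ℝ) * (2 ^ 44 * (2 ^ 44 * α)) - 3973 * 2 ^ 88 * β =
          3973 * 2 ^ 88 * (4016 / 3973 * α - β) := by ring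
      rw [this]
      exact mul_nonpos_of_nonneg_of_nonpos (by positivity) hG
  · intro f F hF'
    rw [hf, List.getElem?_map] at hF'
    cases hg : fs[f]? with
    | none => rw [hg] at hF'; simp at hF'
    | some G =>
      rw [hg] at hF'
      simp only [Option.map_some, Option.some.injEq] at hF'
      subst hF'
      obtain ⟨s1, b1⟩ := hfs G (List.mem_of_getElem? hg)
      refine ⟨fun i => cd * 2 ^ 88 * G.r i, cd * 2 ^ 88, by simp [cd], bnd3_v b1,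
        fun i => ZT.ap2_r s1 i, ?_⟩
      intro p n
      have hfg : fget fs f = G := by unfold fget; rw [hg]; rfl
      rw [bf_Rm]
      unfold sgn
      rw [hfg]
      simp only [zero_dotProduct, mul_zero, zero_sub, neg_inj]
      simp only [dotProduct, Finset.mul_sum]
      exact Finset.sum_congr rfl fun i _ => by ring
  · intro o ho'
    rw [ho] at ho'
    obtain ⟨o, hoo, rfl⟩ := List.mem_map.1 ho'
    obtain ⟨s1, s2⟩ := hos o hoo
    refine ⟨2 ^ 44 * Zp.zv o.1, fun i => 2 ^ 44 * o.2.r i, Zp.ap_err s2, ZT.ap_r s1, ?_⟩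
    intro p n hB
    have := hB.2.1 o hoo
    have e : 2 ^ 44 * Zp.zv o.1 * p 0 + 2 ^ 44 * o.2.r 0 * p 1 + 2 ^ 44 * o.2.r 1 * p 2 +
      2 ^ 44 * o.2.r 2 * p 3 = 2 ^ 44 * (Zp.zv o.1 * p 0 + o.2.r 0 * p 1 + o.2.r 1 * p 2 +
        o.2.r 2 * p 3) := by ring
    rw [e]
    exact mul_nonpos_of_nonneg_of_nonpos (by positivity) this
  · exact hl
  · exact hh

end Pool.Agent.H315.NW
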