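import Pool.Agent.H315.NW.Chk

/-!
# Project NW (helper315): soundness of the checker, part 1 (algebra and digits)
-/

set_option autoImplicit false

namespace Pool.Agent.H315.NW

section alg

variable {R : Type*} [CommRing R]

/-- the polarised form -/
def bf (k : R) (a t v : Fin 3 → R) (p q : Fin 4 → R) (n : Fin 3 → R) : R :=
  k * ((a 0 * (p 0 * q 0 + p 1 * q 1 - p 2 * q 2 - p 3 * q 3) +
        a 1 * (p 1 * q 2 + p 2 * q 1 + p 0 * q 3 + p 3 * q 0) +
        a 2 * (p 1 * q 3 + p 3 * q 1 - p 0 * q 2 - p 2 * q 0)) * (n 1 * v 2 - n 2 * v 1) +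
      (a 0 * (p 1 * q 2 + p 2 * q 1 - p 0 * q 3 - p 3 * q 0) +
        a 1 * (p 0 * q 0 - p 1 * q 1 + p 2 * q 2 - p 3 * q 3) +
        a 2 * (p 2 * q 3 + p 3 * q 2 + p 0 * q 1 + p 1 * q 0)) * (n 2 * v 0 - n 0 * v 2) +
      (a 0 * (p 1 * q 3 + p 3 * q 1 + p 0 * q 2 + p 2 * q 0) +
        a 1 * (p 2 * q 3 + p 3 * q 2 - p 0 * q 1 - p 1 * q 0) +
        a 2 * (p 0 * q 0 - p 1 * q 1 - p 2 * q 2 + p 3 * q 3)) * (n 0 * v 1 - n 1 * v 0)) -
    ((t 0 * (p 0 * q 0 + p 1 * q 1 - p 2 * q 2 - p 3 * q 3) +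
        t 1 * (p 1 * q 2 + p 2 * q 1 + p 0 * q 3 + p 3 * q 0) +
        t 2 * (p 1 * q 3 + p 3 * q 1 - p 0 * q 2 - p 2 * q 0)) * n 0 +
      (t 0 * (p 1 * q 2 + p 2 * q 1 - p 0 * q 3 - p 3 * q 0) +
        t 1 * (p 0 * q 0 - p 1 * q 1 + p 2 * q 2 - p 3 * q 3) +
        t 2 * (p 2 * q 3 + p 3 * q 2 + p 0 * q 1 + p 1 * q 0)) * n 1 +
      (t 0 * (p 1 * q 3 + p 3 * q 1 + p 0 * q 2 + p 2 * q 0) +
        t 1 * (p 2 * q 3 + p 3 * q 2 - p 0 * q 1 - p 1 * q 0) +
        t 2 * (p 0 * q 0 - p 1 * q 1 - p 2 * q 2 + p 3 * q 3)) * n 2)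

theorem bf_symm (k : R) (a t v : Fin 3 → R) (p q : Fin 4 → R) (n : Fin 3 → R) :
    bf k a t v p q n = bf k a t v q p n := by
  unfold bf; ring

theorem bf_lin1 (k : R) (a t v : Fin 3 → R) (X : Fin 4 → R) (P : Fin 4 → Fin 4 → R)
    (q : Fin 4 → R) (n : Fin 3 → R) :
    bf k a t v (∑ i, X i • P i) q n = ∑ i, X i * bf k a t v (P i) q n := by
  simp only [bf, Fin.sum_univ_four, Pi.add_apply, Pi.smul_apply, smul_eq_mul]
  ring

theorem bf_lin3 (k : R) (a t v : Fin 3 → R) (Y : Fin 3 → R) (N : Fin 3 → Fin 3 → R)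
    (p q : Fin 4 → R) :
    bf k a t v p q (∑ i, Y i • N i) = ∑ i, Y i * bf k a t v p q (N i) := by
  simp only [bf, Fin.sum_univ_three, Pi.add_apply, Pi.smul_apply, smul_eq_mul]
  ring

theorem bf_expand (k : R) (a t v : Fin 3 → R) (X : Fin 4 → R) (P : Fin 4 → Fin 4 → R)
    (Y : Fin 3 → R) (N : Fin 3 → Fin 3 → R) :
    bf k a t v (∑ i, X i • P i) (∑ i, X i • P i) (∑ i, Y i • N i) =
      ∑ i, ∑ j, ∑ l, X i * X j * Y l * bf k a t v (P i) (P j) (N l) := by
  rw [bf_lin1]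
  refine Finset.sum_congr rfl fun i _ => ?_
  rw [bf_symm, bf_lin1, Finset.mul_sum]
  refine Finset.sum_congr rfl fun j _ => ?_
  rw [bf_lin3, Finset.mul_sum, Finset.mul_sum]
  refine Finset.sum_congr rfl fun l _ => ?_
  rw [bf_symm]; ring

end alg

/-! ### digits -/

/-- the value of a list of digits -/
def evL : List ℤ → ℤ
  | [] => 0
  | z :: l => z + 2 ^ 192 * evL l

theorem digits_nonneg (l : List ℤ) : ∀ (Z : ℕ), (∀ z ∈ l, |z| < 2 ^ 191) → (Z : ℤ) = evL l →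
    (∀ s < l.length, (Z / (2 ^ 192) ^ s) % 2 ^ 192 < 2 ^ 191) → ∀ z ∈ l, 0 ≤ z := by
  induction l with
  | nil => intro Z _ _ _ z hz; simp at hz
  | cons w l ih =>
    intro Z hl hZ hd
    have h0 := hd 0 (by simp)
    simp only [pow_zero, Nat.div_one] at h0
    have hw := hl w (by simp)
    rw [abs_lt] at hw
    simp only [evL] at hZ
    have e1 : (Z : ℤ) = (Z % 2 ^ 192 : ℕ) + 2 ^ 192 * (Z / 2 ^ 192 : ℕ) := by
      have := Nat.mod_add_div Z (2 ^ 192)
      exact_mod_cast this.symm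
    have h0' : ((Z % 2 ^ 192 : ℕ) : ℤ) < 2 ^ 191 := by exact_mod_cast h0
    have h0'' : (0 : ℤ) ≤ ((Z % 2 ^ 192 : ℕ) : ℤ) := by positivity
    have e2 : w = ((Z % 2 ^ 192 : ℕ) : ℤ) ∧ evL l = ((Z / 2 ^ 192 : ℕ) : ℤ) := by
      rw [e1] at hZ
      generalize ((Z % 2 ^ 192 : ℕ) : ℤ) = r at *
      generalize ((Z / 2 ^ 192 : ℕ) : ℤ) = s at *
      generalize evL l = e at *
      have : s = e := by
        by_contra hne
        rcases lt_or_gt_of_ne hne with h | h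
        · have : s + 1 ≤ e := h
          norm_num at hw h0' hZ
          omega
        · have : e + 1 ≤ s := h
          norm_num at hw h0' hZ
          omega
      constructor
      · rw [this] at hZ; linarith
      · exact this.symm
    intro z hz
    rcases List.mem_cons.1 hz with rfl | hz
    · rw [e2.1]; exact h0''
    · refine ih (Z / 2 ^ 192) (fun z hz => hl z (by simp [hz])) e2.2.symm ?_ z hz
      intro s hs
      have := hd (s + 1) (by simpa using hs)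
      rwa [pow_succ', ← Nat.div_div_eq_div_mul] at this

theorem digit_of_land {Z : ℕ} (h : Nat.land Z MASK = 0) {s : ℕ} (hs : s < 39) :
    (Z / (2 ^ 192) ^ s) % 2 ^ 192 < 2 ^ 191 := by
  have hm : MASK.testBit (192 * s + 191) = true := by
    have : ∀ s < 39, MASK.testBit (192 * s + 191) = true := by decide +kernel
    exact this s hs
  have h1 : (Nat.land Z MASK).testBit (192 * s + 191) = false := by rw [h]; simp
  have h2 : Z.testBit (192 * s + 191) = false := by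
    have h3 : (Z &&& MASK).testBit (192 * s + 191) = false := h1
    rw [Nat.testBit_and, hm, Bool.and_true] at h3
    exact h3
  rw [← pow_mul]
  have h4 : (Z / 2 ^ (192 * s) % 2 ^ 192).testBit 191 = false := by
    rw [Nat.testBit_mod_two_pow]
    rw [Nat.testBit_div_two_pow]
    rw [show 191 + 192 * s = 192 * s + 191 by ring, h2]; simp
  have h5 : Z / 2 ^ (192 * s) % 2 ^ 192 < 2 ^ 192 := Nat.mod_lt _ (by positivity)
  generalize Z / 2 ^ (192 * s) % 2 ^ 192 = d at *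
  by_contra hge
  push Not at hge
  rw [Nat.testBit_eq_decide_div_mod_eq] at h4
  simp only [decide_eq_false_iff_not] at h4
  apply h4
  have : d / 2 ^ 191 = 1 := by
    apply Nat.div_eq_of_lt_le <;> norm_num at * <;> omega
  rw [this]

end Pool.Agent.H315.NW
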