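import Pool.Agent.H315.NW.Snd1

/-!
# Project NW (helper315): soundness of the checker, part 2 (packed evaluation)
-/

set_option autoImplicit false

namespace Pool.Agent.H315.NW

/-- the integer generators of the quaternions -/
def Cell.Pz (c : Cell) : Fin 4 → Fin 4 → ℤ :=
  ![![SP, c.x0 - LP, c.y0 - LP, c.z0 - LP], ![SP, c.x1 - LP, c.y1 - LP, c.z1 - LP],
    ![SP, c.x2 - LP, c.y2 - LP, c.z2 - LP], ![SP, c.x3 - LP, c.y3 - LP, c.z3 - LP]]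

/-- the integer generators of the directions -/
def Cell.Nz (c : Cell) : Fin 3 → Fin 3 → ℤ :=
  ![![c.a0, c.b0, SN], ![c.a1, c.b1, SN], ![c.a2, c.b2, SN]]

/-- the powers for the quaternions -/
def Xz : Fin 4 → ℤ := ![1, B1, B4, B6]

/-- the powers for the directions -/
def Yz : Fin 3 → ℤ := ![1, B13, B26]

/-- a triple as a vector -/
def Z3.v (a : Z3) : Fin 3 → ℤ := ![a.x, a.y, a.z]

theorem toN_spec {z : ℤ} (h : -2 ^ 160 ≤ z) : ((toN z : ℕ) : ℤ) = z + CC := by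
  unfold toN
  have : Int.add z (Int.ofNat CC) = z + CC := rfl
  rw [this]
  apply Int.toNat_of_nonneg
  simp only [CC]; push_cast; linarith

/-- the row value as a polynomial over the integers -/
theorem evR_spec (P : Pk) (x00 x01 x02 x10 x11 x12 x20 x21 x22 : ℤ) (B : ℤ)
    (_hB : 0 ≤ B) (hB2 : B ≤ 2 ^ 106)
    (h00 : |x00| ≤ B) (h01 : |x01| ≤ B) (h02 : |x02| ≤ B) (h10 : |x10| ≤ B) (h11 : |x11| ≤ B)
    (h12 : |x12| ≤ B) (h20 : |x20| ≤ B) (h21 : |x21| ≤ B) (h22 : |x22| ≤ B) :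
    (evR P (mkRw x00 x01 x02 x10 x11 x12 x20 x21 x22) : ℤ) =
      ((SP : ℤ) * SP * (x00 + x11 + x22) -
        SP * LP * (2 * (x21 - x12 + x02 - x20 + x10 - x01)) +
        LP * LP * (2 * (x01 + x10 + x02 + x20 + x12 + x21) - (x00 + x11 + x22))) * UPQ +
      (SP * (2 * (x21 - x12)) - LP * (2 * (x00 - x11 - x22) + 2 * (x01 + x10 + x02 + x20))) * P.ux +
      (SP * (2 * (x02 - x20)) - LP * (2 * (x11 - x00 - x22) + 2 * (x01 + x10 + x12 + x21))) * P.uy +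
      (SP * (2 * (x10 - x01)) - LP * (2 * (x22 - x00 - x11) + 2 * (x02 + x20 + x12 + x21))) * P.uz +
      (x00 - x11 - x22) * P.xx + (x11 - x00 - x22) * P.yy + (x22 - x00 - x11) * P.zz +
      2 * (x01 + x10) * P.xy + 2 * (x02 + x20) * P.xz + 2 * (x12 + x21) * P.yz +
      CC * (UPQ + (P.ux + (P.uy + (P.uz + (P.xx + (P.yy + (P.zz + (P.xy + (P.xz + P.yz))))))))) := by
  rw [abs_le] at *
  have e : ∀ P : Pk, ∀ r : Rw, (evR P r : ℤ) = r.k0 * UPQ + (r.k1 * P.ux + (r.k2 * P.uy +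
    (r.k3 * P.uz + (r.k4 * P.xx + (r.k5 * P.yy + (r.k6 * P.zz + (r.k7 * P.xy + (r.k8 * P.xz +
      r.k9 * P.yz)))))))) := by
    intro P r
    have : evR P r = r.k0 * UPQ + (r.k1 * P.ux + (r.k2 * P.uy +
      (r.k3 * P.uz + (r.k4 * P.xx + (r.k5 * P.yy + (r.k6 * P.zz + (r.k7 * P.xy + (r.k8 * P.xz +
        r.k9 * P.yz)))))))) := rfl
    rw [this]; push_cast; ring
  rw [e]
  simp only [mkRw]
  rw [toN_spec, toN_spec, toN_spec, toN_spec, toN_spec, toN_spec, toN_spec, toN_spec, toN_spec,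
    toN_spec]
  · ring
  all_goals
    try simp only [SP, LP]
    try push_cast
    norm_num at hB2 ⊢
    linarith

/-- the sizes of the integers of a form -/
structure Bnd (a t v : Z3) : Prop where
  a0 : |a.x| ≤ 2 ^ 47
  a1 : |a.y| ≤ 2 ^ 47
  a2 : |a.z| ≤ 2 ^ 47
  v0 : |v.x| ≤ 2 ^ 45
  v1 : |v.y| ≤ 2 ^ 45
  v2 : |v.z| ≤ 2 ^ 45
  t0 : |t.x| ≤ 2 ^ 103
  t1 : |t.y| ≤ 2 ^ 103
  t2 : |t.z| ≤ 2 ^ 103

theorem prod_bd {x y : ℤ} (hx : |x| ≤ 2 ^ 47) (hy : |y| ≤ 2 ^ 45) : |cn * x * y| ≤ 2 ^ 106 := by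
  rw [abs_mul, abs_mul]
  have h1 : |x| * |y| ≤ 2 ^ 47 * 2 ^ 45 := mul_le_mul hx hy (abs_nonneg _) (by positivity)
  have h2 : |((cn : ℕ) : ℤ)| = 4016 := by simp [cn]
  rw [h2, mul_assoc]
  have : (4016 : ℤ) * (|x| * |y|) ≤ 4016 * (2 ^ 47 * 2 ^ 45) := by linarith
  refine this.trans (by norm_num)

theorem neg_bd {x : ℤ} (hx : |x| ≤ 2 ^ 106) : |(-x)| ≤ 2 ^ 106 := by rwa [abs_neg]

theorem t_bd {x : ℤ} (hx : |x| ≤ 2 ^ 103) : |(-x)| ≤ 2 ^ 106 := by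
  rw [abs_neg]; exact hx.trans (by norm_num)

theorem evT_spec (px py pz nx ny : ℕ) {a t v : Z3} (h : Bnd a t v) :
    (evT (mkPk px py pz nx ny) (mkTb a t v) : ℤ) + EG - evW (mkPk px py pz nx ny) =
      bf (cn : ℤ) a.v t.v v.v ![(SP * UP : ℤ), px - LP * UP, py - LP * UP, pz - LP * UP]
        ![(SP * UP : ℤ), px - LP * UP, py - LP * UP, pz - LP * UP] ![(nx : ℤ), ny, NN] := by
  have e1 : ∀ P : Pk, ∀ T : Tb, (evT P T : ℤ) =
      P.n0 * evR P T.r0 + (P.n1 * evR P T.r1 + NN * evR P T.r2) := by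
    intro P T
    have : evT P T = P.n0 * evR P T.r0 + (P.n1 * evR P T.r1 + NN * evR P T.r2) := rfl
    rw [this]; push_cast; ring
  have e2 : ∀ P : Pk, (evW P : ℤ) = CC * ((P.n0 + (P.n1 + NN)) * (UPQ + (P.ux + (P.uy + (P.uz +
      (P.xx + (P.yy + (P.zz + (P.xy + (P.xz + P.yz)))))))))) + EG := by
    intro P
    have : evW P = CC * ((P.n0 + (P.n1 + NN)) * (UPQ + (P.ux + (P.uy + (P.uz +
      (P.xx + (P.yy + (P.zz + (P.xy + (P.xz + P.yz)))))))))) + EG := rfl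
    rw [this]; push_cast; ring
  rw [e1, e2]
  simp only [mkTb]
  have z0 : |(0 : ℤ)| ≤ 2 ^ 106 := by norm_num
  rw [evR_spec (mkPk px py pz nx ny) _ _ _ _ _ _ _ _ _ (2 ^ 106) (by positivity) le_rfl
      (t_bd h.t0) (neg_bd (prod_bd h.a0 h.v2)) (prod_bd h.a0 h.v1) (t_bd h.t1)
      (neg_bd (prod_bd h.a1 h.v2)) (prod_bd h.a1 h.v1) (t_bd h.t2) (neg_bd (prod_bd h.a2 h.v2))
      (prod_bd h.a2 h.v1),
    evR_spec (mkPk px py pz nx ny) _ _ _ _ _ _ _ _ _ (2 ^ 106) (by positivity) le_rfl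
      (prod_bd h.a0 h.v2) (t_bd h.t0) (neg_bd (prod_bd h.a0 h.v0)) (prod_bd h.a1 h.v2)
      (t_bd h.t1) (neg_bd (prod_bd h.a1 h.v0)) (prod_bd h.a2 h.v2) (t_bd h.t2)
      (neg_bd (prod_bd h.a2 h.v0)),
    evR_spec (mkPk px py pz nx ny) _ _ _ _ _ _ _ _ _ (2 ^ 106) (by positivity) le_rfl
      (neg_bd (prod_bd h.a0 h.v1)) (prod_bd h.a0 h.v0) (t_bd h.t0) (neg_bd (prod_bd h.a1 h.v1))
      (prod_bd h.a1 h.v0) (t_bd h.t1) (neg_bd (prod_bd h.a2 h.v1)) (prod_bd h.a2 h.v0)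
      (t_bd h.t2)]
  have m1 : ((mkPk px py pz nx ny).ux : ℤ) = UP * px := by
    have : (mkPk px py pz nx ny).ux = UP * px := rfl
    rw [this]; push_cast; rfl
  have m2 : ((mkPk px py pz nx ny).uy : ℤ) = UP * py := by
    have : (mkPk px py pz nx ny).uy = UP * py := rfl
    rw [this]; push_cast; rfl
  have m3 : ((mkPk px py pz nx ny).uz : ℤ) = UP * pz := by
    have : (mkPk px py pz nx ny).uz = UP * pz := rfl
    rw [this]; push_cast; rfl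
  have m4 : ((mkPk px py pz nx ny).xx : ℤ) = px * px := by
    have : (mkPk px py pz nx ny).xx = px * px := rfl
    rw [this]; push_cast; rfl
  have m5 : ((mkPk px py pz nx ny).yy : ℤ) = py * py := by
    have : (mkPk px py pz nx ny).yy = py * py := rfl
    rw [this]; push_cast; rfl
  have m6 : ((mkPk px py pz nx ny).zz : ℤ) = pz * pz := by
    have : (mkPk px py pz nx ny).zz = pz * pz := rfl
    rw [this]; push_cast; rfl
  have m7 : ((mkPk px py pz nx ny).xy : ℤ) = px * py := by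
    have : (mkPk px py pz nx ny).xy = px * py := rfl
    rw [this]; push_cast; rfl
  have m8 : ((mkPk px py pz nx ny).xz : ℤ) = px * pz := by
    have : (mkPk px py pz nx ny).xz = px * pz := rfl
    rw [this]; push_cast; rfl
  have m9 : ((mkPk px py pz nx ny).yz : ℤ) = py * pz := by
    have : (mkPk px py pz nx ny).yz = py * pz := rfl
    rw [this]; push_cast; rfl
  have m10 : (mkPk px py pz nx ny).n0 = nx := rfl
  have m11 : (mkPk px py pz nx ny).n1 = ny := rfl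
  have m12 : ((UPQ : ℕ) : ℤ) = UP * UP := by
    have : UPQ = UP * UP := rfl
    rw [this]; push_cast; rfl
  rw [m1, m2, m3, m4, m5, m6, m7, m8, m9, m10, m11, m12]
  simp only [bf, Z3.v, Matrix.cons_val_zero, Matrix.cons_val_one, Matrix.cons_val]
  generalize ((UP : ℕ) : ℤ) = u
  generalize ((SP : ℕ) : ℤ) = s
  generalize ((LP : ℕ) : ℤ) = l
  generalize ((NN : ℕ) : ℤ) = nn
  generalize ((CC : ℕ) : ℤ) = cc
  generalize ((EG : ℕ) : ℤ) = eg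
  generalize ((cn : ℕ) : ℤ) = k
  ring

theorem pk_gen (c : Cell) (b1 b4 b6 b13 b26 : ℕ) :
    mkPk (Nat.add c.x0 (Nat.add (Nat.mul c.x1 b1) (Nat.add (Nat.mul c.x2 b4) (Nat.mul c.x3 b6))))
      (Nat.add c.y0 (Nat.add (Nat.mul c.y1 b1) (Nat.add (Nat.mul c.y2 b4) (Nat.mul c.y3 b6))))
      (Nat.add c.z0 (Nat.add (Nat.mul c.z1 b1) (Nat.add (Nat.mul c.z2 b4) (Nat.mul c.z3 b6))))
      (Nat.add c.a0 (Nat.add (Nat.mul c.a1 b13) (Nat.mul c.a2 b26)))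
      (Nat.add c.b0 (Nat.add (Nat.mul c.b1 b13) (Nat.mul c.b2 b26))) =
    mkPk (c.x0 + (c.x1 * b1 + (c.x2 * b4 + c.x3 * b6)))
      (c.y0 + (c.y1 * b1 + (c.y2 * b4 + c.y3 * b6)))
      (c.z0 + (c.z1 * b1 + (c.z2 * b4 + c.z3 * b6)))
      (c.a0 + (c.a1 * b13 + c.a2 * b26)) (c.b0 + (c.b1 * b13 + c.b2 * b26)) := rfl

theorem pk_eq (c : Cell) : c.pk = mkPk (c.x0 + (c.x1 * B1 + (c.x2 * B4 + c.x3 * B6)))
      (c.y0 + (c.y1 * B1 + (c.y2 * B4 + c.y3 * B6)))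
      (c.z0 + (c.z1 * B1 + (c.z2 * B4 + c.z3 * B6)))
      (c.a0 + (c.a1 * B13 + c.a2 * B26)) (c.b0 + (c.b1 * B13 + c.b2 * B26)) := by
  unfold Cell.pk
  exact pk_gen c B1 B4 B6 B13 B26

theorem vecP (c : Cell) (u b1 b4 b6 : ℤ) (hu : u = 1 + b1 + b4 + b6) :
    (![(SP * u : ℤ), (c.x0 + (c.x1 * b1 + (c.x2 * b4 + c.x3 * b6))) - LP * u,
      (c.y0 + (c.y1 * b1 + (c.y2 * b4 + c.y3 * b6))) - LP * u,
      (c.z0 + (c.z1 * b1 + (c.z2 * b4 + c.z3 * b6))) - LP * u] : Fin 4 → ℤ) =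
      ∑ i, (![1, b1, b4, b6] : Fin 4 → ℤ) i • c.Pz i := by
  subst hu
  simp only [Fin.sum_univ_four, Cell.Pz, Matrix.cons_val_zero, Matrix.cons_val_one,
    Matrix.cons_val]
  generalize ((SP : ℕ) : ℤ) = sp
  generalize ((LP : ℕ) : ℤ) = lp
  ext i
  fin_cases i <;> simp <;> ring

theorem vecN (c : Cell) (u b1 b4 : ℤ) (hu : u = SN * (1 + b1 + b4)) :
    (![c.a0 + (c.a1 * b1 + c.a2 * b4), c.b0 + (c.b1 * b1 + c.b2 * b4), u] : Fin 3 → ℤ) =
      ∑ i, (![1, b1, b4] : Fin 3 → ℤ) i • c.Nz i := by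
  subst hu
  simp only [Fin.sum_univ_three, Cell.Nz, Matrix.cons_val_zero, Matrix.cons_val_one,
    Matrix.cons_val]
  generalize ((SN : ℕ) : ℤ) = sp
  ext i
  fin_cases i <;> simp <;> ring

theorem castU : ((UP : ℕ) : ℤ) = 1 + B1 + B4 + B6 := by
  unfold UP
  simp only [Nat.cast_add, Nat.cast_one]

theorem castN : ((NN : ℕ) : ℤ) = SN * (1 + B13 + B26) := by
  unfold NN
  simp only [Nat.cast_add, Nat.cast_one, Nat.cast_mul]

/-- the value of a form on a cell, all polarised values at once -/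
theorem pk_spec (c : Cell) {a t v : Z3} (h : Bnd a t v) :
    (evT c.pk (mkTb a t v) : ℤ) + EG - evW c.pk =
      ∑ i, ∑ j, ∑ l, Xz i * Xz j * Yz l *
        bf (cn : ℤ) a.v t.v v.v (c.Pz i) (c.Pz j) (c.Nz l) := by
  rw [← bf_expand, pk_eq, evT_spec _ _ _ _ _ h]
  simp only [Nat.cast_add, Nat.cast_mul]
  rw [vecP c UP B1 B4 B6 castU, vecN c NN B13 B26 castN]
  rfl

end Pool.Agent.H315.NW
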