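import Pool.Agent.H315.NW.Snd2

/-!
# Project NW (helper315): soundness of the checker, part 3 (positivity of all polarised values)
-/

set_option autoImplicit false

namespace Pool.Agent.H315.NW

/-- the unit of the error -/
def ERR : ℤ := 2 ^ 22 * FM * SP ^ 2 * SN

/-- the packed integer `Z` approximates the real values `φ` -/
def Good (W : ℤ) (Z : ℤ) (φ : Fin 4 → Fin 4 → Fin 3 → ℝ) : Prop :=
  ∃ h : Fin 4 → Fin 4 → Fin 3 → ℤ, (∀ i j l, h i j l = h j i l) ∧
    Z = ∑ i, ∑ j, ∑ l, Xz i * Xz j * Yz l * h i j l ∧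
    (∀ i j l, |h i j l| ≤ W * 2 ^ 176) ∧
    (∀ i j l, |(h i j l : ℝ) - φ i j l| ≤ W * ERR)

theorem Good.zero : Good 0 0 (fun _ _ _ => 0) := by
  refine ⟨fun _ _ _ => 0, fun _ _ _ => rfl, by simp, by simp, by simp⟩

theorem Good.add {W1 W2 Z1 Z2 : ℤ} {φ1 φ2 : Fin 4 → Fin 4 → Fin 3 → ℝ} (h1 : Good W1 Z1 φ1)
    (h2 : Good W2 Z2 φ2) : Good (W1 + W2) (Z1 + Z2) (fun i j l => φ1 i j l + φ2 i j l) := by
  obtain ⟨g1, s1, z1, b1, e1⟩ := h1
  obtain ⟨g2, s2, z2, b2, e2⟩ := h2
  refine ⟨fun i j l => g1 i j l + g2 i j l, fun i j l => by simp only [s1 i j l, s2 i j l], ?_, ?_,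
    ?_⟩
  · rw [z1, z2, ← Finset.sum_add_distrib]
    refine Finset.sum_congr rfl fun i _ => ?_
    rw [← Finset.sum_add_distrib]
    refine Finset.sum_congr rfl fun j _ => ?_
    rw [← Finset.sum_add_distrib]
    refine Finset.sum_congr rfl fun l _ => ?_
    ring
  · intro i j l
    have := abs_add_le (g1 i j l) (g2 i j l)
    have := b1 i j l
    have := b2 i j l
    simp only
    linarith
  · intro i j l
    have := abs_add_le ((g1 i j l : ℝ) - φ1 i j l) ((g2 i j l : ℝ) - φ2 i j l)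
    have := e1 i j l
    have := e2 i j l
    simp only
    push_cast
    have e : (g1 i j l : ℝ) + g2 i j l - (φ1 i j l + φ2 i j l) =
      (g1 i j l - φ1 i j l) + (g2 i j l - φ2 i j l) := by ring
    rw [e]
    linarith

theorem Good.smul {W Z : ℤ} {φ : Fin 4 → Fin 4 → Fin 3 → ℝ} (m : ℕ) (h1 : Good W Z φ) :
    Good (m * W) (m * Z) (fun i j l => m * φ i j l) := by
  obtain ⟨g1, s1, z1, b1, e1⟩ := h1
  refine ⟨fun i j l => m * g1 i j l, fun i j l => by simp only [s1 i j l], ?_, ?_, ?_⟩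
  · rw [z1, Finset.mul_sum]
    refine Finset.sum_congr rfl fun i _ => ?_
    rw [Finset.mul_sum]
    refine Finset.sum_congr rfl fun j _ => ?_
    rw [Finset.mul_sum]
    refine Finset.sum_congr rfl fun l _ => ?_
    ring
  · intro i j l
    simp only
    rw [abs_mul, mul_assoc]
    have : |(m : ℤ)| = m := abs_of_nonneg (by positivity)
    rw [this]
    exact mul_le_mul_of_nonneg_left (b1 i j l) (by positivity)
  · intro i j l
    simp only
    push_cast
    rw [← mul_sub, abs_mul, mul_assoc]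
    have : |(m : ℝ)| = m := abs_of_nonneg (by positivity)
    rw [this]
    exact mul_le_mul_of_nonneg_left (e1 i j l) (by positivity)

/-- the slots of one direction generator -/
def slots (e : ℤ) (h : Fin 4 → Fin 4 → ℤ) : List ℤ :=
  [h 0 0 - e, 2 * h 0 1 - e, h 1 1 - e, 0, 2 * h 0 2 - e, 2 * h 1 2 - e, 2 * h 0 3 - e,
    2 * h 1 3 - e, h 2 2 - e, 0, 2 * h 2 3 - e, 0, h 3 3 - e]

theorem evL_append (a b : List ℤ) : evL (a ++ b) = evL a + (2 ^ 192) ^ a.length * evL b := by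
  induction a with
  | nil => simp [evL]
  | cons z l ih => simp only [List.cons_append, evL, ih, List.length_cons]; ring

theorem castB : ((B1 : ℕ) : ℤ) = 2 ^ 192 ∧ ((B4 : ℕ) : ℤ) = (2 ^ 192) ^ 4 ∧
    ((B6 : ℕ) : ℤ) = (2 ^ 192) ^ 6 ∧ ((B13 : ℕ) : ℤ) = (2 ^ 192) ^ 13 ∧
    ((B26 : ℕ) : ℤ) = (2 ^ 192) ^ 26 := by
  unfold B1 B4 B6 B13 B26
  refine ⟨by rw [Nat.cast_pow]; rfl, ?_, ?_, ?_, ?_⟩ <;>
  · rw [Nat.cast_pow, pow_mul]; rfl

theorem slots_eval (e b b4 b6 : ℤ) (hb : b = 2 ^ 192) (h4 : b4 = (2 ^ 192) ^ 4)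
    (h6 : b6 = (2 ^ 192) ^ 6) (h : Fin 4 → Fin 4 → ℤ) (hs : ∀ i j, h i j = h j i) :
    ∑ i, ∑ j, (![1, b, b4, b6] : Fin 4 → ℤ) i * (![1, b, b4, b6] : Fin 4 → ℤ) j * h i j -
      e * (1 + b + b * b + b4 + b * b4 + b4 * b4 + b6 + b * b6 + b4 * b6 + b6 * b6) =
    evL (slots e h) := by
  rw [← hb] at h4 h6
  simp only [slots, evL, ← hb]
  subst h4 h6
  simp only [Fin.sum_univ_four, Matrix.cons_val_zero, Matrix.cons_val_one, Matrix.cons_val,
    hs 1 0, hs 2 0, hs 3 0, hs 2 1, hs 3 1, hs 3 2]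
  clear hb
  ring

theorem sum_swap (F : Fin 4 → Fin 4 → Fin 3 → ℤ) (Y : Fin 3 → ℤ) (X : Fin 4 → ℤ) :
    ∑ i, ∑ j, ∑ l, X i * X j * Y l * F i j l = ∑ l, Y l * ∑ i, ∑ j, X i * X j * F i j l := by
  have e1 : ∑ i, ∑ j, ∑ l, X i * X j * Y l * F i j l =
      ∑ i, ∑ l, ∑ j, X i * X j * Y l * F i j l :=
    Finset.sum_congr rfl fun i _ => Finset.sum_comm
  rw [e1, Finset.sum_comm]
  refine Finset.sum_congr rfl fun l _ => ?_
  rw [Finset.mul_sum]
  refine Finset.sum_congr rfl fun i _ => ?_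
  rw [Finset.mul_sum]
  refine Finset.sum_congr rfl fun j _ => ?_
  ring

/-- one slot of the error bound -/
def E0 : ℤ := 2 ^ 24 * FM * SP ^ 2 * SN

theorem castEG : ((EG : ℕ) : ℤ) = E0 * (1 + B1 + B1 * B1 + B4 + B1 * B4 + B4 * B4 + B6 +
    B1 * B6 + B4 * B6 + B6 * B6) * (1 + B13 + B26) := by
  unfold EG UU E0
  simp only [Nat.cast_add, Nat.cast_one, Nat.cast_mul, Nat.cast_pow, Nat.cast_ofNat]
  ring

theorem good_pos {W z w : ℕ} (hW : 0 < W) (hW2 : W ≤ 1024) (hd : digs z w = true)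
    {φ : Fin 4 → Fin 4 → Fin 3 → ℝ} (h : Good W ((z : ℤ) + W * EG - w) φ) :
    ∀ i j l, (W : ℝ) * ERR ≤ φ i j l := by
  obtain ⟨f, hs, hz, hb, he⟩ := h
  simp only [digs, Bool.and_eq_true, Nat.ble_eq, Nat.beq_eq] at hd
  obtain ⟨hle, hland⟩ := hd
  have hsub : ((Nat.sub z w : ℕ) : ℤ) = z - w := by
    have : Nat.sub z w = z - w := rfl
    rw [this, Nat.cast_sub hle]
  have hZ : ((Nat.sub z w : ℕ) : ℤ) =
      evL (slots (W * E0) (fun i j => f i j 0) ++ (slots (W * E0) (fun i j => f i j 1) ++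
        slots (W * E0) (fun i j => f i j 2))) := by
    rw [hsub, evL_append, evL_append]
    have hlen : ∀ e : ℤ, ∀ h : Fin 4 → Fin 4 → ℤ, (slots e h).length = 13 := fun _ _ => rfl
    rw [hlen, hlen]
    obtain ⟨c1, c4, c6, c13, c26⟩ := castB
    have ev := fun l => slots_eval (W * E0) B1 B4 B6 c1 c4 c6 (fun i j => f i j l)
      (fun i j => hs i j l)
    rw [← ev 0, ← ev 1, ← ev 2]
    have e1 : (z : ℤ) - w = (z + W * EG - w) - W * EG := by ring
    rw [e1, hz, castEG, sum_swap, Fin.sum_univ_three]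
    have y0 : Yz 0 = 1 := rfl
    have y1 : Yz 1 = (2 ^ 192) ^ 13 := c13
    have y2 : Yz 2 = (2 ^ 192) ^ 26 := c26
    rw [y0, y1, y2, c13, c26]
    have hX : Xz = ![1, (B1 : ℤ), (B4 : ℤ), (B6 : ℤ)] := rfl
    rw [hX]
    generalize ((B1 : ℕ) : ℤ) = b1
    generalize ((B4 : ℕ) : ℤ) = b4
    generalize ((B6 : ℕ) : ℤ) = b6
    generalize ((2 : ℤ) ^ 192) = b
    generalize E0 = e0
    generalize (∑ i : Fin 4, ∑ j : Fin 4, (![1, b1, b4, b6] : Fin 4 → ℤ) i *
      (![1, b1, b4, b6] : Fin 4 → ℤ) j * f i j 0) = s0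
    generalize (∑ i : Fin 4, ∑ j : Fin 4, (![1, b1, b4, b6] : Fin 4 → ℤ) i *
      (![1, b1, b4, b6] : Fin 4 → ℤ) j * f i j 1) = s1
    generalize (∑ i : Fin 4, ∑ j : Fin 4, (![1, b1, b4, b6] : Fin 4 → ℤ) i *
      (![1, b1, b4, b6] : Fin 4 → ℤ) j * f i j 2) = s2
    ring
  have hWz : (0 : ℤ) < W := by exact_mod_cast hW
  have hWz2 : (W : ℤ) ≤ 1024 := by exact_mod_cast hW2
  have hE0 : E0 = 16777216 * (17592186044416 * 2126277246976 * 8192000) := by
    unfold E0 FM SP SN; norm_num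
  have hERR : ERR = 4194304 * (17592186044416 * 2126277246976 * 8192000) := by
    unfold ERR FM SP SN; norm_num
  have key := digits_nonneg _ _ ?_ hZ ?_
  · intro i j l
    have h1 : (W : ℤ) * E0 ≤ 2 * f i j l := by
      have hm : ∀ x ∈ slots (W * E0) (fun i j => f i j l), 0 ≤ x := by
        intro x hx
        refine key x ?_
        fin_cases l
        · exact List.mem_append_left _ hx
        · exact List.mem_append_right _ (List.mem_append_left _ hx)
        · exact List.mem_append_right _ (List.mem_append_right _ hx)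
      simp only [slots, List.mem_cons, List.not_mem_nil, or_false, forall_eq_or_imp,
        forall_eq] at hm
      obtain ⟨a0, a1, a2, _, a4, a5, a6, a7, a8, _, a10, _, a12⟩ := hm
      have hp : 0 ≤ (W : ℤ) * E0 := by rw [hE0]; positivity
      have s10 := hs 1 0 l
      have s20 := hs 2 0 l
      have s30 := hs 3 0 l
      have s21 := hs 2 1 l
      have s31 := hs 3 1 l
      have s32 := hs 3 2 l
      fin_cases i <;> fin_cases j <;> simp only [Fin.zero_eta, Fin.mk_one, Fin.reduceFinMk] <;>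
        linarith
    have h2 := he i j l
    rw [abs_le] at h2
    have h3 : ((W : ℤ) * E0 : ℝ) ≤ 2 * f i j l := by exact_mod_cast h1
    have h4 : (E0 : ℝ) = 4 * ERR := by rw [hE0, hERR]; norm_num
    have h5 : (0 : ℝ) ≤ W * ERR := by rw [hERR]; positivity
    push_cast at h3 h2
    rw [h4] at h3
    linarith [h2.1, h2.2]
  · intro x hx
    have hB : ∀ l, ∀ x ∈ slots (W * E0) (fun i j => f i j l), |x| < 2 ^ 191 := by
      intro l x hx
      have hb' : ∀ i j, |f i j l| ≤ 2 ^ 186 := by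
        intro i j
        refine (hb i j l).trans ?_
        calc (W : ℤ) * 2 ^ 176 ≤ 1024 * 2 ^ 176 := by
              exact mul_le_mul_of_nonneg_right hWz2 (by positivity)
          _ = 2 ^ 186 := by norm_num
      have hE : (W : ℤ) * E0 ≤ 2 ^ 186 := by rw [hE0]; norm_num; linarith
      have hE' : 0 ≤ (W : ℤ) * E0 := by rw [hE0]; positivity
      simp only [slots, List.mem_cons, List.not_mem_nil, or_false] at hx
      have p1 : (2 : ℤ) ^ 191 = 32 * 2 ^ 186 := by norm_num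
      have p2 : (0 : ℤ) < 2 ^ 186 := by positivity
      rw [p1]
      generalize (2 : ℤ) ^ 186 = M at *
      generalize (W : ℤ) * E0 = E at *
      rcases hx with rfl | rfl | rfl | rfl | rfl | rfl | rfl | rfl | rfl | rfl | rfl | rfl | rfl
      all_goals rw [abs_lt]
      · have := abs_le.1 (hb' 0 0); constructor <;> linarith
      · have := abs_le.1 (hb' 0 1); constructor <;> linarith
      · have := abs_le.1 (hb' 1 1); constructor <;> linarith
      · constructor <;> linarith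
      · have := abs_le.1 (hb' 0 2); constructor <;> linarith
      · have := abs_le.1 (hb' 1 2); constructor <;> linarith
      · have := abs_le.1 (hb' 0 3); constructor <;> linarith
      · have := abs_le.1 (hb' 1 3); constructor <;> linarith
      · have := abs_le.1 (hb' 2 2); constructor <;> linarith
      · constructor <;> linarith
      · have := abs_le.1 (hb' 2 3); constructor <;> linarith
      · constructor <;> linarith
      · have := abs_le.1 (hb' 3 3); constructor <;> linarith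
    rcases List.mem_append.1 hx with hx | hx
    · exact hB 0 x hx
    · rcases List.mem_append.1 hx with hx | hx
      · exact hB 1 x hx
      · exact hB 2 x hx
  · intro s hs'
    exact digit_of_land hland hs'

/-- the sum of the polarised values with the coefficients of a point is positive -/
theorem sum_pos_of {δ : ℝ} (hδ : 0 < δ) {φ : Fin 4 → Fin 4 → Fin 3 → ℝ}
    (h : ∀ i j l, δ ≤ φ i j l) {a : Fin 4 → ℝ} {b : Fin 3 → ℝ} (ha : ∀ i, 0 ≤ a i)
    (hb : ∀ i, 0 ≤ b i) (sa : ∑ i, a i = 1) (sb : ∑ i, b i = 1) :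
    0 < ∑ i, ∑ j, ∑ l, a i * a j * b l * φ i j l := by
  have e : ∑ i, ∑ j, ∑ l, a i * a j * b l * δ = δ := by
    have : ∀ i j, ∑ l, a i * a j * b l * δ = a i * a j * δ := by
      intro i j
      rw [← Finset.sum_mul, ← Finset.mul_sum, sb]; ring
    simp only [this]
    have : ∀ i, ∑ j, a i * a j * δ = a i * δ := by
      intro i
      rw [← Finset.sum_mul, ← Finset.mul_sum, sa]; ring
    simp only [this]
    rw [← Finset.sum_mul, sa]; ring
  have : ∑ i, ∑ j, ∑ l, a i * a j * b l * δ ≤ ∑ i, ∑ j, ∑ l, a i * a j * b l * φ i j l := by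
    refine Finset.sum_le_sum fun i _ => Finset.sum_le_sum fun j _ => Finset.sum_le_sum fun l _ => ?_
    exact mul_le_mul_of_nonneg_left (h i j l) (mul_nonneg (mul_nonneg (ha i) (ha j)) (hb l))
  linarith

end Pool.Agent.H315.NW
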