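import Pool.Agent.H315.NW.Snd3

/-!
# Project NW (helper315): soundness of the checker, part 4 (error analysis)
-/

set_option autoImplicit false

namespace Pool.Agent.H315.NW

section alg

variable {R : Type*} [CommRing R]

/-- the polarised matrix -/
def mx (p q : Fin 4 → R) : Fin 3 → Fin 3 → R :=
  ![![p 0 * q 0 + p 1 * q 1 - p 2 * q 2 - p 3 * q 3, p 1 * q 2 + p 2 * q 1 - p 0 * q 3 - p 3 * q 0,
      p 1 * q 3 + p 3 * q 1 + p 0 * q 2 + p 2 * q 0],
    ![p 1 * q 2 + p 2 * q 1 + p 0 * q 3 + p 3 * q 0, p 0 * q 0 - p 1 * q 1 + p 2 * q 2 - p 3 * q 3,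
      p 2 * q 3 + p 3 * q 2 - p 0 * q 1 - p 1 * q 0],
    ![p 1 * q 3 + p 3 * q 1 - p 0 * q 2 - p 2 * q 0, p 2 * q 3 + p 3 * q 2 + p 0 * q 1 + p 1 * q 0,
      p 0 * q 0 - p 1 * q 1 - p 2 * q 2 + p 3 * q 3]]

/-- vector product -/
def crs (n v : Fin 3 → R) : Fin 3 → R :=
  ![n 1 * v 2 - n 2 * v 1, n 2 * v 0 - n 0 * v 2, n 0 * v 1 - n 1 * v 0]

/-- the triple product -/
def tri (a : Fin 3 → R) (M : Fin 3 → Fin 3 → R) (y : Fin 3 → R) : R :=
  ∑ i, ∑ j, a i * M i j * y j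

theorem bf_eq (k : R) (a t v : Fin 3 → R) (p q : Fin 4 → R) (n : Fin 3 → R) :
    bf k a t v p q n = k * tri a (mx p q) (crs n v) - tri t (mx p q) n := by
  simp only [bf, tri, mx, crs, Fin.sum_univ_three, Matrix.cons_val_zero, Matrix.cons_val_one,
    Matrix.cons_val]
  ring

theorem tri_sub1 (a b : Fin 3 → R) (M : Fin 3 → Fin 3 → R) (y : Fin 3 → R) :
    tri a M y - tri b M y = tri (fun i => a i - b i) M y := by
  simp only [tri, ← Finset.sum_sub_distrib]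
  refine Finset.sum_congr rfl fun i _ => Finset.sum_congr rfl fun j _ => by ring

theorem tri_sub3 (a : Fin 3 → R) (M : Fin 3 → Fin 3 → R) (y z : Fin 3 → R) :
    tri a M y - tri a M z = tri a M (fun i => y i - z i) := by
  simp only [tri, ← Finset.sum_sub_distrib]
  refine Finset.sum_congr rfl fun i _ => Finset.sum_congr rfl fun j _ => by ring

end alg

theorem tri_le {a y : Fin 3 → ℝ} {M : Fin 3 → Fin 3 → ℝ} {α m η : ℝ} (ha : ∀ i, |a i| ≤ α)
    (hM : ∀ i j, |M i j| ≤ m) (hy : ∀ i, |y i| ≤ η) : |tri a M y| ≤ 9 * (α * m * η) := by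
  have hα : 0 ≤ α := (abs_nonneg _).trans (ha 0)
  have hm : 0 ≤ m := (abs_nonneg _).trans (hM 0 0)
  have h1 : ∀ i j, |a i * M i j * y j| ≤ α * m * η := by
    intro i j
    rw [abs_mul, abs_mul]
    exact mul_le_mul (mul_le_mul (ha i) (hM i j) (abs_nonneg _) hα) (hy j) (abs_nonneg _)
      (mul_nonneg hα hm)
  unfold tri
  refine (Finset.abs_sum_le_sum_abs _ _).trans ?_
  refine (Finset.sum_le_sum fun i _ => Finset.abs_sum_le_sum_abs _ _).trans ?_
  refine (Finset.sum_le_sum fun i _ => Finset.sum_le_sum fun j _ => h1 i j).trans ?_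
  simp only [Finset.sum_const, Finset.card_univ, Fintype.card_fin, nsmul_eq_mul]
  push_cast
  linarith

theorem mx_le {p q : Fin 4 → ℝ} {S : ℝ} (hp : ∀ i, |p i| ≤ S) (hq : ∀ i, |q i| ≤ S) :
    ∀ i j, |mx p q i j| ≤ 4 * S ^ 2 := by
  have hS : 0 ≤ S := (abs_nonneg _).trans (hp 0)
  have h : ∀ i j, -S ^ 2 ≤ p i * q j ∧ p i * q j ≤ S ^ 2 := by
    intro i j
    have : |p i * q j| ≤ S ^ 2 := by
      rw [abs_mul, pow_two]
      exact mul_le_mul (hp i) (hq j) (abs_nonneg _) hS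
    exact abs_le.1 this
  have h00 := h 0 0
  have h11 := h 1 1
  have h22 := h 2 2
  have h33 := h 3 3
  have h01 := h 0 1
  have h10 := h 1 0
  have h02 := h 0 2
  have h20 := h 2 0
  have h03 := h 0 3
  have h30 := h 3 0
  have h12 := h 1 2
  have h21 := h 2 1
  have h13 := h 1 3
  have h31 := h 3 1
  have h23 := h 2 3
  have h32 := h 3 2
  intro i j
  rw [abs_le]
  fin_cases i <;> fin_cases j <;>
    simp only [mx, Fin.zero_eta, Fin.mk_one, Fin.reduceFinMk, Matrix.cons_val_zero,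
      Matrix.cons_val_one, Matrix.cons_val] <;>
    constructor <;> linarith

theorem crs_le {n v : Fin 3 → ℝ} {N V : ℝ} (hn : ∀ i, |n i| ≤ N) (hv : ∀ i, |v i| ≤ V) :
    ∀ i, |crs n v i| ≤ 2 * N * V := by
  have hN : 0 ≤ N := (abs_nonneg _).trans (hn 0)
  have h : ∀ i j, -(N * V) ≤ n i * v j ∧ n i * v j ≤ N * V := by
    intro i j
    have : |n i * v j| ≤ N * V := by
      rw [abs_mul]
      exact mul_le_mul (hn i) (hv j) (abs_nonneg _) hN
    exact abs_le.1 this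
  have h01 := h 0 1
  have h10 := h 1 0
  have h02 := h 0 2
  have h20 := h 2 0
  have h12 := h 1 2
  have h21 := h 2 1
  intro i
  rw [abs_le]
  fin_cases i <;>
    simp only [crs, Fin.zero_eta, Fin.mk_one, Fin.reduceFinMk, Matrix.cons_val_zero,
      Matrix.cons_val_one, Matrix.cons_val] <;>
    constructor <;> linarith

theorem crs_sub (n v w : Fin 3 → ℝ) (i : Fin 3) :
    crs n v i - crs n w i = crs n (fun j => v j - w j) i := by
  fin_cases i <;>
    simp only [crs, Fin.zero_eta, Fin.mk_one, Fin.reduceFinMk, Matrix.cons_val_zero,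
      Matrix.cons_val_one, Matrix.cons_val] <;> ring

/-- the error and the size of a form; the scale `Q` is `2 ^ 44` -/
theorem bf_err {k : ℝ} (hk : 0 ≤ k) {a t v A T V : Fin 3 → ℝ} {p q : Fin 4 → ℝ} {n : Fin 3 → ℝ}
    {S N α β τ δ : ℝ} (hp : ∀ i, |p i| ≤ S) (hq : ∀ i, |q i| ≤ S) (hn : ∀ i, |n i| ≤ N)
    (ha : ∀ i, |a i| ≤ α) (hA : ∀ i, |A i| ≤ α) (hv : ∀ i, |v i| ≤ β)
    (da : ∀ i, |a i - A i| ≤ 1) (dv : ∀ i, |v i - V i| ≤ 1)
    (ht : ∀ i, |t i| ≤ τ) (dt : ∀ i, |t i - T i| ≤ δ) :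
    |bf k a t v p q n| ≤ 36 * S ^ 2 * N * (2 * k * α * β + τ) ∧
    |bf k a t v p q n - bf k A T V p q n| ≤ 36 * S ^ 2 * N * (2 * k * (β + α) + δ) := by
  have hM := mx_le hp hq
  have hy := crs_le hn hv
  constructor
  · rw [bf_eq]
    have h1 := tri_le ha hM hy
    have h2 := tri_le ht hM hn
    have h3 : |k * tri a (mx p q) (crs n v)| ≤ k * (9 * (α * (4 * S ^ 2) * (2 * N * β))) := by
      rw [abs_mul, abs_of_nonneg hk]
      exact mul_le_mul_of_nonneg_left h1 hk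
    refine (abs_sub _ _).trans ?_
    nlinarith
  · rw [bf_eq, bf_eq]
    have e : k * tri a (mx p q) (crs n v) - tri t (mx p q) n -
        (k * tri A (mx p q) (crs n V) - tri T (mx p q) n) =
        k * (tri (fun i => a i - A i) (mx p q) (crs n v) +
          tri A (mx p q) (fun i => crs n v i - crs n V i)) -
        tri (fun i => t i - T i) (mx p q) n := by
      rw [← tri_sub1, ← tri_sub1, ← tri_sub3]; ring
    rw [e]
    have h1 := tri_le da hM hy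
    have hc : ∀ i, |crs n v i - crs n V i| ≤ 2 * N * 1 := by
      intro i; rw [crs_sub]; exact crs_le hn dv i
    have h2 := tri_le hA hM hc
    have h3 := tri_le dt hM hn
    have h4 : |k * (tri (fun i => a i - A i) (mx p q) (crs n v) +
        tri A (mx p q) (fun i => crs n v i - crs n V i))| ≤
        k * (9 * (1 * (4 * S ^ 2) * (2 * N * β)) + 9 * (α * (4 * S ^ 2) * (2 * N * 1))) := by
      rw [abs_mul, abs_of_nonneg hk]
      refine mul_le_mul_of_nonneg_left ?_ hk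
      exact (abs_add_le _ _).trans (by linarith)
    refine (abs_sub _ _).trans ?_
    nlinarith

/-- the sizes of a cell -/
structure Bd (c : Cell) : Prop where
  x0 : c.x0 ≤ 2 * LP
  y0 : c.y0 ≤ 2 * LP
  z0 : c.z0 ≤ 2 * LP
  x1 : c.x1 ≤ 2 * LP
  y1 : c.y1 ≤ 2 * LP
  z1 : c.z1 ≤ 2 * LP
  x2 : c.x2 ≤ 2 * LP
  y2 : c.y2 ≤ 2 * LP
  z2 : c.z2 ≤ 2 * LP
  x3 : c.x3 ≤ 2 * LP
  y3 : c.y3 ≤ 2 * LP
  z3 : c.z3 ≤ 2 * LP
  a0 : c.a0 ≤ SN
  b0 : c.b0 ≤ SN
  a1 : c.a1 ≤ SN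
  b1 : c.b1 ≤ SN
  a2 : c.a2 ≤ SN
  b2 : c.b2 ≤ SN

/-- the real generators -/
def Cell.Pr (c : Cell) (i : Fin 4) : Fin 4 → ℝ := fun k => (c.Pz i k : ℝ)

/-- the real generators -/
def Cell.Nr (c : Cell) (i : Fin 3) : Fin 3 → ℝ := fun k => (c.Nz i k : ℝ)

theorem Pr_le {c : Cell} (h : Bd c) (i k : Fin 4) : |c.Pr i k| ≤ (SP : ℝ) := by
  have : |c.Pz i k| ≤ (SP : ℤ) := by
    obtain ⟨x0, y0, z0, x1, y1, z1, x2, y2, z2, x3, y3, z3, -, -, -, -, -, -⟩ := h
    simp only [LP, SP] at *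
    rw [abs_le]
    fin_cases i <;> fin_cases k <;>
      simp only [Cell.Pz, SP, LP, Fin.zero_eta, Fin.mk_one, Fin.reduceFinMk,
        Matrix.cons_val_zero, Matrix.cons_val_one, Matrix.cons_val] <;>
      push_cast <;> constructor <;> first | trivial | omega
  have h2 : ((|c.Pz i k| : ℤ) : ℝ) ≤ ((SP : ℤ) : ℝ) := by exact_mod_cast this
  simpa [Cell.Pr] using h2

theorem Nr_le {c : Cell} (h : Bd c) (i k : Fin 3) : |c.Nr i k| ≤ (SN : ℝ) := by
  have : |c.Nz i k| ≤ (SN : ℤ) := by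
    obtain ⟨-, -, -, -, -, -, -, -, -, -, -, -, x0, y0, x1, y1, x2, y2⟩ := h
    simp only [SN] at *
    rw [abs_le]
    fin_cases i <;> fin_cases k <;>
      simp only [Cell.Nz, SN, Fin.zero_eta, Fin.mk_one, Fin.reduceFinMk,
        Matrix.cons_val_zero, Matrix.cons_val_one, Matrix.cons_val] <;>
      constructor <;> first | trivial | omega
  have h2 : ((|c.Nz i k| : ℤ) : ℝ) ≤ ((SN : ℤ) : ℝ) := by exact_mod_cast this
  simpa [Cell.Nr] using h2

/-- a triple as a real vector -/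
def Z3.r (a : Z3) : Fin 3 → ℝ := fun i => (a.v i : ℝ)

/-- the integer triples of a form approximate real vectors -/
structure Apx (a t v : Z3) (A T V : Fin 3 → ℝ) : Prop where
  bd : Bnd a t v
  hA : ∀ i, |A i| ≤ 2 ^ 47
  da : ∀ i, |a.r i - A i| ≤ 1
  dv : ∀ i, |v.r i - V i| ≤ 1
  dt : ∀ i, |t.r i - T i| ≤ 2 ^ 56

theorem cast_bf (k : ℤ) (a t v : Fin 3 → ℤ) (p q : Fin 4 → ℤ) (n : Fin 3 → ℤ) :
    ((bf k a t v p q n : ℤ) : ℝ) = bf (k : ℝ) (fun i => (a i : ℝ)) (fun i => (t i : ℝ))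
      (fun i => (v i : ℝ)) (fun i => (p i : ℝ)) (fun i => (q i : ℝ)) (fun i => (n i : ℝ)) := by
  unfold bf; push_cast; rfl

theorem z3_le {a : Z3} {B : ℤ} (h0 : |a.x| ≤ B) (h1 : |a.y| ≤ B) (h2 : |a.z| ≤ B) (i : Fin 3) :
    |a.r i| ≤ (B : ℝ) := by
  have : |a.v i| ≤ B := by
    fin_cases i
    · exact h0
    · exact h1
    · exact h2
  have h2 : ((|a.v i| : ℤ) : ℝ) ≤ (B : ℝ) := by exact_mod_cast this
  simpa [Z3.r] using h2

/-- every form of the checker approximates its real form -/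
theorem good_form {c : Cell} (hc : Bd c) {a t v : Z3} {A T V : Fin 3 → ℝ} (h : Apx a t v A T V) :
    Good 1 ((evT c.pk (mkTb a t v) : ℤ) + EG - evW c.pk)
      (fun i j l => bf (cn : ℝ) A T V (c.Pr i) (c.Pr j) (c.Nr l)) := by
  have key : ∀ i j l, |bf (cn : ℝ) a.r t.r v.r (c.Pr i) (c.Pr j) (c.Nr l)| ≤ 2 ^ 176 ∧
      |bf (cn : ℝ) a.r t.r v.r (c.Pr i) (c.Pr j) (c.Nr l) -
        bf (cn : ℝ) A T V (c.Pr i) (c.Pr j) (c.Nr l)| ≤ ERR := by
    intro i j l
    have ha : ∀ i, |a.r i| ≤ (2 : ℝ) ^ 47 := fun i => by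
      have := z3_le h.bd.a0 h.bd.a1 h.bd.a2 i
      norm_num at this ⊢
      exact this
    have hv : ∀ i, |v.r i| ≤ (2 : ℝ) ^ 45 := fun i => by
      have := z3_le h.bd.v0 h.bd.v1 h.bd.v2 i
      norm_num at this ⊢
      exact this
    have ht : ∀ i, |t.r i| ≤ (2 : ℝ) ^ 103 := fun i => by
      have := z3_le h.bd.t0 h.bd.t1 h.bd.t2 i
      norm_num at this ⊢
      exact this
    have hk : (0 : ℝ) ≤ cn := by positivity
    obtain ⟨b1, b2⟩ := bf_err hk (Pr_le hc i) (Pr_le hc j) (Nr_le hc l) ha h.hA hv h.da h.dv ht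
      h.dt
    constructor
    · refine b1.trans ?_
      simp only [SP, SN, cn]
      norm_num
    · refine b2.trans ?_
      simp only [SP, SN, cn, ERR, FM]
      norm_num
  refine ⟨fun i j l => bf (cn : ℤ) a.v t.v v.v (c.Pz i) (c.Pz j) (c.Nz l),
    fun i j l => bf_symm _ _ _ _ _ _ _, pk_spec c h.bd, ?_, ?_⟩
  · intro i j l
    have := (key i j l).1
    have e := cast_bf cn a.v t.v v.v (c.Pz i) (c.Pz j) (c.Nz l)
    have e' : ((bf (cn : ℤ) a.v t.v v.v (c.Pz i) (c.Pz j) (c.Nz l) : ℤ) : ℝ) =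
      bf (cn : ℝ) a.r t.r v.r (c.Pr i) (c.Pr j) (c.Nr l) := by
      rw [e]; simp only [Int.cast_natCast]; rfl
    rw [← e'] at this
    rw [one_mul]
    exact_mod_cast this
  · intro i j l
    have := (key i j l).2
    have e := cast_bf cn a.v t.v v.v (c.Pz i) (c.Pz j) (c.Nz l)
    have e' : ((bf (cn : ℤ) a.v t.v v.v (c.Pz i) (c.Pz j) (c.Nz l) : ℤ) : ℝ) =
      bf (cn : ℝ) a.r t.r v.r (c.Pr i) (c.Pr j) (c.Nr l) := by
      rw [e]; simp only [Int.cast_natCast]; rfl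
    simp only
    rw [e', Int.cast_one, one_mul]
    exact this

end Pool.Agent.H315.NW
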