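import Pool.Agent.H315.NW.Snd4

/-!
# Project NW (helper315): soundness of the checker, part 5 (the tree)
-/

set_option autoImplicit false

namespace Pool.Agent.H315.NW

/-- the point is in the cell -/
def InC (c : Cell) (p : Fin 4 → ℝ) (n : Fin 3 → ℝ) : Prop :=
  ∃ a : Fin 4 → ℝ, ∃ b : Fin 3 → ℝ, (∀ i, 0 ≤ a i) ∧ (∀ i, 0 ≤ b i) ∧ ∑ i, a i = 1 ∧
    ∑ i, b i = 1 ∧ p = ∑ i, a i • c.Pr i ∧ n = ∑ i, b i • c.Nr i

/-- validity of the data -/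
structure DOK (D : Dat) (sg : ℕ → (Fin 4 → ℝ) → (Fin 3 → ℝ) → ℝ)
    (Bad : (Fin 4 → ℝ) → (Fin 3 → ℝ) → Prop) : Prop where
  edge : ∀ E ∈ D.edges, ∀ v ∈ D.verts, ∃ A T V : Fin 3 → ℝ, Apx E.a E.t v A T V ∧
    ∀ p n, Bad p n → 0 ≤ sg E.f1 p n → sg E.f2 p n ≤ 0 → bf (cn : ℝ) A T V p p n ≤ 0
  face : ∀ f F, D.faces[f]? = some F → ∃ T : Fin 3 → ℝ, ∃ κ : ℝ, 0 < κ ∧
    (∀ i, |F.v i| ≤ 2 ^ 103) ∧ (∀ i, |F.r i - T i| ≤ 2 ^ 56) ∧
    ∀ p n, bf (cn : ℝ) 0 T 0 p p n = -(κ * sg f p n)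
  outs : ∀ o ∈ D.outs, ∃ w0 : ℝ, ∃ w : Fin 3 → ℝ, |(o.1 : ℝ) - w0| ≤ 1 ∧
    (∀ i, |o.2.r i - w i| ≤ 1) ∧
    ∀ p n, Bad p n → w0 * p 0 + w 0 * p 1 + w 1 * p 2 + w 2 * p 3 ≤ 0
  locs : ∀ l ∈ D.locs, ∀ p n, Bad p n → p 0 = SP → n 2 = SN →
    (l.lx : ℝ) - LP ≤ p 1 → p 1 ≤ (l.hx : ℝ) - LP → (l.ly : ℝ) - LP ≤ p 2 →
    p 2 ≤ (l.hy : ℝ) - LP → (l.lz : ℝ) - LP ≤ p 3 → p 3 ≤ (l.hz : ℝ) - LP →
    0 ≤ n 0 → n 0 ≤ (l.ha : ℝ) → (l.lb : ℝ) ≤ n 1 → n 1 ≤ (l.hb : ℝ) → False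
  holes : ∀ h ∈ D.holes, ∀ p n, InC h.1 p n →
    (∀ f, Nat.testBit h.2.1 f = true → 0 ≤ sg f p n) →
    (∀ f, Nat.testBit h.2.2 f = true → sg f p n ≤ 0) → ¬ Bad p n

/-- the total value -/
def Tot (a : Fin 4 → ℝ) (b : Fin 3 → ℝ) (φ : Fin 4 → Fin 4 → Fin 3 → ℝ) : ℝ :=
  ∑ i, ∑ j, ∑ l, a i * a j * b l * φ i j l

theorem Tot_add (a : Fin 4 → ℝ) (b : Fin 3 → ℝ) (φ ψ : Fin 4 → Fin 4 → Fin 3 → ℝ) :
    Tot a b (fun i j l => φ i j l + ψ i j l) = Tot a b φ + Tot a b ψ := by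
  simp only [Tot, mul_add, Finset.sum_add_distrib]

theorem Tot_smul (a : Fin 4 → ℝ) (b : Fin 3 → ℝ) (m : ℝ) (φ : Fin 4 → Fin 4 → Fin 3 → ℝ) :
    Tot a b (fun i j l => m * φ i j l) = m * Tot a b φ := by
  simp only [Tot, Finset.mul_sum]
  refine Finset.sum_congr rfl fun i _ => Finset.sum_congr rfl fun j _ =>
    Finset.sum_congr rfl fun l _ => by ring

theorem ERR_pos : (0 : ℝ) < ERR := by
  have : ERR = 4194304 * (17592186044416 * 2126277246976 * 8192000) := by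
    unfold ERR FM SP SN; norm_num
  rw [this]; norm_num

theorem pos_of_digs {c : Cell} {W z : ℕ} (hW : 0 < W) (hW2 : W ≤ 1024)
    (hd : digs z (Nat.mul W (evW c.pk)) = true) {φ : Fin 4 → Fin 4 → Fin 3 → ℝ}
    (h : Good W ((z : ℤ) + W * (EG - evW c.pk)) φ) {a : Fin 4 → ℝ} {b : Fin 3 → ℝ}
    (ha : ∀ i, 0 ≤ a i) (hb : ∀ i, 0 ≤ b i) (sa : ∑ i, a i = 1) (sb : ∑ i, b i = 1) :
    0 < Tot a b φ := by
  have e : ((z : ℤ) + W * (EG - evW c.pk)) = (z : ℤ) + W * EG - (Nat.mul W (evW c.pk) : ℕ) := by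
    have : ((Nat.mul W (evW c.pk) : ℕ) : ℤ) = W * evW c.pk := Nat.cast_mul _ _
    rw [this]; ring
  rw [e] at h
  have hp := good_pos hW hW2 hd h
  have hδ : (0 : ℝ) < W * ERR := mul_pos (by exact_mod_cast hW) ERR_pos
  exact sum_pos_of hδ hp ha hb sa sb

theorem Tot_form {c : Cell} {A T V : Fin 3 → ℝ} {P : Fin 4 → ℝ} {N : Fin 3 → ℝ}
    {a : Fin 4 → ℝ} {b : Fin 3 → ℝ} (hP : P = ∑ i, a i • c.Pr i) (hN : N = ∑ i, b i • c.Nr i) :
    Tot a b (fun i j l => bf (cn : ℝ) A T V (c.Pr i) (c.Pr j) (c.Nr l)) =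
      bf (cn : ℝ) A T V P P N := by
  rw [hP, hN, bf_expand]; rfl

section

variable {D : Dat} {sg : ℕ → (Fin 4 → ℝ) → (Fin 3 → ℝ) → ℝ}
  {Bad : (Fin 4 → ℝ) → (Fin 3 → ℝ) → Prop}

theorem bnd0 {F : Z3} (h : ∀ i, |F.v i| ≤ 2 ^ 103) : Bnd Z0 F Z0 :=
  ⟨by simp [Z0], by simp [Z0], by simp [Z0], by simp [Z0], by simp [Z0], by simp [Z0],
    h 0, h 1, h 2⟩

theorem apx0 {F : Z3} {T : Fin 3 → ℝ} (h : ∀ i, |F.v i| ≤ 2 ^ 103)
    (h2 : ∀ i, |F.r i - T i| ≤ 2 ^ 56) : Apx Z0 F Z0 0 T 0 := by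
  refine ⟨bnd0 h, fun i => by simp, fun i => ?_, fun i => ?_, h2⟩ <;>
  · fin_cases i <;> simp [Z3.r, Z3.v, Z0]

theorem apx0' {F : Z3} {T : Fin 3 → ℝ} (h : ∀ i, |F.v i| ≤ 2 ^ 103)
    (h2 : ∀ i, |F.r i - T i| ≤ 2 ^ 56) :
    Apx Z0 ⟨-F.x, -F.y, -F.z⟩ Z0 0 (fun i => -T i) 0 := by
  refine apx0 (F := ⟨-F.x, -F.y, -F.z⟩) (fun i => ?_) (fun i => ?_)
  · have := h i
    fin_cases i <;> simpa [Z3.v, abs_neg] using this
  · have := h2 i
    have e : (⟨-F.x, -F.y, -F.z⟩ : Z3).r i - -T i = -(F.r i - T i) := by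
      fin_cases i <;> simp [Z3.r, Z3.v] <;> ring
    rw [e, abs_neg]; exact this

theorem face_pos (hD : DOK D sg Bad) {f : ℕ} {F : Z3} (hf : D.faces[f]? = some F) {c : Cell}
    (hc : Bd c) {a : Fin 4 → ℝ} {b : Fin 3 → ℝ} {P : Fin 4 → ℝ} {N : Fin 3 → ℝ}
    (hP : P = ∑ i, a i • c.Pr i) (hN : N = ∑ i, b i • c.Nr i) :
    ∃ κ : ℝ, 0 < κ ∧
      (∃ φ, Good 1 ((evT c.pk (tbP F) : ℤ) + EG - evW c.pk) φ ∧ Tot a b φ = κ * sg f P N) ∧
      (∃ φ, Good 1 ((evT c.pk (tbM F) : ℤ) + EG - evW c.pk) φ ∧ Tot a b φ = -(κ * sg f P N)) := by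
  obtain ⟨T, κ, hκ, h1, h2, h3⟩ := hD.face f F hf
  refine ⟨κ, hκ, ⟨_, good_form hc (apx0' h1 h2), ?_⟩, ⟨_, good_form hc (apx0 h1 h2), ?_⟩⟩
  · rw [Tot_form hP hN]
    have : bf (cn : ℝ) 0 (fun i => -T i) 0 P P N = -bf (cn : ℝ) 0 T 0 P P N := by
      unfold bf; simp only [Pi.zero_apply]; ring
    rw [this, h3]; ring
  · rw [Tot_form hP hN, h3]

theorem digs_one {z w : ℕ} (h : digs z w = true) : digs z (Nat.mul 1 w) = true := by
  have : Nat.mul 1 w = w := Nat.one_mul w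
  rw [this]; exact h

theorem good_one {z w : ℕ} {φ : Fin 4 → Fin 4 → Fin 3 → ℝ}
    (h : Good 1 ((z : ℤ) + EG - w) φ) : Good ((1 : ℕ) : ℤ) ((z : ℤ) + (1 : ℕ) * (EG - w)) φ := by
  have e : ((z : ℤ) + (1 : ℕ) * ((EG : ℤ) - w)) = (z : ℤ) + EG - w := by push_cast; ring
  rw [e]; exact h

theorem sound_P (hD : DOK D sg Bad) {f : ℕ} {F : Z3} (hf : D.faces[f]? = some F) {c : Cell}
    (hc : Bd c) {P : Fin 4 → ℝ} {N : Fin 3 → ℝ} (h : InC c P N)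
    (hd : digs (evT c.pk (tbP F)) (evW c.pk) = true) : 0 ≤ sg f P N := by
  obtain ⟨a, b, ha, hb, sa, sb, hP, hN⟩ := h
  obtain ⟨κ, hκ, ⟨φ, h1, h2⟩, -⟩ := face_pos hD hf hc hP hN
  have h3 := pos_of_digs one_pos (by norm_num) (digs_one hd) (good_one h1) ha hb sa sb
  rw [h2] at h3
  exact ((mul_pos_iff_of_pos_left hκ).1 h3).le

theorem sound_M (hD : DOK D sg Bad) {f : ℕ} {F : Z3} (hf : D.faces[f]? = some F) {c : Cell}
    (hc : Bd c) {P : Fin 4 → ℝ} {N : Fin 3 → ℝ} (h : InC c P N)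
    (hd : digs (evT c.pk (tbM F)) (evW c.pk) = true) : sg f P N ≤ 0 := by
  obtain ⟨a, b, ha, hb, sa, sb, hP, hN⟩ := h
  obtain ⟨κ, hκ, -, ⟨φ, h1, h2⟩⟩ := face_pos hD hf hc hP hN
  have h3 := pos_of_digs one_pos (by norm_num) (digs_one hd) (good_one h1) ha hb sa sb
  rw [h2] at h3
  have h4 : κ * sg f P N < 0 := by linarith
  by_contra hcon
  push Not at hcon
  have := mul_pos hκ hcon
  linarith

theorem sound_L (hD : DOK D sg Bad) {e v : ℕ} {E : ER} {V : Z3} (he : D.edges[e]? = some E)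
    (hv : D.verts[v]? = some V) {c : Cell} (hc : Bd c) {P : Fin 4 → ℝ} {N : Fin 3 → ℝ}
    (h : InC c P N) (h1 : 0 ≤ sg E.f1 P N) (h2 : sg E.f2 P N ≤ 0)
    (hd : digs (evT c.pk (mkTb E.a E.t V)) (evW c.pk) = true) : ¬ Bad P N := by
  intro hB
  obtain ⟨a, b, ha, hb, sa, sb, hP, hN⟩ := h
  obtain ⟨A, T, V', hA, hA2⟩ := hD.edge E (List.mem_of_getElem? he) V (List.mem_of_getElem? hv)
  have h3 := pos_of_digs one_pos (by norm_num) (digs_one hd) (good_one (good_form hc hA)) ha hb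
    sa sb
  rw [Tot_form hP hN] at h3
  have := hA2 P N hB h1 h2
  linarith

theorem comb_E (hD : DOK D sg Bad) {p q : ℕ} {c : Cell} (hc : Bd c) {P : Fin 4 → ℝ}
    {N : Fin 3 → ℝ} {a : Fin 4 → ℝ} {b : Fin 3 → ℝ}
    (hP : P = ∑ i, a i • c.Pr i) (hN : N = ∑ i, b i • c.Nr i) (hB : Bad P N)
    (hp : ∀ f, Nat.testBit p f = true → 0 ≤ sg f P N)
    (hq : ∀ f, Nat.testBit q f = true → sg f P N ≤ 0) (es : List (ℕ × ℕ × ℕ))
    (h : okE D p q es = true) :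
    ∃ φ, Good (wtE es) ((valE D c.pk es : ℤ) + wtE es * (EG - evW c.pk)) φ ∧ Tot a b φ ≤ 0 := by
  induction es with
  | nil =>
    refine ⟨fun _ _ _ => 0, ?_, ?_⟩
    · have e1 : valE D c.pk [] = 0 := rfl
      have e2 : wtE [] = 0 := rfl
      have e : ((valE D c.pk [] : ℤ) + wtE [] * ((EG : ℤ) - evW c.pk)) = 0 := by
        rw [e1, e2, Nat.cast_zero, zero_mul, add_zero]
      rw [e, e2]
      exact Good.zero
    · simp [Tot]
  | cons x l ih =>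
    obtain ⟨e, v, m⟩ := x
    simp only [okE] at h
    cases he : D.edges[e]? with
    | none => rw [he] at h; simp at h
    | some E =>
      cases hv : D.verts[v]? with
      | none => rw [he, hv] at h; simp at h
      | some V =>
        rw [he, hv] at h
        simp only [Bool.and_eq_true] at h
        obtain ⟨⟨h1, h2⟩, h3⟩ := h
        obtain ⟨φ, g1, g2⟩ := ih h3
        obtain ⟨A, T, V', hA, hA2⟩ := hD.edge E (List.mem_of_getElem? he) V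
          (List.mem_of_getElem? hv)
        have g3 := ((good_form hc hA).smul m).add g1
        refine ⟨fun i j k => (m : ℝ) * bf (cn : ℝ) A T V' (c.Pr i) (c.Pr j) (c.Nr k) + φ i j k,
          ?_, ?_⟩
        · have e1 : valE D c.pk ((e, v, m) :: l) =
              m * evT c.pk (mkTb E.a E.t V) + valE D c.pk l := by
            simp only [valE, he, hv]; rfl
          have e2 : wtE ((e, v, m) :: l) = m + wtE l := rfl
          have e3 : ((valE D c.pk ((e, v, m) :: l) : ℤ) +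
              wtE ((e, v, m) :: l) * ((EG : ℤ) - evW c.pk)) =
              m * ((evT c.pk (mkTb E.a E.t V) : ℤ) + EG - evW c.pk) +
              ((valE D c.pk l : ℤ) + wtE l * ((EG : ℤ) - evW c.pk)) := by
            rw [e1, e2]; push_cast; ring
          have e4 : ((wtE ((e, v, m) :: l) : ℕ) : ℤ) = m * 1 + wtE l := by
            rw [e2]; push_cast; ring
          rw [e3, e4]
          exact g3
        · rw [Tot_add, Tot_smul, Tot_form hP hN]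
          have := hA2 P N hB (hp _ h1) (hq _ h2)
          have hm : (0 : ℝ) ≤ m := Nat.cast_nonneg m
          have := mul_nonneg hm (neg_nonneg.2 this)
          linarith

theorem comb_F (hD : DOK D sg Bad) {p q : ℕ} {c : Cell} (hc : Bd c) {P : Fin 4 → ℝ}
    {N : Fin 3 → ℝ} {a : Fin 4 → ℝ} {b : Fin 3 → ℝ}
    (hP : P = ∑ i, a i • c.Pr i) (hN : N = ∑ i, b i • c.Nr i)
    (hp : ∀ f, Nat.testBit p f = true → 0 ≤ sg f P N)
    (hq : ∀ f, Nat.testBit q f = true → sg f P N ≤ 0) (fs : List (ℕ × ℕ))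
    (h : okF D p q fs = true) :
    ∃ φ, Good (wtF fs) ((valF D c.pk p fs : ℤ) + wtF fs * (EG - evW c.pk)) φ ∧
      Tot a b φ ≤ 0 := by
  induction fs with
  | nil =>
    refine ⟨fun _ _ _ => 0, ?_, ?_⟩
    · have e1 : valF D c.pk p [] = 0 := rfl
      have e2 : wtF [] = 0 := rfl
      have e : ((valF D c.pk p [] : ℤ) + wtF [] * ((EG : ℤ) - evW c.pk)) = 0 := by
        rw [e1, e2, Nat.cast_zero, zero_mul, add_zero]
      rw [e, e2]
      exact Good.zero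
    · simp [Tot]
  | cons x l ih =>
    obtain ⟨f, m⟩ := x
    simp only [okF] at h
    cases hf : D.faces[f]? with
    | none => rw [hf] at h; simp at h
    | some F =>
      rw [hf] at h
      simp only [Bool.and_eq_true, Bool.or_eq_true] at h
      obtain ⟨h1, h3⟩ := h
      obtain ⟨φ, g1, g2⟩ := ih h3
      have hm : (0 : ℝ) ≤ m := Nat.cast_nonneg m
      obtain ⟨κ, hκ, ⟨φ1, k1, k2⟩, ⟨φ2, k3, k4⟩⟩ := face_pos hD hf hc (b := b) hP hN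
      have e2 : wtF ((f, m) :: l) = m + wtF l := rfl
      have e4 : ((wtF ((f, m) :: l) : ℕ) : ℤ) = m * 1 + wtF l := by
        rw [e2]; push_cast; ring
      cases hb : Nat.testBit p f with
      | true =>
        have e1 : valF D c.pk p ((f, m) :: l) =
            m * evT c.pk (tbM F) + valF D c.pk p l := by
          simp only [valF, hf, hb]; rfl
        have e3 : ((valF D c.pk p ((f, m) :: l) : ℤ) +
            wtF ((f, m) :: l) * ((EG : ℤ) - evW c.pk)) =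
            m * ((evT c.pk (tbM F) : ℤ) + EG - evW c.pk) +
            ((valF D c.pk p l : ℤ) + wtF l * ((EG : ℤ) - evW c.pk)) := by
          rw [e1, e2]; push_cast; ring
        refine ⟨fun i j k => (m : ℝ) * φ2 i j k + φ i j k,
          by rw [e3, e4]; exact (k3.smul m).add g1, ?_⟩
        rw [Tot_add, Tot_smul, k4]
        have := mul_nonneg hm (mul_nonneg hκ.le (hp f hb))
        linarith
      | false =>
        have hq' : Nat.testBit q f = true := by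
          rcases h1 with h1 | h1
          · rw [hb] at h1; exact absurd h1 (by decide)
          · exact h1
        have e1 : valF D c.pk p ((f, m) :: l) =
            m * evT c.pk (tbP F) + valF D c.pk p l := by
          simp only [valF, hf, hb]; rfl
        have e3 : ((valF D c.pk p ((f, m) :: l) : ℤ) +
            wtF ((f, m) :: l) * ((EG : ℤ) - evW c.pk)) =
            m * ((evT c.pk (tbP F) : ℤ) + EG - evW c.pk) +
            ((valF D c.pk p l : ℤ) + wtF l * ((EG : ℤ) - evW c.pk)) := by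
          rw [e1, e2]; push_cast; ring
        refine ⟨fun i j k => (m : ℝ) * φ1 i j k + φ i j k,
          by rw [e3, e4]; exact (k1.smul m).add g1, ?_⟩
        rw [Tot_add, Tot_smul, k2]
        have := mul_nonneg hm (mul_nonneg hκ.le (neg_nonneg.2 (hq f hq')))
        linarith

theorem sound_K (hD : DOK D sg Bad) {p q : ℕ} {c : Cell} (hc : Bd c) {P : Fin 4 → ℝ}
    {N : Fin 3 → ℝ} (h : InC c P N)
    (hp : ∀ f, Nat.testBit p f = true → 0 ≤ sg f P N)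
    (hq : ∀ f, Nat.testBit q f = true → sg f P N ≤ 0) {es : List (ℕ × ℕ × ℕ)}
    {fs : List (ℕ × ℕ)} (hk : combOk D es fs c.pk p q = true) : ¬ Bad P N := by
  intro hB
  obtain ⟨a, b, ha, hb, sa, sb, hP, hN⟩ := h
  simp only [combOk, Bool.and_eq_true, Nat.blt_eq, Nat.ble_eq] at hk
  obtain ⟨⟨⟨⟨k1, k2⟩, k3⟩, k4⟩, k5⟩ := hk
  obtain ⟨φ1, g1, t1⟩ := comb_E hD hc hP hN hB hp hq es k1
  obtain ⟨φ2, g2, t2⟩ := comb_F hD hc (b := b) hP hN hp hq fs k2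
  have g3 := g1.add g2
  have e1 : ((Nat.add (valE D c.pk es) (valF D c.pk p fs) : ℕ) : ℤ) +
      (Nat.add (wtE es) (wtF fs) : ℕ) * ((EG : ℤ) - evW c.pk) =
      ((valE D c.pk es : ℤ) + wtE es * ((EG : ℤ) - evW c.pk)) +
      ((valF D c.pk p fs : ℤ) + wtF fs * ((EG : ℤ) - evW c.pk)) := by
    have a1 : Nat.add (valE D c.pk es) (valF D c.pk p fs) =
      valE D c.pk es + valF D c.pk p fs := rfl
    have a2 : Nat.add (wtE es) (wtF fs) = wtE es + wtF fs := rfl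
    rw [a1, a2]; push_cast; ring
  have e2 : ((Nat.add (wtE es) (wtF fs) : ℕ) : ℤ) = (wtE es : ℤ) + wtF fs := by
    have a2 : Nat.add (wtE es) (wtF fs) = wtE es + wtF fs := rfl
    rw [a2]; push_cast; ring
  rw [← e1, ← e2] at g3
  have := pos_of_digs k3 k4 k5 g3 ha hb sa sb
  rw [Tot_add] at this
  linarith

theorem psb_pos {z : ℤ} (h : psb z = true) : 0 < z := by
  cases z with
  | ofNat z =>
    simp only [psb, Nat.blt_eq] at h
    have h' : (0 : ℤ) < (z : ℤ) := by exact_mod_cast h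
    exact h'
  | negSucc z => simp [psb] at h

theorem out_pos {o : ℤ × Z3} {w0 : ℝ} {w : Fin 3 → ℝ} (h0 : |(o.1 : ℝ) - w0| ≤ 1)
    (hw : ∀ i, |o.2.r i - w i| ≤ 1) {x y z : ℕ} (hx : x ≤ 2 * LP) (hy : y ≤ 2 * LP)
    (hz : z ≤ 2 * LP) (h : outOk o x y z = true) :
    0 < w0 * SP + w 0 * ((x : ℝ) - LP) + w 1 * ((y : ℝ) - LP) + w 2 * ((z : ℝ) - LP) := by
  have h1 := psb_pos h
  have h2 : (0 : ℝ) < o.1 * SP + (o.2.x * ((x : ℝ) - LP) + (o.2.y * ((y : ℝ) - LP) +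
      o.2.z * ((z : ℝ) - LP))) - 4 * SP := by exact_mod_cast h1
  have hb : ∀ {x : ℕ}, x ≤ 2 * LP → |(x : ℝ) - LP| ≤ SP := by
    intro x hx
    have : (x : ℝ) ≤ 2 * LP := by exact_mod_cast hx
    have h0 : (0 : ℝ) ≤ x := Nat.cast_nonneg x
    simp only [LP, SP] at *
    rw [abs_le]; push_cast at *; constructor <;> linarith
  have m1 : ∀ {u v t : ℝ}, |u - v| ≤ 1 → |t| ≤ SP → u * t - v * t ≤ SP := by
    intro u v t h1 h2
    have : (u - v) * t ≤ |u - v| * |t| := by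
      rw [← abs_mul]; exact le_abs_self _
    have : |u - v| * |t| ≤ 1 * SP := mul_le_mul h1 h2 (abs_nonneg _) (by norm_num)
    linarith
  have a0 := m1 h0 (t := (SP : ℝ)) (by rw [abs_of_nonneg (Nat.cast_nonneg _)])
  have a1 := m1 (hw 0) (hb hx)
  have a2 := m1 (hw 1) (hb hy)
  have a3 := m1 (hw 2) (hb hz)
  have c0 : o.2.r 0 = o.2.x := rfl
  have c1 : o.2.r 1 = o.2.y := rfl
  have c2 : o.2.r 2 = o.2.z := rfl
  rw [c0] at a1
  rw [c1] at a2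
  rw [c2] at a3
  linarith

theorem sound_out (hD : DOK D sg Bad) {c : Cell} (hc : Bd c) {P : Fin 4 → ℝ}
    {N : Fin 3 → ℝ} (h : InC c P N) {j : ℕ} {o : ℤ × Z3} (ho : D.outs[j]? = some o)
    (hk : (outOk o c.x0 c.y0 c.z0 && outOk o c.x1 c.y1 c.z1 && outOk o c.x2 c.y2 c.z2 &&
        outOk o c.x3 c.y3 c.z3) = true) : ¬ Bad P N := by
  intro hB
  obtain ⟨a, b, ha, -, sa, -, hP, -⟩ := h
  obtain ⟨w0, w, h0, hw, h3⟩ := hD.outs o (List.mem_of_getElem? ho)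
  have h4 := h3 P N hB
  simp only [Bool.and_eq_true] at hk
  obtain ⟨⟨⟨k0, k1⟩, k2⟩, k3⟩ := hk
  have p0 := out_pos h0 hw hc.x0 hc.y0 hc.z0 k0
  have p1 := out_pos h0 hw hc.x1 hc.y1 hc.z1 k1
  have p2 := out_pos h0 hw hc.x2 hc.y2 hc.z2 k2
  have p3 := out_pos h0 hw hc.x3 hc.y3 hc.z3 k3
  have e : w0 * P 0 + w 0 * P 1 + w 1 * P 2 + w 2 * P 3 =
      a 0 * (w0 * SP + w 0 * ((c.x0 : ℝ) - LP) + w 1 * ((c.y0 : ℝ) - LP) +
        w 2 * ((c.z0 : ℝ) - LP)) +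
      a 1 * (w0 * SP + w 0 * ((c.x1 : ℝ) - LP) + w 1 * ((c.y1 : ℝ) - LP) +
        w 2 * ((c.z1 : ℝ) - LP)) +
      a 2 * (w0 * SP + w 0 * ((c.x2 : ℝ) - LP) + w 1 * ((c.y2 : ℝ) - LP) +
        w 2 * ((c.z2 : ℝ) - LP)) +
      a 3 * (w0 * SP + w 0 * ((c.x3 : ℝ) - LP) + w 1 * ((c.y3 : ℝ) - LP) +
        w 2 * ((c.z3 : ℝ) - LP)) := by
    rw [hP]
    simp only [Fin.sum_univ_four, Pi.add_apply, Pi.smul_apply, smul_eq_mul, Cell.Pr, Cell.Pz,
      Matrix.cons_val_zero, Matrix.cons_val_one, Matrix.cons_val]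
    push_cast
    ring
  rw [e] at h4
  rw [Fin.sum_univ_four] at sa
  generalize w0 * (SP : ℝ) + w 0 * ((c.x0 : ℝ) - LP) + w 1 * ((c.y0 : ℝ) - LP) +
        w 2 * ((c.z0 : ℝ) - LP) = q0 at *
  generalize w0 * (SP : ℝ) + w 0 * ((c.x1 : ℝ) - LP) + w 1 * ((c.y1 : ℝ) - LP) +
        w 2 * ((c.z1 : ℝ) - LP) = q1 at *
  generalize w0 * (SP : ℝ) + w 0 * ((c.x2 : ℝ) - LP) + w 1 * ((c.y2 : ℝ) - LP) +
        w 2 * ((c.z2 : ℝ) - LP) = q2 at *
  generalize w0 * (SP : ℝ) + w 0 * ((c.x3 : ℝ) - LP) + w 1 * ((c.y3 : ℝ) - LP) +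
        w 2 * ((c.z3 : ℝ) - LP) = q3 at *
  have r0 := mul_nonneg (ha 0) p0.le
  have r1 := mul_nonneg (ha 1) p1.le
  have r2 := mul_nonneg (ha 2) p2.le
  have r3 := mul_nonneg (ha 3) p3.le
  have z0 : a 0 * q0 = 0 := by linarith
  have z1 : a 1 * q1 = 0 := by linarith
  have z2 : a 2 * q2 = 0 := by linarith
  have z3 : a 3 * q3 = 0 := by linarith
  have y0 : a 0 = 0 := (mul_eq_zero.1 z0).resolve_right p0.ne'
  have y1 : a 1 = 0 := (mul_eq_zero.1 z1).resolve_right p1.ne'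
  have y2 : a 2 = 0 := (mul_eq_zero.1 z2).resolve_right p2.ne'
  have y3 : a 3 = 0 := (mul_eq_zero.1 z3).resolve_right p3.ne'
  rw [y0, y1, y2, y3] at sa
  norm_num at sa

end

end Pool.Agent.H315.NW
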