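import Pool.Agent.H315.NW.Snd5

/-!
# Project NW (helper315): soundness of the checker, part 6 (subdivision, main theorem)
-/

set_option autoImplicit false

namespace Pool.Agent.H315.NW

theorem split4 (P : Fin 4 → Fin 4 → ℝ) {i j : Fin 4} (hij : i ≠ j) {m : Fin 4 → ℝ}
    (hm : ∀ k, 2 * m k = P i k + P j k) {a : Fin 4 → ℝ} (ha : ∀ i, 0 ≤ a i) (hs : ∑ i, a i = 1)
    (hle : a j ≤ a i) :
    ∃ a' : Fin 4 → ℝ, (∀ i, 0 ≤ a' i) ∧ ∑ i, a' i = 1 ∧
      ∑ k, a' k • Function.update P j m k = ∑ k, a k • P k := by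
  refine ⟨Function.update (Function.update a i (a i - a j)) j (2 * a j), ?_, ?_, ?_⟩
  · intro k
    by_cases hk : k = j
    · subst hk; simp only [Function.update_self]; linarith [ha k]
    · rw [Function.update_of_ne hk]
      by_cases hk2 : k = i
      · subst hk2; simp only [Function.update_self]; linarith
      · rw [Function.update_of_ne hk2]; exact ha k
  · rw [Fin.sum_univ_four] at *
    fin_cases i <;> fin_cases j <;> first
      | exact absurd rfl hij
      | (simp [Function.update] at *; linarith)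
  · funext k
    have key : a j * (2 * m k) = a j * (P i k + P j k) := by rw [hm k]
    simp only [Fin.sum_univ_four, Pi.add_apply, Pi.smul_apply, smul_eq_mul]
    clear hm hle hs ha
    fin_cases i <;> fin_cases j <;> first
      | exact absurd rfl hij
      | (simp only [Fin.zero_eta, Fin.mk_one, Fin.reduceFinMk] at key ⊢
         simp [Function.update]
         linarith)

theorem split3 (P : Fin 3 → Fin 3 → ℝ) {i j : Fin 3} (hij : i ≠ j) {m : Fin 3 → ℝ}
    (hm : ∀ k, 2 * m k = P i k + P j k) {a : Fin 3 → ℝ} (ha : ∀ i, 0 ≤ a i) (hs : ∑ i, a i = 1)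
    (hle : a j ≤ a i) :
    ∃ a' : Fin 3 → ℝ, (∀ i, 0 ≤ a' i) ∧ ∑ i, a' i = 1 ∧
      ∑ k, a' k • Function.update P j m k = ∑ k, a k • P k := by
  refine ⟨Function.update (Function.update a i (a i - a j)) j (2 * a j), ?_, ?_, ?_⟩
  · intro k
    by_cases hk : k = j
    · subst hk; simp only [Function.update_self]; linarith [ha k]
    · rw [Function.update_of_ne hk]
      by_cases hk2 : k = i
      · subst hk2; simp only [Function.update_self]; linarith
      · rw [Function.update_of_ne hk2]; exact ha k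
  · rw [Fin.sum_univ_three] at *
    fin_cases i <;> fin_cases j <;> first
      | exact absurd rfl hij
      | (simp [Function.update] at *; linarith)
  · funext k
    have key : a j * (2 * m k) = a j * (P i k + P j k) := by rw [hm k]
    simp only [Fin.sum_univ_three, Pi.add_apply, Pi.smul_apply, smul_eq_mul]
    clear hm hle hs ha
    fin_cases i <;> fin_cases j <;> first
      | exact absurd rfl hij
      | (simp only [Fin.zero_eta, Fin.mk_one, Fin.reduceFinMk] at key ⊢
         simp [Function.update]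
         linarith)

theorem inC_splitP {c c1 c2 : Cell} {i j : Fin 4} (hij : i ≠ j) {m : Fin 4 → ℝ}
    (hm : ∀ k, 2 * m k = c.Pr i k + c.Pr j k) (h1 : c1.Pr = Function.update c.Pr j m)
    (h2 : c2.Pr = Function.update c.Pr i m) (n1 : c1.Nr = c.Nr) (n2 : c2.Nr = c.Nr)
    {P : Fin 4 → ℝ} {N : Fin 3 → ℝ} (h : InC c P N) : InC c1 P N ∨ InC c2 P N := by
  obtain ⟨a, b, ha, hb, sa, sb, hP, hN⟩ := h
  rcases le_total (a j) (a i) with hle | hle
  · obtain ⟨a', ha', sa', e⟩ := split4 c.Pr hij hm ha sa hle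
    left
    exact ⟨a', b, ha', hb, sa', sb, by rw [h1, e, hP], by rw [n1, hN]⟩
  · obtain ⟨a', ha', sa', e⟩ := split4 c.Pr hij.symm (m := m)
      (fun k => by rw [hm k]; ring) ha sa hle
    right
    exact ⟨a', b, ha', hb, sa', sb, by rw [h2, e, hP], by rw [n2, hN]⟩

theorem inC_splitN {c c1 c2 : Cell} {i j : Fin 3} (hij : i ≠ j) {m : Fin 3 → ℝ}
    (hm : ∀ k, 2 * m k = c.Nr i k + c.Nr j k) (h1 : c1.Nr = Function.update c.Nr j m)
    (h2 : c2.Nr = Function.update c.Nr i m) (n1 : c1.Pr = c.Pr) (n2 : c2.Pr = c.Pr)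
    {P : Fin 4 → ℝ} {N : Fin 3 → ℝ} (h : InC c P N) : InC c1 P N ∨ InC c2 P N := by
  obtain ⟨a, b, ha, hb, sa, sb, hP, hN⟩ := h
  rcases le_total (b j) (b i) with hle | hle
  · obtain ⟨a', ha', sa', e⟩ := split3 c.Nr hij hm hb sb hle
    left
    exact ⟨a, a', ha, ha', sa, sa', by rw [n1, hP], by rw [h1, e, hN]⟩
  · obtain ⟨a', ha', sa', e⟩ := split3 c.Nr hij.symm (m := m)
      (fun k => by rw [hm k]; ring) hb sb hle
    right
    exact ⟨a, a', ha, ha', sa, sa', by rw [n2, hP], by rw [h2, e, hN]⟩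

theorem ev_md {x y : ℕ} (h : ev x y = true) : 2 * md x y = x + y := by
  simp only [ev, Nat.beq_eq] at h
  have h1 : (x + y) % 2 = 0 := h
  have h2 : md x y = (x + y) / 2 := rfl
  rw [h2]; omega

theorem ev_mdR {x y : ℕ} (h : ev x y = true) : 2 * (md x y : ℝ) = x + y := by
  exact_mod_cast ev_md h

theorem md_le {x y B : ℕ} (hx : x ≤ B) (hy : y ≤ B) : md x y ≤ B := by
  have h2 : md x y = (x + y) / 2 := rfl
  rw [h2]; omega

/-- the midpoint as a real quaternion -/
def mP (x y z : ℕ) : Fin 4 → ℝ := ![(SP : ℝ), x - LP, y - LP, z - LP]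

/-- the midpoint as a real direction -/
def mN (x y : ℕ) : Fin 3 → ℝ := ![(x : ℝ), y, SN]

theorem Pr_eq (c : Cell) : c.Pr = ![mP c.x0 c.y0 c.z0, mP c.x1 c.y1 c.z1, mP c.x2 c.y2 c.z2,
    mP c.x3 c.y3 c.z3] := by
  funext i k
  fin_cases i <;> fin_cases k <;> simp [Cell.Pr, Cell.Pz, mP]

theorem Nr_eq (c : Cell) : c.Nr = ![mN c.a0 c.b0, mN c.a1 c.b1, mN c.a2 c.b2] := by
  funext i k
  fin_cases i <;> fin_cases k <;> simp [Cell.Nr, Cell.Nz, mN]

theorem mP_mid {x y z x' y' z' : ℕ} (hx : ev x x' = true) (hy : ev y y' = true)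
    (hz : ev z z' = true) (k : Fin 4) :
    2 * mP (md x x') (md y y') (md z z') k = mP x y z k + mP x' y' z' k := by
  have h1 := ev_mdR hx
  have h2 := ev_mdR hy
  have h3 := ev_mdR hz
  fin_cases k <;> simp [mP] <;> linarith

theorem mN_mid {x y x' y' : ℕ} (hx : ev x x' = true) (hy : ev y y' = true) (k : Fin 3) :
    2 * mN (md x x') (md y y') k = mN x y k + mN x' y' k := by
  have h1 := ev_mdR hx
  have h2 := ev_mdR hy
  fin_cases k <;> simp [mN] <;> linarith

theorem upd4_0 {α : Type} (a b c d m : α) : ![m, b, c, d] = Function.update ![a, b, c, d] 0 m := by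
  funext i; fin_cases i <;> rfl
theorem upd4_1 {α : Type} (a b c d m : α) : ![a, m, c, d] = Function.update ![a, b, c, d] 1 m := by
  funext i; fin_cases i <;> rfl
theorem upd4_2 {α : Type} (a b c d m : α) : ![a, b, m, d] = Function.update ![a, b, c, d] 2 m := by
  funext i; fin_cases i <;> rfl
theorem upd4_3 {α : Type} (a b c d m : α) : ![a, b, c, m] = Function.update ![a, b, c, d] 3 m := by
  funext i; fin_cases i <;> rfl
theorem upd3_0 {α : Type} (a b c m : α) : ![m, b, c] = Function.update ![a, b, c] 0 m := by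
  funext i; fin_cases i <;> rfl
theorem upd3_1 {α : Type} (a b c m : α) : ![a, m, c] = Function.update ![a, b, c] 1 m := by
  funext i; fin_cases i <;> rfl
theorem upd3_2 {α : Type} (a b c m : α) : ![a, b, m] = Function.update ![a, b, c] 2 m := by
  funext i; fin_cases i <;> rfl

theorem testBit_lor_shift {p f k : ℕ} (h : Nat.testBit (Nat.lor p (Nat.shiftLeft 1 f)) k = true) :
    Nat.testBit p k = true ∨ k = f := by
  have h' : Nat.testBit (p ||| 1 <<< f) k = true := h
  rw [Nat.testBit_or, Nat.one_shiftLeft, Nat.testBit_two_pow, Bool.or_eq_true] at h'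
  rcases h' with h | h
  · exact Or.inl h
  · right; exact (by simpa using h : f = k).symm

section

variable {D : Dat} {sg : ℕ → (Fin 4 → ℝ) → (Fin 3 → ℝ) → ℝ}
  {Bad : (Fin 4 → ℝ) → (Fin 3 → ℝ) → Prop}

theorem conv_bd {a : Fin 4 → ℝ} (ha : ∀ i, 0 ≤ a i) (sa : ∑ i, a i = 1) {x : Fin 4 → ℝ}
    {l h : ℝ} (hx : ∀ i, l ≤ x i ∧ x i ≤ h) : l ≤ ∑ i, a i * x i ∧ ∑ i, a i * x i ≤ h := by
  constructor
  · have : ∑ i, a i * l ≤ ∑ i, a i * x i :=
      Finset.sum_le_sum fun i _ => mul_le_mul_of_nonneg_left (hx i).1 (ha i)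
    rwa [← Finset.sum_mul, sa, one_mul] at this
  · have : ∑ i, a i * x i ≤ ∑ i, a i * h :=
      Finset.sum_le_sum fun i _ => mul_le_mul_of_nonneg_left (hx i).2 (ha i)
    rwa [← Finset.sum_mul, sa, one_mul] at this

theorem conv_bd3 {a : Fin 3 → ℝ} (ha : ∀ i, 0 ≤ a i) (sa : ∑ i, a i = 1) {x : Fin 3 → ℝ}
    {l h : ℝ} (hx : ∀ i, l ≤ x i ∧ x i ≤ h) : l ≤ ∑ i, a i * x i ∧ ∑ i, a i * x i ≤ h := by
  constructor
  · have : ∑ i, a i * l ≤ ∑ i, a i * x i :=
      Finset.sum_le_sum fun i _ => mul_le_mul_of_nonneg_left (hx i).1 (ha i)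
    rwa [← Finset.sum_mul, sa, one_mul] at this
  · have : ∑ i, a i * x i ≤ ∑ i, a i * h :=
      Finset.sum_le_sum fun i _ => mul_le_mul_of_nonneg_left (hx i).2 (ha i)
    rwa [← Finset.sum_mul, sa, one_mul] at this

theorem P_apply {c : Cell} {a : Fin 4 → ℝ} {P : Fin 4 → ℝ} (hP : P = ∑ i, a i • c.Pr i)
    (k : Fin 4) : P k = ∑ i, a i * c.Pr i k := by
  rw [hP]; simp only [Finset.sum_apply, Pi.smul_apply, smul_eq_mul]

theorem N_apply {c : Cell} {a : Fin 3 → ℝ} {P : Fin 3 → ℝ} (hP : P = ∑ i, a i • c.Nr i)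
    (k : Fin 3) : P k = ∑ i, a i * c.Nr i k := by
  rw [hP]; simp only [Finset.sum_apply, Pi.smul_apply, smul_eq_mul]

theorem sound_loc (hD : DOK D sg Bad) {c : Cell} {P : Fin 4 → ℝ}
    {N : Fin 3 → ℝ} (h : InC c P N) {k : ℕ} {l : LR} (hl : D.locs[k]? = some l)
    (hk : locOk l c = true) : ¬ Bad P N := by
  intro hB
  obtain ⟨a, b, ha, hb, sa, sb, hP, hN⟩ := h
  simp only [locOk, locP, locN, Bool.and_eq_true, Nat.ble_eq] at hk
  obtain ⟨⟨⟨⟨⟨⟨p0, p1⟩, p2⟩, p3⟩, n0⟩, n1⟩, n2⟩ := hk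
  have cst : ∀ {x y : ℕ}, x ≤ y → (x : ℝ) - LP ≤ (y : ℝ) - LP := by
    intro x y h
    have : (x : ℝ) ≤ y := by exact_mod_cast h
    linarith
  have e0 := P_apply hP 0
  have e1 := P_apply hP 1
  have e2 := P_apply hP 2
  have e3 := P_apply hP 3
  have f0 := N_apply hN 0
  have f1 := N_apply hN 1
  have f2 := N_apply hN 2
  rw [Pr_eq] at e0 e1 e2 e3
  rw [Nr_eq] at f0 f1 f2
  have q0 : P 0 = SP := by
    rw [e0]
    simp only [Fin.sum_univ_four, mP, Matrix.cons_val_zero, Matrix.cons_val_one, Matrix.cons_val]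
    rw [Fin.sum_univ_four] at sa
    rw [← add_mul, ← add_mul, ← add_mul, sa, one_mul]
  have g2 : N 2 = SN := by
    rw [f2]
    simp only [Fin.sum_univ_three, mN, Matrix.cons_val_zero, Matrix.cons_val_one, Matrix.cons_val]
    rw [Fin.sum_univ_three] at sb
    rw [← add_mul, ← add_mul, sb, one_mul]
  have q1 := conv_bd ha sa (x := fun i => (![mP c.x0 c.y0 c.z0, mP c.x1 c.y1 c.z1,
    mP c.x2 c.y2 c.z2, mP c.x3 c.y3 c.z3] : Fin 4 → Fin 4 → ℝ) i 1) (l := (l.lx : ℝ) - LP)
    (h := (l.hx : ℝ) - LP) (by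
      intro i
      fin_cases i
      · exact ⟨cst p0.1.1.1.1.1, cst p0.1.1.1.1.2⟩
      · exact ⟨cst p1.1.1.1.1.1, cst p1.1.1.1.1.2⟩
      · exact ⟨cst p2.1.1.1.1.1, cst p2.1.1.1.1.2⟩
      · exact ⟨cst p3.1.1.1.1.1, cst p3.1.1.1.1.2⟩)
  have q2 := conv_bd ha sa (x := fun i => (![mP c.x0 c.y0 c.z0, mP c.x1 c.y1 c.z1,
    mP c.x2 c.y2 c.z2, mP c.x3 c.y3 c.z3] : Fin 4 → Fin 4 → ℝ) i 2) (l := (l.ly : ℝ) - LP)
    (h := (l.hy : ℝ) - LP) (by
      intro i
      fin_cases i
      · exact ⟨cst p0.1.1.1.2, cst p0.1.1.2⟩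
      · exact ⟨cst p1.1.1.1.2, cst p1.1.1.2⟩
      · exact ⟨cst p2.1.1.1.2, cst p2.1.1.2⟩
      · exact ⟨cst p3.1.1.1.2, cst p3.1.1.2⟩)
  have q3 := conv_bd ha sa (x := fun i => (![mP c.x0 c.y0 c.z0, mP c.x1 c.y1 c.z1,
    mP c.x2 c.y2 c.z2, mP c.x3 c.y3 c.z3] : Fin 4 → Fin 4 → ℝ) i 3) (l := (l.lz : ℝ) - LP)
    (h := (l.hz : ℝ) - LP) (by
      intro i
      fin_cases i
      · exact ⟨cst p0.1.2, cst p0.2⟩
      · exact ⟨cst p1.1.2, cst p1.2⟩
      · exact ⟨cst p2.1.2, cst p2.2⟩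
      · exact ⟨cst p3.1.2, cst p3.2⟩)
  have g0 := conv_bd3 hb sb (x := fun i => (![mN c.a0 c.b0, mN c.a1 c.b1, mN c.a2 c.b2] :
    Fin 3 → Fin 3 → ℝ) i 0) (l := (0 : ℝ)) (h := (l.ha : ℝ)) (by
      intro i
      fin_cases i
      · exact ⟨Nat.cast_nonneg _, Nat.cast_le.2 n0.1.1⟩
      · exact ⟨Nat.cast_nonneg _, Nat.cast_le.2 n1.1.1⟩
      · exact ⟨Nat.cast_nonneg _, Nat.cast_le.2 n2.1.1⟩)
  have g1 := conv_bd3 hb sb (x := fun i => (![mN c.a0 c.b0, mN c.a1 c.b1, mN c.a2 c.b2] :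
    Fin 3 → Fin 3 → ℝ) i 1) (l := (l.lb : ℝ)) (h := (l.hb : ℝ)) (by
      intro i
      fin_cases i
      · exact ⟨Nat.cast_le.2 n0.1.2, Nat.cast_le.2 n0.2⟩
      · exact ⟨Nat.cast_le.2 n1.1.2, Nat.cast_le.2 n1.2⟩
      · exact ⟨Nat.cast_le.2 n2.1.2, Nat.cast_le.2 n2.2⟩)
  rw [← e1] at q1
  rw [← e2] at q2
  rw [← e3] at q3
  rw [← f0] at g0
  rw [← f1] at g1
  exact hD.locs l (List.mem_of_getElem? hl) P N hB q0 g2 q1.1 q1.2 q2.1 q2.2 q3.1 q3.2 g0.1 g0.2
    g1.1 g1.2

theorem ceq_eq {c d : Cell} (h : ceq c d = true) : c = d := by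
  simp only [ceq, Bool.and_eq_true, Nat.beq_eq] at h
  obtain ⟨⟨⟨⟨⟨⟨⟨⟨⟨⟨⟨⟨⟨⟨⟨⟨⟨h0, h1⟩, h2⟩, h3⟩, h4⟩, h5⟩, h6⟩, h7⟩, h8⟩, h9⟩, h10⟩, h11⟩, h12⟩, h13⟩,
    h14⟩, h15⟩, h16⟩, h17⟩ := h
  exact Cell.ext h0 h1 h2 h3 h4 h5 h6 h7 h8 h9 h10 h11 h12 h13 h14 h15 h16 h17

theorem Bd.A01l {c : Cell} (hc : Bd c) :
    Bd { c with x1 := md c.x0 c.x1, y1 := md c.y0 c.y1, z1 := md c.z0 c.z1 } := by
  constructor <;> first
    | exact md_le hc.x0 hc.x1
    | exact md_le hc.y0 hc.y1
    | exact md_le hc.z0 hc.z1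
    | exact hc.x0
    | exact hc.x1
    | exact hc.x2
    | exact hc.x3
    | exact hc.y0
    | exact hc.y1
    | exact hc.y2
    | exact hc.y3
    | exact hc.z0
    | exact hc.z1
    | exact hc.z2
    | exact hc.z3
    | exact hc.a0
    | exact hc.a1
    | exact hc.a2
    | exact hc.b0
    | exact hc.b1
    | exact hc.b2

theorem Bd.A01r {c : Cell} (hc : Bd c) :
    Bd { c with x0 := md c.x0 c.x1, y0 := md c.y0 c.y1, z0 := md c.z0 c.z1 } := by
  constructor <;> first
    | exact md_le hc.x0 hc.x1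
    | exact md_le hc.y0 hc.y1
    | exact md_le hc.z0 hc.z1
    | exact hc.x0
    | exact hc.x1
    | exact hc.x2
    | exact hc.x3
    | exact hc.y0
    | exact hc.y1
    | exact hc.y2
    | exact hc.y3
    | exact hc.z0
    | exact hc.z1
    | exact hc.z2
    | exact hc.z3
    | exact hc.a0
    | exact hc.a1
    | exact hc.a2
    | exact hc.b0
    | exact hc.b1
    | exact hc.b2

theorem Bd.A02l {c : Cell} (hc : Bd c) :
    Bd { c with x2 := md c.x0 c.x2, y2 := md c.y0 c.y2, z2 := md c.z0 c.z2 } := by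
  constructor <;> first
    | exact md_le hc.x0 hc.x2
    | exact md_le hc.y0 hc.y2
    | exact md_le hc.z0 hc.z2
    | exact hc.x0
    | exact hc.x1
    | exact hc.x2
    | exact hc.x3
    | exact hc.y0
    | exact hc.y1
    | exact hc.y2
    | exact hc.y3
    | exact hc.z0
    | exact hc.z1
    | exact hc.z2
    | exact hc.z3
    | exact hc.a0
    | exact hc.a1
    | exact hc.a2
    | exact hc.b0
    | exact hc.b1
    | exact hc.b2

theorem Bd.A02r {c : Cell} (hc : Bd c) :
    Bd { c with x0 := md c.x0 c.x2, y0 := md c.y0 c.y2, z0 := md c.z0 c.z2 } := by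
  constructor <;> first
    | exact md_le hc.x0 hc.x2
    | exact md_le hc.y0 hc.y2
    | exact md_le hc.z0 hc.z2
    | exact hc.x0
    | exact hc.x1
    | exact hc.x2
    | exact hc.x3
    | exact hc.y0
    | exact hc.y1
    | exact hc.y2
    | exact hc.y3
    | exact hc.z0
    | exact hc.z1
    | exact hc.z2
    | exact hc.z3
    | exact hc.a0
    | exact hc.a1
    | exact hc.a2
    | exact hc.b0
    | exact hc.b1
    | exact hc.b2

theorem Bd.A03l {c : Cell} (hc : Bd c) :
    Bd { c with x3 := md c.x0 c.x3, y3 := md c.y0 c.y3, z3 := md c.z0 c.z3 } := by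
  constructor <;> first
    | exact md_le hc.x0 hc.x3
    | exact md_le hc.y0 hc.y3
    | exact md_le hc.z0 hc.z3
    | exact hc.x0
    | exact hc.x1
    | exact hc.x2
    | exact hc.x3
    | exact hc.y0
    | exact hc.y1
    | exact hc.y2
    | exact hc.y3
    | exact hc.z0
    | exact hc.z1
    | exact hc.z2
    | exact hc.z3
    | exact hc.a0
    | exact hc.a1
    | exact hc.a2
    | exact hc.b0
    | exact hc.b1
    | exact hc.b2

theorem Bd.A03r {c : Cell} (hc : Bd c) :
    Bd { c with x0 := md c.x0 c.x3, y0 := md c.y0 c.y3, z0 := md c.z0 c.z3 } := by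
  constructor <;> first
    | exact md_le hc.x0 hc.x3
    | exact md_le hc.y0 hc.y3
    | exact md_le hc.z0 hc.z3
    | exact hc.x0
    | exact hc.x1
    | exact hc.x2
    | exact hc.x3
    | exact hc.y0
    | exact hc.y1
    | exact hc.y2
    | exact hc.y3
    | exact hc.z0
    | exact hc.z1
    | exact hc.z2
    | exact hc.z3
    | exact hc.a0
    | exact hc.a1
    | exact hc.a2
    | exact hc.b0
    | exact hc.b1
    | exact hc.b2

theorem Bd.A12l {c : Cell} (hc : Bd c) :
    Bd { c with x2 := md c.x1 c.x2, y2 := md c.y1 c.y2, z2 := md c.z1 c.z2 } := by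
  constructor <;> first
    | exact md_le hc.x1 hc.x2
    | exact md_le hc.y1 hc.y2
    | exact md_le hc.z1 hc.z2
    | exact hc.x0
    | exact hc.x1
    | exact hc.x2
    | exact hc.x3
    | exact hc.y0
    | exact hc.y1
    | exact hc.y2
    | exact hc.y3
    | exact hc.z0
    | exact hc.z1
    | exact hc.z2
    | exact hc.z3
    | exact hc.a0
    | exact hc.a1
    | exact hc.a2
    | exact hc.b0
    | exact hc.b1
    | exact hc.b2

theorem Bd.A12r {c : Cell} (hc : Bd c) :
    Bd { c with x1 := md c.x1 c.x2, y1 := md c.y1 c.y2, z1 := md c.z1 c.z2 } := by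
  constructor <;> first
    | exact md_le hc.x1 hc.x2
    | exact md_le hc.y1 hc.y2
    | exact md_le hc.z1 hc.z2
    | exact hc.x0
    | exact hc.x1
    | exact hc.x2
    | exact hc.x3
    | exact hc.y0
    | exact hc.y1
    | exact hc.y2
    | exact hc.y3
    | exact hc.z0
    | exact hc.z1
    | exact hc.z2
    | exact hc.z3
    | exact hc.a0
    | exact hc.a1
    | exact hc.a2
    | exact hc.b0
    | exact hc.b1
    | exact hc.b2

theorem Bd.A13l {c : Cell} (hc : Bd c) :
    Bd { c with x3 := md c.x1 c.x3, y3 := md c.y1 c.y3, z3 := md c.z1 c.z3 } := by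
  constructor <;> first
    | exact md_le hc.x1 hc.x3
    | exact md_le hc.y1 hc.y3
    | exact md_le hc.z1 hc.z3
    | exact hc.x0
    | exact hc.x1
    | exact hc.x2
    | exact hc.x3
    | exact hc.y0
    | exact hc.y1
    | exact hc.y2
    | exact hc.y3
    | exact hc.z0
    | exact hc.z1
    | exact hc.z2
    | exact hc.z3
    | exact hc.a0
    | exact hc.a1
    | exact hc.a2
    | exact hc.b0
    | exact hc.b1
    | exact hc.b2

theorem Bd.A13r {c : Cell} (hc : Bd c) :
    Bd { c with x1 := md c.x1 c.x3, y1 := md c.y1 c.y3, z1 := md c.z1 c.z3 } := by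
  constructor <;> first
    | exact md_le hc.x1 hc.x3
    | exact md_le hc.y1 hc.y3
    | exact md_le hc.z1 hc.z3
    | exact hc.x0
    | exact hc.x1
    | exact hc.x2
    | exact hc.x3
    | exact hc.y0
    | exact hc.y1
    | exact hc.y2
    | exact hc.y3
    | exact hc.z0
    | exact hc.z1
    | exact hc.z2
    | exact hc.z3
    | exact hc.a0
    | exact hc.a1
    | exact hc.a2
    | exact hc.b0
    | exact hc.b1
    | exact hc.b2

theorem Bd.A23l {c : Cell} (hc : Bd c) :
    Bd { c with x3 := md c.x2 c.x3, y3 := md c.y2 c.y3, z3 := md c.z2 c.z3 } := by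
  constructor <;> first
    | exact md_le hc.x2 hc.x3
    | exact md_le hc.y2 hc.y3
    | exact md_le hc.z2 hc.z3
    | exact hc.x0
    | exact hc.x1
    | exact hc.x2
    | exact hc.x3
    | exact hc.y0
    | exact hc.y1
    | exact hc.y2
    | exact hc.y3
    | exact hc.z0
    | exact hc.z1
    | exact hc.z2
    | exact hc.z3
    | exact hc.a0
    | exact hc.a1
    | exact hc.a2
    | exact hc.b0
    | exact hc.b1
    | exact hc.b2

theorem Bd.A23r {c : Cell} (hc : Bd c) :
    Bd { c with x2 := md c.x2 c.x3, y2 := md c.y2 c.y3, z2 := md c.z2 c.z3 } := by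
  constructor <;> first
    | exact md_le hc.x2 hc.x3
    | exact md_le hc.y2 hc.y3
    | exact md_le hc.z2 hc.z3
    | exact hc.x0
    | exact hc.x1
    | exact hc.x2
    | exact hc.x3
    | exact hc.y0
    | exact hc.y1
    | exact hc.y2
    | exact hc.y3
    | exact hc.z0
    | exact hc.z1
    | exact hc.z2
    | exact hc.z3
    | exact hc.a0
    | exact hc.a1
    | exact hc.a2
    | exact hc.b0
    | exact hc.b1
    | exact hc.b2

theorem Bd.B01l {c : Cell} (hc : Bd c) :
    Bd { c with a1 := md c.a0 c.a1, b1 := md c.b0 c.b1 } := by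
  constructor <;> first
    | exact md_le hc.a0 hc.a1
    | exact md_le hc.b0 hc.b1
    | exact hc.x0
    | exact hc.x1
    | exact hc.x2
    | exact hc.x3
    | exact hc.y0
    | exact hc.y1
    | exact hc.y2
    | exact hc.y3
    | exact hc.z0
    | exact hc.z1
    | exact hc.z2
    | exact hc.z3
    | exact hc.a0
    | exact hc.a1
    | exact hc.a2
    | exact hc.b0
    | exact hc.b1
    | exact hc.b2

theorem Bd.B01r {c : Cell} (hc : Bd c) :
    Bd { c with a0 := md c.a0 c.a1, b0 := md c.b0 c.b1 } := by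
  constructor <;> first
    | exact md_le hc.a0 hc.a1
    | exact md_le hc.b0 hc.b1
    | exact hc.x0
    | exact hc.x1
    | exact hc.x2
    | exact hc.x3
    | exact hc.y0
    | exact hc.y1
    | exact hc.y2
    | exact hc.y3
    | exact hc.z0
    | exact hc.z1
    | exact hc.z2
    | exact hc.z3
    | exact hc.a0
    | exact hc.a1
    | exact hc.a2
    | exact hc.b0
    | exact hc.b1
    | exact hc.b2

theorem Bd.B02l {c : Cell} (hc : Bd c) :
    Bd { c with a2 := md c.a0 c.a2, b2 := md c.b0 c.b2 } := by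
  constructor <;> first
    | exact md_le hc.a0 hc.a2
    | exact md_le hc.b0 hc.b2
    | exact hc.x0
    | exact hc.x1
    | exact hc.x2
    | exact hc.x3
    | exact hc.y0
    | exact hc.y1
    | exact hc.y2
    | exact hc.y3
    | exact hc.z0
    | exact hc.z1
    | exact hc.z2
    | exact hc.z3
    | exact hc.a0
    | exact hc.a1
    | exact hc.a2
    | exact hc.b0
    | exact hc.b1
    | exact hc.b2

theorem Bd.B02r {c : Cell} (hc : Bd c) :
    Bd { c with a0 := md c.a0 c.a2, b0 := md c.b0 c.b2 } := by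
  constructor <;> first
    | exact md_le hc.a0 hc.a2
    | exact md_le hc.b0 hc.b2
    | exact hc.x0
    | exact hc.x1
    | exact hc.x2
    | exact hc.x3
    | exact hc.y0
    | exact hc.y1
    | exact hc.y2
    | exact hc.y3
    | exact hc.z0
    | exact hc.z1
    | exact hc.z2
    | exact hc.z3
    | exact hc.a0
    | exact hc.a1
    | exact hc.a2
    | exact hc.b0
    | exact hc.b1
    | exact hc.b2

theorem Bd.B12l {c : Cell} (hc : Bd c) :
    Bd { c with a2 := md c.a1 c.a2, b2 := md c.b1 c.b2 } := by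
  constructor <;> first
    | exact md_le hc.a1 hc.a2
    | exact md_le hc.b1 hc.b2
    | exact hc.x0
    | exact hc.x1
    | exact hc.x2
    | exact hc.x3
    | exact hc.y0
    | exact hc.y1
    | exact hc.y2
    | exact hc.y3
    | exact hc.z0
    | exact hc.z1
    | exact hc.z2
    | exact hc.z3
    | exact hc.a0
    | exact hc.a1
    | exact hc.a2
    | exact hc.b0
    | exact hc.b1
    | exact hc.b2

theorem Bd.B12r {c : Cell} (hc : Bd c) :
    Bd { c with a1 := md c.a1 c.a2, b1 := md c.b1 c.b2 } := by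
  constructor <;> first
    | exact md_le hc.a1 hc.a2
    | exact md_le hc.b1 hc.b2
    | exact hc.x0
    | exact hc.x1
    | exact hc.x2
    | exact hc.x3
    | exact hc.y0
    | exact hc.y1
    | exact hc.y2
    | exact hc.y3
    | exact hc.z0
    | exact hc.z1
    | exact hc.z2
    | exact hc.z3
    | exact hc.a0
    | exact hc.a1
    | exact hc.a2
    | exact hc.b0
    | exact hc.b1
    | exact hc.b2

/-- the main theorem on certificates -/
theorem check_sound (hD : DOK D sg Bad) (t : Tr) : ∀ (c : Cell) (p q : ℕ),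
    check D t c p q = true → Bd c → ∀ P N, InC c P N →
    (∀ f, Nat.testBit p f = true → 0 ≤ sg f P N) →
    (∀ f, Nat.testBit q f = true → sg f P N ≤ 0) → ¬ Bad P N := by
  induction t with
  | out j =>
    intro c p q h hc P N hI hp hq
    simp only [check] at h
    cases ho : D.outs[j]? with
    | none => rw [ho] at h; simp at h
    | some o => rw [ho] at h; exact sound_out hD hc hI ho h
  | loc k =>
    intro c p q h hc P N hI hp hq
    simp only [check] at h
    cases ho : D.locs[k]? with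
    | none => rw [ho] at h; simp at h
    | some o => rw [ho] at h; exact sound_loc hD hI ho h
  | H k =>
    intro c p q h hc P N hI hp hq
    simp only [check] at h
    cases ho : D.holes[k]? with
    | none => rw [ho] at h; simp at h
    | some o =>
      rw [ho] at h
      simp only [Bool.and_eq_true, Nat.beq_eq] at h
      obtain ⟨⟨h1, h2⟩, h3⟩ := h
      have h4 := ceq_eq h1
      refine hD.holes o (List.mem_of_getElem? ho) P N (by rw [h4]; exact hI) ?_ ?_
      · rw [h2]; exact hp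
      · rw [h3]; exact hq
  | L e v =>
    intro c p q h hc P N hI hp hq
    simp only [check] at h
    cases he : D.edges[e]? with
    | none => rw [he] at h; simp at h
    | some E =>
      cases hv : D.verts[v]? with
      | none => rw [he, hv] at h; simp at h
      | some V =>
        rw [he, hv] at h
        simp only [Bool.and_eq_true] at h
        exact sound_L hD he hv hc hI (hp _ h.1.1) (hq _ h.1.2) h.2
  | K es fs =>
    intro c p q h hc P N hI hp hq
    simp only [check] at h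
    exact sound_K hD hc hI hp hq h
  | S f l r ihl ihr =>
    intro c p q h hc P N hI hp hq
    simp only [check, Bool.and_eq_true] at h
    rcases le_total 0 (sg f P N) with hs | hs
    · refine ihl c _ q h.1 hc P N hI (fun k hk => ?_) hq
      rcases testBit_lor_shift hk with hk | rfl
      · exact hp k hk
      · exact hs
    · refine ihr c p _ h.2 hc P N hI hp (fun k hk => ?_)
      rcases testBit_lor_shift hk with hk | rfl
      · exact hq k hk
      · exact hs
  | P f t ih =>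
    intro c p q h hc P N hI hp hq
    simp only [check] at h
    cases ho : D.faces[f]? with
    | none => rw [ho] at h; simp at h
    | some F =>
      rw [ho] at h
      simp only [Bool.and_eq_true] at h
      have hs := sound_P hD ho hc hI h.1
      refine ih c _ q h.2 hc P N hI (fun k hk => ?_) hq
      rcases testBit_lor_shift hk with hk | rfl
      · exact hp k hk
      · exact hs
  | M f t ih =>
    intro c p q h hc P N hI hp hq
    simp only [check] at h
    cases ho : D.faces[f]? with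
    | none => rw [ho] at h; simp at h
    | some F =>
      rw [ho] at h
      simp only [Bool.and_eq_true] at h
      have hs := sound_M hD ho hc hI h.1
      refine ih c p _ h.2 hc P N hI hp (fun k hk => ?_)
      rcases testBit_lor_shift hk with hk | rfl
      · exact hq k hk
      · exact hs
  | A01 l r ihl ihr =>
    intro c p q h hc P N hI hp hq
    simp only [check, Bool.and_eq_true] at h
    obtain ⟨⟨⟨⟨e1, e2⟩, e3⟩, hl⟩, hr⟩ := h
    rcases inC_splitP (c := c)
        (c1 := { c with x1 := md c.x0 c.x1, y1 := md c.y0 c.y1, z1 := md c.z0 c.z1 })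
        (c2 := { c with x0 := md c.x0 c.x1, y0 := md c.y0 c.y1, z0 := md c.z0 c.z1 })
        (i := 0) (j := 1) (by decide) (m := mP (md c.x0 c.x1) (md c.y0 c.y1) (md c.z0 c.z1))
        (fun k => by rw [Pr_eq]; exact mP_mid e1 e2 e3 k)
        (by rw [Pr_eq, Pr_eq]; exact upd4_1 _ _ _ _ _)
        (by rw [Pr_eq, Pr_eq]; exact upd4_0 _ _ _ _ _) rfl rfl hI with h1 | h1
    · exact ihl _ p q hl hc.A01l P N h1 hp hq
    · exact ihr _ p q hr hc.A01r P N h1 hp hq
  | A02 l r ihl ihr =>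
    intro c p q h hc P N hI hp hq
    simp only [check, Bool.and_eq_true] at h
    obtain ⟨⟨⟨⟨e1, e2⟩, e3⟩, hl⟩, hr⟩ := h
    rcases inC_splitP (c := c)
        (c1 := { c with x2 := md c.x0 c.x2, y2 := md c.y0 c.y2, z2 := md c.z0 c.z2 })
        (c2 := { c with x0 := md c.x0 c.x2, y0 := md c.y0 c.y2, z0 := md c.z0 c.z2 })
        (i := 0) (j := 2) (by decide) (m := mP (md c.x0 c.x2) (md c.y0 c.y2) (md c.z0 c.z2))
        (fun k => by rw [Pr_eq]; exact mP_mid e1 e2 e3 k)
        (by rw [Pr_eq, Pr_eq]; exact upd4_2 _ _ _ _ _)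
        (by rw [Pr_eq, Pr_eq]; exact upd4_0 _ _ _ _ _) rfl rfl hI with h1 | h1
    · exact ihl _ p q hl hc.A02l P N h1 hp hq
    · exact ihr _ p q hr hc.A02r P N h1 hp hq
  | A03 l r ihl ihr =>
    intro c p q h hc P N hI hp hq
    simp only [check, Bool.and_eq_true] at h
    obtain ⟨⟨⟨⟨e1, e2⟩, e3⟩, hl⟩, hr⟩ := h
    rcases inC_splitP (c := c)
        (c1 := { c with x3 := md c.x0 c.x3, y3 := md c.y0 c.y3, z3 := md c.z0 c.z3 })
        (c2 := { c with x0 := md c.x0 c.x3, y0 := md c.y0 c.y3, z0 := md c.z0 c.z3 })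
        (i := 0) (j := 3) (by decide) (m := mP (md c.x0 c.x3) (md c.y0 c.y3) (md c.z0 c.z3))
        (fun k => by rw [Pr_eq]; exact mP_mid e1 e2 e3 k)
        (by rw [Pr_eq, Pr_eq]; exact upd4_3 _ _ _ _ _)
        (by rw [Pr_eq, Pr_eq]; exact upd4_0 _ _ _ _ _) rfl rfl hI with h1 | h1
    · exact ihl _ p q hl hc.A03l P N h1 hp hq
    · exact ihr _ p q hr hc.A03r P N h1 hp hq
  | A12 l r ihl ihr =>
    intro c p q h hc P N hI hp hq
    simp only [check, Bool.and_eq_true] at h
    obtain ⟨⟨⟨⟨e1, e2⟩, e3⟩, hl⟩, hr⟩ := h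
    rcases inC_splitP (c := c)
        (c1 := { c with x2 := md c.x1 c.x2, y2 := md c.y1 c.y2, z2 := md c.z1 c.z2 })
        (c2 := { c with x1 := md c.x1 c.x2, y1 := md c.y1 c.y2, z1 := md c.z1 c.z2 })
        (i := 1) (j := 2) (by decide) (m := mP (md c.x1 c.x2) (md c.y1 c.y2) (md c.z1 c.z2))
        (fun k => by rw [Pr_eq]; exact mP_mid e1 e2 e3 k)
        (by rw [Pr_eq, Pr_eq]; exact upd4_2 _ _ _ _ _)
        (by rw [Pr_eq, Pr_eq]; exact upd4_1 _ _ _ _ _) rfl rfl hI with h1 | h1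
    · exact ihl _ p q hl hc.A12l P N h1 hp hq
    · exact ihr _ p q hr hc.A12r P N h1 hp hq
  | A13 l r ihl ihr =>
    intro c p q h hc P N hI hp hq
    simp only [check, Bool.and_eq_true] at h
    obtain ⟨⟨⟨⟨e1, e2⟩, e3⟩, hl⟩, hr⟩ := h
    rcases inC_splitP (c := c)
        (c1 := { c with x3 := md c.x1 c.x3, y3 := md c.y1 c.y3, z3 := md c.z1 c.z3 })
        (c2 := { c with x1 := md c.x1 c.x3, y1 := md c.y1 c.y3, z1 := md c.z1 c.z3 })
        (i := 1) (j := 3) (by decide) (m := mP (md c.x1 c.x3) (md c.y1 c.y3) (md c.z1 c.z3))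
        (fun k => by rw [Pr_eq]; exact mP_mid e1 e2 e3 k)
        (by rw [Pr_eq, Pr_eq]; exact upd4_3 _ _ _ _ _)
        (by rw [Pr_eq, Pr_eq]; exact upd4_1 _ _ _ _ _) rfl rfl hI with h1 | h1
    · exact ihl _ p q hl hc.A13l P N h1 hp hq
    · exact ihr _ p q hr hc.A13r P N h1 hp hq
  | A23 l r ihl ihr =>
    intro c p q h hc P N hI hp hq
    simp only [check, Bool.and_eq_true] at h
    obtain ⟨⟨⟨⟨e1, e2⟩, e3⟩, hl⟩, hr⟩ := h
    rcases inC_splitP (c := c)
        (c1 := { c with x3 := md c.x2 c.x3, y3 := md c.y2 c.y3, z3 := md c.z2 c.z3 })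
        (c2 := { c with x2 := md c.x2 c.x3, y2 := md c.y2 c.y3, z2 := md c.z2 c.z3 })
        (i := 2) (j := 3) (by decide) (m := mP (md c.x2 c.x3) (md c.y2 c.y3) (md c.z2 c.z3))
        (fun k => by rw [Pr_eq]; exact mP_mid e1 e2 e3 k)
        (by rw [Pr_eq, Pr_eq]; exact upd4_3 _ _ _ _ _)
        (by rw [Pr_eq, Pr_eq]; exact upd4_2 _ _ _ _ _) rfl rfl hI with h1 | h1
    · exact ihl _ p q hl hc.A23l P N h1 hp hq
    · exact ihr _ p q hr hc.A23r P N h1 hp hq
  | B01 l r ihl ihr =>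
    intro c p q h hc P N hI hp hq
    simp only [check, Bool.and_eq_true] at h
    obtain ⟨⟨⟨e1, e2⟩, hl⟩, hr⟩ := h
    rcases inC_splitN (c := c) (c1 := { c with a1 := md c.a0 c.a1, b1 := md c.b0 c.b1 })
        (c2 := { c with a0 := md c.a0 c.a1, b0 := md c.b0 c.b1 })
        (i := 0) (j := 1) (by decide) (m := mN (md c.a0 c.a1) (md c.b0 c.b1))
        (fun k => by rw [Nr_eq]; exact mN_mid e1 e2 k)
        (by rw [Nr_eq, Nr_eq]; exact upd3_1 _ _ _ _)
        (by rw [Nr_eq, Nr_eq]; exact upd3_0 _ _ _ _) rfl rfl hI with h1 | h1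
    · exact ihl _ p q hl hc.B01l P N h1 hp hq
    · exact ihr _ p q hr hc.B01r P N h1 hp hq
  | B02 l r ihl ihr =>
    intro c p q h hc P N hI hp hq
    simp only [check, Bool.and_eq_true] at h
    obtain ⟨⟨⟨e1, e2⟩, hl⟩, hr⟩ := h
    rcases inC_splitN (c := c) (c1 := { c with a2 := md c.a0 c.a2, b2 := md c.b0 c.b2 })
        (c2 := { c with a0 := md c.a0 c.a2, b0 := md c.b0 c.b2 })
        (i := 0) (j := 2) (by decide) (m := mN (md c.a0 c.a2) (md c.b0 c.b2))
        (fun k => by rw [Nr_eq]; exact mN_mid e1 e2 k)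
        (by rw [Nr_eq, Nr_eq]; exact upd3_2 _ _ _ _)
        (by rw [Nr_eq, Nr_eq]; exact upd3_0 _ _ _ _) rfl rfl hI with h1 | h1
    · exact ihl _ p q hl hc.B02l P N h1 hp hq
    · exact ihr _ p q hr hc.B02r P N h1 hp hq
  | B12 l r ihl ihr =>
    intro c p q h hc P N hI hp hq
    simp only [check, Bool.and_eq_true] at h
    obtain ⟨⟨⟨e1, e2⟩, hl⟩, hr⟩ := h
    rcases inC_splitN (c := c) (c1 := { c with a2 := md c.a1 c.a2, b2 := md c.b1 c.b2 })
        (c2 := { c with a1 := md c.a1 c.a2, b1 := md c.b1 c.b2 })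
        (i := 1) (j := 2) (by decide) (m := mN (md c.a1 c.a2) (md c.b1 c.b2))
        (fun k => by rw [Nr_eq]; exact mN_mid e1 e2 k)
        (by rw [Nr_eq, Nr_eq]; exact upd3_2 _ _ _ _)
        (by rw [Nr_eq, Nr_eq]; exact upd3_1 _ _ _ _) rfl rfl hI with h1 | h1
    · exact ihl _ p q hl hc.B12l P N h1 hp hq
    · exact ihr _ p q hr hc.B12r P N h1 hp hq

end

end Pool.Agent.H315.NW
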