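import Pool.Agent.H315.NW.Snd6

/-!
# Project NW (helper315): arithmetic in `ℤ[φ]`, approximations, links with the constraints
-/

set_option autoImplicit false

namespace Pool.Agent.H315.NW

open Matrix

namespace Zp

/-- the value of `x + y φ` -/
noncomputable def zv (z : ℤ × ℤ) : ℝ := z.1 + z.2 * g

/-- the approximation -/
def ap (z : ℤ × ℤ) : ℤ := z.1 * FM + z.2 * FG

/-- product -/
def mul (x y : ℤ × ℤ) : ℤ × ℤ := (x.1 * y.1 + x.2 * y.2, x.1 * y.2 + x.2 * y.1 + x.2 * y.2)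
/-- sum -/
def add (x y : ℤ × ℤ) : ℤ × ℤ := (x.1 + y.1, x.2 + y.2)
/-- difference -/
def sub (x y : ℤ × ℤ) : ℤ × ℤ := (x.1 - y.1, x.2 - y.2)

theorem gsq : g ^ 2 = g + 1 := Real.goldenRatio_sq

theorem zv_mul (x y : ℤ × ℤ) : zv (mul x y) = zv x * zv y := by
  simp only [zv, mul]; push_cast
  linear_combination (-(x.2 : ℝ) * y.2) * gsq

theorem zv_add (x y : ℤ × ℤ) : zv (add x y) = zv x + zv y := by
  simp only [zv, add]; push_cast; ring

theorem zv_sub (x y : ℤ × ℤ) : zv (sub x y) = zv x - zv y := by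
  simp only [zv, sub]; push_cast; ring

theorem g_lo : (28464754956276.5 : ℝ) / 17592186044416 ≤ g := by
  have h5 : (0 : ℝ) ≤ 5 := by norm_num
  have : (2 * (28464754956276.5 : ℝ) / 17592186044416 - 1) ≤ Real.sqrt 5 := by
    apply Real.le_sqrt_of_sq_le; norm_num
  have e : g = (1 + Real.sqrt 5) / 2 := rfl
  rw [e]; linarith

theorem g_hi : g ≤ (28464754956277.5 : ℝ) / 17592186044416 := by
  have : Real.sqrt 5 ≤ (2 * (28464754956277.5 : ℝ) / 17592186044416 - 1) := by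
    apply Real.sqrt_le_iff.2; constructor <;> norm_num
  have e : g = (1 + Real.sqrt 5) / 2 := rfl
  rw [e]; linarith

theorem ap_err {z : ℤ × ℤ} (h : |z.2| ≤ 2) : |(ap z : ℝ) - 2 ^ 44 * zv z| ≤ 1 := by
  have h1 := g_lo
  have h2 := g_hi
  have h3 : |(z.2 : ℝ)| ≤ 2 := by exact_mod_cast h
  have e : (ap z : ℝ) - 2 ^ 44 * zv z = z.2 * (28464754956277 - 17592186044416 * g) := by
    simp only [ap, zv, FM, FG]; push_cast; ring
  rw [e, abs_mul]
  have h4 : |(28464754956277 : ℝ) - 17592186044416 * g| ≤ 1 / 2 := by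
    rw [abs_le]; constructor <;> linarith
  have := mul_le_mul h3 h4 (abs_nonneg _) (by norm_num)
  linarith

theorem zv_le {z : ℤ × ℤ} (h : |z.2| ≤ 2) (h' : |z.1| ≤ 2) : |zv z| ≤ 6 := by
  have h1 := g_lo
  have h2 := g_hi
  have h3 : |(z.2 : ℝ)| ≤ 2 := by exact_mod_cast h
  have h4 : |(z.1 : ℝ)| ≤ 2 := by exact_mod_cast h'
  have h5 : |(z.2 : ℝ) * g| ≤ 2 * g := by
    rw [abs_mul, abs_of_nonneg (by linarith : 0 ≤ g)]
    exact mul_le_mul_of_nonneg_right h3 (by linarith)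
  refine (abs_add_le _ _).trans ?_
  linarith

/-- a sufficient test for nonnegativity -/
def nn (z : ℤ × ℤ) : Bool := decide (0 ≤ z.1 * 10000 + z.2 * 16180) &&
  decide (0 ≤ z.1 * 10000 + z.2 * 16181)

theorem nn_spec {z : ℤ × ℤ} (h : nn z = true) : 0 ≤ zv z := by
  simp only [nn, Bool.and_eq_true, decide_eq_true_eq] at h
  obtain ⟨a, b⟩ := h
  have h1 := g_lo
  have h2 := g_hi
  have a' : (0 : ℝ) ≤ z.1 * 10000 + z.2 * 16180 := by exact_mod_cast a
  have b' : (0 : ℝ) ≤ z.1 * 10000 + z.2 * 16181 := by exact_mod_cast b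
  have l : (1.6180 : ℝ) ≤ g := by linarith
  have u : g ≤ (1.6181 : ℝ) := by linarith
  unfold zv
  rcases le_total 0 (z.2 : ℝ) with hz | hz
  · nlinarith
  · nlinarith

end Zp

/-- a vector over `ℤ[φ]` -/
structure ZT where
  x : ℤ × ℤ
  y : ℤ × ℤ
  z : ℤ × ℤ

namespace ZT

open Zp

/-- the real vector -/
noncomputable def r (a : ZT) : Fin 3 → ℝ := ![zv a.x, zv a.y, zv a.z]
/-- approximation -/
def ap (a : ZT) : Z3 := ⟨Zp.ap a.x, Zp.ap a.y, Zp.ap a.z⟩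
/-- scaled approximation -/
def ap2 (a : ZT) : Z3 := ⟨cd * FM * Zp.ap a.x, cd * FM * Zp.ap a.y, cd * FM * Zp.ap a.z⟩
/-- vector product -/
def cross (a b : ZT) : ZT :=
  ⟨sub (mul a.y b.z) (mul a.z b.y), sub (mul a.z b.x) (mul a.x b.z),
    sub (mul a.x b.y) (mul a.y b.x)⟩
/-- difference times `φ ^ 2` -/
def dif (a b : ZT) : ZT := ⟨mul (1, 1) (sub a.x b.x), mul (1, 1) (sub a.y b.y),
  mul (1, 1) (sub a.z b.z)⟩
/-- scalar product -/
def dot (a b : ZT) : ℤ × ℤ := add (add (mul a.x b.x) (mul a.y b.y)) (mul a.z b.z)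
/-- the coefficients are small -/
def sm (a : ZT) : Bool := decide (|a.x.1| ≤ 2) && decide (|a.x.2| ≤ 2) && decide (|a.y.1| ≤ 2) &&
  decide (|a.y.2| ≤ 2) && decide (|a.z.1| ≤ 2) && decide (|a.z.2| ≤ 2)

theorem cross_r (a b : ZT) : (cross a b).r = cr a.r b.r := by
  funext i
  fin_cases i <;> simp [cross, r, cr, zv_sub, zv_mul]

theorem dif_r (a b : ZT) : (dif a b).r = g ^ 2 • (a.r - b.r) := by
  have h : zv (1, 1) = g ^ 2 := by rw [gsq]; simp [zv]; ring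
  funext i
  fin_cases i <;> simp [dif, r, zv_sub, zv_mul, h]

theorem dot_r (a b : ZT) : zv (dot a b) = a.r ⬝ᵥ b.r := by
  simp [dot, r, zv_add, zv_mul, dotProduct, Fin.sum_univ_three]

theorem ap_r {a : ZT} (h : sm a = true) (i : Fin 3) : |a.ap.r i - 2 ^ 44 * a.r i| ≤ 1 := by
  simp only [sm, Bool.and_eq_true, decide_eq_true_eq] at h
  fin_cases i
  · exact ap_err h.1.1.1.1.2
  · exact ap_err h.1.1.2
  · exact ap_err h.2

theorem ap2_r {a : ZT} (h : sm a = true) (i : Fin 3) :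
    |a.ap2.r i - cd * 2 ^ 88 * a.r i| ≤ 2 ^ 56 := by
  have h1 := ap_r h i
  have e : a.ap2.r i = cd * FM * a.ap.r i := by
    fin_cases i <;> simp [Z3.r, Z3.v, ap2, ap]
  have e2 : a.ap2.r i - cd * 2 ^ 88 * a.r i = (cd * FM) * (a.ap.r i - 2 ^ 44 * a.r i) := by
    rw [e]; simp only [FM]; push_cast; ring
  rw [e2, abs_mul]
  have e3 : |((cd : ℝ) * FM)| = 3973 * 2 ^ 44 := by
    simp only [cd, FM]; push_cast; rw [abs_of_nonneg (by positivity)]; norm_num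
  rw [e3]
  have : (3973 : ℝ) * 2 ^ 44 * |a.ap.r i - 2 ^ 44 * a.r i| ≤ 3973 * 2 ^ 44 * 1 :=
    mul_le_mul_of_nonneg_left h1 (by positivity)
  refine this.trans (by norm_num)

theorem r_le {a : ZT} (h : sm a = true) (i : Fin 3) : |a.r i| ≤ 6 := by
  simp only [sm, Bool.and_eq_true, decide_eq_true_eq] at h
  fin_cases i
  · exact zv_le h.1.1.1.1.2 h.1.1.1.1.1
  · exact zv_le h.1.1.2 h.1.1.1.2
  · exact zv_le h.2 h.1.2

end ZT

theorem bf_Rm (k : ℝ) (a t v : Fin 3 → ℝ) (p : Fin 4 → ℝ) (n : Fin 3 → ℝ) :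
    bf k a t v p p n = k * (a ⬝ᵥ (Rm p *ᵥ cr n v)) - t ⬝ᵥ (Rm p *ᵥ n) := by
  simp only [bf, Rm, cr, dotProduct, mulVec, Fin.sum_univ_three, Matrix.of_apply,
    Matrix.cons_val_zero, Matrix.cons_val_one, Matrix.cons_val]
  ring

end Pool.Agent.H315.NW
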